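import Pool.Agent.Lib.TWIV.TmDefs
import Pool.Agent.Lib.TWX.Isog

/-!
# TANK W, tame case: the final theorem in a field with all the real monomials

* `Tm.rat'`: the values of `L` are multiples of `v x` by rational numbers with denominator prime to
  `p`; `Tm.monGH`; `Tm.up`: a tame letter of a purely inseparable extension;
* `tame_H`: from the exchange of the tame letter (`ExM`) and the core (`CorT`).
-/

set_option autoImplicit false

open Polynomial

namespace Pool.Agent.TWIV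

open Pool.Agent.H15JM (RVal)
open Pool.Agent.LU1 (VPos adj)
open Pool.Agent.D2 (Ctx0)
open Pool.Agent.D2P (hen clI mem_clI mem_adj_self)
open Pool.Agent.TWM Pool.Agent.TWC Pool.Agent.TWS

universe u

variable {k Ω : Type u} [Field k] [Field Ω] [Algebra k Ω] {v : RVal Ω}
  {L L₁ C : IntermediateField k Ω} {x : Ω} {p : ℕ}

/-- Exchange of the tame letter. -/
def ExM (k : Type u) {Ω : Type u} [Field k] [Field Ω] [Algebra k Ω] (p : ℕ) (v : RVal Ω) : Prop :=
  ∀ (L : IntermediateField k Ω) (x u : Ω) (M M' : ℝ → Ω), Tm p v L x → u ∈ L →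
    Gt v (v x) (u - x) → MS v ⊤ M → MS v ⊤ M' → M (v x) = x → M' (v x) = u →
    TowR v 3 (PM v (⊥ : IntermediateField k Ω) ⊤ M) (PM v L ⊤ M) →
    TowR v 3 (PM v (⊥ : IntermediateField k Ω) ⊤ M') (PM v L ⊤ M')

/-- The core. -/
def CorT (k : Type u) {Ω : Type u} [Field k] [Field Ω] [Algebra k Ω] (p : ℕ) (v : RVal Ω) :
    Prop :=
  ∀ (L : IntermediateField k Ω) (x : Ω) (M : ℝ → Ω), Tm p v L x → MS v ⊤ M → M (v x) = x →
    Tow v 3 (PM v (⊥ : IntermediateField k Ω) ⊤ M) (PM v L ⊤ M) →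
    TowR v 3 (PM v (⊥ : IntermediateField k Ω) (VG v L) M) L

theorem Tm.mono (h : Tm p v L x) (hCL : C ≤ L) (hC : Cld v C) (hx : x ∈ C) : Tm p v C x :=
  ⟨hC, hx, h.ne, h.vne, fun h1 => h.tame (VG.mono hCL h1), fun g hg => h.rat g (VG.mono hCL hg)⟩

theorem Tm.val_mem (h : Tm p v L x) : v x ∈ VG v L := ⟨x, h.mem, h.ne, rfl⟩

section Rat

variable [hp : Fact p.Prime]

/-- The values are multiples of `v x`, with denominators prime to `p`. -/
theorem Tm.rat' (h : Tm p v L x) {g : ℝ} (hg : g ∈ VG v L) :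
    ∃ n : ℕ, ¬ p ∣ n ∧ ∃ m : ℤ, (n : ℝ) * g = m * v x := by
  obtain ⟨n, hn, m, h1⟩ := h.rat g hg
  obtain ⟨j, n', hn', rfl⟩ := Nat.exists_eq_pow_mul_and_not_dvd hn p hp.out.ne_one
  refine ⟨n', hn', ?_⟩
  have hp0 : (p : ℝ) ≠ 0 := Nat.cast_ne_zero.2 hp.out.ne_zero
  clear hn
  induction j generalizing m with
  | zero => exact ⟨m, by rwa [pow_zero, one_mul] at h1⟩
  | succ j ih =>
    by_cases hd : (p : ℤ) ∣ m
    · obtain ⟨m', rfl⟩ := hd
      refine ih m' ?_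
      push_cast at h1 ⊢
      have h2 : (p : ℝ) * ((p : ℝ) ^ j * n' * g) = p * (m' * v x) := by
        rw [pow_succ] at h1
        linear_combination h1
      exact mul_left_cancel₀ hp0 h2
    · exfalso
      have hcop : IsCoprime (p : ℤ) m :=
        (Prime.coprime_iff_not_dvd (Nat.prime_iff_prime_int.1 hp.out)).2 hd
      obtain ⟨a, b, hab⟩ := hcop
      refine h.tame ?_
      have h3 : v x / p = (b * p ^ j * n' : ℤ) • g + a • v x := by
        rw [zsmul_eq_mul, zsmul_eq_mul, div_eq_iff hp0]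
        push_cast at h1 ⊢
        have h4 : (a : ℝ) * p + b * m = 1 := by exact_mod_cast hab
        rw [pow_succ] at h1
        linear_combination (-(b : ℝ)) * h1 - v x * h4
      rw [h3]
      exact (VG v L).add_mem ((VG v L).zsmul_mem hg _) ((VG v L).zsmul_mem h.val_mem _)

/-- `p`-th powers: the two cases. -/
theorem Tm.up [IsAlgClosed k] (hk : Ctx0 k v) (h : Tm p v L x) (hL : Cld v L₁) (hLL : L ≤ L₁)
    (hLp : ∀ a ∈ L₁, a ^ p ∈ L) :
    Tm p v L₁ x ∨ ∃ u ∈ L₁, Tm p v L₁ u ∧ Gt v (v x) (u ^ p - x) ∧ p * v u = v x := by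
  have hp0 : (p : ℝ) ≠ 0 := Nat.cast_ne_zero.2 hp.out.ne_zero
  have hval : ∀ g ∈ VG v L₁, (p : ℝ) * g ∈ VG v L := by
    rintro g ⟨a, ha, ha0, rfl⟩
    exact ⟨a ^ p, hLp a ha, pow_ne_zero _ ha0, v.map_pow ha0 p⟩
  have hrat : RatV v L₁ (v x) := by
    intro g hg
    obtain ⟨n, hn, m, h1⟩ := h.rat _ (hval g hg)
    refine ⟨n * p, Nat.mul_ne_zero hn hp.out.ne_zero, m, ?_⟩
    push_cast
    linear_combination h1
  by_cases hd : v x / p ∈ VG v L₁
  · right
    obtain ⟨a, ha, ha0, hva⟩ := hd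
    have hap : a ^ p ≠ 0 := pow_ne_zero _ ha0
    have hvap : v (a ^ p) = v x := by
      rw [v.map_pow ha0, hva]
      field_simp
    have hq0 : x / a ^ p ≠ 0 := div_ne_zero h.ne hap
    have hq : v (x / a ^ p) = 0 := by rw [v.map_div h.ne hap, hvap, sub_self]
    obtain ⟨c, hc, hc1⟩ := hk.res _ hq0 hq
    obtain ⟨d, hd⟩ := IsAlgClosed.exists_pow_nat_eq c hp.out.pos
    have hd0 : d ≠ 0 := by
      rintro rfl
      rw [zero_pow hp.out.ne_zero] at hd
      exact hc hd.symm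
    have hd0' : algebraMap k Ω d ≠ 0 := by rwa [Ne, _root_.map_eq_zero]
    set u := algebraMap k Ω d * a with hu
    have hu0 : u ≠ 0 := mul_ne_zero hd0' ha0
    have hvu : v u = v x / p := by rw [hu, v.map_mul hd0' ha0, hk.triv d hd0, zero_add, hva]
    have huL : u ∈ L₁ := mul_mem (L₁.algebraMap_mem d) ha
    have hpu : p * v u = v x := by
      rw [hvu]
      field_simp
    refine ⟨u, huL, ⟨hL, huL, hu0, ?_, ?_, ?_⟩, ?_, hpu⟩
    · rw [hvu]
      exact div_ne_zero h.vne hp0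
    · intro h1
      have h2 := hval _ h1
      rw [mul_div_cancel₀ _ hp0, hvu] at h2
      exact h.tame h2
    · intro g hg
      obtain ⟨n, hn, m, h1⟩ := hrat g hg
      refine ⟨n, hn, m * p, ?_⟩
      rw [h1, ← hpu]
      push_cast
      ring
    · have e : u ^ p - x = -(a ^ p * (x / a ^ p - algebraMap k Ω c)) := by
        rw [hu, mul_pow, ← map_pow, hd]
        field_simp
        ring
      rw [e]
      intro h0
      have h1 : x / a ^ p - algebraMap k Ω c ≠ 0 := fun h2 => h0 (by rw [h2, mul_zero, neg_zero])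
      rw [v.map_neg _ (mul_ne_zero hap h1), v.map_mul hap h1, hvap]
      have := hc1 h1
      linarith
  · left
    exact ⟨hL, hLL h.mem, h.ne, h.vne, hd, hrat⟩

end Rat

section Mon

variable [hp : Fact p.Prime] [CharP Ω p] [IsAlgClosed Ω]

/-- The monomials of a closed field with a tame letter. -/
theorem Tm.monGH (hk : Ctx0 k v) (h : Tm p v L x) {M : ℝ → Ω} (hM : MS v ⊤ M) (hMx : M (v x) = x) :
    MonG v L ⊤ M := by
  refine ⟨hM, fun g _ hg => ?_⟩
  obtain ⟨n, hn, m, h1⟩ := h.rat' hg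
  have h2 : M g ^ n ∈ L := by
    rw [← hM.pow trivial n, h1, MS.zpow hM trivial m, hMx]
    exact zpow_mem h.mem m
  refine root_mem p hk h.cld hn (hM.ne g trivial) h2 ?_
  rw [hM.val g trivial]
  exact hg

end Mon

section Final

variable [hp : Fact p.Prime] [CharP k p] [CharP Ω p] [IsAlgClosed k] [IsAlgClosed Ω]

omit [CharP k p] in
/-- The base is perfect. -/
theorem perf_PM_bot {M : ℝ → Ω} (hM : MS v ⊤ M) :
    ∀ a ∈ PM v (⊥ : IntermediateField k Ω) ⊤ M, ∃ b ∈ PM v (⊥ : IntermediateField k Ω) ⊤ M,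
      b ^ p = a := by
  refine PM.perf p hM (fun _ _ => trivial) fun a ha => ?_
  obtain ⟨c, rfl⟩ := IntermediateField.mem_bot.1 ha
  obtain ⟨d, rfl⟩ := IsAlgClosed.exists_pow_nat_eq c hp.out.pos
  exact ⟨algebraMap k Ω d, IntermediateField.algebraMap_mem _ d, (map_pow _ _ _).symm⟩

omit hp [CharP k p] [CharP Ω p] [IsAlgClosed k] [IsAlgClosed Ω] in
theorem PM_eq_sup (L : IntermediateField k Ω) {M : ℝ → Ω} :
    PM v L ⊤ M = clI v (L ⊔ PM v (⊥ : IntermediateField k Ω) ⊤ M) := by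
  refine le_antisymm (PM.le_of (cld_clI v _) ?_ fun g hg => ?_) (clI_le' (sup_le PM.le ?_) PM.cld)
  · exact le_sup_left.trans (TWC.self_le_clI v _)
  · exact TWC.self_le_clI v _ ((le_sup_right : PM v (⊥ : IntermediateField k Ω) ⊤ M ≤ _)
      (PM.mon hg))
  · exact PM.mono bot_le

/-- One step up, over the perfect base. -/
theorem tow_up (hk : Ctx0 k v) (hc : CompleteV v) {M : ℝ → Ω} (hM : MS v ⊤ M) (hLL : L ≤ L₁)
    (hLp : ∀ a ∈ L₁, a ^ p ∈ L)
    (hT : Tow v 3 (PM v (⊥ : IntermediateField k Ω) ⊤ M) (PM v L ⊤ M)) :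
    Tow v 3 (PM v (⊥ : IntermediateField k Ω) ⊤ M) (PM v L₁ ⊤ M) := by
  have : Fact (Ctx0 k v) := ⟨hk⟩
  have : PerfectRing k p := PerfectField.toPerfectRing p
  obtain ⟨y, hy, hT⟩ := tow_succ.1 hT
  have hMG : MonG v (PM v (⊥ : IntermediateField k Ω) ⊤ M) ⊤ M := ⟨hM, fun g _ _ => PM.mon trivial⟩
  rw [PM_eq_sup L] at hT
  obtain ⟨y', h1, h2⟩ := tow_step (k := k) hc le_rfl hMG PM.cld (perf_PM_bot hM) hy
    (TowR.of_tow hT) hLL hLp
  rw [← PM_eq_sup L₁] at h2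
  have h3 := TowR.pm hMG (fun s => ⟨M s, PM.mon trivial, hM.ne s trivial, hM.val s trivial⟩)
    (Imm.refl _) (TowR.succ h1 h2)
  have e : ∀ A : IntermediateField k Ω, Cld v A → PM v (⊥ : IntermediateField k Ω) ⊤ M ≤ A →
      PM v A ⊤ M = A := fun A hA hA' => le_antisymm
    (PM.le_of hA le_rfl fun g hg => hA' (PM.mon hg)) PM.le
  rwa [e _ PM.cld le_rfl, e _ PM.cld (PM.mono bot_le)] at h3

/-- **THE TAME LEAF** in a field with all the real monomials. -/
theorem tame_H (hk : Ctx0 k v) (hc : CompleteV v) (hMS : ∃ M : ℝ → Ω, MS v ⊤ M)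
    (hex : ExM k p v) (hcore : CorT k p v) (hT : TmT p v L) {g : Ω} (hg : g ^ p ∈ L) :
    ∃ (G : AddSubgroup ℝ) (M : ℝ → Ω) (g₀ : ℝ), MS v G M ∧ g₀ ∈ G ∧ g₀ ≠ 0 ∧
      TowR v 3 (PM v (⊥ : IntermediateField k Ω) G M) (clI v (adj L g)) := by
  obtain ⟨x, y, s, hx, h2, h1⟩ := hT
  obtain ⟨M₀, hM₀⟩ := hMS
  obtain ⟨M, hM, hMx⟩ := exists_MS hM₀ hx.ne hx.vne
  set E := PM v (⊥ : IntermediateField k Ω) ⊤ M with hE
  set C := TWM.cadj v (TWM.cadj v (⊥ : IntermediateField k Ω) x) y with hC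
  have hxC : x ∈ C := le_cadj v _ _ (self_mem_cadj v _ _)
  have hTC : Tm p v C x := hx.mono h2.le (cld_cadj v _ _) hxC
  have hxE : x ∈ E := by
    rw [← hMx]
    exact PM.mon trivial
  -- the tower over the perfect base
  have hTow : Tow v 3 E (PM v L ⊤ M) := by
    have h3 := TowR.pm (hTC.monGH hk hM hMx) (fun s => ⟨M s, PM.mon trivial, hM.ne s trivial,
      hM.val s trivial⟩) (Imm.refl _) h2
    have h4 : PM v C ⊤ M = TWM.cadj v E y := by
      have h5 : TWM.cadj v E x = E := le_antisymm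
        (clI_le' (D2P.adj_le le_rfl hxE) PM.cld) (le_cadj v _ _)
      rw [hC, PM.cadj, PM.cadj, ← hE, h5]
    obtain ⟨h5, h6⟩ := TL.scale (h1 M hM hMx) (c := M s) (PM.mon trivial) (hM.ne s trivial)
      (hM.val s trivial)
    rw [h4, ← h6] at h3
    exact Tow.succ h5 h3
  -- one step up
  set L₁ := clI v (adj L g) with hL₁
  have hLL : L ≤ L₁ := fun a ha => self_le_clI v _ ((mem_adj_self L g).2 ha)
  have hLp : ∀ a ∈ L₁, a ^ p ∈ L := by
    have h3 : L₁ ≤ D2P.rootF p 1 L := by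
      refine clI_le' (D2P.adj_le (TWM.le_rootF p L) ((TWM.mem_rootF1 p).2 hg))
        (TWM.cld_rootF p hx.cld)
    exact fun a ha => (TWM.mem_rootF1 p).1 (h3 ha)
  have fin : ∀ (u : Ω) (M' : ℝ → Ω), Tm p v L₁ u → MS v ⊤ M' → M' (v u) = u →
      Tow v 3 (PM v (⊥ : IntermediateField k Ω) ⊤ M') (PM v L ⊤ M') →
      ∃ (G : AddSubgroup ℝ) (M : ℝ → Ω) (g₀ : ℝ), MS v G M ∧ g₀ ∈ G ∧ g₀ ≠ 0 ∧
        TowR v 3 (PM v (⊥ : IntermediateField k Ω) G M) L₁ := fun u M' hu hM' hMu h3 =>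
    ⟨VG v L₁, M', v u, MS.mono hM' le_top, hu.val_mem, hu.vne, hcore L₁ u M' hu hM' hMu
      (tow_up hk hc hM' hLL hLp h3)⟩
  rcases hx.up hk (cld_clI v _) hLL hLp with h3 | ⟨u, hu, hu1, hu2, hu3⟩
  · exact fin x M h3 hM hMx hTow
  · obtain ⟨M', hM', hMu⟩ := exists_MS hM₀ hu1.ne hu1.vne
    have hMx' : M' (v x) = u ^ p := by
      rw [← hu3, ← hMu, ← hM'.pow trivial p, hMu]
    refine fin u M' hu1 hM' hMu ?_
    have h4 := hex L x (u ^ p) M M' hx (hLp u hu) hu2 hM hM' hMx hMx' (TowR.of_tow hTow)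
    have hMG : MonG v (PM v (⊥ : IntermediateField k Ω) ⊤ M') ⊤ M' :=
      ⟨hM', fun g _ _ => PM.mon trivial⟩
    have h5 := TowR.pm hMG (fun s => ⟨M' s, PM.mon trivial, hM'.ne s trivial,
      hM'.val s trivial⟩) (Imm.refl _) h4
    have e : ∀ A : IntermediateField k Ω, Cld v A → PM v (⊥ : IntermediateField k Ω) ⊤ M' ≤ A →
        PM v A ⊤ M' = A := fun A hA hA' => le_antisymm
      (PM.le_of hA le_rfl fun g hg => hA' (PM.mon hg)) PM.le
    rwa [e _ PM.cld le_rfl, e _ PM.cld (PM.mono bot_le)] at h5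

end Final

end Pool.Agent.TWIV
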