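import Pool.Agent.Lib.TWS.MonF

/-!
# TANK W, tame case: the fields of the tame leaf

* `Tm p v L x`: `L` closed, of rational rank one, `x ∈ L`, `v x / p` is not a value of `L`;
* `TmT p v L`: `L` is a tower of length two over the closure of `k(x, y)`, `y` of transcendental type
  over the closure of `k(M r : r ∈ ℝ)`.
-/

set_option autoImplicit false

open Polynomial

namespace Pool.Agent.TWIV

open Pool.Agent.H15JM (RVal)
open Pool.Agent.LU1 (VPos adj)
open Pool.Agent.D2 (Ctx0)
open Pool.Agent.D2P (hen clI mem_clI)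
open Pool.Agent.TWM Pool.Agent.TWC Pool.Agent.TWS

universe u

variable {k Ω : Type u} [Field k] [Field Ω] [Algebra k Ω]

/-- A closed field of rational rank one with a tame letter. -/
structure Tm (p : ℕ) (v : RVal Ω) (L : IntermediateField k Ω) (x : Ω) : Prop where
  cld : Cld v L
  mem : x ∈ L
  ne : x ≠ 0
  vne : v x ≠ 0
  tame : v x / p ∉ VG v L
  rat : RatV v L (v x)

/-- The class of the closed fields of the tame leaf. -/
def TmT (p : ℕ) (v : RVal Ω) (L : IntermediateField k Ω) : Prop :=
  ∃ (x y : Ω) (s : ℝ), Tm p v L x ∧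
    TowR v 2 (TWM.cadj v (TWM.cadj v (⊥ : IntermediateField k Ω) x) y) L ∧
    ∀ M : ℝ → Ω, MS v ⊤ M → M (v x) = x → TL v (PM v (⊥ : IntermediateField k Ω) ⊤ M) y s

end Pool.Agent.TWIV
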