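import Pool.Agent.Lib.TWIV.A2P
import Pool.Agent.Lib.TWT.FreeA7

/-!
# TANK W, tame case, row A7.c: the coarse world

`Γ = VG v N` need not be saturated prime to `p`. The coarse field `cs p v N A M` of `A` is the
closure of `A(M g : g ∈ satp p Γ)`; it has the same graded field `PM v A ⊤ M`, and the coarse fields
of `N ≤ L` are a world.
-/

set_option autoImplicit false
set_option linter.unusedSectionVars false

open Polynomial

namespace Pool.Agent.TWIV

open Pool.Agent.H15JM (RVal)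
open Pool.Agent.LU1 (VPos adj)
open Pool.Agent.D2 (Ctx0)
open Pool.Agent.D2P (hen clI mem_clI)
open Pool.Agent.TWM Pool.Agent.TWC Pool.Agent.TWS Pool.Agent.TWT

universe u

variable {k Ω : Type u} [Field k] [Field Ω] [Algebra k Ω] {v : RVal Ω}

/-- The coarse field: all the monomials with values in the saturation of the value group. -/
noncomputable def cs (p : ℕ) [Fact p.Prime] (v : RVal Ω) (N A : IntermediateField k Ω)
    (M : ℝ → Ω) : IntermediateField k Ω := PM v A (satp p (VG v N)) M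

section Basic

variable {N L A B : IntermediateField k Ω} {M : ℝ → Ω} {p : ℕ} [Fact p.Prime]

theorem cs_le : A ≤ cs p v N A M := PM.le

theorem cs_cld : Cld v (cs p v N A M) := PM.cld

theorem cs_mono (h : A ≤ B) : cs p v N A M ≤ cs p v N B M := PM.mono h

theorem cs_mon {g : ℝ} (hg : g ∈ satp p (VG v N)) : M g ∈ cs p v N A M := PM.mon hg

theorem cs_cadj (z : Ω) : cs p v N (cadj v A z) M = cadj v (cs p v N A M) z := PM.cadj z

/-- The graded field of the coarse field. -/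
theorem PM_cs (A : IntermediateField k Ω) : PM v (cs p v N A M) ⊤ M = PM v A ⊤ M :=
  World.PM_PM le_top A

end Basic

/-- The saturation of a group of rational rank one which is not divisible by `p`. -/
theorem satp_fin {p : ℕ} [Fact p.Prime] {Γ : AddSubgroup ℝ} {g₀ : ℝ} (hg₀ : g₀ ∈ Γ)
    (hg₀' : g₀ / p ∉ Γ) (hrat : ∀ g ∈ Γ, ∃ n : ℕ, n ≠ 0 ∧ ∃ m : ℤ, (n : ℝ) * g = m * g₀) (g : ℝ)
    (hg : g ≠ 0) : ∃ n : ℕ, g / (p : ℝ) ^ n ∉ satp p Γ := by
  have hp : p.Prime := Fact.out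
  have hp0 : (p : ℝ) ≠ 0 := by exact_mod_cast hp.ne_zero
  by_contra hcon
  push Not at hcon
  obtain ⟨n₁, hn₁, h1⟩ := hcon 0
  rw [pow_zero, div_one] at h1
  obtain ⟨n₂, hn₂, m, h2⟩ := hrat _ h1
  have hn₁0 : (n₁ : ℝ) ≠ 0 := by
    have : n₁ ≠ 0 := by rintro rfl; exact hn₁ (dvd_zero p)
    exact_mod_cast this
  have hn₂0 : (n₂ : ℝ) ≠ 0 := by exact_mod_cast hn₂
  have hm : m ≠ 0 := by
    rintro rfl
    rw [Int.cast_zero, zero_mul] at h2
    exact (mul_ne_zero hn₂0 (mul_ne_zero hn₁0 hg)) h2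
  obtain ⟨a, m', hm', hmm⟩ := Nat.exists_eq_pow_mul_and_not_dvd (Int.natAbs_ne_zero.2 hm) p
    hp.ne_one
  obtain ⟨n₃, hn₃, h3⟩ := hcon (a + 1)
  -- `n₃ m' (g₀ / p) ∈ Γ`
  have h4 : ((n₃ * m' : ℕ) : ℝ) * (g₀ / p) ∈ Γ := by
    have h5 := Γ.nsmul_mem h3 (n₂ * n₁)
    rw [nsmul_eq_mul] at h5
    have h6 : ((n₂ * n₁ : ℕ) : ℝ) * ((n₃ : ℝ) * (g / (p : ℝ) ^ (a + 1))) =
        (n₃ : ℝ) * (m * g₀) / (p : ℝ) ^ (a + 1) := by
      rw [← h2]
      push_cast
      ring
    rw [h6] at h5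
    have h7 : (m : ℝ) = (p : ℝ) ^ a * m' ∨ (m : ℝ) = -((p : ℝ) ^ a * m') := by
      rcases Int.natAbs_eq m with h8 | h8
      · left
        rw [h8, hmm]
        push_cast
        ring
      · right
        rw [h8, hmm]
        push_cast
        ring
    rcases h7 with h7 | h7
    · rw [h7] at h5
      have h8 : (n₃ : ℝ) * ((p : ℝ) ^ a * m' * g₀) / (p : ℝ) ^ (a + 1) =
          ((n₃ * m' : ℕ) : ℝ) * (g₀ / p) := by
        push_cast
        field_simp
        ring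
      rwa [h8] at h5
    · rw [h7] at h5
      have h8 : (n₃ : ℝ) * (-((p : ℝ) ^ a * m') * g₀) / (p : ℝ) ^ (a + 1) =
          -(((n₃ * m' : ℕ) : ℝ) * (g₀ / p)) := by
        push_cast
        field_simp
        ring
      rw [h8] at h5
      have h9 := Γ.neg_mem h5
      rwa [neg_neg] at h9
  refine hg₀' (mem_of_coprime (p := p) (n := n₃ * m') (fun h => ?_) h4 (m := 1) ?_)
  · rcases hp.dvd_mul.1 h with h | h
    · exact hn₃ h
    · exact hm' h
  · rw [pow_one, mul_div_cancel₀ _ hp0]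
    exact hg₀

section World

variable {N L A : IntermediateField k Ω} {M : ℝ → Ω} {p : ℕ} [Fact p.Prime]

/-- **The coarse world.** -/
theorem World.coarse (W : World p v N L ⊤ M)
    (hsub : ∀ g : ℝ, g ≠ 0 → ∃ n : ℕ, g / (p : ℝ) ^ n ∉ satp p (VG v N)) :
    World p v (cs p v N N M) (cs p v N L M) ⊤ M ∧ VG v (cs p v N N M) = satp p (VG v N) ∧
      ∀ A, N ≤ A → A ≤ L → PM v (cs p v N A M) ⊤ M = PM v A ⊤ M := by
  have hV : VG v (cs p v N N M) = satp p (VG v N) := by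
    refine le_antisymm (fun g hg => ?_) fun g hg =>
      ⟨M g, cs_mon hg, W.ms.ne g trivial, W.ms.val g trivial⟩
    obtain ⟨a, ha, h, hh, rfl⟩ := W.VG_PM le_top (Imm.refl N) hg
    exact (satp p (VG v N)).add_mem (le_satp ha) hh
  refine ⟨⟨⟨W.ms, fun g _ hg => cs_mon (by rwa [← hV])⟩, Imm.pm (W.monG_sub le_top) W.imm, cs_cld,
    cs_cld, fun _ _ => trivial, fun g _ hg => ?_, ?_⟩, hV, fun A _ _ => PM_cs A⟩
  · rw [hV]
    exact hsub g hg
  · exact PM.le_of PM.cld W.gen fun g _ => PM.mon trivial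

/-- The coarse world, `VG v N` of rational rank one and not divisible by `p`. -/
theorem World.coarse_rat (W : World p v N L ⊤ M) {g₀ : ℝ} (hg₀ : g₀ ∈ VG v N)
    (hg₀' : g₀ / p ∉ VG v N) (hrat : RatV v N g₀) :
    World p v (cs p v N N M) (cs p v N L M) ⊤ M ∧ VG v (cs p v N N M) = satp p (VG v N) ∧
      ∀ A, N ≤ A → A ≤ L → PM v (cs p v N A M) ⊤ M = PM v A ⊤ M :=
  W.coarse (satp_fin hg₀ hg₀' hrat)

end World

end Pool.Agent.TWIV
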