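import Pool.Agent.Lib.TWIV.ExM1
import Pool.Agent.Lib.TWIV.TmDefs

/-!
# TANK W, leaf (IV): exchange of the tame letter

`Tm p v L x`, `u ∈ L`, `v (u - x) > v x`, `M (v x) = x`, `M' (v x) = u`: if `PM v L ⊤ M` is a tower
over `PM v ⊥ ⊤ M`, then `PM v L ⊤ M'` is a tower over `PM v ⊥ ⊤ M'` (`exch_mon`).
-/

set_option autoImplicit false
set_option linter.unusedSectionVars false

open Polynomial IntermediateField

namespace Pool.Agent.TWIV

open Pool.Agent.H15JM (RVal)
open Pool.Agent.D2 (Ctx0)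
open Pool.Agent.D2P (clI mem_clI)
open Pool.Agent.TWM Pool.Agent.TWS
open Pool.Agent.TWC (eq_zero_of_ge)

universe u

variable {k Ω : Type u} [Field k] [Field Ω] [Algebra k Ω]
  {v : RVal Ω} {G : AddSubgroup ℝ} {M M' : ℝ → Ω} {L A : IntermediateField k Ω}
  {γ b c : ℝ} {x u : Ω}

/-! ### One-units -/

theorem ge_zero_of_one {t : Ω} (h : Gt v 0 (t - 1)) : v.Ge 0 t := by
  have e : t = (t - 1) + 1 := by ring
  rw [e]
  exact h.ge.add fun _ => by rw [v.map_one]

theorem val_of_one {t : Ω} (h : Gt v 0 (t - 1)) : t ≠ 0 ∧ v t = 0 := by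
  have h5 : v (1 : Ω) = 0 := v.map_one
  obtain ⟨h1, h2⟩ := Gt.val_eq (v := v) (x := (1 : Ω)) (y := t) one_ne_zero (by
    rw [h5]
    exact h.sub_comm')
  exact ⟨h1, by rw [h2, h5]⟩

theorem ge_pow_sub_one {t : Ω} (hγ : 0 < γ) (h : v.Ge γ (t - 1)) (n : ℕ) :
    v.Ge γ (t ^ n - 1) := by
  have h0 := ge_zero_of_one (v := v) (t := t) (Gt.of_ge h hγ)
  induction n with
  | zero =>
    rw [pow_zero, sub_self]
    exact RVal.Ge.zero
  | succ n ih =>
    have e : t ^ (n + 1) - 1 = (t ^ n - 1) * t + (t - 1) := by ring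
    rw [e]
    have h1 := ih.mul h0
    rw [add_zero] at h1
    exact h1.add h

theorem ge_inv_sub_one {t : Ω} (hγ : 0 < γ) (h : v.Ge γ (t - 1)) : v.Ge γ (t⁻¹ - 1) := by
  obtain ⟨h1, h2⟩ := val_of_one (v := v) (t := t) (Gt.of_ge h hγ)
  have e : t⁻¹ - 1 = -((t - 1) * t⁻¹) := by
    field_simp
    ring
  rw [e]
  have h3 := h.mul (RVal.ge_self (v := v) t⁻¹)
  rw [v.map_inv h1, h2, neg_zero, add_zero] at h3
  exact h3.neg

theorem ge_zpow_sub_one {t : Ω} (hγ : 0 < γ) (h : v.Ge γ (t - 1)) (n : ℤ) :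
    v.Ge γ (t ^ n - 1) := by
  obtain ⟨m, h1 | h1⟩ := n.eq_nat_or_neg
  · rw [h1, zpow_natCast]
    exact ge_pow_sub_one hγ h m
  · rw [h1, zpow_neg, zpow_natCast, ← inv_pow]
    exact ge_pow_sub_one hγ (ge_inv_sub_one hγ h) m

/-- Roots of order prime to `p` keep the distance to `1`. -/
theorem ge_of_pow_sub_one (p : ℕ) [hp : Fact p.Prime] [CharP Ω p] {q : Ω} {n : ℕ} (hn : ¬ p ∣ n)
    (h1 : Gt v 0 (q - 1)) (h : v.Ge γ (q ^ n - 1)) : v.Ge γ (q - 1) := by
  have hpow : ∀ i : ℕ, Gt v 0 (q ^ i - 1) := by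
    intro i
    have hz := ge_zero_of_one h1
    induction i with
    | zero =>
      rw [pow_zero, sub_self]
      exact Gt.zero
    | succ i ih =>
      have e : q ^ (i + 1) - 1 = (q ^ i - 1) * q + (q - 1) := by ring
      rw [e]
      have := ih.mul_ge hz
      rw [add_zero] at this
      exact this.add h1
  have h4 : Gt v 0 ((n : Ω) - (∑ i ∈ Finset.range n, q ^ i)) := by
    have e : (n : Ω) - (∑ i ∈ Finset.range n, q ^ i) = -∑ i ∈ Finset.range n, (q ^ i - 1) := by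
      rw [Finset.sum_sub_distrib, Finset.sum_const, Finset.card_range, nsmul_eq_mul, mul_one]
      ring
    rw [e]
    exact (Gt.sum _ _ fun i _ => hpow i).neg
  obtain ⟨h5, h6⟩ := val_natCast (v := v) p hn
  obtain ⟨h7, h8⟩ := Gt.val_eq (v := v) (x := (n : Ω)) h5 (by rwa [h6])
  have e : q ^ n - 1 = (∑ i ∈ Finset.range n, q ^ i) * (q - 1) := (geom_sum_mul q n).symm
  intro h9
  have h10 := h (by
    rw [e]
    exact mul_ne_zero h7 h9)
  rwa [e, v.map_mul h7 h9, h8, h6, zero_add] at h10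

/-! ### The twist by a character -/

/-- The two systems of monomials can be made near by constants. -/
theorem exists_twist (hk : Ctx0 k v) (hM : MS v G M) (hM' : MS v G M') :
    ∃ c : ℝ → k, (∀ g, c g ≠ 0) ∧ MS v G (fun g => algebraMap k Ω (c g) * M' g) ∧
      ∀ g ∈ G, Gt v g (M g - algebraMap k Ω (c g) * M' g) := by
  classical
  have h1 : ∀ g : ℝ, ∃ c : k, c ≠ 0 ∧ (g ∈ G → Gt v 0 (M g / M' g - algebraMap k Ω c)) := by
    intro g
    by_cases hg : g ∈ G
    · have h2 : v (M g / M' g) = 0 := by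
        rw [v.map_div (hM.ne g hg) (hM'.ne g hg), hM.val g hg, hM'.val g hg, sub_self]
      obtain ⟨c, hc, h3⟩ := hk.res (M g / M' g) (div_ne_zero (hM.ne g hg) (hM'.ne g hg)) h2
      exact ⟨c, hc, fun _ => h3⟩
    · exact ⟨1, one_ne_zero, fun h => absurd h hg⟩
  choose c hc0 hc using h1
  have hal : ∀ c : k, c ≠ 0 → algebraMap k Ω c ≠ 0 := fun c hc => by
    rwa [Ne, _root_.map_eq_zero]
  have hge : ∀ c : k, v.Ge 0 (algebraMap k Ω c) := fun c h => by
    have : c ≠ 0 := by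
      rintro rfl
      exact h (map_zero _)
    exact (hk.triv c this).ge
  -- uniqueness
  have huniq : ∀ (z : Ω) (c d : k), Gt v 0 (z - algebraMap k Ω c) →
      Gt v 0 (z - algebraMap k Ω d) → c = d := by
    intro z c d h1 h2
    by_contra hne
    have h3 : c - d ≠ 0 := sub_ne_zero.2 hne
    have h4 : Gt v 0 (algebraMap k Ω (c - d)) := by
      have e : algebraMap k Ω (c - d) = (z - algebraMap k Ω d) - (z - algebraMap k Ω c) := by
        rw [map_sub]
        ring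
      rw [e]
      exact h2.sub h1
    have h5 := h4 (hal _ h3)
    rw [hk.triv _ h3] at h5
    exact lt_irrefl _ h5
  have hmul : ∀ g ∈ G, ∀ h ∈ G, c (g + h) = c g * c h := by
    intro g hg h hh
    refine huniq (M (g + h) / M' (g + h)) _ _ (hc _ (G.add_mem hg hh)) ?_
    have e : M (g + h) / M' (g + h) - algebraMap k Ω (c g * c h) =
        (M g / M' g - algebraMap k Ω (c g)) * (M h / M' h) +
          (M h / M' h - algebraMap k Ω (c h)) * algebraMap k Ω (c g) := by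
      rw [hM.mul g hg h hh, hM'.mul g hg h hh, map_mul]
      have h1 := hM'.ne g hg
      have h2 := hM'.ne h hh
      field_simp
      ring
    rw [e]
    have h3 : v.Ge 0 (M h / M' h) := fun _ => by
      rw [v.map_div (hM.ne h hh) (hM'.ne h hh), hM.val h hh, hM'.val h hh, sub_self]
    have h4 := (hc g hg).mul_ge h3
    have h5 := (hc h hh).mul_ge (hge (c g))
    rw [add_zero] at h4 h5
    exact h4.add h5
  refine ⟨c, hc0, ⟨fun g hg => mul_ne_zero (hal _ (hc0 g)) (hM'.ne g hg), fun g hg => ?_,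
    fun g hg h hh => ?_⟩, fun g hg => ?_⟩
  · rw [v.map_mul (hal _ (hc0 g)) (hM'.ne g hg), hk.triv _ (hc0 g), hM'.val g hg, zero_add]
  · rw [hmul g hg h hh, hM'.mul g hg h hh, map_mul]
    ring
  · have e : M g - algebraMap k Ω (c g) * M' g = (M g / M' g - algebraMap k Ω (c g)) * M' g := by
      have h1 := hM'.ne g hg
      field_simp
    rw [e]
    have h2 : v.Ge g (M' g) := fun _ => (hM'.val g hg).ge
    have h3 := (hc g hg).mul_ge h2
    rwa [zero_add] at h3

/-- The twist does not change the field. -/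
theorem PM_twist {c : ℝ → k} (hc : ∀ g, c g ≠ 0) :
    PM v A G (fun g => algebraMap k Ω (c g) * M' g) = PM v A G M' := by
  refine le_antisymm (PM.le_of PM.cld PM.le fun g hg => ?_) (PM.le_of PM.cld PM.le fun g hg => ?_)
  · exact mul_mem (IntermediateField.algebraMap_mem _ _) (PM.mon hg)
  · have h1 : algebraMap k Ω (c g) * M' g ∈
        PM v A G (fun g => algebraMap k Ω (c g) * M' g) :=
      PM.mon (M := fun g => algebraMap k Ω (c g) * M' g) hg
    have h2 : algebraMap k Ω (c g) ≠ 0 := by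
      rw [Ne, _root_.map_eq_zero]
      exact hc g
    have e : M' g = (algebraMap k Ω (c g))⁻¹ * (algebraMap k Ω (c g) * M' g) := by
      rw [inv_mul_cancel_left₀ h2]
    rw [e]
    exact mul_mem (inv_mem (IntermediateField.algebraMap_mem _ _)) h1

/-! ### The tame letter -/

/-- The denominators are prime to `p`. -/
theorem Tm.cop (p : ℕ) [hp : Fact p.Prime] (hL : Tm p v L x) {g : ℝ} (hg : g ∈ VG v L) :
    ∃ n : ℕ, ¬ p ∣ n ∧ ∃ m : ℤ, (n : ℝ) * g = m * v x := by
  obtain ⟨n, hn, m, h1⟩ := hL.rat g hg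
  have hd0 : 0 < Int.gcd (n : ℤ) m := Int.gcd_pos_of_ne_zero_left _ (by exact_mod_cast hn)
  obtain ⟨a, b, h2, h3, h4⟩ := Int.exists_gcd_one hd0
  have hd' : ((Int.gcd (n : ℤ) m : ℕ) : ℝ) ≠ 0 := by exact_mod_cast hd0.ne'
  have h5 : (a : ℝ) * g = b * v x := by
    have e1 : (n : ℝ) = (a : ℝ) * ((Int.gcd (n : ℤ) m : ℕ) : ℝ) := by
      have := congrArg (Int.cast (R := ℝ)) h3
      rw [Int.cast_natCast, Int.cast_mul, Int.cast_natCast] at this
      exact this
    have e2 : (m : ℝ) = (b : ℝ) * ((Int.gcd (n : ℤ) m : ℕ) : ℝ) := by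
      have := congrArg (Int.cast (R := ℝ)) h4
      rw [Int.cast_mul, Int.cast_natCast] at this
      exact this
    rw [e1, e2] at h1
    refine mul_left_cancel₀ hd' ?_
    linear_combination h1
  have ha : ¬ (p : ℤ) ∣ a := by
    rintro ⟨a', ha'⟩
    refine hL.tame ?_
    have h6 := Int.gcd_eq_gcd_ab a b
    rw [h2, Nat.cast_one] at h6
    have h7 : v x / p = (a' : ℝ) * ((Int.gcdA a b : ℝ) * v x + (Int.gcdB a b : ℝ) * g) := by
      have hp0 : (p : ℝ) ≠ 0 := by exact_mod_cast hp.out.ne_zero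
      have h8 : (1 : ℝ) = a * (Int.gcdA a b : ℝ) + b * (Int.gcdB a b : ℝ) := by
        exact_mod_cast h6
      have h9 : (a : ℝ) = p * a' := by
        rw [ha']
        push_cast
        ring
      rw [div_eq_iff hp0]
      linear_combination (v x) * h8 - (Int.gcdB a b : ℝ) * h5 +
        ((Int.gcdA a b : ℝ) * v x + (Int.gcdB a b : ℝ) * g) * h9
    rw [h7]
    have hx : v x ∈ VG v L := VG.self hL.mem hL.ne
    have hz : ∀ (z : ℤ) (g : ℝ), g ∈ VG v L → (z : ℝ) * g ∈ VG v L := fun z g hg => by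
      rw [← zsmul_eq_mul]
      exact (VG v L).zsmul_mem hg z
    exact hz _ _ ((VG v L).add_mem (hz _ _ hx) (hz _ _ hg))
  refine ⟨a.natAbs, fun h => ha (Int.natCast_dvd.2 h), ?_⟩
  rcases Int.natAbs_eq a with h6 | h6
  · refine ⟨b, ?_⟩
    have : (a : ℝ) = ((a.natAbs : ℕ) : ℝ) := by
      have := congrArg (Int.cast (R := ℝ)) h6
      rwa [Int.cast_natCast] at this
    rw [← this]
    exact h5
  · refine ⟨-b, ?_⟩
    have : (a : ℝ) = -((a.natAbs : ℕ) : ℝ) := by
      have := congrArg (Int.cast (R := ℝ)) h6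
      rwa [Int.cast_neg, Int.cast_natCast] at this
    rw [this] at h5
    push_cast
    linarith

/-- The monomials with the values of `L` are in `L`. -/
theorem Tm.monL (p : ℕ) [hp : Fact p.Prime] [CharP Ω p] [IsAlgClosed Ω] (hk : Ctx0 k v)
    (hL : Tm p v L x) (hM : MS v ⊤ M) (hMx : M (v x) = x) : MonG v L ⊤ M := by
  refine ⟨hM, fun g _ hg => ?_⟩
  obtain ⟨n, hn, m, h1⟩ := hL.cop p hg
  have h2 : M g ^ n = x ^ m := by
    rw [← hM.pow trivial n, h1, MS.zpow hM trivial m, hMx]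
  refine root_mem p hk hL.cld hn (hM.ne g trivial) ?_ ?_
  · rw [h2]
    exact zpow_mem hL.mem m
  · rw [hM.val g trivial]
    exact hg

/-- **The systems are near on the values of `L`.** -/
theorem Tm.np (p : ℕ) [hp : Fact p.Prime] [CharP Ω p] [IsAlgClosed Ω] (hk : Ctx0 k v)
    (hL : Tm p v L x) (hu : u ∈ L) (hux : Gt v (v x) (u - x)) (hM : MS v ⊤ M)
    (hM' : MS v ⊤ M') (hMx : M (v x) = x) (hMu : M' (v x) = u)
    (hnr : ∀ g, Gt v g (M g - M' g)) : ∃ γ : ℝ, NP v L ⊤ M M' γ := by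
  obtain ⟨hu0, hvu⟩ := Gt.val_eq hL.ne hux.sub_comm'
  -- the gap
  obtain ⟨γ, hγ, h1⟩ : ∃ γ : ℝ, 0 < γ ∧ v.Ge γ (x / u - 1) := by
    have h2 : Gt v 0 (x / u - 1) := by
      have e : x / u - 1 = (x - u) * u⁻¹ := by
        field_simp
      rw [e]
      have h3 := hux.sub_comm'.mul_ge (RVal.ge_self (v := v) u⁻¹)
      rwa [v.map_inv hu0, hvu, add_neg_cancel] at h3
    by_cases h0 : x / u - 1 = 0
    · exact ⟨1, one_pos, by rw [h0]; exact RVal.Ge.zero⟩
    · exact ⟨_, h2 h0, RVal.ge_self _⟩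
  have hLu : Tm p v L u := ⟨hL.cld, hu, hu0, by rw [hvu]; exact hL.vne,
    by rw [hvu]; exact hL.tame, by rw [hvu]; exact hL.rat⟩
  refine ⟨γ, hL.monL p hk hM hMx, hLu.monL p hk hM' (by rw [hvu, hMu]), hγ, fun d _ hd => ?_⟩
  obtain ⟨n, hn, m, h2⟩ := hL.cop p hd
  have hd0 := hM'.ne d trivial
  have h3 : (M d / M' d) ^ n = (x / u) ^ m := by
    rw [div_pow, ← hM.pow trivial n, ← hM'.pow trivial n, h2, MS.zpow hM trivial m,
      MS.zpow hM' trivial m, hMx, hMu, div_zpow]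
  have h4 : Gt v 0 (M d / M' d - 1) := by
    have e : M d / M' d - 1 = (M d - M' d) * (M' d)⁻¹ := by
      field_simp
    rw [e]
    have h5 := (hnr d).mul_ge (RVal.ge_self (v := v) (M' d)⁻¹)
    rwa [v.map_inv hd0, hM'.val d trivial, add_neg_cancel] at h5
  have h5 : v.Ge γ (M d / M' d - 1) := ge_of_pow_sub_one p hn h4 (by
    rw [h3]
    exact ge_zpow_sub_one hγ h1 m)
  have e : M d - M' d = M' d * (M d / M' d - 1) := by
    field_simp
  rw [e]
  have h6 : v.Ge d (M' d) := fun _ => (hM'.val d trivial).ge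
  exact h6.mul h5

/-- **EXCHANGE OF THE TAME LETTER.** -/
theorem exch_mon (p : ℕ) [hp : Fact p.Prime] [CharP Ω p] [IsAlgClosed k] [IsAlgClosed Ω]
    (hk : Ctx0 k v) (hc : CompleteV v) (hL : Tm p v L x) (hu : u ∈ L)
    (hux : Gt v (v x) (u - x)) (hM : MS v ⊤ M) (hM' : MS v ⊤ M') (hMx : M (v x) = x)
    (hMu : M' (v x) = u) {n : ℕ}
    (hT : TowR v n (PM v (⊥ : IntermediateField k Ω) ⊤ M) (PM v L ⊤ M)) :
    TowR v n (PM v (⊥ : IntermediateField k Ω) ⊤ M') (PM v L ⊤ M') := by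
  obtain ⟨c, hc0, h1, h2⟩ := exists_twist hk hM hM'
  obtain ⟨hu0, hvu⟩ := Gt.val_eq hL.ne hux.sub_comm'
  have h3 : c (v x) = 1 := by
    by_contra hne
    have h4 : c (v x) - 1 ≠ 0 := sub_ne_zero.2 hne
    have h5 := h2 (v x) trivial
    rw [hMx, hMu] at h5
    have h6 : Gt v (v x) (algebraMap k Ω (c (v x) - 1) * u) := by
      have e : algebraMap k Ω (c (v x) - 1) * u =
          -((u - x) + (x - algebraMap k Ω (c (v x)) * u)) := by
        rw [map_sub, map_one]
        ring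
      rw [e]
      exact (hux.add h5).neg
    have h7 : algebraMap k Ω (c (v x) - 1) ≠ 0 := by rwa [Ne, _root_.map_eq_zero]
    have h8 := h6 (mul_ne_zero h7 hu0)
    rw [v.map_mul h7 hu0, hk.triv _ h4, hvu, zero_add] at h8
    exact lt_irrefl _ h8
  obtain ⟨γ, h4⟩ := hL.np p hk hu hux hM h1 hMx (by rw [h3, map_one, one_mul, hMu])
    fun g => h2 g trivial
  have h5 := h4.towR hk hc hT
  rwa [PM_twist hc0, PM_twist hc0] at h5

end Pool.Agent.TWIV
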