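import Pool.Agent.Lib.TWS.MonF

/-!
# TANK W, tame case, row A2: the world

`G` a `p`-divisible group of real numbers, `M g` the monomials, `N ≤ L` immediate, `N` in the closure
of `k(M g : g ∈ G)`, every `g ≠ 0` of `G` has some `g / p ^ n` which is not a value of `N`.

* `Gj p v N G j`: the `g ∈ G` with `p ^ j g` a value of `N`;
* `Prj v T C π`: `π : T → C` is `C`-linear, the identity on `C`, of norm `≤ 0`;
* `World.exists_pj`: the projections `π_j` of `PM v L G M` on `PM v L (Gj j) M`;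
* `World.pj_mon`, `World.pj_pow`: the monomials and the Frobenius.
-/

set_option autoImplicit false

open Polynomial

namespace Pool.Agent.TWIV

open Pool.Agent.H15JM (RVal)
open Pool.Agent.LU1 (VPos adj)
open Pool.Agent.D2 (Ctx0)
open Pool.Agent.D2P (hen clI mem_clI)
open Pool.Agent.TWM Pool.Agent.TWC Pool.Agent.TWS

universe u

variable {k Ω : Type u} [Field k] [Field Ω] [Algebra k Ω] {v : RVal Ω}
  {N L A B : IntermediateField k Ω} {G : AddSubgroup ℝ} {M : ℝ → Ω} {p : ℕ}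

/-- The elements `g` of `G` with `p ^ j g` a value of `N`. -/
def Gj (p : ℕ) (v : RVal Ω) (N : IntermediateField k Ω) (G : AddSubgroup ℝ) (j : ℕ) :
    AddSubgroup ℝ where
  carrier := {g | g ∈ G ∧ (p : ℝ) ^ j * g ∈ VG v N}
  add_mem' := by
    rintro a b ⟨ha, ha'⟩ ⟨hb, hb'⟩
    refine ⟨G.add_mem ha hb, ?_⟩
    rw [mul_add]
    exact (VG v N).add_mem ha' hb'
  zero_mem' := ⟨G.zero_mem, by rw [mul_zero]; exact (VG v N).zero_mem⟩
  neg_mem' := by
    rintro a ⟨ha, ha'⟩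
    refine ⟨G.neg_mem ha, ?_⟩
    rw [mul_neg]
    exact (VG v N).neg_mem ha'

theorem mem_Gj {j : ℕ} {g : ℝ} : g ∈ Gj p v N G j ↔ g ∈ G ∧ (p : ℝ) ^ j * g ∈ VG v N := Iff.rfl

theorem Gj_le (j : ℕ) : Gj p v N G j ≤ G := fun _ h => h.1

theorem Gj_mono {i j : ℕ} (h : i ≤ j) : Gj p v N G i ≤ Gj p v N G j := by
  obtain ⟨d, rfl⟩ := Nat.exists_eq_add_of_le h
  rintro g ⟨h1, h2⟩
  refine ⟨h1, ?_⟩
  have h3 := (VG v N).nsmul_mem h2 (p ^ d)
  rw [nsmul_eq_mul] at h3
  push_cast at h3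
  rwa [pow_add, mul_comm ((p : ℝ) ^ i), mul_assoc]

/-- The world of the tame case. -/
structure World (p : ℕ) (v : RVal Ω) (N L : IntermediateField k Ω) (G : AddSubgroup ℝ)
    (M : ℝ → Ω) : Prop where
  mon : MonG v N G M
  imm : Imm v N L
  cldN : Cld v N
  cldL : Cld v L
  div : ∀ g ∈ G, g / p ∈ G
  fin : ∀ g ∈ G, g ≠ 0 → ∃ n : ℕ, g / (p : ℝ) ^ n ∉ VG v N
  gen : N ≤ PM v ⊥ G M

/-- A projection. -/
structure Prj (v : RVal Ω) (T C : IntermediateField k Ω) (π : Ω → Ω) : Prop where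
  add : ∀ x ∈ T, ∀ y ∈ T, π (x + y) = π x + π y
  mem : ∀ x ∈ T, π x ∈ C
  self : ∀ c ∈ C, π c = c
  lin : ∀ c ∈ C, ∀ x ∈ T, π (c * x) = c * π x
  ge : ∀ x ∈ T, ∀ b : ℝ, v.Ge b x → v.Ge b (π x)

namespace Prj

variable {T C : IntermediateField k Ω} {π : Ω → Ω} (h : Prj v T C π)

include h

theorem zero : π 0 = 0 := h.self 0 (zero_mem C)

theorem smul (a : k) {x : Ω} (hx : x ∈ T) : π (a • x) = a • π x := by
  rw [Algebra.smul_def, h.lin _ (C.algebraMap_mem a) x hx, ← Algebra.smul_def]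

theorem neg {x : Ω} (hx : x ∈ T) : π (-x) = -π x := by
  have h1 := h.lin (-1) (neg_mem (one_mem C)) x hx
  rwa [neg_one_mul, neg_one_mul] at h1

theorem sub {x y : Ω} (hx : x ∈ T) (hy : y ∈ T) : π (x - y) = π x - π y := by
  rw [sub_eq_add_neg, h.add x hx _ (neg_mem hy), h.neg hy, ← sub_eq_add_neg]

theorem sum {ι : Type*} (S : Finset ι) {x : ι → Ω} (hx : ∀ i ∈ S, x i ∈ T) :
    π (∑ i ∈ S, x i) = ∑ i ∈ S, π (x i) := by
  classical
  induction S using Finset.induction_on with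
  | empty => rw [Finset.sum_empty, Finset.sum_empty, h.zero]
  | insert i S hi ih =>
    rw [Finset.sum_insert hi, Finset.sum_insert hi,
      h.add _ (hx i (Finset.mem_insert_self i S)) _
        (sum_mem fun j hj => hx j (Finset.mem_insert_of_mem hj)),
      ih fun j hj => hx j (Finset.mem_insert_of_mem hj)]

end Prj

/-- The properties of the projection `π_j`. -/
structure IsPj (p : ℕ) (v : RVal Ω) (N L : IntermediateField k Ω) (G : AddSubgroup ℝ)
    (M : ℝ → Ω) (j : ℕ) (π : Ω → Ω) : Prop where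
  prj : Prj v (PM v L G M) (PM v L (Gj p v N G j) M) π
  sub : ∀ A : IntermediateField k Ω, N ≤ A → A ≤ L → Cld v A → ∀ x ∈ PM v A G M,
    π x ∈ PM v A (Gj p v N G j) M
  mon : ∀ g ∈ G, g ∉ Gj p v N G j → π (M g) = 0

/-! ### The fields -/

namespace World

variable (W : World p v N L G M)

include W

theorem ms : MS v G M := W.mon.ms

theorem div_pow {g : ℝ} (hg : g ∈ G) (n : ℕ) : g / (p : ℝ) ^ n ∈ G := by
  induction n with
  | zero => rwa [pow_zero, div_one]
  | succ n ih =>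
    rw [pow_succ, ← div_div]
    exact W.div _ ih

theorem NL : N ≤ L := W.imm.le

/-- The values of the field with the monomials of `G'`. -/
theorem VG_PM {G' : AddSubgroup ℝ} (hG' : G' ≤ G) {A : IntermediateField k Ω} (hA : Imm v N A)
    {g : ℝ} (hg : g ∈ VG v (PM v A G' M)) : ∃ a ∈ VG v N, ∃ h ∈ G', g = a + h := by
  obtain ⟨x, hx, hx0, rfl⟩ := hg
  have hM : MonG v N G' M := ⟨⟨fun g hg => W.ms.ne g (hG' hg), fun g hg => W.ms.val g (hG' hg),
    fun g hg h hh => W.ms.mul g (hG' hg) h (hG' hh)⟩, fun g hg h => W.mon.mem g (hG' hg) h⟩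
  obtain ⟨y, hy, h1⟩ := (Imm.pm hM hA).imm x hx hx0
  obtain ⟨Lf, hL, h2⟩ := dense_PM hM hA hx (v x + 1)
  have h3 : Gt v (v x) (x - evM M Lf) := Gt.of_ge h2 (by linarith)
  obtain ⟨h4, h5⟩ := Gt.val_eq hx0 h3
  have h0 : Lf ≠ 0 := by
    rintro rfl
    exact h4 evM_zero
  obtain ⟨r, hr0, -, -, -, h6⟩ := lead hM hA hL h0
  have hrG := (hL.rep r hr0).1
  refine ⟨v (Lf r), ?_, r, hrG, ?_⟩
  · rw [← VG.imm hA]
    exact VG.self (hL.mem r) hr0
  · rw [← h5, h6, v.map_mul hr0 (W.ms.ne r (hG' hrG)), W.ms.val r (hG' hrG)]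

theorem monG_sub {G' : AddSubgroup ℝ} (hG' : G' ≤ G) : MonG v N G' M :=
  ⟨⟨fun g hg => W.ms.ne g (hG' hg), fun g hg => W.ms.val g (hG' hg),
    fun g hg h hh => W.ms.mul g (hG' hg) h (hG' hh)⟩, fun g hg h => W.mon.mem g (hG' hg) h⟩

theorem immA (hNA : N ≤ A) (hAL : A ≤ L) : Imm v N A :=
  ⟨hNA, fun b hb h0 => W.imm.imm b (hAL hb) h0⟩

/-- The monomials and the fields `N_j`. -/
theorem monG_j (j : ℕ) : MonG v (PM v N (Gj p v N G j) M) G M := by
  refine ⟨W.ms, fun g hg h => ?_⟩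
  obtain ⟨a, ha, b, hb, rfl⟩ := W.VG_PM (Gj_le j) (Imm.refl N) h
  have h1 : a ∈ G := by
    have := G.sub_mem hg (Gj_le j hb)
    rwa [add_sub_cancel_right] at this
  rw [W.ms.mul a h1 b (Gj_le j hb)]
  exact mul_mem (PM.le (W.mon.mem a h1 ha)) (PM.mon hb)

omit W in
theorem PM_PM {G' : AddSubgroup ℝ} (hG' : G' ≤ G) (A : IntermediateField k Ω) :
    PM v (PM v A G' M) G M = PM v A G M := by
  refine le_antisymm (PM.le_of PM.cld ?_ fun g hg => PM.mon hg) (PM.mono PM.le)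
  exact PM.le_of PM.cld PM.le fun g hg => PM.mon (hG' hg)

/-- Existence of the projections. -/
theorem exists_pj (hΩ : CompleteV v) (j : ℕ) : ∃ π : Ω → Ω, IsPj p v N L G M j π := by
  classical
  have hG' := Gj_le (p := p) (v := v) (N := N) (G := G) j
  have hM' := W.monG_sub hG'
  obtain ⟨π, hπ⟩ := exists_pi0 hΩ (W.monG_j j) (Imm.pm hM' W.imm)
    (PM.cld : Cld v (PM v L (Gj p v N G j) M))
  have hT : PM v (PM v L (Gj p v N G j) M) G M = PM v L G M := PM_PM hG' L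
  have hmem : ∀ {x : Ω}, x ∈ PM v L G M → x ∈ PM v (PM v L (Gj p v N G j) M) G M :=
    fun {x} hx => by rwa [hT]
  have key : ∀ (x : Ω) (hx : x ∈ PM v L G M),
      (if h : x ∈ PM v L G M then π ⟨x, hmem h⟩ else 0) = π ⟨x, hmem hx⟩ := fun x hx => dif_pos hx
  refine ⟨fun x => if h : x ∈ PM v L G M then π ⟨x, hmem h⟩ else 0, ⟨?_, ?_, ?_, ?_, ?_⟩, ?_, ?_⟩
  · intro x hx y hy
    simp only [key x hx, key y hy, key (x + y) (add_mem hx hy)]
    rw [← map_add]
    rfl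
  · intro x hx
    simp only [key x hx]
    exact hπ.mem _
  · intro c hc
    have hcT : c ∈ PM v L G M := by
      have := PM.le (v := v) (G := G) (M := M) hc
      rwa [hT] at this
    simp only [key c hcT]
    exact hπ.self c hc
  · intro c hc x hx
    have hcT : c ∈ PM v L G M := by
      have := PM.le (v := v) (G := G) (M := M) hc
      rwa [hT] at this
    simp only [key x hx, key (c * x) (mul_mem hcT hx)]
    exact hπ.lin c hc ⟨x, hmem hx⟩
  · intro x hx b hb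
    simp only [key x hx]
    exact hπ.norm _ b hb
  · intro A hNA hAL hA x hx
    have hxT : x ∈ PM v L G M := PM.mono hAL hx
    simp only [key x hxT]
    refine hπ.sub (PM v A (Gj p v N G j) M) ⟨PM.mono hNA, fun b hb h0 => ?_⟩ (PM.mono hAL) PM.cld _
      ?_
    · exact (Imm.pm hM' W.imm).imm b (PM.mono hAL hb) h0
    · change x ∈ PM v (PM v A (Gj p v N G j) M) G M
      rwa [PM_PM hG' A]
  · intro g hg hgj
    have hgT : M g ∈ PM v L G M := PM.mon hg
    simp only [key _ hgT]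
    refine hπ.mon g hg fun h => hgj ?_
    obtain ⟨a, ha, h, hh, rfl⟩ := W.VG_PM hG' (Imm.refl N) h
    have h1 : a ∈ G := by
      have := G.sub_mem hg (Gj_le j hh)
      rwa [add_sub_cancel_right] at this
    refine (Gj p v N G j).add_mem ⟨h1, ?_⟩ hh
    have := (VG v N).nsmul_mem ha (p ^ j)
    rw [nsmul_eq_mul] at this
    push_cast at this
    exact this

omit W in
/-- The uniqueness: the value at a sum of monomials with coefficients in `L`. -/
theorem pj_sum {j : ℕ} {π : Ω → Ω} (h : IsPj p v N L G M j π) {ι : Type*} (S : Finset ι)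
    {a : ι → Ω} {g : ι → ℝ} (ha : ∀ i ∈ S, a i ∈ L) (hg : ∀ i ∈ S, g i ∈ G) [DecidablePred fun i =>
      g i ∈ Gj p v N G j] :
    π (∑ i ∈ S, a i * M (g i)) = ∑ i ∈ S, if g i ∈ Gj p v N G j then a i * M (g i) else 0 := by
  rw [h.prj.sum S fun i hi => mul_mem (PM.le (ha i hi)) (PM.mon (hg i hi))]
  refine Finset.sum_congr rfl fun i hi => ?_
  rw [h.prj.lin _ (PM.le (ha i hi)) _ (PM.mon (hg i hi))]
  split_ifs with h1
  · rw [h.prj.self _ (PM.mon h1)]
  · rw [h.mon _ (hg i hi) h1, mul_zero]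

/-- The elements of `PM v L G M` are approximated by finite sums. -/
theorem dense {x : Ω} (hx : x ∈ PM v L G M) (b : ℝ) : ∃ (S : Finset ℝ) (a : ℝ → Ω),
    (∀ g ∈ S, g ∈ G) ∧ (∀ g ∈ S, a g ∈ L) ∧ v.Ge b (x - ∑ g ∈ S, a g * M g) := by
  obtain ⟨Lf, hL, h1⟩ := dense_PM W.mon W.imm hx b
  exact ⟨Lf.support, Lf, fun g hg => (hL.rep g (Finsupp.mem_support_iff.1 hg)).1,
    fun g _ => hL.mem g, h1⟩

/-- **The projections and the Frobenius.** -/
theorem pj_pow [Fact p.Prime] [CharP Ω p] {j : ℕ} {π π' : Ω → Ω} (h : IsPj p v N L G M j π)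
    (h' : IsPj p v N L G M (j + 1) π') {x : Ω} (hx : x ∈ PM v L G M) : π (x ^ p) = π' x ^ p := by
  classical
  have hp : p.Prime := Fact.out
  have hp0 : (0 : ℝ) < p := by exact_mod_cast hp.pos
  rw [← sub_eq_zero]
  refine TWC.eq_zero_of_ge (v := v) fun b => ?_
  obtain ⟨S, a, hS, ha, h1⟩ := W.dense hx (b / p)
  set y := ∑ g ∈ S, a g * M g with hy
  have hyT : y ∈ PM v L G M := sum_mem fun g hg => mul_mem (PM.le (ha g hg)) (PM.mon (hS g hg))
  have hmul : ∀ g ∈ S, M (p * g) = M g ^ p := fun g hg => W.ms.pow (hS g hg) p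
  have hpG : ∀ g ∈ S, (p : ℝ) * g ∈ G := fun g hg => by
    have := G.nsmul_mem (hS g hg) p
    rwa [nsmul_eq_mul] at this
  have e1 : y ^ p = ∑ g ∈ S, a g ^ p * M (p * g) := by
    rw [hy, sum_pow_char]
    exact Finset.sum_congr rfl fun g hg => by rw [mul_pow, hmul g hg]
  have e2 : π (y ^ p) = π' y ^ p := by
    rw [e1, pj_sum h S (a := fun g => a g ^ p) (g := fun g => (p : ℝ) * g)
      (fun g hg => pow_mem (ha g hg) p) hpG, hy, pj_sum h' S ha hS, sum_pow_char]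
    refine Finset.sum_congr rfl fun g hg => ?_
    have h2 : (p : ℝ) * g ∈ Gj p v N G j ↔ g ∈ Gj p v N G (j + 1) := by
      rw [mem_Gj, mem_Gj, ← mul_assoc, ← pow_succ]
      exact ⟨fun h => ⟨hS g hg, h.2⟩, fun h => ⟨hpG g hg, h.2⟩⟩
    by_cases h3 : g ∈ Gj p v N G (j + 1)
    · rw [if_pos h3, if_pos (h2.2 h3), mul_pow, hmul g hg]
    · rw [if_neg h3, if_neg fun h4 => h3 (h2.1 h4), zero_pow hp.ne_zero]
  have h3 : v.Ge b (π (x ^ p) - π (y ^ p)) := by
    rw [← h.prj.sub (pow_mem hx p) (pow_mem hyT p), ← sub_pow_char]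
    refine h.prj.ge _ (pow_mem (sub_mem hx hyT) p) b ?_
    refine (ge_pow h1 p).mono (le_of_eq ?_)
    field_simp
  have h4 : v.Ge b (π' x ^ p - π' y ^ p) := by
    rw [← sub_pow_char, ← h'.prj.sub hx hyT]
    refine (ge_pow (h'.prj.ge _ (sub_mem hx hyT) _ h1) p).mono (le_of_eq ?_)
    field_simp
  have h5 := h3.sub h4
  rwa [e2, sub_sub_sub_cancel_right] at h5

/-- Composition. -/
theorem pj_comp {i j : ℕ} {π π' : Ω → Ω} (hij : i ≤ j) (h : IsPj p v N L G M i π)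
    (h' : IsPj p v N L G M j π') {x : Ω} (hx : x ∈ PM v L G M) : π (π' x) = π x := by
  classical
  rw [← sub_eq_zero]
  refine TWC.eq_zero_of_ge (v := v) fun b => ?_
  obtain ⟨S, a, hS, ha, h1⟩ := W.dense hx b
  set y := ∑ g ∈ S, a g * M g with hy
  have hyT : y ∈ PM v L G M := sum_mem fun g hg => mul_mem (PM.le (ha g hg)) (PM.mon (hS g hg))
  have hT : ∀ {z : Ω}, z ∈ PM v L G M → π' z ∈ PM v L G M := fun hz => by
    have := h'.prj.mem _ hz
    exact PM.le_of PM.cld PM.le (fun g hg => PM.mon (Gj_le j hg)) this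
  have e : π (π' y) = π y := by
    have e1 : π' y = ∑ g ∈ S, (if g ∈ Gj p v N G j then a g else 0) * M g := by
      rw [hy, pj_sum h' S ha hS]
      refine Finset.sum_congr rfl fun g _ => ?_
      by_cases h3 : g ∈ Gj p v N G j
      · rw [if_pos h3, if_pos h3]
      · rw [if_neg h3, if_neg h3, zero_mul]
    have ha' : ∀ g ∈ S, (if g ∈ Gj p v N G j then a g else 0) ∈ L := fun g hg => by
      by_cases h3 : g ∈ Gj p v N G j
      · rw [if_pos h3]
        exact ha g hg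
      · rw [if_neg h3]
        exact zero_mem _
    rw [e1, pj_sum h S (a := fun g => if g ∈ Gj p v N G j then a g else 0) ha' hS, hy,
      pj_sum h S ha hS]
    refine Finset.sum_congr rfl fun g _ => ?_
    by_cases h3 : g ∈ Gj p v N G i
    · rw [if_pos h3, if_pos h3, if_pos (Gj_mono hij h3)]
    · rw [if_neg h3, if_neg h3]
  have h3 : v.Ge b (π (π' x) - π (π' y)) := by
    rw [← h.prj.sub (hT hx) (hT hyT)]
    refine h.prj.ge _ (sub_mem (hT hx) (hT hyT)) b ?_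
    rw [← h'.prj.sub hx hyT]
    exact h'.prj.ge _ (sub_mem hx hyT) b h1
  have h4 : v.Ge b (π x - π y) := by
    rw [← h.prj.sub hx hyT]
    exact h.prj.ge _ (sub_mem hx hyT) b h1
  have h5 := h3.sub h4
  rwa [e, sub_sub_sub_cancel_right] at h5

end World

end Pool.Agent.TWIV
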