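import Pool.Agent.Lib.TWIV.TmDefs
import Pool.Agent.Lib.TWIV.W0

/-!
# TANK W, tame case: the world of a closed field with a tame letter

`Tm p v L x`.
* `Tm.redc`: every value of `L` is `m / n * v x` with `n` prime to `p` and `v x / n` a value;
* `Tm.mong`, `Tm.cycc`: the monomials, the values modulo `p`;
* `Tm.worldc`: `N` the closure of `k(M g : g ∈ VG v L)`, the world of `N ≤ L`.
-/

set_option autoImplicit false

open Polynomial

namespace Pool.Agent.TWIV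

open Pool.Agent.H15JM (RVal)
open Pool.Agent.LU1 (VPos adj)
open Pool.Agent.D2 (Ctx0)
open Pool.Agent.D2P (hen clI mem_clI)
open Pool.Agent.TWM Pool.Agent.TWC Pool.Agent.TWS

universe u

variable {k Ω : Type u} [Field k] [Field Ω] [Algebra k Ω] {v : RVal Ω}
  {L : IntermediateField k Ω} {x : Ω}

section Red

variable (p : ℕ) [hp : Fact p.Prime]

/-- The values of `L`. -/
theorem Tm.redc (hL : Tm p v L x) {g : ℝ} (hg : g ∈ VG v L) :
    ∃ n : ℕ, ¬ p ∣ n ∧ ∃ m : ℤ, (n : ℝ) * g = m * v x ∧ v x / n ∈ VG v L := by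
  obtain ⟨n, hn, m, h1⟩ := hL.rat g hg
  have hd0 : 0 < n.gcd m.natAbs := Nat.gcd_pos_of_pos_left _ (Nat.pos_of_ne_zero hn)
  obtain ⟨n', hn'⟩ := Nat.gcd_dvd_left n m.natAbs
  have hdm : ((n.gcd m.natAbs : ℕ) : ℤ) ∣ m := by
    rw [Int.natCast_dvd]
    exact Nat.gcd_dvd_right n m.natAbs
  obtain ⟨m', hm'⟩ := hdm
  have hdR : ((n.gcd m.natAbs : ℕ) : ℝ) ≠ 0 := by exact_mod_cast hd0.ne'
  have hn0 : n' ≠ 0 := by
    rintro rfl
    exact hn (by rw [hn', mul_zero])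
  have hnR : (n' : ℝ) ≠ 0 := by exact_mod_cast hn0
  have e1 : (n : ℝ) = (n.gcd m.natAbs : ℕ) * n' := by exact_mod_cast hn'
  have e2 : (m : ℝ) = (n.gcd m.natAbs : ℕ) * m' := by exact_mod_cast hm'
  have h2 : (n' : ℝ) * g = m' * v x := by
    rw [e1, e2, mul_assoc, mul_assoc] at h1
    exact mul_left_cancel₀ hdR h1
  have hco : IsCoprime (n' : ℤ) m' := by
    rw [Int.isCoprime_iff_gcd_eq_one]
    have h3 : Int.gcd (n : ℤ) m = n.gcd m.natAbs := by
      rw [Int.gcd_def, Int.natAbs_natCast]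
    have h4 : Int.gcd (((n.gcd m.natAbs : ℕ) : ℤ) * n') (((n.gcd m.natAbs : ℕ) : ℤ) * m') =
        n.gcd m.natAbs := by
      rw [← h3]
      congr 1
      · rw [h3]
        exact_mod_cast hn'.symm
      · rw [h3]
        exact hm'.symm
    rw [Int.gcd_mul_left, Int.natAbs_natCast] at h4
    exact Nat.eq_of_mul_eq_mul_left hd0 (by rw [h4, mul_one])
  obtain ⟨a, b, hab⟩ := hco
  have hab' : (a : ℝ) * n' + b * m' = 1 := by exact_mod_cast hab
  have hx : v x ∈ VG v L := VG.self hL.mem hL.ne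
  have h3 : v x / n' ∈ VG v L := by
    have e : v x / n' = a • v x + b • g := by
      rw [zsmul_eq_mul, zsmul_eq_mul, div_eq_iff hnR]
      linear_combination (-v x) * hab' - (b : ℝ) * h2
    rw [e]
    exact (VG v L).add_mem ((VG v L).zsmul_mem hx a) ((VG v L).zsmul_mem hg b)
  refine ⟨n', fun hd => ?_, m', h2, h3⟩
  obtain ⟨q, rfl⟩ := hd
  refine hL.tame ?_
  have hq0 : (q : ℝ) ≠ 0 := by
    intro h
    exact hnR (by push_cast; rw [h, mul_zero])
  have hp0 : (p : ℝ) ≠ 0 := by exact_mod_cast hp.out.ne_zero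
  have h4 := (VG v L).nsmul_mem h3 q
  have e : q • (v x / ((p * q : ℕ) : ℝ)) = v x / p := by
    rw [nsmul_eq_mul]
    push_cast
    field_simp
  rwa [e] at h4

/-- The values modulo `p`. -/
theorem Tm.cycc (hL : Tm p v L x) :
    ∀ g ∈ VG v L, ∃ l < p, ∃ g' ∈ VG v L, g = l * v x + p * g' := by
  intro g hg
  obtain ⟨n, hn, m, h1, h2⟩ := Tm.redc p hL hg
  have hn0 : (n : ℝ) ≠ 0 := by
    have : n ≠ 0 := fun h => hn (h ▸ dvd_zero p)
    exact_mod_cast this
  have hp0 : 0 < p := hp.out.pos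
  have hpZ : ((p : ℕ) : ℤ) ≠ 0 := by exact_mod_cast hp0.ne'
  obtain ⟨a, b, hab⟩ : IsCoprime (n : ℤ) (p : ℤ) :=
    Nat.isCoprime_iff_coprime.2 ((Nat.Prime.coprime_iff_not_dvd hp.out).2 hn).symm
  have h3 : 0 ≤ (m * a) % (p : ℤ) := Int.emod_nonneg _ hpZ
  have h4 : (m * a) % (p : ℤ) < p := Int.emod_lt_of_pos _ (by exact_mod_cast hp0)
  have h5 : (m * a) % (p : ℤ) = m * a - p * (m * a / p) := Int.emod_def _ _
  obtain ⟨l, hl⟩ := Int.eq_ofNat_of_zero_le h3
  have hlp : l < p := by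
    rw [hl] at h4
    exact_mod_cast h4
  refine ⟨l, hlp, (m * b + n * (m * a / p) : ℤ) * (v x / n), ?_, ?_⟩
  · have := (VG v L).zsmul_mem h2 (m * b + n * (m * a / p))
    rwa [zsmul_eq_mul] at this
  · have e1 : ((l : ℤ) : ℝ) = m * a - p * ((m * a / p : ℤ) : ℝ) := by
      have h6 : (l : ℤ) = m * a - p * (m * a / p) := by
        rw [← h5]
        exact hl.symm
      exact_mod_cast h6
    have e2 : (a : ℝ) * n + b * p = 1 := by exact_mod_cast hab
    rw [Int.cast_natCast] at e1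
    rw [e1]
    have e3 : g = m * (v x / n) := by
      field_simp
      linear_combination h1
    rw [e3]
    push_cast
    field_simp
    linear_combination (-(m : ℝ) * v x) * e2

/-- The values are not `p`-divisible. -/
theorem Tm.finc (hL : Tm p v L x) {g : ℝ} (hg : g ≠ 0) : ∃ n : ℕ, g / (p : ℝ) ^ n ∉ VG v L := by
  by_contra hno
  push Not at hno
  have hp0 : (p : ℝ) ≠ 0 := by exact_mod_cast hp.out.ne_zero
  have hg0 := hno 0
  rw [pow_zero, div_one] at hg0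
  obtain ⟨n₀, hn₀, m₀, h1, -⟩ := Tm.redc p hL hg0
  have hn₀' : (n₀ : ℝ) ≠ 0 := by
    have : n₀ ≠ 0 := fun h => hn₀ (h ▸ dvd_zero p)
    exact_mod_cast this
  have hm₀ : m₀ ≠ 0 := by
    rintro rfl
    rw [Int.cast_zero, zero_mul] at h1
    exact (mul_ne_zero hn₀' hg) h1
  obtain ⟨i, hi⟩ := pow_unbounded_of_one_lt (m₀.natAbs) hp.out.one_lt
  obtain ⟨n, hn, m, h2, -⟩ := Tm.redc p hL (hno i)
  have hpi : (p : ℝ) ^ i ≠ 0 := pow_ne_zero _ hp0
  have h3 : ((n : ℤ) : ℝ) * m₀ = n₀ * (p : ℝ) ^ i * m := by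
    have h4 : ((n : ℝ) * m₀ - n₀ * (p : ℝ) ^ i * m) * v x = 0 := by
      have h5 : (n : ℝ) * g = (p : ℝ) ^ i * m * v x := by
        have h6 : (n : ℝ) * g = (p : ℝ) ^ i * (n * (g / (p : ℝ) ^ i)) := by
          field_simp
        rw [h6, h2]
        ring
      linear_combination (-(n : ℝ)) * h1 + (n₀ : ℝ) * h5
    have h5 := (mul_eq_zero.1 h4).resolve_right hL.vne
    rw [Int.cast_natCast]
    linarith
  have h4 : (n : ℤ) * m₀ = n₀ * (p : ℤ) ^ i * m := by exact_mod_cast h3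
  have h5 : ((p : ℤ) ^ i) ∣ n * m₀ := ⟨n₀ * m, by rw [h4]; ring⟩
  have hco : IsCoprime ((p : ℤ) ^ i) (n : ℤ) :=
    (Nat.isCoprime_iff_coprime.2 ((Nat.Prime.coprime_iff_not_dvd hp.out).2 hn)).pow_left
  have h6 : ((p : ℤ) ^ i) ∣ m₀ := hco.dvd_of_dvd_mul_left h5
  have h7 : p ^ i ∣ m₀.natAbs := by
    rw [← Int.natCast_dvd]
    push_cast
    exact h6
  exact absurd (Nat.le_of_dvd (Int.natAbs_pos.2 hm₀) h7) (not_le.2 hi)

end Red

variable (p : ℕ) [Fact p.Prime] [CharP Ω p] [IsAlgClosed Ω]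

/-- **The monomials.** -/
theorem Tm.mong (hk : Ctx0 k v) (hL : Tm p v L x) {M : ℝ → Ω}
    (hM : MS v ⊤ M) (hMx : M (v x) = x) : MonG v L ⊤ M := by
  refine ⟨hM, fun g _ hg => ?_⟩
  obtain ⟨n, hn, m, h1, -⟩ := Tm.redc p hL hg
  have h2 : M g ^ n ∈ L := by
    rw [← hM.pow trivial n, h1, MS.zpow hM trivial m, hMx]
    exact zpow_mem hL.mem m
  refine root_mem p hk hL.cld hn (hM.ne g trivial) h2 ?_
  rw [hM.val g trivial]
  exact hg

/-- **The world of a closed field with a tame letter.** -/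
theorem Tm.worldc (hk : Ctx0 k v) (hL : Tm p v L x) {M : ℝ → Ω}
    (hM : MS v ⊤ M) (hMx : M (v x) = x) {N : IntermediateField k Ω}
    (hN : N = PM v ⊥ (VG v L) M) :
    World p v N L ⊤ M ∧ VG v N = VG v L ∧ PM v N ⊤ M = PM v ⊥ ⊤ M := by
  have hG := Tm.mong p hk hL hM hMx
  have hNL : N ≤ L := by
    rw [hN]
    exact PM.le_of hL.cld bot_le fun g hg => hG.mem g trivial hg
  have hMN : ∀ g ∈ VG v L, M g ∈ N := fun g hg => by
    rw [hN]
    exact PM.mon hg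
  have hV : VG v N = VG v L := by
    refine le_antisymm (VG.mono hNL) fun g hg => ?_
    exact ⟨M g, hMN g hg, hM.ne g trivial, hM.val g trivial⟩
  have hgen : N ≤ PM v ⊥ ⊤ M := by
    rw [hN]
    exact PM.le_of PM.cld bot_le fun g _ => PM.mon trivial
  refine ⟨⟨⟨hM, fun g _ hg => hMN g (by rwa [hV] at hg)⟩, ⟨hNL, fun b hb hb0 => ?_⟩, ?_, hL.cld,
    fun _ _ => trivial, fun g _ hg => ?_, hgen⟩, hV, ?_⟩
  · have h1 : M (v b) ∈ N := hMN _ (VG.self hb hb0)
    have h2 : M (v b) ≠ 0 := hM.ne _ trivial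
    have h3 : v (M (v b)) = v b := hM.val _ trivial
    obtain ⟨c, -, h4⟩ := hk.res (b / M (v b)) (div_ne_zero hb0 h2) (by
      rw [v.map_div hb0 h2, h3, sub_self])
    refine ⟨M (v b) * algebraMap k Ω c, mul_mem h1 (N.algebraMap_mem c), ?_⟩
    have e : b - M (v b) * algebraMap k Ω c = (b / M (v b) - algebraMap k Ω c) * M (v b) := by
      field_simp
    have h5 : Gt v 0 (b / M (v b) - algebraMap k Ω c) := h4
    have h6 := h5.mul_ge (RVal.ge_self (v := v) (M (v b)))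
    rw [h3, zero_add] at h6
    rw [e]
    exact h6
  · rw [hN]
    exact PM.cld
  · rw [hV]
    exact Tm.finc p hL hg
  · exact le_antisymm (PM.le_of PM.cld hgen fun g _ => PM.mon trivial)
      (PM.le_of PM.cld bot_le fun g _ => PM.mon trivial)

end Pool.Agent.TWIV
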