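import Pool.Agent.Lib.TWIV.TmDefs
import Pool.Agent.Lib.TWIV.Coarse

/-!
# TANK W, tame case: the world of a closed field with a tame letter

`Tm p v L x`: the value group `Γ` of `L` is `ℤ v x + p Γ` (`Tm.cyc`); with the monomials `M`,
`M (v x) = x`, `L` is a world over `N = PM v ⊥ Γ M` (`Tm.world`).
-/

set_option autoImplicit false
set_option linter.unusedSectionVars false

open Polynomial

namespace Pool.Agent.TWIV

open Pool.Agent.H15JM (RVal)
open Pool.Agent.LU1 (VPos adj)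
open Pool.Agent.D2 (Ctx0)
open Pool.Agent.D2P (hen clI mem_clI)
open Pool.Agent.TWM Pool.Agent.TWC Pool.Agent.TWS Pool.Agent.TWT

universe u

/-- Reduced form of a relation of rational rank one. -/
theorem rank_one_red {Γ : AddSubgroup ℝ} {g₀ g : ℝ} (hg₀ : g₀ ∈ Γ) (hg : g ∈ Γ) {n : ℕ}
    (hn : n ≠ 0) {m : ℤ} (h : (n : ℝ) * g = m * g₀) :
    ∃ (a b : ℤ) (h : ℝ), a ≠ 0 ∧ h ∈ Γ ∧ g₀ = a * h ∧ g = b * h := by
  have hn0 : (n : ℤ) ≠ 0 := by exact_mod_cast hn
  obtain ⟨a, ha⟩ := Int.gcd_dvd_left (n : ℤ) m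
  obtain ⟨b, hb⟩ := Int.gcd_dvd_right (n : ℤ) m
  set d : ℤ := (Int.gcd (n : ℤ) m : ℤ) with hd
  have hd0 : d ≠ 0 := by
    rintro h0
    rw [h0, zero_mul] at ha
    exact hn0 ha
  have ha0 : a ≠ 0 := by
    rintro rfl
    rw [mul_zero] at ha
    exact hn0 ha
  have hd0' : (d : ℝ) ≠ 0 := by exact_mod_cast hd0
  have ha0' : (a : ℝ) ≠ 0 := by exact_mod_cast ha0
  have hna : (n : ℝ) = d * a := by exact_mod_cast ha
  have hmb : (m : ℝ) = d * b := by exact_mod_cast hb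
  have h1 : (a : ℝ) * g = b * g₀ := by
    have h2 : (d : ℝ) * (a * g) = d * (b * g₀) := by
      rw [← mul_assoc, ← hna, h, hmb]
      ring
    exact mul_left_cancel₀ hd0' h2
  have hbz : (1 : ℤ) = a * Int.gcdA n m + b * Int.gcdB n m := by
    have h2 := Int.gcd_eq_gcd_ab (n : ℤ) m
    have h3 : d * 1 = d * (a * Int.gcdA n m + b * Int.gcdB n m) := by
      rw [mul_one, mul_add, ← mul_assoc, ← mul_assoc, ← ha, ← hb]
      exact h2
    exact mul_left_cancel₀ hd0 h3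
  have hbz' : (1 : ℝ) = a * (Int.gcdA n m : ℝ) + b * (Int.gcdB n m : ℝ) := by exact_mod_cast hbz
  refine ⟨a, b, g₀ / a, ha0, ?_, by field_simp, ?_⟩
  · have h2 : g₀ / a = (Int.gcdA n m : ℝ) * g₀ + (Int.gcdB n m : ℝ) * g := by
      rw [div_eq_iff ha0']
      calc g₀ = (a * (Int.gcdA n m : ℝ) + b * (Int.gcdB n m : ℝ)) * g₀ := by
            rw [← hbz', one_mul]
        _ = a * (Int.gcdA n m : ℝ) * g₀ + (Int.gcdB n m : ℝ) * (b * g₀) := by ring
        _ = _ := by rw [← h1]; ring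
    rw [h2]
    have h3 := Γ.zsmul_mem hg₀ (Int.gcdA n m)
    have h4 := Γ.zsmul_mem hg (Int.gcdB n m)
    rw [zsmul_eq_mul] at h3 h4
    exact Γ.add_mem h3 h4
  · rw [mul_div_assoc', eq_div_iff ha0', mul_comm g, h1]

/-- A group of rational rank one with `g₀ / p ∉ Γ` is `ℤ g₀ + p Γ`. -/
theorem cyc_of_rat {p : ℕ} [Fact p.Prime] {Γ : AddSubgroup ℝ} {g₀ : ℝ} (hg₀ : g₀ ∈ Γ)
    (hg₀' : g₀ / p ∉ Γ) (hrat : ∀ g ∈ Γ, ∃ n : ℕ, n ≠ 0 ∧ ∃ m : ℤ, (n : ℝ) * g = m * g₀) :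
    ∀ g ∈ Γ, ∃ l < p, ∃ g' ∈ Γ, g = l * g₀ + p * g' := by
  intro g hg
  have hp : p.Prime := Fact.out
  have hp0 : (p : ℝ) ≠ 0 := by exact_mod_cast hp.ne_zero
  obtain ⟨n, hn, m, h1⟩ := hrat g hg
  obtain ⟨a, b, h, -, hh, ha, hb⟩ := rank_one_red hg₀ hg hn h1
  have hpa : ¬ (p : ℤ) ∣ a := by
    rintro ⟨c, rfl⟩
    refine hg₀' ?_
    have h2 := Γ.zsmul_mem hh c
    rw [zsmul_eq_mul] at h2
    have h3 : g₀ / p = c * h := by
      rw [ha]
      push_cast
      field_simp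
    rwa [h3]
  have hcop : IsCoprime a (p : ℤ) := by
    rw [Int.isCoprime_iff_gcd_eq_one, Int.gcd_comm]
    exact_mod_cast (Int.isCoprime_iff_gcd_eq_one.1
      ((Nat.prime_iff_prime_int.1 hp).coprime_iff_not_dvd.2 hpa))
  obtain ⟨u, w, huw⟩ := hcop
  have hp0' : (0 : ℤ) < p := by exact_mod_cast hp.pos
  obtain ⟨l, hl⟩ : ∃ l : ℕ, (l : ℤ) = (b * u) % p :=
    ⟨((b * u) % p).toNat, Int.toNat_of_nonneg (Int.emod_nonneg _ hp0'.ne')⟩
  have hlp : l < p := by
    have := Int.emod_lt_of_pos (b * u) hp0'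
    rw [← hl] at this
    exact_mod_cast this
  have hdiv : b * u = l + p * ((b * u) / p) := by
    rw [hl]
    exact (Int.emod_add_mul_ediv _ _).symm
  set q := (b * u) / p with hq
  have hb' : b = l * a + p * (q * a + b * w) := by
    calc b = b * (u * a + w * p) := by rw [huw, mul_one]
      _ = (b * u) * a + p * (b * w) := by ring
      _ = _ := by rw [hdiv]; ring
  have hb'' : (b : ℝ) = l * a + p * (q * a + b * w) := by exact_mod_cast hb'
  refine ⟨l, hlp, (q * a + b * w : ℤ) * h, ?_, ?_⟩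
  · have h2 := Γ.zsmul_mem hh (q * a + b * w)
    rwa [zsmul_eq_mul] at h2
  · rw [hb, ha]
    conv_lhs => rw [hb'']
    push_cast
    ring

variable {k Ω : Type u} [Field k] [Field Ω] [Algebra k Ω] {v : RVal Ω} {p : ℕ} [Fact p.Prime]
  {L : IntermediateField k Ω} {x : Ω} {M : ℝ → Ω}

/-- Cyclic value group modulo `p`. -/
theorem Tm.cyc (hL : Tm p v L x) :
    ∀ g ∈ VG v L, ∃ l < p, ∃ g' ∈ VG v L, g = l * v x + p * g' :=
  cyc_of_rat (VG.self hL.mem hL.ne) hL.tame hL.rat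

/-- `L` is immediate over the monomials. -/
theorem imm_of_mon (hk : Ctx0 k v) (hm : MonG v L ⊤ M) (hc : Cld v L) :
    Imm v (PM v ⊥ (VG v L) M) L where
  le := PM.le_of hc bot_le fun g hg => hm.mem g trivial hg
  imm := by
    intro b hb hb0
    have hv : v b ∈ VG v L := VG.self hb hb0
    have hM0 := hm.ms.ne (v b) trivial
    have hMv := hm.ms.val (v b) trivial
    obtain ⟨c, hc0, h1⟩ := hk.res (b / M (v b)) (div_ne_zero hb0 hM0) (by
      rw [v.map_div hb0 hM0, hMv, sub_self])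
    refine ⟨algebraMap k Ω c * M (v b), mul_mem (IntermediateField.algebraMap_mem _ _)
      (PM.mon hv), ?_⟩
    intro h2
    have h3 : b - algebraMap k Ω c * M (v b) = (b / M (v b) - algebraMap k Ω c) * M (v b) := by
      field_simp
    rw [h3] at h2 ⊢
    have h4 := left_ne_zero_of_mul h2
    rw [v.map_mul h4 hM0, hMv]
    have h5 := h1 h4
    linarith

/-- **The world of a closed field with a tame letter**, given its monomials. -/
theorem Tm.world_of (hk : Ctx0 k v) (hL : Tm p v L x) (hm : MonG v L ⊤ M)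
    {N : IntermediateField k Ω} (hN : N = PM v ⊥ (VG v L) M) :
    World p v N L ⊤ M ∧ VG v N = VG v L ∧ PM v N ⊤ M = PM v ⊥ ⊤ M ∧ RatV v N (v x) := by
  subst hN
  have hi := imm_of_mon hk hm hL.cld
  have hV : VG v (PM v (⊥ : IntermediateField k Ω) (VG v L) M) = VG v L := (VG.imm hi).symm
  refine ⟨⟨⟨hm.ms, fun g _ hg => PM.mon (by rwa [← hV])⟩, hi, PM.cld, hL.cld,
    fun _ _ => trivial, fun g _ hg => ?_, ?_⟩, hV, World.PM_PM le_top _, ?_⟩
  · obtain ⟨n, hn⟩ := satp_fin (VG.self hL.mem hL.ne) hL.tame hL.rat g hg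
    refine ⟨n, fun h => hn (le_satp ?_)⟩
    rwa [← hV]
  · exact PM.le_of PM.cld bot_le fun g _ => PM.mon trivial
  · intro g hg
    exact hL.rat g (by rwa [← hV])

end Pool.Agent.TWIV
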