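import Pool.Agent.Lib.TWIV.TameH
import Pool.Agent.Lib.TWIV.TmG
import Pool.Agent.Lib.TWIV.TmW
import Pool.Agent.Lib.TWIV.Coarse
import Pool.Agent.Lib.TWIV.ExM2

/-!
# TANK W, tame case: the core for a closed field with a tame letter

* `WCor k p v`: the core, for the fine and the coarse world;
* `corT_of`: it gives `CorT`; `exM`: the exchange of the tame letter holds.
-/

set_option autoImplicit false

open Polynomial

namespace Pool.Agent.TWIV

open Pool.Agent.H15JM (RVal)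
open Pool.Agent.LU1 (VPos adj)
open Pool.Agent.D2 (Ctx0)
open Pool.Agent.D2P (hen clI mem_clI mem_adj_self)
open Pool.Agent.TWM Pool.Agent.TWC Pool.Agent.TWS Pool.Agent.TWT

universe u

variable {k Ω : Type u} [Field k] [Field Ω] [Algebra k Ω] {v : RVal Ω}

/-- The core, in the two worlds. -/
def WCor (k : Type u) {Ω : Type u} [Field k] [Field Ω] [Algebra k Ω] (p : ℕ) [Fact p.Prime]
    (v : RVal Ω) : Prop :=
  ∀ (N L : IntermediateField k Ω) (M : ℝ → Ω) (g₀ : ℝ), World p v N L ⊤ M →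
    World p v (cs p v N N M) (cs p v N L M) ⊤ M → VG v (cs p v N N M) = satp p (VG v N) →
    g₀ ∈ VG v N → g₀ / p ∉ VG v N → RatV v N g₀ →
    (∀ g ∈ VG v N, ∃ l < p, ∃ g' ∈ VG v N, g = l * g₀ + p * g') →
    Tow v 3 (PM v N ⊤ M) (PM v L ⊤ M) → TowR v 3 N L

variable {p : ℕ} [hp : Fact p.Prime] [CharP k p] [CharP Ω p] [IsAlgClosed k] [IsAlgClosed Ω]

omit [CharP k p] in
/-- The exchange of the tame letter. -/
theorem exM (hk : Ctx0 k v) (hc : CompleteV v) : ExM k p v :=
  fun _ _ _ _ _ hL hu hux hM hM' hMx hMu hT => exch_mon p hk hc hL hu hux hM hM' hMx hMu hT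

omit [CharP k p] [IsAlgClosed k] in
/-- The core for a closed field with a tame letter. -/
theorem corT_of (hk : Ctx0 k v) (h : WCor k p v) : CorT k p v := by
  intro L x M hL hM hMx hT
  obtain ⟨W, hV, hE⟩ := Tm.worldc p hk hL hM hMx (N := PM v ⊥ (VG v L) M) rfl
  have hg₀ : v x ∈ VG v (PM v (⊥ : IntermediateField k Ω) (VG v L) M) := by
    rw [hV]
    exact hL.val_mem
  have hg₀' : v x / p ∉ VG v (PM v (⊥ : IntermediateField k Ω) (VG v L) M) := by
    rw [hV]
    exact hL.tame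
  have hrat : RatV v (PM v (⊥ : IntermediateField k Ω) (VG v L) M) (v x) := fun g hg =>
    hL.rat g (by rwa [hV] at hg)
  obtain ⟨W', hV', -⟩ := W.coarse_rat hg₀ hg₀' hrat
  refine h _ L M (v x) W W' hV' hg₀ hg₀' hrat ?_ (by rwa [hE])
  rw [hV]
  exact Tm.cycc p hL

end Pool.Agent.TWIV
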