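import Pool.Agent.Lib.TWIV.Core
import Pool.Agent.Lib.TWIV.CorG

/-!
# TANK W, tame case: the core without hypothesis

* `wCor`: the core in the two worlds;
* `corT`: the core for a closed field with a tame letter.
-/

set_option autoImplicit false

namespace Pool.Agent.TWIV

open Pool.Agent.H15JM (RVal)
open Pool.Agent.D2 (Ctx0)
open Pool.Agent.TWM Pool.Agent.TWC Pool.Agent.TWS Pool.Agent.TWT

universe u

variable {k Ω : Type u} [Field k] [Field Ω] [Algebra k Ω] {v : RVal Ω} {p : ℕ}
  [Fact p.Prime] [CharP k p] [CharP Ω p] [IsAlgClosed k] [IsAlgClosed Ω]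

/-- **The core in the two worlds.** -/
theorem wCor (hk : Ctx0 k v) (hc : CompleteV v) : WCor k p v := by
  intro N L M g₀ W W' hV hg₀ hg₀' _ hG hT
  have _ : Fact (Ctx0 k v) := ⟨hk⟩
  have _ : PerfectRing k p := inferInstance
  exact W.core hc W' hV hg₀ hg₀' hG hT

/-- **The core for a closed field with a tame letter.** -/
theorem corT (hk : Ctx0 k v) (hc : CompleteV v) : CorT k p v := corT_of hk (wCor hk hc)

end Pool.Agent.TWIV
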