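import Pool.Agent.Lib.TWIV.TameTop

/-!
# TANK W, class (IV): row F1, the first floor in the tame case

* `exists_ff_tame`: coordinates `x, y` of `C`, `v x / p` not a value of `C`;
* `disc_gen`: a discrete closed field is generated by each uniformizer;
* `algIn_mon`: the algebraic closure of `k(x)` in `C` is in the field of monomials;
* `ffTame`: `FFTame p k`.
-/

set_option autoImplicit false

open Polynomial

namespace Pool.Agent.TWIV

open Pool.Agent.H15JM (RVal)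
open Pool.Agent.LU1 (VPos adj)
open Pool.Agent.D2 (Ctx0)
open Pool.Agent.D2P (hen clI mem_clI mem_adj_self)
open Pool.Agent.TW (Full BD PBasis Orth LU Fr Ctx)
open Pool.Agent.TWM
open Pool.Agent.TWS (VG PM IsoE MonG RatV)
open Pool.Agent.TWC (CP vg_map)
open Pool.Agent.TWF (FF perfC algIn mem_algIn mem_perfC)

universe u

section Coord

variable {k Ω : Type u} [Field k] [Field Ω] [Algebra k Ω] {v : RVal Ω} [IsAlgClosed k]
  [IsAlgClosed Ω] (p : ℕ) [hp : Fact p.Prime] [CharP k p] [CharP Ω p]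

/-- Coordinates, with a tame letter. -/
theorem exists_ff_tame (h : Ctx k v 1) {C₁ : IntermediateField k Ω} (hfg : C₁.FG)
    (hfull : Full v C₁) (htr : Algebra.trdeg k C₁ = (2 : ℕ)) (hBD : BD p v C₁)
    (hnd : ¬ ∀ g ∈ VG v (clI v C₁), g / p ∈ VG v (clI v C₁)) :
    ∃ x ∈ C₁, ∃ y ∈ C₁, ∃ c₀ : ℝ, FF p v (clI v C₁) x y c₀ ∧ v x / p ∉ VG v (clI v C₁) := by
  have hLU : LU p v 1 C₁ :=
    TWJ.lu_bd_two p h (TWJ.stepAll p k 1) (n := 2) (by norm_num) hfg hfull htr hBD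
  obtain ⟨t, ht⟩ := TW.exists_pbasis p hfg htr
  obtain ⟨g, hg, hgp⟩ : ∃ g ∈ VG v (clI v C₁), g / p ∉ VG v (clI v C₁) := by
    by_contra h1
    push_neg at h1
    exact hnd h1
  rw [TWS.VG.clI] at hg
  obtain ⟨x₀, hx₀, hx00, rfl⟩ := hg
  obtain ⟨F, hF, hmo, -, hpb, hor⟩ := TW.exists_orth_frame p h C₁ hfg hfull hBD hLU (D := 1) t ht
    {x₀} (fun z hz => by rw [Finset.mem_singleton.1 hz]; exact ⟨hx₀, hx00⟩) one_pos
  have hs : F.s = ![F.x 0, F.y 0] := by
    funext i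
    fin_cases i
    · rfl
    · rfl
  rw [hs] at hpb hor
  refine ⟨F.x 0, hF.x_mem 0, F.y 0, hF.y_mem 0, 1,
    { eq := ?_
      x0 := F.x_ne 0
      vx := F.x_ind.ne_zero 0
      y0 := F.y_ne 0
      oi := (OI.of_orth hor hpb).cl }, ?_⟩
  · have hK : F.K = adj (adj (⊥ : IntermediateField k Ω) (F.x 0)) (F.y 0) := by
      refine le_antisymm ?_ ?_
      · rw [Fr.K, IntermediateField.adjoin_le_iff]
        rintro a (⟨i, rfl⟩ | ⟨i, rfl⟩)
        · rw [Subsingleton.elim i 0]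
          exact (mem_adj_self _ _).2 (mem_adj_self _ _).1
        · rw [Subsingleton.elim i 0]
          exact (mem_adj_self _ _).1
      · refine D2P.adj_le (D2P.adj_le bot_le ?_) ?_
        · exact IntermediateField.subset_adjoin _ _ (Or.inl ⟨0, rfl⟩)
        · exact IntermediateField.subset_adjoin _ _ (Or.inr ⟨0, rfl⟩)
    have h1 : clI v C₁ = clI v F.K := by
      rw [← clI_hen C₁, hF.hen_eq p h, clI_hen]
    rw [h1, hK]
    exact clI_adj_clI.symm
  · intro h1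
    obtain ⟨l, w, -, hw0, hwv, hx⟩ := hmo x₀ (Finset.mem_singleton_self _)
    have hm : TW.mx F.x l = F.x 0 ^ l 0 := by
      rw [TW.mx, Fin.prod_univ_one]
    rw [hm] at hx
    have h2 : v x₀ = l 0 * v (F.x 0) := by
      rw [hx, v.map_mul (zpow_ne_zero _ (F.x_ne 0)) hw0, hwv, add_zero,
        v.map_zpow (F.x_ne 0)]
    refine hgp ?_
    rw [h2]
    have h3 := (VG v (clI v C₁)).zsmul_mem h1 (l 0)
    rw [zsmul_eq_mul] at h3
    rwa [mul_div_assoc]

end Coord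

section Disc

variable {k Ω : Type u} [Field k] [Field Ω] [Algebra k Ω] {v : RVal Ω}

/-- Approximation by polynomials in a uniformizer. -/
theorem disc_app (h0 : Ctx0 k v) {N : IntermediateField k Ω} {ρ : Ω} (hρ : ρ ∈ N) (hρ0 : ρ ≠ 0)
    (hmin : ∀ f ∈ N, f ≠ 0 → 0 < v f → v ρ ≤ v f) (n : ℕ) :
    ∀ f ∈ N, v.Ge 0 f → ∃ Q ∈ adj (⊥ : IntermediateField k Ω) ρ, v.Ge (n * v ρ) (f - Q) := by
  induction n with
  | zero =>
    intro f _ hf
    refine ⟨0, zero_mem _, ?_⟩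
    rw [sub_zero, Nat.cast_zero, zero_mul]
    exact hf
  | succ n ih =>
    intro f hf hf0
    obtain ⟨c, hc⟩ := h0.residue hf0
    have hcN : algebraMap k Ω c ∈ N := IntermediateField.algebraMap_mem _ _
    have h1 : v.Ge 0 ((f - algebraMap k Ω c) / ρ) := by
      intro h2
      have h3 : f - algebraMap k Ω c ≠ 0 := fun h4 => h2 (by rw [h4, zero_div])
      rw [v.map_div h3 hρ0]
      have := hmin _ (sub_mem hf hcN) h3 (hc h3)
      linarith
    obtain ⟨Q, hQ, h2⟩ := ih _ (div_mem (sub_mem hf hcN) hρ) h1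
    have hρa : ρ ∈ adj (⊥ : IntermediateField k Ω) ρ := (mem_adj_self _ _).1
    refine ⟨algebraMap k Ω c + Q * ρ, add_mem (IntermediateField.algebraMap_mem _ _)
      (mul_mem hQ hρa), ?_⟩
    have e : f - (algebraMap k Ω c + Q * ρ) = ((f - algebraMap k Ω c) / ρ - Q) * ρ := by
      rw [sub_mul, div_mul_cancel₀ _ hρ0]
      ring
    rw [e]
    intro h3
    have h4 : (f - algebraMap k Ω c) / ρ - Q ≠ 0 := left_ne_zero_of_mul h3
    rw [v.map_mul h4 hρ0]
    have := h2 h4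
    push_cast
    linarith

/-- A discrete closed field is generated by each uniformizer. -/
theorem disc_gen (h0 : Ctx0 k v) {N : IntermediateField k Ω} {ρ : Ω} (hρ : ρ ∈ N) (hρ0 : ρ ≠ 0)
    (hρv : 0 < v ρ) (hmin : ∀ f ∈ N, f ≠ 0 → 0 < v f → v ρ ≤ v f) :
    N ≤ cadj v (⊥ : IntermediateField k Ω) ρ := by
  have hpos : ∀ f ∈ N, v.Ge 0 f → f ∈ cadj v (⊥ : IntermediateField k Ω) ρ := by
    intro f hf hf0
    refine mem_clI.2 fun b => ?_
    obtain ⟨n, hn⟩ := exists_nat_gt (b / v ρ)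
    obtain ⟨Q, hQ, h1⟩ := disc_app h0 hρ hρ0 hmin n f hf hf0
    refine ⟨Q, hQ, h1.mono ?_⟩
    rw [div_lt_iff₀ hρv] at hn
    exact hn.le
  intro f hf
  have hρc : ρ ∈ cadj v (⊥ : IntermediateField k Ω) ρ := self_mem_cadj _ _ _
  by_cases hf0 : f = 0
  · rw [hf0]
    exact zero_mem _
  obtain ⟨n, hn⟩ := exists_nat_gt (- v f / v ρ)
  have h1 : v.Ge 0 (f * ρ ^ n) := fun h2 => by
    rw [v.map_mul hf0 (pow_ne_zero _ hρ0), v.map_pow hρ0]
    rw [div_lt_iff₀ hρv] at hn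
    linarith
  have h2 := hpos _ (mul_mem hf (pow_mem hρ n)) h1
  have h3 : f = f * ρ ^ n / ρ ^ n := by
    rw [mul_div_assoc, div_self (pow_ne_zero _ hρ0), mul_one]
  rw [h3]
  exact div_mem h2 (pow_mem hρc n)

end Disc

section Mon

variable {k Ω H : Type u} [Field k] [Field Ω] [Algebra k Ω] [Field H] [Algebra k H] {v : RVal Ω}
  {w : RVal H} [IsAlgClosed k] [IsAlgClosed Ω] [IsAlgClosed H] (p : ℕ) [hp : Fact p.Prime]
  [CharP k p] [CharP Ω p] [CharP H p]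

/-- The algebraic closure of `k(x)` in `C` is in the field of monomials. -/
theorem algIn_mon (h0 : Ctx0 k v) (hc : CompleteV v) (hw : Ctx0 k w) {φ : Ω →ₐ[k] H}
    (hI : IsoE v w φ) {C : IntermediateField k Ω} {x : Ω} (hxC : x ∈ C) (hx0 : x ≠ 0)
    (hx : v x ≠ 0) (hxp : v x / p ∉ VG v C) {M : ℝ → H} (hM : MS w ⊤ M) (hMx : M (v x) = φ x)
    {a : Ω} (ha : a ∈ algIn C (adj (⊥ : IntermediateField k Ω) x)) :
    φ a ∈ PM w (⊥ : IntermediateField k H) ⊤ M := by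
  obtain ⟨haC, halg⟩ := mem_algIn.1 ha
  obtain ⟨π, hπN, hπ0, hπv, hmin, hNπ⟩ := TWF.disc_cl' h0 hx0 hx halg
  set N₀ := adj (adj (⊥ : IntermediateField k Ω) x) a with hN₀
  have hxN : x ∈ N₀ := (mem_adj_self _ _).2 (mem_adj_self _ _).1
  have haN : a ∈ N₀ := (mem_adj_self _ _).1
  have hNC : N₀ ≤ C := D2P.adj_le (D2P.adj_le bot_le hxC) haC
  set N := clI v N₀ with hN
  have hminN : ∀ f ∈ N, f ≠ 0 → 0 < v f → v π ≤ v f := by
    intro f hf hf0 hfv
    have h1 : v f ∈ VG v N := ⟨f, hf, hf0, rfl⟩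
    rw [hN, TWS.VG.clI] at h1
    obtain ⟨b, hb, hb0, hbv⟩ := h1
    rw [← hbv] at hfv ⊢
    exact hmin b hb hb0 hfv
  -- the value of `x`
  obtain ⟨e, he⟩ : ∃ e : ℤ, v x = e * v π := by
    set e : ℤ := ⌊v x / v π⌋ with hed
    have h1 : (e : ℝ) ≤ v x / v π := Int.floor_le _
    have h2 : v x / v π < e + 1 := Int.lt_floor_add_one _
    have h1' : e * v π ≤ v x := (le_div_iff₀ hπv).1 h1
    have h2' : v x < (e + 1) * v π := (div_lt_iff₀ hπv).1 h2
    refine ⟨e, ?_⟩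
    by_contra hne
    have h3 : e * v π < v x := lt_of_le_of_ne h1' fun h4 => hne h4.symm
    have h4 : v (x / π ^ e) = v x - e * v π := by
      rw [v.map_div hx0 (zpow_ne_zero _ hπ0), v.map_zpow hπ0]
    have h5 := hmin (x / π ^ e) (div_mem hxN (zpow_mem hπN e))
      (div_ne_zero hx0 (zpow_ne_zero _ hπ0)) (by rw [h4]; linarith)
    rw [h4] at h5
    linarith
  have hp0 : (p : ℝ) ≠ 0 := by exact_mod_cast hp.out.ne_zero
  have hpe : ¬ p ∣ e.natAbs := by
    intro h1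
    obtain ⟨m, hm⟩ := Int.natCast_dvd.2 h1
    have h2 : v x / p = m * v π := by
      rw [he, hm]
      push_cast
      field_simp
    have h3 := (VG v C).zsmul_mem (x := v π) ⟨π, hNC hπN, hπ0, rfl⟩ m
    rw [zsmul_eq_mul, ← h2] at h3
    exact hxp h3
  -- the monomial
  have hMπ : M (v π) ∈ N.map φ := by
    refine TWS.root_mem p hw ((hI.cld_iff hc).2 (cld_clI v N₀)) hpe (hM.ne _ trivial) ?_ ?_
    · have h1 : M (v π) ^ e = φ x := by
        rw [← TWS.MS.zpow hM trivial e, ← he, hMx]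
      have h3 : φ x ∈ N.map φ := ⟨x, TWM.le_clI _ hxN, rfl⟩
      rcases Int.natAbs_eq e with h2 | h2
      · rw [h2, zpow_natCast] at h1
        rw [h1]
        exact h3
      · rw [h2, zpow_neg, zpow_natCast] at h1
        have h4 : M (v π) ^ e.natAbs = (φ x)⁻¹ := by rw [← h1, inv_inv]
        rw [h4]
        exact inv_mem h3
    · rw [hM.val _ trivial, vg_map hI]
      exact ⟨π, TWM.le_clI _ hπN, hπ0, rfl⟩
  obtain ⟨ρ, hρN, hρ⟩ := hMπ
  have hρ' : φ ρ = M (v π) := hρ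
  have hρ0 : ρ ≠ 0 := by
    rintro rfl
    rw [map_zero] at hρ'
    exact hM.ne _ trivial hρ'.symm
  have hρv : v ρ = v π := by
    rw [← hI.val ρ hρ0, hρ', hM.val _ trivial]
  have hgen : N ≤ cadj v (⊥ : IntermediateField k Ω) ρ :=
    disc_gen h0 hρN hρ0 (by rw [hρv]; exact hπv) (by rw [hρv]; exact hminN)
  have h1 : a ∈ cadj v (⊥ : IntermediateField k Ω) ρ := hgen (TWM.le_clI _ haN)
  have h2 : φ a ∈ (cadj v (⊥ : IntermediateField k Ω) ρ).map φ := ⟨a, h1, rfl⟩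
  rw [← hI.cadj_map hc, IntermediateField.map_bot, hρ'] at h2
  exact TWM.cadj_le TWS.PM.cld bot_le (TWS.PM.mon (AddSubgroup.mem_top _)) h2

end Mon

/-- **Row F1.** -/
theorem ffTame (p : ℕ) [hp : Fact p.Prime] (k : Type u) [Field k] [IsAlgClosed k] [CharP k p] :
    FFTame p k := by
  intro Ω H _ _ _ _ _ _ _ _ v w h hc hw hcw φ hI C₁ C hfg hfull htr hBD hC hnd
  subst hC
  obtain ⟨x, hx, y, hy, c₀, hF, hxp⟩ := exists_ff_tame p h hfg hfull htr hBD hnd
  have hxC : x ∈ clI v C₁ := TWM.le_clI _ hx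
  have hyC : y ∈ clI v C₁ := TWM.le_clI _ hy
  have hfar := TWF.ff_far p h.toCtx0 hF.oi hF.x0 hF.vx hxC hyC hF.y0
  obtain ⟨s, hs⟩ := TWF.ff_tl0 p h.toCtx0 (cld_clI v C₁) (D2P.adj_le bot_le hxC)
    (TWC.full_of_mem h (mem_adj_self _ x).1 hF.x0 hF.vx) hyC hfar
  refine ⟨x, hxC, y, hyC, s, hF.x0, hF.vx, hxp, hF.eq, fun M hM hMx => ?_⟩
  set A := algIn (clI v C₁) (adj (⊥ : IntermediateField k Ω) x) with hA
  set E := clI v (perfC p A) with hE
  have hxA : x ∈ A := mem_algIn.2 ⟨hxC, D2P.isAlgebraic_of_mem (mem_adj_self _ x).1⟩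
  have hxE : x ∈ E := TWM.le_clI _ (TWF.le_perfC p A hxA)
  -- the field of monomials contains the image
  have hEP : E.map φ ≤ PM w (⊥ : IntermediateField k H) ⊤ M := by
    rw [hE, ← hI.clI_map hc]
    refine TWC.clI_le' ?_ TWS.PM.cld
    rintro _ ⟨a, ha, rfl⟩
    obtain ⟨n, hn⟩ := (mem_perfC p).1 ha
    have h1 := algIn_mon p h.toCtx0 hc hw hI hxC hF.x0 hF.vx hxp hM hMx hn
    rw [map_pow] at h1
    have hroot : ∀ n : ℕ, ∀ b : H, b ^ p ^ n ∈ PM w (⊥ : IntermediateField k H) ⊤ M →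
        b ∈ PM w (⊥ : IntermediateField k H) ⊤ M := by
      intro n
      induction n with
      | zero =>
        intro b hb
        rwa [pow_zero, pow_one] at hb
      | succ n ih =>
        intro b hb
        rw [pow_succ', pow_mul] at hb
        obtain ⟨c, hc, hcb⟩ := perf_PM_bot hM _ (ih _ hb)
        have h2 : c = b := by
          have h3 : (c - b) ^ p = 0 := by rw [sub_pow_char, hcb, sub_self]
          exact sub_eq_zero.1 (pow_eq_zero_iff hp.out.ne_zero |>.1 h3)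
        rw [← h2]
        exact hc
    exact hroot n _ h1
  have hEc : Cld w (E.map φ) := (hI.cld_iff hc).2 (cld_clI v _)
  have hEp : ∀ a ∈ E.map φ, ∃ b ∈ E.map φ, b ^ p = a := by
    rintro _ ⟨a, ha, rfl⟩
    obtain ⟨b, hb, rfl⟩ := TWC.perf_clI p (TWF.perfC_perf p A) a ha
    exact ⟨φ b, ⟨b, hb, rfl⟩, (map_pow φ b p).symm⟩
  have hval : w (φ x) = v x := hI.val x hF.x0
  have hG : MonG w (E.map φ) ⊤ M := by
    refine TWS.monG_top p hw hM (x := φ x) (by rw [hval]; exact hMx) hEc hEp ⟨x, hxE, rfl⟩ ?_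
    rw [hval]
    intro g hg
    rw [vg_map hI] at hg
    exact ratV_of_ctx h hF.x0 hF.vx g hg
  have h1 : TL w (E.map φ) (φ y) s := hI.tl_iff.2 hs
  have h2 := TWS.TL.pm hG (TWM.Imm.refl _) h1
  have e1 : PM w (E.map φ) ⊤ M = PM w (⊥ : IntermediateField k H) ⊤ M :=
    le_antisymm (TWS.PM.le_of TWS.PM.cld hEP fun _ hg => TWS.PM.mon hg) (TWS.PM.mono bot_le)
  rwa [e1] at h2

end Pool.Agent.TWIV
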