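import Pool.Agent.Lib.TWIV.TameTop
import Pool.Agent.Lib.TWIV.F1Z
import Pool.Agent.Lib.TWIV.CorZ

/-!
# TANK W, class (IV): the tame leaf, without hypothesis
-/

set_option autoImplicit false

namespace Pool.Agent.TWIV

universe u

/-- **The tame leaf.** -/
theorem tameLeaf_all (p : ℕ) [Fact p.Prime] (k : Type u) [Field k] [IsAlgClosed k] [CharP k p] :
    TWF.TameLeaf p k :=
  tameLeaf p k (ffTame p k) fun _ _ _ _ _ _ hk hc _ _ _ => corT hk hc

end Pool.Agent.TWIV
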