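import Pool.Agent.Lib.TWIV.OpA
import Pool.Agent.Lib.TWS.Ac

/-!
# TANK W: extension of operators of norm `≤ 0` (Ingleton)

`Ω` spherically complete, `L` a subfield. An `L`-linear map of norm `≤ 0` from an `L`-subspace of
`Ω` to `Ω` extends to an `L`-linear map `Ω → Ω` of norm `≤ 0`.

* `SphC.exists_ext`: the extension;
* `exists_ext_fn`: the case of an operator on a field `T` which contains `L`;
* `OpX v L T D 𝒜`: the operators of `𝒜` are `L`-linear and extend the span of `1` and `D`;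
  `exists_opX`, `OpX.stb`.
-/

set_option autoImplicit false
set_option linter.unusedSectionVars false

namespace Pool.Agent.TWIV

open Pool.Agent.H15JM (RVal)
open Pool.Agent.D2 (Ctx0)
open Pool.Agent.TWM Pool.Agent.TWC
open Pool.Agent.TWS (SphC exists_cofinal)
open Submodule

universe u

section Ext

variable {K Ω : Type u} [Field K] [Field Ω] [Algebra K Ω] {v : RVal Ω}

/-- The value at a new element. -/
theorem exists_val_ext (hO : SphC v) (D : Submodule K Ω) (f : D →ₗ[K] Ω)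
    (hf : ∀ (x : D) (b : ℝ), v.Ge b (x : Ω) → v.Ge b (f x)) {y : Ω} (hy : y ∉ D) :
    ∃ c : Ω, ∀ d : D, v.Ge (v (y - (d : Ω))) (c - f d) := by
  have hne : ∀ d : D, y - (d : Ω) ≠ 0 := fun d h => hy (by
    rw [sub_eq_zero.1 h]
    exact d.2)
  by_cases h : ∃ a : D, ∀ b : D, v (y - (b : Ω)) ≤ v (y - (a : Ω))
  · obtain ⟨a, ha⟩ := h
    refine ⟨f a, fun d => ?_⟩
    rw [← map_sub]
    refine hf _ _ ?_
    have e : ((a - d : D) : Ω) = (y - (d : Ω)) - (y - (a : Ω)) := by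
      rw [AddSubgroupClass.coe_sub]
      ring
    rw [e]
    exact (RVal.ge_self _).sub ((RVal.ge_self _).mono (ha d))
  · push Not at h
    obtain ⟨b, hb, hcof⟩ := exists_cofinal (fun d : D => v (y - (d : Ω))) h
    obtain ⟨c, hc⟩ := hO (fun n => f (b n)) (fun n => v (y - (b n : Ω))) fun n m hnm => by
      rw [← map_sub]
      refine hf _ _ ?_
      have e : ((b m - b n : D) : Ω) = (y - (b n : Ω)) - (y - (b m : Ω)) := by
        rw [AddSubgroupClass.coe_sub]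
        ring
      rw [e]
      exact (RVal.ge_self _).sub ((RVal.ge_self _).mono (hb.monotone hnm))
    refine ⟨c, fun d => ?_⟩
    obtain ⟨n, hn⟩ := hcof d
    have e : c - f d = (c - f (b n)) + f (b n - d) := by
      rw [map_sub]
      ring
    rw [e]
    refine ((hc n).mono hn.le).add (hf _ _ ?_)
    have e : ((b n - d : D) : Ω) = (y - (d : Ω)) - (y - (b n : Ω)) := by
      rw [AddSubgroupClass.coe_sub]
      ring
    rw [e]
    exact (RVal.ge_self _).sub ((RVal.ge_self _).mono hn.le)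

/-- The one step extension. -/
theorem ext_step (hO : SphC v) (f : Ω →ₗ.[K] Ω)
    (hf : ∀ (x : f.domain) (b : ℝ), v.Ge b (x : Ω) → v.Ge b (f x)) (hdom : f.domain ≠ ⊤) :
    ∃ g, f < g ∧ ∀ (x : g.domain) (b : ℝ), v.Ge b (x : Ω) → v.Ge b (g x) := by
  obtain ⟨y, -, hy⟩ : ∃ y ∈ ⊤, y ∉ f.domain := SetLike.exists_of_lt (lt_top_iff_ne_top.2 hdom)
  obtain ⟨c, hc⟩ := exists_val_ext hO f.domain f.toFun hf hy
  refine ⟨f.supSpanSingleton y c hy, ?_, ?_⟩
  · refine lt_iff_le_not_ge.2 ⟨f.left_le_sup _ _, fun H => ?_⟩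
    replace H := LinearPMap.domain_mono.monotone H
    rw [LinearPMap.domain_supSpanSingleton, sup_le_iff, span_le, Set.singleton_subset_iff] at H
    exact hy H.2
  · rintro ⟨z, hz⟩ b hzb
    rcases mem_sup.1 hz with ⟨x, hx, y', hy', rfl⟩
    rcases mem_span_singleton.1 hy' with ⟨r, rfl⟩
    rw [LinearPMap.supSpanSingleton_apply_mk _ _ _ _ _ hx]
    simp only at hzb
    rw [RingHom.id_apply]
    by_cases hr : r = 0
    · subst hr
      rw [zero_smul, add_zero] at hzb ⊢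
      exact hf ⟨x, hx⟩ b hzb
    · have hr' : algebraMap K Ω r ≠ 0 := by
        rwa [Ne, FaithfulSMul.algebraMap_eq_zero_iff]
      have hx' : -(r⁻¹ • x) ∈ f.domain := neg_mem (f.domain.smul_mem _ hx)
      have hne : y - -(r⁻¹ • x) ≠ 0 := fun h => hy (by
        rw [sub_eq_zero.1 h]
        exact hx')
      have e1 : x + r • y = algebraMap K Ω r * (y - -(r⁻¹ • x)) := by
        rw [sub_neg_eq_add, ← Algebra.smul_def, smul_add, smul_smul, mul_inv_cancel₀ hr, one_smul,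
          add_comm]
      have e2 : f ⟨x, hx⟩ + r • c = algebraMap K Ω r * (c - f ⟨-(r⁻¹ • x), hx'⟩) := by
        have e3 : (⟨-(r⁻¹ • x), hx'⟩ : f.domain) = -(r⁻¹ • ⟨x, hx⟩) := rfl
        rw [e3, f.map_neg, f.map_smul, sub_neg_eq_add, ← Algebra.smul_def,
          smul_add, smul_smul, mul_inv_cancel₀ hr, one_smul, add_comm]
      rw [e1] at hzb
      rw [e2]
      have h1 := hzb (mul_ne_zero hr' hne)
      intro h2
      have h3 : c - f ⟨-(r⁻¹ • x), hx'⟩ ≠ 0 := right_ne_zero_of_mul h2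
      have h4 := hc ⟨-(r⁻¹ • x), hx'⟩ h3
      rw [v.map_mul hr' hne] at h1
      rw [v.map_mul hr' h3]
      have h5 : v (y - ((⟨-(r⁻¹ • x), hx'⟩ : f.domain) : Ω)) = v (y - -(r⁻¹ • x)) := rfl
      rw [h5] at h4
      have h6 : (c - f.toFun ⟨-(r⁻¹ • x), hx'⟩) = c - f ⟨-(r⁻¹ • x), hx'⟩ := rfl
      rw [h6] at h4
      linarith

theorem ext_top (hO : SphC v) (q₀ : Ω →ₗ.[K] Ω)
    (hq₀ : ∀ (x : q₀.domain) (b : ℝ), v.Ge b (x : Ω) → v.Ge b (q₀ x)) :
    ∃ q ≥ q₀, q.domain = ⊤ ∧ ∀ (x : q.domain) (b : ℝ), v.Ge b (x : Ω) → v.Ge b (q x) := by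
  set S := {q : Ω →ₗ.[K] Ω | ∀ (x : q.domain) (b : ℝ), v.Ge b (x : Ω) → v.Ge b (q x)}
  have hSc : ∀ c, c ⊆ S → IsChain (· ≤ ·) c → ∀ y ∈ c, ∃ ub ∈ S, ∀ z ∈ c, z ≤ ub := by
    intro c hcs c_chain y hy
    have cne : c.Nonempty := ⟨y, hy⟩
    have hcd : DirectedOn (· ≤ ·) c := c_chain.directedOn
    refine ⟨LinearPMap.sSup c hcd, ?_, fun _ ↦ LinearPMap.le_sSup hcd⟩
    rintro ⟨x, hx⟩ b hxs
    have hdir : DirectedOn (· ≤ ·) (LinearPMap.domain '' c) :=
      directedOn_image.2 (hcd.mono LinearPMap.domain_mono.monotone)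
    rcases (mem_sSup_of_directed (cne.image _) hdir).1 hx with ⟨_, ⟨f, hfc, rfl⟩, hfx⟩
    have : f ≤ LinearPMap.sSup c hcd := LinearPMap.le_sSup _ hfc
    convert! ← hcs hfc ⟨x, hfx⟩ b hxs using 1
    exact this.2 rfl
  obtain ⟨q, hpq, hqs, hq⟩ := zorn_le_nonempty₀ S hSc q₀ hq₀
  refine ⟨q, hpq, ?_, hqs⟩
  contrapose! hq
  rcases ext_step hO q hqs hq with ⟨r, hqr, hr⟩
  exact ⟨r, hr, hqr.le, fun hrq ↦ hqr.ne' <| hrq.antisymm hqr.le⟩

/-- **Extension of linear maps of norm `≤ 0`.** -/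
theorem _root_.Pool.Agent.TWS.SphC.exists_ext (hO : SphC v) (T : Submodule K Ω) (f : T →ₗ[K] Ω)
    (hf : ∀ (x : T) (b : ℝ), v.Ge b (x : Ω) → v.Ge b (f x)) :
    ∃ g : Ω →ₗ[K] Ω, (∀ (x : Ω) (b : ℝ), v.Ge b x → v.Ge b (g x)) ∧
      ∀ (x : Ω) (hx : x ∈ T), g x = f ⟨x, hx⟩ := by
  obtain ⟨⟨D, g⟩, ⟨-, hfg⟩, rfl : D = ⊤, hgs⟩ := ext_top hO ⟨T, f⟩ hf
  refine ⟨g.comp (LinearMap.id.codRestrict ⊤ fun _ ↦ trivial), fun x b hx => ?_, fun x hx => ?_⟩
  · exact hgs ⟨x, trivial⟩ b hx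
  · exact (hfg (x := ⟨x, hx⟩) (y := ⟨x, trivial⟩) rfl).symm

end Ext

section Fn

variable {k Ω : Type u} [Field k] [Field Ω] [Algebra k Ω] {v : RVal Ω} [hk : Fact (Ctx0 k v)]
  {L T B : IntermediateField k Ω} {z : Ω}

/-- The extension of an operator of `T` which is linear over `L`. -/
theorem exists_ext_fn (hO : SphC v) (hLT : L ≤ T) (φ : Opr v T)
    (hl : ∀ l ∈ L, ∀ x ∈ T, fn φ (l * x) = l * fn φ x) :
    ∃ g : Module.End k Ω, (∀ (x : Ω) (b : ℝ), v.Ge b x → v.Ge b (g x)) ∧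
      (∀ x ∈ T, g x = fn φ x) ∧ ∀ l ∈ L, ∀ x, g (l * x) = l * g x := by
  let T' : Submodule L Ω :=
    { carrier := T
      add_mem' := fun ha hb => add_mem ha hb
      zero_mem' := zero_mem T
      smul_mem' := fun l x hx => by
        rw [Algebra.smul_def]
        exact mul_mem (hLT l.2) hx }
  let f : T' →ₗ[L] Ω :=
    { toFun := fun x => fn φ (x : Ω)
      map_add' := fun x y => fn_add φ x.2 y.2
      map_smul' := fun l x => by
        change fn φ ((l : Ω) * (x : Ω)) = (l : Ω) * fn φ (x : Ω)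
        exact hl l l.2 _ x.2 }
  obtain ⟨g, h1, h2⟩ := hO.exists_ext T' f fun x b hx => fn_ge φ x.2 hx
  refine ⟨g.restrictScalars k, h1, fun x hx => h2 x hx, fun l hl x => ?_⟩
  exact g.map_smul (⟨l, hl⟩ : L) x

/-- The operators of `𝒜` are `L`-linear and extend the span of `1` and `D`. -/
structure OpX (v : RVal Ω) [Fact (Ctx0 k v)] (L T : IntermediateField k Ω) (D : Set (Opr v T))
    (𝒜 : Submodule k (Module.End k Ω)) : Prop where
  op : OpA v 𝒜
  lin : ∀ ψ ∈ 𝒜, ∀ l ∈ L, ∀ x, ψ (l * x) = l * ψ x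
  mem : ∀ φ ∈ D, ∃ ψ ∈ 𝒜, ∀ x ∈ T, ψ x = fn φ x
  rep : ∀ ψ ∈ 𝒜, ∃ (c : k) (φ : Opr v T), φ ∈ Submodule.span k D ∧
    ∀ x ∈ T, ψ x = algebraMap k Ω c * x + fn φ x

theorem exists_opX (hO : SphC v) (hLT : L ≤ T) (D : Set (Opr v T))
    (hl : ∀ φ ∈ D, ∀ l ∈ L, ∀ x ∈ T, fn φ (l * x) = l * fn φ x)
    (h1 : ∀ φ ∈ D, ∃ c : k, fn φ 1 = algebraMap k Ω c) :
    ∃ 𝒜 : Submodule k (Module.End k Ω), OpX v L T D 𝒜 := by
  choose! g hg1 hg2 hg3 using fun (φ : Opr v T) (hφ : φ ∈ D) =>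
    exists_ext_fn hO hLT φ (hl φ hφ)
  have key : ∀ ψ ∈ Submodule.span k (insert (1 : Module.End k Ω) (g '' D)),
      (∀ (x : Ω) (b : ℝ), v.Ge b x → v.Ge b (ψ x)) ∧ (∃ c : k, ψ 1 = algebraMap k Ω c) ∧
      (∀ l ∈ L, ∀ x, ψ (l * x) = l * ψ x) ∧
      ∃ (c : k) (φ : Opr v T), φ ∈ Submodule.span k D ∧
        ∀ x ∈ T, ψ x = algebraMap k Ω c * x + fn φ x := by
    intro ψ hψ
    induction hψ using Submodule.span_induction with
    | mem ψ h =>
      rcases h with rfl | ⟨φ, hφ, rfl⟩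
      · refine ⟨fun x b hx => hx, ⟨1, (map_one (algebraMap k Ω)).symm⟩, fun l _ x => rfl, 1, 0,
          zero_mem _,
          fun x hx => ?_⟩
        have h0 : fn (0 : Opr v T) x = 0 := by
          rw [fn_of_mem _ hx]
          rfl
        rw [h0, map_one, one_mul, add_zero]
        rfl
      · refine ⟨hg1 φ hφ, ?_, hg3 φ hφ, 0, φ, Submodule.subset_span hφ, fun x hx => ?_⟩
        · obtain ⟨c, hc⟩ := h1 φ hφ
          exact ⟨c, by rw [hg2 φ hφ 1 (one_mem T), hc]⟩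
        · rw [map_zero, zero_mul, zero_add]
          exact hg2 φ hφ x hx
    | zero =>
      refine ⟨fun x b _ => RVal.Ge.zero, ⟨0, by rw [map_zero]; rfl⟩,
        fun l _ x => by rw [LinearMap.zero_apply, LinearMap.zero_apply, mul_zero], 0, 0,
        zero_mem _, fun x hx => ?_⟩
      have h0 : fn (0 : Opr v T) x = 0 := by
        rw [fn_of_mem _ hx]
        rfl
      rw [h0, map_zero, zero_mul, add_zero]
      rfl
    | add ψ ψ' _ _ h h' =>
      obtain ⟨a1, ⟨c, a2⟩, a3, d, φ, a4, a5⟩ := h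
      obtain ⟨b1, ⟨c', b2⟩, b3, d', φ', b4, b5⟩ := h'
      refine ⟨fun x b hx => (a1 x b hx).add (b1 x b hx),
        ⟨c + c', by rw [LinearMap.add_apply, a2, b2, map_add]⟩,
        fun l hl x => by rw [LinearMap.add_apply, LinearMap.add_apply, a3 l hl, b3 l hl, mul_add],
        d + d', φ + φ', add_mem a4 b4, fun x hx => ?_⟩
      have h0 : fn (φ + φ') x = fn φ x + fn φ' x := by
        rw [fn_of_mem _ hx, fn_of_mem _ hx, fn_of_mem _ hx]
        rfl
      rw [LinearMap.add_apply, a5 x hx, b5 x hx, h0, map_add]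
      ring
    | smul a ψ _ h =>
      obtain ⟨a1, ⟨c, a2⟩, a3, d, φ, a4, a5⟩ := h
      refine ⟨fun x b hx => ?_, ⟨a * c, by
          rw [LinearMap.smul_apply, a2, Algebra.smul_def, map_mul]⟩,
        fun l hl x => by
          rw [LinearMap.smul_apply, LinearMap.smul_apply, a3 l hl, Algebra.smul_def,
            Algebra.smul_def]
          ring,
        a * d, a • φ, Submodule.smul_mem _ a a4, fun x hx => ?_⟩
      · rw [LinearMap.smul_apply, Algebra.smul_def]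
        have := (hk.out.ge a).mul (a1 x b hx)
        rwa [zero_add] at this
      · have h0 : fn (a • φ) x = algebraMap k Ω a * fn φ x := by
          rw [fn_of_mem _ hx, fn_of_mem _ hx, ← Algebra.smul_def]
          rfl
        rw [LinearMap.smul_apply, a5 x hx, h0, Algebra.smul_def, map_mul]
        ring
  refine ⟨Submodule.span k (insert (1 : Module.End k Ω) (g '' D)), ?_⟩
  exact
    { op :=
        { one := Submodule.subset_span (Set.mem_insert _ _)
          ge := fun ψ hψ => (key ψ hψ).1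
          const := fun ψ hψ => (key ψ hψ).2.1 }
      lin := fun ψ hψ => (key ψ hψ).2.2.1
      mem := fun φ hφ => ⟨g φ, Submodule.subset_span (Set.mem_insert_of_mem _ ⟨φ, hφ, rfl⟩),
        hg2 φ hφ⟩
      rep := fun ψ hψ => (key ψ hψ).2.2.2 }

namespace OpX

variable {D : Set (Opr v T)} {𝒜 : Submodule k (Module.End k Ω)}

theorem cj_eq (h : OpX v L T D 𝒜) {ψ : Module.End k Ω} (hψ : ψ ∈ 𝒜) (hz : z ∈ L) (h0 : z ≠ 0) :
    cj z ψ = ψ := by
  ext x
  rw [cj_apply, h.lin ψ hψ z hz, inv_mul_cancel_left₀ h0]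

/-- A stable subfield. -/
theorem stb (h : OpX v L T D 𝒜) (hB : B ≤ T) (hD : ∀ φ ∈ D, ∀ x ∈ B, fn φ x ∈ B) (hz : z ∈ L)
    (h0 : z ≠ 0) : Stb 𝒜 B z where
  mem ψ hψ x hx := by
    obtain ⟨c, φ, hφ, h1⟩ := h.rep ψ hψ
    rw [h1 x (hB hx)]
    refine add_mem (mul_mem (B.algebraMap_mem c) hx) ?_
    have h2 : ∀ φ ∈ Submodule.span k D, fn φ x ∈ B := by
      intro φ hφ
      induction hφ using Submodule.span_induction with
      | mem φ h => exact hD φ h x hx
      | zero =>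
        have h0 : fn (0 : Opr v T) x = 0 := by
          rw [fn_of_mem _ (hB hx)]
          rfl
        rw [h0]
        exact zero_mem B
      | add φ φ' _ _ h h' =>
        have h0 : fn (φ + φ') x = fn φ x + fn φ' x := by
          rw [fn_of_mem _ (hB hx), fn_of_mem _ (hB hx), fn_of_mem _ (hB hx)]
          rfl
        rw [h0]
        exact add_mem h h'
      | smul a φ _ h =>
        have h0 : fn (a • φ) x = algebraMap k Ω a * fn φ x := by
          rw [fn_of_mem _ (hB hx), fn_of_mem _ (hB hx), ← Algebra.smul_def]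
          rfl
        rw [h0]
        exact mul_mem (B.algebraMap_mem a) h
    exact h2 φ hφ
  cj ψ hψ := by
    rw [h.cj_eq hψ hz h0]
    exact hψ

end OpX

end Fn

end Pool.Agent.TWIV
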