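import Pool.Agent.Lib.TWIV.Bdd
import Pool.Agent.Lib.TWC.LemR

/-!
# TANK W, leaf (IV): graded operators

* `cj w φ`: the operator `x ↦ w⁻¹ φ (w x)`;
* `gcf z φ f`: the polynomial whose value at `z` is `φ (f z)`; Hasse derivatives;
* `OpA v 𝒜`: a space of operators of norm `≤ 0`; `Stb 𝒜 B z`: `B` and `z` are homogeneous;
* `Rl p z φ w₀ w f`: the polynomial `w₀ ^ p - ∑ φ w - f`; its Hasse derivatives.
-/

set_option autoImplicit false
set_option linter.unusedSectionVars false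

open Polynomial

namespace Pool.Agent.TWIV

open Pool.Agent.H15JM (RVal)
open Pool.Agent.D2 (Ctx0)
open Pool.Agent.TWM Pool.Agent.TWC

universe u

section Defs

variable {k Ω : Type u} [Field k] [Field Ω] [Algebra k Ω] {v : RVal Ω}
  {B : IntermediateField k Ω} {z : Ω} {𝒜 : Submodule k (Module.End k Ω)}

/-- The operator `x ↦ w⁻¹ φ (w x)`. -/
noncomputable def cj (w : Ω) (φ : Module.End k Ω) : Module.End k Ω :=
  (LinearMap.mulLeft k w⁻¹).comp (φ.comp (LinearMap.mulLeft k w))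

theorem cj_apply (w : Ω) (φ : Module.End k Ω) (x : Ω) : cj w φ x = w⁻¹ * φ (w * x) := rfl

theorem cj_one (φ : Module.End k Ω) : cj 1 φ = φ := by
  ext x
  rw [cj_apply, inv_one, one_mul, one_mul]

theorem cj_cj (w w' : Ω) (φ : Module.End k Ω) : cj w' (cj w φ) = cj (w * w') φ := by
  ext x
  rw [cj_apply, cj_apply, cj_apply, mul_inv, mul_assoc w w' x]
  ring

theorem cj_mul {w : Ω} (hw : w ≠ 0) (φ : Module.End k Ω) (x : Ω) :
    φ (x * w) = cj w φ x * w := by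
  rw [cj_apply, mul_comm w x]
  field_simp

theorem cj_pow_mem {w : Ω} (h : ∀ φ ∈ 𝒜, cj w φ ∈ 𝒜) (n : ℕ) :
    ∀ φ ∈ 𝒜, cj (w ^ n) φ ∈ 𝒜 := by
  induction n with
  | zero =>
    intro φ hφ
    rwa [pow_zero, cj_one]
  | succ n ih =>
    intro φ hφ
    rw [pow_succ, ← cj_cj]
    exact h _ (ih φ hφ)

/-- The polynomial whose value at `z` is `φ (f z)`. -/
noncomputable def gcf (z : Ω) (φ : Module.End k Ω) (f : Polynomial Ω) : Polynomial Ω :=
  ∑ i ∈ f.support, monomial i (cj (z ^ i) φ (f.coeff i))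

theorem coeff_gcf (φ : Module.End k Ω) (f : Polynomial Ω) (i : ℕ) :
    (gcf z φ f).coeff i = cj (z ^ i) φ (f.coeff i) := by
  rw [gcf, finsetSum_coeff]
  simp only [coeff_monomial]
  rw [Finset.sum_ite_eq' f.support i]
  split_ifs with h
  · rfl
  · rw [notMem_support_iff.1 h, map_zero]

theorem gcf_add (φ : Module.End k Ω) (f g : Polynomial Ω) :
    gcf z φ (f + g) = gcf z φ f + gcf z φ g := by
  ext i
  rw [coeff_gcf, coeff_add, coeff_add, coeff_gcf, coeff_gcf, map_add]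

theorem gcf_sub (φ : Module.End k Ω) (f g : Polynomial Ω) :
    gcf z φ (f - g) = gcf z φ f - gcf z φ g := by
  ext i
  rw [coeff_gcf, coeff_sub, coeff_sub, coeff_gcf, coeff_gcf, map_sub]

theorem gcf_zero (φ : Module.End k Ω) : gcf z φ (0 : Polynomial Ω) = 0 := by
  ext i
  rw [coeff_gcf, coeff_zero, map_zero]

theorem gcf_C (φ : Module.End k Ω) (a : Ω) :
    gcf z φ (Polynomial.C a) = Polynomial.C (φ a) := by
  ext i
  rw [coeff_gcf, coeff_C, coeff_C]
  split_ifs with h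
  · rw [h, pow_zero, cj_one]
  · rw [map_zero]

theorem natDegree_gcf (φ : Module.End k Ω) (f : Polynomial Ω) :
    (gcf z φ f).natDegree ≤ f.natDegree := by
  refine natDegree_le_iff_coeff_eq_zero.2 fun i hi => ?_
  rw [coeff_gcf, coeff_eq_zero_of_natDegree_lt hi, map_zero]

/-- the value -/
theorem gcf_eval (hz : z ≠ 0) (φ : Module.End k Ω) (f : Polynomial Ω) :
    (gcf z φ f).eval z = φ (f.eval z) := by
  have h1 : (gcf z φ f).eval z =
      ∑ i ∈ Finset.range (f.natDegree + 1), φ (f.coeff i * z ^ i) := by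
    rw [eval_eq_sum_range' (Nat.lt_succ_of_le (natDegree_gcf φ f))]
    refine Finset.sum_congr rfl fun i _ => ?_
    rw [coeff_gcf, cj_mul (pow_ne_zero i hz)]
  rw [h1, ← map_sum, ← eval_eq_sum_range]

/-- the Hasse derivatives -/
theorem hasse_gcf (φ : Module.End k Ω) (J : ℕ) (f : Polynomial Ω) :
    hasseDeriv J (gcf z φ f) = gcf z (cj (z ^ J) φ) (hasseDeriv J f) := by
  ext i
  rw [hasseDeriv_coeff, coeff_gcf, coeff_gcf, hasseDeriv_coeff, cj_cj, ← pow_add, add_comm J i]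
  rw [← nsmul_eq_mul, ← nsmul_eq_mul, map_nsmul]

/-- A space of operators of norm `≤ 0`. -/
structure OpA (v : RVal Ω) (𝒜 : Submodule k (Module.End k Ω)) : Prop where
  one : 1 ∈ 𝒜
  ge : ∀ φ ∈ 𝒜, ∀ (x : Ω) (b : ℝ), v.Ge b x → v.Ge b (φ x)
  const : ∀ φ ∈ 𝒜, ∃ c : k, φ 1 = algebraMap k Ω c

/-- `B` and `z` are homogeneous for the operators. -/
structure Stb (𝒜 : Submodule k (Module.End k Ω)) (B : IntermediateField k Ω) (z : Ω) : Prop where
  mem : ∀ φ ∈ 𝒜, ∀ x ∈ B, φ x ∈ B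
  cj : ∀ φ ∈ 𝒜, cj z φ ∈ 𝒜

theorem Stb.pow (h : Stb 𝒜 B z) (n : ℕ) {φ : Module.End k Ω} (hφ : φ ∈ 𝒜) :
    TWIV.cj (z ^ n) φ ∈ 𝒜 := cj_pow_mem h.cj n φ hφ

theorem gcf_mem (h : Stb 𝒜 B z) {φ : Module.End k Ω} (hφ : φ ∈ 𝒜) {f : Polynomial Ω}
    (hf : f ∈ PI B) : gcf z φ f ∈ PI B := fun i => by
  rw [coeff_gcf]
  exact h.mem _ (h.pow i hφ) _ (hf i)

theorem gcf_pop (hA : OpA v 𝒜) (h : Stb 𝒜 B z) (hz : z ≠ 0) {φ : Module.End k Ω} (hφ : φ ∈ 𝒜) :
    POp v B z (gcf z φ) where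
  mem _ hf := gcf_mem h hφ hf
  sub f _ g _ := gcf_sub φ f g
  deg f _ := natDegree_gcf φ f
  ge f _ b hb := by
    rw [gcf_eval hz]
    exact hA.ge φ hφ _ b hb

theorem OpA.gt (hA : OpA v 𝒜) {φ : Module.End k Ω} (hφ : φ ∈ 𝒜) {x : Ω} {b : ℝ}
    (hx : Gt v b x) : Gt v b (φ x) := by
  by_cases h0 : x = 0
  · rw [h0, map_zero]
    exact Gt.zero
  · exact Gt.of_ge (hA.ge φ hφ x _ (RVal.ge_self _)) (hx h0)

theorem OpA.nul (hA : OpA v 𝒜) {φ : Module.End k Ω} (hφ : φ ∈ 𝒜) {x : ℕ → Ω}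
    (hx : Nul v x) : Nul v fun n => φ (x n) := by
  intro ε hε
  obtain ⟨N, hN⟩ := hx ε hε
  exact ⟨N, fun n hn => hA.ge φ hφ _ _ (hN n hn)⟩

theorem OpA.cau (hA : OpA v 𝒜) (hB : ∀ φ ∈ 𝒜, ∀ x ∈ B, φ x ∈ B) {φ : Module.End k Ω}
    (hφ : φ ∈ 𝒜) {x : ℕ → Ω} (hx : Cau v B x) : Cau v B fun n => φ (x n) where
  mem n := hB φ hφ _ (hx.mem n)
  cau ε hε := by
    obtain ⟨N, hN⟩ := hx.cau ε hε
    refine ⟨N, fun m n hm hn => ?_⟩
    rw [← map_sub]
    exact hA.ge φ hφ _ _ (hN m n hm hn)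

/-- the residues -/
theorem OpA.res (hA : OpA v 𝒜) {φ : Module.End k Ω} (hφ : φ ∈ 𝒜) {c : k}
    (hc : φ 1 = algebraMap k Ω c) {x : Ω} {r : k} (hx : Gt v 0 (x - algebraMap k Ω r)) :
    Gt v 0 (φ x - algebraMap k Ω (c * r)) := by
  have h1 : φ (algebraMap k Ω r) = algebraMap k Ω (c * r) := by
    rw [Algebra.algebraMap_eq_smul_one, map_smul, hc, Algebra.smul_def, ← map_mul, mul_comm]
  rw [← h1, ← map_sub]
  exact hA.gt hφ hx

end Defs

/-! ## The relation as a polynomial -/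

section Rl

variable {k Ω : Type u} [Field k] [Field Ω] [Algebra k Ω] {v : RVal Ω}
  {B : IntermediateField k Ω} {z : Ω} {𝒜 : Submodule k (Module.End k Ω)}
  (p : ℕ) [Fact p.Prime] [CharP Ω p] {ι : Type} [Fintype ι]

/-- The relation. -/
noncomputable def Rl (z : Ω) (φ : ι → Module.End k Ω) (w₀ : Polynomial Ω)
    (w : ι → Polynomial Ω) (f : Polynomial Ω) : Polynomial Ω :=
  w₀ ^ p - ∑ l, gcf z (φ l) (w l) - f

variable {φ : ι → Module.End k Ω} {w₀ w₀' f f' : Polynomial Ω} {w w' : ι → Polynomial Ω}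

omit [Fact p.Prime] [CharP Ω p] in
theorem Rl_mem (h : Stb 𝒜 B z) (hφ : ∀ l, φ l ∈ 𝒜) (h0 : w₀ ∈ PI B) (hw : ∀ l, w l ∈ PI B)
    (hf : f ∈ PI B) : Rl p z φ w₀ w f ∈ PI B :=
  sub_mem (sub_mem (pow_mem h0 _) (sum_mem fun l _ => gcf_mem h (hφ l) (hw l))) hf

theorem Rl_sub : Rl p z φ (w₀ - w₀') (fun l => w l - w' l) (f - f') =
    Rl p z φ w₀ w f - Rl p z φ w₀' w' f' := by
  simp only [Rl, gcf_sub, Finset.sum_sub_distrib, sub_pow_char]
  ring

omit [Fact p.Prime] [CharP Ω p] in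
theorem Rl_eval (hz : z ≠ 0) : (Rl p z φ w₀ w f).eval z =
    w₀.eval z ^ p - ∑ l, φ l ((w l).eval z) - f.eval z := by
  simp only [Rl, eval_sub, eval_pow, eval_finsetSum, gcf_eval hz]

/-- The Hasse derivatives of order `p J`. -/
theorem hasse_Rl (J : ℕ) : hasseDeriv (p * J) (Rl p z φ w₀ w f) =
    Rl p z (fun l => cj (z ^ (p * J)) (φ l)) (hasseDeriv J w₀)
      (fun l => hasseDeriv (p * J) (w l)) (hasseDeriv (p * J) f) := by
  have hpow : hasseDeriv (p * J) (w₀ ^ p) = hasseDeriv J w₀ ^ p := by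
    ext i
    have hp0 : 0 < p := (Fact.out : p.Prime).pos
    rw [hasseDeriv_coeff, ← Polynomial.map_frobenius_expand (p := p) (f := w₀),
      ← Polynomial.map_frobenius_expand (p := p) (f := hasseDeriv J w₀), coeff_map, coeff_map,
      coeff_expand hp0, coeff_expand hp0]
    by_cases hi : p ∣ i
    · obtain ⟨i, rfl⟩ := hi
      have h1 : p ∣ p * i + p * J := ⟨i + J, by ring⟩
      rw [if_pos h1, if_pos (dvd_mul_right p i), ← mul_add, Nat.mul_div_cancel_left _ hp0,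
        Nat.mul_div_cancel_left _ hp0, hasseDeriv_coeff, frobenius_def, frobenius_def, mul_pow]
      congr 1
      have h2 : ((i + J).choose J : ℕ) ≡ ((p * (i + J)).choose (p * J)) [MOD p] := by
        have h3 := Choose.choose_modEq_choose_mod_mul_choose_div_nat (p := p)
          (n := p * (i + J)) (k := p * J)
        rw [Nat.mul_mod_right, Nat.mul_mod_right, Nat.choose_self, one_mul,
          Nat.mul_div_cancel_left _ hp0, Nat.mul_div_cancel_left _ hp0] at h3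
        exact h3.symm
      rw [← cast_eq_of_modEq (R := Ω) h2]
      rw [← frobenius_def, map_natCast]
    · rw [if_neg hi, map_zero]
      have h1 : ¬ p ∣ i + p * J := fun h => hi ((Nat.dvd_add_left (dvd_mul_right p J)).1 h)
      rw [if_neg h1, map_zero, mul_zero]
  simp only [Rl, map_sub, map_sum, hpow, hasse_gcf]

/-- The Hasse derivatives of order prime to `p`. -/
theorem hasse_Rl' {J : ℕ} (hJ : ¬ p ∣ J) : hasseDeriv J (Rl p z φ w₀ w f) =
    0 - ∑ l, gcf z (cj (z ^ J) (φ l)) (hasseDeriv J (w l)) - hasseDeriv J f := by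
  have hpow : hasseDeriv J (w₀ ^ p) = 0 := by
    ext i
    have hp0 : 0 < p := (Fact.out : p.Prime).pos
    rw [hasseDeriv_coeff, ← Polynomial.map_frobenius_expand (p := p) (f := w₀), coeff_map,
      coeff_expand hp0, coeff_zero]
    split_ifs with hi
    · obtain ⟨i', hi'⟩ := hi
      have h2 : ((i + J).choose J : ℕ) ≡ 0 [MOD p] := by
        have h3 := Choose.choose_modEq_choose_mod_mul_choose_div_nat (p := p)
          (n := i + J) (k := J)
        rw [hi', Nat.mul_mod_right, Nat.choose_eq_zero_of_lt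
          (Nat.pos_of_ne_zero fun h => hJ (Nat.dvd_of_mod_eq_zero h)), zero_mul] at h3
        rw [hi']
        exact h3
      have h4 := cast_eq_of_modEq (R := Ω) h2
      rw [h4, Nat.cast_zero, zero_mul]
    · rw [map_zero, mul_zero]
  simp only [Rl, map_sub, map_sum, hpow, hasse_gcf]

end Rl

end Pool.Agent.TWIV
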