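import Pool.Agent.Lib.TWIV.DegInd

/-!
# TANK W, leaf (IV): (W_1) for families

* `Tor`: a sequence which is torsion over `k{Fr}` modulo `E`; `HTor`: every dominated family of
  `E` is torsion (the base);
* `w1s`: the solutions of a system over `E⟨y⟩` are in `E⟨y⟩ + L(E)`;
* `w1c`: the same for dominated families of Cauchy sequences of `E⟨y⟩`.
-/

set_option autoImplicit false
set_option linter.unusedSectionVars false

open Polynomial

namespace Pool.Agent.TWIV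

open Pool.Agent.H15JM (RVal)
open Pool.Agent.D2 (Ctx0)
open Pool.Agent.TWM Pool.Agent.TWC

universe u

variable {k Ω : Type u} [Field k] [Field Ω] [Algebra k Ω] {v : RVal Ω}

/-- Torsion over `k{Fr}` modulo `E`. -/
def Tor (p : ℕ) (v : RVal Ω) (E : IntermediateField k Ω) (x : ℕ → Ω) : Prop :=
  ∃ (N : ℕ) (b : ℕ → k), (∃ j, j ≤ N ∧ b j ≠ 0) ∧ ∃ w ∈ E,
    Nul v fun n => (∑ j ∈ Finset.range (N + 1), b j • x n ^ p ^ j) - w

/-- Every dominated family of `E` is torsion. -/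
def HTor (p : ℕ) (v : RVal Ω) (𝒜 : Submodule k (Module.End k Ω)) (E : IntermediateField k Ω) :
    Prop :=
  ∀ (κ : Type) [Fintype κ] (m : κ → ℕ → Ω), (∀ l, Cau v E (m l)) →
    (∀ l, Dm v 𝒜 E m fun n => m l n ^ p) → ∀ l, Tor p v E (m l)

/-- `x` is in `B + L(E)`. -/
def InBE (v : RVal Ω) (B E : IntermediateField k Ω) (x : ℕ → Ω) : Prop :=
  ∃ β ∈ B, ∃ ν, Cau v E ν ∧ Nul v fun i => x i - β - ν i

variable [hc : Fact (Ctx0 k v)]
  {E : IntermediateField k Ω} {y : Ω} {𝒜 : Submodule k (Module.End k Ω)}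
  (p : ℕ) [Fact p.Prime] [CharP k p] [CharP Ω p] [PerfectRing k p] [IsAlgClosed Ω]

theorem not_Tor (hy : TL v E y 0) : ¬ Tor p v E (zs hy : ℕ → Ω) := by
  rintro ⟨N, b, ⟨j, hj, hbj⟩, w, hw, h1⟩
  have hp : p.Prime := Fact.out
  have h2 := sum_zc_nul p hy (Finset.range (N + 1)) b
  have h3 : ∀ n, ((∑ c ∈ Finset.range (N + 1), b c • (MM.frS p v E)^[c] (zs hy) : CauS v E) :
      ℕ → Ω) n = ∑ c ∈ Finset.range (N + 1), b c • (zs hy : ℕ → Ω) n ^ p ^ c := by
    intro n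
    rw [Submodule.coe_sum, Finset.sum_apply]
    refine Finset.sum_congr rfl fun c _ => ?_
    rw [← it_frS p c (zs hy) n]
    rfl
  have h4 : v.Ge 0 ((Polynomial.C (-w) + ∑ i ∈ Finset.range (N + 1),
      Polynomial.C (algebraMap k Ω (b i)) * X ^ p ^ i).eval y) := by
    refine Nul.const_iff.1 ((h2.add h1).congr fun n => ?_)
    rw [h3, eval_add, eval_finsetSum, eval_C]
    simp only [eval_mul, eval_C, eval_pow, eval_X]
    ring
  have h5 : (Polynomial.C (-w) + ∑ i ∈ Finset.range (N + 1),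
      Polynomial.C (algebraMap k Ω (b i)) * X ^ p ^ i) ∈ PI E := by
    refine add_mem (C_mem_PI (neg_mem hw)) (sum_mem fun i _ => ?_)
    exact mul_mem (C_mem_PI (E.algebraMap_mem _)) (pow_mem X_mem_PI _)
  have h6 := hasse_gt_of_ge hy h5 h4 (l := p ^ j) (Nat.one_le_pow _ _ hp.pos)
  rw [hasse_sum_X_pow, if_pos (Finset.mem_range.2 (by omega))] at h6
  exact hbj (const_gt h6)

/-- The chains of a perfect base. -/
theorem chain_perf (hE : ∀ a ∈ E, ∃ b ∈ E, b ^ p = a) (hA : OpA v 𝒜)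
    (hS : ∀ φ ∈ 𝒜, ∀ x ∈ E, φ x ∈ E) {ι : Type} [Fintype ι] {N : ℕ} {m : ι → ℕ → ℕ → Ω}
    (h0 : ∀ j c, N ≤ c → m j c = fun _ => 0)
    (h1 : ∀ j c, Dm v 𝒜 E (fun l => m l (c + 1)) fun n => m j c n ^ p) (j : ι) (c : ℕ) :
    ∃ β ∈ E, Nul v fun i => m j c i - β := by
  have hp : p.Prime := Fact.out
  suffices H : ∀ d c, N ≤ c + d → ∀ j, ∃ β ∈ E, Nul v fun i => m j c i - β from
    H N c (Nat.le_add_left _ _) j
  intro d
  induction d with
  | zero =>
    intro c hcN j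
    refine ⟨0, zero_mem E, ?_⟩
    rw [h0 j c (by omega)]
    exact Nul.zero.congr fun i => by simp
  | succ d ih =>
    intro c hcN j
    obtain ⟨φ, e, hφ, he, hn⟩ := h1 j c
    choose β hβ hβn using fun l => ih (c + 1) (by omega) l
    obtain ⟨w, hw, hwp⟩ := hE (∑ l, φ l (β l) + e)
      (add_mem (sum_mem fun l _ => hS _ (hφ l) _ (hβ l)) he)
    refine ⟨w, hw, Nul.of_pow hp.ne_zero (q := p) ?_⟩
    have h2 : Nul v fun n => ∑ l, φ l (m l (c + 1) n - β l) :=
      Nul.sum _ _ fun l _ => hA.nul (hφ l) (hβn l)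
    refine (hn.add h2).congr fun n => ?_
    simp only [map_sub, Finset.sum_sub_distrib, sub_pow_char, hwp]
    ring

/-- **(W_1) for families.** -/
theorem w1s (hA : OpA v 𝒜) (hS : Stb 𝒜 E y) (hy : TL v E y 0)
    (hE : ∀ a ∈ E, ∃ b ∈ E, b ^ p = a) (H : HTor p v 𝒜 E) {ι : Type} [Fintype ι]
    {x : ι → ℕ → Polynomial Ω} {φ : ι → ι → Module.End k Ω} {f : ι → Polynomial Ω}
    (R : Sy p v 𝒜 E y x φ f) (j : ι) : ∃ b m, Spl v E y (x j) b m := by
  have hp : p.Prime := Fact.out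
  refine deg_ind' p hA hS hy (fun ι _ x φ f R D hD IH j => ?_) R j
  obtain ⟨F, ν, N, hF, hν, -, h1⟩ := step p hA hS hy R (P := Tor p v E) (Q := Nul v)
    (fun κ _ m hm hd l => H κ m hm hd l) (not_Tor p hy) Nul.zero (fun N m hm h0 hd j c => by
      obtain ⟨β, hβ, h2⟩ := chain_perf p hE hA hS.mem h0 hd j c
      exact ⟨β, hβ, fun _ => 0, Nul.zero, h2.congr fun i => by rw [sub_zero]⟩) hD IH
  have h2 : PC v E y fun i => x j i - F j := by
    refine ⟨fun i => sub_mem ((R.pc j).mem i) (hF j), fun ε hε => ?_⟩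
    obtain ⟨M, hM⟩ := (R.pc j).cau ε hε
    refine ⟨M, fun i i' hi hi' => ?_⟩
    rw [sub_sub_sub_cancel_right]
    exact hM i i' hi hi'
  have hcau : Cau v (cadj v E y) fun i => (x j i - F j).eval y := by
    refine ⟨fun i => eval_mem (PI_mono (le_cadj v E y) (h2.mem i)) (self_mem_cadj v E y),
      fun ε hε => ?_⟩
    obtain ⟨M, hM⟩ := h2.cau ε hε
    refine ⟨M, fun i i' hi hi' => ?_⟩
    rw [← eval_sub]
    exact hM i i' hi hi'
  obtain ⟨m, hm, hmn⟩ := const_lemma hy p (f := fun i => x j i - F j) h2.mem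
    (d := max D (F j).natDegree)
    (fun i => (natDegree_sub_le _ _).trans (max_le_max (hD j i) le_rfl)) hcau (fun c =>
      ((h1 j c).add (hν j c)).congr fun i => by ring)
  exact ⟨F j, m, hF j, hm, hmn.congr fun i => by rw [eval_sub]⟩

/-- Polynomials near to the elements of a Cauchy sequence of `B⟨z⟩`. -/
theorem exists_pcs {B : IntermediateField k Ω} {z : Ω} (hz : TL v B z 0) {m : ℕ → Ω}
    (hm : Cau v (cadj v B z) m) : ∃ x : ℕ → Polynomial Ω, PC v B z x ∧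
      ∀ n, v.Ge 0 (m n - (x n).eval z) := by
  choose x hx hxm using fun n => hz.dense (hm.mem n) 0
  refine ⟨x, ⟨hx, fun ε hε => ?_⟩, hxm⟩
  obtain ⟨N, hN⟩ := hm.cau ε hε
  refine ⟨N, fun i j hi hj => ?_⟩
  have h1 := ((hN i j hi hj).sub ((hxm i).mono (by linarith))).add ((hxm j).mono (by linarith))
  rw [eval_sub]
  refine (congrArg (v.Ge (-ε)) ?_).mp h1
  ring

/-- **(W_1)** for the dominated families of Cauchy sequences of `E⟨y⟩`. -/
theorem w1c (hA : OpA v 𝒜) (hS : Stb 𝒜 E y) (hy : TL v E y 0)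
    (hE : ∀ a ∈ E, ∃ b ∈ E, b ^ p = a) (H : HTor p v 𝒜 E) {κ : Type} [Fintype κ]
    {m : κ → ℕ → Ω} (hm : ∀ l, Cau v (cadj v E y) (m l))
    (hd : ∀ l, Dm v 𝒜 (cadj v E y) m fun n => m l n ^ p) (l : κ) :
    InBE v (cadj v E y) E (m l) := by
  have hp : p.Prime := Fact.out
  choose x hx hxm using fun l => exists_pcs hy (hm l)
  choose φ e hφ he hn using hd
  choose f hf hfe using fun l => hy.dense (he l) 0
  have R : Sy p v 𝒜 E y x φ f := by
    refine ⟨hx, hφ, hf, fun j => ?_⟩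
    have h1 : Nul v fun n => (m j n - (x j n).eval y) ^ p :=
      (Nul.of_ge (hxm j)).pow p
    have h2 : Nul v fun n => ∑ l, φ j l (m l n - (x l n).eval y) :=
      Nul.sum _ _ fun l _ => hA.nul (hφ j l) (Nul.of_ge (hxm l))
    have h3 : Nul v fun _ : ℕ => e j - (f j).eval y := Nul.of_ge fun _ => hfe j
    refine ((((hn j).sub h1).add h2).add h3).congr fun n => ?_
    simp only [map_sub, Finset.sum_sub_distrib, sub_pow_char]
    ring
  obtain ⟨b, ν, h1⟩ := w1s p hA hS hy hE H R l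
  refine ⟨b.eval y, eval_mem (PI_mono (le_cadj v E y) h1.mem) (self_mem_cadj v E y), ν, h1.cau,
    (h1.nul.add (Nul.of_ge (hxm l))).congr fun n => ?_⟩
  ring

end Pool.Agent.TWIV
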