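import Pool.Agent.Lib.TWIV.RADa

/-!
# TANK W, tame case, row S5 (RAD), part 2: the lemma of Kaplansky, rectangular families, the tower
-/

set_option autoImplicit false

open Polynomial

namespace Pool.Agent.TWIV

open Pool.Agent.H15JM (RVal)
open Pool.Agent.LU1 (VPos adj)
open Pool.Agent.D2 (Ctx0)
open Pool.Agent.TWM Pool.Agent.TWC

universe u

variable {k Ω : Type u} [Field k] [Field Ω] [Algebra k Ω] {v : RVal Ω}
  {A E B : IntermediateField k Ω} {p : ℕ}

/-! ### The lemma of Kaplansky -/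

theorem taylor_hasse_coeff (θ : Ω) (f : Polynomial Ω) {j l : ℕ} (hjl : j ≤ l) :
    (taylor θ (hasseDeriv j f)).coeff (l - j) = (l.choose j : Ω) * (taylor θ f).coeff l := by
  rw [taylor_coeff, taylor_coeff]
  have h1 := congrArg (fun L => L f) (hasseDeriv_comp (R := Ω) (l - j) j)
  simp only [LinearMap.comp_apply, LinearMap.smul_apply] at h1
  rw [h1, show l - j + j = l by omega, eval_smul, nsmul_eq_mul, ← Nat.choose_symm (by omega)]
  congr 3
  omega

/-- **Kaplansky.** An algebraic element which is a limit of `A` up to `0` is killed by an operator,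
modulo `A + O`. -/
theorem exists_op_alg [IsAlgClosed Ω] [Fact p.Prime] [CharP Ω p] (hk : Ctx0 k v) {θ : Ω}
    (hθ : IsAlgebraic A θ) (hl : Lim v A 0 θ) : ∃ P : k[X], P ≠ 0 ∧ Nr v A 0 (op p P θ) := by
  classical
  have hp : p.Prime := Fact.out
  have hex : ∃ d : ℕ, ∃ f ∈ PI A, f ≠ 0 ∧ f.natDegree = d ∧ ¬ Str v 0 (taylor θ f) := by
    obtain ⟨g, hg0, hg⟩ := hθ
    refine ⟨_, g.map (algebraMap A Ω), fun i => ?_, ?_, rfl, fun hS => hS.ne ?_⟩
    · rw [coeff_map]
      exact (g.coeff i).2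
    · exact (Polynomial.map_ne_zero_iff (algebraMap A Ω).injective).2 hg0
    · rw [taylor_coeff_zero, eval_map_algebraMap, hg]
  obtain ⟨f, hf, hf0, hfd, hfS⟩ := Nat.find_spec hex
  have hmin : ∀ g ∈ PI A, g ≠ 0 → g.natDegree < f.natDegree → Str v 0 (taylor θ g) := by
    intro g hg hg0 hd
    by_contra hS
    rw [hfd] at hd
    exact Nat.find_min hex hd ⟨g, hg, hg0, rfl, hS⟩
  have hd1 : 1 ≤ f.natDegree := by
    by_contra h
    have h0 : f.natDegree = 0 := by omega
    refine hfS ?_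
    rw [eq_C_of_natDegree_eq_zero h0] at hf0 ⊢
    rw [taylor_C]
    refine Str.C fun h1 => hf0 ?_
    rw [h1, map_zero]
  -- the jets
  set c : ℕ → Ω := fun l => (taylor θ f).coeff l with hc
  have hcd : c f.natDegree ≠ 0 := by
    have h1 : taylor θ f ≠ 0 := (taylor_eq_zero θ f).not.2 hf0
    have h2 := leadingCoeff_ne_zero.2 h1
    rwa [leadingCoeff, natDegree_taylor] at h2
  have hstep : ∀ j l : ℕ, 1 ≤ j → j < l → ¬ p ∣ l.choose j → c l ≠ 0 →
      c j ≠ 0 ∧ v (c j) < v (c l) := by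
    intro j l hj hjl hch h0
    obtain ⟨h1, h2⟩ := val_natCast (Ω := Ω) (v := v) p hch
    have h3 := taylor_hasse_coeff θ f hjl.le
    have h4 : (taylor θ (hasseDeriv j f)).coeff (l - j) ≠ 0 := by
      rw [h3]
      exact mul_ne_zero h1 h0
    have h5 : hasseDeriv j f ≠ 0 := by
      intro h6
      rw [h6, map_zero, coeff_zero] at h4
      exact h4 rfl
    have h6 := hmin _ (hasse_mem_PI hf j) h5 (by
      have := natDegree_hasseDeriv_le f j
      omega)
    have h7 : (taylor θ (hasseDeriv j f)).coeff 0 = c j := by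
      rw [taylor_coeff_zero, hc]
      simp only
      rw [taylor_coeff]
    have h8 := h6.ne
    have h9 := h6.gt (l - j) (by omega) h4
    rw [h7] at h8 h9
    rw [h3, v.map_mul h1 h0, h2] at h9
    exact ⟨h8, by linarith⟩
  obtain ⟨l₁, hl₁, hl₁m⟩ := Finset.exists_min_image
    ((Finset.Icc 1 f.natDegree).filter fun l => c l ≠ 0) (fun l => v (c l))
    ⟨f.natDegree, Finset.mem_filter.2 ⟨Finset.mem_Icc.2 ⟨hd1, le_rfl⟩, hcd⟩⟩
  obtain ⟨hl₁I, hl₁0⟩ := Finset.mem_filter.1 hl₁
  obtain ⟨hl₁1, hl₁d⟩ := Finset.mem_Icc.1 hl₁I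
  set μ : ℝ := v (c l₁) with hμ
  have k2 : ∀ l, 1 ≤ l → v.Ge μ (c l) := by
    intro l hl h0
    have h1 : l ≤ f.natDegree := by
      by_contra h2
      refine h0 (coeff_eq_zero_of_natDegree_lt ?_)
      rw [natDegree_taylor]
      omega
    exact hl₁m l (Finset.mem_filter.2 ⟨Finset.mem_Icc.2 ⟨hl, h1⟩, h0⟩)
  have k3 : v.Ge μ (f.eval θ) := by
    intro h0
    by_contra hlt
    rw [not_le] at hlt
    refine hfS ⟨by rwa [taylor_coeff_zero], fun l hl h1 => ?_⟩
    rw [taylor_coeff_zero]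
    have h2 := k2 l hl h1
    have h3 : v ((taylor θ f).coeff l) = v (c l) := rfl
    rw [h3]
    linarith
  have k4 : ∀ l, 1 ≤ l → (∀ i, l ≠ p ^ i) → Gt v μ (c l) := by
    intro l hl hlp h0
    obtain ⟨j, hj0, hjl, hj⟩ := exists_choose hp hl hlp
    obtain ⟨h1, h2⟩ := hstep j l hj0 hjl hj h0
    exact (k2 j hj0 h1).trans_lt h2
  obtain ⟨i₁, hi₁⟩ : ∃ i, l₁ = p ^ i := by
    by_contra hcon
    push Not at hcon
    exact lt_irrefl _ (k4 l₁ hl₁1 hcon hl₁0)
  -- an element of `A` of value `μ`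
  obtain ⟨b, hbA, hb0, hbv⟩ : ∃ b ∈ A, b ≠ 0 ∧ v b = μ := by
    have h5 : hasseDeriv l₁ f ≠ 0 := by
      intro h6
      refine hl₁0 ?_
      rw [hc]
      simp only
      rw [taylor_coeff, h6, eval_zero]
    have h6 := hmin _ (hasse_mem_PI hf l₁) h5 (by
      have := natDegree_hasseDeriv_le f l₁
      omega)
    obtain ⟨δ, hδ, h7⟩ := h6.near
    obtain ⟨a, ha, h8⟩ := hl δ hδ
    have h9 := h7 (a - θ) (ge_sub_comm h8)
    rw [← eval_eq_taylor] at h9
    have h10 : (taylor θ (hasseDeriv l₁ f)).coeff 0 = c l₁ := by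
      rw [taylor_coeff_zero, hc]
      simp only
      rw [taylor_coeff]
    rw [h10] at h9
    obtain ⟨h11, h12⟩ := Gt.val_eq hl₁0 (Gt.of_ge (ge_sub_comm h9) (by linarith))
    exact ⟨_, eval_mem (hasse_mem_PI hf l₁) ha, h11, h12⟩
  have hbi : v.Ge (-μ) b⁻¹ := RVal.Ge.of_le (by rw [v.map_inv hb0, hbv])
  -- the residues
  have hx0 : ∀ l, 1 ≤ l → v.Ge 0 (b⁻¹ * c l) := fun l hl => by
    have := hbi.mul (k2 l hl)
    rwa [neg_add_cancel] at this
  choose κ hκ using fun i : ℕ => hk.residue (hx0 (p ^ i) (Nat.one_le_pow _ _ hp.pos))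
  set N := f.natDegree + 1 with hN
  have hκ1 : κ i₁ ≠ 0 := by
    intro h0
    have h1 := hκ i₁
    rw [h0, map_zero, sub_zero, ← hi₁] at h1
    have h2 := h1 (mul_ne_zero (inv_ne_zero hb0) hl₁0)
    rw [v.map_mul (inv_ne_zero hb0) hl₁0, v.map_inv hb0, hbv, ← hμ] at h2
    linarith
  have hi₁N : i₁ < N := by
    have h1 : i₁ < p ^ i₁ := Nat.lt_pow_self hp.one_lt
    omega
  refine ⟨∑ i ∈ Finset.range N, C (κ i) * X ^ i, fun h0 => hκ1 ?_, ?_⟩
  · have h1 := congrArg (fun g => coeff g i₁) h0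
    simp only [finsetSum_coeff, coeff_C_mul_X_pow, coeff_zero] at h1
    rwa [Finset.sum_ite_eq (Finset.range N) i₁ κ, if_pos (Finset.mem_range.2 hi₁N)] at h1
  -- the difference
  set F : Polynomial Ω := C b⁻¹ * f - addP p N (fun i => algebraMap k Ω (κ i)) with hF
  have hFA : F ∈ PI A := sub_mem (mul_mem (C_mem_PI (inv_mem hbA)) hf)
    (addP_mem fun i => A.algebraMap_mem _)
  have hFc : ∀ l : ℕ, 1 ≤ l → Gt v (0 - l * 0) ((taylor θ F).coeff l) := by
    intro l hl
    rw [mul_zero, sub_zero, hF, map_sub, coeff_sub, taylor_mul, taylor_C, coeff_C_mul]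
    by_cases hlp : ∃ i, l = p ^ i
    · obtain ⟨i, rfl⟩ := hlp
      rw [coeff_taylor_addP_pow]
      split_ifs with hi
      · exact hκ i
      · have h1 : (taylor θ f).coeff (p ^ i) = 0 := by
          refine coeff_eq_zero_of_natDegree_lt ?_
          rw [natDegree_taylor]
          have : i < p ^ i := Nat.lt_pow_self hp.one_lt
          omega
        rw [h1, mul_zero, sub_zero]
        exact Gt.zero
    · push Not at hlp
      rw [coeff_taylor_addP p N _ θ hl, Finset.sum_eq_zero fun i _ => if_neg (hlp i), sub_zero,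
        mul_comm]
      have h1 := (k4 l hl hlp).mul_ge hbi
      rwa [add_neg_cancel] at h1
  obtain ⟨δ, hδ, h1⟩ := var_bound' F θ 0 0 hFc
  obtain ⟨a, ha, h2⟩ := hl δ hδ
  refine ⟨-F.eval a, neg_mem (eval_mem hFA ha), ?_⟩
  have hFe : ∀ x, F.eval x = b⁻¹ * f.eval x -
      ∑ i ∈ Finset.range N, algebraMap k Ω (κ i) * x ^ p ^ i := fun x => by
    rw [hF, eval_sub, eval_mul, eval_C, addP_eval]
  have h3 : op p (∑ i ∈ Finset.range N, C (κ i) * X ^ i) θ - -F.eval a =
      b⁻¹ * f.eval θ - (F.eval θ - F.eval a) := by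
    rw [op_range, hFe θ]
    ring
  rw [h3]
  have h4 := hbi.mul k3
  rw [neg_add_cancel] at h4
  exact h4.sub (h1 a h2).ge

/-- A limit which is not torsion is of transcendental type. -/
theorem tl_of_free [IsAlgClosed Ω] [Fact p.Prime] [CharP Ω p] (hk : Ctx0 k v) {w : Ω}
    (hl : Lim v A 0 w) (hfree : ∀ P : k[X], Nr v A 0 (op p P w) → P = 0) : TL v A w 0 where
  lim := hl
  far := fun θ hθ => by
    by_contra hcon
    have hge : v.Ge 0 (w - θ) := by
      intro h0
      by_contra h1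
      exact hcon ⟨fun h2 => h0 (sub_eq_zero.2 h2), not_le.1 h1⟩
    have hlθ : Lim v A 0 θ := fun ε hε => by
      obtain ⟨a, ha, h1⟩ := hl ε hε
      refine ⟨a, ha, ?_⟩
      have h2 := ((ge_sub_comm hge).mono (show 0 - ε ≤ 0 by linarith)).add h1
      rwa [sub_add_sub_cancel] at h2
    obtain ⟨P, hP, a, ha, h1⟩ := exists_op_alg hk hθ hlθ
    refine hP (hfree P ⟨a, ha, ?_⟩)
    have h2 := op_ge_zero (p := p) hk P hge
    rw [op_sub_right] at h2
    have h3 := h2.add h1
    rwa [sub_add_sub_cancel] at h3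

/-! ### Limits -/

theorem lm_mem {x : Ω} (hx : x ∈ A) : Lim v A 0 x := fun ε _ =>
  ⟨x, hx, by rw [sub_self]; exact RVal.Ge.zero⟩

theorem lm_add {x y : Ω} (hx : Lim v A 0 x) (hy : Lim v A 0 y) : Lim v A 0 (x + y) := by
  intro ε hε
  obtain ⟨a, ha, h1⟩ := hx ε hε
  obtain ⟨b, hb, h2⟩ := hy ε hε
  exact ⟨a + b, add_mem ha hb, by rw [add_sub_add_comm]; exact h1.add h2⟩

theorem lm_neg {x : Ω} (hx : Lim v A 0 x) : Lim v A 0 (-x) := by
  intro ε hε
  obtain ⟨a, ha, h1⟩ := hx ε hε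
  exact ⟨-a, neg_mem ha, by rw [neg_sub_neg]; exact ge_sub_comm h1⟩

theorem lm_sub {x y : Ω} (hx : Lim v A 0 x) (hy : Lim v A 0 y) : Lim v A 0 (x - y) := by
  rw [sub_eq_add_neg]
  exact lm_add hx (lm_neg hy)

theorem lim_op [Fact p.Prime] [CharP Ω p] (hk : Ctx0 k v) {x : Ω} (hx : Lim v A 0 x)
    (f : k[X]) : Lim v A 0 (op p f x) := by
  have hp0 : (0 : ℝ) < p := by exact_mod_cast (Fact.out : p.Prime).pos
  intro ε hε
  have hq : (0 : ℝ) < (p : ℝ) ^ f.natDegree := pow_pos hp0 _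
  obtain ⟨a, ha, h1⟩ := hx (ε / (p : ℝ) ^ f.natDegree) (div_pos hε hq)
  refine ⟨op p f a, op_mem ha, ?_⟩
  rw [← op_sub_right]
  refine (op_ge (p := p) hk f (by
    have := div_pos hε hq
    linarith) h1).mono (le_of_eq ?_)
  field_simp
  ring

theorem lim_sum {ι : Type*} (S : Finset ι) {x : ι → Ω} (hx : ∀ i ∈ S, Lim v A 0 (x i)) :
    Lim v A 0 (∑ i ∈ S, x i) := by
  classical
  induction S using Finset.induction_on with
  | empty => rw [Finset.sum_empty]; exact lm_mem (zero_mem A)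
  | insert i S hi ih =>
    rw [Finset.sum_insert hi]
    exact lm_add (hx i (Finset.mem_insert_self i S))
      (ih fun j hj => hx j (Finset.mem_insert_of_mem hj))

theorem lm_of_ge {x : Ω} (h : v.Ge 0 x) : Lim v A 0 x := fun ε hε =>
  ⟨0, zero_mem A, by rw [sub_zero]; exact h.mono (by linarith)⟩

theorem lim_of_ge {x : Ω} (h : v.Ge 0 x) : Lim v A 0 x := lm_of_ge h

/-! ### Free families -/

/-- The family `w` is free over `k{F}` modulo `E + O`. -/
def Fre (p : ℕ) (v : RVal Ω) (E : IntermediateField k Ω) {ι : Type} [Fintype ι] (w : ι → Ω) :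
    Prop :=
  ∀ c : ι → k[X], Nr v E 0 (∑ i, op p (c i) (w i)) → ∀ i, c i = 0

section Fre

variable [IsAlgClosed Ω] [Fact p.Prime] [CharP Ω p] {ι : Type} [Fintype ι] [DecidableEq ι]
  {w : ι → Ω}

/-- The limits of `E` in the closure of `E(w_i : i ∈ S)`, and the other letters. -/
theorem span_and_tl (hk : Ctx0 k v) (hE : Cld v E) (hl : ∀ i, Lim v E 0 (w i))
    (hw : Fre p v E w) (S : Finset ι) :
    (∀ x ∈ cadS v E w S, Lim v E 0 x → ∃ c : ι → k[X], (∀ i ∉ S, c i = 0) ∧
      Nr v E 0 (x - ∑ i, op p (c i) (w i))) ∧ ∀ l ∉ S, TL v (cadS v E w S) (w l) 0 := by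
  -- the second part from the first
  have key : ∀ S : Finset ι, (∀ x ∈ cadS v E w S, Lim v E 0 x → ∃ c : ι → k[X],
      (∀ i ∉ S, c i = 0) ∧ Nr v E 0 (x - ∑ i, op p (c i) (w i))) →
      ∀ l ∉ S, TL v (cadS v E w S) (w l) 0 := by
    intro S hS l hlS
    refine tl_of_free hk ((hl l).mono le_cadS) fun P hP => ?_
    obtain ⟨a, ha, h1⟩ := hP
    have h2 : Lim v E 0 a := by
      have h3 := lm_sub (lim_op hk (hl l) P) (lm_of_ge (A := E) h1)
      rwa [sub_sub_cancel] at h3
    obtain ⟨c, hc, e, he, h4⟩ := hS a ha h2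
    have h5 := hw (fun i => (if i = l then P else 0) - c i) ⟨e, he, ?_⟩ l
    · simp only [if_true, hc l hlS, sub_zero] at h5
      exact h5
    · have h6 : ∑ i, op p ((if i = l then P else 0) - c i) (w i) =
          op p P (w l) - ∑ i, op p (c i) (w i) := by
        simp only [op_sub, Finset.sum_sub_distrib]
        congr 1
        rw [Finset.sum_eq_single l]
        · rw [if_pos rfl]
        · intro i _ hi
          rw [if_neg hi, op_zero]
        · intro h
          exact absurd (Finset.mem_univ l) h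
      rw [h6]
      have h7 := h1.add h4
      convert h7 using 1
      ring
  induction S using Finset.induction_on with
  | empty =>
    have h0 : ∀ x ∈ cadS v E w ((∅ : Finset ι) : Set ι), Lim v E 0 x → ∃ c : ι → k[X],
        (∀ i ∉ (∅ : Finset ι), c i = 0) ∧ Nr v E 0 (x - ∑ i, op p (c i) (w i)) := by
      intro x hx _
      rw [Finset.coe_empty, cadS_empty] at hx
      refine ⟨fun _ => 0, fun _ _ => rfl, x, hE hx, ?_⟩
      simp only [op_zero, Finset.sum_const_zero, sub_zero, sub_self]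
      exact RVal.Ge.zero
    exact ⟨h0, key _ h0⟩
  | insert l S hlS ih =>
    obtain ⟨ih1, ih2⟩ := ih
    have hT := ih2 l hlS
    have h0 : ∀ x ∈ cadS v E w ((insert l S : Finset ι) : Set ι), Lim v E 0 x →
        ∃ c : ι → k[X], (∀ i ∉ insert l S, c i = 0) ∧
          Nr v E 0 (x - ∑ i, op p (c i) (w i)) := by
      intro x hx hlx
      rw [Finset.coe_insert, ← cadj_cadS] at hx
      obtain ⟨x', hx', N, d, h1⟩ := germ_res hk hT p hx (hlx.mono le_cadS)
      rw [← op_range] at h1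
      set P : k[X] := ∑ i ∈ Finset.range N, C (d i) * X ^ i with hP
      have h2 : Lim v E 0 x' := by
        have h3 := lm_sub (lm_sub hlx (lim_op hk (hl l) P))
          (lm_of_ge (A := E) h1.ge)
        convert h3 using 1
        ring
      obtain ⟨c, hc, e, he, h4⟩ := ih1 x' hx' h2
      refine ⟨fun i => (if i = l then P else 0) + c i, fun i hi => ?_, e, he, ?_⟩
      · rw [Finset.mem_insert, not_or] at hi
        simp only [if_neg hi.1, hc i hi.2, add_zero]
      · have h6 : ∑ i, op p ((if i = l then P else 0) + c i) (w i) =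
            op p P (w l) + ∑ i, op p (c i) (w i) := by
          simp only [op_add, Finset.sum_add_distrib]
          congr 1
          rw [Finset.sum_eq_single l]
          · rw [if_pos rfl]
          · intro i _ hi
            rw [if_neg hi, op_zero]
          · intro h
            exact absurd (Finset.mem_univ l) h
        rw [h6]
        have h7 := h1.ge.add h4
        convert h7 using 1
        ring
    exact ⟨h0, key _ h0⟩

/-- **The tower.** -/
theorem tower (hk : Ctx0 k v) (hE : Cld v E) (hl : ∀ i, Lim v E 0 (w i))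
    (hw : Fre p v E w) {Y : IntermediateField k Ω} (hEY : E ≤ Y) {i₀ : ι}
    (hY : Y ≤ cadS v E w {i₀}) (S : Finset ι) :
    ∀ h ∈ cadS v E w ((insert i₀ S : Finset ι) : Set ι), Lim v Y 0 h →
      ∃ h₁ ∈ cadS v E w {i₀}, ∃ a, Lim v E 0 a ∧ v.Ge 0 (h - h₁ - a) := by
  induction S using Finset.induction_on with
  | empty =>
    intro h hh _
    rw [Finset.coe_insert, Finset.coe_empty, insert_empty_eq] at hh
    exact ⟨h, hh, 0, lm_mem (zero_mem E), by rw [sub_self, sub_zero]; exact RVal.Ge.zero⟩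
  | insert l S hlS ih =>
    intro h hh hlh
    by_cases hli : l ∈ insert i₀ S
    · refine ih h ?_ hlh
      rwa [Finset.insert_comm, Finset.insert_eq_of_mem hli] at hh
    · have hT := (span_and_tl hk hE hl hw (insert i₀ S)).2 l hli
      rw [Finset.insert_comm, Finset.coe_insert, ← cadj_cadS] at hh
      have hYS : Y ≤ cadS v E w ((insert i₀ S : Finset ι) : Set ι) :=
        hY.trans (cadS_mono (by
          intro j hj
          rw [Set.mem_singleton_iff.1 hj]
          exact Finset.mem_coe.2 (Finset.mem_insert_self i₀ S)))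
      obtain ⟨x', hx', N, d, h1⟩ := germ_res hk hT p hh (hlh.mono hYS)
      rw [← op_range] at h1
      set P : k[X] := ∑ i ∈ Finset.range N, C (d i) * X ^ i with hP
      have h2 : Lim v Y 0 x' := by
        have h3 := lm_sub (lm_sub hlh ((lim_op hk (hl l) P).mono hEY))
          (lm_of_ge (A := Y) h1.ge)
        convert h3 using 1
        ring
      obtain ⟨h₁, hh₁, a, ha, h4⟩ := ih x' hx' h2
      refine ⟨h₁, hh₁, op p P (w l) + a, lm_add (lim_op hk (hl l) P) ha, ?_⟩
      have h7 := h1.ge.add h4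
      convert h7 using 1
      ring

end Fre

end Pool.Agent.TWIV
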