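import Pool.Agent.Lib.TWIV.FLb
import Pool.Agent.Lib.TWIV.RADb

/-!
# TANK W, leaf (IV), the free lift of higher derivations, part 3

* `HSn.const_mul`: the operators are linear over the constants;
* `HSn.frob`: `θ^[g] (x ^ p) = (θ^[g / p] x) ^ p`;
* `HSn.chain`: several letters; `free_lift`: the letters are free modulo `E + O`.
-/

set_option autoImplicit false

open Polynomial

namespace Pool.Agent.TWIV

open Pool.Agent.H15JM (RVal)
open Pool.Agent.LU1 (VPos adj)
open Pool.Agent.D2 (Ctx0)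
open Pool.Agent.TWM Pool.Agent.TWC

universe u

variable {k Ω : Type u} [Field k] [Field Ω] [Algebra k Ω] {v : RVal Ω}

theorem eq_zero_of_ge {x : Ω} (h : ∀ b : ℝ, v.Ge b x) : x = 0 := by
  by_contra h0
  have := h (v x + 1) h0
  linarith

section Basic

variable {p n : ℕ} [Fact p.Prime] {R : Subalgebra k Ω} {D : ℕ → Subalgebra k Ω}
  {Th : ℕ → ℕ → Ω → Ω}

/-- Linearity over the constants. -/
theorem HSn.const_mul (h : HSn p v n R D Th) {c : Ω} (hc : c ∈ R)
    (hc0 : ∀ M, n ≤ M → ∀ j < p ^ M, 0 < j → Th M j c = 0) {N : ℕ} (hN : n ≤ N) {j : ℕ}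
    (hj : j < p ^ N) {x : Ω} (hx : x ∈ R) : Th N j (c * x) = c * Th N j x := by
  have hp := (Fact.out : p.Prime).pos
  refine sub_eq_zero.1 (eq_zero_of_ge (v := v) fun b => ?_)
  -- the bounds
  set r : ℝ := min 0 (min (v c) (v x)) with hr
  have hr0 : r ≤ 0 := min_le_left _ _
  have hrc : v.Ge r c := (RVal.ge_self c).mono ((min_le_right _ _).trans (min_le_left _ _))
  have hrx : v.Ge r x := (RVal.ge_self x).mono ((min_le_right _ _).trans (min_le_right _ _))
  set B : ℝ := max (b - r) 0 with hB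
  have hB0 : r ≤ B := hr0.trans (le_max_right _ _)
  have hBr : b ≤ B + r := by
    have := le_max_left (b - r) 0
    linarith
  obtain ⟨M1, hM1, c', hc', h1⟩ := h.dense c hc B
  obtain ⟨M2, hM2, x', hx', h2⟩ := h.dense x hx B
  set M := max N (max M1 M2) with hM
  have hNM : N ≤ M := le_max_left _ _
  have hnM : n ≤ M := hN.trans hNM
  have hcM : c' ∈ D M := h.mono' hM1 ((le_max_left _ _).trans (le_max_right _ _)) hc'
  have hxM : x' ∈ D M := h.mono' hM2 ((le_max_right _ _).trans (le_max_right _ _)) hx'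
  have hcR : c' ∈ R := h.le M hnM hcM
  have hxR : x' ∈ R := h.le M hnM hxM
  have hrc' : v.Ge r c' := by
    have := hrc.sub (h1.mono hB0)
    rwa [sub_sub_cancel] at this
  have hrx' : v.Ge r x' := by
    have := hrx.sub (h2.mono hB0)
    rwa [sub_sub_cancel] at this
  obtain ⟨d, hd⟩ := Nat.exists_eq_add_of_le hNM
  have hjd : p ^ d * j < p ^ M := by
    rw [hd, pow_add, mul_comm]
    exact Nat.mul_lt_mul_of_pos_right hj (pow_pos hp d)
  have hlev : ∀ z ∈ R, Th M (p ^ d * j) z = Th N j z := fun z hz => by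
    rw [hd]
    exact h.lev' hN d hj hz
  -- the product of the approximations
  have h3 : v.Ge b (Th N j (c * x) - Th N j (c' * x')) := by
    rw [← (h.dq hN).map_sub hj (mul_mem hc hx) (mul_mem hcR hxR)]
    refine h.ge N hN j hj _ (sub_mem (mul_mem hc hx) (mul_mem hcR hxR)) _ ?_
    have h4 : c * x - c' * x' = (c - c') * x + c' * (x - x') := by ring
    rw [h4]
    refine ((h1.mul hrx).mono hBr).add ((hrc'.mul h2).mono ?_)
    linarith
  have h4 : v.Ge b (Th N j (c' * x') - c' * Th N j x') := by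
    rw [← hlev _ (mul_mem hcR hxR), ← hlev _ hxR, h.mul M hnM _ hjd c' hcM x' hxM]
    have h5 : ((0, p ^ d * j) : ℕ × ℕ) ∈ Finset.HasAntidiagonal.antidiagonal (p ^ d * j) := by simp
    rw [← Finset.add_sum_erase _ _ h5, h.zero M hnM c' hcR, add_sub_cancel_left]
    refine RVal.Ge.sum _ _ fun z hz => ?_
    obtain ⟨hz1, hz2⟩ := Finset.mem_erase.1 hz
    have hz3 : z.1 + z.2 = p ^ d * j := by simpa using hz2
    have hz4 : 0 < z.1 := by
      rcases Nat.eq_zero_or_pos z.1 with h6 | h6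
      · refine absurd ?_ hz1
        rw [h6, zero_add] at hz3
        exact Prod.ext h6 hz3
      · exact h6
    have h6 : v.Ge B (Th M z.1 c') := by
      have h7 := h.ge M hnM z.1 (by omega) (c - c') (sub_mem hc hcR) B h1
      rw [(h.dq hnM).map_sub (by omega) hc hcR, hc0 M hnM z.1 (by omega) hz4, zero_sub] at h7
      simpa using h7.neg
    exact (h6.mul (h.ge M hnM z.2 (by omega) x' hxR r hrx')).mono hBr
  have h5 : v.Ge b (c' * Th N j x' - c * Th N j x) := by
    have h6 : c' * Th N j x' - c * Th N j x = -((c - c') * Th N j x' + c * (Th N j x - Th N j x')) := by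
      ring
    rw [h6]
    refine (((h1.mul (h.ge N hN j hj x' hxR r hrx')).mono hBr).add ?_).neg
    rw [← (h.dq hN).map_sub hj hx hxR]
    refine (hrc.mul (h.ge N hN j hj _ (sub_mem hx hxR) B h2)).mono ?_
    linarith
  have h6 := (h3.add h4).add h5
  convert h6 using 1
  ring

theorem HSn.smul (h : HSn p v n R D Th) (c : k) {N : ℕ} (hN : n ≤ N) {j : ℕ} (hj : j < p ^ N)
    {x : Ω} (hx : x ∈ R) : Th N j (algebraMap k Ω c * x) = algebraMap k Ω c * Th N j x :=
  h.const_mul (algebraMap_mem R c) (fun M hM j hj h0 => h.alg M hM j hj h0 c) hN hj hx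

variable [CharP Ω p]

/-- The Frobenius. -/
theorem HSn.frob (h : HSn p v n R D Th) {N : ℕ} (hN : n ≤ N) {j : ℕ} (hj : j < p ^ N) {x : Ω}
    (hx : x ∈ R) : Th N j (x ^ p) = Th (N + 1) j x ^ p := by
  have hp := (Fact.out : p.Prime).pos
  have hp1 : (1 : ℝ) ≤ p := by exact_mod_cast (Fact.out : p.Prime).one_lt.le
  have hj1 : j < p ^ (N + 1) := hj.trans_le (Nat.pow_le_pow_right hp (Nat.le_succ N))
  refine sub_eq_zero.1 (eq_zero_of_ge (v := v) fun b => ?_)
  obtain ⟨M1, hM1, x', hx', h1⟩ := h.dense x hx (max b 0)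
  set M := max (N + 1) M1 with hM
  have hNM : N + 1 ≤ M := le_max_left _ _
  have hnM : n ≤ M := by omega
  have hxM : x' ∈ D M := h.mono' hM1 (le_max_right _ _) hx'
  have hxR : x' ∈ R := h.le M hnM hxM
  obtain ⟨d, hd⟩ := Nat.exists_eq_add_of_le hNM
  -- the formula for `x'`
  have hpd : p ^ d * j < p ^ M := by
    rw [hd, pow_add, mul_comm]
    exact Nat.mul_lt_mul_of_pos_right hj1 (pow_pos hp d)
  have hpd1 : p ^ (d + 1) * j < p ^ M := by
    rw [hd, show N + 1 + d = N + (d + 1) by ring, pow_add p N (d + 1), mul_comm]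
    exact Nat.mul_lt_mul_of_pos_right hj (pow_pos hp _)
  have hpow : ∀ i : ℕ, Cg (p ^ M) (psi (p ^ M) (Th M) (x' ^ i)) (psi (p ^ M) (Th M) x' ^ i) := by
    intro i
    induction i with
    | zero =>
      rw [pow_zero, pow_zero, (h.dq hnM).psi_one (pow_pos hp M)]
      exact Cg.refl _
    | succ i ih =>
      rw [pow_succ, pow_succ]
      exact ((h.dq hnM).psi_mul (pow_mem hxM i) hxM).trans (ih.mul (Cg.refl _))
  have h2 : Th N j (x' ^ p) = Th (N + 1) j x' ^ p := by
    have h3 := hpow p (p ^ (d + 1) * j) hpd1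
    rw [coeff_psi, if_pos hpd1, ← map_frobenius_expand p, coeff_map, coeff_expand hp,
      if_pos ((dvd_pow_self p (Nat.succ_ne_zero d)).mul_right j)] at h3
    have h4 : p ^ (d + 1) * j / p = p ^ d * j := by
      rw [pow_succ, show p ^ d * p * j = p * (p ^ d * j) by ring, Nat.mul_div_cancel_left _ hp]
    rw [h4, coeff_psi, if_pos hpd, frobenius_def] at h3
    have h5 : Th M (p ^ (d + 1) * j) (x' ^ p) = Th N j (x' ^ p) := by
      rw [hd, show N + 1 + d = N + (d + 1) by ring]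
      exact h.lev' hN (d + 1) hj (pow_mem hxR p)
    have h6 : Th M (p ^ d * j) x' = Th (N + 1) j x' := by
      rw [hd]
      exact h.lev' (by omega) d hj1 hxR
    rw [← h5, h3, h6]
  have hfrob : ∀ a c : Ω, a ^ p - c ^ p = (a - c) ^ p := fun a c => (sub_pow_char (p := p) (x := a) (y := c)).symm
  have hbp : b ≤ (p : ℝ) * max b 0 := by
    have h7 := le_max_left b 0
    have h8 := le_max_right b 0
    nlinarith
  have h3 : v.Ge b (Th N j (x ^ p) - Th N j (x' ^ p)) := by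
    rw [← (h.dq hN).map_sub hj (pow_mem hx p) (pow_mem hxR p)]
    refine h.ge N hN j hj _ (sub_mem (pow_mem hx p) (pow_mem hxR p)) _ ?_
    rw [hfrob]
    exact (ge_pow h1 p).mono hbp
  have h4 : v.Ge b (Th (N + 1) j x' ^ p - Th (N + 1) j x ^ p) := by
    rw [hfrob, ← (h.dq (by omega : n ≤ N + 1)).map_sub hj1 hxR hx]
    exact (ge_pow (h.ge (N + 1) (by omega) j hj1 _ (sub_mem hxR hx) _ (ge_sub_comm h1)) p).mono hbp
  rw [h2] at h3
  have h6 := h3.add h4
  rwa [sub_add_sub_cancel] at h6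

theorem HSn.frob' (h : HSn p v n R D Th) {N : ℕ} (hN : n ≤ N) {j : ℕ} (hj : j < p ^ N) {x : Ω}
    (hx : x ∈ R) (m : ℕ) : Th N j (x ^ p ^ m) = Th (N + m) j x ^ p ^ m := by
  induction m generalizing N with
  | zero => rw [pow_zero, pow_one, pow_one, add_zero]
  | succ m ih =>
    have hj1 : j < p ^ (N + 1) :=
      hj.trans_le (Nat.pow_le_pow_right (Fact.out : p.Prime).pos (Nat.le_succ N))
    rw [pow_succ, pow_mul, h.frob hN hj (pow_mem hx _), ih (by omega) hj1, ← pow_mul]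
    congr 2
    ring

/-- The powers of the constants of level `m`. -/
theorem HSn.const_pow (h : HSn p v n R D Th) {y : Ω} (hy : y ∈ R) (m : ℕ)
    (hy0 : ∀ N, n ≤ N → ∀ j < p ^ N, 0 < j → Th (N + m) j y = 0) {N : ℕ} (hN : n ≤ N) {j : ℕ}
    (hj : j < p ^ N) (h0 : 0 < j) : Th N j (y ^ p ^ m) = 0 := by
  rw [h.frob' hN hj hy m, hy0 N hN j hj h0,
    zero_pow (pow_ne_zero _ (Fact.out : p.Prime).ne_zero)]

end Basic

/-! ### Several letters -/

/-- The algebra `R[s_0, …, s_{m - 1}]`. -/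
def adN (R : Subalgebra k Ω) (s : ℕ → Ω) : ℕ → Subalgebra k Ω
  | 0 => R
  | m + 1 => adS (adN R s m) (s m)

theorem adN_succ (R : Subalgebra k Ω) (s : ℕ → Ω) (m : ℕ) :
    adN R s (m + 1) = adS (adN R s m) (s m) := rfl

theorem le_adN (R : Subalgebra k Ω) (s : ℕ → Ω) (m : ℕ) : R ≤ adN R s m := by
  induction m with
  | zero => exact le_rfl
  | succ m ih => exact ih.trans le_adS

theorem mem_adN (R : Subalgebra k Ω) (s : ℕ → Ω) {i m : ℕ} (h : i < m) : s i ∈ adN R s m := by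
  induction m with
  | zero => exact absurd h (Nat.not_lt_zero i)
  | succ m ih =>
    rcases Nat.lt_succ_iff_lt_or_eq.1 h with h1 | h1
    · exact le_adS (ih h1)
    · rw [h1]
      exact self_mem_adS

theorem adN_le {R B : Subalgebra k Ω} {s : ℕ → Ω} (m : ℕ) (h : R ≤ B) (hs : ∀ i < m, s i ∈ B) :
    adN R s m ≤ B := by
  induction m with
  | zero => exact h
  | succ m ih => exact adS_le (ih fun i hi => hs i (by omega)) (hs m (Nat.lt_succ_self m))

section Chain

variable [IsAlgClosed Ω] {p n : ℕ} [Fact p.Prime] {R : Subalgebra k Ω} {D : ℕ → Subalgebra k Ω}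
  {Th : ℕ → ℕ → Ω → Ω} {A : ℕ → IntermediateField k Ω} {s : ℕ → Ω} {T : ℕ → Polynomial Ω}

/-- **Several letters.** -/
theorem HSn.chain (h : HSn p v n R D Th) (m : ℕ) (hR : R ≤ (A 0).toSubalgebra)
    (hA : ∀ i < m, A i ≤ A (i + 1)) (hsA : ∀ i < m, s i ∈ A (i + 1))
    (hs : ∀ i < m, TL v (A i) (s i) 0)
    (hT : ∀ i < m, ∀ ε : ℝ, 0 < ε → ∃ N, n ≤ N ∧ ∃ σ ∈ D N,
      GeP v (p ^ N) (-ε) (jT p n (T i) N - psi (p ^ N) (Th N) σ))
    (hT0 : ∀ i < m, (T i).coeff 0 = s i) :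
    ∃ Th' : ℕ → ℕ → Ω → Ω, HSn p v n (adN R s m) (fun N => adN (D N) s m) Th' ∧
      (∀ N, n ≤ N → ∀ j < p ^ N, ∀ x ∈ R, Th' N j x = Th N j x) ∧
      (∀ N, n ≤ N → ∀ j < p ^ N, ∀ i < m, Th' N j (s i) = (jT p n (T i) N).coeff j) ∧
      ∀ B : Subalgebra k Ω, (∀ N, n ≤ N → ∀ j < p ^ N, ∀ x ∈ R, Th N j x ∈ B) →
        (∀ i < m, ∀ l, (T i).coeff l ∈ B) →
        ∀ N, n ≤ N → ∀ j < p ^ N, ∀ x ∈ adN R s m, Th' N j x ∈ B := by
  induction m with
  | zero =>
    exact ⟨Th, h, fun _ _ _ _ _ _ => rfl, fun _ _ _ _ i hi => absurd hi (Nat.not_lt_zero i),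
      fun B hB _ N hN j hj x hx => hB N hN j hj x hx⟩
  | succ m ih =>
    obtain ⟨Th', h', hbase, hself, hstab⟩ := ih (fun i hi => hA i (by omega))
      (fun i hi => hsA i (by omega)) (fun i hi => hs i (by omega)) (fun i hi => hT i (by omega))
      (fun i hi => hT0 i (by omega))
    have hAm : ∀ i ≤ m, A 0 ≤ A i := by
      intro i hi
      induction i with
      | zero => exact le_rfl
      | succ i ihi => exact (ihi (by omega)).trans (hA i (by omega))
    have hAi : ∀ i l, i ≤ l → l ≤ m → A i ≤ A l := by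
      intro i l hil hl
      induction l, hil using Nat.le_induction with
      | base => exact le_rfl
      | succ l hil ihl => exact (ihl (by omega)).trans (hA l (by omega))
    have hRm : adN R s m ≤ (A m).toSubalgebra :=
      adN_le m (hR.trans (hAm m le_rfl)) fun i hi => hAi (i + 1) m (by omega) le_rfl
        (hsA i (by omega))
    have hsm := hs m (Nat.lt_succ_self m)
    have hT' : ∀ ε : ℝ, 0 < ε → ∃ N, n ≤ N ∧ ∃ σ ∈ adN (D N) s m,
        GeP v (p ^ N) (-ε) (jT p n (T m) N - psi (p ^ N) (Th' N) σ) := by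
      intro ε hε
      obtain ⟨N, hN, σ, hσ, h1⟩ := hT m (Nat.lt_succ_self m) ε hε
      refine ⟨N, hN, σ, le_adN _ _ _ hσ, h1.congr fun j hj => ?_⟩
      rw [coeff_sub, coeff_sub, coeff_psi, coeff_psi, if_pos hj, if_pos hj,
        hbase N hN j hj σ (h.le N hN hσ)]
    have hw : WdL p n (adN R s m) Th' (s m) (T m) := h'.wdl_of_tl hRm hsm
    refine ⟨Tx p n (adN R s m) Th' (s m) (T m),
      h'.adjoinG (ltr_of_tl hRm hsm) hw hT' (hT0 m (Nat.lt_succ_self m)), ?_, ?_, ?_⟩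
    · intro N hN j hj x hx
      rw [h'.Tx_base hw hN hj (le_adN R s m hx), hbase N hN j hj x hx]
    · intro N hN j hj i hi
      rcases Nat.lt_succ_iff_lt_or_eq.1 hi with h1 | h1
      · rw [h'.Tx_base hw hN hj (mem_adN R s h1), hself N hN j hj i h1]
      · rw [h1, h'.Tx_self hw hN hj]
    · intro B hB hTB N hN j hj x hx
      exact h'.Tx_mem hw (hstab B hB fun i hi => hTB i (by omega))
        (hTB m (Nat.lt_succ_self m)) hN hj hx

end Chain

/-! ### Free letters -/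

/-- The algebra `R[s_i : i]`. -/
noncomputable def adW (R : Subalgebra k Ω) {ι : Type} (s : ι → Ω) : Subalgebra k Ω :=
  Algebra.adjoin k ((R : Set Ω) ∪ Set.range s)

theorem le_adW (R : Subalgebra k Ω) {ι : Type} (s : ι → Ω) : R ≤ adW R s := fun _ hx =>
  Algebra.subset_adjoin (Or.inl hx)

theorem mem_adW (R : Subalgebra k Ω) {ι : Type} (s : ι → Ω) (i : ι) : s i ∈ adW R s :=
  Algebra.subset_adjoin (Or.inr ⟨i, rfl⟩)

theorem adW_le {R B : Subalgebra k Ω} {ι : Type} {s : ι → Ω} (h : R ≤ B) (hs : ∀ i, s i ∈ B) :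
    adW R s ≤ B := by
  refine Algebra.adjoin_le ?_
  rintro x (hx | ⟨i, rfl⟩)
  exacts [h hx, hs i]

theorem adN_eq_adW (R : Subalgebra k Ω) {m : ℕ} (s : Fin m → Ω) {s' : ℕ → Ω}
    (hs : ∀ i : Fin m, s' i = s i) : adN R s' m = adW R s := by
  refine le_antisymm (adN_le m (le_adW R s) fun i hi => ?_) (adW_le (le_adN R s' m) fun i => ?_)
  · have h1 := hs ⟨i, hi⟩
    rw [h1]
    exact mem_adW R s _
  · rw [← hs i]
    exact mem_adN R s' i.2

section Free

variable [IsAlgClosed Ω] {p n : ℕ} [Fact p.Prime] [CharP Ω p] {R : Subalgebra k Ω}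
  {D : ℕ → Subalgebra k Ω} {Th : ℕ → ℕ → Ω → Ω} {E : IntermediateField k Ω} {m : ℕ}
  {s : Fin m → Ω} {T : Fin m → Polynomial Ω}

/-- **The free lift.** -/
theorem free_lift (hk : Ctx0 k v) (hE : Cld v E) (hl : ∀ i, Lim v E 0 (s i)) (hs : Fre p v E s)
    (h : HSn p v n R D Th) (hR : R ≤ E.toSubalgebra)
    (hT : ∀ i, ∀ ε : ℝ, 0 < ε → ∃ N, n ≤ N ∧ ∃ σ ∈ D N,
      GeP v (p ^ N) (-ε) (jT p n (T i) N - psi (p ^ N) (Th N) σ))
    (hT0 : ∀ i, (T i).coeff 0 = s i) :
    ∃ Th' : ℕ → ℕ → Ω → Ω, HSn p v n (adW R s) (fun N => adW (D N) s) Th' ∧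
      (∀ N, n ≤ N → ∀ j < p ^ N, ∀ x ∈ R, Th' N j x = Th N j x) ∧
      (∀ N, n ≤ N → ∀ j < p ^ N, ∀ i, Th' N j (s i) = (jT p n (T i) N).coeff j) ∧
      ∀ B : Subalgebra k Ω, (∀ N, n ≤ N → ∀ j < p ^ N, ∀ x ∈ R, Th N j x ∈ B) →
        (∀ i l, (T i).coeff l ∈ B) →
        ∀ N, n ≤ N → ∀ j < p ^ N, ∀ x ∈ adW R s, Th' N j x ∈ B := by
  classical
  set s' : ℕ → Ω := fun i => if hi : i < m then s ⟨i, hi⟩ else 0 with hs'
  set T' : ℕ → Polynomial Ω := fun i => if hi : i < m then T ⟨i, hi⟩ else 0 with hT'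
  have es : ∀ i (hi : i < m), s' i = s ⟨i, hi⟩ := fun i hi => dif_pos hi
  have eT : ∀ i (hi : i < m), T' i = T ⟨i, hi⟩ := fun i hi => dif_pos hi
  set S : ℕ → Finset (Fin m) := fun i => Finset.univ.filter fun l : Fin m => (l : ℕ) < i with hS
  have hSmem : ∀ i l, l ∈ S i ↔ (l : ℕ) < i := fun i l => by simp [hS]
  have hsub : ∀ i, ((S i : Finset (Fin m)) : Set (Fin m)) ⊆ S (i + 1) := fun i l hl => by
    rw [Finset.mem_coe, hSmem] at hl ⊢
    omega
  obtain ⟨Th', h', hbase, hself, hstab⟩ := h.chain (A := fun i => cadS v E s (S i)) (s := s')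
    (T := T') m (hR.trans (le_cadS (v := v) (A := E)))
    (fun i _ => cadS_mono (hsub i))
    (fun i hi => by
      rw [es i hi]
      exact mem_cadS (Finset.mem_coe.2 ((hSmem _ _).2 (Nat.lt_succ_self i))))
    (fun i hi => by
      rw [es i hi]
      exact (span_and_tl hk hE hl hs (S i)).2 _ fun hmem => lt_irrefl i ((hSmem _ _).1 hmem))
    (fun i hi => by
      rw [eT i hi]
      exact hT _)
    (fun i hi => by
      rw [eT i hi, es i hi]
      exact hT0 _)
  have e1 : ∀ R' : Subalgebra k Ω, adN R' s' m = adW R' s := fun R' =>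
    adN_eq_adW R' s fun i => es i i.2
  have e2 : (fun N => adN (D N) s' m) = fun N => adW (D N) s := funext fun N => e1 (D N)
  rw [e1, e2] at h'
  refine ⟨Th', h', hbase, fun N hN j hj i => ?_, fun B hB hTB N hN j hj x hx => ?_⟩
  · have h1 := hself N hN j hj i i.2
    rw [es i i.2, eT i i.2] at h1
    exact h1
  · rw [← e1] at hx
    refine hstab B hB (fun i hi l => ?_) N hN j hj x hx
    rw [eT i hi]
    exact hTB _ l

end Free

end Pool.Agent.TWIV
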