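import Pool.Agent.Lib.TWIV.TorM
import Pool.Agent.Lib.TWIV.FLc

/-!
# TANK W: the module `E + ∑ k t_j + ∑ k{Fr} s_i` of exact letters

`L0T`; `mem_E`, `frob`, `lim`, `free`, `le`; `L0T_stab`: stability under higher derivations.
-/

set_option autoImplicit false
set_option linter.unusedSectionVars false

open Polynomial

namespace Pool.Agent.TWIV

open Pool.Agent.H15JM (RVal)
open Pool.Agent.D2 (Ctx0)
open Pool.Agent.TWM Pool.Agent.TWC

universe u

variable {k Ω : Type u} [Field k] [Field Ω] [Algebra k Ω] {v : RVal Ω}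
  {E : IntermediateField k Ω} {p : ℕ}

theorem op_C_mul (b : k) (f : k[X]) (x : Ω) :
    op p (C b * f) x = algebraMap k Ω b * op p f x := by
  induction f using Polynomial.induction_on' with
  | add f g hf hg => rw [mul_add, op_add, hf, hg, op_add, mul_add]
  | monomial n a =>
    rw [← C_mul_X_pow_eq_monomial, ← mul_assoc, ← C_mul, op_mono, op_mono, map_mul, mul_assoc]

theorem op_pow [Fact p.Prime] [CharP k p] [CharP Ω p] (v : RVal Ω) (f : k[X]) (x : Ω) :
    op p f x ^ p = op p (tw p X f) x := by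
  rw [op_tw v]
  have h1 := op_mono (p := p) (1 : k) 1 (op p f x)
  rw [map_one, one_mul, pow_one, map_one, one_mul, pow_one] at h1
  exact h1.symm

/-- `E + ∑ k t_j + ∑ k{Fr} s_i`. -/
def L0T (p : ℕ) (E : IntermediateField k Ω) {ι κ : Type} [Fintype ι] [Fintype κ] (s : ι → Ω)
    (t : κ → Ω) : Submodule k Ω where
  carrier := {x | ∃ e ∈ E, ∃ (c : ι → k[X]) (a : κ → k),
    x = e + ∑ i, op p (c i) (s i) + ∑ j, algebraMap k Ω (a j) * t j}
  add_mem' := by
    rintro _ _ ⟨e, he, c, a, rfl⟩ ⟨e', he', c', a', rfl⟩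
    refine ⟨e + e', add_mem he he', fun i => c i + c' i, fun j => a j + a' j, ?_⟩
    simp only [op_add, map_add, add_mul, Finset.sum_add_distrib]
    ring
  zero_mem' := ⟨0, zero_mem E, fun _ => 0, fun _ => 0, by
    simp only [op_zero, map_zero, zero_mul, Finset.sum_const_zero, add_zero]⟩
  smul_mem' := by
    rintro b _ ⟨e, he, c, a, rfl⟩
    refine ⟨algebraMap k Ω b * e, mul_mem (E.algebraMap_mem b) he, fun i => C b * c i,
      fun j => b * a j, ?_⟩
    simp only [op_C_mul, map_mul, mul_assoc, ← Finset.mul_sum]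
    rw [Algebra.smul_def, mul_add, mul_add]

section L0T

variable {ι κ : Type} [Fintype ι] [Fintype κ] {s : ι → Ω} {t : κ → Ω} {x : Ω}

theorem mem_L0T : x ∈ L0T p E s t ↔ ∃ e ∈ E, ∃ (c : ι → k[X]) (a : κ → k),
    x = e + ∑ i, op p (c i) (s i) + ∑ j, algebraMap k Ω (a j) * t j := Iff.rfl

theorem L0T.mem_E (hx : x ∈ E) : x ∈ L0T p E s t := ⟨x, hx, fun _ => 0, fun _ => 0, by
  simp only [op_zero, map_zero, zero_mul, Finset.sum_const_zero, add_zero]⟩

theorem L0T.mem_op (f : k[X]) (i : ι) : op p f (s i) ∈ L0T p E s t := by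
  classical
  refine ⟨0, zero_mem E, fun j => if j = i then f else 0, fun _ => 0, ?_⟩
  have h1 : ∀ j, op p (if j = i then f else 0) (s j) = if j = i then op p f (s j) else 0 := by
    intro j
    split_ifs
    · rfl
    · exact op_zero _
  simp only [h1, map_zero, zero_mul, Finset.sum_const_zero, add_zero, zero_add]
  rw [Finset.sum_ite_eq' Finset.univ i, if_pos (Finset.mem_univ i)]

theorem L0T.mem_s (i : ι) : s i ∈ L0T p E s t := by
  have h1 := L0T.mem_op (p := p) (E := E) (s := s) (t := t) (1 : k[X]) i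
  rwa [op_one] at h1

theorem L0T.mem_t (j : κ) : t j ∈ L0T p E s t := by
  classical
  refine ⟨0, zero_mem E, fun _ => 0, fun l => if l = j then 1 else 0, ?_⟩
  have h1 : ∀ l, algebraMap k Ω (if l = j then 1 else 0) * t l = if l = j then t l else 0 := by
    intro l
    split_ifs
    · rw [map_one, one_mul]
    · rw [map_zero, zero_mul]
  simp only [h1, op_zero, Finset.sum_const_zero, add_zero, zero_add]
  rw [Finset.sum_ite_eq' Finset.univ j, if_pos (Finset.mem_univ j)]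

theorem L0T.cmul (b : k) (hx : x ∈ L0T p E s t) : algebraMap k Ω b * x ∈ L0T p E s t := by
  rw [← Algebra.smul_def]
  exact Submodule.smul_mem _ b hx

theorem L0T.frob [Fact p.Prime] [CharP k p] [CharP Ω p] (h : FreT p v E s t)
    (hx : x ∈ L0T p E s t) : x ^ p ∈ L0T p E s t := by
  obtain ⟨e, he, c, a, rfl⟩ := hx
  rw [add_pow_char, add_pow_char, sum_pow_char, sum_pow_char]
  refine add_mem (add_mem (L0T.mem_E (pow_mem he p)) (sum_mem fun i _ => ?_))
    (sum_mem fun j _ => ?_)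
  · rw [op_pow v]
    exact L0T.mem_op _ i
  · rw [mul_pow, ← map_pow]
    refine L0T.cmul _ ?_
    have h1 : t j ^ p = t j + (t j ^ p - t j) := by ring
    rw [h1]
    exact add_mem (L0T.mem_t j) (L0T.mem_E (h.mem j))

theorem L0T.frobN [Fact p.Prime] [CharP k p] [CharP Ω p] (h : FreT p v E s t)
    (hx : x ∈ L0T p E s t) (n : ℕ) : x ^ p ^ n ∈ L0T p E s t := by
  induction n with
  | zero => rwa [pow_zero, pow_one]
  | succ n ih =>
    rw [pow_succ, pow_mul]
    exact L0T.frob h ih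

theorem L0T.lim [Fact p.Prime] [CharP Ω p] (hk : Ctx0 k v) (h : FreT p v E s t)
    (hx : x ∈ L0T p E s t) : Lim v E 0 x := by
  obtain ⟨e, he, c, a, rfl⟩ := hx
  exact lm_add (lm_add (lm_mem he) (lim_sum _ fun i _ => lim_op hk (h.sl i) _))
    (lim_sum _ fun j _ => lim_smul hk (h.tl j) _)

theorem L0T.free (h : FreT p v E s t) (hx : x ∈ L0T p E s t) (h0 : v.Ge 0 x) : x ∈ E := by
  obtain ⟨e, he, c, a, rfl⟩ := hx
  obtain ⟨h1, h2⟩ := h.free c a ⟨-e, neg_mem he, by
    have h3 : ∑ i, op p (c i) (s i) + ∑ j, algebraMap k Ω (a j) * t j - -e =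
        e + ∑ i, op p (c i) (s i) + ∑ j, algebraMap k Ω (a j) * t j := by ring
    rw [h3]
    exact h0⟩
  simp only [h1, h2, op_zero, map_zero, zero_mul, Finset.sum_const_zero, add_zero]
  exact he

theorem L0T.le {B : Subalgebra k Ω} (hE : ∀ e ∈ E, e ∈ B) (hs : ∀ i, s i ∈ B)
    (ht : ∀ j, t j ∈ B) (hx : x ∈ L0T p E s t) : x ∈ B := by
  obtain ⟨e, he, c, a, rfl⟩ := hx
  refine add_mem (add_mem (hE e he) (sum_mem fun i _ => ?_)) (sum_mem fun j _ => ?_)
  · rw [op_eq]
    exact sum_mem fun l _ => mul_mem (B.algebraMap_mem _) (pow_mem (hs i) _)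
  · exact mul_mem (B.algebraMap_mem _) (ht j)

/-- **Stability.** -/
theorem L0T_stab [Fact p.Prime] [CharP k p] [CharP Ω p] {n : ℕ} {R : Subalgebra k Ω}
    {D : ℕ → Subalgebra k Ω} {Th : ℕ → ℕ → Ω → Ω} (hf : FreT p v E s t)
    (h : HSn p v n R D Th) (hE : ∀ e ∈ E, e ∈ R) (hs : ∀ i, s i ∈ R) (ht : ∀ j, t j ∈ R)
    (hThE : ∀ N, n ≤ N → ∀ j < p ^ N, ∀ e ∈ E, Th N j e ∈ L0T p E s t)
    (hThs : ∀ N, n ≤ N → ∀ j < p ^ N, ∀ i, Th N j (s i) ∈ L0T p E s t)
    (hTht : ∀ N, n ≤ N → ∀ j < p ^ N, ∀ i, Th N j (t i) ∈ L0T p E s t) :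
    ∀ N, n ≤ N → ∀ j < p ^ N, ∀ x ∈ L0T p E s t, Th N j x ∈ L0T p E s t := by
  classical
  rintro N hN j hj x ⟨e, he, c, a, rfl⟩
  have hD := h.dq hN
  have hop : ∀ i, op p (c i) (s i) ∈ R := fun i => by
    rw [op_eq]
    exact sum_mem fun l _ => mul_mem (R.algebraMap_mem _) (pow_mem (hs i) _)
  have hat : ∀ i, algebraMap k Ω (a i) * t i ∈ R := fun i =>
    mul_mem (R.algebraMap_mem _) (ht i)
  rw [h.add N hN j hj _ (add_mem (hE e he) (sum_mem fun i _ => hop i)) _
    (sum_mem fun i _ => hat i), h.add N hN j hj _ (hE e he) _ (sum_mem fun i _ => hop i),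
    hD.map_sum hj _ fun i _ => hop i, hD.map_sum hj _ fun i _ => hat i]
  refine add_mem (add_mem (hThE N hN j hj e he) (sum_mem fun i _ => ?_)) (sum_mem fun i _ => ?_)
  · rw [op_eq, hD.map_sum hj _ fun l _ =>
      mul_mem (R.algebraMap_mem _) (pow_mem (hs i) _)]
    refine sum_mem fun l _ => ?_
    rw [h.smul _ hN hj (pow_mem (hs i) _), h.frob' hN hj (hs i)]
    refine L0T.cmul _ (L0T.frobN hf (hThs (N + l) (by omega) j ?_ i) l)
    exact hj.trans_le (Nat.pow_le_pow_right (Fact.out : p.Prime).pos (by omega))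
  · rw [h.smul _ hN hj (ht i)]
    exact L0T.cmul _ (hTht N hN j hj i)

/-- The jets at the levels `N ≥ n`. -/
theorem jT_coeff_mem [Fact p.Prime] {n : ℕ} {S : Submodule k Ω} {T : Polynomial Ω}
    (hT : ∀ l, T.coeff l ∈ S) (N j : ℕ) : (jT p n T N).coeff j ∈ S := by
  rw [jT, coeff_expand (pow_pos (Fact.out : p.Prime).pos _)]
  split_ifs
  exacts [hT _, zero_mem _]

end L0T

end Pool.Agent.TWIV
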