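import Pool.Agent.Lib.TWIV.TorX

/-!
# TANK W: torsion letters, the torsion part of a word

* `op_tor`: `c(F) (∑ b_j t_j) = ∑ c(b_j) t_j` modulo `E`;
* `exists_lin_root`: `∑ c_n b ^ (p ^ n) = a` has a root;
* `FreT.absorb`: the torsion part of a word can be moved into one free letter.
-/

set_option autoImplicit false
set_option linter.unusedSectionVars false

open Polynomial

namespace Pool.Agent.TWIV

open Pool.Agent.H15JM (RVal)
open Pool.Agent.LU1 (VPos adj)
open Pool.Agent.D2 (Ctx0)
open Pool.Agent.TWM Pool.Agent.TWC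

universe u

variable {k Ω : Type u} [Field k] [Field Ω] [Algebra k Ω] {v : RVal Ω}
  {W E : IntermediateField k Ω} {p : ℕ} [hp : Fact p.Prime] [CharP Ω p]

/-- The value of the additive polynomial of `c` at `b`. -/
noncomputable def aval (p : ℕ) (c : k[X]) (b : k) : k := c.sum fun n a => a * b ^ p ^ n

omit hp in
theorem aval_zero_left (b : k) : aval p (0 : k[X]) b = 0 := by rw [aval, Polynomial.sum_zero_index]

omit [CharP Ω p] in
theorem exists_lin_root [IsAlgClosed k] {c : k[X]} (hc : c ≠ 0) (a : k) : ∃ b : k, aval p c b = a := by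
  by_cases h0 : c.natDegree = 0
  · obtain ⟨d, hd⟩ := natDegree_eq_zero.1 h0
    have hd0 : d ≠ 0 := by
      rintro rfl
      rw [C_0] at hd
      exact hc hd.symm
    refine ⟨a / d, ?_⟩
    rw [aval, ← hd, sum_C_index (by rw [zero_mul]), pow_zero, pow_one, mul_div_cancel₀ _ hd0]
  · set Q : k[X] := (c.sum fun n d => C d * X ^ p ^ n) - C a with hQ
    have hdeg : Q.coeff (p ^ c.natDegree) ≠ 0 := by
      have h1 : p ^ c.natDegree ≠ 0 := (pow_pos hp.out.pos _).ne'
      rw [hQ, coeff_sub, coeff_C, if_neg h1, sub_zero, Polynomial.sum, finsetSum_coeff,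
        Finset.sum_eq_single c.natDegree]
      · rw [coeff_C_mul, coeff_X_pow, if_pos rfl, mul_one, coeff_natDegree]
        exact leadingCoeff_ne_zero.2 hc
      · intro i _ hi
        rw [coeff_C_mul, coeff_X_pow, if_neg, mul_zero]
        exact fun h2 => hi (Nat.pow_right_injective hp.out.two_le h2).symm
      · intro h2
        rw [Polynomial.notMem_support_iff.1 h2, C_0, zero_mul, coeff_zero]
    have hdeg2 : Q.degree ≠ 0 := by
      intro h2
      have h3 : Q.natDegree = 0 := natDegree_eq_of_degree_eq_some h2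
      refine hdeg (coeff_eq_zero_of_natDegree_lt ?_)
      rw [h3]
      exact pow_pos hp.out.pos _
    obtain ⟨b, hb⟩ := IsAlgClosed.exists_root Q hdeg2
    refine ⟨b, ?_⟩
    rw [IsRoot.def, hQ, eval_sub, eval_C, sub_eq_zero, Polynomial.sum, eval_finsetSum] at hb
    rw [aval, Polynomial.sum, ← hb]
    refine Finset.sum_congr rfl fun n _ => ?_
    rw [eval_mul, eval_C, eval_pow, eval_X]

theorem pow_iter_tor {t : Ω} (ht : t ^ p - t ∈ E) (n : ℕ) : t ^ p ^ n - t ∈ E := torX_sub ht rfl n

/-- The operators on one torsion letter. -/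
theorem op_tor1 {t : Ω} (ht : t ^ p - t ∈ E) (c : k[X]) (b : k) :
    op p c (algebraMap k Ω b * t) - algebraMap k Ω (aval p c b) * t ∈ E := by
  rw [op_eq, aval, Polynomial.sum, map_sum, Finset.sum_mul, ← Finset.sum_sub_distrib]
  refine sum_mem fun n _ => ?_
  have h1 : algebraMap k Ω (c.coeff n) * (algebraMap k Ω b * t) ^ p ^ n -
      algebraMap k Ω (c.coeff n * b ^ p ^ n) * t =
      algebraMap k Ω (c.coeff n * b ^ p ^ n) * (t ^ p ^ n - t) := by
    rw [mul_pow, map_mul, map_pow]
    ring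
  rw [h1]
  exact mul_mem (E.algebraMap_mem _) (pow_iter_tor ht n)

variable {ι κ : Type} [Fintype ι] [Fintype κ] [DecidableEq ι] {s : ι → Ω} {t : κ → Ω}

/-- The operators on combinations of torsion letters. -/
theorem op_tor (ht : ∀ j, t j ^ p - t j ∈ E) (c : k[X]) (b : κ → k) :
    op p c (∑ j, algebraMap k Ω (b j) * t j) -
      ∑ j, algebraMap k Ω (aval p c (b j)) * t j ∈ E := by
  rw [op_sum_right, ← Finset.sum_sub_distrib]
  exact sum_mem fun j _ => op_tor1 (ht j) c (b j)

theorem op_update (c : ι → k[X]) (i₀ : ι) (x : Ω) :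
    ∑ i, op p (c i) (Function.update s i₀ (s i₀ + x) i) =
      ∑ i, op p (c i) (s i) + op p (c i₀) x := by
  rw [← Finset.add_sum_erase _ _ (Finset.mem_univ i₀),
    ← Finset.add_sum_erase _ (fun i => op p (c i) (s i)) (Finset.mem_univ i₀)]
  have h1 : ∑ i ∈ Finset.univ.erase i₀, op p (c i) (Function.update s i₀ (s i₀ + x) i) =
      ∑ i ∈ Finset.univ.erase i₀, op p (c i) (s i) := by
    refine Finset.sum_congr rfl fun i hi => ?_
    rw [Function.update_of_ne (Finset.ne_of_mem_erase hi)]
  rw [h1, Function.update_self, op_add_right]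
  ring

/-- A free letter may be changed by a combination of the torsion letters. -/
theorem FreT.update (hk : Ctx0 k v) (h : FreT p v E s t) (i₀ : ι) (b : κ → k) :
    FreT p v E (Function.update s i₀ (s i₀ + ∑ j, algebraMap k Ω (b j) * t j)) t := by
  refine ⟨fun i => ?_, h.tl, h.mem, ?_⟩
  · by_cases hi : i = i₀
    · subst hi
      rw [Function.update_self]
      exact lm_add (h.sl i) (lim_sum Finset.univ fun j _ => lim_smul hk (h.tl j) (b j))
    · rw [Function.update_of_ne hi]
      exact h.sl i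
  · rintro c d ⟨e, he, h1⟩
    rw [op_update] at h1
    have h2 := op_tor h.mem (c i₀) b
    have h3 := h.free c (fun j => aval p (c i₀) (b j) + d j) ⟨e -
      (op p (c i₀) (∑ j, algebraMap k Ω (b j) * t j) -
        ∑ j, algebraMap k Ω (aval p (c i₀) (b j)) * t j), sub_mem he h2, by
        refine Eq.mp (congrArg (fun w => v.Ge 0 w) ?_) h1
        simp only [map_add, add_mul, Finset.sum_add_distrib]
        ring⟩
    refine ⟨h3.1, fun j => ?_⟩
    have h4 := h3.2 j
    rwa [h3.1 i₀, aval_zero_left, zero_add] at h4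

/-- **The torsion part of a word is moved into a free letter.** -/
theorem FreT.absorb [IsAlgClosed k] (hk : Ctx0 k v) (h : FreT p v E s t) (P : ι → k[X]) {i₀ : ι}
    (hP : P i₀ ≠ 0) (a : κ → k) : ∃ b : κ → k,
      FreT p v E (Function.update s i₀ (s i₀ + ∑ j, algebraMap k Ω (b j) * t j)) t ∧
      ∃ e ∈ E, ∑ i, op p (P i) (s i) + ∑ j, algebraMap k Ω (a j) * t j = e +
        ∑ i, op p (P i) (Function.update s i₀ (s i₀ + ∑ j, algebraMap k Ω (b j) * t j) i) := by
  choose b hb using fun j => exists_lin_root (p := p) hP (a j)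
  refine ⟨b, h.update hk i₀ b, -(op p (P i₀) (∑ j, algebraMap k Ω (b j) * t j) -
    ∑ j, algebraMap k Ω (aval p (P i₀) (b j)) * t j), neg_mem (op_tor h.mem (P i₀) b), ?_⟩
  rw [op_update]
  simp only [hb]
  ring

/-- The new letter is a limit of `W^(1/p^n)`. -/
theorem LimR.add_tor (hk : Ctx0 k v) {n : ℕ} {x : Ω} (hx : LimR v W p n x)
    (ht : ∀ j, Lim v W 0 (t j)) (b : κ → k) :
    LimR v W p n (x + ∑ j, algebraMap k Ω (b j) * t j) := by
  refine hx.add (LimR.mono (Nat.zero_le n) ?_)
  intro ε hε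
  obtain ⟨a, ha, h1⟩ := lim_sum (A := W) Finset.univ (fun j _ => lim_smul hk (ht j) (b j)) ε hε
  refine ⟨a, ?_, ?_⟩
  · rw [pow_zero, pow_one]
    exact ha
  · rwa [zero_sub] at h1

end Pool.Agent.TWIV
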