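import Pool.Agent.Lib.TWIV.FLh
import Pool.Agent.Lib.TWIV.L0T
import Pool.Agent.Lib.TWIV.TorY

/-!
# TANK W: the letters of an exact system

`exists_letters`: `z i` finitely many limits of `E ∩ W^(1/p^D)` with jets modulo `E + O` in the module
generated by the `z i`, `z i₀ ^ (p ^ D) = y` of transcendental type over `E`: a basis of free letters
`s i`, with jets, and of constant torsion letters `t j`, such that `z i₀` is modulo `O` a word in the
`s i` alone.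
-/

set_option autoImplicit false
set_option linter.unusedSectionVars false

open Polynomial

namespace Pool.Agent.TWIV

open Pool.Agent.H15JM (RVal)
open Pool.Agent.LU1 (VPos adj)
open Pool.Agent.D2 (Ctx0)
open Pool.Agent.TWM Pool.Agent.TWC

universe u

variable {k Ω : Type u} [Field k] [Field Ω] [Algebra k Ω] {v : RVal Ω}
  {W E : IntermediateField k Ω} {p : ℕ}

/-- `x ∈ E + ∑ k t_j + ∑ k{F} s_i + O`. -/
def LM (p : ℕ) (v : RVal Ω) (E : IntermediateField k Ω) {ι κ : Type} [Fintype ι] [Fintype κ]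
    (s : ι → Ω) (t : κ → Ω) (x : Ω) : Prop := ∃ y ∈ L0T p E s t, v.Ge 0 (x - y)

section LM

variable {ι κ : Type} [Fintype ι] [Fintype κ] {s : ι → Ω} {t : κ → Ω} {x y : Ω}

theorem LM.of_mem (hx : x ∈ L0T p E s t) : LM p v E s t x :=
  ⟨x, hx, by rw [sub_self]; exact RVal.Ge.zero⟩

theorem LM.of_ge (hx : v.Ge 0 x) : LM p v E s t x :=
  ⟨0, zero_mem _, by rwa [sub_zero]⟩

theorem LM.of_nr (hx : Nr v E 0 x) : LM p v E s t x := by
  obtain ⟨e, he, h1⟩ := hx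
  exact ⟨e, L0T.mem_E he, h1⟩

theorem LM.add (hx : LM p v E s t x) (hy : LM p v E s t y) : LM p v E s t (x + y) := by
  obtain ⟨a, ha, h1⟩ := hx
  obtain ⟨b, hb, h2⟩ := hy
  refine ⟨a + b, add_mem ha hb, ?_⟩
  rw [add_sub_add_comm]
  exact h1.add h2

theorem LM.neg (hx : LM p v E s t x) : LM p v E s t (-x) := by
  obtain ⟨a, ha, h1⟩ := hx
  refine ⟨-a, neg_mem ha, ?_⟩
  have h2 : -x - -a = -(x - a) := by ring
  rw [h2]
  exact h1.neg

theorem LM.sub (hx : LM p v E s t x) (hy : LM p v E s t y) : LM p v E s t (x - y) := by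
  rw [sub_eq_add_neg]
  exact hx.add hy.neg

theorem LM.sum {α : Type*} (S : Finset α) {f : α → Ω} (h : ∀ a ∈ S, LM p v E s t (f a)) :
    LM p v E s t (∑ a ∈ S, f a) := by
  classical
  induction S using Finset.induction_on with
  | empty =>
    rw [Finset.sum_empty]
    exact LM.of_mem (zero_mem _)
  | insert a S ha ih =>
    rw [Finset.sum_insert ha]
    exact (h a (Finset.mem_insert_self a S)).add (ih fun b hb => h b (Finset.mem_insert_of_mem hb))

theorem LM.cmul (hk : Ctx0 k v) (c : k) (hx : LM p v E s t x) :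
    LM p v E s t (algebraMap k Ω c * x) := by
  obtain ⟨a, ha, h1⟩ := hx
  refine ⟨algebraMap k Ω c * a, L0T.cmul c ha, ?_⟩
  rw [← mul_sub]
  have h2 := (hk.ge c).mul h1
  rwa [add_zero] at h2

variable [Fact p.Prime] [CharP k p] [CharP Ω p]

theorem LM.pow (h : FreT p v E s t) (hx : LM p v E s t x) (n : ℕ) :
    LM p v E s t (x ^ p ^ n) := by
  obtain ⟨a, ha, h1⟩ := hx
  refine ⟨a ^ p ^ n, L0T.frobN h ha n, ?_⟩
  rw [← sub_pow_char_pow]
  have h2 := ge_pow h1 (p ^ n)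
  rwa [mul_zero] at h2

theorem LM.op (hk : Ctx0 k v) (h : FreT p v E s t) (hx : LM p v E s t x) (P : k[X]) :
    LM p v E s t (op p P x) := by
  rw [op_eq]
  exact LM.sum _ fun i _ => (hx.pow h i).cmul hk _

theorem LM.opJ (hk : Ctx0 k v) (h : FreT p v E s t) {q : ℕ} {Z : Polynomial Ω}
    (hZ : ∀ l < q, LM p v E s t (Z.coeff l)) (P : k[X]) :
    ∀ l < q, LM p v E s t ((opJ p P Z).coeff l) := by
  intro l hl
  rw [coeff_opJ]
  refine LM.sum _ fun a _ => ?_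
  split_ifs
  · exact ((hZ _ ((Nat.div_le_self _ _).trans_lt hl)).pow h a).cmul hk _
  · rw [mul_zero]
    exact LM.of_mem (zero_mem _)

end LM

section Letters

variable [IsAlgClosed k] [IsAlgClosed Ω] [hp : Fact p.Prime] [CharP k p] [CharP Ω p] {n : ℕ}
  {DD : ℕ → Subalgebra k Ω} {Th : ℕ → ℕ → Ω → Ω}

/-- The jets of a word. -/
theorem germ_word (hk : Ctx0 k v) {R : Subalgebra k Ω} (h : HSn p v n R DD Th) {D : ℕ}
    (hD : n ≤ D) {ι : Type} [Fintype ι] {Z : ι → Polynomial Ω}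
    (hZ : ∀ i, ∀ ε : ℝ, 0 < ε → ∃ σ ∈ DD D, GeP v (p ^ D) (-ε) (Z i - psi (p ^ D) (Th D) σ))
    (P : ι → k[X]) {ε : ℝ} (hε : 0 < ε) :
    ∃ σ ∈ DD D, GeP v (p ^ D) (-ε) (∑ i, opJ p (P i) (Z i) - psi (p ^ D) (Th D) σ) := by
  have hp1 : (0 : ℝ) < p := by exact_mod_cast hp.out.pos
  have h1 : ∀ i, ∃ σ ∈ DD D, GeP v (p ^ D) (-ε)
      (opJ p (P i) (Z i) - psi (p ^ D) (Th D) (op p (P i) σ)) := by
    intro i
    have hq : (0 : ℝ) < (p : ℝ) ^ (P i).natDegree := pow_pos hp1 _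
    have hε' := div_pos hε hq
    obtain ⟨σ, hσ, h2⟩ := hZ i (ε / (p : ℝ) ^ (P i).natDegree) hε'
    refine ⟨σ, hσ, ?_⟩
    have h3 := opJ_geP (p := p) hk (P i) (by linarith) h2
    rw [opJ_sub] at h3
    have h4 := Lvl.psi_op h hD (h.lvl_D hD hσ) (P i)
    intro j hj
    rw [coeff_sub, h4 j hj, ← coeff_sub]
    refine (h3 j hj).mono (le_of_eq ?_)
    field_simp
  choose σ hσ h2 using h1
  refine ⟨∑ i, op p (P i) (σ i), sum_mem fun i _ => op_mem_sub (hσ i), ?_⟩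
  rw [(h.dq hD).psi_sum _ fun i _ => h.le D hD (op_mem_sub (hσ i)), ← Finset.sum_sub_distrib]
  exact GeP.sum _ fun i _ => h2 i

/-- **The letters of an exact system.** -/
theorem exists_letters (hk : Ctx0 k v) (hE : ∀ a ∈ E, ∃ b ∈ E, b ^ p = a)
    (h : HSn p v n E.toSubalgebra DD Th) (hWE : W ≤ E)
    (hDD : ∀ N, n ≤ N → ∀ x, x ∈ DD N ↔ x ^ p ^ N ∈ W)
    (hW : ∀ N, n ≤ N → ∀ j < p ^ N, 0 < j → ∀ w ∈ W, Th N j w = 0) {y : Ω} (hy : TL v E y 0)
    {D : ℕ} (hD : n ≤ D) {ι : Type} [Fintype ι] {z : ι → Ω} {Z : ι → Polynomial Ω}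
    (hZ0 : ∀ i, (Z i).coeff 0 = z i)
    (hZg : ∀ i, ∀ ε : ℝ, 0 < ε → ∃ σ ∈ DD D, GeP v (p ^ D) (-ε) (Z i - psi (p ^ D) (Th D) σ))
    (hZs : ∀ i, ∀ l < p ^ D, ∃ Q : ι → k[X], Nr v E 0 ((Z i).coeff l - ∑ j, op p (Q j) (z j)))
    {i₀ : ι} (hy0 : z i₀ ^ p ^ D = y) :
    ∃ (m r : ℕ) (s : Fin m → Ω) (t : Fin r → Ω) (T : Fin m → Polynomial Ω) (e : Ω)
      (P : Fin m → k[X]) (i₁ : Fin m), FreT p v E s t ∧ (∀ j, Lim v W 0 (t j)) ∧
      (∀ j, t j ^ p - t j ∈ W) ∧ (∀ i, (T i).coeff 0 = s i) ∧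
      (∀ i, ∀ ε : ℝ, 0 < ε → ∃ σ ∈ DD D, GeP v (p ^ D) (-ε) (T i - psi (p ^ D) (Th D) σ)) ∧
      (∀ i, ∀ l < p ^ D, LM p v E s t ((T i).coeff l)) ∧ e ∈ E ∧ P i₁ ≠ 0 ∧
      v.Ge 0 (z i₀ - e - ∑ i, op p (P i) (s i)) ∧
      ∀ ε : ℝ, 0 < ε → ∃ σ ∈ DD D, v.Ge (-ε) (z i₀ - σ) := by
  classical
  have hq0 : 0 < p ^ D := pow_pos hp.out.pos _
  have hyl : ∀ i, ∀ ε : ℝ, 0 < ε → ∃ σ ∈ DD D, v.Ge (-ε) (z i - σ) := by
    intro i ε hε
    obtain ⟨σ, hσ, h1⟩ := hZg i ε hε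
    refine ⟨σ, hσ, ?_⟩
    have h2 := h1 0 hq0
    rwa [coeff_sub, hZ0, coeff_psi, if_pos hq0, h.zero D hD σ (h.le D hD hσ)] at h2
  have hz : ∀ i, LimR v W p D (z i) := by
    intro i ε hε
    obtain ⟨σ, hσ, h1⟩ := hyl i ε hε
    exact ⟨σ, (hDD D hD σ).1 hσ, h1⟩
  have hWD : ∀ w ∈ W, w ∈ DD D := fun w hw => (hDD D hD w).2 (pow_mem hw _)
  obtain ⟨m, r, s₀, t, hSp, -, htW, htp, hF, hz'⟩ := exists_fgX hk hWE hE
    (fun a ha r => by
      obtain ⟨N, hN, b, hb, h1⟩ := h.dense a ha r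
      exact ⟨N, b, h.le N hN hb, (hDD N hN b).1 hb, h1⟩)
    (fun b hb => h.le D hD ((hDD D hD b).2 hb)) z hz
  -- the jets of the letters
  choose P₀ hP₀ using hSp
  set T₀ : Fin m → Polynomial Ω := fun i => ∑ l, opJ p (P₀ i l) (Z l) with hT₀
  have hT₀0 : ∀ i, (T₀ i).coeff 0 = s₀ i := by
    intro i
    rw [hT₀, hP₀ i]
    simp only
    rw [finsetSum_coeff]
    exact Finset.sum_congr rfl fun l _ => by rw [opJ_coeff_zero, hZ0]
  have hT₀g : ∀ i, ∀ ε : ℝ, 0 < ε → ∃ σ ∈ DD D,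
      GeP v (p ^ D) (-ε) (T₀ i - psi (p ^ D) (Th D) σ) := fun i ε hε =>
    germ_word hk h hD hZg (P₀ i) hε
  -- the class of `z i₀`
  obtain ⟨P, a, e₀, he₀, h1⟩ := hz' i₀
  have hne : ∃ i, P i ≠ 0 := by
    by_contra hcon
    push Not at hcon
    have h2 : ∑ i, op p (P i) (s₀ i) = 0 := Finset.sum_eq_zero fun i _ => by
      rw [hcon i, op_zero]
    rw [h2, sub_zero] at h1
    set c := (e₀ + ∑ j, algebraMap k Ω (a j) * t j) with hc
    have hta : ∀ j, IsAlgebraic E (t j) := fun j => by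
      have h3 := hp.out.one_lt
      refine ⟨X ^ p - X - C (⟨t j ^ p - t j, hWE (htp j)⟩ : E), ?_, ?_⟩
      · intro h4
        have h5 := congrArg (fun f : Polynomial E => f.coeff p) h4
        simp only [coeff_sub, coeff_X_pow_self, coeff_zero] at h5
        rw [coeff_X_of_ne_one h3.ne', coeff_C_of_ne_zero hp.out.ne_zero] at h5
        simp at h5
      · simp
    have hca : IsAlgebraic E c := by
      rw [hc]
      refine IsAlgebraic.add (isAlgebraic_algebraMap (⟨e₀, he₀⟩ : E)) ?_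
      refine mem_algebraicClosure_iff.1 (sum_mem fun j _ => mem_algebraicClosure_iff.2 ?_)
      exact IsAlgebraic.mul (isAlgebraic_algebraMap
        (⟨algebraMap k Ω (a j), E.algebraMap_mem _⟩ : E)) (hta j)
    have h3 := hy.far (c ^ p ^ D) (hca.pow _)
    have h4 : v.Ge 0 (y - c ^ p ^ D) := by
      rw [← hy0, ← sub_pow_char_pow]
      have h5 : v.Ge 0 (z i₀ - c) := by
        have h6 : z i₀ - c = z i₀ - ∑ j, algebraMap k Ω (a j) * t j - e₀ := by
          rw [hc]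
          ring
        rw [h6]
        exact h1
      have h6 := ge_pow h5 (p ^ D)
      rwa [mul_zero] at h6
    exact absurd (h4 (sub_ne_zero.2 h3.1)) (not_le.2 h3.2)
  obtain ⟨i₁, hi₁⟩ := hne
  obtain ⟨b, hF', e₁, he₁, h2⟩ := FreT.absorb hk hF P hi₁ a
  set s : Fin m → Ω := Function.update s₀ i₁ (s₀ i₁ + ∑ j, algebraMap k Ω (b j) * t j) with hs
  set T : Fin m → Polynomial Ω := Function.update T₀ i₁
    (T₀ i₁ + C (∑ j, algebraMap k Ω (b j) * t j)) with hT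
  have hbtW : Lim v W 0 (∑ j, algebraMap k Ω (b j) * t j) :=
    lim_sum Finset.univ fun j _ => lim_smul hk (htW j) (b j)
  have hbt : ∑ j, algebraMap k Ω (b j) * t j ∈ L0T p E s t :=
    sum_mem fun j _ => L0T.cmul _ (L0T.mem_t j)
  -- the classes modulo `O`
  have hs₀M : ∀ i, LM p v E s t (s₀ i) := by
    intro i
    by_cases hi : i = i₁
    · have h3 : s₀ i = s i - ∑ j, algebraMap k Ω (b j) * t j := by
        rw [hi, hs, Function.update_self]
        ring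
      rw [h3]
      exact LM.of_mem (sub_mem (L0T.mem_s i) hbt)
    · have h3 : s₀ i = s i := by rw [hs, Function.update_of_ne hi]
      rw [h3]
      exact LM.of_mem (L0T.mem_s i)
  have hzM : ∀ l, LM p v E s t (z l) := by
    intro l
    obtain ⟨Q, a', h3⟩ := hz' l
    have h4 : z l = (z l - ∑ i, op p (Q i) (s₀ i) - ∑ j, algebraMap k Ω (a' j) * t j) +
        ∑ i, op p (Q i) (s₀ i) + ∑ j, algebraMap k Ω (a' j) * t j := by ring
    rw [h4]
    exact ((LM.of_nr h3).add (LM.sum _ fun i _ => (hs₀M i).op hk hF' _)).add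
      (LM.sum _ fun j _ => (LM.of_mem (L0T.mem_t j)).cmul hk _)
  have hZM : ∀ i, ∀ l < p ^ D, LM p v E s t ((Z i).coeff l) := by
    intro i l hl
    obtain ⟨Q, h3⟩ := hZs i l hl
    have h4 : (Z i).coeff l = ((Z i).coeff l - ∑ j, op p (Q j) (z j)) + ∑ j, op p (Q j) (z j) := by
      ring
    rw [h4]
    exact (LM.of_nr h3).add (LM.sum _ fun j _ => (hzM j).op hk hF' _)
  have hT₀M : ∀ i, ∀ l < p ^ D, LM p v E s t ((T₀ i).coeff l) := by
    intro i l hl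
    rw [hT₀]
    simp only
    rw [finsetSum_coeff]
    exact LM.sum _ fun j _ => LM.opJ hk hF' (hZM j) _ l hl
  refine ⟨m, r, s, t, T, e₀ + e₁, P, i₁, hF', htW, htp, fun i => ?_, fun i ε hε => ?_,
    fun i l hl => ?_, add_mem he₀ he₁, hi₁, ?_, hyl i₀⟩
  · by_cases hi : i = i₁
    · rw [hT, hs, hi, Function.update_self, Function.update_self, coeff_add, hT₀0, coeff_C_zero]
    · rw [hT, hs, Function.update_of_ne hi, Function.update_of_ne hi, hT₀0]
  · by_cases hi : i = i₁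
    · rw [hT, hi, Function.update_self]
      obtain ⟨σ, hσ, h3⟩ := hT₀g i₁ ε hε
      obtain ⟨τ, hτ, h4⟩ := hbtW ε hε
      refine ⟨σ + τ, add_mem hσ (hWD τ hτ), fun j hj => ?_⟩
      rw [(h.dq hD).psi_add (h.le D hD hσ) (h.le D hD (hWD τ hτ)), add_sub_add_comm, coeff_add]
      refine (h3 j hj).add ?_
      rw [coeff_sub, coeff_C, coeff_psi, if_pos hj]
      by_cases hj0 : j = 0
      · rw [if_pos hj0, hj0, h.zero D hD τ (h.le D hD (hWD τ hτ))]
        rwa [zero_sub] at h4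
      · rw [if_neg hj0, hW D hD j hj (Nat.pos_of_ne_zero hj0) τ hτ, sub_zero]
        exact RVal.Ge.zero
    · rw [hT, Function.update_of_ne hi]
      exact hT₀g i ε hε
  · by_cases hi : i = i₁
    · rw [hT, hi, Function.update_self, coeff_add]
      refine (hT₀M i₁ l hl).add ?_
      rw [coeff_C]
      split_ifs
      exacts [LM.of_mem hbt, LM.of_mem (zero_mem _)]
    · rw [hT, Function.update_of_ne hi]
      exact hT₀M i l hl
  · have h3 : z i₀ - (e₀ + e₁) - ∑ i, op p (P i) (s i) =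
        z i₀ - ∑ i, op p (P i) (s₀ i) - ∑ j, algebraMap k Ω (a j) * t j - e₀ := by
      have h4 : ∑ i, op p (P i) (s i) = ∑ i, op p (P i) (s₀ i) +
          ∑ j, algebraMap k Ω (a j) * t j - e₁ := by
        rw [h2]
        ring
      rw [h4]
      ring
    rw [h3]
    exact h1

end Letters

end Pool.Agent.TWIV
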