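import Pool.Agent.Lib.TWIV.TorL

/-!
# TANK W: several torsion letters

* `Itor`: independence of torsion letters modulo `A + O`;
* `tor_span`: the limits of `A` in the closure of `A(t_j : j ∈ S)`, and the other letters;
* `FreT`: joint freeness of letters and torsion letters;
* `FreT.fre`: the letters are free over the closure of `E(t)`;
* `rad_tor`: RAD with torsion letters.
-/

set_option autoImplicit false

open Polynomial

namespace Pool.Agent.TWIV

open Pool.Agent.H15JM (RVal)
open Pool.Agent.LU1 (VPos adj)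
open Pool.Agent.D2 (Ctx0)
open Pool.Agent.TWM Pool.Agent.TWC

universe u

variable {k Ω : Type u} [Field k] [Field Ω] [Algebra k Ω] {v : RVal Ω}
  {A E B : IntermediateField k Ω} {p : ℕ}

/-- The torsion letters `t_j` are independent modulo `A + O`. -/
structure Itor (p : ℕ) (v : RVal Ω) (A : IntermediateField k Ω) {κ : Type} [Fintype κ]
    (t : κ → Ω) : Prop where
  lim : ∀ j, Lim v A 0 (t j)
  mem : ∀ j, t j ^ p - t j ∈ A
  ind : ∀ d : κ → k, Nr v A 0 (∑ j, algebraMap k Ω (d j) * t j) → ∀ j, d j = 0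

section Tor

variable [IsAlgClosed Ω] [Fact p.Prime] [CharP Ω p] {κ : Type} [Fintype κ] [DecidableEq κ]
  {t : κ → Ω}

omit [IsAlgClosed Ω] [Fact p.Prime] [CharP Ω p] [Fintype κ] [DecidableEq κ] in
theorem lim_smul (hk : Ctx0 k v) {x : Ω} (hx : Lim v A 0 x) (c : k) :
    Lim v A 0 (algebraMap k Ω c * x) := by
  intro ε hε
  obtain ⟨a, ha, h1⟩ := hx ε hε
  refine ⟨algebraMap k Ω c * a, mul_mem (A.algebraMap_mem c) ha, ?_⟩
  have h2 := (hk.ge c).mul h1
  rwa [zero_add, mul_sub] at h2

/-- The limits of `A` in the closure of `A(t_j : j ∈ S)`, and the other letters. -/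
theorem tor_span (hk : Ctx0 k v) (hA : Cld v A) (ht : Itor p v A t) (S : Finset κ) :
    (∀ x ∈ cadS v A t S, Lim v A 0 x → ∃ d : κ → k, (∀ j ∉ S, d j = 0) ∧
      Nr v A 0 (x - ∑ j, algebraMap k Ω (d j) * t j)) ∧ ∀ l ∉ S, TA p v (cadS v A t S) (t l) := by
  -- the second part from the first
  have key : ∀ S : Finset κ, (∀ x ∈ cadS v A t S, Lim v A 0 x → ∃ d : κ → k,
      (∀ j ∉ S, d j = 0) ∧ Nr v A 0 (x - ∑ j, algebraMap k Ω (d j) * t j)) →
      ∀ l ∉ S, TA p v (cadS v A t S) (t l) := by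
    intro S hS l hlS
    refine ⟨(ht.lim l).mono le_cadS, ?_, le_cadS (ht.mem l)⟩
    rintro ⟨a, ha, h1⟩
    have h2 : Lim v A 0 a := by
      have h3 := lm_sub (ht.lim l) (lim_of_ge (A := A) h1)
      rwa [sub_sub_cancel] at h3
    obtain ⟨d, hd, e, he, h4⟩ := hS a ha h2
    have h5 := ht.ind (fun j => (if j = l then 1 else 0) - d j) ⟨e, he, ?_⟩ l
    · simp only [if_true, hd l hlS, sub_zero] at h5
      exact one_ne_zero h5
    · have h6 : ∑ j, algebraMap k Ω ((if j = l then 1 else 0) - d j) * t j =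
          t l - ∑ j, algebraMap k Ω (d j) * t j := by
        simp only [map_sub, sub_mul, Finset.sum_sub_distrib]
        congr 1
        rw [Finset.sum_eq_single l]
        · rw [if_pos rfl, map_one, one_mul]
        · intro j _ hj
          rw [if_neg hj, map_zero, zero_mul]
        · intro h
          exact absurd (Finset.mem_univ l) h
      rw [h6]
      have h7 := h1.add h4
      refine Eq.mp (congrArg (fun w => v.Ge 0 w) ?_) h7
      ring
  induction S using Finset.induction_on with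
  | empty =>
    have h0 : ∀ x ∈ cadS v A t ((∅ : Finset κ) : Set κ), Lim v A 0 x → ∃ d : κ → k,
        (∀ j ∉ (∅ : Finset κ), d j = 0) ∧ Nr v A 0 (x - ∑ j, algebraMap k Ω (d j) * t j) := by
      intro x hx _
      rw [Finset.coe_empty, cadS_empty] at hx
      refine ⟨fun _ => 0, fun _ _ => rfl, x, hA hx, ?_⟩
      simp only [map_zero, zero_mul, Finset.sum_const_zero, sub_zero, sub_self]
      exact RVal.Ge.zero
    exact ⟨h0, key _ h0⟩
  | insert l S hlS ih =>
    obtain ⟨ih1, ih2⟩ := ih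
    have hT := ih2 l hlS
    have h0 : ∀ x ∈ cadS v A t ((insert l S : Finset κ) : Set κ), Lim v A 0 x →
        ∃ d : κ → k, (∀ j ∉ insert l S, d j = 0) ∧
          Nr v A 0 (x - ∑ j, algebraMap k Ω (d j) * t j) := by
      intro x hx hlx
      rw [Finset.coe_insert, ← cadj_cadS] at hx
      obtain ⟨c, x', hx', h1⟩ := hT.res hk hx (hlx.mono le_cadS)
      have h2 : Lim v A 0 x' := by
        have h3 := lm_sub (lm_sub hlx (lim_smul hk (ht.lim l) c)) (lim_of_ge (A := A) h1)
        refine Eq.mp (congrArg (fun w => Lim v A 0 w) ?_) h3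
        ring
      obtain ⟨d, hd, e, he, h4⟩ := ih1 x' hx' h2
      refine ⟨fun j => (if j = l then c else 0) + d j, fun j hj => ?_, e, he, ?_⟩
      · rw [Finset.mem_insert, not_or] at hj
        simp only [if_neg hj.1, hd j hj.2, add_zero]
      · have h6 : ∑ j, algebraMap k Ω ((if j = l then c else 0) + d j) * t j =
            algebraMap k Ω c * t l + ∑ j, algebraMap k Ω (d j) * t j := by
          simp only [map_add, add_mul, Finset.sum_add_distrib]
          congr 1
          rw [Finset.sum_eq_single l]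
          · rw [if_pos rfl]
          · intro j _ hj
            rw [if_neg hj, map_zero, zero_mul]
          · intro h
            exact absurd (Finset.mem_univ l) h
        rw [h6]
        have h7 := h1.add h4
        refine Eq.mp (congrArg (fun w => v.Ge 0 w) ?_) h7
        ring
    exact ⟨h0, key _ h0⟩

/-- Joint freeness of letters and torsion letters. -/
structure FreT (p : ℕ) (v : RVal Ω) (E : IntermediateField k Ω) {ι κ : Type} [Fintype ι]
    [Fintype κ] (s : ι → Ω) (t : κ → Ω) : Prop where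
  sl : ∀ i, Lim v E 0 (s i)
  tl : ∀ j, Lim v E 0 (t j)
  mem : ∀ j, t j ^ p - t j ∈ E
  free : ∀ (c : ι → k[X]) (d : κ → k),
    Nr v E 0 (∑ i, op p (c i) (s i) + ∑ j, algebraMap k Ω (d j) * t j) →
    (∀ i, c i = 0) ∧ ∀ j, d j = 0

variable {ι : Type} [Fintype ι] [DecidableEq ι] {s : ι → Ω}

omit [IsAlgClosed Ω] [Fact p.Prime] [CharP Ω p] [DecidableEq κ] [DecidableEq ι] in
theorem FreT.itor (h : FreT p v E s t) : Itor p v E t where
  lim := h.tl
  mem := h.mem
  ind d hd := (h.free (fun _ => 0) d (by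
    simp only [op_zero, Finset.sum_const_zero, zero_add]
    exact hd)).2

omit [IsAlgClosed Ω] [Fact p.Prime] [CharP Ω p] [DecidableEq κ] [DecidableEq ι] in
theorem FreT.fre₀ (h : FreT p v E s t) : Fre p v E s := fun c hc =>
  (h.free c (fun _ => 0) (by
    simp only [map_zero, zero_mul, Finset.sum_const_zero, add_zero]
    exact hc)).1

/-- The letters are free over the closure of `E(t)`. -/
theorem FreT.fre (hk : Ctx0 k v) (hE : Cld v E) (h : FreT p v E s t) :
    Fre p v (cadS v E t Set.univ) s := by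
  rintro c ⟨a, ha, h1⟩
  have h2 : Lim v E 0 a := by
    have h3 := lm_sub (lim_sum (A := E) Finset.univ fun i _ => lim_op hk (h.sl i) (c i))
      (lim_of_ge (A := E) h1)
    rwa [sub_sub_cancel] at h3
  have h3 := (tor_span hk hE h.itor Finset.univ).1 a (by rwa [Finset.coe_univ]) h2
  obtain ⟨d, -, e, he, h4⟩ := h3
  refine (h.free c (fun j => -d j) ⟨e, he, ?_⟩).1
  have h5 := h1.add h4
  refine Eq.mp (congrArg (fun w => v.Ge 0 w) ?_) h5
  simp only [map_neg, neg_mul, Finset.sum_neg_distrib]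
  ring

/-- The torsion letters are independent over the closure of `E(s)`. -/
theorem FreT.itor_s (hk : Ctx0 k v) (hE : Cld v E) (h : FreT p v E s t) :
    Itor p v (cadS v E s Set.univ) t where
  lim j := (h.tl j).mono le_cadS
  mem j := le_cadS (h.mem j)
  ind := by
    rintro d ⟨a, ha, h1⟩
    have h2 : Lim v E 0 a := by
      have h3 := lm_sub (lim_sum (A := E) Finset.univ fun j _ => lim_smul hk (h.tl j) (d j))
        (lim_of_ge (A := E) h1)
      rwa [sub_sub_cancel] at h3
    have h3 := (span_and_tl hk hE h.sl h.fre₀ Finset.univ).1 a (by rwa [Finset.coe_univ]) h2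
    obtain ⟨c, -, e, he, h4⟩ := h3
    refine (h.free (fun i => -c i) d ⟨e, he, ?_⟩).2
    have h5 := h1.add h4
    refine Eq.mp (congrArg (fun w => v.Ge 0 w) ?_) h5
    simp only [op_neg, Finset.sum_neg_distrib]
    ring

/-- **RAD with torsion letters.** -/
theorem rad_tor [IsAlgClosed k] [CharP k p] (hk : Ctx0 k v) (hE : Cld v E)
    (hp : ∀ a ∈ E, ∃ b ∈ E, b ^ p = a) (h : FreT p v E s t)
    {y e : Ω} (he : e ∈ E) {Q : ι → k[X]} (hy : y = e + ∑ i, op p (Q i) (s i)) (hyE : y ∉ E)
    {r : Ω} (hr : r ∈ cadS v (cadS v E s Set.univ) t Set.univ) (hlr : Lim v (cadj v E y) 0 r) :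
    ∃ b ∈ cadj v E y, ∃ a, Lim v E 0 a ∧ v.Ge 0 (r - b - a) := by
  have hyA : cadj v E y ≤ cadS v E s Set.univ := by
    refine cadj_le cld_cadS le_cadS ?_
    rw [hy]
    exact add_mem (le_cadS he) (sum_mem fun i _ => op_mem (mem_cadS (Set.mem_univ i)))
  obtain ⟨d, -, r₀, hr₀, h1⟩ := (tor_span hk cld_cadS (h.itor_s hk hE) Finset.univ).1 r
    (by rwa [Finset.coe_univ]) (hlr.mono hyA)
  have hd : Lim v E 0 (∑ j, algebraMap k Ω (d j) * t j) :=
    lim_sum Finset.univ fun j _ => lim_smul hk (h.tl j) (d j)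
  have h2 : Lim v (cadj v E y) 0 r₀ := by
    have h3 := lm_sub (lm_sub hlr (hd.mono (le_cadj v E y))) (lim_of_ge (A := cadj v E y) h1)
    rwa [sub_sub_cancel] at h3
  obtain ⟨b, hb, a, ha, h3⟩ := rad hk hE hp h.sl h.fre₀ he hy hyE hr₀ h2
  refine ⟨b, hb, a + ∑ j, algebraMap k Ω (d j) * t j, lm_add ha hd, ?_⟩
  refine Eq.mp (congrArg (fun w => v.Ge 0 w) ?_) (h1.add h3)
  ring

end Tor

end Pool.Agent.TWIV
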