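import Pool.Agent.Lib.TWIV.FLt
import Pool.Agent.Lib.TWIV.FLc
import Pool.Agent.Lib.TWIV.TorM

/-!
# TANK W, the lift of higher derivations to several torsion letters

* `HSn.chainT`: several torsion letters, one after the other; `tor_lift`: the letters are independent
  modulo `E + O`; `tor_lift_const`: constant letters.
-/

set_option autoImplicit false

open Polynomial

namespace Pool.Agent.TWIV

open Pool.Agent.H15JM (RVal)
open Pool.Agent.D2 (Ctx0)
open Pool.Agent.TWM Pool.Agent.TWC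

universe u

variable {k Ω : Type u} [Field k] [Field Ω] [Algebra k Ω] {v : RVal Ω}

section Chain

variable [IsAlgClosed Ω] {p n : ℕ} [Fact p.Prime] [CharP Ω p] (hk : Ctx0 k v)
  {R : Subalgebra k Ω} {D : ℕ → Subalgebra k Ω}
  {Th : ℕ → ℕ → Ω → Ω} {A : ℕ → IntermediateField k Ω} {s : ℕ → Ω} {T : ℕ → Polynomial Ω}

include hk

/-- **Several torsion letters.** -/
theorem HSn.chainT (h : HSn p v n R D Th) (m : ℕ) (hR : R ≤ (A 0).toSubalgebra)
    (hA : ∀ i < m, A i ≤ A (i + 1)) (hsA : ∀ i < m, s i ∈ A (i + 1))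
    (hs : ∀ i < m, TA p v (A i) (s i)) (hT : ∀ i < m, TJ p v n D Th (s i) (T i)) :
    ∃ Th' : ℕ → ℕ → Ω → Ω, HSn p v n (adN R s m) (fun N => adN (D N) s m) Th' ∧
      (∀ N, n ≤ N → ∀ j < p ^ N, ∀ x ∈ R, Th' N j x = Th N j x) ∧
      (∀ N, n ≤ N → ∀ j < p ^ N, ∀ i < m, Th' N j (s i) = (jT p n (T i) N).coeff j) ∧
      ∀ B : Subalgebra k Ω, (∀ N, n ≤ N → ∀ j < p ^ N, ∀ x ∈ R, Th N j x ∈ B) →
        (∀ i < m, ∀ l, (T i).coeff l ∈ B) →
        ∀ N, n ≤ N → ∀ j < p ^ N, ∀ x ∈ adN R s m, Th' N j x ∈ B := by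
  induction m with
  | zero =>
    exact ⟨Th, h, fun _ _ _ _ _ _ => rfl, fun _ _ _ _ i hi => absurd hi (Nat.not_lt_zero i),
      fun B hB _ N hN j hj x hx => hB N hN j hj x hx⟩
  | succ m ih =>
    obtain ⟨Th', h', hbase, hself, hstab⟩ := ih (fun i hi => hA i (by omega))
      (fun i hi => hsA i (by omega)) (fun i hi => hs i (by omega)) (fun i hi => hT i (by omega))
    have hAm : ∀ i ≤ m, A 0 ≤ A i := by
      intro i hi
      induction i with
      | zero => exact le_rfl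
      | succ i ihi => exact (ihi (by omega)).trans (hA i (by omega))
    have hAi : ∀ i l, i ≤ l → l ≤ m → A i ≤ A l := by
      intro i l hil hl
      induction l, hil using Nat.le_induction with
      | base => exact le_rfl
      | succ l hil ihl => exact (ihl (by omega)).trans (hA l (by omega))
    have hRm : adN R s m ≤ (A m).toSubalgebra :=
      adN_le m (hR.trans (hAm m le_rfl)) fun i hi => hAi (i + 1) m (by omega) le_rfl
        (hsA i (by omega))
    have hsm := hs m (Nat.lt_succ_self m)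
    have hTm := hT m (Nat.lt_succ_self m)
    have hT' : TJ p v n (fun N => adN (D N) s m) Th' (s m) (T m) :=
      { zero := hTm.zero
        mem := le_adN _ _ _ hTm.mem
        eq := fun l hl => by
          rw [hbase n le_rfl l hl _ (h.le n le_rfl hTm.mem)]
          exact hTm.eq l hl
        germ := fun ε hε => by
          obtain ⟨N, hN, σ, hσ, h1⟩ := hTm.germ ε hε
          refine ⟨N, hN, σ, le_adN _ _ _ hσ, h1.congr fun j hj => ?_⟩
          rw [coeff_sub, coeff_sub, coeff_psi, coeff_psi, if_pos hj, if_pos hj,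
            hbase N hN j hj σ (h.le N hN hσ)] }
    refine ⟨Txt p n (adN R s m) Th' (s m) (T m), h'.adjoinT hk hRm hsm hT', ?_, ?_, ?_⟩
    · intro N hN j hj x hx
      rw [h'.Txt_base hk hRm hsm (T m) hN hj (le_adN R s m hx), hbase N hN j hj x hx]
    · intro N hN j hj i hi
      rcases Nat.lt_succ_iff_lt_or_eq.1 hi with h1 | h1
      · rw [h'.Txt_base hk hRm hsm (T m) hN hj (mem_adN R s h1), hself N hN j hj i h1]
      · rw [h1, h'.Txt_self hk hRm hsm (T m) hN]
    · intro B hB hTB N hN j hj x hx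
      exact Txt_mem hk h' hRm hsm hT' (hstab B hB fun i hi => hTB i (by omega))
        (hTB m (Nat.lt_succ_self m)) hN j hx

end Chain

section Tor

variable [IsAlgClosed Ω] {p n : ℕ} [Fact p.Prime] [CharP Ω p] {R : Subalgebra k Ω}
  {D : ℕ → Subalgebra k Ω} {Th : ℕ → ℕ → Ω → Ω} {E : IntermediateField k Ω} {m : ℕ}
  {t : Fin m → Ω} {T : Fin m → Polynomial Ω}

/-- **The lift to torsion letters.** -/
theorem tor_lift (hk : Ctx0 k v) (hE : Cld v E) (ht : Itor p v E t) (h : HSn p v n R D Th)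
    (hR : R ≤ E.toSubalgebra) (hT : ∀ i, TJ p v n D Th (t i) (T i)) :
    ∃ Th' : ℕ → ℕ → Ω → Ω, HSn p v n (adW R t) (fun N => adW (D N) t) Th' ∧
      (∀ N, n ≤ N → ∀ j < p ^ N, ∀ x ∈ R, Th' N j x = Th N j x) ∧
      (∀ N, n ≤ N → ∀ j < p ^ N, ∀ i, Th' N j (t i) = (jT p n (T i) N).coeff j) ∧
      ∀ B : Subalgebra k Ω, (∀ N, n ≤ N → ∀ j < p ^ N, ∀ x ∈ R, Th N j x ∈ B) →
        (∀ i l, (T i).coeff l ∈ B) →
        ∀ N, n ≤ N → ∀ j < p ^ N, ∀ x ∈ adW R t, Th' N j x ∈ B := by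
  classical
  set s' : ℕ → Ω := fun i => if hi : i < m then t ⟨i, hi⟩ else 0 with hs'
  set T' : ℕ → Polynomial Ω := fun i => if hi : i < m then T ⟨i, hi⟩ else 0 with hT'
  have es : ∀ i (hi : i < m), s' i = t ⟨i, hi⟩ := fun i hi => dif_pos hi
  have eT : ∀ i (hi : i < m), T' i = T ⟨i, hi⟩ := fun i hi => dif_pos hi
  set S : ℕ → Finset (Fin m) := fun i => Finset.univ.filter fun l : Fin m => (l : ℕ) < i with hS
  have hSmem : ∀ i l, l ∈ S i ↔ (l : ℕ) < i := fun i l => by simp [hS]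
  have hsub : ∀ i, ((S i : Finset (Fin m)) : Set (Fin m)) ⊆ S (i + 1) := fun i l hl => by
    rw [Finset.mem_coe, hSmem] at hl ⊢
    omega
  obtain ⟨Th', h', hbase, hself, hstab⟩ := h.chainT hk (A := fun i => cadS v E t (S i)) (s := s')
    (T := T') m (hR.trans (le_cadS (v := v) (A := E)))
    (fun i _ => cadS_mono (hsub i))
    (fun i hi => by
      rw [es i hi]
      exact mem_cadS (Finset.mem_coe.2 ((hSmem _ _).2 (Nat.lt_succ_self i))))
    (fun i hi => by
      rw [es i hi]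
      exact (tor_span hk hE ht (S i)).2 _ fun hmem => lt_irrefl i ((hSmem _ _).1 hmem))
    (fun i hi => by
      rw [eT i hi, es i hi]
      exact hT _)
  have e1 : ∀ R' : Subalgebra k Ω, adN R' s' m = adW R' t := fun R' =>
    adN_eq_adW R' t fun i => es i i.2
  have e2 : (fun N => adN (D N) s' m) = fun N => adW (D N) t := funext fun N => e1 (D N)
  rw [e1, e2] at h'
  refine ⟨Th', h', hbase, fun N hN j hj i => ?_, fun B hB hTB N hN j hj x hx => ?_⟩
  · have h1 := hself N hN j hj i i.2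
    rw [es i i.2, eT i i.2] at h1
    exact h1
  · rw [← e1] at hx
    refine hstab B hB (fun i hi l => ?_) N hN j hj x hx
    rw [eT i hi]
    exact hTB _ l

/-- **Constant torsion letters.** -/
theorem tor_lift_const (hk : Ctx0 k v) (hE : Cld v E) (ht : Itor p v E t)
    (h : HSn p v n R D Th) (hR : R ≤ E.toSubalgebra) (hm : ∀ i, t i ^ p - t i ∈ D n)
    (h0 : ∀ i, ∀ l < p ^ n, 0 < l → Th n l (t i ^ p - t i) = 0)
    (hg : ∀ i, ∀ ε : ℝ, 0 < ε → ∃ N, n ≤ N ∧ ∃ σ ∈ D N, v.Ge (-ε) (t i - σ) ∧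
      ∀ j < p ^ N, 0 < j → v.Ge (-ε) (Th N j σ)) :
    ∃ Th' : ℕ → ℕ → Ω → Ω, HSn p v n (adW R t) (fun N => adW (D N) t) Th' ∧
      (∀ N, n ≤ N → ∀ j < p ^ N, ∀ x ∈ R, Th' N j x = Th N j x) ∧
      (∀ N, n ≤ N → ∀ j < p ^ N, 0 < j → ∀ i, Th' N j (t i) = 0) ∧
      ∀ B : Subalgebra k Ω, (∀ N, n ≤ N → ∀ j < p ^ N, ∀ x ∈ R, Th N j x ∈ B) →
        (∀ i, t i ∈ B) → ∀ N, n ≤ N → ∀ j < p ^ N, ∀ x ∈ adW R t, Th' N j x ∈ B := by
  obtain ⟨Th', h', hbase, hself, hstab⟩ := tor_lift (T := fun i => C (t i)) hk hE ht h hR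
    fun i => TJ.of_const h (hm i) (h0 i) (hg i)
  refine ⟨Th', h', hbase, fun N hN j hj h1 i => ?_, fun B hB hTB N hN j hj x hx => ?_⟩
  · rw [hself N hN j hj i, jT, expand_C, coeff_C, if_neg (by omega)]
  · refine hstab B hB (fun i l => ?_) N hN j hj x hx
    rw [coeff_C]
    split_ifs
    exacts [hTB i, zero_mem _]

end Tor

end Pool.Agent.TWIV
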