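import Pool.Agent.Lib.TWIV.FV2L
import Pool.Agent.Lib.TWIV.FLc
import Pool.Agent.Lib.TWIV.TorM

/-!
# TANK W: the lift of the operators from an exact system

* `ExS`: an exact system of depth `D`: a ring `T` with higher derivations and a module `L₀` of
  exact letters which contains the `p ^ D`-th root of `y`;
* `Cst`: the constants;
* `rtS`: the elements whose `p ^ m`-th root is in a given submodule;
* `GenA`: the algebra generated by the operators `Th N j` on `E`; `ExS.gen`: their lifts;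
* `ExS.lft`: the record `Lft`; `lft_of_sys`: the hypothesis `lft` of `FV2L`.
-/

set_option autoImplicit false
set_option linter.unusedSectionVars false

open Polynomial

namespace Pool.Agent.TWIV

open Pool.Agent.H15JM (RVal)
open Pool.Agent.D2 (Ctx0)
open Pool.Agent.TWM Pool.Agent.TWC

universe u

variable {k Ω : Type u} [Field k] [Field Ω] [Algebra k Ω] {v : RVal Ω}
  {E W : IntermediateField k Ω} {y : Ω} {𝒜 : Submodule k (Module.End k Ω)}

/-- An exact system of depth `D`. -/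
structure ExS (p : ℕ) (v : RVal Ω) (E W : IntermediateField k Ω) (y : Ω) (D N₁ : ℕ)
    (Th : ℕ → ℕ → Ω → Ω) (T : Subalgebra k Ω) (DD : ℕ → Subalgebra k Ω) (L₀ : Submodule k Ω)
    (Th' : ℕ → ℕ → Ω → Ω) : Prop where
  hs : HSn p v N₁ T DD Th'
  ET : ∀ x ∈ E, x ∈ T
  eqE : ∀ N, N₁ ≤ N → ∀ j < p ^ N, ∀ x ∈ E, Th' N j x = Th N j x
  TT : ∀ N, N₁ ≤ N → ∀ j < p ^ N, ∀ x ∈ T, Th' N j x ∈ T
  LL : ∀ N, N₁ ≤ N → ∀ j < p ^ N, ∀ x ∈ L₀, Th' N j x ∈ L₀
  EL : ∀ x ∈ E, x ∈ L₀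
  LT : ∀ x ∈ L₀, x ∈ T
  frL : ∀ x ∈ L₀, x ^ p ∈ L₀
  lim : ∀ x ∈ L₀, Lim v E 0 x
  free : ∀ x ∈ L₀, v.Ge 0 x → x ∈ E
  y0 : ∃ y₀ ∈ L₀, y₀ ^ p ^ D = y
  yc : ∀ N, N₁ ≤ N → ∀ j < p ^ N, 0 < j → Th' N j y = 0
  Wc : ∀ w ∈ W, w ∈ E ∧ ∀ N, N₁ ≤ N → ∀ j < p ^ N, 0 < j → Th' N j w = 0

/-- The elements whose `p ^ m`-th root is in `S`. -/
def rtS (p : ℕ) [Fact p.Prime] [CharP Ω p] [CharP k p] [PerfectRing k p] (S : Submodule k Ω)
    (m : ℕ) : Submodule k Ω where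
  carrier := {x | ∃ w ∈ S, w ^ p ^ m = x}
  add_mem' := by
    rintro _ _ ⟨w, hw, rfl⟩ ⟨w', hw', rfl⟩
    exact ⟨w + w', add_mem hw hw', add_pow_char_pow w w' p m⟩
  zero_mem' := ⟨0, zero_mem S, zero_pow (pow_ne_zero _ (Fact.out : p.Prime).ne_zero)⟩
  smul_mem' := by
    rintro c _ ⟨w, hw, rfl⟩
    obtain ⟨d, hd⟩ := (iterateFrobeniusEquiv k p m).surjective c
    refine ⟨d • w, S.smul_mem d hw, ?_⟩
    rw [Algebra.smul_def, Algebra.smul_def, mul_pow, ← map_pow, ← hd]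
    rfl

theorem mem_rtS {p : ℕ} [Fact p.Prime] [CharP Ω p] [CharP k p] [PerfectRing k p]
    {S : Submodule k Ω} {m : ℕ} {x : Ω} : x ∈ rtS p S m ↔ ∃ w ∈ S, w ^ p ^ m = x := Iff.rfl

section Cst

variable {p n : ℕ} [Fact p.Prime] {R : Subalgebra k Ω} {DD : ℕ → Subalgebra k Ω}
  {Th : ℕ → ℕ → Ω → Ω}

/-- The constants. -/
def Cst (p n : ℕ) (R : Subalgebra k Ω) (Th : ℕ → ℕ → Ω → Ω) (x : Ω) : Prop :=
  x ∈ R ∧ ∀ N, n ≤ N → ∀ j < p ^ N, 0 < j → Th N j x = 0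

theorem Cst.add (h : HSn p v n R DD Th) {x x' : Ω} (hx : Cst p n R Th x)
    (hx' : Cst p n R Th x') : Cst p n R Th (x + x') :=
  ⟨add_mem hx.1 hx'.1, fun N hN j hj h0 => by
    rw [h.add N hN j hj x hx.1 x' hx'.1, hx.2 N hN j hj h0, hx'.2 N hN j hj h0, add_zero]⟩

theorem Cst.mul (h : HSn p v n R DD Th) {x x' : Ω} (hx : Cst p n R Th x)
    (hx' : Cst p n R Th x') : Cst p n R Th (x * x') :=
  ⟨mul_mem hx.1 hx'.1, fun N hN j hj h0 => by
    rw [h.const_mul hx.1 hx.2 hN hj hx'.1, hx'.2 N hN j hj h0, mul_zero]⟩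

theorem Cst.one (h : HSn p v n R DD Th) : Cst p n R Th 1 :=
  ⟨one_mem R, fun N hN j hj h0 => by
    have h1 := h.alg N hN j hj h0 1
    rwa [map_one] at h1⟩

theorem Cst.zero (h : HSn p v n R DD Th) : Cst p n R Th 0 :=
  ⟨zero_mem R, fun N hN j hj h0 => by
    have h1 := h.alg N hN j hj h0 0
    rwa [map_zero] at h1⟩

theorem Cst.pow (h : HSn p v n R DD Th) {x : Ω} (hx : Cst p n R Th x) (m : ℕ) :
    Cst p n R Th (x ^ m) := by
  induction m with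
  | zero => rw [pow_zero]; exact Cst.one h
  | succ m ih => rw [pow_succ]; exact ih.mul h hx

theorem Cst.eval (h : HSn p v n R DD Th) {f : Polynomial Ω} (hf : ∀ i, Cst p n R Th (f.coeff i))
    {x : Ω} (hx : Cst p n R Th x) : Cst p n R Th (f.eval x) := by
  classical
  rw [eval_eq_sum_range]
  have h1 : ∀ U : Finset ℕ, Cst p n R Th (∑ i ∈ U, f.coeff i * x ^ i) := by
    intro U
    induction U using Finset.induction_on with
    | empty => rw [Finset.sum_empty]; exact Cst.zero h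
    | insert a U ha ih =>
      rw [Finset.sum_insert ha]
      exact Cst.add h ((hf a).mul h (hx.pow h a)) ih
  exact h1 _

end Cst

section Lft

variable {p : ℕ} [Fact p.Prime] [CharP Ω p] [CharP k p] [PerfectRing k p]
  {D N₁ : ℕ} {Th Th' : ℕ → ℕ → Ω → Ω} {T : Subalgebra k Ω} {DD : ℕ → Subalgebra k Ω}
  {L₀ : Submodule k Ω}

omit [CharP Ω p] [CharP k p] [PerfectRing k p] [Fact p.Prime] in
/-- Iterated roots in `E`. -/
theorem perf_iter (hE : ∀ a ∈ E, ∃ b ∈ E, b ^ p = a) (m : ℕ) {a : Ω} (ha : a ∈ E) :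
    ∃ b ∈ E, b ^ p ^ m = a := by
  induction m generalizing a with
  | zero => exact ⟨a, ha, by rw [pow_zero, pow_one]⟩
  | succ m ih =>
    obtain ⟨b, hb, rfl⟩ := hE a ha
    obtain ⟨c, hc, rfl⟩ := ih hb
    exact ⟨c, hc, by rw [pow_succ, pow_mul]⟩

omit [CharP k p] [PerfectRing k p] in
/-- Stability of the roots. -/
theorem ExS.rt_stab [CharP k p] [PerfectRing k p] (X : ExS p v E W y D N₁ Th T DD L₀ Th')
    {S : Submodule k Ω} (hST : ∀ x ∈ S, x ∈ T)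
    (hS : ∀ N, N₁ ≤ N → ∀ j < p ^ N, ∀ x ∈ S, Th' N j x ∈ S) {N : ℕ} (hN : N₁ ≤ N) {j : ℕ}
    (hj : j < p ^ N) (m : ℕ) {x : Ω} (hx : x ∈ rtS p S m) : Th' N j x ∈ rtS p S m := by
  obtain ⟨w, hw, rfl⟩ := hx
  refine ⟨Th' (N + m) j w, hS _ (by omega) j (hj.trans_le
    (Nat.pow_le_pow_right (Fact.out : p.Prime).pos (by omega))) w hw, ?_⟩
  rw [X.hs.frob' hN hj (hST w hw) m]

/-- The algebra generated by the operators `Th N j`, `N ≥ n`, on `E`. -/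
inductive GenA (p : ℕ) (E : IntermediateField k Ω) (Th : ℕ → ℕ → Ω → Ω) (n : ℕ) :
    (Ω → Ω) → Prop
  | th (N j : ℕ) (f : Ω → Ω) : n ≤ N → j < p ^ N → (∀ x ∈ E, f x = Th N j x) → GenA p E Th n f
  | add (f g h : Ω → Ω) : GenA p E Th n f → GenA p E Th n g → (∀ x ∈ E, h x = f x + g x) →
      GenA p E Th n h
  | smul (c : k) (f h : Ω → Ω) : GenA p E Th n f → (∀ x ∈ E, h x = algebraMap k Ω c * f x) →
      GenA p E Th n h
  | comp (f g h : Ω → Ω) : GenA p E Th n f → GenA p E Th n g → (∀ x ∈ E, h x = f (g x)) →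
      GenA p E Th n h

/-- **The lift of an operator of the algebra.** -/
theorem ExS.gen (hk : Ctx0 k v) (X : ExS p v E W y D N₁ Th T DD L₀ Th')
    (hThE : ∀ N, N₁ ≤ N → ∀ j < p ^ N, ∀ x ∈ E, Th N j x ∈ E) {f : Ω → Ω}
    (hf : GenA p E Th N₁ f) : (∀ x ∈ E, f x ∈ E) ∧ ∃ Φ : Ω → Ω,
      (∀ x ∈ T, ∀ x' ∈ T, Φ (x + x') = Φ x + Φ x') ∧
      (∀ x ∈ T, ∀ b : ℝ, v.Ge b x → v.Ge b (Φ x)) ∧ (∀ x ∈ E, Φ x = f x) ∧
      (∀ c, Cst p N₁ T Th' c → ∀ x ∈ T, Φ (c * x) = c * Φ x) ∧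
      ∀ (S : Submodule k Ω), (∀ x ∈ S, x ∈ T) →
        (∀ N, N₁ ≤ N → ∀ j < p ^ N, ∀ x ∈ S, Th' N j x ∈ S) → ∀ m, ∀ x ∈ rtS p S m,
        Φ x ∈ rtS p S m := by
  have hTT : ∀ Φ : Ω → Ω, (∀ (S : Submodule k Ω), (∀ x ∈ S, x ∈ T) →
      (∀ N, N₁ ≤ N → ∀ j < p ^ N, ∀ x ∈ S, Th' N j x ∈ S) → ∀ m, ∀ x ∈ rtS p S m,
      Φ x ∈ rtS p S m) → ∀ x ∈ T, Φ x ∈ T := by
    intro Φ hΦ x hx
    obtain ⟨w, hw, h1⟩ := hΦ (Subalgebra.toSubmodule T)
      (fun x hx => (Subalgebra.mem_toSubmodule T).1 hx)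
      (fun N hN j hj x hx => (Subalgebra.mem_toSubmodule T).2
        (X.TT N hN j hj x ((Subalgebra.mem_toSubmodule T).1 hx))) 0 x
      ⟨x, (Subalgebra.mem_toSubmodule T).2 hx, by rw [pow_zero, pow_one]⟩
    rw [pow_zero, pow_one] at h1
    rw [← h1]
    exact (Subalgebra.mem_toSubmodule T).1 hw
  induction hf with
  | th N j f hN hj h =>
    refine ⟨fun x hx => by rw [h x hx]; exact hThE N hN j hj x hx, Th' N j, ?_, ?_, ?_, ?_, ?_⟩
    · exact fun x hx x' hx' => X.hs.add _ hN j hj x hx x' hx'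
    · exact fun x hx b hb => X.hs.ge _ hN j hj x hx b hb
    · exact fun x hx => by rw [h x hx, X.eqE N hN j hj x hx]
    · exact fun c hc x hx => X.hs.const_mul hc.1 hc.2 hN hj hx
    · exact fun S hST hS m x hx => X.rt_stab hST hS hN hj m hx
  | add f g h _ _ hh ihf ihg =>
    obtain ⟨hfE, Φ, a1, a2, a3, a4, a5⟩ := ihf
    obtain ⟨hgE, Ψ, b1, b2, b3, b4, b5⟩ := ihg
    refine ⟨fun x hx => by rw [hh x hx]; exact add_mem (hfE x hx) (hgE x hx),
      fun x => Φ x + Ψ x, ?_, ?_, ?_, ?_, ?_⟩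
    · intro x hx x' hx'
      change Φ (x + x') + Ψ (x + x') = Φ x + Ψ x + (Φ x' + Ψ x')
      rw [a1 x hx x' hx', b1 x hx x' hx']
      ring
    · exact fun x hx b hb => (a2 x hx b hb).add (b2 x hx b hb)
    · exact fun x hx => by
        change Φ x + Ψ x = h x
        rw [a3 x hx, b3 x hx, hh x hx]
    · intro c hc x hx
      change Φ (c * x) + Ψ (c * x) = c * (Φ x + Ψ x)
      rw [a4 c hc x hx, b4 c hc x hx]
      ring
    · exact fun S hST hS m x hx => add_mem (a5 S hST hS m x hx) (b5 S hST hS m x hx)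
  | smul c f h _ hh ihf =>
    obtain ⟨hfE, Φ, a1, a2, a3, a4, a5⟩ := ihf
    refine ⟨fun x hx => by
        rw [hh x hx]
        exact mul_mem (E.algebraMap_mem c) (hfE x hx),
      fun x => algebraMap k Ω c * Φ x, ?_, ?_, ?_, ?_, ?_⟩
    · intro x hx x' hx'
      change algebraMap k Ω c * Φ (x + x') = algebraMap k Ω c * Φ x + algebraMap k Ω c * Φ x'
      rw [a1 x hx x' hx']
      ring
    · intro x hx b hb
      have := (hk.ge c).mul (a2 x hx b hb)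
      rwa [zero_add] at this
    · exact fun x hx => by
        change algebraMap k Ω c * Φ x = h x
        rw [a3 x hx, hh x hx]
    · intro d hd x hx
      change algebraMap k Ω c * Φ (d * x) = d * (algebraMap k Ω c * Φ x)
      rw [a4 d hd x hx]
      ring
    · intro S hST hS m x hx
      change algebraMap k Ω c * Φ x ∈ rtS p S m
      rw [← Algebra.smul_def]
      exact Submodule.smul_mem _ _ (a5 S hST hS m x hx)
  | comp f g h _ _ hh ihf ihg =>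
    obtain ⟨hfE, Φ, a1, a2, a3, a4, a5⟩ := ihf
    obtain ⟨hgE, Ψ, b1, b2, b3, b4, b5⟩ := ihg
    have hΨT := hTT Ψ b5
    refine ⟨fun x hx => by rw [hh x hx]; exact hfE _ (hgE x hx), fun x => Φ (Ψ x),
      ?_, ?_, ?_, ?_, ?_⟩
    · intro x hx x' hx'
      change Φ (Ψ (x + x')) = Φ (Ψ x) + Φ (Ψ x')
      rw [b1 x hx x' hx', a1 _ (hΨT x hx) _ (hΨT x' hx')]
    · exact fun x hx b hb => a2 _ (hΨT x hx) b (b2 x hx b hb)
    · exact fun x hx => by
        change Φ (Ψ x) = h x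
        rw [b3 x hx, a3 _ (hgE x hx), hh x hx]
    · intro c hc x hx
      change Φ (Ψ (c * x)) = c * Φ (Ψ x)
      rw [b4 c hc x hx, a4 c hc _ (hΨT x hx)]
    · exact fun S hST hS m x hx => a5 S hST hS m _ (b5 S hST hS m x hx)

/-- **The record `Lft` of an exact system.** -/
theorem ExS.lft (hk : Ctx0 k v) (X : ExS p v E W y D N₁ Th T DD L₀ Th')
    (hE : ∀ a ∈ E, ∃ b ∈ E, b ^ p = a)
    (hThE : ∀ N, N₁ ≤ N → ∀ j < p ^ N, ∀ x ∈ E, Th N j x ∈ E)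
    (hrep : ∀ φ ∈ 𝒜, GenA p E Th N₁ φ) :
    ∃ Φ, Lft p v E W y 𝒜 D T (fun i => rtS p (Subalgebra.toSubmodule T) (D - i))
      (fun i => rtS p L₀ (D - i)) Φ := by
  classical
  have hp : p.Prime := Fact.out
  choose! Φ hΦa hΦb hΦc hΦd hΦe using fun (φ : Module.End k Ω) (hφ : φ ∈ 𝒜) =>
    (X.gen hk hThE (hrep φ hφ)).2
  have hyc : Cst p N₁ T Th' y := by
    obtain ⟨y₀, hy₀, rfl⟩ := X.y0
    exact ⟨pow_mem (X.LT _ hy₀) _, X.yc⟩
  have hWT : ∀ w ∈ W, Cst p N₁ T Th' w := fun w hw => ⟨X.ET _ (X.Wc w hw).1, (X.Wc w hw).2⟩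
  have hmono : ∀ (S : Submodule k Ω), (∀ x ∈ S, x ^ p ∈ S) → ∀ m,
      rtS p S (m + 1) ≤ rtS p S m := by
    rintro S hS m _ ⟨w, hw, rfl⟩
    exact ⟨w ^ p, hS w hw, by rw [← pow_mul, ← pow_succ']⟩
  have hST : ∀ m, ∀ x ∈ rtS p (Subalgebra.toSubmodule T) m, x ∈ T := by
    rintro m _ ⟨w, hw, rfl⟩
    exact pow_mem ((Subalgebra.mem_toSubmodule T).1 hw) _
  have hrt : ∀ (S : Submodule k Ω), ∀ i < D, ∀ x ∈ rtS p S (D - i),
      ∃ w ∈ rtS p S (D - (i + 1)), w ^ p = x := by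
    rintro S i hi _ ⟨w, hw, rfl⟩
    refine ⟨w ^ p ^ (D - (i + 1)), ⟨w, hw, rfl⟩, ?_⟩
    rw [← pow_mul, ← pow_succ, show D - (i + 1) + 1 = D - i by omega]
  have hTfr : ∀ x ∈ Subalgebra.toSubmodule T, x ^ p ∈ Subalgebra.toSubmodule T := fun x hx =>
    (Subalgebra.mem_toSubmodule T).2 (pow_mem ((Subalgebra.mem_toSubmodule T).1 hx) p)
  have hss : ∀ (S : Submodule k Ω), (∀ x ∈ S, x ^ p ∈ S) → ∀ i,
      rtS p S (D - i) ≤ rtS p S (D - (i + 1)) := by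
    intro S hS i
    rcases Nat.lt_or_ge i D with hi | hi
    · have h2 := hmono S hS (D - (i + 1))
      rwa [show D - (i + 1) + 1 = D - i by omega] at h2
    · rw [show D - i = 0 by omega, show D - (i + 1) = 0 by omega]
  refine ⟨Φ, ?_⟩
  exact
    { add := hΦa
      ge := hΦb
      eqE := fun φ hφ x hx => hΦc φ hφ x hx
      cst := fun φ hφ f hf x hx =>
        hΦd φ hφ _ (Cst.eval X.hs (fun i => hWT _ (hf i)) hyc) x hx
      Ey := fun f hf => by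
        obtain ⟨y₀, hy₀, hy₁⟩ := X.y0
        rw [eval_eq_sum_range]
        refine sum_mem fun i _ => ?_
        obtain ⟨b, hb, hb1⟩ := perf_iter hE D (hf i)
        refine ⟨b * y₀ ^ i, (Subalgebra.mem_toSubmodule T).2
          (mul_mem (X.ET b hb) (pow_mem (X.LT _ hy₀) i)), ?_⟩
        rw [Nat.sub_zero, mul_pow, hb1, ← hy₁, ← pow_mul, ← pow_mul, mul_comm i]
      ST := fun i x hx => hST _ x hx
      SS := fun i => hss _ hTfr i
      ΦS := fun φ hφ i x hx => hΦe φ hφ _ (fun x hx => (Subalgebra.mem_toSubmodule T).1 hx)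
        (fun N hN j hj x hx => (Subalgebra.mem_toSubmodule T).2
          (X.TT N hN j hj x ((Subalgebra.mem_toSubmodule T).1 hx))) _ x hx
      rt := fun i hi x hx => hrt _ i hi x hx
      fr := fun i x hx => by
        obtain ⟨w, hw, rfl⟩ := hx
        exact ⟨w ^ p, hTfr w hw, by rw [← pow_mul, ← pow_mul, mul_comm]⟩
      mulE := fun i a ha x hx => by
        obtain ⟨w, hw, rfl⟩ := hx
        obtain ⟨b, hb, rfl⟩ := perf_iter hE (D - i) ha
        exact ⟨b * w, (Subalgebra.mem_toSubmodule T).2 (mul_mem (X.ET b hb)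
          ((Subalgebra.mem_toSubmodule T).1 hw)), mul_pow _ _ _⟩
      EL := fun i x hx => by
        obtain ⟨b, hb, rfl⟩ := perf_iter hE (D - i) hx
        exact ⟨b, X.EL b hb, rfl⟩
      yL := fun i => by
        obtain ⟨y₀, hy₀, hy₁⟩ := X.y0
        have h2 : ∀ m, y₀ ^ p ^ m ∈ L₀ := fun m => by
          induction m with
          | zero => rwa [pow_zero, pow_one]
          | succ m ih =>
            rw [pow_succ, pow_mul]
            exact X.frL _ ih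
        refine ⟨y₀ ^ p ^ (D - (D - i)), h2 _, ?_⟩
        rw [← pow_mul, ← pow_add, show D - (D - i) + (D - i) = D by omega, hy₁]
      LS := fun i x hx => by
        obtain ⟨w, hw, rfl⟩ := hx
        exact ⟨w, (Subalgebra.mem_toSubmodule T).2 (X.LT w hw), rfl⟩
      ΦL := fun φ hφ i x hx => hΦe φ hφ _ X.LT X.LL _ x hx
      Lrt := fun i hi x hx => hrt _ i hi x hx
      Llim := fun i x hx => by
        obtain ⟨w, hw, rfl⟩ := hx
        have h2 := X.lim w hw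
        intro ε hε
        have hq : (0 : ℝ) < ((p ^ (D - i) : ℕ) : ℝ) := by
          exact_mod_cast pow_pos hp.pos _
        obtain ⟨a, ha, h3⟩ := h2 (ε / ((p ^ (D - i) : ℕ) : ℝ)) (div_pos hε hq)
        refine ⟨a ^ p ^ (D - i), pow_mem ha _, ?_⟩
        rw [← sub_pow_char_pow]
        refine (ge_pow h3 _).mono (le_of_eq ?_)
        field_simp
        ring
      Lfree := fun i x hx h0 => by
        obtain ⟨w, hw, rfl⟩ := hx
        refine pow_mem (X.free w hw ?_) _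
        have h2 : Nul v fun _ : ℕ => w :=
          Nul.of_pow (q := p ^ (D - i)) (pow_ne_zero _ hp.ne_zero) (Nul.const_iff.2 h0)
        exact Nul.const h2 }

/-- The power of an operator. -/
theorem op_powD (v : RVal Ω) (D : ℕ) (P : k[X]) (x : Ω) :
    op p (tw p (X ^ D) P) x = op p P x ^ p ^ D := by
  rw [op_tw v]
  have h1 := op_mono (p := p) (1 : k) D (op p P x)
  rwa [map_one, one_mul, map_one, one_mul] at h1

/-- **The hypothesis `lft` of `FV2L`** from exact systems of every depth. -/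
theorem lft_of_sys [IsAlgClosed k] [IsAlgClosed Ω] (hk : Ctx0 k v) (hcl : Cld v E)
    (hE : ∀ a ∈ E, ∃ b ∈ E, b ^ p = a) (hy : TL v E y 0)
    (hThE : ∀ N, ∀ j < p ^ N, ∀ x ∈ E, Th N j x ∈ E)
    (hrep : ∀ φ ∈ 𝒜, ∀ n, GenA p E Th n φ)
    (hsys : ∀ D : ℕ, ∃ (N₁ : ℕ) (T : Subalgebra k Ω) (DD : ℕ → Subalgebra k Ω)
      (L₀ : Submodule k Ω) (Th' : ℕ → ℕ → Ω → Ω) (m r : ℕ) (s : Fin m → Ω) (t : Fin r → Ω) (e : Ω)
      (P : Fin m → k[X]), ExS p v E W y D N₁ Th T DD L₀ Th' ∧ FreT p v E s t ∧ e ∈ E ∧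
      (e + ∑ i, op p (P i) (s i)) ^ p ^ D = y ∧
      ∀ x ∈ T, x ∈ cadS v (cadS v E s Set.univ) t Set.univ) :
    ∀ D, ∃ T S L Φ, Lft p v E W y 𝒜 D T S L Φ ∧ ∀ r ∈ T, Lim v (cadj v E y) 0 r →
      ∃ b ∈ cadj v E y, ∃ a, Lim v E 0 a ∧ v.Ge 0 (r - b - a) := by
  intro D
  obtain ⟨N₁, T, DD, L₀, Th', m, r, s, t, e, P, X, hF, he, hyP, hT⟩ := hsys D
  obtain ⟨Φ, hΦ⟩ := X.lft (𝒜 := 𝒜) hk hE (fun N _ => hThE N) fun φ hφ => hrep φ hφ N₁
  refine ⟨T, _, _, Φ, hΦ, fun r hr hl => ?_⟩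
  have hyE : y ∉ E := fun h =>
    (hy.far y (isAlgebraic_algebraMap (R := E) (⟨y, h⟩ : E))).1 rfl
  refine rad_tor hk hcl hE hF (e := e ^ p ^ D) (Q := fun i => tw p (Polynomial.X ^ D) (P i))
    (pow_mem he _) ?_ hyE (hT r hr) hl
  rw [← hyP, add_pow_char_pow, sum_pow_char_pow]
  congr 1
  exact Finset.sum_congr rfl fun i _ => (op_powD v D (P i) (s i)).symm

end Lft

end Pool.Agent.TWIV
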