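import Pool.Agent.Lib.TWIV.FLh
import Pool.Agent.Lib.TWIV.FLu
import Pool.Agent.Lib.TWIV.L0T
import Pool.Agent.Lib.TWIV.TorY
import Pool.Agent.Lib.TWIV.FV2S

/-!
# TANK W, leaf (Ht): the exact systems

`exS_exists`: from a basis `s`, `t` of the module of the words of depth `n` in the root `z` of the
letter, the exact system of depth `n`.
-/

set_option autoImplicit false
set_option linter.unusedSectionVars false

open Polynomial

namespace Pool.Agent.TWIV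

open Pool.Agent.H15JM (RVal)
open Pool.Agent.LU1 (VPos adj)
open Pool.Agent.D2 (Ctx0)
open Pool.Agent.TWM Pool.Agent.TWC

universe u

variable {k Ω : Type u} [Field k] [Field Ω] [Algebra k Ω] {v : RVal Ω} {p n : ℕ}
  {E W : IntermediateField k Ω}

section

variable [Fact p.Prime] [CharP k p] [CharP Ω p] {m r : ℕ} {s s' : Fin m → Ω} {t : Fin r → Ω}

theorem FreT.congr_s (hk : Ctx0 k v) (h : FreT p v E s t) (hs : ∀ i, v.Ge 0 (s' i - s i)) :
    FreT p v E s' t where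
  sl := fun i => lm_congr0 (h.sl i) (hs i)
  tl := h.tl
  mem := h.mem
  free := by
    intro c d hc
    refine h.free c d ?_
    obtain ⟨e, he, h1⟩ := hc
    refine ⟨e, he, ?_⟩
    have h2 : v.Ge 0 (∑ i, op p (c i) (s' i - s i)) :=
      RVal.Ge.sum _ _ fun i _ => op_ge_zero hk (c i) (hs i)
    have h3 := h1.sub h2
    convert h3 using 1
    simp only [op_sub_right, Finset.sum_sub_distrib]
    ring

theorem ll_of_l0t {x : Ω} (hx : x ∈ L0T p E s t) : LL p E (Sum.elim t s) x := by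
  obtain ⟨e, he, c, a, rfl⟩ := mem_L0T.1 hx
  refine ll_sum.2 ⟨e, he, fun j => C (a j) * X ^ 0, c, ?_⟩
  have h1 : ∀ j, op p (C (a j) * X ^ 0) (t j) = algebraMap k Ω (a j) * t j := fun j => by
    rw [op_mono, pow_zero, pow_one]
  rw [Finset.sum_congr rfl fun j _ => h1 j]
  ring

theorem l0t_of_ll (h : FreT p v E s t) {x : Ω} (hx : LL p E (Sum.elim t s) x) :
    x ∈ L0T p E s t := by
  obtain ⟨e, he, c, d, rfl⟩ := ll_sum.1 hx
  refine add_mem (add_mem (L0T.mem_E he) (sum_mem fun j _ => ?_))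
    (sum_mem fun i _ => L0T.mem_op (d i) i)
  rw [op_eq]
  exact sum_mem fun l _ => L0T.cmul _ (L0T.frobN h (L0T.mem_t j) l)

variable [IsAlgClosed k] [IsAlgClosed Ω] {D : ℕ → Subalgebra k Ω} {Th : ℕ → ℕ → Ω → Ω}

/-- **The exact system of depth `n`.** -/
theorem exS_exists (hk : Ctx0 k v) (hE : Cld v E) (hP : ∀ a ∈ E, ∃ b ∈ E, b ^ p = a)
    (h : HSn p v n E.toSubalgebra D Th)
    (hEs : ∀ N, n ≤ N → ∀ j < p ^ N, ∀ x ∈ E, Th N j x ∈ E)
    (hWD : ∀ w ∈ W, w ∈ D n)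
    (hW0 : ∀ w ∈ W, ∀ N, n ≤ N → ∀ j < p ^ N, 0 < j → Th N j w = 0)
    (hF : FreT p v E s t) (htW : ∀ j, Lim v W 0 (t j)) (htm : ∀ j, t j ^ p - t j ∈ W)
    {T : Fin m → Polynomial Ω} (hT0 : ∀ i, (T i).coeff 0 = s i)
    (hT : ∀ i, ∀ ε : ℝ, 0 < ε → ∃ σ ∈ D n, GeP v (p ^ n) (-ε) (T i - psi (p ^ n) (Th n) σ))
    (hTL : ∀ i, ∀ l < p ^ n, ∃ x ∈ L0T p E s t, v.Ge 0 ((T i).coeff l - x))
    {z e : Ω} (he : e ∈ E) {P : Fin m → k[X]} (hP0 : ∃ i, P i ≠ 0)
    (hz : v.Ge 0 (z - e - ∑ i, op p (P i) (s i)))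
    (hzl : ∀ ε : ℝ, 0 < ε → ∃ σ ∈ D n, v.Ge (-ε) (z - σ)) :
    ∃ (N₁ : ℕ) (T : Subalgebra k Ω) (DD : ℕ → Subalgebra k Ω) (L₀ : Submodule k Ω)
      (Th' : ℕ → ℕ → Ω → Ω) (m r : ℕ) (s : Fin m → Ω) (t : Fin r → Ω) (e : Ω)
      (P : Fin m → k[X]), ExS p v E W (z ^ p ^ n) n N₁ Th T DD L₀ Th' ∧ FreT p v E s t ∧ e ∈ E ∧
      (e + ∑ i, op p (P i) (s i)) ^ p ^ n = z ^ p ^ n ∧
      ∀ x ∈ T, x ∈ cadS v (cadS v E s Set.univ) t Set.univ := by
  have hp := (Fact.out : p.Prime).pos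
  have hDE : ∀ N, n ≤ N → D N ≤ E.toSubalgebra := h.le
  have hWE : ∀ w ∈ W, w ∈ E := fun w hw => hDE n le_rfl (hWD w hw)
  -- the torsion letters
  obtain ⟨Th1, h1, hb1, ht1, hst1⟩ := tor_lift_const hk hE hF.itor h le_rfl
    (fun i => hWD _ (htm i)) (fun i l hl h0 => hW0 _ (htm i) n le_rfl l hl h0)
    (fun i ε hε => by
      obtain ⟨σ, hσ, h2⟩ := htW i ε hε
      rw [zero_sub] at h2
      refine ⟨n, le_rfl, σ, hWD σ hσ, h2, fun j hj h0 => ?_⟩
      rw [hW0 σ hσ n le_rfl j hj h0]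
      exact RVal.Ge.zero)
  set R : Subalgebra k Ω := adW E.toSubalgebra t with hR
  have hER : ∀ x ∈ E, x ∈ R := fun x hx => le_adW _ t hx
  have htR : ∀ j, t j ∈ R := mem_adW _ t
  have hRst : ∀ N, n ≤ N → ∀ j < p ^ N, ∀ x ∈ R, Th1 N j x ∈ R :=
    hst1 R (fun N hN j hj x hx => hER _ (hEs N hN j hj x hx)) htR
  have hRA : R ≤ (cadS v E t Set.univ).toSubalgebra :=
    adW_le (fun x hx => le_cadS hx) fun j => mem_cadS (Set.mem_univ j)
  have hDR : ∀ N, D N ≤ adW (D N) t := fun N => le_adW _ t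
  -- the free letters
  obtain ⟨i₀, hi₀⟩ := hP0
  obtain ⟨s', N1, Th', hN1, hs', h', hbase, hLs, hy, hyc, hst⟩ := exact_lift (p := p) hk cld_cadS hP
    h1 hRA
    (fun x hx b => by
      obtain ⟨N, hN, y, hy, h2⟩ := h.dense x hx b
      exact ⟨N, hN, y, hDR N hy, hDE N hN hy, h2⟩)
    (fun N hN j hj x hx => by
      rw [hb1 N hN j hj x hx]
      exact hEs N hN j hj x hx)
    (fun i => (hF.sl i).mono le_cadS) (hF.fre hk hE) hT0
    (fun i ε hε => by
      obtain ⟨σ, hσ, h2⟩ := hT i ε hε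
      refine ⟨σ, hDR n hσ, h2.congr fun j hj => ?_⟩
      rw [coeff_sub, coeff_sub, coeff_psi, coeff_psi, if_pos hj, if_pos hj,
        hb1 n le_rfl j hj σ (hDE n le_rfl hσ)])
    (fun i l hl => by
      obtain ⟨x, hx, h2⟩ := hTL i l hl
      exact ⟨x, ll_of_l0t hx, h2⟩)
    he hi₀ hz
    (fun ε hε => by
      obtain ⟨σ, hσ, h2⟩ := hzl ε hε
      exact ⟨σ, hDR n hσ, h2⟩)
  have hF' : FreT p v E s' t := hF.congr_s hk hs'
  set T' : Subalgebra k Ω := adW R s' with hT'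
  have hRT : R ≤ T' := le_adW _ _
  have hET : ∀ x ∈ E, x ∈ T' := fun x hx => hRT (hER x hx)
  have htT : ∀ j, t j ∈ T' := fun j => hRT (htR j)
  have hsT : ∀ i, s' i ∈ T' := mem_adW _ _
  have hThE : ∀ N, N1 ≤ N → ∀ j < p ^ N, ∀ x ∈ E, Th' N j x = Th N j x := fun N hN j hj x hx => by
    rw [hbase N hN j hj x (hER x hx), hb1 N (hN1.trans hN) j hj x hx]
  have hTht : ∀ N, N1 ≤ N → ∀ j < p ^ N, ∀ i, Th' N j (t i) ∈ L0T p E s' t := by
    intro N hN j hj i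
    rcases Nat.eq_zero_or_pos j with rfl | h0
    · rw [h'.zero N hN _ (htT i)]
      exact L0T.mem_t i
    · rw [hbase N hN j hj _ (htR i), ht1 N (hN1.trans hN) j hj h0 i]
      exact zero_mem _
  have hlow : ∀ x, LL p E (Sum.elim t s') x → x ∈ T' := fun x hx =>
    L0T.le hET hsT htT (l0t_of_ll hF' hx)
  have hLL := L0T_stab hF' h' hET hsT htT
    (fun N hN j hj x hx => by
      rw [hThE N hN j hj x hx]
      exact L0T.mem_E (hEs N (hN1.trans hN) j hj x hx))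
    (fun N hN j hj i => l0t_of_ll hF' (hLs N hN j hj i)) hTht
  have hTT := hst T' (fun N hN j hj x hx => hRT (hRst N hN j hj x hx)) hlow
  obtain ⟨e', he', P', hyP⟩ := hy
  refine ⟨N1, T', fun N => adW (adW (D N) t) s', L0T p E s' t, Th', m, r, s', t, e', P',
    { hs := h'
      ET := hET
      eqE := hThE
      TT := hTT
      LL := hLL
      EL := fun x hx => L0T.mem_E hx
      LT := fun x hx => L0T.le hET hsT htT hx
      frL := fun x hx => L0T.frob hF' hx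
      lim := fun x hx => L0T.lim hk hF' hx
      free := fun x hx h0 => L0T.free hF' hx h0
      y0 := ⟨z, ?_, rfl⟩
      yc := hyc
      Wc := fun w hw => ⟨hWE w hw, fun N hN j hj h0 => by
        rw [hThE N hN j hj w (hWE w hw)]
        exact hW0 w hw N (hN1.trans hN) j hj h0⟩ }, hF', he', ?_, ?_⟩
  · rw [hyP]
    exact add_mem (L0T.mem_E he') (sum_mem fun i _ => L0T.mem_op (P' i) i)
  · rw [← hyP]
  · intro x hx
    have h2 : T' ≤ (cadS v (cadS v E s' Set.univ) t Set.univ).toSubalgebra :=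
      adW_le (adW_le (fun y hy => le_cadS (le_cadS hy)) fun j => mem_cadS (Set.mem_univ j))
        fun i => le_cadS (mem_cadS (Set.mem_univ i))
    exact h2 hx

end

end Pool.Agent.TWIV
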