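import Pool.Agent.Lib.TWIV.SDeg

/-!
# TANK W, leaf (IV), row A5: Taylor homomorphisms

* `exists_taylor`: the Taylor homomorphism `w -> w + a` of the closure of `F(w)`;
* `exists_exth`: a homogeneous isometric homomorphism of `F` extends to the closure of `F(z)`;
* `PrC`, `prc_cadj`: commutation with the projections `pr c`;
* `Tay`, `exists_tay`: the Taylor homomorphism with values in the field, all its properties.
-/

set_option autoImplicit false

open Polynomial

namespace Pool.Agent.TWIV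

open Pool.Agent.H15JM (RVal)
open Pool.Agent.D2 (Ctx0)
open Pool.Agent.D2P (mem_clI)
open Pool.Agent.TWM
open Pool.Agent.TWC (Nul Cau HSI HSX PGe eq_of_ge)
open Pool.Agent.TWS (SphC)

universe u

variable {k H : Type u} [Field k] [Field H] [Algebra k H] {v : RVal H} {p : ℕ} [hp : Fact p.Prime]
  [CharP H p] [PerfectRing H p] {A : Type*} [AddCommGroup A] {pr : A → H →ₗ[k] H}
  [IsAlgClosed H] {E F K : IntermediateField k H} {w y z : H} {α c d γ ζ : A}

/-! ### The Taylor homomorphism -/

/-- The identity, with values in the power series. -/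
noncomputable def idS (F : IntermediateField k H) : F →ₐ[k] PowerSeries H :=
  { (PowerSeries.C (R := H)).comp (algebraMap F H) with
    commutes' := fun a => by
      rw [PowerSeries.algebraMap_apply]
      rfl }

omit [IsAlgClosed H] in
theorem idS_apply (x : F) : idS F x = PowerSeries.C (x : H) := rfl

omit [IsAlgClosed H] in
theorem hsi_idS : HSI v F (idS F) where
  zero x := by
    rw [idS_apply, PowerSeries.coeff_zero_C]
  norm n x b hb := by
    rw [idS_apply, PowerSeries.coeff_C]
    split_ifs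
    · exact hb
    · exact RVal.Ge.zero

omit [IsAlgClosed H] in
theorem pge_X : PGe v 0 (PowerSeries.X : PowerSeries H) := fun n => by
  rw [PowerSeries.coeff_X]
  split_ifs
  · exact fun _ => (v.map_one).ge
  · exact RVal.Ge.zero

omit [IsAlgClosed H] in
theorem pge_C {b : ℝ} {x : H} (hx : v.Ge b x) : PGe v b (PowerSeries.C x) := fun n => by
  rw [PowerSeries.coeff_C]
  split_ifs
  · exact hx
  · exact RVal.Ge.zero

omit [PerfectRing H p] [IsAlgClosed H] in
/-- The series of level `0`. -/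
theorem ser_zero {L : IntermediateField k H} {h : F →ₐ[k] PowerSeries H}
    {B : ℕ → ℕ → L →ₗ[k] H} (hB : HSX p v F L h B) {x : H} (hx : x ∈ F) (hxl : x ∈ TWC.Lvl p F L 0) :
    hB.ser 0 ⟨x, hxl⟩ = h ⟨x, hx⟩ := by
  ext j
  rw [hB.coeff_ser]
  exact hB.ext j _ hx

omit [PerfectRing H p] [IsAlgClosed H] in
theorem mem_lvl_zero {L : IntermediateField k H} (hFL : F ≤ L) {x : H} (hx : x ∈ F) :
    x ∈ TWC.Lvl p F L 0 :=
  TWC.mem_Lvl.2 ⟨by rwa [pow_zero, pow_one], hFL hx⟩

variable (p) in
omit [PerfectRing H p] in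
include p hp in
/-- Extension from values near on `F`. -/
theorem exists_ext0 [Fact (Ctx0 k v)] (hc : CompleteV v) {h : F →ₐ[k] PowerSeries H}
    (hh : HSI v F h) (hw : TL v F w 0) {Y : PowerSeries H} (hY : PowerSeries.constantCoeff Y = w)
    (hyp : ∀ ε : ℝ, 0 < ε → ∃ ψ : F, v.Ge (-ε) (w - ψ) ∧ PGe v (-ε) (Y - h ψ)) :
    ∃ h' : cadj v F w →ₐ[k] PowerSeries H, HSI v (cadj v F w) h' ∧
      (∀ (c : cadj v F w) (hc : (c : H) ∈ F), h' c = h ⟨c, hc⟩) ∧
      ∀ c : cadj v F w, (c : H) = w → h' c = Y := by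
  obtain ⟨B, hB⟩ := TWC.exists_hsx (p := p) hc hh
  have hFP : F ≤ TWC.pcl p F := fun x hx => ⟨0, by rwa [pow_zero, pow_one]⟩
  have hFL : F ≤ D2P.clI v (TWC.pcl p F) := fun x hx => mem_clI.2 fun b => ⟨x, hFP hx, by
    rw [sub_self]
    exact RVal.Ge.zero⟩
  refine hB.extend hc hh hFL (le_algc F) hw hY fun ε hε => ?_
  obtain ⟨ψ, h1, h2⟩ := hyp ε hε
  refine ⟨0, ⟨ψ, mem_lvl_zero hFL ψ.2⟩, h1, ?_⟩
  rw [ser_zero hB ψ.2]
  intro n
  rw [map_sub, PowerSeries.coeff_expand]
  have h3 := h2 n
  rw [map_sub] at h3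
  simp only [pow_zero, one_dvd, if_true, Nat.div_one]
  exact h3

variable (p) in
omit [PerfectRing H p] in
include p hp in
/-- **The Taylor homomorphism.** -/
theorem exists_taylor [Fact (Ctx0 k v)] (hc : CompleteV v) (hw : TL v F w 0) :
    ∃ h : cadj v F w →ₐ[k] PowerSeries H, HSI v (cadj v F w) h ∧
      (∀ c : cadj v F w, (c : H) ∈ F → h c = PowerSeries.C (c : H)) ∧
      ∀ c : cadj v F w, (c : H) = w → h c = PowerSeries.C w + PowerSeries.X := by
  obtain ⟨h, h1, h2, h3⟩ := exists_ext0 p hc (hsi_idS (F := F)) hw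
    (Y := PowerSeries.C w + PowerSeries.X) (by
      rw [map_add, PowerSeries.constantCoeff_C, PowerSeries.constantCoeff_X, add_zero])
    (fun ε hε => by
      obtain ⟨ψ, hψ, h1⟩ := hw.lim ε hε
      rw [zero_sub] at h1
      refine ⟨⟨ψ, hψ⟩, h1, ?_⟩
      have e : PowerSeries.C w + PowerSeries.X - idS F ⟨ψ, hψ⟩ =
          PowerSeries.C (w - ψ) + PowerSeries.X := by
        rw [idS_apply, map_sub]
        ring
      rw [e]
      exact (pge_C h1).add (pge_X.mono (by linarith)))
  exact ⟨h, h1, fun c hc => (h2 c hc).trans (idS_apply _), h3⟩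

/-- **Extension of a homogeneous homomorphism.** -/
theorem exists_exth [Fact (Ctx0 k v)] (hc : CompleteV v) (hs : SphC v) (hg : GrP p v pr)
    (hF : ∀ c, ∀ x ∈ F, pr c x ∈ F) {h : F →ₐ[k] PowerSeries H} (hh : HSI v F h)
    (hd : ∀ (x : F) (c : A), pr c (x : H) = x → SDeg pr α c (h x)) (hz : TL v F z 0)
    (hζ : pr ζ z = z) :
    ∃ h' : cadj v F z →ₐ[k] PowerSeries H, HSI v (cadj v F z) h' ∧
      (∀ (c : cadj v F z) (hc : (c : H) ∈ F), h' c = h ⟨c, hc⟩) ∧
      SDeg pr α ζ (h' ⟨z, self_mem_cadj v F z⟩) := by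
  obtain ⟨g, hgz⟩ := TWC.exists_zeta (E₀ := F) (L := F) hs le_rfl
    (fun n => (PowerSeries.coeff (R := H) n).restrictScalars k ∘ₗ h.toLinearMap)
    (fun n y b hb => hh.norm n y b hb) hz.lim
  set Y : PowerSeries H := PowerSeries.mk fun q => if q = 0 then z else pr (ζ - q • α) (g q)
    with hY
  have hYd : SDeg pr α ζ Y := fun n => by
    rw [hY, PowerSeries.coeff_mk]
    split_ifs with hn
    · rw [hn, zero_smul, sub_zero, hζ]
    · exact hg.idem _ _
  obtain ⟨h', h1, h2, h3⟩ := exists_ext0 p hc hh hz (Y := Y) (by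
      rw [← PowerSeries.coeff_zero_eq_constantCoeff_apply, hY, PowerSeries.coeff_mk, if_pos rfl])
    (fun ε hε => by
      obtain ⟨ψ, hψ, h1⟩ := hz.lim ε hε
      rw [zero_sub] at h1
      have h4 : v.Ge (-ε) (z - pr ζ ψ) := by
        have h5 := hg.ge (-ε) ζ _ h1
        rwa [map_sub, hζ] at h5
      refine ⟨⟨pr ζ ψ, hF ζ ψ hψ⟩, h4, fun q => ?_⟩
      rw [map_sub, hY, PowerSeries.coeff_mk]
      split_ifs with hq
      · rw [hq, hh.zero]
        exact h4
      · have h5 := hd ⟨pr ζ ψ, hF ζ ψ hψ⟩ ζ (hg.idem _ _) q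
        rw [← h5, ← map_sub]
        exact hg.ge _ _ _ (hgz q ε hε ⟨pr ζ ψ, hF ζ ψ hψ⟩ h4))
  exact ⟨h', h1, h2, by rw [h3 _ rfl]; exact hYd⟩

omit [IsAlgClosed H] in
/-- Restriction of the values. -/
theorem exists_restr {h : K →ₐ[k] PowerSeries H} (hK : ∀ x n, PowerSeries.coeff n (h x) ∈ K) :
    ∃ g : K →ₐ[k] PowerSeries K, ∀ x n,
      ((PowerSeries.coeff n (g x) : K) : H) = PowerSeries.coeff n (h x) := by
  let g : K →ₐ[k] PowerSeries K :=
    { toFun := fun x => PowerSeries.mk fun n => ⟨PowerSeries.coeff n (h x), hK x n⟩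
      map_one' := by
        ext n
        rw [PowerSeries.coeff_mk, PowerSeries.coeff_one]
        simp only [map_one, PowerSeries.coeff_one]
        split_ifs
        · rfl
        · rfl
      map_mul' := fun x y => by
        ext n
        rw [PowerSeries.coeff_mk, PowerSeries.coeff_mul]
        push_cast
        simp only [PowerSeries.coeff_mk, map_mul]
        exact PowerSeries.coeff_mul _ _ _
      map_zero' := by
        ext n
        rw [PowerSeries.coeff_mk]
        simp only [map_zero]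
        rfl
      map_add' := fun x y => by
        ext n
        simp only [PowerSeries.coeff_mk, map_add]
        rfl
      commutes' := fun a => by
        ext n
        rw [PowerSeries.coeff_mk]
        simp only [AlgHom.commutes]
        rw [PowerSeries.algebraMap_apply, PowerSeries.algebraMap_apply, PowerSeries.coeff_C,
          PowerSeries.coeff_C]
        split_ifs
        · rfl
        · rfl }
  exact ⟨g, fun x n => by
    change ((PowerSeries.coeff n (PowerSeries.mk fun n =>
      (⟨PowerSeries.coeff n (h x), hK x n⟩ : K)) : K) : H) = _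
    rw [PowerSeries.coeff_mk]⟩

omit [IsAlgClosed H] [PerfectRing H p] in
/-- The coefficients of a `p`-th power. -/
theorem coeff_ps_powK (f : PowerSeries K) (n : ℕ) :
    PowerSeries.coeff n (f ^ p) = if p ∣ n then (PowerSeries.coeff (n / p) f) ^ p else 0 := by
  have _ : CharP K p := (RingHom.charP_iff (algebraMap K H) (algebraMap K H).injective p).2
    inferInstance
  exact TWC.coeff_ps_pow p f n

/-- The coefficients of `(a + X) ^ n`. -/
theorem coeff_add_X_pow {R : Type*} [CommRing R] (a : R) (n J : ℕ) :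
    PowerSeries.coeff J ((PowerSeries.C a + PowerSeries.X) ^ n) =
      (n.choose J : R) * a ^ (n - J) := by
  have e : (PowerSeries.C a + PowerSeries.X : PowerSeries R) ^ n =
      (((Polynomial.X + Polynomial.C a) ^ n : Polynomial R) : PowerSeries R) := by
    rw [Polynomial.coe_pow, Polynomial.coe_add, Polynomial.coe_X, Polynomial.coe_C, add_comm]
  rw [e, Polynomial.coeff_coe, Polynomial.coeff_X_add_C_pow, mul_comm]

/-! ### Commutation with the projections -/

/-- `h` commutes with the projections to the degrees, on the elements of `F`. -/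
def PrC (pr : A → H →ₗ[k] H) (α : A) (F : IntermediateField k H) {K : IntermediateField k H}
    (h : K →ₐ[k] PowerSeries H) : Prop :=
  ∀ (x x' : K) (c : A), (x : H) ∈ F → (x' : H) = pr c (x : H) → ∀ n : ℕ,
    pr (c - n • α) (PowerSeries.coeff n (h x)) = PowerSeries.coeff n (h x')

omit [IsAlgClosed H] in
theorem pr_coeff_mul (hg : GrP p v pr) {f f' g : PowerSeries H}
    (hf : ∀ n : ℕ, pr (c - n • α) (PowerSeries.coeff n f) = PowerSeries.coeff n f')
    (h : SDeg pr α d g) (n : ℕ) :
    pr (c + d - n • α) (PowerSeries.coeff n (f * g)) = PowerSeries.coeff n (f' * g) := by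
  rw [PowerSeries.coeff_mul, PowerSeries.coeff_mul, map_sum]
  refine Finset.sum_congr rfl fun i hi => ?_
  rw [Finset.HasAntidiagonal.mem_antidiagonal] at hi
  rw [hg.mul_right (h i.2), ← hf i.1]
  congr 3
  rw [← hi, add_smul]
  abel

/-- **The extension commutes with the projections.** -/
theorem prc_cadj (hg : GrP p v pr) (hF : ∀ c, ∀ x ∈ F, pr c x ∈ F) (hw : TL v F w 0)
    (hγ : pr γ w = w) {h : cadj v F w →ₐ[k] PowerSeries H} (hh : HSI v (cadj v F w) h)
    (h0 : PrC pr α F h) (h1 : SDeg pr α γ (h ⟨w, self_mem_cadj v F w⟩)) :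
    PrC pr α (cadj v F w) h := by
  classical
  intro x x' c _ hx' n
  refine eq_of_ge (v := v) fun b => ?_
  obtain ⟨f, hf, h2⟩ := hw.dense x.2 b
  have hgr := gr_cadj hg hF hw hγ
  have hfw : f.eval w ∈ cadj v F w :=
    eval_mem (PI_mono (le_cadj v F w) hf) (self_mem_cadj v F w)
  set y : cadj v F w := ⟨f.eval w, hfw⟩ with hy
  set y' : cadj v F w := ⟨pr c (f.eval w), hgr _ _ hfw⟩ with hy'
  have e1 : (y' : H) = ((∑ j ∈ Finset.range (f.natDegree + 1),
      ⟨pr (c - j • γ) (f.coeff j), le_cadj v F w (hF _ _ (hf j))⟩ *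
        ⟨w, self_mem_cadj v F w⟩ ^ j : cadj v F w) : H) := by
    push_cast
    change pr c (f.eval w) = _
    rw [eval_eq_sum_range, map_sum]
    exact Finset.sum_congr rfl fun j _ => hg.mul_right (hg.pow_mem hγ j)
  have e2 : pr (c - n • α) (PowerSeries.coeff n (h y)) = PowerSeries.coeff n (h y') := by
    have h5 := map_evalw (h : cadj v F w →+* PowerSeries H) hf hfw
    simp only [RingHom.coe_coe] at h5
    rw [hy, h5, Subtype.ext e1, map_sum, map_sum, map_sum, map_sum]
    refine Finset.sum_congr rfl fun j _ => ?_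
    have e7 : h (⟨pr (c - j • γ) (f.coeff j), le_cadj v F w (hF _ _ (hf j))⟩ *
        ⟨w, self_mem_cadj v F w⟩ ^ j) =
        h ⟨pr (c - j • γ) (f.coeff j), le_cadj v F w (hF _ _ (hf j))⟩ *
          h ⟨w, self_mem_cadj v F w⟩ ^ j := by
      rw [map_mul, map_pow]
    rw [e7]
    have h6 := pr_coeff_mul (c := c - j • γ) (d := j • γ) hg
      (h0 ⟨f.coeff j, le_cadj v F w (hf j)⟩
        ⟨pr (c - j • γ) (f.coeff j), le_cadj v F w (hF _ _ (hf j))⟩ (c - j • γ) (hf j) rfl)
      (h1.pow hg j) n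
    rwa [sub_add_cancel] at h6
  have e3 : pr (c - n • α) (PowerSeries.coeff n (h x)) - PowerSeries.coeff n (h x') =
      pr (c - n • α) (PowerSeries.coeff n (h (x - y))) - PowerSeries.coeff n (h (x' - y')) := by
    rw [map_sub, map_sub, map_sub, map_sub, map_sub, e2]
    ring
  rw [e3]
  refine (hg.ge _ _ _ (hh.norm n _ b h2)).sub (hh.norm n _ b ?_)
  have e4 : ((x' - y' : cadj v F w) : H) = pr c ((x : H) - f.eval w) := by
    push_cast
    rw [hx', map_sub]
  rw [e4]
  exact hg.ge b c _ h2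

omit [IsAlgClosed H] in
theorem prc_idS {h : K →ₐ[k] PowerSeries H} (h1 : ∀ x : K, (x : H) ∈ F →
    h x = PowerSeries.C (x : H)) (hF : ∀ c, ∀ x ∈ F, pr c x ∈ F) : PrC pr α F h := by
  intro x x' c hx hx' n
  have hx'F : (x' : H) ∈ F := by
    rw [hx']
    exact hF c _ hx
  rw [h1 x hx, h1 x' hx'F, PowerSeries.coeff_C, PowerSeries.coeff_C]
  split_ifs with hn
  · rw [hn, zero_smul, sub_zero, hx']
  · exact map_zero _

omit [IsAlgClosed H] in
/-- The homogeneous elements have homogeneous images. -/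
theorem PrC.sdeg {h : K →ₐ[k] PowerSeries H} (h1 : PrC pr α K h) (x : K) (c : A)
    (hx : pr c (x : H) = x) : SDeg pr α c (h x) := fun n => h1 x x c x.2 hx.symm n

/-! ### Taylor homomorphisms -/

/-- `t : K → K⟦a⟧`, `t w = w + a`, `t = id` on `F`. -/
structure Tay (v : RVal H) (pr : A → H →ₗ[k] H) (K F : IntermediateField k H) (w : H) (γ : A)
    (t : K →ₐ[k] PowerSeries K) : Prop where
  base : ∀ x : K, (x : H) ∈ F → t x = PowerSeries.C x
  gen : ∀ x : K, (x : H) = w → t x = PowerSeries.C x + PowerSeries.X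
  zero : ∀ x, PowerSeries.coeff 0 (t x) = x
  norm : ∀ (n : ℕ) (x : K) (b : ℝ), v.Ge b (x : H) → v.Ge b ((PowerSeries.coeff n (t x) : K) : H)
  prc : ∀ (x x' : K) (c : A), (x' : H) = pr c (x : H) → ∀ n : ℕ,
    pr (c - n • γ) ((PowerSeries.coeff n (t x) : K) : H) = (PowerSeries.coeff n (t x') : K)
  comp : ∀ (x : K) (m n : ℕ), PowerSeries.coeff n (t (PowerSeries.coeff m (t x))) =
    ((n + m).choose m : K) * PowerSeries.coeff (n + m) (t x)

variable (p) in
include p hp in
/-- **Existence of the Taylor homomorphism.** -/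
theorem exists_tay [Fact (Ctx0 k v)] (hc : CompleteV v) (hg : GrP p v pr)
    (hF : ∀ c, ∀ x ∈ F, pr c x ∈ F) (hw : TL v F w 0) (hγ : pr γ w = w) (hK : K = cadj v F w) :
    ∃ t : K →ₐ[k] PowerSeries K, Tay v pr K F w γ t := by
  classical
  subst hK
  obtain ⟨t, t1, t2, t3⟩ := exists_taylor p hc hw
  have tm : ∀ (x : cadj v F w) (n : ℕ), PowerSeries.coeff n (t x) ∈ cadj v F w :=
    val_cadj (cld_cadj v _ w) hw t1 (fun x n hx => by
      rw [t2 x hx, PowerSeries.coeff_C]
      split_ifs
      exacts [x.2, zero_mem _]) (fun n => by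
      rw [t3 _ rfl, map_add, PowerSeries.coeff_C, PowerSeries.coeff_X]
      refine add_mem ?_ ?_
      · split_ifs
        exacts [self_mem_cadj v _ w, zero_mem _]
      · split_ifs
        exacts [one_mem _, zero_mem _])
  have tp : PrC pr γ (cadj v F w) t := prc_cadj hg hF hw hγ t1 (prc_idS t2 hF) (by
    rw [t3 _ rfl]
    exact (SDeg.C hγ).add (SDeg.X hg))
  obtain ⟨s, hs⟩ := exists_restr tm
  have s1 : ∀ x : cadj v F w, (x : H) ∈ F → s x = PowerSeries.C x := by
    intro x hx
    ext n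
    rw [hs, t2 x hx, PowerSeries.coeff_C, PowerSeries.coeff_C]
    split_ifs
    · rfl
    · rfl
  have s2 : ∀ x : cadj v F w, (x : H) = w → s x = PowerSeries.C x + PowerSeries.X := by
    intro x hx
    ext n
    rw [hs, t3 x hx, map_add, map_add, PowerSeries.coeff_C, PowerSeries.coeff_C,
      PowerSeries.coeff_X, PowerSeries.coeff_X]
    push_cast
    split_ifs
    · rw [hx]
      simp
    · rw [hx]
      simp
    · simp
    · simp
  have s3 : ∀ (n : ℕ) (x : cadj v F w) (b : ℝ), v.Ge b (x : H) →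
      v.Ge b ((PowerSeries.coeff n (s x) : cadj v F w) : H) := fun n x b hb => by
    rw [hs]
    exact t1.norm n x b hb
  refine ⟨s, s1, s2, fun x => Subtype.ext ?_, s3, fun x x' c hx n => ?_, fun x m n => ?_⟩
  · rw [hs, t1.zero]
  · rw [hs, hs]
    exact tp x x' c x.2 hx n
  · -- iterativity, by density
    refine Subtype.ext (eq_of_ge (v := v) fun b => ?_)
    obtain ⟨f, hf, h2⟩ := hw.dense x.2 b
    have hfw : f.eval w ∈ cadj v F w :=
      eval_mem (PI_mono (le_cadj v F w) hf) (self_mem_cadj v F w)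
    set y : cadj v F w := ⟨f.eval w, hfw⟩ with hy
    have hmon : ∀ (a : cadj v F w) (ha : (a : H) ∈ F) (j n : ℕ),
        PowerSeries.coeff n (s (a * ⟨w, self_mem_cadj v F w⟩ ^ j)) =
          (j.choose n : cadj v F w) * (a * ⟨w, self_mem_cadj v F w⟩ ^ (j - n)) := by
      intro a ha j n
      rw [map_mul, map_pow, s1 a ha, s2 _ rfl, PowerSeries.coeff_C_mul, coeff_add_X_pow]
      ring
    have hy1 : y = ∑ j ∈ Finset.range (f.natDegree + 1),
        (⟨f.coeff j, le_cadj v F w (hf j)⟩ : cadj v F w) * ⟨w, self_mem_cadj v F w⟩ ^ j := by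
      refine Subtype.ext ?_
      rw [hy]
      push_cast
      exact eval_eq_sum_range w
    have e1 : PowerSeries.coeff n (s (PowerSeries.coeff m (s y))) =
        ((n + m).choose m : cadj v F w) * PowerSeries.coeff (n + m) (s y) := by
      rw [hy1]
      simp only [map_sum, Finset.mul_sum]
      refine Finset.sum_congr rfl fun j _ => ?_
      rw [hmon _ (hf j), hmon _ (hf j)]
      have e3 : s ((j.choose m : cadj v F w) * (⟨f.coeff j, le_cadj v F w (hf j)⟩ *
          ⟨w, self_mem_cadj v F w⟩ ^ (j - m))) = PowerSeries.C (j.choose m : cadj v F w) *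
          s (⟨f.coeff j, le_cadj v F w (hf j)⟩ * ⟨w, self_mem_cadj v F w⟩ ^ (j - m)) := by
        rw [map_mul, map_natCast, map_natCast]
      rw [e3, PowerSeries.coeff_C_mul, hmon _ (hf j)]
      have e4 : j - m - n = j - (n + m) := by omega
      rw [e4]
      generalize (⟨f.coeff j, le_cadj v F w (hf j)⟩ *
          ⟨w, self_mem_cadj v F w⟩ ^ (j - (n + m)) : cadj v F w) = W
      have h7 := Nat.choose_mul (n := j) (k := n + m) (s := m) (Nat.le_add_left m n)
      rw [Nat.add_sub_cancel] at h7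
      have h8 := congrArg (fun n : ℕ => (n : cadj v F w)) h7
      simp only [Nat.cast_mul] at h8
      linear_combination (-W) * h8
    have e5 : ((PowerSeries.coeff n (s (PowerSeries.coeff m (s x))) : cadj v F w) : H) -
        (((n + m).choose m : cadj v F w) * PowerSeries.coeff (n + m) (s x) : cadj v F w) =
        ((PowerSeries.coeff n (s (PowerSeries.coeff m (s (x - y)))) : cadj v F w) : H) -
        ((n + m).choose m : H) * ((PowerSeries.coeff (n + m) (s (x - y)) : cadj v F w) : H) := by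
      have e6 := congrArg (fun x : cadj v F w => (x : H)) e1
      simp only [map_sub] at e6 ⊢
      push_cast at e6 ⊢
      rw [e6]
      ring
    rw [e5]
    have h8 : v.Ge b (((x - y : cadj v F w)) : H) := h2
    refine (s3 n _ b (s3 m _ b h8)).sub ?_
    have h9 := (TWM.ge_natCast v ((n + m).choose m)).mul (s3 (n + m) _ b h8)
    rwa [zero_add] at h9

end Pool.Agent.TWIV
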