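import Pool.Agent.Lib.TWIV.GpS
import Pool.Agent.Lib.TWIV.Tay
import Pool.Agent.Lib.TWC.Spl

/-!
# TANK W, leaf (IV): Lemma G' for the limits of `E_1 = E<y_1>` (shape (1,2)')

* `dj s j x`: the jet of order `j` of `x ∈ E_1`, `s` the Taylor homomorphism; `fev p P x`: the value
  of the additive polynomial `P(F)` at `x`;
* `RRp`: the properties of `RR`; `GDat`: the data `y`, `b'`, (BETA), `RR`;
* `GDat.seq`: Lemma G' for the formal limits of `E_1`; `GDat.of_lim`: for the limits of `E`;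
* `GDat.alpha`: the components of `A(F) y`; `GDat.beta`: `F q - q = F x + r y + e`;
* `beta_shift`: (BETA) for `A = F ^ n A₀`; `fev_far`: `A(F) y ∉ E_1 + O`.
-/

set_option autoImplicit false
set_option linter.unusedSectionVars false

open Finset Polynomial

namespace Pool.Agent.TWIV

open Pool.Agent.H15JM (RVal)
open Pool.Agent.D2 (Ctx0)
open Pool.Agent.TWM Pool.Agent.TWC

universe u

variable {k Ω : Type u} [Field k] [Field Ω] [Algebra k Ω] {v : RVal Ω} {p : ℕ} [hp : Fact p.Prime]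
  [CharP Ω p] [PerfectRing Ω p] {A : Type*} [AddCommGroup A] {pr : A → Ω →ₗ[k] Ω}
  {E K : IntermediateField k Ω} {w : Ω} {γ : A} {s : K →ₐ[k] PowerSeries K}

/-! ### Jets -/

/-- The jet of order `j` of `x ∈ K`. -/
noncomputable def dj {K : IntermediateField k Ω} (s : K →ₐ[k] PowerSeries K) (j : ℕ) (x : Ω) : Ω :=
  open Classical in
  if hx : x ∈ K then ((PowerSeries.coeff j (s ⟨x, hx⟩) : K) : Ω) else 0

theorem dj_eq (j : ℕ) {x : Ω} (hx : x ∈ K) :
    dj s j x = ((PowerSeries.coeff j (s ⟨x, hx⟩) : K) : Ω) := dif_pos hx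

theorem dj_mem (j : ℕ) {x : Ω} (hx : x ∈ K) : dj s j x ∈ K := by
  rw [dj_eq j hx]
  exact SetLike.coe_mem _

theorem dj_add (j : ℕ) {x y : Ω} (hx : x ∈ K) (hy : y ∈ K) :
    dj s j (x + y) = dj s j x + dj s j y := by
  rw [dj_eq j hx, dj_eq j hy, dj_eq j (add_mem hx hy)]
  have e : (⟨x + y, add_mem hx hy⟩ : K) = ⟨x, hx⟩ + ⟨y, hy⟩ := rfl
  rw [e, map_add, map_add]
  rfl

theorem dj_zero_arg (j : ℕ) : dj s j (0 : Ω) = 0 := by
  have h := dj_add (s := s) j (zero_mem K) (zero_mem K)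
  rw [add_zero] at h
  exact left_eq_add.1 h

theorem dj_neg (j : ℕ) {x : Ω} (hx : x ∈ K) : dj s j (-x) = -dj s j x := by
  have h := dj_add (s := s) j hx (neg_mem hx)
  rw [add_neg_cancel, dj_zero_arg] at h
  exact (neg_eq_of_add_eq_zero_right h.symm).symm

theorem dj_sub (j : ℕ) {x y : Ω} (hx : x ∈ K) (hy : y ∈ K) :
    dj s j (x - y) = dj s j x - dj s j y := by
  rw [sub_eq_add_neg, dj_add j hx (neg_mem hy), dj_neg j hy, sub_eq_add_neg]

theorem dj_smul (j : ℕ) (a : k) {x : Ω} (hx : x ∈ K) :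
    dj s j (algebraMap k Ω a * x) = algebraMap k Ω a * dj s j x := by
  have hax : algebraMap k Ω a * x ∈ K := mul_mem (IntermediateField.algebraMap_mem _ a) hx
  rw [dj_eq j hx, dj_eq j hax]
  have e : (⟨algebraMap k Ω a * x, hax⟩ : K) = a • ⟨x, hx⟩ := by
    refine Subtype.ext ?_
    change _ = a • x
    rw [Algebra.smul_def]
  rw [e, map_smul, PowerSeries.coeff_smul]
  change a • ((PowerSeries.coeff j (s ⟨x, hx⟩) : K) : Ω) = _
  rw [Algebra.smul_def]

theorem dj_norm (hs : Tay v pr K E w γ s) (j : ℕ) {x : Ω} (hx : x ∈ K) {b : ℝ} (hb : v.Ge b x) :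
    v.Ge b (dj s j x) := by
  rw [dj_eq j hx]
  exact hs.norm j _ b hb

omit [PerfectRing Ω p] in
theorem dj_frob (j : ℕ) {x : Ω} (hx : x ∈ K) : dj s (p * j) (x ^ p) = dj s j x ^ p := by
  rw [dj_eq j hx, dj_eq (p * j) (pow_mem hx p)]
  have e : (⟨x ^ p, pow_mem hx p⟩ : K) = ⟨x, hx⟩ ^ p := rfl
  rw [e, map_pow, coeff_ps_powK, if_pos (dvd_mul_right p j), Nat.mul_div_cancel_left _ hp.out.pos]
  rfl

omit [PerfectRing Ω p] in
theorem dj_frob0 {j : ℕ} (hj : ¬ p ∣ j) {x : Ω} (hx : x ∈ K) : dj s j (x ^ p) = 0 := by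
  rw [dj_eq j (pow_mem hx p)]
  have e : (⟨x ^ p, pow_mem hx p⟩ : K) = ⟨x, hx⟩ ^ p := rfl
  rw [e, map_pow, coeff_ps_powK, if_neg hj]
  rfl

theorem dj_pr (hs : Tay v pr K E w γ s) (hg : ∀ c, ∀ x ∈ K, pr c x ∈ K) (j : ℕ) (c : A) {x : Ω}
    (hx : x ∈ K) : dj s j (pr c x) = pr (c - j • γ) (dj s j x) := by
  rw [dj_eq j hx, dj_eq j (hg c x hx)]
  exact (hs.prc ⟨x, hx⟩ ⟨pr c x, hg c x hx⟩ c rfl j).symm

theorem dj_id (hs : Tay v pr K E w γ s) {x : Ω} (hx : x ∈ K) : dj s 0 x = x := by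
  rw [dj_eq 0 hx, hs.zero]

/-- the jets of large order are integral -/
theorem dj_fin {s : cadj v E w →ₐ[k] PowerSeries (cadj v E w)}
    (hs : Tay v pr (cadj v E w) E w γ s) [IsAlgClosed Ω] (hw : TL v E w 0) {x : Ω}
    (hx : x ∈ cadj v E w) : ∃ j₀, ∀ j, j₀ ≤ j → v.Ge 0 (dj s j x) := by
  obtain ⟨f, hf, h1⟩ := hw.dense hx 0
  have hfw : f.eval w ∈ cadj v E w :=
    eval_mem (PI_mono (le_cadj v E w) hf) (self_mem_cadj v E w)
  refine ⟨f.natDegree + 1, fun j hj => ?_⟩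
  have h2 : dj s j (f.eval w) = 0 := by
    have h5 := map_evalw (s : cadj v E w →+* PowerSeries (cadj v E w)) hf hfw
    simp only [RingHom.coe_coe] at h5
    rw [dj_eq j hfw, h5, map_sum, AddSubmonoidClass.coe_finsetSum]
    refine Finset.sum_eq_zero fun i hi => ?_
    rw [hs.base ⟨f.coeff i, le_cadj v E w (hf i)⟩ (hf i), hs.gen _ rfl, PowerSeries.coeff_C_mul,
      coeff_add_X_pow, Nat.choose_eq_zero_of_lt (by rw [Finset.mem_range] at hi; omega),
      Nat.cast_zero, zero_mul, mul_zero]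
    rfl
  have h3 := dj_norm hs j (sub_mem hx hfw) h1
  rwa [dj_sub j hx hfw, h2, sub_zero] at h3

/-! ### Sequences -/

section Seq

variable [hc : Fact (Ctx0 k v)]

/-- The bounded sequences of `K`. -/
def ES (v : RVal Ω) [hc : Fact (Ctx0 k v)] (K : IntermediateField k Ω) :
    Submodule k (ℕ → Ω) where
  carrier := {x | (∀ n, x n ∈ K) ∧ Bd v x}
  add_mem' hx hy := ⟨fun n => add_mem (hx.1 n) (hy.1 n), hx.2.add hy.2⟩
  zero_mem' := ⟨fun _ => zero_mem K, Bd.zero⟩
  smul_mem' := by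
    intro a x hx
    exact ⟨fun n => K.smul_mem (hx.1 n), (BS k v).smul_mem a hx.2⟩

variable (p) in
/-- The Frobenius of the sequences of `K`. -/
def frE (v : RVal Ω) [hc : Fact (Ctx0 k v)] (K : IntermediateField k Ω) : ES v K →+ ES v K where
  toFun x := ⟨fun n => (x : ℕ → Ω) n ^ p, fun n => pow_mem (x.2.1 n) p, Bd.pow x.2.2 p⟩
  map_zero' := Subtype.ext (funext fun n => by
    change (0 : Ω) ^ p = 0
    exact zero_pow hp.out.ne_zero)
  map_add' x y := Subtype.ext (funext fun n => by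
    change ((x : ℕ → Ω) n + (y : ℕ → Ω) n) ^ p = _
    exact add_pow_char _ _ _)

/-- The jets of the sequences. -/
noncomputable def djL {s : K →ₐ[k] PowerSeries K} (hs : Tay v pr K E w γ s) (j : ℕ) :
    ES v K →ₗ[k] BS k v where
  toFun x := ⟨fun n => dj s j ((x : ℕ → Ω) n), x.2.2.op fun n _ hb => dj_norm hs j (x.2.1 n) hb⟩
  map_add' x y := Subtype.ext (funext fun n => dj_add j (x.2.1 n) (y.2.1 n))
  map_smul' a x := Subtype.ext (funext fun n => by
    change dj s j (a • (x : ℕ → Ω) n) = a • dj s j ((x : ℕ → Ω) n)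
    rw [Algebra.smul_def, Algebra.smul_def]
    exact dj_smul j a (x.2.1 n))

/-- The value of the additive polynomial `P(F)` at `x`. -/
noncomputable def fev (p : ℕ) (P : k[X]) (x : Ω) : Ω :=
  ∑ a ∈ P.support, algebraMap k Ω (P.coeff a) * x ^ p ^ a

theorem act_frE (P : k[X]) (x : ES v K) (n : ℕ) :
    ((act (frE p v K) P x : ES v K) : ℕ → Ω) n = fev p P ((x : ℕ → Ω) n) := by
  have h1 : ∀ (a : ℕ) (x : ES v K), (((frE p v K)^[a] x : ES v K) : ℕ → Ω) n =
      (x : ℕ → Ω) n ^ p ^ a := by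
    intro a
    induction a with
    | zero => intro x; rw [pow_zero, pow_one]; rfl
    | succ a ih =>
      intro x
      rw [Function.iterate_succ_apply, ih, pow_succ', pow_mul]
      rfl
  rw [act, fev, AddSubmonoidClass.coe_finsetSum, Finset.sum_apply]
  refine Finset.sum_congr rfl fun a _ => ?_
  rw [← h1 a x, ← Algebra.smul_def]
  rfl

omit [PerfectRing Ω p] hc in
theorem fev_sub (P : k[X]) (x y : Ω) : fev p P (x - y) = fev p P x - fev p P y := by
  rw [fev, fev, fev, ← Finset.sum_sub_distrib]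
  refine Finset.sum_congr rfl fun a _ => ?_
  rw [sub_pow_char_pow, mul_sub]

omit hp [CharP Ω p] [PerfectRing Ω p] hc in
theorem fev_mem (P : k[X]) {x : Ω} (hx : x ∈ K) : fev p P x ∈ K :=
  sum_mem fun _ _ => mul_mem (IntermediateField.algebraMap_mem _ _) (pow_mem hx _)

omit hp [CharP Ω p] [PerfectRing Ω p] in
theorem fev_nul (P : k[X]) {x : ℕ → Ω} (hx : Nul v x) : Nul v fun n => fev p P (x n) :=
  Nul.sum _ (fun a n => algebraMap k Ω (P.coeff a) * x n ^ p ^ a) fun a _ =>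
    (hx.pow (p ^ a)).mul_ge (c := fun _ => algebraMap k Ω (P.coeff a)) fun _ => hc.out.ge _

omit hp [CharP Ω p] [PerfectRing Ω p] in
theorem fev_bd (P : k[X]) {x : ℕ → Ω} (hx : Bd v x) : Bd v fun n => fev p P (x n) := by
  classical
  unfold fev
  induction P.support using Finset.induction_on with
  | empty => exact Bd.zero.congr fun n => by rw [Finset.sum_empty]
  | insert a U ha ih =>
    refine (((hx.pow (p ^ a)).op (Φ := fun y => algebraMap k Ω (P.coeff a) * y)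
      fun n c hc' => ?_).add ih).congr fun n => by rw [Finset.sum_insert ha]
    have := (hc.out.ge (P.coeff a)).mul hc'
    rwa [zero_add] at this

/-- The properties of `RR`. -/
structure RRp (p : ℕ) (E : IntermediateField k Ω) (w : Ω) (pr : A → Ω →ₗ[k] Ω)
    (RR : Submodule k Ω) : Prop where
  poly : ∀ f ∈ PI E, f.eval w ∈ RR
  pr : ∀ c, ∀ x ∈ RR, pr c x ∈ RR
  rt : ∀ x ∈ RR, ∃ y ∈ RR, y ^ p = x
  fr : ∀ x ∈ RR, x ^ p ∈ RR

/-- **The data.** `E_1 = E<w>`, `s` its Taylor homomorphism, `y`, `b` limits of `E_1`,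
`D_(1 + p^(n+1) i) b = F^(n+1) D_i A(F) y`, `A(F) y ∉ RR + O`. -/
structure GDat (p : ℕ) (v : RVal Ω) (pr : A → Ω →ₗ[k] Ω) (E : IntermediateField k Ω) (w : Ω)
    (γ : A) (s : cadj v E w →ₐ[k] PowerSeries (cadj v E w)) (RR : Submodule k Ω) (n : ℕ)
    (P₀ : k[X]) (y b : Ω) (yn bn : ℕ → Ω) : Prop where
  tl : TL v E w 0
  tay : Tay v pr (cadj v E w) E w γ s
  gr : ∀ c, ∀ x ∈ cadj v E w, pr c x ∈ cadj v E w
  rr : RRp p E w pr RR
  ne : P₀ ≠ 0
  cy : Cau v (cadj v E w) yn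
  cb : Cau v (cadj v E w) bn
  ny : Nul v fun m => y - yn m
  nb : Nul v fun m => b - bn m
  beta : ∀ i, Nul v fun m =>
    dj s (1 + p ^ (n + 1) * i) (bn m) - dj s i (fev p P₀ (yn m)) ^ p ^ (n + 1)
  far : ¬ ∃ r ∈ RR, v.Ge 0 (fev p P₀ y - r)

variable [IsAlgClosed Ω]

omit hp [CharP Ω p] [PerfectRing Ω p] hc in
/-- the elements of `E_1` are in `RR + O` -/
theorem RRp.near {RR : Submodule k Ω} (h : RRp p E w pr RR) (hw : TL v E w 0) {x : Ω}
    (hx : x ∈ cadj v E w) : ∃ r ∈ RR, v.Ge 0 (x - r) := by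
  obtain ⟨f, hf, h1⟩ := hw.dense hx 0
  exact ⟨f.eval w, h.poly f hf, h1⟩

namespace GDat

variable {s : cadj v E w →ₐ[k] PowerSeries (cadj v E w)} {RR : Submodule k Ω} {n : ℕ}
  {P₀ P₁ P₂ : k[X]} {y b : Ω} {yn bn xn : ℕ → Ω}

/-- **Lemma G' for formal limits.** -/
theorem seq (h : GDat p v pr E w γ s RR n P₀ y b yn bn) (hxm : ∀ m, xn m ∈ cadj v E w)
    (hxb : Bd v xn)
    (ha : ∃ J₀, ∀ j, J₀ ≤ j → ∀ R : ℝ, 0 ≤ R →
      (∀ i, j ≤ i → GV v R fun m => dj s i (fev p P₀ (yn m))) → GV v R fun m => dj s j (xn m))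
    (hb : ∀ j, 1 ≤ j → (∀ i, j ≤ i → NR v RR fun m => dj s i (fev p P₀ (yn m))) →
      (∃ J₀, ∀ i, J₀ ≤ i → Nul v fun m => dj s i (fev p P₀ (yn m))) →
      NR v RR fun m => dj s j (xn m))
    {e : Ω} (he : e ∈ cadj v E w)
    (hx : Nul v fun m => xn m - (fev p P₁ (yn m) + fev p P₂ (bn m) + e)) : P₂ = 0 := by
  have hFS := fsubS (v := v) (k := k) p h.rr.rt h.rr.fr
  have hFG : FGap k p (fun x : BS k v => gapS v (x : ℕ → Ω)) (frB k v p) := fgapS p
  set Y : ES v (cadj v E w) := ⟨yn, h.cy.mem, Cau.bd h.cy⟩ with hY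
  set B : ES v (cadj v E w) := ⟨bn, h.cb.mem, Cau.bd h.cb⟩ with hB
  set X : ES v (cadj v E w) := ⟨xn, hxm, hxb⟩ with hX
  set G := frE p v (cadj v E w) with hG
  set Z : ES v (cadj v E w) := X - (act G P₁ Y + act G P₂ B) with hZ
  have hZn : ∀ m, (Z : ℕ → Ω) m = xn m - (fev p P₁ (yn m) + fev p P₂ (bn m)) := by
    intro m
    have e1 : (Z : ℕ → Ω) m = (X : ℕ → Ω) m - ((act G P₁ Y : ES v (cadj v E w)) : ℕ → Ω) m -
        ((act G P₂ B : ES v (cadj v E w)) : ℕ → Ω) m := by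
      rw [sub_sub]
      rfl
    rw [e1, act_frE, act_frE, sub_sub]
  -- the jets of `Z`
  have hZnul : Nul v fun m => (Z : ℕ → Ω) m - e := hx.congr fun m => by
    rw [hZn]
    ring
  have hZj : ∀ j, Nul v fun m => dj s j ((Z : ℕ → Ω) m) - dj s j e := by
    intro j ε hε
    obtain ⟨N, hN⟩ := hZnul ε hε
    refine ⟨N, fun m hm => ?_⟩
    have h1 := dj_norm h.tay j (sub_mem (Z.2.1 m) he) (hN m hm)
    rw [dj_sub j (Z.2.1 m) he] at h1
    exact h1
  have hact : ∀ j m, ((djL h.tay j (act G P₀ Y) : BS k v) : ℕ → Ω) m =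
      dj s j (fev p P₀ (yn m)) := fun j m => by
    change dj s j (((act G P₀ Y : ES v (cadj v E w)) : ℕ → Ω) m) = _
    rw [act_frE]
  have hit : ∀ (a : ℕ) (x : BS k v) (m : ℕ), (((frB k v p)^[a] x : BS k v) : ℕ → Ω) m =
      (x : ℕ → Ω) m ^ p ^ a := by
    intro a
    induction a with
    | zero => intro x m; rw [pow_zero, pow_one]; rfl
    | succ a ih =>
      intro x m
      rw [Function.iterate_succ_apply, ih, pow_succ', pow_mul]
      rfl
  refine G' (V := BS k v) (W := ES v (cadj v E w)) (F := frB k v p) (BB := BBS v RR) (G := G)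
    (D := fun j => djL h.tay j) (n := n) (A := P₀) (P₁ := P₁) (P₂ := P₂) (y := Y) (b := B)
    (x := X) (e := Z) hFG hFS ?_ ?_ ?_ h.ne ?_ ?_ ?_ ?_ ?_ ?_ ?_
  · intro j x
    refine (gapS_eq_zero (djL h.tay (p * j) (G x) - frB k v p (djL h.tay j x) : BS k v).2).2 ?_
    refine Nul.zero.congr fun m => ?_
    change 0 = dj s (p * j) ((x : ℕ → Ω) m ^ p) - dj s j ((x : ℕ → Ω) m) ^ p
    rw [dj_frob j (x.2.1 m), sub_self]
  · intro j x hj
    refine (gapS_eq_zero (djL h.tay j (G x) : BS k v).2).2 ?_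
    refine Nul.zero.congr fun m => ?_
    change 0 = dj s j ((x : ℕ → Ω) m ^ p)
    rw [dj_frob0 hj (x.2.1 m)]
  · intro x
    refine ⟨gapS v (x : ℕ → Ω), fun j => ?_⟩
    refine (gapS_le (djL h.tay j x : BS k v).2 (gapS_nonneg _)).2 ?_
    exact (gl_self x.2.2).op fun m _ hb => dj_norm h.tay j (x.2.1 m) hb
  · intro i
    refine (gapS_eq_zero (djL h.tay (1 + p ^ (n + 1) * i) B -
      (frB k v p)^[n + 1] (djL h.tay i (act G P₀ Y)) : BS k v).2).2 ?_
    refine (h.beta i).congr fun m => ?_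
    change _ = dj s (1 + p ^ (n + 1) * i) (bn m) -
      (((frB k v p)^[n + 1] (djL h.tay i (act G P₀ Y)) : BS k v) : ℕ → Ω) m
    rw [hit, hact]
  · rintro ⟨r, hr, h1⟩
    refine h.far ⟨r, hr, ?_⟩
    have h2 : Nul v fun m => fev p P₀ (y - yn m) := fev_nul P₀ h.ny
    refine Nul.const ((h2.add h1).congr fun m => ?_)
    rw [hact, dj_id h.tay (fev_mem P₀ (h.cy.mem m)), fev_sub]
    ring
  · obtain ⟨J₀, hJ₀⟩ := ha
    refine ⟨J₀, fun j hj R hR => ?_⟩
    have hR0 : 0 ≤ R := (hFG.gp.nonneg _).trans (hR j le_rfl)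
    refine (gapS_le (djL h.tay j X : BS k v).2 hR0).2 ?_
    refine hJ₀ j hj R hR0 fun i hi => ?_
    have h1 := (gapS_le (djL h.tay i (act G P₀ Y) : BS k v).2 hR0).1 (hR i hi)
    exact h1.congr fun m => hact i m
  · intro j hj hZm hfin
    refine hb j hj (fun i hi => ?_) ?_
    · exact NR.congr (hZm i hi) fun m => hact i m
    · obtain ⟨J₀, hJ₀⟩ := hfin
      refine ⟨J₀, fun i hi => ?_⟩
      have h1 := (gapS_eq_zero (djL h.tay i (act G P₀ Y) : BS k v).2).1 (hJ₀ i hi)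
      exact h1.congr fun m => hact i m
  · rw [hZ]
    abel
  · obtain ⟨j₀, hj₀⟩ := dj_fin h.tay h.tl he
    refine ⟨j₀, fun j hj => ?_⟩
    refine (gapS_eq_zero (djL h.tay j Z : BS k v).2).2 ?_
    refine ((hZj j).add (Nul.of_ge (x := fun _ => dj s j e) fun _ => hj₀ j hj)).congr fun m => ?_
    change _ = dj s j ((Z : ℕ → Ω) m)
    ring
  · intro j _
    obtain ⟨r, hr, h1⟩ := h.rr.near h.tl (dj_mem (s := s) j he)
    refine ⟨r, hr, ?_⟩
    refine ((hZj j).add (Nul.of_ge (x := fun _ => dj s j e - r) fun _ => h1)).congr fun m => ?_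
    change _ = dj s j ((Z : ℕ → Ω) m) - r
    ring

/-- Lemma G' for a limit `x` of `E`. -/
theorem of_lim (h : GDat p v pr E w γ s RR n P₀ y b yn bn) {x e : Ω} (hx : Lim v E 0 x)
    (he : e ∈ cadj v E w) (hxe : v.Ge 0 (x - (fev p P₁ y + fev p P₂ b + e))) : P₂ = 0 := by
  choose xn hxn hxl using fun m : ℕ => hx (1 / (m + 1)) (by positivity)
  have hnul : Nul v fun m => x - xn m := by
    intro ε hε
    obtain ⟨N, hN⟩ := exists_nat_one_div_lt hε
    refine ⟨N, fun m hm => (hxl m).mono ?_⟩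
    have h1 : (1 : ℝ) / (m + 1) ≤ 1 / (N + 1) := by
      apply one_div_le_one_div_of_le
      · positivity
      · have : (N : ℝ) ≤ m := by exact_mod_cast hm
        linarith
    linarith
  have hm : ∀ m, xn m ∈ cadj v E w := fun m => le_cadj v E w (hxn m)
  have hj0 : ∀ j, 1 ≤ j → ∀ m, dj s j (xn m) = 0 := fun j hj m => by
    rw [dj_eq j (hm m), h.tay.base _ (hxn m), PowerSeries.coeff_C, if_neg (by omega)]
    rfl
  have hb : Bd v xn := by
    have h1 : Bd v fun _ : ℕ => x := ⟨v x, 0, fun _ _ => RVal.ge_self _⟩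
    exact (h1.add (Bd.of_nul hnul.neg)).congr fun m => by ring
  refine h.seq (xn := xn) (P₁ := P₁) (e := e) hm hb ⟨1, fun j hj R hR _ => ?_⟩
    (fun j hj _ _ => ?_) he ?_
  · exact (GV.of_nul hR Nul.zero).congr fun m => (hj0 j hj m).symm
  · exact (NR.of_nul Nul.zero).congr fun m => (hj0 j hj m).symm
  · have h2 := (((fev_nul (p := p) P₁ h.ny).add (fev_nul (p := p) P₂ h.nb)).add
      (Nul.of_ge (x := fun _ => x - (fev p P₁ y + fev p P₂ b + e)) fun _ => hxe)).sub hnul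
    refine h2.congr fun m => ?_
    rw [fev_sub, fev_sub]
    ring

/-- **(alpha)**: the component of degree `c` of `y# = P₀(F) y`. -/
theorem alpha (h : GDat p v pr E w γ s RR n P₀ y b yn bn) (hg : GrP p v pr) {c : A} {e : Ω}
    (he : e ∈ cadj v E w) (hx : v.Ge 0 (pr c (fev p P₀ y) - (fev p P₁ y + fev p P₂ b + e))) :
    P₂ = 0 := by
  have hm : ∀ m, fev p P₀ (yn m) ∈ cadj v E w := fun m => fev_mem P₀ (h.cy.mem m)
  refine h.seq (xn := fun m => pr c (fev p P₀ (yn m))) (P₁ := P₁) (e := e)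
    (fun m => h.gr c _ (hm m)) ?_ ?_ ?_ he ?_
  · exact (fev_bd P₀ (Cau.bd h.cy)).op (Φ := fun x => pr c x) fun m b hb => hg.ge b c _ hb
  · refine ⟨0, fun j _ R _ hR => ?_⟩
    refine ((hR j le_rfl).op (Φ := fun x => pr (c - j • γ) x) fun m b hb =>
      hg.ge b _ _ hb).congr fun m => ?_
    exact (dj_pr h.tay h.gr j c (hm m)).symm
  · intro j _ hmem _
    refine (NR.op (Φ := fun x => pr (c - j • γ) x) (T := ⊤) le_top
      (fun x _ y _ => map_sub _ _ _) (fun x _ b hb => hg.ge b _ _ hb)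
      (fun x hx => h.rr.pr _ x hx) (fun _ => Submodule.mem_top) (hmem j le_rfl)).congr fun m => ?_
    exact (dj_pr h.tay h.gr j c (hm m)).symm
  · have h1 : Nul v fun m => pr c (fev p P₀ (y - yn m)) := by
      intro ε hε
      obtain ⟨N, hN⟩ := fev_nul P₀ h.ny ε hε
      exact ⟨N, fun m hm => hg.ge _ c _ (hN m hm)⟩
    have h2 := (((fev_nul (p := p) P₁ h.ny).add (fev_nul (p := p) P₂ h.nb)).add (Nul.of_ge (x := fun _ =>
      pr c (fev p P₀ y) - (fev p P₁ y + fev p P₂ b + e)) fun _ => hx)).sub h1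
    refine h2.congr fun m => ?_
    rw [fev_sub, fev_sub, fev_sub, map_sub]
    ring

end GDat

/-- The operator `pr_c F⁻¹` on the bounded sequences. -/
noncomputable def rtB (hg : GrP p v pr) (c : A) : BS k v →+ BS k v where
  toFun x := ⟨fun m => pr c (Rt p 1 ((x : ℕ → Ω) m)), by
    obtain ⟨b, N, hN⟩ := x.2
    exact ⟨b / p ^ 1, N, fun m hm => hg.ge _ c _ (ge_Rt p (hN m hm))⟩⟩
  map_zero' := Subtype.ext (funext fun m => by
    change pr c (Rt p 1 (0 : Ω)) = 0
    rw [Rt_zero, map_zero])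
  map_add' x y := Subtype.ext (funext fun m => by
    change pr c (Rt p 1 ((x : ℕ → Ω) m + (y : ℕ → Ω) m)) = _
    rw [Rt_add, map_add]
    rfl)

theorem rtB_gap (hg : GrP p v pr) (c : A) (x : BS k v) :
    p * gapS v ((rtB hg c x : BS k v) : ℕ → Ω) ≤ gapS v (x : ℕ → Ω) := by
  have hp0 : (0 : ℝ) < p := by exact_mod_cast hp.out.pos
  have h1 : gapS v ((rtB hg c x : BS k v) : ℕ → Ω) ≤ gapS v (x : ℕ → Ω) / p := by
    refine (gapS_le (rtB hg c x).2 (div_nonneg (gapS_nonneg _) hp0.le)).2 ?_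
    have h2 : GV v (gapS v (x : ℕ → Ω)) fun m => Rt p 1 ((x : ℕ → Ω) m) ^ p :=
      (gl_self x.2).congr fun m => by
        have := Rt_pow p 1 ((x : ℕ → Ω) m)
        rw [pow_one] at this
        exact this.symm
    exact (h2.of_pow hp.out.ne_zero).op (Φ := fun y => pr c y) fun m b hb => hg.ge b c _ hb
  rw [le_div_iff₀ hp0] at h1
  linarith

theorem rtB_mem (hg : GrP p v pr) {RR : Submodule k Ω} (hR : RRp p E w pr RR) (c : A)
    (x : BS k v) (hx : x ∈ BBS v RR) : rtB hg c x ∈ BBS v RR := by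
  have h1 : NR v RR fun m => Rt p 1 ((x : ℕ → Ω) m) := by
    refine NR.root p hR.rt (NR.congr hx fun m => ?_)
    have := Rt_pow p 1 ((x : ℕ → Ω) m)
    rw [pow_one] at this
    exact this.symm
  exact NR.op (Φ := fun x => pr c x) (T := ⊤) le_top (fun x _ y _ => map_sub _ _ _)
    (fun x _ b hb => hg.ge b _ _ hb) (fun x hx => hR.pr _ x hx) (fun _ => Submodule.mem_top) h1

namespace GDat

variable {s : cadj v E w →ₐ[k] PowerSeries (cadj v E w)} {RR : Submodule k Ω} {n : ℕ}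
  {P₀ P₁ P₂ : k[X]} {y b : Ω} {yn bn xn : ℕ → Ω}

/-- **(beta)**: `Y ^ p - pr_0 Y = r y + e'`: Lemma G' applies to `pr_0 Y`. -/
theorem beta' (h : GDat p v pr E w γ s RR n P₀ y b yn bn) (hg : GrP p v pr) {Y e e' : Ω} {r : k}
    (hY : Lim v (cadj v E w) 0 Y) (he' : e' ∈ cadj v E w)
    (hrel : v.Ge 0 (Y ^ p - pr 0 Y - algebraMap k Ω r * y - e')) (he : e ∈ cadj v E w)
    (hq : v.Ge 0 (pr 0 Y - (fev p P₁ y + fev p P₂ b + e))) : P₂ = 0 := by
  -- approximation of `Y`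
  choose Yn hYn hYnl using fun m : ℕ => hY (1 / (m + 1)) (by positivity)
  have hYnul : Nul v fun m => Y - Yn m := by
    intro ε hε
    obtain ⟨N, hN⟩ := exists_nat_one_div_lt hε
    refine ⟨N, fun m hm => (hYnl m).mono ?_⟩
    have h1 : (1 : ℝ) / (m + 1) ≤ 1 / (N + 1) := by
      apply one_div_le_one_div_of_le
      · positivity
      · have : (N : ℝ) ≤ m := by exact_mod_cast hm
        linarith
    linarith
  have hprnul : Nul v fun m => pr 0 (Y - Yn m) := by
    intro ε hε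
    obtain ⟨N, hN⟩ := hYnul ε hε
    exact ⟨N, fun m hm => hg.ge _ 0 _ (hN m hm)⟩
  have hqm : ∀ m, pr 0 (Yn m) ∈ cadj v E w := fun m => h.gr 0 _ (hYn m)
  -- boundedness
  have hYc : Bd v Yn := by
    have h1 : Bd v fun _ : ℕ => Y := ⟨v Y, 0, fun _ _ => RVal.ge_self _⟩
    have h2 : Bd v fun m => -(Y - Yn m) := Bd.of_nul hYnul.neg
    exact (h1.add h2).congr fun m => by ring
  have hqb : Bd v fun m => pr 0 (Yn m) :=
    hYc.op (Φ := fun x => pr 0 x) fun m b hb => hg.ge b 0 _ hb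
  -- the relation, and its jets
  have hrn : Nul v fun m => Yn m ^ p - pr 0 (Yn m) - algebraMap k Ω r * yn m - e' := by
    have h1 : Nul v fun m => algebraMap k Ω r * (y - yn m) :=
      h.ny.mul_ge (c := fun _ => algebraMap k Ω r) fun _ => hc.out.ge r
    have h2 := (((Nul.of_ge (x := fun _ : ℕ => Y ^ p - pr 0 Y - algebraMap k Ω r * y - e')
      fun _ => hrel).sub (hYnul.pow p)).add hprnul).add h1
    refine h2.congr fun m => ?_
    rw [sub_pow_char, map_sub]
    ring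
  set Q : ES v (cadj v E w) := ⟨fun m => pr 0 (Yn m), hqm, hqb⟩ with hQ
  set Y₁ : ES v (cadj v E w) := ⟨yn, h.cy.mem, Cau.bd h.cy⟩ with hY₁
  have hbe' : Bd v fun _ : ℕ => e' := ⟨v e', 0, fun _ _ => RVal.ge_self _⟩
  set E' : ES v (cadj v E w) := ⟨fun _ => e', fun _ => he', hbe'⟩ with hE'
  have hFS := fsubS (v := v) (k := k) p h.rr.rt h.rr.fr
  have hFG : FGap k p (fun x : BS k v => gapS v (x : ℕ → Ω)) (frB k v p) := fgapS p
  have hX : ∀ j, 1 ≤ j → gapS v ((djL h.tay j Q - rtB hg (0 - j • γ) (djL h.tay (p * j) Q +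
      r • djL h.tay (p * j) Y₁ + djL h.tay (p * j) E') : BS k v) : ℕ → Ω) = 0 := by
    intro j _
    refine (gapS_eq_zero (djL h.tay j Q - rtB hg (0 - j • γ) (djL h.tay (p * j) Q +
      r • djL h.tay (p * j) Y₁ + djL h.tay (p * j) E') : BS k v).2).2 ?_
    -- the relation of order `p j`
    have h1 : Nul v fun m => dj s j (Yn m) ^ p - (dj s (p * j) (pr 0 (Yn m)) +
        algebraMap k Ω r * dj s (p * j) (yn m) + dj s (p * j) e') := by
      intro ε hε
      obtain ⟨N, hN⟩ := hrn ε hε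
      refine ⟨N, fun m hm => ?_⟩
      have hry : algebraMap k Ω r * yn m ∈ cadj v E w :=
        mul_mem (IntermediateField.algebraMap_mem _ r) (h.cy.mem m)
      have h2 := dj_norm h.tay (p * j) (sub_mem (sub_mem (sub_mem (pow_mem (hYn m) p) (hqm m))
        hry) he') (hN m hm)
      rw [dj_sub (p * j) (sub_mem (sub_mem (pow_mem (hYn m) p) (hqm m)) hry) he',
        dj_sub (p * j) (sub_mem (pow_mem (hYn m) p) (hqm m)) hry,
        dj_sub (p * j) (pow_mem (hYn m) p) (hqm m), dj_frob j (hYn m),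
        dj_smul (p * j) r (h.cy.mem m)] at h2
      refine Eq.mp (congrArg (fun w => v.Ge (-ε) w) ?_) h2
      ring
    have h3 : Nul v fun m => dj s j (Yn m) - Rt p 1 (dj s (p * j) (pr 0 (Yn m)) +
        algebraMap k Ω r * dj s (p * j) (yn m) + dj s (p * j) e') := by
      refine Nul.of_pow hp.out.ne_zero (h1.congr fun m => ?_)
      have h4 := Rt_pow p 1 (dj s (p * j) (pr 0 (Yn m)) +
        algebraMap k Ω r * dj s (p * j) (yn m) + dj s (p * j) e')
      rw [pow_one] at h4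
      rw [sub_pow_char, h4]
    intro ε hε
    obtain ⟨N, hN⟩ := h3 ε hε
    refine ⟨N, fun m hm => ?_⟩
    have h5 := hg.ge _ (0 - j • γ) _ (hN m hm)
    rw [map_sub, ← dj_pr h.tay h.gr j 0 (hYn m)] at h5
    have e1 : (((djL h.tay j Q - rtB hg (0 - j • γ) (djL h.tay (p * j) Q +
        r • djL h.tay (p * j) Y₁ + djL h.tay (p * j) E') : BS k v) : ℕ → Ω) m) =
        dj s j (pr 0 (Yn m)) - pr (0 - j • γ) (Rt p 1 (dj s (p * j) (pr 0 (Yn m)) +
        algebraMap k Ω r * dj s (p * j) (yn m) + dj s (p * j) e')) := by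
      rw [← Algebra.smul_def]
      rfl
    rw [e1]
    exact h5
  have hbdQ : ∀ j, gapS v ((djL h.tay j Q : BS k v) : ℕ → Ω) ≤ gapS v (Q : ℕ → Ω) := fun j => by
    refine (gapS_le (djL h.tay j Q : BS k v).2 (gapS_nonneg _)).2 ?_
    exact (gl_self Q.2.2).op fun m _ hb => dj_norm h.tay j (Q.2.1 m) hb
  have hbdY : ∀ j, gapS v ((djL h.tay j Y₁ : BS k v) : ℕ → Ω) ≤ gapS v (Y₁ : ℕ → Ω) := fun j => by
    refine (gapS_le (djL h.tay j Y₁ : BS k v).2 (gapS_nonneg _)).2 ?_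
    exact (gl_self Y₁.2.2).op fun m _ hb => dj_norm h.tay j (Y₁.2.1 m) hb
  obtain ⟨J₀, hJ₀⟩ := dj_fin h.tay h.tl he'
  have hE0 : ∀ j, J₀ ≤ j → gapS v ((djL h.tay j E' : BS k v) : ℕ → Ω) = 0 := fun j hj =>
    (gapS_eq_zero (djL h.tay j E' : BS k v).2).2 (Nul.of_ge fun _ => hJ₀ j hj)
  have hEB : ∀ j, 1 ≤ j → djL h.tay j E' ∈ BBS v RR := fun j _ => by
    obtain ⟨r, hr, h1⟩ := h.rr.near h.tl (dj_mem (s := s) j he')
    exact ⟨r, hr, Nul.of_ge fun _ => h1⟩
  -- `y` is dominated by `y#`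
  have hZ : ∀ j, gapS v ((djL h.tay j (act (frE p v (cadj v E w)) P₀ Y₁) -
      jets p (frB k v p) P₀ (fun i => djL h.tay i Y₁) j : BS k v) : ℕ → Ω) = 0 := by
    intro j
    refine jets_of (G := frE p v (cadj v E w)) (D := fun j => djL h.tay j) hFG ?_ ?_ P₀ Y₁ j
    · intro j x
      refine (gapS_eq_zero (djL h.tay (p * j) (frE p v (cadj v E w) x) -
        frB k v p (djL h.tay j x) : BS k v).2).2 ?_
      refine Nul.zero.congr fun m => ?_
      change 0 = dj s (p * j) ((x : ℕ → Ω) m ^ p) - dj s j ((x : ℕ → Ω) m) ^ p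
      rw [dj_frob j (x.2.1 m), sub_self]
    · intro j x hj
      refine (gapS_eq_zero (djL h.tay j (frE p v (cadj v E w) x) : BS k v).2).2 ?_
      refine Nul.zero.congr fun m => ?_
      change 0 = dj s j ((x : ℕ → Ω) m ^ p)
      rw [dj_frob0 hj (x.2.1 m)]
  have hact : ∀ j m, ((djL h.tay j (act (frE p v (cadj v E w)) P₀ Y₁) : BS k v) : ℕ → Ω) m =
      dj s j (fev p P₀ (yn m)) := fun j m => by
    change dj s j (((act (frE p v (cadj v E w)) P₀ Y₁ : ES v (cadj v E w)) : ℕ → Ω) m) = _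
    rw [act_frE]
  refine h.seq (xn := fun m => pr 0 (Yn m)) (P₁ := P₁) (e := e) hqm hqb ?_ ?_ he ?_
  · refine ⟨max 1 J₀, fun j hj R hR0 hR => ?_⟩
    have h1 : gapS v ((djL h.tay j Q : BS k v) : ℕ → Ω) ≤ R := by
      refine domRa hFG (C := fun j => rtB hg (0 - j • γ)) (X := fun j => djL h.tay j Q)
        (Y := fun j => djL h.tay j Y₁) (E := fun j => djL h.tay j E')
        (fun j u => rtB_gap hg _ u) hX hbdQ hE0 ((le_max_left _ _).trans hj)
        ((le_max_right _ _).trans hj) (fun i hi => ?_) le_rfl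
      refine dom_Y hFG h.ne (Z := fun j => djL h.tay j (act (frE p v (cadj v E w)) P₀ Y₁))
        (Y := fun j => djL h.tay j Y₁) hZ hbdY (j := j) (fun i hi => ?_) hi
      refine (gapS_le (djL h.tay i (act (frE p v (cadj v E w)) P₀ Y₁) : BS k v).2 hR0).2 ?_
      exact (hR i hi).congr fun m => (hact i m).symm
    exact (gapS_le (djL h.tay j Q : BS k v).2 hR0).1 h1
  · intro j hj hmem hfin
    obtain ⟨J₁, hJ₁⟩ := hfin
    have hZfin : ∀ i, J₁ ≤ i →
        gapS v ((djL h.tay i (act (frE p v (cadj v E w)) P₀ Y₁) : BS k v) : ℕ → Ω) = 0 :=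
      fun i hi => (gapS_eq_zero (djL h.tay i (act (frE p v (cadj v E w)) P₀ Y₁) : BS k v).2).2
        ((hJ₁ i hi).congr fun m => (hact i m).symm)
    have hYfin : ∀ i, J₁ ≤ i → gapS v ((djL h.tay i Y₁ : BS k v) : ℕ → Ω) = 0 := fun i hi =>
      le_antisymm (dom_Y hFG h.ne
        (Z := fun j => djL h.tay j (act (frE p v (cadj v E w)) P₀ Y₁))
        (Y := fun j => djL h.tay j Y₁) hZ hbdY (j := J₁) (fun i hi => (hZfin i hi).le) hi)
        (gapS_nonneg _)
    refine domRb hFG hFS (C := fun j => rtB hg (0 - j • γ)) (X := fun j => djL h.tay j Q)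
        (Y := fun j => djL h.tay j Y₁) (E := fun j => djL h.tay j E')
        (fun j u => rtB_gap hg _ u) (fun j u hu => rtB_mem hg h.rr _ u hu) hX hbdQ hE0 hEB hj
        (fun i hi => ?_) hYfin le_rfl
    refine mem_Y hFG hFS h.ne (Z := fun j => djL h.tay j (act (frE p v (cadj v E w)) P₀ Y₁))
        (Y := fun j => djL h.tay j Y₁) hZ ⟨J₁, hYfin⟩ hj (fun i hi => ?_) hi
    exact NR.congr (hmem i hi) fun m => (hact i m).symm
  · have h2 := (((fev_nul (p := p) P₁ h.ny).add (fev_nul (p := p) P₂ h.nb)).add (Nul.of_ge (x := fun _ =>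
      pr 0 Y - (fev p P₁ y + fev p P₂ b + e)) fun _ => hq)).sub hprnul
    refine h2.congr fun m => ?_
    rw [fev_sub, fev_sub, map_sub]
    ring

/-- **(beta)**, with `q` of degree `0` and `x` without a component of degree `0`. -/
theorem beta_qx (h : GDat p v pr E w γ s RR n P₀ y b yn bn) (hg : GrP p v pr)
    {q x e e' : Ω} {r : k} (hq : Lim v (cadj v E w) 0 q) (hq0 : pr 0 q = q)
    (hx : Lim v (cadj v E w) 0 x) (hx0 : pr 0 x = 0) (he' : e' ∈ cadj v E w)
    (hrel : v.Ge 0 (q ^ p - q - x ^ p - algebraMap k Ω r * y - e')) (he : e ∈ cadj v E w)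
    (hqe : v.Ge 0 (q - (fev p P₁ y + fev p P₂ b + e))) : P₂ = 0 := by
  have h0 : pr 0 (q - x) = q := by rw [map_sub, hq0, hx0, sub_zero]
  refine h.beta' hg (Y := q - x) (e := e) (e' := e') (r := r) (P₁ := P₁) ?_ he' ?_ he ?_
  · intro ε hε
    obtain ⟨a, ha, h1⟩ := hq ε hε
    obtain ⟨b, hb, h2⟩ := hx ε hε
    refine ⟨a - b, sub_mem ha hb, ?_⟩
    refine Eq.mp (congrArg (fun w => v.Ge (0 - ε) w) ?_) (h1.sub h2)
    ring
  · rw [h0, sub_pow_char]
    refine Eq.mp (congrArg (fun w => v.Ge 0 w) ?_) hrel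
    ring
  · rwa [h0]

end GDat

end Seq

/-! ### Complements -/

section Compl

omit hp [CharP Ω p] [PerfectRing Ω p] in
theorem fev_eq_range {P : k[X]} {N : ℕ} (hN : ∀ a, N ≤ a → P.coeff a = 0) (x : Ω) :
    fev p P x = ∑ a ∈ Finset.range N, algebraMap k Ω (P.coeff a) * x ^ p ^ a := by
  rw [fev]
  refine Finset.sum_subset (fun a ha => ?_) fun a _ ha => ?_
  · rw [Finset.mem_range]
    by_contra h
    exact mem_support_iff.1 ha (hN a (not_lt.1 h))
  · rw [notMem_support_iff.1 ha, map_zero, zero_mul]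

omit hp [CharP Ω p] [PerfectRing Ω p] in
/-- The polynomial with given coefficients. -/
theorem exists_fev (a : ℕ → k) (N : ℕ) : ∃ P : k[X], (∀ j, P.coeff j = if j < N then a j else 0) ∧
    ∀ x : Ω, fev p P x = ∑ j ∈ Finset.range N, algebraMap k Ω (a j) * x ^ p ^ j := by
  have h1 : ∀ j, (∑ i ∈ Finset.range N, monomial i (a i) : k[X]).coeff j =
      if j < N then a j else 0 := by
    intro j
    rw [finsetSum_coeff]
    simp only [coeff_monomial]
    rw [Finset.sum_ite_eq' (Finset.range N) j]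
    simp only [Finset.mem_range]
  refine ⟨∑ i ∈ Finset.range N, monomial i (a i), h1, fun x => ?_⟩
  rw [fev_eq_range (N := N) fun j hj => by rw [h1, if_neg (not_lt.2 hj)]]
  refine Finset.sum_congr rfl fun j hj => ?_
  rw [h1, if_pos (Finset.mem_range.1 hj)]

/-- `P(F) = F ^ n P₀(F)`, `P₀` of lowest coefficient `≠ 0`. -/
theorem exists_shift [CharP k p] [PerfectRing k p] {P : k[X]} (hP : P ≠ 0) :
    ∃ (n : ℕ) (P₀ : k[X]), P₀.coeff 0 ≠ 0 ∧ ∀ x : Ω, fev p P x = fev p P₀ x ^ p ^ n := by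
  set n := P.natTrailingDegree with hn
  have hc : P.coeff n ≠ 0 := mem_support_iff.1 (natTrailingDegree_mem_support_of_nonzero hP)
  obtain ⟨P₀, h1, h2⟩ := exists_fev (p := p) (Ω := Ω)
    (fun j => (iterateFrobeniusEquiv k p n).symm (P.coeff (j + n))) (P.natDegree + 1)
  refine ⟨n, P₀, ?_, fun x => ?_⟩
  · rw [h1, if_pos (Nat.succ_pos _), zero_add]
    intro h3
    exact hc ((map_eq_zero_iff _ (iterateFrobeniusEquiv k p n).symm.injective).1 h3)
  · rw [h2, sum_pow_char_pow, fev_eq_range (N := P.natDegree + 1 + n) fun a ha =>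
      coeff_eq_zero_of_natDegree_lt (by omega), add_comm (P.natDegree + 1) n,
      Finset.sum_range_add, Finset.sum_eq_zero fun a ha => ?_, zero_add]
    · refine Finset.sum_congr rfl fun a _ => ?_
      have h4 : (iterateFrobeniusEquiv k p n).symm (P.coeff (a + n)) ^ p ^ n =
          P.coeff (a + n) := (iterateFrobeniusEquiv k p n).apply_symm_apply _
      rw [mul_pow, ← map_pow, h4, ← pow_mul, ← pow_add, add_comm n a]
    · have h5 : P.coeff a = 0 := by
        by_contra h6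
        have := natTrailingDegree_le_of_ne_zero h6
        rw [Finset.mem_range] at ha
        omega
      rw [h5, map_zero, zero_mul]

/-- **(BETA)** for `P(F) = F ^ n P₀(F)`. -/
theorem beta_shift {s : K →ₐ[k] PowerSeries K} {P P₀ : k[X]} {n : ℕ}
    (hPP : ∀ x : Ω, fev p P x = fev p P₀ x ^ p ^ n) {yn bn : ℕ → Ω} (hy : ∀ m, yn m ∈ K)
    (hb : ∀ i, Nul v fun m => dj s (1 + p * i) (bn m) - dj s i (fev p P (yn m)) ^ p) (i : ℕ) :
    Nul v fun m => dj s (1 + p ^ (n + 1) * i) (bn m) -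
      dj s i (fev p P₀ (yn m)) ^ p ^ (n + 1) := by
  have h1 : ∀ (a : ℕ) (j : ℕ) (x : Ω), x ∈ K →
      dj s (p ^ a * j) (x ^ p ^ a) = dj s j x ^ p ^ a := by
    intro a
    induction a with
    | zero => intro j x _; rw [pow_zero, one_mul, pow_one, pow_one]
    | succ a ih =>
      intro j x hx
      have e1 : p ^ (a + 1) * j = p * (p ^ a * j) := by rw [pow_succ]; ring
      rw [e1, pow_succ p a, pow_mul, dj_frob _ (pow_mem hx _), ih j x hx, ← pow_mul]
  have h2 := hb (p ^ n * i)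
  have e2 : 1 + p ^ (n + 1) * i = 1 + p * (p ^ n * i) := by rw [pow_succ]; ring
  rw [e2]
  refine h2.congr fun m => ?_
  rw [hPP, h1 n i _ (fev_mem P₀ (hy m)), ← pow_mul, ← pow_succ]

/-- `P(F) y ∉ A + O` for `y` of transcendental type over `A`. -/
theorem fev_far [IsAlgClosed Ω] (hk : Ctx0 k v) {B : IntermediateField k Ω} {y : Ω}
    (hy : TL v B y 0) {P : k[X]} (hP : P ≠ 0) : ¬ ∃ e ∈ B, v.Ge 0 (fev p P y - e) := by
  rintro ⟨e, he, h1⟩
  set f : Polynomial Ω := ∑ a ∈ P.support, Polynomial.C (algebraMap k Ω (P.coeff a)) * X ^ p ^ a -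
    Polynomial.C e with hf
  have hfB : f ∈ PI B := sub_mem (sum_mem fun a _ => mul_mem
    (C_mem_PI (IntermediateField.algebraMap_mem _ _)) (pow_mem (fun i => by
      rw [coeff_X]
      split_ifs
      exacts [one_mem _, zero_mem _]) _)) (C_mem_PI he)
  have hfy : f.eval y = fev p P y - e := by
    rw [hf, eval_sub, eval_C, eval_finsetSum, fev]
    congr 1
    refine Finset.sum_congr rfl fun a _ => ?_
    rw [eval_mul, eval_C, eval_pow, eval_X]
  obtain ⟨a, ha⟩ : ∃ a, P.coeff a ≠ 0 := by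
    by_contra h
    push Not at h
    exact hP (Polynomial.ext h)
  have h2 := hasse_gt_of_ge hy hfB (by rw [hfy]; exact h1) (Nat.one_le_pow a p hp.out.pos)
  have h3 : (hasseDeriv (p ^ a) f).eval y = algebraMap k Ω (P.coeff a) := by
    have h4 : ∀ i, (hasseDeriv (p ^ a) ((X : Polynomial Ω) ^ p ^ i)).eval y =
        if i = a then 1 else 0 := by
      intro i
      by_cases hi : p ^ i ∣ p ^ a
      · have hia : i ≤ a := (Nat.pow_dvd_pow_iff_le_right hp.out.one_lt).1 hi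
        have e1 : p ^ a = p ^ (a - i) * p ^ i := by
          rw [← pow_add]
          congr 1
          omega
        rw [e1, hasse_pow_mul p i y X]
        split_ifs with h5
        · rw [h5, Nat.sub_self, pow_zero, hasseDeriv_one, derivative_X, eval_one, one_pow]
        · have h6 : 2 ≤ p ^ (a - i) := by
            have : 1 ≤ a - i := by omega
            calc 2 ≤ p := hp.out.two_le
              _ = p ^ 1 := (pow_one p).symm
              _ ≤ p ^ (a - i) := Nat.pow_le_pow_right hp.out.pos this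
          rw [hasseDeriv_eq_zero_of_lt_natDegree _ _ (by rw [natDegree_X]; omega), eval_zero,
            zero_pow (pow_pos hp.out.pos i).ne']
      · rw [hasse_pow_char p i X hi, if_neg]
        rintro rfl
        exact hi dvd_rfl
    rw [hf, map_sub, map_sum, eval_sub, eval_finsetSum]
    have h5 : (hasseDeriv (p ^ a) (Polynomial.C e)).eval y = 0 := by
      rw [hasseDeriv_eq_zero_of_lt_natDegree _ _ (by
        rw [natDegree_C]
        exact pow_pos hp.out.pos a), eval_zero]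
    rw [h5, sub_zero]
    have h6 : ∀ i ∈ P.support, (hasseDeriv (p ^ a)
        (Polynomial.C (algebraMap k Ω (P.coeff i)) * X ^ p ^ i)).eval y =
        algebraMap k Ω (P.coeff i) * if i = a then 1 else 0 := by
      intro i _
      rw [← taylor_coeff, taylor_mul, taylor_C, coeff_C_mul, taylor_coeff, h4]
    rw [Finset.sum_congr rfl h6]
    simp only [mul_ite, mul_one, mul_zero]
    rw [Finset.sum_ite_eq' P.support a, if_pos (mem_support_iff.2 ha)]
  rw [h3] at h2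
  exact ha (hk.const_eq_zero h2)

end Compl

end Pool.Agent.TWIV
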