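import Pool.Agent.Lib.TWIV.FGm
import Pool.Agent.Lib.TWIV.GpH
import Pool.Agent.Lib.TWC.LemR
import Pool.Agent.Lib.TWC.Tow

/-!
# TANK W, leaf (IV), row A7.f: the limits of `B` in a tower over `B` are finitely generated

* `LSub v B T`: the elements of `T` which are limits of `B`; `OO`: the valuation ring;
* `Tow.fg`: `LSub v B T ≤ B + O + k{F} s_1 + .. + k{F} s_n`, `n` the length of the tower;
* `Tow.exists_gens`: the same, with elements.
-/

set_option autoImplicit false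
set_option linter.unusedSectionVars false

open Finset Polynomial

namespace Pool.Agent.TWIV

open Pool.Agent.H15JM (RVal)
open Pool.Agent.D2 (Ctx0)
open Pool.Agent.TWM Pool.Agent.TWC

universe u

variable {k Ω : Type u} [Field k] [Field Ω] [Algebra k Ω] {v : RVal Ω} {p : ℕ} [hp : Fact p.Prime]
  [CharP Ω p] {B T K : IntermediateField k Ω} {x y z : Ω}

/-! ### Polynomials -/

theorem fev_monomial (a : ℕ) (c : k) (x : Ω) :
    fev p (monomial a c) x = algebraMap k Ω c * x ^ p ^ a := by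
  rw [fev_eq_range (N := a + 1) fun b hb => by
    rw [coeff_monomial, if_neg (by omega)], Finset.sum_eq_single a]
  · rw [coeff_monomial, if_pos rfl]
  · intro b _ hb
    rw [coeff_monomial, if_neg (Ne.symm hb), map_zero, zero_mul]
  · intro h
    exact absurd (Finset.mem_range.2 (Nat.lt_succ_self a)) h

theorem fev_addl (P Q : k[X]) (x : Ω) : fev p (P + Q) x = fev p P x + fev p Q x := by
  rw [fev_eq_range (P := P + Q) (N := max P.natDegree Q.natDegree + 1) fun a ha => by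
      rw [coeff_add, coeff_eq_zero_of_natDegree_lt (by omega),
        coeff_eq_zero_of_natDegree_lt (by omega), add_zero],
    fev_eq_range (P := P) (N := max P.natDegree Q.natDegree + 1) fun a ha =>
      coeff_eq_zero_of_natDegree_lt (by omega),
    fev_eq_range (P := Q) (N := max P.natDegree Q.natDegree + 1) fun a ha =>
      coeff_eq_zero_of_natDegree_lt (by omega), ← Finset.sum_add_distrib]
  exact Finset.sum_congr rfl fun a _ => by rw [coeff_add, map_add, add_mul]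

theorem fev_smul_left (c : k) (P : k[X]) (x : Ω) :
    fev p (C c * P) x = algebraMap k Ω c * fev p P x := by
  rw [fev_eq_range (P := C c * P) (N := P.natDegree + 1) fun a ha => by
      rw [coeff_C_mul, coeff_eq_zero_of_natDegree_lt (by omega), mul_zero],
    fev_eq_range (P := P) (N := P.natDegree + 1) fun a ha =>
      coeff_eq_zero_of_natDegree_lt (by omega), Finset.mul_sum]
  exact Finset.sum_congr rfl fun a _ => by rw [coeff_C_mul, map_mul, mul_assoc]

theorem fev_zerol (x : Ω) : fev p (0 : k[X]) x = 0 := by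
  rw [fev, support_zero, Finset.sum_empty]

/-! ### Submodules of `Ω` -/

/-- The Frobenius as an additive map. -/
def frA (p : ℕ) [Fact p.Prime] (Ω : Type u) [Field Ω] [CharP Ω p] : Ω →+ Ω :=
  (frobenius Ω p).toAddMonoidHom

theorem frA_apply (x : Ω) : frA p Ω x = x ^ p := rfl

theorem frA_iter (a : ℕ) (x : Ω) : (frA p Ω)^[a] x = x ^ p ^ a := by
  induction a generalizing x with
  | zero => rw [pow_zero, pow_one]; rfl
  | succ a ih => rw [Function.iterate_succ_apply, ih, frA_apply, ← pow_mul, ← pow_succ']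

theorem frA_smul (c : k) (x : Ω) : frA p Ω (c • x) = c ^ p • frA p Ω x := by
  rw [frA_apply, frA_apply, _root_.smul_pow]

theorem mem_FSp : x ∈ FSp k (frA p Ω) y ↔ ∃ P : k[X], x = fev p P y := by
  constructor
  · intro h
    induction h using Submodule.span_induction with
    | mem z hz =>
      obtain ⟨a, rfl⟩ := hz
      refine ⟨monomial a 1, ?_⟩
      rw [fev_monomial, map_one, one_mul]
      exact frA_iter a y
    | zero => exact ⟨0, (fev_zerol y).symm⟩
    | add z w _ _ hz hw =>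
      obtain ⟨P, rfl⟩ := hz
      obtain ⟨Q, rfl⟩ := hw
      exact ⟨P + Q, (fev_addl P Q y).symm⟩
    | smul c z _ hz =>
      obtain ⟨P, rfl⟩ := hz
      exact ⟨C c * P, by rw [fev_smul_left, Algebra.smul_def]⟩
  · rintro ⟨P, rfl⟩
    refine sum_mem fun a _ => ?_
    rw [← Algebra.smul_def, ← frA_iter]
    exact Submodule.smul_mem _ _ (FSp_mem a)

theorem mem_FSpL {l : List Ω} : x ∈ FSpL k (frA p Ω) l ↔
    ∃ P : Fin l.length → k[X], x = ∑ i, fev p (P i) (l.get i) := by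
  induction l generalizing x with
  | nil =>
    rw [FSpL, Submodule.mem_bot]
    constructor
    · rintro rfl
      exact ⟨fun _ => 0, by simp⟩
    · rintro ⟨P, rfl⟩
      simp
  | cons y l ih =>
    rw [FSpL, Submodule.mem_sup]
    constructor
    · rintro ⟨u, hu, t, ht, rfl⟩
      obtain ⟨P, rfl⟩ := mem_FSp.1 hu
      obtain ⟨Q, rfl⟩ := ih.1 ht
      exact ⟨Fin.cons P Q, (Fin.sum_univ_succ (n := l.length) fun i : Fin (l.length + 1) =>
        fev p ((Fin.cons P Q : Fin (l.length + 1) → k[X]) i) ((y :: l).get i)).symm⟩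
    · rintro ⟨P, rfl⟩
      refine ⟨fev p (P 0) y, mem_FSp.2 ⟨_, rfl⟩, ∑ i : Fin l.length, fev p (P i.succ) (l.get i),
        ih.2 ⟨fun i => P i.succ, rfl⟩, ?_⟩
      exact (Fin.sum_univ_succ (n := l.length) fun i : Fin (l.length + 1) =>
        fev p (P i) ((y :: l).get i)).symm

section Ctx

variable [hc : Fact (Ctx0 k v)]

/-- The valuation ring. -/
def OO (k : Type u) {Ω : Type u} [Field k] [Field Ω] [Algebra k Ω] (v : RVal Ω)
    [hc : Fact (Ctx0 k v)] : Submodule k Ω where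
  carrier := {x | v.Ge 0 x}
  add_mem' hx hy := RVal.Ge.add hx hy
  zero_mem' := RVal.Ge.zero
  smul_mem' a x hx := by
    change v.Ge 0 (a • x)
    rw [Algebra.smul_def]
    have := (hc.out.ge a).mul hx
    rwa [zero_add] at this

theorem mem_OO : x ∈ OO k v ↔ v.Ge 0 x := Iff.rfl

/-- The elements of `T` which are limits of `B`. -/
def LSub (v : RVal Ω) [hc : Fact (Ctx0 k v)] (B T : IntermediateField k Ω) : Submodule k Ω where
  carrier := {x | x ∈ T ∧ Lim v B 0 x}
  add_mem' := by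
    rintro x y ⟨hx, hx'⟩ ⟨hy, hy'⟩
    refine ⟨add_mem hx hy, fun ε hε => ?_⟩
    obtain ⟨a, ha, h1⟩ := hx' ε hε
    obtain ⟨b, hb, h2⟩ := hy' ε hε
    refine ⟨a + b, add_mem ha hb, ?_⟩
    rw [add_sub_add_comm]
    exact h1.add h2
  zero_mem' := ⟨zero_mem T, fun ε _ => ⟨0, zero_mem B, by rw [sub_zero]; exact RVal.Ge.zero⟩⟩
  smul_mem' := by
    rintro c x ⟨hx, hx'⟩
    refine ⟨T.smul_mem hx, fun ε hε => ?_⟩
    obtain ⟨a, ha, h1⟩ := hx' ε hε
    refine ⟨c • a, B.smul_mem ha, ?_⟩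
    rw [← smul_sub, Algebra.smul_def]
    have := (hc.out.ge c).mul h1
    rwa [zero_add] at this

theorem mem_LSub : x ∈ LSub v B T ↔ x ∈ T ∧ Lim v B 0 x := Iff.rfl

theorem LSub_stable : ∀ w ∈ LSub v B T, frA p Ω w ∈ LSub v B T := by
  rintro w ⟨hw, hl⟩
  rw [frA_apply]
  refine ⟨pow_mem hw p, fun ε hε => ?_⟩
  have hp0 : (0 : ℝ) < p := by exact_mod_cast hp.out.pos
  obtain ⟨a, ha, h1⟩ := hl (ε / p) (by positivity)
  refine ⟨a ^ p, pow_mem ha p, ?_⟩
  rw [← sub_pow_char]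
  refine (ge_pow h1 p).mono (le_of_eq ?_)
  field_simp
  ring

/-- `K + O`. -/
def KO (v : RVal Ω) [hc : Fact (Ctx0 k v)] (K : IntermediateField k Ω) : Submodule k Ω :=
  Subalgebra.toSubmodule K.toSubalgebra ⊔ OO k v

theorem mem_KO : x ∈ KO v K ↔ ∃ a ∈ K, v.Ge 0 (x - a) := by
  rw [KO, Submodule.mem_sup]
  constructor
  · rintro ⟨a, ha, o, ho, rfl⟩
    exact ⟨a, ha, by rw [add_sub_cancel_left]; exact ho⟩
  · rintro ⟨a, ha, ho⟩
    exact ⟨a, ha, x - a, ho, add_sub_cancel _ _⟩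

theorem KO_stable : ∀ w ∈ KO v K, frA p Ω w ∈ KO v K := by
  intro w hw
  obtain ⟨a, ha, h1⟩ := mem_KO.1 hw
  refine mem_KO.2 ⟨a ^ p, pow_mem ha p, ?_⟩
  rw [frA_apply, ← sub_pow_char]
  have := ge_pow h1 p
  rwa [mul_zero] at this

variable [IsAlgClosed Ω]

/-- The limits of `B` in `B<z> + O`. -/
theorem lim_inf_KO (hz : TL v B z 0) :
    LSub v B T ⊓ KO v (cadj v B z) ≤ KO v B ⊔ FSp k (frA p Ω) z := by
  rintro x ⟨⟨-, hl⟩, hx⟩
  obtain ⟨b, hb, h1⟩ := mem_KO.1 hx
  obtain ⟨f, hf, h2⟩ := hz.dense hb 0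
  have h3 : v.Ge 0 (x - f.eval z) := by
    have := h1.add h2
    rwa [sub_add_sub_cancel] at this
  have h4 : Lim v B 0 (f.eval z) := by
    intro ε hε
    obtain ⟨a, ha, h5⟩ := hl ε hε
    refine ⟨a, ha, ?_⟩
    have h6 := h5.sub (h3.mono (show 0 - ε ≤ 0 by linarith))
    rwa [sub_sub_sub_cancel_left, ← neg_sub, neg_sub] at h6
  have hres : ResR v (cadj v B z) := fun x _ h0 => hc.out.residue h0
  obtain ⟨n, lam, e, he, h5⟩ := lemR_one (p := p) hz hres hf h4
  obtain ⟨P, -, hP⟩ := exists_fev (p := p) (Ω := Ω) lam n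
  rw [← hP] at h5
  refine Submodule.mem_sup.2 ⟨x - fev p P z, mem_KO.2 ⟨e, he, ?_⟩, fev p P z,
    mem_FSp.2 ⟨P, rfl⟩, sub_add_cancel _ _⟩
  have h6 := h3.add h5.ge
  have e1 : x - f.eval z + (f.eval z - fev p P z - e) = x - fev p P z - e := by ring
  rwa [e1] at h6

/-- **The limits of `B` in a tower of length `n` are generated by `n` elements.** -/
theorem Tow.fg {n : ℕ} (h : Tow v n B T) : ∃ l : List Ω, l.length = n ∧
    (∀ y ∈ l, y ∈ LSub v B T) ∧ LSub v B T ≤ KO v B ⊔ FSpL k (frA p Ω) l := by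
  induction h with
  | @zero B _ =>
    refine ⟨[], rfl, by simp, ?_⟩
    rw [FSpL, sup_bot_eq]
    rintro x ⟨hx, -⟩
    exact mem_KO.2 ⟨x, hx, by rw [sub_self]; exact RVal.Ge.zero⟩
  | @succ n B T z hz hT ih =>
    obtain ⟨l, h1, -, h3⟩ := ih
    have hle : cadj v B z ≤ T := TWC.Tow.le hT (cld_cadj v B z)
    have hW : LSub v B T ≤ KO v (cadj v B z) ⊔ FSpL k (frA p Ω) l := by
      refine le_trans ?_ h3
      rintro x ⟨hx, hl⟩
      exact ⟨hx, hl.mono (le_cadj v B z)⟩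
    obtain ⟨l', h4, h5, h6⟩ := sub_fg (p := p) frA_smul (KO_stable (p := p)) l (LSub v B T)
      (LSub_stable (p := p)) hW
    refine ⟨z :: l', by rw [List.length_cons, h4, h1], ?_, ?_⟩
    · intro y hy
      rcases List.mem_cons.1 hy with rfl | hy
      · exact ⟨hle (self_mem_cadj v B _), hz.lim⟩
      · exact h5 y hy
    · refine h6.trans ?_
      rw [FSpL, ← sup_assoc]
      exact sup_le_sup_right (lim_inf_KO hz) _

/-- The same, with elements. -/
theorem Tow.exists_gens {n : ℕ} (h : Tow v n B T) : ∃ S : Fin n → Ω,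
    (∀ i, S i ∈ T ∧ Lim v B 0 (S i)) ∧ ∀ x ∈ T, Lim v B 0 x →
      ∃ P : Fin n → k[X], ∃ b ∈ B, v.Ge 0 (x - b - ∑ i, fev p (P i) (S i)) := by
  obtain ⟨l, rfl, h2, h3⟩ := Tow.fg (p := p) h
  refine ⟨l.get, fun i => h2 _ (List.get_mem l i), fun x hx hl => ?_⟩
  obtain ⟨u, hu, t, ht, rfl⟩ := Submodule.mem_sup.1 (h3 ⟨hx, hl⟩)
  obtain ⟨b, hb, h4⟩ := mem_KO.1 hu
  obtain ⟨P, rfl⟩ := mem_FSpL.1 ht
  refine ⟨P, b, hb, ?_⟩
  have e : u + ∑ i, fev p (P i) (l.get i) - b - ∑ i, fev p (P i) (l.get i) = u - b := by ring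
  rw [e]
  exact h4

end Ctx

end Pool.Agent.TWIV
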