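import Pool.Agent.Lib.TWC.Poly
import Pool.Agent.Lib.TWC.Base
import Pool.Agent.Lib.TWC.HratA

/-!
# TANK W, leaf (IV), shape (1,2)': integration of a Frobenius relation

`z` of transcendental type over `A`, radius `0`; `P_0 x + P_1 x ^ p + .. + h` a formal limit of `A`,
`P_0 ≠ 0`, `x` a formal limit of `A⟨z⟩`, `h ∈ A⟨z⟩`: then `x` is in `A⟨z⟩ + L(A)`.
* `gj`: the exact jets of `x`, defined by the recursion
  `P_0 g_J = - ∑ P_i (g_(J / p ^ i)) ^ (p ^ i) - D_J h`;
* `gj_hasse`: `D_J g_L = C (J + L, J) g_(J + L)`, exactly;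
* `const_pc`: CONST without degree bound;
* `int_frob`, `lim_frob`.
-/

set_option autoImplicit false
set_option linter.unusedSectionVars false

open Polynomial

namespace Pool.Agent.TWIV

open Pool.Agent.H15JM (RVal)
open Pool.Agent.D2 (Ctx0)
open Pool.Agent.TWM
open Pool.Agent.TWC

universe u

section Alg

variable {Ω : Type u} [Field Ω] (p : ℕ) [hp : Fact p.Prime] [CharP Ω p]

theorem hasse_ppow (g : Polynomial Ω) (q J : ℕ) :
    hasseDeriv J (g ^ p ^ q) = if p ^ q ∣ J then hasseDeriv (J / p ^ q) g ^ p ^ q else 0 := by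
  induction q generalizing J with
  | zero => simp
  | succ q ih =>
    rw [pow_succ, pow_mul]
    by_cases hpJ : p ∣ J
    · obtain ⟨j, rfl⟩ := hpJ
      rw [hasse_pow_p, ih]
      by_cases hj : p ^ q ∣ j
      · obtain ⟨l, rfl⟩ := hj
        rw [if_pos (dvd_mul_right _ l), if_pos ⟨l, by ring⟩, Nat.mul_div_cancel_left _
          (Nat.pow_pos hp.out.pos), ← pow_mul]
        congr 2
        rw [show p * (p ^ q * l) = p ^ q * p * l by ring,
          Nat.mul_div_cancel_left _ (Nat.mul_pos (Nat.pow_pos hp.out.pos) hp.out.pos)]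
      · rw [if_neg hj, if_neg, zero_pow hp.out.ne_zero]
        rintro ⟨l, hl⟩
        apply hj
        refine ⟨l, Nat.eq_of_mul_eq_mul_left hp.out.pos ?_⟩
        rw [hl]
        ring
    · rw [hasse_pow_zero p _ hpJ, if_neg]
      rintro ⟨l, hl⟩
      exact hpJ ⟨p ^ q * l, by rw [hl]; ring⟩

theorem cast_choose_ppow (q n m : ℕ) : (((p ^ q * n).choose (p ^ q * m) : ℕ) : Ω) = (n.choose m : Ω) := by
  induction q with
  | zero => simp
  | succ q ih =>
    rw [show p ^ (q + 1) * n = p * (p ^ q * n) by ring, show p ^ (q + 1) * m = p * (p ^ q * m) by ring,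
      cast_choose_mul, ih]

theorem cast_choose_pzero {q n m : ℕ} (hn : p ^ q ∣ n) (hm : ¬ p ^ q ∣ m) :
    ((n.choose m : ℕ) : Ω) = 0 := by
  induction q generalizing n m with
  | zero => exact absurd (by rw [pow_zero]; exact one_dvd m) hm
  | succ q ih =>
    obtain ⟨l, rfl⟩ := hn
    by_cases h : p ∣ m
    · obtain ⟨j, rfl⟩ := h
      rw [show p ^ (q + 1) * l = p * (p ^ q * l) by ring, cast_choose_mul]
      refine ih (dvd_mul_right _ l) fun h2 => hm ?_
      obtain ⟨i, rfl⟩ := h2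
      exact ⟨i, by ring⟩
    · rw [show p ^ (q + 1) * l = p * (p ^ q * l) by ring]
      exact cast_choose_zero p h

/-- The exact jets. -/
noncomputable def gj (P : ℕ → Ω) (M : ℕ) (h : Polynomial Ω) (J : ℕ) : Polynomial Ω :=
  C (P 0)⁻¹ * (-(∑ i ∈ Finset.range M,
    if _hc : 0 < J ∧ 1 < p ∧ p ^ (i + 1) ∣ J then
      C (P (i + 1)) * gj P M h (J / p ^ (i + 1)) ^ p ^ (i + 1) else 0) - hasseDeriv J h)
termination_by J
decreasing_by exact Nat.div_lt_self _hc.1 (Nat.one_lt_pow (by omega) _hc.2.1)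

variable {P : ℕ → Ω} {M : ℕ} {h : Polynomial Ω}

/-- One term of the relation. -/
noncomputable def tj (P : ℕ → Ω) (M : ℕ) (h : Polynomial Ω) (J i : ℕ) : Polynomial Ω :=
  if p ^ (i + 1) ∣ J then C (P (i + 1)) * gj p P M h (J / p ^ (i + 1)) ^ p ^ (i + 1) else 0

theorem gj_rel (hP : P 0 ≠ 0) {J : ℕ} (hJ : 1 ≤ J) :
    C (P 0) * gj p P M h J + ∑ i ∈ Finset.range M, tj p P M h J i + hasseDeriv J h = 0 := by
  have h1 : (C (P 0) * C (P 0)⁻¹ : Polynomial Ω) = 1 := by
    rw [← C_mul, mul_inv_cancel₀ hP, C_1]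
  have h2 : (∑ i ∈ Finset.range M,
      if hc : 0 < J ∧ 1 < p ∧ p ^ (i + 1) ∣ J then
        C (P (i + 1)) * gj p P M h (J / p ^ (i + 1)) ^ p ^ (i + 1) else 0) =
      ∑ i ∈ Finset.range M, tj p P M h J i := by
    refine Finset.sum_congr rfl fun i _ => ?_
    unfold tj
    by_cases hd : p ^ (i + 1) ∣ J
    · rw [dif_pos ⟨hJ, hp.out.one_lt, hd⟩, if_pos hd]
    · rw [dif_neg fun h3 => hd h3.2.2, if_neg hd]
  rw [gj, h2, ← mul_assoc, h1, one_mul]
  ring

theorem gj_hasse (hP : P 0 ≠ 0) {J L : ℕ} (hJ : 1 ≤ J) (hL : 1 ≤ L) :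
    hasseDeriv J (gj p P M h L) = C ((J + L).choose J : Ω) * gj p P M h (J + L) := by
  induction L using Nat.strong_induction_on generalizing J with
  | _ L ih =>
    have hPC : (C (P 0) : Polynomial Ω) ≠ 0 := C_ne_zero.2 hP
    refine mul_left_cancel₀ hPC ?_
    have h1 := congrArg (hasseDeriv J) (gj_rel p (M := M) (h := h) hP hL)
    have h2 := gj_rel p (M := M) (h := h) hP (J := J + L) (by omega)
    have hC : ∀ (a : Ω) (f : Polynomial Ω), hasseDeriv J (C a * f) = C a * hasseDeriv J f := by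
      intro a f
      rw [← smul_eq_C_mul, map_smul, smul_eq_C_mul]
    rw [map_add, map_add, map_zero, map_sum, hC] at h1
    have h3 : hasseDeriv J (hasseDeriv L h) = C ((J + L).choose J : Ω) * hasseDeriv (J + L) h := by
      have h4 := congrArg (fun T => T h) (hasseDeriv_comp (R := Ω) J L)
      simp only [LinearMap.comp_apply, LinearMap.smul_apply] at h4
      rw [h4, nsmul_eq_mul]
      congr 1
    have h5 : ∀ i, hasseDeriv J (tj p P M h L i) =
        C ((J + L).choose J : Ω) * tj p P M h (J + L) i := by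
      intro i
      unfold tj
      by_cases hdL : p ^ (i + 1) ∣ L
      · obtain ⟨l, rfl⟩ := hdL
        have hpq : 0 < p ^ (i + 1) := Nat.pow_pos hp.out.pos
        rw [if_pos (dvd_mul_right _ l), hC, hasse_ppow, Nat.mul_div_cancel_left _ hpq]
        by_cases hdJ : p ^ (i + 1) ∣ J
        · obtain ⟨j, rfl⟩ := hdJ
          have hj : 1 ≤ j := Nat.one_le_iff_ne_zero.2 fun h6 => by rw [h6] at hJ; omega
          have hl : 1 ≤ l := Nat.one_le_iff_ne_zero.2 fun h6 => by rw [h6] at hL; omega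
          have hlt : l < p ^ (i + 1) * l := by
            have : 1 < p ^ (i + 1) := Nat.one_lt_pow (by omega) hp.out.one_lt
            nlinarith
          rw [if_pos (dvd_mul_right _ j), Nat.mul_div_cancel_left _ hpq, ih l hlt hj hl, ← mul_add,
            if_pos (dvd_mul_right _ _), Nat.mul_div_cancel_left _ hpq, cast_choose_ppow, mul_pow,
            ← C_pow, cast_pow_pp]
          ring
        · rw [if_neg hdJ, mul_zero, if_neg fun h6 => hdJ ((Nat.dvd_add_left (dvd_mul_right _ l)).1 h6),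
            mul_zero]
      · rw [if_neg hdL, map_zero]
        split_ifs with h6
        · have h7 : ¬ p ^ (i + 1) ∣ J := fun h8 => hdL ((Nat.dvd_add_right h8).1 h6)
          rw [cast_choose_pzero p h6 h7, C_0, zero_mul]
        · rw [mul_zero]
    rw [Finset.sum_congr rfl fun i _ => h5 i, ← Finset.mul_sum, h3] at h1
    linear_combination h1 - C ((J + L).choose J : Ω) * h2

end Alg

section Mem

variable {k Ω : Type u} [Field k] [Field Ω] [Algebra k Ω] {A : IntermediateField k Ω}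
  (p : ℕ) [hp : Fact p.Prime] [CharP Ω p] {P : ℕ → Ω} {M : ℕ} {h : Polynomial Ω}

theorem gj_mem (hP : ∀ i, P i ∈ A) (hh : h ∈ PI A) (J : ℕ) : gj p P M h J ∈ PI A := by
  induction J using Nat.strong_induction_on with
  | _ J ih =>
    rw [gj]
    refine mul_mem (C_mem_PI (inv_mem (hP 0))) (sub_mem (neg_mem (sum_mem fun i _ => ?_))
      (hasse_mem_PI hh J))
    split_ifs with hc
    · exact mul_mem (C_mem_PI (hP _)) (pow_mem (ih _ (Nat.div_lt_self hc.1
        (Nat.one_lt_pow (by omega) hc.2.1))) _)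
    · exact zero_mem _

end Mem

section Const

variable {k Ω : Type u} [Field k] [Field Ω] [Algebra k Ω] {v : RVal Ω}
  {A : IntermediateField k Ω} {z : Ω} [IsAlgClosed Ω]

/-- LEMMA CONST without degree bound. -/
theorem const_pc (h : TL v A z 0) (p : ℕ) [Fact p.Prime] [CharP Ω p] {x : ℕ → Polynomial Ω}
    (hx : PC v A z x) (hD : ∀ c, Nul v fun n => (hasseDeriv (p ^ c) (x n)).eval z) :
    ∃ m, Cau v A m ∧ Nul v (fun n => (x n).eval z - m n) := by
  have hc : Cau v (cadj v A z) fun n => (x n).eval z := by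
    refine ⟨fun i => eval_mem (PI_mono (le_cadj v A z) (hx.mem i)) (self_mem_cadj v A z),
      fun ε hε => ?_⟩
    obtain ⟨M, hM⟩ := hx.cau ε hε
    refine ⟨M, fun i j hi hj => ?_⟩
    rw [← eval_sub]
    exact hM i j hi hj
  refine const_unif h hx.mem hc fun ε hε => ?_
  obtain ⟨N, hN⟩ := hx.cau ε hε
  have key : ∀ c, v.Ge (-ε) ((hasseDeriv (p ^ c) (x N)).eval z) := by
    intro c
    obtain ⟨N', hN'⟩ := hD c ε hε
    have h1 := hN' (max N N') (le_max_right _ _)
    have h2 := hasse_ge h (sub_mem (hx.mem (max N N')) (hx.mem N))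
      (hN (max N N') N (le_max_left _ _) le_rfl) (p ^ c)
    rw [map_sub, eval_sub] at h2
    have h3 := h1.sub h2
    rwa [sub_sub_cancel] at h3
  refine ⟨N, fun n hn l hl => ?_⟩
  have h1 := hasse_all h p (hx.mem N) hl fun c _ => key c
  have h2 := hasse_ge h (sub_mem (hx.mem n) (hx.mem N)) (hN n N hn le_rfl) l
  rw [map_sub, eval_sub] at h2
  have h3 := h2.add h1
  rwa [sub_add_cancel] at h3

end Const

section Main

variable {k Ω : Type u} [Field k] [Field Ω] [Algebra k Ω] {v : RVal Ω}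
  {A : IntermediateField k Ω} {z : Ω} [IsAlgClosed Ω] (p : ℕ) [hp : Fact p.Prime] [CharP Ω p]
  {P : ℕ → Ω} {M : ℕ} {h : Polynomial Ω} {x : ℕ → Polynomial Ω} {b : ℕ → Ω}

/-- The data of the relation. -/
structure FRel (p : ℕ) (v : RVal Ω) (A : IntermediateField k Ω) (z : Ω) (P : ℕ → Ω) (M : ℕ)
    (h : Polynomial Ω) (x : ℕ → Polynomial Ω) (b : ℕ → Ω) : Prop where
  tl : TL v A z 0
  pc : PC v A z x
  memP : ∀ i, P i ∈ A
  geP : ∀ i, v.Ge 0 (P i)
  ne0 : P 0 ≠ 0
  val0 : v (P 0) = 0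
  memh : h ∈ PI A
  memb : ∀ n, b n ∈ A
  rel : Nul v fun n => ∑ i ∈ Finset.range (M + 1), P i * (x n).eval z ^ p ^ i + h.eval z - b n

theorem nul_unit_mul {c : Ω} (hc : c ≠ 0) (hv : v c = 0) {f : ℕ → Ω} (hf : Nul v fun n => c * f n) :
    Nul v f := by
  intro ε hε
  obtain ⟨N, hN⟩ := hf ε hε
  refine ⟨N, fun n hn h0 => ?_⟩
  have h1 := hN n hn (mul_ne_zero hc h0)
  rwa [v.map_mul hc h0, hv, zero_add] at h1

theorem nul_ge_mul {c : Ω} (hc : v.Ge 0 c) {f : ℕ → Ω} (hf : Nul v f) : Nul v fun n => c * f n := by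
  intro ε hε
  obtain ⟨N, hN⟩ := hf ε hε
  exact ⟨N, fun n hn => (hc.mul (hN n hn)).mono (by linarith)⟩

theorem nul_sumI {ι : Type*} (S : Finset ι) {f : ι → ℕ → Ω} (hf : ∀ i ∈ S, Nul v (f i)) :
    Nul v fun n => ∑ i ∈ S, f i n := by
  classical
  induction S using Finset.induction_on with
  | empty => simpa using (Nul.zero : Nul v _)
  | insert a S ha ih =>
    have h1 := (hf a (Finset.mem_insert_self _ _)).add
      (ih fun i hi => hf i (Finset.mem_insert_of_mem hi))
    simpa only [Finset.sum_insert ha] using h1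

theorem nul_pow {f : ℕ → Ω} (hf : Nul v f) (q : ℕ) (hq : q ≠ 0) : Nul v fun n => f n ^ q := by
  intro ε hε
  have hq' : (0 : ℝ) < q := by exact_mod_cast Nat.pos_of_ne_zero hq
  obtain ⟨N, hN⟩ := hf (ε / q) (by positivity)
  refine ⟨N, fun n hn => (ge_pow (hN n hn) q).mono ?_⟩
  have : (q : ℝ) * (-(ε / q)) = -ε := by field_simp
  rw [this]

theorem FRel.jet (H : FRel p v A z P M h x b) {J : ℕ} (hJ : 1 ≤ J) :
    Nul v fun n => (hasseDeriv J (x n)).eval z - (gj p P M h J).eval z := by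
  induction J using Nat.strong_induction_on with
  | _ J ih =>
    -- the relation, as polynomials
    set E : ℕ → Polynomial Ω := fun n =>
      ∑ i ∈ Finset.range (M + 1), C (P i) * x n ^ p ^ i + h - C (b n) with hE
    have hEm : ∀ n, E n ∈ PI A := fun n =>
      sub_mem (add_mem (sum_mem fun i _ => mul_mem (C_mem_PI (H.memP i)) (pow_mem (H.pc.mem n) _))
        H.memh) (C_mem_PI (H.memb n))
    have hEn : Nul v fun n => (E n).eval z := H.rel.congr fun n => by
      simp only [hE, eval_sub, eval_add, eval_finsetSum, eval_mul, eval_C, eval_pow]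
    have hDn : Nul v fun n => (hasseDeriv J (E n)).eval z := by
      intro ε hε
      obtain ⟨N, hN⟩ := hEn ε hε
      exact ⟨N, fun n hn => hasse_ge H.tl (hEm n) (hN n hn) J⟩
    have hC : ∀ (a : Ω) (f : Polynomial Ω), hasseDeriv J (C a * f) = C a * hasseDeriv J f := by
      intro a f
      rw [← smul_eq_C_mul, map_smul, smul_eq_C_mul]
    have hDe : ∀ n, hasseDeriv J (E n) = C (P 0) * hasseDeriv J (x n) +
        ∑ i ∈ Finset.range M, (if p ^ (i + 1) ∣ J then
          C (P (i + 1)) * hasseDeriv (J / p ^ (i + 1)) (x n) ^ p ^ (i + 1) else 0) +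
        hasseDeriv J h := by
      intro n
      simp only [hE]
      rw [map_sub, map_add, map_sum, Finset.sum_range_succ', hasseDeriv_C _ _ (by omega), sub_zero,
        pow_zero, pow_one, hC, add_comm (∑ i ∈ Finset.range M, _) (C (P 0) * _)]
      congr 2
      refine Finset.sum_congr rfl fun i _ => ?_
      rw [hC, hasse_ppow]
      split_ifs
      · rfl
      · rw [mul_zero]
    have h1 : Nul v fun n => P 0 * ((hasseDeriv J (x n)).eval z - (gj p P M h J).eval z) := by
      have h2 : Nul v fun n => ∑ i ∈ Finset.range M, (if p ^ (i + 1) ∣ J then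
          P (i + 1) * ((hasseDeriv (J / p ^ (i + 1)) (x n)).eval z -
            (gj p P M h (J / p ^ (i + 1))).eval z) ^ p ^ (i + 1) else 0) := by
        refine nul_sumI _ fun i _ => ?_
        by_cases hd : p ^ (i + 1) ∣ J
        · simp only [if_pos hd]
          have hlt : J / p ^ (i + 1) < J :=
            Nat.div_lt_self (by omega) (Nat.one_lt_pow (by omega) hp.out.one_lt)
          have hpos : 1 ≤ J / p ^ (i + 1) :=
            Nat.div_pos (Nat.le_of_dvd (by omega) hd) (Nat.pow_pos hp.out.pos)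
          exact nul_ge_mul (H.geP _) (nul_pow (ih _ hlt hpos) _ (pow_ne_zero _ hp.out.ne_zero))
        · simp only [if_neg hd]
          exact Nul.zero
      refine (hDn.sub h2).congr fun n => ?_
      have h3 := congrArg (eval z) (gj_rel p (M := M) (h := h) H.ne0 hJ)
      rw [hDe]
      simp only [eval_add, eval_mul, eval_C, eval_finsetSum, eval_zero] at h3 ⊢
      have h4 : ∑ i ∈ Finset.range M, (if p ^ (i + 1) ∣ J then
          C (P (i + 1)) * hasseDeriv (J / p ^ (i + 1)) (x n) ^ p ^ (i + 1) else 0 :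
            Polynomial Ω).eval z - ∑ i ∈ Finset.range M, (if p ^ (i + 1) ∣ J then
          P (i + 1) * ((hasseDeriv (J / p ^ (i + 1)) (x n)).eval z -
            (gj p P M h (J / p ^ (i + 1))).eval z) ^ p ^ (i + 1) else 0) =
          ∑ i ∈ Finset.range M, (tj p P M h J i).eval z := by
        rw [← Finset.sum_sub_distrib]
        refine Finset.sum_congr rfl fun i _ => ?_
        unfold tj
        split_ifs
        · rw [eval_mul, eval_mul, eval_C, eval_pow, eval_pow, sub_pow_char_pow]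
          ring
        · rw [eval_zero, sub_zero]
      linear_combination h4 + h3
    exact nul_unit_mul H.ne0 H.val0 h1

/-- The jets tend to `O`. -/
theorem FRel.jet_small (H : FRel p v A z P M h x b) {ε : ℝ} (hε : 0 < ε) :
    ∃ J₀, ∀ J, J₀ ≤ J → 1 ≤ J → v.Ge (-ε) ((gj p P M h J).eval z) := by
  obtain ⟨N, hN⟩ := H.pc.cau ε hε
  refine ⟨(x N).natDegree + 1, fun J hJ hJ1 => ?_⟩
  obtain ⟨N', hN'⟩ := H.jet p hJ1 ε hε
  have h1 := hN' (max N N') (le_max_right _ _)
  have h2 := hasse_ge H.tl (sub_mem (H.pc.mem (max N N')) (H.pc.mem N))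
    (hN (max N N') N (le_max_left _ _) le_rfl) J
  rw [map_sub, hasse_big (x N) (by omega : (x N).natDegree < J), sub_zero] at h2
  have h3 := h2.sub h1
  rwa [sub_sub_cancel] at h3

/-- The jets of high order are integral. -/
theorem FRel.jet_int (H : FRel p v A z P M h x b) (hM : M = 0 ∨ (P M ≠ 0 ∧ v (P M) = 0)) {m : ℕ}
    (hm : h.natDegree < m) : v.Ge 0 ((gj p P M h m).eval z) := by
  classical
  rcases hM with rfl | ⟨hPM, hvM⟩
  · have h1 := gj_rel p (M := 0) (h := h) H.ne0 (J := m) (by omega)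
    rw [Finset.range_zero, Finset.sum_empty, hasse_big h hm, add_zero, add_zero] at h1
    rcases mul_eq_zero.1 h1 with h2 | h2
    · exact absurd h2 (C_ne_zero.2 H.ne0)
    · rw [h2, eval_zero]
      exact RVal.Ge.zero
  rcases Nat.eq_zero_or_pos M with rfl | hM0
  · have h1 := gj_rel p (M := 0) (h := h) H.ne0 (J := m) (by omega)
    rw [Finset.range_zero, Finset.sum_empty, hasse_big h hm, add_zero, add_zero] at h1
    rcases mul_eq_zero.1 h1 with h2 | h2
    · exact absurd h2 (C_ne_zero.2 H.ne0)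
    · rw [h2, eval_zero]
      exact RVal.Ge.zero
  by_contra hc
  set g : ℕ → Ω := fun J => (gj p P M h J).eval z with hg
  have hgm : g m ≠ 0 ∧ v (g m) < 0 := by
    constructor
    · intro h0
      exact hc (by rw [show (gj p P M h m).eval z = g m from rfl, h0]; exact RVal.Ge.zero)
    · by_contra h1
      exact hc fun _ => not_lt.1 h1
  set γ := v (g m) with hγ
  obtain ⟨J₀, hJ₀⟩ := H.jet_small p (ε := -γ / 2) (by linarith [hgm.2])
  set S := (Finset.range (max J₀ (m + 1))).filter fun J => m ≤ J ∧ g J ≠ 0 ∧ v (g J) ≤ γ with hS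
  have hmS : m ∈ S := by
    rw [hS, Finset.mem_filter, Finset.mem_range]
    exact ⟨(Nat.lt_succ_self m).trans_le (le_max_right _ _), le_rfl, hgm.1, le_rfl⟩
  set m₁ := S.max' ⟨m, hmS⟩ with hm₁
  have hm₁S := S.max'_mem ⟨m, hmS⟩
  rw [← hm₁, hS, Finset.mem_filter] at hm₁S
  obtain ⟨-, hmm₁, hg₁, hv₁⟩ := hm₁S
  have hgt : ∀ J, m₁ < J → Gt v γ (g J) := by
    intro J hJ h0
    by_contra h1
    rw [not_lt] at h1
    have hJS : J ∈ S := by
      rw [hS, Finset.mem_filter, Finset.mem_range]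
      refine ⟨?_, by omega, h0, h1⟩
      by_contra h2
      rw [not_lt] at h2
      have h3 := hJ₀ J ((le_max_left _ _).trans h2) (by omega) h0
      have h4 : v (g J) = v ((gj p P M h J).eval z) := rfl
      rw [← h4] at h3
      linarith [hgm.2]
    exact absurd (S.le_max' J hJS) (by omega)
  -- the relation at `p ^ M * m₁`
  have hp1 : (1 : ℝ) < p := by exact_mod_cast hp.out.one_lt
  obtain ⟨M', rfl⟩ : ∃ M', M = M' + 1 := ⟨M - 1, by omega⟩
  have hppos : ∀ q, 0 < p ^ q := fun q => Nat.pow_pos hp.out.pos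
  have hm10 : 0 < m₁ := by omega
  have hrel := congrArg (eval z) (gj_rel p (M := M' + 1) (h := h) H.ne0 (J := p ^ (M' + 1) * m₁)
    (Nat.mul_pos (hppos _) hm10))
  have hbig : h.natDegree < p ^ (M' + 1) * m₁ := by
    have := Nat.le_mul_of_pos_left m₁ (hppos (M' + 1))
    omega
  rw [hasse_big h hbig, add_zero, Finset.sum_range_succ, eval_add, eval_add, eval_zero, eval_mul,
    eval_C, eval_finsetSum] at hrel
  have htop : (tj p P (M' + 1) h (p ^ (M' + 1) * m₁) M').eval z = P (M' + 1) * g m₁ ^ p ^ (M' + 1) := by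
    unfold tj
    rw [if_pos (dvd_mul_right _ _), Nat.mul_div_cancel_left _ (hppos _), eval_mul, eval_C, eval_pow]
  rw [htop] at hrel
  have hlow : Gt v ((p : ℝ) ^ M' * γ) (P (M' + 1) * g m₁ ^ p ^ (M' + 1)) := by
    have e1 : P (M' + 1) * g m₁ ^ p ^ (M' + 1) =
        -(P 0 * (gj p P (M' + 1) h (p ^ (M' + 1) * m₁)).eval z +
          ∑ i ∈ Finset.range M', (tj p P (M' + 1) h (p ^ (M' + 1) * m₁) i).eval z) := by
      linear_combination hrel
    rw [e1]
    have hpM : ∀ i, i ≤ M' → (p : ℝ) ^ M' * γ ≤ (p : ℝ) ^ i * γ := by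
      intro i hi
      have h1 : (p : ℝ) ^ i ≤ (p : ℝ) ^ M' := pow_le_pow_right₀ hp1.le hi
      nlinarith [hgm.2]
    refine (Gt.add ?_ (Gt.sum _ _ fun i hi => ?_)).neg
    · have h1 := hgt (p ^ (M' + 1) * m₁) (by
        have : 1 < p ^ (M' + 1) := Nat.one_lt_pow (by omega) hp.out.one_lt
        nlinarith)
      have h2 := Gt.mul_ge h1 (H.geP 0)
      rw [mul_comm (g _), add_zero] at h2
      exact h2.mono (by have := hpM 0 (Nat.zero_le _); rwa [pow_zero, one_mul] at this)
    · have hi' := Finset.mem_range.1 hi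
      unfold tj
      have hd : p ^ (i + 1) ∣ p ^ (M' + 1) * m₁ := (pow_dvd_pow p (by omega)).mul_right m₁
      rw [if_pos hd, eval_mul, eval_C, eval_pow]
      have hq : p ^ (M' + 1) * m₁ / p ^ (i + 1) = p ^ (M' - i) * m₁ := by
        have : p ^ (M' + 1) * m₁ = p ^ (i + 1) * (p ^ (M' - i) * m₁) := by
          rw [← mul_assoc, ← pow_add]
          congr 2
          omega
        rw [this, Nat.mul_div_cancel_left _ (hppos _)]
      rw [hq]
      have h1 := hgt (p ^ (M' - i) * m₁) (by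
        have : 1 < p ^ (M' - i) := Nat.one_lt_pow (by omega) hp.out.one_lt
        nlinarith)
      have h2 : Gt v ((p : ℝ) ^ (i + 1) * γ) (g (p ^ (M' - i) * m₁) ^ p ^ (i + 1)) := by
        intro h0
        have h3 : g (p ^ (M' - i) * m₁) ≠ 0 := fun h4 => h0 (by
          rw [h4, zero_pow (hppos _).ne'])
        rw [RVal.map_pow _ h3]
        push_cast
        have := h1 h3
        have hpp : (0 : ℝ) < (p : ℝ) ^ (i + 1) := by positivity
        nlinarith
      have h3 := Gt.mul_ge h2 (H.geP (i + 1))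
      rw [mul_comm (g _ ^ _), add_zero] at h3
      exact h3.mono (hpM (i + 1) (by omega))
  have h1 := hlow (mul_ne_zero hPM (pow_ne_zero _ hg₁))
  rw [v.map_mul hPM (pow_ne_zero _ hg₁), hvM, zero_add, RVal.map_pow _ hg₁] at h1
  push_cast at h1
  have h2 : (p : ℝ) ^ (M' + 1) * v (g m₁) ≤ (p : ℝ) ^ (M' + 1) * γ :=
    mul_le_mul_of_nonneg_left hv₁ (by positivity)
  have h3 : (p : ℝ) ^ (M' + 1) * γ ≤ (p : ℝ) ^ M' * γ := by
    rw [pow_succ]
    have h4 : (p : ℝ) ^ M' * γ < 0 := mul_neg_of_pos_of_neg (by positivity) hgm.2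
    nlinarith
  linarith

/-- The exact primitive. -/
theorem FRel.exists_prim (H : FRel p v A z P M h x b) (hM : M = 0 ∨ (P M ≠ 0 ∧ v (P M) = 0)) :
    ∃ F ∈ PI A, ∀ c, Nul v fun n => (hasseDeriv (p ^ c) (x n - F)).eval z := by
  have hp1 := hp.out.one_lt
  obtain ⟨N, hN⟩ : ∃ N, h.natDegree < p ^ N := ⟨h.natDegree, Nat.lt_pow_self hp1⟩
  have hpos : ∀ c, 1 ≤ p ^ c := fun c => Nat.pow_pos hp.out.pos
  have hint : ∀ c, N ≤ c → v.Ge 0 ((gj p P M h (p ^ c)).eval z) := fun c hc =>
    H.jet_int p hM (hN.trans_le (Nat.pow_le_pow_right hp.out.pos hc))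
  set bb : ℕ → Polynomial Ω := fun c => if c < N then gj p P M h (p ^ c) else 0 with hbb
  have hgm : ∀ J, gj p P M h J ∈ PI A := gj_mem p H.memP H.memh
  have hsym : ∀ c c', hasseDeriv (p ^ c') (gj p P M h (p ^ c)) =
      hasseDeriv (p ^ c) (gj p P M h (p ^ c')) := by
    intro c c'
    rw [gj_hasse p H.ne0 (hpos c') (hpos c), gj_hasse p H.ne0 (hpos c) (hpos c'),
      add_comm (p ^ c') (p ^ c)]
    congr 2
    rw [← Nat.choose_symm_add]
  have hsm : ∀ c c', N ≤ c' → Gt v 0 ((hasseDeriv (p ^ c') (gj p P M h (p ^ c))).eval z) := by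
    intro c c' hc'
    rw [hsym]
    exact hasse_gt_of_ge H.tl (hgm _) (hint c' hc') (hpos c)
  obtain ⟨F, hF, hFb⟩ := int_lemma H.tl p (N := N) (b := bb) (fun c => by
      simp only [hbb]
      split_ifs
      · exact hgm _
      · exact zero_mem _)
    (fun c hc => by simp only [hbb]; rw [if_neg (by omega)])
    (fun c c' => by
      simp only [hbb]
      by_cases hc : c < N
      · by_cases hc' : c' < N
        · rw [if_pos hc, if_pos hc', hsym c c', sub_self, eval_zero]
          exact Gt.zero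
        · rw [if_pos hc, if_neg hc', map_zero, sub_zero]
          exact hsm c c' (by omega)
      · by_cases hc' : c' < N
        · rw [if_neg hc, if_pos hc', map_zero, zero_sub, eval_neg]
          exact (hsm c' c (by omega)).neg
        · rw [if_neg hc, if_neg hc', map_zero, map_zero, sub_zero, eval_zero]
          exact Gt.zero)
    (fun c => by
      have h1 : ∀ j, ∃ a : Ω, (⇑(hasseDeriv (R := Ω) (p ^ c)))^[j] (gj p P M h (p ^ c)) =
          C a * gj p P M h ((j + 1) * p ^ c) := by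
        intro j
        induction j with
        | zero => exact ⟨1, by simp⟩
        | succ j ih =>
          obtain ⟨a, ha⟩ := ih
          refine ⟨a * ((p ^ c + (j + 1) * p ^ c).choose (p ^ c) : Ω), ?_⟩
          rw [Function.iterate_succ_apply', ha, ← smul_eq_C_mul, map_smul, smul_eq_C_mul,
            gj_hasse p H.ne0 (hpos c) (Nat.mul_pos (Nat.succ_pos j) (hpos c)), C_mul, mul_assoc,
            show p ^ c + (j + 1) * p ^ c = (j + 1 + 1) * p ^ c by ring]
      simp only [hbb]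
      split_ifs
      · obtain ⟨p', hp'⟩ : ∃ p', p - 1 = p' + 1 := ⟨p - 2, by omega⟩
        obtain ⟨a, ha⟩ := h1 p'
        rw [hp', Function.iterate_succ_apply', ha, ← smul_eq_C_mul, map_smul, smul_eq_C_mul,
          gj_hasse p H.ne0 (hpos c) (Nat.mul_pos (Nat.succ_pos p') (hpos c))]
        have h2 : ((p ^ c + (p' + 1) * p ^ c).choose (p ^ c) : Ω) = 0 := by
          have e1 : p ^ c + (p' + 1) * p ^ c = p ^ (c + 1) * 1 := by
            rw [mul_one, pow_succ', ← hp', show p ^ c + (p - 1) * p ^ c = (1 + (p - 1)) * p ^ c by ring]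
            congr 1
            omega
          rw [e1, CharP.cast_eq_zero_iff Ω p]
          exact dvd_choose_of_lt 1 (Nat.lt_succ_self c)
        rw [h2, C_0, zero_mul, mul_zero, eval_zero]
        exact Gt.zero
      · have h3 : ∀ j, (⇑(hasseDeriv (R := Ω) (p ^ c)))^[j] (0 : Polynomial Ω) = 0 := by
          intro j
          induction j with
          | zero => rfl
          | succ j ih => rw [Function.iterate_succ_apply', ih, map_zero]
        rw [h3, eval_zero]
        exact Gt.zero)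
  refine ⟨F, hF, fun c => ?_⟩
  have h1 := H.jet p (hpos c)
  have h2 : v.Ge 0 ((gj p P M h (p ^ c)).eval z - (bb c).eval z) := by
    simp only [hbb]
    split_ifs with hc
    · rw [sub_self]; exact RVal.Ge.zero
    · rw [eval_zero, sub_zero]; exact hint c (by omega)
  have h3 : v.Ge 0 ((hasseDeriv (p ^ c) F).eval z - (bb c).eval z) := by
    rw [← eval_sub]; exact (hFb c).ge
  refine (h1.add (Nul.of_ge (v := v) fun _ => h2.sub h3)).congr fun n => ?_
  rw [map_sub, eval_sub]
  ring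

theorem FRel.spl (H : FRel p v A z P M h x b) (hM : M = 0 ∨ (P M ≠ 0 ∧ v (P M) = 0)) :
    ∃ F m, Spl v A z x F m := by
  obtain ⟨F, hF, h1⟩ := H.exists_prim p hM
  have h2 : PC v A z fun n => x n - F := by
    refine ⟨fun n => sub_mem (H.pc.mem n) hF, fun ε hε => ?_⟩
    obtain ⟨N, hN⟩ := H.pc.cau ε hε
    refine ⟨N, fun i j hi hj => ?_⟩
    rw [sub_sub_sub_cancel_right]
    exact hN i j hi hj
  obtain ⟨m, hm, hmn⟩ := const_pc H.tl p h2 h1
  exact ⟨F, m, hF, hm, hmn.congr fun n => by rw [eval_sub]⟩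

end Main

section Fin

variable {k Ω : Type u} [Field k] [Field Ω] [Algebra k Ω] {v : RVal Ω}
  {A : IntermediateField k Ω} {z : Ω} [IsAlgClosed Ω] (p : ℕ) [hp : Fact p.Prime] [CharP Ω p]

/-- Integration of a Frobenius relation, for sequences of polynomials. -/
theorem int_frob (hk : Ctx0 k v) (hz : TL v A z 0) {P : ℕ → k} {M : ℕ} (hP : P 0 ≠ 0)
    {h : Polynomial Ω} (hh : h ∈ PI A) {x : ℕ → Polynomial Ω} (hx : PC v A z x) {b : ℕ → Ω}
    (hb : ∀ n, b n ∈ A)
    (hrel : Nul v fun n => ∑ i ∈ Finset.range (M + 1),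
      algebraMap k Ω (P i) * (x n).eval z ^ p ^ i + h.eval z - b n) :
    ∃ F m, Spl v A z x F m := by
  induction M with
  | zero =>
    exact FRel.spl (P := fun i => algebraMap k Ω (P i)) (M := 0) p
      ⟨hz, hx, fun i => A.algebraMap_mem _, fun i => hk.ge _,
        (_root_.map_ne_zero _).2 hP, hk.triv _ hP, hh, hb, hrel⟩ (Or.inl rfl)
  | succ M ih =>
    by_cases hPM : P (M + 1) = 0
    · refine ih (hrel.congr fun n => ?_)
      rw [Finset.sum_range_succ _ (M + 1), hPM, map_zero, zero_mul, add_zero]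
    · exact FRel.spl (P := fun i => algebraMap k Ω (P i)) (M := M + 1) p
        ⟨hz, hx, fun i => A.algebraMap_mem _, fun i => hk.ge _,
          (_root_.map_ne_zero _).2 hP, hk.triv _ hP, hh, hb, hrel⟩
        (Or.inr ⟨(_root_.map_ne_zero _).2 hPM, hk.triv _ hPM⟩)

/-- Approximating polynomials of a limit. -/
theorem exists_pcI (hz : TL v A z 0) {w : Ω} (hw : Lim v (cadj v A z) 0 w) :
    ∃ x, PC v A z x ∧ Nul v fun n => w - (x n).eval z := by
  obtain ⟨m, hm, hmn⟩ := Lim.exists_cau hw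
  choose x hx hxm using fun n => hz.dense (hm.mem n) 0
  have h1 : Nul v fun n => w - (x n).eval z :=
    (hmn.add (Nul.of_ge hxm)).congr fun n => by ring
  refine ⟨x, ⟨hx, fun ε hε => ?_⟩, h1⟩
  obtain ⟨N, hN⟩ := h1 ε hε
  refine ⟨N, fun i j hi hj => ?_⟩
  rw [eval_sub, show (x i).eval z - (x j).eval z = (w - (x j).eval z) - (w - (x i).eval z) by ring]
  exact (hN j hj).sub (hN i hi)

/-- Integration of a Frobenius relation: `P_0 w + P_1 w ^ p + .. + h` a limit of `A`, `P_0 ≠ 0`. -/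
theorem lim_frob (hk : Ctx0 k v) (hz : TL v A z 0) {P : ℕ → k} {M : ℕ} (hP : P 0 ≠ 0)
    {h w : Ω} (hh : h ∈ cadj v A z) (hw : Lim v (cadj v A z) 0 w)
    (hrel : Lim v A 0 (∑ i ∈ Finset.range (M + 1), algebraMap k Ω (P i) * w ^ p ^ i + h)) :
    ∃ F ∈ PI A, Lim v A 0 (w - F.eval z) := by
  obtain ⟨x, hx, hxw⟩ := exists_pcI hz hw
  obtain ⟨h', hh', hhh⟩ := hz.dense hh 0
  obtain ⟨b, hb, hbn⟩ := Lim.exists_cau hrel
  have h1 : Nul v fun n => ∑ i ∈ Finset.range (M + 1),
      algebraMap k Ω (P i) * (w - (x n).eval z) ^ p ^ i :=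
    nul_sumI _ fun i _ => nul_ge_mul (hk.ge _) (nul_pow hxw _ (pow_ne_zero _ hp.out.ne_zero))
  obtain ⟨F, m, hF⟩ := int_frob p hk hz (h := h') (b := b) hP hh' hx hb.mem (by
    refine ((hbn.sub h1).sub (Nul.of_ge (v := v) fun _ => hhh)).congr fun n => ?_
    have h2 : ∑ i ∈ Finset.range (M + 1), algebraMap k Ω (P i) * (w - (x n).eval z) ^ p ^ i =
        ∑ i ∈ Finset.range (M + 1), algebraMap k Ω (P i) * w ^ p ^ i -
          ∑ i ∈ Finset.range (M + 1), algebraMap k Ω (P i) * (x n).eval z ^ p ^ i := by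
      rw [← Finset.sum_sub_distrib]
      exact Finset.sum_congr rfl fun i _ => by rw [sub_pow_char_pow]; ring
    rw [h2]
    ring)
  refine ⟨F, hF.mem, Lim.of_nul hF.cau.mem ((hxw.add hF.nul).congr fun n => ?_)⟩
  ring

end Fin

end Pool.Agent.TWIV
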