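import Pool.Agent.Lib.TWIV.Beta
import Pool.Agent.Lib.TWIV.IntF

/-!
# TANK W, leaf (IV), shape (1,2)': the limits of `A` in `A<y><z>`

`B = A<y>`, `T = B<z>`, and some element of `T` is a limit of `A` up to `0` and not in `B + O`.
`str12`: there are `m` and `h ∈ B` such that `b = z ^ (p ^ m) + h` is a limit of `A`, and the limits
of `A` in `T` are the `P₁(F) y + P₂(F) b + e`, `e ∈ A`; if `m ≥ 1` then `z ^ (p ^ (m - 1))` is not
in `B + L(A)`.
-/

set_option autoImplicit false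
set_option linter.unusedSectionVars false

open Polynomial

namespace Pool.Agent.TWIV

open Pool.Agent.H15JM (RVal)
open Pool.Agent.D2 (Ctx0)
open Pool.Agent.TWM
open Pool.Agent.TWC (Nul Cau germ_res)

universe u

variable {k Ω : Type u} [Field k] [Field Ω] [Algebra k Ω] [IsAlgClosed Ω] {v : RVal Ω} {p : ℕ}
  [hp : Fact p.Prime] [CharP Ω p] {A B : IntermediateField k Ω} {y z : Ω}

theorem tl_pow_powB (p : ℕ) [hp : Fact p.Prime] [CharP Ω p] (h : TL v A z 0) (j : ℕ) :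
    TL v A (z ^ p ^ j) 0 := by
  induction j with
  | zero => rwa [pow_zero, pow_one]
  | succ j ih =>
    rw [pow_succ, pow_mul]
    exact tl_powB p ih

theorem Lim.of_ge_sub {x x' : Ω} (h : Lim v A 0 x) (hx : v.Ge 0 (x' - x)) : Lim v A 0 x' := by
  intro ε hε
  obtain ⟨a, ha, h1⟩ := h ε hε
  refine ⟨a, ha, ?_⟩
  rw [show x' - a = (x' - x) + (x - a) by ring]
  exact (hx.mono (by linarith)).add h1

theorem Lim.add' {x x' : Ω} (h : Lim v A 0 x) (h' : Lim v A 0 x') : Lim v A 0 (x + x') := by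
  intro ε hε
  obtain ⟨a, ha, h1⟩ := h ε hε
  obtain ⟨a', ha', h1'⟩ := h' ε hε
  exact ⟨a + a', add_mem ha ha', by rw [add_sub_add_comm]; exact h1.add h1'⟩

theorem Lim.neg' {x : Ω} (h : Lim v A 0 x) : Lim v A 0 (-x) := by
  intro ε hε
  obtain ⟨a, ha, h1⟩ := h ε hε
  exact ⟨-a, neg_mem ha, by rw [show -x - -a = -(x - a) by ring]; exact h1.neg⟩

theorem Lim.sub' {x x' : Ω} (h : Lim v A 0 x) (h' : Lim v A 0 x') : Lim v A 0 (x - x') := by
  rw [sub_eq_add_neg]
  exact Lim.add' h (Lim.neg' h')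

theorem Lim.fevB (hk : Ctx0 k v) {x : Ω} (h : Lim v A 0 x) (P : k[X]) :
    Lim v A 0 (fev p P x) := by
  have _ : Fact (Ctx0 k v) := ⟨hk⟩
  obtain ⟨m, hm, hmn⟩ := TWC.Lim.exists_cau h
  exact TWC.Lim.of_nul (m := fun n => fev p P (m n)) (fun n => fev_mem P (hm.mem n))
    ((fev_nul (p := p) P hmn).congr fun n => fev_sub P _ _)

/-- The lowest term of a limit of `A`. -/
theorem low_term (hk : Ctx0 k v) (hy : TL v A y 0) (hz : TL v (cadj v A y) z 0) {c : ℕ → k}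
    {N : ℕ} {h : Ω} (hh : h ∈ cadj v A y)
    (hl : Lim v A 0 (∑ i ∈ Finset.range N, algebraMap k Ω (c i) * z ^ p ^ i + h)) {i₀ : ℕ}
    (hi : i₀ < N) (hc : c i₀ ≠ 0) :
    ∃ j ≤ i₀, ∃ h' ∈ cadj v A y, Lim v A 0 (z ^ p ^ j + h') := by
  classical
  have hex : ∃ j, c j ≠ 0 := ⟨i₀, hc⟩
  set j := Nat.find hex with hj
  have hcj : c j ≠ 0 := Nat.find_spec hex
  have hji : j ≤ i₀ := Nat.find_min' hex hc
  have hlt : ∀ i < j, c i = 0 := fun i hi => by
    by_contra h1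
    exact Nat.find_min hex hi h1
  obtain ⟨M, rfl⟩ : ∃ M, N = j + (M + 1) := ⟨N - j - 1, by omega⟩
  rw [Finset.sum_range_add, Finset.sum_eq_zero fun i hi => by
    rw [hlt i (Finset.mem_range.1 hi), map_zero, zero_mul], zero_add] at hl
  obtain ⟨F, hF, h1⟩ := lim_frob p hk hy (P := fun i => c (j + i)) (M := M) (w := z ^ p ^ j) hcj hh
    (tl_pow_powB p hz j).lim (by
      simp only [← pow_mul, ← pow_add]
      exact hl)
  refine ⟨j, hji, -F.eval y, neg_mem (eval_mem (PI_mono (le_cadj v A y) hF)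
    (self_mem_cadj v A y)), ?_⟩
  rw [← sub_eq_add_neg]
  exact h1

/-- **The limits of `A` in `A<y><z>`.** -/
theorem str12 (hk : Ctx0 k v) (hy : TL v A y 0) (hz : TL v (cadj v A y) z 0) {b₀ : Ω}
    (hb₀ : b₀ ∈ cadj v (cadj v A y) z) (hl : Lim v A 0 b₀) (hn : ¬ Nr v (cadj v A y) 0 b₀) :
    ∃ (m : ℕ) (h : Ω), h ∈ cadj v A y ∧ Lim v A 0 (z ^ p ^ m + h) ∧
      (∀ x ∈ cadj v (cadj v A y) z, Lim v A 0 x → ∃ P₁ P₂ : k[X], ∃ e ∈ A,
        v.Ge 0 (x - (fev p P₁ y + fev p P₂ (z ^ p ^ m + h) + e))) ∧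
      (1 ≤ m → ∀ h₀ ∈ cadj v A y, ¬ Lim v A 0 (z ^ p ^ (m - 1) + h₀)) := by
  classical
  have hAB := le_cadj v A y
  have hlB : ∀ x, Lim v A 0 x → Lim v (cadj v A y) 0 x := fun x hx ε hε => by
    obtain ⟨a, ha, h1⟩ := hx ε hε
    exact ⟨a, hAB ha, h1⟩
  -- existence
  have hex : ∃ m, ∃ h ∈ cadj v A y, Lim v A 0 (z ^ p ^ m + h) := by
    obtain ⟨e, he, N, c, h1⟩ := germ_res hk hz p hb₀ (hlB _ hl)
    have h2 : ∃ i < N, c i ≠ 0 := by
      by_contra h3
      push Not at h3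
      refine hn ⟨e, he, ?_⟩
      rw [Finset.sum_eq_zero fun i hi => by
        rw [h3 i (Finset.mem_range.1 hi), map_zero, zero_mul], add_zero] at h1
      exact h1.ge
    obtain ⟨i₀, hi, hc⟩ := h2
    obtain ⟨j, -, h', hh', h3⟩ := low_term hk hy hz (c := c) he (Lim.of_ge_sub hl (by
      have h4 := h1.ge.neg
      rw [show (∑ i ∈ Finset.range N, algebraMap k Ω (c i) * z ^ p ^ i + e) - b₀ =
        -(b₀ - (e + ∑ i ∈ Finset.range N, algebraMap k Ω (c i) * z ^ p ^ i)) by ring]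
      exact h4)) hi hc
    exact ⟨j, h', hh', h3⟩
  obtain ⟨h, hh, h1⟩ := Nat.find_spec hex
  set m := Nat.find hex with hm
  have hmin : ∀ j < m, ∀ h₀ ∈ cadj v A y, ¬ Lim v A 0 (z ^ p ^ j + h₀) := fun j hj h₀ hh₀ h2 =>
    Nat.find_min hex hj ⟨h₀, hh₀, h2⟩
  refine ⟨m, h, hh, h1, ?_, fun h2 => hmin (m - 1) (by omega)⟩
  intro x hx hxl
  obtain ⟨e, he, N, c, h2⟩ := germ_res hk hz p hx (hlB _ hxl)
  -- the quotient
  obtain ⟨P₂, -, hP₂⟩ := exists_fev (p := p) (Ω := Ω)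
    (fun i => if m + i < N then c (m + i) else 0) N
  set b := z ^ p ^ m + h with hb
  have h3 : Lim v A 0 (x - fev p P₂ b) := Lim.sub' hxl (Lim.fevB hk h1 P₂)
  have e1 : ∑ i ∈ Finset.range N, algebraMap k Ω (c i) * z ^ p ^ i - fev p P₂ b =
      ∑ i ∈ Finset.range m, algebraMap k Ω (if i < N then c i else 0) * z ^ p ^ i -
        fev p P₂ h := by
    rw [hP₂, hP₂, hb]
    have e2 : ∀ i, (z ^ p ^ m + h) ^ p ^ i = z ^ p ^ (m + i) + h ^ p ^ i := fun i => by
      rw [add_pow_char_pow, ← pow_mul, ← pow_add]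
    simp only [e2, mul_add, Finset.sum_add_distrib]
    have e3 : ∑ i ∈ Finset.range N, algebraMap k Ω (c i) * z ^ p ^ i =
        ∑ i ∈ Finset.range (m + N), algebraMap k Ω (if i < N then c i else 0) * z ^ p ^ i := by
      rw [← Finset.sum_subset (Finset.range_subset_range.2 (Nat.le_add_left N m))]
      · refine Finset.sum_congr rfl fun i hi => ?_
        rw [if_pos (Finset.mem_range.1 hi)]
      · intro i _ hi
        rw [if_neg (fun h => hi (Finset.mem_range.2 h)), map_zero, zero_mul]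
    rw [e3, Finset.sum_range_add]
    ring
  have hr : fev p P₂ h ∈ cadj v A y := fev_mem P₂ hh
  have h4 : Lim v A 0 (∑ i ∈ Finset.range m, algebraMap k Ω (if i < N then c i else 0) *
      z ^ p ^ i + (e - fev p P₂ h)) := by
    refine Lim.of_ge_sub h3 ?_
    have h5 := h2.ge.neg
    rw [show ∑ i ∈ Finset.range m, algebraMap k Ω (if i < N then c i else 0) * z ^ p ^ i +
      (e - fev p P₂ h) - (x - fev p P₂ b) =
      -(x - (e + ∑ i ∈ Finset.range N, algebraMap k Ω (c i) * z ^ p ^ i)) by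
        linear_combination -e1]
    exact h5
  have h5 : ∀ i < m, (if i < N then c i else 0) = 0 := by
    intro i hi
    by_contra h6
    obtain ⟨j, hj, h', hh', h7⟩ := low_term hk hy hz (c := fun i => if i < N then c i else 0)
      (sub_mem he hr) h4 hi h6
    exact hmin j (by omega) h' hh' h7
  have e0 : ∑ i ∈ Finset.range m, algebraMap k Ω (if i < N then c i else 0) * z ^ p ^ i = 0 :=
    Finset.sum_eq_zero fun i hi => by rw [h5 i (Finset.mem_range.1 hi), map_zero, zero_mul]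
  rw [e0, zero_add] at h4
  rw [e0] at e1
  -- the first floor
  obtain ⟨e', he', N', c', h6⟩ := germ_res hk hy p (sub_mem he hr) h4
  obtain ⟨P₁, -, hP₁⟩ := exists_fev (p := p) (Ω := Ω) c' N'
  refine ⟨P₁, P₂, e', he', ?_⟩
  rw [hP₁, show x - (∑ j ∈ Finset.range N', algebraMap k Ω (c' j) * y ^ p ^ j + fev p P₂ b + e') =
    (x - (e + ∑ i ∈ Finset.range N, algebraMap k Ω (c i) * z ^ p ^ i)) +
    (e - fev p P₂ h - (e' + ∑ i ∈ Finset.range N', algebraMap k Ω (c' i) * y ^ p ^ i)) by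
      linear_combination e1]
  exact h2.ge.add h6.ge

end Pool.Agent.TWIV
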