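import Pool.Agent.Lib.TWIV.OTb
import Pool.Agent.Lib.TWIV.Str12

/-!
# TANK W, tame case, shape (1,2)': operators

* `lim_of_fev`: `P(F) y ∈ E_1 + L(E)`, `P ≠ 0`, `y` a limit of `E_1 = E<y_1>`: `y ∈ E_1 + L(E)`;
* `Gen2`: `x = P_1(F) y + P_2(F) b + e` for the limits `x` of `A` in `T`; `Gen2.chg`.
-/

set_option autoImplicit false
set_option linter.unusedSectionVars false

open Polynomial

namespace Pool.Agent.TWIV

open Pool.Agent.H15JM (RVal)
open Pool.Agent.D2 (Ctx0)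
open Pool.Agent.TWM Pool.Agent.TWC
open Pool.Agent.TWS (IsoE SphC)

universe u

variable {k Ω : Type u} [Field k] [Field Ω] [Algebra k Ω]
  [IsAlgClosed Ω] {v : RVal Ω} {p : ℕ} [hp : Fact p.Prime]
  [CharP k p] [PerfectRing k p] [CharP Ω p]
  {A E T : IntermediateField k Ω} {y₁ y b : Ω}

theorem fev_add_right (P : k[X]) (x x' : Ω) : fev p P (x + x') = fev p P x + fev p P x' := by
  rw [fev, fev, fev, ← Finset.sum_add_distrib]
  refine Finset.sum_congr rfl fun a _ => ?_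
  rw [add_pow_char_pow, mul_add]

theorem fevO_add (P Q : k[X]) (x : Ω) : fev p (P + Q) x = fev p P x + fev p Q x := by
  have h1 : ∀ P : k[X], ∀ M, P.natDegree < M → fev p P x =
      ∑ a ∈ Finset.range M, algebraMap k Ω (P.coeff a) * x ^ p ^ a := fun P M hM =>
    fev_eq_range (fun a ha => coeff_eq_zero_of_natDegree_lt (by omega)) x
  set M := max P.natDegree Q.natDegree + 1 with hM
  rw [h1 P M (by omega), h1 Q M (by omega), h1 (P + Q) M
    (lt_of_le_of_lt (natDegree_add_le _ _) (by omega)), ← Finset.sum_add_distrib]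
  refine Finset.sum_congr rfl fun a _ => ?_
  rw [coeff_add, map_add, add_mul]

theorem fevO_zero (x : Ω) : fev p (0 : k[X]) x = 0 := by
  rw [fev, support_zero, Finset.sum_empty]

theorem fev_cmul (P : k[X]) (c : k) : ∃ P' : k[X], ∀ x : Ω,
    fev p P (algebraMap k Ω c * x) = fev p P' x := by
  obtain ⟨P', -, h⟩ := exists_fev (p := p) (Ω := Ω) (fun j => P.coeff j * c ^ p ^ j)
    (P.natDegree + 1)
  refine ⟨P', fun x => ?_⟩
  rw [h, fev_eq_range (N := P.natDegree + 1) fun a ha => coeff_eq_zero_of_natDegree_lt (by omega)]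
  refine Finset.sum_congr rfl fun a _ => ?_
  rw [mul_pow, map_mul, map_pow]
  ring

theorem ev_one_eq_fev (P : k[X]) (x : Ω) : ev p (fun _ => (1 : Ω)) 0 0 P x = fev p P x := by
  rw [ev, Polynomial.sum, fev]
  exact Finset.sum_congr rfl fun a _ => by rw [mul_one]

/-- Composition. -/
theorem fev_tw (v : RVal Ω) (P Q : k[X]) (x : Ω) : fev p P (fev p Q x) = fev p (tw p P Q) x := by
  have hM : MS v (⊥ : AddSubgroup ℝ) (fun _ => (1 : Ω)) := by
    refine ⟨fun _ _ => one_ne_zero, fun g hg => ?_, fun _ _ _ _ => (one_mul 1).symm⟩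
    rw [AddSubgroup.mem_bot.1 hg, v.map_one]
  have hop : ∀ P : k[X], IsOp p (⊥ : AddSubgroup ℝ) 0 0 P := fun P j _ => by
    rw [mul_zero, sub_zero]
    exact zero_mem _
  rw [← ev_one_eq_fev, ← ev_one_eq_fev, ← ev_one_eq_fev, ← ev_tw hM (hop Q) (hop P)]

theorem ge_fev (hk : Ctx0 k v) (P : k[X]) {x : Ω} (hx : v.Ge 0 x) : v.Ge 0 (fev p P x) := by
  rw [fev]
  refine RVal.Ge.sum _ _ fun a _ => ?_
  have h1 := (hk.ge (P.coeff a)).mul (ge_pow hx (p ^ a))
  rwa [mul_zero, add_zero] at h1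

/-- `P(F) u` near to `B`, `u` a limit of `B` in `B⟨z⟩`: `u` is near to `B`. -/
theorem near_of_fev (hk : Ctx0 k v) {B : IntermediateField k Ω} {z u : Ω} (hz : TL v B z 0)
    (hu : u ∈ cadj v B z) (hl : Lim v B 0 u) {P : k[X]} (hP : P ≠ 0)
    (h : Nr v B 0 (fev p P u)) : Nr v B 0 u := by
  have _ : Fact (Ctx0 k v) := ⟨hk⟩
  obtain ⟨e, he, N, c, h1⟩ := germ_res hk hz p hu hl
  obtain ⟨Q, hQ, hQe⟩ := exists_fev (p := p) (Ω := Ω) c N
  rw [← hQe] at h1
  by_cases hQ0 : Q = 0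
  · refine ⟨e, he, ?_⟩
    rw [hQ0, fevO_zero, add_zero] at h1
    exact h1.ge
  · exfalso
    obtain ⟨b, hb, h2⟩ := h
    refine fev_far hk hz (tw_ne_zero (p := p) hP hQ0) ⟨b - fev p P e, sub_mem hb (fev_mem P he), ?_⟩
    have h3 := ge_fev (p := p) hk P h1.ge
    have h4 : fev p (tw p P Q) z - (b - fev p P e) =
        (fev p P u - b) - fev p P (u - (e + fev p Q z)) := by
      rw [fev_sub, fev_add_right, fev_tw v]
      ring
    rw [h4]
    exact h2.sub h3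

/-- Saturation over the perfect field `E`. -/
theorem lim_of_fev (hk : Ctx0 k v) (hE : ∀ a ∈ E, ∃ b ∈ E, b ^ p = a) (hy₁ : TL v E y₁ 0)
    (hy : Lim v (cadj v E y₁) 0 y) {P : k[X]} (hP : P ≠ 0) {e : Ω} (he : e ∈ cadj v E y₁)
    (h : Lim v E 0 (fev p P y + e)) : ∃ e' ∈ cadj v E y₁, Lim v E 0 (y - e') := by
  obtain ⟨t, P₀, hP₀, hPP⟩ := exists_shift (p := p) (Ω := Ω) hP
  rw [hPP] at h
  obtain ⟨m, hm, hmn⟩ := Lim.exists_cau (fev_lim (p := p) hk hy P₀)
  obtain ⟨a, ha, han⟩ := Lim.exists_cau h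
  have h1 : InBL v (cadj v E y₁) E m := by
    refine lemmaR_ii' hk hy₁ p hE (q := t) hm ⟨-e, neg_mem he, a, ha, ?_⟩
    refine (han.sub (hmn.pow (p ^ t))).congr fun n => ?_
    rw [sub_pow_char_pow]
    ring
  obtain ⟨e₁, he₁, a₁, ha₁, h2⟩ := h1
  have h3 : Lim v E 0 (fev p P₀ y - e₁) := by
    refine Lim.of_nul (m := a₁) ha₁.mem ((hmn.add h2).congr fun n => ?_)
    ring
  obtain ⟨F, hF, h4⟩ := lim_frob (p := p) hk hy₁ (P := fun i => P₀.coeff i) (M := P₀.natDegree)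
    hP₀ (h := -e₁) (w := y) (neg_mem he₁) hy (by
      rw [← fev_eq_range (N := P₀.natDegree + 1)
        (fun a ha => coeff_eq_zero_of_natDegree_lt (by omega)), ← sub_eq_add_neg]
      exact h3)
  exact ⟨F.eval y₁, eval_mem (PI_mono (le_cadj v E y₁) hF) (self_mem_cadj v E y₁), h4⟩

/-- The limits of `A` in `T` are the `P_1(F) y + P_2(F) b + e`. -/
def Gen2 (p : ℕ) (v : RVal Ω) (A T : IntermediateField k Ω) (y b : Ω) : Prop :=
  ∀ x ∈ T, Lim v A 0 x → ∃ P₁ P₂ : k[X], ∃ e ∈ A, v.Ge 0 (x - (fev p P₁ y + fev p P₂ b + e))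

theorem Gen2.chg (h : Gen2 p v A T y b) {c : k} {e : Ω} (he : e ∈ A) :
    Gen2 p v A T y (b - algebraMap k Ω c * y - e) := by
  intro x hx hl
  obtain ⟨P₁, P₂, a, ha, h1⟩ := h x hx hl
  obtain ⟨P', hP'⟩ := fev_cmul (p := p) (Ω := Ω) P₂ c
  refine ⟨P₁ + P', P₂, a + fev p P₂ e, add_mem ha (fev_mem P₂ he), ?_⟩
  have e1 : fev p P₂ (b - algebraMap k Ω c * y - e) = fev p P₂ b - fev p P' y - fev p P₂ e := by
    rw [fev_sub, fev_sub, hP']
  have e2 : x - (fev p (P₁ + P') y + fev p P₂ (b - algebraMap k Ω c * y - e) +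
      (a + fev p P₂ e)) = x - (fev p P₁ y + fev p P₂ b + a) := by
    rw [e1, fevO_add]
    ring
  rwa [e2]

end Pool.Agent.TWIV
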