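import Pool.Agent.Lib.TWIV.HT12
import Pool.Agent.Lib.TWIV.OTc
import Pool.Agent.Lib.TWIV.FG
import Pool.Agent.Lib.TWIV.W1S

/-!
# TANK W, leaf (Ht), shape (1,2)': the operators on the generator `y`

`E₁ = E<w>`, `T = E₁<y><z>`, `y ∉ E₁ + L(E)`; `Θ N j` (`θ^[j/p^N]`, `0 < j < p^N`) the operators
of `T`, linear over `w`.

* `OpF`: the axioms of the operators;
* `hfarT`: a limit of `E₁` in `E₁<y>` near to the words is in `E₁ + O`;
* `GenY`: the elements `P(F) y + e`; `OpF.gen`: the `Θ N j y` are of this form;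
* `OpF.nr`: `Θ N j y ∈ E₁ + O`.
-/

set_option autoImplicit false
set_option linter.unusedSectionVars false

open Polynomial

namespace Pool.Agent.TWIV

open Pool.Agent.H15JM (RVal)
open Pool.Agent.D2 (Ctx0)
open Pool.Agent.TWM Pool.Agent.TWC
open Pool.Agent.TWS (SphC)

universe u

variable {k Ω : Type u} [Field k] [Field Ω] [Algebra k Ω] {v : RVal Ω} {p : ℕ}
  {E T A : IntermediateField k Ω} {w y z b : Ω} {𝒜 : Submodule k (Module.End k Ω)}
  {Θ : ℕ → ℕ → Ω → Ω}

/-- The operators of `T`. -/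
structure OpF (p : ℕ) (v : RVal Ω) (T : IntermediateField k Ω)
    (𝒜 : Submodule k (Module.End k Ω)) (Θ : ℕ → ℕ → Ω → Ω) : Prop where
  rep : ∀ N j, 0 < j → j < p ^ N → ∃ ψ ∈ 𝒜, ∀ x ∈ T, ψ x = Θ N j x
  memT : ∀ N j, 0 < j → j < p ^ N → ∀ x ∈ T, Θ N j x ∈ T
  lev : ∀ N j, 0 < j → j < p ^ N → ∀ x ∈ T, Θ (N + 1) (p * j) x = Θ N j x
  frob : ∀ N j, 0 < j → j < p ^ N → ∀ x ∈ T, Θ N j (x ^ p) = Θ (N + 1) j x ^ p
  fin : ∀ x ∈ T, ∃ N₀, ∀ N j, 0 < j → j < p ^ N → ¬ p ^ (N - N₀) ∣ j → v.Ge 0 (Θ N j x)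
  nil : ∀ N j, 0 < j → j < p ^ N → ∀ x ∈ T, ∃ r, v.Ge 0 ((Θ N j)^[r] x)

/-- `x = P(F) y + e` up to `O`. -/
def GenY (p : ℕ) (v : RVal Ω) (A : IntermediateField k Ω) (y x : Ω) : Prop :=
  ∃ P : k[X], ∃ e ∈ A, v.Ge 0 (x - (fev p P y + e))

variable [hp : Fact p.Prime] [CharP Ω p]

namespace GenY

omit hp [CharP Ω p] in
theorem of_ge {x : Ω} (hx : v.Ge 0 x) : GenY p v A y x :=
  ⟨0, 0, zero_mem _, by rw [fev, support_zero, Finset.sum_empty, add_zero, sub_zero]; exact hx⟩

theorem add {x x' : Ω} (h : GenY p v A y x) (h' : GenY p v A y x') : GenY p v A y (x + x') := by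
  obtain ⟨P, e, he, h1⟩ := h
  obtain ⟨P', e', he', h2⟩ := h'
  refine ⟨P + P', e + e', add_mem he he', ?_⟩
  rw [fev_addl]
  refine Eq.mp (congrArg (fun t => v.Ge 0 t) ?_) (h1.add h2)
  ring

theorem sum {ι : Type*} (s : Finset ι) (x : ι → Ω) (h : ∀ i ∈ s, GenY p v A y (x i)) :
    GenY p v A y (∑ i ∈ s, x i) := by
  classical
  induction s using Finset.induction_on with
  | empty =>
    rw [Finset.sum_empty]
    exact of_ge RVal.Ge.zero
  | insert a s ha ih =>
    rw [Finset.sum_insert ha]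
    exact (h a (Finset.mem_insert_self a s)).add
      (ih fun i hi => h i (Finset.mem_insert_of_mem hi))

theorem smul (hk : Ctx0 k v) (c : k) {x : Ω} (h : GenY p v A y x) :
    GenY p v A y (algebraMap k Ω c * x) := by
  obtain ⟨P, e, he, h1⟩ := h
  refine ⟨C c * P, algebraMap k Ω c * e, mul_mem (A.algebraMap_mem c) he, ?_⟩
  rw [fev_smul_left, ← mul_add, ← mul_sub]
  have := (hk.ge c).mul h1
  rwa [add_zero] at this

theorem pow [IsAlgClosed Ω] [CharP k p] [PerfectRing k p] {x : Ω} (h : GenY p v A y x) (a : ℕ) :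
    GenY p v A y (x ^ p ^ a) := by
  obtain ⟨P, e, he, h1⟩ := h
  obtain ⟨Q, -, hQ⟩ := exists_fev (p := p) (Ω := Ω)
    (fun j => if a ≤ j then P.coeff (j - a) ^ p ^ a else 0) (P.natDegree + 1 + a)
  refine ⟨Q, e ^ p ^ a, pow_mem he _, ?_⟩
  have h2 : fev p Q y = fev p P y ^ p ^ a := by
    rw [hQ, fev_eq_range (N := P.natDegree + 1) fun i hi =>
      coeff_eq_zero_of_natDegree_lt (by omega), sum_pow_char_pow, add_comm (P.natDegree + 1) a,
      Finset.sum_range_add, Finset.sum_eq_zero fun i hi => ?_, zero_add]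
    · refine Finset.sum_congr rfl fun i _ => ?_
      rw [if_pos (Nat.le_add_right a i), Nat.add_sub_cancel_left, map_pow, mul_pow, ← pow_mul,
        ← pow_add, add_comm i a]
    · rw [if_neg (not_le.2 (Finset.mem_range.1 hi)), map_zero, zero_mul]
  rw [h2, ← add_pow_char_pow, ← sub_pow_char_pow]
  have := ge_pow h1 (p ^ a)
  rwa [mul_zero] at this

end GenY

namespace OpF

omit hp [CharP Ω p] in
theorem lev' (h : OpF p v T 𝒜 Θ) (a : ℕ) {N j : ℕ} (hp0 : 0 < p) (hj : 0 < j) (hjN : j < p ^ N)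
    {x : Ω} (hx : x ∈ T) : Θ (N + a) (p ^ a * j) x = Θ N j x := by
  induction a with
  | zero => rw [add_zero, pow_zero, one_mul]
  | succ a ih =>
    have h1 : p ^ a * j < p ^ (N + a) := by
      rw [add_comm, pow_add]
      exact Nat.mul_lt_mul_of_pos_left hjN (pow_pos hp0 a)
    rw [← add_assoc, pow_succ', mul_assoc, h.lev (N + a) _ (Nat.mul_pos (pow_pos hp0 a) hj) h1 x hx,
      ih]

omit hp [CharP Ω p] in
theorem frob' (h : OpF p v T 𝒜 Θ) (a : ℕ) {N j : ℕ} (hp0 : 0 < p) (hj : 0 < j) (hjN : j < p ^ N)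
    {x : Ω} (hx : x ∈ T) : Θ N j (x ^ p ^ a) = Θ (N + a) j x ^ p ^ a := by
  induction a generalizing N with
  | zero => rw [pow_zero, pow_one, pow_one, add_zero]
  | succ a ih =>
    rw [pow_succ, pow_mul, h.frob N j hj hjN _ (pow_mem hx _), ih (N := N + 1)
      (hjN.trans_le (Nat.pow_le_pow_right hp0 (Nat.le_succ N))), ← pow_mul, add_right_comm,
      add_assoc]

end OpF

section Main

variable [IsAlgClosed Ω] [CharP k p] [PerfectRing k p] [PerfectRing Ω p] [hk : Fact (Ctx0 k v)]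

/-- A limit of `E₁` in `E₁<y>` near to the words. -/
theorem hfarT (hE : ∀ a ∈ E, ∃ b ∈ E, b ^ p = a) (hw : TL v E w 0)
    (hy : TL v (cadj v E w) y 0) (hnc : ∀ e ∈ cadj v E w, ¬ Lim v E 0 (y - e))
    (hs : ∀ n, ∃ S, WSys p v E w 𝒜 n S) :
    ∀ u ∈ cadj v (cadj v E w) y, Lim v (cadj v E w) 0 u →
      (∃ r ∈ RRw p v E w 𝒜, v.Ge 0 (u - r)) → Nr v (cadj v E w) 0 u := by
  rintro u hu hul ⟨r, hr, h1⟩
  have hk' : Ctx0 k v := hk.out
  have hrl : Lim v (cadj v E w) 0 r := Lim.of_ge_sub hul (by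
    have := h1.neg
    rwa [neg_sub] at this)
  obtain ⟨b, hb, a, ha, h2⟩ := RRw.rad hs hr hrl
  by_contra hnr
  obtain ⟨e', he', N, c, h3⟩ := germ_res hk' hy p hu hul
  obtain ⟨P, -, hP⟩ := exists_fev (p := p) (Ω := Ω) c N
  rw [← hP] at h3
  have hP0 : P ≠ 0 := by
    rintro rfl
    rw [fevO_zero, add_zero] at h3
    exact hnr ⟨e', he', h3.ge⟩
  obtain ⟨e'', he'', h4⟩ := lim_of_fev (p := p) (P := P) (e := e' - b) hk' hE hw hy.lim hP0
    (sub_mem he' hb) (Lim.of_ge_sub ha (by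
      refine Eq.mp (congrArg (fun t => v.Ge 0 t) ?_) ((h1.add h2).sub h3.ge)
      ring))
  exact hnc e'' he'' h4

variable (h : OpF p v T 𝒜 Θ)

include h

/-- The `Θ N j y` are `P(F) y + e` up to `O`. -/
theorem OpF.gen (hS : SphC v) (hA : OpA v 𝒜) (hW : ∀ φ ∈ 𝒜, WLin v E w φ)
    {s : cadj v E w →ₐ[k] PowerSeries (cadj v E w)} {n : ℕ} {P₀ : k[X]} {yn bn : ℕ → Ω}
    (hG : GDat p v (prT_ht12 k Ω) E w 0 s (RRw p v E w 𝒜) n P₀ y b yn bn) (hc0 : P₀.coeff 0 ≠ 0)
    (hgen : Gen2 p v (cadj v E w) T y b) (hyT : y ∈ T) {N j : ℕ} (hj : 0 < j) (hjN : j < p ^ N) :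
    GenY p v (cadj v E w) y (Θ N j y) := by
  classical
  have hp0 : 0 < p := hp.out.pos
  obtain ⟨N₀, hfin⟩ := h.fin y hyT
  -- the level `N₀`
  have key : ∀ j, 0 < j → j < p ^ N₀ → GenY p v (cadj v E w) y (Θ N₀ j y) := by
    intro j
    induction j using Nat.strong_induction_on with
    | _ j ih =>
    intro hj hjN
    obtain ⟨ψ, hψ, hψT⟩ := h.rep N₀ j hj hjN
    have hl : Lim v (cadj v E w) 0 (Θ N₀ j y) := by
      intro ε hε
      obtain ⟨a, ha, h1⟩ := Lim.of_nul hG.cy.mem hG.ny ε hε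
      refine ⟨ψ a, (hW ψ hψ).mem' hG.tl ha, ?_⟩
      rw [← hψT y hyT, ← map_sub]
      exact hA.ge ψ hψ _ _ h1
    obtain ⟨P₁, P₂, e, he, h1⟩ := hgen _ (h.memT N₀ j hj hjN y hyT) hl
    -- the terms of `Θ (P₀(F) y)`
    have h2 : ∀ a, 1 ≤ a → GenY p v (cadj v E w) y (ψ (y ^ p ^ a)) := by
      intro a ha
      rw [hψT _ (pow_mem hyT _), h.frob' a hp0 hj hjN hyT]
      by_cases hd : p ^ a ∣ j
      · obtain ⟨j', rfl⟩ := hd
        have hj' : 0 < j' := Nat.pos_of_mul_pos_left hj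
        have hjj : j' < p ^ a * j' := by
          have h3 : 1 < p ^ a := Nat.one_lt_pow (by omega) hp.out.one_lt
          nlinarith
        rw [h.lev' a hp0 hj' (hjj.trans hjN) hyT]
        exact (ih j' hjj hj' (hjj.trans hjN)).pow a
      · refine GenY.pow (GenY.of_ge (hfin (N₀ + a) j hj (hjN.trans_le
          (Nat.pow_le_pow_right hp0 (Nat.le_add_right N₀ a))) ?_)) a
        rwa [Nat.add_sub_cancel_left]
    have h3 : GenY p v (cadj v E w) y
        (ψ (fev p P₀ y) - algebraMap k Ω (P₀.coeff 0) * Θ N₀ j y) := by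
      have e1 : ψ (fev p P₀ y) - algebraMap k Ω (P₀.coeff 0) * Θ N₀ j y =
          ∑ a ∈ Finset.range P₀.natDegree, algebraMap k Ω (P₀.coeff (a + 1)) *
            ψ (y ^ p ^ (a + 1)) := by
        rw [fev_eq_range (N := P₀.natDegree + 1) fun a ha =>
          coeff_eq_zero_of_natDegree_lt (by omega), map_sum, Finset.sum_range_succ', pow_zero,
          pow_one]
        have e2 : ∀ (c : k) (x : Ω), ψ (algebraMap k Ω c * x) = algebraMap k Ω c * ψ x :=
          fun c x => by rw [← Algebra.smul_def, map_smul, Algebra.smul_def]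
        rw [e2, hψT y hyT, add_sub_cancel_right]
        exact Finset.sum_congr rfl fun a _ => e2 _ _
      rw [e1]
      exact GenY.sum _ _ fun a _ => (h2 (a + 1) (Nat.le_add_left 1 a)).smul hk.out _
    obtain ⟨Q, e', he', h4⟩ := h3
    have h5 : (C (P₀.coeff 0) * P₂ : k[X]) = 0 := by
      refine hG.phi (P₁ := Q + C (P₀.coeff 0) * P₁) (e := e' + algebraMap k Ω (P₀.coeff 0) * e)
        hS hA hψ (hW ψ hψ) (add_mem he' (mul_mem (IntermediateField.algebraMap_mem _ _) he)) ?_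
      rw [fev_addl, fev_smul_left, fev_smul_left]
      have h6 := (hk.out.ge (P₀.coeff 0)).mul h1
      rw [add_zero] at h6
      refine Eq.mp (congrArg (fun t => v.Ge 0 t) ?_) (h4.add h6)
      ring
    have h6 : P₂ = 0 := (mul_eq_zero.1 h5).resolve_left fun h0 => hc0 (C_eq_zero.1 h0)
    rw [h6, fevO_zero, add_zero] at h1
    exact ⟨P₁, e, he, h1⟩
  -- the other levels
  rcases le_total N N₀ with hN | hN
  · obtain ⟨a, rfl⟩ := Nat.exists_eq_add_of_le hN
    rw [← h.lev' a hp0 hj hjN hyT]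
    refine key _ (Nat.mul_pos (pow_pos hp0 a) hj) ?_
    rw [add_comm, pow_add]
    exact Nat.mul_lt_mul_of_pos_left hjN (pow_pos hp0 a)
  · obtain ⟨a, rfl⟩ := Nat.exists_eq_add_of_le hN
    by_cases hd : p ^ a ∣ j
    · obtain ⟨j', rfl⟩ := hd
      have hj' : 0 < j' := Nat.pos_of_mul_pos_left hj
      have hj'N : j' < p ^ N₀ := by
        rw [add_comm, pow_add] at hjN
        exact Nat.lt_of_mul_lt_mul_left hjN
      rw [h.lev' a hp0 hj' hj'N hyT]
      exact key j' hj' hj'N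
    · refine GenY.of_ge (hfin _ _ hj hjN ?_)
      rwa [Nat.add_sub_cancel_left]

omit h

/-- `φ y = P(F) y + e`, `φ` nilpotent at `y`: `φ y ∈ E₁ + O`. -/
theorem nr_of_gen (hA : OpA v 𝒜) (hW : ∀ φ ∈ 𝒜, WLin v E w φ)
    (hE : ∀ a ∈ E, ∃ b ∈ E, b ^ p = a) (H : HTor p v 𝒜 E) (hw : TL v E w 0)
    (hy : Lim v (cadj v E w) 0 y) (hnc : ∀ e ∈ cadj v E w, ¬ Lim v E 0 (y - e))
    {ψ : Module.End k Ω} (hψ : ψ ∈ 𝒜) (hnil : ∃ r, v.Ge 0 ((ψ ^ r) y))
    (hgen : GenY p v (cadj v E w) y (ψ y)) : Nr v (cadj v E w) 0 (ψ y) := by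
  classical
  obtain ⟨P, e, he, h1⟩ := hgen
  have hsm : ∀ (ψ : Module.End k Ω) (c : k) (x : Ω),
      ψ (algebraMap k Ω c * x) = algebraMap k Ω c * ψ x :=
    fun ψ c x => by rw [← Algebra.smul_def, map_smul, Algebra.smul_def]
  rcases Nat.eq_zero_or_pos P.natDegree with hd | hd
  · -- scalars
    set c := P.coeff 0 with hc
    have h2 : fev p P y = algebraMap k Ω c * y := by
      rw [fev_eq_range (N := 1) fun a ha => coeff_eq_zero_of_natDegree_lt (by omega),
        Finset.sum_range_one, pow_zero, pow_one]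
    rw [h2] at h1
    have h3 : ∀ r, ∃ e' ∈ cadj v E w, v.Ge 0 ((ψ ^ r) y - (algebraMap k Ω (c ^ r) * y + e')) := by
      intro r
      induction r with
      | zero =>
        refine ⟨0, zero_mem _, ?_⟩
        rw [pow_zero, pow_zero, map_one, one_mul, add_zero, Module.End.one_apply, sub_self]
        exact RVal.Ge.zero
      | succ r ih =>
        obtain ⟨e', he', h4⟩ := ih
        refine ⟨algebraMap k Ω (c ^ r) * e + ψ e', add_mem
          (mul_mem (IntermediateField.algebraMap_mem _ _) he) ((hW ψ hψ).mem' hw he'), ?_⟩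
        have h5 := hA.ge ψ hψ _ _ h4
        have h6 := (hk.out.ge (c ^ r)).mul h1
        rw [add_zero] at h6
        rw [pow_succ', Module.End.mul_apply]
        refine Eq.mp (congrArg (fun t => v.Ge 0 t) ?_) (h5.add h6)
        rw [map_sub, map_add, hsm, pow_succ, map_mul]
        ring
    obtain ⟨r, hr⟩ := hnil
    obtain ⟨e', he', h4⟩ := h3 r
    by_cases hc0 : c = 0
    · rw [hc0, map_zero, zero_mul, zero_add] at h1
      exact ⟨e, he, h1⟩
    · exfalso
      have hcr : algebraMap k Ω (c ^ r) ≠ 0 := (_root_.map_ne_zero _).2 (pow_ne_zero r hc0)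
      have h5 := (hk.out.ge (c ^ r)⁻¹).mul (hr.sub h4)
      rw [add_zero] at h5
      have h6 : v.Ge 0 (y - -(algebraMap k Ω (c ^ r)⁻¹ * e') - 0) := by
        refine Eq.mp (congrArg (fun t => v.Ge 0 t) ?_) h5
        rw [map_inv₀]
        field_simp
        ring
      exact hnc (-(algebraMap k Ω (c ^ r)⁻¹ * e')) (neg_mem
        (mul_mem (IntermediateField.algebraMap_mem _ _) he')) fun ε hε =>
          ⟨0, zero_mem _, h6.mono (by linarith)⟩
  · -- a dominated family
    exfalso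
    obtain ⟨D, hdd⟩ : ∃ D, P.natDegree = D + 1 := ⟨P.natDegree - 1, by omega⟩
    have hP0 : P ≠ 0 := by
      rintro rfl
      rw [natDegree_zero] at hdd
      omega
    have hcd : P.coeff (D + 1) ≠ 0 := by
      rw [← hdd, coeff_natDegree]
      exact leadingCoeff_ne_zero.2 hP0
    have hcd' : algebraMap k Ω (P.coeff (D + 1)) ≠ 0 := (_root_.map_ne_zero _).2 hcd
    obtain ⟨yn, hyn, hynul⟩ := Lim.exists_cau hy
    have hst : Stb 𝒜 E w := ⟨fun φ hφ x hx => (hW φ hφ).mem x hx,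
      fun φ hφ => by rw [(hW φ hφ).lin]; exact hφ⟩
    have hcau' : ∀ a : ℕ, Cau v (cadj v E w) fun n => yn n ^ p ^ a := by
      intro a
      induction a with
      | zero =>
        simp only [pow_zero, pow_one]
        exact hyn
      | succ a ih =>
        simp only [pow_succ, pow_mul]
        exact Cau.pow p ih
    have hcau : ∀ l : Fin (D + 1), Cau v (cadj v E w) fun n => yn n ^ p ^ (l : ℕ) :=
      fun l => hcau' l
    have hdom : ∀ l : Fin (D + 1), Dm v 𝒜 (cadj v E w) (fun (l : Fin (D + 1)) n => yn n ^ p ^ (l : ℕ))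
        fun n => (yn n ^ p ^ (l : ℕ)) ^ p := by
      intro l
      by_cases hl : (l : ℕ) + 1 < D + 1
      · refine ⟨fun a => if a = ⟨l + 1, hl⟩ then 1 else 0, 0, fun a => ?_, zero_mem _, ?_⟩
        · change (if a = ⟨l + 1, hl⟩ then (1 : Module.End k Ω) else 0) ∈ 𝒜
          split_ifs
          · exact hA.one
          · exact zero_mem _
        · refine Nul.zero.congr fun n => ?_
          have e1 : ∑ a : Fin (D + 1), (if a = ⟨l + 1, hl⟩ then (1 : Module.End k Ω) else 0)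
              (yn n ^ p ^ (a : ℕ)) = yn n ^ p ^ ((l : ℕ) + 1) := by
            rw [Finset.sum_eq_single (⟨l + 1, hl⟩ : Fin (D + 1))]
            · rw [if_pos rfl, Module.End.one_apply]
            · intro a _ ha
              rw [if_neg ha, LinearMap.zero_apply]
            · intro h0
              exact absurd (Finset.mem_univ _) h0
          change 0 = (yn n ^ p ^ (l : ℕ)) ^ p - ∑ a : Fin (D + 1),
            (if a = ⟨l + 1, hl⟩ then (1 : Module.End k Ω) else 0) (yn n ^ p ^ (a : ℕ)) - 0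
          rw [e1, sub_zero, ← pow_mul, ← pow_succ, sub_self]
      · have hl' : (l : ℕ) + 1 = D + 1 := by omega
        refine ⟨fun a => (P.coeff (D + 1))⁻¹ • ((if (a : ℕ) = 0 then ψ else 0) -
          P.coeff a • (1 : Module.End k Ω)), -(algebraMap k Ω (P.coeff (D + 1))⁻¹ * e),
          fun a => ?_, neg_mem (mul_mem (IntermediateField.algebraMap_mem _ _) he), ?_⟩
        · refine 𝒜.smul_mem _ (sub_mem ?_ (𝒜.smul_mem _ hA.one))
          split_ifs
          · exact hψ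
          · exact zero_mem _
        · have h2 : Nul v fun n => fev p P (y - yn n) := fev_nul P hynul
          have h3 : Nul v fun n => ψ (y - yn n) := hA.nul hψ hynul
          have h4 : Nul v fun _ : ℕ => ψ y - (fev p P y + e) := Nul.of_ge fun _ => h1
          have h5 : Nul v fun n => algebraMap k Ω (P.coeff (D + 1))⁻¹ *
              (ψ (y - yn n) - fev p P (y - yn n) - (ψ y - (fev p P y + e))) :=
            ((h3.sub h2).sub h4).mul_ge (c := fun _ => algebraMap k Ω (P.coeff (D + 1))⁻¹)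
              fun _ => hk.out.ge _
          refine h5.congr fun n => ?_
          have e1 : ∑ a : Fin (D + 1), ((P.coeff (D + 1))⁻¹ • ((if (a : ℕ) = 0 then ψ else 0) -
              P.coeff a • (1 : Module.End k Ω))) (yn n ^ p ^ (a : ℕ)) =
              algebraMap k Ω (P.coeff (D + 1))⁻¹ * (ψ (yn n) -
                ∑ a ∈ Finset.range (D + 1), algebraMap k Ω (P.coeff a) * yn n ^ p ^ a) := by
            rw [← Fin.sum_univ_eq_sum_range
              (fun a => algebraMap k Ω (P.coeff a) * yn n ^ p ^ a), mul_sub, Finset.mul_sum]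
            have e3 : ψ (yn n) = ∑ a : Fin (D + 1),
                (if (a : ℕ) = 0 then ψ else 0) (yn n ^ p ^ (a : ℕ)) := by
              rw [Finset.sum_eq_single (0 : Fin (D + 1))]
              · simp
              · intro a _ ha
                have h0 : ¬ (a : ℕ) = 0 := fun h0 => ha (Fin.ext h0)
                rw [if_neg h0, LinearMap.zero_apply]
              · intro h0
                exact absurd (Finset.mem_univ _) h0
            rw [e3, Finset.mul_sum, ← Finset.sum_sub_distrib]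
            refine Finset.sum_congr rfl fun a _ => ?_
            rw [LinearMap.smul_apply, LinearMap.sub_apply, LinearMap.smul_apply,
              Module.End.one_apply, Algebra.smul_def, Algebra.smul_def, mul_sub]
          have e2 : fev p P (yn n) = ∑ a ∈ Finset.range (D + 1),
              algebraMap k Ω (P.coeff a) * yn n ^ p ^ a +
              algebraMap k Ω (P.coeff (D + 1)) * yn n ^ p ^ (D + 1) := by
            rw [fev_eq_range (N := D + 2) fun a ha => coeff_eq_zero_of_natDegree_lt (by omega),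
              Finset.sum_range_succ]
          have e4 : (yn n ^ p ^ (l : ℕ)) ^ p = yn n ^ p ^ (D + 1) := by
            rw [← pow_mul, ← pow_succ, hl']
          rw [e1]
          beta_reduce
          rw [e4, map_sub, fev_sub, e2, map_inv₀]
          field_simp
          ring
    obtain ⟨β, hβ, ν, hν, h2⟩ := w1c p hA hst hw hE H hcau hdom ⟨0, Nat.succ_pos D⟩
    refine hnc β hβ (Lim.of_nul hν.mem ((hynul.add h2).congr fun n => ?_))
    simp only [pow_zero, pow_one]
    ring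

/-- The powers of a representative. -/
theorem OpF.pow_eq (h : OpF p v T 𝒜 Θ) {N j : ℕ} (hj : 0 < j) (hjN : j < p ^ N)
    {ψ : Module.End k Ω} (hψ : ∀ x ∈ T, ψ x = Θ N j x) (r : ℕ) {x : Ω} (hx : x ∈ T) :
    (ψ ^ r) x = (Θ N j)^[r] x := by
  induction r generalizing x with
  | zero => rw [pow_zero, Module.End.one_apply, Function.iterate_zero, id_eq]
  | succ r ih =>
    rw [pow_succ, Module.End.mul_apply, Function.iterate_succ_apply, hψ x hx,
      ih (h.memT N j hj hjN x hx)]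

/-- **Shape (1,2)', nilpotent operators linear over `w`.** `Θ N j y ∈ E₁ + O`. -/
theorem OpF.shp_nr (h : OpF p v T 𝒜 Θ) (hcv : CompleteV v) (hS : SphC v)
    (hE : ∀ a ∈ E, ∃ b ∈ E, b ^ p = a) (hA : OpA v 𝒜) (hW : ∀ φ ∈ 𝒜, WLin v E w φ)
    (H : HTor p v 𝒜 E) (hs : ∀ n, ∃ S, WSys p v E w 𝒜 n S) (hw : TL v E w 0)
    (hy : TL v (cadj v E w) y 0) (hz : TL v (cadj v (cadj v E w) y) z 0)
    (hT : T = cadj v (cadj v (cadj v E w) y) z)
    (hfar : ∃ x ∈ T, Lim v (cadj v E w) 0 x ∧ ¬ Nr v (cadj v (cadj v E w) y) 0 x)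
    (htop : ∀ h₁ ∈ cadj v (cadj v E w) y, ¬ Lim v (cadj v E w) 0 (z + h₁))
    (hnc : ∀ e ∈ cadj v E w, ¬ Lim v E 0 (y - e)) {N j : ℕ} (hj : 0 < j) (hjN : j < p ^ N) :
    Nr v (cadj v E w) 0 (Θ N j y) := by
  have hk' : Ctx0 k v := hk.out
  have hyT : y ∈ T := by
    rw [hT]
    exact le_cadj _ _ _ (self_mem_cadj _ _ _)
  obtain ⟨x, hxT, hxl, hxf⟩ := hfar
  obtain ⟨m, h₁, hh, hbl, hgen, hmin⟩ := str12 (p := p) hk' hy hz (by rwa [← hT]) hxl hxf
  have hm : 1 ≤ m := by
    by_contra hm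
    have hm0 : m = 0 := by omega
    subst hm0
    rw [pow_zero, pow_one] at hbl
    exact htop h₁ hh hbl
  obtain ⟨s, c, e, n, P₀, yn, bn, he, hc0, hG⟩ := exists_gdatT (RR := RRw p v E w 𝒜) hcv hS hE
    hw hy hz (RRw.rrp fun _ _ => rfl) (hfarT hE hw hy hnc hs) hh hm hbl (hmin hm)
  obtain ⟨ψ, hψ, hψT⟩ := h.rep N j hj hjN
  have h1 : GenY p v (cadj v E w) y (Θ N j y) := by
    refine h.gen hS hA hW hG hc0 (Gen2.chg ?_ he) hyT hj hjN
    intro x hx hl
    exact hgen x (by rwa [← hT]) hl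
  obtain ⟨r, hr⟩ := h.nil N j hj hjN y hyT
  rw [← hψT y hyT] at h1 ⊢
  exact nr_of_gen hA hW hE H hw hy.lim hnc hψ ⟨r, by rwa [h.pow_eq hj hjN hψT r hyT]⟩ h1

end Main

end Pool.Agent.TWIV
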