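import Pool.Agent.Lib.TWIV.Grow
import Pool.Agent.Lib.TWIV.OpA

/-!
# TANK W, leaf (IV): the mixed part, evaluation and jets

`y`, `z` homogeneous, `E` perfect in the application, `g n` homogeneous polynomials over `E` with
`(g n) y → z`, `h j n` polynomials over `E` with
`h_j ^ p = ∑ φ_jl h_l + ∑ i, q_ji y g ^ p ^ i + e_j g + f_j` up to small elements.

* `Hg z 𝒜 w`: `w` has the degree of `z`;
* `TLD`: the data;
* `TLD.jet`: the jets of the relation;
* `rjet`: the reduced jets of the unknowns; `TLD.rel₁`, `TLD.rel₂`: their relations;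
* `TLD.main`: some combination `∑ c_i z ^ p ^ i` is in `RR` up to `O`.
-/

set_option autoImplicit false

open Polynomial

namespace Pool.Agent.TWIV

open Pool.Agent.H15JM (RVal)
open Pool.Agent.LU1 (VPos adj)
open Pool.Agent.D2 (Ctx0)
open Pool.Agent.TWM Pool.Agent.TWC

universe u

section Data

variable {k Ω : Type u} [Field k] [Field Ω] [Algebra k Ω] {v : RVal Ω}
  {E : IntermediateField k Ω} {y z : Ω} {𝒜 : Submodule k (Module.End k Ω)}

/-- The operators for two homogeneous elements `y`, `z`. -/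
structure AOp (v : RVal Ω) (E : IntermediateField k Ω) (y z : Ω)
    (𝒜 : Submodule k (Module.End k Ω)) : Prop where
  op : OpA v 𝒜
  sy : Stb 𝒜 E y
  cz : ∀ φ ∈ 𝒜, cj z φ ∈ 𝒜

/-- `w` has the degree of `z`. -/
def Hg (z : Ω) (𝒜 : Submodule k (Module.End k Ω)) (w : Ω) : Prop :=
  ∀ φ ∈ 𝒜, ∀ x, φ (w * x) = w * cj z φ x

theorem Hg.add {w w' : Ω} (h : Hg z 𝒜 w) (h' : Hg z 𝒜 w') : Hg z 𝒜 (w + w') := by
  intro φ hφ x
  rw [add_mul, map_add, h φ hφ x, h' φ hφ x, add_mul]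

theorem Hg.neg {w : Ω} (h : Hg z 𝒜 w) : Hg z 𝒜 (-w) := by
  intro φ hφ x
  rw [neg_mul, map_neg, h φ hφ x, neg_mul]

theorem Hg.sub {w w' : Ω} (h : Hg z 𝒜 w) (h' : Hg z 𝒜 w') : Hg z 𝒜 (w - w') := by
  rw [sub_eq_add_neg]
  exact h.add h'.neg

theorem Hg.zero : Hg z 𝒜 (0 : Ω) := by
  intro φ _ x
  rw [zero_mul, map_zero, zero_mul]

theorem Hg.nsmul {w : Ω} (h : Hg z 𝒜 w) (n : ℕ) : Hg z 𝒜 ((n : Ω) * w) := by
  intro φ hφ x
  rw [mul_assoc, ← nsmul_eq_mul, map_nsmul, h φ hφ x, nsmul_eq_mul, mul_assoc]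

theorem Hg.sum {α : Type*} (U : Finset α) (w : α → Ω) (h : ∀ i ∈ U, Hg z 𝒜 (w i)) :
    Hg z 𝒜 (∑ i ∈ U, w i) := by
  classical
  induction U using Finset.induction_on with
  | empty => rw [Finset.sum_empty]; exact Hg.zero
  | insert i U hi ih =>
    rw [Finset.sum_insert hi]
    exact (h i (Finset.mem_insert_self i U)).add (ih fun j hj => h j (Finset.mem_insert_of_mem hj))

theorem Hg.pow (hc : ∀ φ ∈ 𝒜, cj z φ ∈ 𝒜) {w : Ω} (h : Hg z 𝒜 w) (m : ℕ) :
    ∀ φ ∈ 𝒜, ∀ x, φ (w ^ m * x) = w ^ m * cj (z ^ m) φ x := by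
  induction m with
  | zero => intro φ _ x; rw [pow_zero, pow_zero, one_mul, one_mul, cj_one]
  | succ m ih =>
    intro φ hφ x
    rw [pow_succ', mul_assoc, h φ hφ _, ih _ (hc φ hφ) x, pow_succ', cj_cj, mul_assoc]

/-- The jets of a homogeneous polynomial. -/
theorem Hg.jet {g : Polynomial Ω} (hg : ∀ i, Hg z 𝒜 (g.coeff i * y ^ i)) (L : ℕ) :
    Hg z 𝒜 (y ^ L * (hasseDeriv L g).eval y) := by
  rw [hasseDeriv_apply, eval_sum, Polynomial.sum_def, Finset.mul_sum]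
  refine Hg.sum _ _ fun i _ => ?_
  rw [eval_monomial]
  by_cases hi : L ≤ i
  · have h1 : y ^ L * ((i.choose L : Ω) * g.coeff i * y ^ (i - L)) =
        (i.choose L : Ω) * (g.coeff i * y ^ i) := by
      have h2 : y ^ i = y ^ L * y ^ (i - L) := by rw [← pow_add, Nat.add_sub_cancel' hi]
      rw [h2]
      ring
    rw [h1]
    exact (hg i).nsmul _
  · rw [Nat.choose_eq_zero_of_lt (by omega), Nat.cast_zero, zero_mul, zero_mul, mul_zero]
    exact Hg.zero

/-- The data of the mixed part. -/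
structure TLD (p : ℕ) (v : RVal Ω) (E : IntermediateField k Ω) (y z : Ω)
    (𝒜 : Submodule k (Module.End k Ω)) {ι : Type} [Fintype ι] (N : ℕ)
    (φ : ι → ι → Module.End k Ω) (q : ι → ℕ → k) (e0 : ι → Ω) (f0 : ι → Polynomial Ω)
    (vt : ι → ℕ → Ω) (g : ℕ → Polynomial Ω) (h : ι → ℕ → Polynomial Ω) : Prop where
  aop : AOp v E y z 𝒜
  φA : ∀ j l, φ j l ∈ 𝒜
  gE : ∀ n, g n ∈ PI E
  gh : ∀ n i, Hg z 𝒜 ((g n).coeff i * y ^ i)
  e0E : ∀ j, e0 j ∈ E
  f0E : ∀ j, f0 j ∈ PI E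
  hE : ∀ j n, h j n ∈ PI E
  v0 : ∀ j i, N ≤ i → vt j i = 0
  vr : ∀ j i, i < N → vt j i ^ p =
    ∑ l, cj (z ^ p ^ (i + 1)) (φ j l) (vt l (i + 1)) + algebraMap k Ω (q j (i + 1)) * y
  o0 : ∀ j, v.Ge 0 (e0 j + ∑ l, cj z (φ j l) (vt l 0))
  rel : ∀ j, Nul v fun n => (h j n).eval y ^ p - ∑ l, φ j l ((h l n).eval y) -
    ∑ i ∈ Finset.Icc 1 N, algebraMap k Ω (q j i) * (y * (g n).eval y ^ p ^ i) -
    e0 j * (g n).eval y - (f0 j).eval y

end Data

section Jet

variable {k Ω : Type u} [Field k] [Field Ω] [Algebra k Ω] {v : RVal Ω}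
  {E : IntermediateField k Ω} {y z : Ω} {𝒜 : Submodule k (Module.End k Ω)}
  {ι : Type} [Fintype ι] {N : ℕ}
  {φ : ι → ι → Module.End k Ω} {q : ι → ℕ → k} {e0 : ι → Ω} {f0 : ι → Polynomial Ω}
  {vt : ι → ℕ → Ω} {g : ℕ → Polynomial Ω} {h : ι → ℕ → Polynomial Ω}

theorem hasse_X_mul (y : Ω) (w : Polynomial Ω) {L : ℕ} (hL : 1 ≤ L) :
    (hasseDeriv L (X * w)).eval y =
      y * (hasseDeriv L w).eval y + (hasseDeriv (L - 1) w).eval y := by
  obtain ⟨L, rfl⟩ := Nat.exists_eq_add_of_le' hL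
  rw [← taylor_coeff, ← taylor_coeff, ← taylor_coeff, taylor_mul, taylor_X, add_mul, coeff_add,
    coeff_X_mul, coeff_C_mul, Nat.add_sub_cancel, add_comm]

theorem X_mem_PI' : (X : Polynomial Ω) ∈ PI E := fun i => by
  rw [coeff_X]
  split_ifs
  exacts [one_mem _, zero_mem _]

theorem TL.ne_zero4 [IsAlgClosed Ω] (hy : TL v E y 0) : y ≠ 0 := by
  have h2 := hy.eval_ne (X_mem_PI' (E := TWM.algc E)) X_ne_zero
  rwa [eval_X] at h2

variable (p : ℕ) [Fact p.Prime] [CharP Ω p]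

/-- The action of an operator on a product with a jet of a power of `g`. -/
theorem cj_W (hc : ∀ φ ∈ 𝒜, cj z φ ∈ 𝒜) (hy0 : y ≠ 0) {g : Polynomial Ω}
    (hh : ∀ i, Hg z 𝒜 (g.coeff i * y ^ i)) {φ : Module.End k Ω} (hφ : φ ∈ 𝒜) (x : Ω)
    (i L : ℕ) : cj (y ^ L) φ (x * (hasseDeriv L (g ^ p ^ i)).eval y) =
      (hasseDeriv L (g ^ p ^ i)).eval y * cj (z ^ p ^ i) φ x := by
  by_cases hi : p ^ i ∣ L
  · obtain ⟨l, rfl⟩ := hi
    rw [mul_comm (p ^ i) l, hasse_pow_mul p i y g l, cj_apply]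
    set w : Ω := y ^ l * (hasseDeriv l g).eval y with hw
    have h1 : y ^ (l * p ^ i) * (x * (hasseDeriv l g).eval y ^ p ^ i) = w ^ p ^ i * x := by
      rw [hw, mul_pow, ← pow_mul]
      ring
    rw [h1, (Hg.jet hh l).pow hc _ φ hφ x, mul_pow, ← pow_mul]
    have h2 : y ^ (l * p ^ i) ≠ 0 := pow_ne_zero _ hy0
    field_simp
  · rw [hasse_pow_char p i g hi, mul_zero, zero_mul, map_zero]

/-- The relation as a polynomial. -/
noncomputable def rpol (y : Ω) (N : ℕ) (φ : ι → ι → Module.End k Ω) (q : ι → ℕ → k) (e0 : ι → Ω)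
    (f0 : ι → Polynomial Ω) (g : ℕ → Polynomial Ω) (h : ι → ℕ → Polynomial Ω) (j : ι) (n : ℕ) :
    Polynomial Ω :=
  h j n ^ p - ∑ l, gcf y (φ j l) (h l n) -
    ∑ i ∈ Finset.Icc 1 N, Polynomial.C (algebraMap k Ω (q j i)) * (X * g n ^ p ^ i) -
    Polynomial.C (e0 j) * g n - f0 j

theorem hasse_C_mul' (c : Ω) (w : Polynomial Ω) (L : ℕ) :
    (hasseDeriv L (Polynomial.C c * w)).eval y = c * (hasseDeriv L w).eval y := by
  rw [← taylor_coeff, ← taylor_coeff, taylor_mul, taylor_C, coeff_C_mul]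

omit [Fact p.Prime] [CharP Ω p] in
/-- The jets of the relation. -/
theorem TLD.jet [IsAlgClosed Ω] (D : TLD p v E y z 𝒜 N φ q e0 f0 vt g h) (hy : TL v E y 0)
    {ε : ℝ} {n : ℕ} {j : ι} (hn : v.Ge (-ε) ((h j n).eval y ^ p - ∑ l, φ j l ((h l n).eval y) -
      ∑ i ∈ Finset.Icc 1 N, algebraMap k Ω (q j i) * (y * (g n).eval y ^ p ^ i) -
      e0 j * (g n).eval y - (f0 j).eval y)) {L : ℕ} (hL : 1 ≤ L) :
    v.Ge (-ε) ((hasseDeriv L (h j n ^ p)).eval y -
      ∑ l, cj (y ^ L) (φ j l) ((hasseDeriv L (h l n)).eval y) -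
      ∑ i ∈ Finset.Icc 1 N, algebraMap k Ω (q j i) *
        (y * (hasseDeriv L (g n ^ p ^ i)).eval y + (hasseDeriv (L - 1) (g n ^ p ^ i)).eval y) -
      e0 j * (hasseDeriv L (g n)).eval y - (hasseDeriv L (f0 j)).eval y) := by
  have hy0 := TL.ne_zero4 hy
  have hP : rpol p y N φ q e0 f0 g h j n ∈ PI E :=
    sub_mem (sub_mem (sub_mem (sub_mem (pow_mem (D.hE j n) p)
      (sum_mem fun l _ => gcf_mem D.aop.sy (D.φA j l) (D.hE l n)))
      (sum_mem fun i _ => mul_mem (C_mem_PI (E.algebraMap_mem _))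
        (mul_mem X_mem_PI' (pow_mem (D.gE n) _))))
      (mul_mem (C_mem_PI (D.e0E j)) (D.gE n))) (D.f0E j)
  have h1 : v.Ge (-ε) ((rpol p y N φ q e0 f0 g h j n).eval y) := by
    rw [rpol, eval_sub, eval_sub, eval_sub, eval_sub, eval_pow, eval_finsetSum, eval_finsetSum,
      eval_mul, eval_C, Finset.sum_congr rfl fun l _ => gcf_eval hy0 (φ j l) (h l n),
      Finset.sum_congr rfl fun i _ => show (Polynomial.C (algebraMap k Ω (q j i)) *
        (X * g n ^ p ^ i)).eval y = algebraMap k Ω (q j i) * (y * (g n).eval y ^ p ^ i) by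
        rw [eval_mul, eval_C, eval_mul, eval_X, eval_pow]]
    exact hn
  have h2 := hasse_ge hy hP h1 L
  rw [rpol, map_sub, map_sub, map_sub, map_sub, map_sum, map_sum, eval_sub, eval_sub, eval_sub,
    eval_sub, eval_finsetSum, eval_finsetSum, hasse_C_mul',
    Finset.sum_congr rfl fun l _ => show (hasseDeriv L (gcf y (φ j l) (h l n))).eval y =
      cj (y ^ L) (φ j l) ((hasseDeriv L (h l n)).eval y) by
      rw [hasse_gcf, gcf_eval hy0],
    Finset.sum_congr rfl fun i _ => show (hasseDeriv L (Polynomial.C (algebraMap k Ω (q j i)) *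
        (X * g n ^ p ^ i))).eval y = algebraMap k Ω (q j i) *
        (y * (hasseDeriv L (g n ^ p ^ i)).eval y + (hasseDeriv (L - 1) (g n ^ p ^ i)).eval y) by
      rw [hasse_C_mul', hasse_X_mul y _ hL]] at h2
  exact h2

/-- The reduced jets of the unknowns. -/
noncomputable def rjet (y : Ω) (N : ℕ) (vt : ι → ℕ → Ω) (g : ℕ → Polynomial Ω)
    (h : ι → ℕ → Polynomial Ω) (n : ℕ) (j : ι) (L : ℕ) : Ω :=
  (hasseDeriv L (h j n)).eval y -
    ∑ i ∈ Finset.range N, vt j i * (hasseDeriv L (g n ^ p ^ i)).eval y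

/-- The action of an operator on the jets of the unknowns. -/
theorem TLD.cj_jet [IsAlgClosed Ω] (D : TLD p v E y z 𝒜 N φ q e0 f0 vt g h) (hy : TL v E y 0)
    (n : ℕ) (j l : ι) (L : ℕ) : cj (y ^ L) (φ j l) ((hasseDeriv L (h l n)).eval y) =
      cj (y ^ L) (φ j l) (rjet p y N vt g h n l L) + ∑ i ∈ Finset.range N,
        (hasseDeriv L (g n ^ p ^ i)).eval y * cj (z ^ p ^ i) (φ j l) (vt l i) := by
  have h1 : (hasseDeriv L (h l n)).eval y = rjet p y N vt g h n l L +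
      ∑ i ∈ Finset.range N, vt l i * (hasseDeriv L (g n ^ p ^ i)).eval y := by
    rw [rjet, sub_add_cancel]
  rw [h1, map_add, map_sum]
  congr 1
  exact Finset.sum_congr rfl fun i _ => cj_W p D.aop.cz (TL.ne_zero4 hy) (D.gh n) (D.φA j l)
    (vt l i) i L

omit [Field k] [Algebra k Ω] [Fintype ι] [Fact p.Prime] [CharP Ω p] in
theorem icc_sum {M : Type*} [AddCommMonoid M] (N : ℕ) (f : ℕ → M) :
    ∑ i ∈ Finset.Icc 1 N, f i = ∑ i ∈ Finset.range N, f (i + 1) := by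
  rw [Finset.range_eq_Ico, Finset.sum_Ico_add' f 0 N 1]
  rfl

theorem TLD.rel₁ [IsAlgClosed Ω] (D : TLD p v E y z 𝒜 N φ q e0 f0 vt g h) (hy : TL v E y 0)
    {ε : ℝ} {n : ℕ} {j : ι} (hn : v.Ge (-ε) ((h j n).eval y ^ p - ∑ l, φ j l ((h l n).eval y) -
      ∑ i ∈ Finset.Icc 1 N, algebraMap k Ω (q j i) * (y * (g n).eval y ^ p ^ i) -
      e0 j * (g n).eval y - (f0 j).eval y)) {L : ℕ} (hL : 1 ≤ L) :
    v.Ge (-ε) (rjet p y N vt g h n j L ^ p -
      (∑ l, cj (y ^ (p * L)) (φ j l) (rjet p y N vt g h n l (p * L)) +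
        (e0 j + ∑ l, cj z (φ j l) (vt l 0)) * (hasseDeriv (p * L) (g n)).eval y +
        (hasseDeriv (p * L) (f0 j)).eval y)) := by
  have hp : p.Prime := Fact.out
  have hp2 := hp.two_le
  have hpL : 2 ≤ p * L := by nlinarith
  have h1 := D.jet p hy hn (L := p * L) (by omega)
  -- the vanishing terms
  have h2 : ∀ i ∈ Finset.Icc 1 N, algebraMap k Ω (q j i) *
      (y * (hasseDeriv (p * L) (g n ^ p ^ i)).eval y +
        (hasseDeriv (p * L - 1) (g n ^ p ^ i)).eval y) =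
      algebraMap k Ω (q j i) * y * (hasseDeriv (p * L) (g n ^ p ^ i)).eval y := by
    intro i hi
    have hi1 := (Finset.mem_Icc.1 hi).1
    have h3 : ¬ p ^ i ∣ p * L - 1 := by
      intro hd
      have h4 : p ∣ p * L - 1 := (dvd_pow_self p (by omega)).trans hd
      have h5 : p ∣ p * L - (p * L - 1) := Nat.dvd_sub (dvd_mul_right p L) h4
      rw [show p * L - (p * L - 1) = 1 by omega] at h5
      exact hp.one_lt.ne' (Nat.dvd_one.1 h5)
    rw [hasse_pow_char p i (g n) h3, add_zero, mul_assoc]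
  rw [Finset.sum_congr rfl h2, Finset.sum_congr rfl fun l _ => D.cj_jet p hy n j l (p * L),
    Finset.sum_add_distrib, Finset.sum_comm] at h1
  have h3 : (hasseDeriv (p * L) (h j n ^ p)).eval y = (hasseDeriv L (h j n)).eval y ^ p := by
    have := hasse_pow_mul p 1 y (h j n) L
    rwa [pow_one, mul_comm L p] at this
  rw [h3] at h1
  have h4 : rjet p y N vt g h n j L ^ p = (hasseDeriv L (h j n)).eval y ^ p -
      ∑ i ∈ Finset.range N, (∑ l, cj (z ^ p ^ (i + 1)) (φ j l) (vt l (i + 1)) +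
        algebraMap k Ω (q j (i + 1)) * y) * (hasseDeriv (p * L) (g n ^ p ^ (i + 1))).eval y := by
    rw [rjet, sub_pow_char, sum_pow_char]
    congr 1
    refine Finset.sum_congr rfl fun i hi => ?_
    rw [mul_pow, D.vr j i (Finset.mem_range.1 hi)]
    congr 1
    have := hasse_pow_mul p 1 y (g n ^ p ^ i) L
    rw [pow_one, mul_comm L p, ← pow_mul, ← pow_succ] at this
    exact this.symm
  have h5 : ∀ i, ∑ l, (hasseDeriv (p * L) (g n ^ p ^ i)).eval y * cj (z ^ p ^ i) (φ j l) (vt l i) =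
      (∑ l, cj (z ^ p ^ i) (φ j l) (vt l i)) * (hasseDeriv (p * L) (g n ^ p ^ i)).eval y := by
    intro i
    rw [← Finset.mul_sum, mul_comm]
  rw [Finset.sum_congr rfl fun i _ => h5 i] at h1
  -- telescoping
  set c : ℕ → Ω := fun i => (∑ l, cj (z ^ p ^ i) (φ j l) (vt l i)) *
    (hasseDeriv (p * L) (g n ^ p ^ i)).eval y with hc
  have h6 : ∑ i ∈ Finset.range N, c i = ∑ i ∈ Finset.range N, c (i + 1) + c 0 := by
    have h7 : c N = 0 := by
      rw [hc]
      simp only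
      rw [Finset.sum_eq_zero fun l _ => by rw [D.v0 l N le_rfl, map_zero], zero_mul]
    rw [← Finset.sum_range_succ', Finset.sum_range_succ, h7, add_zero]
  rw [icc_sum] at h1
  have h9 : ∑ i ∈ Finset.range N, (∑ l, cj (z ^ p ^ (i + 1)) (φ j l) (vt l (i + 1)) +
        algebraMap k Ω (q j (i + 1)) * y) * (hasseDeriv (p * L) (g n ^ p ^ (i + 1))).eval y =
      ∑ i ∈ Finset.range N, c (i + 1) + ∑ i ∈ Finset.range N, algebraMap k Ω (q j (i + 1)) * y *
        (hasseDeriv (p * L) (g n ^ p ^ (i + 1))).eval y := by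
    rw [← Finset.sum_add_distrib]
    exact Finset.sum_congr rfl fun i _ => by rw [hc]; ring
  have h10 : c 0 = (∑ l, cj z (φ j l) (vt l 0)) * (hasseDeriv (p * L) (g n)).eval y := by
    rw [hc]
    simp only [pow_zero, pow_one]
  have h11 : ∑ i ∈ Finset.range N, (∑ l, cj (z ^ p ^ i) (φ j l) (vt l i)) *
    (hasseDeriv (p * L) (g n ^ p ^ i)).eval y = ∑ i ∈ Finset.range N, c i := rfl
  rw [h11, h6, h10] at h1
  rw [h4, h9]
  refine Eq.mp (congrArg (fun w => v.Ge (-ε) w) ?_) h1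
  ring

theorem TLD.rel₂ [IsAlgClosed Ω] (D : TLD p v E y z 𝒜 N φ q e0 f0 vt g h) (hy : TL v E y 0)
    (hN : 1 ≤ N)
    {ε : ℝ} {n : ℕ} {j : ι} (hn : v.Ge (-ε) ((h j n).eval y ^ p - ∑ l, φ j l ((h l n).eval y) -
      ∑ i ∈ Finset.Icc 1 N, algebraMap k Ω (q j i) * (y * (g n).eval y ^ p ^ i) -
      e0 j * (g n).eval y - (f0 j).eval y)) {L : ℕ} (hL : ¬ p ∣ L) :
    v.Ge (-ε) (∑ l, cj (y ^ L) (φ j l) (rjet p y N vt g h n l L) +
        (e0 j + ∑ l, cj z (φ j l) (vt l 0)) * (hasseDeriv L (g n)).eval y +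
        (hasseDeriv L (f0 j)).eval y +
        ∑ i ∈ (Finset.Icc 1 N).filter (fun i => p ^ i ∣ L - 1),
        algebraMap k Ω (q j i) * (hasseDeriv ((L - 1) / p ^ i) (g n)).eval y ^ p ^ i) := by
  have hp : p.Prime := Fact.out
  have hL1 : 1 ≤ L := by
    rcases Nat.eq_zero_or_pos L with h0 | h0
    · rw [h0] at hL
      exact absurd (dvd_zero p) hL
    · exact h0
  have h1 := D.jet p hy hn hL1
  -- the vanishing terms
  have h0 : ∀ i, 1 ≤ i → (hasseDeriv L (g n ^ p ^ i)).eval y = 0 := by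
    intro i hi
    refine hasse_pow_char p i (g n) fun hd => hL ((dvd_pow_self p (by omega)).trans hd)
  have h2 : ∑ i ∈ Finset.Icc 1 N, algebraMap k Ω (q j i) *
      (y * (hasseDeriv L (g n ^ p ^ i)).eval y +
        (hasseDeriv (L - 1) (g n ^ p ^ i)).eval y) =
      ∑ i ∈ (Finset.Icc 1 N).filter (fun i => p ^ i ∣ L - 1),
        algebraMap k Ω (q j i) * (hasseDeriv ((L - 1) / p ^ i) (g n)).eval y ^ p ^ i := by
    rw [Finset.sum_filter]
    refine Finset.sum_congr rfl fun i hi => ?_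
    rw [h0 i (Finset.mem_Icc.1 hi).1, mul_zero, zero_add]
    split_ifs with hd
    · have h3 := hasse_pow_mul p i y (g n) ((L - 1) / p ^ i)
      rw [Nat.div_mul_cancel hd] at h3
      rw [h3]
    · rw [hasse_pow_char p i (g n) hd, mul_zero]
  have h3 : (hasseDeriv L (h j n ^ p)).eval y = 0 := by
    have h4 := hasse_pow_char (z := y) p 1 (h j n) (l := L) (by rwa [pow_one])
    rwa [pow_one] at h4
  have h4 : ∀ l, ∑ i ∈ Finset.range N,
      (hasseDeriv L (g n ^ p ^ i)).eval y * cj (z ^ p ^ i) (φ j l) (vt l i) =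
      (hasseDeriv L (g n)).eval y * cj z (φ j l) (vt l 0) := by
    intro l
    rw [Finset.sum_eq_single 0]
    · rw [pow_zero, pow_one, pow_one]
    · intro i _ hi
      rw [h0 i (Nat.one_le_iff_ne_zero.2 hi), zero_mul]
    · intro h5
      exact absurd (Finset.mem_range.2 (by omega)) h5
  rw [h2, h3, Finset.sum_congr rfl fun l _ => (D.cj_jet p hy n j l L).trans (by rw [h4 l]),
    Finset.sum_add_distrib, ← Finset.mul_sum] at h1
  refine Eq.mp (congrArg (fun w => v.Ge (-ε) w) ?_) h1.neg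
  ring

omit [CharP Ω p] in
/-- The jets vanish in large orders. -/
theorem rjet_deg (y : Ω) (N : ℕ) (vt : ι → ℕ → Ω) (g : ℕ → Polynomial Ω)
    (h : ι → ℕ → Polynomial Ω) (n : ℕ) : ∃ D : ℕ, ∀ L, D ≤ L →
      (hasseDeriv L (g n)).eval y = 0 ∧ ∀ j, rjet p y N vt g h n j L = 0 := by
  have hp : p.Prime := Fact.out
  refine ⟨p ^ N * (g n).natDegree + Finset.univ.sup (fun j => (h j n).natDegree) + 1,
    fun L hL => ⟨?_, fun j => ?_⟩⟩
  · have h1 : (g n).natDegree ≤ p ^ N * (g n).natDegree :=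
      Nat.le_mul_of_pos_left _ (pow_pos hp.pos _)
    rw [hasseDeriv_eq_zero_of_lt_natDegree _ _ (by omega), eval_zero]
  · have h1 : (h j n).natDegree ≤ Finset.univ.sup (fun j => (h j n).natDegree) :=
      Finset.le_sup (f := fun j => (h j n).natDegree) (Finset.mem_univ j)
    rw [rjet, hasseDeriv_eq_zero_of_lt_natDegree _ _ (by omega), eval_zero, zero_sub, neg_eq_zero]
    refine Finset.sum_eq_zero fun i hi => ?_
    have h2 : (g n ^ p ^ i).natDegree ≤ p ^ N * (g n).natDegree :=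
      natDegree_pow_le.trans (Nat.mul_le_mul_right _
        (Nat.pow_le_pow_right hp.pos (Finset.mem_range.1 hi).le))
    rw [hasseDeriv_eq_zero_of_lt_natDegree _ _ (by omega), eval_zero, mul_zero]

/-- The properties of `RR`. -/
structure RRd (p : ℕ) (E : IntermediateField k Ω) (y : Ω) (𝒜 : Submodule k (Module.End k Ω))
    (RR : Submodule k Ω) : Prop where
  poly : ∀ f ∈ PI E, f.eval y ∈ RR
  op : ∀ φ ∈ 𝒜, ∀ x ∈ RR, φ x ∈ RR
  rt : ∀ x ∈ RR, ∃ w ∈ RR, w ^ p = x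
  fr : ∀ x ∈ RR, x ^ p ∈ RR

/-- The data of the growth lemma. -/
theorem TLD.grw [IsAlgClosed Ω] [Fact (Ctx0 k v)] (D : TLD p v E y z 𝒜 N φ q e0 f0 vt g h)
    (hy : TL v E y 0) (hN : 1 ≤ N) {RR : Submodule k Ω} (hR : RRd p E y 𝒜 RR) {μ : ℝ} (hμ : 0 < μ)
    (ho : ∀ j, ∃ a : k, v.Ge μ (e0 j + ∑ l, cj z (φ j l) (vt l 0) - algebraMap k Ω a))
    (hg : ∀ n J, v.Ge (-μ) ((hasseDeriv J (g n)).eval y)) :
    ∃ J₁ : ℕ, Grw p v ⊤ RR N q (fun j => e0 j + ∑ l, cj z (φ j l) (vt l 0)) μ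
      (fun L j l x => cj (y ^ L) (φ j l) x) (fun j L => (hasseDeriv L (f0 j)).eval y)
      (fun n J => (hasseDeriv J (g n)).eval y) (fun n j L => rjet p y N vt g h n j L) J₁ := by
  refine ⟨Finset.univ.sup (fun j => (f0 j).natDegree) + 1, ?_⟩
  have hA : ∀ L j l, cj (y ^ L) (φ j l) ∈ 𝒜 := fun L j l => D.aop.sy.pow L (D.φA j l)
  have hn : ∀ ε : ℝ, 0 < ε → ∃ n₀ : ℕ, ∀ n, n₀ ≤ n → ∀ j, v.Ge (-ε) ((h j n).eval y ^ p -
      ∑ l, φ j l ((h l n).eval y) -
      ∑ i ∈ Finset.Icc 1 N, algebraMap k Ω (q j i) * (y * (g n).eval y ^ p ^ i) -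
      e0 j * (g n).eval y - (f0 j).eval y) := by
    intro ε hε
    choose n₀ hn₀ using fun j => D.rel j ε hε
    exact ⟨Finset.univ.sup n₀, fun n hn j =>
      hn₀ j n ((Finset.le_sup (f := n₀) (Finset.mem_univ j)).trans hn)⟩
  exact
    { ST := le_top
      bT := fun _ _ _ => Submodule.mem_top
      Φsub := fun L j l x _ x' _ => map_sub _ _ _
      Φge := fun L j l x _ c hx => D.aop.op.ge _ (hA L j l) x c hx
      ΦS := fun L j l x hx => hR.op _ (hA L j l) x hx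
      rt := hR.rt
      fr := hR.fr
      FS := fun j L => hR.poly _ (hasse_mem_PI (D.f0E j) L)
      F0 := fun j L hL => by
        have h1 : (f0 j).natDegree ≤ Finset.univ.sup (fun j => (f0 j).natDegree) :=
          Finset.le_sup (f := fun j => (f0 j).natDegree) (Finset.mem_univ j)
        rw [hasseDeriv_eq_zero_of_lt_natDegree _ _ (by omega), eval_zero]
      μ0 := hμ
      oμ := ho
      Aμ := hg
      deg := fun n => rjet_deg p y N vt g h n
      rel₁ := fun ε hε => by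
        obtain ⟨n₀, h1⟩ := hn ε hε
        exact ⟨n₀, fun n hnn j L hL => D.rel₁ p hy (h1 n hnn j) hL⟩
      rel₂ := fun ε hε => by
        obtain ⟨n₀, h1⟩ := hn ε hε
        exact ⟨n₀, fun n hnn j L hL => D.rel₂ p hy hN (h1 n hnn j) hL⟩ }

omit [CharP Ω p] in
/-- The top index. -/
theorem TLD.shrink (D : TLD p v E y z 𝒜 N φ q e0 f0 vt g h)
    (hq : ∃ j i, 1 ≤ i ∧ i ≤ N ∧ q j i ≠ 0) :
    ∃ M, 1 ≤ M ∧ M ≤ N ∧ (∃ j, q j M ≠ 0) ∧ TLD p v E y z 𝒜 M φ q e0 f0 vt g h := by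
  have hp : p.Prime := Fact.out
  induction N with
  | zero =>
    obtain ⟨j, i, h1, h2, -⟩ := hq
    omega
  | succ N ih =>
    by_cases hN : ∃ j, q j (N + 1) ≠ 0
    · exact ⟨N + 1, by omega, le_rfl, hN, D⟩
    · have hN' : ∀ j, q j (N + 1) = 0 := fun j => by
        by_contra h1
        exact hN ⟨j, h1⟩
      obtain ⟨M, h1, h2, h3, h4⟩ := ih
        { aop := D.aop
          φA := D.φA
          gE := D.gE
          gh := D.gh
          e0E := D.e0E
          f0E := D.f0E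
          hE := D.hE
          v0 := fun j i hi => by
            rcases Nat.lt_or_ge i (N + 1) with h1 | h1
            · have h2 := D.vr j i h1
              have h3 : i = N := by omega
              rw [h3, hN' j, map_zero, zero_mul, add_zero,
                Finset.sum_eq_zero fun l _ => by rw [D.v0 l _ le_rfl, map_zero]] at h2
              rw [h3]
              exact (pow_eq_zero_iff hp.ne_zero).1 h2
            · exact D.v0 j i h1
          vr := fun j i hi => D.vr j i (by omega)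
          o0 := D.o0
          rel := fun j => (D.rel j).congr fun n => by
            rw [icc_sum (N + 1), Finset.sum_range_succ,
              ← icc_sum N (fun i => algebraMap k Ω (q j i) * (y * (g n).eval y ^ p ^ i)), hN' j,
              map_zero, zero_mul, add_zero] }
        (by
          obtain ⟨j, i, h1, h2, h3⟩ := hq
          refine ⟨j, i, h1, ?_, h3⟩
          rcases Nat.lt_or_ge i (N + 1) with h4 | h4
          · omega
          · have h5 : i = N + 1 := by omega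
            rw [h5, hN' j] at h3
            exact absurd rfl h3)
      exact ⟨M, h1, by omega, h3, h4⟩

/-- The change of the centre of `z`. -/
theorem TLD.recentre (D : TLD p v E y z 𝒜 N φ q e0 f0 vt g h) (n₀ : ℕ) :
    TLD p v E y z 𝒜 N φ q e0 (fun j => f0 j +
        ∑ i ∈ Finset.Icc 1 N, Polynomial.C (algebraMap k Ω (q j i)) * (X * g n₀ ^ p ^ i) +
        Polynomial.C (e0 j) * g n₀) vt (fun n => g (n₀ + n) - g n₀)
      (fun j n => h j (n₀ + n)) where
  aop := D.aop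
  φA := D.φA
  gE n := sub_mem (D.gE _) (D.gE _)
  gh n i := by
    rw [coeff_sub, sub_mul]
    exact (D.gh _ i).sub (D.gh _ i)
  e0E := D.e0E
  f0E j := add_mem (add_mem (D.f0E j) (sum_mem fun i _ =>
    mul_mem (C_mem_PI (E.algebraMap_mem _)) (mul_mem X_mem_PI' (pow_mem (D.gE _) _))))
    (mul_mem (C_mem_PI (D.e0E j)) (D.gE _))
  hE j n := D.hE j _
  v0 := D.v0
  vr := D.vr
  o0 := D.o0
  rel j := by
    intro ε hε
    obtain ⟨n₁, h1⟩ := D.rel j ε hε
    refine ⟨n₁, fun n hn => ?_⟩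
    have h2 := h1 (n₀ + n) (by omega)
    refine Eq.mp (congrArg (fun w => v.Ge (-ε) w) ?_) h2
    beta_reduce
    have h3 : ∑ i ∈ Finset.Icc 1 N, (Polynomial.C (algebraMap k Ω (q j i)) *
        (X * g n₀ ^ p ^ i)).eval y =
        ∑ i ∈ Finset.Icc 1 N, algebraMap k Ω (q j i) * (y * (g n₀).eval y ^ p ^ i) :=
      Finset.sum_congr rfl fun i _ => by
        rw [eval_mul, eval_C, eval_mul, eval_X, eval_pow]
    have h4 : ∑ i ∈ Finset.Icc 1 N, algebraMap k Ω (q j i) *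
        (y * ((g (n₀ + n)).eval y - (g n₀).eval y) ^ p ^ i) =
        ∑ i ∈ Finset.Icc 1 N, algebraMap k Ω (q j i) * (y * (g (n₀ + n)).eval y ^ p ^ i) -
        ∑ i ∈ Finset.Icc 1 N, algebraMap k Ω (q j i) * (y * (g n₀).eval y ^ p ^ i) := by
      rw [← Finset.sum_sub_distrib]
      refine Finset.sum_congr rfl fun i _ => ?_
      rw [sub_pow_char_pow]
      ring
    rw [eval_add, eval_add, eval_finsetSum, eval_mul, eval_C, eval_sub, h3, h4]
    ring

omit [Fact p.Prime] [CharP Ω p] in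
/-- The residues of finitely many integral elements. -/
theorem exists_mu [hk : Fact (Ctx0 k v)] [Nonempty ι] {o : ι → Ω} (ho : ∀ j, v.Ge 0 (o j)) :
    ∃ μ : ℝ, 0 < μ ∧ ∀ j, ∃ a : k, v.Ge μ (o j - algebraMap k Ω a) := by
  classical
  choose a ha using fun j => hk.out.residue (ho j)
  have h1 : ∀ j, ∃ μ : ℝ, 0 < μ ∧ v.Ge μ (o j - algebraMap k Ω (a j)) := by
    intro j
    by_cases h0 : o j - algebraMap k Ω (a j) = 0
    · exact ⟨1, one_pos, by rw [h0]; exact RVal.Ge.zero⟩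
    · exact ⟨_, ha j h0, RVal.ge_self _⟩
  choose μ hμ0 hμ using h1
  obtain ⟨j₀, hj₀⟩ := Finite.exists_min μ
  exact ⟨μ j₀, hμ0 j₀, fun j => ⟨a j, (hμ j).mono (hj₀ j)⟩⟩

/-- **The mixed part.** If some `q j i ≠ 0`, then some combination of the `z ^ p ^ i`, `i ≥ 1`, is
in `RR` up to `O`. -/
theorem TLD.main [IsAlgClosed Ω] [hk : Fact (Ctx0 k v)] (D : TLD p v E y z 𝒜 N φ q e0 f0 vt g h)
    (hy : TL v E y 0) {RR : Submodule k Ω} (hR : RRd p E y 𝒜 RR) {w : Ω}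
    (hw : Nul v fun n => w - (g n).eval y) (hq : ∃ j i, 1 ≤ i ∧ i ≤ N ∧ q j i ≠ 0) :
    ∃ (M : ℕ) (c : ℕ → k), 1 ≤ M ∧ c M ≠ 0 ∧ ∃ r ∈ RR,
      v.Ge 0 (∑ i ∈ Finset.Icc 1 M, algebraMap k Ω (c i) * w ^ p ^ i - r) := by
  obtain ⟨M, hM, -, ⟨j₀, hj₀⟩, D₁⟩ := D.shrink p hq
  have : Nonempty ι := ⟨j₀⟩
  obtain ⟨μ, hμ, ho⟩ := exists_mu (k := k) D₁.o0
  obtain ⟨n₀, hn₀⟩ := hw μ hμ
  have D₂ := D₁.recentre p n₀
  have hg : ∀ n J, v.Ge (-μ) ((hasseDeriv J (g (n₀ + n) - g n₀)).eval y) := by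
    intro n J
    refine hasse_ge hy (sub_mem (D₁.gE _) (D₁.gE _)) ?_ J
    have h1 := (hn₀ n₀ le_rfl).sub (hn₀ (n₀ + n) (by omega))
    rw [eval_sub]
    refine Eq.mp (congrArg (fun w => v.Ge (-μ) w) ?_) h1
    ring
  obtain ⟨J₁, G⟩ := D₂.grw p hy hM hR hμ ho hg
  obtain ⟨r, hr, h1⟩ := G.fin hM hj₀
  refine ⟨M, q j₀, hM, hj₀, r + ∑ i ∈ Finset.Icc 1 M, algebraMap k Ω (q j₀ i) *
    (g n₀).eval y ^ p ^ i, ?_, ?_⟩
  · refine add_mem hr (sum_mem fun i _ => ?_)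
    rw [← Algebra.smul_def]
    refine RR.smul_mem _ ?_
    rw [← eval_pow]
    exact hR.poly _ (pow_mem (D₁.gE n₀) _)
  · -- the limit
    have h2 : Nul v fun n => w - (g (n₀ + n)).eval y := by
      intro ε hε
      obtain ⟨n₁, h3⟩ := hw ε hε
      exact ⟨n₁, fun n hn => h3 _ (by omega)⟩
    have h3 : Nul v fun n => ∑ i ∈ Finset.Icc 1 M, algebraMap k Ω (q j₀ i) *
        (w - (g (n₀ + n)).eval y) ^ p ^ i := by
      refine Nul.sum _ (fun i n => algebraMap k Ω (q j₀ i) * (w - (g (n₀ + n)).eval y) ^ p ^ i)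
        fun i _ => ?_
      exact ((h2.pow (p ^ i)).mul_ge (c := fun _ => algebraMap k Ω (q j₀ i))
        fun _ => hk.out.ge _).congr fun n => rfl
    refine Nul.const ((h1.add h3).congr fun n => ?_)
    simp only [hasseDeriv_zero, LinearMap.id_apply, eval_sub]
    have h4 : ∀ i, algebraMap k Ω (q j₀ i) * ((g (n₀ + n)).eval y - (g n₀).eval y) ^ p ^ i =
        algebraMap k Ω (q j₀ i) * (g (n₀ + n)).eval y ^ p ^ i -
        algebraMap k Ω (q j₀ i) * (g n₀).eval y ^ p ^ i := fun i => by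
      rw [sub_pow_char_pow]
      ring
    have h5 : ∀ i, algebraMap k Ω (q j₀ i) * (w - (g (n₀ + n)).eval y) ^ p ^ i =
        algebraMap k Ω (q j₀ i) * w ^ p ^ i -
        algebraMap k Ω (q j₀ i) * (g (n₀ + n)).eval y ^ p ^ i := fun i => by
      rw [sub_pow_char_pow]
      ring
    rw [Finset.sum_congr rfl fun i _ => h4 i, Finset.sum_congr rfl fun i _ => h5 i,
      Finset.sum_sub_distrib, Finset.sum_sub_distrib]
    ring

end Jet

end Pool.Agent.TWIV
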