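import Pool.Agent.Lib.TWIV.GrowF
import Pool.Agent.Lib.TWIV.TL4

/-!
# TANK W: the mixed part, filtered form

As in `TL4`, for operators `φ j l` which are defined on a subalgebra `T` only and which are linear
over the polynomials in `y` with coefficients in `W`; `S i` is an increasing family of submodules of
`T`, a `p`-th root leads from `S i` to `S (i + 1)`.

* `pcf φ f`: `φ` acts on the coefficients;
* `OpT`: the operators and the filtration;
* `TLF`: the data; `TLF.jet`, `TLF.rel₁`, `TLF.rel₂`;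
* `TLF.main`.
-/

set_option autoImplicit false

open Polynomial

namespace Pool.Agent.TWIV

open Pool.Agent.H15JM (RVal)
open Pool.Agent.LU1 (VPos adj)
open Pool.Agent.D2 (Ctx0)
open Pool.Agent.TWM Pool.Agent.TWC

universe u

section Defs

variable {k Ω : Type u} [Field k] [Field Ω] [Algebra k Ω] {v : RVal Ω}
  {E W : IntermediateField k Ω} {y : Ω} {T : Subalgebra k Ω} {S : ℕ → Submodule k Ω} {D : ℕ}
  {ι : Type} [Fintype ι] {φ : ι → ι → Ω → Ω}

/-- `ψ` acts on the coefficients. -/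
noncomputable def pcf (ψ : Ω → Ω) (f : Polynomial Ω) : Polynomial Ω :=
  ∑ i ∈ f.support, monomial i (ψ (f.coeff i))

theorem coeff_pcf {ψ : Ω → Ω} (h0 : ψ 0 = 0) (f : Polynomial Ω) (i : ℕ) :
    (pcf ψ f).coeff i = ψ (f.coeff i) := by
  rw [pcf, finsetSum_coeff]
  simp only [coeff_monomial]
  rw [Finset.sum_ite_eq' f.support i]
  split_ifs with h
  · rfl
  · rw [notMem_support_iff.1 h, h0]

/-- The operators and the filtration. -/
structure OpT (p : ℕ) (v : RVal Ω) (E W : IntermediateField k Ω) (y : Ω) (T : Subalgebra k Ω)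
    (S : ℕ → Submodule k Ω) (D : ℕ) {ι : Type} [Fintype ι] (φ : ι → ι → Ω → Ω) : Prop where
  WE : W ≤ E
  Ey : ∀ f ∈ PI E, f.eval y ∈ S 0
  ST : ∀ i, ∀ x ∈ S i, x ∈ T
  SS : ∀ i, S i ≤ S (i + 1)
  add : ∀ j l, ∀ x ∈ T, ∀ x' ∈ T, φ j l (x + x') = φ j l x + φ j l x'
  ge : ∀ j l, ∀ x ∈ T, ∀ b : ℝ, v.Ge b x → v.Ge b (φ j l x)
  φE : ∀ j l, ∀ x ∈ E, φ j l x ∈ E
  φS : ∀ j l i, ∀ x ∈ S i, φ j l x ∈ S i
  cst : ∀ j l, ∀ f ∈ PI W, ∀ x ∈ T, φ j l (f.eval y * x) = f.eval y * φ j l x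
  rt : ∀ i < D, ∀ x ∈ S i, ∃ w ∈ S (i + 1), w ^ p = x
  fr : ∀ i, ∀ x ∈ S i, x ^ p ∈ S i
  mulE : ∀ i, ∀ a ∈ E, ∀ x ∈ S i, a * x ∈ S i

namespace OpT

variable {p : ℕ}

theorem Ty (h : OpT p v E W y T S D φ) {f : Polynomial Ω} (hf : f ∈ PI E) : f.eval y ∈ T :=
  h.ST 0 _ (h.Ey f hf)

theorem memE (h : OpT p v E W y T S D φ) {a : Ω} (ha : a ∈ E) : a ∈ T := by
  have h1 := h.Ty (C_mem_PI ha)
  rwa [eval_C] at h1

theorem zero (h : OpT p v E W y T S D φ) (j l : ι) : φ j l 0 = 0 := by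
  have h1 := h.add j l 0 (zero_mem T) 0 (zero_mem T)
  rw [add_zero] at h1
  exact left_eq_add.1 h1

theorem sub (h : OpT p v E W y T S D φ) (j l : ι) {x x' : Ω} (hx : x ∈ T) (hx' : x' ∈ T) :
    φ j l (x - x') = φ j l x - φ j l x' := by
  have h1 := h.add j l (x - x') (sub_mem hx hx') x' hx'
  rw [sub_add_cancel] at h1
  rw [h1, add_sub_cancel_right]

theorem sum (h : OpT p v E W y T S D φ) (j l : ι) {α : Type*} (U : Finset α) (x : α → Ω)
    (hx : ∀ a ∈ U, x a ∈ T) : φ j l (∑ a ∈ U, x a) = ∑ a ∈ U, φ j l (x a) := by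
  classical
  induction U using Finset.induction_on with
  | empty => rw [Finset.sum_empty, Finset.sum_empty, h.zero]
  | insert a U ha ih =>
    rw [Finset.sum_insert ha, Finset.sum_insert ha,
      h.add j l _ (hx a (Finset.mem_insert_self a U)) _
        (sum_mem fun i hi => hx i (Finset.mem_insert_of_mem hi)),
      ih fun i hi => hx i (Finset.mem_insert_of_mem hi)]

theorem nat (h : OpT p v E W y T S D φ) (j l : ι) (n : ℕ) {x : Ω} (hx : x ∈ T) :
    φ j l ((n : Ω) * x) = (n : Ω) * φ j l x := by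
  induction n with
  | zero => rw [Nat.cast_zero, zero_mul, zero_mul, h.zero]
  | succ n ih =>
    rw [Nat.cast_succ, add_mul, one_mul, h.add j l _ ?_ _ hx, ih, add_mul, one_mul]
    rw [← nsmul_eq_mul]
    exact nsmul_mem hx n

theorem pcf_mem (h : OpT p v E W y T S D φ) (j l : ι) {f : Polynomial Ω} (hf : f ∈ PI E) :
    pcf (φ j l) f ∈ PI E := fun i => by
  rw [coeff_pcf (h.zero j l)]
  exact h.φE j l _ (hf i)

theorem pcf_hasse (h : OpT p v E W y T S D φ) (j l : ι) (L : ℕ) {f : Polynomial Ω}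
    (hf : f ∈ PI E) : hasseDeriv L (pcf (φ j l) f) = pcf (φ j l) (hasseDeriv L f) := by
  ext i
  rw [hasseDeriv_coeff, coeff_pcf (h.zero j l), coeff_pcf (h.zero j l), hasseDeriv_coeff,
    h.nat j l _ (h.memE (hf _))]

theorem pcf_eval (h : OpT p v E W y T S D φ) (j l : ι) {f : Polynomial Ω} (hf : f ∈ PI E) :
    (pcf (φ j l) f).eval y = φ j l (f.eval y) := by
  have h1 : (pcf (φ j l) f).natDegree ≤ f.natDegree :=
    natDegree_le_iff_coeff_eq_zero.2 fun i hi => by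
      rw [coeff_pcf (h.zero j l), coeff_eq_zero_of_natDegree_lt hi, h.zero]
  rw [eval_eq_sum_range' (Nat.lt_succ_of_le h1), eval_eq_sum_range, h.sum j l]
  · refine Finset.sum_congr rfl fun i _ => ?_
    have h2 := h.cst j l (X ^ i) (pow_mem X_mem_PI' _) (f.coeff i) (h.memE (hf i))
    rw [eval_pow, eval_X] at h2
    rw [coeff_pcf (h.zero j l), mul_comm (f.coeff i), h2, mul_comm]
  · intro i _
    have h2 := h.Ty (f := Polynomial.C (f.coeff i) * X ^ i)
      (mul_mem (C_mem_PI (hf i)) (pow_mem X_mem_PI' _))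
    rwa [eval_mul, eval_C, eval_pow, eval_X] at h2

end OpT

/-- The data of the mixed part, filtered form. -/
structure TLF (p : ℕ) (v : RVal Ω) (E W : IntermediateField k Ω) (y : Ω) (T : Subalgebra k Ω)
    (S : ℕ → Submodule k Ω) (D : ℕ) {ι : Type} [Fintype ι] (N : ℕ)
    (φ : ι → ι → Ω → Ω) (q : ι → ℕ → k) (e0 : ι → Ω) (f0 : ι → Polynomial Ω)
    (vt : ι → ℕ → Ω) (g : ℕ → Polynomial Ω) (h : ι → ℕ → Polynomial Ω) : Prop where
  op : OpT p v E W y T S D φ
  gW : ∀ n, g n ∈ PI W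
  e0E : ∀ j, e0 j ∈ E
  f0E : ∀ j, f0 j ∈ PI E
  hE : ∀ j n, h j n ∈ PI E
  vT : ∀ j i, vt j i ∈ T
  v0 : ∀ j i, N ≤ i → vt j i = 0
  vr : ∀ j i, i < N → vt j i ^ p =
    ∑ l, φ j l (vt l (i + 1)) + algebraMap k Ω (q j (i + 1)) * y
  oE : ∀ j, e0 j + ∑ l, φ j l (vt l 0) ∈ E
  o0 : ∀ j, v.Ge 0 (e0 j + ∑ l, φ j l (vt l 0))
  rel : ∀ j, Nul v fun n => (h j n).eval y ^ p - ∑ l, φ j l ((h l n).eval y) -
    ∑ i ∈ Finset.Icc 1 N, algebraMap k Ω (q j i) * (y * (g n).eval y ^ p ^ i) -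
    e0 j * (g n).eval y - (f0 j).eval y

end Defs

section Jet

variable {k Ω : Type u} [Field k] [Field Ω] [Algebra k Ω] {v : RVal Ω}
  {E W : IntermediateField k Ω} {y : Ω} {T : Subalgebra k Ω} {S : ℕ → Submodule k Ω} {D : ℕ}
  {ι : Type} [Fintype ι] {N : ℕ}
  {φ : ι → ι → Ω → Ω} {q : ι → ℕ → k} {e0 : ι → Ω} {f0 : ι → Polynomial Ω}
  {vt : ι → ℕ → Ω} {g : ℕ → Polynomial Ω} {h : ι → ℕ → Polynomial Ω}
  (p : ℕ) [Fact p.Prime] [CharP Ω p]

/-- The relation as a polynomial. -/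
noncomputable def rpolF (N : ℕ) (φ : ι → ι → Ω → Ω) (q : ι → ℕ → k) (e0 : ι → Ω)
    (f0 : ι → Polynomial Ω) (g : ℕ → Polynomial Ω) (h : ι → ℕ → Polynomial Ω) (j : ι) (n : ℕ) :
    Polynomial Ω :=
  h j n ^ p - ∑ l, pcf (φ j l) (h l n) -
    ∑ i ∈ Finset.Icc 1 N, Polynomial.C (algebraMap k Ω (q j i)) * (X * g n ^ p ^ i) -
    Polynomial.C (e0 j) * g n - f0 j

omit [Fact p.Prime] [CharP Ω p] in
/-- The jets of the relation. -/
theorem TLF.jet [IsAlgClosed Ω] (R : TLF p v E W y T S D N φ q e0 f0 vt g h) (hy : TL v E y 0)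
    {ε : ℝ} {n : ℕ} {j : ι} (hn : v.Ge (-ε) ((h j n).eval y ^ p - ∑ l, φ j l ((h l n).eval y) -
      ∑ i ∈ Finset.Icc 1 N, algebraMap k Ω (q j i) * (y * (g n).eval y ^ p ^ i) -
      e0 j * (g n).eval y - (f0 j).eval y)) {L : ℕ} (hL : 1 ≤ L) :
    v.Ge (-ε) ((hasseDeriv L (h j n ^ p)).eval y -
      ∑ l, φ j l ((hasseDeriv L (h l n)).eval y) -
      ∑ i ∈ Finset.Icc 1 N, algebraMap k Ω (q j i) *
        (y * (hasseDeriv L (g n ^ p ^ i)).eval y + (hasseDeriv (L - 1) (g n ^ p ^ i)).eval y) -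
      e0 j * (hasseDeriv L (g n)).eval y - (hasseDeriv L (f0 j)).eval y) := by
  have hgE : ∀ n, g n ∈ PI E := fun n => PI_mono R.op.WE (R.gW n)
  have hP : rpolF p N φ q e0 f0 g h j n ∈ PI E :=
    sub_mem (sub_mem (sub_mem (sub_mem (pow_mem (R.hE j n) p)
      (sum_mem fun l _ => R.op.pcf_mem j l (R.hE l n)))
      (sum_mem fun i _ => mul_mem (C_mem_PI (E.algebraMap_mem _))
        (mul_mem X_mem_PI' (pow_mem (hgE n) _))))
      (mul_mem (C_mem_PI (R.e0E j)) (hgE n))) (R.f0E j)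
  have h1 : v.Ge (-ε) ((rpolF p N φ q e0 f0 g h j n).eval y) := by
    rw [rpolF, eval_sub, eval_sub, eval_sub, eval_sub, eval_pow, eval_finsetSum, eval_finsetSum,
      eval_mul, eval_C, Finset.sum_congr rfl fun l _ => R.op.pcf_eval j l (R.hE l n),
      Finset.sum_congr rfl fun i _ => show (Polynomial.C (algebraMap k Ω (q j i)) *
        (X * g n ^ p ^ i)).eval y = algebraMap k Ω (q j i) * (y * (g n).eval y ^ p ^ i) by
        rw [eval_mul, eval_C, eval_mul, eval_X, eval_pow]]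
    exact hn
  have h2 := hasse_ge hy hP h1 L
  rw [rpolF, map_sub, map_sub, map_sub, map_sub, map_sum, map_sum, eval_sub, eval_sub, eval_sub,
    eval_sub, eval_finsetSum, eval_finsetSum, hasse_C_mul',
    Finset.sum_congr rfl fun l _ => show (hasseDeriv L (pcf (φ j l) (h l n))).eval y =
      φ j l ((hasseDeriv L (h l n)).eval y) by
      rw [R.op.pcf_hasse j l L (R.hE l n), R.op.pcf_eval j l (hasse_mem_PI (R.hE l n) L)],
    Finset.sum_congr rfl fun i _ => show (hasseDeriv L (Polynomial.C (algebraMap k Ω (q j i)) *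
        (X * g n ^ p ^ i))).eval y = algebraMap k Ω (q j i) *
        (y * (hasseDeriv L (g n ^ p ^ i)).eval y + (hasseDeriv (L - 1) (g n ^ p ^ i)).eval y) by
      rw [hasse_C_mul', hasse_X_mul y _ hL]] at h2
  exact h2

omit [CharP Ω p] in
theorem TLF.jetT (R : TLF p v E W y T S D N φ q e0 f0 vt g h) (n i L : ℕ) :
    (hasseDeriv L (g n ^ p ^ i)).eval y ∈ T :=
  R.op.Ty (hasse_mem_PI (pow_mem (PI_mono R.op.WE (R.gW n)) _) L)

omit [CharP Ω p] in
theorem TLF.rjetT (R : TLF p v E W y T S D N φ q e0 f0 vt g h) (n : ℕ) (j : ι) (L : ℕ) :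
    rjet p y N vt g h n j L ∈ T :=
  sub_mem (R.op.Ty (hasse_mem_PI (R.hE j n) L))
    (sum_mem fun i _ => mul_mem (R.vT j i) (R.jetT p n i L))

omit [CharP Ω p] in
/-- The action of an operator on the jets of the unknowns. -/
theorem TLF.op_jet (R : TLF p v E W y T S D N φ q e0 f0 vt g h)
    (n : ℕ) (j l : ι) (L : ℕ) : φ j l ((hasseDeriv L (h l n)).eval y) =
      φ j l (rjet p y N vt g h n l L) + ∑ i ∈ Finset.range N,
        (hasseDeriv L (g n ^ p ^ i)).eval y * φ j l (vt l i) := by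
  have h1 : (hasseDeriv L (h l n)).eval y = rjet p y N vt g h n l L +
      ∑ i ∈ Finset.range N, vt l i * (hasseDeriv L (g n ^ p ^ i)).eval y := by
    rw [rjet, sub_add_cancel]
  rw [h1, R.op.add j l _ (R.rjetT p n l L) _
    (sum_mem fun i _ => mul_mem (R.vT l i) (R.jetT p n i L)),
    R.op.sum j l _ _ fun i _ => mul_mem (R.vT l i) (R.jetT p n i L)]
  congr 1
  refine Finset.sum_congr rfl fun i _ => ?_
  rw [mul_comm, R.op.cst j l _ (hasse_mem_PI (pow_mem (R.gW n) _) L) _ (R.vT l i)]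

theorem TLF.rel₁ [IsAlgClosed Ω] (R : TLF p v E W y T S D N φ q e0 f0 vt g h) (hy : TL v E y 0)
    {ε : ℝ} {n : ℕ} {j : ι} (hn : v.Ge (-ε) ((h j n).eval y ^ p - ∑ l, φ j l ((h l n).eval y) -
      ∑ i ∈ Finset.Icc 1 N, algebraMap k Ω (q j i) * (y * (g n).eval y ^ p ^ i) -
      e0 j * (g n).eval y - (f0 j).eval y)) {L : ℕ} (hL : 1 ≤ L) :
    v.Ge (-ε) (rjet p y N vt g h n j L ^ p -
      (∑ l, φ j l (rjet p y N vt g h n l (p * L)) +
        (e0 j + ∑ l, φ j l (vt l 0)) * (hasseDeriv (p * L) (g n)).eval y +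
        (hasseDeriv (p * L) (f0 j)).eval y)) := by
  have hp : p.Prime := Fact.out
  have hp2 := hp.two_le
  have hpL : 2 ≤ p * L := by nlinarith
  have h1 := R.jet p hy hn (L := p * L) (by omega)
  -- the vanishing terms
  have h2 : ∀ i ∈ Finset.Icc 1 N, algebraMap k Ω (q j i) *
      (y * (hasseDeriv (p * L) (g n ^ p ^ i)).eval y +
        (hasseDeriv (p * L - 1) (g n ^ p ^ i)).eval y) =
      algebraMap k Ω (q j i) * y * (hasseDeriv (p * L) (g n ^ p ^ i)).eval y := by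
    intro i hi
    have hi1 := (Finset.mem_Icc.1 hi).1
    have h3 : ¬ p ^ i ∣ p * L - 1 := by
      intro hd
      have h4 : p ∣ p * L - 1 := (dvd_pow_self p (by omega)).trans hd
      have h5 : p ∣ p * L - (p * L - 1) := Nat.dvd_sub (dvd_mul_right p L) h4
      rw [show p * L - (p * L - 1) = 1 by omega] at h5
      exact hp.one_lt.ne' (Nat.dvd_one.1 h5)
    rw [hasse_pow_char p i (g n) h3, add_zero, mul_assoc]
  rw [Finset.sum_congr rfl h2, Finset.sum_congr rfl fun l _ => R.op_jet p n j l (p * L),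
    Finset.sum_add_distrib, Finset.sum_comm] at h1
  have h3 : (hasseDeriv (p * L) (h j n ^ p)).eval y = (hasseDeriv L (h j n)).eval y ^ p := by
    have := hasse_pow_mul p 1 y (h j n) L
    rwa [pow_one, mul_comm L p] at this
  rw [h3] at h1
  have h4 : rjet p y N vt g h n j L ^ p = (hasseDeriv L (h j n)).eval y ^ p -
      ∑ i ∈ Finset.range N, (∑ l, φ j l (vt l (i + 1)) +
        algebraMap k Ω (q j (i + 1)) * y) * (hasseDeriv (p * L) (g n ^ p ^ (i + 1))).eval y := by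
    rw [rjet, sub_pow_char, sum_pow_char]
    congr 1
    refine Finset.sum_congr rfl fun i hi => ?_
    rw [mul_pow, R.vr j i (Finset.mem_range.1 hi)]
    congr 1
    have := hasse_pow_mul p 1 y (g n ^ p ^ i) L
    rw [pow_one, mul_comm L p, ← pow_mul, ← pow_succ] at this
    exact this.symm
  have h5 : ∀ i, ∑ l, (hasseDeriv (p * L) (g n ^ p ^ i)).eval y * φ j l (vt l i) =
      (∑ l, φ j l (vt l i)) * (hasseDeriv (p * L) (g n ^ p ^ i)).eval y := by
    intro i
    rw [← Finset.mul_sum, mul_comm]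
  rw [Finset.sum_congr rfl fun i _ => h5 i] at h1
  -- telescoping
  set c : ℕ → Ω := fun i => (∑ l, φ j l (vt l i)) *
    (hasseDeriv (p * L) (g n ^ p ^ i)).eval y with hc
  have h6 : ∑ i ∈ Finset.range N, c i = ∑ i ∈ Finset.range N, c (i + 1) + c 0 := by
    have h7 : c N = 0 := by
      rw [hc]
      simp only
      rw [Finset.sum_eq_zero fun l _ => by rw [R.v0 l N le_rfl, R.op.zero], zero_mul]
    rw [← Finset.sum_range_succ', Finset.sum_range_succ, h7, add_zero]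
  rw [icc_sum] at h1
  have h9 : ∑ i ∈ Finset.range N, (∑ l, φ j l (vt l (i + 1)) +
        algebraMap k Ω (q j (i + 1)) * y) * (hasseDeriv (p * L) (g n ^ p ^ (i + 1))).eval y =
      ∑ i ∈ Finset.range N, c (i + 1) + ∑ i ∈ Finset.range N, algebraMap k Ω (q j (i + 1)) * y *
        (hasseDeriv (p * L) (g n ^ p ^ (i + 1))).eval y := by
    rw [← Finset.sum_add_distrib]
    exact Finset.sum_congr rfl fun i _ => by rw [hc]; ring
  have h10 : c 0 = (∑ l, φ j l (vt l 0)) * (hasseDeriv (p * L) (g n)).eval y := by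
    rw [hc]
    simp only [pow_zero, pow_one]
  have h11 : ∑ i ∈ Finset.range N, (∑ l, φ j l (vt l i)) *
    (hasseDeriv (p * L) (g n ^ p ^ i)).eval y = ∑ i ∈ Finset.range N, c i := rfl
  rw [h11, h6, h10] at h1
  rw [h4, h9]
  refine Eq.mp (congrArg (fun w => v.Ge (-ε) w) ?_) h1
  ring

theorem TLF.rel₂ [IsAlgClosed Ω] (R : TLF p v E W y T S D N φ q e0 f0 vt g h) (hy : TL v E y 0)
    (hN : 1 ≤ N)
    {ε : ℝ} {n : ℕ} {j : ι} (hn : v.Ge (-ε) ((h j n).eval y ^ p - ∑ l, φ j l ((h l n).eval y) -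
      ∑ i ∈ Finset.Icc 1 N, algebraMap k Ω (q j i) * (y * (g n).eval y ^ p ^ i) -
      e0 j * (g n).eval y - (f0 j).eval y)) {L : ℕ} (hL : ¬ p ∣ L) :
    v.Ge (-ε) (∑ l, φ j l (rjet p y N vt g h n l L) +
        (e0 j + ∑ l, φ j l (vt l 0)) * (hasseDeriv L (g n)).eval y +
        (hasseDeriv L (f0 j)).eval y +
        ∑ i ∈ (Finset.Icc 1 N).filter (fun i => p ^ i ∣ L - 1),
        algebraMap k Ω (q j i) * (hasseDeriv ((L - 1) / p ^ i) (g n)).eval y ^ p ^ i) := by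
  have hp : p.Prime := Fact.out
  have hL1 : 1 ≤ L := by
    rcases Nat.eq_zero_or_pos L with h0 | h0
    · rw [h0] at hL
      exact absurd (dvd_zero p) hL
    · exact h0
  have h1 := R.jet p hy hn hL1
  -- the vanishing terms
  have h0 : ∀ i, 1 ≤ i → (hasseDeriv L (g n ^ p ^ i)).eval y = 0 := by
    intro i hi
    refine hasse_pow_char p i (g n) fun hd => hL ((dvd_pow_self p (by omega)).trans hd)
  have h2 : ∑ i ∈ Finset.Icc 1 N, algebraMap k Ω (q j i) *
      (y * (hasseDeriv L (g n ^ p ^ i)).eval y +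
        (hasseDeriv (L - 1) (g n ^ p ^ i)).eval y) =
      ∑ i ∈ (Finset.Icc 1 N).filter (fun i => p ^ i ∣ L - 1),
        algebraMap k Ω (q j i) * (hasseDeriv ((L - 1) / p ^ i) (g n)).eval y ^ p ^ i := by
    rw [Finset.sum_filter]
    refine Finset.sum_congr rfl fun i hi => ?_
    rw [h0 i (Finset.mem_Icc.1 hi).1, mul_zero, zero_add]
    split_ifs with hd
    · have h3 := hasse_pow_mul p i y (g n) ((L - 1) / p ^ i)
      rw [Nat.div_mul_cancel hd] at h3
      rw [h3]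
    · rw [hasse_pow_char p i (g n) hd, mul_zero]
  have h3 : (hasseDeriv L (h j n ^ p)).eval y = 0 := by
    have h4 := hasse_pow_char (z := y) p 1 (h j n) (l := L) (by rwa [pow_one])
    rwa [pow_one] at h4
  have h4 : ∀ l, ∑ i ∈ Finset.range N,
      (hasseDeriv L (g n ^ p ^ i)).eval y * φ j l (vt l i) =
      (hasseDeriv L (g n)).eval y * φ j l (vt l 0) := by
    intro l
    rw [Finset.sum_eq_single 0]
    · rw [pow_zero, pow_one]
    · intro i _ hi
      rw [h0 i (Nat.one_le_iff_ne_zero.2 hi), zero_mul]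
    · intro h5
      exact absurd (Finset.mem_range.2 (by omega)) h5
  rw [h2, h3, Finset.sum_congr rfl fun l _ => (R.op_jet p n j l L).trans (by rw [h4 l]),
    Finset.sum_add_distrib, ← Finset.mul_sum] at h1
  refine Eq.mp (congrArg (fun w => v.Ge (-ε) w) ?_) h1.neg
  ring

/-- The data of the growth lemma. -/
theorem TLF.grw [IsAlgClosed Ω] [Fact (Ctx0 k v)] (R : TLF p v E W y T S D N φ q e0 f0 vt g h)
    (hy : TL v E y 0) (hN : 1 ≤ N) {μ : ℝ}
    (hg : ∀ n J, v.Ge (-μ) ((hasseDeriv J (g n)).eval y)) {J₁ : ℕ}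
    (hJ₁ : ∀ j, (f0 j).natDegree < J₁) :
    GrwF p v T.toSubmodule S D N q (fun j => e0 j + ∑ l, φ j l (vt l 0)) μ
      (fun _ j l x => φ j l x) (fun j L => (hasseDeriv L (f0 j)).eval y)
      (fun n J => (hasseDeriv J (g n)).eval y) (fun n j L => rjet p y N vt g h n j L) J₁ := by
  have hn : ∀ ε : ℝ, 0 < ε → ∃ n₀ : ℕ, ∀ n, n₀ ≤ n → ∀ j, v.Ge (-ε) ((h j n).eval y ^ p -
      ∑ l, φ j l ((h l n).eval y) -
      ∑ i ∈ Finset.Icc 1 N, algebraMap k Ω (q j i) * (y * (g n).eval y ^ p ^ i) -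
      e0 j * (g n).eval y - (f0 j).eval y) := by
    intro ε hε
    choose n₀ hn₀ using fun j => R.rel j ε hε
    exact ⟨Finset.univ.sup n₀, fun n hn j =>
      hn₀ j n ((Finset.le_sup (f := n₀) (Finset.mem_univ j)).trans hn)⟩
  exact
    { ST := fun i x hx => R.op.ST i x hx
      SS := R.op.SS
      bT := fun n j L => R.rjetT p n j L
      Φsub := fun _ j l x hx x' hx' => R.op.sub j l hx hx'
      Φge := fun _ j l x hx c h => R.op.ge j l x hx c h
      ΦS := fun _ j l i x hx => R.op.φS j l i x hx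
      rt := R.op.rt
      fr := R.op.fr
      FS := fun j L => R.op.Ey _ (hasse_mem_PI (R.f0E j) L)
      F0 := fun j L hL => by
        rw [hasseDeriv_eq_zero_of_lt_natDegree _ _ ((hJ₁ j).trans_le hL), eval_zero]
      oS := fun j i x hx => R.op.mulE i _ (R.oE j) x hx
      o0 := R.o0
      Aμ := hg
      deg := fun n => rjet_deg p y N vt g h n
      rel₁ := fun ε hε => by
        obtain ⟨n₀, h1⟩ := hn ε hε
        exact ⟨n₀, fun n hnn j L hL => R.rel₁ p hy (h1 n hnn j) hL⟩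
      rel₂ := fun ε hε => by
        obtain ⟨n₀, h1⟩ := hn ε hε
        exact ⟨n₀, fun n hnn j L hL => R.rel₂ p hy hN (h1 n hnn j) hL⟩ }

omit [CharP Ω p] in
/-- The top index. -/
theorem TLF.shrink (R : TLF p v E W y T S D N φ q e0 f0 vt g h)
    (hq : ∃ j i, 1 ≤ i ∧ i ≤ N ∧ q j i ≠ 0) :
    ∃ M, 1 ≤ M ∧ M ≤ N ∧ (∃ j, q j M ≠ 0) ∧ TLF p v E W y T S D M φ q e0 f0 vt g h := by
  have hp : p.Prime := Fact.out
  induction N with
  | zero =>
    obtain ⟨j, i, h1, h2, -⟩ := hq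
    omega
  | succ N ih =>
    by_cases hN : ∃ j, q j (N + 1) ≠ 0
    · exact ⟨N + 1, by omega, le_rfl, hN, R⟩
    · have hN' : ∀ j, q j (N + 1) = 0 := fun j => by
        by_contra h1
        exact hN ⟨j, h1⟩
      obtain ⟨M, h1, h2, h3, h4⟩ := ih
        { op := R.op
          gW := R.gW
          e0E := R.e0E
          f0E := R.f0E
          hE := R.hE
          vT := R.vT
          v0 := fun j i hi => by
            rcases Nat.lt_or_ge i (N + 1) with h1 | h1
            · have h2 := R.vr j i h1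
              have h3 : i = N := by omega
              rw [h3, hN' j, map_zero, zero_mul, add_zero,
                Finset.sum_eq_zero fun l _ => by rw [R.v0 l _ le_rfl, R.op.zero]] at h2
              rw [h3]
              exact (pow_eq_zero_iff hp.ne_zero).1 h2
            · exact R.v0 j i h1
          vr := fun j i hi => R.vr j i (by omega)
          oE := R.oE
          o0 := R.o0
          rel := fun j => (R.rel j).congr fun n => by
            rw [icc_sum (N + 1), Finset.sum_range_succ,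
              ← icc_sum N (fun i => algebraMap k Ω (q j i) * (y * (g n).eval y ^ p ^ i)), hN' j,
              map_zero, zero_mul, add_zero] }
        (by
          obtain ⟨j, i, h1, h2, h3⟩ := hq
          refine ⟨j, i, h1, ?_, h3⟩
          rcases Nat.lt_or_ge i (N + 1) with h4 | h4
          · omega
          · have h5 : i = N + 1 := by omega
            rw [h5, hN' j] at h3
            exact absurd rfl h3)
      exact ⟨M, h1, by omega, h3, h4⟩

omit [Fact p.Prime] [CharP Ω p] in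
/-- Shift of the index. -/
theorem TLF.shift (R : TLF p v E W y T S D N φ q e0 f0 vt g h) (n₀ : ℕ) :
    TLF p v E W y T S D N φ q e0 f0 vt (fun n => g (n₀ + n)) (fun j n => h j (n₀ + n)) where
  op := R.op
  gW n := R.gW _
  e0E := R.e0E
  f0E := R.f0E
  hE j n := R.hE j _
  vT := R.vT
  v0 := R.v0
  vr := R.vr
  oE := R.oE
  o0 := R.o0
  rel j := by
    intro ε hε
    obtain ⟨n₁, h1⟩ := R.rel j ε hε
    exact ⟨n₁, fun n hn => h1 (n₀ + n) (by omega)⟩

/-- **The mixed part, filtered form.** -/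
theorem TLF.main [IsAlgClosed Ω] [hk : Fact (Ctx0 k v)]
    (R : TLF p v E W y T S D N φ q e0 f0 vt g h) (hy : TL v E y 0) {w : Ω}
    (hw : Nul v fun n => w - (g n).eval y) (hq : ∃ j i, 1 ≤ i ∧ i ≤ N ∧ q j i ≠ 0) {J₁ : ℕ}
    (hJ₁ : ∀ j, (f0 j).natDegree < J₁) (hD : N * J₁ ≤ D) :
    ∃ (M : ℕ) (c : ℕ → k), 1 ≤ M ∧ c M ≠ 0 ∧ ∃ r ∈ T,
      v.Ge 0 (∑ i ∈ Finset.Icc 1 M, algebraMap k Ω (c i) * w ^ p ^ i - r) := by
  obtain ⟨M, hM, hMN, ⟨j₀, hj₀⟩, R₁⟩ := R.shrink p hq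
  obtain ⟨n₀, hn₀⟩ := hw 1 one_pos
  have R₂ := R₁.shift p n₀
  set μ : ℝ := max 1 (-v w) with hμ
  have hwμ : v.Ge (-μ) w := by
    intro h0
    have h1 : -v w ≤ μ := le_max_right _ _
    linarith
  have hg : ∀ n J, v.Ge (-μ) ((hasseDeriv J (g (n₀ + n))).eval y) := by
    intro n J
    refine hasse_ge hy (PI_mono R.op.WE (R₁.gW _)) ?_ J
    have h1 := hwμ.sub ((hn₀ (n₀ + n) (by omega)).mono (neg_le_neg (le_max_left 1 (-v w))))
    rwa [sub_sub_cancel] at h1
  have G := R₂.grw p hy hM hg hJ₁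
  obtain ⟨r, hr, h1⟩ := G.fin ((Nat.mul_le_mul_right J₁ hMN).trans hD) hM hj₀
  refine ⟨M, q j₀, hM, hj₀, r, R.op.ST _ r hr, ?_⟩
  -- the limit
  have h2 : Nul v fun n => w - (g (n₀ + n)).eval y := by
    intro ε hε
    obtain ⟨n₁, h3⟩ := hw ε hε
    exact ⟨n₁, fun n hn => h3 _ (by omega)⟩
  have h3 : Nul v fun n => ∑ i ∈ Finset.Icc 1 M, algebraMap k Ω (q j₀ i) *
      (w - (g (n₀ + n)).eval y) ^ p ^ i := by
    refine Nul.sum _ (fun i n => algebraMap k Ω (q j₀ i) * (w - (g (n₀ + n)).eval y) ^ p ^ i)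
      fun i _ => ?_
    exact ((h2.pow (p ^ i)).mul_ge (c := fun _ => algebraMap k Ω (q j₀ i))
      fun _ => hk.out.ge _).congr fun n => rfl
  refine Nul.const ((h1.add h3).congr fun n => ?_)
  simp only [hasseDeriv_zero, LinearMap.id_apply, sub_pow_char_pow, mul_sub,
    Finset.sum_sub_distrib]
  ring

end Jet

end Pool.Agent.TWIV
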