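import Pool.Agent.Lib.TWIV.W2M
import Pool.Agent.Lib.TWIV.TLF

/-!
# TANK W: FV(y; z) for operators which are linear over `y` and `z`

* `Lft`: the operators lifted to a ring `T` with exact letters, filtered by `S` and `L`;
* `Lft.exact`: exact jets;
* `MXD.tlf`: the mixed part in filtered form, at polynomials over `W`;
* `FV2L`, `FV2L.mix`, `FV2L.spl`, `FV2L.cau`, `FV2L.fv`.
-/

set_option autoImplicit false
set_option linter.unusedSectionVars false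

open Polynomial

namespace Pool.Agent.TWIV

open Pool.Agent.H15JM (RVal)
open Pool.Agent.D2 (Ctx0)
open Pool.Agent.TWM Pool.Agent.TWC

universe u

variable {k Ω : Type u} [Field k] [Field Ω] [Algebra k Ω] {v : RVal Ω}
  {E W : IntermediateField k Ω} {y z : Ω} {𝒜 : Submodule k (Module.End k Ω)}

/-- The operators lifted to exact letters. -/
structure Lft (p : ℕ) (v : RVal Ω) (E W : IntermediateField k Ω) (y : Ω)
    (𝒜 : Submodule k (Module.End k Ω)) (D : ℕ) (T : Subalgebra k Ω) (S L : ℕ → Submodule k Ω)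
    (Φ : Module.End k Ω → Ω → Ω) : Prop where
  add : ∀ φ ∈ 𝒜, ∀ x ∈ T, ∀ x' ∈ T, Φ φ (x + x') = Φ φ x + Φ φ x'
  ge : ∀ φ ∈ 𝒜, ∀ x ∈ T, ∀ b : ℝ, v.Ge b x → v.Ge b (Φ φ x)
  eqE : ∀ φ ∈ 𝒜, ∀ x ∈ E, Φ φ x = φ x
  cst : ∀ φ ∈ 𝒜, ∀ f ∈ PI W, ∀ x ∈ T, Φ φ (f.eval y * x) = f.eval y * Φ φ x
  Ey : ∀ f ∈ PI E, f.eval y ∈ S 0
  ST : ∀ i, ∀ x ∈ S i, x ∈ T
  SS : ∀ i, S i ≤ S (i + 1)
  ΦS : ∀ φ ∈ 𝒜, ∀ i, ∀ x ∈ S i, Φ φ x ∈ S i
  rt : ∀ i < D, ∀ x ∈ S i, ∃ w ∈ S (i + 1), w ^ p = x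
  fr : ∀ i, ∀ x ∈ S i, x ^ p ∈ S i
  mulE : ∀ i, ∀ a ∈ E, ∀ x ∈ S i, a * x ∈ S i
  EL : ∀ i, ∀ x ∈ E, x ∈ L i
  yL : ∀ i, y ∈ L i
  LS : ∀ i, ∀ x ∈ L i, x ∈ S i
  ΦL : ∀ φ ∈ 𝒜, ∀ i, ∀ x ∈ L i, Φ φ x ∈ L i
  Lrt : ∀ i < D, ∀ x ∈ L i, ∃ w ∈ L (i + 1), w ^ p = x
  Llim : ∀ i, ∀ x ∈ L i, Lim v E 0 x
  Lfree : ∀ i, ∀ x ∈ L i, v.Ge 0 x → x ∈ E

/-- An operator which commutes with `z`. -/
theorem cj_pow_eq {φ : Module.End k Ω} (hz : z ≠ 0) (h : cj z φ = φ) (m : ℕ) :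
    cj (z ^ m) φ = φ := by
  have h1 : ∀ x, φ (z * x) = z * φ x := fun x => by
    have h2 := congrArg (fun ψ : Module.End k Ω => z * ψ x) h
    simp only [cj_apply] at h2
    rwa [mul_inv_cancel_left₀ hz] at h2
  have h2 : ∀ x, φ (z ^ m * x) = z ^ m * φ x := by
    induction m with
    | zero => intro x; rw [pow_zero, one_mul, one_mul]
    | succ m ih => intro x; rw [pow_succ, mul_assoc, ih, h1, mul_assoc]
  ext x
  rw [cj_apply, h2, inv_mul_cancel_left₀ (pow_ne_zero m hz)]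

namespace Lft

variable {p : ℕ} {D : ℕ} {T : Subalgebra k Ω} {S L : ℕ → Submodule k Ω}
  {Φ : Module.End k Ω → Ω → Ω}

theorem SS' (H : Lft p v E W y 𝒜 D T S L Φ) {i i' : ℕ} (hi : i ≤ i') : S i ≤ S i' := by
  induction i', hi using Nat.le_induction with
  | base => exact le_rfl
  | succ i' _ ih => exact ih.trans (H.SS i')

theorem LT (H : Lft p v E W y 𝒜 D T S L Φ) {i : ℕ} {x : Ω} (hx : x ∈ L i) : x ∈ T :=
  H.ST i _ (H.LS i x hx)

theorem ET (H : Lft p v E W y 𝒜 D T S L Φ) {x : Ω} (hx : x ∈ E) : x ∈ T :=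
  H.LT (H.EL 0 x hx)

theorem zero (H : Lft p v E W y 𝒜 D T S L Φ) {φ : Module.End k Ω} (hφ : φ ∈ 𝒜) : Φ φ 0 = 0 := by
  have h1 := H.add φ hφ 0 (zero_mem T) 0 (zero_mem T)
  rw [add_zero] at h1
  exact left_eq_add.1 h1

theorem sub (H : Lft p v E W y 𝒜 D T S L Φ) {φ : Module.End k Ω} (hφ : φ ∈ 𝒜) {x x' : Ω}
    (hx : x ∈ T) (hx' : x' ∈ T) : Φ φ (x - x') = Φ φ x - Φ φ x' := by
  have h1 := H.add φ hφ (x - x') (sub_mem hx hx') x' hx'
  rw [sub_add_cancel] at h1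
  rw [h1, add_sub_cancel_right]

/-- The lifted operators and the operators agree up to `0` at the limits of `E`. -/
theorem near (hO : OpA v 𝒜) (H : Lft p v E W y 𝒜 D T S L Φ) {φ : Module.End k Ω} (hφ : φ ∈ 𝒜)
    {x x' : Ω} (hx : x ∈ T) (hl : Lim v E 0 x) (h : v.Ge 0 (x - x')) :
    v.Ge 0 (Φ φ x - φ x') := by
  refine Nul.const (v := v) fun ε hε => ⟨0, fun _ _ => ?_⟩
  obtain ⟨e, he, h1⟩ := hl ε hε
  rw [zero_sub] at h1
  have h2 := H.ge φ hφ (x - e) (sub_mem hx (H.ET he)) _ h1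
  rw [H.sub hφ hx (H.ET he), H.eqE φ hφ e he] at h2
  have h3 := hO.ge φ hφ _ _ h1
  rw [map_sub] at h3
  have h4 := (hO.ge φ hφ _ _ h).mono (show -ε ≤ 0 by linarith)
  rw [map_sub] at h4
  refine Eq.mp (congrArg (fun w => v.Ge (-ε) w) ?_) ((h2.sub h3).add h4)
  ring

/-- The lifted operators and the operators agree at the polynomials in `y` over `E`. -/
theorem eqEy (H : Lft p v E W y 𝒜 D T S L Φ) {φ : Module.End k Ω} (hφ : φ ∈ 𝒜)
    (hl : ∀ f ∈ PI W, ∀ x, φ (f.eval y * x) = f.eval y * φ x) {f : Polynomial Ω}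
    (hf : f ∈ PI E) : Φ φ (f.eval y) = φ (f.eval y) := by
  classical
  have h1 : ∀ (i : ℕ), Φ φ (y ^ i * f.coeff i) = φ (y ^ i * f.coeff i) ∧
      y ^ i * f.coeff i ∈ T := by
    intro i
    have h2 := H.cst φ hφ (X ^ i) (pow_mem X_mem_PI' _) (f.coeff i) (H.ET (hf i))
    have h3 := hl (X ^ i) (pow_mem X_mem_PI' _) (f.coeff i)
    have h4 := H.ST 0 _ (H.Ey (X ^ i) (pow_mem X_mem_PI' _))
    rw [eval_pow, eval_X] at h2 h3 h4
    exact ⟨by rw [h2, h3, H.eqE φ hφ _ (hf i)], mul_mem h4 (H.ET (hf i))⟩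
  rw [eval_eq_sum_range]
  have h2 : ∀ U : Finset ℕ, Φ φ (∑ i ∈ U, f.coeff i * y ^ i) = φ (∑ i ∈ U, f.coeff i * y ^ i) ∧
      ∑ i ∈ U, f.coeff i * y ^ i ∈ T := by
    intro U
    induction U using Finset.induction_on with
    | empty =>
      rw [Finset.sum_empty, map_zero]
      exact ⟨H.zero hφ, zero_mem T⟩
    | insert a U ha ih =>
      rw [Finset.sum_insert ha, mul_comm]
      refine ⟨?_, add_mem (h1 a).2 ih.2⟩
      rw [H.add φ hφ _ (h1 a).2 _ ih.2, map_add, ih.1, (h1 a).1]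
  exact (h2 _).1

variable {ι : Type} [Fintype ι] {N : ℕ}
  {φ : ι → ι → Module.End k Ω} {q : ι → ℕ → k} {e0 f0 : ι → Ω}
  {vt : ι → ℕ → Ω} {X : ι → ℕ → Polynomial Ω} [Fact p.Prime] [CharP Ω p] [IsAlgClosed Ω]

theorem sumL (H : Lft p v E W y 𝒜 D T S L Φ) (hφ : ∀ j l, φ j l ∈ 𝒜) (j : ι) {i : ℕ} (c : k)
    {x : ι → Ω} (hx : ∀ l, x l ∈ L i) :
    ∑ l, Φ (φ j l) (x l) + algebraMap k Ω c * y ∈ L i := by
  refine add_mem (sum_mem fun l _ => H.ΦL _ (hφ j l) i _ (hx l)) ?_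
  rw [← Algebra.smul_def]
  exact Submodule.smul_mem _ _ (H.yL i)

/-- **Exact jets.** -/
theorem exact (H : Lft p v E W y 𝒜 D T S L Φ) (M : MXD p v E y z 𝒜 N φ q e0 f0 vt X)
    (hO : OpA v 𝒜) (hz : z ≠ 0) (hlin : ∀ φ ∈ 𝒜, cj z φ = φ) (hN : N ≤ D) :
    ∃ vt' : ι → ℕ → Ω, (∀ j i, vt' j i ∈ L (N - i)) ∧ (∀ j i, N ≤ i → vt' j i = 0) ∧
      (∀ j i, i < N → vt' j i ^ p =
        ∑ l, Φ (φ j l) (vt' l (i + 1)) + algebraMap k Ω (q j (i + 1)) * y) ∧
      ∀ j i, v.Ge 0 (vt' j i - vt j i) := by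
  classical
  have hp : p.Prime := Fact.out
  -- the root
  have h1 : ∀ x : Ω, ∃ w : Ω, w ^ p = x := fun x => IsAlgClosed.exists_pow_nat_eq x hp.pos
  choose rt hrt using h1
  have hrtL : ∀ i < D, ∀ x ∈ L i, rt x ∈ L (i + 1) := by
    intro i hi x hx
    obtain ⟨w, hw, h2⟩ := H.Lrt i hi x hx
    have h3 : (rt x - w) ^ p = 0 := by rw [sub_pow_char, hrt, h2, sub_self]
    rwa [sub_eq_zero.1 ((pow_eq_zero_iff hp.ne_zero).1 h3)]
  -- the jets
  let u : ℕ → ι → Ω := fun s => Nat.rec (fun _ => (0 : Ω)) (fun s us j =>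
    rt (∑ l, Φ (φ j l) (us l) + algebraMap k Ω (q j (N - s)) * y)) s
  have hu0 : ∀ j, u 0 j = 0 := fun _ => rfl
  have hus : ∀ s j, u (s + 1) j =
      rt (∑ l, Φ (φ j l) (u s l) + algebraMap k Ω (q j (N - s)) * y) := fun _ _ => rfl
  have huL : ∀ s, s ≤ N → ∀ j, u s j ∈ L s := by
    intro s
    induction s with
    | zero =>
      intro _ j
      rw [hu0]
      exact zero_mem _
    | succ s ih =>
      intro hs j
      rw [hus]
      exact hrtL s (by omega) _ (H.sumL M.φA j _ (ih (by omega)))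
  have hud : ∀ s, s ≤ N → ∀ j, v.Ge 0 (u s j - vt j (N - s)) := by
    intro s
    induction s with
    | zero =>
      intro _ j
      rw [hu0, M.v0 j _ (by omega), sub_zero]
      exact RVal.Ge.zero
    | succ s ih =>
      intro hs j
      have h2 := M.vr j (N - (s + 1)) (by omega)
      rw [show N - (s + 1) + 1 = N - s by omega] at h2
      have h3 : (u (s + 1) j - vt j (N - (s + 1))) ^ p =
          ∑ l, (Φ (φ j l) (u s l) - φ j l (vt l (N - s))) := by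
        rw [sub_pow_char, hus, hrt, h2, Finset.sum_sub_distrib,
          Finset.sum_congr rfl fun l _ => congrArg (fun ψ : Module.End k Ω => ψ (vt l (N - s)))
            (cj_pow_eq hz (hlin _ (M.φA j l)) (p ^ (N - s)))]
        ring
      have h4 : v.Ge 0 ((u (s + 1) j - vt j (N - (s + 1))) ^ p) := by
        rw [h3]
        refine RVal.Ge.sum _ _ fun l _ => ?_
        have h5 := huL s (by omega) l
        exact H.near hO (M.φA j l) (H.LT h5) (H.Llim _ _ h5) (ih (by omega) l)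
      have h5 : Nul v fun _ : ℕ => u (s + 1) j - vt j (N - (s + 1)) :=
        Nul.of_pow hp.ne_zero (Nul.const_iff.2 h4)
      exact Nul.const h5
  refine ⟨fun j i => u (N - i) j, fun j i => huL _ (by omega) j, fun j i hi => ?_,
    fun j i hi => ?_, fun j i => ?_⟩
  · change u (N - i) j = 0
    rw [show N - i = 0 by omega, hu0]
  · change u (N - i) j ^ p = ∑ l, Φ (φ j l) (u (N - (i + 1)) l) + _
    rw [show N - i = N - (i + 1) + 1 by omega, hus, hrt, show N - (N - (i + 1)) = i + 1 by omega]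
  · rcases le_total i N with hi | hi
    · have h2 := hud (N - i) (by omega) j
      rwa [show N - (N - i) = i by omega] at h2
    · change v.Ge 0 (u (N - i) j - vt j i)
      rw [show N - i = 0 by omega, hu0, M.v0 j i hi, sub_zero]
      exact RVal.Ge.zero

end Lft

section Mix

variable {ι : Type} [Fintype ι] {N : ℕ}
  {φ : ι → ι → Module.End k Ω} {q : ι → ℕ → k} {e0 f0 : ι → Ω}
  {vt : ι → ℕ → Ω} {X : ι → ℕ → Polynomial Ω} (p : ℕ) [Fact p.Prime] [CharP Ω p]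

/-- Evaluation at polynomials over `W`. -/
theorem MXD.evl [IsAlgClosed Ω] (M : MXD p v E y z 𝒜 N φ q e0 f0 vt X) (hy : TL v E y 0)
    (hz : TL v (cadj v E y) z 0) (hO : OpA v 𝒜) (sz : Stb 𝒜 (cadj v E y) z)
    (hlin : ∀ φ ∈ 𝒜, cj z φ = φ) (hl : ∀ φ ∈ 𝒜, ∀ f ∈ PI W, ∀ x, φ (f.eval y * x) = f.eval y * φ x)
    (hWE : W ≤ E) (hG : ∀ ε : ℝ, 0 < ε → ∃ g ∈ PI W, v.Ge (-ε) (z - g.eval y)) :
    ∃ (f0' : ι → Polynomial Ω) (g : ℕ → Polynomial Ω) (h : ι → ℕ → Polynomial Ω),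
      (∀ j, f0' j ∈ PI E) ∧ (∀ n, g n ∈ PI W) ∧ (∀ j n, h j n ∈ PI E) ∧
      (∀ j, Nul v fun n => (h j n).eval y ^ p - ∑ l, φ j l ((h l n).eval y) -
        ∑ i ∈ Finset.Icc 1 N, algebraMap k Ω (q j i) * (y * (g n).eval y ^ p ^ i) -
        e0 j * (g n).eval y - (f0' j).eval y) ∧ Nul v fun n => z - (g n).eval y := by
  classical
  have hz0 : z ≠ 0 := TL.ne_zero4 hz
  -- the constants
  choose f0' hf0' hf0 using fun j => hy.dense (M.f0B j) 0
  -- the indices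
  have h1 : ∀ t : ℕ, ∃ m : ℕ, ∀ j, v.Ge (-(1 / ((t : ℝ) + 1)))
      ((mpol p y z N φ q e0 f0 X j m).eval z) := by
    intro t
    choose n₀ hn₀ using fun j => M.rel j (1 / ((t : ℝ) + 1)) (by positivity)
    refine ⟨Finset.univ.sup n₀, fun j => ?_⟩
    rw [mpol_eval sz.cj (Hg.self hz0) M.φA]
    exact hn₀ j _ (Finset.le_sup (f := n₀) (Finset.mem_univ j))
  choose m hm using h1
  have hmp : ∀ j n, mpol p y z N φ q e0 f0 X j n ∈ PI (cadj v E y) := by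
    intro j n
    refine sub_mem (sub_mem (sub_mem (sub_mem (pow_mem (M.XB j n) p)
      (sum_mem fun l _ => gcf_mem sz (M.φA j l) (M.XB l n)))
      (sum_mem fun i _ => mul_mem (C_mem_PI (mul_mem ((cadj v E y).algebraMap_mem _)
        (self_mem_cadj v E y))) (pow_mem X_mem_PI' _)))
      (mul_mem (C_mem_PI (le_cadj v E y (M.e0E j))) X_mem_PI')) (C_mem_PI (M.f0B j))
  -- the approximants
  have h2 : ∀ t : ℕ, ∃ g ∈ PI W,
      v.Ge (-(1 / ((t : ℝ) + 1))) (z - g.eval y) ∧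
      ∀ j, v.Ge (-(1 / ((t : ℝ) + 1))) ((mpol p y z N φ q e0 f0 X j (m t)).eval (g.eval y)) := by
    intro t
    obtain ⟨δ, hδ, h3⟩ := ge_near_fin hz
      (Finset.univ.image fun j => mpol p y z N φ q e0 f0 X j (m t))
      (r := -(1 / ((t : ℝ) + 1))) (by
        intro f hf
        obtain ⟨j, -, rfl⟩ := Finset.mem_image.1 hf
        exact ⟨hmp j _, hm t j⟩)
    obtain ⟨g, hg, hg2⟩ := hG (min δ (1 / ((t : ℝ) + 1))) (lt_min hδ (by positivity))
    refine ⟨g, hg, hg2.mono (neg_le_neg (min_le_right _ _)), fun j => ?_⟩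
    exact h3 _ (hg2.mono (neg_le_neg (min_le_left _ _))) _
      (Finset.mem_image.2 ⟨j, Finset.mem_univ j, rfl⟩)
  choose g hg hgz hgm using h2
  have hgB : ∀ t, (g t).eval y ∈ cadj v E y := fun t =>
    eval_mem (PI_mono (hWE.trans (le_cadj v E y)) (hg t)) (self_mem_cadj v E y)
  have hgHg : ∀ t, Hg z 𝒜 ((g t).eval y) := fun t φ hφ x => by
    rw [hlin φ hφ, hl φ hφ _ (hg t)]
  -- the unknowns
  choose h hhE hh using fun (j : ι) (t : ℕ) =>
    hy.dense (eval_mem (M.XB j (m t)) (hgB t)) 0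
  have hnul : ∀ ε : ℝ, 0 < ε → ∃ N₀ : ℕ, ∀ t : ℕ, N₀ ≤ t → 1 / ((t : ℝ) + 1) ≤ ε := by
    intro ε hε
    obtain ⟨N₀, hN₀⟩ := exists_nat_gt (1 / ε)
    refine ⟨N₀, fun t ht => ?_⟩
    have h4 : (N₀ : ℝ) ≤ t := by exact_mod_cast ht
    rw [div_le_iff₀ (by positivity)]
    rw [div_lt_iff₀ hε] at hN₀
    nlinarith
  refine ⟨f0', g, h, hf0', hg, hhE, ?_, ?_⟩
  · intro j ε hε
    obtain ⟨N₀, hN₀⟩ := hnul ε hε
    refine ⟨N₀, fun t ht => ?_⟩
    have h3 := (hgm t j).mono (neg_le_neg (hN₀ t ht))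
    rw [mpol_eval sz.cj (hgHg t) M.φA] at h3
    have h4 : v.Ge 0 ((X j (m t)).eval ((g t).eval y) ^ p - (h j t).eval y ^ p) := by
      have h5 := ge_pow (hh j t) p
      rw [mul_zero, sub_pow_char] at h5
      exact h5
    have h5 : v.Ge 0 (∑ l, (φ j l ((X l (m t)).eval ((g t).eval y)) -
        φ j l ((h l t).eval y))) := by
      refine RVal.Ge.sum _ _ fun l _ => ?_
      rw [← map_sub]
      exact hO.ge _ (M.φA j l) _ _ (hh l t)
    rw [Finset.sum_sub_distrib] at h5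
    have h6 := (h3.sub ((h4.sub h5).mono (by linarith))).add ((hf0 j).mono (by linarith))
    refine Eq.mp (congrArg (fun w => v.Ge (-ε) w) ?_) h6
    ring
  · intro ε hε
    obtain ⟨N₀, hN₀⟩ := hnul ε hε
    exact ⟨N₀, fun t ht => (hgz t).mono (neg_le_neg (hN₀ t ht))⟩

/-- **The mixed part.** -/
theorem MXD.mainL [IsAlgClosed Ω] [Fact (Ctx0 k v)] (M : MXD p v E y z 𝒜 N φ q e0 f0 vt X)
    (hy : TL v E y 0) (hz : TL v (cadj v E y) z 0) (hO : OpA v 𝒜) (sy : Stb 𝒜 E y)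
    (sz : Stb 𝒜 (cadj v E y) z) (hWE : W ≤ E)
    (hlin : ∀ φ ∈ 𝒜, cj z φ = φ) (hl : ∀ φ ∈ 𝒜, ∀ f ∈ PI W, ∀ x, φ (f.eval y * x) = f.eval y * φ x)
    (hG : ∀ ε : ℝ, 0 < ε → ∃ g ∈ PI W, v.Ge (-ε) (z - g.eval y)) {P : Ω → Prop}
    (hL : ∀ D, ∃ T S L Φ, Lft p v E W y 𝒜 D T S L Φ ∧ ∀ r ∈ T, P r)
    (hq : ∃ j i, 1 ≤ i ∧ i ≤ N ∧ q j i ≠ 0) :
    ∃ (M : ℕ) (c : ℕ → k), 1 ≤ M ∧ c M ≠ 0 ∧ ∃ r, P r ∧
      v.Ge 0 (∑ i ∈ Finset.Icc 1 M, algebraMap k Ω (c i) * z ^ p ^ i - r) := by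
  have hz0 : z ≠ 0 := TL.ne_zero4 hz
  obtain ⟨f0', g, h, hf0', hg, hh, hrel, hgz⟩ := M.evl p hy hz hO sz hlin hl hWE hG
  set J₁ : ℕ := Finset.univ.sup (fun j => (f0' j).natDegree) + 1 with hJ
  have hJ₁ : ∀ j, (f0' j).natDegree < J₁ := fun j =>
    Nat.lt_succ_of_le (Finset.le_sup (f := fun j => (f0' j).natDegree) (Finset.mem_univ j))
  obtain ⟨T, S, L, Φ, H, hT⟩ := hL (N + N * J₁)
  obtain ⟨vt', h1, h2, h3, h4⟩ := H.exact M hO hz0 hlin (Nat.le_add_right _ _)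
  have h5 : ∀ j, e0 j + ∑ l, Φ (φ j l) (vt' l 0) ∈ L N := fun j =>
    add_mem (H.EL N _ (M.e0E j)) (sum_mem fun l _ => H.ΦL _ (M.φA j l) N _ (h1 l 0))
  have h6 : ∀ j, v.Ge 0 (e0 j + ∑ l, Φ (φ j l) (vt' l 0)) := by
    intro j
    have h7 := M.o0 j
    have h8 : v.Ge 0 (∑ l, (Φ (φ j l) (vt' l 0) - φ j l (vt l 0))) :=
      RVal.Ge.sum _ _ fun l _ => H.near hO (M.φA j l) (H.LT (h1 l 0)) (H.Llim _ _ (h1 l 0))
        (h4 l 0)
    rw [Finset.sum_sub_distrib] at h8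
    have h9 : ∑ l, cj z (φ j l) (vt l 0) = ∑ l, φ j l (vt l 0) :=
      Finset.sum_congr rfl fun l _ => by rw [hlin _ (M.φA j l)]
    rw [h9] at h7
    refine Eq.mp (congrArg (fun w => v.Ge 0 w) ?_) (h7.add h8)
    ring
  have R : TLF p v E W y T (fun i => S (N + i)) (N * J₁) N (fun j l => Φ (φ j l)) q e0 f0' vt' g
      h :=
    { op :=
        { WE := hWE
          Ey := fun f hf => H.SS' (Nat.zero_le _) (H.Ey f hf)
          ST := fun i x hx => H.ST _ x hx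
          SS := fun i => H.SS (N + i)
          add := fun j l x hx x' hx' => H.add _ (M.φA j l) x hx x' hx'
          ge := fun j l x hx b hb => H.ge _ (M.φA j l) x hx b hb
          φE := fun j l x hx => by
            rw [H.eqE _ (M.φA j l) x hx]
            exact sy.mem _ (M.φA j l) x hx
          φS := fun j l i x hx => H.ΦS _ (M.φA j l) _ x hx
          cst := fun j l f hf x hx => H.cst _ (M.φA j l) f hf x hx
          rt := fun i hi x hx => H.rt (N + i) (by omega) x hx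
          fr := fun i x hx => H.fr _ x hx
          mulE := fun i a ha x hx => H.mulE _ a ha x hx }
      gW := hg
      e0E := M.e0E
      f0E := hf0'
      hE := hh
      vT := fun j i => H.LT (h1 j i)
      v0 := h2
      vr := h3
      oE := fun j => H.Lfree N _ (h5 j) (h6 j)
      o0 := h6
      rel := fun j => (hrel j).congr fun n => by
        rw [Finset.sum_congr rfl fun l _ => (H.eqEy (M.φA j l) (hl _ (M.φA j l)) (hh l n)).symm] }
  obtain ⟨K, c, hK, hcK, r, hr, h7⟩ := R.main p hy hgz hq hJ₁ le_rfl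
  exact ⟨K, c, hK, hcK, r, hT r hr, h7⟩

end Mix

section Main

variable [hk : Fact (Ctx0 k v)] (p : ℕ) [Fact p.Prime] [CharP k p] [CharP Ω p] [PerfectRing k p]
  [IsAlgClosed Ω]

/-- The hypotheses of FV(y; z), linear form: the operators are linear over `z` and over the
polynomials in `y` with coefficients in `W`, which approximate `z`. -/
structure FV2L (p : ℕ) [Fact p.Prime] [CharP k p] [CharP Ω p] (v : RVal Ω)
    (𝒜 : Submodule k (Module.End k Ω)) (E W : IntermediateField k Ω) (y z : Ω) : Prop where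
  op : OpA v 𝒜
  sy : Stb 𝒜 E y
  sz : Stb 𝒜 (cadj v E y) z
  ty : TL v E y 0
  tz : TL v (cadj v E y) z 0
  res : ResR v (cadj v (cadj v E y) z)
  can : Can p v E (cadj v E y) z
  perf : Perf p E
  tor : HTor p v 𝒜 E
  h1 : H1 p v E 𝒜
  WE : W ≤ E
  lin : ∀ φ ∈ 𝒜, cj z φ = φ
  linW : ∀ φ ∈ 𝒜, ∀ f ∈ PI W, ∀ x, φ (f.eval y * x) = f.eval y * φ x
  hom : ∀ ε : ℝ, 0 < ε → ∃ g ∈ PI W, v.Ge (-ε) (z - g.eval y)
  lft : ∀ D, ∃ T S L Φ, Lft p v E W y 𝒜 D T S L Φ ∧ ∀ r ∈ T, Lim v (cadj v E y) 0 r →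
    ∃ b ∈ cadj v E y, ∃ a, Lim v E 0 a ∧ v.Ge 0 (r - b - a)

/-- The black box of `W2S`. -/
theorem FV2L.mix (F : FV2L p v 𝒜 E W y z) : HMix p v 𝒜 E y z := by
  classical
  intro ι _ D N x φ f w H j
  have hS : STO p v E (cadj v E y) z N φ x f w :=
    ⟨H.sy.pc, H.sy.mem, H.cau, fun j i hi => by rw [H.zero j i hi]; exact Nul.zero, H.jet,
      H.sy.rel⟩
  obtain ⟨M, G, q, e0, f0, vt, hG0, h1, h2, h3, h4⟩ :=
    hS.mxd p F.op F.sy F.sz F.ty F.tz F.res F.can F.perf F.h1 H.sy.opr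
  have hq : ∀ j i, 1 ≤ i → i ≤ M → q j i = 0 := by
    by_contra hne
    push Not at hne
    obtain ⟨j, i, hi1, hiM, hq⟩ := hne
    obtain ⟨K, c, hK, hcK, r, hr, h5⟩ := h1.mainL p F.ty F.tz F.op F.sy F.sz F.WE F.lin F.linW
      F.hom F.lft ⟨j, i, hi1, hiM, hq⟩
    set Q : Polynomial k := ∑ i ∈ Finset.range (K + 1), monomial i (if 1 ≤ i then c i else 0)
      with hQ
    have h6 : ly p z Q = ∑ i ∈ Finset.Icc 1 K, algebraMap k Ω (c i) * z ^ p ^ i := by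
      rw [hQ, ly_monomial_sum]
      symm
      refine Finset.sum_subset_zero_on_sdiff ?_ ?_ ?_
      · intro i hi
        have := (Finset.mem_Icc.1 hi).2
        exact Finset.mem_range.2 (by omega)
      · intro i hi
        rw [Finset.mem_sdiff, Finset.mem_range, Finset.mem_Icc] at hi
        have hi0 : ¬ 1 ≤ i := fun h => hi.2 ⟨h, by omega⟩
        rw [if_neg hi0, map_zero, zero_mul]
      · intro i hi
        rw [if_pos (Finset.mem_Icc.1 hi).1]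
    have hrL : Lim v (cadj v E y) 0 r := by
      refine limz_ge (limz_ly p F.op F.tz.lim Q) ?_
      rw [h6]
      exact h5
    obtain ⟨b, hb, a, ha, h7⟩ := hr hrL
    have h8 : Q = 0 := by
      refine F.can Q (-b) (neg_mem hb) (limz_ge ha ?_)
      have h9 := (h5.add h7).neg
      rw [← h6] at h9
      have h10 : -(ly p z Q - r + (r - b - a)) = a - (ly p z Q + -b) := by ring
      rwa [h10] at h9
    have h9 := congrArg (fun P : Polynomial k => P.coeff K) h8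
    rw [hQ] at h9
    simp only [finset_sum_coeff, coeff_monomial, coeff_zero] at h9
    rw [Finset.sum_ite_eq', if_pos (Finset.self_mem_range_succ K), if_pos hK] at h9
    exact hcK h9
  obtain ⟨b, m, h5⟩ := h1.spl p hq F.tz h2
    (D := D + ∑ j, (G j).natDegree) (fun j n => by
      refine (natDegree_sub_le _ _).trans (max_le ((H.deg j n).trans (Nat.le_add_right _ _)) ?_)
      exact (Finset.single_le_sum (f := fun j => (G j).natDegree) (fun _ _ => Nat.zero_le _)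
        (Finset.mem_univ j)).trans (Nat.le_add_left _ _)) h4 j
  refine ⟨b + G j, m, add_mem h5.mem (hG0 j), h5.cau, h5.nul.congr fun n => ?_⟩
  rw [eval_sub, eval_add]
  ring

/-- FV(y; z) for systems. -/
theorem FV2L.spl (F : FV2L p v 𝒜 E W y z) {ι : Type} [Fintype ι]
    {x : ι → ℕ → Polynomial Ω} {φ : ι → ι → Module.End k Ω} {f : ι → Polynomial Ω}
    (R : Sy p v 𝒜 (cadj v E y) z x φ f) (j : ι) : ∃ b m, Spl v (cadj v E y) z (x j) b m :=
  w2s p F.op F.sy F.sz F.ty F.tz F.perf F.tor (F.can.not_inBE p F.tz) (F.mix p) R j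

/-- FV(y; z) for dominated families. -/
theorem FV2L.cau (F : FV2L p v 𝒜 E W y z) {κ : Type} [Fintype κ] {m : κ → ℕ → Ω}
    (hm : ∀ l, Cau v (cadj v (cadj v E y) z) (m l))
    (hd : ∀ l, Dm v 𝒜 (cadj v (cadj v E y) z) m fun n => m l n ^ p) (l : κ) :
    InBE v (cadj v (cadj v E y) z) (cadj v E y) (m l) :=
  w2c p F.op F.sy F.sz F.ty F.tz F.perf F.tor (F.can.not_inBE p F.tz) (F.mix p) hm hd l

/-- **FV(y; z)** for an element. -/
theorem FV2L.fv (F : FV2L p v 𝒜 E W y z) {φ : Module.End k Ω} (hφ : φ ∈ 𝒜) {Y : Ω}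
    (hY : Lim v (cadj v (cadj v E y) z) 0 Y)
    (hr : Nr v (cadj v (cadj v E y) z) 0 (Y ^ p - φ Y)) :
    ∃ g ∈ cadj v (cadj v E y) z, Lim v (cadj v E y) 0 (Y - g) := by
  obtain ⟨m, hm, h1⟩ := Lim.exists_cau hY
  obtain ⟨e, he, h2⟩ := hr
  obtain ⟨β, hβ, ν, hν, h3⟩ := F.cau p (κ := Unit) (m := fun _ => m) (fun _ => hm) (fun _ => by
    refine ⟨fun _ => φ, e, fun _ => hφ, he, ?_⟩
    have h4 : Nul v fun n => (Y - m n) ^ p := h1.pow p
    have h5 : Nul v fun n => φ (Y - m n) := F.op.nul hφ h1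
    refine (((Nul.const_iff.2 h2).sub h4).add h5).congr fun n => ?_
    simp only [map_sub, Finset.univ_unique, Finset.sum_singleton, sub_pow_char]
    ring) ()
  refine ⟨β, hβ, Lim.of_nul hν.mem ((h1.add h3).congr fun n => ?_)⟩
  ring

end Main

end Pool.Agent.TWIV
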