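import Pool.Agent.Lib.TWIV.WSys
import Pool.Agent.Lib.TWIV.FV2L

/-!
# TANK W, leaf (Ht): systems of words from exact letters

* `Lft.wsys`: `Lft` (exact letters of depth `n`) and (RAD) give a system of words of depth `n`.
-/

set_option autoImplicit false

open Polynomial

namespace Pool.Agent.TWIV

open Pool.Agent.H15JM (RVal)
open Pool.Agent.D2 (Ctx0)
open Pool.Agent.TWM Pool.Agent.TWC

universe u

variable {k Ω : Type u} [Field k] [Field Ω] [Algebra k Ω] {v : RVal Ω} {p : ℕ} [hp : Fact p.Prime]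
  [CharP Ω p] [IsAlgClosed Ω] [hk : Fact (Ctx0 k v)]
  {E W : IntermediateField k Ω} {w : Ω} {𝒜 : Submodule k (Module.End k Ω)}

omit hp [CharP Ω p] [IsAlgClosed Ω] hk in
/-- **The words of a system of exact letters.** -/
theorem Lft.wsys {n : ℕ} {T : Subalgebra k Ω} {S L : ℕ → Submodule k Ω}
    {Φ : Module.End k Ω → Ω → Ω} (H : Lft p v E W w 𝒜 n T S L Φ)
    (hlin : ∀ φ ∈ 𝒜, ∀ f ∈ PI W, ∀ x, φ (f.eval w * x) = f.eval w * φ x)
    (hrad : ∀ r ∈ T, Lim v (cadj v E w) 0 r →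
      ∃ b ∈ cadj v E w, ∃ a, Lim v E 0 a ∧ v.Ge 0 (r - b - a)) :
    WSys p v E w 𝒜 n fun m => S (n - m) where
  anti m := H.SS' (by omega)
  poly f hf := by
    rw [Nat.sub_self]
    exact H.Ey f hf
  rt m hm x hx := by
    obtain ⟨y, hy, h1⟩ := H.rt (n - (m + 1)) (by omega) x hx
    rw [show n - (m + 1) + 1 = n - m by omega] at hy
    exact ⟨y, hy, h1⟩
  fr m x hx := H.fr _ x hx
  op φ hφ m _ r hr := by
    refine ⟨Φ φ r, H.ΦS φ hφ _ r hr, fun f hf b hb => ?_⟩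
    have h1 : f.eval w ∈ T := H.ST 0 _ (H.Ey f hf)
    rw [← H.eqEy hφ (fun f hf x => hlin φ hφ f hf x) hf, ← H.sub hφ h1 (H.ST _ _ hr)]
    exact H.ge φ hφ _ (sub_mem h1 (H.ST _ _ hr)) b hb
  rad r hr hl := hrad r (H.ST _ _ hr) hl

omit hp [CharP Ω p] [IsAlgClosed Ω] hk in
theorem exists_wsys
    (hlin : ∀ φ ∈ 𝒜, ∀ f ∈ PI W, ∀ x, φ (f.eval w * x) = f.eval w * φ x)
    (h : ∀ D, ∃ T S L Φ, Lft p v E W w 𝒜 D T S L Φ ∧ ∀ r ∈ T, Lim v (cadj v E w) 0 r →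
      ∃ b ∈ cadj v E w, ∃ a, Lim v E 0 a ∧ v.Ge 0 (r - b - a)) (n : ℕ) :
    ∃ S, WSys p v E w 𝒜 n S := by
  obtain ⟨T, S, L, Φ, H, hr⟩ := h n
  exact ⟨_, H.wsys hlin hr⟩

end Pool.Agent.TWIV
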