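import Pool.Agent.Lib.TWIV.S7g

/-!
# TANK W, leaf (IV), row S7: FV(y_0, y_1)

`E` a graded perfect base (`GrE`), `y_0`, `y_1` homogeneous limits of `E`, `y_0` of transcendental
type over `E`, `y_1` over `E<y_0>` (`TwrH v pr E y α 2`), `K = E<y_0, y_1> = twr v E y 2`.

* `AP pr`: the span of the `pr_c` (without the scalar `1`);
* **`fv_two`**: the solutions `X_l` (formal limits of `K`) of a system
  `X_l ^ p = ∑ φ_lj X_j + f_l`, `φ_lj ∈ AP pr`, `f_l ∈ K`, are in `K + L(E)`;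
* `fv_two_elt`: the same for elements of `H`.
-/

set_option autoImplicit false
set_option linter.unusedSectionVars false

open Polynomial

namespace Pool.Agent.TWIV

open Pool.Agent.H15JM (RVal)
open Pool.Agent.D2 (Ctx0)
open Pool.Agent.D2P (mem_clI)
open Pool.Agent.TWM
open Pool.Agent.TWC (Nul Cau eq_of_ge InBL)

universe u

variable {k H : Type u} [Field k] [Field H] [Algebra k H] {v : RVal H} {p : ℕ} [hp : Fact p.Prime]
  [CharP k p] [PerfectRing k p]
  [CharP H p] [PerfectRing H p] [IsAlgClosed H] {A : Type*} [AddCommGroup A] {pr : A → H →ₗ[k] H}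
  {E K : IntermediateField k H} {y : ℕ → H} {α : ℕ → A}

/-- The span of the `pr_c`. -/
def AP (pr : A → H →ₗ[k] H) : Submodule k (Module.End k H) := Submodule.span k (Set.range pr)

theorem AP_pr (c : A) : (pr c : Module.End k H) ∈ AP pr := Submodule.subset_span ⟨c, rfl⟩

theorem AP_exists {φ : Module.End k H} (hφ : φ ∈ AP pr) : ∃ (C : Finset A) (lam : A → k),
    (∀ c, c ∉ C → lam c = 0) ∧ ∀ x, φ x = ∑ c ∈ C, lam c • pr c x := by
  classical
  rw [AP] at hφ
  induction hφ using Submodule.span_induction with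
  | mem φ hφ =>
    obtain ⟨c, rfl⟩ := hφ
    refine ⟨{c}, fun d => if d = c then 1 else 0, fun d hd => ?_, fun x => ?_⟩
    · exact if_neg (fun h => hd (Finset.mem_singleton.2 h))
    · simp
  | zero => exact ⟨∅, fun _ => 0, fun _ _ => rfl, fun x => by simp⟩
  | add φ ψ _ _ h1 h2 =>
    obtain ⟨C, lam, hC, h1⟩ := h1
    obtain ⟨D, mu, hD, h2⟩ := h2
    refine ⟨C ∪ D, fun c => lam c + mu c, fun c hc => ?_, fun x => ?_⟩
    · rw [Finset.mem_union, not_or] at hc
      change lam c + mu c = 0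
      rw [hC c hc.1, hD c hc.2, add_zero]
    · rw [LinearMap.add_apply, h1, h2]
      have e1 : ∑ c ∈ C, lam c • pr c x = ∑ c ∈ C ∪ D, lam c • pr c x :=
        Finset.sum_subset Finset.subset_union_left fun c _ hc => by rw [hC c hc, zero_smul]
      have e2 : ∑ c ∈ D, mu c • pr c x = ∑ c ∈ C ∪ D, mu c • pr c x :=
        Finset.sum_subset Finset.subset_union_right fun c _ hc => by rw [hD c hc, zero_smul]
      rw [e1, e2]
      simp only [add_smul, Finset.sum_add_distrib]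
  | smul b φ _ h1 =>
    obtain ⟨C, lam, hC, h1⟩ := h1
    refine ⟨C, fun c => b * lam c, fun c hc => by
      change b * lam c = 0
      rw [hC c hc, mul_zero], fun x => ?_⟩
    rw [LinearMap.smul_apply, h1, Finset.smul_sum]
    simp only [mul_smul]

/-- a finite family of operators -/
theorem AP_fam {κ : Type*} [Fintype κ] {φ : κ → κ → Module.End k H}
    (hφ : ∀ i j, φ i j ∈ AP pr) : ∃ (C : Finset A) (lam : κ → κ → A → k),
    (∀ i j c, c ∉ C → lam i j c = 0) ∧ ∀ i j x, φ i j x = ∑ c ∈ C, lam i j c • pr c x := by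
  classical
  choose C lam hC h1 using fun (q : κ × κ) => AP_exists (hφ q.1 q.2)
  refine ⟨Finset.univ.biUnion C, fun i j c => lam (i, j) c, fun i j c hc => hC (i, j) c fun h =>
    hc (Finset.mem_biUnion.2 ⟨(i, j), Finset.mem_univ _, h⟩), fun i j x => ?_⟩
  rw [h1 (i, j) x]
  exact Finset.sum_subset (Finset.subset_biUnion_of_mem C (Finset.mem_univ (i, j))) fun c _ hc => by
    rw [hC (i, j) c hc, zero_smul]

theorem sum_eq_ph {κ : Type*} [Fintype κ] {φ : κ → κ → Module.End k H} {C : Finset A}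
    {lam : κ → κ → A → k} (h : ∀ i j x, φ i j x = ∑ c ∈ C, lam i j c • pr c x) (l : κ)
    (w : κ → H) : ∑ j, φ l j (w j) = ph pr C lam 0 l w := by
  rw [ph]
  refine Finset.sum_congr rfl fun j _ => ?_
  rw [h]
  simp only [sub_zero]

/-- The jets in one direction, from the bound. -/
theorem Two7.bnd_dx {D : Fin 2 → ℕ → H → H} (T : Two7 p v pr E K y α D) {d : ℕ} {X : ℕ → H}
    (hX : ∀ n, X n ∈ K) (hB : Bnd v D d X) (a : Fin 2) {J : ℕ} (hJ : d < J) :
    Nul v fun n => D a J (X n) := by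
  fin_cases a
  · refine (hB (J, 0) hJ).congr fun n => ?_
    change D 0 J (D 1 0 (X n)) = D 0 J (X n)
    rw [(T.jx 1).zero _ (hX n)]
  · refine (hB (0, J) (by simpa using hJ)).congr fun n => ?_
    change D 0 0 (D 1 J (X n)) = D 1 J (X n)
    rw [(T.jx 0).zero _ ((T.jx 1).mem _ _ (hX n))]

/-- **The degree induction.** -/
theorem fv_two_deg {D : Fin 2 → ℕ → H → H} (T : Two7 p v pr E K y α D) (hI : IntP p v K D)
    (h : GrE p v pr E) (hk : Ctx0 k v) (d : ℕ) : ∀ (κ : Type) [Fintype κ] (X : κ → ℕ → H)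
    (f : κ → H) (φ : κ → κ → Module.End k H), (∀ l l', φ l l' ∈ AP pr) →
    (∀ l, Cau v K (X l)) → (∀ l, f l ∈ K) →
    (∀ l, Nul v fun n => X l n ^ p - (∑ j, φ l j (X j n)) - f l) →
    (∀ l, Bnd v D d (X l)) → ∀ l, InBL v K E (X l) := by
  classical
  induction d with
  | zero =>
    intro κ _ X f φ _ hX _ _ hB l
    obtain ⟨m, hm, h1⟩ := T.const (hX l) fun a c =>
      T.bnd_dx (hX l).mem (hB l) a (Nat.pow_pos hp.out.pos)
    exact ⟨0, zero_mem K, m, hm, h1.congr fun n => by rw [sub_zero]⟩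
  | succ d ih =>
    intro κ _ X f φ hφ hX hf hR hB
    obtain ⟨C, lam, hC, hlam⟩ := AP_fam hφ
    have hR' : ∀ l, Nul v fun n => X l n ^ p - ph pr C lam 0 l (fun j => X j n) - f l :=
      fun l => (hR l).congr fun n => by rw [sum_eq_ph hlam]
    -- the data with `b = 0`: only the relations are used
    have hrel : ∀ (l : κ) (a : Fin 2) (i : ℕ), Nul v fun n => (D a (p ^ i) (X l n)) ^ p -
        ph pr C lam (dgy p α (a, i + 1)) l (fun j => Dx p D (a, i + 1) (X j n)) -
          Dx p D (a, i + 1) (f l) := by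
      intro l a i
      have hph : ∀ n, ph pr C lam 0 l (fun j => X j n) ∈ K := fun n =>
        ph_mem T.gr fun j => (hX j).mem n
      have hpw : ∀ n, X l n ^ p ∈ K := fun n => pow_mem ((hX l).mem n) _
      have h1 := T.dx_nul (a, i + 1) (fun n => sub_mem (sub_mem (hpw n) (hph n)) (hf l)) (hR' l)
      refine h1.congr fun n => ?_
      rw [T.dx_sub _ (sub_mem (hpw n) (hph n)) (hf l), T.dx_sub _ (hpw n) (hph n),
        T.dx_pow _ ((hX l).mem n), T.dx_ph _ 0 l fun j => (hX j).mem n, zero_add]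
      rfl
    obtain ⟨N₀, hN₀⟩ : ∃ N₀ : ℕ, ∀ i, N₀ ≤ i → d + 1 < p ^ i :=
      ⟨d + 1, fun i hi => lt_of_le_of_lt hi (Nat.lt_pow_self hp.out.one_lt)⟩
    have hbig : ∀ (l : κ) (a : Fin 2) (i : ℕ), N₀ ≤ i → Nul v fun n => D a (p ^ i) (X l n) :=
      fun l a i hi => T.bnd_dx (hX l).mem (hB l) a (hN₀ i hi)
    -- the derived family
    let Z : κ × Fin 2 × Fin N₀ → ℕ → H := fun q n => D q.2.1 (p ^ (q.2.2 : ℕ)) (X q.1 n)
    let f' : κ × Fin 2 × Fin N₀ → H := fun q => Dx p D (q.2.1, (q.2.2 : ℕ) + 1) (f q.1)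
    let φ' : κ × Fin 2 × Fin N₀ → κ × Fin 2 × Fin N₀ → Module.End k H := fun q q' =>
      if q'.2.1 = q.2.1 ∧ (q'.2.2 : ℕ) = (q.2.2 : ℕ) + 1 then
        ∑ c ∈ C, lam q.1 q'.1 c • pr (c - dgy p α (q.2.1, (q.2.2 : ℕ) + 1)) else 0
    have hφ' : ∀ q q', φ' q q' ∈ AP pr := by
      intro q q'
      simp only [φ']
      split_ifs
      · exact sum_mem fun c _ => Submodule.smul_mem _ _ (AP_pr _)
      · exact zero_mem _
    have hsum : ∀ (q : κ × Fin 2 × Fin N₀), Nul v fun n =>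
        ph pr C lam (dgy p α (q.2.1, (q.2.2 : ℕ) + 1)) q.1
          (fun j => Dx p D (q.2.1, (q.2.2 : ℕ) + 1) (X j n)) - ∑ q', φ' q q' (Z q' n) := by
      rintro ⟨l, a, i⟩
      by_cases hi : (i : ℕ) + 1 < N₀
      · refine TWC.Nul.zero.congr fun n => ?_
        rw [eq_comm, sub_eq_zero, ph, Fintype.sum_prod_type]
        refine Finset.sum_congr rfl fun l' _ => ?_
        rw [Finset.sum_eq_single (a, (⟨(i : ℕ) + 1, hi⟩ : Fin N₀))]
        · simp only [φ', and_self, if_true]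
          rw [LinearMap.sum_apply]
          rfl
        · rintro ⟨a', i'⟩ _ hne
          have h1 : ¬ (a' = a ∧ (i' : ℕ) = (i : ℕ) + 1) := by
            rintro ⟨h2, h3⟩
            exact hne (Prod.ext h2 (Fin.ext h3))
          simp only [φ']
          rw [if_neg h1, LinearMap.zero_apply]
        · exact fun h1 => absurd (Finset.mem_univ _) h1
      · have h1 : ∀ n, ∑ q', φ' (l, a, i) q' (Z q' n) = 0 := by
          intro n
          refine Finset.sum_eq_zero fun q' _ => ?_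
          have h2 : ¬ (q'.2.1 = a ∧ (q'.2.2 : ℕ) = (i : ℕ) + 1) := by
            rintro ⟨-, h3⟩
            have := q'.2.2.2
            omega
          simp only [φ']
          rw [if_neg h2, LinearMap.zero_apply]
        refine (ph_nul hk h.gr (C := C) (lam := lam) (d := dgy p α (a, (i : ℕ) + 1)) (l := l)
          (w := fun j n => Dx p D (a, (i : ℕ) + 1) (X j n)) fun j =>
            hbig j a ((i : ℕ) + 1) (not_lt.1 hi)).congr fun n => ?_
        rw [h1, sub_zero]
    have hZ : ∀ q, Nul v fun n => Z q n ^ p - (∑ q', φ' q q' (Z q' n)) - f' q := by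
      intro q
      refine ((hrel q.1 q.2.1 q.2.2).add (hsum q)).congr fun n => ?_
      simp only [Z, f']
      ring
    have hIH := ih (κ × Fin 2 × Fin N₀) Z f' φ' hφ'
      (fun q => (T.jx q.2.1).cau _ (hX q.1)) (fun q => T.dx_mem _ (hf q.1)) hZ
      (fun q => T.bnd_jet (hX q.1).mem (hB q.1) q.2.1 (Nat.one_le_pow _ _ hp.out.pos))
    have hdat : ∀ (l : κ) (x : Fin 2 × ℕ), ∃ b ∈ K, ∃ m, Cau v E m ∧
        (Nul v fun n => Dx p D x (X l n) - b - m n) ∧
        (N₀ ≤ x.2 → b = 0 ∧ m = fun _ => 0) := by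
      rintro l ⟨a, i⟩
      by_cases hi : i < N₀
      · obtain ⟨b, hb, m, hm, h1⟩ := hIH (l, a, ⟨i, hi⟩)
        exact ⟨b, hb, m, hm, h1, fun h2 => absurd hi (not_lt.2 h2)⟩
      · exact ⟨0, zero_mem K, fun _ => 0, Cau.const (zero_mem E),
          (hbig l a i (not_lt.1 hi)).congr fun n => by simp [Dx], fun _ => ⟨rfl, rfl⟩⟩
    choose b hb m hm hs hz using hdat
    have G : Dat p v pr E K D C lam X f b m N₀ :=
      ⟨hC, hX, hf, hR', hb, hm, fun l x hx => (hz l x hx).1, fun l x hx => (hz l x hx).2, hs⟩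
    exact fun l => G.concl T hI h hk l

/-- **FV(y_0, y_1)**, sequences. -/
theorem fv_two [hk : Fact (Ctx0 k v)] (hc : CompleteV v) (h : GrE p v pr E)
    (hT : TwrH v pr E y α 2) {κ : Type} [Fintype κ] {X : κ → ℕ → H} {f : κ → H}
    {φ : κ → κ → Module.End k H} (hφ : ∀ l l', φ l l' ∈ AP pr)
    (hX : ∀ l, Cau v (twr v E y 2) (X l)) (hf : ∀ l, f l ∈ twr v E y 2)
    (hR : ∀ l, Nul v fun n => X l n ^ p - (∑ j, φ l j (X j n)) - f l) (l : κ) :
    InBL v (twr v E y 2) E (X l) := by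
  obtain ⟨t, ht, T⟩ := exists_two7 hc h.gr hT
  have hI := exists_intP hT ht
  obtain ⟨C, lam, hC, hlam⟩ := AP_fam hφ
  obtain ⟨d, hd⟩ := T.bdd (C := C) (lam := lam) hk.out h.gr hX hf
    fun l => (hR l).congr fun n => by rw [sum_eq_ph hlam]
  exact fv_two_deg T hI h hk.out d κ X f φ hφ hX hf hR hd l

/-- **FV(y_0, y_1)**, elements. -/
theorem fv_two_elt [hk : Fact (Ctx0 k v)] (hc : CompleteV v) (h : GrE p v pr E)
    (hT : TwrH v pr E y α 2) {κ : Type} [Fintype κ] {X f : κ → H}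
    {φ : κ → κ → Module.End k H} (hφ : ∀ l l', φ l l' ∈ AP pr)
    (hX : ∀ l, Lim v (twr v E y 2) 0 (X l)) (hf : ∀ l, f l ∈ twr v E y 2)
    (hR : ∀ l, v.Ge 0 (X l ^ p - (∑ j, φ l j (X j)) - f l)) (l : κ) :
    ∃ b ∈ twr v E y 2, Lim v E 0 (X l - b) := by
  choose x hx hn using fun l => TWC.Lim.exists_cau (hX l)
  obtain ⟨C, lam, hC, hlam⟩ := AP_fam hφ
  obtain ⟨b, hb, m, hm, h1⟩ := fv_two hc h hT hφ hx hf (fun l => by
    have h2 : Nul v fun n => (X l - x l n) ^ p := TWC.Nul.pow (hn l) p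
    have h3 : Nul v fun n => ph pr C lam 0 l (fun j => X j - x j n) := ph_nul hk.out h.gr hn
    refine (((TWC.Nul.of_ge fun _ => hR l).sub h2).add h3).congr fun n => ?_
    rw [sum_eq_ph hlam, sum_eq_ph hlam, ph_sub, sub_pow_char]
    ring) l
  exact ⟨b, hb, TWC.Lim.of_nul hm.mem (((hn l).add h1).congr fun n => by ring)⟩

end Pool.Agent.TWIV
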