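import Pool.Agent.Lib.TWIV.A2P
import Pool.Agent.Lib.TWM.RankOne
import Pool.Agent.Lib.TWC.TowR1

/-!
# TANK W, tame case: the top step

`B = PM v A G M` a graded field, `N ≤ A ≤ L` closed, `T = PM v L G M`.

* `FreeB v L B G M p`: every finite homogeneous family of limits of `B` has the same span as a free
  one (`World.freeB`: from `FTB`, `FVB`);
* `World.top`: if `FreeB` and `T = B⟨c⟩` then `L = A⟨w⟩`.
-/

set_option autoImplicit false
set_option linter.unusedSectionVars false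

open Polynomial

namespace Pool.Agent.TWIV

open Pool.Agent.H15JM (RVal)
open Pool.Agent.LU1 (VPos adj)
open Pool.Agent.D2 (Ctx0)
open Pool.Agent.D2P (hen clI mem_clI)
open Pool.Agent.TWM Pool.Agent.TWC Pool.Agent.TWS Pool.Agent.TWT

universe u

variable {k Ω : Type u} [Field k] [Field Ω] [Algebra k Ω] {v : RVal Ω} [Fact (Ctx0 k v)]
  {N L A B : IntermediateField k Ω} {G Γ : AddSubgroup ℝ} {M : ℝ → Ω} {p : ℕ}

/-- Every finite homogeneous family of limits of `B` has the same span as a free one. -/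
def FreeB (k : Type u) {Ω : Type u} [Field k] [Field Ω] [Algebra k Ω] (p : ℕ) (v : RVal Ω)
    (L B : IntermediateField k Ω) (G : AddSubgroup ℝ) (M : ℝ → Ω) : Prop :=
  ∀ (ι : Type) [Fintype ι] [DecidableEq ι] (r : ι → ℝ) (w₀ : ι → Ω), (∀ i, r i ∈ G) →
    (∀ i, w₀ i ∈ L ∧ Lim v B (r i) (w₀ i)) →
    ∃ (S : Finset ι) (w : ι → Ω), (∀ i ∈ S, w i ∈ L ∧ Lim v B (r i) (w i)) ∧
      (∀ i, InSpan k p G M (Nr' v B) r w S (r i) (w₀ i)) ∧
      (∀ i ∈ S, InSpan k p G M (Nr' v B) r w₀ Finset.univ (r i) (w i)) ∧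
      FreeOn k p G M (Nr' v B) r w S

theorem isOp_mono {G' : AddSubgroup ℝ} (h : G ≤ G') {r R : ℝ} {P : k[X]} (hP : IsOp p G r R P) :
    IsOp p G' r R P := fun j hj => h (hP j hj)

theorem inSpan_mono {G' : AddSubgroup ℝ} (h : G ≤ G') {Z Z' : ℝ → Ω → Prop}
    (hZ : ∀ r x, Z r x → Z' r x) {ι : Type*} {r : ι → ℝ} {w : ι → Ω} {S : Finset ι} {t : ℝ} {x : Ω}
    (hx : InSpan k p G M Z r w S t x) : InSpan k p G' M Z' r w S t x := by
  obtain ⟨Q, hQ, h1⟩ := hx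
  exact ⟨Q, fun i hi => isOp_mono h (hQ i hi), hZ _ _ h1⟩

namespace World

variable (W : World p v N L G M) (hΩ : CompleteV v)

include W in
theorem gsubG [Fact p.Prime] [CharP Ω p] (hB : ∀ g ∈ G, M g ∈ B) :
    GSub k p G M (Nr' v B) := gsub_Nr' (Fact.out : Ctx0 k v) W.ms hB

open Classical in
theorem pj0_term {g : ℝ} (hg : g ∈ G) {x : Ω} (hx : x ∈ L) :
    W.pj hΩ 0 (M g * x) = if g ∈ VG v N then M g * x else 0 := by
  rw [mul_comm, W.pj0_lin hΩ hx (PM.mon hg)]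
  split_ifs with h
  · rw [W.pj0_self hΩ (W.NL (W.monΓ g h))]
  · rw [W.pj0_mon hΩ hg h, mul_zero]


include W in
/-- The values of `LE`. -/
theorem val_T {b : Ω} (hb : b ∈ PM v L G M) (h0 : b ≠ 0) : v b ∈ G := by
  obtain ⟨a, ha, h, hh, h1⟩ := W.VG_PM le_rfl W.imm ⟨b, hb, h0, rfl⟩
  rw [h1]
  exact G.add_mem (W.VG_le ha) hh

include W in
/-- Approximation by finite sums with distinct classes. -/
theorem dense_cls {x : Ω} (hx : x ∈ PM v L G M) (b : ℝ) : ∃ (S : Finset ℝ) (a : ℝ → Ω),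
    (∀ g ∈ S, g ∈ G) ∧ (∀ g ∈ S, a g ∈ L) ∧
      (∀ g ∈ S, ∀ g' ∈ S, g' - g ∈ VG v N → g' = g) ∧ v.Ge b (x - ∑ g ∈ S, M g * a g) := by
  obtain ⟨Lf, hL, h1⟩ := dense_PM W.mon W.imm hx b
  refine ⟨Lf.support, Lf, fun g hg => (hL.rep g (Finsupp.mem_support_iff.1 hg)).1,
    fun g _ => hL.mem g, fun g hg g' hg' h => ?_, ?_⟩
  · have h2 := hL.rep g (Finsupp.mem_support_iff.1 hg)
    have h3 := hL.rep g' (Finsupp.mem_support_iff.1 hg')
    rw [← h2.2, ← h3.2]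
    exact rep_congr ⟨G.sub_mem h3.1 h2.1, h⟩
  · have h2 : evM M Lf = ∑ g ∈ Lf.support, M g * Lf g :=
      Finset.sum_congr rfl fun g _ => mul_comm _ _
    rwa [← h2]

/-- The components of a finite sum. -/
theorem pj0_cls {S : Finset ℝ} {a : ℝ → Ω} (hS : ∀ g ∈ S, g ∈ G) (ha : ∀ g ∈ S, a g ∈ L)
    (huniq : ∀ g ∈ S, ∀ g' ∈ S, g' - g ∈ VG v N → g' = g) {g : ℝ} (hg : g ∈ S) :
    W.pj hΩ 0 (M (-g) * ∑ g' ∈ S, M g' * a g') = a g := by
  classical
  have h1 : ∀ g' ∈ S, M (-g) * (M g' * a g') = M (g' - g) * a g' := fun g' hg' => by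
    rw [sub_eq_neg_add, W.ms.mul _ (G.neg_mem (hS g hg)) _ (hS g' hg')]
    ring
  have hG : ∀ g' ∈ S, g' - g ∈ G := fun g' hg' => G.sub_mem (hS g' hg') (hS g hg)
  rw [Finset.mul_sum, Finset.sum_congr rfl h1, (W.isPj hΩ 0).prj.sum _ fun g' hg' =>
    mul_mem (PM.mon (hG g' hg')) (PM.le (ha g' hg')), Finset.sum_eq_single g]
  · rw [W.pj0_term hΩ (hG g hg) (ha g hg), sub_self, if_pos (VG v N).zero_mem, W.ms.zero, one_mul]
  · intro g' hg' hne
    rw [W.pj0_term hΩ (hG g' hg') (ha g' hg'), if_neg fun h => hne (huniq g hg g' hg' h)]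
  · exact fun h => absurd hg h

include W hΩ in
/-- The components of a limit. -/
theorem lim_cls [Fact p.Prime] [CharP k p] [CharP Ω p] [PerfectRing k p] [IsAlgClosed Ω] (hNA : N ≤ A) (hAL : A ≤ L) (hA : Cld v A) {S : Finset ℝ} {a : ℝ → Ω}
    (hS : ∀ g ∈ S, g ∈ G) (ha : ∀ g ∈ S, a g ∈ L)
    (huniq : ∀ g ∈ S, ∀ g' ∈ S, g' - g ∈ VG v N → g' = g) {s : ℝ}
    (h : Lim v (PM v A G M) s (∑ g ∈ S, M g * a g)) {g : ℝ} (hg : g ∈ S) :
    Lim v (PM v A G M) (s - g) (a g) := by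
  have hm : ∑ g ∈ S, M g * a g ∈ PM v L G M :=
    sum_mem fun g hg => mul_mem (PM.mon (hS g hg)) (PM.le (ha g hg))
  have h1 := W.lim_scale (G.neg_mem (hS g hg)) (fun g hg => PM.mon hg) h
  have h2 := W.lim_pjA hΩ hNA hAL hA 0 (mul_mem (PM.mon (G.neg_mem (hS g hg))) hm) h1
  rwa [W.pj0_cls hΩ hS ha huniq hg, ← sub_eq_add_neg] at h2

section Char

variable [Fact p.Prime] [CharP k p] [CharP Ω p]

/-- The homogeneous component of an operator. -/
theorem pj0_ev {r R t : ℝ} (ht : t ∈ G) {w : Ω} (hw : w ∈ L) {P : k[X]}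
    (hP : IsOp p G r R P) :
    W.pj hΩ 0 (M (-t) * ev p M r R P w) =
      ev p M r (R - t) (clsPart p (VG v N) r R t P) w := by
  classical
  have hterm : ∀ j ∈ P.support, M (-t) * (algebraMap k Ω (P.coeff j) * M (R - (p : ℝ) ^ j * r) *
      w ^ p ^ j) = M (R - t - (p : ℝ) ^ j * r) * (algebraMap k Ω (P.coeff j) * w ^ p ^ j) := by
    intro j hj
    have h1 := hP j (mem_support_iff.1 hj)
    have h2 : M (R - t - (p : ℝ) ^ j * r) = M (-t) * M (R - (p : ℝ) ^ j * r) := by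
      rw [← W.ms.mul _ (G.neg_mem ht) _ h1]
      congr 1
      ring
    rw [h2]
    ring
  have hG : ∀ j ∈ P.support, R - t - (p : ℝ) ^ j * r ∈ G := fun j hj => by
    have h1 := G.sub_mem (hP j (mem_support_iff.1 hj)) ht
    rwa [sub_right_comm] at h1
  rw [clsPart, ev_sum, ev, Polynomial.sum, Finset.mul_sum, Finset.sum_congr rfl hterm,
    (W.isPj hΩ 0).prj.sum _ fun j hj => mul_mem (PM.mon (hG j hj))
      (PM.le (mul_mem (L.algebraMap_mem _) (pow_mem hw _)))]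
  refine Finset.sum_congr rfl fun j hj => ?_
  rw [W.pj0_term hΩ (hG j hj) (mul_mem (L.algebraMap_mem _) (pow_mem hw _)), ev_mono]
  by_cases h : R - t - (p : ℝ) ^ j * r ∈ VG v N
  · rw [if_pos h, if_pos h]
    ring
  · rw [if_neg h, if_neg h, map_zero, zero_mul, zero_mul]

theorem gt_pj0 {x : Ω} (hx : x ∈ PM v L G M) {b : ℝ} (h : Gt v b x) : Gt v b (W.pj hΩ 0 x) := by
  intro h0
  have hx0 : x ≠ 0 := by
    rintro rfl
    exact h0 (W.isPj hΩ 0).prj.zero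
  have h1 := (W.isPj hΩ 0).prj.ge x hx (v x) (RVal.ge_self x)
  exact (h hx0).trans_le (h1 h0)

theorem nr'_pj0 (hNA : N ≤ A) (hAL : A ≤ L) (hA : Cld v A) {x : Ω} {r t : ℝ} (ht : t ∈ G)
    (hx : x ∈ PM v L G M) (h : Nr' v (PM v A G M) r x) :
    Nr' v (PM v A G M) (r - t) (W.pj hΩ 0 (M (-t) * x)) := by
  obtain ⟨a, ha, h1⟩ := h
  have haT : a ∈ PM v L G M := PM.mono hAL ha
  have hm : M (-t) ∈ PM v L G M := PM.mon (G.neg_mem ht)
  refine ⟨_, W.pj_mem hΩ hNA hAL hA 0 (mul_mem (PM.mon (G.neg_mem ht)) ha), ?_⟩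
  rw [← (W.isPj hΩ 0).prj.sub (mul_mem hm hx) (mul_mem hm haT), ← mul_sub]
  refine W.gt_pj0 hΩ (mul_mem hm (sub_mem hx haT)) ?_
  intro h0
  have h2 : x - a ≠ 0 := right_ne_zero_of_mul h0
  rw [v.map_mul (W.ms.ne _ (G.neg_mem ht)) h2, W.ms.val _ (G.neg_mem ht)]
  have := h1 h2
  linarith

include W hΩ in
/-- A homogeneous family which is free over `Γ` is free over `G`. -/
theorem free_G (hNA : N ≤ A) (hAL : A ≤ L) (hA : Cld v A) {ι : Type*} {S : Finset ι} {r : ι → ℝ}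
    {w : ι → Ω} (hr : ∀ i ∈ S, r i ∈ G) (hw : ∀ i ∈ S, w i ∈ L) {Z : ℝ → Ω → Prop}
    (hZ : ∀ R x, R ∈ G → x ∈ L → Nr' v (PM v A G M) R x → Z R x)
    (hfree : FreeOn k p (VG v N) M Z r w S) :
    FreeOn k p G M (Nr' v (PM v A G M)) r w S := by
  classical
  intro R P hP hrel i hi
  by_contra h0
  -- a non zero coefficient
  obtain ⟨j, hj⟩ : ∃ j, (P i).coeff j ≠ 0 := by
    by_contra h
    push Not at h
    exact h0 (Polynomial.ext fun j => by rw [h j, coeff_zero])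
  have ht := hP i hi j hj
  have hpr : (p : ℝ) ^ j * r i ∈ G := by
    have h1 := G.nsmul_mem (hr i hi) (p ^ j)
    rw [nsmul_eq_mul] at h1
    push_cast at h1
    exact h1
  have hR : R ∈ G := by
    have := G.add_mem ht hpr
    rwa [sub_add_cancel] at this
  set t := R - (p : ℝ) ^ j * r i with htd
  have hRt : R - t ∈ G := G.sub_mem hR ht
  have hwT : ∀ l ∈ S, ev p M (r l) R (P l) (w l) ∈ PM v L G M := fun l hl =>
    ev_mem (fun g hg => PM.mon hg) (hP l hl) (PM.le (hw l hl))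
  have h1 := W.nr'_pj0 hΩ hNA hAL hA ht (sum_mem hwT) hrel
  have h2 : W.pj hΩ 0 (M (-t) * ∑ l ∈ S, ev p M (r l) R (P l) (w l)) =
      ∑ l ∈ S, ev p M (r l) (R - t) (clsPart p (VG v N) (r l) R t (P l)) (w l) := by
    rw [Finset.mul_sum, (W.isPj hΩ 0).prj.sum _ fun l hl => mul_mem (PM.mon (G.neg_mem ht))
      (hwT l hl)]
    exact Finset.sum_congr rfl fun l hl => W.pj0_ev hΩ ht (hw l hl) (hP l hl)
  rw [h2] at h1
  have h3 : ∑ l ∈ S, ev p M (r l) (R - t) (clsPart p (VG v N) (r l) R t (P l)) (w l) ∈ L :=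
    sum_mem fun l hl => ev_mem (fun g hg => W.NL (W.monΓ g hg)) (clsPart_op _ _ _ _) (hw l hl)
  have h4 := hfree (R - t) (fun l => clsPart p (VG v N) (r l) R t (P l))
    (fun l _ => clsPart_op _ _ _ _) (hZ _ _ hRt h3 h1) i hi
  have h5 : (clsPart p (VG v N) (r i) R t (P i)).coeff j = (P i).coeff j := by
    rw [clsPart_coeff, if_pos]
    rw [htd]
    have e : R - (R - (p : ℝ) ^ j * r i) - (p : ℝ) ^ j * r i = 0 := by ring
    rw [e]
    exact (VG v N).zero_mem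
  have h4' : clsPart p (VG v N) (r i) R t (P i) = 0 := h4
  rw [h4', coeff_zero] at h5
  exact hj h5.symm

/-- `FreeB` from the two properties of the floor. -/
theorem freeB [IsAlgClosed k] (hGN : ∀ g ∈ G, ∃ n : ℕ, (p : ℝ) ^ n * g ∈ VG v N) {g₀ : ℝ}
    (hg₀ : g₀ ∈ VG v N) (hg₀' : g₀ / p ∉ VG v N)
    (hG : ∀ g ∈ VG v N, ∃ l < p, ∃ g' ∈ VG v N, g = l * g₀ + p * g')
    (hNA : N ≤ A) (hAL : A ≤ L) (hA : Cld v A)
    (hFT : FTB p v (PM v L G M) (PM v A G M))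
    (hFV : FVB p v (PM v L G M) (PM v A G M) (W.pj hΩ 0)) :
    FreeB k p v L (PM v A G M) G M := by
  intro ι _ _ r w₀ hr hw₀
  obtain ⟨S, w, h1, h2, h3, h4⟩ := W.exists_free hΩ hGN hg₀ hg₀' hG hNA hAL hA hFT hFV r w₀ hr hw₀
  have hZ : ∀ r x, ZB p (VG v N) v L (PM v A G M) r x → Nr' v (PM v A G M) r x :=
    fun r x h => h.2.1
  refine ⟨S, w, h1, fun i => inSpan_mono W.VG_le hZ (h2 i),
    fun i hi => inSpan_mono W.VG_le hZ (h3 i hi), ?_⟩
  exact W.free_G hΩ hNA hAL hA (fun i _ => hr i) (fun i hi => (h1 i hi).1)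
    (fun R x hR hx h => ⟨hx, h, Or.inr (hGN R hR)⟩) h4

include W hΩ in
/-- **The top step.** -/
theorem top [IsAlgClosed k] [IsAlgClosed Ω] [PerfectRing k p] (hNA : N ≤ A) (hAL : A ≤ L) (hA : Cld v A)
    (hF : FreeB k p v L (PM v A G M) G M) {c : Ω} {s : ℝ} (hs : s ∈ G)
    (hc : TL v (PM v A G M) c s) (hT : PM v L G M = cadj v (PM v A G M) c) :
    ∃ w ∈ L, ∃ r ∈ G, TL v (PM v A G M) w r ∧ PM v L G M = cadj v (PM v A G M) w ∧
      TL v A w r ∧ L = cadj v A w := by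
  classical
  have h0 : Ctx0 k v := Fact.out
  set B := PM v A G M with hB
  have hMB : ∀ g ∈ G, M g ∈ B := fun g hg => PM.mon hg
  have hZ : GSub k p G M (Nr' v B) := W.gsubG hMB
  have hBT : B ≤ PM v L G M := PM.mono hAL
  have hvB : ∀ b ∈ B, b ≠ 0 → v b ∈ G := fun b hb hb0 => W.val_T (hBT hb) hb0
  have hcT : c ∈ PM v L G M := by
    rw [hT]
    exact self_mem_cadj v B c
  -- the generator is a finite sum
  obtain ⟨S, a, hS, ha, huniq, hca⟩ := W.dense_cls hcT (s + 1)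
  set c' := ∑ g ∈ S, M g * a g with hc'
  have hc'T : c' ∈ PM v L G M :=
    sum_mem fun g hg => mul_mem (PM.mon (hS g hg)) (PM.le (ha g hg))
  have hgt : Gt v s (c' - c) := Gt.of_ge (ge_sub_comm hca) (by linarith)
  have hc1 : TL v B c' s := hc.congr hgt
  have hT1 : PM v L G M = cadj v B c' := by
    rw [hc.cadj_congr (by rw [← hT]; exact hc'T) hgt, hT]
  -- the free family
  obtain ⟨S', w, h1, h2, h3, h4⟩ := hF S (fun g => s - g) (fun g => a g)
    (fun g => G.sub_mem hs (hS g g.2)) fun g =>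
      ⟨ha g g.2, W.lim_cls hΩ hNA hAL hA hS ha huniq hc1.lim g.2⟩
  have hcw₀ : InSpan k p G M (Nr' v B) (fun g : S => s - (g : ℝ)) (fun g : S => a g)
      Finset.univ s c' := by
    refine ⟨fun _ => C 1 * X ^ 0, fun g _ => IsOp.mono fun _ => ?_, 0, zero_mem _, ?_⟩
    · rw [pow_zero, one_mul, sub_sub_cancel]
      exact hS g g.2
    · have e2 : ∀ g : S, ev p M (s - (g : ℝ)) s (C 1 * X ^ 0 : k[X]) (a g) = M g * a g := by
        intro g
        rw [ev_mono, map_one, one_mul, pow_zero, one_mul, sub_sub_cancel, pow_zero, pow_one]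
      have e1 : ∑ g : S, ev p M (s - (g : ℝ)) s (C 1 * X ^ 0 : k[X]) (a g) = c' := by
        rw [Finset.sum_congr rfl fun g _ => e2 g]
        exact Finset.sum_coe_sort S (fun g => M g * a g)
      rw [e1, sub_self, sub_zero]
      exact Gt.zero
  have hcw : InSpan k p G M (Nr' v B) (fun g : S => s - (g : ℝ)) w S' s c' :=
    InSpan.trans W.ms hZ (fun i _ => h2 i) hcw₀
  have hwT : ∀ i ∈ S', w i ∈ PM v L G M := fun i hi => PM.le (h1 i hi).1
  have hwc : ∀ i ∈ S', InSpan k p G M (Nr' v B) (fun _ : Unit => s) (fun _ => c') Finset.univ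
      (s - (i : ℝ)) (w i) := by
    intro i hi
    obtain ⟨Q, hQ, hQ'⟩ := hc1.exists_ev (p := p) h0 W.ms hMB hvB
      (by rw [← hT1]; exact hwT i hi) (h1 i hi).2
    refine ⟨fun _ => Q, fun _ _ => hQ, ?_⟩
    rwa [Finset.univ_unique, Finset.sum_singleton]
  -- the number of elements of `S'`
  have hle : S'.card ≤ 1 := by
    have := FreeOn.card_le W.ms hZ h4 hwc
    rwa [Finset.card_univ, Fintype.card_unit] at this
  have hne : S'.Nonempty := by
    rw [Finset.nonempty_iff_ne_empty]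
    rintro rfl
    obtain ⟨Q, -, b, hb, h5⟩ := hcw
    rw [Finset.sum_empty, sub_zero] at h5
    obtain ⟨h6, h7⟩ := hc1.far b (isAlgebraic_algebraMap (R := B) (⟨b, hb⟩ : B))
    have h8 := h5 (sub_ne_zero.2 h6)
    linarith
  obtain ⟨i₀, hi₀⟩ := Finset.card_eq_one.1 (le_antisymm hle hne.card_pos)
  subst hi₀
  have hi₀ : i₀ ∈ ({i₀} : Finset S) := Finset.mem_singleton_self i₀
  obtain ⟨Q₁, hQ₁, h5⟩ := hwc i₀ hi₀
  obtain ⟨Q₂, hQ₂, h6⟩ := hcw
  have hinv := FreeOn.inverse (S := (Finset.univ : Finset Unit)) (S' := ({i₀} : Finset S))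
    (r := fun _ => s) (w := fun _ => c') (r' := fun g : S => s - (g : ℝ)) (w' := w)
    (R := fun _ j => Q₁ j) (P := fun _ i => Q₂ i) W.ms hZ h4
    (fun i hi j hj => by rw [Finset.mem_singleton.1 hi]; exact hQ₁ j hj)
    (fun j _ i hi => hQ₂ i hi)
    (fun i hi => by rw [Finset.mem_singleton.1 hi]; exact h5)
    (fun j _ => h6) hi₀ hi₀
  rw [if_pos rfl, Finset.univ_unique, Finset.sum_singleton] at hinv
  -- the operator `Q₁` is a constant
  obtain ⟨hd, -⟩ := tw_eq_one hinv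
  obtain ⟨e, he⟩ : ∃ e, Q₁ default = C e := ⟨_, eq_C_of_natDegree_eq_zero hd⟩
  have he0 : e ≠ 0 := by
    rintro rfl
    rw [he, map_zero, tw_zero_left] at hinv
    exact zero_ne_one hinv
  set r := s - (i₀ : ℝ) with hr
  have hrG : r ∈ G := G.sub_mem hs (hS i₀ i₀.2)
  have hrs : r - s ∈ G := G.sub_mem hrG hs
  have hev : ∑ i, ev p M ((fun _ : Unit => s) i) r (Q₁ i) ((fun _ => c') i) =
      algebraMap k Ω e * M (r - s) * c' := by
    rw [Finset.univ_unique, Finset.sum_singleton, he]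
    have h7 := ev_mono (p := p) (M := M) (s := s) (r := r) e 0 c'
    rwa [pow_zero, mul_one, pow_zero, one_mul, pow_zero, pow_one] at h7
  rw [hev] at h5
  obtain ⟨f, hf, h5⟩ := h5
  obtain ⟨ha0, hav⟩ := term_val h0 W.ms hrs he0
  have haB : algebraMap k Ω e * M (r - s) ∈ B := mul_mem (B.algebraMap_mem e) (hMB _ hrs)
  have hrs' : v (algebraMap k Ω e * M (r - s)) + s = r := by rw [hav]; ring
  have hwL := (h1 i₀ hi₀).1
  obtain ⟨h7, h8⟩ := hc1.generator (w := w i₀) haB ha0 hf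
    (by rw [← hT1]; exact PM.le hwL) (by
      rw [hrs', ← sub_sub]
      exact h5)
  rw [hrs'] at h7
  rw [← hT1] at h8
  have hwT' : PM v (cadj v A (w i₀)) G M = PM v L G M := by rw [PM.cadj, h8]
  refine ⟨w i₀, hwL, r, hrG, h7, h8.symm, ⟨?_, fun θ hθ => h7.far θ (D2P.isAlgebraic_mono PM.le hθ)⟩,
    ?_⟩
  · -- the limit descends
    intro ε hε
    obtain ⟨b, hb, h9⟩ := h7.lim ε hε
    refine ⟨W.pj hΩ 0 b, ?_, ?_⟩
    · have h10 := (W.isPj hΩ 0).sub A hNA hAL hA b hb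
      rwa [W.PM0 hNA hA] at h10
    · have h10 := (W.isPj hΩ 0).prj.ge _ (sub_mem (PM.le hwL) (hBT hb)) _ h9
      rwa [(W.isPj hΩ 0).prj.sub (PM.le hwL) (hBT hb), W.pj0_self hΩ hwL] at h10
  · refine le_antisymm (fun x hx => ?_) (TWM.cadj_le W.cldL hAL hwL)
    have h9 : x ∈ PM v (cadj v A (w i₀)) G M := by
      rw [hwT']
      exact PM.le hx
    have hNc : N ≤ cadj v A (w i₀) := hNA.trans (le_cadj v A _)
    have h10 := (W.isPj hΩ 0).sub (cadj v A (w i₀)) hNc (TWM.cadj_le W.cldL hAL hwL)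
      (cld_cadj v A _) x h9
    rwa [W.PM0 hNc (cld_cadj v A _), W.pj0_self hΩ hx] at h10

end Char

end World

end Pool.Agent.TWIV
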