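import Pool.Agent.Lib.TWIV.FGW
import Pool.Agent.Lib.TWIV.Top

/-!
# TANK W, leaf (IV), row A7.f, part 3: free homogeneous bases

`T = PM v L G M`, `B = PM v A G M`, `N ≤ A ≤ L`, `T / B` a tower.

* `World.inSpanT_of_gens`: every limit of `B` in `T` (radius in `G`) is in the span of the
  homogeneous generators;
* `World.exists_fbasis`: with `FreeB` the limits of `B` in `T` have a finite free homogeneous basis.
-/

set_option autoImplicit false
set_option linter.unusedSectionVars false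

open Finset Polynomial

namespace Pool.Agent.TWIV

open Pool.Agent.H15JM (RVal)
open Pool.Agent.D2 (Ctx0)
open Pool.Agent.TWM Pool.Agent.TWC Pool.Agent.TWS Pool.Agent.TWT

universe u

variable {k Ω : Type u} [Field k] [Field Ω] [Algebra k Ω] {v : RVal Ω} [hc : Fact (Ctx0 k v)]
  {N L A B : IntermediateField k Ω} {G : AddSubgroup ℝ} {M : ℝ → Ω} {p : ℕ} [hp : Fact p.Prime]
  [CharP Ω p]

namespace World

variable (W : World p v N L G M)

include W

/-- Every limit of `B` in `T` is in the span of the generators. -/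
theorem inSpanT_of_gens {m : ℕ} {r : Fin m → ℝ} {w : Fin m → Ω} (hr : ∀ i, r i ∈ G)
    (hgen : ∀ x ∈ PM v L G M, Lim v (PM v A G M) 0 x → ∃ P : Fin m → k[X], ∃ b ∈ PM v A G M,
      v.Ge 0 (x - b - ∑ i, fev p (P i) (M (-r i) * w i)))
    {R : ℝ} (hR : R ∈ G) {y : Ω} (hy : y ∈ PM v L G M) (hl : Lim v (PM v A G M) R y) :
    InSpan k p G M (Nr' v (PM v A G M)) r w Finset.univ R y := by
  classical
  have hMB : ∀ g ∈ G, M g ∈ PM v A G M := fun g hg => PM.mon hg
  have hMT : ∀ g ∈ G, M g ∈ PM v L G M := fun g hg => PM.mon hg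
  have hlx : Lim v (PM v A G M) 0 (M (-R) * y) := by
    have := W.lim_scale (G.neg_mem hR) hMB hl
    rwa [add_neg_cancel] at this
  obtain ⟨P, b, hb, h1⟩ := hgen _ (mul_mem (hMT _ (G.neg_mem hR)) hy) hlx
  have hMR : v.Ge R (M R) := fun _ => (W.ms.val R hR).ge
  have h2 := hMR.mul h1
  rw [add_zero] at h2
  have hMM : M R * M (-R) = 1 := by
    rw [mul_comm]
    exact W.M_neg_mul hR
  have hterm : ∀ i, M R * fev p (P i) (M (-r i) * w i) = ev p M (r i) R (P i) (w i) := by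
    intro i
    rw [fev, Finset.mul_sum, ev, Polynomial.sum]
    refine Finset.sum_congr rfl fun a _ => ?_
    rw [mul_pow, W.M_pow (G.neg_mem (hr i)), mul_neg, sub_eq_add_neg R,
      W.ms.mul R hR _ (G.neg_mem (W.pG (hr i) a))]
    ring
  refine ⟨P, fun i _ a _ => G.sub_mem hR (W.pG (hr i) a), ?_⟩
  refine W.nr_nr' hR hMB ⟨M R * b, mul_mem (hMB R hR) hb, ?_⟩
  refine Eq.mp (congrArg (fun w => v.Ge R w) ?_) h2
  rw [mul_sub, mul_sub, Finset.mul_sum, Finset.sum_congr rfl fun i _ => hterm i, ← mul_assoc,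
    hMM, one_mul]
  ring

/-- **A free homogeneous basis of the limits of `B` in `T`.** -/
theorem exists_fbasis [CharP k p] [IsAlgClosed Ω] (hNA : N ≤ A) (hAL : A ≤ L)
    (hF : FreeB k p v L (PM v A G M) G M) {n : ℕ}
    (hT : Tow v n (PM v A G M) (PM v L G M)) :
    ∃ (m : ℕ) (S : Finset (Fin m)) (r : Fin m → ℝ) (w : Fin m → Ω), (∀ i, r i ∈ G) ∧
      (∀ i ∈ S, w i ∈ L ∧ Lim v (PM v A G M) (r i) (w i)) ∧
      FreeOn k p G M (Nr' v (PM v A G M)) r w S ∧
      ∀ R ∈ G, ∀ y ∈ PM v L G M, Lim v (PM v A G M) R y →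
        InSpan k p G M (Nr' v (PM v A G M)) r w S R y := by
  obtain ⟨m, r, w₀, h1, h2, h3⟩ := W.exists_hgens hNA hAL hT
  obtain ⟨S, w, h4, h5, -, h6⟩ := hF (Fin m) r w₀ h1 fun i => ⟨(h2 i).1, (h2 i).2.mono PM.le⟩
  refine ⟨m, S, r, w, h1, h4, h6, fun R hR y hy hl => ?_⟩
  exact InSpan.trans W.ms (W.gsubG fun g hg => PM.mon hg) (fun i _ => h5 i)
    (W.inSpanT_of_gens h1 h3 hR hy hl)

end World

end Pool.Agent.TWIV
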