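import Pool.Agent.Lib.TWIV.PerfA
import Pool.Agent.Lib.TWIV.FGB

/-!
# TANK W, tame case: bases of the modules at the radius `0`

* `ZBas`: a free basis of the limits of `E` in `T`, radius `0`;
* `World.exists_zbas`: from `FreeB` and a tower;
* `ZBas.sat`, `ZBas.sat1`: the elements of a basis are saturated, over `E` and over `E⟨a₁⟩`;
* `Sat.tow`: a saturated element near to a floor is a floor.
-/

set_option autoImplicit false
set_option linter.unusedSectionVars false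

open Polynomial

namespace Pool.Agent.TWIV

open Pool.Agent.H15JM (RVal)
open Pool.Agent.LU1 (VPos adj)
open Pool.Agent.D2 (Ctx0)
open Pool.Agent.D2P (hen clI mem_clI)
open Pool.Agent.TWM Pool.Agent.TWS
open Pool.Agent.TWC (Tow Nul Cau)

universe u

variable {k Ω : Type u} [Field k] [Field Ω] [Algebra k Ω] {v : RVal Ω}
  {N L A B E T : IntermediateField k Ω} {G : AddSubgroup ℝ} {M : ℝ → Ω} {p : ℕ}

section Alg

variable [hcx : Fact (Ctx0 k v)] [hp : Fact p.Prime] [CharP k p] [CharP Ω p]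

theorem ev_shift (hM : MS v G M) {r : ℝ} (hr : r ∈ G) (P : k[X]) (w : Ω) :
    TWM.ev p M r 0 P w = TWM.ev p M 0 0 P (M (-r) * w) := by
  rw [TWM.ev, TWM.ev, Polynomial.sum, Polynomial.sum]
  refine Finset.sum_congr rfl fun j _ => ?_
  have h1 := hM.pow (G.neg_mem hr) (p ^ j)
  rw [Nat.cast_pow, mul_neg] at h1
  rw [mul_pow, ← h1, mul_zero, sub_zero, hM.zero, zero_sub, mul_one]
  ring

theorem ev00_sum (P : k[X]) {ι : Type*} (S : Finset ι) (f : ι → Ω) :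
    TWM.ev p M 0 0 P (∑ i ∈ S, f i) = ∑ i ∈ S, TWM.ev p M 0 0 P (f i) := by
  classical
  induction S using Finset.induction_on with
  | empty =>
    rw [Finset.sum_empty, Finset.sum_empty]
    have h := ev_sub_right (p := p) (M := M) (s := 0) (r := 0) P (0 : Ω) 0
    rwa [sub_self, sub_self] at h
  | insert i S hi ih => rw [Finset.sum_insert hi, Finset.sum_insert hi, ev_add_right, ih]

/-- **A saturated element which is a multiple of a floor is a floor.** -/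
theorem Sat.tow [IsAlgClosed k] [IsAlgClosed Ω] (hM : MS v G M) (hMB : ∀ g ∈ G, M g ∈ B) {w a : Ω}
    (hs : Sat k p M v B T w) (ha : TL v B a 0) {n : ℕ} (hT : TowR v n (cadj v B a) T)
    (hw : w ∈ T) (hwn : ¬ Nr' v B 0 w) {D : k[X]}
    (h : Nr' v B 0 (w - TWM.ev p M 0 0 D a)) :
    TL v B w 0 ∧ TowR v n (cadj v B w) T ∧
      ∃ d : k, d ≠ 0 ∧ ∃ f ∈ B, Gt v 0 (w - (algebraMap k Ω d * a + f)) := by
  have hk : Ctx0 k v := hcx.out
  have haT : a ∈ T := hT.le (self_mem_cadj v B a)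
  have hD0 : D ≠ 0 := by
    rintro rfl
    rw [ev_zero, sub_zero] at h
    exact hwn h
  obtain ⟨d, hd, rfl⟩ := hs.unit hM hMB haT ha hD0 h
  obtain ⟨f, hf, h1⟩ := h
  have h2 : Gt v 0 (w - (algebraMap k Ω d * a + f)) := by
    have e1 : TWM.ev p M 0 0 (C d) a = algebraMap k Ω d * a := by
      have h3 := TWM.ev_mono (p := p) (M := M) (s := 0) (r := 0) d 0 a
      rwa [pow_zero, mul_one, mul_zero, sub_zero, hM.zero, mul_one, pow_zero, pow_one] at h3
    rw [e1] at h1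
    rwa [← sub_sub]
  have hd' : algebraMap k Ω d ≠ 0 := (_root_.map_ne_zero _).2 hd
  have htw : TL v B (algebraMap k Ω d * a + f) 0 := by
    have h3 := ha.affine (B.algebraMap_mem d) hd' hf
    rwa [hk.triv d hd, zero_add] at h3
  have ecw : cadj v B (algebraMap k Ω d * a + f) = cadj v B a :=
    cadj_affine (B.algebraMap_mem d) hd' hf
  exact ⟨htw.congr h2, TowR.exch htw (by rwa [ecw]) hw h2, d, hd, f, hf, h2⟩

/-- The limits near the first floor do not depend on its generator. -/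
theorem nr_exch (p : ℕ) [hp : Fact p.Prime] [CharP k p] [CharP Ω p] [IsAlgClosed Ω] (hM : MS v G M) (hMB : ∀ g ∈ G, M g ∈ B)
    (hvB : ∀ b ∈ B, b ≠ 0 → v b ∈ G) {c w : Ω} (hc : TL v B c 0) {d : k} (hd : d ≠ 0) {f : Ω}
    (hf : f ∈ B) (h : Gt v 0 (w - (algebraMap k Ω d * c + f))) {Y : Ω} (hl : Lim v B 0 Y)
    (hY : Nr v (cadj v B c) 0 Y) : Nr v (cadj v B w) 0 Y := by
  have hk : Ctx0 k v := hcx.out
  have hd' : algebraMap k Ω d ≠ 0 := (_root_.map_ne_zero _).2 hd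
  obtain ⟨g, hg, h1⟩ := hY
  have hgl : Lim v B 0 g := by
    refine Lim.of_ge_sub hl ?_
    rw [show g - Y = -(Y - g) by ring]
    exact h1.neg
  obtain ⟨P, -, e, he, h2⟩ := TL.exists_ev (p := p) hk hM hMB hvB hc hg hgl
  -- `c` in terms of `w`
  set c' := (algebraMap k Ω d)⁻¹ * (w - f) with hc'
  have h3 : v.Ge 0 (c - c') := by
    have e1 : c - c' = -((algebraMap k Ω d)⁻¹ * (w - (algebraMap k Ω d * c + f))) := by
      rw [hc']
      field_simp
      ring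
    have h4 : v.Ge 0 ((algebraMap k Ω d)⁻¹) := by
      rw [← map_inv₀]
      exact hk.ge _
    have h5 := (h4.mul h.ge).neg
    rw [zero_add] at h5
    rwa [e1]
  have h4 := ev00_ge (p := p) hk hM P h3
  rw [ev_sub_right] at h4
  refine ⟨TWM.ev p M 0 0 P c' + e, add_mem ?_ (le_cadj v B w he), ?_⟩
  · rw [ev00_fev hM]
    refine fev_mem P ?_
    rw [hc', ← map_inv₀]
    exact mul_mem ((cadj v B w).algebraMap_mem _)
      (sub_mem (self_mem_cadj v B w) (le_cadj v B w hf))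
  · rw [show Y - (TWM.ev p M 0 0 P c' + e) = (Y - g) + (g - TWM.ev p M 0 0 P c - e) +
      (TWM.ev p M 0 0 P c - TWM.ev p M 0 0 P c') by ring]
    exact (h1.add h2.ge).add h4

end Alg

/-- A free basis of the limits of `E` in `T`, radius `0`. -/
structure ZBas (k : Type u) {Ω : Type u} [Field k] [Field Ω] [Algebra k Ω] (p : ℕ) (M : ℝ → Ω)
    (v : RVal Ω) (E T : IntermediateField k Ω) {m : ℕ} (S : Finset (Fin m)) (a : Fin m → Ω) :
    Prop where
  mem : ∀ i ∈ S, a i ∈ T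
  lim : ∀ i ∈ S, Lim v E 0 (a i)
  span : ∀ y ∈ T, Lim v E 0 y → ∃ P : Fin m → k[X],
    Nr' v E 0 (y - ∑ i ∈ S, TWM.ev p M 0 0 (P i) (a i))
  free : ∀ P : Fin m → k[X], Nr' v E 0 (∑ i ∈ S, TWM.ev p M 0 0 (P i) (a i)) → ∀ i ∈ S, P i = 0

section Bas

variable [hcx : Fact (Ctx0 k v)] [hp : Fact p.Prime] [CharP k p] [CharP Ω p]

theorem World.exists_zbas [IsAlgClosed k] [IsAlgClosed Ω] (W : World p v N L G M) (hNA : N ≤ A)
    (hAL : A ≤ L) (hF : FreeB k p v L (PM v A G M) G M) {n : ℕ}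
    (hT : Tow v n (PM v A G M) (PM v L G M)) :
    ∃ (m : ℕ) (S : Finset (Fin m)) (r : Fin m → ℝ) (w : Fin m → Ω), (∀ i, r i ∈ G) ∧
      (∀ i ∈ S, w i ∈ L) ∧
      ZBas k p M v (PM v A G M) (PM v L G M) S (fun i => M (-(r i)) * w i) := by
  obtain ⟨m, S, r, w, h1, h2, h3, h4⟩ := W.exists_fbasis hNA hAL hF hT
  refine ⟨m, S, r, w, h1, fun i hi => (h2 i hi).1, fun i hi => ?_, fun i hi => ?_,
    fun y hy hl => ?_, fun P hP => ?_⟩
  · exact mul_mem (PM.mon (G.neg_mem (h1 i))) (PM.le (h2 i hi).1)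
  · have h5 := W.lim_scale (G.neg_mem (h1 i)) (fun g hg => PM.mon hg) (h2 i hi).2
    rwa [add_neg_cancel] at h5
  · obtain ⟨Q, -, h5⟩ := h4 0 G.zero_mem y hy hl
    refine ⟨Q, ?_⟩
    rwa [Finset.sum_congr rfl fun i _ => (ev_shift (p := p) W.ms (h1 i) (Q i) (w i)).symm]
  · refine h3 0 P (fun i _ j _ => ?_) ?_
    · rw [zero_sub]
      refine G.neg_mem ?_
      have := G.nsmul_mem (h1 i) (p ^ j)
      rwa [nsmul_eq_mul, Nat.cast_pow] at this
    · rwa [Finset.sum_congr rfl fun i _ => ev_shift (p := p) W.ms (h1 i) (P i) (w i)]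

variable {m : ℕ} {S : Finset (Fin m)} {a : Fin m → Ω}

theorem ZBas.eq_zero (h : ZBas k p M v E T S a) (P Q : Fin m → k[X])
    (hPQ : Nr' v E 0 (∑ i ∈ S, TWM.ev p M 0 0 (P i) (a i) -
      ∑ i ∈ S, TWM.ev p M 0 0 (Q i) (a i))) : ∀ i ∈ S, P i = Q i := by
  intro i hi
  refine sub_eq_zero.1 (h.free (fun i => P i - Q i) ?_ i hi)
  rw [← Finset.sum_sub_distrib] at hPQ
  rwa [Finset.sum_congr rfl fun i _ => ev_sub (p := p) (M := M) (s := 0) (r := 0) (P i) (Q i) (a i)]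

theorem ev_pi [DecidableEq (Fin m)] {i : Fin m} (hi : i ∈ S) (Q : k[X]) :
    ∑ j ∈ S, TWM.ev p M 0 0 (if j = i then Q else 0) (a j) = TWM.ev p M 0 0 Q (a i) := by
  rw [Finset.sum_eq_single i]
  · rw [if_pos rfl]
  · intro j _ hj
    rw [if_neg hj, ev_zero]
  · exact fun h => absurd hi h

/-- The elements of a basis are saturated. -/
theorem ZBas.sat (hM : MS v G M) (hME : ∀ g ∈ G, M g ∈ E) (h : ZBas k p M v E T S a) {i : Fin m}
    (hi : i ∈ S) : Sat k p M v E T (a i) := by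
  classical
  intro y hy hl P Q hP hPQ
  obtain ⟨R, hR⟩ := h.span y hy hl
  have h1 := nr'_ev00 (p := p) hcx.out hM hME P hR
  rw [ev_sub_right, ev00_sum, Finset.sum_congr rfl fun j _ => (ev00_tw hM P (R j) (a j)).symm] at h1
  have h2 := nr'_sub hPQ h1
  rw [sub_sub_sub_cancel_left] at h2
  have h3 := h.eq_zero (fun j => tw p P (R j)) (fun j => if j = i then Q else 0) (by
    rw [ev_pi hi]
    exact h2)
  refine ⟨R i, ?_⟩
  have h4 : ∑ j ∈ S, TWM.ev p M 0 0 (R j) (a j) = TWM.ev p M 0 0 (R i) (a i) := by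
    refine Finset.sum_eq_single i (fun j hj hji => ?_) fun h => absurd hi h
    have h5 := h3 j hj
    rw [if_neg hji] at h5
    have h6 : R j = 0 := by
      by_contra hne
      exact tw_ne_zero hP hne h5
    rw [h6, ev_zero]
  rwa [h4] at hR

theorem ZBas.not_nr (h : ZBas k p M v E T S a) (hM : MS v G M) {i : Fin m} (hi : i ∈ S) :
    ¬ Nr' v E 0 (a i) := by
  classical
  intro h1
  have h2 := h.free (fun j => if j = i then 1 else 0) (by
    rw [ev_pi hi, ev_one hM]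
    exact h1) i hi
  rw [if_pos rfl] at h2
  exact one_ne_zero h2

theorem ZBas.nonempty (h : ZBas k p M v E T S a) {x : Ω} (hx : x ∈ T) (hl : Lim v E 0 x)
    (hn : ¬ Nr' v E 0 x) : S.Nonempty := by
  rw [Finset.nonempty_iff_ne_empty]
  rintro rfl
  obtain ⟨P, hP⟩ := h.span x hx hl
  rw [Finset.sum_empty, sub_zero] at hP
  exact hn hP

/-- The limits of `E` in `E⟨a₁⟩ + O` are multiples of `a₁`. -/
theorem ZBas.one [IsAlgClosed Ω] (hM : MS v G M) (hME : ∀ g ∈ G, M g ∈ E)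
    (hvE : ∀ b ∈ E, b ≠ 0 → v b ∈ G) {c x : Ω} (hc : TL v E c 0) (hx : Lim v E 0 x)
    (h : Nr' v (cadj v E c) 0 x) : ∃ Q : k[X], Nr' v E 0 (x - TWM.ev p M 0 0 Q c) := by
  obtain ⟨g, hg, h5⟩ := h
  have hgl : Lim v E 0 g := by
    refine Lim.of_ge_sub hx ?_
    rw [show g - x = -(x - g) by ring]
    exact h5.ge.neg
  obtain ⟨D, -, hD⟩ := TL.exists_ev (p := p) hcx.out hM hME hvE hc hg hgl
  refine ⟨D, ?_⟩
  obtain ⟨f, hf, h7⟩ := hD
  refine ⟨f, hf, ?_⟩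
  rw [show x - TWM.ev p M 0 0 D c - f = (x - g) + (g - TWM.ev p M 0 0 D c - f) by ring]
  exact h5.add h7

/-- Freeness over `E⟨a₁⟩`. -/
theorem ZBas.free1 [IsAlgClosed Ω] (hM : MS v G M) (hME : ∀ g ∈ G, M g ∈ E)
    (hvE : ∀ b ∈ E, b ≠ 0 → v b ∈ G) (h : ZBas k p M v E T S a) {i₁ : Fin m} (hi₁ : i₁ ∈ S)
    (ht : TL v E (a i₁) 0) (P : Fin m → k[X])
    (hP : Nr' v (cadj v E (a i₁)) 0 (∑ i ∈ S, TWM.ev p M 0 0 (P i) (a i))) :
    ∀ i ∈ S, i ≠ i₁ → P i = 0 := by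
  classical
  have hl : Lim v E 0 (∑ i ∈ S, TWM.ev p M 0 0 (P i) (a i)) := by
    refine Finset.sum_induction _ (Lim v E 0) (fun x y hx hy => Lim.add' hx hy)
      (fun ε _ => ⟨0, E.zero_mem, by rw [sub_zero]; exact RVal.Ge.zero⟩) fun i hi => ?_
    rw [ev00_fev hM]
    exact Lim.fevB hcx.out (h.lim i hi) _
  obtain ⟨Q, hQ⟩ := ZBas.one hM hME hvE ht hl hP
  intro i hi hne
  have h1 := h.eq_zero P (fun j => if j = i₁ then Q else 0) (by
    rw [ev_pi hi₁]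
    exact hQ) i hi
  rwa [if_neg hne] at h1

theorem ZBas.not_nr1 [IsAlgClosed Ω] (hM : MS v G M) (hME : ∀ g ∈ G, M g ∈ E)
    (hvE : ∀ b ∈ E, b ≠ 0 → v b ∈ G) (h : ZBas k p M v E T S a) {i₁ : Fin m} (hi₁ : i₁ ∈ S)
    (ht : TL v E (a i₁) 0) {i : Fin m} (hi : i ∈ S) (hne : i ≠ i₁) :
    ¬ Nr' v (cadj v E (a i₁)) 0 (a i) := by
  classical
  intro h1
  have h2 := h.free1 hM hME hvE hi₁ ht (fun j => if j = i then 1 else 0) (by
    rw [ev_pi hi, ev_one hM]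
    exact h1) i hi hne
  rw [if_pos rfl] at h2
  exact one_ne_zero h2

/-- **The other elements of the basis are saturated over `E⟨a₁⟩`**, `E` perfect. -/
theorem ZBas.sat1 [IsAlgClosed Ω] (hM : MS v G M) (hME : ∀ g ∈ G, M g ∈ E)
    (hvE : ∀ b ∈ E, b ≠ 0 → v b ∈ G) (hE' : ∀ a ∈ E, ∃ b ∈ E, b ^ p = a)
    (hET : E ≤ T) (hTc : Cld v T)
    (h : ZBas k p M v E T S a) {i₁ : Fin m} (hi₁ : i₁ ∈ S) (ht : TL v E (a i₁) 0)
    {i : Fin m} (hi : i ∈ S) (hne : i ≠ i₁) : Sat k p M v (cadj v E (a i₁)) T (a i) := by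
  classical
  intro y hy hl P Q hP hPQ
  have hk : Ctx0 k v := hcx.out
  have hE₁T : cadj v E (a i₁) ≤ T := TWM.cadj_le hTc hET (h.mem _ hi₁)
  have hME₁ : ∀ g ∈ G, M g ∈ cadj v E (a i₁) := fun g hg => le_cadj v _ _ (hME g hg)
  obtain ⟨e, he, h1⟩ := hPQ
  have hlQ : Lim v E 0 (TWM.ev p M 0 0 Q (a i)) := by
    rw [ev00_fev hM]
    exact Lim.fevB hk (h.lim i hi) _
  have hl1 : Lim v E 0 (fev p P y + -e) := by
    refine Lim.of_ge_sub hlQ ?_
    rw [← ev00_fev hM, show TWM.ev p M 0 0 P y + -e - TWM.ev p M 0 0 Q (a i) =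
      TWM.ev p M 0 0 P y - TWM.ev p M 0 0 Q (a i) - e by ring]
    exact h1.ge
  obtain ⟨b, hb, hyb⟩ := sat_perf hk hE' ht hl hP (neg_mem he) hl1
  obtain ⟨R, hR⟩ := h.span _ (sub_mem hy (hE₁T hb)) hyb
  have h2 : Nr' v (cadj v E (a i₁)) 0 (y - ∑ j ∈ S, TWM.ev p M 0 0 (R j) (a j)) := by
    have h3 := nr'_add (Nr'.mono hR (le_cadj v E (a i₁))) (Nr'.self (r := 0) hb)
    rwa [show y - b - ∑ j ∈ S, TWM.ev p M 0 0 (R j) (a j) + b =
      y - ∑ j ∈ S, TWM.ev p M 0 0 (R j) (a j) by ring] at h3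
  have h3 := nr'_ev00 (p := p) hk hM hME₁ P h2
  rw [ev_sub_right, ev00_sum, Finset.sum_congr rfl fun j _ => (ev00_tw hM P (R j) (a j)).symm] at h3
  have h4 : Nr' v (cadj v E (a i₁)) 0
      (∑ j ∈ S, TWM.ev p M 0 0 (tw p P (R j) - if j = i then Q else 0) (a j)) := by
    have h5 := nr'_sub ⟨e, he, h1⟩ h3
    rw [sub_sub_sub_cancel_left] at h5
    rw [Finset.sum_congr rfl fun j _ => ev_sub (p := p) (M := M) (s := 0) (r := 0) (tw p P (R j))
      (if j = i then Q else 0) (a j), Finset.sum_sub_distrib, ev_pi hi]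
    exact h5
  have h5 := h.free1 hM hME hvE hi₁ ht _ h4
  have h6 : ∀ j ∈ S, R j = (if j = i then R i else 0) + (if j = i₁ then R i₁ else 0) := by
    intro j hj
    by_cases hji : j = i
    · subst hji
      rw [if_pos rfl, if_neg hne, add_zero]
    · rw [if_neg hji, zero_add]
      by_cases hj1 : j = i₁
      · subst hj1
        rw [if_pos rfl]
      · rw [if_neg hj1]
        have h7 := h5 j hj hj1
        rw [if_neg hji, sub_zero] at h7
        by_contra h8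
        exact tw_ne_zero hP h8 h7
  refine ⟨R i, ?_⟩
  have h7 : ∑ j ∈ S, TWM.ev p M 0 0 (R j) (a j) =
      TWM.ev p M 0 0 (R i) (a i) + TWM.ev p M 0 0 (R i₁) (a i₁) := by
    rw [← ev_pi (p := p) (M := M) (a := a) hi (R i), ← ev_pi (p := p) (M := M) (a := a) hi₁ (R i₁),
      ← Finset.sum_add_distrib]
    refine Finset.sum_congr rfl fun j hj => ?_
    rw [← ev_add, ← h6 j hj]
  rw [h7] at h2
  have h8 : TWM.ev p M 0 0 (R i₁) (a i₁) ∈ cadj v E (a i₁) := by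
    rw [ev00_fev hM]
    exact fev_mem _ (self_mem_cadj v _ _)
  have h9 := nr'_add h2 (Nr'.self (r := 0) h8)
  rwa [show y - (TWM.ev p M 0 0 (R i) (a i) + TWM.ev p M 0 0 (R i₁) (a i₁)) +
    TWM.ev p M 0 0 (R i₁) (a i₁) = y - TWM.ev p M 0 0 (R i) (a i) by ring] at h9

end Bas

end Pool.Agent.TWIV
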