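import Pool.Agent.Lib.TWIV.Rec
import Pool.Agent.Lib.TWC.TightA

/-!
# TANK W, tame case: towers have no Frobenius torsion

* `dist_towR`: the distance of an algebraic element from a tower is its distance from the base;
* `ftp`: `FTP`.
-/

set_option autoImplicit false
set_option linter.unusedSectionVars false

open Polynomial

namespace Pool.Agent.TWIV

open Pool.Agent.H15JM (RVal)
open Pool.Agent.D2 (Ctx0)
open Pool.Agent.TWM Pool.Agent.TWS

universe u

variable {k Ω : Type u} [Field k] [Field Ω] [Algebra k Ω] {v : RVal Ω} [IsAlgClosed Ω]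
  {A B : IntermediateField k Ω}

/-- The distance of an algebraic element from a tower. -/
theorem dist_towR {n : ℕ} (h : TowR v n A B) {θ : Ω} (hθ : θ ∈ algc A) {w : Ω} (hw : w ∈ B)
    {b : ℝ} (hb : v.Ge b (θ - w)) : ∃ c ∈ A, v.Ge b (θ - c) := by
  induction h with
  | zero _ => exact ⟨w, hw, hb⟩
  | @succ n A B z s hz _ ih =>
    obtain ⟨c, hc, h1⟩ := ih (TWC.algc_mono (le_cadj v A z) hθ) hw
    exact TWC.TL.dist_alg hz hθ hc h1

theorem ftp (p : ℕ) [hp : Fact p.Prime] [CharP Ω p] : FTP k p v := by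
  intro n B T hT Y hY _ hr
  obtain ⟨b, hb, h1⟩ := hr
  obtain ⟨β, hβ⟩ := IsAlgClosed.exists_pow_nat_eq b hp.out.pos
  have hβa : β ∈ algc B := by
    refine mem_algc.2 (IsAlgebraic.of_pow hp.out.pos ?_)
    rw [hβ]
    exact mem_algc.1 (le_algc B hb)
  have h2 : v.Ge 0 (Y - β) := by
    rw [← hβ, ← sub_pow_char] at h1
    intro h0
    have h3 := h1 (pow_ne_zero _ h0)
    rw [v.map_pow h0] at h3
    have hp0 : (0 : ℝ) < p := by exact_mod_cast hp.out.pos
    by_contra h4
    rw [not_le] at h4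
    nlinarith
  obtain ⟨c, hc, h3⟩ := dist_towR hT hβa hY (b := 0) (by
    rw [show β - Y = -(Y - β) by ring]
    exact h2.neg)
  refine ⟨c, hc, ?_⟩
  rw [show Y - c = (Y - β) + (β - c) by ring]
  exact h2.add h3

end Pool.Agent.TWIV
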