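import Pool.Agent.Lib.TWIV.W4
import Pool.Agent.Lib.TWT.FreeP

/-!
# TANK W, tame case, row A2: bases of the graded modules

`B = PM v A G M` a graded field, `N ≤ A ≤ L` closed, `Γ = VG v N = ℤ g₀ + p Γ`.

* `ZB`, `LB`: the homogeneous elements near `B`, the homogeneous limits of `B`;
* `FVB`: no exotic relation over `B`; `FTB`: no Frobenius torsion over `B`;
* `World.exists_free`: a finite homogeneous family of limits of `B` has the same span as a free one.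
-/

set_option autoImplicit false
set_option linter.unusedSectionVars false

open Polynomial

namespace Pool.Agent.TWIV

open Pool.Agent.H15JM (RVal)
open Pool.Agent.LU1 (VPos adj)
open Pool.Agent.D2 (Ctx0)
open Pool.Agent.D2P (hen clI mem_clI)
open Pool.Agent.TWM Pool.Agent.TWC Pool.Agent.TWS Pool.Agent.TWT

universe u

variable {k Ω : Type u} [Field k] [Field Ω] [Algebra k Ω] {v : RVal Ω} [Fact (Ctx0 k v)]
  {N L A B : IntermediateField k Ω} {G Γ : AddSubgroup ℝ} {M : ℝ → Ω} {p : ℕ}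

/-- The radius is in `Γ[1/p]`, or the element is `0`. -/
def Rad (p : ℕ) (Γ : AddSubgroup ℝ) (r : ℝ) (w : Ω) : Prop :=
  w = 0 ∨ ∃ n : ℕ, (p : ℝ) ^ n * r ∈ Γ

/-- The homogeneous elements near `B`. -/
def ZB (p : ℕ) (Γ : AddSubgroup ℝ) (v : RVal Ω) (L B : IntermediateField k Ω) (r : ℝ) (w : Ω) :
    Prop := w ∈ L ∧ Nr' v B r w ∧ Rad p Γ r w

/-- The homogeneous limits of `B`. -/
def LB (p : ℕ) (Γ : AddSubgroup ℝ) (v : RVal Ω) (L B : IntermediateField k Ω) (r : ℝ) (w : Ω) :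
    Prop := w ∈ L ∧ Lim v B r w ∧ Rad p Γ r w

omit [Field k] [Algebra k Ω] [Fact (Ctx0 k v)] in
theorem Rad.add {r : ℝ} {a b : Ω} (ha : Rad p Γ r a) (hb : Rad p Γ r b) : Rad p Γ r (a + b) := by
  rcases ha with rfl | ha
  · rwa [zero_add]
  · exact Or.inr ha

theorem Rad.op [Fact p.Prime] {c : k} {s d : ℝ} {j : ℕ} {w : Ω} (hd : d ∈ Γ) (h : Rad p Γ s w) :
    Rad p Γ (d + (p : ℝ) ^ j * s) (algebraMap k Ω c * M d * w ^ p ^ j) := by
  rcases h with rfl | ⟨n, h⟩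
  · left
    rw [zero_pow (pow_ne_zero _ (Fact.out : p.Prime).ne_zero), mul_zero]
  · refine Or.inr ⟨n, ?_⟩
    have h1 := Γ.nsmul_mem hd (p ^ n)
    have h2 := Γ.nsmul_mem h (p ^ j)
    rw [nsmul_eq_mul] at h1 h2
    push_cast at h1 h2
    have h3 := Γ.add_mem h1 h2
    have h4 : (p : ℝ) ^ n * (d + (p : ℝ) ^ j * s) =
        (p : ℝ) ^ n * d + (p : ℝ) ^ j * ((p : ℝ) ^ n * s) := by ring
    rwa [h4]

theorem gt_op [Fact p.Prime] [CharP Ω p] (hM : MS v Γ M) {c : k} {s d : ℝ} {j : ℕ} {w : Ω}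
    (hd : d ∈ Γ) (h : Gt v s w) :
    Gt v (d + (p : ℝ) ^ j * s) (algebraMap k Ω c * M d * w ^ p ^ j) := by
  intro h0
  have h1 : algebraMap k Ω c ≠ 0 := fun h => h0 (by rw [h, zero_mul, zero_mul])
  have h2 : w ^ p ^ j ≠ 0 := fun h => h0 (by rw [h, mul_zero])
  have h3 : w ≠ 0 := fun h => h2 (by
    rw [h, zero_pow (pow_ne_zero _ (Fact.out : p.Prime).ne_zero)])
  have h4 : c ≠ 0 := fun h => h1 (by rw [h, map_zero])
  rw [v.map_mul (mul_ne_zero h1 (hM.ne d hd)) h2, v.map_mul h1 (hM.ne d hd),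
    (Fact.out : Ctx0 k v).triv c h4, hM.val d hd, v.map_pow h3]
  have h5 := h h3
  have h6 : (0 : ℝ) < (p : ℝ) ^ j := by
    have : (0 : ℝ) < p := by exact_mod_cast (Fact.out : p.Prime).pos
    positivity
  push_cast
  nlinarith

theorem ge_op [Fact p.Prime] [CharP Ω p] (hM : MS v Γ M) {c : k} {s d : ℝ} {j : ℕ} {w : Ω}
    (hd : d ∈ Γ) (h : v.Ge s w) :
    v.Ge (d + (p : ℝ) ^ j * s) (algebraMap k Ω c * M d * w ^ p ^ j) := by
  have h1 : v.Ge d (M d) := fun _ => (hM.val d hd).ge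
  have h2 := (((Fact.out : Ctx0 k v).ge c).mul h1).mul (ge_pow h (p ^ j))
  refine h2.mono (le_of_eq ?_)
  push_cast
  ring

theorem gsub_Z [Fact p.Prime] [CharP Ω p] (hM : MS v Γ M) (hMN : ∀ g ∈ Γ, M g ∈ N)
    (hNL : N ≤ L) (hNB : N ≤ B) : GSub k p Γ M (ZB p Γ v L B) where
  zero r := ⟨zero_mem L, ⟨0, zero_mem B, by rw [sub_zero]; exact Gt.zero⟩, Or.inl rfl⟩
  add := by
    rintro r a b ⟨ha, ⟨a', ha', h1⟩, h2⟩ ⟨hb, ⟨b', hb', h3⟩, h4⟩
    refine ⟨add_mem ha hb, ⟨a' + b', add_mem ha' hb', ?_⟩, h2.add h4⟩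
    rw [add_sub_add_comm]
    exact h1.add h3
  op := by
    rintro c s d j w hd ⟨hw, ⟨a, ha, h1⟩, h2⟩
    refine ⟨mul_mem (mul_mem (L.algebraMap_mem c) (hNL (hMN d hd))) (pow_mem hw _),
      ⟨algebraMap k Ω c * M d * a ^ p ^ j, mul_mem (mul_mem (B.algebraMap_mem c)
        (hNB (hMN d hd))) (pow_mem ha _), ?_⟩, h2.op hd⟩
    rw [← mul_sub, ← sub_pow_char_pow]
    exact gt_op hM hd h1

theorem gsub_L [Fact p.Prime] [CharP Ω p] (hM : MS v Γ M) (hMN : ∀ g ∈ Γ, M g ∈ N)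
    (hNL : N ≤ L) (hNB : N ≤ B) : GSub k p Γ M (LB p Γ v L B) where
  zero r := ⟨zero_mem L, fun ε _ => ⟨0, zero_mem B, by rw [sub_zero]; exact RVal.Ge.zero⟩,
    Or.inl rfl⟩
  add := by
    rintro r a b ⟨ha, h1, h2⟩ ⟨hb, h3, h4⟩
    refine ⟨add_mem ha hb, fun ε hε => ?_, h2.add h4⟩
    obtain ⟨a', ha', h5⟩ := h1 ε hε
    obtain ⟨b', hb', h6⟩ := h3 ε hε
    refine ⟨a' + b', add_mem ha' hb', ?_⟩
    rw [add_sub_add_comm]
    exact h5.add h6
  op := by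
    rintro c s d j w hd ⟨hw, h1, h2⟩
    refine ⟨mul_mem (mul_mem (L.algebraMap_mem c) (hNL (hMN d hd))) (pow_mem hw _),
      fun ε hε => ?_, h2.op hd⟩
    have hp0 : (0 : ℝ) < (p : ℝ) ^ j := by
      have : (0 : ℝ) < p := by exact_mod_cast (Fact.out : p.Prime).pos
      positivity
    obtain ⟨a, ha, h3⟩ := h1 (ε / (p : ℝ) ^ j) (by positivity)
    refine ⟨algebraMap k Ω c * M d * a ^ p ^ j, mul_mem (mul_mem (B.algebraMap_mem c)
        (hNB (hMN d hd))) (pow_mem ha _), ?_⟩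
    rw [← mul_sub, ← sub_pow_char_pow]
    refine (ge_op hM hd h3).mono (le_of_eq ?_)
    field_simp
    ring

/-- No Frobenius torsion over `B`. -/
def FTB (p : ℕ) (v : RVal Ω) (T B : IntermediateField k Ω) : Prop :=
  ∀ Y ∈ T, Lim v B 0 Y → Nr v B 0 (Y ^ p) → Nr v B 0 Y

/-- No exotic relation over `B`. -/
def FVB (p : ℕ) (v : RVal Ω) (T B : IntermediateField k Ω) (π : Ω → Ω) : Prop :=
  ∀ Y ∈ T, Lim v B 0 Y → Nr v B 0 (Y ^ p - π Y) → Nr v B 0 Y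

omit [Fact (Ctx0 k v)] in
theorem Nr'.nr {r : ℝ} {x : Ω} (h : Nr' v B r x) : Nr v B r x := by
  obtain ⟨a, ha, h1⟩ := h
  exact ⟨a, ha, h1.ge⟩

theorem Nr.nr' {x : Ω} (h : Nr v B 0 x) : Nr' v B 0 x := by
  obtain ⟨a, ha, h1⟩ := h
  obtain ⟨c, hc⟩ := (Fact.out : Ctx0 k v).residue h1
  refine ⟨a + algebraMap k Ω c, add_mem ha (B.algebraMap_mem c), ?_⟩
  rwa [← sub_sub]

namespace World

variable (W : World p v N L G M) (hΩ : CompleteV v)

include W in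
/-- The values of `N` are in `G`. -/
theorem VG_le : VG v N ≤ G := by
  rintro g ⟨x, hx, hx0, rfl⟩
  have hM : MonG v (⊥ : IntermediateField k Ω) G M := ⟨W.ms, fun g hg h => by
    obtain ⟨y, hy, hy0, rfl⟩ := h
    obtain ⟨c, rfl⟩ := IntermediateField.mem_bot.1 hy
    have hc : c ≠ 0 := fun h => hy0 (by rw [h, map_zero])
    rw [(Fact.out : Ctx0 k v).triv c hc, W.ms.zero]
    exact one_mem _⟩
  obtain ⟨Lf, hL, h2⟩ := dense_PM hM (Imm.refl _) (W.gen hx) (v x + 1)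
  have h3 : Gt v (v x) (x - evM M Lf) := Gt.of_ge h2 (by linarith)
  obtain ⟨h4, h5⟩ := Gt.val_eq hx0 h3
  have h0 : Lf ≠ 0 := by
    rintro rfl
    exact h4 evM_zero
  obtain ⟨r, hr0, -, -, -, h6⟩ := lead hM (Imm.refl _) hL h0
  have hrG := (hL.rep r hr0).1
  obtain ⟨c, hc⟩ := IntermediateField.mem_bot.1 (hL.mem r)
  have hc0 : c ≠ 0 := fun h => hr0 (by rw [← hc, h, map_zero])
  rw [← h5, h6, v.map_mul hr0 (W.ms.ne r hrG), W.ms.val r hrG, ← hc,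
    (Fact.out : Ctx0 k v).triv c hc0, zero_add]
  exact hrG

include W in
theorem msΓ : MS v (VG v N) M :=
  ⟨fun g hg => W.ms.ne g (W.VG_le hg), fun g hg => W.ms.val g (W.VG_le hg),
    fun g hg h hh => W.ms.mul g (W.VG_le hg) h (W.VG_le hh)⟩

include W in
theorem monΓ : ∀ g ∈ VG v N, M g ∈ N := fun g hg => W.mon.mem g (W.VG_le hg) hg

include W in
theorem mem_G [Fact p.Prime] {r : ℝ} {n : ℕ} (h : (p : ℝ) ^ n * r ∈ G) : r ∈ G := by
  have hp0 : (p : ℝ) ≠ 0 := by exact_mod_cast (Fact.out : p.Prime).ne_zero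
  have h1 := W.div_pow h n
  rwa [mul_div_cancel_left₀ _ (pow_ne_zero n hp0)] at h1

theorem pj0_mon {g : ℝ} (hg : g ∈ G) (hgN : g ∉ VG v N) : W.pj hΩ 0 (M g) = 0 := by
  refine (W.isPj hΩ 0).mon g hg fun h => hgN ?_
  have := h.2
  rwa [pow_zero, one_mul] at this

include W in
theorem nr_scale {g : ℝ} (hg : g ∈ G) (hA : ∀ g ∈ G, M g ∈ B) {r : ℝ} {x : Ω}
    (h : Nr v B r x) : Nr v B (r + g) (M g * x) := by
  obtain ⟨a, ha, h1⟩ := h
  refine ⟨M g * a, mul_mem (hA g hg) ha, ?_⟩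
  rw [← mul_sub]
  have h2 : v.Ge g (M g) := fun _ => (W.ms.val g hg).ge
  refine (h2.mul h1).mono (le_of_eq (add_comm _ _))

include W in
theorem lim_scale {g : ℝ} (hg : g ∈ G) (hA : ∀ g ∈ G, M g ∈ B) {r : ℝ} {x : Ω}
    (h : Lim v B r x) : Lim v B (r + g) (M g * x) := by
  intro ε hε
  obtain ⟨a, ha, h1⟩ := h ε hε
  refine ⟨M g * a, mul_mem (hA g hg) ha, ?_⟩
  rw [← mul_sub]
  have h2 : v.Ge g (M g) := fun _ => (W.ms.val g hg).ge
  refine (h2.mul h1).mono (le_of_eq ?_)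
  ring

include W in
/-- `Nr` and `Nr'` at the radii of `G`. -/
theorem nr_nr' {g : ℝ} (hg : g ∈ G) (hA : ∀ g ∈ G, M g ∈ B) {x : Ω} (h : Nr v B g x) :
    Nr' v B g x := by
  have h1 := W.nr_scale (G.neg_mem hg) hA h
  rw [add_neg_cancel] at h1
  obtain ⟨a, ha, h2⟩ := Nr.nr' h1
  refine ⟨M g * a, mul_mem (hA g hg) ha, ?_⟩
  have h3 : x - M g * a = M g * (M (-g) * x - a) := by
    rw [mul_sub, ← mul_assoc, mul_comm (M g) (M (-g)), W.M_neg_mul hg, one_mul]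
  rw [h3]
  intro h0
  have h4 : M (-g) * x - a ≠ 0 := fun h => h0 (by rw [h, mul_zero])
  rw [v.map_mul (W.ms.ne g hg) h4, W.ms.val g hg]
  have := h2 h4
  linarith

theorem nr_pj0 (hNA : N ≤ A) (hAL : A ≤ L) (hA : Cld v A) {x : Ω} {r : ℝ}
    (hx : x ∈ PM v L G M) (h : Nr v (PM v A G M) r x) : Nr v (PM v A G M) r (W.pj hΩ 0 x) := by
  obtain ⟨a, ha, h1⟩ := h
  have haT : a ∈ PM v L G M := PM.mono hAL ha
  refine ⟨_, W.pj_mem hΩ hNA hAL hA 0 ha, ?_⟩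
  rw [← (W.isPj hΩ 0).prj.sub hx haT]
  exact (W.isPj hΩ 0).prj.ge _ (sub_mem hx haT) _ h1

section Free

variable [Fact p.Prime] [CharP k p] [CharP Ω p]

omit [CharP k p] [CharP Ω p] in
include W in
theorem notΓ {g₀ : ℝ} (hg₀ : g₀ ∈ VG v N) (hg₀' : g₀ / p ∉ VG v N) {i : ℤ} (hi : ¬ (p : ℤ) ∣ i) :
    (i : ℝ) * (g₀ / p) ∉ VG v N := by
  intro h
  refine hg₀' ?_
  have hp0 : (p : ℝ) ≠ 0 := by exact_mod_cast (Fact.out : p.Prime).ne_zero
  have hcop : IsCoprime i (p : ℤ) := by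
    rw [Int.isCoprime_iff_gcd_eq_one, Int.gcd_comm]
    exact_mod_cast (Int.isCoprime_iff_gcd_eq_one.1
      ((Nat.prime_iff_prime_int.1 (Fact.out : p.Prime)).coprime_iff_not_dvd.2 hi))
  obtain ⟨a, b, hab⟩ := hcop
  have h1 := (VG v N).zsmul_mem h a
  have h2 := (VG v N).zsmul_mem hg₀ b
  have h3 := (VG v N).add_mem h1 h2
  have h4 : a • ((i : ℝ) * (g₀ / p)) + b • g₀ = g₀ / p := by
    rw [zsmul_eq_mul, zsmul_eq_mul]
    have h5 : (a : ℝ) * i + b * p = 1 := by exact_mod_cast hab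
    calc (a : ℝ) * ((i : ℝ) * (g₀ / p)) + b * g₀ = ((a : ℝ) * i + b * p) * (g₀ / p) := by
          field_simp
      _ = g₀ / p := by rw [h5, one_mul]
  rwa [h4] at h3

/-- The projections of the monomials `M (i g₀ / p)`. -/
theorem pj0_comb {g₀ : ℝ} (hg₀ : g₀ ∈ VG v N) (hg₀' : g₀ / p ∉ VG v N) {y : ℕ → Ω} {S : Finset ℕ}
    (hS : ∀ l ∈ S, l < p) (hy : ∀ l ∈ S, y l ∈ L) {l : ℕ} (hl : l ∈ S) :
    W.pj hΩ 0 (∑ l' ∈ S, M (((l' : ℤ) - (l : ℤ) : ℤ) * (g₀ / p)) * y l') = y l := by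
  have hgG : g₀ / p ∈ G := W.div _ (W.VG_le hg₀)
  have hG : ∀ i : ℤ, (i : ℝ) * (g₀ / p) ∈ G := fun i => by
    have := G.zsmul_mem hgG i
    rwa [zsmul_eq_mul] at this
  rw [(W.isPj hΩ 0).prj.sum S fun l' hl' => mul_mem (PM.mon (hG _)) (PM.le (hy l' hl'))]
  rw [Finset.sum_eq_single l]
  · rw [mul_comm, W.pj0_lin hΩ (hy l hl) (PM.mon (hG _)), sub_self, Int.cast_zero, zero_mul,
      W.ms.zero, (W.isPj hΩ 0).prj.self 1 (one_mem _), mul_one]
  · intro l' hl' hne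
    rw [mul_comm, W.pj0_lin hΩ (hy l' hl') (PM.mon (hG _)), W.pj0_mon hΩ (hG _)
      (W.notΓ hg₀ hg₀' fun h => hne ?_), mul_zero]
    have h1 := hS l hl
    have h2 := hS l' hl'
    have h3 : (((l' : ℤ) - l).natAbs) < p := by omega
    have h4 := Int.natAbs_dvd_natAbs.2 h
    rw [Int.natAbs_natCast] at h4
    have h5 := Nat.eq_zero_of_dvd_of_lt h4 h3
    omega
  · exact fun h => absurd hl h

include W hΩ in
/-- The components of a Frobenius relation. -/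
theorem hdiv {g₀ : ℝ} (hg₀ : g₀ ∈ VG v N)
    (hg₀' : g₀ / p ∉ VG v N) (hNA : N ≤ A) (hAL : A ≤ L) (hA : Cld v A)
    (hFT : FTB p v (PM v L G M) (PM v A G M)) (R : ℝ) (y : ℕ → Ω)
    (hy : ∀ l < p, LB p (VG v N) v L (PM v A G M) ((R - l * g₀) / p) (y l))
    (hZ : ZB p (VG v N) v L (PM v A G M) R (∑ l ∈ Finset.range p, M (l * g₀) * y l ^ p)) :
    ∀ l < p, ZB p (VG v N) v L (PM v A G M) ((R - l * g₀) / p) (y l) := by
  have hp : p.Prime := Fact.out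
  have hp0 : (p : ℝ) ≠ 0 := by exact_mod_cast hp.ne_zero
  have hMB : ∀ g ∈ G, M g ∈ PM v A G M := fun g hg => PM.mon hg
  by_cases hR : ∃ n : ℕ, (p : ℝ) ^ n * R ∈ VG v N
  · obtain ⟨n, hn⟩ := hR
    have hRG : R ∈ G := W.mem_G (W.VG_le hn)
    have hgG := W.VG_le hg₀
    have he : ∀ l : ℕ, (R - l * g₀) / p ∈ G := fun l =>
      W.div _ (G.sub_mem hRG (W.natG hgG l))
    set Y : Ω := ∑ l ∈ Finset.range p, M (-((R - l * g₀) / p)) * y l with hY
    have hyL : ∀ l ∈ Finset.range p, y l ∈ L := fun l hl => (hy l (Finset.mem_range.1 hl)).1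
    have hYT : Y ∈ PM v L G M := sum_mem fun l hl =>
      mul_mem (PM.mon (G.neg_mem (he l))) (PM.le (hyL l hl))
    have hYp : Y ^ p = M (-R) * ∑ l ∈ Finset.range p, M (l * g₀) * y l ^ p := by
      rw [hY, sum_pow_char, Finset.mul_sum]
      refine Finset.sum_congr rfl fun l _ => ?_
      rw [mul_pow, ← W.ms.pow (G.neg_mem (he l)) p, ← mul_assoc,
        ← W.ms.mul _ (G.neg_mem hRG) _ (W.natG hgG l)]
      congr 2
      field_simp
      ring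
    have hlim : ∀ (S : Finset ℕ) (x : ℕ → Ω), (∀ l ∈ S, Lim v (PM v A G M) 0 (x l)) →
        Lim v (PM v A G M) 0 (∑ l ∈ S, x l) := by
      intro S x h
      induction S using Finset.induction_on with
      | empty =>
        rw [Finset.sum_empty]
        exact TWC.Lim.of_mem (zero_mem _)
      | insert a S ha ih =>
        rw [Finset.sum_insert ha]
        exact TWC.Lim.add (h a (Finset.mem_insert_self a S))
          (ih fun g hg => h g (Finset.mem_insert_of_mem hg))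
    have hYl : Lim v (PM v A G M) 0 Y := by
      refine hlim _ _ fun l hl => ?_
      have h1 := W.lim_scale (G.neg_mem (he l)) hMB (hy l (Finset.mem_range.1 hl)).2.1
      rwa [add_neg_cancel] at h1
    have hYn : Nr v (PM v A G M) 0 (Y ^ p) := by
      rw [hYp]
      have h1 := W.nr_scale (G.neg_mem hRG) hMB (Nr'.nr hZ.2.1)
      rwa [add_neg_cancel] at h1
    have h1 := hFT Y hYT hYl hYn
    intro l hl
    have h2 := W.nr_pj0 hΩ hNA hAL hA (mul_mem (PM.mon (he l)) hYT) (W.nr_scale (he l) hMB h1)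
    rw [zero_add] at h2
    have h3 : M ((R - l * g₀) / p) * Y = ∑ l' ∈ Finset.range p,
        M (((l' : ℤ) - (l : ℤ) : ℤ) * (g₀ / p)) * y l' := by
      rw [hY, Finset.mul_sum]
      refine Finset.sum_congr rfl fun l' _ => ?_
      rw [← mul_assoc, ← W.ms.mul _ (he l) _ (G.neg_mem (he l'))]
      congr 2
      push_cast
      field_simp
      ring
    rw [h3, W.pj0_comb hΩ hg₀ hg₀' (fun l hl => Finset.mem_range.1 hl) hyL
      (Finset.mem_range.2 hl)] at h2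
    exact ⟨hyL l (Finset.mem_range.2 hl), W.nr_nr' (he l) hMB h2, (hy l hl).2.2⟩
  · intro l hl
    rcases (hy l hl).2.2 with h1 | ⟨n, hn⟩
    · rw [h1]
      exact ⟨zero_mem L, ⟨0, zero_mem _, by rw [sub_zero]; exact Gt.zero⟩, Or.inl rfl⟩
    · exfalso
      refine hR ⟨n, ?_⟩
      have h2 := (VG v N).nsmul_mem hn p
      have h3 := (VG v N).nsmul_mem ((VG v N).nsmul_mem hg₀ l) (p ^ n)
      rw [nsmul_eq_mul] at h2 h3
      rw [nsmul_eq_mul] at h3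
      push_cast at h2 h3
      have h4 := (VG v N).add_mem h2 h3
      have h5 : (p : ℝ) * ((p : ℝ) ^ n * ((R - l * g₀) / p)) + (p : ℝ) ^ n * (l * g₀) =
          (p : ℝ) ^ n * R := by
        field_simp
        ring
      rwa [h5] at h4

theorem propP {g₀ : ℝ} (hg₀ : g₀ ∈ VG v N) (hg₀' : g₀ / p ∉ VG v N) (hNA : N ≤ A) (hAL : A ≤ L)
    (hA : Cld v A) (hFV : FVB p v (PM v L G M) (PM v A G M) (W.pj hΩ 0)) :
    PropP p M (ZB p (VG v N) v L (PM v A G M)) (LB p (VG v N) v L (PM v A G M)) g₀ := by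
  intro q e hq he hZ
  have hp : p.Prime := Fact.out
  have hp0 : (p : ℝ) ≠ 0 := by exact_mod_cast hp.ne_zero
  have hMB : ∀ g ∈ G, M g ∈ PM v A G M := fun g hg => PM.mon hg
  have hgG := W.VG_le hg₀
  have heG : ∀ l : ℕ, (-(l * g₀)) / p ∈ G := fun l => W.div _ (G.neg_mem (W.natG hgG l))
  -- the element
  set y : ℕ → Ω := fun l => if l = 0 then q else -e l with hy
  have hyL : ∀ l ∈ Finset.range p, y l ∈ L := fun l hl => by
    rw [hy]
    dsimp only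
    split_ifs with h0
    · exact hq.1
    · exact neg_mem (he l (Nat.pos_of_ne_zero h0) (Finset.mem_range.1 hl)).1
  have hyl : ∀ l ∈ Finset.range p, Lim v (PM v A G M) (-(l * g₀) / p) (y l) := fun l hl => by
    rw [hy]
    dsimp only
    split_ifs with h0
    · rw [h0, Nat.cast_zero, zero_mul, neg_zero, zero_div]
      exact hq.2.1
    · intro ε hε
      obtain ⟨a, ha, h1⟩ := (he l (Nat.pos_of_ne_zero h0) (Finset.mem_range.1 hl)).2.1 ε hε
      refine ⟨-a, neg_mem ha, ?_⟩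
      have h2 : -e l - -a = -(e l - a) := by ring
      rw [h2]
      exact h1.neg
  set Y : Ω := ∑ l ∈ Finset.range p, M (((l : ℤ) - ((0 : ℕ) : ℤ) : ℤ) * (g₀ / p)) * y l with hY
  have hZG : ∀ i : ℤ, (i : ℝ) * (g₀ / p) ∈ G := fun i => by
    have := G.zsmul_mem (W.div _ hgG) i
    rwa [zsmul_eq_mul] at this
  have hYT : Y ∈ PM v L G M := sum_mem fun l hl => mul_mem (PM.mon (hZG _)) (PM.le (hyL l hl))
  have hπ : W.pj hΩ 0 Y = q := by
    have h1 := W.pj0_comb hΩ hg₀ hg₀' (fun l hl => Finset.mem_range.1 hl) hyL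
      (Finset.mem_range.2 hp.pos)
    rw [hY, h1, hy]
    rfl
  have hYp : Y ^ p = q ^ p - ∑ l ∈ Finset.Ico 1 p, M (l * g₀) * e l ^ p := by
    have e1 : q ^ p - ∑ l ∈ Finset.Ico 1 p, M (l * g₀) * e l ^ p =
        q ^ p + ∑ l ∈ Finset.Ico 1 p, -(M (l * g₀) * e l ^ p) := by
      rw [Finset.sum_neg_distrib]
      ring
    rw [e1, hY, sum_pow_char, Finset.range_eq_Ico, Finset.sum_eq_sum_Ico_succ_bot hp.pos]
    congr 1
    · rw [hy]
      simp only [if_true]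
      rw [sub_self, Int.cast_zero, zero_mul, W.ms.zero, one_mul]
    · refine Finset.sum_congr rfl fun l hl => ?_
      have h0 : l ≠ 0 := by
        have := (Finset.mem_Ico.1 hl).1
        omega
      rw [hy]
      simp only [if_neg h0]
      rw [mul_pow, ← W.ms.pow (hZG _) p, neg_pow, neg_one_pow_char Ω p]
      have h1 : (p : ℝ) * (((((l : ℤ) - ((0 : ℕ) : ℤ) : ℤ)) : ℝ) * (g₀ / p)) = l * g₀ := by
        push_cast
        field_simp
        ring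
      rw [h1]
      ring
  have hlim : ∀ (S : Finset ℕ) (x : ℕ → Ω), (∀ l ∈ S, Lim v (PM v A G M) 0 (x l)) →
      Lim v (PM v A G M) 0 (∑ l ∈ S, x l) := by
    intro S x h
    induction S using Finset.induction_on with
    | empty =>
      rw [Finset.sum_empty]
      exact TWC.Lim.of_mem (zero_mem _)
    | insert a S ha ih =>
      rw [Finset.sum_insert ha]
      exact TWC.Lim.add (h a (Finset.mem_insert_self a S))
        (ih fun g hg => h g (Finset.mem_insert_of_mem hg))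
  have hYl : Lim v (PM v A G M) 0 Y := by
    refine hlim _ _ fun l hl => ?_
    have h1 := W.lim_scale (hZG ((l : ℤ) - ((0 : ℕ) : ℤ))) hMB (hyl l hl)
    have h2 : -(l * g₀) / p + (((l : ℤ) - ((0 : ℕ) : ℤ) : ℤ) : ℝ) * (g₀ / p) = 0 := by
      push_cast
      ring
    rwa [h2] at h1
  have h1 := hFV Y hYT hYl (by
    rw [hπ, hYp]
    have h2 : q ^ p - ∑ l ∈ Finset.Ico 1 p, M (l * g₀) * e l ^ p - q =
        q ^ p - q - ∑ l ∈ Finset.Ico 1 p, M (l * g₀) * e l ^ p := by ring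
    rw [h2]
    exact Nr'.nr hZ.2.1)
  have h2 := W.nr_pj0 hΩ hNA hAL hA hYT h1
  rw [hπ] at h2
  exact ⟨hq.1, Nr.nr' h2, Or.inr ⟨0, by rw [mul_zero]; exact (VG v N).zero_mem⟩⟩

/-- **Bases of the graded modules.** -/
theorem exists_free [IsAlgClosed k] (hGN : ∀ g ∈ G, ∃ n : ℕ, (p : ℝ) ^ n * g ∈ VG v N) {g₀ : ℝ}
    (hg₀ : g₀ ∈ VG v N) (hg₀' : g₀ / p ∉ VG v N)
    (hG : ∀ g ∈ VG v N, ∃ l < p, ∃ g' ∈ VG v N, g = l * g₀ + p * g')
    (hNA : N ≤ A) (hAL : A ≤ L) (hA : Cld v A)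
    (hFT : FTB p v (PM v L G M) (PM v A G M))
    (hFV : FVB p v (PM v L G M) (PM v A G M) (W.pj hΩ 0))
    {ι : Type*} [Fintype ι] [DecidableEq ι] (r : ι → ℝ) (w₀ : ι → Ω) (hr : ∀ i, r i ∈ G)
    (hw₀ : ∀ i, w₀ i ∈ L ∧ Lim v (PM v A G M) (r i) (w₀ i)) :
    ∃ (S : Finset ι) (w : ι → Ω), (∀ i ∈ S, w i ∈ L ∧ Lim v (PM v A G M) (r i) (w i)) ∧
      (∀ i, InSpan k p (VG v N) M (ZB p (VG v N) v L (PM v A G M)) r w S (r i) (w₀ i)) ∧
      (∀ i ∈ S, InSpan k p (VG v N) M (ZB p (VG v N) v L (PM v A G M)) r w₀ Finset.univ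
        (r i) (w i)) ∧
      FreeOn k p (VG v N) M (ZB p (VG v N) v L (PM v A G M)) r w S := by
  have hB : N ≤ PM v A G M := hNA.trans PM.le
  obtain ⟨S, w, h1, h2, h3, -, h4⟩ := exists_free_of_P W.msΓ (gsub_Z W.msΓ W.monΓ W.NL hB)
    (gsub_L W.msΓ W.monΓ W.NL hB) (fun r a h => ⟨h.1, fun ε hε => by
      obtain ⟨b, hb, h5⟩ := h.2.1
      exact ⟨b, hb, h5.ge.mono (by linarith)⟩, h.2.2⟩) hg₀ hG
    (W.hdiv hΩ hg₀ hg₀' hNA hAL hA hFT) (W.propP hΩ hg₀ hg₀' hNA hAL hA hFV) r w₀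
    (fun i => hGN _ (hr i)) fun i => ⟨(hw₀ i).1, (hw₀ i).2, Or.inr (hGN _ (hr i))⟩
  exact ⟨S, w, fun i hi => ⟨(h1 i hi).1, (h1 i hi).2.1⟩, h2, h3, h4⟩

end Free

section Floors

variable [Fact p.Prime] [CharP k p] [CharP Ω p] [PerfectRing k p] [IsAlgClosed Ω]

include W in
theorem ft_zero : FTB p v (PM v L G M) (PM v N G M) := by
  intro Y _ _ h
  obtain ⟨a, ha, h1⟩ := h
  obtain ⟨b, hb, hbp⟩ := W.perfE a ha
  refine ⟨b, hb, Nul.const (Nul.of_pow (Fact.out : p.Prime).ne_zero (Nul.of_ge fun _ => ?_))⟩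
  rwa [sub_pow_char, hbp]

theorem fvb_zero : FVB p v (PM v L G M) (PM v N G M) (W.pj hΩ 0) := fun _ hY hl h =>
  W.fv_zero hΩ hY hl h

/-- The floor `1`, under the canonicity `hcan`. -/
theorem fvb_one (hGN : ∀ g ∈ G, ∃ n : ℕ, (p : ℝ) ^ n * g ∈ VG v N) {δ : ℝ} {u : Ω} (hδ : δ ∈ G)
    (hu : u ∈ L) (hz : TL v (PM v N G M) (M δ * u) 0)
    (hcan : ∀ Y ∈ PM v L G M, Lim v (PM v N G M) 0 Y → Nr v (PM v (cadj v N u) G M) 0 Y) :
    FTB p v (PM v L G M) (PM v (cadj v N u) G M) ∧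
      FVB p v (PM v L G M) (PM v (cadj v N u) G M) (W.pj hΩ 0) := by
  have hPM := W.PM_cadj hδ (rfl : M δ * u = M δ * u)
  have hle : PM v (cadj v N u) G M ≤ PM v L G M := PM.mono (TWM.cadj_le W.cldL W.NL hu)
  have key : ∀ Y ∈ PM v L G M, (∃ b ∈ PM v (cadj v N u) G M, Lim v (PM v N G M) 0 (Y - b)) →
      Nr v (PM v (cadj v N u) G M) 0 Y := by
    rintro Y hY ⟨b, hb, h1⟩
    obtain ⟨a, ha, h2⟩ := hcan _ (sub_mem hY (hle hb)) h1
    refine ⟨b + a, add_mem hb ha, ?_⟩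
    rwa [← sub_sub]
  constructor
  · intro Y hY hl h
    refine key Y hY ?_
    rw [hPM] at hl h ⊢
    exact ftf_aux hz W.perfE hl h
  · intro Y hY hl h
    refine key Y hY ?_
    rw [hPM] at hl h ⊢
    exact W.fv_one hΩ hGN hδ hu rfl hz hY hl h

end Floors

end World

end Pool.Agent.TWIV
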