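import Pool.Agent.Lib.TWS.MonF
import Pool.Agent.Lib.TWIV.A2P

/-!
# TANK W, tame case: towers have no torsion

* `near_rootF`: a polynomial of small value at `x` has a root near to `x`;
* `TowR.dist_alg`: the distance of an algebraic element in a tower, any radii;
* `TowR.torsion`: `T` a tower over the closed field `B`, `P ≠ 0`: `P(F) x ∈ B + O(r)` gives
  `x ∈ B + O(s)`;
* `TowR.ftb`: `FTB p v T B`.
-/

set_option autoImplicit false
set_option linter.unusedSectionVars false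

open Polynomial

namespace Pool.Agent.TWIV

open Pool.Agent.H15JM (RVal)
open Pool.Agent.LU1 (VPos adj)
open Pool.Agent.D2 (Ctx0)
open Pool.Agent.D2P (hen clI mem_clI)
open Pool.Agent.TWM Pool.Agent.TWC Pool.Agent.TWS

universe u

variable {k Ω : Type u} [Field k] [Field Ω] [Algebra k Ω] {v : RVal Ω}
  {A B T : IntermediateField k Ω} {G : AddSubgroup ℝ} {M : ℝ → Ω} {p : ℕ} {s r : ℝ} {x θ w : Ω}

omit [Field k] [Algebra k Ω] in
/-- Products of differences of small value. -/
theorem val_prod_lt (S : Multiset Ω) (h : ∀ a ∈ S, x - a ≠ 0 ∧ v (x - a) < s) :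
    (S.map fun a => x - a).prod ≠ 0 ∧ v (S.map fun a => x - a).prod ≤ Multiset.card S * s ∧
      (S ≠ 0 → v (S.map fun a => x - a).prod < Multiset.card S * s) := by
  induction S using Multiset.induction_on with
  | empty =>
    refine ⟨?_, ?_, fun h => absurd rfl h⟩
    · rw [Multiset.map_zero, Multiset.prod_zero]
      exact one_ne_zero
    · rw [Multiset.map_zero, Multiset.prod_zero, v.map_one, Multiset.card_zero, Nat.cast_zero,
        zero_mul]
  | cons a S ih =>
    obtain ⟨h1, h2, -⟩ := ih fun b hb => h b (Multiset.mem_cons_of_mem hb)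
    obtain ⟨h3, h4⟩ := h a (Multiset.mem_cons_self a S)
    rw [Multiset.map_cons, Multiset.prod_cons, Multiset.card_cons]
    have h5 : v ((x - a) * (S.map fun a => x - a).prod) < ((Multiset.card S + 1 : ℕ) : ℝ) * s := by
      rw [v.map_mul h3 h1]
      push_cast
      linarith
    exact ⟨mul_ne_zero h3 h1, h5.le, fun _ => h5⟩

omit [Field k] [Algebra k Ω] in
/-- **A root near to `x`.** -/
theorem near_rootF [IsAlgClosed Ω] {f : Polynomial Ω} (h0 : f ≠ 0) (hd : f.natDegree ≠ 0)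
    (hl : v f.leadingCoeff + f.natDegree * s ≤ r) (hr : v.Ge r (f.eval x)) :
    ∃ θ : Ω, f.eval θ = 0 ∧ v.Ge s (x - θ) := by
  by_contra hno
  push Not at hno
  have hsp : f.Splits := IsAlgClosed.splits f
  have h1 : ∀ a ∈ f.roots, x - a ≠ 0 ∧ v (x - a) < s := by
    intro a ha
    have h2 := hno a (mem_roots'.1 ha).2
    have h3 : x - a ≠ 0 := fun h => h2 (by rw [h]; exact RVal.Ge.zero)
    refine ⟨h3, ?_⟩
    by_contra h4
    rw [not_lt] at h4
    exact h2 fun _ => h4
  obtain ⟨h2, -, h3⟩ := val_prod_lt f.roots h1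
  have hc : Multiset.card f.roots = f.natDegree := (hsp.natDegree_eq_card_roots).symm
  have hne : f.roots ≠ 0 := fun h => hd (by rw [← hc, h, Multiset.card_zero])
  have h4 := h3 hne
  rw [hc] at h4
  have hlc : f.leadingCoeff ≠ 0 := leadingCoeff_ne_zero.2 h0
  have e : f.eval x = f.leadingCoeff * (f.roots.map fun a => x - a).prod := by
    conv_lhs => rw [hsp.eq_prod_roots]
    rw [eval_mul, eval_C, eval_multiset_prod, Multiset.map_map]
    simp
  have h5 := hr (by rw [e]; exact mul_ne_zero hlc h2)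
  rw [e, v.map_mul hlc h2] at h5
  linarith

/-- The polynomial of an operator. -/
noncomputable def opol (p : ℕ) (M : ℝ → Ω) (s r : ℝ) (P : k[X]) (b : Ω) : Polynomial Ω :=
  (P.sum fun j a => C (algebraMap k Ω a * M (r - (p : ℝ) ^ j * s)) * X ^ p ^ j) - C b

theorem opol_eval (P : k[X]) (b x : Ω) :
    (opol p M s r P b).eval x = ev p M s r P x - b := by
  rw [opol, ev, eval_sub, eval_C, Polynomial.sum, Polynomial.sum, eval_finsetSum]
  congr 1
  refine Finset.sum_congr rfl fun j _ => ?_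
  rw [eval_mul, eval_C, eval_pow, eval_X]

theorem opol_mem (hM : ∀ g ∈ G, M g ∈ B) {P : k[X]} (hP : IsOp p G s r P) {b : Ω} (hb : b ∈ B) :
    opol p M s r P b ∈ PI B := by
  refine sub_mem (sum_mem fun j hj => ?_) (C_mem_PI hb)
  have hj0 : P.coeff j ≠ 0 := mem_support_iff.1 hj
  exact mul_mem (C_mem_PI (mul_mem (B.algebraMap_mem _) (hM _ (hP j hj0))))
    (pow_mem X_mem_PI _)

variable [hp : Fact p.Prime]

theorem opol_coeff (P : k[X]) (b : Ω) (m : ℕ) :
    (opol p M s r P b).coeff (p ^ m) =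
      algebraMap k Ω (P.coeff m) * M (r - (p : ℝ) ^ m * s) := by
  have hinj : ∀ i j : ℕ, p ^ i = p ^ j ↔ i = j := fun i j =>
    ⟨fun h => Nat.pow_right_injective hp.out.two_le h, fun h => by rw [h]⟩
  rw [opol, coeff_sub, coeff_C, if_neg (pow_ne_zero m hp.out.ne_zero), sub_zero, Polynomial.sum,
    finsetSum_coeff]
  rw [Finset.sum_eq_single m]
  · rw [coeff_C_mul_X_pow, if_pos rfl]
  · intro j _ hj
    rw [coeff_C_mul_X_pow, if_neg fun h => hj ((hinj _ _).1 h).symm]
  · intro h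
    rw [notMem_support_iff.1 h, map_zero, zero_mul, C_0, zero_mul, coeff_zero]

theorem opol_natDegree_le (P : k[X]) (b : Ω) : (opol p M s r P b).natDegree ≤ p ^ P.natDegree := by
  rw [opol]
  refine (natDegree_sub_le _ _).trans (max_le ?_ ?_)
  · rw [Polynomial.sum]
    refine natDegree_sum_le_of_forall_le _ _ fun j hj => ?_
    refine (natDegree_C_mul_le _ _).trans ?_
    rw [natDegree_X_pow]
    exact Nat.pow_le_pow_right hp.out.pos (le_natDegree_of_mem_supp j hj)
  · rw [natDegree_C]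
    exact Nat.zero_le _

/-- **The approximation by an algebraic element.** -/
theorem exists_alg_near [IsAlgClosed Ω] (hk : Ctx0 k v) (hMS : MS v G M) (hM : ∀ g ∈ G, M g ∈ B)
    {P : k[X]} (hP0 : P ≠ 0) (hP : IsOp p G s r P) (h : Nr v B r (ev p M s r P x)) :
    ∃ θ ∈ TWM.algc B, v.Ge s (x - θ) := by
  obtain ⟨b, hb, h1⟩ := h
  have hlc : P.coeff P.natDegree ≠ 0 := by
    rw [coeff_natDegree]
    exact leadingCoeff_ne_zero.2 hP0
  have hc0 : algebraMap k Ω (P.coeff P.natDegree) ≠ 0 := by rwa [Ne, _root_.map_eq_zero]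
  have hG := hP _ hlc
  have hM0 := hMS.ne _ hG
  have h2 : (opol p M s r P b).coeff (p ^ P.natDegree) ≠ 0 := by
    rw [opol_coeff P b P.natDegree]
    exact mul_ne_zero hc0 hM0
  have h3 : (opol p M s r P b).natDegree = p ^ P.natDegree :=
    natDegree_eq_of_le_of_coeff_ne_zero (opol_natDegree_le P b) h2
  have h4 : opol p M s r P b ≠ 0 := fun h => h2 (by rw [h, coeff_zero])
  obtain ⟨θ, h5, h6⟩ := near_rootF (v := v) (x := x) (s := s) (r := r) h4
    (by rw [h3]; exact pow_ne_zero _ hp.out.ne_zero) (by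
      rw [leadingCoeff, h3, opol_coeff P b P.natDegree, v.map_mul hc0 hM0, hk.triv _ hlc,
        hMS.val _ hG]
      push_cast
      linarith) (by rw [opol_eval]; exact h1)
  exact ⟨θ, mem_algc.2 (isAlgebraic_root (opol_mem hM hP hb) h4 h5), h6⟩

omit hp in
/-- The distance of `θ`, algebraic over `A`, to the closure of `A(z)` is its distance to `A`. -/
theorem dist_algF [IsAlgClosed Ω] {z : Ω} (h : TL v A z s) (hθ : θ ∈ TWM.algc A)
    (hw : w ∈ cadj v A z) {b : ℝ} (hb : v.Ge b (θ - w)) : ∃ c ∈ A, v.Ge b (θ - c) := by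
  obtain ⟨f, hf, h1⟩ := h.dense hw b
  set F : Polynomial Ω := Polynomial.C θ - f with hF
  have hFm : F ∈ PI (TWM.algc A) := sub_mem (C_mem_PI hθ) (PI_mono (le_algc A) hf)
  have hFu : v.Ge b (F.eval z) := by
    rw [hF, eval_sub, eval_C]
    have := hb.add h1
    rwa [sub_add_sub_cancel] at this
  by_cases h0 : F = 0
  · obtain ⟨c, hc, -⟩ := h.lim 1 one_pos
    refine ⟨f.eval c, eval_mem hf hc, ?_⟩
    have h2 : θ - f.eval c = F.eval c := by rw [hF, eval_sub, eval_C]
    rw [h2, h0, eval_zero]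
    exact RVal.Ge.zero
  · obtain ⟨δ, hδ, h2⟩ := h.near_val hFm h0
    obtain ⟨c, hc, h3⟩ := h.lim δ hδ
    obtain ⟨-, h4⟩ := h2 c h3
    refine ⟨f.eval c, eval_mem hf hc, ?_⟩
    have h5 : θ - f.eval c = F.eval c := by rw [hF, eval_sub, eval_C]
    rw [h5]
    intro _
    rw [h4]
    exact hFu (h.eval_ne hFm h0)

omit hp in
theorem algc_monoF (h : A ≤ B) : TWM.algc A ≤ TWM.algc B :=
  fun _ hx => mem_algc.2 (D2P.isAlgebraic_mono h (mem_algc.1 hx))

omit hp in
theorem TowR.dist_alg [IsAlgClosed Ω] {n : ℕ} (h : TowR v n A B) (hθ : θ ∈ TWM.algc A)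
    (hw : w ∈ B) {b : ℝ} (hb : v.Ge b (θ - w)) : ∃ c ∈ A, v.Ge b (θ - c) := by
  induction h with
  | zero _ => exact ⟨w, hw, hb⟩
  | @succ n A B z s hz _ ih =>
    obtain ⟨c, hc, h1⟩ := ih (algc_monoF (le_cadj v A z) hθ) hw
    exact dist_algF hz hθ hc h1

/-- **Towers have no torsion.** -/
theorem TowR.torsion [IsAlgClosed Ω] (hk : Ctx0 k v) {n : ℕ} (h : TowR v n B T) (hMS : MS v G M)
    (hM : ∀ g ∈ G, M g ∈ B) {P : k[X]} (hP0 : P ≠ 0) (hP : IsOp p G s r P) (hx : x ∈ T)
    (hr : Nr v B r (ev p M s r P x)) : Nr v B s x := by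
  obtain ⟨θ, h1, h2⟩ := exists_alg_near hk hMS hM hP0 hP hr
  obtain ⟨c, hc, h3⟩ := TowR.dist_alg h h1 hx (b := s) (ge_sub_comm h2)
  refine ⟨c, hc, ?_⟩
  have e : x - c = (x - θ) + (θ - c) := by ring
  rw [e]
  exact h2.add h3

/-- The same for the radius `0` and the operators without monomials. -/
theorem TowR.torsion0 [IsAlgClosed Ω] (hk : Ctx0 k v) {n : ℕ} (h : TowR v n B T) {P : k[X]}
    (hP0 : P ≠ 0) (hx : x ∈ T) (hr : Nr v B 0 (ev p (fun _ => (1 : Ω)) 0 0 P x)) :
    Nr v B 0 x := by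
  refine TowR.torsion (G := ⊥) (M := fun _ => (1 : Ω)) hk h ⟨fun _ _ => one_ne_zero, ?_, ?_⟩
    (fun _ _ => one_mem B) hP0 (fun j _ => ?_) hx hr
  · intro g hg
    rw [AddSubgroup.mem_bot] at hg
    rw [hg]
    exact v.map_one
  · intro _ _ _ _
    rw [one_mul]
  · rw [mul_zero, sub_zero]
    exact zero_mem _

/-- **`FTB` of a tower.** -/
theorem TowR.ftb [IsAlgClosed Ω] [Fact (Ctx0 k v)] {n : ℕ} (h : TowR v n B T) : FTB p v T B := by
  intro Y hY _ hr
  refine TowR.torsion0 (p := p) (P := (X : k[X])) Fact.out h X_ne_zero hY ?_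
  have e : ev p (fun _ => (1 : Ω)) 0 0 (X : k[X]) Y = Y ^ p := by
    have h1 := ev_mono (k := k) (p := p) (M := fun _ => (1 : Ω)) (s := 0) (r := 0) 1 1 Y
    rw [map_one, one_mul, pow_one, pow_one] at h1
    rw [h1, map_one, one_mul, one_mul]
  rwa [e]

end Pool.Agent.TWIV
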