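import Pool.Agent.Lib.TWC.HSx

/-!
# TANK W, leaf (IV), row A6: the graded perfect field, hull polynomials, the contraction lemma

* `Rt p n`: the `p ^ n`-th root;
* `GrP`: the graded perfect field, `pr c` the projection to the part of degree `c`;
* `HullP`: the properties of the reduced hull polynomials which are used;
* `Contr.hull`: the contraction lemma.
-/

set_option autoImplicit false
set_option linter.unusedSectionVars false

open Polynomial

namespace Pool.Agent.TWIV

open Pool.Agent.H15JM (RVal)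
open Pool.Agent.TWC (Nul)
open Pool.Agent.TWM (Gt)

universe u

variable {k H : Type u} [Field k] [Field H] [Algebra k H] {v : RVal H} (p : ℕ) [hp : Fact p.Prime]
  [CharP H p] [PerfectRing H p] {A : Type*} [AddCommGroup A] {pr : A → H →ₗ[k] H}

/-! ### Roots -/

/-- the `p ^ n`-th root -/
noncomputable def Rt (n : ℕ) (x : H) : H := (iterateFrobeniusEquiv H p n).symm x

theorem Rt_pow (n : ℕ) (x : H) : (Rt p n x) ^ p ^ n = x :=
  (iterateFrobeniusEquiv H p n).apply_symm_apply x

theorem Rt_of_pow (n : ℕ) (x : H) : Rt p n (x ^ p ^ n) = x :=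
  (iterateFrobeniusEquiv H p n).symm_apply_apply x

theorem Rt_add (n : ℕ) (x y : H) : Rt p n (x + y) = Rt p n x + Rt p n y :=
  map_add (iterateFrobeniusEquiv H p n).symm x y

theorem Rt_sub (n : ℕ) (x y : H) : Rt p n (x - y) = Rt p n x - Rt p n y :=
  map_sub (iterateFrobeniusEquiv H p n).symm x y

theorem Rt_neg (n : ℕ) (x : H) : Rt p n (-x) = -Rt p n x :=
  map_neg (iterateFrobeniusEquiv H p n).symm x

theorem Rt_mul (n : ℕ) (x y : H) : Rt p n (x * y) = Rt p n x * Rt p n y :=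
  map_mul (iterateFrobeniusEquiv H p n).symm x y

theorem Rt_zero (n : ℕ) : Rt p n (0 : H) = 0 :=
  map_zero (iterateFrobeniusEquiv H p n).symm

theorem Rt_sum {ι : Type*} (n : ℕ) (s : Finset ι) (f : ι → H) :
    Rt p n (∑ i ∈ s, f i) = ∑ i ∈ s, Rt p n (f i) :=
  map_sum (iterateFrobeniusEquiv H p n).symm f s

theorem Rt_Rt (m n : ℕ) (x : H) : Rt p m (Rt p n x) = Rt p (m + n) x :=
  (iterateFrobeniusEquiv_symm_add_apply H p m n x).symm

theorem Rt_idx_zero (x : H) : Rt p 0 x = x := by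
  have h := Rt_of_pow p 0 x
  rwa [pow_zero, pow_one] at h

/-- `F^-(m+n) F^n = F^-m` -/
theorem Rt_add_pow (m n : ℕ) (x : H) : Rt p (m + n) (x ^ p ^ n) = Rt p m x := by
  rw [← Rt_Rt, Rt_of_pow]

/-- `F^-m F^(m+n) = F^n` -/
theorem Rt_pow_add (m n : ℕ) (x : H) : Rt p m (x ^ p ^ (m + n)) = x ^ p ^ n := by
  rw [pow_add, mul_comm, pow_mul, Rt_of_pow]

omit [PerfectRing H p] in
theorem ge_pow' {n : ℕ} {b : ℝ} {x : H} (h : v.Ge b x) : v.Ge (p ^ n * b) (x ^ p ^ n) := by
  intro h0
  have h1 : x ≠ 0 := fun h2 => h0 (by rw [h2, zero_pow (pow_pos hp.out.pos n).ne'])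
  rw [v.map_pow h1]
  push_cast
  exact mul_le_mul_of_nonneg_left (h h1) (by positivity)

theorem ge_Rt {n : ℕ} {b : ℝ} {x : H} (h : v.Ge b x) : v.Ge (b / p ^ n) (Rt p n x) := by
  intro h0
  have h1 : x ≠ 0 := fun h2 => h0 (by rw [h2, Rt_zero])
  have h2 := h h1
  have h3 : v x = p ^ n * v (Rt p n x) := by
    conv_lhs => rw [← Rt_pow p n x]
    rw [v.map_pow h0]
    push_cast
    rfl
  have h4 : (0 : ℝ) < p ^ n := by
    have := hp.out.pos
    positivity
  rw [div_le_iff₀ h4]
  rw [h3] at h2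
  linarith

/-! ### The graded perfect field -/

/-- The graded perfect field. -/
structure GrP (v : RVal H) (pr : A → H →ₗ[k] H) : Prop where
  one : pr 0 1 = 1
  mul : ∀ c d g h, pr (c + d) (pr c g * h) = pr c g * pr d h
  ge : ∀ b c h, v.Ge b h → v.Ge b (pr c h)
  frob : ∀ c x, pr c (Rt p 1 (pr (p • c) x)) = pr c (Rt p 1 x)

namespace GrP

variable {p} (h : GrP p v pr)

include h

theorem idem (c : A) (x : H) : pr c (pr c x) = pr c x := by
  have h1 := h.mul c 0 x 1
  rwa [add_zero, mul_one, h.one, mul_one] at h1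

/-- the product of homogeneous elements -/
theorem mul_mem {c d : A} {x y : H} (hx : pr c x = x) (hy : pr d y = y) :
    pr (c + d) (x * y) = x * y := by
  have h1 := h.mul c d x y
  rwa [hx, hy] at h1

theorem pow_mem {c : A} {x : H} (hx : pr c x = x) (n : ℕ) : pr (n • c) (x ^ n) = x ^ n := by
  induction n with
  | zero => rw [zero_smul, pow_zero, h.one]
  | succ n ih =>
    rw [succ_nsmul, pow_succ]
    exact h.mul_mem ih hx

/-- a homogeneous factor -/
theorem mul_left {c d : A} {x y : H} (hx : pr c x = x) : pr d (x * y) = x * pr (d - c) y := by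
  have h1 := h.mul c (d - c) x y
  rwa [hx, add_sub_cancel] at h1

theorem mul_right {c d : A} {x y : H} (hx : pr c x = x) : pr d (y * x) = pr (d - c) y * x := by
  rw [mul_comm, h.mul_left hx, mul_comm]

theorem frobN (n : ℕ) (c : A) (x : H) : pr c (Rt p n (pr (p ^ n • c) x)) = pr c (Rt p n x) := by
  induction n generalizing c with
  | zero => rw [pow_zero, one_smul, Rt_idx_zero, Rt_idx_zero, h.idem]
  | succ n ih =>
    have e : p ^ (n + 1) • c = p ^ n • (p • c) := by rw [pow_succ, mul_smul]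
    rw [add_comm n 1, ← Rt_Rt, ← Rt_Rt, ← h.frob c, add_comm 1 n, e, ih (p • c), h.frob c]

end GrP

/-! ### Hull polynomials -/

/-- `Red w x`: `x` is a reduced hull polynomial, all the weights are `≤ w`. -/
structure HullP (v : RVal H) (pr : A → H →ₗ[k] H) (Red : ℝ → H → Prop) : Prop where
  zero : ∀ w, 0 ≤ w → Red w 0
  mono : ∀ w w' x, w ≤ w' → Red w x → Red w' x
  add : ∀ w x y, Red w x → Red w y → Red w (x + y)
  smul : ∀ w (c : k) x, Red w x → Red w (algebraMap k H c * x)
  frob : ∀ w x, Red w x → Red (p * w) (x ^ p)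
  root : ∀ w x, Red w x → Red (w / p) (Rt p 1 x)
  pr : ∀ w c x, Red w x → Red w (pr c x)
  /-- (U), modulo the maximal ideal -/
  const : ∀ w x, Red w x → v.Ge 0 x → ∃ c : k, Gt v 0 (x - algebraMap k H c)

namespace HullP

variable {p} {Red : ℝ → H → Prop} (h : HullP p v pr Red)

include h

theorem neg {w : ℝ} {x : H} (hx : Red w x) : Red w (-x) := by
  have h1 := h.smul w (-1) x hx
  rwa [map_neg, map_one, neg_one_mul] at h1

theorem sum {ι : Type*} {w : ℝ} (hw : 0 ≤ w) (s : Finset ι) (f : ι → H)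
    (hf : ∀ i ∈ s, Red w (f i)) : Red w (∑ i ∈ s, f i) := by
  classical
  induction s using Finset.induction_on with
  | empty => rw [Finset.sum_empty]; exact h.zero w hw
  | insert a s ha ih =>
    rw [Finset.sum_insert ha]
    exact h.add w _ _ (hf a (Finset.mem_insert_self a s))
      (ih fun i hi => hf i (Finset.mem_insert_of_mem hi))

theorem frobN {w : ℝ} {x : H} (hx : Red w x) (n : ℕ) : Red (p ^ n * w) (x ^ p ^ n) := by
  induction n with
  | zero => rwa [pow_zero, pow_zero, one_mul, pow_one]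
  | succ n ih =>
    rw [pow_succ p n, pow_mul]
    have h1 := h.frob _ _ ih
    have e : (p : ℝ) * ((p : ℝ) ^ n * w) = (p : ℝ) ^ (n + 1) * w := by ring
    rwa [e] at h1

theorem rootN {w : ℝ} {x : H} (hx : Red w x) (n : ℕ) : Red (w / p ^ n) (Rt p n x) := by
  induction n with
  | zero => rwa [pow_zero, div_one, Rt_idx_zero]
  | succ n ih =>
    rw [add_comm n 1, ← Rt_Rt]
    have h1 := h.root _ _ ih
    have e : w / (p : ℝ) ^ n / (p : ℝ) = w / (p : ℝ) ^ (1 + n) := by
      rw [div_div, ← pow_succ, add_comm]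
    rwa [e] at h1

end HullP

/-! ### The contraction lemma -/

/-- The operators `Ψ M` of families contract the gaps and the weights. -/
structure Contr (v : RVal H) (Red : ℝ → H → Prop) (Ψ : ℕ → (ℕ → H) → ℕ → H) (B : ℕ) : Prop where
  sub : ∀ M x y j, Ψ M (fun i => x i - y i) j = Ψ M x j - Ψ M y j
  ge : ∀ M x g, 0 ≤ g → (∀ i, v.Ge (-g) (x i)) → ∀ j, v.Ge (-(g / p)) (Ψ M x j)
  stab : ∃ M₀, ∀ x, (∀ i, B < i → x i = 0) → ∀ M, M₀ ≤ M → ∀ j, Ψ M x j = Ψ M₀ x j
  supp : ∀ x, (∀ i, B < i → x i = 0) → ∀ M j, B < j → Ψ M x j = 0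
  red : ∀ w M x, 0 ≤ w → (∀ i, Red w (x i)) → ∀ j, Red (w / p) (Ψ M x j)

namespace Contr

variable {p} {Red : ℝ → H → Prop} {Ψ : ℕ → (ℕ → H) → ℕ → H} {B : ℕ}

omit [PerfectRing H p] [CharP H p] in
theorem map_zero (h : Contr p v Red Ψ B) (M j : ℕ) : Ψ M (fun _ => 0) j = 0 := by
  have h1 := h.sub M (fun _ => 0) (fun _ => 0) j
  rwa [sub_self, sub_self] at h1

omit [PerfectRing H p] [CharP H p] in
theorem map_add (h : Contr p v Red Ψ B) (M : ℕ) (x y : ℕ → H) (j : ℕ) :
    Ψ M (fun i => x i + y i) j = Ψ M x j + Ψ M y j := by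
  have h1 := h.sub M (fun _ => 0) y j
  have h2 := h.sub M x (fun i => 0 - y i) j
  simp only [zero_sub, sub_neg_eq_add] at h1 h2
  rw [h2, h1, h.map_zero M j, zero_sub, sub_neg_eq_add]

omit [PerfectRing H p] [CharP H p] in
theorem map_sum (h : Contr p v Red Ψ B) (M : ℕ) (x : ℕ → ℕ → H) (n j : ℕ) :
    Ψ M (fun i => ∑ m ∈ Finset.range n, x m i) j = ∑ m ∈ Finset.range n, Ψ M (x m) j := by
  induction n with
  | zero => simp only [Finset.range_zero, Finset.sum_empty]; exact h.map_zero M j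
  | succ n ih =>
    simp only [Finset.sum_range_succ]
    rw [h.map_add M (fun i => ∑ m ∈ Finset.range n, x m i) (x n) j, ih]

omit [PerfectRing H p] [CharP H p] in
/-- **The contraction lemma.** `x = h + Ψ x` modulo `O`, `h` a reduced hull polynomial: `x` is a
hull sum. -/
theorem hull (h : Contr p v Red Ψ B) {x t : ℕ → H} {g W : ℝ} (hg : 0 < g)
    (hx : ∀ j, v.Ge (-g) (x j)) (hW : 0 ≤ W) (ht : ∀ j, Red W (t j)) (htg : ∀ j, v.Ge (-g) (t j))
    (htB : ∀ j, B < j → t j = 0)
    (hrel : ∀ j, ∀ ε : ℝ, 0 < ε → ∃ M₀, ∀ M, M₀ ≤ M → v.Ge (-ε) (x j - t j - Ψ M x j)) :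
    ∃ P : ℕ → ℕ → H, ∀ n j, Red (W / p ^ n) (P n j) ∧ v.Ge (-(g / p ^ n)) (P n j) ∧
      v.Ge (-(g / p ^ n)) (x j - ∑ i ∈ Finset.range n, P i j) := by
  have hp0 : (0 : ℝ) < p := by exact_mod_cast hp.out.pos
  obtain ⟨M₀, hM₀⟩ := h.stab
  set P : ℕ → ℕ → H := fun n => (Ψ M₀)^[n] t with hP
  have hPs : ∀ n, P (n + 1) = Ψ M₀ (P n) := fun n => by
    simp only [hP]
    exact Function.iterate_succ_apply' _ _ _
  have hB : ∀ n j, B < j → P n j = 0 := by
    intro n
    induction n with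
    | zero => exact htB
    | succ n ih => intro j hj; rw [hPs]; exact h.supp _ ih _ _ hj
  have hdiv : ∀ (c : ℝ) (n : ℕ), c / (p : ℝ) ^ n / p = c / (p : ℝ) ^ (n + 1) := fun c n => by
    rw [div_div, ← pow_succ]
  have hR : ∀ n j, Red (W / p ^ n) (P n j) := by
    intro n
    induction n with
    | zero => intro j; rw [pow_zero, div_one]; exact ht j
    | succ n ih =>
      intro j
      rw [hPs, ← hdiv]
      exact h.red _ _ _ (by positivity) ih j
  have hG : ∀ n j, v.Ge (-(g / p ^ n)) (P n j) := by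
    intro n
    induction n with
    | zero => intro j; rw [pow_zero, div_one]; exact htg j
    | succ n ih =>
      intro j
      rw [hPs, ← hdiv]
      exact h.ge _ _ _ (by positivity) ih j
  refine ⟨P, fun n => ?_⟩
  suffices h1 : ∀ j, v.Ge (-(g / p ^ n)) (x j - ∑ i ∈ Finset.range n, P i j) from
    fun j => ⟨hR n j, hG n j, h1 j⟩
  induction n with
  | zero =>
    intro j
    rw [pow_zero, div_one, Finset.sum_range_zero, sub_zero]
    exact hx j
  | succ n ih =>
    intro j
    obtain ⟨M₁, hM₁⟩ := hrel j (g / p ^ (n + 1)) (by positivity)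
    set M := max M₀ M₁ with hM
    have h1 := hM₁ M (le_max_right _ _)
    have h2 := h.ge M (fun i => x i - ∑ m ∈ Finset.range n, P m i) _ (by positivity) ih j
    rw [hdiv] at h2
    have h3 : Ψ M (fun i => x i - ∑ m ∈ Finset.range n, P m i) j =
        Ψ M x j - ∑ m ∈ Finset.range n, P (m + 1) j := by
      rw [h.sub, h.map_sum]
      congr 1
      refine Finset.sum_congr rfl fun m _ => ?_
      rw [hM₀ (P m) (hB m) M (le_max_left _ _) j, hPs]
    rw [h3] at h2
    have h4 : x j - ∑ i ∈ Finset.range (n + 1), P i j =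
        (x j - t j - Ψ M x j) + (Ψ M x j - ∑ m ∈ Finset.range n, P (m + 1) j) := by
      rw [Finset.sum_range_succ' (fun i => P i j)]
      have h5 : P 0 j = t j := rfl
      rw [h5]
      ring
    rw [h4]
    exact h1.add h2

end Contr

end Pool.Agent.TWIV
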