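import Pool.Agent.Lib.TWIV.Floor2
import Pool.Agent.Lib.TWIV.Contr
import Pool.Agent.Lib.D2.Ctx0

/-!
# TANK W, leaf (IV), floor 2, rank `r`: the space `H / (E + O)`

* `GrE`: `E` is perfect, graded, and for `e ∈ E` and a degree `c` the `pr_c F^(-n) e` are in `O`
  for large `n`;
* `EO`: the space `E + O`; `fq`, `pq c`: `F` and `pr c` on `H / (E + O)`;
* `nosys`: there is no system in `H / (E + O)`.
-/

set_option autoImplicit false
set_option linter.unusedSectionVars false

open Polynomial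

namespace Pool.Agent.TWIV

open Pool.Agent.H15JM (RVal)
open Pool.Agent.D2 (Ctx0)

universe u

variable {k H : Type u} [Field k] [Field H] [Algebra k H] {v : RVal H} (p : ℕ) [hp : Fact p.Prime]
  [CharP k p] [PerfectRing k p] [CharP H p] [PerfectRing H p]
  {A : Type*} [AddCommGroup A] {pr : A → H →ₗ[k] H}

/-- A graded perfect base. -/
structure GrE (v : RVal H) (pr : A → H →ₗ[k] H) (E : IntermediateField k H) : Prop where
  gr : GrP p v pr
  orth : ∀ c d x, c ≠ d → pr c (pr d x) = 0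
  perf : ∀ x ∈ E, Rt p 1 x ∈ E
  mem : ∀ c, ∀ x ∈ E, pr c x ∈ E
  fin : ∀ e ∈ E, ∀ c : A, ∃ n₀ : ℕ, ∀ n, n₀ ≤ n → v.Ge 0 (pr c (Rt p n e))

variable (k) in
/-- The space `E + O`. -/
def EO (hk : Ctx0 k v) (E : IntermediateField k H) : Submodule k H where
  carrier := {x | ∃ e ∈ E, v.Ge 0 (x - e)}
  add_mem' := by
    rintro x y ⟨e, he, h1⟩ ⟨f, hf, h2⟩
    refine ⟨e + f, add_mem he hf, ?_⟩
    rw [add_sub_add_comm]
    exact h1.add h2
  zero_mem' := ⟨0, zero_mem E, by rw [sub_zero]; exact RVal.Ge.zero⟩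
  smul_mem' := by
    rintro a x ⟨e, he, h1⟩
    refine ⟨a • e, E.smul_mem he, ?_⟩
    rw [← smul_sub, Algebra.smul_def]
    have h2 := RVal.Ge.mul (hk.ge a) h1
    rwa [add_zero] at h2

theorem mem_EO {hk : Ctx0 k v} {E : IntermediateField k H} {x : H} :
    x ∈ EO k hk E ↔ ∃ e ∈ E, v.Ge 0 (x - e) := Iff.rfl

theorem Rt_smul (a : k) (x : H) :
    Rt p 1 (a • x) = (frobeniusEquiv k p).symm a • Rt p 1 x := by
  have h1 : (Rt p 1 (a • x)) ^ p = ((frobeniusEquiv k p).symm a • Rt p 1 x) ^ p := by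
    have h2 := Rt_pow p 1 (a • x)
    have h3 := Rt_pow p 1 x
    rw [pow_one] at h2 h3
    rw [h2, Algebra.smul_def, Algebra.smul_def, mul_pow, h3, ← map_pow]
    congr 2
    exact (frobeniusEquiv_symm_pow_p k p a).symm
  exact (frobenius_inj H p) h1

section Mod

variable {E : IntermediateField k H} (h : GrE p v pr E) (hk : Ctx0 k v)

include h

theorem GrE.pr_EO (c : A) {x : H} (hx : x ∈ EO k hk E) : pr c x ∈ EO k hk E := by
  obtain ⟨e, he, h1⟩ := hx
  refine ⟨pr c e, h.mem c e he, ?_⟩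
  rw [← map_sub]
  exact h.gr.ge 0 c _ h1

theorem GrE.Rt_EO {x : H} (hx : x ∈ EO k hk E) : Rt p 1 x ∈ EO k hk E := by
  obtain ⟨e, he, h1⟩ := hx
  refine ⟨Rt p 1 e, h.perf e he, ?_⟩
  rw [← Rt_sub]
  have h2 := ge_Rt p (n := 1) h1
  rwa [zero_div] at h2

omit h in
theorem pow_EO {x : H} (hx : x ∈ EO k hk E) : x ^ p ∈ EO k hk E := by
  obtain ⟨e, he, h1⟩ := hx
  refine ⟨e ^ p, pow_mem he p, ?_⟩
  rw [← sub_pow_char]
  have h2 := ge_pow' p (n := 1) h1
  rwa [mul_zero, pow_one] at h2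

/-- `F` on `H / (E + O)` -/
noncomputable def fq (E : IntermediateField k H) :
    (H ⧸ EO k hk E) →ₛₗ[frobenius k p] (H ⧸ EO k hk E) :=
  Submodule.mapQ (EO k hk E) (EO k hk E) (LinearMap.frobenius k H p) fun x hx => by
    rw [Submodule.mem_comap, LinearMap.frobenius_def]
    exact pow_EO p hk hx

omit h in
theorem fq_mk (x : H) : fq p hk E ((EO k hk E).mkQ x) = (EO k hk E).mkQ (x ^ p) := rfl

omit h in
theorem fq_it (n : ℕ) (x : H) :
    (fq p hk E)^[n] ((EO k hk E).mkQ x) = (EO k hk E).mkQ (x ^ p ^ n) := by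
  induction n generalizing x with
  | zero => rw [pow_zero, pow_one]; rfl
  | succ n ih => rw [Function.iterate_succ_apply, fq_mk, ih, ← pow_mul, ← pow_succ']

theorem GrE.fq_inj : Function.Injective (fq p hk E) := by
  rw [injective_iff_map_eq_zero]
  intro x hx
  obtain ⟨x, rfl⟩ := (EO k hk E).mkQ_surjective x
  rw [fq_mk, Submodule.mkQ_apply, Submodule.Quotient.mk_eq_zero] at hx
  rw [Submodule.mkQ_apply, Submodule.Quotient.mk_eq_zero]
  have h1 := h.Rt_EO p hk hx
  have h2 := Rt_of_pow p 1 x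
  rw [pow_one] at h2
  rwa [h2] at h1

/-- `pr c` on `H / (E + O)` -/
noncomputable def pq (c : A) : (H ⧸ EO k hk E) →ₗ[k] (H ⧸ EO k hk E) :=
  Submodule.mapQ (EO k hk E) (EO k hk E) (pr c) fun _ hx => h.pr_EO p hk c hx

theorem pq_mk (c : A) (x : H) : pq p h hk c ((EO k hk E).mkQ x) = (EO k hk E).mkQ (pr c x) := rfl

open Classical in
/-- `pr_c F^-1 pr_d` -/
theorem GrE.pr_Rt_pr (c d : A) (x : H) :
    pr c (Rt p 1 (pr d x)) = if d = p • c then pr c (Rt p 1 x) else 0 := by
  split_ifs with hd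
  · rw [hd, h.gr.frob]
  · rw [← h.gr.frob c (pr d x), h.orth _ _ _ (Ne.symm hd), Rt_zero, map_zero]

/-- the words of length `n` -/
noncomputable def Wd (pr : A → H →ₗ[k] H) (C : Finset A) {κ : Type*} (e : κ → H) (n : ℕ) :
    Submodule k H :=
  Submodule.span k {x | ∃ c ∈ C, ∃ j, Rt p 1 (pr c (Rt p n (e j))) = x}

theorem GrE.Wd_step {C : Finset A} {κ : Type*} {e : κ → H} {n : ℕ} {x : H}
    (hx : x ∈ Wd p pr C e n) {c : A} (hc : c ∈ C) : Rt p 1 (pr c x) ∈ Wd p pr C e (n + 1) := by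
  rw [Wd] at hx
  induction hx using Submodule.span_induction with
  | mem x hx =>
    obtain ⟨d, -, j, rfl⟩ := hx
    rw [h.pr_Rt_pr p c d]
    split_ifs
    · rw [Rt_Rt, add_comm]
      exact Submodule.subset_span ⟨c, hc, j, rfl⟩
    · rw [Rt_zero]
      exact zero_mem _
  | zero => rw [map_zero, Rt_zero]; exact zero_mem _
  | add x y _ _ hx hy => rw [map_add, Rt_add]; exact add_mem hx hy
  | smul a x _ hx => rw [map_smul, Rt_smul]; exact Submodule.smul_mem _ _ hx

/-- the operator -/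
noncomputable def PhH (pr : A → H →ₗ[k] H) (C : Finset A) {κ : Type*} [Fintype κ]
    (lam : κ → A → κ → k) (x : κ → H) (i : κ) : H :=
  Rt p 1 (∑ c ∈ C, ∑ j, lam i c j • pr c (x j))

omit [CharP k p] [PerfectRing k p] h in
theorem PhH_add (C : Finset A) {κ : Type*} [Fintype κ] (lam : κ → A → κ → k) (x y : κ → H) :
    PhH p pr C lam (fun j => x j + y j) = fun i => PhH p pr C lam x i + PhH p pr C lam y i := by
  funext i
  rw [PhH, PhH, PhH, ← Rt_add, ← Finset.sum_add_distrib]
  congr 1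
  refine Finset.sum_congr rfl fun c _ => ?_
  rw [← Finset.sum_add_distrib]
  refine Finset.sum_congr rfl fun j _ => ?_
  rw [map_add, smul_add]

omit [CharP k p] [PerfectRing k p] in
include hk in
theorem GrE.PhH_ge (C : Finset A) {κ : Type*} [Fintype κ] (lam : κ → A → κ → k) {x : κ → H}
    {b : ℝ} (hx : ∀ j, v.Ge b (x j)) (i : κ) : v.Ge (b / p) (PhH p pr C lam x i) := by
  have h1 : v.Ge b (∑ c ∈ C, ∑ j, lam i c j • pr c (x j)) := by
    refine RVal.Ge.sum _ _ fun c _ => RVal.Ge.sum _ _ fun j _ => ?_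
    rw [Algebra.smul_def]
    have h2 := RVal.Ge.mul (hk.ge (lam i c j)) (h.gr.ge b c _ (hx j))
    rwa [zero_add] at h2
  have h2 := ge_Rt p (n := 1) h1
  rwa [pow_one] at h2

omit [CharP k p] [PerfectRing k p] in
theorem GrE.PhH_mem (C : Finset A) {κ : Type*} [Fintype κ] (lam : κ → A → κ → k) {x : κ → H}
    (hx : ∀ j, x j ∈ E) (i : κ) : PhH p pr C lam x i ∈ E :=
  h.perf _ (sum_mem fun c _ => sum_mem fun j _ => E.smul_mem (h.mem c _ (hx j)))

theorem GrE.PhH_Wd (C : Finset A) {κ : Type*} [Fintype κ] (lam : κ → A → κ → k) {e x : κ → H}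
    {n : ℕ} (hx : ∀ j, x j ∈ Wd p pr C e n) (i : κ) :
    PhH p pr C lam x i ∈ Wd p pr C e (n + 1) := by
  rw [PhH, Rt_sum]
  refine sum_mem fun c hc => ?_
  rw [Rt_sum]
  refine sum_mem fun j _ => ?_
  rw [Rt_smul]
  exact Submodule.smul_mem _ _ (h.Wd_step p (hx j) hc)

include hk in
/-- the words of `e ∈ E` are in `O` from some length on -/
theorem GrE.Wd_ge (C : Finset A) {κ : Type*} [Fintype κ] {e : κ → H} (he : ∀ j, e j ∈ E) :
    ∃ n₀ : ℕ, ∀ n, n₀ ≤ n → ∀ x ∈ Wd p pr C e n, v.Ge 0 x := by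
  classical
  choose N hN using fun (x : κ × A) => h.fin (e x.1) (he x.1) x.2
  refine ⟨(Finset.univ ×ˢ C).sup N, fun n hn x hx => ?_⟩
  have h1 : ∀ j, ∀ c ∈ C, v.Ge 0 (pr c (Rt p n (e j))) := fun j c hc =>
    hN (j, c) n ((Finset.le_sup (f := N) (Finset.mem_product.2 ⟨Finset.mem_univ j, hc⟩ :
      (j, c) ∈ Finset.univ ×ˢ C)).trans hn)
  rw [Wd] at hx
  induction hx using Submodule.span_induction with
  | mem x hx =>
    obtain ⟨c, hc, j, rfl⟩ := hx
    have h2 := ge_Rt p (n := 1) (h1 j c hc)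
    rwa [zero_div] at h2
  | zero => exact RVal.Ge.zero
  | add x y _ _ hx hy => exact hx.add hy
  | smul a x _ hx =>
    rw [Algebra.smul_def]
    have h2 := RVal.Ge.mul (hk.ge a) hx
    rwa [zero_add] at h2

omit [CharP k p] [PerfectRing k p] in
include hk in
/-- **Systems over `E`**: the solutions are in `E + O`. -/
theorem GrE.sys_mem [CharP k p] [PerfectRing k p] (C : Finset A) {κ : Type*} [Fintype κ]
    (lam : κ → A → κ → k) {x e : κ → H}
    (he : ∀ i, e i ∈ E) (hx : ∀ i, v.Ge 0 (x i ^ p - (∑ c ∈ C, ∑ j, lam i c j • pr c (x j)) - e i))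
    (i : κ) : ∃ w ∈ E, v.Ge 0 (x i - w) := by
  classical
  have hp0 : (0 : ℝ) < p := by exact_mod_cast hp.out.pos
  -- the scalars of the operator in the form of roots
  set o : κ → H := fun i => x i ^ p - (∑ c ∈ C, ∑ j, lam i c j • pr c (x j)) - e i with ho
  have h1 : ∀ i, x i = PhH p pr C lam x i + Rt p 1 (e i) + Rt p 1 (o i) := by
    intro i
    have h2 := Rt_of_pow p 1 (x i)
    rw [pow_one] at h2
    rw [PhH, ← Rt_add, ← Rt_add, ho]
    conv_lhs => rw [← h2]
    congr 1
    ring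
  -- the approximations
  let w : ℕ → κ → H := fun M => Nat.rec (fun _ => 0)
    (fun _ w i => PhH p pr C lam w i + Rt p 1 (e i)) M
  have hw0 : ∀ i, w 0 i = 0 := fun i => rfl
  have hws : ∀ M i, w (M + 1) i = PhH p pr C lam (w M) i + Rt p 1 (e i) := fun M i => rfl
  have hwE : ∀ M i, w M i ∈ E := by
    intro M
    induction M with
    | zero =>
      intro i
      rw [hw0]
      exact zero_mem _
    | succ M ih =>
      intro i
      rw [hws]
      exact add_mem (h.PhH_mem p C lam ih i) (h.perf _ (he i))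
  -- the bound
  obtain ⟨K, hK0, hK⟩ : ∃ K : ℝ, 0 ≤ K ∧ ∀ i, v.Ge (-K) (x i) := by
    refine ⟨∑ i, |v (x i)|, Finset.sum_nonneg fun i _ => abs_nonneg _, fun i h0 => ?_⟩
    have h3 := Finset.single_le_sum (f := fun i => |v (x i)|) (fun i _ => abs_nonneg _)
      (Finset.mem_univ i)
    have h4 := neg_abs_le (v (x i))
    linarith
  have hd : ∀ M i, v.Ge (-K / (p : ℝ) ^ M) (x i - w M i) := by
    intro M
    induction M with
    | zero =>
      intro i
      rw [hw0, sub_zero, pow_zero, div_one]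
      exact hK i
    | succ M ih =>
      intro i
      have h2 : x i - w (M + 1) i = PhH p pr C lam (fun j => x j - w M j) i + Rt p 1 (o i) := by
        have h3 := congrFun (PhH_add p (pr := pr) C lam (fun j => x j - w M j) (w M)) i
        simp only [sub_add_cancel] at h3
        rw [hws]
        conv_lhs => rw [h1 i, h3]
        ring
      rw [h2]
      have h3 := h.PhH_ge p hk C lam ih i
      have h4 := ge_Rt p (n := 1) (hx i)
      rw [zero_div] at h4
      rw [div_div, ← pow_succ] at h3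
      refine h3.add (h4.mono ?_)
      rw [neg_div]
      have : 0 ≤ K / (p : ℝ) ^ (M + 1) := by positivity
      linarith
  -- the differences
  have hδ : ∀ M i, w (M + 1 + 1) i - w (M + 1) i ∈ Wd p pr C e (M + 1) := by
    intro M
    induction M with
    | zero =>
      intro i
      have h3 : w (0 + 1 + 1) i - w (0 + 1) i = PhH p pr C lam (fun j => Rt p 1 (e j)) i := by
        rw [hws (0 + 1), hws 0]
        have h4 := congrFun (PhH_add p (pr := pr) C lam (w 0) (fun j => Rt p 1 (e j))) i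
        have h5 : (fun j => w 0 j + Rt p 1 (e j)) = fun j => Rt p 1 (e j) := by
          funext j
          rw [hw0, zero_add]
        have h6 : PhH p pr C lam (w 0) i = 0 := by
          rw [h5] at h4
          exact left_eq_add.1 (by rw [add_comm]; exact h4)
        have h7 : w (0 + 1) = fun j => Rt p 1 (e j) := by
          funext j
          have h8 := congrFun (PhH_add p (pr := pr) C lam (w 0) (fun j => Rt p 1 (e j))) j
          rw [h5] at h8
          rw [hws 0 j]
          have h9 : PhH p pr C lam (w 0) j = 0 := left_eq_add.1 (by rw [add_comm]; exact h8)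
          rw [h9, zero_add]
        rw [h7, h6]
        ring
      rw [h3, PhH, Rt_sum]
      refine sum_mem fun c hc => ?_
      rw [Rt_sum]
      refine sum_mem fun j _ => ?_
      rw [Rt_smul]
      exact Submodule.smul_mem _ _ (Submodule.subset_span ⟨c, hc, j, rfl⟩)
    | succ M ih =>
      intro i
      have h3 : w (M + 1 + 1 + 1) i - w (M + 1 + 1) i =
          PhH p pr C lam (fun j => w (M + 1 + 1) j - w (M + 1) j) i := by
        have h4 := congrFun (PhH_add p (pr := pr) C lam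
          (fun j => w (M + 1 + 1) j - w (M + 1) j) (w (M + 1))) i
        simp only [sub_add_cancel] at h4
        rw [hws (M + 1 + 1), hws (M + 1)]
        conv_lhs => rw [show PhH p pr C lam (w (M + 1 + 1)) i = _ from h4]
        ring
      rw [h3]
      exact h.PhH_Wd p C lam ih i
  obtain ⟨n₀, hn₀⟩ := h.Wd_ge p hk C he
  have hO : ∀ M i, v.Ge 0 (w (n₀ + 1 + M) i - w (n₀ + 1) i) := by
    intro M
    induction M with
    | zero => exact fun i => by rw [add_zero, sub_self]; exact RVal.Ge.zero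
    | succ M ih =>
      intro i
      have h3 : w (n₀ + 1 + (M + 1)) i - w (n₀ + 1) i =
          (w (n₀ + M + 1 + 1) i - w (n₀ + M + 1) i) + (w (n₀ + 1 + M) i - w (n₀ + 1) i) := by
        rw [show n₀ + 1 + (M + 1) = n₀ + M + 1 + 1 by ring, show n₀ + M + 1 = n₀ + 1 + M by ring]
        ring
      rw [h3]
      exact (hn₀ (n₀ + M + 1) (by omega) _ (hδ (n₀ + M) i)).add (ih i)
  refine ⟨w (n₀ + 1) i, hwE (n₀ + 1) i, fun h0 => ?_⟩
  refine le_of_forall_pos_le_add fun ε hε => ?_
  obtain ⟨M, hM⟩ := exists_nat_gt (K / ε)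
  have h4 : v.Ge (-ε) (x i - w (n₀ + 1) i) := by
    have h5 : x i - w (n₀ + 1) i = (x i - w (n₀ + 1 + M) i) + (w (n₀ + 1 + M) i - w (n₀ + 1) i) := by
      ring
    rw [h5]
    refine ((hd (n₀ + 1 + M) i).mono ?_).add ((hO M i).mono (by linarith))
    rw [neg_div, neg_le_neg_iff, div_le_iff₀ (by positivity)]
    have h6 : (M : ℝ) ≤ (p : ℝ) ^ (n₀ + 1 + M) := by
      have h7 : M < p ^ M := Nat.lt_pow_self hp.out.one_lt
      have h8 : p ^ M ≤ p ^ (n₀ + 1 + M) := Nat.pow_le_pow_right hp.out.pos (by omega)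
      exact_mod_cast (h7.le.trans h8)
    rw [div_lt_iff₀ hε] at hM
    nlinarith
  have h5 := h4 h0
  linarith

/-- **There is no system in `H / (E + O)`.** -/
theorem GrE.nosys : NoSys (fq p hk E) (pq p h hk) := by
  classical
  intro U hU C hUC
  obtain ⟨S, hS⟩ := hU
  choose lift hlift using (EO k hk E).mkQ_surjective
  have hU' : U = Submodule.span k (Set.range fun i : {x // x ∈ S} => (i : H ⧸ EO k hk E)) := by
    rw [← hS]
    congr 1
    ext x
    simp
  have h1 : ∀ i : {x // x ∈ S}, ∃ lam : A → {x // x ∈ S} → k,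
      fq p hk E (i : H ⧸ EO k hk E) = ∑ c ∈ C, ∑ j, lam c j • pq p h hk c (j : H ⧸ EO k hk E) := by
    intro i
    have h2 := hUC (i : H ⧸ EO k hk E) (by rw [← hS]; exact Submodule.subset_span i.2)
    rw [Submodule.mem_iSup_finset_iff_exists_sum] at h2
    obtain ⟨μ, hμ⟩ := h2
    have h3 : ∀ c, ∃ lam : {x // x ∈ S} → k,
        (μ c : H ⧸ EO k hk E) = ∑ j, lam j • pq p h hk c (j : H ⧸ EO k hk E) := by
      intro c
      obtain ⟨u, hu, hu2⟩ := (μ c).2
      rw [SetLike.mem_coe, hU'] at hu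
      obtain ⟨lam, hlam⟩ := (Submodule.mem_span_range_iff_exists_fun k).1 hu
      refine ⟨lam, ?_⟩
      rw [← hu2, ← hlam, map_sum]
      exact Finset.sum_congr rfl fun j _ => map_smul _ _ _
    choose lam hlam using h3
    refine ⟨lam, ?_⟩
    rw [← hμ]
    exact Finset.sum_congr rfl fun c _ => hlam c
  choose lam hlam using h1
  have h2 : ∀ i : {x // x ∈ S}, lift (i : H ⧸ EO k hk E) ^ p -
      (∑ c ∈ C, ∑ j, lam i c j • pr c (lift (j : H ⧸ EO k hk E))) ∈ EO k hk E := by
    intro i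
    rw [← Submodule.Quotient.mk_eq_zero, ← Submodule.mkQ_apply, map_sub, ← fq_mk, hlift, hlam,
      sub_eq_zero, map_sum]
    refine Finset.sum_congr rfl fun c _ => ?_
    rw [map_sum]
    refine Finset.sum_congr rfl fun j _ => ?_
    rw [map_smul, ← pq_mk p h hk, hlift]
  choose e he hge using h2
  have h3 : ∀ i : {x // x ∈ S}, (i : H ⧸ EO k hk E) = 0 := by
    intro i
    have h4 := h.sys_mem p hk C lam he hge i
    rw [← hlift (i : H ⧸ EO k hk E), Submodule.mkQ_apply, Submodule.Quotient.mk_eq_zero]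
    exact h4
  rw [← hS, Submodule.span_eq_bot]
  exact fun x hx => h3 ⟨x, hx⟩

end Mod

end Pool.Agent.TWIV
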