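import Pool.Agent.Lib.TWIV.HFW
import Pool.Agent.Lib.TWIV.Fl2H

/-!
# TANK W, leaf (IV): the graded perfect base in the Hahn field

`HM G` : the closure of `k(t ^ g : g ∈ G)` in the Hahn field.
* `dense_HM`: its elements are near to finite sums `∑ a_g t ^ g`;
* `grE_HM`: it is a graded perfect base, if `G` is `p`-divisible and no `g ≠ 0` of `G` has all its
  parts `g / p ^ n` in `Γ`;
* `H0 Γ`: the closed field of the elements of degree `0`.
-/

set_option autoImplicit false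
set_option linter.unusedSectionVars false

open Polynomial

namespace Pool.Agent.TWIV

open Pool.Agent.H15JM (RVal)
open Pool.Agent.D2 (Ctx0)
open Pool.Agent.TWM Pool.Agent.TWC Pool.Agent.TWS

universe u

variable {k : Type u} [Field k]

/-! ### The dense sums -/

/-- The closure of `k(t ^ g : g ∈ G)`. -/
noncomputable def HM (k : Type u) [Field k] (G : AddSubgroup ℝ) : IntermediateField k (HF k) :=
  PM (hv k) ⊥ G (mon k)

theorem mon_zero : mon k 0 = 1 := rfl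

theorem mon_mul (g h : ℝ) : mon k (g + h) = mon k g * mon k h :=
  (ms_hv k).mul g trivial h trivial

theorem ms_mon (G : AddSubgroup ℝ) : MS (hv k) G (mon k) := TWS.MS.mono (ms_hv k) le_top

theorem monG_bot (G : AddSubgroup ℝ) : MonG (hv k) (⊥ : IntermediateField k (HF k)) G (mon k) where
  ms := ms_mon G
  mem g _ h := by
    obtain ⟨a, ha, h0, h1⟩ := h
    obtain ⟨c, rfl⟩ := IntermediateField.mem_bot.1 ha
    have h2 : g = 0 := by
      rw [← h1]
      exact (ctx0_hv k).triv c fun h3 => h0 (by rw [h3, map_zero])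
    rw [h2, mon_zero]
    exact one_mem _

theorem imm_self (A : IntermediateField k (HF k)) : Imm (hv k) A A where
  le := le_rfl
  imm b hb _ := ⟨b, hb, fun h => absurd (sub_self b) h⟩

theorem dense_HM {G : AddSubgroup ℝ} {x : HF k} (hx : x ∈ HM k G) (b : ℝ) :
    ∃ (S : Finset ℝ) (a : ℝ → k), (∀ g ∈ S, g ∈ G) ∧
      (hv k).Ge b (x - ∑ g ∈ S, a g • mon k g) := by
  obtain ⟨L, hL, h1⟩ := dense_PM (monG_bot G) (imm_self _) hx b
  have h2 : ∀ g, ∃ a : k, algebraMap k (HF k) a = L g := fun g =>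
    IntermediateField.mem_bot.1 (hL.mem g)
  choose a ha using h2
  refine ⟨L.support, a, fun g hg => (hL.rep g (Finsupp.mem_support_iff.1 hg)).1, ?_⟩
  have h3 : ∑ g ∈ L.support, a g • mon k g = evM (mon k) L := by
    rw [evM, Finsupp.sum]
    exact Finset.sum_congr rfl fun g _ => by rw [Algebra.smul_def, ha]
  rwa [h3]

theorem mon_mem {G : AddSubgroup ℝ} {g : ℝ} (hg : g ∈ G) : mon k g ∈ HM k G := PM.mon hg

theorem cld_HM (G : AddSubgroup ℝ) : Cld (hv k) (HM k G) := PM.cld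

theorem HM.of_near {G : AddSubgroup ℝ} {x : HF k}
    (h : ∀ b : ℝ, ∃ y ∈ HM k G, (hv k).Ge b (x - y)) : x ∈ HM k G :=
  cld_HM G (fun b => by
    obtain ⟨y, hy, h1⟩ := h b
    exact ⟨y, hy, h1⟩)

theorem sum_mem_HM {G : AddSubgroup ℝ} {S : Finset ℝ} {a : ℝ → k} (h : ∀ g ∈ S, g ∈ G) :
    ∑ g ∈ S, a g • mon k g ∈ HM k G :=
  sum_mem fun g hg => (HM k G).smul_mem (mon_mem (h g hg))

/-! ### The graded perfect base -/

theorem resS_mon (S : Set ℝ) (g : ℝ) [Decidable (g ∈ S)] :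
    resS S (mon k g) = if g ∈ S then mon k g else 0 := by
  refine cof_ext fun γ => ?_
  split_ifs with h0
  · by_cases h : γ ∈ S
    · exact cof_resS_of_mem h _
    · rw [cof_resS_of_notMem h, cof_mon, if_neg]
      rintro rfl
      exact h h0
  · rw [cof_zero]
    by_cases h : γ ∈ S
    · rw [cof_resS_of_mem h, cof_mon, if_neg]
      rintro rfl
      exact h0 h
    · exact cof_resS_of_notMem h _

theorem resS_mem (S : Set ℝ) {G : AddSubgroup ℝ} {x : HF k} (hx : x ∈ HM k G) :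
    resS S x ∈ HM k G := by
  classical
  refine HM.of_near fun b => ?_
  obtain ⟨T, a, hT, h1⟩ := dense_HM hx b
  refine ⟨resS S (∑ g ∈ T, a g • mon k g), ?_, ?_⟩
  · rw [map_sum]
    refine sum_mem fun g hg => ?_
    rw [map_smul, resS_mon]
    refine (HM k G).smul_mem ?_
    split_ifs
    · exact mon_mem (hT g hg)
    · exact zero_mem _
  · rw [← map_sub]
    exact resS_ge S h1

section Perf

variable (p : ℕ) [hp : Fact p.Prime] [CharP k p] [PerfectRing k p] [CharP (HF k) p]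
  [PerfectRing (HF k) p]

theorem Rt_smul_mon (n : ℕ) (a : k) (g : ℝ) :
    Rt p n (a • mon k g) = (iterateFrobeniusEquiv k p n).symm a • mon k (g / p ^ n) := by
  have h0 : ((p : ℝ) ^ n) ≠ 0 := pow_ne_zero _ (Nat.cast_ne_zero.2 hp.out.ne_zero)
  have h1 : a • mon k g = ((iterateFrobeniusEquiv k p n).symm a • mon k (g / p ^ n)) ^ p ^ n := by
    rw [Algebra.smul_def, Algebra.smul_def, mul_pow, ← map_pow, mon_pow]
    congr 2
    · exact ((iterateFrobeniusEquiv k p n).apply_symm_apply a).symm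
    · push_cast
      field_simp
  rw [h1, Rt_of_pow]

theorem HM.perf {G : AddSubgroup ℝ} (hG : ∀ g ∈ G, g / p ∈ G) {x : HF k} (hx : x ∈ HM k G) :
    Rt p 1 x ∈ HM k G := by
  refine HM.of_near fun b => ?_
  obtain ⟨T, a, hT, h1⟩ := dense_HM hx (p * b)
  refine ⟨Rt p 1 (∑ g ∈ T, a g • mon k g), ?_, ?_⟩
  · rw [Rt_sum]
    refine sum_mem fun g hg => ?_
    rw [Rt_smul_mon, pow_one]
    exact (HM k G).smul_mem (mon_mem (hG g (hT g hg)))
  · rw [← Rt_sub]
    have h2 := ge_Rt (p := p) (n := 1) h1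
    rwa [pow_one, mul_div_cancel_left₀ _ (Nat.cast_ne_zero.2 hp.out.ne_zero)] at h2

/-- The divisors of `g` leave every class. -/
theorem exists_class {G Γ : AddSubgroup ℝ}
    (hfin : ∀ g ∈ G, g ≠ 0 → ∃ n : ℕ, g / (p : ℝ) ^ n ∉ Γ) {g : ℝ} (hg : g ∈ G) (h0 : g ≠ 0)
    (c : ℝ ⧸ Γ) : ∃ n₀ : ℕ, ∀ n, n₀ ≤ n → ((g / (p : ℝ) ^ n : ℝ) : ℝ ⧸ Γ) ≠ c := by
  have hp0 : (p : ℝ) ≠ 0 := Nat.cast_ne_zero.2 hp.out.ne_zero
  by_contra hno
  push Not at hno
  -- infinitely many `n`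
  obtain ⟨n₁, -, h1⟩ := hno 0
  -- `(p ^ d - 1) g / p ^ m ∈ Γ`
  obtain ⟨n₂, h2, h3⟩ := hno (n₁ + 1)
  -- multiplication by `p`
  have hmul : ∀ (x : ℝ) (i : ℕ), x ∈ Γ → (p : ℝ) ^ i * x ∈ Γ := by
    intro x i hx
    have h4 := Γ.nsmul_mem hx (p ^ i)
    rwa [nsmul_eq_mul, Nat.cast_pow] at h4
  set q : ℕ := p ^ (n₂ - n₁) - 1 with hq
  have hq1 : 1 < p ^ (n₂ - n₁) := Nat.one_lt_pow (by omega) hp.out.one_lt
  have hq0 : 0 < q := by omega
  have hcop : Nat.Coprime q p := by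
    have h4 : Nat.Coprime q (p ^ (n₂ - n₁)) := by
      have h5 : p ^ (n₂ - n₁) = q + 1 := by omega
      rw [h5]
      exact (Nat.coprime_self_add_right.2 (Nat.coprime_one_right q))
    exact Nat.Coprime.coprime_dvd_right (dvd_pow_self p (by omega)) h4
  -- `q g ∈ Γ`
  have hqg : (q : ℝ) * g ∈ Γ := by
    have h4 : g / (p : ℝ) ^ n₁ - g / (p : ℝ) ^ n₂ ∈ Γ := by
      have h5 : ((g / (p : ℝ) ^ n₁ : ℝ) : ℝ ⧸ Γ) = ((g / (p : ℝ) ^ n₂ : ℝ) : ℝ ⧸ Γ) := h1.trans h3.symm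
      have h6 := QuotientAddGroup.eq.1 h5.symm
      rwa [neg_add_eq_sub] at h6
    have h5 := hmul _ n₂ h4
    have h6 : (p : ℝ) ^ n₂ * (g / (p : ℝ) ^ n₁ - g / (p : ℝ) ^ n₂) = (q : ℝ) * g := by
      have h7 : (q : ℝ) = (p : ℝ) ^ (n₂ - n₁) - 1 := by
        rw [hq, Nat.cast_sub hq1.le]
        push_cast
        ring
      have h8 : (p : ℝ) ^ n₂ = (p : ℝ) ^ n₁ * (p : ℝ) ^ (n₂ - n₁) := by
        rw [← pow_add]
        congr 1
        omega
      rw [h7, h8]
      field_simp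
    rwa [h6] at h5
  -- all the `q g / p ^ n` are in `Γ`
  have hqn : (q : ℝ) * g ≠ 0 := mul_ne_zero (Nat.cast_ne_zero.2 hq0.ne') h0
  have hqG : (q : ℝ) * g ∈ G := by
    have h4 := G.nsmul_mem hg q
    rwa [nsmul_eq_mul] at h4
  obtain ⟨n, hn⟩ := hfin _ hqG hqn
  apply hn
  -- `m ≥ n` and `m' > m` with the same class
  obtain ⟨m, hm, h4⟩ := hno n
  obtain ⟨m', hm', h5⟩ := hno (m + 1)
  set d := m' - m with hd
  have h6 : g / (p : ℝ) ^ m - g / (p : ℝ) ^ m' ∈ Γ := by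
    have h7 : ((g / (p : ℝ) ^ m : ℝ) : ℝ ⧸ Γ) = ((g / (p : ℝ) ^ m' : ℝ) : ℝ ⧸ Γ) := h4.trans h5.symm
    have h8 := QuotientAddGroup.eq.1 h7.symm
    rwa [neg_add_eq_sub] at h8
  -- `(p ^ d - 1) g / p ^ m' ∈ Γ`, the order is prime to `p`; Bezout
  have hr1 : 1 < p ^ d := Nat.one_lt_pow (by omega) hp.out.one_lt
  have h7 : ((p ^ d - 1 : ℕ) : ℝ) * (g / (p : ℝ) ^ m') ∈ Γ := by
    have h8 : ((p ^ d - 1 : ℕ) : ℝ) * (g / (p : ℝ) ^ m') =
        g / (p : ℝ) ^ m - g / (p : ℝ) ^ m' := by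
      have h9 : (p : ℝ) ^ m' = (p : ℝ) ^ m * (p : ℝ) ^ d := by
        rw [← pow_add]
        congr 1
        omega
      rw [Nat.cast_sub hr1.le, h9]
      push_cast
      field_simp
    rw [h8]
    exact h6
  have h8 : (q : ℝ) * (g / (p : ℝ) ^ m') ∈ Γ := by
    -- the element `w = q g / p ^ m'` is killed by `p ^ d - 1` and by `p ^ m'`
    set w := (q : ℝ) * (g / (p : ℝ) ^ m') with hw
    have e1 : ((p ^ d - 1 : ℕ) : ℝ) * w ∈ Γ := by
      have h9 := Γ.nsmul_mem h7 q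
      rw [nsmul_eq_mul] at h9
      have e : ((p ^ d - 1 : ℕ) : ℝ) * w = (q : ℝ) * (((p ^ d - 1 : ℕ) : ℝ) * (g / (p : ℝ) ^ m')) := by
        rw [hw]; ring
      rw [e]; exact h9
    have e2 : ((p ^ m' : ℕ) : ℝ) * w ∈ Γ := by
      have e : ((p ^ m' : ℕ) : ℝ) * w = (q : ℝ) * g := by
        rw [hw]
        push_cast
        field_simp
      rw [e]; exact hqg
    have h9 : Nat.Coprime (p ^ d - 1) (p ^ m') := by
      have h10 : Nat.Coprime (p ^ d - 1) (p ^ d) := by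
        have h11 : p ^ d = (p ^ d - 1) + 1 := by omega
        conv_rhs => rw [h11]
        exact (Nat.coprime_self_add_right.2 (Nat.coprime_one_right _))
      exact Nat.Coprime.pow_right _ (Nat.Coprime.coprime_dvd_right (dvd_pow_self p (by omega)) h10)
    have h10 := Nat.isCoprime_iff_coprime.2 h9
    obtain ⟨a, b, hab⟩ := h10
    have h11 : w = (a : ℝ) * (((p ^ d - 1 : ℕ) : ℝ) * w) + (b : ℝ) * (((p ^ m' : ℕ) : ℝ) * w) := by
      have h12 : ((a * ((p ^ d - 1 : ℕ) : ℤ) + b * ((p ^ m' : ℕ) : ℤ) : ℤ) : ℝ) = 1 := by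
        rw [hab]; norm_num
      rw [Int.cast_add, Int.cast_mul, Int.cast_mul, Int.cast_natCast, Int.cast_natCast] at h12
      linear_combination (-w) * h12
    rw [h11]
    have h12 := Γ.zsmul_mem e1 a
    have h13 := Γ.zsmul_mem e2 b
    rw [zsmul_eq_mul] at h12 h13
    exact Γ.add_mem h12 h13
  have h9 := hmul _ (m' - n) h8
  have e : (p : ℝ) ^ (m' - n) * ((q : ℝ) * (g / (p : ℝ) ^ m')) = (q : ℝ) * g / (p : ℝ) ^ n := by
    have h10 : (p : ℝ) ^ m' = (p : ℝ) ^ (m' - n) * (p : ℝ) ^ n := by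
      rw [← pow_add]
      congr 1
      omega
    rw [h10]
    field_simp
  rwa [e] at h9

/-- **The graded perfect base.** -/
theorem grE_HM {G Γ : AddSubgroup ℝ} (hG : ∀ g ∈ G, g / p ∈ G)
    (hfin : ∀ g ∈ G, g ≠ 0 → ∃ n : ℕ, g / (p : ℝ) ^ n ∉ Γ) :
    GrE p (hv k) (hpr (k := k) Γ) (HM k G) where
  gr := grP_hpr p Γ
  orth _ _ x h := hpr_orth x h
  perf _ hx := HM.perf p hG hx
  mem _ _ hx := resS_mem _ hx
  fin e he c := by
    classical
    obtain ⟨T, a, hT, h1⟩ := dense_HM he 0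
    have h2 : ∀ g, g ∈ T → ∃ n₀ : ℕ, ∀ n, n₀ ≤ n →
        (hv k).Ge 0 (hpr Γ c (Rt p n (a g • mon k g))) := by
      intro g hg
      by_cases h0 : g = 0
      · refine ⟨0, fun n _ => ?_⟩
        rw [Rt_smul_mon, h0, zero_div, mon_zero, Algebra.smul_def, mul_one]
        exact (grP_hpr p Γ).ge 0 c _ ((ctx0_hv k).ge _)
      · obtain ⟨n₀, hn⟩ := exists_class p hfin (hT g hg) h0 c
        refine ⟨n₀, fun n h3 => ?_⟩
        rw [Rt_smul_mon, map_smul, hpr, resS_mon,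
          if_neg (show ¬ (g / (p : ℝ) ^ n ∈ {g : ℝ | (g : ℝ ⧸ Γ) = c}) from hn n h3), smul_zero]
        exact RVal.Ge.zero
    choose n₀ hn using h2
    refine ⟨T.attach.sup fun g => n₀ g.1 g.2, fun n h3 => ?_⟩
    have e1 : Rt p n e = Rt p n (e - ∑ g ∈ T, a g • mon k g) +
        ∑ g ∈ T, Rt p n (a g • mon k g) := by
      rw [Rt_sub, Rt_sum]
      ring
    rw [e1, map_add, map_sum]
    refine RVal.Ge.add ?_ (RVal.Ge.sum _ _ fun g hg => hn g hg n ?_)
    · have h4 := ge_Rt (p := p) (n := n) h1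
      rw [zero_div] at h4
      exact (grP_hpr p Γ).ge 0 c _ h4
    · exact (Finset.le_sup (f := fun g : T => n₀ g.1 g.2) (Finset.mem_attach T ⟨g, hg⟩)).trans h3

/-- the part of negative support -/
theorem negP_HM (G Γ : AddSubgroup ℝ) : NegP p (hv k) (hpr Γ) (HM k G) (nuH k) :=
  negP_hv p Γ fun x hx => by
    obtain ⟨S, a, hS, h1⟩ := dense_HM hx 0
    exact ⟨S, a, fun g hg => mon_mem (hS g hg), h1⟩

end Perf

/-! ### The field of the elements of degree `0` -/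

section P0

variable {p : ℕ} [hp : Fact p.Prime] {H : Type u} [Field H] [Algebra k H] {v : RVal H}
  [CharP H p] [PerfectRing H p] {A : Type*} [AddCommGroup A] {pr : A → H →ₗ[k] H}

/-- The field of the elements of degree `0`. -/
def GrP.P0 (h : GrP p v pr) : IntermediateField k H where
  carrier := {x | pr 0 x = x}
  mul_mem' := by
    intro x y hx hy
    have h1 := h.mul_mem (c := 0) (d := 0) hx hy
    rwa [add_zero] at h1
  add_mem' := by
    intro x y hx hy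
    change pr 0 (x + y) = x + y
    rw [map_add, hx, hy]
  algebraMap_mem' := by
    intro c
    change pr 0 (algebraMap k H c) = algebraMap k H c
    rw [Algebra.algebraMap_eq_smul_one, map_smul, h.one]
  inv_mem' := by
    intro x hx
    change pr 0 x⁻¹ = x⁻¹
    by_cases h0 : x = 0
    · rw [h0, inv_zero, map_zero]
    · have h1 := h.mul_left (d := 0) (y := x⁻¹) (show pr 0 x = x from hx)
      rw [mul_inv_cancel₀ h0, h.one, sub_zero] at h1
      exact (eq_inv_of_mul_eq_one_right h1.symm)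

theorem GrP.mem_P0 (h : GrP p v pr) {x : H} : x ∈ h.P0 ↔ pr 0 x = x := Iff.rfl

theorem GrP.cld_P0 (h : GrP p v pr) : Cld v h.P0 := by
  intro x hx
  refine TWC.eq_of_ge (v := v) fun b => ?_
  obtain ⟨y, hy, h1⟩ := hx b
  have h2 := (h.ge b 0 _ h1).sub h1
  have e : pr 0 (x - y) - (x - y) = pr 0 x - x := by
    rw [map_sub, show pr 0 y = y from hy]
    ring
  rwa [e] at h2

theorem GrP.pr_mem_P0 (h : GrP p v pr) (x : H) : pr 0 x ∈ h.P0 := h.idem 0 x

end P0

/-- The monomials of the values in `Γ` are of degree `0`. -/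
theorem mon_mem_P0 (p : ℕ) [hp : Fact p.Prime] [CharP (HF k) p]
    [PerfectRing (HF k) p] {Γ : AddSubgroup ℝ} {g : ℝ} (hg : g ∈ Γ) :
    mon k g ∈ (grP_hpr (k := k) p Γ).P0 := by
  classical
  rw [GrP.mem_P0, hpr, resS_mon, if_pos]
  exact (QuotientAddGroup.eq_zero_iff g).2 hg

end Pool.Agent.TWIV
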