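import Pool.Agent.Lib.TWIV.S6F

/-!
# TANK W, leaf (IV): the mixed part, VI (assembly)

`STO.spl`: the unknowns of the mixed part split, from the torsion property of the base, canonicity
and the property RAD of the set `RR`.
-/

set_option autoImplicit false
set_option linter.unusedSectionVars false

open Polynomial

namespace Pool.Agent.TWIV

open Pool.Agent.H15JM (RVal)
open Pool.Agent.D2 (Ctx0)
open Pool.Agent.TWM Pool.Agent.TWC

universe u

variable {k Ω : Type u} [Field k] [Field Ω] [Algebra k Ω] {v : RVal Ω} {E : IntermediateField k Ω}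
  {y z : Ω} {𝒜 : Submodule k (Module.End k Ω)} (p : ℕ) [Fact p.Prime] [CharP k p] [CharP Ω p]
  [IsAlgClosed Ω] {ι : Type} [Fintype ι] {N : ℕ} {φ : ι → ι → Module.End k Ω}
  {X : ι → ℕ → Polynomial Ω} {f : ι → Polynomial Ω} {w : ι → ℕ → ℕ → Ω} {RR : Submodule k Ω}

/-- **The mixed part.** -/
theorem STO.spl [Fact (Ctx0 k v)] [PerfectRing k p] (hO : OpA v 𝒜) (sy : Stb 𝒜 E y)
    (sz : Stb 𝒜 (cadj v E y) z) (hy : TL v E y 0) (hz : TL v (cadj v E y) z 0)
    (hres : ResR v (cadj v (cadj v E y) z)) (hcan : Can p v E (cadj v E y) z) (hE : Perf p E)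
    (hH : H1 p v E 𝒜) (hφ : ∀ j l, φ j l ∈ 𝒜)
    (hG : ∀ ε : ℝ, 0 < ε → ∃ g ∈ PI E, (∀ i, Hg z 𝒜 (g.coeff i * y ^ i)) ∧
      v.Ge (-ε) (z - g.eval y))
    (hR : RRd p E y 𝒜 RR)
    (hrad : ∀ r ∈ RR, Lim v (cadj v E y) 0 r →
      ∃ b ∈ cadj v E y, ∃ a, Lim v E 0 a ∧ v.Ge 0 (r - b - a))
    (h : STO p v E (cadj v E y) z N φ X f w) {D : ℕ} (hD : ∀ j n, (X j n).natDegree ≤ D)
    (j : ι) : ∃ b m, Spl v (cadj v E y) z (X j) b m := by
  classical
  obtain ⟨M, G, q, e0, f0, vt, hG0, h1, h2, h3, h4⟩ :=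
    h.mxd p hO sy sz hy hz hres hcan hE hH hφ
  have hq : ∀ j i, 1 ≤ i → i ≤ M → q j i = 0 := by
    by_contra hne
    push Not at hne
    obtain ⟨j, i, hi1, hiM, hq⟩ := hne
    obtain ⟨K, c, hK, hcK, r, hr, h5⟩ := h1.main p hy hz hO sy sz hG hR ⟨j, i, hi1, hiM, hq⟩
    set Q : Polynomial k := ∑ i ∈ Finset.range (K + 1), monomial i (if 1 ≤ i then c i else 0)
      with hQ
    have h6 : ly p z Q = ∑ i ∈ Finset.Icc 1 K, algebraMap k Ω (c i) * z ^ p ^ i := by
      rw [hQ, ly_monomial_sum]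
      symm
      refine Finset.sum_subset_zero_on_sdiff ?_ ?_ ?_
      · intro i hi
        have := (Finset.mem_Icc.1 hi).2
        exact Finset.mem_range.2 (by omega)
      · intro i hi
        rw [Finset.mem_sdiff, Finset.mem_range, Finset.mem_Icc] at hi
        have hi0 : ¬ 1 ≤ i := fun h => hi.2 ⟨h, by omega⟩
        rw [if_neg hi0, map_zero, zero_mul]
      · intro i hi
        rw [if_pos (Finset.mem_Icc.1 hi).1]
    have hrL : Lim v (cadj v E y) 0 r := by
      refine limz_ge (limz_ly p hO hz.lim Q) ?_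
      rw [h6]
      exact h5
    obtain ⟨b, hb, a, ha, h7⟩ := hrad r hr hrL
    have h8 : Q = 0 := by
      refine hcan Q (-b) (neg_mem hb) (limz_ge ha ?_)
      have h9 := (h5.add h7).neg
      rw [← h6] at h9
      have h10 : -(ly p z Q - r + (r - b - a)) = a - (ly p z Q + -b) := by ring
      rwa [h10] at h9
    have h9 := congrArg (fun P : Polynomial k => P.coeff K) h8
    rw [hQ] at h9
    simp only [finset_sum_coeff, coeff_monomial, coeff_zero] at h9
    rw [Finset.sum_ite_eq', if_pos (Finset.self_mem_range_succ K), if_pos hK] at h9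
    exact hcK h9
  obtain ⟨b, m, h5⟩ := h1.spl p hq hz h2
    (D := D + ∑ j, (G j).natDegree) (fun j n => by
      refine (natDegree_sub_le _ _).trans (max_le ((hD j n).trans (Nat.le_add_right _ _)) ?_)
      exact (Finset.single_le_sum (f := fun j => (G j).natDegree) (fun _ _ => Nat.zero_le _)
        (Finset.mem_univ j)).trans (Nat.le_add_left _ _)) h4 j
  refine ⟨b + G j, m, add_mem h5.mem (hG0 j), h5.cau, h5.nul.congr fun n => ?_⟩
  rw [eval_sub, eval_add]
  ring

end Pool.Agent.TWIV
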