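import Pool.Agent.Lib.TWIV.TrfA
import Pool.Agent.Lib.TWIV.HW
import Pool.Agent.Lib.TWIV.S6G

/-!
# TANK W, leaf (IV): transfer from the world to the Hahn field

`θ : Ω → HF k` isometric with `θ (M g) = t ^ g`.

* `map_PM`: the image of `PM v N G M` is `HM k G`;
* `map_floor`: the images of the floors;
* `Can.map`, `Can.of_hc`: canonicity.
-/

set_option autoImplicit false
set_option linter.unusedSectionVars false

open Polynomial

namespace Pool.Agent.TWIV

open Pool.Agent.H15JM (RVal)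
open Pool.Agent.D2 (Ctx0)
open Pool.Agent.D2P (clI)
open Pool.Agent.TWM Pool.Agent.TWC
open Pool.Agent.TWS

universe u

section Map

variable {k Ω : Type u} [Field k] [Field Ω] [Algebra k Ω] {v : RVal Ω} {θ : Ω →ₐ[k] HF k}
  {p : ℕ} {N L A B C T : IntermediateField k Ω} {G : AddSubgroup ℝ} {M : ℝ → Ω}

theorem map_adjoin_mon (hM : ∀ g ∈ G, θ (M g) = mon k g) :
    (IntermediateField.adjoin k (M '' (G : Set ℝ))).map θ =
      IntermediateField.adjoin k (mon k '' (G : Set ℝ)) := by
  rw [IntermediateField.adjoin_map, ← Set.image_comp]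
  congr 1
  refine Set.image_congr fun g hg => ?_
  exact hM g hg

/-- The image of `PM v A G M`. -/
theorem map_PM' (h : IsoE v (hv k) θ) (hc : CompleteV v) (hM : ∀ g ∈ G, θ (M g) = mon k g)
    (A : IntermediateField k Ω) :
    (PM v A G M).map θ = PM (hv k) (A.map θ) G (mon k) := by
  rw [PM, PM, ← h.clI_map hc, IntermediateField.map_sup, map_adjoin_mon hM]

theorem map_PM_bot (h : IsoE v (hv k) θ) (hc : CompleteV v) (hM : ∀ g ∈ G, θ (M g) = mon k g) :
    (PM v (⊥ : IntermediateField k Ω) G M).map θ = HM k G := by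
  rw [map_PM' h hc hM, IntermediateField.map_bot]
  rfl

/-- The images of the floors. -/
theorem map_floor (h : IsoE v (hv k) θ) (hc : CompleteV v) (z : Ω) :
    (cadj v A z).map θ = cadj (hv k) (A.map θ) (θ z) := (h.cadj_map hc A z).symm

/-- The image of the base. -/
theorem map_PM (h : IsoE v (hv k) θ) (hc : CompleteV v) (hM : ∀ g ∈ G, θ (M g) = mon k g)
    (hE : PM v N G M = PM v ⊥ G M) : (PM v N G M).map θ = HM k G := by
  rw [hE, map_PM_bot h hc hM]

end Map

section Can

variable {k Ω : Type u} [Field k] [Field Ω] [Algebra k Ω] {v : RVal Ω}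
  {E T : IntermediateField k Ω} {y z : Ω} (p : ℕ)

/-- Canonicity is transferred. -/
theorem Can.map {H : Type u} [Field H] [Algebra k H] {w : RVal H} {θ : Ω →ₐ[k] H}
    {B : IntermediateField k Ω} (h : IsoE v w θ) (hcan : Can p v E B z) :
    Can p w (E.map θ) (B.map θ) (θ z) := by
  rintro Q _ ⟨b, hb, rfl⟩ h1
  refine hcan Q b hb ?_
  have h2 : ly p (θ z) Q = θ (ly p z Q) := by
    rw [ly_eq p (θ z) Q (Nat.lt_succ_self _), ly_eq p z Q (Nat.lt_succ_self _), map_sum]
    refine Finset.sum_congr rfl fun a _ => ?_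
    rw [map_mul, AlgHom.commutes, map_pow]
  rw [h2] at h1
  have h3 : θ (ly p z Q) + (θ : Ω →+* H) b = θ (ly p z Q + b) := by
    rw [map_add]
    rfl
  have h4 : Lim w (E.map θ) 0 (θ (ly p z Q + b)) := by
    rw [← h3]
    exact h1
  exact h.lim_iff.1 h4

variable [hc : Fact (Ctx0 k v)] [Fact p.Prime] [CharP k p] [CharP Ω p] [IsAlgClosed Ω]

/-- Canonicity from `L_T(E) ⊆ E<y> + O`. -/
theorem Can.of_hc (hT : cadj v (cadj v E y) z ≤ T) (hz : TL v (cadj v E y) z 0)
    (h : ∀ Y ∈ T, Lim v E 0 Y → Nr v (cadj v E y) 0 Y) : Can p v E (cadj v E y) z := by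
  intro Q b hb h1
  by_contra hQ
  have hY : ly p z Q + b ∈ T :=
    hT (add_mem (ly_mem p (self_mem_cadj v _ z) Q) (le_cadj v _ z hb))
  obtain ⟨a, ha, h2⟩ := h _ hY h1
  refine not_tor_ly p hz hQ (sub_mem ha hb) ?_
  have h3 : ly p z Q + b - a = ly p z Q - (a - b) := by ring
  rwa [h3] at h2

end Can

end Pool.Agent.TWIV
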