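import Pool.Agent.Lib.TWIV.FG
import Pool.Agent.Lib.TWIV.A2P

/-!
# TANK W, leaf (IV), row A7.f, part 2: homogeneous generators in the world

`T = PM v L G M`, `B = PM v A G M`, `N ≤ A ≤ L`.

* `World.exists_hgens`: in a tower `T / B` the limits of `B` are generated by finitely many
  homogeneous elements `M (-r_i) w_i`, `w_i ∈ L`, `r_i ∈ G`;
* `World.inSpan_of_gens`: every homogeneous limit is in their homogeneous span;
* `World.exists_hfam`: both.
-/

set_option autoImplicit false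
set_option linter.unusedSectionVars false

open Finset Polynomial

namespace Pool.Agent.TWIV

open Pool.Agent.H15JM (RVal)
open Pool.Agent.D2 (Ctx0)
open Pool.Agent.TWM Pool.Agent.TWC Pool.Agent.TWS Pool.Agent.TWT

universe u

variable {k Ω : Type u} [Field k] [Field Ω] [Algebra k Ω] {v : RVal Ω} [hc : Fact (Ctx0 k v)]
  {N L A B : IntermediateField k Ω} {G : AddSubgroup ℝ} {M : ℝ → Ω} {p : ℕ} [hp : Fact p.Prime]
  [CharP Ω p]

theorem fev_ge (P : k[X]) {x : Ω} (hx : v.Ge 0 x) : v.Ge 0 (fev p P x) := by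
  refine RVal.Ge.sum _ _ fun a _ => ?_
  have h1 := (hc.out.ge (P.coeff a)).mul (ge_pow hx (p ^ a))
  rwa [mul_zero, zero_add] at h1

theorem fev_sum {ι : Type*} (S : Finset ι) (P : k[X]) (x : ι → Ω) :
    fev p P (∑ i ∈ S, x i) = ∑ i ∈ S, fev p P (x i) := by
  simp only [fev]
  rw [Finset.sum_comm]
  refine Finset.sum_congr rfl fun a _ => ?_
  rw [sum_pow_char_pow, Finset.mul_sum]

namespace World

variable (W : World p v N L G M)

include W

/-- **Homogeneous generators.** -/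
theorem exists_hgens [IsAlgClosed Ω] (hNA : N ≤ A) (hAL : A ≤ L) {n : ℕ}
    (hT : Tow v n (PM v A G M) (PM v L G M)) :
    ∃ (m : ℕ) (r : Fin m → ℝ) (w : Fin m → Ω), (∀ i, r i ∈ G) ∧
      (∀ i, w i ∈ L ∧ Lim v A (r i) (w i)) ∧
      ∀ x ∈ PM v L G M, Lim v (PM v A G M) 0 x → ∃ P : Fin m → k[X], ∃ b ∈ PM v A G M,
        v.Ge 0 (x - b - ∑ i, fev p (P i) (M (-r i) * w i)) := by
  classical
  obtain ⟨S, hS, hgen⟩ := Tow.exists_gens (p := p) hT
  choose Lf hNF hnear hlim using fun i => lim_homog W.mon (W.immA hNA hAL) W.imm hAL (hS i).1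
    (hS i).2
  -- the index set
  let ι := Σ i : Fin n, {g // g ∈ (Lf i).support}
  let eq := Fintype.equivFin ι
  refine ⟨Fintype.card ι, fun j => -((eq.symm j).2 : ℝ), fun j => Lf (eq.symm j).1 (eq.symm j).2,
    fun j => ?_, fun j => ⟨(hNF _).mem _, ?_⟩, fun x hx hl => ?_⟩
  · exact G.neg_mem ((hNF _).rep _ (Finsupp.mem_support_iff.1 (eq.symm j).2.2)).1
  · have := hlim _ _ (Finsupp.mem_support_iff.1 (eq.symm j).2.2)
    rwa [zero_sub] at this
  · obtain ⟨P, b, hb, h1⟩ := hgen x hx hl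
    refine ⟨fun j => P (eq.symm j).1, b, hb, ?_⟩
    have h2 : ∑ j : Fin (Fintype.card ι), fev p (P (eq.symm j).1)
        (M (- -((eq.symm j).2 : ℝ)) * Lf (eq.symm j).1 (eq.symm j).2) =
        ∑ i, fev p (P i) (evM M (Lf i)) := by
      rw [Equiv.sum_comp eq.symm (fun q : ι => fev p (P q.1)
        (M (- -(q.2 : ℝ)) * Lf q.1 q.2)), Fintype.sum_sigma]
      refine Finset.sum_congr rfl fun i _ => ?_
      rw [evM, Finsupp.sum, fev_sum, ← Finset.sum_coe_sort (Lf i).support]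
      refine Finset.sum_congr rfl fun g _ => ?_
      rw [neg_neg, mul_comm]
    rw [h2]
    have h3 : v.Ge 0 (∑ i, fev p (P i) (S i - evM M (Lf i))) :=
      RVal.Ge.sum _ _ fun i _ => fev_ge (P i) (hnear i)
    have h4 := h1.add h3
    simp only [fev_sub, Finset.sum_sub_distrib] at h4
    refine Eq.mp (congrArg (fun w => v.Ge 0 w) ?_) h4
    ring

/-- The powers of a monomial. -/
theorem M_pow {g : ℝ} (hg : g ∈ G) (a : ℕ) : M g ^ p ^ a = M ((p : ℝ) ^ a * g) := by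
  have h1 := W.ms.pow hg (p ^ a)
  push_cast at h1
  exact h1.symm

theorem pG {g : ℝ} (hg : g ∈ G) (a : ℕ) : (p : ℝ) ^ a * g ∈ G := by
  have := G.nsmul_mem hg (p ^ a)
  rw [nsmul_eq_mul] at this
  push_cast at this
  exact this

/-- **The homogeneous limits.** -/
theorem inSpan_of_gens (hΩ : CompleteV v) (hNA : N ≤ A)
    (hAL : A ≤ L) {m : ℕ} {r : Fin m → ℝ} {w : Fin m → Ω} (hr : ∀ i, r i ∈ G)
    (hw : ∀ i, w i ∈ L)
    (hgen : ∀ x ∈ PM v L G M, Lim v (PM v A G M) 0 x → ∃ P : Fin m → k[X], ∃ b ∈ PM v A G M,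
      v.Ge 0 (x - b - ∑ i, fev p (P i) (M (-r i) * w i)))
    (hA : Cld v A) {R : ℝ} (hR : R ∈ G) {y : Ω} (hy : y ∈ L) (hl : Lim v (PM v A G M) R y) :
    InSpan k p (VG v N) M (fun R x => x ∈ L ∧ Nr' v (PM v A G M) R x) r w Finset.univ R y := by
  classical
  have hMB : ∀ g ∈ G, M g ∈ PM v A G M := fun g hg => PM.mon hg
  have hMT : ∀ g ∈ G, M g ∈ PM v L G M := fun g hg => PM.mon hg
  have hAT : PM v A G M ≤ PM v L G M := PM.mono hAL
  have hyT : y ∈ PM v L G M := PM.le hy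
  have hlx : Lim v (PM v A G M) 0 (M (-R) * y) := by
    have := W.lim_scale (G.neg_mem hR) hMB hl
    rwa [add_neg_cancel] at this
  obtain ⟨P, b, hb, h1⟩ := hgen _ (mul_mem (hMT _ (G.neg_mem hR)) hyT) hlx
  -- multiplication by `M R`
  have hMR : v.Ge R (M R) := fun _ => (W.ms.val R hR).ge
  have h2 := hMR.mul h1
  rw [add_zero] at h2
  have hMM : M R * M (-R) = 1 := by
    rw [mul_comm]
    exact W.M_neg_mul hR
  have hterm : ∀ i, M R * fev p (P i) (M (-r i) * w i) =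
      ∑ a ∈ (P i).support, algebraMap k Ω ((P i).coeff a) *
        (w i ^ p ^ a * M (R - (p : ℝ) ^ a * r i)) := by
    intro i
    rw [fev, Finset.mul_sum]
    refine Finset.sum_congr rfl fun a _ => ?_
    rw [mul_pow, W.M_pow (G.neg_mem (hr i)), mul_neg, sub_eq_add_neg R,
      W.ms.mul R hR _ (G.neg_mem (W.pG (hr i) a))]
    ring
  have h3 : v.Ge R (y - M R * b - ∑ i, ∑ a ∈ (P i).support, algebraMap k Ω ((P i).coeff a) *
      (w i ^ p ^ a * M (R - (p : ℝ) ^ a * r i))) := by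
    refine Eq.mp (congrArg (fun w => v.Ge R w) ?_) h2
    rw [mul_sub, mul_sub, Finset.mul_sum, Finset.sum_congr rfl fun i _ => hterm i, ← mul_assoc,
      hMM, one_mul]
  have hgG : ∀ i a, R - (p : ℝ) ^ a * r i ∈ G := fun i a => G.sub_mem hR (W.pG (hr i) a)
  have htT : ∀ i a, algebraMap k Ω ((P i).coeff a) *
      (w i ^ p ^ a * M (R - (p : ℝ) ^ a * r i)) ∈ PM v L G M := fun i a =>
    mul_mem (IntermediateField.algebraMap_mem _ _)
      (mul_mem (pow_mem (PM.le (hw i)) _) (hMT _ (hgG i a)))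
  have hsT : ∑ i, ∑ a ∈ (P i).support, algebraMap k Ω ((P i).coeff a) *
      (w i ^ p ^ a * M (R - (p : ℝ) ^ a * r i)) ∈ PM v L G M :=
    sum_mem fun i _ => sum_mem fun a _ => htT i a
  have hMRb : M R * b ∈ PM v A G M := mul_mem (hMB R hR) hb
  -- the operators
  set Q : Fin m → k[X] := fun i => ∑ a ∈ (P i).support.filter
    (fun a => R - (p : ℝ) ^ a * r i ∈ VG v N), C ((P i).coeff a) * X ^ a with hQ
  have hcQ : ∀ i a, (Q i).coeff a ≠ 0 → R - (p : ℝ) ^ a * r i ∈ VG v N := by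
    intro i a ha
    by_contra hcon
    refine ha ?_
    rw [hQ]
    simp only [finsetSum_coeff, coeff_C_mul_X_pow]
    rw [Finset.sum_ite_eq, if_neg]
    intro h
    exact hcon (Finset.mem_filter.1 h).2
  -- the projection
  have hP := W.isPj hΩ 0
  have hπt : ∀ i a, W.pj hΩ 0 (algebraMap k Ω ((P i).coeff a) *
      (w i ^ p ^ a * M (R - (p : ℝ) ^ a * r i))) =
      if R - (p : ℝ) ^ a * r i ∈ VG v N then algebraMap k Ω ((P i).coeff a) *
      (w i ^ p ^ a * M (R - (p : ℝ) ^ a * r i)) else 0 := by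
    intro i a
    have hcL : algebraMap k Ω ((P i).coeff a) * w i ^ p ^ a ∈ PM v L (Gj p v N G 0) M :=
      PM.le (mul_mem (IntermediateField.algebraMap_mem _ _) (pow_mem (hw i) _))
    rw [← mul_assoc, hP.prj.lin _ hcL _ (hMT _ (hgG i a))]
    split_ifs with h
    · rw [hP.prj.self _ (PM.mon ⟨hgG i a, by rwa [pow_zero, one_mul]⟩)]
    · rw [hP.mon _ (hgG i a) fun h' => h (by
        have := h'.2
        rwa [pow_zero, one_mul] at this), mul_zero]
  have hπs : W.pj hΩ 0 (∑ i, ∑ a ∈ (P i).support, algebraMap k Ω ((P i).coeff a) *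
      (w i ^ p ^ a * M (R - (p : ℝ) ^ a * r i))) = ∑ i, ev p M (r i) R (Q i) (w i) := by
    rw [hP.prj.sum _ fun i _ => sum_mem fun a _ => htT i a]
    refine Finset.sum_congr rfl fun i _ => ?_
    rw [hP.prj.sum _ fun a _ => htT i a, Finset.sum_congr rfl fun a _ => hπt i a,
      ← Finset.sum_filter, hQ]
    simp only
    rw [ev_sum]
    refine Finset.sum_congr rfl fun a _ => ?_
    rw [ev_mono]
    ring
  have h4 : v.Ge R (y - W.pj hΩ 0 (M R * b) - ∑ i, ev p M (r i) R (Q i) (w i)) := by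
    have h5 := hP.prj.ge _ (sub_mem (sub_mem hyT (hAT hMRb)) hsT) R h3
    rw [hP.prj.sub (sub_mem hyT (hAT hMRb)) hsT, hP.prj.sub hyT (hAT hMRb), hπs,
      hP.prj.self y (PM.le hy)] at h5
    exact h5
  refine ⟨Q, fun i _ a ha => hcQ i a ha, ?_, ?_⟩
  · refine sub_mem hy (sum_mem fun i _ => ?_)
    refine sum_mem fun a ha => mul_mem (mul_mem (L.algebraMap_mem _) ?_) (pow_mem (hw i) _)
    exact W.NL (W.monΓ _ (hcQ i a (mem_support_iff.1 ha)))
  · refine W.nr_nr' hR hMB ⟨W.pj hΩ 0 (M R * b), W.pj_mem hΩ hNA hAL hA 0 hMRb, ?_⟩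
    refine Eq.mp (congrArg (fun w => v.Ge R w) ?_) h4
    ring

/-- **A finite homogeneous family which spans all the homogeneous limits.** -/
theorem exists_hfam [IsAlgClosed Ω] (hΩ : CompleteV v) (hNA : N ≤ A) (hAL : A ≤ L) (hA : Cld v A) {n : ℕ}
    (hT : Tow v n (PM v A G M) (PM v L G M)) :
    ∃ (m : ℕ) (r : Fin m → ℝ) (w : Fin m → Ω), (∀ i, r i ∈ G) ∧
      (∀ i, w i ∈ L ∧ Lim v (PM v A G M) (r i) (w i)) ∧
      (∀ x ∈ PM v L G M, Lim v (PM v A G M) 0 x → ∃ P : Fin m → k[X], ∃ b ∈ PM v A G M,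
        v.Ge 0 (x - b - ∑ i, fev p (P i) (M (-r i) * w i))) ∧
      ∀ R ∈ G, ∀ y ∈ L, Lim v (PM v A G M) R y →
        InSpan k p (VG v N) M (fun R x => x ∈ L ∧ Nr' v (PM v A G M) R x) r w
          Finset.univ R y := by
  obtain ⟨m, r, w, h1, h2, h3⟩ := W.exists_hgens hNA hAL hT
  exact ⟨m, r, w, h1, fun i => ⟨(h2 i).1, (h2 i).2.mono PM.le⟩, h3, fun R hR y hy hl =>
    W.inSpan_of_gens hΩ hNA hAL h1 (fun i => (h2 i).1) h3 hA hR hy hl⟩

end World

end Pool.Agent.TWIV
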