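import Pool.Agent.Lib.TWIV.FLa

/-!
# TANK W, leaf (IV), the free lift of higher derivations, part 2: one letter

`HSn p v n R D Th`: `Th N j` is the operator `θ^[j / p ^ N]`, `N ≥ n`, `j < p ^ N`, of norm `≤ 0` on the
`k`-algebra `R`; the Leibniz rule holds on `D N`, whose union is dense, and the operators of level
`N + 1` which are not of level `N` vanish on `D N`.

`HSn.adjoin`: if `s` is of transcendental type and radius `0` over a field which contains `R` and the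
jet `T` of `s` is the limit, up to `0`, of the jets of elements of the `D N`, the operators extend to
`R[s]` with `s ↦ T`.
-/

set_option autoImplicit false

open Polynomial

namespace Pool.Agent.TWIV

open Pool.Agent.H15JM (RVal)
open Pool.Agent.TWM

universe u

variable {k Ω : Type u} [Field k] [Field Ω] [Algebra k Ω] {v : RVal Ω}

/-- Higher derivations `θ^[g]`, `g ∈ ℤ[1/p]`, `0 ≤ g < 1`, with `Th N j = θ^[j / p ^ N]`. -/
structure HSn (p : ℕ) (v : RVal Ω) (n : ℕ) (R : Subalgebra k Ω) (D : ℕ → Subalgebra k Ω)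
    (Th : ℕ → ℕ → Ω → Ω) : Prop where
  le : ∀ N, n ≤ N → D N ≤ R
  mono : ∀ N, n ≤ N → D N ≤ D (N + 1)
  dense : ∀ x ∈ R, ∀ b : ℝ, ∃ N, n ≤ N ∧ ∃ y ∈ D N, v.Ge b (x - y)
  add : ∀ N, n ≤ N → ∀ j < p ^ N, ∀ x ∈ R, ∀ y ∈ R, Th N j (x + y) = Th N j x + Th N j y
  ge : ∀ N, n ≤ N → ∀ j < p ^ N, ∀ x ∈ R, ∀ b : ℝ, v.Ge b x → v.Ge b (Th N j x)
  zero : ∀ N, n ≤ N → ∀ x ∈ R, Th N 0 x = x
  alg : ∀ N, n ≤ N → ∀ j < p ^ N, 0 < j → ∀ c : k, Th N j (algebraMap k Ω c) = 0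
  mul : ∀ N, n ≤ N → ∀ j < p ^ N, ∀ x ∈ D N, ∀ y ∈ D N,
    Th N j (x * y) = ∑ z ∈ Finset.HasAntidiagonal.antidiagonal j, Th N z.1 x * Th N z.2 y
  lev : ∀ N, n ≤ N → ∀ j < p ^ N, ∀ x ∈ R, Th (N + 1) (p * j) x = Th N j x
  nil : ∀ N, n ≤ N → ∀ j < p ^ (N + 1), ¬ p ∣ j → ∀ x ∈ D N, Th (N + 1) j x = 0

section Lev

variable {p n : ℕ} {R : Subalgebra k Ω} {D : ℕ → Subalgebra k Ω} {Th : ℕ → ℕ → Ω → Ω}

theorem HSn.dq (h : HSn p v n R D Th) {N : ℕ} (hN : n ≤ N) : Dq (p ^ N) R (D N) (Th N) where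
  add := h.add N hN
  zero := h.zero N hN
  one := fun j hj h0 => by
    have h1 := h.alg N hN j hj h0 1
    rwa [map_one] at h1
  mul := h.mul N hN

theorem HSn.mono' (h : HSn p v n R D Th) {N M : ℕ} (hN : n ≤ N) (hM : N ≤ M) : D N ≤ D M := by
  induction M, hM using Nat.le_induction with
  | base => exact le_rfl
  | succ M hM ih => exact ih.trans (h.mono M (hN.trans hM))

variable [Fact p.Prime]

/-- The levels. -/
theorem HSn.lev' (h : HSn p v n R D Th) {N : ℕ} (hN : n ≤ N) (d : ℕ) {j : ℕ} (hj : j < p ^ N)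
    {x : Ω} (hx : x ∈ R) : Th (N + d) (p ^ d * j) x = Th N j x := by
  induction d with
  | zero => rw [add_zero, pow_zero, one_mul]
  | succ d ih =>
    have h1 : p ^ d * j < p ^ (N + d) := by
      rw [pow_add, mul_comm]
      exact Nat.mul_lt_mul_of_pos_right hj (pow_pos (Fact.out : p.Prime).pos d)
    rw [← ih, ← h.lev (N + d) (by omega) _ h1 x hx, pow_succ, ← add_assoc]
    congr 1
    ring

theorem HSn.psi_nil (h : HSn p v n R D Th) {N : ℕ} (hN : n ≤ N) {x : Ω} (hx : x ∈ D N) :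
    psi (p ^ (N + 1)) (Th (N + 1)) x = expand Ω p (psi (p ^ N) (Th N) x) := by
  have hp := (Fact.out : p.Prime).pos
  ext j
  rw [coeff_psi, coeff_expand hp, coeff_psi]
  by_cases hpj : p ∣ j
  · obtain ⟨i, rfl⟩ := hpj
    rw [if_pos (dvd_mul_right p i), Nat.mul_div_cancel_left i hp]
    have h1 : p * i < p ^ (N + 1) ↔ i < p ^ N := by
      rw [pow_succ, mul_comm (p ^ N) p]
      exact Nat.mul_lt_mul_left hp
    by_cases h2 : i < p ^ N
    · rw [if_pos (h1.2 h2), if_pos h2, h.lev N hN i h2 x (h.le N hN hx)]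
    · rw [if_neg (fun h3 => h2 (h1.1 h3)), if_neg h2]
  · rw [if_neg hpj]
    split_ifs with h2
    exacts [h.nil N hN j h2 hpj x hx, rfl]

theorem HSn.psi_lev (h : HSn p v n R D Th) {N : ℕ} (hN : n ≤ N) {x : Ω} (hx : x ∈ R) :
    contract p (psi (p ^ (N + 1)) (Th (N + 1)) x) = psi (p ^ N) (Th N) x := by
  have hp := (Fact.out : p.Prime).pos
  ext j
  rw [coeff_contract hp.ne', coeff_psi, coeff_psi, mul_comm j p]
  have h1 : p * j < p ^ (N + 1) ↔ j < p ^ N := by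
    rw [pow_succ, mul_comm (p ^ N) p]
    exact Nat.mul_lt_mul_left hp
  by_cases h2 : j < p ^ N
  · rw [if_pos (h1.2 h2), if_pos h2, h.lev N hN j h2 x hx]
  · rw [if_neg (fun h3 => h2 (h1.1 h3)), if_neg h2]

theorem contract_sum {ι : Type*} (S : Finset ι) (f : ι → Polynomial Ω) :
    contract p (∑ i ∈ S, f i) = ∑ i ∈ S, contract p (f i) := by
  classical
  have hp := (Fact.out : p.Prime).ne_zero
  induction S using Finset.induction_on with
  | empty =>
    rw [Finset.sum_empty, Finset.sum_empty, ← C_0, contract_C]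
  | insert i S hi ih =>
    rw [Finset.sum_insert hi, Finset.sum_insert hi, contract_add hp, ih]

/-- The jets of a letter at the levels `N ≥ n`. -/
noncomputable def jT (p n : ℕ) (T : Polynomial Ω) (N : ℕ) : Polynomial Ω := expand Ω (p ^ (N - n)) T

omit [Fact p.Prime] in
theorem jT_succ (T : Polynomial Ω) {N : ℕ} (hN : n ≤ N) :
    jT p n T (N + 1) = expand Ω p (jT p n T N) := by
  rw [jT, jT, expand_expand, Nat.succ_sub hN, pow_succ, mul_comm]

theorem jT_zero (T : Polynomial Ω) (N : ℕ) : (jT p n T N).coeff 0 = T.coeff 0 := by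
  rw [jT, coeff_expand (pow_pos (Fact.out : p.Prime).pos _), if_pos (dvd_zero _), Nat.zero_div]

theorem HSn.lf_nil (h : HSn p v n R D Th) (T : Polynomial Ω) {N : ℕ} (hN : n ≤ N)
    {f : Polynomial Ω} (hf : f ∈ PR (D N)) :
    lf (p ^ (N + 1)) (Th (N + 1)) (jT p n T (N + 1)) f =
      expand Ω p (lf (p ^ N) (Th N) (jT p n T N) f) := by
  rw [lf, lf, map_sum]
  refine Finset.sum_congr rfl fun i _ => ?_
  rw [h.psi_nil hN (hf i), jT_succ T hN, map_mul, map_pow]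

theorem HSn.lf_lev (h : HSn p v n R D Th) (T : Polynomial Ω) {N : ℕ} (hN : n ≤ N)
    {f : Polynomial Ω} (hf : f ∈ PR R) :
    contract p (lf (p ^ (N + 1)) (Th (N + 1)) (jT p n T (N + 1)) f) =
      lf (p ^ N) (Th N) (jT p n T N) f := by
  rw [lf, lf, contract_sum]
  refine Finset.sum_congr rfl fun i _ => ?_
  rw [jT_succ T hN, ← map_pow, contract_mul_expand (Fact.out : p.Prime).ne_zero,
    h.psi_lev hN (hf i)]

theorem HSn.lf_lev' (h : HSn p v n R D Th) (T : Polynomial Ω) {N : ℕ} (hN : n ≤ N) (d : ℕ)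
    {f : Polynomial Ω} (hf : f ∈ PR R) (j : ℕ) :
    (lf (p ^ (N + d)) (Th (N + d)) (jT p n T (N + d)) f).coeff (p ^ d * j) =
      (lf (p ^ N) (Th N) (jT p n T N) f).coeff j := by
  induction d with
  | zero => rw [add_zero, pow_zero, one_mul]
  | succ d ih =>
    rw [← ih, ← h.lf_lev T (by omega : n ≤ N + d) hf, coeff_contract (Fact.out : p.Prime).ne_zero,
      add_assoc, pow_succ]
    congr 1
    ring

/-- The germ condition, at the higher levels. -/
theorem HSn.germ_up (h : HSn p v n R D Th) {T : Polynomial Ω} {r : ℝ} {N : ℕ} (hN : n ≤ N) {σ : Ω}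
    (hσ : σ ∈ D N) (hg : GeP v (p ^ N) r (jT p n T N - psi (p ^ N) (Th N) σ)) {M : ℕ}
    (hM : N ≤ M) : GeP v (p ^ M) r (jT p n T M - psi (p ^ M) (Th M) σ) := by
  have hp := (Fact.out : p.Prime).pos
  induction M, hM using Nat.le_induction with
  | base => exact hg
  | succ M hM ih =>
    intro j hj
    rw [jT_succ T (hN.trans hM), h.psi_nil (hN.trans hM) (h.mono' hN hM hσ), ← map_sub,
      coeff_expand hp]
    split_ifs with h1
    · obtain ⟨i, rfl⟩ := h1
      rw [Nat.mul_div_cancel_left i hp]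
      refine ih i ?_
      rw [pow_succ, mul_comm (p ^ M) p] at hj
      exact (Nat.mul_lt_mul_left hp).1 hj
    · exact RVal.Ge.zero

end Lev

/-! ### The subalgebra `R[s]` -/

/-- The algebra `R[s]`. -/
def adS (R : Subalgebra k Ω) (s : Ω) : Subalgebra k Ω where
  carrier := {x | ∃ f ∈ PR R, f.eval s = x}
  mul_mem' := by
    rintro _ _ ⟨f, hf, rfl⟩ ⟨g, hg, rfl⟩
    exact ⟨f * g, mul_mem hf hg, eval_mul⟩
  add_mem' := by
    rintro _ _ ⟨f, hf, rfl⟩ ⟨g, hg, rfl⟩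
    exact ⟨f + g, add_mem hf hg, eval_add⟩
  algebraMap_mem' := fun c => ⟨C (algebraMap k Ω c), C_mem_PR (algebraMap_mem R c), eval_C⟩

theorem mem_adS {R : Subalgebra k Ω} {s x : Ω} : x ∈ adS R s ↔ ∃ f ∈ PR R, f.eval s = x := Iff.rfl

theorem le_adS {R : Subalgebra k Ω} {s : Ω} : R ≤ adS R s := fun x hx =>
  ⟨C x, C_mem_PR hx, eval_C⟩

theorem self_mem_adS {R : Subalgebra k Ω} {s : Ω} : s ∈ adS R s := ⟨X, X_mem_PR, eval_X⟩

theorem adS_mono {R R' : Subalgebra k Ω} (h : R ≤ R') (s : Ω) : adS R s ≤ adS R' s := by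
  rintro x ⟨f, hf, rfl⟩
  exact ⟨f, PR_mono h hf, rfl⟩

theorem adS_le {R B : Subalgebra k Ω} {s : Ω} (h : R ≤ B) (hs : s ∈ B) : adS R s ≤ B := by
  rintro x ⟨f, hf, rfl⟩
  rw [eval_eq_sum_range]
  exact sum_mem fun i _ => mul_mem (h (hf i)) (pow_mem hs i)

/-! ### One letter -/

/-- The polynomials of degree in `Ok` represent `R[s]`, and they are strict at `s`. -/
structure Ltr (v : RVal Ω) (R : Subalgebra k Ω) (s : Ω) (Ok : ℕ → Prop) : Prop where
  down : ∀ a b, a ≤ b → Ok b → Ok a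
  rep : ∀ f ∈ PR R, ∃ g ∈ PR R, Ok g.natDegree ∧ g.eval s = f.eval s
  str : ∀ f ∈ PR R, f ≠ 0 → Ok f.natDegree → Str v 0 (taylor s f)

/-- The jets at `s` are well defined. -/
def WdL (p n : ℕ) (R : Subalgebra k Ω) (Th : ℕ → ℕ → Ω → Ω) (s : Ω) (T : Polynomial Ω) : Prop :=
  ∀ N, n ≤ N → ∀ f ∈ PR R, f.eval s = 0 → ∀ j < p ^ N,
    (lf (p ^ N) (Th N) (jT p n T N) f).coeff j = 0

open Classical in
/-- The extension of the operators. -/
noncomputable def Tx (p n : ℕ) (R : Subalgebra k Ω) (Th : ℕ → ℕ → Ω → Ω) (s : Ω)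
    (T : Polynomial Ω) (N j : ℕ) (x : Ω) : Ω :=
  if h : ∃ f ∈ PR R, f.eval s = x then (lf (p ^ N) (Th N) (jT p n T N) h.choose).coeff j
  else Th N j x

section Adj

variable {p n : ℕ} {R : Subalgebra k Ω} {D : ℕ → Subalgebra k Ω} {Th : ℕ → ℕ → Ω → Ω}
  {s : Ω} {T : Polynomial Ω} {Ok : ℕ → Prop}

theorem HSn.Tx_eval (h : HSn p v n R D Th) (hw : WdL p n R Th s T) {N : ℕ} (hN : n ≤ N) {j : ℕ}
    (hj : j < p ^ N) {f : Polynomial Ω} (hf : f ∈ PR R) :
    Tx p n R Th s T N j (f.eval s) = (lf (p ^ N) (Th N) (jT p n T N) f).coeff j := by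
  have h0 : ∃ g ∈ PR R, g.eval s = f.eval s := ⟨f, hf, rfl⟩
  have h1 := hw N hN (h0.choose - f) (sub_mem h0.choose_spec.1 hf)
    (by rw [eval_sub, h0.choose_spec.2, sub_self]) j hj
  rw [(h.dq hN).lf_sub _ h0.choose_spec.1 hf, coeff_sub, sub_eq_zero] at h1
  rw [Tx, dif_pos h0, h1]

/-- Approximation by the polynomials with coefficients in the `D M`. -/
theorem HSn.approx (h : HSn p v n R D Th) (T : Polynomial Ω) {N : ℕ} (hN : n ≤ N)
    {f : Polynomial Ω} (hf : f ∈ PR R) (b : ℝ) : ∃ M, N ≤ M ∧ ∃ g ∈ PR (D M),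
      g.natDegree ≤ f.natDegree ∧ GeP v (p ^ N) b (lf (p ^ N) (Th N) (jT p n T N) (f - g)) := by
  have h1 : ∀ i : ℕ, ∃ r : ℝ, r ≤ 0 ∧ GeP v (p ^ N) r (jT p n T N ^ i) := fun i =>
    exists_GeP v _ _
  choose r hr0 hr using h1
  have h2 : ∀ i : ℕ, ∃ K, n ≤ K ∧ ∃ y ∈ D K, v.Ge (b - r i) (f.coeff i - y) := fun i =>
    h.dense _ (hf i) _
  choose K hK y hy hyb using h2
  set m := f.natDegree + 1 with hm
  set M := max N ((Finset.range m).sup K) with hM
  have hNM : N ≤ M := le_max_left _ _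
  have hKM : ∀ i ∈ Finset.range m, K i ≤ M := fun i hi =>
    (Finset.le_sup (f := K) hi).trans (le_max_right _ _)
  set g : Polynomial Ω := ∑ i ∈ Finset.range m, monomial i (y i) with hg
  have hgc : ∀ i, g.coeff i = if i < m then y i else 0 := by
    intro i
    rw [hg, finsetSum_coeff]
    simp only [coeff_monomial]
    rw [Finset.sum_ite_eq' (Finset.range m) i]
    simp only [Finset.mem_range]
  have hgD : g ∈ PR (D M) := by
    intro i
    rw [hgc]
    split_ifs with h3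
    · exact h.mono' (hK i) (hKM i (Finset.mem_range.2 h3)) (hy i)
    · exact zero_mem _
  have hgR : g ∈ PR R := PR_mono (h.le M (hN.trans hNM)) hgD
  have hgdeg : g.natDegree ≤ f.natDegree := by
    rw [natDegree_le_iff_coeff_eq_zero]
    intro i hi
    rw [hgc, if_neg (by omega)]
  have hdeg : (f - g).natDegree < m := by
    rw [Nat.lt_succ_iff, natDegree_le_iff_coeff_eq_zero]
    intro i hi
    rw [coeff_sub, hgc, if_neg (by omega), coeff_eq_zero_of_natDegree_lt (by omega), sub_zero]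
  refine ⟨M, hNM, g, hgD, hgdeg, ?_⟩
  rw [(h.dq hN).lf_range _ hdeg]
  refine GeP.sum _ fun i hi => ?_
  have h3 : GeP v (p ^ N) (b - r i) (psi (p ^ N) (Th N) ((f - g).coeff i)) := by
    intro j hj
    rw [coeff_psi, if_pos hj]
    refine h.ge N hN j hj _ (sub_mem hf hgR i) _ ?_
    rw [coeff_sub, hgc, if_pos (Finset.mem_range.1 hi)]
    exact hyb i
  exact (h3.mul (hr i)).mono (by rw [sub_add_cancel])

variable [Fact p.Prime]

/-- The norm, for a polynomial with coefficients in `D N`. -/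
theorem HSn.norm_aux (h : HSn p v n R D Th) (hs : Ltr v R s Ok)
    (hT : ∀ ε : ℝ, 0 < ε → ∃ N, n ≤ N ∧ ∃ σ ∈ D N,
      GeP v (p ^ N) (-ε) (jT p n T N - psi (p ^ N) (Th N) σ)) (hT0 : T.coeff 0 = s)
    {N : ℕ} (hN : n ≤ N) {f : Polynomial Ω} (hf : f ∈ PR (D N)) (hf0 : f ≠ 0)
    (hfO : Ok f.natDegree) :
    GeP v (p ^ N) (v (f.eval s)) (lf (p ^ N) (Th N) (jT p n T N) f) := by
  have hp := (Fact.out : p.Prime).pos
  obtain ⟨δ, hδ, hstr⟩ := (hs.str f (PR_mono (h.le N hN) hf) hf0 hfO).exists_delta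
    (Finset.Icc 1 f.natDegree) fun l hl => (Finset.mem_Icc.1 hl).1
  rw [taylor_coeff_zero] at hstr
  obtain ⟨N1, hN1, σ, hσ, hg⟩ := hT δ hδ
  set M := max N N1 with hM
  have hNM : N ≤ M := le_max_left _ _
  have hN1M : N1 ≤ M := le_max_right _ _
  have hnM : n ≤ M := hN.trans hNM
  have hσM : σ ∈ D M := h.mono' hN1 hN1M hσ
  have hfM : f ∈ PR (D M) := PR_mono (h.mono' hN hNM) hf
  have hgM := h.germ_up hN1 hσ hg hN1M
  have hq : 0 < p ^ M := pow_pos hp M
  -- the distance from `s` to `σ`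
  have hsσ : v.Ge (-δ) (s - σ) := by
    have h1 := hgM 0 hq
    rwa [coeff_sub, jT_zero, hT0, coeff_psi, if_pos hq, h.zero M hnM σ (h.le M hnM hσM)] at h1
  -- the coefficients at `σ`
  have hco : ∀ i : ℕ, v.Ge (v (f.eval s) + i * δ) ((taylor σ f).coeff i) := by
    intro i
    have h1 : (taylor σ f).coeff i = (taylor (σ - s) (taylor s f)).coeff i := by
      rw [taylor_taylor, sub_add_cancel]
    rw [h1, taylor_coeff, hasseDeriv_apply, eval_sum, Polynomial.sum_def]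
    refine RVal.Ge.sum _ _ fun l hl => ?_
    rw [eval_monomial]
    rcases lt_or_ge l i with hli | hli
    · rw [Nat.choose_eq_zero_of_lt hli, Nat.cast_zero, zero_mul, zero_mul]
      exact RVal.Ge.zero
    have h2 : v.Ge (((l - i : ℕ) : ℝ) * (-δ)) ((σ - s) ^ (l - i)) := ge_pow (ge_sub_comm hsσ) _
    rw [Nat.cast_sub hli] at h2
    rcases Nat.eq_zero_or_pos l with rfl | hl0
    · have hi : i = 0 := by omega
      subst hi
      rw [taylor_coeff_zero, Nat.choose_self, Nat.cast_one, one_mul, Nat.sub_zero, pow_zero, mul_one,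
        Nat.cast_zero, zero_mul, add_zero]
      exact RVal.ge_self _
    have hl1 : l ∈ Finset.Icc 1 f.natDegree := by
      refine Finset.mem_Icc.2 ⟨hl0, ?_⟩
      have := le_natDegree_of_mem_supp l hl
      rwa [natDegree_taylor] at this
    have h3 := ((ge_natCast v (l.choose i)).mul (hstr l hl1)).mul h2
    refine h3.mono ?_
    have hli' : (i : ℝ) ≤ l := by exact_mod_cast hli
    nlinarith
  -- the Taylor formula at the level `M`
  have hD := h.dq hnM
  have key : GeP v (p ^ M) (v (f.eval s)) (lf (p ^ M) (Th M) (jT p n T M) f) := by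
    refine GeP.congr ?_ (hD.lf_taylor hq (h.le M hnM) (jT p n T M) hfM hσM).symm
    refine GeP.sum _ fun i _ => ?_
    have h1 : GeP v (p ^ M) (v (f.eval s) + i * δ) (psi (p ^ M) (Th M) ((taylor σ f).coeff i)) := by
      intro j hj
      rw [coeff_psi, if_pos hj]
      exact h.ge M hnM j hj _ (h.le M hnM (taylor_mem_PR hfM hσM i)) _ (hco i)
    refine (h1.mul (hgM.pow i)).mono (le_of_eq ?_)
    ring
  -- back to the level `N`
  intro j hj
  obtain ⟨d, hd⟩ := Nat.exists_eq_add_of_le hNM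
  have h1 := h.lf_lev' T hN d (PR_mono (h.le N hN) hf) j
  rw [← hd] at h1
  rw [← h1]
  refine key _ ?_
  rw [hd, pow_add, mul_comm]
  exact Nat.mul_lt_mul_of_pos_right hj (pow_pos hp d)

/-- The norm. -/
theorem HSn.norm (h : HSn p v n R D Th) (hs : Ltr v R s Ok) (hw : WdL p n R Th s T)
    (hT : ∀ ε : ℝ, 0 < ε → ∃ N, n ≤ N ∧ ∃ σ ∈ D N,
      GeP v (p ^ N) (-ε) (jT p n T N - psi (p ^ N) (Th N) σ)) (hT0 : T.coeff 0 = s)
    {N : ℕ} (hN : n ≤ N) {f : Polynomial Ω} (hf : f ∈ PR R) {b : ℝ} (hb : v.Ge b (f.eval s)) :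
    GeP v (p ^ N) b (lf (p ^ N) (Th N) (jT p n T N) f) := by
  have hp := (Fact.out : p.Prime).pos
  -- the representative of degree in `Ok`
  obtain ⟨f', hf', hfO, hfe⟩ := hs.rep f hf
  have h0 : Cg (p ^ N) (lf (p ^ N) (Th N) (jT p n T N) f') (lf (p ^ N) (Th N) (jT p n T N) f) := by
    intro j hj
    have h1 := hw N hN (f' - f) (sub_mem hf' hf) (by rw [eval_sub, hfe, sub_self]) j hj
    rwa [(h.dq hN).lf_sub _ hf' hf, coeff_sub, sub_eq_zero] at h1
  refine GeP.congr ?_ h0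
  rw [← hfe] at hb
  by_cases hf0 : f' = 0
  · rw [hf0, (h.dq hN).lf_zero]
    intro j _
    rw [coeff_zero]
    exact RVal.Ge.zero
  have hx : f'.eval s ≠ 0 := by
    have := (hs.str f' hf' hf0 hfO).ne
    rwa [taylor_coeff_zero] at this
  refine GeP.mono ?_ (hb hx)
  obtain ⟨M, hNM, g, hg, hgd, h1⟩ := h.approx T hN hf' (v (f'.eval s) + 1)
  have hgR : g ∈ PR R := PR_mono (h.le M (hN.trans hNM)) hg
  have hq : 0 < p ^ N := pow_pos hp N
  have h2 : v.Ge (v (f'.eval s) + 1) (f'.eval s - g.eval s) := by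
    have h3 := h1 0 hq
    rwa [(h.dq hN).lf_coeff_zero hq _ (sub_mem hf' hgR), jT_zero, hT0, eval_sub] at h3
  obtain ⟨h4, h5⟩ := Gt.val_eq hx (Gt.of_ge h2 (by linarith))
  have hg0 : g ≠ 0 := by
    rintro rfl
    rw [eval_zero] at h4
    exact h4 rfl
  have h6 := h.norm_aux hs hT hT0 (hN.trans hNM) hg hg0 (hs.down _ _ hgd hfO)
  rw [h5] at h6
  have h7 : GeP v (p ^ N) (v (f'.eval s)) (lf (p ^ N) (Th N) (jT p n T N) g) := by
    intro j hj
    obtain ⟨d, hd⟩ := Nat.exists_eq_add_of_le hNM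
    rw [hd] at h6
    rw [← h.lf_lev' T hN d hgR j]
    refine h6 _ ?_
    rw [pow_add, mul_comm]
    exact Nat.mul_lt_mul_of_pos_right hj (pow_pos hp d)
  have h8 := h7.add (h1.mono (by linarith : v (f'.eval s) ≤ v (f'.eval s) + 1))
  rw [(h.dq hN).lf_sub _ hf' hgR, add_sub_cancel] at h8
  exact h8

/-- **One letter.** -/
theorem HSn.adjoinG (h : HSn p v n R D Th) (hs : Ltr v R s Ok) (hw : WdL p n R Th s T)
    (hT : ∀ ε : ℝ, 0 < ε → ∃ N, n ≤ N ∧ ∃ σ ∈ D N,
      GeP v (p ^ N) (-ε) (jT p n T N - psi (p ^ N) (Th N) σ)) (hT0 : T.coeff 0 = s) :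
    HSn p v n (adS R s) (fun N => adS (D N) s) (Tx p n R Th s T) where
  le := fun N hN => adS_mono (h.le N hN) s
  mono := fun N hN => adS_mono (h.mono N hN) s
  dense := by
    rintro x ⟨f, hf, rfl⟩ b
    obtain ⟨M, hM, g, hg, -, h1⟩ := h.approx T le_rfl hf b
    have hq : 0 < p ^ n := pow_pos (Fact.out : p.Prime).pos n
    refine ⟨M, hM, g.eval s, ⟨g, hg, rfl⟩, ?_⟩
    have h3 := h1 0 hq
    rwa [(h.dq le_rfl).lf_coeff_zero hq _ (sub_mem hf (PR_mono (h.le M hM) hg)), jT_zero, hT0,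
      eval_sub] at h3
  add := by
    rintro N hN j hj x ⟨f, hf, rfl⟩ y ⟨g, hg, rfl⟩
    rw [← eval_add, h.Tx_eval hw hN hj (add_mem hf hg), h.Tx_eval hw hN hj hf,
      h.Tx_eval hw hN hj hg, (h.dq hN).lf_add _ hf hg, coeff_add]
  ge := by
    rintro N hN j hj x ⟨f, hf, rfl⟩ b hb
    rw [h.Tx_eval hw hN hj hf]
    exact h.norm hs hw hT hT0 hN hf hb j hj
  zero := by
    rintro N hN x ⟨f, hf, rfl⟩
    have hq : 0 < p ^ N := pow_pos (Fact.out : p.Prime).pos N
    rw [h.Tx_eval hw hN hq hf, (h.dq hN).lf_coeff_zero hq _ hf, jT_zero, hT0]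
  alg := by
    intro N hN j hj h0 c
    have h1 := h.Tx_eval hw hN hj (C_mem_PR (algebraMap_mem R c))
    rw [eval_C, (h.dq hN).lf_C, coeff_psi, if_pos hj, h.alg N hN j hj h0] at h1
    exact h1
  mul := by
    rintro N hN j hj x ⟨f, hf, rfl⟩ y ⟨g, hg, rfl⟩
    have hf' := PR_mono (h.le N hN) hf
    have hg' := PR_mono (h.le N hN) hg
    rw [← eval_mul, h.Tx_eval hw hN hj (mul_mem hf' hg'),
      (h.dq hN).lf_mul (h.le N hN) _ hf hg j hj, coeff_mul]
    refine Finset.sum_congr rfl fun z hz => ?_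
    have hz' : z.1 + z.2 = j := by simpa using hz
    rw [h.Tx_eval hw hN (by omega) hf', h.Tx_eval hw hN (by omega) hg']
  lev := by
    rintro N hN j hj x ⟨f, hf, rfl⟩
    have hpj : p * j < p ^ (N + 1) := by
      rw [pow_succ, mul_comm (p ^ N) p]
      exact (Nat.mul_lt_mul_left (Fact.out : p.Prime).pos).2 hj
    rw [h.Tx_eval hw (hN.trans (Nat.le_succ N)) hpj hf, h.Tx_eval hw hN hj hf,
      ← h.lf_lev T hN hf, coeff_contract (Fact.out : p.Prime).ne_zero, mul_comm]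
  nil := by
    rintro N hN j hj hpj x ⟨f, hf, rfl⟩
    rw [h.Tx_eval hw (hN.trans (Nat.le_succ N)) hj (PR_mono (h.le N hN) hf), h.lf_nil T hN hf,
      coeff_expand (Fact.out : p.Prime).pos, if_neg hpj]

omit [Fact p.Prime] in
/-- The extension, on `R`. -/
theorem HSn.Tx_base (h : HSn p v n R D Th) (hw : WdL p n R Th s T) {N : ℕ} (hN : n ≤ N) {j : ℕ}
    (hj : j < p ^ N) {x : Ω} (hx : x ∈ R) : Tx p n R Th s T N j x = Th N j x := by
  have h1 := h.Tx_eval hw hN hj (C_mem_PR hx)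
  rw [eval_C, (h.dq hN).lf_C, coeff_psi, if_pos hj] at h1
  exact h1

/-- The extension, on the letter. -/
theorem HSn.Tx_self (h : HSn p v n R D Th) (hw : WdL p n R Th s T) {N : ℕ} (hN : n ≤ N) {j : ℕ}
    (hj : j < p ^ N) : Tx p n R Th s T N j s = (jT p n T N).coeff j := by
  have h1 := h.Tx_eval hw hN hj (f := X) X_mem_PR
  rw [eval_X, (h.dq hN).lf_X (pow_pos (Fact.out : p.Prime).pos N)] at h1
  exact h1

/-- The extension, stability. -/
theorem HSn.Tx_mem (h : HSn p v n R D Th) (hw : WdL p n R Th s T) {B : Subalgebra k Ω}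
    (hB : ∀ N, n ≤ N → ∀ j < p ^ N, ∀ x ∈ R, Th N j x ∈ B) (hTB : ∀ l, T.coeff l ∈ B)
    {N : ℕ} (hN : n ≤ N) {j : ℕ} (hj : j < p ^ N) {x : Ω} (hx : x ∈ adS R s) :
    Tx p n R Th s T N j x ∈ B := by
  obtain ⟨f, hf, rfl⟩ := hx
  rw [h.Tx_eval hw hN hj hf]
  have h1 : jT p n T N ∈ PR B := by
    intro l
    rw [jT, coeff_expand (pow_pos (Fact.out : p.Prime).pos _)]
    split_ifs
    exacts [hTB _, zero_mem _]
  have h2 : lf (p ^ N) (Th N) (jT p n T N) f ∈ PR B := by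
    rw [lf]
    refine sum_mem fun i _ => mul_mem (fun l => ?_) (pow_mem h1 i)
    rw [coeff_psi]
    split_ifs with h3
    exacts [hB N hN l h3 _ (hf i), zero_mem _]
  exact h2 j

end Adj

/-! ### Letters of transcendental type -/

section TLs

variable [IsAlgClosed Ω] {p n : ℕ} {R : Subalgebra k Ω} {D : ℕ → Subalgebra k Ω}
  {Th : ℕ → ℕ → Ω → Ω} {A : IntermediateField k Ω} {s : Ω} {T : Polynomial Ω}

omit [IsAlgClosed Ω] in
theorem PR_PI (hR : R ≤ A.toSubalgebra) {f : Polynomial Ω} (hf : f ∈ PR R) : f ∈ PI A := fun i =>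
  hR (hf i)

theorem ltr_of_tl (hR : R ≤ A.toSubalgebra) (hs : TL v A s 0) : Ltr v R s fun _ => True where
  down := fun _ _ _ _ => trivial
  rep := fun f hf => ⟨f, hf, trivial, rfl⟩
  str := fun _ hf h0 _ => hs.str' (PR_PI hR hf) h0

theorem HSn.wdl_of_tl (h : HSn p v n R D Th) (hR : R ≤ A.toSubalgebra) (hs : TL v A s 0) :
    WdL p n R Th s T := by
  intro N hN f hf hfs j _
  have h0 : f = 0 := by
    by_contra h0
    exact hs.eval_ne (PI_mono (le_algc A) (PR_PI hR hf)) h0 hfs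
  rw [h0, (h.dq hN).lf_zero, coeff_zero]

end TLs

end Pool.Agent.TWIV
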