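import Pool.Agent.Lib.TWC.Poly
import Pool.Agent.Lib.TWC.Rect
import Pool.Agent.Lib.TWM.Op

/-!
# TANK W, tame case, row S5 (RAD), part 1: free letters are rectangular

* `op p f x = ∑ f_j x ^ (p ^ j)`, the action of `k{F}`;
* `exists_op_alg` (Kaplansky): an algebraic element `θ` over `A` which is a limit of `A` up to `0` is
  killed by a non zero operator, modulo `A + O`;
* `tl_of_free`: a limit of `A` up to `0` which is killed by no operator is of transcendental type;
* `rect_of_free`: a family which is free over `k{F}` modulo `E + O` is rectangular of radii `0`.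
-/

set_option autoImplicit false

open Polynomial

namespace Pool.Agent.TWIV

open Pool.Agent.H15JM (RVal)
open Pool.Agent.LU1 (VPos adj)
open Pool.Agent.D2 (Ctx0)
open Pool.Agent.TWM Pool.Agent.TWC

universe u

variable {k Ω : Type u} [Field k] [Field Ω] [Algebra k Ω] {v : RVal Ω}
  {A E B : IntermediateField k Ω} {p : ℕ}

/-! ### The operators -/

/-- The value of the operator `f` at `x`. -/
noncomputable def op (p : ℕ) (f : k[X]) (x : Ω) : Ω := ev p (fun _ => (1 : Ω)) 0 0 f x

theorem ms_one : MS v (⊥ : AddSubgroup ℝ) (fun _ => (1 : Ω)) where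
  ne := fun _ _ => one_ne_zero
  val := fun g hg => by
    rw [AddSubgroup.mem_bot.1 hg, v.map_one]
  mul := fun _ _ _ _ => (mul_one _).symm

theorem isOp_bot (f : k[X]) : IsOp p (⊥ : AddSubgroup ℝ) 0 0 f := fun j _ => by
  rw [mul_zero, sub_zero]
  exact zero_mem _

theorem op_mono (a : k) (j : ℕ) (x : Ω) : op p (C a * X ^ j) x = algebraMap k Ω a * x ^ p ^ j := by
  rw [op, ev_mono, mul_one]

theorem op_zero (x : Ω) : op p (0 : k[X]) x = 0 := ev_zero x

theorem op_one (x : Ω) : op p (1 : k[X]) x = x := by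
  have h := op_mono (p := p) (1 : k) 0 x
  rwa [pow_zero, mul_one, map_one, map_one, one_mul, pow_zero, pow_one] at h

theorem op_add (f g : k[X]) (x : Ω) : op p (f + g) x = op p f x + op p g x := ev_add f g x

theorem op_neg (f : k[X]) (x : Ω) : op p (-f) x = -op p f x := ev_neg f x

theorem op_sub (f g : k[X]) (x : Ω) : op p (f - g) x = op p f x - op p g x := ev_sub f g x

theorem op_sum {ι : Type*} (S : Finset ι) (f : ι → k[X]) (x : Ω) :
    op p (∑ i ∈ S, f i) x = ∑ i ∈ S, op p (f i) x := ev_sum S f x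

/-- The operator with the coefficients `c`. -/
theorem op_range (N : ℕ) (c : ℕ → k) (x : Ω) :
    op p (∑ i ∈ Finset.range N, C (c i) * X ^ i) x =
      ∑ i ∈ Finset.range N, algebraMap k Ω (c i) * x ^ p ^ i := by
  rw [op_sum]
  exact Finset.sum_congr rfl fun i _ => op_mono _ _ _

theorem op_eq (f : k[X]) (x : Ω) :
    op p f x = ∑ i ∈ f.support, algebraMap k Ω (f.coeff i) * x ^ p ^ i := by
  rw [op, ev, Polynomial.sum]
  exact Finset.sum_congr rfl fun i _ => by rw [mul_one]

theorem op_mem {f : k[X]} {x : Ω} (hx : x ∈ B) : op p f x ∈ B := by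
  rw [op_eq]
  exact sum_mem fun i _ => mul_mem (B.algebraMap_mem _) (pow_mem hx _)

section

variable [Fact p.Prime] [CharP Ω p]

theorem op_zero_right (f : k[X]) : op p f (0 : Ω) = 0 := ev_zero_right f

theorem op_add_right (f : k[X]) (x y : Ω) : op p f (x + y) = op p f x + op p f y :=
  ev_add_right f x y

theorem op_neg_right (f : k[X]) (x : Ω) : op p f (-x) = -op p f x := ev_neg_right f x

theorem op_sub_right (f : k[X]) (x y : Ω) : op p f (x - y) = op p f x - op p f y :=
  ev_sub_right f x y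

theorem op_sum_right {ι : Type*} (S : Finset ι) (f : k[X]) (x : ι → Ω) :
    op p f (∑ i ∈ S, x i) = ∑ i ∈ S, op p f (x i) := ev_sum_right S f x

theorem op_tw [CharP k p] (v : RVal Ω) (f g : k[X]) (x : Ω) :
    op p (tw p f g) x = op p f (op p g x) :=
  ev_tw (v := v) (G := ⊥) ms_one (isOp_bot g) (isOp_bot f) x

end

/-- The operators on approximations. -/
theorem op_ge [Fact p.Prime] (hk : Ctx0 k v) (f : k[X]) {r : ℝ} (hr : r ≤ 0) {x : Ω}
    (hx : v.Ge r x) : v.Ge ((p : ℝ) ^ f.natDegree * r) (op p f x) := by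
  have hp1 : (1 : ℝ) ≤ p := by exact_mod_cast (Fact.out : p.Prime).one_lt.le
  rw [op_eq]
  refine RVal.Ge.sum (v := v) _ _ fun i hi => ?_
  have h1 := RVal.Ge.mul (hk.ge (f.coeff i)) (ge_pow hx (p ^ i))
  refine h1.mono ?_
  have h2 : i ≤ f.natDegree := le_natDegree_of_mem_supp i hi
  have h3 : (p : ℝ) ^ i ≤ (p : ℝ) ^ f.natDegree := pow_le_pow_right₀ hp1 h2
  push_cast
  nlinarith

theorem op_ge_zero [Fact p.Prime] (hk : Ctx0 k v) (f : k[X]) {x : Ω} (hx : v.Ge 0 x) :
    v.Ge 0 (op p f x) := by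
  have h := op_ge (p := p) hk f le_rfl hx
  rwa [mul_zero] at h

end Pool.Agent.TWIV
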