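import Pool.Agent.Lib.TWIV.Top
import Pool.Agent.Lib.TWIV.Coarse
import Pool.Agent.Lib.TWT.FreeA7

/-!
# TANK W, tame case, row A7.d: bases of the graded modules for all real radii

`G` all real numbers, `B = PM v A G M`, `N ≤ A ≤ L` (fine) and `N' ≤ A' ≤ L'` (coarse) with the
same `B`, `VG v N' / VG v N` prime to `p`, `VG v N'` saturated prime to `p`. If no exotic relation
holds over `B` in the coarse world, a finite homogeneous family of the fine world has the same span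
as a free family.
-/

set_option autoImplicit false
set_option linter.unusedSectionVars false

open Polynomial

namespace Pool.Agent.TWIV

open Pool.Agent.H15JM (RVal)
open Pool.Agent.LU1 (VPos adj)
open Pool.Agent.D2 (Ctx0)
open Pool.Agent.D2P (hen clI mem_clI)
open Pool.Agent.TWM Pool.Agent.TWC Pool.Agent.TWS Pool.Agent.TWT

universe u

variable {k Ω : Type u} [Field k] [Field Ω] [Algebra k Ω] {v : RVal Ω} [Fact (Ctx0 k v)]
  {N L A B N' L' A' : IntermediateField k Ω} {G Γ : AddSubgroup ℝ} {M : ℝ → Ω} {p : ℕ}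

/-- The homogeneous elements near `B`, at every radius. -/
def ZR (v : RVal Ω) (L B : IntermediateField k Ω) (r : ℝ) (w : Ω) : Prop := w ∈ L ∧ Nr' v B r w

/-- The homogeneous limits of `B`, at every radius. -/
def LR (v : RVal Ω) (L B : IntermediateField k Ω) (r : ℝ) (w : Ω) : Prop := w ∈ L ∧ Lim v B r w

theorem gsub_ZR [Fact p.Prime] [CharP Ω p] (hM : MS v Γ M) (hML : ∀ g ∈ Γ, M g ∈ L)
    (hMB : ∀ g ∈ Γ, M g ∈ B) : GSub k p Γ M (ZR v L B) where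
  zero r := ⟨zero_mem L, 0, zero_mem B, by rw [sub_zero]; exact Gt.zero⟩
  add := by
    rintro r a b ⟨ha, a', ha', h1⟩ ⟨hb, b', hb', h3⟩
    refine ⟨add_mem ha hb, a' + b', add_mem ha' hb', ?_⟩
    rw [add_sub_add_comm]
    exact h1.add h3
  op := by
    rintro c s d j w hd ⟨hw, a, ha, h1⟩
    refine ⟨mul_mem (mul_mem (L.algebraMap_mem c) (hML d hd)) (pow_mem hw _),
      algebraMap k Ω c * M d * a ^ p ^ j, mul_mem (mul_mem (B.algebraMap_mem c)
        (hMB d hd)) (pow_mem ha _), ?_⟩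
    rw [← mul_sub, ← sub_pow_char_pow]
    exact gt_op hM hd h1

theorem gsub_LR [Fact p.Prime] [CharP Ω p] (hM : MS v Γ M) (hML : ∀ g ∈ Γ, M g ∈ L)
    (hMB : ∀ g ∈ Γ, M g ∈ B) : GSub k p Γ M (LR v L B) where
  zero r := ⟨zero_mem L, fun ε _ => ⟨0, zero_mem B, by rw [sub_zero]; exact RVal.Ge.zero⟩⟩
  add := by
    rintro r a b ⟨ha, h1⟩ ⟨hb, h3⟩
    refine ⟨add_mem ha hb, fun ε hε => ?_⟩
    obtain ⟨a', ha', h5⟩ := h1 ε hε
    obtain ⟨b', hb', h6⟩ := h3 ε hε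
    refine ⟨a' + b', add_mem ha' hb', ?_⟩
    rw [add_sub_add_comm]
    exact h5.add h6
  op := by
    rintro c s d j w hd ⟨hw, h1⟩
    refine ⟨mul_mem (mul_mem (L.algebraMap_mem c) (hML d hd)) (pow_mem hw _), fun ε hε => ?_⟩
    have hp0 : (0 : ℝ) < (p : ℝ) ^ j := by
      have : (0 : ℝ) < p := by exact_mod_cast (Fact.out : p.Prime).pos
      positivity
    obtain ⟨a, ha, h3⟩ := h1 (ε / (p : ℝ) ^ j) (by positivity)
    refine ⟨algebraMap k Ω c * M d * a ^ p ^ j, mul_mem (mul_mem (B.algebraMap_mem c)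
        (hMB d hd)) (pow_mem ha _), ?_⟩
    rw [← mul_sub, ← sub_pow_char_pow]
    refine (ge_op hM hd h3).mono (le_of_eq ?_)
    field_simp
    ring

omit [Fact (Ctx0 k v)] in
theorem ZR.lr {r : ℝ} {w : Ω} (h : ZR v L B r w) : LR v L B r w := by
  obtain ⟨hw, b, hb, h1⟩ := h
  exact ⟨hw, fun ε hε => ⟨b, hb, h1.ge.mono (by linarith)⟩⟩

section gen

variable {H H' : AddSubgroup ℝ} [Fact p.Prime]

/-- `H = ℤ g₀ + p H` passes to a group `H'` with `H' / H` prime to `p`. -/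
theorem gen_coarse (hHH : H ≤ H') (htor : ∀ g ∈ H', ∃ n : ℕ, ¬ p ∣ n ∧ (n : ℝ) * g ∈ H) {g₀ : ℝ}
    (hg₀ : g₀ ∈ H) (hG : ∀ g ∈ H, ∃ l < p, ∃ g' ∈ H, g = l * g₀ + p * g') :
    ∀ g ∈ H', ∃ l < p, ∃ g' ∈ H', g = l * g₀ + p * g' := by
  intro g hg
  obtain ⟨n, hn, h⟩ := htor g hg
  obtain ⟨l, hl, g', hg', hgl⟩ := hG _ h
  have hcop : IsCoprime (n : ℤ) (p : ℤ) := by
    rw [Nat.isCoprime_iff_coprime]
    exact ((Nat.Prime.coprime_iff_not_dvd Fact.out).mpr hn).symm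
  obtain ⟨a, b, hab⟩ := hcop
  have hp0 : (0 : ℤ) < p := by exact_mod_cast (Fact.out : p.Prime).pos
  have hmod := Int.emod_nonneg (a * l) hp0.ne'
  have hlt := Int.emod_lt_of_pos (a * l) hp0
  have hdm := Int.emod_add_mul_ediv (a * l) p
  obtain ⟨m, hm⟩ := Int.eq_ofNat_of_zero_le hmod
  refine ⟨m, by rw [hm] at hlt; exact_mod_cast hlt,
    a • g' + b • g + (a * l / p) • g₀, ?_, ?_⟩
  · exact AddSubgroup.add_mem _ (AddSubgroup.add_mem _ (AddSubgroup.zsmul_mem _ (hHH hg') _)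
      (AddSubgroup.zsmul_mem _ hg _)) (AddSubgroup.zsmul_mem _ (hHH hg₀) _)
  · rw [zsmul_eq_mul, zsmul_eq_mul, zsmul_eq_mul]
    have h1 : ((a * n + b * p : ℤ) : ℝ) = 1 := by rw [hab, Int.cast_one]
    have h2 : ((m : ℤ) : ℝ) + (p : ℝ) * ((a * l / p : ℤ) : ℝ) = (a : ℝ) * l := by
      have h3 := congrArg (fun z : ℤ => (z : ℝ)) hdm
      rw [hm] at h3
      push_cast at h3 ⊢
      exact h3
    push_cast at h1 h2
    linear_combination (-g) * h1 + a * hgl - g₀ * h2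

end gen

namespace World

variable (W : World p v N L G M) (hΩ : CompleteV v)

/-- The fine projection of the coarse part. -/
theorem finePr (W' : World p v N' L' G M) (hLT : L' ≤ PM v L G M) (hNA : N ≤ A) (hAL : A ≤ L)
    (hA : Cld v A) (t : ℝ) : FinePr (VG v N) (VG v N') M (ZR v L (PM v A G M))
      (LR v L (PM v A G M)) (ZR v L' (PM v A G M)) (LR v L' (PM v A G M)) t (W.pj hΩ 0) where
  add a b ha hb := (W.isPj hΩ 0).prj.add a (hLT ha.1) b (hLT hb.1)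
  z := by
    rintro a ⟨ha, b, hb, h⟩
    have haT := hLT ha
    have hbT : b ∈ PM v L G M := PM.mono hAL hb
    refine ⟨W.pj0_memL hΩ haT, W.pj hΩ 0 b, W.pj_mem hΩ hNA hAL hA 0 hb, ?_⟩
    rw [← (W.isPj hΩ 0).prj.sub haT hbT]
    by_cases h0 : a - b = 0
    · rw [h0, (W.isPj hΩ 0).prj.zero]
      exact Gt.zero
    · exact Gt.of_ge ((W.isPj hΩ 0).prj.ge _ (sub_mem haT hbT) (v (a - b)) fun _ => le_rfl) (h h0)
  id a ha := W.pj0_self hΩ ha.1
  kill d hd hd' y hy := by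
    rw [mul_comm, W.pj0_lin hΩ hy.1 (PM.mon (W'.VG_le hd)), W.pj0_mon hΩ (W'.VG_le hd) hd',
      mul_zero]

section Free

variable [Fact p.Prime] [CharP k p] [CharP Ω p]

include W hΩ in
/-- The components of a Frobenius relation, at every radius. -/
theorem hdiv_all (hT : ∀ x : ℝ, x ∈ G) {g₀ : ℝ} (hg₀ : g₀ ∈ VG v N)
    (hg₀' : g₀ / p ∉ VG v N) (hNA : N ≤ A) (hAL : A ≤ L) (hA : Cld v A)
    (hFT : FTB p v (PM v L G M) (PM v A G M)) (R : ℝ) (y : ℕ → Ω)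
    (hy : ∀ l < p, LR v L (PM v A G M) ((R - l * g₀) / p) (y l))
    (hZ : ZR v L (PM v A G M) R (∑ l ∈ Finset.range p, M (l * g₀) * y l ^ p)) :
    ∀ l < p, ZR v L (PM v A G M) ((R - l * g₀) / p) (y l) := by
  have hp : p.Prime := Fact.out
  have hp0 : (p : ℝ) ≠ 0 := by exact_mod_cast hp.ne_zero
  have hMB : ∀ g ∈ G, M g ∈ PM v A G M := fun g hg => PM.mon hg
  have hRG : R ∈ G := hT R
  have hgG := W.VG_le hg₀
  have he : ∀ l : ℕ, (R - l * g₀) / p ∈ G := fun l => hT _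
  set Y : Ω := ∑ l ∈ Finset.range p, M (-((R - l * g₀) / p)) * y l with hY
  have hyL : ∀ l ∈ Finset.range p, y l ∈ L := fun l hl => (hy l (Finset.mem_range.1 hl)).1
  have hYT : Y ∈ PM v L G M := sum_mem fun l hl =>
    mul_mem (PM.mon (G.neg_mem (he l))) (PM.le (hyL l hl))
  have hYp : Y ^ p = M (-R) * ∑ l ∈ Finset.range p, M (l * g₀) * y l ^ p := by
    rw [hY, sum_pow_char, Finset.mul_sum]
    refine Finset.sum_congr rfl fun l _ => ?_
    rw [mul_pow, ← W.ms.pow (G.neg_mem (he l)) p, ← mul_assoc,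
      ← W.ms.mul _ (G.neg_mem hRG) _ (W.natG hgG l)]
    congr 2
    field_simp
    ring
  have hlim : ∀ (S : Finset ℕ) (x : ℕ → Ω), (∀ l ∈ S, Lim v (PM v A G M) 0 (x l)) →
      Lim v (PM v A G M) 0 (∑ l ∈ S, x l) := by
    intro S x h
    induction S using Finset.induction_on with
    | empty =>
      rw [Finset.sum_empty]
      exact TWC.Lim.of_mem (zero_mem _)
    | insert a S ha ih =>
      rw [Finset.sum_insert ha]
      exact TWC.Lim.add (h a (Finset.mem_insert_self a S))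
        (ih fun g hg => h g (Finset.mem_insert_of_mem hg))
  have hYl : Lim v (PM v A G M) 0 Y := by
    refine hlim _ _ fun l hl => ?_
    have h1 := W.lim_scale (G.neg_mem (he l)) hMB (hy l (Finset.mem_range.1 hl)).2
    rwa [add_neg_cancel] at h1
  have hYn : Nr v (PM v A G M) 0 (Y ^ p) := by
    rw [hYp]
    have h1 := W.nr_scale (G.neg_mem hRG) hMB (Nr'.nr hZ.2)
    rwa [add_neg_cancel] at h1
  have h1 := hFT Y hYT hYl hYn
  intro l hl
  have h2 := W.nr_pj0 hΩ hNA hAL hA (mul_mem (PM.mon (he l)) hYT) (W.nr_scale (he l) hMB h1)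
  rw [zero_add] at h2
  have h3 : M ((R - l * g₀) / p) * Y = ∑ l' ∈ Finset.range p,
      M (((l' : ℤ) - (l : ℤ) : ℤ) * (g₀ / p)) * y l' := by
    rw [hY, Finset.mul_sum]
    refine Finset.sum_congr rfl fun l' _ => ?_
    rw [← mul_assoc, ← W.ms.mul _ (he l) _ (G.neg_mem (he l'))]
    congr 2
    push_cast
    field_simp
    ring
  rw [h3, W.pj0_comb hΩ hg₀ hg₀' (fun l hl => Finset.mem_range.1 hl) hyL
    (Finset.mem_range.2 hl)] at h2
  exact ⟨hyL l (Finset.mem_range.2 hl), W.nr_nr' (he l) hMB h2⟩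

/-- (P), at every radius. -/
theorem propP_all {g₀ : ℝ} (hg₀ : g₀ ∈ VG v N) (hg₀' : g₀ / p ∉ VG v N) (hNA : N ≤ A) (hAL : A ≤ L)
    (hA : Cld v A) (hFV : FVB p v (PM v L G M) (PM v A G M) (W.pj hΩ 0)) :
    PropP p M (ZR v L (PM v A G M)) (LR v L (PM v A G M)) g₀ := by
  intro q e hq he hZ
  have hp : p.Prime := Fact.out
  have hp0 : (p : ℝ) ≠ 0 := by exact_mod_cast hp.ne_zero
  have hMB : ∀ g ∈ G, M g ∈ PM v A G M := fun g hg => PM.mon hg
  have hgG := W.VG_le hg₀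
  have heG : ∀ l : ℕ, (-(l * g₀)) / p ∈ G := fun l => W.div _ (G.neg_mem (W.natG hgG l))
  -- the element
  set y : ℕ → Ω := fun l => if l = 0 then q else -e l with hy
  have hyL : ∀ l ∈ Finset.range p, y l ∈ L := fun l hl => by
    rw [hy]
    dsimp only
    split_ifs with h0
    · exact hq.1
    · exact neg_mem (he l (Nat.pos_of_ne_zero h0) (Finset.mem_range.1 hl)).1
  have hyl : ∀ l ∈ Finset.range p, Lim v (PM v A G M) (-(l * g₀) / p) (y l) := fun l hl => by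
    rw [hy]
    dsimp only
    split_ifs with h0
    · rw [h0, Nat.cast_zero, zero_mul, neg_zero, zero_div]
      exact hq.2
    · intro ε hε
      obtain ⟨a, ha, h1⟩ := (he l (Nat.pos_of_ne_zero h0) (Finset.mem_range.1 hl)).2 ε hε
      refine ⟨-a, neg_mem ha, ?_⟩
      have h2 : -e l - -a = -(e l - a) := by ring
      rw [h2]
      exact h1.neg
  set Y : Ω := ∑ l ∈ Finset.range p, M (((l : ℤ) - ((0 : ℕ) : ℤ) : ℤ) * (g₀ / p)) * y l with hY
  have hZG : ∀ i : ℤ, (i : ℝ) * (g₀ / p) ∈ G := fun i => by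
    have := G.zsmul_mem (W.div _ hgG) i
    rwa [zsmul_eq_mul] at this
  have hYT : Y ∈ PM v L G M := sum_mem fun l hl => mul_mem (PM.mon (hZG _)) (PM.le (hyL l hl))
  have hπ : W.pj hΩ 0 Y = q := by
    have h1 := W.pj0_comb hΩ hg₀ hg₀' (fun l hl => Finset.mem_range.1 hl) hyL
      (Finset.mem_range.2 hp.pos)
    rw [hY, h1, hy]
    rfl
  have hYp : Y ^ p = q ^ p - ∑ l ∈ Finset.Ico 1 p, M (l * g₀) * e l ^ p := by
    have e1 : q ^ p - ∑ l ∈ Finset.Ico 1 p, M (l * g₀) * e l ^ p =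
        q ^ p + ∑ l ∈ Finset.Ico 1 p, -(M (l * g₀) * e l ^ p) := by
      rw [Finset.sum_neg_distrib]
      ring
    rw [e1, hY, sum_pow_char, Finset.range_eq_Ico, Finset.sum_eq_sum_Ico_succ_bot hp.pos]
    congr 1
    · rw [hy]
      simp only [if_true]
      rw [sub_self, Int.cast_zero, zero_mul, W.ms.zero, one_mul]
    · refine Finset.sum_congr rfl fun l hl => ?_
      have h0 : l ≠ 0 := by
        have := (Finset.mem_Ico.1 hl).1
        omega
      rw [hy]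
      simp only [if_neg h0]
      rw [mul_pow, ← W.ms.pow (hZG _) p, neg_pow, neg_one_pow_char Ω p]
      have h1 : (p : ℝ) * (((((l : ℤ) - ((0 : ℕ) : ℤ) : ℤ)) : ℝ) * (g₀ / p)) = l * g₀ := by
        push_cast
        field_simp
        ring
      rw [h1]
      ring
  have hlim : ∀ (S : Finset ℕ) (x : ℕ → Ω), (∀ l ∈ S, Lim v (PM v A G M) 0 (x l)) →
      Lim v (PM v A G M) 0 (∑ l ∈ S, x l) := by
    intro S x h
    induction S using Finset.induction_on with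
    | empty =>
      rw [Finset.sum_empty]
      exact TWC.Lim.of_mem (zero_mem _)
    | insert a S ha ih =>
      rw [Finset.sum_insert ha]
      exact TWC.Lim.add (h a (Finset.mem_insert_self a S))
        (ih fun g hg => h g (Finset.mem_insert_of_mem hg))
  have hYl : Lim v (PM v A G M) 0 Y := by
    refine hlim _ _ fun l hl => ?_
    have h1 := W.lim_scale (hZG ((l : ℤ) - ((0 : ℕ) : ℤ))) hMB (hyl l hl)
    have h2 : -(l * g₀) / p + (((l : ℤ) - ((0 : ℕ) : ℤ) : ℤ) : ℝ) * (g₀ / p) = 0 := by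
      push_cast
      ring
    rwa [h2] at h1
  have h1 := hFV Y hYT hYl (by
    rw [hπ, hYp]
    have h2 : q ^ p - ∑ l ∈ Finset.Ico 1 p, M (l * g₀) * e l ^ p - q =
        q ^ p - q - ∑ l ∈ Finset.Ico 1 p, M (l * g₀) * e l ^ p := by ring
    rw [h2]
    exact Nr'.nr hZ.2)
  have h2 := W.nr_pj0 hΩ hNA hAL hA hYT h1
  rw [hπ] at h2
  exact ⟨hq.1, Nr.nr' h2⟩

include W in
/-- **Bases of the graded modules, all radii, fine from coarse.** -/
theorem exists_free_all [IsAlgClosed k] (W' : World p v N' L' G M) (hT : ∀ x : ℝ, x ∈ G)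
    (hNN : N ≤ N') (hLL : L ≤ L') (hLT : L' ≤ PM v L G M)
    (htor : ∀ g ∈ VG v N', ∃ n : ℕ, ¬ p ∣ n ∧ (n : ℝ) * g ∈ VG v N)
    (hsat : ∀ (g : ℝ) (n : ℕ), ¬ p ∣ n → (n : ℝ) * g ∈ VG v N' → g ∈ VG v N') {g₀ : ℝ}
    (hg₀ : g₀ ∈ VG v N) (hg₀' : g₀ / p ∉ VG v N)
    (hG : ∀ g ∈ VG v N, ∃ l < p, ∃ g' ∈ VG v N, g = l * g₀ + p * g')
    (hNA : N ≤ A) (hAL : A ≤ L) (hA : Cld v A) (hNA' : N' ≤ A') (hAL' : A' ≤ L')
    (hA' : Cld v A') (hB : PM v A' G M = PM v A G M)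
    (hFT : FTB p v (PM v L G M) (PM v A G M))
    (hFV : FVB p v (PM v L G M) (PM v A G M) (W'.pj hΩ 0))
    {ι : Type*} [Fintype ι] [DecidableEq ι] (r : ι → ℝ) (w₀ : ι → Ω)
    (hw₀ : ∀ i, w₀ i ∈ L ∧ Lim v (PM v A G M) (r i) (w₀ i)) :
    ∃ (S : Finset ι) (w : ι → Ω), (∀ i ∈ S, w i ∈ L ∧ Lim v (PM v A G M) (r i) (w i)) ∧
      (∀ i, InSpan k p (VG v N) M (ZR v L (PM v A G M)) r w S (r i) (w₀ i)) ∧
      (∀ i ∈ S, InSpan k p (VG v N) M (ZR v L (PM v A G M)) r w₀ Finset.univ (r i) (w i)) ∧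
      (∀ i ∈ S, ¬ InSpan k p (VG v N) M (ZR v L (PM v A G M)) r w (S.erase i) (r i) (w i)) ∧
      FreeOn k p (VG v N) M (ZR v L (PM v A G M)) r w S := by
  have hp : p.Prime := Fact.out
  have hp0 : (p : ℝ) ≠ 0 := by exact_mod_cast hp.ne_zero
  have hTT : PM v L' G M = PM v L G M :=
    le_antisymm (PM.le_of PM.cld hLT fun _ hg => PM.mon hg) (PM.mono hLL)
  have hVG : VG v N ≤ VG v N' := VG.mono hNN
  have hMB : ∀ g ∈ G, M g ∈ PM v A G M := fun g hg => PM.mon hg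
  have hg₀c : g₀ / p ∉ VG v N' := by
    intro h
    obtain ⟨n, hn, h1⟩ := htor _ h
    refine hg₀' (mem_of_coprime (p := p) hn h1 (m := 1) ?_)
    rw [pow_one, mul_div_cancel₀ _ hp0]
    exact hg₀
  have hdiv := W'.hdiv_all hΩ hT (hVG hg₀) hg₀c hNA' hAL' hA' (by rw [hTT, hB]; exact hFT)
  have hP := W'.propP_all hΩ (hVG hg₀) hg₀c hNA' hAL' hA' (by rw [hTT, hB]; exact hFV)
  rw [hB] at hdiv hP
  obtain ⟨S, w, h1, h2, h3, h4, h5, -⟩ := exists_free_fine (Z := ZR v L (PM v A G M))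
    (L := LR v L (PM v A G M)) (Z' := ZR v L' (PM v A G M)) (L' := LR v L' (PM v A G M))
    W.msΓ W'.msΓ hVG (fun _ _ => rfl)
    (gsub_ZR W.msΓ (fun g hg => W.NL (W.monΓ g hg)) fun g hg => hMB g (hT g))
    (gsub_LR W.msΓ (fun g hg => W.NL (W.monΓ g hg)) fun g hg => hMB g (hT g))
    (fun _ _ h => h.lr)
    (gsub_ZR W'.msΓ (fun g hg => W'.NL (W'.monΓ g hg)) fun g hg => hMB g (hT g))
    (gsub_LR W'.msΓ (fun g hg => W'.NL (W'.monΓ g hg)) fun g hg => hMB g (hT g))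
    (fun _ _ h => ⟨hLL h.1, h.2⟩) (fun _ _ h => ⟨hLL h.1, h.2⟩) htor
    (fun t => ⟨_, W.finePr hΩ W' hLT hNA hAL hA t⟩) (hVG hg₀) (gen_coarse hVG htor hg₀ hG)
    hdiv hP r w₀ (fun _ _ hm h => mem_of_pow_sub hsat hm h) hw₀
  exact ⟨S, w, h1, h2, h3, h4, h5⟩

end Free

end World

/-! ### The coarse world -/

section Coarse

variable [Fact p.Prime]

theorem cs_le_top : cs p v N A M ≤ PM v A ⊤ M :=
  PM.le_of PM.cld PM.le fun _ _ => PM.mon (AddSubgroup.mem_top _)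

variable [CharP k p] [CharP Ω p]

/-- **A7.d + A7.e.** Free bases in the fine field. -/
theorem World.freeB_fine [IsAlgClosed k] [IsAlgClosed Ω] [PerfectRing k p]
    (W : World p v N L ⊤ M) (hΩ : CompleteV v)
    (W' : World p v (cs p v N N M) (cs p v N L M) ⊤ M) (hV : VG v (cs p v N N M) = satp p (VG v N))
    {g₀ : ℝ} (hg₀ : g₀ ∈ VG v N) (hg₀' : g₀ / p ∉ VG v N)
    (hG : ∀ g ∈ VG v N, ∃ l < p, ∃ g' ∈ VG v N, g = l * g₀ + p * g')
    (hNA : N ≤ A) (hAL : A ≤ L) (hA : Cld v A)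
    (hFT : FTB p v (PM v L ⊤ M) (PM v A ⊤ M))
    (hFV : FVB p v (PM v L ⊤ M) (PM v A ⊤ M) (W'.pj hΩ 0)) :
    FreeB k p v L (PM v A ⊤ M) ⊤ M := by
  intro ι _ _ r w₀ hr hw₀
  obtain ⟨S, w, h1, h2, h3, -, h4⟩ := W.exists_free_all hΩ W' (fun _ => AddSubgroup.mem_top _)
    cs_le cs_le cs_le_top (fun g hg => by rw [hV] at hg; exact hg)
    (fun g n hn h => by rw [hV] at h ⊢; exact satp_sat hn h) hg₀ hg₀' hG hNA hAL hA
    (cs_mono hNA) (cs_mono hAL) cs_cld (PM_cs A) hFT hFV r w₀ hw₀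
  have hZ : ∀ r x, ZR v L (PM v A ⊤ M) r x → Nr' v (PM v A ⊤ M) r x := fun r x h => h.2
  refine ⟨S, w, h1, fun i => inSpan_mono W.VG_le hZ (h2 i),
    fun i hi => inSpan_mono W.VG_le hZ (h3 i hi), ?_⟩
  exact W.free_G hΩ hNA hAL hA (fun i _ => hr i) (fun i hi => (h1 i hi).1)
    (fun R x _ hx h => ⟨hx, h⟩) h4

end Coarse

end Pool.Agent.TWIV
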