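import Pool.Agent.Lib.TWIV.A7d
import Pool.Agent.Lib.TWT.FreeR

/-!
# TANK W, tame case, all ranks: bases of the graded modules for all real radii

The statements of `A7d` with representatives `Λ` of `VG v N / p (VG v N)` (`TWT.Rps`).
-/

set_option autoImplicit false
set_option linter.unusedSectionVars false

open Polynomial

namespace Pool.Agent.TWIV

open Pool.Agent.H15JM (RVal)
open Pool.Agent.LU1 (VPos adj)
open Pool.Agent.D2 (Ctx0)
open Pool.Agent.D2P (hen clI mem_clI)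
open Pool.Agent.TWM Pool.Agent.TWC Pool.Agent.TWS Pool.Agent.TWT

universe u

variable {k Ω : Type u} [Field k] [Field Ω] [Algebra k Ω] {v : RVal Ω} [Fact (Ctx0 k v)]
  {N L A B N' L' A' : IntermediateField k Ω} {G Γ : AddSubgroup ℝ} {M : ℝ → Ω} {p : ℕ}
  {Λ : Finset ℝ}

namespace World

variable (W : World p v N L G M) (hΩ : CompleteV v)

section Free

variable [Fact p.Prime] [CharP k p] [CharP Ω p]

omit [CharP k p] [CharP Ω p] in
include W in
theorem rps_div (hΛ : Rps p (VG v N) Λ) {c c' : ℝ} (hc : c ∈ Λ) (hc' : c' ∈ Λ) :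
    (c' - c) / p ∈ G :=
  W.div _ (G.sub_mem (W.VG_le (hΛ.mem c' hc')) (W.VG_le (hΛ.mem c hc)))

/-- The projections of the monomials `M ((c' - c) / p)`. -/
theorem pj0_combR (hΛ : Rps p (VG v N) Λ) {y : ℝ → Ω} (hy : ∀ c ∈ Λ, y c ∈ L) {c : ℝ}
    (hc : c ∈ Λ) : W.pj hΩ 0 (∑ c' ∈ Λ, M ((c' - c) / p) * y c') = y c := by
  have hG : ∀ c' ∈ Λ, (c' - c) / p ∈ G := fun c' hc' => W.rps_div hΛ hc hc'
  rw [(W.isPj hΩ 0).prj.sum Λ fun c' hc' => mul_mem (PM.mon (hG c' hc')) (PM.le (hy c' hc'))]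
  rw [Finset.sum_eq_single c]
  · rw [mul_comm, W.pj0_lin hΩ (hy c hc) (PM.mon (hG c hc)), sub_self, zero_div,
      W.ms.zero, (W.isPj hΩ 0).prj.self 1 (one_mem _), mul_one]
  · intro c' hc' hne
    rw [mul_comm, W.pj0_lin hΩ (hy c' hc') (PM.mon (hG c' hc')), W.pj0_mon hΩ (hG c' hc')
      (fun h => hne (hΛ.inj c' hc' c hc h)), mul_zero]
  · exact fun h => absurd hc h

theorem lim_sumR {S : Finset ℝ} {x : ℝ → Ω} (h : ∀ l ∈ S, Lim v B 0 (x l)) :
    Lim v B 0 (∑ l ∈ S, x l) := by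
  classical
  induction S using Finset.induction_on with
  | empty =>
    rw [Finset.sum_empty]
    exact TWC.Lim.of_mem (zero_mem _)
  | insert a S ha ih =>
    rw [Finset.sum_insert ha]
    exact TWC.Lim.add (h a (Finset.mem_insert_self a S))
      (ih fun g hg => h g (Finset.mem_insert_of_mem hg))

include W hΩ in
/-- The components of a Frobenius relation, at every radius. -/
theorem hdiv_allR (hT : ∀ x : ℝ, x ∈ G) (hΛ : Rps p (VG v N) Λ) (hNA : N ≤ A) (hAL : A ≤ L)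
    (hA : Cld v A) (hFT : FTB p v (PM v L G M) (PM v A G M)) (R : ℝ) (y : ℝ → Ω)
    (hy : ∀ l ∈ Λ, LR v L (PM v A G M) ((R - l) / p) (y l))
    (hZ : ZR v L (PM v A G M) R (∑ l ∈ Λ, M l * y l ^ p)) :
    ∀ l ∈ Λ, ZR v L (PM v A G M) ((R - l) / p) (y l) := by
  have hp : p.Prime := Fact.out
  have hp0 : (p : ℝ) ≠ 0 := by exact_mod_cast hp.ne_zero
  have hMB : ∀ g ∈ G, M g ∈ PM v A G M := fun g hg => PM.mon hg
  have hRG : R ∈ G := hT R
  have he : ∀ l : ℝ, (R - l) / p ∈ G := fun l => hT _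
  set Y : Ω := ∑ l ∈ Λ, M (-((R - l) / p)) * y l with hY
  have hyL : ∀ l ∈ Λ, y l ∈ L := fun l hl => (hy l hl).1
  have hYT : Y ∈ PM v L G M := sum_mem fun l hl =>
    mul_mem (PM.mon (G.neg_mem (he l))) (PM.le (hyL l hl))
  have hYp : Y ^ p = M (-R) * ∑ l ∈ Λ, M l * y l ^ p := by
    rw [hY, sum_pow_char, Finset.mul_sum]
    refine Finset.sum_congr rfl fun l _ => ?_
    rw [mul_pow, ← W.ms.pow (G.neg_mem (he l)) p, ← mul_assoc,
      ← W.ms.mul _ (G.neg_mem hRG) _ (hT l)]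
    congr 2
    field_simp
    ring
  have hYl : Lim v (PM v A G M) 0 Y := by
    refine lim_sumR fun l hl => ?_
    have h1 := W.lim_scale (G.neg_mem (he l)) hMB (hy l hl).2
    rwa [add_neg_cancel] at h1
  have hYn : Nr v (PM v A G M) 0 (Y ^ p) := by
    rw [hYp]
    have h1 := W.nr_scale (G.neg_mem hRG) hMB (Nr'.nr hZ.2)
    rwa [add_neg_cancel] at h1
  have h1 := hFT Y hYT hYl hYn
  intro l hl
  have h2 := W.nr_pj0 hΩ hNA hAL hA (mul_mem (PM.mon (he l)) hYT) (W.nr_scale (he l) hMB h1)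
  rw [zero_add] at h2
  have h3 : M ((R - l) / p) * Y = ∑ l' ∈ Λ, M ((l' - l) / p) * y l' := by
    rw [hY, Finset.mul_sum]
    refine Finset.sum_congr rfl fun l' _ => ?_
    rw [← mul_assoc, ← W.ms.mul _ (he l) _ (G.neg_mem (he l'))]
    congr 2
    field_simp
    ring
  rw [h3, W.pj0_combR hΩ hΛ hyL hl] at h2
  exact ⟨hyL l hl, W.nr_nr' (he l) hMB h2⟩

/-- (P), at every radius. -/
theorem propP_allR (hΛ : Rps p (VG v N) Λ) (hNA : N ≤ A) (hAL : A ≤ L)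
    (hA : Cld v A) (hFV : FVB p v (PM v L G M) (PM v A G M) (W.pj hΩ 0)) :
    PropPR p M (ZR v L (PM v A G M)) (LR v L (PM v A G M)) Λ := by
  classical
  intro q e hq he hZ
  have hp : p.Prime := Fact.out
  have hp0 : (p : ℝ) ≠ 0 := by exact_mod_cast hp.ne_zero
  have hMB : ∀ g ∈ G, M g ∈ PM v A G M := fun g hg => PM.mon hg
  -- the element
  set y : ℝ → Ω := fun l => if l = 0 then q else -e l with hy
  have hyL : ∀ l ∈ Λ, y l ∈ L := fun l hl => by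
    rw [hy]
    dsimp only
    split_ifs with h0
    · exact hq.1
    · exact neg_mem (he l hl h0).1
  have hyl : ∀ l ∈ Λ, Lim v (PM v A G M) (-l / p) (y l) := fun l hl => by
    rw [hy]
    dsimp only
    split_ifs with h0
    · rw [h0, neg_zero, zero_div]
      exact hq.2
    · intro ε hε
      obtain ⟨a, ha, h1⟩ := (he l hl h0).2 ε hε
      refine ⟨-a, neg_mem ha, ?_⟩
      have h2 : -e l - -a = -(e l - a) := by ring
      rw [h2]
      exact h1.neg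
  set Y : Ω := ∑ l ∈ Λ, M ((l - 0) / p) * y l with hY
  have hZG : ∀ l ∈ Λ, (l - 0) / p ∈ G := fun l hl => W.rps_div hΛ hΛ.zero hl
  have hYT : Y ∈ PM v L G M := sum_mem fun l hl =>
    mul_mem (PM.mon (hZG l hl)) (PM.le (hyL l hl))
  have hπ : W.pj hΩ 0 Y = q := by
    have h1 := W.pj0_combR hΩ hΛ hyL hΛ.zero
    rw [hY, h1, hy]
    simp only [if_true]
  have hYp : Y ^ p = q ^ p - ∑ l ∈ Λ.erase 0, M l * e l ^ p := by
    have e1 : q ^ p - ∑ l ∈ Λ.erase 0, M l * e l ^ p =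
        q ^ p + ∑ l ∈ Λ.erase 0, -(M l * e l ^ p) := by
      rw [Finset.sum_neg_distrib]
      ring
    rw [e1, hY, sum_pow_char, ← Finset.add_sum_erase Λ _ hΛ.zero]
    congr 1
    · rw [hy]
      simp only [if_true]
      rw [sub_self, zero_div, W.ms.zero, one_mul]
    · refine Finset.sum_congr rfl fun l hl => ?_
      have h0 : l ≠ 0 := Finset.ne_of_mem_erase hl
      rw [hy]
      simp only [if_neg h0]
      rw [mul_pow, ← W.ms.pow (hZG l (Finset.mem_of_mem_erase hl)) p, neg_pow,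
        neg_one_pow_char Ω p]
      have h1 : (p : ℝ) * ((l - 0) / p) = l := by
        field_simp
        ring
      rw [h1]
      ring
  have hYl : Lim v (PM v A G M) 0 Y := by
    refine lim_sumR fun l hl => ?_
    have h1 := W.lim_scale (hZG l hl) hMB (hyl l hl)
    have h2 : -l / p + (l - 0) / p = 0 := by
      field_simp
      ring
    rwa [h2] at h1
  have h1 := hFV Y hYT hYl (by
    rw [hπ, hYp]
    have h2 : q ^ p - ∑ l ∈ Λ.erase 0, M l * e l ^ p - q =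
        q ^ p - q - ∑ l ∈ Λ.erase 0, M l * e l ^ p := by ring
    rw [h2]
    exact Nr'.nr hZ.2)
  have h2 := W.nr_pj0 hΩ hNA hAL hA hYT h1
  rw [hπ] at h2
  exact ⟨hq.1, Nr.nr' h2⟩

include W in
/-- **Bases of the graded modules, all radii, fine from coarse.** -/
theorem exists_free_allR [IsAlgClosed k] (W' : World p v N' L' G M) (hT : ∀ x : ℝ, x ∈ G)
    (hNN : N ≤ N') (hLL : L ≤ L') (hLT : L' ≤ PM v L G M)
    (htor : ∀ g ∈ VG v N', ∃ n : ℕ, ¬ p ∣ n ∧ (n : ℝ) * g ∈ VG v N)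
    (hsat : ∀ (g : ℝ) (n : ℕ), ¬ p ∣ n → (n : ℝ) * g ∈ VG v N' → g ∈ VG v N')
    (hΛ : Rps p (VG v N) Λ)
    (hNA : N ≤ A) (hAL : A ≤ L) (hA : Cld v A) (hNA' : N' ≤ A') (hAL' : A' ≤ L')
    (hA' : Cld v A') (hB : PM v A' G M = PM v A G M)
    (hFT : FTB p v (PM v L G M) (PM v A G M))
    (hFV : FVB p v (PM v L G M) (PM v A G M) (W'.pj hΩ 0))
    {ι : Type*} [Fintype ι] [DecidableEq ι] (r : ι → ℝ) (w₀ : ι → Ω)
    (hw₀ : ∀ i, w₀ i ∈ L ∧ Lim v (PM v A G M) (r i) (w₀ i)) :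
    ∃ (S : Finset ι) (w : ι → Ω), (∀ i ∈ S, w i ∈ L ∧ Lim v (PM v A G M) (r i) (w i)) ∧
      (∀ i, InSpan k p (VG v N) M (ZR v L (PM v A G M)) r w S (r i) (w₀ i)) ∧
      (∀ i ∈ S, InSpan k p (VG v N) M (ZR v L (PM v A G M)) r w₀ Finset.univ (r i) (w i)) ∧
      (∀ i ∈ S, ¬ InSpan k p (VG v N) M (ZR v L (PM v A G M)) r w (S.erase i) (r i) (w i)) ∧
      FreeOn k p (VG v N) M (ZR v L (PM v A G M)) r w S := by
  have hTT : PM v L' G M = PM v L G M :=
    le_antisymm (PM.le_of PM.cld hLT fun _ hg => PM.mon hg) (PM.mono hLL)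
  have hVG : VG v N ≤ VG v N' := VG.mono hNN
  have hMB : ∀ g ∈ G, M g ∈ PM v A G M := fun g hg => PM.mon hg
  have hΛ' : Rps p (VG v N') Λ := hΛ.up hVG htor
  have hdiv := W'.hdiv_allR hΩ hT hΛ' hNA' hAL' hA' (by rw [hTT, hB]; exact hFT)
  have hP := W'.propP_allR hΩ hΛ' hNA' hAL' hA' (by rw [hTT, hB]; exact hFV)
  rw [hB] at hdiv hP
  obtain ⟨S, w, h1, h2, h3, h4, h5, -⟩ := exists_free_fineR (Z := ZR v L (PM v A G M))
    (L := LR v L (PM v A G M)) (Z' := ZR v L' (PM v A G M)) (L' := LR v L' (PM v A G M))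
    W.msΓ W'.msΓ hVG (fun _ _ => rfl)
    (gsub_ZR W.msΓ (fun g hg => W.NL (W.monΓ g hg)) fun g hg => hMB g (hT g))
    (gsub_LR W.msΓ (fun g hg => W.NL (W.monΓ g hg)) fun g hg => hMB g (hT g))
    (fun _ _ h => h.lr)
    (gsub_ZR W'.msΓ (fun g hg => W'.NL (W'.monΓ g hg)) fun g hg => hMB g (hT g))
    (gsub_LR W'.msΓ (fun g hg => W'.NL (W'.monΓ g hg)) fun g hg => hMB g (hT g))
    (fun _ _ h => ⟨hLL h.1, h.2⟩) (fun _ _ h => ⟨hLL h.1, h.2⟩) htor
    (fun t => ⟨_, W.finePr hΩ W' hLT hNA hAL hA t⟩) hΛ'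
    hdiv hP r w₀ (fun _ _ hm h => mem_of_pow_sub hsat hm h) hw₀
  exact ⟨S, w, h1, h2, h3, h4, h5⟩

end Free

end World

/-! ### The coarse world -/

section Coarse

variable [Fact p.Prime] [CharP k p] [CharP Ω p]

/-- **A7.d + A7.e.** Free bases in the fine field. -/
theorem World.freeB_fineR [IsAlgClosed k] [IsAlgClosed Ω] [PerfectRing k p]
    (W : World p v N L ⊤ M) (hΩ : CompleteV v)
    (W' : World p v (cs p v N N M) (cs p v N L M) ⊤ M) (hV : VG v (cs p v N N M) = satp p (VG v N))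
    (hΛ : Rps p (VG v N) Λ) (hNA : N ≤ A) (hAL : A ≤ L) (hA : Cld v A)
    (hFT : FTB p v (PM v L ⊤ M) (PM v A ⊤ M))
    (hFV : FVB p v (PM v L ⊤ M) (PM v A ⊤ M) (W'.pj hΩ 0)) :
    FreeB k p v L (PM v A ⊤ M) ⊤ M := by
  intro ι _ _ r w₀ hr hw₀
  obtain ⟨S, w, h1, h2, h3, -, h4⟩ := W.exists_free_allR hΩ W' (fun _ => AddSubgroup.mem_top _)
    cs_le cs_le cs_le_top (fun g hg => by rw [hV] at hg; exact hg)
    (fun g n hn h => by rw [hV] at h ⊢; exact satp_sat hn h) hΛ hNA hAL hA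
    (cs_mono hNA) (cs_mono hAL) cs_cld (PM_cs A) hFT hFV r w₀ hw₀
  have hZ : ∀ r x, ZR v L (PM v A ⊤ M) r x → Nr' v (PM v A ⊤ M) r x := fun r x h => h.2
  refine ⟨S, w, h1, fun i => inSpan_mono W.VG_le hZ (h2 i),
    fun i hi => inSpan_mono W.VG_le hZ (h3 i hi), ?_⟩
  exact W.free_G hΩ hNA hAL hA (fun i _ => hr i) (fun i hi => (h1 i hi).1)
    (fun R x _ hx h => ⟨hx, h⟩) h4

end Coarse

end Pool.Agent.TWIV
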