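import Pool.Agent.Lib.TWIV.NSDH
import Pool.Agent.Lib.TWIV.OpA

/-!
# TANK W, leaf (IV): the operators `1`, `pr_c` in the form of `OpA`, `Stb`

* `GrE.opA`, `opA_of`: `AA pr` is a space of operators of norm `≤ 0`;
* `stb_of`: homogeneous elements.
-/

set_option autoImplicit false
set_option linter.unusedSectionVars false

open Polynomial

namespace Pool.Agent.TWIV

open Pool.Agent.H15JM (RVal)
open Pool.Agent.D2 (Ctx0)
open Pool.Agent.TWC (Nul)

universe u

variable {k H : Type u} [Field k] [Field H] [Algebra k H] {v : RVal H} {p : ℕ} [hp : Fact p.Prime]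
  [CharP H p] [PerfectRing H p]
  {A : Type*} [AddCommGroup A] {pr : A → H →ₗ[k] H}

/-- the space of operators -/
theorem opA_of (h : GrP p v pr) (ho : ∀ c d x, c ≠ d → pr c (pr d x) = 0) (hk : Ctx0 k v) :
    OpA v (AA pr) where
  one := AA_one
  ge φ hφ x b hb := by
    rw [AA] at hφ
    induction hφ using Submodule.span_induction with
    | mem φ hφ =>
      rcases Set.mem_insert_iff.1 hφ with rfl | ⟨c, rfl⟩
      · exact hb
      · exact h.ge b c x hb
    | zero => exact RVal.Ge.zero
    | add φ ψ _ _ h1 h2 => exact h1.add h2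
    | smul a φ _ h1 =>
      rw [LinearMap.smul_apply, Algebra.smul_def]
      have h2 := RVal.Ge.mul (hk.ge a) h1
      rwa [zero_add] at h2
  const φ hφ := by
    classical
    rw [AA] at hφ
    induction hφ using Submodule.span_induction with
    | mem φ hφ =>
      rcases Set.mem_insert_iff.1 hφ with rfl | ⟨c, rfl⟩
      · exact ⟨1, by rw [Module.End.one_apply, map_one]⟩
      · by_cases hc : c = 0
        · exact ⟨1, by rw [hc, h.one, map_one]⟩
        · refine ⟨0, ?_⟩
          rw [map_zero, ← h.one, ho c 0 _ hc]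
    | zero => exact ⟨0, by rw [map_zero]; rfl⟩
    | add φ ψ _ _ h1 h2 =>
      obtain ⟨a, ha⟩ := h1
      obtain ⟨b, hb⟩ := h2
      exact ⟨a + b, by rw [LinearMap.add_apply, ha, hb, map_add]⟩
    | smul a φ _ h1 =>
      obtain ⟨b, hb⟩ := h1
      exact ⟨a * b, by rw [LinearMap.smul_apply, hb, Algebra.smul_def, map_mul]⟩

/-- the conjugate of `pr_c` by a homogeneous element -/
theorem cj_pr (h : GrP p v pr) {z : H} (hz : z ≠ 0) {ζ : A} (hζ : pr ζ z = z) (c : A) :
    cj z (pr c) = pr (c - ζ) := by
  ext x
  rw [cj_apply, h.mul_left hζ, inv_mul_cancel_left₀ hz]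

/-- a homogeneous element is homogeneous for the operators -/
theorem stb_of (h : GrP p v pr) {B : IntermediateField k H} (hB : ∀ c, ∀ x ∈ B, pr c x ∈ B)
    {z : H} (hz : z ≠ 0) {ζ : A} (hζ : pr ζ z = z) : Stb (AA pr) B z where
  mem φ hφ x hx := by
    rw [AA] at hφ
    induction hφ using Submodule.span_induction with
    | mem φ hφ =>
      rcases Set.mem_insert_iff.1 hφ with rfl | ⟨c, rfl⟩
      · exact hx
      · exact hB c x hx
    | zero => exact zero_mem B
    | add φ ψ _ _ h1 h2 => exact add_mem h1 h2
    | smul a φ _ h1 => exact B.smul_mem h1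
  cj φ hφ := by
    rw [AA] at hφ
    induction hφ using Submodule.span_induction with
    | mem φ hφ =>
      rcases Set.mem_insert_iff.1 hφ with rfl | ⟨c, rfl⟩
      · have h1 : cj z (1 : Module.End k H) = 1 := by
          ext x
          rw [cj_apply, Module.End.one_apply, Module.End.one_apply, inv_mul_cancel_left₀ hz]
        rw [h1]
        exact AA_one
      · rw [cj_pr h hz hζ]
        exact AA_pr _
    | zero =>
      have h1 : cj z (0 : Module.End k H) = 0 := by
        ext x
        rw [cj_apply, LinearMap.zero_apply, LinearMap.zero_apply, mul_zero]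
      rw [h1]
      exact zero_mem _
    | add φ ψ _ _ h1 h2 =>
      have h3 : cj z (φ + ψ) = cj z φ + cj z ψ := by
        ext x
        rw [cj_apply, LinearMap.add_apply, LinearMap.add_apply, cj_apply, cj_apply, mul_add]
      rw [h3]
      exact add_mem h1 h2
    | smul a φ _ h1 =>
      have h3 : cj z (a • φ) = a • cj z φ := by
        ext x
        rw [cj_apply, LinearMap.smul_apply, LinearMap.smul_apply, cj_apply, mul_smul_comm]
      rw [h3]
      exact Submodule.smul_mem _ _ h1

section

variable [CharP k p] [PerfectRing k p] {E : IntermediateField k H} (h : GrE p v pr E)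
  (hk : Ctx0 k v)

include h

include hk in
theorem GrE.opA : OpA v (AA pr) := opA_of h.gr h.orth hk

theorem GrE.stb {z : H} (hz : z ≠ 0) {ζ : A} (hζ : pr ζ z = z) : Stb (AA pr) E z :=
  stb_of h.gr h.mem hz hζ

end

end Pool.Agent.TWIV
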