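import Pool.Agent.Lib.TWC.Bdd2
import Pool.Agent.Lib.TWC.Spl

/-!
# TANK W, leaf (IV): bounded degree without perfectness

The base `E` is a closed field, `z` a limit of level `0` over `E`, `E` need not be perfect.

* `trunc_near`: if the Hasse derivatives of order `> D` of `g` have value `≥ r` at `z`, then `g` is
  near to a polynomial of degree `≤ D`;
* `deg_root'`: if `g ^ q` is near to a polynomial `F`, then `g` is near to a polynomial of degree
  `≤ deg F / q`;
* `POp`: an additive operator on the polynomials over `E`, which does not raise the degree and has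
  norm `≤ 0` at `z`;
* `Sys`: a system of relations `x_j ^ q = ∑ (Φ x_l) ^ (p ^ a) + κ_j`;
* `Sys.bdd`, `Sys.bdd'`: the solutions of a system have approximants of bounded degree.
-/

set_option autoImplicit false

open Polynomial

namespace Pool.Agent.TWIV

open Pool.Agent.H15JM (RVal)
open Pool.Agent.LU1 (VPos adj)
open Pool.Agent.D2 (Ctx0)
open Pool.Agent.TWM Pool.Agent.TWC

universe u

section Root

variable {k Ω : Type u} [Field k] [Field Ω] [Algebra k Ω] {v : RVal Ω}
  {E : IntermediateField k Ω} {z : Ω} [IsAlgClosed Ω]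

/-- The truncation at a point of `E` near `z`. -/
theorem trunc_near (h : TL v E z 0) {g : Polynomial Ω} (hg : g ∈ PI E) {r : ℝ} (D : ℕ)
    (hD : ∀ l, D < l → v.Ge r ((hasseDeriv l g).eval z)) {ε : ℝ} (hε : 0 < ε) :
    ∃ g' ∈ PI E, g'.natDegree ≤ D ∧ g'.natDegree ≤ g.natDegree ∧
      v.Ge (r - ε) (g.eval z - g'.eval z) := by
  classical
  set d := g.natDegree with hd
  obtain ⟨δ, hδ, hmar⟩ := ge_near_fin h
    (((Finset.range (d + 1)).filter fun l => D < l).image fun l => hasseDeriv l g)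
    (r := r) (by
      intro f hf
      obtain ⟨l, hl, rfl⟩ := Finset.mem_image.1 hf
      obtain ⟨-, hl2⟩ := Finset.mem_filter.1 hl
      exact ⟨hasse_mem_PI hg l, hD l hl2⟩)
  obtain ⟨ψ, hψE, hψ⟩ := h.lim (min δ (ε / (d + 1))) (lt_min hδ (by positivity))
  rw [zero_sub] at hψ
  have hmar' := hmar ψ (hψ.mono (neg_le_neg (min_le_left _ _)))
  have hψ' : v.Ge (-(ε / (d + 1))) (z - ψ) := hψ.mono (neg_le_neg (min_le_right _ _))
  set T := taylor ψ g with hT
  have hTE : T ∈ PI E := taylor_mem_PI hg hψE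
  have hTD : T.natDegree = d := by rw [hT, natDegree_taylor]
  set g₁ : Polynomial Ω :=
    ∑ l ∈ (Finset.range (d + 1)).filter (fun l => ¬ D < l), monomial l (T.coeff l) with hg₁
  have hg₁E : g₁ ∈ PI E := sum_mem fun j _ => by
    intro i
    rw [coeff_monomial]
    split_ifs
    exacts [hTE _, zero_mem _]
  have hg₁D : g₁.natDegree ≤ D := by
    refine natDegree_sum_le_of_forall_le _ _ fun j hj => ?_
    have := (Finset.mem_filter.1 hj).2
    exact (natDegree_monomial_le _).trans (by omega)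
  have hg₁d : g₁.natDegree ≤ d := by
    refine natDegree_sum_le_of_forall_le _ _ fun j hj => ?_
    have := Finset.mem_range.1 (Finset.mem_filter.1 hj).1
    exact (natDegree_monomial_le _).trans (by omega)
  refine ⟨taylor (-ψ) g₁, taylor_mem_PI hg₁E (neg_mem hψE), ?_, ?_, ?_⟩
  · rwa [natDegree_taylor]
  · rwa [natDegree_taylor]
  have h5 : (taylor (-ψ) g₁).eval z = ∑ l ∈ (Finset.range (d + 1)).filter (fun l => ¬ D < l),
      T.coeff l * (z - ψ) ^ l := by
    rw [taylor_eval, ← sub_eq_add_neg, hg₁, eval_finsetSum]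
    exact Finset.sum_congr rfl fun l _ => eval_monomial
  have h6 : g.eval z = ∑ l ∈ Finset.range (d + 1), T.coeff l * (z - ψ) ^ l := by
    have h7 : g.eval z = T.eval (z - ψ) := by rw [hT, taylor_eval, sub_add_cancel]
    rw [h7, eval_eq_sum_range' (n := d + 1) (by rw [hTD]; omega)]
  rw [h5, h6, ← Finset.sum_filter_add_sum_filter_not (Finset.range (d + 1)) (fun l => D < l),
    add_sub_cancel_right]
  refine RVal.Ge.sum _ _ fun l hl => ?_
  obtain ⟨hl1, hl2⟩ := Finset.mem_filter.1 hl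
  have hl1' := Finset.mem_range.1 hl1
  have h8 : v.Ge r (T.coeff l) := by
    rw [hT, taylor_coeff]
    exact hmar' _ (Finset.mem_image.2 ⟨l, hl, rfl⟩)
  refine (h8.mul (ge_pow hψ' l)).mono ?_
  have h12 : (l : ℝ) ≤ d + 1 := by exact_mod_cast (by omega : l ≤ d + 1)
  have h13 : (l : ℝ) * (ε / (d + 1)) ≤ ε := by
    rw [mul_div_assoc', div_le_iff₀ (by positivity)]
    nlinarith
  linarith

/-- The degree of a root: if `g ^ q` is near to a polynomial `F` at `z`, then `g` is near to a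
polynomial of degree `≤ deg F / q`. -/
theorem deg_root' (h : TL v E z 0) (p : ℕ) [Fact p.Prime] [CharP Ω p] (q : ℕ)
    {F g : Polynomial Ω} (hF : F ∈ PI E) (hg : g ∈ PI E) {r : ℝ}
    (hr : v.Ge ((p ^ q : ℕ) * r) (g.eval z ^ p ^ q - F.eval z)) {ε : ℝ} (hε : 0 < ε) :
    ∃ g' ∈ PI E, p ^ q * g'.natDegree ≤ F.natDegree ∧ g'.natDegree ≤ g.natDegree ∧
      v.Ge (r - ε) (g.eval z - g'.eval z) := by
  have hp : p.Prime := Fact.out
  have hpq : 0 < p ^ q := pow_pos hp.pos q
  have hpq' : (0 : ℝ) < (p ^ q : ℕ) := by exact_mod_cast hpq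
  obtain ⟨g', h1, h2, h3, h4⟩ := trunc_near h hg (r := r) (F.natDegree / p ^ q) (by
    intro l hl
    have h2 : v.Ge ((p ^ q : ℕ) * r) ((g ^ p ^ q - F).eval z) := by
      rw [eval_sub, eval_pow]
      exact hr
    have h3 := hasse_ge h (sub_mem (pow_mem hg _) hF) h2 (p ^ q * l)
    have h4 : hasseDeriv (p ^ q * l) F = 0 := by
      refine hasseDeriv_eq_zero_of_lt_natDegree _ _ ?_
      have := Nat.lt_mul_of_div_lt hl hpq
      rwa [mul_comm] at this
    rw [map_sub, h4, sub_zero, mul_comm (p ^ q) l, hasse_pow_mul p q z g] at h3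
    intro h0
    have h5 := h3 (pow_ne_zero _ h0)
    rw [RVal.map_pow _ h0] at h5
    exact le_of_mul_le_mul_left h5 hpq') hε
  exact ⟨g', h1, (Nat.mul_le_mul_left _ h2).trans (Nat.mul_div_le _ _), h3, h4⟩

end Root

section Main

variable {k Ω : Type u} [Field k] [Field Ω] [Algebra k Ω] {v : RVal Ω}
  {E : IntermediateField k Ω} {z : Ω}

/-- An additive operator on the polynomials over `E`. -/
structure POp (v : RVal Ω) (E : IntermediateField k Ω) (z : Ω)
    (Φ : Polynomial Ω → Polynomial Ω) : Prop where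
  mem : ∀ f ∈ PI E, Φ f ∈ PI E
  sub : ∀ f ∈ PI E, ∀ g ∈ PI E, Φ (f - g) = Φ f - Φ g
  deg : ∀ f ∈ PI E, (Φ f).natDegree ≤ f.natDegree
  ge : ∀ f ∈ PI E, ∀ b : ℝ, v.Ge b (f.eval z) → v.Ge b ((Φ f).eval z)

/-- A system of relations for sequences of polynomials over `E`, Cauchy at `z`. -/
structure Sys (p : ℕ) (v : RVal Ω) (E : IntermediateField k Ω) (z : Ω) {ι : Type} [Fintype ι]
    (x : ι → ℕ → Polynomial Ω) (n : ℕ) (Φ : ℕ → ι → ι → Polynomial Ω → Polynomial Ω)
    (kap : ι → Polynomial Ω) : Prop where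
  pc : ∀ j, PC v E z (x j)
  opr : ∀ a < n, ∀ j l, POp v E z (Φ a j l)
  mem : ∀ j, kap j ∈ PI E
  rel : ∀ j, Nul v (fun i => (x j i).eval z ^ p ^ n -
    ∑ a ∈ Finset.range n, ∑ l, (Φ a j l (x l i)).eval z ^ p ^ a - (kap j).eval z)

/-- `D` bounds the degrees of the approximants up to `-ε`. -/
def DBd (v : RVal Ω) (E : IntermediateField k Ω) (z : Ω) {ι : Type}
    (x : ι → ℕ → Polynomial Ω) (ε : ℝ) (D : ℕ) : Prop :=
  ∀ j, ∃ f ∈ PI E, f.natDegree ≤ D ∧ ∃ N : ℕ, ∀ i, N ≤ i → v.Ge (-ε) ((x j i - f).eval z)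

variable (p : ℕ) [Fact p.Prime] [CharP Ω p] [IsAlgClosed Ω]

theorem Sys.db_step (hz : TL v E z 0) {ι : Type} [Fintype ι] {x : ι → ℕ → Polynomial Ω} {n : ℕ}
    {Φ : ℕ → ι → ι → Polynomial Ω → Polynomial Ω} {kap : ι → Polynomial Ω}
    (R : Sys p v E z x n Φ kap) (hn : 1 ≤ n) {D : ℕ}
    (hK : ∀ j, (kap j).natDegree ≤ D) {ε δ : ℝ} (hε : 0 < ε) (hδ : 0 < δ)
    (hD : DBd v E z x (p * ε) D) : DBd v E z x (ε + δ) D := by
  classical
  have hp : p.Prime := Fact.out
  have hp1 : (1 : ℝ) ≤ p := by exact_mod_cast hp.one_lt.le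
  intro j
  choose f hfE hfD Nf hf using hD
  set F : Polynomial Ω := ∑ a ∈ Finset.range n, ∑ l, (Φ a j l (f l)) ^ p ^ a + kap j with hF
  have hFE : F ∈ PI E := add_mem (sum_mem fun a ha => sum_mem fun l _ =>
    pow_mem ((R.opr a (Finset.mem_range.1 ha) j l).mem _ (hfE l)) _) (R.mem j)
  have hFD : F.natDegree ≤ p ^ (n - 1) * D := by
    refine natDegree_add_le_of_degree_le ?_ ?_
    · refine natDegree_sum_le_of_forall_le _ _ fun a ha => ?_
      refine natDegree_sum_le_of_forall_le _ _ fun l _ => ?_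
      refine natDegree_pow_le.trans ?_
      have ha' := Finset.mem_range.1 ha
      refine Nat.mul_le_mul (Nat.pow_le_pow_right hp.pos (by omega)) ?_
      exact ((R.opr a ha' j l).deg _ (hfE l)).trans (hfD l)
    · refine (hK j).trans (Nat.le_mul_of_pos_left _ (pow_pos hp.pos _))
  -- a large index
  obtain ⟨N1, hN1⟩ := R.rel j ((p ^ n : ℕ) * ε) (by have := pow_pos hp.pos n; positivity)
  obtain ⟨N2, hN2⟩ := (R.pc j).cau ε hε
  set N := max (max N1 N2) (Finset.univ.sup Nf) with hN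
  have hNf : ∀ l, Nf l ≤ N := fun l => (Finset.le_sup (Finset.mem_univ l)).trans (le_max_right _ _)
  have h1 : v.Ge ((p ^ n : ℕ) * (-ε)) ((x j N).eval z ^ p ^ n - F.eval z) := by
    have h2 := hN1 N ((le_max_left _ _).trans (le_max_left _ _))
    have h3 : (x j N).eval z ^ p ^ n - F.eval z =
        ((x j N).eval z ^ p ^ n - ∑ a ∈ Finset.range n, ∑ l,
          (Φ a j l (x l N)).eval z ^ p ^ a - (kap j).eval z) +
        ∑ a ∈ Finset.range n, ∑ l, (Φ a j l (x l N - f l)).eval z ^ p ^ a := by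
      rw [hF, eval_add, eval_finsetSum]
      have h4 : ∀ a ∈ Finset.range n, ((∑ l, (Φ a j l (f l)) ^ p ^ a : Polynomial Ω)).eval z =
          ∑ l, (Φ a j l (x l N)).eval z ^ p ^ a -
          ∑ l, (Φ a j l (x l N - f l)).eval z ^ p ^ a := by
        intro a ha
        rw [eval_finsetSum, ← Finset.sum_sub_distrib]
        refine Finset.sum_congr rfl fun l _ => ?_
        rw [← sub_pow_char_pow, eval_pow,
          (R.opr a (Finset.mem_range.1 ha) j l).sub _ ((R.pc l).mem N) _ (hfE l), eval_sub]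
        congr 1
        ring
      rw [Finset.sum_congr rfl h4, Finset.sum_sub_distrib]
      ring
    rw [h3]
    refine (h2.mono (by linarith)).add (RVal.Ge.sum _ _ fun a ha => RVal.Ge.sum _ _ fun l _ => ?_)
    have h5 : v.Ge (-(p * ε)) ((x l N - f l).eval z) := hf l N (hNf l)
    have h6 : v.Ge (-(p * ε)) ((Φ a j l (x l N - f l)).eval z) :=
      (R.opr a (Finset.mem_range.1 ha) j l).ge _ (sub_mem ((R.pc l).mem N) (hfE l)) _ h5
    refine (ge_pow h6 (p ^ a)).mono ?_
    have ha' := Finset.mem_range.1 ha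
    have h7 : (p : ℝ) ^ (a + 1) ≤ (p : ℝ) ^ n := pow_le_pow_right₀ hp1 (by omega)
    have h8 : (p : ℝ) ^ (a + 1) * ε ≤ (p : ℝ) ^ n * ε := mul_le_mul_of_nonneg_right h7 hε.le
    push_cast
    rw [pow_succ] at h8
    linarith
  obtain ⟨g', hg'E, hg'D, -, hg'⟩ := deg_root' hz p n hFE ((R.pc j).mem N) h1 hδ
  refine ⟨g', hg'E, ?_, N, fun i hi => ?_⟩
  · have h9 : p ^ n * g'.natDegree ≤ p ^ n * D := by
      refine hg'D.trans (hFD.trans (Nat.mul_le_mul_right _ (Nat.pow_le_pow_right hp.pos ?_)))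
      omega
    exact Nat.le_of_mul_le_mul_left h9 (pow_pos hp.pos n)
  · have h10 := hN2 i N (((le_max_right _ _).trans (le_max_left _ _)).trans hi)
      ((le_max_right _ _).trans (le_max_left _ _))
    have h11 : (x j i - g').eval z = (x j i - x j N).eval z + ((x j N).eval z - g'.eval z) := by
      rw [eval_sub, eval_sub]
      ring
    rw [h11]
    exact (h10.mono (by linarith)).add (hg'.mono (by linarith))

/-- The solutions of a system are limits of polynomials of bounded degree. -/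
theorem Sys.bdd (hz : TL v E z 0) {ι : Type} [Fintype ι] {x : ι → ℕ → Polynomial Ω} {n : ℕ}
    {Φ : ℕ → ι → ι → Polynomial Ω → Polynomial Ω} {kap : ι → Polynomial Ω}
    (R : Sys p v E z x n Φ kap) (hn : 1 ≤ n) :
    ∃ D : ℕ, ∀ j, ∀ ε : ℝ, 0 < ε → ∃ f ∈ PI E, f.natDegree ≤ D ∧
      ∃ N : ℕ, ∀ i, N ≤ i → v.Ge (-ε) ((x j i - f).eval z) := by
  classical
  have hp : p.Prime := Fact.out
  have hp2 : (2 : ℝ) ≤ p := by exact_mod_cast hp.two_le
  -- the start
  choose M hM using fun j => (R.pc j).cau 1 one_pos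
  set D : ℕ := Finset.univ.sup (fun j => (x j (M j)).natDegree) ⊔
    Finset.univ.sup (fun j => (kap j).natDegree) with hD
  have hK : ∀ j, (kap j).natDegree ≤ D := fun j =>
    (Finset.le_sup (f := fun j => (kap j).natDegree) (Finset.mem_univ j)).trans le_sup_right
  have h0 : DBd v E z x 1 D := fun j => ⟨x j (M j), (R.pc j).mem _,
    (Finset.le_sup (f := fun j => (x j (M j)).natDegree) (Finset.mem_univ j)).trans le_sup_left,
    M j, fun i hi => hM j i (M j) hi le_rfl⟩
  -- all precisions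
  have h1 : ∀ m : ℕ, DBd v E z x ((3 / 4 : ℝ) ^ m) D := by
    intro m
    induction m with
    | zero => simpa using h0
    | succ m ih =>
      have h2 : (0 : ℝ) < (3 / 4 : ℝ) ^ m := by positivity
      have h3 : DBd v E z x (p * ((3 / 4 : ℝ) ^ m / p)) D := by
        rwa [mul_div_cancel₀ _ (by positivity : (p : ℝ) ≠ 0)]
      have h4 := Sys.db_step p hz R hn hK (ε := (3 / 4 : ℝ) ^ m / p)
        (δ := (3 / 4 : ℝ) ^ m / 4) (by positivity) (by positivity) h3
      intro j
      obtain ⟨f, hfE, hfD, N, hN⟩ := h4 j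
      refine ⟨f, hfE, hfD, N, fun i hi => (hN i hi).mono ?_⟩
      have h5 : (3 / 4 : ℝ) ^ m / p ≤ (3 / 4 : ℝ) ^ m / 2 :=
        div_le_div_of_nonneg_left h2.le (by norm_num) hp2
      rw [pow_succ]
      linarith
  refine ⟨D, fun j ε hε => ?_⟩
  obtain ⟨m, hm⟩ := exists_pow_lt_of_lt_one hε (by norm_num : (3 / 4 : ℝ) < 1)
  obtain ⟨f, hfE, hfD, N, hN⟩ := h1 m j
  exact ⟨f, hfE, hfD, N, fun i hi => (hN i hi).mono (by linarith)⟩

omit [IsAlgClosed Ω] in
/-- A system depends only on the limits. -/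
theorem Sys.congr_nul {ι : Type} [Fintype ι] {x y : ι → ℕ → Polynomial Ω} {n : ℕ}
    {Φ : ℕ → ι → ι → Polynomial Ω → Polynomial Ω} {kap : ι → Polynomial Ω}
    (R : Sys p v E z x n Φ kap) (hy : ∀ j i, y j i ∈ PI E)
    (hxy : ∀ j, Nul v fun i => (x j i - y j i).eval z) : Sys p v E z y n Φ kap where
  pc j := (R.pc j).of_nul (hy j) (hxy j)
  opr := R.opr
  mem := R.mem
  rel j := by
    have h1 := R.rel j
    have h2 : Nul v fun i => ((x j i - y j i).eval z) ^ p ^ n := (hxy j).pow _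
    have h3 : Nul v fun i => ∑ a ∈ Finset.range n, ∑ l,
        ((Φ a j l (x l i - y l i)).eval z) ^ p ^ a := by
      refine Nul.sum _ (fun a i => ∑ l, ((Φ a j l (x l i - y l i)).eval z) ^ p ^ a)
        fun a ha => ?_
      refine Nul.sum _ (fun l i => ((Φ a j l (x l i - y l i)).eval z) ^ p ^ a) fun l _ => ?_
      refine Nul.pow (x := fun i => (Φ a j l (x l i - y l i)).eval z) ?_ _
      intro ε hε
      obtain ⟨N, hN⟩ := hxy l ε hε
      exact ⟨N, fun i hi => (R.opr a (Finset.mem_range.1 ha) j l).ge _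
        (sub_mem ((R.pc l).mem i) (hy l i)) _ (hN i hi)⟩
    refine ((h1.sub h2).add h3).congr fun i => ?_
    rw [eval_sub, sub_pow_char_pow]
    have h4 : ∀ a ∈ Finset.range n, ∑ l, ((Φ a j l (x l i - y l i)).eval z) ^ p ^ a =
        ∑ l, (Φ a j l (x l i)).eval z ^ p ^ a - ∑ l, (Φ a j l (y l i)).eval z ^ p ^ a := by
      intro a ha
      rw [← Finset.sum_sub_distrib]
      refine Finset.sum_congr rfl fun l _ => ?_
      rw [← sub_pow_char_pow,
        (R.opr a (Finset.mem_range.1 ha) j l).sub _ ((R.pc l).mem i) _ (hy l i), eval_sub]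
    rw [Finset.sum_congr rfl h4, Finset.sum_sub_distrib]
    ring

/-- The relations hold for sequences of bounded degree. -/
theorem Sys.bdd' (hz : TL v E z 0) {ι : Type} [Fintype ι] {x : ι → ℕ → Polynomial Ω} {n : ℕ}
    {Φ : ℕ → ι → ι → Polynomial Ω → Polynomial Ω} {kap : ι → Polynomial Ω}
    (R : Sys p v E z x n Φ kap) (hn : 1 ≤ n) :
    ∃ (D : ℕ) (y : ι → ℕ → Polynomial Ω), Sys p v E z y n Φ kap ∧
      (∀ j i, (y j i).natDegree ≤ D) ∧ ∀ j, Nul v fun i => (x j i - y j i).eval z := by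
  obtain ⟨D, hD⟩ := Sys.bdd p hz R hn
  choose f hfE hfD N hN using fun (j : ι) (i : ℕ) => hD j (1 / ((i : ℝ) + 1)) (by positivity)
  have hnul : ∀ j, Nul v fun i => (x j i - f j i).eval z := by
    intro j ε hε
    obtain ⟨m, hm⟩ := exists_nat_gt (1 / ε)
    obtain ⟨M, hM⟩ := (R.pc j).cau ε hε
    refine ⟨max M m, fun i hi => ?_⟩
    have h1 := hM i (max i (N j i)) ((le_max_left _ _).trans hi)
      (((le_max_left _ _).trans hi).trans (le_max_left _ _))
    have h2 := hN j i (max i (N j i)) (le_max_right _ _)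
    have h3 : v.Ge (-ε) ((x j (max i (N j i)) - f j i).eval z) := by
      refine h2.mono ?_
      have h4 : (m : ℝ) ≤ i := by exact_mod_cast (le_max_right _ _).trans hi
      have h5 : 1 / ((i : ℝ) + 1) ≤ ε := by
        rw [div_le_iff₀ (by positivity)]
        rw [div_lt_iff₀ hε] at hm
        nlinarith
      linarith
    have h6 := h1.add h3
    rw [← eval_add, sub_add_sub_cancel] at h6
    exact h6
  exact ⟨D, f, Sys.congr_nul p R hfE hnul, hfD, hnul⟩

end Main

end Pool.Agent.TWIV
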