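import Pool.Agent.Lib.TWC.Poly

/-!
# TANK W, leaf (IV), shape (1,2)': polynomial lemmas

`z` of transcendental type and radius `0` over `E`, `f ∈ E[z]`.
* `split_core`: if the derivatives of the orders prime to `p` are integral then
  `f(z) = g(z ^ p) + c z` modulo positive values, `c ∈ k`;
* `approx_root`: if the first derivative is of value `≥ r` then `f(z) = g(z) ^ p` up to `r - δ`,
  `E` perfect;
* `int_one`: integration in one direction, if the `(p - 1)`-th derivative is of positive value.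
-/

set_option autoImplicit false

open Polynomial

namespace Pool.Agent.TWIV

open Pool.Agent.H15JM (RVal)
open Pool.Agent.D2 (Ctx0)
open Pool.Agent.TWM
open Pool.Agent.TWC (margin_aux hasse_gt_all hasse_all hasse_gt hasse_ge)

universe u

variable {k Ω : Type u} [Field k] [Field Ω] [Algebra k Ω] {v : RVal Ω}
  {A E : IntermediateField k Ω} {z : Ω}

/-- The value of a polynomial with small coefficients at a small element. -/
theorem eval_ge_of_coeff {f : Polynomial Ω} {D : ℕ} (hD : f.natDegree ≤ D) {m δ : ℝ} {x : Ω}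
    (hc : ∀ l, v.Ge m (f.coeff l)) (hδ : 0 ≤ δ) (hx : v.Ge (-δ) x) :
    v.Ge (m - D * δ) (f.eval x) := by
  rw [eval_eq_sum_range' (n := D + 1) (by omega)]
  refine RVal.Ge.sum _ _ fun l hl => ?_
  have h1 : l ≤ D := by have := Finset.mem_range.1 hl; omega
  refine (RVal.Ge.mul (hc l) (ge_pow hx l)).mono ?_
  have h2 : (l : ℝ) ≤ D := by exact_mod_cast h1
  nlinarith

/-- `T = expand p (contract p T) + R`, `R` the part of the exponents prime to `p`. -/
theorem contract_part (p : ℕ) [hp : Fact p.Prime] (T : Polynomial Ω) {D : ℕ}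
    (hD : T.natDegree ≤ D) :
    (T - expand Ω p (contract p T)).natDegree ≤ D ∧
    ∀ l, (T - expand Ω p (contract p T)).coeff l = if p ∣ l then 0 else T.coeff l := by
  have h1 : ∀ l, (T - expand Ω p (contract p T)).coeff l = if p ∣ l then 0 else T.coeff l := by
    intro l
    rw [coeff_sub, coeff_expand hp.out.pos]
    split_ifs with h3
    · rw [coeff_contract hp.out.ne_zero, Nat.div_mul_cancel h3, sub_self]
    · rw [sub_zero]
  refine ⟨?_, h1⟩
  rw [natDegree_le_iff_coeff_eq_zero]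
  intro l hl
  rw [h1]
  split_ifs
  · rfl
  · exact coeff_eq_zero_of_natDegree_lt (by omega)

theorem contract_mem_PI (p : ℕ) [hp : Fact p.Prime] {T : Polynomial Ω} (hT : T ∈ PI A) :
    contract p T ∈ PI A := fun j => by
  rw [coeff_contract hp.out.ne_zero]
  exact hT _

/-- `(expand p S)(z - ψ) = S'(z ^ p)`, `S'` the Taylor shift by `- ψ ^ p`. -/
theorem expand_shift (p : ℕ) [hp : Fact p.Prime] [CharP Ω p] (S : Polynomial Ω) (z ψ : Ω) :
    (expand Ω p S).eval (z - ψ) = (taylor (-ψ ^ p) S).eval (z ^ p) := by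
  rw [expand_eval, sub_pow_char, taylor_eval, ← sub_eq_add_neg]

/-- **Splitting.** The derivatives of the orders prime to `p` are integral. -/
theorem split_core [IsAlgClosed Ω] (hk : Ctx0 k v) (h : TL v A z 0) (p : ℕ) [hp : Fact p.Prime]
    [CharP Ω p] {f : Polynomial Ω} (hf : f ∈ PI A)
    (hD : ∀ l, ¬ p ∣ l → v.Ge 0 ((hasseDeriv l f).eval z)) :
    ∃ g ∈ PI A, ∃ c : k, Gt v 0 (f.eval z - g.eval (z ^ p) - algebraMap k Ω c * z) := by
  classical
  have hp1 : ¬ p ∣ 1 := fun h1 => hp.out.one_lt.ne' (Nat.dvd_one.1 h1)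
  obtain ⟨c, hc⟩ := hk.residue (hD 1 hp1)
  set f₁ := f - Polynomial.C (algebraMap k Ω c) * X with hf₁
  have hf₁A : f₁ ∈ PI A := sub_mem hf (mul_mem (C_mem_PI (A.algebraMap_mem c)) X_mem_PI)
  have hgt : ∀ l, ¬ p ∣ l → Gt v 0 ((hasseDeriv l f₁).eval z) := by
    intro l hl
    have hl0 : l ≠ 0 := by rintro rfl; exact hl (dvd_zero p)
    rw [hf₁, map_sub, eval_sub]
    by_cases hl1 : l = 1
    · subst hl1
      have e1 : (hasseDeriv 1 (Polynomial.C (algebraMap k Ω c) * X)).eval z =
          algebraMap k Ω c := by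
        rw [hasseDeriv_one]
        simp
      rw [e1]
      exact hc
    · have e1 : hasseDeriv l (Polynomial.C (algebraMap k Ω c) * X) = 0 := by
        refine hasseDeriv_eq_zero_of_lt_natDegree _ _ ?_
        have h2 := (natDegree_C_mul_le (algebraMap k Ω c) X).trans natDegree_X_le
        omega
      rw [e1, eval_zero, sub_zero]
      refine hasse_gt_all h p hf (Nat.pos_of_ne_zero hl0) (fun i hi => ?_) fun c' hc' => ?_
      · rcases Nat.eq_zero_or_pos i with rfl | hi0
        · exact hl1 (by rw [hi, pow_zero])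
        · exact hl (hi ▸ dvd_pow_self p hi0.ne')
      · rcases Nat.eq_zero_or_pos c' with rfl | hc0
        · rw [pow_zero]
          exact hD 1 hp1
        · exact absurd ((dvd_pow_self p hc0.ne').trans hc') hl
  -- the margin
  set D := f₁.natDegree with hDdef
  obtain ⟨m, hm, δ, hδ, hmar⟩ := margin_aux h
    (((Finset.range (D + 1)).filter fun l => ¬ p ∣ l).image fun l => hasseDeriv l f₁)
    (by
      intro g hg
      obtain ⟨l, hl, rfl⟩ := Finset.mem_image.1 hg
      obtain ⟨-, hl1⟩ := Finset.mem_filter.1 hl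
      exact ⟨hasse_mem_PI hf₁A l, hgt l hl1⟩)
  obtain ⟨ψ, hψA, hψ⟩ := h.lim (min δ (m / (2 * (D + 1)))) (lt_min hδ (by positivity))
  rw [zero_sub] at hψ
  have hmar' := hmar ψ (hψ.mono (neg_le_neg (min_le_left _ _)))
  set T := taylor ψ f₁ with hT
  have hTA : T ∈ PI A := taylor_mem_PI hf₁A hψA
  have hTD : T.natDegree ≤ D := by rw [hT, natDegree_taylor]
  have hTc : ∀ l, ¬ p ∣ l → v.Ge m (T.coeff l) := by
    intro l hlq
    by_cases hlD : l < D + 1
    · rw [hT, taylor_coeff]
      exact hmar' _ (Finset.mem_image.2 ⟨l, Finset.mem_filter.2 ⟨Finset.mem_range.2 hlD, hlq⟩,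
        rfl⟩)
    · rw [coeff_eq_zero_of_natDegree_lt (by omega)]
      exact RVal.Ge.zero
  obtain ⟨hRd, hRc⟩ := contract_part p T hTD
  have hR : Gt v 0 ((T - expand Ω p (contract p T)).eval (z - ψ)) := by
    refine Gt.of_ge (eval_ge_of_coeff hRd (m := m) (fun l => ?_)
      (le_min hδ.le (by positivity)) hψ) ?_
    · rw [hRc]
      split_ifs with h3
      · exact RVal.Ge.zero
      · exact hTc l h3
    · have h3 := min_le_right δ (m / (2 * ((D : ℝ) + 1)))
      have h4 : (D : ℝ) * (m / (2 * (D + 1))) < m := by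
        rw [mul_div_assoc', div_lt_iff₀ (by positivity)]
        nlinarith
      have h5 : (0 : ℝ) ≤ D := Nat.cast_nonneg D
      nlinarith
  refine ⟨taylor (-ψ ^ p) (contract p T), taylor_mem_PI (contract_mem_PI p hTA)
    (neg_mem (pow_mem hψA p)), c, ?_⟩
  have e1 : f.eval z = T.eval (z - ψ) + algebraMap k Ω c * z := by
    rw [hT, ← eval_eq_taylor, hf₁, eval_sub, eval_mul, eval_C, eval_X]
    ring
  rw [eval_sub, expand_shift] at hR
  rw [e1]
  convert hR using 1
  ring

/-- The derivatives of the orders prime to `p`, from the first one. -/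
theorem hasse_of_one [IsAlgClosed Ω] (h : TL v A z 0) (p : ℕ) [hp : Fact p.Prime] [CharP Ω p]
    {f : Polynomial Ω} (hf : f ∈ PI A) {r : ℝ} (hD : v.Ge r ((hasseDeriv 1 f).eval z)) {l : ℕ}
    (hl : ¬ p ∣ l) : v.Ge r ((hasseDeriv l f).eval z) := by
  have hl0 : l ≠ 0 := by rintro rfl; exact hl (dvd_zero p)
  refine hasse_all h p hf (Nat.pos_of_ne_zero hl0) fun c' hc' => ?_
  rcases Nat.eq_zero_or_pos c' with rfl | hc0
  · rw [pow_zero]
    exact hD
  · exact absurd ((dvd_pow_self p hc0.ne').trans hc') hl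

/-- The values near `z`. -/
theorem eval_near_ge [IsAlgClosed Ω] (h : TL v A z 0) {f : Polynomial Ω} (hf : f ∈ PI A) {D : ℕ}
    (hD : f.natDegree ≤ D) {r τ : ℝ} (hr : v.Ge r (f.eval z)) (hτ : 0 ≤ τ) {ψ : Ω}
    (hψ : v.Ge (-τ) (z - ψ)) : v.Ge (r - D * τ) (f.eval ψ) := by
  by_cases h0 : f = 0
  · rw [h0, eval_zero]
    exact RVal.Ge.zero
  have h1 : v.Ge (-τ) (ψ - z) := by
    have := hψ.neg
    rwa [neg_sub] at this
  rw [eval_eq_taylor f z ψ]
  refine eval_ge_of_coeff (by rwa [natDegree_taylor]) (fun l => ?_) hτ h1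
  have h2 := hasse_ge h hf hr l
  rwa [← taylor_coeff] at h2

/-- **Approximate root.** -/
theorem approx_root [IsAlgClosed Ω] (h : TL v E z 0) (p : ℕ) [hp : Fact p.Prime] [CharP Ω p]
    (hE : ∀ a ∈ E, ∃ b ∈ E, b ^ p = a) {f : Polynomial Ω} (hf : f ∈ PI E) {r δ : ℝ} (hδ : 0 < δ)
    (hD : v.Ge r ((hasseDeriv 1 f).eval z)) :
    ∃ g ∈ PI E, v.Ge (r - δ) (f.eval z - g.eval z ^ p) := by
  classical
  set D := f.natDegree with hDdef
  obtain ⟨ψ, hψE, hψ⟩ := h.lim (δ / (2 * (D + 1))) (by positivity)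
  rw [zero_sub] at hψ
  have hτ : 0 ≤ δ / (2 * ((D : ℝ) + 1)) := by positivity
  set T := taylor ψ f with hT
  have hTE : T ∈ PI E := taylor_mem_PI hf hψE
  have hTD : T.natDegree ≤ D := by rw [hT, natDegree_taylor]
  have hTc : ∀ l, ¬ p ∣ l → v.Ge (r - D * (δ / (2 * (D + 1)))) (T.coeff l) := by
    intro l hl
    rw [hT, taylor_coeff]
    exact eval_near_ge h (hasse_mem_PI hf l) ((natDegree_hasseDeriv_le f l).trans
      (Nat.sub_le _ _)) (hasse_of_one h p hf hD hl) hτ hψ
  obtain ⟨hRd, hRc⟩ := contract_part p T hTD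
  set S := contract p T with hS
  choose ρ hρE hρ using fun j => hE (S.coeff j) (contract_mem_PI p hTE j)
  set g₁ : Polynomial Ω := ∑ j ∈ Finset.range (S.natDegree + 1), monomial j (ρ j) with hg₁
  have hg₁E : g₁ ∈ PI E := sum_mem fun j _ => by
    intro i
    rw [coeff_monomial]
    split_ifs
    exacts [hρE _, zero_mem _]
  refine ⟨taylor (-ψ) g₁, taylor_mem_PI hg₁E (neg_mem hψE), ?_⟩
  have h3 : (taylor (-ψ) g₁).eval z = g₁.eval (z - ψ) := by
    rw [taylor_eval, sub_eq_add_neg]
  have h4 : (expand Ω p S).eval (z - ψ) = g₁.eval (z - ψ) ^ p := by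
    rw [expand_eval, eval_eq_sum_range, hg₁, eval_finsetSum, sum_pow_char]
    refine Finset.sum_congr rfl fun j _ => ?_
    rw [eval_monomial, mul_pow, hρ, ← pow_mul, ← pow_mul, mul_comm j]
  have h5 : f.eval z - (taylor (-ψ) g₁).eval z ^ p = (T - expand Ω p S).eval (z - ψ) := by
    rw [h3, ← h4, eval_sub, hT, ← eval_eq_taylor]
  rw [h5]
  refine (eval_ge_of_coeff hRd (m := r - D * (δ / (2 * (D + 1)))) (fun l => ?_) hτ hψ).mono ?_
  · rw [hRc]
    split_ifs with h6
    · exact RVal.Ge.zero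
    · exact hTc l h6
  · have h7 : (D : ℝ) * (δ / (2 * (D + 1))) ≤ δ / 2 := by
      rw [mul_div_assoc', div_le_iff₀ (by positivity)]
      nlinarith
    linarith

/-- **Integration in one direction.** -/
theorem int_one [IsAlgClosed Ω] (h : TL v E z 0) (p : ℕ) [hp : Fact p.Prime] [CharP Ω p]
    {f : Polynomial Ω} (hf : f ∈ PI E) (hD : Gt v 0 ((hasseDeriv (p - 1) f).eval z)) :
    ∃ g ∈ PI E, Gt v 0 ((hasseDeriv 1 g - f).eval z) := by
  classical
  have hgt : ∀ l, p ∣ l + 1 → Gt v 0 ((hasseDeriv l f).eval z) := by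
    intro l hl
    have hle : p - 1 ≤ l := by
      have := Nat.le_of_dvd (Nat.succ_pos l) hl
      omega
    have h2 := hasse_gt h (hasse_mem_PI hf (p - 1)) hD (l - (p - 1))
    have h3 := congrArg (fun L => L f) (hasseDeriv_comp (R := Ω) (l - (p - 1)) (p - 1))
    simp only [LinearMap.comp_apply, LinearMap.smul_apply] at h3
    rw [h3, show l - (p - 1) + (p - 1) = l by omega, eval_smul, nsmul_eq_mul] at h2
    have hun : ¬ p ∣ l.choose (l - (p - 1)) := by
      rw [Nat.choose_symm hle]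
      obtain ⟨q, hq⟩ := hl
      have hq0 : 0 < q := by
        rcases Nat.eq_zero_or_pos q with rfl | h0
        · omega
        · exact h0
      obtain ⟨q', rfl⟩ : ∃ q', q = q' + 1 := ⟨q - 1, by omega⟩
      have hl' : l = (p - 1) + p * q' := by
        have h4 : p * (q' + 1) = p * q' + p := by ring
        have h5 := hp.out.one_lt
        omega
      have h4 := Choose.choose_modEq_choose_mod_mul_choose_div_nat (p := p) (n := l) (k := p - 1)
      have h5 : (p - 1) / p = 0 := Nat.div_eq_of_lt (Nat.sub_lt hp.out.pos one_pos)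
      have h6 : (p - 1) % p = p - 1 := Nat.mod_eq_of_lt (Nat.sub_lt hp.out.pos one_pos)
      have h7 : l % p = p - 1 := by rw [hl', Nat.add_mul_mod_self_left, h6]
      rw [h5, h6, h7, Nat.choose_self, Nat.choose_zero_right, mul_one] at h4
      intro h8
      have h9 := (h4.symm.dvd_iff (dvd_refl p)).2 h8
      exact hp.out.one_lt.ne' (Nat.dvd_one.1 h9)
    obtain ⟨h4, h5⟩ := val_natCast (Ω := Ω) (v := v) p hun
    intro h6
    have h7 := h2 (mul_ne_zero h4 h6)
    rwa [v.map_mul h4 h6, h5, zero_add] at h7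
  set D := f.natDegree with hDdef
  obtain ⟨m, hm, δ, hδ, hmar⟩ := margin_aux h
    (((Finset.range (D + 1)).filter fun l => p ∣ l + 1).image fun l => hasseDeriv l f)
    (by
      intro g hg
      obtain ⟨l, hl, rfl⟩ := Finset.mem_image.1 hg
      obtain ⟨-, hl1⟩ := Finset.mem_filter.1 hl
      exact ⟨hasse_mem_PI hf l, hgt l hl1⟩)
  obtain ⟨ψ, hψE, hψ⟩ := h.lim (min δ (m / (2 * (D + 1)))) (lt_min hδ (by positivity))
  rw [zero_sub] at hψ
  have hmar' := hmar ψ (hψ.mono (neg_le_neg (min_le_left _ _)))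
  set T := taylor ψ f with hT
  have hTE : T ∈ PI E := taylor_mem_PI hf hψE
  have hTD : T.natDegree ≤ D := by rw [hT, natDegree_taylor]
  -- the primitive
  set G : Polynomial Ω := ∑ l ∈ (Finset.range (D + 1)).filter fun l => ¬ p ∣ l + 1,
    monomial (l + 1) (T.coeff l / ((l + 1 : ℕ) : Ω)) with hG
  have hGE : G ∈ PI E := sum_mem fun l _ => by
    intro i
    rw [coeff_monomial]
    split_ifs
    · exact div_mem (hTE _) (natCast_mem _ _)
    · exact zero_mem _
  have hdG : derivative G = ∑ l ∈ (Finset.range (D + 1)).filter fun l => ¬ p ∣ l + 1,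
      monomial l (T.coeff l) := by
    rw [hG, derivative_sum]
    refine Finset.sum_congr rfl fun l hl => ?_
    obtain ⟨-, hl1⟩ := Finset.mem_filter.1 hl
    have h4 : ((l + 1 : ℕ) : Ω) ≠ 0 := fun h5 => hl1 ((CharP.cast_eq_zero_iff Ω p _).1 h5)
    rw [derivative_monomial, Nat.add_sub_cancel, div_mul_cancel₀ _ h4]
  have hR : (derivative G - T).natDegree ≤ D ∧ ∀ l, (derivative G - T).coeff l =
      if p ∣ l + 1 then -T.coeff l else 0 := by
    have h1 : ∀ l, (derivative G - T).coeff l = if p ∣ l + 1 then -T.coeff l else 0 := by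
      intro l
      rw [coeff_sub, hdG, finsetSum_coeff]
      simp only [coeff_monomial]
      rw [Finset.sum_ite_eq' _ l fun l => T.coeff l]
      by_cases hl : l < D + 1
      · by_cases hl1 : p ∣ l + 1
        · rw [if_neg (by simp [hl1]), if_pos hl1, zero_sub]
        · rw [if_pos (by simp [hl1, hl]), if_neg hl1, sub_self]
      · have h2 : T.coeff l = 0 := coeff_eq_zero_of_natDegree_lt (by omega)
        rw [if_neg (by simp; omega), h2, sub_zero, neg_zero, ite_self]
    refine ⟨?_, h1⟩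
    rw [natDegree_le_iff_coeff_eq_zero]
    intro l hl
    rw [h1, coeff_eq_zero_of_natDegree_lt (by omega : T.natDegree < l), neg_zero, ite_self]
  refine ⟨taylor (-ψ) G, taylor_mem_PI hGE (neg_mem hψE), ?_⟩
  have e1 : (hasseDeriv 1 (taylor (-ψ) G) - f).eval z = (derivative G - T).eval (z - ψ) := by
    rw [hasseDeriv_one, eval_sub, eval_sub, hT, ← eval_eq_taylor f ψ z, taylor_apply,
      derivative_comp]
    simp [sub_eq_add_neg]
  rw [e1]
  refine Gt.of_ge (eval_ge_of_coeff hR.1 (m := m) (fun l => ?_)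
    (le_min hδ.le (by positivity)) hψ) ?_
  · rw [hR.2]
    split_ifs with h3
    · by_cases hlD : l < D + 1
      · rw [hT, taylor_coeff]
        exact (hmar' _ (Finset.mem_image.2 ⟨l, Finset.mem_filter.2 ⟨Finset.mem_range.2 hlD, h3⟩,
          rfl⟩)).neg
      · rw [coeff_eq_zero_of_natDegree_lt (by omega), neg_zero]
        exact RVal.Ge.zero
    · exact RVal.Ge.zero
  · have h3 := min_le_right δ (m / (2 * ((D : ℝ) + 1)))
    have h4 : (D : ℝ) * (m / (2 * (D + 1))) < m := by
      rw [mul_div_assoc', div_lt_iff₀ (by positivity)]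
      nlinarith
    have h5 : (0 : ℝ) ≤ D := Nat.cast_nonneg D
    nlinarith

end Pool.Agent.TWIV
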