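import Pool.Agent.Lib.TWIV.Tay

/-!
# TANK W, leaf (IV), row A5: the mixed lift

* `MLift`, `mixD`: the mixed lift of `E<y><z>` and its operators; `MLift.jets`, `exists_mlift`;
* `MLift.prcD`, `MLift.compD`: commutation with the projections, composition with the jets in `z`.
-/

set_option autoImplicit false

open Polynomial

namespace Pool.Agent.TWIV

open Pool.Agent.H15JM (RVal)
open Pool.Agent.D2 (Ctx0)
open Pool.Agent.D2P (mem_clI)
open Pool.Agent.TWM
open Pool.Agent.TWC (Nul Cau HSI HSX PGe eq_of_ge)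
open Pool.Agent.TWS (SphC)

universe u

variable {k H : Type u} [Field k] [Field H] [Algebra k H] {v : RVal H} {p : ℕ} [hp : Fact p.Prime]
  [CharP H p] [PerfectRing H p] {A : Type*} [AddCommGroup A] {pr : A → H →ₗ[k] H}
  [IsAlgClosed H] {E F K : IntermediateField k H} {w y z : H} {α c d γ ζ : A}

/-- The series with the values in `K`, as series with values in `H`. -/
noncomputable def serK {K : IntermediateField k H} (s : K →ₐ[k] PowerSeries K) :
    K →ₐ[k] PowerSeries H :=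
  { (PowerSeries.map (algebraMap K H)).comp (s : K →+* PowerSeries K) with
    commutes' := fun a => by
      change PowerSeries.map (algebraMap K H) (s (algebraMap k K a)) = _
      rw [s.commutes, PowerSeries.algebraMap_apply, PowerSeries.map_C,
        PowerSeries.algebraMap_apply]
      rfl }

omit [IsAlgClosed H] in
theorem coeff_serK (s : K →ₐ[k] PowerSeries K) (x : K) (n : ℕ) :
    PowerSeries.coeff n (serK s x) = (PowerSeries.coeff n (s x) : K) :=
  PowerSeries.coeff_map (algebraMap K H) n (s x)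

/-! ### The mixed lift -/

/-- The mixed lift: the jets of `E<y><z>` in the directions `y -> y + a`, `z -> G(a) + c`. -/
structure MLift (v : RVal H) (pr : A → H →ₗ[k] H) (E : IntermediateField k H) (y z : H) (α ζ : A)
    (h : cadj v (cadj v E y) z →ₐ[k] PowerSeries H)
    (hz : cadj v (cadj v E y) z →ₐ[k] PowerSeries (cadj v (cadj v E y) z)) : Prop where
  hsi : HSI v (cadj v (cadj v E y) z) h
  /-- `h = id` on `E` -/
  base : ∀ x : cadj v (cadj v E y) z, (x : H) ∈ E → h x = PowerSeries.C (x : H)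
  yy : ∀ x : cadj v (cadj v E y) z, (x : H) = y → h x = PowerSeries.C y + PowerSeries.X
  /-- on `E<y>` it is the Taylor homomorphism -/
  ty : ∃ s : cadj v E y →ₐ[k] PowerSeries (cadj v E y), Tay v pr (cadj v E y) E y α s ∧
    ∀ (x : cadj v E y) (x' : cadj v (cadj v E y) z), (x' : H) = x → ∀ n : ℕ,
      PowerSeries.coeff n (h x') = (PowerSeries.coeff n (s x) : cadj v E y)
  /-- degrees -/
  prc : PrC pr α (cadj v (cadj v E y) z) h
  gr : ∀ c, ∀ x ∈ cadj v (cadj v E y) z, pr c x ∈ cadj v (cadj v E y) z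
  /-- `hz` is the Taylor homomorphism in `z` -/
  tay : Tay v pr (cadj v (cadj v E y) z) (cadj v E y) z ζ hz

namespace MLift

variable {h : cadj v (cadj v E y) z →ₐ[k] PowerSeries H}
  {hz : cadj v (cadj v E y) z →ₐ[k] PowerSeries (cadj v (cadj v E y) z)}

omit [IsAlgClosed H]

/-- on `E<y>` the values are in `E<y>` -/
theorem mem (hM : MLift v pr E y z α ζ h hz) (x : cadj v (cadj v E y) z) (n : ℕ)
    (hx : (x : H) ∈ cadj v E y) : PowerSeries.coeff n (h x) ∈ cadj v E y := by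
  obtain ⟨s, -, hs⟩ := hM.ty
  rw [hs ⟨x, hx⟩ x rfl n]
  exact SetLike.coe_mem _

theorem deg (hM : MLift v pr E y z α ζ h hz) (x : cadj v (cadj v E y) z) (n : ℕ) (c : A)
    (hx : pr c (x : H) = x) :
    pr (c - n • α) (PowerSeries.coeff n (h x)) = PowerSeries.coeff n (h x) :=
  hM.prc x x c x.2 hx.symm n

theorem zbase (hM : MLift v pr E y z α ζ h hz) (x : cadj v (cadj v E y) z)
    (hx : (x : H) ∈ cadj v E y) : hz x = PowerSeries.C x := hM.tay.base x hx

theorem zz (hM : MLift v pr E y z α ζ h hz) (x : cadj v (cadj v E y) z) (hx : (x : H) = z) :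
    hz x = PowerSeries.C x + PowerSeries.X := hM.tay.gen x hx

theorem zzero (hM : MLift v pr E y z α ζ h hz) (x : cadj v (cadj v E y) z) :
    PowerSeries.coeff 0 (hz x) = x := hM.tay.zero x

theorem znorm (hM : MLift v pr E y z α ζ h hz) (n : ℕ) (x : cadj v (cadj v E y) z) (b : ℝ)
    (hb : v.Ge b (x : H)) : v.Ge b ((PowerSeries.coeff n (hz x) : cadj v (cadj v E y) z) : H) :=
  hM.tay.norm n x b hb

theorem zdeg (hM : MLift v pr E y z α ζ h hz) (x : cadj v (cadj v E y) z) (n : ℕ) (c : A)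
    (hx : pr c (x : H) = x) :
    pr (c - n • ζ) ((PowerSeries.coeff n (hz x) : cadj v (cadj v E y) z) : H) =
      (PowerSeries.coeff n (hz x) : cadj v (cadj v E y) z) :=
  hM.tay.prc x x c hx.symm n

/-- `h` is iterative on `E<y>`. -/
theorem ycomp (hM : MLift v pr E y z α ζ h hz) (x x' : cadj v (cadj v E y) z)
    (hx : (x : H) ∈ cadj v E y) (m n : ℕ) (hx' : (x' : H) = PowerSeries.coeff m (h x)) :
    PowerSeries.coeff n (h x') = ((n + m).choose m : H) * PowerSeries.coeff (n + m) (h x) := by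
  obtain ⟨s, hs, hs'⟩ := hM.ty
  have h1 := hs' ⟨x, hx⟩ x rfl
  rw [h1, hs' (PowerSeries.coeff m (s ⟨x, hx⟩)) x' (by rw [hx', h1]) n, hs.comp]
  push_cast
  rfl

end MLift

/-- The operators of the mixed lift. -/
noncomputable def mixD {K : IntermediateField k H} (h : K →ₐ[k] PowerSeries H)
    (hz : K →ₐ[k] PowerSeries K) (i : ℕ × ℕ) (x : H) : H :=
  open Classical in
  if hx : x ∈ K then PowerSeries.coeff i.1 (h (PowerSeries.coeff i.2 (hz ⟨x, hx⟩))) else 0

omit [IsAlgClosed H] in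
theorem mixD_eq {h : K →ₐ[k] PowerSeries H} {hz : K →ₐ[k] PowerSeries K} (i : ℕ × ℕ) {x : H}
    (hx : x ∈ K) :
    mixD h hz i x = PowerSeries.coeff i.1 (h (PowerSeries.coeff i.2 (hz ⟨x, hx⟩))) := dif_pos hx

omit [PerfectRing H p] [IsAlgClosed H] in
theorem MLift.jets {h : cadj v (cadj v E y) z →ₐ[k] PowerSeries H}
    {hz : cadj v (cadj v E y) z →ₐ[k] PowerSeries (cadj v (cadj v E y) z)}
    (hM : MLift v pr E y z α ζ h hz) :
    Jets p v pr (cadj v (cadj v E y) z) α ζ (mixD h hz) where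
  id x hx := by
    rw [mixD_eq _ hx, hM.zzero, hM.hsi.zero]
  add i x hx x' hx' := by
    rw [mixD_eq _ hx, mixD_eq _ hx', mixD_eq _ (add_mem hx hx')]
    have e : (⟨x + x', add_mem hx hx'⟩ : cadj v (cadj v E y) z) = ⟨x, hx⟩ + ⟨x', hx'⟩ := rfl
    rw [e, map_add, map_add, map_add, map_add]
  smul i a x hx := by
    have hax : algebraMap k H a * x ∈ cadj v (cadj v E y) z :=
      mul_mem (IntermediateField.algebraMap_mem _ a) hx
    rw [mixD_eq _ hx, mixD_eq _ hax]
    have e : (⟨algebraMap k H a * x, hax⟩ : cadj v (cadj v E y) z) = a • ⟨x, hx⟩ := by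
      refine Subtype.ext ?_
      change _ = a • x
      rw [Algebra.smul_def]
    rw [e, map_smul, PowerSeries.coeff_smul, map_smul, PowerSeries.coeff_smul, Algebra.smul_def]
  norm i x hx b hb := by
    rw [mixD_eq _ hx]
    exact hM.hsi.norm _ _ _ (hM.znorm _ _ _ hb)
  frob m J x hx := by
    rw [mixD_eq _ hx, mixD_eq _ (pow_mem hx p)]
    have e : (⟨x ^ p, pow_mem hx p⟩ : cadj v (cadj v E y) z) = ⟨x, hx⟩ ^ p := rfl
    rw [e, map_pow]
    simp only
    rw [coeff_ps_powK, if_pos (dvd_mul_right p J), Nat.mul_div_cancel_left _ hp.out.pos, map_pow,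
      TWC.coeff_ps_pow, if_pos (dvd_mul_right p m), Nat.mul_div_cancel_left _ hp.out.pos]
  frob0 m J hmJ x hx := by
    rw [mixD_eq _ (pow_mem hx p)]
    have e : (⟨x ^ p, pow_mem hx p⟩ : cadj v (cadj v E y) z) = ⟨x, hx⟩ ^ p := rfl
    rw [e, map_pow]
    simp only
    rw [coeff_ps_powK]
    split_ifs with hJ
    · rw [map_pow, TWC.coeff_ps_pow, if_neg fun hm => hmJ ⟨hm, hJ⟩]
    · rw [map_zero, map_zero]
  deg i c x hx hc := by
    rw [mixD_eq _ hx]
    have h1 := hM.deg _ i.1 _ (hM.zdeg ⟨x, hx⟩ i.2 c hc)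
    have e : c - dg α ζ i = c - i.2 • ζ - i.1 • α := by
      rw [dg]
      abel
    rw [e]
    exact h1

omit [IsAlgClosed H] in
/-- The operators commute with the projections. -/
theorem MLift.prcD {h : cadj v (cadj v E y) z →ₐ[k] PowerSeries H}
    {hz : cadj v (cadj v E y) z →ₐ[k] PowerSeries (cadj v (cadj v E y) z)}
    (hM : MLift v pr E y z α ζ h hz) (i : ℕ × ℕ) (c : A) {x : H}
    (hx : x ∈ cadj v (cadj v E y) z) :
    mixD h hz i (pr c x) = pr (c - dg α ζ i) (mixD h hz i x) := by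
  rw [mixD_eq _ hx, mixD_eq _ (hM.gr c x hx)]
  have h1 := hM.tay.prc ⟨x, hx⟩ ⟨pr c x, hM.gr c x hx⟩ c rfl i.2
  have h2 := hM.prc _ _ (c - i.2 • ζ) (SetLike.coe_mem _) h1.symm i.1
  have e : c - dg α ζ i = c - i.2 • ζ - i.1 • α := by
    rw [dg]
    abel
  rw [e]
  exact h2.symm

omit [IsAlgClosed H] in
/-- The jets in `z` have values in the field. -/
theorem MLift.zmemD {h : cadj v (cadj v E y) z →ₐ[k] PowerSeries H}
    {hz : cadj v (cadj v E y) z →ₐ[k] PowerSeries (cadj v (cadj v E y) z)}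
    (hM : MLift v pr E y z α ζ h hz) (J : ℕ) {x : H} (hx : x ∈ cadj v (cadj v E y) z) :
    mixD h hz (0, J) x = (PowerSeries.coeff J (hz ⟨x, hx⟩) : cadj v (cadj v E y) z) := by
  rw [mixD_eq _ hx]
  exact hM.hsi.zero _

omit [IsAlgClosed H] in
/-- Composition with the jets in `z`. -/
theorem MLift.compD {h : cadj v (cadj v E y) z →ₐ[k] PowerSeries H}
    {hz : cadj v (cadj v E y) z →ₐ[k] PowerSeries (cadj v (cadj v E y) z)}
    (hM : MLift v pr E y z α ζ h hz) (m J e : ℕ) {x : H} (hx : x ∈ cadj v (cadj v E y) z) :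
    mixD h hz (m, J) (mixD h hz (0, e) x) =
      ((J + e).choose e : H) * mixD h hz (m, J + e) x := by
  rw [hM.zmemD e hx, mixD_eq _ (SetLike.coe_mem _), mixD_eq _ hx]
  simp only
  rw [Subtype.coe_eta, hM.tay.comp, ← nsmul_eq_mul, map_nsmul, map_nsmul, nsmul_eq_mul]

omit [PerfectRing H p] [IsAlgClosed H] in
/-- The coefficient of `c ^ J` of `e (z + c) ^ (p ^ i)`, `e ∈ E<y>`. -/
theorem MLift.coeff_pow {h : cadj v (cadj v E y) z →ₐ[k] PowerSeries H}
    {hz : cadj v (cadj v E y) z →ₐ[k] PowerSeries (cadj v (cadj v E y) z)}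
    (hM : MLift v pr E y z α ζ h hz) {e z' : cadj v (cadj v E y) z} (he : (e : H) ∈ cadj v E y)
    (hz' : (z' : H) = z) (i J : ℕ) :
    PowerSeries.coeff J (hz (e * z' ^ p ^ i)) =
      if J = 0 then e * z' ^ p ^ i else if J = p ^ i then e else 0 := by
  have _ : CharP (cadj v (cadj v E y) z) p := (RingHom.charP_iff
    (algebraMap (cadj v (cadj v E y) z) H)
    (algebraMap (cadj v (cadj v E y) z) H).injective p).2 inferInstance
  have _ : CharP (PowerSeries (cadj v (cadj v E y) z)) p := by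
    refine (RingHom.charP_iff (PowerSeries.C (R := cadj v (cadj v E y) z)) ?_ p).1 inferInstance
    exact PowerSeries.C_injective
  have hp0 : p ^ i ≠ 0 := (pow_pos hp.out.pos i).ne'
  rw [map_mul, map_pow, hM.zbase e he, hM.zz z' hz', add_pow_char_pow, mul_add, map_add,
    ← map_pow, ← map_mul, PowerSeries.coeff_C, PowerSeries.coeff_C_mul, PowerSeries.coeff_X_pow]
  split_ifs with h1 h2 h2
  · exact absurd (h1.symm.trans h2) hp0.symm
  · rw [mul_zero, add_zero]
  · rw [mul_one, zero_add]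
  · rw [mul_zero, add_zero]

omit [IsAlgClosed H] in
/-- The coefficient of `c ^ J` of `e (z + c) ^ n`, `e ∈ E<y>`. -/
theorem MLift.coeff_zpow {h : cadj v (cadj v E y) z →ₐ[k] PowerSeries H}
    {hz : cadj v (cadj v E y) z →ₐ[k] PowerSeries (cadj v (cadj v E y) z)}
    (hM : MLift v pr E y z α ζ h hz) {e z' : cadj v (cadj v E y) z} (he : (e : H) ∈ cadj v E y)
    (hz' : (z' : H) = z) (n J : ℕ) :
    PowerSeries.coeff J (hz (e * z' ^ n)) =
      e * ((n.choose J : cadj v (cadj v E y) z) * z' ^ (n - J)) := by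
  rw [map_mul, map_pow, hM.zbase e he, hM.zz z' hz', PowerSeries.coeff_C_mul, coeff_add_X_pow]

omit [IsAlgClosed H] in
/-- The coefficient of `a ^ m` of `e (y + a) ^ n`, `e ∈ E`. -/
theorem MLift.coeff_ypow {h : cadj v (cadj v E y) z →ₐ[k] PowerSeries H}
    {hz : cadj v (cadj v E y) z →ₐ[k] PowerSeries (cadj v (cadj v E y) z)}
    (hM : MLift v pr E y z α ζ h hz) {e y' : cadj v (cadj v E y) z} (he : (e : H) ∈ E)
    (hy' : (y' : H) = y) (n m : ℕ) :
    PowerSeries.coeff m (h (e * y' ^ n)) = (e : H) * ((n.choose m : H) * y ^ (n - m)) := by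
  rw [map_mul, map_pow, hM.base e he, hM.yy y' hy', PowerSeries.coeff_C_mul, coeff_add_X_pow]

omit [IsAlgClosed H] in
/-- `h` is of norm `≤ 0`. -/
theorem MLift.near {h : cadj v (cadj v E y) z →ₐ[k] PowerSeries H}
    {hz : cadj v (cadj v E y) z →ₐ[k] PowerSeries (cadj v (cadj v E y) z)}
    (hM : MLift v pr E y z α ζ h hz) {x x' : cadj v (cadj v E y) z} {b : ℝ}
    (hb : v.Ge b ((x : H) - x')) (n : ℕ) :
    v.Ge b (PowerSeries.coeff n (h x) - PowerSeries.coeff n (h x')) := by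
  rw [← map_sub, ← map_sub]
  exact hM.hsi.norm n _ b hb

/-- **Existence of the mixed lift.** `E` graded, `y`, `z` homogeneous. -/
theorem exists_mlift [Fact (Ctx0 k v)] (hc : CompleteV v)
    (hs : SphC v) (hpr : GrP p v pr)
    {E : IntermediateField k H} (hEg : ∀ c, ∀ x ∈ E, pr c x ∈ E) {y z : H}
    (hy : TL v E y 0) (hyα : pr α y = y) (hz : TL v (cadj v E y) z 0) (hzζ : pr ζ z = z) :
    ∃ (h : cadj v (cadj v E y) z →ₐ[k] PowerSeries H)
      (hz : cadj v (cadj v E y) z →ₐ[k] PowerSeries (cadj v (cadj v E y) z)),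
      MLift v pr E y z α ζ h hz := by
  have hg₁ := gr_cadj hpr hEg hy hyα
  -- the lift on `E<y>`
  obtain ⟨s, hsT⟩ := exists_tay p hc hpr hEg hy hyα rfl
  set h₁ : cadj v E y →ₐ[k] PowerSeries H := serK s with hh₁
  have hco : ∀ (x : cadj v E y) (n : ℕ),
      PowerSeries.coeff n (h₁ x) = (PowerSeries.coeff n (s x) : cadj v E y) := coeff_serK s
  have a1 : HSI v (cadj v E y) h₁ := ⟨fun x => by rw [hco, hsT.zero], fun n x b hb => by
    rw [hco]
    exact hsT.norm n x b hb⟩
  have a4 : PrC pr α (cadj v E y) h₁ := fun x x' c _ hx n => by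
    rw [hco, hco]
    exact hsT.prc x x' c hx n
  -- the lift on `E<y><z>`
  obtain ⟨h, b1, b2, b3⟩ := exists_exth hc hs hpr hg₁ a1 a4.sdeg hz hzζ
  have b4 : PrC pr α (cadj v E y) h := fun x x' c hx hx' n => by
    have hx'1 : (x' : H) ∈ cadj v E y := by
      rw [hx']
      exact hg₁ c _ hx
    rw [b2 x hx, b2 x' hx'1]
    exact a4 _ _ c hx hx' n
  -- the Taylor homomorphism in `z`
  obtain ⟨tz, htz⟩ := exists_tay p hc hpr hg₁ hz hzζ rfl
  refine ⟨h, tz, b1, fun x hx => ?_, fun x hx => ?_, ⟨s, hsT, fun x x' hx n => ?_⟩,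
    prc_cadj hpr hg₁ hz hzζ b1 b4 b3, gr_cadj hpr hg₁ hz hzζ, htz⟩
  · have h1 : (x : H) ∈ cadj v E y := le_cadj v E y hx
    rw [b2 x h1]
    ext n
    rw [hco, hsT.base ⟨x, h1⟩ hx, PowerSeries.coeff_C, PowerSeries.coeff_C]
    split_ifs
    · rfl
    · rfl
  · have h1 : (x : H) ∈ cadj v E y := by
      rw [hx]
      exact self_mem_cadj v E y
    rw [b2 x h1]
    ext n
    rw [hco, hsT.gen ⟨x, h1⟩ hx, map_add, map_add, PowerSeries.coeff_C, PowerSeries.coeff_C,
      PowerSeries.coeff_X, PowerSeries.coeff_X]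
    push_cast
    split_ifs
    · rw [hx]
      simp
    · rw [hx]
      simp
    · simp
    · simp
  · have h1 : (x' : H) ∈ cadj v E y := by
      rw [hx]
      exact x.2
    rw [b2 x' h1, hco]
    have e : (⟨x', h1⟩ : cadj v E y) = x := Subtype.ext hx
    rw [e]

end Pool.Agent.TWIV
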