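import Pool.Agent.Lib.TWIV.BetA
import Pool.Agent.Lib.TWIV.Mixed
import Pool.Agent.Lib.TWIV.GpH

/-!
# TANK W, leaf (IV), shape (1,2)': the jets of the first floor, extended to the second one

`E₁ = E<y₁>`, `s` its Taylor homomorphism, `B = E₁<y>`, `h : B → H⟦a⟧` an extension of `s`.
* `dj s n` (GpH): the `n`-th jet on `E₁` (`0` outside);
* `cD s n P`: the jet of the coefficients of `P ∈ E₁[X]`;
* `Two`: the data; `exists_two`;
* `Two.coeff_eval`: the jets of order `< p` of `P(x ^ p)`, `x ∈ B`, are those of the coefficients.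
-/

set_option autoImplicit false
set_option linter.unusedSectionVars false

open Polynomial

namespace Pool.Agent.TWIV

open Pool.Agent.H15JM (RVal)
open Pool.Agent.D2 (Ctx0)
open Pool.Agent.D2P (mem_clI)
open Pool.Agent.TWM
open Pool.Agent.TWC (Nul Cau HSI PGe eq_of_ge)
open Pool.Agent.TWS (SphC)

universe u

variable {k H : Type u} [Field k] [Field H] [Algebra k H] {v : RVal H} {p : ℕ} [hp : Fact p.Prime]
  [CharP H p] {A : Type*} [AddCommGroup A] {pr : A → H →ₗ[k] H}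
  {E F K : IntermediateField k H} {w y z y₁ : H} {α : A}

/-- **Extension of a homomorphism** to the closure of `F(z)`. -/
theorem exists_ext1 [IsAlgClosed H] (p : ℕ) [hp : Fact p.Prime] [CharP H p] [Fact (Ctx0 k v)]
    (hc : CompleteV v) (hs : SphC v) {h : F →ₐ[k] PowerSeries H} (hh : HSI v F h)
    (hz : TL v F z 0) :
    ∃ h' : cadj v F z →ₐ[k] PowerSeries H, HSI v (cadj v F z) h' ∧
      ∀ (c : cadj v F z) (hc : (c : H) ∈ F), h' c = h ⟨c, hc⟩ := by
  obtain ⟨g, hgz⟩ := TWC.exists_zeta (E₀ := F) (L := F) hs le_rfl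
    (fun n => (PowerSeries.coeff (R := H) n).restrictScalars k ∘ₗ h.toLinearMap)
    (fun n y b hb => hh.norm n y b hb) hz.lim
  set Y : PowerSeries H := PowerSeries.mk fun q => if q = 0 then z else g q with hY
  obtain ⟨h', h1, h2, -⟩ := exists_ext0 p hc hh hz (Y := Y) (by
      rw [← PowerSeries.coeff_zero_eq_constantCoeff_apply, hY, PowerSeries.coeff_mk, if_pos rfl])
    (fun ε hε => by
      obtain ⟨ψ, hψ, h1⟩ := hz.lim ε hε
      rw [zero_sub] at h1
      refine ⟨⟨ψ, hψ⟩, h1, fun q => ?_⟩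
      rw [map_sub, hY, PowerSeries.coeff_mk]
      split_ifs with hq
      · rw [hq, hh.zero]
        exact h1
      · exact hgz q ε hε ⟨ψ, hψ⟩ h1)
  exact ⟨h', h1, h2⟩

/-! ### The jets on the first floor -/

theorem tj_eq (s : K →ₐ[k] PowerSeries K) (n : ℕ) {x : H} (hx : x ∈ K) :
    dj s n x = ((PowerSeries.coeff n (s ⟨x, hx⟩) : K) : H) := dif_pos hx

theorem tj_mem (s : K →ₐ[k] PowerSeries K) (n : ℕ) (x : H) : dj s n x ∈ K := by
  rw [dj]
  split_ifs
  · exact SetLike.coe_mem _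
  · exact zero_mem K

theorem tj_zero (s : K →ₐ[k] PowerSeries K) (n : ℕ) : dj s n 0 = 0 := by
  rw [tj_eq s n (zero_mem K)]
  have e : (⟨0, zero_mem K⟩ : K) = 0 := rfl
  rw [e, map_zero, map_zero]
  rfl

theorem tj_add (s : K →ₐ[k] PowerSeries K) (n : ℕ) {x x' : H} (hx : x ∈ K) (hx' : x' ∈ K) :
    dj s n (x + x') = dj s n x + dj s n x' := by
  rw [tj_eq s n hx, tj_eq s n hx', tj_eq s n (add_mem hx hx')]
  have e : (⟨x + x', add_mem hx hx'⟩ : K) = ⟨x, hx⟩ + ⟨x', hx'⟩ := rfl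
  rw [e, map_add, map_add]
  rfl

theorem tj_neg (s : K →ₐ[k] PowerSeries K) (n : ℕ) {x : H} (hx : x ∈ K) :
    dj s n (-x) = -dj s n x := by
  rw [tj_eq s n hx, tj_eq s n (neg_mem hx)]
  have e : (⟨-x, neg_mem hx⟩ : K) = -⟨x, hx⟩ := rfl
  rw [e, map_neg, map_neg]
  rfl

theorem tj_sub (s : K →ₐ[k] PowerSeries K) (n : ℕ) {x x' : H} (hx : x ∈ K) (hx' : x' ∈ K) :
    dj s n (x - x') = dj s n x - dj s n x' := by
  rw [sub_eq_add_neg, tj_add s n hx (neg_mem hx'), tj_neg s n hx', sub_eq_add_neg]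

theorem tj_sum (s : K →ₐ[k] PowerSeries K) (n : ℕ) {ι : Type*} (S : Finset ι) {f : ι → H}
    (hf : ∀ i ∈ S, f i ∈ K) : dj s n (∑ i ∈ S, f i) = ∑ i ∈ S, dj s n (f i) := by
  classical
  induction S using Finset.induction_on with
  | empty => rw [Finset.sum_empty, Finset.sum_empty, tj_zero]
  | insert a S ha ih =>
    rw [Finset.sum_insert ha, Finset.sum_insert ha, tj_add s n (hf a (Finset.mem_insert_self a S))
      (sum_mem fun i hi => hf i (Finset.mem_insert_of_mem hi)),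
      ih fun i hi => hf i (Finset.mem_insert_of_mem hi)]

/-- The jets of a `p`-th power. -/
theorem tj_pow (s : K →ₐ[k] PowerSeries K) (n : ℕ) {x : H} (hx : x ∈ K) :
    dj s (p * n) (x ^ p) = dj s n x ^ p := by
  rw [tj_eq s n hx, tj_eq s (p * n) (pow_mem hx p)]
  have e : (⟨x ^ p, pow_mem hx p⟩ : K) = ⟨x, hx⟩ ^ p := rfl
  rw [e, map_pow, coeff_ps_powK, if_pos (dvd_mul_right p n), Nat.mul_div_cancel_left _ hp.out.pos]
  rfl

section Tay

variable {s : K →ₐ[k] PowerSeries K}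

theorem Tay.tj_ge (hT : Tay v pr K E w α s) (n : ℕ) {x : H} (hx : x ∈ K) {b : ℝ}
    (hb : v.Ge b x) : v.Ge b (dj s n x) := by
  rw [tj_eq s n hx]
  exact hT.norm n ⟨x, hx⟩ b hb

theorem Tay.tj_base (hT : Tay v pr K E w α s) (hEK : E ≤ K) {n : ℕ} (hn : n ≠ 0) {x : H}
    (hx : x ∈ E) : dj s n x = 0 := by
  rw [tj_eq s n (hEK hx), hT.base ⟨x, hEK hx⟩ hx, PowerSeries.coeff_C, if_neg hn]
  rfl

theorem Tay.tj_comp (hT : Tay v pr K E w α s) (m n : ℕ) {x : H} (hx : x ∈ K) :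
    dj s n (dj s m x) = ((n + m).choose m : H) * dj s (n + m) x := by
  have h1 := hT.comp ⟨x, hx⟩ m n
  have h2 : dj s n (dj s m x) =
      ((PowerSeries.coeff n (s (PowerSeries.coeff m (s ⟨x, hx⟩))) : K) : H) := by
    rw [tj_eq s n (tj_mem s m x)]
    have e : (⟨dj s m x, tj_mem s m x⟩ : K) = PowerSeries.coeff m (s ⟨x, hx⟩) :=
      Subtype.ext (tj_eq s m hx)
    rw [e]
  rw [h2, h1, tj_eq s (n + m) hx]
  push_cast
  rfl

theorem Tay.tj_gen (hT : Tay v pr K E w α s) (hw : w ∈ K) (n : ℕ) :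
    dj s n w = if n = 0 then w else if n = 1 then 1 else 0 := by
  rw [tj_eq s n hw, hT.gen ⟨w, hw⟩ rfl, map_add, PowerSeries.coeff_C, PowerSeries.coeff_X]
  split_ifs with h1 h2 h3
  · exact absurd (h1.symm.trans h2) zero_ne_one
  · simp
  · simp
  · simp

/-- The jets of the polynomials in the generator. -/
theorem Tay.tj_eval (hT : Tay v pr K E w α s) (hEK : E ≤ K) (hw : w ∈ K) {f : Polynomial H}
    (hf : f ∈ PI E) (n : ℕ) : dj s n (f.eval w) = (hasseDeriv n f).eval w := by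
  have hfK : ∀ j, f.coeff j * w ^ j ∈ K := fun j => mul_mem (hEK (hf j)) (pow_mem hw j)
  rw [eval_eq_sum_range, tj_sum s n _ fun j _ => hfK j, hasseDeriv_apply, Polynomial.sum_def,
    eval_finsetSum, ← Finset.sum_subset (s₁ := f.support)
      (s₂ := Finset.range (f.natDegree + 1)) (fun j hj => Finset.mem_range_succ_iff.2
        (le_natDegree_of_mem_supp j hj))]
  · refine Finset.sum_congr rfl fun j _ => ?_
    rw [tj_eq s n (hfK j), eval_monomial]
    have e : (⟨f.coeff j * w ^ j, hfK j⟩ : K) = ⟨f.coeff j, hEK (hf j)⟩ * ⟨w, hw⟩ ^ j := rfl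
    rw [e, map_mul, map_pow, hT.base _ (hf j), hT.gen _ rfl, PowerSeries.coeff_C_mul,
      coeff_add_X_pow]
    push_cast
    ring
  · intro j _ hj
    rw [notMem_support_iff.1 hj, zero_mul, tj_zero]

end Tay

/-! ### Polynomials over the first floor -/

/-- The jet of the coefficients. -/
noncomputable def cD (s : K →ₐ[k] PowerSeries K) (n : ℕ) (P : Polynomial H) : Polynomial H :=
  ∑ j ∈ Finset.range (P.natDegree + 1), monomial j (dj s n (P.coeff j))

theorem coeff_cD (s : K →ₐ[k] PowerSeries K) (n : ℕ) (P : Polynomial H) (j : ℕ) :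
    (cD s n P).coeff j = dj s n (P.coeff j) := by
  rw [cD, finsetSum_coeff]
  simp only [coeff_monomial]
  rw [Finset.sum_ite_eq' _ j fun j => dj s n (P.coeff j)]
  split_ifs with h
  · rfl
  · rw [coeff_eq_zero_of_natDegree_lt (by rw [Finset.mem_range] at h; omega), tj_zero]

theorem cD_mem (s : K →ₐ[k] PowerSeries K) (n : ℕ) (P : Polynomial H) : cD s n P ∈ PI K :=
  fun j => by
    rw [coeff_cD]
    exact tj_mem s n _

theorem cD_natDegree_le (s : K →ₐ[k] PowerSeries K) (n : ℕ) (P : Polynomial H) :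
    (cD s n P).natDegree ≤ P.natDegree := by
  rw [natDegree_le_iff_coeff_eq_zero]
  intro j hj
  rw [coeff_cD, coeff_eq_zero_of_natDegree_lt hj, tj_zero]

theorem cD_sub (s : K →ₐ[k] PowerSeries K) (n : ℕ) {P Q : Polynomial H} (hP : P ∈ PI K)
    (hQ : Q ∈ PI K) : cD s n (P - Q) = cD s n P - cD s n Q := by
  ext j
  rw [coeff_sub, coeff_cD, coeff_cD, coeff_cD, coeff_sub, tj_sub s n (hP j) (hQ j)]

/-! ### Two floors -/

/-- The data: the Taylor homomorphism of `E<y₁>` and an extension to `E<y₁><y>`. -/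
structure Two (v : RVal H) (pr : A → H →ₗ[k] H) (E : IntermediateField k H) (y₁ y : H) (α : A)
    (s : cadj v E y₁ →ₐ[k] PowerSeries (cadj v E y₁))
    (h : cadj v (cadj v E y₁) y →ₐ[k] PowerSeries H) : Prop where
  tay : Tay v pr (cadj v E y₁) E y₁ α s
  hsi : HSI v (cadj v (cadj v E y₁) y) h
  ext : ∀ (x : cadj v (cadj v E y₁) y) (_ : (x : H) ∈ cadj v E y₁) (n : ℕ),
    PowerSeries.coeff n (h x) = dj s n x

theorem exists_two [IsAlgClosed H] [PerfectRing H p] [Fact (Ctx0 k v)] (hc : CompleteV v)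
    (hS : SphC v) {s : cadj v E y₁ →ₐ[k] PowerSeries (cadj v E y₁)}
    (hT : Tay v pr (cadj v E y₁) E y₁ α s) (hy : TL v (cadj v E y₁) y 0) :
    ∃ h, Two v pr E y₁ y α s h := by
  have a1 : HSI v (cadj v E y₁) (serK s) := ⟨fun x => by rw [coeff_serK, hT.zero], fun n x b hb => by
    rw [coeff_serK]
    exact hT.norm n x b hb⟩
  obtain ⟨h, h1, h2⟩ := exists_ext1 p hc hS a1 hy
  exact ⟨h, hT, h1, fun x hx n => by rw [h2 x hx, coeff_serK, tj_eq s n hx]⟩

namespace Two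

variable {s : cadj v E y₁ →ₐ[k] PowerSeries (cadj v E y₁)}
  {h : cadj v (cadj v E y₁) y →ₐ[k] PowerSeries H}

/-- The jets of order `< p` of `a x ^ p`. -/
theorem coeff_mul_pow (n : ℕ) (hn : n < p)
    (hh : HSI v (cadj v (cadj v E y₁) y) h) (a x : cadj v (cadj v E y₁) y) :
    PowerSeries.coeff n (h (a * x ^ p)) = PowerSeries.coeff n (h a) * (x : H) ^ p := by
  rw [map_mul, map_pow, PowerSeries.coeff_mul, Finset.sum_eq_single (n, 0)]
  · rw [TWC.coeff_ps_pow, if_pos (dvd_zero p), Nat.zero_div, hh.zero]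
  · rintro ⟨i, j⟩ hij hne
    have hij := Finset.HasAntidiagonal.mem_antidiagonal.1 hij
    simp only at hij ⊢
    have hj : j ≠ 0 := by
      rintro rfl
      exact hne (by rw [← hij, add_zero])
    rw [TWC.coeff_ps_pow, if_neg, mul_zero]
    intro h1
    have := Nat.le_of_dvd (Nat.pos_of_ne_zero hj) h1
    omega
  · intro h1
    exact absurd (Finset.HasAntidiagonal.mem_antidiagonal.2 (add_zero n)) h1

/-- The jets of order `< p` of `P(x ^ p)`, `P` with coefficients in `E₁`. -/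
theorem coeff_eval (hT : Two v pr E y₁ y α s h) {n : ℕ} (hn : n < p) {P : Polynomial H}
    (hP : P ∈ PI (cadj v E y₁)) (x : cadj v (cadj v E y₁) y)
    (hx : P.eval ((x : H) ^ p) ∈ cadj v (cadj v E y₁) y) :
    PowerSeries.coeff n (h ⟨P.eval ((x : H) ^ p), hx⟩) = (cD s n P).eval ((x : H) ^ p) := by
  have hPB : ∀ j, P.coeff j ∈ cadj v (cadj v E y₁) y := fun j => le_cadj _ _ _ (hP j)
  have e : (⟨P.eval ((x : H) ^ p), hx⟩ : cadj v (cadj v E y₁) y) =
      ∑ j ∈ Finset.range (P.natDegree + 1), ⟨P.coeff j, hPB j⟩ * (x ^ j) ^ p := by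
    refine Subtype.ext ?_
    push_cast
    rw [eval_eq_sum_range]
    refine Finset.sum_congr rfl fun j _ => ?_
    rw [← pow_mul, ← pow_mul, mul_comm p j]
  rw [e, map_sum, map_sum, eval_eq_sum_range' (n := P.natDegree + 1)
    (Nat.lt_succ_of_le (cD_natDegree_le s n P))]
  refine Finset.sum_congr rfl fun j _ => ?_
  rw [coeff_mul_pow n hn hT.hsi, hT.ext ⟨P.coeff j, hPB j⟩ (hP j) n, coeff_cD]
  push_cast
  rw [← pow_mul, ← pow_mul, mul_comm p j]

end Two

end Pool.Agent.TWIV
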