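import Pool.Agent.Lib.TWIV.BetB

/-!
# TANK W, leaf (IV), shape (1,2)': (BETA), one step

`E₁ = E<y₁>`, `B = E₁<y>`, `z`, `b` formal limits of `B`, `E₁` with `b = z ^ (p ^ m) + h`, `h ∈ B`,
`m ≥ 1`. Then `b' = b - c y - e` has `D_(p i + 1) b' = (D_i (∑ A_j y ^ (p ^ j))) ^ p` for all `i`,
`D_i` the divided derivatives of `y₁`; some `A_j` is not zero if `z ^ (p ^ (m - 1))` is not in
`B + L(E₁)`.
-/

set_option autoImplicit false
set_option linter.unusedSectionVars false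

open Polynomial

namespace Pool.Agent.TWIV

open Pool.Agent.H15JM (RVal)
open Pool.Agent.D2 (Ctx0)
open Pool.Agent.D2P (mem_clI)
open Pool.Agent.TWM
open Pool.Agent.TWC (Nul Cau HSI margin hasse_gt hasse_ge hasse_pow_char germ_res)
open Pool.Agent.TWS (SphC)

universe u

variable {k H : Type u} [Field k] [Field H] [Algebra k H] [IsAlgClosed H] {v : RVal H} {p : ℕ}
  [hp : Fact p.Prime] [CharP H p] {A : Type*} [AddCommGroup A] {pr : A → H →ₗ[k] H}
  {E F : IntermediateField k H} {y z y₁ : H} {α : A}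

/-- The `p`-th power of the generator. -/
theorem tl_powB (p : ℕ) [hp : Fact p.Prime] [CharP H p] (h : TL v F y 0) : TL v F (y ^ p) 0 where
  lim := by
    have hp0 : (0 : ℝ) < p := by exact_mod_cast hp.out.pos
    intro ε hε
    obtain ⟨a, ha, h1⟩ := h.lim (ε / p) (div_pos hε hp0)
    refine ⟨a ^ p, pow_mem ha p, ?_⟩
    rw [← sub_pow_char]
    refine (ge_pow h1 p).mono ?_
    rw [mul_sub, mul_div_cancel₀ _ hp0.ne', mul_zero]
  far := by
    intro θ hθ
    obtain ⟨θ', rfl⟩ := IsAlgClosed.exists_pow_nat_eq θ hp.out.pos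
    obtain ⟨h1, h2⟩ := h.far θ' (IsAlgebraic.of_pow hp.out.pos hθ)
    have h3 : y - θ' ≠ 0 := sub_ne_zero.2 h1
    have hp0 : (0 : ℝ) < p := by exact_mod_cast hp.out.pos
    rw [← sub_pow_char, v.map_pow h3]
    refine ⟨?_, by nlinarith⟩
    rw [← sub_ne_zero, ← sub_pow_char]
    exact pow_ne_zero p h3

/-- The constants are `p`-th powers. -/
theorem const_root (hk : Ctx0 k v) (p : ℕ) [hp : Fact p.Prime] [CharP H p] (c : k) :
    ∃ a : k, a ^ p = c := by
  obtain ⟨x, hx⟩ := IsAlgClosed.exists_pow_nat_eq (algebraMap k H c) hp.out.pos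
  have hx0 : v.Ge 0 x := by
    intro h0
    have h1 := hk.ge c
    rw [← hx] at h1
    have h2 := h1 (pow_ne_zero p h0)
    rw [v.map_pow h0] at h2
    have hp0 : (0 : ℝ) < p := by exact_mod_cast hp.out.pos
    by_contra h3
    rw [not_le] at h3
    nlinarith
  obtain ⟨a, ha⟩ := hk.residue hx0
  refine ⟨a, ?_⟩
  rw [← sub_eq_zero]
  refine neg_eq_zero.1 (hk.const_eq_zero ?_)
  have e : algebraMap k H (-(a ^ p - c)) = (x - algebraMap k H a) ^ p := by
    rw [sub_pow_char, hx, map_neg, map_sub, map_pow]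
    ring
  rw [e]
  intro h0
  have h1 : x - algebraMap k H a ≠ 0 := fun h2 => h0 (by rw [h2, zero_pow hp.out.ne_zero])
  have hp0 : (0 : ℝ) < p := by exact_mod_cast hp.out.pos
  rw [v.map_pow h1]
  have h2 := ha h1
  positivity

theorem nul_powB (p : ℕ) [hp : Fact p.Prime] [CharP H p] {x x' : ℕ → H}
    (hx : Nul v fun n => x n - x' n) (q : ℕ) : Nul v fun n => x n ^ p ^ q - x' n ^ p ^ q :=
  (TWC.Nul.pow hx (p ^ q)).congr fun _ => sub_pow_char_pow _ _ _

/-- `split_core`, for a formal limit. -/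
theorem beta_split (hk : Ctx0 k v) (hy : TL v F y 0) (p : ℕ) [hp : Fact p.Prime] [CharP H p]
    {z b : ℕ → H} (hz : Cau v (cadj v F y) z) (hb : Cau v F b) {h : H} (hh : h ∈ cadj v F y)
    {m : ℕ} (hm : 1 ≤ m) (hn : Nul v fun n => b n - z n ^ p ^ m - h) :
    ∃ g ∈ PI F, ∃ c : k, ∃ Z : ℕ → Polynomial H, (∀ n, Z n ∈ PI F) ∧
      (∀ n, v.Ge 0 (z n - (Z n).eval y)) ∧
      Nul v fun n => b n - algebraMap k H c * y - (Z n).eval y ^ p ^ m - g.eval (y ^ p) := by
  obtain ⟨f, hf, h1⟩ := hy.dense hh 0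
  choose Z hZ h2 using fun n => hy.dense (hz.mem n) 0
  have h3 : Nul v fun n => b n - (Z n).eval y ^ p ^ m - f.eval y := by
    have h4 := nul_powB (v := v) p (Nul.of_ge h2) m
    refine ((hn.add h4).add (Nul.of_ge (x := fun _ => h - f.eval y) fun _ => h1)).congr fun n => ?_
    ring
  have hD : ∀ l, ¬ p ∣ l → v.Ge 0 ((hasseDeriv l f).eval y) := by
    intro l hl
    have hl0 : l ≠ 0 := by rintro rfl; exact hl (dvd_zero p)
    refine Nul.const (v := v) fun ε hε => ?_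
    obtain ⟨N, h4⟩ := h3 ε hε
    refine ⟨N, fun n hn => ?_⟩
    have h5 : v.Ge (-ε) ((C (b n) - Z n ^ p ^ m - f).eval y) := by
      rw [eval_sub, eval_sub, eval_C, eval_pow]
      exact h4 n hn
    have h6 := hasse_ge hy (sub_mem (sub_mem (C_mem_PI (hb.mem n)) (pow_mem (hZ n) _)) hf) h5 l
    rw [map_sub, map_sub, eval_sub, eval_sub, hasseDeriv_C l _ (Nat.pos_of_ne_zero hl0),
      hasse_pow_char p m (Z n) (fun h7 => hl ((dvd_pow_self p (by omega)).trans h7)), eval_zero,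
      zero_sub, neg_zero, zero_sub] at h6
    have h7 := RVal.Ge.neg h6
    rwa [neg_neg] at h7
  obtain ⟨g, hg, c, h4⟩ := split_core hk hy p hf hD
  refine ⟨g, hg, c, Z, hZ, h2, ?_⟩
  refine (h3.add (Nul.of_ge (x := fun _ => f.eval y - g.eval (y ^ p) - algebraMap k H c * y)
    fun _ => h4.ge)).congr fun n => ?_
  ring

/-! ### The jets of the second floor -/

theorem HSI.gt {K : IntermediateField k H} {h : K →ₐ[k] PowerSeries H} (hh : HSI v K h) (n : ℕ)
    {x : K} {r : ℝ} (hx : Gt v r (x : H)) : Gt v r (PowerSeries.coeff n (h x)) := by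
  by_cases h0 : (x : H) = 0
  · have h1 : x = 0 := Subtype.ext h0
    rw [h1, map_zero, map_zero]
    exact Gt.zero
  · exact Gt.of_ge (hh.norm n x _ (RVal.ge_self _)) (hx h0)

namespace Two

variable {s : cadj v E y₁ →ₐ[k] PowerSeries (cadj v E y₁)}
  {h : cadj v (cadj v E y₁) y →ₐ[k] PowerSeries H}

theorem eval_mem_B {P : Polynomial H} (hP : P ∈ PI (cadj v E y₁)) {x : H}
    (hx : x ∈ cadj v (cadj v E y₁) y) : P.eval x ∈ cadj v (cadj v E y₁) y :=
  eval_mem (PI_mono (le_cadj v _ y) hP) hx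

/-- The first jet of `a - Z ^ (p ^ m) - P(y ^ p)`, `m ≥ 1`. -/
theorem nul_one (hT : Two v pr E y₁ y α s h) {P : Polynomial H} (hP : P ∈ PI (cadj v E y₁))
    {a Z : ℕ → H} (ha : ∀ n, a n ∈ cadj v E y₁) (hZ : ∀ n, Z n ∈ cadj v (cadj v E y₁) y)
    {m : ℕ} (hm : 1 ≤ m) (hn : Nul v fun n => a n - Z n ^ p ^ m - P.eval (y ^ p)) :
    Nul v fun n => dj s 1 (a n) - (cD s 1 P).eval (y ^ p) := by
  intro ε hε
  obtain ⟨N, h1⟩ := hn ε hε
  refine ⟨N, fun n hn => ?_⟩
  have hy := self_mem_cadj v (cadj v E y₁) y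
  have h2 := hT.hsi.norm 1 ⟨a n - Z n ^ p ^ m - P.eval (y ^ p), sub_mem (sub_mem
    (le_cadj _ _ _ (ha n)) (pow_mem (hZ n) _)) (eval_mem_B hP (pow_mem hy p))⟩ (-ε) (h1 n hn)
  have e : (⟨a n - Z n ^ p ^ m - P.eval (y ^ p), sub_mem (sub_mem
    (le_cadj _ _ _ (ha n)) (pow_mem (hZ n) _)) (eval_mem_B hP (pow_mem hy p))⟩ :
      cadj v (cadj v E y₁) y) = ⟨a n, le_cadj _ _ _ (ha n)⟩ - (⟨Z n, hZ n⟩ ^ p ^ (m - 1)) ^ p -
        ⟨P.eval (y ^ p), eval_mem_B hP (pow_mem hy p)⟩ := by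
    refine Subtype.ext ?_
    push_cast
    rw [← pow_mul, ← pow_succ, Nat.sub_add_cancel hm]
  have hp1 : ¬ p ∣ 1 := fun h1 => hp.out.one_lt.ne' (Nat.dvd_one.1 h1)
  rw [e, map_sub, map_sub, map_sub, map_sub, map_pow, TWC.coeff_ps_pow, if_neg hp1, sub_zero,
    hT.ext _ (ha n), coeff_eval hT hp.out.one_lt hP ⟨y, hy⟩] at h2
  exact h2

theorem tj_eval_pow (hT : Two v pr E y₁ y α s h) {n : ℕ} (hn : n < p) {P : Polynomial H}
    (hP : P ∈ PI (cadj v E y₁)) {x : H} (hx : x ∈ cadj v E y₁) :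
    dj s n (P.eval (x ^ p)) = (cD s n P).eval (x ^ p) := by
  have h1 : P.eval (x ^ p) ∈ cadj v E y₁ := eval_mem hP (pow_mem hx p)
  rw [← hT.ext ⟨P.eval (x ^ p), le_cadj _ _ _ h1⟩ h1 n]
  exact coeff_eval hT hn hP ⟨x, le_cadj _ _ _ hx⟩ _

theorem tj_natCast_mul (s : cadj v E y₁ →ₐ[k] PowerSeries (cadj v E y₁)) (n j : ℕ) {x : H}
    (hx : x ∈ cadj v E y₁) : dj s n ((j : H) * x) = (j : H) * dj s n x := by
  induction j with
  | zero => rw [Nat.cast_zero, zero_mul, zero_mul, tj_zero]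
  | succ j ih =>
    rw [Nat.cast_succ, add_mul, one_mul, tj_add s n (mul_mem (natCast_mem _ _) hx) hx, ih,
      add_mul, one_mul]

theorem cD_hasse (s : cadj v E y₁ →ₐ[k] PowerSeries (cadj v E y₁)) (n j : ℕ) {P : Polynomial H}
    (hP : P ∈ PI (cadj v E y₁)) : cD s n (hasseDeriv j P) = hasseDeriv j (cD s n P) := by
  ext l
  rw [coeff_cD, hasseDeriv_coeff, hasseDeriv_coeff, coeff_cD, tj_natCast_mul s n _ (hP _)]

/-- The first jet commutes with the Taylor shift by a `p`-th power. -/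
theorem tj_taylor (hT : Two v pr E y₁ y α s h) {P : Polynomial H} (hP : P ∈ PI (cadj v E y₁))
    {ψ : H} (hψ : ψ ∈ cadj v E y₁) (j : ℕ) :
    dj s 1 ((taylor (ψ ^ p) P).coeff j) = (taylor (ψ ^ p) (cD s 1 P)).coeff j := by
  rw [taylor_coeff, taylor_coeff, tj_eval_pow hT hp.out.one_lt (hasse_mem_PI hP j) hψ,
    cD_hasse s 1 j hP]

/-- The approximate root of an element of the first floor with a small first jet. -/
theorem root_one (hT : Two v pr E y₁ y α s h) (hy₁ : TL v E y₁ 0)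
    (hE : ∀ a ∈ E, ∃ b ∈ E, b ^ p = a) {x : H} (hx : x ∈ cadj v E y₁) {r δ : ℝ} (hδ : 0 < δ)
    (h1 : v.Ge r (dj s 1 x)) : ∃ t ∈ cadj v E y₁, v.Ge (r - δ) (x - t ^ p) := by
  obtain ⟨q, hq, h2⟩ := hy₁.dense hx r
  have hy₁m := self_mem_cadj v E y₁
  have hqm : q.eval y₁ ∈ cadj v E y₁ := eval_mem (PI_mono (le_cadj v E y₁) hq) hy₁m
  have h3 : v.Ge r ((hasseDeriv 1 q).eval y₁) := by
    have h4 := hT.tay.tj_ge 1 (sub_mem hx hqm) h2
    rw [tj_sub s 1 hx hqm, hT.tay.tj_eval (le_cadj v E y₁) hy₁m hq] at h4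
    rw [show (hasseDeriv 1 q).eval y₁ = dj s 1 x - (dj s 1 x - (hasseDeriv 1 q).eval y₁) by ring]
    exact h1.sub h4
  obtain ⟨g, hg, h4⟩ := approx_root hy₁ p hE hq hδ h3
  refine ⟨g.eval y₁, eval_mem (PI_mono (le_cadj v E y₁) hg) hy₁m, ?_⟩
  rw [show x - g.eval y₁ ^ p = (x - q.eval y₁) + (q.eval y₁ - g.eval y₁ ^ p) by ring]
  exact (h2.mono (by linarith)).add h4

/-- The approximate roots of a formal limit. -/
theorem root_seq (hT : Two v pr E y₁ y α s h) (hy₁ : TL v E y₁ 0)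
    (hE : ∀ a ∈ E, ∃ b ∈ E, b ^ p = a) {x : ℕ → H} (hx : Cau v (cadj v E y₁) x)
    (h1 : Nul v fun n => dj s 1 (x n)) :
    ∃ t, Cau v (cadj v E y₁) t ∧ Nul v fun n => x n - t n ^ p := by
  classical
  choose t ht h2 using fun n : ℕ => root_one hT hy₁ hE (hx.mem n)
    (r := if dj s 1 (x n) = 0 then 0 else min 0 (v (dj s 1 (x n)))) (δ := 1 / ((n : ℝ) + 1))
    (by positivity) (by
      intro h0
      rw [if_neg h0]
      exact min_le_right _ _)
  have h3 : Nul v fun n => x n - t n ^ p := by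
    intro ε hε
    obtain ⟨N, h4⟩ := h1 (ε / 2) (by positivity)
    obtain ⟨M, hM⟩ := exists_nat_gt (2 / ε)
    refine ⟨max N M, fun n hn => (h2 n).mono ?_⟩
    have h5 : 1 / ((n : ℝ) + 1) ≤ ε / 2 := by
      have h6 : (M : ℝ) ≤ n := by exact_mod_cast (le_max_right N M).trans hn
      rw [div_le_iff₀ (by positivity)]
      rw [div_lt_iff₀ hε] at hM
      nlinarith
    have h6 : -(ε / 2) ≤ if dj s 1 (x n) = 0 then 0 else min 0 (v (dj s 1 (x n))) := by
      split_ifs with h7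
      · linarith
      · exact le_min (by linarith) (h4 n ((le_max_left N M).trans hn) h7)
    linarith
  refine ⟨t, Cau.of_pow (A := cadj v E y₁) p (q := 1) ht ?_, h3⟩
  rw [pow_one]
  exact hx.of_nul (fun n => pow_mem (ht n) p) h3

/-- **The key lemma.** `P ∈ E₁[X]`, the derivative of `P(y ^ p)` is integral: it is a `p`-th power
of `B` plus `c y₁`. -/
theorem core (hT : Two v pr E y₁ y α s h) (hk : Ctx0 k v) (hy₁ : TL v E y₁ 0)
    (hy : TL v (cadj v E y₁) y 0) (hE : ∀ a ∈ E, ∃ b ∈ E, b ^ p = a) {P : Polynomial H}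
    (hP : P ∈ PI (cadj v E y₁)) (h1 : v.Ge 0 ((cD s 1 P).eval (y ^ p))) :
    ∃ h₀ ∈ cadj v (cadj v E y₁) y, ∃ c : k,
      v.Ge 0 (P.eval (y ^ p) - h₀ ^ p - algebraMap k H c * y₁) := by
  classical
  have hy₁m := self_mem_cadj v E y₁
  obtain ⟨c, hc⟩ := hk.residue h1
  set P₁ := P - C (algebraMap k H c * y₁) with hP₁
  have hcy : algebraMap k H c * y₁ ∈ cadj v E y₁ :=
    mul_mem ((cadj v E y₁).algebraMap_mem c) hy₁m
  have hP₁m : P₁ ∈ PI (cadj v E y₁) := sub_mem hP (C_mem_PI hcy)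
  have e1 : dj s 1 (algebraMap k H c * y₁) = algebraMap k H c := by
    have h2 := hT.tay.tj_eval (le_cadj v E y₁) hy₁m (f := C (algebraMap k H c) * X)
      (mul_mem (C_mem_PI (E.algebraMap_mem c)) X_mem_PI) 1
    rw [eval_mul, eval_C, eval_X, hasseDeriv_one] at h2
    rw [h2]
    simp
  have e2 : cD s 1 P₁ = cD s 1 P - C (algebraMap k H c) := by
    rw [hP₁, cD_sub s 1 hP (C_mem_PI hcy)]
    congr 1
    ext j
    rw [coeff_cD, coeff_C, coeff_C]
    split_ifs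
    · exact e1
    · exact tj_zero s 1
  have h2 : Gt v 0 ((cD s 1 P₁).eval (y ^ p)) := by
    rw [e2, eval_sub, eval_C]
    exact hc
  have hw := tl_powB p hy
  have hp0 : (0 : ℝ) < p := by exact_mod_cast hp.out.pos
  obtain ⟨m, hm, δ, hδ, hmar⟩ := margin hw {cD s 1 P₁} (by
    intro g hg
    rw [Finset.mem_singleton.1 hg]
    exact ⟨cD_mem s 1 P₁, h2⟩)
  set D := P₁.natDegree with hD
  obtain ⟨ψ, hψm, hψ⟩ := hy.lim (min (δ / p) (m / (2 * (D + 1)) / p)) (by positivity)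
  rw [zero_sub] at hψ
  have h3 : v.Ge (-(p * min (δ / p) (m / (2 * (D + 1)) / p))) (y ^ p - ψ ^ p) := by
    rw [← sub_pow_char]
    have := ge_pow hψ p
    rwa [mul_neg] at this
  have h4 : (p : ℝ) * min (δ / p) (m / (2 * (D + 1)) / p) ≤ δ := by
    have := min_le_left (δ / p) (m / (2 * ((D : ℝ) + 1)) / p)
    calc (p : ℝ) * min (δ / p) (m / (2 * (D + 1)) / p) ≤ p * (δ / p) := by gcongr
      _ = δ := mul_div_cancel₀ _ hp0.ne'
  have h5 : (p : ℝ) * min (δ / p) (m / (2 * (D + 1)) / p) ≤ m / (2 * (D + 1)) := by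
    have := min_le_right (δ / p) (m / (2 * ((D : ℝ) + 1)) / p)
    calc (p : ℝ) * min (δ / p) (m / (2 * (D + 1)) / p) ≤ p * (m / (2 * (D + 1)) / p) := by gcongr
      _ = m / (2 * (D + 1)) := mul_div_cancel₀ _ hp0.ne'
  have h6 : 0 ≤ (p : ℝ) * min (δ / p) (m / (2 * (D + 1)) / p) := by positivity
  have hmar' := hmar (ψ ^ p) (h3.mono (by linarith)) _ (Finset.mem_singleton_self _)
  have hTm : taylor (ψ ^ p) P₁ ∈ PI (cadj v E y₁) := taylor_mem_PI hP₁m (pow_mem hψm p)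
  choose t htm ht using fun j => root_one hT hy₁ hE (hTm j) (r := m) (δ := m / 2) (by positivity)
    (by rw [tj_taylor hT hP₁m hψm]; exact hmar' j)
  refine ⟨∑ j ∈ Finset.range (D + 1), t j * (y - ψ) ^ j, sum_mem fun j _ =>
    mul_mem (le_cadj _ _ _ (htm j)) (pow_mem (sub_mem (self_mem_cadj _ _ _)
      (le_cadj _ _ _ hψm)) j), c, ?_⟩
  set R : Polynomial H := ∑ j ∈ Finset.range (D + 1),
    monomial j ((taylor (ψ ^ p) P₁).coeff j - t j ^ p) with hR
  have hRc : ∀ l, v.Ge (m / 2) (R.coeff l) := by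
    intro l
    rw [hR, finsetSum_coeff]
    refine RVal.Ge.sum _ _ fun j _ => ?_
    rw [coeff_monomial]
    split_ifs
    · exact (ht j).mono (by linarith)
    · exact RVal.Ge.zero
  have hRd : R.natDegree ≤ D := by
    refine natDegree_sum_le_of_forall_le _ _ fun j hj => (natDegree_monomial_le _).trans ?_
    have := Finset.mem_range.1 hj
    omega
  have e3 : P.eval (y ^ p) - (∑ j ∈ Finset.range (D + 1), t j * (y - ψ) ^ j) ^ p -
      algebraMap k H c * y₁ = R.eval (y ^ p - ψ ^ p) := by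
    have e4 : P.eval (y ^ p) - algebraMap k H c * y₁ = P₁.eval (y ^ p) := by
      rw [hP₁, eval_sub, eval_C]
    have e5 : P₁.eval (y ^ p) = ∑ j ∈ Finset.range (D + 1),
        (taylor (ψ ^ p) P₁).coeff j * (y ^ p - ψ ^ p) ^ j := by
      rw [eval_eq_taylor P₁ (ψ ^ p) (y ^ p), eval_eq_sum_range' (n := D + 1)
        (by rw [natDegree_taylor]; omega)]
    rw [sub_right_comm, e4, e5, sum_pow_char, hR, eval_finsetSum, ← Finset.sum_sub_distrib]
    refine Finset.sum_congr rfl fun j _ => ?_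
    rw [eval_monomial, mul_pow, ← sub_pow_char, ← pow_mul, ← pow_mul, mul_comm j p]
    ring
  rw [e3]
  refine (eval_ge_of_coeff hRd hRc h6 h3).mono ?_
  have h7 : (D : ℝ) * (m / (2 * (D + 1))) ≤ m / 2 := by
    rw [mul_div_assoc', div_le_iff₀ (by positivity)]
    nlinarith
  have h8 : (0 : ℝ) ≤ D := Nat.cast_nonneg D
  nlinarith

end Two

/-- The jets of order divisible by `p` of the first jet. -/
theorem Tay.tj_one {s : cadj v E y₁ →ₐ[k] PowerSeries (cadj v E y₁)}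
    (hT : Tay v pr (cadj v E y₁) E y₁ α s) (i : ℕ) {x : H} (hx : x ∈ cadj v E y₁) :
    dj s (p * i) (dj s 1 x) = dj s (1 + p * i) x := by
  rw [hT.tj_comp 1 (p * i) hx, Nat.choose_one_right, Nat.cast_add, Nat.cast_mul,
    CharP.cast_eq_zero H p, zero_mul, zero_add, Nat.cast_one, one_mul, add_comm]

/-- The top jet of order `< p` of the first jet. -/
theorem Tay.tj_top {s : cadj v E y₁ →ₐ[k] PowerSeries (cadj v E y₁)}
    (hT : Tay v pr (cadj v E y₁) E y₁ α s) {x : H} (hx : x ∈ cadj v E y₁) :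
    dj s (p - 1) (dj s 1 x) = 0 := by
  rw [hT.tj_comp 1 (p - 1) hx, Nat.choose_one_right, Nat.sub_add_cancel hp.out.one_lt.le,
    CharP.cast_eq_zero H p, zero_mul]

/-- **(BETA), one step.** -/
theorem beta_step [Fact (Ctx0 k v)] (hc : CompleteV v) (hS : SphC v)
    (hE : ∀ a ∈ E, ∃ b ∈ E, b ^ p = a) (hy₁ : TL v E y₁ 0) (hy : TL v (cadj v E y₁) y 0)
    {s : cadj v E y₁ →ₐ[k] PowerSeries (cadj v E y₁)} (hs : Tay v pr (cadj v E y₁) E y₁ α s)
    {yy : ℕ → H} (hyy : Cau v (cadj v E y₁) yy) (hyn : Nul v fun n => y - yy n)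
    {z b : ℕ → H} (hz : Cau v (cadj v (cadj v E y₁) y) z) (hb : Cau v (cadj v E y₁) b) {h₁ : H}
    (hh : h₁ ∈ cadj v (cadj v E y₁) y) {m : ℕ} (hm : 1 ≤ m)
    (hn : Nul v fun n => b n - z n ^ p ^ m - h₁) :
    ∃ b', Cau v (cadj v E y₁) b' ∧ ∃ (c : k) (e : H) (N : ℕ) (Λ : ℕ → k), e ∈ cadj v E y₁ ∧
      (Nul v fun n => b' n - (b n - algebraMap k H c * y - e)) ∧
      (∀ i, Nul v fun n => dj s (1 + p * i) (b' n) -
        dj s i (∑ j ∈ Finset.range N, algebraMap k H (Λ j) * yy n ^ p ^ j) ^ p) ∧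
      ((∀ h₀ ∈ cadj v (cadj v E y₁) y, ∀ b₀, Cau v (cadj v E y₁) b₀ →
        ¬ Nul v fun n => z n ^ p ^ (m - 1) + h₀ - b₀ n) → ∃ j < N, Λ j ≠ 0) := by
  classical
  have hk : Ctx0 k v := Fact.out
  have _ : PerfectField H := IsAlgClosed.perfectField H
  have _ : PerfectRing H p := PerfectField.toPerfectRing p
  obtain ⟨h, hT⟩ := exists_two (p := p) hc hS hs hy
  have hy₁m := self_mem_cadj v E y₁
  have hym := self_mem_cadj v (cadj v E y₁) y
  have hp0 : (0 : ℝ) < p := by exact_mod_cast hp.out.pos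
  have hw := tl_powB p hy
  obtain ⟨g, hg, c, Z, hZ, hZn, h1⟩ := beta_split hk hy p hz hb hh hm hn
  have hZm : ∀ n, (Z n).eval y ∈ cadj v (cadj v E y₁) y := fun n => Two.eval_mem_B (hZ n) hym
  -- the first correction
  set b1 : ℕ → H := fun n => b n - algebraMap k H c * yy n with hb1
  have hcc : ∀ c : k, algebraMap k H c ∈ cadj v E y₁ := (cadj v E y₁).algebraMap_mem
  have hb1m : ∀ n, b1 n ∈ cadj v E y₁ := fun n => sub_mem (hb.mem n) (mul_mem (hcc c) (hyy.mem n))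
  have hb1n : Nul v fun n => (b n - algebraMap k H c * y) - b1 n := by
    have h2 := (TWC.Nul.mul_ge hyn (c := fun _ => algebraMap k H c) fun _ => hk.ge c).neg
    refine h2.congr fun n => ?_
    rw [hb1]
    ring
  have hcyy : Cau v (cadj v E y₁) fun n => algebraMap k H c * yy n := by
    refine ⟨fun n => mul_mem (hcc c) (hyy.mem n), fun ε hε => ?_⟩
    obtain ⟨N, h2⟩ := hyy.cau ε hε
    refine ⟨N, fun i j hi hj => ?_⟩
    have h3 := (hk.ge c).mul (h2 i j hi hj)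
    rwa [mul_sub, zero_add] at h3
  have hb1c : Cau v (cadj v E y₁) b1 := hb.sub hcyy
  have h2 : Nul v fun n => b1 n - (Z n).eval y ^ p ^ m - g.eval (y ^ p) :=
    (h1.sub hb1n).congr fun n => by ring
  have h3 := Two.nul_one hT hg hb1m hZm hm h2
  -- the germ
  have hE₁W := le_cadj v (cadj v E y₁) (y ^ p)
  have hwm := self_mem_cadj v (cadj v E y₁) (y ^ p)
  have hum : (cD s 1 g).eval (y ^ p) ∈ cadj v (cadj v E y₁) (y ^ p) :=
    eval_mem (PI_mono hE₁W (cD_mem s 1 g)) hwm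
  obtain ⟨e, he, N, γ, h4⟩ := germ_res hk hw p hum (TWC.Lim.of_nul (m := fun n => dj s 1 (b1 n))
    (fun n => tj_mem s 1 _) (h3.neg.congr fun n => by ring))
  -- the integration
  set Q : Polynomial H := cD s 1 g - C e - addP p N (fun i => algebraMap k H (γ i)) with hQ
  have hadd : addP p N (fun i => algebraMap k H (γ i)) ∈ PI (cadj v E y₁) :=
    addP_mem fun i => hcc (γ i)
  have hQm : Q ∈ PI (cadj v E y₁) := sub_mem (sub_mem (cD_mem s 1 g) (C_mem_PI he)) hadd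
  have h5 : Gt v 0 (Q.eval (y ^ p)) := by
    rw [hQ, eval_sub, eval_sub, eval_C, addP_eval]
    rw [← sub_sub] at h4
    exact h4
  have hp1 : p - 1 ≠ 0 := by have := hp.out.one_lt; omega
  have h6 : Gt v 0 (dj s (p - 1) e) := by
    have h7 := HSI.gt hT.hsi (p - 1) (x := ⟨Q.eval (y ^ p), Two.eval_mem_B hQm (pow_mem hym p)⟩) h5
    rw [Two.coeff_eval hT (Nat.sub_lt hp.out.pos one_pos) hQm ⟨y, hym⟩] at h7
    have e1 : cD s (p - 1) Q = -C (dj s (p - 1) e) := by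
      ext j
      have e2 : dj s (p - 1) ((addP p N (fun i => algebraMap k H (γ i))).coeff j) = 0 := by
        refine hs.tj_base (le_cadj v E y₁) hp1 ?_
        exact addP_mem (A := E) (fun i => E.algebraMap_mem (γ i)) j
      have e3 : dj s (p - 1) ((C e).coeff j) = (C (dj s (p - 1) e)).coeff j := by
        rw [coeff_C, coeff_C]
        split_ifs
        · rfl
        · exact tj_zero s _
      rw [coeff_cD, hQ, coeff_sub, coeff_sub, coeff_cD, tj_sub s _ (sub_mem (tj_mem s 1 _)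
        (C_mem_PI he j)) (hadd j), tj_sub s _ (tj_mem s 1 _) (C_mem_PI he j), hs.tj_top (hg j),
        e2, e3, coeff_neg]
      ring
    rw [e1, eval_neg, eval_C] at h7
    have h8 := h7.neg
    rwa [neg_neg] at h8
  obtain ⟨q, hq, h7⟩ := hy₁.dense he 1
  have hqm : q.eval y₁ ∈ cadj v E y₁ := eval_mem (PI_mono (le_cadj v E y₁) hq) hy₁m
  have h8 : Gt v 0 ((hasseDeriv (p - 1) q).eval y₁) := by
    have h9 := hs.tj_ge (p - 1) (sub_mem he hqm) h7
    rw [tj_sub s _ he hqm, hs.tj_eval (le_cadj v E y₁) hy₁m hq] at h9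
    rw [show (hasseDeriv (p - 1) q).eval y₁ =
      dj s (p - 1) e - (dj s (p - 1) e - (hasseDeriv (p - 1) q).eval y₁) by ring]
    exact h6.sub (Gt.of_ge h9 one_pos)
  obtain ⟨g₂, hg₂, h9⟩ := int_one hy₁ p hq h8
  have he₂ : g₂.eval y₁ ∈ cadj v E y₁ := eval_mem (PI_mono (le_cadj v E y₁) hg₂) hy₁m
  have h10 : Gt v 0 (dj s 1 (g₂.eval y₁) - e) := by
    rw [hs.tj_eval (le_cadj v E y₁) hy₁m hg₂]
    rw [eval_sub] at h9
    rw [show (hasseDeriv 1 g₂).eval y₁ - e = ((hasseDeriv 1 g₂).eval y₁ - q.eval y₁) -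
      (e - q.eval y₁) by ring]
    exact h9.sub (Gt.of_ge h7 one_pos)
  -- the result
  choose Λ hΛ using fun i => const_root hk p (γ i)
  set b' : ℕ → H := fun n => b1 n - g₂.eval y₁ with hb'
  have hb'm : ∀ n, b' n ∈ cadj v E y₁ := fun n => sub_mem (hb1m n) he₂
  have hb'c : Cau v (cadj v E y₁) b' := hb1c.sub (Cau.const he₂)
  have hsm : ∀ n, ∑ j ∈ Finset.range N, algebraMap k H (Λ j) * yy n ^ p ^ j ∈ cadj v E y₁ :=
    fun n => sum_mem fun j _ => mul_mem (hcc _) (pow_mem (hyy.mem n) _)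
  have e4 : ∑ i ∈ Finset.range N, algebraMap k H (γ i) * (y ^ p) ^ p ^ i =
      (∑ j ∈ Finset.range N, algebraMap k H (Λ j) * y ^ p ^ j) ^ p := by
    rw [sum_pow_char]
    refine Finset.sum_congr rfl fun j _ => ?_
    rw [mul_pow, ← map_pow, hΛ, ← pow_mul, ← pow_mul, mul_comm p]
  have h11 : Nul v fun n => (∑ j ∈ Finset.range N, algebraMap k H (Λ j) * y ^ p ^ j) ^ p -
      (∑ j ∈ Finset.range N, algebraMap k H (Λ j) * yy n ^ p ^ j) ^ p := by
    refine (TWC.Nul.pow (Nul.sum_aux p N hk Λ hyn) p).congr fun n => ?_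
    rw [← sub_pow_char, ← Finset.sum_sub_distrib]
    congr 1
    refine Finset.sum_congr rfl fun j _ => ?_
    rw [sub_pow_char_pow, mul_sub]
  have h12 : Nul v fun n => dj s 1 (b' n) -
      (∑ j ∈ Finset.range N, algebraMap k H (Λ j) * yy n ^ p ^ j) ^ p := by
    have h13 := (((h3.add (Nul.of_ge (x := fun _ => (cD s 1 g).eval (y ^ p) -
      (e + ∑ i ∈ Finset.range N, algebraMap k H (γ i) * (y ^ p) ^ p ^ i)) fun _ => h4.ge)).sub
      (Nul.of_ge (x := fun _ => dj s 1 (g₂.eval y₁) - e) fun _ => h10.ge))).add h11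
    refine h13.congr fun n => ?_
    rw [hb', tj_sub s 1 (hb1m n) he₂, e4]
    ring
  refine ⟨b', hb'c, c, g₂.eval y₁, N, Λ, he₂, ?_, ?_, ?_⟩
  · refine hb1n.neg.congr fun n => ?_
    rw [hb']
    ring
  · intro i ε hε
    obtain ⟨M, h13⟩ := h12 ε hε
    refine ⟨M, fun n hn => ?_⟩
    have h14 := hs.tj_ge (p * i) (sub_mem (tj_mem s 1 (b' n)) (pow_mem (hsm n) p)) (h13 n hn)
    rwa [tj_sub s _ (tj_mem s 1 _) (pow_mem (hsm n) p), hs.tj_one i (hb'm n),
      tj_pow s i (hsm n)] at h14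
  · intro hmin
    by_contra hcon
    push Not at hcon
    have hz0 : ∀ n, (∑ j ∈ Finset.range N, algebraMap k H (Λ j) * yy n ^ p ^ j) ^ p = 0 := by
      intro n
      rw [Finset.sum_eq_zero, zero_pow hp.out.ne_zero]
      intro j hj
      rw [hcon j (Finset.mem_range.1 hj), map_zero, zero_mul]
    have h13 : Nul v fun n => dj s 1 (b' n) := h12.congr fun n => by rw [hz0, sub_zero]
    obtain ⟨x, hx, hxn⟩ := Two.root_seq hT hy₁ hE hb'c h13
    -- the key lemma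
    set G : Polynomial H := g - C (g₂.eval y₁) with hG
    have hGm : G ∈ PI (cadj v E y₁) := sub_mem hg (C_mem_PI he₂)
    have h14 : Nul v fun n => b' n - (Z n).eval y ^ p ^ m - G.eval (y ^ p) := by
      refine h2.congr fun n => ?_
      rw [hb', hG, eval_sub, eval_C]
      ring
    have h15 : v.Ge 0 ((cD s 1 G).eval (y ^ p)) := by
      have h16 := Two.nul_one hT hGm hb'm hZm hm h14
      exact Nul.const (v := v) ((h13.sub h16).congr fun n => by ring)
    obtain ⟨h₀, hh₀, c', h16⟩ := Two.core hT hk hy₁ hy hE hGm h15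
    obtain ⟨φ, hφ, hφn⟩ := TWC.Lim.exists_cau hy₁.lim
    obtain ⟨a', ha'⟩ := const_root hk p c'
    choose ρ hρm hρ using fun n => hE (φ n) (hφ.mem n)
    have hm1 : p ^ m = p ^ (m - 1) * p := by rw [← pow_succ, Nat.sub_add_cancel hm]
    have h17 : Nul v fun n => (x n - (Z n).eval y ^ p ^ (m - 1) - h₀ -
        algebraMap k H a' * ρ n) ^ p := by
      have h18 := (((h14.sub hxn).add (Nul.of_ge (x := fun _ => G.eval (y ^ p) - h₀ ^ p -
        algebraMap k H c' * y₁) fun _ => h16))).add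
        (TWC.Nul.mul_ge hφn (c := fun _ => algebraMap k H c') fun _ => hk.ge c')
      refine h18.congr fun n => ?_
      rw [sub_pow_char, sub_pow_char, sub_pow_char, mul_pow, hρ, ← map_pow, ha', ← pow_mul, ← hm1]
      ring
    have h18 := Nul.of_pow hp.out.ne_zero h17
    have h19 := nul_powB (v := v) p (Nul.of_ge hZn) (m - 1)
    refine hmin h₀ hh₀ (fun n => x n - algebraMap k H a' * ρ n) ?_ ?_
    · refine hx.sub ⟨fun n => mul_mem (hcc a') (le_cadj v E y₁ (hρm n)), ?_⟩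
      have h20 : Cau v E fun n => ρ n := by
        refine Cau.of_pow (A := E) p (q := 1) hρm ?_
        simp only [pow_one, hρ]
        exact hφ
      intro ε hε
      obtain ⟨M, h21⟩ := h20.cau ε hε
      refine ⟨M, fun i j hi hj => ?_⟩
      have h22 := (hk.ge a').mul (h21 i j hi hj)
      rwa [mul_sub, zero_add] at h22
    · refine (h19.sub h18).congr fun n => ?_
      ring

end Pool.Agent.TWIV
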