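import Mathlib

/-!
# TANK W, leaf (IV) tame: polynomial 2-cocycles of `G_a` in characteristic `p`

Coefficient families `a : ℕ → ℕ → k` (`a i j` is the coefficient of `X ^ i Y ^ j`, `i, j ≥ 1`).
`Coc1`: one degree `n`, symmetric (Lazard's comparison lemma): `Coc1.of_not_pow`, `Coc1.of_pow`.
`Coc`: all degrees, not necessarily symmetric: `Coc.struct` (`H ^ 2 (G_a)`), `Coc.struct_symm`.
`Coc.of_deriv`: cocycles from families `b L` with `D J (b L) = C (J + L, J) b (J + L) + c J L`.
-/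

set_option autoImplicit false
set_option linter.unusedSectionVars false

open Nat Finset

namespace Pool.Agent.TWIV

variable {k : Type*} [Field k] (p : ℕ) [hp : Fact p.Prime] [CharP k p]

/-- binomials of `p`-multiples -/
theorem choose_mul_cast (a b : ℕ) : ((choose (p * a) (p * b) : ℕ) : k) = (choose a b : ℕ) := by
  have h := Choose.choose_mul_mul_modEq_choose_nat (p := p) (a := a) (b := b)
  exact (CharP.natCast_eq_natCast (R := k) p).2 h

/-- a binomial of a `p`-multiple over a prime-to-`p` number -/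
theorem choose_mul_cast_zero (a l : ℕ) (hl : ¬ p ∣ l) :
    ((choose (p * a) l : ℕ) : k) = 0 := by
  have h := Choose.choose_modEq_choose_mod_mul_choose_div_nat (p := p) (n := p * a) (k := l)
  rw [CharP.cast_eq_zero_iff k p]
  have h1 : choose (p * a % p) (l % p) = 0 := by
    rw [Nat.mul_mod_right]
    have : 0 < l % p := Nat.pos_of_ne_zero fun h0 ↦ hl (Nat.dvd_of_mod_eq_zero h0)
    exact Nat.choose_eq_zero_of_lt this
  rw [h1, zero_mul] at h
  exact (Nat.modEq_zero_iff_dvd).1 h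

/-- `n ≥ 2` not a power of `p`: some inner binomial is a unit -/
theorem exists_choose_ne {n : ℕ} (hn : 0 < n) (h : ∀ m, n ≠ p ^ m) :
    ∃ i, 1 ≤ i ∧ i < n ∧ ((choose n i : ℕ) : k) ≠ 0 := by
  by_contra hc
  push Not at hc
  refine h _ (Choose.eq_pow_multiplicity_of_choose_modEq_zero_nat (p := p) hn fun i hi ↦ ?_)
  rw [Finset.mem_Icc] at hi
  have h1 := hc i hi.1 (by omega)
  rw [CharP.cast_eq_zero_iff k p] at h1
  exact (Nat.modEq_zero_iff_dvd).2 h1

/-- inner binomials of `p ^ m` vanish -/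
theorem choose_pow_cast {m i : ℕ} (h1 : 1 ≤ i) (h2 : i < p ^ m) :
    ((choose (p ^ m) i : ℕ) : k) = 0 := by
  rw [CharP.cast_eq_zero_iff k p]
  exact hp.out.dvd_choose_pow (by omega) (by omega)

/-- `C (p ^ (m + 1) - 1, p - 1)` is one -/
theorem choose_pred_cast (m : ℕ) : ((choose (p ^ (m + 1) - 1) (p - 1) : ℕ) : k) = 1 := by
  have h := Choose.choose_modEq_choose_mod_mul_choose_div_nat (p := p)
    (n := p ^ (m + 1) - 1) (k := p - 1)
  have hp2 := hp.out.two_le
  have hpm : 0 < p ^ m := Nat.pow_pos (by omega)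
  have e1 : p ^ (m + 1) - 1 = (p - 1) + p * (p ^ m - 1) := by
    rw [pow_succ, mul_comm (p ^ m) p, Nat.mul_sub, mul_one]
    have : p ≤ p * p ^ m := Nat.le_mul_of_pos_right p hpm
    omega
  have e2 : (p ^ (m + 1) - 1) % p = p - 1 := by
    rw [e1, Nat.add_mul_mod_self_left, Nat.mod_eq_of_lt (by omega)]
  have e3 : (p - 1) % p = p - 1 := Nat.mod_eq_of_lt (by omega)
  have e4 : (p - 1) / p = 0 := Nat.div_eq_of_lt (by omega)
  rw [e2, e3, e4, choose_self, choose_zero_right, mul_one] at h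
  have := (CharP.natCast_eq_natCast (R := k) p).2 h
  simpa using this

/-- the coefficient of `X ^ i Y ^ j` (`i + j = p ^ (m + 1)`) of the Witt cocycle
`W_m = W (X ^ (p ^ m), Y ^ (p ^ m))`, `W = ((X + Y) ^ p - X ^ p - Y ^ p) / p` -/
def wc (m i : ℕ) : ℕ := if p ^ m ∣ i then choose p (i / p ^ m) / p else 0

theorem wc_zero (i : ℕ) : wc p 0 i = choose p i / p := by simp [wc]

theorem wc_succ (m i : ℕ) : wc p (m + 1) (p * i) = wc p m i := by
  unfold wc
  have h0 : 0 < p := hp.out.pos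
  have h1 : p ^ (m + 1) ∣ p * i ↔ p ^ m ∣ i := by
    rw [pow_succ, mul_comm (p ^ m) p]
    exact Nat.mul_dvd_mul_iff_left h0
  have h2 : p * i / p ^ (m + 1) = i / p ^ m := by
    rw [pow_succ, mul_comm (p ^ m) p, Nat.mul_div_mul_left _ _ h0]
  simp only [h1, h2]

theorem wc_succ_zero {m i : ℕ} (h : ¬ p ∣ i) : wc p (m + 1) i = 0 := by
  unfold wc
  rw [if_neg]
  intro h1
  exact h ((Dvd.intro_left _ (pow_succ p m).symm).trans h1)

/-- `l C (n, l) = n C (n - 1, l - 1)` -/
theorem mul_choose_pred {n l : ℕ} (hl : 1 ≤ l) (hn : 1 ≤ n) :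
    l * choose n l = n * choose (n - 1) (l - 1) := by
  obtain ⟨n, rfl⟩ : ∃ n', n = n' + 1 := ⟨n - 1, by omega⟩
  obtain ⟨l, rfl⟩ : ∃ l', l = l' + 1 := ⟨l - 1, by omega⟩
  have := Nat.add_one_mul_choose_eq n l
  simp only [Nat.add_sub_cancel]
  linarith [this]

/-- the data in one degree `n`, as a function of `i` (`j = n - i`) -/
structure Coc1 (n : ℕ) (b : ℕ → k) : Prop where
  symm : ∀ i, 1 ≤ i → i < n → b i = b (n - i)
  coc : ∀ i j, 1 ≤ i → 1 ≤ j → i + j < n →
    ((choose (i + j) i : ℕ) : k) * b (i + j) = ((choose (n - i) j : ℕ) : k) * b i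

namespace Coc1

variable {p} {n : ℕ} {b : ℕ → k}

theorem mul_eq (h : Coc1 n b) {l : ℕ} (h1 : 1 ≤ l) (h2 : l < n) :
    (l : k) * b l = ((choose (n - 1) (l - 1) : ℕ) : k) * b 1 := by
  rcases Nat.eq_or_lt_of_le h1 with h3 | h3
  · subst h3; simp
  · have := h.coc 1 (l - 1) le_rfl (by omega) (by omega)
    rw [show 1 + (l - 1) = l by omega, choose_one_right] at this
    exact this

/-- `p`-multiples: degree `n / p` -/
theorem div (h : Coc1 (p * n) b) : Coc1 n fun i ↦ b (p * i) := by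
  have hp0 := hp.out.pos
  constructor
  · intro i h1 h2
    have h3 : 1 ≤ p * i := Nat.mul_pos hp0 h1
    have h4 : p * i < p * n := (Nat.mul_lt_mul_left hp0).2 h2
    have := h.symm (p * i) h3 h4
    rw [← Nat.mul_sub] at this
    exact this
  · intro i j h1 h2 h3
    have h5 : 1 ≤ p * i := Nat.mul_pos hp0 h1
    have h6 : 1 ≤ p * j := Nat.mul_pos hp0 h2
    have h4 : p * i + p * j < p * n := by
      rw [← Nat.mul_add]; exact (Nat.mul_lt_mul_left hp0).2 h3
    have := h.coc (p * i) (p * j) h5 h6 h4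
    rw [← Nat.mul_add, ← Nat.mul_sub, choose_mul_cast p, choose_mul_cast p] at this
    exact this

/-- degree `p * n`, `b 1 = 0`: only `p`-multiples occur -/
theorem eq_zero_of_not_dvd (h : Coc1 n b) (h0 : b 1 = 0) {l : ℕ} (h1 : 1 ≤ l) (h2 : l < n)
    (h3 : ¬ p ∣ l) : b l = 0 := by
  have := h.mul_eq h1 h2
  rw [h0, mul_zero] at this
  rcases mul_eq_zero.1 this with h4 | h4
  · exact absurd ((CharP.cast_eq_zero_iff k p l).1 h4) h3
  · exact h4

/-- `n` not a power of `p`: a coboundary. -/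
theorem of_not_pow : ∀ {n : ℕ} {b : ℕ → k} (_ : Coc1 n b) (_ : ∀ m, n ≠ p ^ m),
    ∃ c : k, ∀ i, 1 ≤ i → i < n → b i = c * ((choose n i : ℕ) : k) := by
  intro n
  induction n using Nat.strong_induction_on with
  | _ n ih =>
    intro b h hn
    rcases Nat.eq_zero_or_pos n with h0 | h0
    · subst h0; exact ⟨0, fun i _ h2 ↦ absurd h2 (by omega)⟩
    by_cases hd : p ∣ n
    · obtain ⟨n', rfl⟩ := hd
      have hp0 := hp.out.pos
      have hp1 := hp.out.one_lt
      have hn'0 : 0 < n' := Nat.pos_of_mul_pos_left h0 |> fun _ ↦ by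
        rcases Nat.eq_zero_or_pos n' with h | h
        · subst h; simp at h0
        · exact h
      -- `b 1 = 0`
      have hb1 : b 1 = 0 := by
        obtain ⟨i, hi1, hi2, hi3⟩ := exists_choose_ne (k := k) p h0 hn
        have e1 := h.mul_eq hi1 hi2
        have e2 := h.mul_eq (l := p * n' - i) (by omega) (by omega)
        rw [← h.symm i hi1 hi2] at e2
        have e3 : ((p * n' - i : ℕ) : k) = - (i : k) := by
          rw [Nat.cast_sub hi2.le]; simp
        rw [e3] at e2
        have e4 : ((choose (p * n' - 1) (p * n' - i - 1) : ℕ) : k) =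
            ((choose (p * n' - 1) i : ℕ) : k) := by
          congr 1
          rw [← Nat.choose_symm (n := p * n' - 1) (k := i) (by omega)]
          congr 1
          omega
        rw [e4] at e2
        have e5 : choose (p * n') i = choose (p * n' - 1) (i - 1) + choose (p * n' - 1) i := by
          obtain ⟨N, hN⟩ : ∃ N, p * n' = N + 1 := ⟨p * n' - 1, by omega⟩
          obtain ⟨I, hI⟩ : ∃ I, i = I + 1 := ⟨i - 1, by omega⟩
          rw [hN, hI, Nat.choose_succ_succ]
          simp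
        have e6 : ((choose (p * n') i : ℕ) : k) * b 1 = 0 := by
          rw [e5]; push_cast
          linear_combination -e1 - e2
        exact (mul_eq_zero.1 e6).resolve_left hi3
      -- induction
      have hn2 : ∀ m, n' ≠ p ^ m := fun m hm ↦ hn (m + 1) (by rw [hm, pow_succ, mul_comm])
      obtain ⟨c, hc⟩ := ih n' (by nlinarith) h.div hn2
      refine ⟨c, fun i hi1 hi2 ↦ ?_⟩
      by_cases hpi : p ∣ i
      · obtain ⟨i', rfl⟩ := hpi
        rw [choose_mul_cast p]
        refine hc i' (Nat.pos_of_ne_zero ?_) ?_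
        · rintro rfl; simp at hi1
        · exact Nat.lt_of_mul_lt_mul_left hi2
      · rw [choose_mul_cast_zero p _ _ hpi, mul_zero]
        exact h.eq_zero_of_not_dvd hb1 hi1 hi2 hpi
    · have hnk : (n : k) ≠ 0 := fun h' ↦ hd ((CharP.cast_eq_zero_iff k p n).1 h')
      have key : ∀ l, 1 ≤ l → l < n → ¬ p ∣ l → b l = b 1 / n * ((choose n l : ℕ) : k) := by
        intro l h1 h2 h3
        have hlk : (l : k) ≠ 0 := fun h' ↦ h3 ((CharP.cast_eq_zero_iff k p l).1 h')
        have e1 := h.mul_eq h1 h2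
        have e2 : (l : k) * ((choose n l : ℕ) : k) = n * ((choose (n - 1) (l - 1) : ℕ) : k) := by
          exact_mod_cast congrArg (Nat.cast (R := k)) (mul_choose_pred h1 h0)
        field_simp
        apply mul_left_cancel₀ hlk
        linear_combination (n : k) * e1 - b 1 * e2
      refine ⟨b 1 / n, fun i hi1 hi2 ↦ ?_⟩
      by_cases hpi : p ∣ i
      · have h3 : ¬ p ∣ n - i := fun h' ↦ hd (by
          have := (Nat.dvd_add h' hpi)
          rwa [Nat.sub_add_cancel hi2.le] at this)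
        rw [h.symm i hi1 hi2, key (n - i) (by omega) (by omega) h3, Nat.choose_symm hi2.le]
      · exact key i hi1 hi2 hpi

/-- `n = p ^ (m + 1)`: a multiple of the Witt cocycle. -/
theorem of_pow : ∀ {m : ℕ} {b : ℕ → k} (_ : Coc1 (p ^ (m + 1)) b),
    ∃ c : k, ∀ i, 1 ≤ i → i < p ^ (m + 1) → b i = c * ((wc p m i : ℕ) : k) := by
  intro m
  have hp0 := hp.out.pos
  have hp2 := hp.out.two_le
  induction m with
  | zero =>
    intro b h
    refine ⟨b 1, fun i h1 h2 ↦ ?_⟩
    rw [zero_add, pow_one] at h h2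
    rw [wc_zero]
    have hlk : (i : k) ≠ 0 := fun h' ↦ by
      have := Nat.le_of_dvd h1 ((CharP.cast_eq_zero_iff k p i).1 h')
      omega
    have e1 := h.mul_eq h1 h2
    have e2 : i * (choose p i / p) = choose (p - 1) (i - 1) := by
      have e3 := mul_choose_pred (n := p) h1 hp0
      have e4 : p ∣ choose p i := hp.out.dvd_choose_self (by omega) h2
      obtain ⟨q, hq⟩ := e4
      rw [hq, Nat.mul_div_cancel_left _ hp0]
      rw [hq] at e3
      apply Nat.eq_of_mul_eq_mul_left hp0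
      rw [← e3]; ring
    apply mul_left_cancel₀ hlk
    rw [e1, ← e2]; push_cast; ring
  | succ m ih =>
    intro b h
    have hpow : p ^ (m + 1 + 1) = p * p ^ (m + 1) := by rw [pow_succ, mul_comm]
    have hlt : p < p ^ (m + 1 + 1) := by
      rw [hpow]
      have : 1 < p ^ (m + 1) := Nat.one_lt_pow (by omega) (by omega)
      nlinarith
    have hb1 : b 1 = 0 := by
      have e1 := h.mul_eq (l := p) hp0 hlt
      rw [choose_pred_cast p (m + 1), one_mul] at e1
      rw [← e1]; simp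
    have h' := h
    rw [hpow] at h'
    obtain ⟨c, hc⟩ := ih h'.div
    refine ⟨c, fun i hi1 hi2 ↦ ?_⟩
    by_cases hpi : p ∣ i
    · obtain ⟨i', rfl⟩ := hpi
      rw [wc_succ]
      refine hc i' (Nat.pos_of_ne_zero ?_) ?_
      · rintro rfl; simp at hi1
      · rw [hpow] at hi2; exact Nat.lt_of_mul_lt_mul_left hi2
    · rw [wc_succ_zero p hpi]
      simp only [Nat.cast_zero, mul_zero]
      exact h.eq_zero_of_not_dvd hb1 hi1 hi2 hpi

end Coc1

/-! ## all degrees -/

/-- coefficient family of a polynomial (or formal) 2-cocycle of `G_a` with trivial coefficients -/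
def Coc (a : ℕ → ℕ → k) : Prop := ∀ i j l, 1 ≤ i → 1 ≤ j → 1 ≤ l →
  ((choose (i + j) i : ℕ) : k) * a (i + j) l = ((choose (j + l) j : ℕ) : k) * a i (j + l)

/-- the cup products `∑ c r s X ^ (p ^ r) Y ^ (p ^ s)`, `r < s` -/
def cup (c : ℕ → ℕ → k) (i j : ℕ) : k :=
  if i = p ^ Nat.log p i ∧ j = p ^ Nat.log p j ∧ i < j then c (Nat.log p i) (Nat.log p j) else 0

/-- the Witt classes `∑ w m W_m` -/
def wit (w : ℕ → k) (i j : ℕ) : k :=
  if i + j = p ^ Nat.log p (i + j) then
    w (Nat.log p (i + j) - 1) * ((wc p (Nat.log p (i + j) - 1) i : ℕ) : k) else 0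

theorem log_pow' (r : ℕ) : Nat.log p (p ^ r) = r := Nat.log_pow hp.out.one_lt r

theorem cup_pow (c : ℕ → ℕ → k) {r s : ℕ} (h : r < s) : cup p c (p ^ r) (p ^ s) = c r s := by
  unfold cup
  rw [log_pow', log_pow', if_pos ⟨rfl, rfl, Nat.pow_lt_pow_right hp.out.one_lt h⟩]

theorem cup_of_ne (c : ℕ → ℕ → k) {i j : ℕ} (h : ∀ r s, r < s → i = p ^ r → j = p ^ s → False) :
    cup p c i j = 0 := by
  unfold cup
  rw [if_neg]
  rintro ⟨h1, h2, h3⟩
  refine h _ _ ?_ h1 h2
  rw [h1, h2] at h3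
  exact (Nat.pow_lt_pow_iff_right hp.out.one_lt).1 h3

theorem wit_pow (w : ℕ → k) {m i j : ℕ} (h : i + j = p ^ (m + 1)) :
    wit p w i j = w m * ((wc p m i : ℕ) : k) := by
  unfold wit
  rw [h, log_pow', if_pos rfl, Nat.add_sub_cancel]

theorem wit_of_ne (w : ℕ → k) {i j : ℕ} (h : ∀ m, i + j ≠ p ^ m) : wit p w i j = 0 := by
  unfold wit
  rw [if_neg (h _)]

namespace Coc

variable {p} {a a' : ℕ → ℕ → k}

theorem sub (h : Coc a) (h' : Coc a') : Coc fun i j ↦ a i j - a' i j := by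
  intro i j l h1 h2 h3
  have e1 := h i j l h1 h2 h3
  have e2 := h' i j l h1 h2 h3
  dsimp only
  linear_combination e1 - e2

/-- one degree -/
theorem coc1 (h : Coc a) (hs : ∀ i j, 1 ≤ i → 1 ≤ j → a i j = a j i) (n : ℕ) :
    Coc1 n fun i ↦ a i (n - i) := by
  constructor
  · intro i h1 h2
    rw [hs i (n - i) h1 (by omega)]
    congr 1
    omega
  · intro i j h1 h2 h3
    have := h i j (n - (i + j)) h1 h2 (by omega)
    rw [show j + (n - (i + j)) = n - i by omega] at this
    exact this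

/-- symmetric case -/
theorem struct_symm (h : Coc a) (hs : ∀ i j, 1 ≤ i → 1 ≤ j → a i j = a j i) :
    ∃ f w : ℕ → k, ∀ i j, 1 ≤ i → 1 ≤ j →
      a i j = f (i + j) * ((choose (i + j) i : ℕ) : k) + wit p w i j := by
  classical
  have h1 : ∀ n, ∃ c : k, (∀ m, n ≠ p ^ m) → ∀ i, 1 ≤ i → i < n →
      a i (n - i) = c * ((choose n i : ℕ) : k) := by
    intro n
    by_cases hn : ∀ m, n ≠ p ^ m
    · obtain ⟨c, hc⟩ := (h.coc1 hs n).of_not_pow hn
      exact ⟨c, fun _ ↦ hc⟩
    · exact ⟨0, fun h' ↦ absurd h' hn⟩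
  have h2 : ∀ m, ∃ c : k, ∀ i, 1 ≤ i → i < p ^ (m + 1) →
      a i (p ^ (m + 1) - i) = c * ((wc p m i : ℕ) : k) := fun m ↦ (h.coc1 hs _).of_pow
  choose f hf using h1
  choose w hw using h2
  refine ⟨f, w, fun i j hi hj ↦ ?_⟩
  by_cases hn : ∀ m, i + j ≠ p ^ m
  · have := hf (i + j) hn i hi (by omega)
    rw [show i + j - i = j by omega] at this
    rw [wit_of_ne p w hn, add_zero, this]
  · push Not at hn
    obtain ⟨m, hm⟩ := hn
    obtain ⟨m, rfl⟩ : ∃ m', m = m' + 1 := by
      rcases m with _ | m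
      · rw [pow_zero] at hm; omega
      · exact ⟨m, rfl⟩
    have := hw m i hi (by omega)
    rw [← hm, show i + j - i = j by omega] at this
    rw [wit_pow p w hm, this, hm, choose_pow_cast p hi (by omega), mul_zero, zero_add]

/-- the antisymmetrisation is bi-additive -/
theorem antisymm (h : Coc a) {i j l : ℕ} (hi : 1 ≤ i) (hj : 1 ≤ j) (hl : 1 ≤ l) :
    ((choose (i + j) i : ℕ) : k) * (a (i + j) l - a l (i + j)) = 0 := by
  have e1 := h i j l hi hj hl
  have e2 := h l i j hl hi hj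
  have e3 := h i l j hi hl hj
  rw [show choose (l + i) l = choose (i + l) i by
    rw [add_comm l i, Nat.choose_symm_add], add_comm l i] at e2
  rw [show choose (l + j) l = choose (j + l) j by
    rw [add_comm l j, Nat.choose_symm_add], add_comm l j] at e3
  linear_combination e1 + e2 - e3

theorem antisymm_eq (h : Coc a) {n l : ℕ} (hn0 : 1 ≤ n) (hn : ∀ m, n ≠ p ^ m) (hl : 1 ≤ l) :
    a n l = a l n := by
  obtain ⟨i, h1, h2, h3⟩ := exists_choose_ne (k := k) p hn0 hn
  have := h.antisymm (i := i) (j := n - i) h1 (by omega) hl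
  rw [show i + (n - i) = n by omega] at this
  exact sub_eq_zero.1 ((mul_eq_zero.1 this).resolve_left h3)

/-- the cup products are cocycles -/
theorem cup (c : ℕ → ℕ → k) : Coc (TWIV.cup p c) := by
  intro i j l hi hj hl
  have h1 : ((choose (i + j) i : ℕ) : k) * TWIV.cup p c (i + j) l = 0 := by
    by_cases h : ∃ r, i + j = p ^ r
    · obtain ⟨r, hr⟩ := h
      rw [hr, choose_pow_cast p hi (by omega), zero_mul]
    · rw [cup_of_ne p c fun r s _ h1 _ ↦ h ⟨r, h1⟩, mul_zero]
  have h2 : ((choose (j + l) j : ℕ) : k) * TWIV.cup p c i (j + l) = 0 := by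
    by_cases h : ∃ r, j + l = p ^ r
    · obtain ⟨r, hr⟩ := h
      rw [hr, choose_pow_cast p hj (by omega), zero_mul]
    · rw [cup_of_ne p c fun r s _ _ h1 ↦ h ⟨s, h1⟩, mul_zero]
  rw [h1, h2]

/-- `H ^ 2 (G_a, k)`: coboundaries, cup products and Witt classes. -/
theorem struct (h : Coc a) : ∃ (f : ℕ → k) (c : ℕ → ℕ → k) (w : ℕ → k),
    ∀ i j, 1 ≤ i → 1 ≤ j →
      a i j = f (i + j) * ((choose (i + j) i : ℕ) : k) + TWIV.cup p c i j + wit p w i j := by
  set c : ℕ → ℕ → k := fun r s ↦ a (p ^ r) (p ^ s) - a (p ^ s) (p ^ r) with hc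
  have hp1 := hp.out.one_lt
  have hsym : ∀ i j, 1 ≤ i → 1 ≤ j →
      a i j - TWIV.cup p c i j = a j i - TWIV.cup p c j i := by
    intro i j hi hj
    by_cases h1 : ∀ r, i ≠ p ^ r
    · rw [cup_of_ne p c fun r s _ h2 _ ↦ h1 r h2, cup_of_ne p c fun r s _ _ h2 ↦ h1 s h2,
        h.antisymm_eq hi h1 hj]
    by_cases h2 : ∀ r, j ≠ p ^ r
    · rw [cup_of_ne p c fun r s _ _ h3 ↦ h2 s h3, cup_of_ne p c fun r s _ h3 _ ↦ h2 r h3,
        h.antisymm_eq hj h2 hi]
    push Not at h1 h2
    obtain ⟨r, rfl⟩ := h1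
    obtain ⟨s, rfl⟩ := h2
    rcases lt_trichotomy r s with h3 | h3 | h3
    · rw [cup_pow p c h3, cup_of_ne p c fun r' s' h4 h5 h6 ↦ ?_]
      · simp only [hc]; ring
      · have e1 := Nat.pow_right_injective hp1 h5
        have e2 := Nat.pow_right_injective hp1 h6
        omega
    · subst h3; rfl
    · rw [cup_pow p c h3, cup_of_ne p c fun r' s' h4 h5 h6 ↦ ?_]
      · simp only [hc]; ring
      · have e1 := Nat.pow_right_injective hp1 h5
        have e2 := Nat.pow_right_injective hp1 h6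
        omega
  obtain ⟨f, w, hfw⟩ := (h.sub (Coc.cup (p := p) c)).struct_symm hsym
  refine ⟨f, c, w, fun i j hi hj ↦ ?_⟩
  have := hfw i j hi hj
  linear_combination this

/-- Cocycles from operators: `D I ∘ D J = C (I + J, I) D (I + J)`, `D` kills the constants
`ι : k → M` (injective), and `D J (b L) = C (J + L, J) b (J + L) + ι (c J L)`. -/
theorem of_deriv {M : Type*} [AddCommGroup M] [Module k M] (D : ℕ → M →ₗ[k] M) (ι : k →ₗ[k] M)
    (hι : Function.Injective ι)
    (hD : ∀ I J, 1 ≤ I → 1 ≤ J → ∀ x, D I (D J x) = ((choose (I + J) I : ℕ) : k) • D (I + J) x)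
    (hDι : ∀ J, 1 ≤ J → ∀ t, D J (ι t) = 0) (b : ℕ → M) (c : ℕ → ℕ → k)
    (hb : ∀ J L, 1 ≤ J → 1 ≤ L →
      D J (b L) = ((choose (J + L) J : ℕ) : k) • b (J + L) + ι (c J L)) : Coc c := by
  intro I J L hI hJ hL
  apply hι
  have e1 : D I (D J (b L)) = D I (((choose (J + L) J : ℕ) : k) • b (J + L) + ι (c J L)) := by
    rw [hb J L hJ hL]
  rw [hD I J hI hJ, hb (I + J) L (by omega) hL, map_add, map_smul, hDι I hI, add_zero,
    hb I (J + L) hI (by omega)] at e1
  have e2 : choose (I + J) I * choose (I + J + L) (I + J) =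
      choose (J + L) J * choose (I + (J + L)) I := by
    have h1 := Nat.choose_mul (n := I + J + L) (k := I + J) (s := I) (by omega)
    rw [show I + J + L - I = J + L by omega, show I + J - I = J by omega] at h1
    rw [mul_comm, h1, mul_comm, show I + (J + L) = I + J + L by omega]
  have e3 : ((choose (I + J) I : ℕ) : k) * ((choose (I + J + L) (I + J) : ℕ) : k) =
      ((choose (J + L) J : ℕ) : k) * ((choose (I + (J + L)) I : ℕ) : k) := by
    exact_mod_cast congrArg (Nat.cast (R := k)) e2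
  rw [smul_add, smul_add, smul_smul, smul_smul, e3, show I + J + L = I + (J + L) by omega] at e1
  have e4 := add_left_cancel e1
  rw [← smul_eq_mul, ← smul_eq_mul, map_smul, map_smul]
  exact e4

end Coc

/-! ## additive and bi-additive families -/

/-- An additive family lives on the powers of `p`. -/
theorem additive_family {f : ℕ → k}
    (h : ∀ i j, 1 ≤ i → 1 ≤ j → ((choose (i + j) i : ℕ) : k) * f (i + j) = 0) {n : ℕ}
    (hn0 : 1 ≤ n) (hn : ∀ m, n ≠ p ^ m) : f n = 0 := by
  obtain ⟨i, h1, h2, h3⟩ := exists_choose_ne (k := k) p hn0 hn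
  have := h i (n - i) h1 (by omega)
  rw [show i + (n - i) = n by omega] at this
  exact (mul_eq_zero.1 this).resolve_left h3

end Pool.Agent.TWIV
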