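import Pool.Agent.Lib.TWIV.EmbG
import Pool.Agent.Lib.TWIV.HW

/-!
# TANK W, leaf (IV): the graded embedding, the images of the fields

`W : World p v N L G M`, `Th W θ B`: `θ : Ω → HF k` isometric, `θ (M g) = t ^ g`, `θ(B)` of degree
`0` (`Γ = VG v N`).
* `Th.pj`, `Th.prd`, `Th.prD`: `θ` and the projections on `PM v B G M`;
* `Th.stab`: the image of `PM v B G M` is graded;
* `map_E`: `θ (PM v N G M) = HM k G`; `map_cadj`;
* `World.exists_th`: existence for a tower; `World.exists_two`: two floors;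
* `World.twrH_theta`: the hypotheses `TwrH` for the images.
-/

set_option autoImplicit false
set_option linter.unusedSectionVars false

open Polynomial

namespace Pool.Agent.TWIV

open Pool.Agent.H15JM (RVal)
open Pool.Agent.D2 (Ctx0)
open Pool.Agent.D2P (clI mem_clI)
open Pool.Agent.TWM Pool.Agent.TWS

universe u

variable {k Ω : Type u} [Field k] [Field Ω] [Algebra k Ω] {v : RVal Ω} [hk : Fact (Ctx0 k v)]
  {N L A B : IntermediateField k Ω} {G : AddSubgroup ℝ} {M : ℝ → Ω} {p : ℕ} {u : ℕ → Ω}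
  {d : ℕ → ℝ} {θ : Ω →ₐ[k] HF k}

/-- A graded isometric embedding in the Hahn field. -/
structure Th (v : RVal Ω) (N : IntermediateField k Ω) (G : AddSubgroup ℝ) (M : ℝ → Ω)
    (θ : Ω →ₐ[k] HF k) (B : IntermediateField k Ω) : Prop where
  iso : IsoE v (hv k) θ
  mon : ∀ g ∈ G, θ (M g) = TWS.mon k g
  deg : ∀ x ∈ B, hpr (VG v N) 0 (θ x) = θ x

omit hk in
/-- The field with the monomials and one more generator. -/
theorem PM_cadj_mul {g : ℝ} (hg : g ∈ G) (hM : MS v G M) (A : IntermediateField k Ω) (x : Ω) :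
    PM v (cadj v A x) G M = cadj v (PM v A G M) (M g * x) := by
  rw [PM.cadj]
  have h1 := cadj_affine (v := v) (A := PM v A G M) (z := x) (PM.mon hg) (hM.ne g hg)
    (zero_mem _)
  rw [add_zero] at h1
  exact h1.symm

namespace Th

variable (h : Th v N G M θ B)

include h

theorem mono {B' : IntermediateField k Ω} (hB : B' ≤ B) : Th v N G M θ B' :=
  ⟨h.iso, h.mon, fun x hx => h.deg x (hB hx)⟩

theorem pj (W : World p v N L G M) (hΩ : CompleteV v) (hNB : N ≤ B) (hBL : B ≤ L) {x : Ω}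
    (hx : x ∈ PM v B G M) : hpr (VG v N) 0 (θ x) = θ (W.pj hΩ 0 x) :=
  W.theta_pj hΩ h.iso h.mon hNB hBL h.deg hx

theorem prd (W : World p v N L G M) (hΩ : CompleteV v) (hNB : N ≤ B) (hBL : B ≤ L) {g : ℝ}
    (hg : g ∈ G) {x : Ω} (hx : x ∈ PM v B G M) :
    hpr (VG v N) (g : ℝ ⧸ VG v N) (θ x) = θ (W.prd hΩ g x) :=
  W.theta_prd hΩ h.iso h.mon hNB hBL h.deg hg hx

/-- The degrees of the images are in `G`. -/
theorem zero (W : World p v N L G M) (hNB : N ≤ B) (hBL : B ≤ L)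
    {c : ℝ ⧸ VG v N} (hc : ¬ ∃ g ∈ G, (QuotientAddGroup.mk g : ℝ ⧸ VG v N) = c) {x : Ω}
    (hx : x ∈ PM v B G M) : hpr (VG v N) c (θ x) = 0 := by
  refine TWC.eq_zero_of_ge (v := hv k) fun b => ?_
  obtain ⟨Lf, hL, h2⟩ := dense_PM W.mon (W.immA hNB hBL) hx b
  have h3 : hpr (VG v N) c (θ (evM M Lf)) = 0 := by
    rw [evM, Finsupp.sum, map_sum, map_sum]
    refine Finset.sum_eq_zero fun g hg' => ?_
    have hgG := hL.mem_G hg'
    rw [mul_comm, map_mul, h.mon g hgG]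
    have h4 := hpr_mon_mul (k := k) (VG v N) g (θ (Lf g))
    rw [h.deg _ (hL.mem g)] at h4
    rw [← h4]
    exact hpr_orth _ fun h5 => hc ⟨g, hgG, h5.symm⟩
  have e : hpr (VG v N) c (θ x) = hpr (VG v N) c (θ (x - evM M Lf)) := by
    rw [map_sub, map_sub, h3, sub_zero]
  rw [e]
  exact hpr_ge _ (h.iso.ge_iff.2 h2)

theorem prD (W : World p v N L G M) (hΩ : CompleteV v) (hNB : N ≤ B) (hBL : B ≤ L)
    (c : ℝ ⧸ VG v N) {x : Ω} (hx : x ∈ PM v B G M) :
    hpr (VG v N) c (θ x) = θ (W.prD hΩ c x) := by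
  by_cases hc : ∃ g ∈ G, (QuotientAddGroup.mk g : ℝ ⧸ VG v N) = c
  · obtain ⟨g, hg, rfl⟩ := hc
    rw [W.prD_mk hΩ hg (PM.mono hBL hx)]
    exact h.prd W hΩ hNB hBL hg hx
  · rw [W.prD_not hΩ hc, map_zero]
    exact h.zero W hNB hBL hc hx

/-- The image of `PM v B G M` is graded. -/
theorem stab (W : World p v N L G M) (hΩ : CompleteV v) (hNB : N ≤ B) (hBL : B ≤ L)
    (hB : Cld v B) (c : ℝ ⧸ VG v N) : ∀ x ∈ (PM v B G M).map θ,
    hpr (VG v N) c x ∈ (PM v B G M).map θ := by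
  rintro _ ⟨x, hx, rfl⟩
  refine ⟨W.prD hΩ c x, W.prD_mem hΩ hNB hBL hB c hx, ?_⟩
  exact (h.prD W hΩ hNB hBL c hx).symm

/-- The degree of `θ (M g * x)`. -/
theorem deg_mul {g : ℝ} (hg : g ∈ G) {x : Ω} (hx : x ∈ B) :
    hpr (VG v N) (g : ℝ ⧸ VG v N) (θ (M g * x)) = θ (M g * x) := by
  rw [map_mul, h.mon g hg, hpr_mon_mul, h.deg x hx]

/-- The image of the base. -/
theorem map_E (W : World p v N L G M) (hΩ : CompleteV v) : (PM v N G M).map θ = HM k G := by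
  have h1 : PM v N G M = PM v ⊥ G M := le_antisymm (PM.le_of PM.cld W.gen fun g hg => PM.mon hg)
    (PM.mono bot_le)
  rw [h1]
  refine le_antisymm ?_ ?_
  · rw [PM, ← h.iso.clI_map hΩ]
    refine TWC.clI_le' ?_ (cld_HM G)
    rw [IntermediateField.map_sup, IntermediateField.map_bot, IntermediateField.adjoin_map,
      bot_sup_eq, IntermediateField.adjoin_le_iff]
    rintro _ ⟨_, ⟨g, hg, rfl⟩, rfl⟩
    change θ (M g) ∈ HM k G
    rw [h.mon g hg]
    exact mon_mem hg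
  · refine PM.le_of ((h.iso.cld_iff hΩ).2 PM.cld) bot_le fun g hg => ?_
    exact ⟨M g, PM.mon hg, h.mon g hg⟩

/-- The image of one more generator. -/
theorem map_cadj (W : World p v N L G M) (hΩ : CompleteV v) {g : ℝ} (hg : g ∈ G)
    (A : IntermediateField k Ω) (x : Ω) : (PM v (cadj v A x) G M).map θ =
      cadj (hv k) ((PM v A G M).map θ) (θ (M g * x)) := by
  rw [PM_cadj_mul hg W.ms, h.iso.cadj_map hΩ]

end Th

namespace World

variable (W : World p v N L G M) (hΩ : CompleteV v)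

include W hΩ

/-- **The graded embedding.** -/
theorem exists_th [IsAlgClosed k] [IsAlgClosed Ω] (n : ℕ) (hd : ∀ i, i < n → d i ∈ G)
    (hu : ∀ i, i < n → u i ∈ L)
    (ht : ∀ i, i < n → TL v (PM v (twr v N u i) G M) (M (d i) * u i) 0) :
    ∃ θ : Ω →ₐ[k] HF k, Th v N G M θ (twr v N u n) ∧
      ∀ i, i < n → nuH k (θ (M (d i) * u i)) = θ (M (d i) * u i) := by
  obtain ⟨θ, h1, h2, h3, h4⟩ := W.exists_theta hΩ n hd hu ht
  exact ⟨θ, ⟨h1, h2, h3⟩, h4⟩

/-- The images of the fields of a tower. -/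
theorem map_twr (hθ : Th v N G M θ B) (n : ℕ) (hd : ∀ i, i < n → d i ∈ G) :
    (PM v (twr v N u n) G M).map θ =
      twr (hv k) (HM k G) (fun i => θ (M (d i) * u i)) n := by
  induction n with
  | zero => exact hθ.map_E W hΩ
  | succ n ih =>
    change (PM v (cadj v (twr v N u n) (u n)) G M).map θ =
      cadj (hv k) (twr (hv k) (HM k G) (fun i => θ (M (d i) * u i)) n) (θ (M (d n) * u n))
    rw [hθ.map_cadj W hΩ (hd n (Nat.lt_succ_self n)), ih fun i hi => hd i (Nat.lt_succ_of_lt hi)]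

/-- The images of the generators. -/
theorem tl_theta [IsAlgClosed Ω] (hθ : Th v N G M θ B) (n : ℕ) (hd : ∀ i, i < n → d i ∈ G)
    (ht : ∀ i, i < n → TL v (PM v (twr v N u i) G M) (M (d i) * u i) 0) :
    ∀ i, i < n → TL (hv k) (twr (hv k) (HM k G) (fun i => θ (M (d i) * u i)) i)
      (θ (M (d i) * u i)) 0 := by
  intro i hi
  rw [← W.map_twr hΩ hθ i fun j hj => hd j (hj.trans hi), hθ.iso.tl_iff]
  exact ht i hi

/-- **The hypotheses `TwrH` for the images**, all the generators being limits of `E`. -/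
theorem twrH_theta [IsAlgClosed Ω] (n : ℕ) (hθ : Th v N G M θ (twr v N u n))
    (hd : ∀ i, i < n → d i ∈ G)
    (ht : ∀ i, i < n → TL v (PM v (twr v N u i) G M) (M (d i) * u i) 0)
    (hl : ∀ i, i < n → Lim v (PM v N G M) 0 (M (d i) * u i)) :
    TwrH (hv k) (hpr (VG v N)) (HM k G) (fun i => θ (M (d i) * u i))
      (fun i => (QuotientAddGroup.mk (d i) : ℝ ⧸ VG v N)) n where
  gr c x hx := by
    rw [← hθ.map_E W hΩ] at hx ⊢
    exact (hθ.mono (le_twr n)).stab W hΩ le_rfl W.NL W.cldN c x hx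
  tl := W.tl_theta hΩ hθ n hd ht
  lim i hi := by
    rw [← hθ.map_E W hΩ, hθ.iso.lim_iff]
    exact hl i hi
  deg i hi := hθ.deg_mul (hd i hi) (mem_twr hi)

/-- **Two floors.** -/
theorem exists_two [IsAlgClosed k] [IsAlgClosed Ω] {d₁ d₂ : ℝ} (h1 : d₁ ∈ G) (h2 : d₂ ∈ G)
    {u₁ u₂ : Ω} (hu1 : u₁ ∈ L) (hu2 : u₂ ∈ L) (hy : TL v (PM v N G M) (M d₁ * u₁) 0)
    (hz : TL v (PM v (cadj v N u₁) G M) (M d₂ * u₂) 0) :
    ∃ θ : Ω →ₐ[k] HF k, Th v N G M θ (cadj v (cadj v N u₁) u₂) ∧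
      (PM v N G M).map θ = HM k G ∧
      (PM v (cadj v N u₁) G M).map θ = cadj (hv k) (HM k G) (θ (M d₁ * u₁)) ∧
      (PM v (cadj v (cadj v N u₁) u₂) G M).map θ =
        cadj (hv k) (cadj (hv k) (HM k G) (θ (M d₁ * u₁))) (θ (M d₂ * u₂)) ∧
      TL (hv k) (HM k G) (θ (M d₁ * u₁)) 0 ∧
      TL (hv k) (cadj (hv k) (HM k G) (θ (M d₁ * u₁))) (θ (M d₂ * u₂)) 0 ∧
      hpr (VG v N) (d₁ : ℝ ⧸ VG v N) (θ (M d₁ * u₁)) = θ (M d₁ * u₁) ∧
      hpr (VG v N) (d₂ : ℝ ⧸ VG v N) (θ (M d₂ * u₂)) = θ (M d₂ * u₂) ∧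
      nuH k (θ (M d₁ * u₁)) = θ (M d₁ * u₁) ∧ nuH k (θ (M d₂ * u₂)) = θ (M d₂ * u₂) := by
  obtain ⟨θ, h3, h4⟩ := W.exists_th hΩ (u := fun i => if i = 0 then u₁ else u₂)
    (d := fun i => if i = 0 then d₁ else d₂) 2 (fun i _ => by
      by_cases hi : i = 0
      · simp only [hi, if_true]
        exact h1
      · simp only [hi, if_false]
        exact h2) (fun i _ => by
      by_cases hi : i = 0
      · simp only [hi, if_true]
        exact hu1
      · simp only [hi, if_false]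
        exact hu2) (fun i hi => by
      rcases Nat.lt_succ_iff_lt_or_eq.1 hi with h3 | rfl
      · have h4 : i = 0 := by omega
        subst h4
        exact hy
      · exact hz)
  have h5 : Th v N G M θ (cadj v (cadj v N u₁) u₂) := h3
  have h6 := h5.map_E W hΩ
  have h7 : (PM v (cadj v N u₁) G M).map θ = cadj (hv k) (HM k G) (θ (M d₁ * u₁)) := by
    rw [h5.map_cadj W hΩ h1, h6]
  have h8 : (PM v (cadj v (cadj v N u₁) u₂) G M).map θ =
      cadj (hv k) (cadj (hv k) (HM k G) (θ (M d₁ * u₁))) (θ (M d₂ * u₂)) := by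
    rw [h5.map_cadj W hΩ h2, h7]
  refine ⟨θ, h5, h6, h7, h8, ?_, ?_, ?_, ?_, h4 0 (by norm_num), h4 1 (by norm_num)⟩
  · rw [← h6, h5.iso.tl_iff]
    exact hy
  · rw [← h7, h5.iso.tl_iff]
    exact hz
  · exact h5.deg_mul h1 (le_cadj v _ _ (self_mem_cadj v _ _))
  · exact h5.deg_mul h2 (self_mem_cadj v _ _)

end World

end Pool.Agent.TWIV
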