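import Pool.Agent.Lib.TWIV.OTc
import Pool.Agent.Lib.TWIV.EmbT
import Pool.Agent.Lib.TWIV.Top

/-!
# TANK W, leaf (IV), tame case, shape (1,2)': no exotic relation over `E_1<y>` (H3b)

`θ : Ω → H` isometric, `H` graded; `K = E<y_1>`, `B = K<y>`, `y` of transcendental type over `K`,
the data of Lemma G' for `y`, `b`, the limits of `K` in `T` spanned by `y`, `b`.

* `near_pr`: `θ (π Y) = pr_0 (θ Y)` modulo the integral elements, for the limits `Y` of `K`;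
* `nr_const`: `Y ^ p - π Y = r y + e' + O` implies `Y ∈ B + O`;
* `nr_deg`: the same for `Y ^ p - π Y = S(F) y + e' + O`;
* `fvb_gdat`: `FVB p v T B π`;
* `World.fvb_gdat`: the same in a world.
-/

set_option autoImplicit false
set_option linter.unusedSectionVars false

open Polynomial

namespace Pool.Agent.TWIV

open Pool.Agent.H15JM (RVal)
open Pool.Agent.D2 (Ctx0)
open Pool.Agent.TWM Pool.Agent.TWC Pool.Agent.TWS Pool.Agent.TWT

universe u

variable {k Ω H : Type u} [Field k] [Field Ω] [Algebra k Ω] [Field H] [Algebra k H]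
  {v : RVal Ω} {w : RVal H} {A : Type*} [AddCommGroup A] {pr : A → H →ₗ[k] H} {θ : Ω →ₐ[k] H}
  {E T C : IntermediateField k Ω} {π : Ω → Ω} {y₁ y b : Ω} {α : A}

/-- The projections and the embedding, on the limits of `K`. -/
theorem near_pr {K : IntermediateField k Ω} (hg : ∀ b (x : H), w.Ge b x → w.Ge b (pr 0 x))
    (hθ : IsoE v w θ) (hπ : Prj v T C π) (hKT : K ≤ T)
    (hpr : ∀ x ∈ K, θ (π x) = pr 0 (θ x)) {Y : Ω} (hY : Y ∈ T) (hl : Lim v K 0 Y) :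
    w.Ge 0 (θ (π Y) - pr 0 (θ Y)) := by
  suffices h : ∀ ε : ℝ, 0 < ε → w.Ge (0 - ε) (θ (π Y) - pr 0 (θ Y)) by
    intro h0
    by_contra hlt
    push Not at hlt
    have := h (-(w (θ (π Y) - pr 0 (θ Y))) / 2) (by linarith) h0
    linarith
  intro ε hε
  obtain ⟨m, hm, h1⟩ := hl ε hε
  have hmT := hKT hm
  have h2 := hθ.ge_iff.2 (hπ.ge _ (sub_mem hY hmT) _ h1)
  rw [hπ.sub hY hmT, map_sub, hpr m hm] at h2
  have h3 := hg _ _ (hθ.ge_iff.2 h1)
  rw [map_sub, map_sub] at h3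
  have h4 := h2.sub h3
  rwa [sub_sub_sub_cancel_right] at h4

variable [IsAlgClosed Ω] [IsAlgClosed H] {p : ℕ} [hp : Fact p.Prime]
  [CharP k p] [PerfectRing k p] [CharP Ω p] [CharP H p] [PerfectRing H p]

/-- `Y ^ p - π Y = r y + e' + O`. -/
theorem nr_const [Fact (Ctx0 k w)] (hcv : CompleteV v) (hg : GrP p w pr)
    (hθ : IsoE v w θ) (hπ : Prj v T C π) (hBT : cadj v (cadj v E y₁) y ≤ T)
    (hpr : ∀ x ∈ cadj v E y₁, θ (π x) = pr 0 (θ x))
    (hπK : ∀ x ∈ cadj v E y₁, π x ∈ cadj v E y₁)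
    (hFT : FTB p v T (cadj v (cadj v E y₁) y)) (hG : Gen2 p v (cadj v E y₁) T y b)
    {s : cadj w (E.map θ) (θ y₁) →ₐ[k] PowerSeries (cadj w (E.map θ) (θ y₁))}
    {RR : Submodule k H} {n : ℕ} {P₀ : k[X]} {yn bn : ℕ → H}
    (hD : GDat p w pr (E.map θ) (θ y₁) α s RR n P₀ (θ y) (θ b) yn bn)
    (hpiT : ∀ x ∈ T, π x ∈ T)
    {Y e' : Ω} {r : k} (hY : Y ∈ T) (hl : Lim v (cadj v E y₁) 0 Y) (he' : e' ∈ cadj v E y₁)
    (hrel : v.Ge 0 (Y ^ p - π Y - algebraMap k Ω r * y - e')) :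
    Nr v (cadj v (cadj v E y₁) y) 0 Y := by
  set K := cadj v E y₁ with hK
  have hKB : K ≤ cadj v K y := le_cadj v K y
  have hKT : K ≤ T := hKB.trans hBT
  have hE₁ : cadj w (E.map θ) (θ y₁) = K.map θ := hθ.cadj_map hcv E y₁
  have hπl : Lim v K 0 (π Y) := by
    intro ε hε
    obtain ⟨m, hm, h1⟩ := hl ε hε
    refine ⟨π m, hπK m hm, ?_⟩
    rw [← hπ.sub hY (hKT hm)]
    exact hπ.ge _ (sub_mem hY (hKT hm)) _ h1
  obtain ⟨P₁, P₂, e, he, h1⟩ := hG (π Y) (hpiT Y hY) hπl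
  have hnear := near_pr (fun b x h => hg.ge b 0 x h) hθ hπ hKT hpr hY hl
  have h2 : P₂ = 0 := by
    refine hD.beta' hg (Y := θ Y) (e := θ e) (e' := θ e') (r := r) (P₁ := P₁) ?_ ?_ ?_ ?_ ?_
    · rw [hE₁]
      exact hθ.lim_iff.2 hl
    · rw [hE₁]
      exact ⟨e', he', rfl⟩
    · have h3 := (hθ.ge_iff.2 hrel).add hnear
      refine Eq.mp (congrArg (fun x => w.Ge 0 x) ?_) h3
      rw [map_sub, map_sub, map_sub, map_pow, map_mul, AlgHom.commutes]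
      ring
    · rw [hE₁]
      exact ⟨e, he, rfl⟩
    · have h3 := (hθ.ge_iff.2 h1).sub hnear
      refine Eq.mp (congrArg (fun x => w.Ge 0 x) ?_) h3
      rw [map_sub, map_add, map_add, map_fev, map_fev]
      ring
  subst h2
  refine hFT Y hY (hl.mono hKB) ⟨fev p P₁ y + e + algebraMap k Ω r * y + e', ?_, ?_⟩
  · exact add_mem (add_mem (add_mem (fev_mem P₁ (self_mem_cadj v K y)) (hKB he))
      (mul_mem (IntermediateField.algebraMap_mem _ r) (self_mem_cadj v K y))) (hKB he')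
  · have h3 := hrel.add h1
    refine Eq.mp (congrArg (fun x => v.Ge 0 x) ?_) h3
    rw [show fev p (0 : k[X]) b = 0 by rw [fev, support_zero, Finset.sum_empty]]
    ring

theorem fev_mon1 (t : k) (n : ℕ) (x : Ω) :
    fev p (monomial n t) x = algebraMap k Ω t * x ^ p ^ n := by
  rw [fev_eq_range (N := n + 1) (fun a ha => by
    rw [coeff_monomial, if_neg (by omega)]), Finset.sum_eq_single n]
  · rw [coeff_monomial, if_pos rfl]
  · intro a _ hne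
    rw [coeff_monomial, if_neg (Ne.symm hne), map_zero, zero_mul]
  · exact fun h => absurd (Finset.mem_range.2 (Nat.lt_succ_self n)) h

/-- `Y ^ p - π Y = S(F) y + e' + O`. -/
theorem nr_deg [Fact (Ctx0 k w)] (hk : Ctx0 k v) (hcv : CompleteV v) (hg : GrP p w pr)
    (hθ : IsoE v w θ) (hπ : Prj v T C π) (hBT : cadj v (cadj v E y₁) y ≤ T)
    (hpr : ∀ x ∈ cadj v E y₁, θ (π x) = pr 0 (θ x))
    (hπK : ∀ x ∈ cadj v E y₁, π x ∈ cadj v E y₁)
    (hFT : FTB p v T (cadj v (cadj v E y₁) y)) (hG : Gen2 p v (cadj v E y₁) T y b)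
    {s : cadj w (E.map θ) (θ y₁) →ₐ[k] PowerSeries (cadj w (E.map θ) (θ y₁))}
    {RR : Submodule k H} {n : ℕ} {P₀ : k[X]} {yn bn : ℕ → H}
    (hD : GDat p w pr (E.map θ) (θ y₁) α s RR n P₀ (θ y) (θ b) yn bn)
    (hpiT : ∀ x ∈ T, π x ∈ T) (hyl : Lim v (cadj v E y₁) 0 y)
    (hπy : ∀ j : ℕ, ∃ c : k, π (y ^ p ^ j) = algebraMap k Ω c * y ^ p ^ j) (D : ℕ) :
    ∀ (Y e' : Ω) (S : k[X]), Y ∈ T → Lim v (cadj v E y₁) 0 Y → e' ∈ cadj v E y₁ →
      S.natDegree ≤ D → v.Ge 0 (Y ^ p - π Y - fev p S y - e') →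
      Nr v (cadj v (cadj v E y₁) y) 0 Y := by
  have hyB : y ∈ cadj v (cadj v E y₁) y := self_mem_cadj v _ y
  have _ : Fact (Ctx0 k v) := ⟨hk⟩
  induction D with
  | zero =>
    intro Y e' S hY hl he' hS hrel
    refine nr_const hcv hg hθ hπ hBT hpr hπK hFT hG hD hpiT (r := S.coeff 0) hY hl he' ?_
    rwa [fev_eq_range (N := 1) (fun a ha => coeff_eq_zero_of_natDegree_lt (by omega)),
      Finset.sum_range_one, pow_zero, pow_one] at hrel
  | succ D ih =>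
    intro Y e' S hY hl he' hS hrel
    obtain ⟨c, hc⟩ := hπy D
    set t := (frobeniusEquiv k p).symm (S.coeff (D + 1)) with ht
    have htp : t ^ p = S.coeff (D + 1) := by
      have := (frobeniusEquiv k p).apply_symm_apply (S.coeff (D + 1))
      rwa [← ht, frobeniusEquiv_apply, frobenius_def] at this
    have hyT : y ^ p ^ D ∈ T := pow_mem (hBT hyB) _
    have htT : algebraMap k Ω t * y ^ p ^ D ∈ T :=
      mul_mem (IntermediateField.algebraMap_mem _ t) hyT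
    have hlt : Lim v (cadj v E y₁) 0 (algebraMap k Ω t * y ^ p ^ D) := by
      rw [← fev_mon1 (p := p)]
      exact fev_lim hk hyl _
    set S' : k[X] := S - monomial (D + 1) (S.coeff (D + 1)) + monomial D (t * c) with hS'
    have hdeg : S'.natDegree ≤ D := by
      rw [natDegree_le_iff_coeff_eq_zero]
      intro N hN
      rw [hS', coeff_add, coeff_sub, coeff_monomial, coeff_monomial,
        if_neg (show ¬ D = N by omega), add_zero]
      split_ifs with h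
      · rw [h, sub_self]
      · rw [sub_zero, coeff_eq_zero_of_natDegree_lt (by omega)]
    have hfev : fev p S' y = fev p S y - algebraMap k Ω (S.coeff (D + 1)) * y ^ p ^ (D + 1) +
        algebraMap k Ω (t * c) * y ^ p ^ D := by
      rw [hS', fevO_add, fev_mon1]
      congr 1
      have h1 : fev p S y = fev p (S - monomial (D + 1) (S.coeff (D + 1))) y +
          fev p (monomial (D + 1) (S.coeff (D + 1))) y := by
        rw [← fevO_add, sub_add_cancel]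
      rw [h1, fev_mon1]
      ring
    have hπ2 : π (Y - algebraMap k Ω t * y ^ p ^ D) =
        π Y - algebraMap k Ω (t * c) * y ^ p ^ D := by
      rw [hπ.sub hY htT, ← Algebra.smul_def, hπ.smul t hyT, hc, Algebra.smul_def, map_mul]
      ring
    obtain ⟨a, ha, h2⟩ := ih (Y - algebraMap k Ω t * y ^ p ^ D) e' S' (sub_mem hY htT)
      (TWC.Lim.sub hl hlt) he' hdeg (by
        rw [hπ2, hfev, sub_pow_char, mul_pow, ← map_pow, htp, ← pow_mul, ← pow_succ]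
        refine Eq.mp (congrArg (fun x => v.Ge 0 x) ?_) hrel
        ring)
    refine ⟨a + algebraMap k Ω t * y ^ p ^ D, add_mem ha (mul_mem
      (IntermediateField.algebraMap_mem _ t) (pow_mem hyB _)), ?_⟩
    refine Eq.mp (congrArg (fun x => v.Ge 0 x) ?_) h2
    ring

/-- **(H3b): no exotic relation over `B = K<y>`.** -/
theorem fvb_gdat [Fact (Ctx0 k w)] (hk : Ctx0 k v) (hcv : CompleteV v) (hg : GrP p w pr)
    (hθ : IsoE v w θ) (hπ : Prj v T C π) (hBT : cadj v (cadj v E y₁) y ≤ T)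
    (hpr : ∀ x ∈ cadj v E y₁, θ (π x) = pr 0 (θ x))
    (hπK : ∀ x ∈ cadj v E y₁, π x ∈ cadj v E y₁)
    (hπB : ∀ x ∈ cadj v (cadj v E y₁) y, π x ∈ cadj v (cadj v E y₁) y)
    (hFT : FTB p v T (cadj v (cadj v E y₁) y)) (hG : Gen2 p v (cadj v E y₁) T y b)
    {s : cadj w (E.map θ) (θ y₁) →ₐ[k] PowerSeries (cadj w (E.map θ) (θ y₁))}
    {RR : Submodule k H} {n : ℕ} {P₀ : k[X]} {yn bn : ℕ → H}
    (hD : GDat p w pr (E.map θ) (θ y₁) α s RR n P₀ (θ y) (θ b) yn bn)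
    (hpiT : ∀ x ∈ T, π x ∈ T) (hy : TL v (cadj v E y₁) y 0)
    (hπy : ∀ j : ℕ, ∃ c : k, π (y ^ p ^ j) = algebraMap k Ω c * y ^ p ^ j)
    (hFV : ∀ Y ∈ T, Lim v (cadj v (cadj v E y₁) y) 0 Y →
      Nr v (cadj v (cadj v E y₁) y) 0 (Y ^ p - π Y) →
      ∃ g ∈ cadj v (cadj v E y₁) y, Lim v (cadj v E y₁) 0 (Y - g)) :
    FVB p v T (cadj v (cadj v E y₁) y) π := by
  intro Y hY hl hn
  obtain ⟨g, hgB, hgl⟩ := hFV Y hY hl hn
  obtain ⟨x₀, hx₀, h1⟩ := hn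
  have _ : Fact (Ctx0 k v) := ⟨hk⟩
  set K := cadj v E y₁ with hK
  set B := cadj v K y with hB
  have hKB : K ≤ B := le_cadj v K y
  have hgT : g ∈ T := hBT hgB
  have hYg : Y - g ∈ T := sub_mem hY hgT
  have hb' : x₀ - (g ^ p - π g) ∈ B := sub_mem hx₀ (sub_mem (pow_mem hgB p) (hπB g hgB))
  have h2 : v.Ge 0 ((Y - g) ^ p - π (Y - g) - (x₀ - (g ^ p - π g))) := by
    refine Eq.mp (congrArg (fun x => v.Ge 0 x) ?_) h1
    rw [sub_pow_char, hπ.sub hY hgT]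
    ring
  have hbl : Lim v K 0 (x₀ - (g ^ p - π g)) := by
    have h3 : Lim v K 0 ((Y - g) ^ p) := by
      have := fev_lim (p := p) hk hgl (monomial 1 (1 : k))
      rwa [fev_mon1, map_one, one_mul, pow_one] at this
    have h4 : Lim v K 0 (π (Y - g)) := by
      intro ε hε
      obtain ⟨m, hm, h1⟩ := hgl ε hε
      refine ⟨π m, hπK m hm, ?_⟩
      have hmT : m ∈ T := hBT (hKB hm)
      rw [← hπ.sub hYg hmT]
      exact hπ.ge _ (sub_mem hYg hmT) _ h1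
    intro ε hε
    obtain ⟨m, hm, h5⟩ := TWC.Lim.sub h3 h4 ε hε
    refine ⟨m, hm, ?_⟩
    have h6 := h5.sub (h2.mono (show (0 : ℝ) - ε ≤ 0 by linarith))
    refine Eq.mp (congrArg (fun x => v.Ge (0 - ε) x) ?_) h6
    ring
  obtain ⟨e, he, N, c, h3⟩ := germ_res hk hy p hb' hbl
  obtain ⟨S, -, hS⟩ := exists_fev (p := p) (Ω := Ω) c N
  obtain ⟨a, ha, h4⟩ := nr_deg hk hcv hg hθ hπ hBT hpr hπK hFT hG hD hpiT hy.lim hπy
    S.natDegree (Y - g) e S hYg hgl he le_rfl (by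
      have h5 := h2.add h3.ge
      refine Eq.mp (congrArg (fun x => v.Ge 0 x) ?_) h5
      rw [hS]
      ring)
  refine ⟨a + g, add_mem ha hgB, ?_⟩
  refine Eq.mp (congrArg (fun x => v.Ge 0 x) ?_) h4
  ring

/-! ### In a world -/

section Wld

variable [hk : Fact (Ctx0 k v)] {N L A₁ : IntermediateField k Ω} {G : AddSubgroup ℝ} {M : ℝ → Ω}
  {Θ : Ω →ₐ[k] HF k} [CharP (HF k) p] [PerfectRing (HF k) p]

/-- **(H3b), in a world.** `A₁ = N<u_1>`, `E_1 = PM v A₁ G M = E<y_1>`, `y = M r * u`. -/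
theorem World.fvb_gdat [IsAlgClosed k] (W : World p v N L G M) (hΩ : CompleteV v) (hNA : N ≤ A₁) (hAL : A₁ ≤ L)
    (hA : Cld v A₁) (hE₁ : PM v A₁ G M = cadj v (PM v N G M) y₁) (hΘ : Th v N G M Θ A₁)
    {r : ℝ} {u : Ω} (hr : r ∈ G) (hu : u ∈ L) (hy : TL v (PM v A₁ G M) (M r * u) 0)
    (hFT : FTB p v (PM v L G M) (cadj v (PM v A₁ G M) (M r * u)))
    (hG : Gen2 p v (PM v A₁ G M) (PM v L G M) (M r * u) b)
    {α : ℝ ⧸ VG v N} {s : cadj (hv k) ((PM v N G M).map Θ) (Θ y₁) →ₐ[k]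
      PowerSeries (cadj (hv k) ((PM v N G M).map Θ) (Θ y₁))}
    {RR : Submodule k (HF k)} {n : ℕ} {P₀ : k[X]} {yn bn : ℕ → HF k}
    (hD : GDat p (hv k) (hpr (VG v N)) ((PM v N G M).map Θ) (Θ y₁) α s RR n P₀ (Θ (M r * u))
      (Θ b) yn bn)
    (hFV : ∀ Y ∈ PM v L G M, Lim v (cadj v (PM v A₁ G M) (M r * u)) 0 Y →
      Nr v (cadj v (PM v A₁ G M) (M r * u)) 0 (Y ^ p - W.pj hΩ 0 Y) →
      ∃ g ∈ cadj v (PM v A₁ G M) (M r * u), Lim v (PM v A₁ G M) 0 (Y - g)) :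
    FVB p v (PM v L G M) (cadj v (PM v A₁ G M) (M r * u)) (W.pj hΩ 0) := by
  classical
  have hkH : Fact (Ctx0 k (hv k)) := ⟨ctx0_hv k⟩
  have hPj := (W.isPj hΩ 0).prj
  have hAT : PM v A₁ G M ≤ PM v L G M := PM.mono hAL
  have hyT : M r * u ∈ PM v L G M := mul_mem (PM.mon hr) (PM.le hu)
  have hBT : cadj v (PM v A₁ G M) (M r * u) ≤ PM v L G M := cadj_le PM.cld hAT hyT
  have hB : PM v (cadj v A₁ u) G M = cadj v (PM v A₁ G M) (M r * u) := PM_cadj_mul hr W.ms A₁ u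
  have hπB : ∀ x ∈ cadj v (PM v A₁ G M) (M r * u),
      W.pj hΩ 0 x ∈ cadj v (PM v A₁ G M) (M r * u) := by
    intro x hx
    rw [← hB] at hx ⊢
    exact W.pj_mem hΩ (hNA.trans (le_cadj v A₁ u)) (cadj_le W.cldL hAL hu) (cld_cadj v A₁ u) 0 hx
  have hπK : ∀ x ∈ PM v A₁ G M, W.pj hΩ 0 x ∈ PM v A₁ G M := fun x hx =>
    W.pj_mem hΩ hNA hAL hA 0 hx
  have hpr : ∀ x ∈ PM v A₁ G M, Θ (W.pj hΩ 0 x) = hpr (VG v N) 0 (Θ x) := fun x hx =>
    (hΘ.pj W hΩ hNA hAL hx).symm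
  have hπy : ∀ j : ℕ, ∃ c : k, W.pj hΩ 0 ((M r * u) ^ p ^ j) =
      algebraMap k Ω c * (M r * u) ^ p ^ j := by
    intro j
    have hg : ((p ^ j : ℕ) : ℝ) * r ∈ G := by
      have := G.nsmul_mem hr (p ^ j)
      rwa [nsmul_eq_mul] at this
    have h1 : (M r * u) ^ p ^ j = M (((p ^ j : ℕ) : ℝ) * r) * u ^ p ^ j := by
      rw [mul_pow, ← W.ms.pow hr (p ^ j)]
    refine ⟨if ((p ^ j : ℕ) : ℝ) * r ∈ VG v N then 1 else 0, ?_⟩
    rw [h1, W.pj0_term hΩ hg (pow_mem hu _)]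
    split_ifs with h
    · rw [map_one, one_mul]
    · rw [map_zero, zero_mul]
  rw [hE₁] at hy hFT hG hFV hBT hπB hπK hpr ⊢
  exact TWIV.fvb_gdat hk.out hΩ (grP_hpr p (VG v N)) hΘ.iso hPj hBT hpr hπK hπB hFT hG hD
    (fun x hx => W.pj_mem hΩ W.NL le_rfl W.cldL 0 hx) hy hπy hFV

end Wld

end Pool.Agent.TWIV
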