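import Pool.Agent.Lib.TWIV.TrfD
import Pool.Agent.Lib.TWIV.EmbT
import Pool.Agent.Lib.TWIV.GpH

/-!
# TANK W, leaf (IV), tame case, shape (1,2)': the record

* `World.exists_rec`: one homogeneous floor `E_1 = E<M d_1 * u_1>`: the graded embedding `θ` in the
  Hahn field, the module `RR` of the words with the properties `RRp`, and (RAD): a limit of `E_1` in
  `T` which is near `RR` is in `E_1 + L(E)`.
-/

set_option autoImplicit false
set_option linter.unusedSectionVars false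

open Polynomial

namespace Pool.Agent.TWIV

open Pool.Agent.H15JM (RVal)
open Pool.Agent.D2 (Ctx0)
open Pool.Agent.TWM Pool.Agent.TWC
open Pool.Agent.TWS

universe u

variable {k Ω : Type u} [Field k] [Field Ω] [Algebra k Ω] {v : RVal Ω} [hk : Fact (Ctx0 k v)]
  {N L : IntermediateField k Ω} {G : AddSubgroup ℝ} {M : ℝ → Ω} {p : ℕ} {u₁ : Ω} {d₁ : ℝ}

/-- **The record.** -/
theorem World.exists_rec (W : World p v N L G M) (hΩ : CompleteV v) [Fact p.Prime] [CharP k p]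
    [CharP Ω p] [IsAlgClosed k] [IsAlgClosed Ω] [PerfectRing k p]
    [CharP (HF k) p] [PerfectRing (HF k) p]
    (hfib : ∀ c : ℝ ⧸ VG v N, {d : ℝ ⧸ VG v N | p • d = c}.Finite)
    (hd₁ : d₁ ∈ G) (hu₁ : u₁ ∈ L) (hy₁ : TL v (PM v N G M) (M d₁ * u₁) 0) :
    ∃ θ : Ω →ₐ[k] HF k, Th v N G M θ (cadj v N u₁) ∧ ∃ RR : Submodule k (HF k),
      RRp p ((PM v N G M).map θ) (θ (M d₁ * u₁)) (hpr (VG v N)) RR ∧
      ∀ u : Ω, Lim v (PM v (cadj v N u₁) G M) 0 u → ∀ r ∈ RR, (hv k).Ge 0 (θ u - r) →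
        ∃ a ∈ PM v (cadj v N u₁) G M, Lim v (PM v N G M) 0 (u - a) := by
  have hk0 : Ctx0 k (hv k) := ctx0_hv k
  obtain ⟨θ, h1, h2⟩ := W.exists_th hΩ (u := fun _ => u₁) (d := fun _ => d₁) 1 (fun _ _ => hd₁)
    (fun _ _ => hu₁) (fun i hi => by
      have : i = 0 := by omega
      subst this
      exact hy₁)
  have hTh : Th v N G M θ (cadj v N u₁) := h1
  have hnu : nuH k (θ (M d₁ * u₁)) = θ (M d₁ * u₁) := h2 0 (by norm_num)
  have hE : (PM v N G M).map θ = HM k G := hTh.map_E W hΩ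
  have hE₁ : (PM v (cadj v N u₁) G M).map θ = cadj (hv k) (HM k G) (θ (M d₁ * u₁)) := by
    rw [hTh.map_cadj W hΩ hd₁, hE]
  have hdeg : hpr (VG v N) (d₁ : ℝ ⧸ VG v N) (θ (M d₁ * u₁)) = θ (M d₁ * u₁) :=
    hTh.deg_mul hd₁ (self_mem_cadj v _ _)
  have hTL : TL (hv k) (HM k G) (θ (M d₁ * u₁)) 0 := by
    rw [← hE, hTh.iso.tl_iff]
    exact hy₁
  have hf : FinR p (hpr (k := k) (VG v N)) := finR_hpr p hfib
  have hGr : GrE p (hv k) (hpr (k := k) (VG v N)) (HM k G) := grE_HM p W.div W.fin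
  refine ⟨θ, hTh, RR (grP_hpr p (VG v N)) (fun _ _ x h => hpr_orth x h) hf (HM k G)
    (θ (M d₁ * u₁)), ?_, ?_⟩
  · rw [hE]
    have h3 := rrd (grP_hpr p (VG v N)) (fun _ _ x h => hpr_orth x h) hf hGr.perf hGr.mem hdeg
    exact ⟨h3.poly, fun c x hx => h3.op _ (AA_pr c) x hx, h3.rt, h3.fr⟩
  · intro u hu r hr hur
    have h4 : Lim (hv k) (cadj (hv k) (HM k G) (θ (M d₁ * u₁))) 0 r := by
      rw [← hE₁]
      have h5 := hTh.iso.lim_iff.2 hu
      intro ε hε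
      obtain ⟨m, hm, h6⟩ := h5 ε hε
      refine ⟨m, hm, ?_⟩
      have h7 := h6.sub (hur.mono (show (0 : ℝ) - ε ≤ 0 by linarith))
      rwa [sub_sub_sub_cancel_left] at h7
    obtain ⟨b, hb, a, ha, h5⟩ := hrad_HM k p W.div W.fin hf _ _ hdeg hnu hTL r hr h4
    rw [← hE₁] at hb
    obtain ⟨b', hb', rfl⟩ := hb
    refine ⟨b', hb', hTh.iso.lim_iff.1 ?_⟩
    rw [hE]
    intro ε hε
    obtain ⟨m, hm, h6⟩ := ha ε hε
    refine ⟨m, hm, ?_⟩
    have h7 := (h6.add (h5.mono (show (0 : ℝ) - ε ≤ 0 by linarith))).add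
      (hur.mono (show (0 : ℝ) - ε ≤ 0 by linarith))
    refine Eq.mp (congrArg (fun x => (hv k).Ge (0 - ε) x) ?_) h7
    rw [map_sub]
    change a - m + (r - θ b' - a) + (θ u - r) = θ u - θ b' - m
    ring

end Pool.Agent.TWIV
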