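import Pool.Agent.Lib.TWIV.OTg
import Pool.Agent.Lib.TWIV.H3b
import Pool.Agent.Lib.TWIV.OTR

/-!
# TANK W, tame case, shape (1,2)': the theorem

`W` the fine world, `W'` the coarse world over the same fields `E`, `T`.
* `World.h3`: in the shape (1,2)' the field `T` is a tower over `E_1⟨M r * l⟩`, `l ∈ L`, and there
  is no exotic relation over `E_1⟨M r * l⟩`.
-/

set_option autoImplicit false
set_option linter.unusedSectionVars false

open Polynomial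

namespace Pool.Agent.TWIV

open Pool.Agent.H15JM (RVal)
open Pool.Agent.LU1 (VPos adj)
open Pool.Agent.D2 (Ctx0)
open Pool.Agent.D2P (hen clI mem_clI)
open Pool.Agent.TWM Pool.Agent.TWC Pool.Agent.TWS Pool.Agent.TWT

universe u

variable {k Ω : Type u} [Field k] [Field Ω] [Algebra k Ω] [IsAlgClosed k] [IsAlgClosed Ω]
  {v : RVal Ω} [Fact (Ctx0 k v)] {p : ℕ} [hp : Fact p.Prime] [CharP k p] [PerfectRing k p]
  [CharP Ω p] {N L N' L' A : IntermediateField k Ω} {G : AddSubgroup ℝ} {M : ℝ → Ω}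

namespace World

/-- The data of the shape, from the shape. -/
theorem exists_otd (W : World p v N L G M) (hΩ : CompleteV v) [CharP (HF k) p]
    [PerfectRing (HF k) p] (hfib : ∀ c : ℝ ⧸ VG v N, {d : ℝ ⧸ VG v N | p • d = c}.Finite)
    {d₁ : ℝ} (hd₁ : d₁ ∈ G) {u₁ : Ω} (hu₁ : u₁ ∈ L) {y z : Ω}
    (S : Shp v (PM v N G M) (PM v (cadj v N u₁) G M) (PM v L G M) (M d₁ * u₁) y z) :
    ∃ (θ : Ω →ₐ[k] HF k) (RR : Submodule k (HF k)), Th v N G M θ (cadj v N u₁) ∧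
      OTD W hΩ (hv k) θ (hpr (VG v N)) RR (cadj v N u₁) d₁ u₁ y z := by
  obtain ⟨θ, hTh, RR, hRR, hRAD⟩ := W.exists_rec hΩ hfib hd₁ hu₁ S.tl₁
  have hNA := le_cadj v N u₁
  have hAL : cadj v N u₁ ≤ L := TWM.cadj_le W.cldL W.NL hu₁
  exact ⟨θ, RR, hTh, S, completeV_hv k, sphC_hv k, hNA, hAL, cld_cadj v N u₁, hd₁, hu₁,
    ⟨hTh.iso, grP_hpr p (VG v N), fun c x hx => hTh.prD W hΩ hNA hAL c hx⟩, hRR,
    fun u _ hl r hr h => hRAD u hl r hr h⟩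

/-- **The shape (1,2)'.** -/
theorem h3 (W : World p v N L G M) (W' : World p v N' L' G M) (hΩ : CompleteV v)
    (hE : PM v N' G M = PM v N G M) (hTT : PM v L' G M = PM v L G M) (hLL : L ≤ L')
    (hfib : ∀ c : ℝ ⧸ VG v N, {d : ℝ ⧸ VG v N | p • d = c}.Finite)
    (hfib' : ∀ c : ℝ ⧸ VG v N', {d : ℝ ⧸ VG v N' | p • d = c}.Finite)
    {d₁ : ℝ} (hd₁ : d₁ ∈ G) {u₁ : Ω} (hu₁ : u₁ ∈ L) {y z : Ω}
    (S : Shp v (PM v N G M) (PM v (cadj v N u₁) G M) (PM v L G M) (M d₁ * u₁) y z)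
    (hF : FreeB k p v L (PM v (cadj v N u₁) G M) G M) :
    ∃ l ∈ L, ∃ r ∈ G, TL v (PM v (cadj v N u₁) G M) (M r * l) 0 ∧
      (∃ z', TL v (cadj v (PM v (cadj v N u₁) G M) (M r * l)) z' 0 ∧
        PM v L G M = cadj v (cadj v (PM v (cadj v N u₁) G M) (M r * l)) z') ∧
      FTB p v (PM v L G M) (cadj v (PM v (cadj v N u₁) G M) (M r * l)) ∧
      FVB p v (PM v L G M) (cadj v (PM v (cadj v N u₁) G M) (M r * l)) (W'.pj hΩ 0) := by
  have hk : Ctx0 k v := Fact.out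
  have _ : CharP (HF k) p := charP_HF k p
  have _ : PerfectRing (HF k) p := perfectRing_HF k p
  have _ : Fact (Ctx0 k (hv k)) := ⟨ctx0_hv k⟩
  obtain ⟨θ, RR, -, D⟩ := W.exists_otd hΩ hfib hd₁ hu₁ S
  obtain ⟨r, hr, l, hl, hty, hT1, κ, hκ, e, he, hne⟩ := D.h3a hF
  obtain ⟨z', hz', hTz⟩ := tow_one.1 hT1
  have S' := S.chg p hk hκ he hne hty hz' hTz
  have hu₁' : u₁ ∈ L' := hLL hu₁
  have hl' : l ∈ L' := hLL hl
  have hE₁' : PM v (cadj v N' u₁) G M = PM v (cadj v N u₁) G M := by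
    rw [PM_cadj_mul hd₁ W.ms N', PM_cadj_mul hd₁ W.ms N, hE]
  have hNA' := le_cadj v N' u₁
  have hAL' : cadj v N' u₁ ≤ L' := TWM.cadj_le W'.cldL W'.NL hu₁'
  have hB' : PM v (cadj v (cadj v N' u₁) l) G M = cadj v (PM v (cadj v N' u₁) G M) (M r * l) :=
    PM_cadj_mul hr W.ms _ _
  have S'' : Shp v (PM v N' G M) (PM v (cadj v N' u₁) G M) (PM v L' G M) (M d₁ * u₁)
      (M r * l) z' := by rw [hE, hE₁', hTT]; exact S'
  obtain ⟨θ', RR', hTh', D'⟩ := W'.exists_otd hΩ hfib' hd₁ hu₁' S''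
  obtain ⟨b, n, P₀, s, yn, bn, -, -, hgen, hG⟩ := D'.core
  have hFT' : FTB p v (PM v L' G M) (cadj v (PM v (cadj v N' u₁) G M) (M r * l)) := by
    rw [S''.eqT]
    exact ftb_of_tl hk S''.tlz
  have hFVB := W'.fvb_gdat hΩ hNA' hAL' (cld_cadj v N' u₁) D'.eq₁ hTh' hr hl' D'.tly hFT' hgen hG
    (fun Y hY hYl hYn => by
      rw [← hB'] at hYl hYn ⊢
      exact W'.fv_two_fib hΩ hfib' hd₁ hr hu₁' hl' D'.tl₁ D'.tly (fun Y hY hl => D'.can hY hl)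
        hY hYl hYn)
  rw [hTT, hE₁'] at hFT' hFVB
  exact ⟨l, hl, r, hr, hty, ⟨z', hz', hTz⟩, hFT', hFVB⟩

end World

end Pool.Agent.TWIV
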