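import Pool.Agent.Lib.TWIV.TrfD
import Pool.Agent.Lib.TWT.FreeA7

/-!
# TANK W, (IV) TAME: finite fibres for the saturated value group

If `Γ / p Γ` is cyclic, then `satp p Γ` has the same property; so `p` has finite fibres on
`ℝ / satp p Γ`: the extra hypothesis of `World.fv_two_fib` holds in the coarse world.
-/

set_option autoImplicit false

namespace Pool.Agent.TWIV

open Pool.Agent.H15JM (RVal)
open Pool.Agent.D2 (Ctx0)
open Pool.Agent.TWM Pool.Agent.TWC Pool.Agent.TWS Pool.Agent.TWT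

universe u

/-- Cyclicity modulo `p` passes to the saturation prime to `p`. -/
theorem cyc_satp {p : ℕ} [Fact p.Prime] {Γ : AddSubgroup ℝ} {g₀ : ℝ} (hg₀ : g₀ ∈ Γ)
    (hG : ∀ g ∈ Γ, ∃ l < p, ∃ g' ∈ Γ, g = l * g₀ + p * g') :
    ∀ g ∈ satp p Γ, ∃ l < p, ∃ g' ∈ satp p Γ, g = l * g₀ + p * g' := by
  have hp : p.Prime := Fact.out
  rintro g ⟨n, hn, hng⟩
  obtain ⟨l, -, g', hg', h1⟩ := hG _ hng
  have hco : Nat.Coprime n p := ((Nat.Prime.coprime_iff_not_dvd hp).2 hn).symm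
  obtain ⟨u, hu⟩ : ∃ u : ℕ, n * u ≡ 1 [MOD p] := by
    obtain ⟨u, -, hu⟩ := Nat.exists_mul_mod_eq_one_of_coprime hco hp.one_lt
    exact ⟨u, by rw [Nat.ModEq, hu, Nat.mod_eq_of_lt hp.one_lt]⟩
  -- `n u = 1 + p w`
  obtain ⟨w, hw⟩ : ∃ w : ℤ, (n : ℤ) * u = 1 + p * w := by
    have h2 : (p : ℤ) ∣ (n : ℤ) * u - 1 := by
      have h3 := (Nat.modEq_iff_dvd.1 hu.symm)
      push_cast at h3
      exact h3
    obtain ⟨w, hw⟩ := h2
    exact ⟨w, by linarith⟩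
  have hw' : (n : ℝ) * u = 1 + p * w := by exact_mod_cast hw
  refine ⟨(l * u) % p, Nat.mod_lt _ hp.pos,
    (((l * u) / p : ℕ) : ℝ) * g₀ + ((u : ℝ) * g' - (w : ℝ) * g), ?_, ?_⟩
  · have h4 : (((l * u) / p : ℕ) : ℝ) * g₀ ∈ satp p Γ := by
      have h5 := (satp p Γ).nsmul_mem (le_satp hg₀) ((l * u) / p)
      rwa [nsmul_eq_mul] at h5
    have h6 : (u : ℝ) * g' ∈ satp p Γ := by
      have h5 := (satp p Γ).nsmul_mem (le_satp hg') u
      rwa [nsmul_eq_mul] at h5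
    have h7 : (w : ℝ) * g ∈ satp p Γ := by
      have h8 : g ∈ satp p Γ := ⟨n, hn, hng⟩
      have h5 := (satp p Γ).zsmul_mem h8 w
      rwa [zsmul_eq_mul] at h5
    exact (satp p Γ).add_mem h4 ((satp p Γ).sub_mem h6 h7)
  · have h9 : ((l * u : ℕ) : ℝ) = (((l * u) % p : ℕ) : ℝ) + p * (((l * u) / p : ℕ) : ℝ) := by
      exact_mod_cast (Nat.mod_add_div (l * u) p).symm
    push_cast at h9
    linear_combination (-g) * hw' + (u : ℝ) * h1 + g₀ * h9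

/-- **Finite fibres for the saturation.** -/
theorem fib_satp {p : ℕ} [Fact p.Prime] {Γ : AddSubgroup ℝ} {g₀ : ℝ} (hg₀ : g₀ ∈ Γ)
    (hG : ∀ g ∈ Γ, ∃ l < p, ∃ g' ∈ Γ, g = l * g₀ + p * g') (c : ℝ ⧸ satp p Γ) :
    {d : ℝ ⧸ satp p Γ | p • d = c}.Finite :=
  fib_cyc (Fact.out : p.Prime) (cyc_satp hg₀ hG) c

/-- **Finite fibres in the coarse world**, in the form of `World.fv_two_fib`. -/
theorem World.fib_satp {k Ω : Type u} [Field k] [Field Ω] [Algebra k Ω] {v : RVal Ω}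
    {N N' : IntermediateField k Ω} {p : ℕ} [Fact p.Prime] {g₀ : ℝ}
    (hV : VG v N' = satp p (VG v N)) (hg₀ : g₀ ∈ VG v N)
    (hG : ∀ g ∈ VG v N, ∃ l < p, ∃ g' ∈ VG v N, g = l * g₀ + p * g') (c : ℝ ⧸ VG v N') :
    {d : ℝ ⧸ VG v N' | p • d = c}.Finite := by
  refine fib_cyc (Fact.out : p.Prime) (g₀ := g₀) ?_ c
  rw [hV]
  exact cyc_satp hg₀ hG

end Pool.Agent.TWIV
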