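import Pool.Agent.Lib.TWIV.Rec
import Pool.Agent.Lib.TWIV.FTPow
import Pool.Agent.Lib.TWIV.OTh
import Pool.Agent.Lib.TWIV.TrfE

/-!
# TANK W, leaf (IV) TAME: the core

* `World.h3P`: the shape `(1, 2)'` in the form of the recursion;
* `World.core`: **the core of the tame leaf**.
-/

set_option autoImplicit false
set_option linter.unusedSectionVars false

open Polynomial

namespace Pool.Agent.TWIV

open Pool.Agent.H15JM (RVal)
open Pool.Agent.D2 (Ctx0)
open Pool.Agent.TWM Pool.Agent.TWS Pool.Agent.TWT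
open Pool.Agent.TWC (Tow)

universe u

variable {k Ω : Type u} [Field k] [Field Ω] [Algebra k Ω] {v : RVal Ω} [hcx : Fact (Ctx0 k v)]
  {N L A B : IntermediateField k Ω} {M : ℝ → Ω} {p : ℕ} [hp : Fact p.Prime] [CharP k p]
  [CharP Ω p] [PerfectRing k p] [IsAlgClosed k] [IsAlgClosed Ω]

namespace World

/-- **The shape `(1, 2)'`** in the form of the recursion. -/
theorem h3P (W : World p v N L ⊤ M) (hΩ : CompleteV v)
    (W' : World p v (cs p v N N M) (cs p v N L M) ⊤ M)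
    (hfib : ∀ c : ℝ ⧸ VG v N, {d : ℝ ⧸ VG v N | p • d = c}.Finite)
    (hfib' : ∀ c : ℝ ⧸ VG v (cs p v N N M), {d : ℝ ⧸ VG v (cs p v N N M) | p • d = c}.Finite) :
    H3P hΩ W' := by
  intro u₁ r₁ hu₁ ht1 c d hc hd hcd hF1 _ _ hx hii hc1
  have S : Shp v (PM v N ⊤ M) (PM v (cadj v N u₁) ⊤ M) (PM v L ⊤ M) (M (-r₁) * u₁) c d :=
    { eq₁ := W.PM_cadjT N (-r₁) u₁
      tl₁ := ht1
      tly := hc
      tlz := hd
      eqT := hcd
      far := hx
      top := fun b hb hF => hii ⟨c, b, hF, hb⟩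
      nc := fun e he hl => by
        have h1 := hc1 (c - e) (sub_mem (by
          rw [hcd]
          exact le_cadj v _ _ (self_mem_cadj v _ c))
          ((PM.mono (TWM.cadj_le W.cldL W.NL hu₁) : PM v (cadj v N u₁) ⊤ M ≤ PM v L ⊤ M) he)) hl
        obtain ⟨a, ha, h2⟩ := h1
        refine TL.not_nr' hc (Nr.nr' ⟨e + a, add_mem he ha, ?_⟩)
        rwa [← sub_sub] }
  obtain ⟨l, hl, r, -, h1, ⟨z', h2, h3⟩, -, h4⟩ := W.h3 W' hΩ (PM_cs N) (PM_cs L) cs_le hfib hfib'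
    (d₁ := -r₁) trivial hu₁ S hF1
  refine ⟨l, hl, -r, ?_, ?_, ?_⟩
  · rwa [neg_neg]
  · rw [neg_neg]
    refine TowR.succ h2 ?_
    rw [← h3]
    exact TowR.zero PM.cld
  · rw [neg_neg]
    exact h4

/-- **THE CORE OF THE TAME LEAF.** -/
theorem core (W : World p v N L ⊤ M) (hΩ : CompleteV v)
    (W' : World p v (cs p v N N M) (cs p v N L M) ⊤ M) (hV : VG v (cs p v N N M) = satp p (VG v N))
    {g₀ : ℝ} (hg₀ : g₀ ∈ VG v N) (hg₀' : g₀ / p ∉ VG v N)
    (hG : ∀ g ∈ VG v N, ∃ l < p, ∃ g' ∈ VG v N, g = l * g₀ + p * g')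
    (hT : Tow v 3 (PM v N ⊤ M) (PM v L ⊤ M)) : TowR v 3 N L := by
  have hfib := fib_cyc hp.out hG
  have hfib' := World.fib_satp hV hg₀ hG
  exact W.core_of hΩ W' hV hg₀ hg₀' hG (ftp p) hfib' (W.h3P hΩ W' hfib hfib') hT

end World

end Pool.Agent.TWIV
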