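import Pool.Agent.Lib.TWIV.Floor2

/-!
# TANK W, leaf (IV), shape (2,1): the tensor core, matrix version

`Y x = F^i y_a`, `x = (a, i)`, of degree `dg x = p ^ i δ_a`, independent; unknowns `α ∈ κ`;
`m α x` the class of the part of `D_x X_α` in the limits of `E`, `ρ α x y` the residue of
`D_y b_x - D_x b_y`, `S α x y` the coefficients of `R_x = ∑ φ b_x + D_x f - F b_(x-1)`.

* `Cor`: the relations;
* `Cor.main`: `m α x = ∑ g α x y • Y y`, `g α x y - g α y x + ρ α x y = 0`.
-/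

set_option autoImplicit false
set_option linter.unusedSectionVars false

namespace Pool.Agent.TWIV

open Module Submodule TensorProduct
open Pool.Agent.TWC (tp tmul_mem_tp tp_le tp_mono FF FF_tmul LS LS_fg mem_tp_LS eq_zero_of_LS slice
  slice_tmul it_LS)

universe u w

variable {k : Type u} {V : Type w} [Field k] [AddCommGroup V] [Module k V]
variable {σ : k →+* k} [RingHomSurjective σ] {F : V →ₛₗ[σ] V}
variable {A : Type*} [AddCommGroup A] {pr : A → V →ₗ[k] V}
variable {ι : Type*} [Fintype ι] {κ : Type*} [Fintype κ]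

/-- `F^i y_a` -/
def Yx (F : V →ₛₗ[σ] V) (y : ι → V) (x : ι × ℕ) : V := F^[x.2] (y x.1)

/-- the degree of `F^i y_a` -/
def dgx (p : ℕ) (δ : ι → A) (x : ι × ℕ) : A := p ^ x.2 • δ x.1

/-- the index of `F^(i+1) y_a` -/
def shx (x : ι × ℕ) : ι × ℕ := (x.1, x.2 + 1)

variable (ι) in
/-- the indices `(a, i)`, `i < N` -/
def XN (N : ℕ) : Finset (ι × ℕ) := Finset.univ ×ˢ Finset.range N

theorem mem_XN {N : ℕ} {x : ι × ℕ} : x ∈ XN ι N ↔ x.2 < N := by
  rw [XN, Finset.mem_product]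
  simp

omit [Fintype ι] [RingHomSurjective σ] in
theorem F_Yx (y : ι → V) (x : ι × ℕ) : F (Yx F y x) = Yx F y (shx x) :=
  (Function.iterate_succ_apply' F x.2 (y x.1)).symm

theorem sum_shx {M : Type*} [AddCommGroup M] (N : ℕ) (f : ι × ℕ → M) (hf : ∀ a, f (a, N) = 0) :
    ∑ x ∈ XN ι N, f (shx x) + ∑ a, f (a, 0) = ∑ x ∈ XN ι N, f x := by
  rw [XN, Finset.sum_product, Finset.sum_product, ← Finset.sum_add_distrib]
  refine Finset.sum_congr rfl fun a _ => ?_
  have h1 := Finset.sum_range_succ' (fun i => f (a, i)) N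
  rw [Finset.sum_range_succ, hf, add_zero] at h1
  exact h1.symm

/-- The relations of the tensor core. -/
structure Cor (F : V →ₛₗ[σ] V) (pr : A → V →ₗ[k] V) (p : ℕ) (δ : ι → A) (y : ι → V) (N : ℕ)
    (C : Finset A) (lam : κ → κ → A → k) (m : κ → ι × ℕ → V)
    (S ρ : κ → ι × ℕ → ι × ℕ → k) : Prop where
  hom : ∀ x, pr (dgx p δ x) (Yx F y x) = Yx F y x
  orth : ∀ c x, c ≠ dgx p δ x → pr c (Yx F y x) = 0
  ind : LinearIndependent k (Yx F y)
  lamC : ∀ α β, ∀ c ∉ C, lam α β c = 0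
  mbig : ∀ α x, N ≤ x.2 → m α x = 0
  Sbig : ∀ α x z, N ≤ x.2 → S α x z = 0
  Sbig' : ∀ α x z, N ≤ z.2 → S α x z = 0
  ρbig : ∀ α x z, N ≤ x.2 → ρ α x z = 0
  anti : ∀ α x z, ρ α z x = -ρ α x z
  rel : ∀ α x, F (m α x) = (∑ β, ∑ c ∈ C, lam α β c • pr (c - dgx p δ (shx x)) (m β (shx x))) +
    ∑ z ∈ XN ι N, S α (shx x) z • Yx F y z
  rel0 : ∀ α a, 0 = (∑ β, ∑ c ∈ C, lam α β c • pr (c - dgx p δ (a, 0)) (m β (a, 0))) +
    ∑ z ∈ XN ι N, S α (a, 0) z • Yx F y z
  rho : ∀ α x z, S α (shx x) (shx z) - S α (shx z) (shx x) =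
    (∑ β, lam α β (dgx p δ (shx x) + dgx p δ (shx z)) * ρ β (shx x) (shx z)) - σ (ρ α x z)
  rho0 : ∀ α a z, S α (a, 0) z - S α z (a, 0) =
    ∑ β, lam α β (dgx p δ (a, 0) + dgx p δ z) * ρ β (a, 0) z

namespace Cor

variable {p : ℕ} {δ : ι → A} {y : ι → V} {N : ℕ} {C : Finset A} {lam : κ → κ → A → k}
  {m : κ → ι × ℕ → V} {S ρ : κ → ι × ℕ → ι × ℕ → k}

/-- the tensor -/
noncomputable def tt (F : V →ₛₗ[σ] V) (y : ι → V) (N : ℕ) (m : κ → ι × ℕ → V)
    (ρ : κ → ι × ℕ → ι × ℕ → k) (α : κ) : V ⊗[k] V :=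
  (∑ x ∈ XN ι N, alt (Yx F y x) (m α x)) +
    ∑ x ∈ XN ι N, ∑ z ∈ XN ι N, ρ α x z • (Yx F y x ⊗ₜ[k] Yx F y z)

variable (h : Cor F pr p δ y N C lam m S ρ)

include h

omit [RingHomSurjective σ] in
theorem ρbig' (α : κ) (x z : ι × ℕ) (hz : N ≤ z.2) : ρ α x z = 0 := by
  have h1 := h.anti α z x
  rw [h.ρbig α z x hz, neg_zero] at h1
  exact h1

omit [RingHomSurjective σ] in
open Classical in
/-- the projection of the tensor -/
theorem prT_tt {D : Finset A} {c : A} (h1 : ∀ x ∈ XN ι N, dgx p δ x ∈ D)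
    (h2 : ∀ x ∈ XN ι N, c - dgx p δ x ∈ D) (β : κ) : prT pr D c (tt F y N m ρ β) =
      (∑ x ∈ XN ι N, alt (Yx F y x) (pr (c - dgx p δ x) (m β x))) +
    ∑ x ∈ XN ι N, ∑ z ∈ XN ι N, (if c = dgx p δ x + dgx p δ z then ρ β x z else 0) •
      (Yx F y x ⊗ₜ[k] Yx F y z) := by
  classical
  rw [tt, map_add, map_sum, map_sum]
  congr 1
  · refine Finset.sum_congr rfl fun x hx => ?_
    rw [alt, map_sub, prT_tmul, prT_tmul, alt]
    congr 1
    · rw [Finset.sum_eq_single_of_mem _ (h1 x hx)]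
      · rw [h.hom]
      · intro d _ hd
        rw [h.orth d x hd, TensorProduct.zero_tmul]
    · rw [Finset.sum_eq_single_of_mem _ (h2 x hx)]
      · rw [sub_sub_cancel, h.hom]
      · intro d _ hd
        rw [h.orth (c - d) x (fun h3 => hd (by rw [← h3, sub_sub_cancel])),
          TensorProduct.tmul_zero]
  · refine Finset.sum_congr rfl fun x hx => ?_
    rw [map_sum]
    refine Finset.sum_congr rfl fun z _ => ?_
    rw [map_smul, prT_tmul, Finset.sum_eq_single_of_mem _ (h1 x hx)]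
    · rw [h.hom]
      split_ifs with hc
      · rw [hc, add_sub_cancel_left, h.hom]
      · rw [h.orth (c - dgx p δ x) z (fun h3 => hc (by rw [← h3, add_sub_cancel])),
          TensorProduct.tmul_zero, smul_zero, zero_smul]
    · intro d _ hd
      rw [h.orth d x hd, TensorProduct.zero_tmul]

omit [RingHomSurjective σ] in
/-- `∑ S(x,z) alt(Y_x, Y_z)` -/
theorem sum_alt (T : ι × ℕ → ι × ℕ → k) :
    ∑ x ∈ XN ι N, alt (Yx F y x) (∑ z ∈ XN ι N, T x z • Yx F y z) =
      ∑ x ∈ XN ι N, ∑ z ∈ XN ι N, (T x z - T z x) • (Yx F y x ⊗ₜ[k] Yx F y z) := by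
  have h1 : ∀ x, alt (k := k) (Yx F y x) (∑ z ∈ XN ι N, T x z • Yx F y z) =
      (∑ z ∈ XN ι N, T x z • (Yx F y x ⊗ₜ[k] Yx F y z)) -
        ∑ z ∈ XN ι N, T x z • (Yx F y z ⊗ₜ[k] Yx F y x) := by
    intro x
    rw [alt_sum, ← Finset.sum_sub_distrib]
    refine Finset.sum_congr rfl fun z _ => ?_
    rw [alt_smul, alt, smul_sub]
  simp only [h1, Finset.sum_sub_distrib, sub_smul]
  congr 1
  rw [Finset.sum_comm]

/-- `(F ⊗ F) t_α = φ t_α` -/
theorem FF_tt {D : Finset A} (h1 : ∀ x ∈ XN ι N, dgx p δ x ∈ D)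
    (h2 : ∀ x ∈ XN ι N, ∀ c ∈ C, c - dgx p δ x ∈ D) (α : κ) : FF F (tt F y N m ρ α) =
      ∑ β, ∑ c ∈ C, lam α β c • prT pr D c (tt F y N m ρ β) := by
  classical
  -- the right hand side
  have e1 : ∑ β, ∑ c ∈ C, lam α β c • prT pr D c (tt F y N m ρ β) =
      (∑ x ∈ XN ι N, alt (Yx F y x)
        (∑ β, ∑ c ∈ C, lam α β c • pr (c - dgx p δ x) (m β x))) +
      ∑ x ∈ XN ι N, ∑ z ∈ XN ι N, (∑ β, lam α β (dgx p δ x + dgx p δ z) * ρ β x z) •
        (Yx F y x ⊗ₜ[k] Yx F y z) := by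
    have e2 : ∀ β, ∀ c ∈ C, lam α β c • prT pr D c (tt F y N m ρ β) =
        (∑ x ∈ XN ι N, lam α β c • alt (Yx F y x) (pr (c - dgx p δ x) (m β x))) +
        ∑ x ∈ XN ι N, ∑ z ∈ XN ι N, (if c = dgx p δ x + dgx p δ z then
          lam α β c * ρ β x z else 0) • (Yx F y x ⊗ₜ[k] Yx F y z) := by
      intro β c hc
      rw [h.prT_tt h1 (fun x hx => h2 x hx c hc) β, smul_add, Finset.smul_sum, Finset.smul_sum]
      congr 1
      refine Finset.sum_congr rfl fun x _ => ?_
      rw [Finset.smul_sum]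
      refine Finset.sum_congr rfl fun z _ => ?_
      rw [smul_smul]
      split_ifs
      · rfl
      · rw [mul_zero]
    have e3 : ∀ β, ∑ c ∈ C, lam α β c • prT pr D c (tt F y N m ρ β) =
        (∑ x ∈ XN ι N, ∑ c ∈ C, lam α β c • alt (Yx F y x) (pr (c - dgx p δ x) (m β x))) +
        ∑ x ∈ XN ι N, ∑ z ∈ XN ι N, (lam α β (dgx p δ x + dgx p δ z) * ρ β x z) •
          (Yx F y x ⊗ₜ[k] Yx F y z) := by
      intro β
      rw [Finset.sum_congr rfl (e2 β), Finset.sum_add_distrib]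
      congr 1
      · rw [Finset.sum_comm]
      · rw [Finset.sum_comm]
        refine Finset.sum_congr rfl fun x _ => ?_
        rw [Finset.sum_comm]
        refine Finset.sum_congr rfl fun z _ => ?_
        rw [← Finset.sum_smul]
        congr 1
        by_cases hc : dgx p δ x + dgx p δ z ∈ C
        · rw [Finset.sum_eq_single_of_mem _ hc]
          · rw [if_pos rfl]
          · intro c _ hne
            rw [if_neg hne]
        · rw [h.lamC α β _ hc, zero_mul]
          refine Finset.sum_eq_zero fun c hc' => ?_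
          exact if_neg (fun h3 : c = dgx p δ x + dgx p δ z => hc (h3 ▸ hc'))
    rw [Finset.sum_congr rfl fun β _ => e3 β, Finset.sum_add_distrib]
    congr 1
    · rw [Finset.sum_comm]
      refine Finset.sum_congr rfl fun x _ => ?_
      rw [alt_sum]
      refine Finset.sum_congr rfl fun β _ => ?_
      rw [alt_sum]
      exact Finset.sum_congr rfl fun c _ => (alt_smul _ _ _).symm
    · rw [Finset.sum_comm]
      refine Finset.sum_congr rfl fun x _ => ?_
      rw [Finset.sum_comm]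
      refine Finset.sum_congr rfl fun z _ => ?_
      rw [Finset.sum_smul]
  -- the left hand side
  have f1 : FF F (tt F y N m ρ α) = (∑ x ∈ XN ι N, alt (Yx F y (shx x)) (F (m α x))) +
      ∑ x ∈ XN ι N, ∑ z ∈ XN ι N, σ (ρ α x z) •
        (Yx F y (shx x) ⊗ₜ[k] Yx F y (shx z)) := by
    rw [tt, map_add, map_sum, map_sum]
    congr 1
    · refine Finset.sum_congr rfl fun x _ => ?_
      rw [FF_alt, F_Yx]
    · refine Finset.sum_congr rfl fun x _ => ?_
      rw [map_sum]
      refine Finset.sum_congr rfl fun z _ => ?_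
      rw [LinearMap.map_smulₛₗ, FF_tmul, F_Yx, F_Yx]
  -- the first sum
  have f2 : ∑ x ∈ XN ι N, alt (Yx F y (shx x)) (F (m α x)) =
      (∑ x ∈ XN ι N, alt (Yx F y x)
        (∑ β, ∑ c ∈ C, lam α β c • pr (c - dgx p δ x) (m β x))) +
      ∑ x ∈ XN ι N, ∑ z ∈ XN ι N, (S α x z - S α z x) • (Yx F y x ⊗ₜ[k] Yx F y z) := by
    set f : ι × ℕ → V ⊗[k] V := fun x => alt (Yx F y x)
      ((∑ β, ∑ c ∈ C, lam α β c • pr (c - dgx p δ x) (m β x)) +
        ∑ z ∈ XN ι N, S α x z • Yx F y z) with hf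
    have f3 : ∑ x ∈ XN ι N, alt (Yx F y (shx x)) (F (m α x)) = ∑ x ∈ XN ι N, f (shx x) :=
      Finset.sum_congr rfl fun x _ => by rw [h.rel α x]
    have f4 : ∀ a, f (a, N) = 0 := by
      intro a
      rw [hf]
      simp only [h.mbig _ (a, N) le_rfl, h.Sbig _ (a, N) _ le_rfl, map_zero, smul_zero, zero_smul,
        Finset.sum_const_zero, add_zero, alt_zero]
    have f5 : ∀ a, f (a, 0) = 0 := by
      intro a
      rw [hf]
      simp only
      rw [← h.rel0 α a, alt_zero]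
    have f6 := sum_shx N f f4
    rw [Finset.sum_congr rfl fun a _ => f5 a, Finset.sum_const_zero, add_zero] at f6
    rw [f3, f6, ← h.sum_alt, ← Finset.sum_add_distrib]
    exact Finset.sum_congr rfl fun x _ => alt_add _ _ _
  -- the second sum
  have g1 : ∑ x ∈ XN ι N, ∑ z ∈ XN ι N, σ (ρ α x z) •
        (Yx F y (shx x) ⊗ₜ[k] Yx F y (shx z)) =
      ∑ x ∈ XN ι N, ∑ z ∈ XN ι N, ((∑ β, lam α β (dgx p δ x + dgx p δ z) * ρ β x z) -
        (S α x z - S α z x)) • (Yx F y x ⊗ₜ[k] Yx F y z) := by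
    set g : ι × ℕ → ι × ℕ → V ⊗[k] V := fun x z =>
      ((∑ β, lam α β (dgx p δ x + dgx p δ z) * ρ β x z) -
        (S α x z - S α z x)) • (Yx F y x ⊗ₜ[k] Yx F y z) with hg
    have g2 : ∀ x z, σ (ρ α x z) • (Yx F y (shx x) ⊗ₜ[k] Yx F y (shx z)) =
        g (shx x) (shx z) := by
      intro x z
      rw [hg]
      simp only
      rw [h.rho α x z]
      congr 1
      ring
    have g3 : ∀ a z, g (a, 0) z = 0 := by
      intro a z
      rw [hg]
      simp only
      rw [h.rho0 α a z, sub_self, zero_smul]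
    have g4 : ∀ x a, g x (a, 0) = 0 := by
      intro x a
      have g5 := h.rho0 α a x
      rw [hg]
      simp only
      have g6 : (∑ β, lam α β (dgx p δ x + dgx p δ (a, 0)) * ρ β x (a, 0)) -
          (S α x (a, 0) - S α (a, 0) x) = 0 := by
        have g7 : ∑ β, lam α β (dgx p δ x + dgx p δ (a, 0)) * ρ β x (a, 0) =
            -∑ β, lam α β (dgx p δ (a, 0) + dgx p δ x) * ρ β (a, 0) x := by
          rw [← Finset.sum_neg_distrib]
          refine Finset.sum_congr rfl fun β _ => ?_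
          rw [h.anti β (a, 0) x, add_comm]
          ring
        rw [g7, ← g5]
        ring
      rw [g6, zero_smul]
    have g5 : ∀ x z, N ≤ x.2 → g x z = 0 := by
      intro x z hx
      rw [hg]
      simp only
      rw [h.Sbig α x z hx, h.Sbig' α z x hx]
      have : ∑ β, lam α β (dgx p δ x + dgx p δ z) * ρ β x z = 0 :=
        Finset.sum_eq_zero fun β _ => by rw [h.ρbig β x z hx, mul_zero]
      rw [this, sub_self, sub_self, zero_smul]
    have g6 : ∀ x z, N ≤ z.2 → g x z = 0 := by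
      intro x z hz
      rw [hg]
      simp only
      rw [h.Sbig α z x hz, h.Sbig' α x z hz]
      have : ∑ β, lam α β (dgx p δ x + dgx p δ z) * ρ β x z = 0 :=
        Finset.sum_eq_zero fun β _ => by rw [h.ρbig' β x z hz, mul_zero]
      rw [this, sub_self, sub_self, zero_smul]
    have g7 : ∀ x, ∑ z ∈ XN ι N, g x (shx z) = ∑ z ∈ XN ι N, g x z := by
      intro x
      have g8 := sum_shx N (g x) fun a => g6 x (a, N) le_rfl
      rwa [Finset.sum_congr rfl fun a _ => g4 x a, Finset.sum_const_zero, add_zero] at g8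
    have g8 := sum_shx N (fun x => ∑ z ∈ XN ι N, g x z) fun a =>
      Finset.sum_eq_zero fun z _ => g5 (a, N) z le_rfl
    rw [Finset.sum_congr rfl fun a _ => Finset.sum_eq_zero fun z _ => g3 a z,
      Finset.sum_const_zero, add_zero] at g8
    rw [← g8]
    refine Finset.sum_congr rfl fun x _ => ?_
    rw [← g7]
    exact Finset.sum_congr rfl fun z _ => g2 x z
  rw [e1, f1, f2, g1, add_assoc]
  congr 1
  rw [← Finset.sum_add_distrib]
  refine Finset.sum_congr rfl fun x _ => ?_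
  rw [← Finset.sum_add_distrib]
  refine Finset.sum_congr rfl fun z _ => ?_
  rw [← add_smul]
  congr 1
  ring

/-- the tensors vanish -/
theorem tt_zero (hF : Function.Injective F) (hN : NoSys F pr) (α : κ) : tt F y N m ρ α = 0 := by
  classical
  set D : Finset A := (XN ι N).image (dgx p δ) ∪
    ((XN ι N) ×ˢ C).image (fun q => q.2 - dgx p δ q.1) with hD
  refine hN.tensors hF (tt F y N m ρ) D (fun β => ?_) α
  rw [h.FF_tt (D := D) (fun x hx => Finset.mem_union_left _ (Finset.mem_image_of_mem _ hx))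
    (fun x hx c hc => Finset.mem_union_right _ (Finset.mem_image.2 ⟨(x, c),
      Finset.mem_product.2 ⟨hx, hc⟩, rfl⟩)) β]
  refine sum_mem fun β' _ => sum_mem fun c _ => Submodule.smul_mem _ _ ?_
  rw [prT, LinearMap.sum_apply]
  exact sum_mem fun d hd => Submodule.subset_span ⟨β', d, hd, c - d, rfl⟩

/-- **The tensor core.** -/
theorem main (hF : Function.Injective F) (hN : NoSys F pr) : ∃ g : κ → ι × ℕ → ι × ℕ → k,
    (∀ α x z, N ≤ x.2 ∨ N ≤ z.2 → g α x z = 0) ∧
    (∀ α x, m α x = ∑ z ∈ XN ι N, g α x z • Yx F y z) ∧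
    ∀ α x z, g α x z - g α z x + ρ α x z = 0 := by
  classical
  -- dual functionals
  have hξ : ∀ x : ι × ℕ, ∃ ξ : V →ₗ[k] k, ∀ z, ξ (Yx F y z) = if z = x then 1 else 0 := by
    intro x
    obtain ⟨g, hg⟩ := LinearMap.exists_extend
      ((Basis.span h.ind).constr k (fun z : ι × ℕ => if z = x then (1 : k) else 0))
    refine ⟨g, fun z => ?_⟩
    have h1 : Yx F y z = (Submodule.subtype _) (Basis.span h.ind z) := by
      simp [Basis.span_apply]
    rw [h1, ← LinearMap.comp_apply, hg, Basis.constr_basis]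
  choose ξ hξ using hξ
  set g : κ → ι × ℕ → ι × ℕ → k := fun α x z =>
    if x.2 < N ∧ z.2 < N then ξ x (m α z) + ρ α z x else 0 with hg
  have h1 : ∀ α x, x ∈ XN ι N → m α x = ∑ z ∈ XN ι N, g α x z • Yx F y z := by
    intro α x hx
    have h2 := congrArg (slice (ξ x)) (h.tt_zero hF hN α)
    rw [tt, map_add, map_sum, map_sum, map_zero] at h2
    have h3 : ∑ z ∈ XN ι N, slice (ξ x) (alt (Yx F y z) (m α z)) =
        (∑ z ∈ XN ι N, ξ x (m α z) • Yx F y z) - m α x := by
      have h4 : ∀ z ∈ XN ι N, slice (ξ x) (alt (Yx F y z) (m α z)) =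
          ξ x (m α z) • Yx F y z - if z = x then m α z else 0 := by
        intro z _
        rw [alt, map_sub, slice_tmul, slice_tmul, hξ]
        split_ifs
        · rw [one_smul]
        · rw [zero_smul]
      rw [Finset.sum_congr rfl h4, Finset.sum_sub_distrib, Finset.sum_ite_eq' (XN ι N) x,
        if_pos hx]
    have h4 : ∑ z ∈ XN ι N, slice (ξ x) (∑ z' ∈ XN ι N, ρ α z z' •
        (Yx F y z ⊗ₜ[k] Yx F y z')) = ∑ z ∈ XN ι N, ρ α z x • Yx F y z := by
      refine Finset.sum_congr rfl fun z _ => ?_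
      rw [map_sum, Finset.sum_eq_single_of_mem x hx]
      · rw [map_smul, slice_tmul, hξ, if_pos rfl, one_smul]
      · intro z' _ hz'
        rw [map_smul, slice_tmul, hξ, if_neg hz', zero_smul, smul_zero]
    rw [h3, h4] at h2
    have h5 : m α x = (∑ z ∈ XN ι N, ξ x (m α z) • Yx F y z) +
        ∑ z ∈ XN ι N, ρ α z x • Yx F y z := by
      rw [← sub_eq_zero, ← neg_eq_zero, ← h2]
      abel
    rw [h5, ← Finset.sum_add_distrib]
    refine Finset.sum_congr rfl fun z hz => ?_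
    rw [← add_smul, hg]
    simp only
    rw [if_pos ⟨mem_XN.1 hx, mem_XN.1 hz⟩]
  refine ⟨g, fun α x z hxz => ?_, fun α x => ?_, fun α x z => ?_⟩
  · rw [hg]
    exact if_neg (fun h2 => by rcases hxz with h3 | h3 <;> omega)
  · by_cases hx : x ∈ XN ι N
    · exact h1 α x hx
    · have h2 : N ≤ x.2 := not_lt.1 fun h3 => hx (mem_XN.2 h3)
      rw [h.mbig α x h2]
      refine (Finset.sum_eq_zero fun z _ => ?_).symm
      rw [hg]
      simp only
      rw [if_neg (fun h3 => by omega), zero_smul]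
  · by_cases hx : x.2 < N
    · by_cases hz : z.2 < N
      · have h2 : ξ x (m α z) = g α z x := by
          rw [h1 α z (mem_XN.2 hz), map_sum, Finset.sum_eq_single_of_mem x (mem_XN.2 hx)]
          · rw [map_smul, hξ, if_pos rfl, smul_eq_mul, mul_one]
          · intro z' _ hz'
            rw [map_smul, hξ, if_neg hz', smul_zero]
        have h3 : g α x z = ξ x (m α z) + ρ α z x := if_pos ⟨hx, hz⟩
        rw [h3, h2, h.anti α x z]
        ring
      · have h2 : g α x z = 0 := if_neg (fun h3 => hz h3.2)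
        have h3 : g α z x = 0 := if_neg (fun h3 => hz h3.1)
        rw [h2, h3, h.ρbig' α x z (not_lt.1 hz)]
        ring
    · have h2 : g α x z = 0 := if_neg (fun h3 => hx h3.1)
      have h3 : g α z x = 0 := if_neg (fun h3 => hx h3.2)
      rw [h2, h3, h.ρbig α x z (not_lt.1 hx)]
      ring

end Cor

end Pool.Agent.TWIV
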