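import Pool.Agent.Lib.TWIV.Step4

/-!
# TANK W, leaf (IV): the degree induction

* `Sy.derived`: the family of the derivatives `D_J x_j`, `J ≥ 1`, is a system of lower degree;
* `deg_ind`: the degree induction;
* `Sy.bdd`: approximants of bounded degree;
* `deg_ind'`: the degree induction, without a bound of the degree.
-/

set_option autoImplicit false
set_option linter.unusedSectionVars false

open Polynomial

namespace Pool.Agent.TWIV

open Pool.Agent.H15JM (RVal)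
open Pool.Agent.D2 (Ctx0)
open Pool.Agent.TWM Pool.Agent.TWC

universe u

variable {k Ω : Type u} [Field k] [Field Ω] [Algebra k Ω] {v : RVal Ω} [hc : Fact (Ctx0 k v)]
  {B : IntermediateField k Ω} {z : Ω} {𝒜 : Submodule k (Module.End k Ω)}
  (p : ℕ) [Fact p.Prime] [CharP k p] [CharP Ω p] [PerfectRing k p] [IsAlgClosed Ω]

/-- A constant sequence of polynomials splits. -/
theorem Spl.of_deg_zero {x : ℕ → Polynomial Ω} (hx : PC v B z x) (h : ∀ i, (x i).natDegree = 0) :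
    Spl v B z x 0 (fun i => (x i).coeff 0) := by
  have h1 : ∀ i, x i = Polynomial.C ((x i).coeff 0) := fun i => eq_C_of_natDegree_eq_zero (h i)
  refine ⟨zero_mem _, ⟨fun i => hx.mem i 0, fun ε hε => ?_⟩, Nul.zero.congr fun i => ?_⟩
  · obtain ⟨N, hN⟩ := hx.cau ε hε
    refine ⟨N, fun m n hm hn => ?_⟩
    have h2 := hN m n hm hn
    rw [eval_sub, h1 m, h1 n, eval_C, eval_C] at h2
    exact h2
  · rw [eval_zero, sub_zero]
    conv_rhs => rw [h1 i]
    rw [eval_C, coeff_C_zero, sub_self]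

theorem Spl.zero' : Spl v B z (fun _ => 0) 0 (fun _ => 0) :=
  ⟨zero_mem _, Cau.const (zero_mem B), Nul.zero.congr fun i => by simp⟩

theorem PC.hasse (hz : TL v B z 0) {x : ℕ → Polynomial Ω} (hx : PC v B z x) (J : ℕ) :
    PC v B z fun i => hasseDeriv J (x i) where
  mem i := hasse_mem_PI (hx.mem i) _
  cau ε hε := by
    obtain ⟨N, hN⟩ := hx.cau ε hε
    refine ⟨N, fun m n hm hn => ?_⟩
    rw [← map_sub]
    exact hasse_ge hz (sub_mem (hx.mem m) (hx.mem n)) (hN m n hm hn) J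

theorem natDegree_hasse (J : ℕ) (f : Polynomial Ω) :
    (hasseDeriv J f).natDegree ≤ f.natDegree - J := natDegree_hasseDeriv_le f J

/-- The family of the derivatives. -/
theorem Sy.derived (hA : OpA v 𝒜) (hS : Stb 𝒜 B z) (hz : TL v B z 0) {ι : Type} [Fintype ι]
    {x : ι → ℕ → Polynomial Ω} {φ : ι → ι → Module.End k Ω} {f : ι → Polynomial Ω}
    (R : Sy p v 𝒜 B z x φ f) {D : ℕ} (hD : ∀ j i, (x j i).natDegree ≤ D + 1) :
    Sy p v 𝒜 B z (ι := ι × Fin (D + 1))
      (fun q i => hasseDeriv ((q.2 : ℕ) + 1) (x q.1 i))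
      (fun q q' => if (q'.2 : ℕ) + 1 = p * ((q.2 : ℕ) + 1) then
        cj (z ^ (p * ((q.2 : ℕ) + 1))) (φ q.1 q'.1) else 0)
      (fun q => hasseDeriv (p * ((q.2 : ℕ) + 1)) (f q.1)) where
  pc q := PC.hasse hz (R.pc q.1) _
  opr q q' := by
    split_ifs
    exacts [hS.pow _ (R.opr q.1 q'.1), zero_mem _]
  mem q := hasse_mem_PI (R.mem q.1) _
  rel q := by
    obtain ⟨j, J⟩ := q
    have hp : p.Prime := Fact.out
    refine (R.hasse p hA hS hz ((J : ℕ) + 1) j).congr fun i => ?_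
    dsimp only
    congr 2
    rw [Fintype.sum_prod_type]
    refine Finset.sum_congr rfl fun l _ => ?_
    dsimp only
    by_cases hP : p * ((J : ℕ) + 1) ≤ D + 1
    · have hpos : 0 < p * ((J : ℕ) + 1) := Nat.mul_pos hp.pos (Nat.succ_pos _)
      rw [Finset.sum_eq_single (⟨p * ((J : ℕ) + 1) - 1, by omega⟩ : Fin (D + 1))]
      · dsimp only
        rw [Nat.sub_add_cancel hpos, if_pos rfl]
      · intro J' _ hJ'
        rw [if_neg (fun h => hJ' (Fin.ext (by dsimp only; omega))), LinearMap.zero_apply]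
      · intro h
        exact absurd (Finset.mem_univ _) h
    · rw [hasseDeriv_eq_zero_of_lt_natDegree _ _ (lt_of_le_of_lt (hD l i) (not_le.1 hP)), eval_zero,
        map_zero]
      symm
      refine Finset.sum_eq_zero fun J' _ => ?_
      rw [if_neg (fun h => hP (by have := J'.2; omega)), LinearMap.zero_apply]

/-- **The degree induction.** -/
theorem deg_ind (hA : OpA v 𝒜) (hS : Stb 𝒜 B z) (hz : TL v B z 0)
    (K : ∀ (ι : Type) [Fintype ι] (x : ι → ℕ → Polynomial Ω) (φ : ι → ι → Module.End k Ω)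
      (f : ι → Polynomial Ω), Sy p v 𝒜 B z x φ f → ∀ D : ℕ, (∀ j i, (x j i).natDegree ≤ D) →
      (∀ j c, ∃ b m, Spl v B z (fun i => hasseDeriv (p ^ c) (x j i)) b m) →
      ∀ j, ∃ b m, Spl v B z (x j) b m) (D : ℕ) :
    ∀ (ι : Type) [Fintype ι] (x : ι → ℕ → Polynomial Ω) (φ : ι → ι → Module.End k Ω)
      (f : ι → Polynomial Ω), Sy p v 𝒜 B z x φ f → (∀ j i, (x j i).natDegree ≤ D) →
      ∀ j, ∃ b m, Spl v B z (x j) b m := by
  have hp : p.Prime := Fact.out
  induction D with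
  | zero =>
    intro ι _ x φ f R hD j
    refine ⟨0, _, Spl.of_deg_zero (R.pc j) fun i => Nat.le_zero.1 (hD j i)⟩
  | succ D ih =>
    intro ι _ x φ f R hD
    refine K ι x φ f R (D + 1) hD fun j c => ?_
    by_cases hcD : p ^ c ≤ D + 1
    · have hpos : 0 < p ^ c := pow_pos hp.pos c
      obtain ⟨b, m, h1⟩ := ih (ι × Fin (D + 1)) _ _ _ (R.derived p hA hS hz hD)
        (fun q i => (natDegree_hasse _ _).trans (by have := hD q.1 i; omega))
        (j, ⟨p ^ c - 1, by omega⟩)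
      dsimp only at h1
      rw [Nat.sub_add_cancel hpos] at h1
      exact ⟨b, m, h1⟩
    · refine ⟨0, fun _ => 0, ?_⟩
      have h1 : (fun i => hasseDeriv (p ^ c) (x j i)) = fun _ => 0 := funext fun i =>
        hasseDeriv_eq_zero_of_lt_natDegree _ _ (lt_of_le_of_lt (hD j i) (not_le.1 hcD))
      rw [h1]
      exact Spl.zero'

/-- Approximants of bounded degree. -/
theorem Sy.bdd (hA : OpA v 𝒜) (hS : Stb 𝒜 B z) (hz : TL v B z 0) {ι : Type} [Fintype ι]
    {x : ι → ℕ → Polynomial Ω} {φ : ι → ι → Module.End k Ω} {f : ι → Polynomial Ω}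
    (R : Sy p v 𝒜 B z x φ f) : ∃ (D : ℕ) (y : ι → ℕ → Polynomial Ω), Sy p v 𝒜 B z y φ f ∧
      (∀ j i, (y j i).natDegree ≤ D) ∧ ∀ j, Nul v fun i => (x j i - y j i).eval z := by
  have hz0 := TL.nez hz
  have h1 : Sys p v B z x 1 (fun _ j l => gcf z (φ j l)) f :=
    ⟨R.pc, fun _ _ j l => gcf_pop hA hS hz0 (R.opr j l), R.mem, fun j => (R.rel j).congr fun i => by
      simp only [Finset.range_one, Finset.sum_singleton, pow_zero, pow_one, gcf_eval hz0]⟩
  obtain ⟨D, y, h2, h3, h4⟩ := Sys.bdd' p hz h1 le_rfl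
  refine ⟨D, y, ⟨h2.pc, R.opr, h2.mem, fun j => (h2.rel j).congr fun i => ?_⟩, h3, h4⟩
  simp only [Finset.range_one, Finset.sum_singleton, pow_zero, pow_one, gcf_eval hz0]

/-- **The degree induction**, without a bound of the degree. -/
theorem deg_ind' (hA : OpA v 𝒜) (hS : Stb 𝒜 B z) (hz : TL v B z 0)
    (K : ∀ (ι : Type) [Fintype ι] (x : ι → ℕ → Polynomial Ω) (φ : ι → ι → Module.End k Ω)
      (f : ι → Polynomial Ω), Sy p v 𝒜 B z x φ f → ∀ D : ℕ, (∀ j i, (x j i).natDegree ≤ D) →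
      (∀ j c, ∃ b m, Spl v B z (fun i => hasseDeriv (p ^ c) (x j i)) b m) →
      ∀ j, ∃ b m, Spl v B z (x j) b m) {ι : Type} [Fintype ι]
    {x : ι → ℕ → Polynomial Ω} {φ : ι → ι → Module.End k Ω} {f : ι → Polynomial Ω}
    (R : Sy p v 𝒜 B z x φ f) (j : ι) : ∃ b m, Spl v B z (x j) b m := by
  obtain ⟨D, y, h1, h2, h3⟩ := R.bdd p hA hS hz
  obtain ⟨b, m, h4⟩ := deg_ind p hA hS hz K D ι y φ f h1 h2 j
  refine ⟨b, m, h4.mem, h4.cau, (h4.nul.add (h3 j)).congr fun i => ?_⟩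
  rw [eval_sub]
  ring

end Pool.Agent.TWIV
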