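import Mathlib

/-!
# TANK W, leaf (IV), shape (1,2)': the algebra of secs. 2 and 3 of b525bf_W_TAME_12prime_h28

`V` is a graded `k{F}`-module (`GM`).
* `GM.homog_of_op` (sec. 2): if `V` has a homogeneous free family and `B (F) y` is homogeneous of
  degree `d` with `B 0 ≠ 0`, then `y` is homogeneous of degree `d`.
* `GM.P_quot` (sec. 3): property (P) passes to the quotient by a homogeneous `y`, if the case
  `F q - q = F x + r₀ y` is known.
-/

set_option autoImplicit false

open Polynomial Finset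

namespace Pool.Agent.TWIV.H28

/-- A `k`-module with a `p`-linear map `F` and a grading (projections `pr c`) such that
`F (V_c) ⊆ V_(p c)`. -/
structure GM (k : Type*) [Field k] (p : ℕ) (A V : Type*) [AddCommGroup A] [AddCommGroup V]
    [Module k V] where
  F : V →+ V
  F_smul : ∀ (a : k) (m : V), F (a • m) = a ^ p • F m
  pr : A → V →ₗ[k] V
  pr_same : ∀ c m, pr c (pr c m) = pr c m
  pr_ne : ∀ c c' m, c ≠ c' → pr c (pr c' m) = 0
  dec : ∀ m, ∃ S : Finset A, ∑ c ∈ S, pr c m = m
  pr_F : ∀ c m, pr (p • c) (F (pr c m)) = F (pr c m)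

namespace GM

variable {k : Type*} [Field k] {p : ℕ} {A V : Type*} [AddCommGroup A] [AddCommGroup V]
  [Module k V] (G : GM k p A V)

/-- `∑ P_j F^j v` -/
noncomputable def op (P : k[X]) (v : V) : V := P.sum fun j a => a • G.F^[j] v

theorem op_range (P : k[X]) (v : V) {N : ℕ} (h : P.natDegree < N) :
    G.op P v = ∑ j ∈ range N, P.coeff j • G.F^[j] v := by
  unfold op
  exact P.sum_over_range' (f := fun j a => a • G.F^[j] v) (fun j => zero_smul k _) N h

theorem op_zero (v : V) : G.op 0 v = 0 := by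
  simp [op]

theorem op_C (a : k) (v : V) : G.op (C a) v = a • v := by
  rw [G.op_range (C a) v (N := 1) (by rw [natDegree_C]; exact Nat.one_pos)]
  simp

theorem op_add (P Q : k[X]) (v : V) : G.op (P + Q) v = G.op P v + G.op Q v := by
  have h1 : P.natDegree < max P.natDegree Q.natDegree + 1 :=
    Nat.lt_succ_of_le (le_max_left _ _)
  have h2 : Q.natDegree < max P.natDegree Q.natDegree + 1 :=
    Nat.lt_succ_of_le (le_max_right _ _)
  have h3 : (P + Q).natDegree < max P.natDegree Q.natDegree + 1 :=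
    Nat.lt_succ_of_le (natDegree_add_le _ _)
  rw [G.op_range _ v h1, G.op_range _ v h2, G.op_range _ v h3, ← Finset.sum_add_distrib]
  exact Finset.sum_congr rfl fun j _ => by rw [coeff_add, add_smul]

theorem F_iter_smul (j : ℕ) (a : k) (m : V) : G.F^[j] (a • m) = a ^ p ^ j • G.F^[j] m := by
  induction j generalizing a m with
  | zero => simp
  | succ j ih =>
    rw [Function.iterate_succ_apply, G.F_smul, ih, Function.iterate_succ_apply, ← pow_mul,
      pow_succ, mul_comm]

theorem F_iter_add (j : ℕ) (m m' : V) : G.F^[j] (m + m') = G.F^[j] m + G.F^[j] m' := by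
  induction j generalizing m m' with
  | zero => rfl
  | succ j ih => rw [Function.iterate_succ_apply, map_add, ih, Function.iterate_succ_apply,
      Function.iterate_succ_apply]

theorem F_iter_sum {ι : Type*} (S : Finset ι) (f : ι → V) (j : ℕ) :
    G.F^[j] (∑ i ∈ S, f i) = ∑ i ∈ S, G.F^[j] (f i) := by
  classical
  have h0 : G.F^[j] (0 : V) = 0 := by
    have := G.F_iter_smul j 0 0
    induction j with
    | zero => rfl
    | succ j ih =>
      rw [Function.iterate_succ_apply, map_zero]
      exact ih (G.F_iter_smul j 0 0)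
  induction S using Finset.induction_on with
  | empty => simp only [Finset.sum_empty]; exact h0
  | insert a S ha ih => rw [Finset.sum_insert ha, Finset.sum_insert ha, G.F_iter_add, ih]

/-- homogeneous of degree `c` -/
def Hom (c : A) (v : V) : Prop := G.pr c v = v

variable {G}

theorem Hom.zero {c : A} : G.Hom c 0 := map_zero _

theorem Hom.add {c : A} {v w : V} (h : G.Hom c v) (h' : G.Hom c w) : G.Hom c (v + w) := by
  unfold Hom at *; rw [map_add, h, h']

theorem Hom.sub {c : A} {v w : V} (h : G.Hom c v) (h' : G.Hom c w) : G.Hom c (v - w) := by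
  unfold Hom at *; rw [map_sub, h, h']

theorem Hom.smul {c : A} {v : V} (h : G.Hom c v) (a : k) : G.Hom c (a • v) := by
  unfold Hom at *; rw [map_smul, h]

theorem Hom.F {c : A} {v : V} (h : G.Hom c v) : G.Hom (p • c) (G.F v) := by
  unfold Hom at *; rw [← h, G.pr_F]

theorem Hom.sum {ι : Type*} {c : A} {S : Finset ι} {f : ι → V} (h : ∀ i ∈ S, G.Hom c (f i)) :
    G.Hom c (∑ i ∈ S, f i) := by
  unfold Hom at *
  rw [map_sum]
  exact Finset.sum_congr rfl h

theorem Hom.iter {c : A} {v : V} (h : G.Hom c v) (j : ℕ) : G.Hom (p ^ j • c) (G.F^[j] v) := by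
  induction j with
  | zero => simpa using h
  | succ j ih =>
    rw [Function.iterate_succ_apply', pow_succ', mul_smul]
    exact ih.F

theorem Hom.pr_ne {c c' : A} {v : V} (h : G.Hom c v) (hc : c' ≠ c) : G.pr c' v = 0 := by
  rw [← h, G.pr_ne c' c v hc]

variable (G)

/-- keep the coefficients with `p ^ j c = d` -/
noncomputable def filt (p : ℕ) (c d : A) (P : k[X]) : k[X] := by
  classical
  exact ∑ j ∈ range (P.natDegree + 1), if p ^ j • c = d then C (P.coeff j) * X ^ j else 0

theorem coeff_filt (c d : A) (P : k[X]) (j : ℕ) [Decidable (p ^ j • c = d)] :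
    (filt p c d P).coeff j = if p ^ j • c = d then P.coeff j else 0 := by
  classical
  unfold filt
  rw [finsetSum_coeff]
  rw [Finset.sum_eq_single j]
  · by_cases h : p ^ j • c = d
    · rw [if_pos h, if_pos h, coeff_C_mul, coeff_X_pow, if_pos rfl, mul_one]
    · rw [if_neg h, if_neg h, coeff_zero]
  · intro i _ hi
    split_ifs
    · rw [coeff_C_mul, coeff_X_pow, if_neg (Ne.symm hi), mul_zero]
    · rw [coeff_zero]
  · intro hj
    rw [Finset.mem_range, not_lt] at hj
    have h0 : P.coeff j = 0 := coeff_eq_zero_of_natDegree_lt (by omega)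
    rw [h0]
    split_ifs <;> simp

theorem natDegree_filt (c d : A) (P : k[X]) : (filt p c d P).natDegree ≤ P.natDegree := by
  classical
  rw [natDegree_le_iff_coeff_eq_zero]
  intro j hj
  rw [coeff_filt, coeff_eq_zero_of_natDegree_lt hj]
  split_ifs <;> rfl

/-- the component of `P (F) y`, `y` homogeneous -/
theorem pr_op {c : A} {y : V} (hy : G.Hom c y) (d : A) (P : k[X]) :
    G.pr d (G.op P y) = G.op (filt p c d P) y := by
  classical
  have h1 : P.natDegree < P.natDegree + 1 := Nat.lt_succ_self _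
  rw [G.op_range P y h1, G.op_range (filt p c d P) y
    (lt_of_le_of_lt (natDegree_filt c d P) h1), map_sum]
  refine Finset.sum_congr rfl fun j _ => ?_
  rw [coeff_filt, map_smul]
  by_cases h : p ^ j • c = d
  · rw [if_pos h, ← h, hy.iter j]
  · rw [if_neg h, (hy.iter j).pr_ne (fun h' => h h'.symm), smul_zero, zero_smul]

/-! ### Section 3 -/

theorem op_mem {W : Submodule k V} (hWF : ∀ w ∈ W, G.F w ∈ W) {y : V} (hy : y ∈ W) (P : k[X]) :
    G.op P y ∈ W := by
  have h1 : ∀ j, G.F^[j] y ∈ W := by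
    intro j
    induction j with
    | zero => exact hy
    | succ j ih => rw [Function.iterate_succ_apply']; exact hWF _ ih
  rw [G.op_range P y (Nat.lt_succ_self _)]
  exact W.sum_mem fun j _ => W.smul_mem _ (h1 j)

/-- (P) passes to the quotient of `W` by a homogeneous element. -/
theorem P_quot_on [ExpChar k p] [PerfectRing k p] {W : Submodule k V} (hWF : ∀ w ∈ W, G.F w ∈ W)
    {y : V} {c : A} (hy : G.Hom c y) (hyW : y ∈ W)
    (hP : ∀ q ∈ W, ∀ x ∈ W, G.Hom 0 q → (∀ c', (c' = 0 ∨ p • c' ≠ 0) → G.pr c' x = 0) →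
      G.F q - q = G.F x → q = 0)
    (hD : c = 0 → ∀ q ∈ W, ∀ x ∈ W, ∀ r₀ : k, r₀ ≠ 0 → G.Hom 0 q →
      (∀ c', (c' = 0 ∨ p • c' ≠ 0) → G.pr c' x = 0) →
      G.F q - q = G.F x + r₀ • y → ∃ P : k[X], q = G.op P y)
    {q x : V} (hqW : q ∈ W) (hxW : x ∈ W) (hq : G.Hom 0 q)
    (hx : ∀ c', (c' = 0 ∨ p • c' ≠ 0) → G.pr c' x = 0)
    {P : k[X]} (h : G.F q - q - G.F x = G.op P y) : ∃ P' : k[X], q = G.op P' y := by
  classical
  -- `F x` is of degree `0`
  have hFx : ∀ x : V, (∀ c', (c' = 0 ∨ p • c' ≠ 0) → G.pr c' x = 0) → G.Hom 0 (G.F x) := by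
    intro x hx
    obtain ⟨S, hS⟩ := G.dec x
    rw [← hS, map_sum]
    refine Hom.sum fun c' _ => ?_
    by_cases h1 : c' = 0 ∨ p • c' ≠ 0
    · rw [hx c' h1, map_zero]; exact Hom.zero
    · push Not at h1
      have h2 : G.Hom c' (G.pr c' x) := G.pr_same c' x
      have := h2.F
      rwa [h1.2] at this
  suffices key : ∀ (n : ℕ) (P : k[X]), P.natDegree ≤ n → (∀ j, P.coeff j ≠ 0 → p ^ j • c = 0) →
      ∀ q ∈ W, ∀ x ∈ W, G.Hom 0 q → (∀ c', (c' = 0 ∨ p • c' ≠ 0) → G.pr c' x = 0) →
      G.F q - q - G.F x = G.op P y → ∃ P' : k[X], q = G.op P' y by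
    have h1 : G.Hom 0 (G.F q - q - G.F x) := by
      have h2 := hq.F
      rw [smul_zero] at h2
      exact (h2.sub hq).sub (hFx x hx)
    have h3 : G.op P y = G.op (filt p c 0 P) y := by
      rw [← G.pr_op hy, ← h, h1]
    refine key P.natDegree (filt p c 0 P) (natDegree_filt c 0 P) (fun j hj => ?_) q hqW x hxW hq hx
      (h.trans h3)
    rw [coeff_filt] at hj
    by_contra h4
    rw [if_neg h4] at hj
    exact hj rfl
  intro n
  induction n with
  | zero =>
    intro P hPn hPc q hqW x hxW hq hx h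
    obtain ⟨r₀, hr⟩ : ∃ r₀, P = C r₀ := ⟨_, eq_C_of_natDegree_le_zero hPn⟩
    rw [hr, G.op_C] at h
    by_cases h0 : r₀ = 0
    · rw [h0, zero_smul, sub_eq_zero] at h
      exact ⟨0, by rw [G.op_zero]; exact hP q hqW x hxW hq hx h⟩
    · have hc : c = 0 := by
        have := hPc 0 (by rw [hr, coeff_C_zero]; exact h0)
        simpa using this
      refine hD hc q hqW x hxW r₀ h0 hq hx ?_
      rw [← h]; abel
  | succ n ih =>
    intro P hPn hPc q hqW x hxW hq hx h
    -- `P = P₀ + F P'`
    set P' : k[X] := P.divX.map ((frobeniusEquiv k p).symm : k →+* k) with hP'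
    have hcoef : ∀ j, (P'.coeff j) ^ p = P.coeff (j + 1) := by
      intro j
      rw [hP', coeff_map, coeff_divX]
      exact frobeniusEquiv_symm_pow_p k p _
    have hdeg : P'.natDegree ≤ n := by
      rw [natDegree_le_iff_coeff_eq_zero]
      intro j hj
      have h1 : P.coeff (j + 1) = 0 := coeff_eq_zero_of_natDegree_lt (by omega)
      have h2 := hcoef j
      rw [h1] at h2
      exact pow_eq_zero_iff (expChar_ne_zero k p) |>.1 h2
    have hop : G.op P y = P.coeff 0 • y + G.F (G.op P' y) := by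
      rw [G.op_range P y (N := n + 1 + 1) (by omega), Finset.sum_range_succ',
        G.op_range P' y (N := n + 1) (by omega), map_sum, add_comm]
      congr 1
      refine Finset.sum_congr rfl fun j _ => ?_
      rw [G.F_smul, hcoef, Function.iterate_succ_apply']
    -- components of `P' (F) y`
    set s : V := G.op (filt p c 0 P') y with hs
    set t : V := G.op P' y - s with ht
    have hsW : s ∈ W := G.op_mem hWF hyW _
    have htW : t ∈ W := W.sub_mem (G.op_mem hWF hyW _) hsW
    have hs0 : G.Hom 0 s := by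
      rw [hs, ← G.pr_op hy]
      exact G.pr_same _ _
    have hstep : ∀ j, P'.coeff j ≠ 0 → p ^ (j + 1) • c = 0 := by
      intro j hj
      refine hPc (j + 1) ?_
      rw [← hcoef j]
      exact pow_ne_zero p hj
    have htc : ∀ c', (c' = 0 ∨ p • c' ≠ 0) → G.pr c' t = 0 := by
      intro c' hc'
      rw [ht, map_sub]
      rcases hc' with h1 | h1
      · rw [h1, hs0, hs, G.pr_op hy, sub_self]
      · have hne : c' ≠ 0 := by
          rintro rfl
          exact h1 (smul_zero _)
        rw [hs0.pr_ne hne, sub_zero, G.pr_op hy]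
        have h2 : filt p c c' P' = 0 := by
          ext j
          rw [coeff_filt, coeff_zero]
          split_ifs with h3
          · by_contra h4
            apply h1
            rw [← h3, ← mul_smul, ← pow_succ']
            exact hstep j h4
          · rfl
        rw [h2, G.op_zero]
    have hst : G.op P' y = s + t := by rw [ht]; abel
    -- the new relation
    have hnew : G.F (q - s) - (q - s) - G.F (x + t) = G.op (C (P.coeff 0) + filt p c 0 P') y := by
      rw [G.op_add, G.op_C, map_sub, map_add, ← hs]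
      rw [hop, hst, map_add] at h
      have h5 : G.F q - q - G.F x - (G.F s + G.F t) + s = P.coeff 0 • y + s := by
        rw [h]; abel
      rw [← h5]; abel
    have hdeg2 : (C (P.coeff 0) + filt p c 0 P').natDegree ≤ n := by
      refine (natDegree_add_le _ _).trans (max_le ?_ ((natDegree_filt c 0 P').trans hdeg))
      rw [natDegree_C]; exact Nat.zero_le _
    obtain ⟨P₁, hP₁⟩ := ih (C (P.coeff 0) + filt p c 0 P') hdeg2 (by
      intro j hj
      rw [coeff_add, coeff_filt] at hj
      by_contra h6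
      rw [if_neg h6, add_zero] at hj
      rcases Nat.eq_zero_or_pos j with h7 | h7
      · subst h7
        rw [coeff_C_zero] at hj
        exact h6 (hPc 0 hj)
      · rw [coeff_C_of_ne_zero (by omega)] at hj
        exact hj rfl) (q - s) (W.sub_mem hqW hsW) (x + t) (W.add_mem hxW htW) (hq.sub hs0)
      (fun c' hc' => by
        rw [map_add, hx c' hc', htc c' hc', add_zero]) hnew
    refine ⟨P₁ + filt p c 0 P', ?_⟩
    rw [G.op_add, ← hP₁, ← hs]
    abel

/-- (P) passes to the quotient by a homogeneous element. -/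
theorem P_quot [ExpChar k p] [PerfectRing k p] {y : V} {c : A} (hy : G.Hom c y)
    (hP : ∀ q x : V, G.Hom 0 q → (∀ c', (c' = 0 ∨ p • c' ≠ 0) → G.pr c' x = 0) →
      G.F q - q = G.F x → q = 0)
    (hD : c = 0 → ∀ (q x : V) (r₀ : k), r₀ ≠ 0 → G.Hom 0 q →
      (∀ c', (c' = 0 ∨ p • c' ≠ 0) → G.pr c' x = 0) →
      G.F q - q = G.F x + r₀ • y → ∃ P : k[X], q = G.op P y)
    {q x : V} (hq : G.Hom 0 q) (hx : ∀ c', (c' = 0 ∨ p • c' ≠ 0) → G.pr c' x = 0)
    {P : k[X]} (h : G.F q - q - G.F x = G.op P y) : ∃ P' : k[X], q = G.op P' y :=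
  G.P_quot_on (W := ⊤) (fun _ _ => trivial) hy trivial (fun q _ x _ => hP q x)
    (fun h0 q _ x _ => hD h0 q x) trivial trivial hq hx h

/-! ### Section 2 -/

/-- the coefficients of `B (F) y` in a family `F^n e_i` -/
theorem exists_coeffs [Fact p.Prime] {ι : Type*} (e : ι → V) (f : ι × ℕ →₀ k) (B : k[X]) :
    ∃ W : ι × ℕ →₀ k,
      Finsupp.linearCombination k (fun x : ι × ℕ => G.F^[x.2] (e x.1)) W =
        G.op B (Finsupp.linearCombination k (fun x : ι × ℕ => G.F^[x.2] (e x.1)) f) ∧
      ∀ (i : ι) (n : ℕ), W (i, n) = ∑ j ∈ range (B.natDegree + 1),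
        if j ≤ n then B.coeff j * f (i, n - j) ^ p ^ j else 0 := by
  classical
  set E : ι × ℕ → V := fun x => G.F^[x.2] (e x.1) with hE
  set N := B.natDegree + 1 with hN
  let sh : ℕ → ι × ℕ → ι × ℕ := fun j x => (x.1, x.2 + j)
  have hsh : ∀ j, Function.Injective (sh j) := by
    rintro j ⟨a, m⟩ ⟨b, n⟩ h
    simp only [sh, Prod.mk.injEq] at h
    ext
    · exact h.1
    · show m = n; omega
  let fp : ℕ → (ι × ℕ →₀ k) := fun j => f.mapRange (fun a => a ^ p ^ j)
    (zero_pow (pow_ne_zero _ (Fact.out : p.Prime).ne_zero))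
  refine ⟨∑ j ∈ range N, B.coeff j • Finsupp.mapDomain (sh j) (fp j), ?_, ?_⟩
  · rw [map_sum, G.op_range B _ (Nat.lt_succ_self _)]
    refine Finset.sum_congr rfl fun j _ => ?_
    rw [map_smul]
    congr 1
    rw [Finsupp.linearCombination_mapDomain]
    have e1 : (fp j).sum (fun i a => a • (E ∘ sh j) i) =
        f.sum (fun i a => a ^ p ^ j • (E ∘ sh j) i) :=
      Finsupp.sum_mapRange_index (fun _ => zero_smul k _)
    rw [Finsupp.linearCombination_apply, e1, Finsupp.linearCombination_apply]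
    unfold Finsupp.sum
    rw [G.F_iter_sum]
    refine Finset.sum_congr rfl fun x _ => ?_
    rw [G.F_iter_smul]
    show f x ^ p ^ j • G.F^[x.2 + j] (e x.1) = f x ^ p ^ j • G.F^[j] (G.F^[x.2] (e x.1))
    rw [← Function.iterate_add_apply, add_comm]
  · intro i n
    rw [Finsupp.finsetSum_apply]
    refine Finset.sum_congr rfl fun j _ => ?_
    rw [Finsupp.smul_apply, smul_eq_mul]
    split_ifs with h
    · congr 1
      have h1 : (i, n) = sh j (i, n - j) := by
        simp only [sh]
        rw [Nat.sub_add_cancel h]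
      rw [h1, Finsupp.mapDomain_apply (hsh j)]
      rfl
    · rw [Finsupp.mapDomain_of_notMem_range, mul_zero]
      rintro ⟨⟨a, m⟩, h1⟩
      simp only [sh, Prod.mk.injEq] at h1
      omega

/-- the lowest coefficient -/
theorem coeff_bot [Fact p.Prime] {ι : Type*} {f : ι × ℕ →₀ k} {B : k[X]} {i : ι} {m : ℕ}
    (h : ∀ n, n < m → f (i, n) = 0) :
    (∑ j ∈ range (B.natDegree + 1), if j ≤ m then B.coeff j * f (i, m - j) ^ p ^ j else 0) =
      B.coeff 0 * f (i, m) := by
  rw [Finset.sum_eq_single 0]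
  · rw [if_pos (Nat.zero_le _), Nat.sub_zero, pow_zero, pow_one]
  · intro j _ hj
    split_ifs with h2
    · rw [h (m - j) (by omega), zero_pow (pow_ne_zero _ (Fact.out : p.Prime).ne_zero), mul_zero]
    · rfl
  · intro h2
    exact absurd (Finset.mem_range.2 (Nat.succ_pos _)) h2

/-- the highest coefficient -/
theorem coeff_top [Fact p.Prime] {ι : Type*} {f : ι × ℕ →₀ k} {B : k[X]} {i : ι} {m : ℕ}
    (h : ∀ n, m < n → f (i, n) = 0) :
    (∑ j ∈ range (B.natDegree + 1), if j ≤ m + B.natDegree then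
      B.coeff j * f (i, m + B.natDegree - j) ^ p ^ j else 0) =
      B.leadingCoeff * f (i, m) ^ p ^ B.natDegree := by
  rw [Finset.sum_eq_single B.natDegree]
  · rw [if_pos (Nat.le_add_left _ _), Nat.add_sub_cancel]
    rfl
  · intro j hj hj'
    have hj1 : j < B.natDegree := by
      have := Finset.mem_range.1 hj
      omega
    rw [if_pos (by omega), h (m + B.natDegree - j) (by omega),
      zero_pow (pow_ne_zero _ (Fact.out : p.Prime).ne_zero), mul_zero]
  · intro h3
    exact absurd (Finset.mem_range.2 (Nat.lt_succ_self _)) h3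

/-- the largest index of a column -/
theorem exists_top {ι : Type*} (f : ι × ℕ →₀ k) {i : ι} {m : ℕ} (hm : f (i, m) ≠ 0) :
    ∃ m1, m ≤ m1 ∧ f (i, m1) ≠ 0 ∧ ∀ n, m1 < n → f (i, n) = 0 := by
  classical
  obtain ⟨M, hM⟩ : ∃ M, ∀ n, M < n → f (i, n) = 0 := by
    refine ⟨(f.support.image Prod.snd).sup id, fun n hn => ?_⟩
    by_contra h
    have h1 : n ∈ f.support.image Prod.snd :=
      Finset.mem_image.2 ⟨(i, n), Finsupp.mem_support_iff.2 h, rfl⟩
    have h2 := Finset.le_sup (f := id) h1
    simp only [id] at h2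
    omega
  have hmM : m ≤ M := by
    by_contra h
    exact hm (hM m (by omega))
  refine ⟨Nat.findGreatest (fun n => f (i, n) ≠ 0) M,
    Nat.le_findGreatest (P := fun n => f (i, n) ≠ 0) hmM hm,
    Nat.findGreatest_spec (P := fun n => f (i, n) ≠ 0) hmM hm, fun n hn => ?_⟩
  by_cases h2 : n ≤ M
  · by_contra h3
    have := Nat.le_findGreatest (P := fun n => f (i, n) ≠ 0) h2 h3
    omega
  · exact hM n (by omega)

/-- a module with a free family is torsion free -/
theorem eq_zero_of_op [Fact p.Prime] {ι : Type*} {e : ι → V}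
    (hli : LinearIndependent k (fun x : ι × ℕ => G.F^[x.2] (e x.1)))
    {y : V} (hy : y ∈ Submodule.span k (Set.range fun x : ι × ℕ => G.F^[x.2] (e x.1)))
    {B : k[X]} (hB : B ≠ 0) (h : G.op B y = 0) : y = 0 := by
  classical
  obtain ⟨f, hf⟩ := (Finsupp.mem_span_range_iff_exists_finsupp).1 hy
  have hf' : Finsupp.linearCombination k (fun x : ι × ℕ => G.F^[x.2] (e x.1)) f = y := by
    rw [Finsupp.linearCombination_apply]; exact hf
  obtain ⟨W, hW, hWc⟩ := G.exists_coeffs e f B
  rw [hf', h] at hW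
  have hW0 : W = 0 := (linearIndependent_iff.1 hli) W hW
  have hf0 : f = 0 := by
    ext ⟨i, m⟩
    by_contra hm
    obtain ⟨m1, -, h1, h2⟩ := exists_top f hm
    have h3 := hWc i (m1 + B.natDegree)
    rw [coeff_top h2, hW0] at h3
    exact mul_ne_zero (leadingCoeff_ne_zero.2 hB) (pow_ne_zero _ h1) h3.symm
  rw [← hf', hf0, map_zero]

/-- `B (F) y` homogeneous of degree `d`, `B 0 ≠ 0` and `y` in a module with a homogeneous free
family `e`: then `y` is homogeneous of degree `d`. -/
theorem homog_of_op_ns [Fact p.Prime] {ι : Type*} {e : ι → V} {δ : ι → A}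
    (he : ∀ i, G.Hom (δ i) (e i))
    (hli : LinearIndependent k (fun x : ι × ℕ => G.F^[x.2] (e x.1)))
    {y : V} (hy : y ∈ Submodule.span k (Set.range fun x : ι × ℕ => G.F^[x.2] (e x.1)))
    {B : k[X]} (hB : B.coeff 0 ≠ 0) {d : A} (hd : G.Hom d (G.op B y))
    (hns : ∀ n, 0 < n → p ^ n • d = d → d = 0) : G.Hom d y := by
  classical
  set E : ι × ℕ → V := fun x => G.F^[x.2] (e x.1) with hE
  obtain ⟨f, hf⟩ := (Finsupp.mem_span_range_iff_exists_finsupp).1 hy
  have hf' : Finsupp.linearCombination k E f = y := by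
    rw [Finsupp.linearCombination_apply]; exact hf
  have hhom : ∀ x : ι × ℕ, G.Hom (p ^ x.2 • δ x.1) (E x) := fun x => (he x.1).iter x.2
  obtain ⟨W, hWy, hWc⟩ := G.exists_coeffs e f B
  rw [← hE, hf'] at hWy
  -- the coefficients outside degree `d` vanish
  have hW0 : ∀ z : ι × ℕ, p ^ z.2 • δ z.1 ≠ d → W z = 0 := by
    intro z hz
    set W' : ι × ℕ →₀ k := W.filter (fun z => p ^ z.2 • δ z.1 ≠ d) with hW'
    have h1 : Finsupp.linearCombination k E W' = 0 := by
      have h2 : Finsupp.linearCombination k E (W.filter (fun z => p ^ z.2 • δ z.1 = d)) +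
          Finsupp.linearCombination k E W' = Finsupp.linearCombination k E W := by
        rw [← map_add]
        congr 1
        exact Finsupp.filter_add_filter_not W (fun z => p ^ z.2 • δ z.1 = d)
      have h3 : G.Hom d
          (Finsupp.linearCombination k E (W.filter (fun z => p ^ z.2 • δ z.1 = d))) := by
        rw [Finsupp.linearCombination_apply]
        unfold Finsupp.sum
        refine Hom.sum fun x hx => ?_
        have h4 : p ^ x.2 • δ x.1 = d := by
          rw [Finsupp.support_filter, Finset.mem_filter] at hx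
          exact hx.2
        have h5 := hhom x
        rw [h4] at h5
        exact h5.smul _
      have h6 : G.pr d (Finsupp.linearCombination k E W') = 0 := by
        rw [Finsupp.linearCombination_apply]
        unfold Finsupp.sum
        rw [map_sum]
        refine Finset.sum_eq_zero fun x hx => ?_
        rw [Finsupp.support_filter, Finset.mem_filter] at hx
        rw [map_smul, (hhom x).pr_ne (fun h => hx.2 h.symm), smul_zero]
      have h7 := hd
      rw [← hWy, ← h2] at h7
      unfold Hom at h7 h3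
      rw [map_add, h6, add_zero, h3] at h7
      exact (left_eq_add.1 h7)
    have h8 : W' = 0 := (linearIndependent_iff.1 hli) W' h1
    have h9 : W' z = 0 := by rw [h8]; rfl
    rwa [hW', Finsupp.filter_apply, if_pos hz] at h9
  -- all degrees are `d`
  have hB0 : B ≠ 0 := by
    rintro rfl
    exact hB (coeff_zero 0)
  have hdeg : ∀ x, f x ≠ 0 → p ^ x.2 • δ x.1 = d := by
    rintro ⟨i, m⟩ hm
    have hex : ∃ n, f (i, n) ≠ 0 := ⟨m, hm⟩
    set m0 := Nat.find hex with hm0
    have h0 : f (i, m0) ≠ 0 := Nat.find_spec hex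
    have hlt : ∀ n, n < m0 → f (i, n) = 0 := fun n hn => by
      by_contra h
      exact Nat.find_min hex hn h
    have hm0m : m0 ≤ m := Nat.find_min' hex hm
    have hdeg0 : p ^ m0 • δ i = d := by
      by_contra h
      have h1 := hW0 (i, m0) h
      rw [hWc, coeff_bot hlt] at h1
      exact mul_ne_zero hB h0 h1
    obtain ⟨m1, hmm1, h1, hgt⟩ := exists_top f hm
    have hdeg1 : p ^ (m1 + B.natDegree) • δ i = d := by
      by_contra h
      have h2 := hW0 (i, m1 + B.natDegree) h
      rw [hWc, coeff_top hgt] at h2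
      exact mul_ne_zero (leadingCoeff_ne_zero.2 hB0) (pow_ne_zero _ h1) h2
    rcases Nat.eq_or_lt_of_le hm0m with h2 | h2
    · show p ^ m • δ i = d
      rw [← h2, hdeg0]
    · -- `d = 0`
      have h3 : p ^ (m1 + B.natDegree - m0) • d = d := by
        conv_lhs => rw [← hdeg0]
        rw [← mul_smul, ← pow_add, Nat.sub_add_cancel (by omega), hdeg1]
      have h5 : d = 0 := hns _ (by omega) h3
      show p ^ m • δ i = d
      rw [← Nat.sub_add_cancel hm0m, pow_add, mul_smul, hdeg0, h5, smul_zero]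
  rw [← hf]
  unfold Finsupp.sum
  refine Hom.sum fun x hx => ?_
  have h1 := hhom x
  rw [hdeg x (Finsupp.mem_support_iff.1 hx)] at h1
  exact h1.smul _

/-- The elements of `p`-power torsion are not fixed by `p ^ m`. -/
theorem ns_of_tor {d : A} (htor : ∃ n, p ^ n • d = 0) (m : ℕ) (hm : 0 < m) (h3 : p ^ m • d = d) :
    d = 0 := by
  obtain ⟨n, hn⟩ := htor
  have h4 : ∀ t : ℕ, p ^ (t * m) • d = d := by
    intro t
    induction t with
    | zero => simp
    | succ t ih => rw [Nat.succ_mul, pow_add, mul_smul, h3, ih]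
  have h6 := h4 n
  have h7 : n ≤ n * m := Nat.le_mul_of_pos_right n hm
  rw [← Nat.sub_add_cancel h7, pow_add, mul_smul, hn, smul_zero] at h6
  exact h6.symm

/-- `B (F) y` homogeneous of degree `d`, `B 0 ≠ 0` and `y` in a module with a homogeneous free
family `e`: then `y` is homogeneous of degree `d`. -/
theorem homog_of_op [Fact p.Prime] {ι : Type*} {e : ι → V} {δ : ι → A}
    (he : ∀ i, G.Hom (δ i) (e i))
    (hli : LinearIndependent k (fun x : ι × ℕ => G.F^[x.2] (e x.1)))
    {y : V} (hy : y ∈ Submodule.span k (Set.range fun x : ι × ℕ => G.F^[x.2] (e x.1)))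
    {B : k[X]} (hB : B.coeff 0 ≠ 0) {d : A} (hd : G.Hom d (G.op B y))
    (htor : ∃ n, p ^ n • d = 0) : G.Hom d y :=
  G.homog_of_op_ns he hli hy hB hd (ns_of_tor htor)

theorem op_sum {ι : Type*} (S : Finset ι) (B : ι → k[X]) (v : V) :
    G.op (∑ i ∈ S, B i) v = ∑ i ∈ S, G.op (B i) v := by
  classical
  induction S using Finset.induction_on with
  | empty => simp only [Finset.sum_empty]; exact G.op_zero v
  | insert a S ha ih => rw [Finset.sum_insert ha, Finset.sum_insert ha, G.op_add, ih]

theorem op_neg (P : k[X]) (v : V) : G.op (-P) v = -G.op P v := by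
  have h := G.op_add P (-P) v
  rw [add_neg_cancel, G.op_zero] at h
  exact (neg_eq_of_add_eq_zero_right h.symm).symm

/-- Sec. 2: if `A₁ (F) y`, `A₁ 0 ≠ 0`, has all its components in `k{F} y`, then `y` is
homogeneous. -/
theorem homog_of_comps_ns [Fact p.Prime] {ι : Type*} {e : ι → V} {δ : ι → A}
    (he : ∀ i, G.Hom (δ i) (e i))
    (hli : LinearIndependent k (fun x : ι × ℕ => G.F^[x.2] (e x.1)))
    {y : V} (hy : y ∈ Submodule.span k (Set.range fun x : ι × ℕ => G.F^[x.2] (e x.1)))
    (hns : ∀ c m, G.pr c m ≠ 0 → ∀ n, 0 < n → p ^ n • c = c → c = 0)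
    {A₁ : k[X]} (hA : A₁.coeff 0 ≠ 0) (hc : ∀ d, ∃ B : k[X], G.pr d (G.op A₁ y) = G.op B y) :
    ∃ c, G.Hom c y := by
  classical
  by_cases hy0 : y = 0
  · exact ⟨0, by rw [hy0]; exact Hom.zero⟩
  choose B hB using hc
  obtain ⟨S, hS⟩ := G.dec (G.op A₁ y)
  have h1 : G.op (∑ d ∈ S, B d - A₁) y = 0 := by
    rw [sub_eq_add_neg, G.op_add, G.op_neg, G.op_sum, ← Finset.sum_congr rfl fun d _ => hB d, hS,
      add_neg_cancel]
  have h2 : ∑ d ∈ S, B d = A₁ := by
    by_contra h
    exact hy0 (G.eq_zero_of_op hli hy (sub_ne_zero.2 h) h1)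
  obtain ⟨d, -, hd⟩ : ∃ d ∈ S, (B d).coeff 0 ≠ 0 := by
    by_contra h
    push Not at h
    apply hA
    rw [← h2, finsetSum_coeff]
    exact Finset.sum_eq_zero h
  have hd0 : B d ≠ 0 := by
    intro h
    rw [h] at hd
    exact hd (coeff_zero 0)
  have h3 : G.pr d (G.op A₁ y) ≠ 0 := by
    rw [hB]
    intro h
    exact hy0 (G.eq_zero_of_op hli hy hd0 h)
  exact ⟨d, G.homog_of_op_ns he hli hy hd (by rw [← hB]; exact G.pr_same _ _) (hns d _ h3)⟩

/-- Sec. 2: if `A₁ (F) y`, `A₁ 0 ≠ 0`, has all its components in `k{F} y`, then `y` is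
homogeneous. -/
theorem homog_of_comps [Fact p.Prime] {ι : Type*} {e : ι → V} {δ : ι → A}
    (he : ∀ i, G.Hom (δ i) (e i))
    (hli : LinearIndependent k (fun x : ι × ℕ => G.F^[x.2] (e x.1)))
    {y : V} (hy : y ∈ Submodule.span k (Set.range fun x : ι × ℕ => G.F^[x.2] (e x.1)))
    (htor : ∀ c m, G.pr c m ≠ 0 → ∃ n, p ^ n • c = 0)
    {A₁ : k[X]} (hA : A₁.coeff 0 ≠ 0) (hc : ∀ d, ∃ B : k[X], G.pr d (G.op A₁ y) = G.op B y) :
    ∃ c, G.Hom c y :=
  G.homog_of_comps_ns he hli hy (fun c m h => ns_of_tor (htor c m h)) hA hc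

end GM

end Pool.Agent.TWIV.H28
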