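import Pool.Agent.Lib.TWIV.A2P
import Pool.Agent.Lib.TWIV.H28

/-!
# TANK W, leaf (IV): the graded module of the limits of a graded field

`W : World p v N L G M`, `T = PM v L G M`, `B = PM v A G M`, `N ≤ A ≤ L` closed.

* `W.prd hΩ g x`: the component of `x` of degree `g`, `prd_mon`, `prd_pow`, `prd_ge`, `prd_mem`;
* `W.prD hΩ c x`: the same for `c : ℝ ⧸ VG v N` (`0` if `c` is not a degree);
* `MQ v T B`: the `x ∈ T` with `Lim v B 0 x`, modulo those with `Nr v B 0 x`; `cl`: the class;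
* `W.gm`: `MQ v T B` as a `GM k p (ℝ ⧸ VG v N)`;
* `W.exists_free_fam`: homogeneous free families.
-/

set_option autoImplicit false
set_option linter.unusedSectionVars false

open Polynomial

namespace Pool.Agent.TWIV

open Pool.Agent.H15JM (RVal)
open Pool.Agent.LU1 (VPos adj)
open Pool.Agent.D2 (Ctx0)
open Pool.Agent.D2P (hen clI mem_clI)
open Pool.Agent.TWM Pool.Agent.TWC Pool.Agent.TWS Pool.Agent.TWT

universe u

variable {k Ω : Type u} [Field k] [Field Ω] [Algebra k Ω] {v : RVal Ω} [Fact (Ctx0 k v)]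
  {N L A B T : IntermediateField k Ω} {G : AddSubgroup ℝ} {M : ℝ → Ω} {p : ℕ}

namespace World

variable (W : World p v N L G M) (hΩ : CompleteV v)

/-! ### The components -/

/-- The component of degree `g`. -/
noncomputable def prd (g : ℝ) (x : Ω) : Ω := M g * W.pj hΩ 0 (M (-g) * x)

theorem prd_add {g : ℝ} (hg : g ∈ G) {x y : Ω} (hx : x ∈ PM v L G M) (hy : y ∈ PM v L G M) :
    W.prd hΩ g (x + y) = W.prd hΩ g x + W.prd hΩ g y := by
  unfold prd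
  have hm : M (-g) ∈ PM v L G M := PM.mon (G.neg_mem hg)
  rw [mul_add, (W.isPj hΩ 0).prj.add _ (mul_mem hm hx) _ (mul_mem hm hy), mul_add]

theorem prd_smul {g : ℝ} (hg : g ∈ G) (a : k) {x : Ω} (hx : x ∈ PM v L G M) :
    W.prd hΩ g (a • x) = a • W.prd hΩ g x := by
  unfold prd
  have hm : M (-g) ∈ PM v L G M := PM.mon (G.neg_mem hg)
  rw [mul_smul_comm, (W.isPj hΩ 0).prj.smul a (mul_mem hm hx), mul_smul_comm]

theorem prd_zero {g : ℝ} : W.prd hΩ g 0 = 0 := by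
  unfold prd
  rw [mul_zero, (W.isPj hΩ 0).prj.zero, mul_zero]

theorem prd_neg {g : ℝ} (hg : g ∈ G) {x : Ω} (hx : x ∈ PM v L G M) :
    W.prd hΩ g (-x) = -W.prd hΩ g x := by
  unfold prd
  have hm : M (-g) ∈ PM v L G M := PM.mon (G.neg_mem hg)
  rw [mul_neg, (W.isPj hΩ 0).prj.neg (mul_mem hm hx), mul_neg]

theorem prd_sub {g : ℝ} (hg : g ∈ G) {x y : Ω} (hx : x ∈ PM v L G M) (hy : y ∈ PM v L G M) :
    W.prd hΩ g (x - y) = W.prd hΩ g x - W.prd hΩ g y := by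
  rw [sub_eq_add_neg, W.prd_add hΩ hg hx (neg_mem hy), W.prd_neg hΩ hg hy, ← sub_eq_add_neg]

theorem prd_sum {g : ℝ} (hg : g ∈ G) {ι : Type*} (S : Finset ι) {x : ι → Ω}
    (hx : ∀ i ∈ S, x i ∈ PM v L G M) :
    W.prd hΩ g (∑ i ∈ S, x i) = ∑ i ∈ S, W.prd hΩ g (x i) := by
  classical
  induction S using Finset.induction_on with
  | empty => rw [Finset.sum_empty, Finset.sum_empty, W.prd_zero hΩ]
  | insert i S hi ih =>
    rw [Finset.sum_insert hi, Finset.sum_insert hi,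
      W.prd_add hΩ hg (hx i (Finset.mem_insert_self i S))
        (sum_mem fun j hj => hx j (Finset.mem_insert_of_mem hj)),
      ih fun j hj => hx j (Finset.mem_insert_of_mem hj)]

/-- The component of degree `g` is `M g * l`, `l ∈ L`. -/
theorem prd_form {g : ℝ} (hg : g ∈ G) {x : Ω} (hx : x ∈ PM v L G M) :
    ∃ l ∈ L, W.prd hΩ g x = M g * l :=
  ⟨_, W.pj0_memL hΩ (mul_mem (PM.mon (G.neg_mem hg)) hx), rfl⟩

theorem prd_mem (hNA : N ≤ A) (hAL : A ≤ L) (hA : Cld v A) {g : ℝ} (hg : g ∈ G) {x : Ω}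
    (hx : x ∈ PM v A G M) : W.prd hΩ g x ∈ PM v A G M :=
  mul_mem (PM.mon hg) (W.pj_mem hΩ hNA hAL hA 0 (mul_mem (PM.mon (G.neg_mem hg)) hx))

theorem prd_memT {g : ℝ} (hg : g ∈ G) {x : Ω} (hx : x ∈ PM v L G M) :
    W.prd hΩ g x ∈ PM v L G M := W.prd_mem hΩ W.NL le_rfl W.cldL hg hx

theorem prd_ge {g : ℝ} (hg : g ∈ G) {x : Ω} (hx : x ∈ PM v L G M) {b : ℝ} (h : v.Ge b x) :
    v.Ge b (W.prd hΩ g x) := by
  have h1 : v.Ge (-g) (M (-g)) := fun _ => (W.ms.val (-g) (G.neg_mem hg)).ge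
  have h2 : v.Ge g (M g) := fun _ => (W.ms.val g hg).ge
  have h3 := h2.mul ((W.isPj hΩ 0).prj.ge _ (mul_mem (PM.mon (G.neg_mem hg)) hx) _ (h1.mul h))
  refine h3.mono (le_of_eq ?_)
  ring

theorem prd_mon {g h : ℝ} (hg : g ∈ G) (hh : h ∈ G) {l : Ω} (hl : l ∈ L)
    [Decidable (g - h ∈ VG v N)] :
    W.prd hΩ g (M h * l) = if g - h ∈ VG v N then M h * l else 0 := by
  unfold prd
  have e1 : M (-g) * (M h * l) = l * M (h - g) := by
    rw [← mul_assoc, ← W.ms.mul _ (G.neg_mem hg) _ hh, mul_comm]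
    congr 2
    ring
  have hhg : h - g ∈ G := G.sub_mem hh hg
  rw [e1, W.pj0_lin hΩ hl (PM.mon hhg)]
  split_ifs with h1
  · have h2 : h - g ∈ VG v N := by
      have := (VG v N).neg_mem h1
      rwa [neg_sub] at this
    rw [W.pj0_self hΩ (W.NL (W.monΓ _ h2)), mul_comm l, ← mul_assoc, ← W.ms.mul _ hg _ hhg]
    congr 2
    ring
  · rw [W.pj0_mon hΩ hhg fun h2 => h1 ?_, mul_zero, mul_zero]
    have := (VG v N).neg_mem h2
    rwa [neg_sub] at this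

theorem prd_congr {g g' : ℝ} (hg : g ∈ G) (h : g - g' ∈ VG v N) {x : Ω} (hx : x ∈ PM v L G M) :
    W.prd hΩ g x = W.prd hΩ g' x := by
  unfold prd
  have hgg : g - g' ∈ G := W.VG_le h
  have hg' : g' ∈ G := by
    have := G.sub_mem hg hgg
    rwa [sub_sub_cancel] at this
  have e1 : M (-g') * x = M (g - g') * (M (-g) * x) := by
    rw [← mul_assoc, ← W.ms.mul _ hgg _ (G.neg_mem hg)]
    congr 2
    ring
  rw [e1, W.pj0_lin hΩ (W.NL (W.monΓ _ h)) (mul_mem (PM.mon (G.neg_mem hg)) hx), ← mul_assoc,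
    ← W.ms.mul _ hg' _ hgg]
  congr 2
  ring

theorem prd_same {g : ℝ} (hg : g ∈ G) {x : Ω} (hx : x ∈ PM v L G M) :
    W.prd hΩ g (W.prd hΩ g x) = W.prd hΩ g x := by
  classical
  obtain ⟨l, hl, h⟩ := W.prd_form hΩ hg hx
  rw [h, W.prd_mon hΩ hg hg hl, sub_self, if_pos (VG v N).zero_mem]

theorem prd_ne {g g' : ℝ} (hg : g ∈ G) (hg' : g' ∈ G) (h : g - g' ∉ VG v N) {x : Ω}
    (hx : x ∈ PM v L G M) : W.prd hΩ g (W.prd hΩ g' x) = 0 := by
  classical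
  obtain ⟨l, hl, h1⟩ := W.prd_form hΩ hg' hx
  rw [h1, W.prd_mon hΩ hg hg' hl, if_neg h]

include W in
theorem mulG {g : ℝ} (hg : g ∈ G) : (p : ℝ) * g ∈ G := by
  have := G.nsmul_mem hg p
  rwa [nsmul_eq_mul] at this

theorem prd_pow {g : ℝ} (hg : g ∈ G) {x : Ω} (hx : x ∈ PM v L G M) :
    W.prd hΩ (p * g) (W.prd hΩ g x ^ p) = W.prd hΩ g x ^ p := by
  classical
  obtain ⟨l, hl, h⟩ := W.prd_form hΩ hg hx
  have h1 := W.ms.pow hg p
  rw [h, mul_pow, ← h1, W.prd_mon hΩ (W.mulG hg) (W.mulG hg) (pow_mem hl p), sub_self,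
    if_pos (VG v N).zero_mem]

/-! ### The components of the classes of `VG v N` -/

open Classical in
/-- The component of degree `c`. -/
noncomputable def prD (c : ℝ ⧸ VG v N) (x : Ω) : Ω :=
  if h : ∃ g ∈ G, (QuotientAddGroup.mk g : ℝ ⧸ VG v N) = c then W.prd hΩ h.choose x else 0

theorem mk_eq {g g' : ℝ} :
    (QuotientAddGroup.mk g : ℝ ⧸ VG v N) = QuotientAddGroup.mk g' ↔ g - g' ∈ VG v N := by
  rw [QuotientAddGroup.eq]
  constructor
  · intro h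
    have := (VG v N).neg_mem h
    rwa [neg_add, neg_neg, ← sub_eq_add_neg] at this
  · intro h
    have := (VG v N).neg_mem h
    rwa [neg_sub, sub_eq_neg_add] at this

theorem prD_mk {g : ℝ} (hg : g ∈ G) {x : Ω} (hx : x ∈ PM v L G M) :
    W.prD hΩ (QuotientAddGroup.mk g) x = W.prd hΩ g x := by
  unfold prD
  have h : ∃ g' ∈ G, (QuotientAddGroup.mk g' : ℝ ⧸ VG v N) = QuotientAddGroup.mk g :=
    ⟨g, hg, rfl⟩
  rw [dif_pos h]
  exact W.prd_congr hΩ h.choose_spec.1 (mk_eq.1 h.choose_spec.2) hx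

theorem prD_not {c : ℝ ⧸ VG v N} (h : ¬ ∃ g ∈ G, (QuotientAddGroup.mk g : ℝ ⧸ VG v N) = c)
    (x : Ω) : W.prD hΩ c x = 0 := by
  unfold prD
  rw [dif_neg h]

/-- Each component is `0` or the one of some `g ∈ G`. -/
theorem prD_cases (c : ℝ ⧸ VG v N) :
    (∀ x, W.prD hΩ c x = 0) ∨ ∃ g ∈ G, (QuotientAddGroup.mk g : ℝ ⧸ VG v N) = c ∧
      ∀ x ∈ PM v L G M, W.prD hΩ c x = W.prd hΩ g x := by
  by_cases h : ∃ g ∈ G, (QuotientAddGroup.mk g : ℝ ⧸ VG v N) = c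
  · obtain ⟨g, hg, rfl⟩ := h
    exact Or.inr ⟨g, hg, rfl, fun x hx => W.prD_mk hΩ hg hx⟩
  · exact Or.inl fun x => W.prD_not hΩ h x

theorem prD_add (c : ℝ ⧸ VG v N) {x y : Ω} (hx : x ∈ PM v L G M) (hy : y ∈ PM v L G M) :
    W.prD hΩ c (x + y) = W.prD hΩ c x + W.prD hΩ c y := by
  rcases W.prD_cases hΩ c with h | ⟨g, hg, -, h⟩
  · rw [h, h, h, add_zero]
  · rw [h _ hx, h _ hy, h _ (add_mem hx hy), W.prd_add hΩ hg hx hy]

include W in
theorem smulT (a : k) {x : Ω} (hx : x ∈ PM v A G M) : a • x ∈ PM v A G M :=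
  (PM v A G M).smul_mem hx

theorem prD_smul (c : ℝ ⧸ VG v N) (a : k) {x : Ω} (hx : x ∈ PM v L G M) :
    W.prD hΩ c (a • x) = a • W.prD hΩ c x := by
  rcases W.prD_cases hΩ c with h | ⟨g, hg, -, h⟩
  · rw [h, h, smul_zero]
  · rw [h _ hx, h _ ((PM v L G M).smul_mem hx), W.prd_smul hΩ hg a hx]

theorem prD_zero (c : ℝ ⧸ VG v N) : W.prD hΩ c 0 = 0 := by
  rcases W.prD_cases hΩ c with h | ⟨g, hg, -, h⟩
  · rw [h]
  · rw [h _ (zero_mem _), W.prd_zero hΩ]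

theorem prD_sub (c : ℝ ⧸ VG v N) {x y : Ω} (hx : x ∈ PM v L G M) (hy : y ∈ PM v L G M) :
    W.prD hΩ c (x - y) = W.prD hΩ c x - W.prD hΩ c y := by
  rcases W.prD_cases hΩ c with h | ⟨g, hg, -, h⟩
  · rw [h, h, h, sub_zero]
  · rw [h _ hx, h _ hy, h _ (sub_mem hx hy), W.prd_sub hΩ hg hx hy]

theorem prD_sum (c : ℝ ⧸ VG v N) {ι : Type*} (S : Finset ι) {x : ι → Ω}
    (hx : ∀ i ∈ S, x i ∈ PM v L G M) :
    W.prD hΩ c (∑ i ∈ S, x i) = ∑ i ∈ S, W.prD hΩ c (x i) := by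
  rcases W.prD_cases hΩ c with h | ⟨g, hg, -, h⟩
  · rw [h, Finset.sum_eq_zero fun i _ => h _]
  · rw [h _ (sum_mem hx), W.prd_sum hΩ hg S hx]
    exact Finset.sum_congr rfl fun i hi => (h _ (hx i hi)).symm

theorem prD_mem (hNA : N ≤ A) (hAL : A ≤ L) (hA : Cld v A) (c : ℝ ⧸ VG v N) {x : Ω}
    (hx : x ∈ PM v A G M) : W.prD hΩ c x ∈ PM v A G M := by
  rcases W.prD_cases hΩ c with h | ⟨g, hg, -, h⟩
  · rw [h]
    exact zero_mem _
  · rw [h _ (PM.mono hAL hx)]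
    exact W.prd_mem hΩ hNA hAL hA hg hx

theorem prD_memT (c : ℝ ⧸ VG v N) {x : Ω} (hx : x ∈ PM v L G M) :
    W.prD hΩ c x ∈ PM v L G M := W.prD_mem hΩ W.NL le_rfl W.cldL c hx

theorem prD_ge (c : ℝ ⧸ VG v N) {x : Ω} (hx : x ∈ PM v L G M) {b : ℝ} (hb : v.Ge b x) :
    v.Ge b (W.prD hΩ c x) := by
  rcases W.prD_cases hΩ c with h | ⟨g, hg, -, h⟩
  · rw [h]
    exact RVal.Ge.zero
  · rw [h _ hx]
    exact W.prd_ge hΩ hg hx hb

theorem prD_same (c : ℝ ⧸ VG v N) {x : Ω} (hx : x ∈ PM v L G M) :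
    W.prD hΩ c (W.prD hΩ c x) = W.prD hΩ c x := by
  rcases W.prD_cases hΩ c with h | ⟨g, hg, -, h⟩
  · rw [h, h]
  · rw [h _ hx, h _ (W.prd_memT hΩ hg hx), W.prd_same hΩ hg hx]

theorem prD_ne {c c' : ℝ ⧸ VG v N} (hc : c ≠ c') {x : Ω} (hx : x ∈ PM v L G M) :
    W.prD hΩ c (W.prD hΩ c' x) = 0 := by
  rcases W.prD_cases hΩ c with h | ⟨g, hg, rfl, h⟩
  · rw [h]
  · rcases W.prD_cases hΩ c' with h' | ⟨g', hg', rfl, h'⟩
    · rw [h', W.prD_zero hΩ]
    · rw [h' _ hx, h _ (W.prd_memT hΩ hg' hx)]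
      exact W.prd_ne hΩ hg hg' (fun h1 => hc (mk_eq.2 h1)) hx

theorem prD_pow (c : ℝ ⧸ VG v N) [Fact p.Prime] {x : Ω} (hx : x ∈ PM v L G M) :
    W.prD hΩ (p • c) (W.prD hΩ c x ^ p) = W.prD hΩ c x ^ p := by
  rcases W.prD_cases hΩ c with h | ⟨g, hg, rfl, h⟩
  · rw [h, zero_pow (Fact.out : p.Prime).ne_zero, W.prD_zero hΩ]
  · rw [h _ hx]
    have e : p • (QuotientAddGroup.mk g : ℝ ⧸ VG v N) = QuotientAddGroup.mk ((p : ℝ) * g) := by
      rw [← nsmul_eq_mul]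
      rfl
    rw [e, W.prD_mk hΩ (W.mulG hg) (pow_mem (W.prd_memT hΩ hg hx) p), W.prd_pow hΩ hg hx]

theorem prD_mon (c : ℝ ⧸ VG v N) {h : ℝ} (hh : h ∈ G) {l : Ω} (hl : l ∈ L)
    [Decidable ((QuotientAddGroup.mk h : ℝ ⧸ VG v N) = c)] :
    W.prD hΩ c (M h * l) = if (QuotientAddGroup.mk h : ℝ ⧸ VG v N) = c then M h * l else 0 := by
  classical
  have hT : M h * l ∈ PM v L G M := mul_mem (PM.mon hh) (PM.le hl)
  split_ifs with h0
  · rw [← h0, W.prD_mk hΩ hh hT, W.prd_mon hΩ hh hh hl, sub_self, if_pos (VG v N).zero_mem]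
  · rcases W.prD_cases hΩ c with h1 | ⟨g, hg, rfl, h1⟩
    · exact h1 _
    · rw [h1 _ hT, W.prd_mon hΩ hg hh hl, if_neg fun h2 => h0 (mk_eq.2 h2).symm]

/-- The components of a sum of monomials. -/
theorem prD_finsum [DecidableEq (ℝ ⧸ VG v N)] (c : ℝ ⧸ VG v N) (S : Finset ℝ) {a : ℝ → Ω}
    (hS : ∀ g ∈ S, g ∈ G) (ha : ∀ g ∈ S, a g ∈ L) :
    W.prD hΩ c (∑ g ∈ S, a g * M g) =
      ∑ g ∈ S with (QuotientAddGroup.mk g : ℝ ⧸ VG v N) = c, a g * M g := by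
  rw [W.prD_sum hΩ c S fun g hg => mul_mem (PM.le (ha g hg)) (PM.mon (hS g hg)),
    Finset.sum_filter]
  refine Finset.sum_congr rfl fun h hh => ?_
  rw [mul_comm, W.prD_mon hΩ c (hS h hh) (ha h hh)]

/-- The sum of the components. -/
theorem exists_dec {x : Ω} (hx : x ∈ PM v L G M) (b : ℝ) : ∃ S : Finset (ℝ ⧸ VG v N),
    v.Ge b (x - ∑ c ∈ S, W.prD hΩ c x) := by
  classical
  obtain ⟨S, a, hS, ha, h1⟩ := W.dense hx b
  set y := ∑ g ∈ S, a g * M g with hy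
  have hyT : y ∈ PM v L G M := sum_mem fun g hg => mul_mem (PM.le (ha g hg)) (PM.mon (hS g hg))
  refine ⟨S.image fun g => (QuotientAddGroup.mk g : ℝ ⧸ VG v N), ?_⟩
  have e1 : ∑ c ∈ S.image (fun g => (QuotientAddGroup.mk g : ℝ ⧸ VG v N)), W.prD hΩ c y = y := by
    rw [Finset.sum_congr rfl fun c _ => W.prD_finsum hΩ c S hS ha]
    exact Finset.sum_fiberwise_of_maps_to (fun g hg => Finset.mem_image_of_mem _ hg) _
  have e2 : x - ∑ c ∈ S.image (fun g => (QuotientAddGroup.mk g : ℝ ⧸ VG v N)), W.prD hΩ c x =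
      (x - y) - ∑ c ∈ S.image (fun g => (QuotientAddGroup.mk g : ℝ ⧸ VG v N)),
        W.prD hΩ c (x - y) := by
    rw [Finset.sum_congr rfl fun c _ => W.prD_sub hΩ c hx hyT, Finset.sum_sub_distrib, e1]
    ring
  rw [e2]
  exact h1.sub (RVal.Ge.sum _ _ fun c _ => W.prD_ge hΩ c (sub_mem hx hyT) h1)

end World

/-! ### The module of the limits -/

/-- The limits of `B` in `T`. -/
def LimS (v : RVal Ω) [Fact (Ctx0 k v)] (T B : IntermediateField k Ω) : Submodule k Ω where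
  carrier := {x | x ∈ T ∧ Lim v B 0 x}
  add_mem' := fun ha hb => ⟨add_mem ha.1 hb.1, TWC.Lim.add ha.2 hb.2⟩
  zero_mem' := ⟨zero_mem T, TWC.Lim.of_mem (zero_mem B)⟩
  smul_mem' := fun a x hx => ⟨T.smul_mem hx.1, by
    rw [Algebra.smul_def]
    exact TWC.Lim.smul hx.2 a⟩

/-- The elements of `T` near `B`. -/
def NrS (v : RVal Ω) [Fact (Ctx0 k v)] (T B : IntermediateField k Ω) : Submodule k Ω where
  carrier := {x | x ∈ T ∧ Nr v B 0 x}
  add_mem' := by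
    rintro x y ⟨hx, a, ha, h1⟩ ⟨hy, b, hb, h2⟩
    exact ⟨add_mem hx hy, a + b, add_mem ha hb, by rw [add_sub_add_comm]; exact h1.add h2⟩
  zero_mem' := ⟨zero_mem T, 0, zero_mem B, by rw [sub_zero]; exact RVal.Ge.zero⟩
  smul_mem' := by
    rintro c x ⟨hx, a, ha, h1⟩
    refine ⟨T.smul_mem hx, c • a, B.smul_mem ha, ?_⟩
    rw [← smul_sub, Algebra.smul_def]
    have := ((Fact.out : Ctx0 k v).ge c).mul h1
    rwa [zero_add] at this

theorem mem_LimS {x : Ω} : x ∈ LimS v T B ↔ x ∈ T ∧ Lim v B 0 x := Iff.rfl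

theorem mem_NrS {x : Ω} : x ∈ NrS v T B ↔ x ∈ T ∧ Nr v B 0 x := Iff.rfl

theorem NrS_le : NrS v T B ≤ LimS v T B := fun _ h => ⟨h.1, TWC.Nr.lim h.2⟩

/-- The module of the limits of `B` in `T`. -/
abbrev MQ (v : RVal Ω) [Fact (Ctx0 k v)] (T B : IntermediateField k Ω) : Type u :=
  LimS v T B ⧸ (NrS v T B).comap (LimS v T B).subtype

/-- The class. -/
def cl {x : Ω} (hx : x ∈ LimS v T B) : MQ v T B := Submodule.Quotient.mk ⟨x, hx⟩

theorem cl_eq_zero {x : Ω} (hx : x ∈ LimS v T B) : cl hx = 0 ↔ Nr v B 0 x := by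
  unfold cl
  rw [Submodule.Quotient.mk_eq_zero, Submodule.mem_comap]
  exact ⟨fun h => h.2, fun h => ⟨hx.1, h⟩⟩

theorem cl_eq {x y : Ω} (hx : x ∈ LimS v T B) (hy : y ∈ LimS v T B) :
    cl hx = cl hy ↔ Nr v B 0 (x - y) := by
  rw [← sub_eq_zero]
  exact cl_eq_zero ((LimS v T B).sub_mem hx hy)

theorem cl_add {x y : Ω} (hx : x ∈ LimS v T B) (hy : y ∈ LimS v T B) :
    cl ((LimS v T B).add_mem hx hy) = cl hx + cl hy := rfl

theorem cl_sub {x y : Ω} (hx : x ∈ LimS v T B) (hy : y ∈ LimS v T B) :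
    cl ((LimS v T B).sub_mem hx hy) = cl hx - cl hy := rfl

theorem cl_smul {x : Ω} (hx : x ∈ LimS v T B) (a : k) :
    cl ((LimS v T B).smul_mem a hx) = a • cl hx := rfl

theorem exists_cl (m : MQ v T B) : ∃ (x : Ω) (hx : x ∈ LimS v T B), m = cl hx := by
  obtain ⟨⟨x, hx⟩, rfl⟩ := Submodule.Quotient.mk_surjective _ m
  exact ⟨x, hx, rfl⟩

theorem cl_sum {ι : Type*} (S : Finset ι) {x : ι → Ω} (hx : ∀ i, x i ∈ LimS v T B) :
    cl ((LimS v T B).sum_mem fun i (_ : i ∈ S) => hx i) = ∑ i ∈ S, cl (hx i) := by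
  classical
  have h1 : (⟨∑ i ∈ S, x i, (LimS v T B).sum_mem fun i _ => hx i⟩ : LimS v T B) =
      ∑ i ∈ S, ⟨x i, hx i⟩ := by
    refine Subtype.ext ?_
    rw [AddSubmonoidClass.coe_finsetSum]
  unfold cl
  rw [h1]
  exact map_sum (Submodule.mkQ _) _ _

section Fr

variable [Fact p.Prime] [CharP k p] [CharP Ω p]

theorem pow_LimS {x : Ω} (hx : x ∈ LimS v T B) : x ^ p ∈ LimS v T B :=
  ⟨pow_mem hx.1 p, TWC.Lim.pow p hx.2⟩

theorem pow_pow_LimS {x : Ω} (hx : x ∈ LimS v T B) (j : ℕ) : x ^ p ^ j ∈ LimS v T B :=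
  ⟨pow_mem hx.1 _, TWC.Lim.pow_pow p hx.2 j⟩

theorem pow_NrS {x : Ω} (hx : x ∈ NrS v T B) : x ^ p ∈ NrS v T B := by
  obtain ⟨hx, a, ha, h1⟩ := hx
  refine ⟨pow_mem hx p, a ^ p, pow_mem ha p, ?_⟩
  rw [← sub_pow_char]
  have := ge_pow h1 p
  rwa [mul_zero] at this

/-- The Frobenius. -/
noncomputable def frL (p : ℕ) [Fact p.Prime] [CharP k p] [CharP Ω p] (v : RVal Ω)
    [Fact (Ctx0 k v)] (T B : IntermediateField k Ω) : LimS v T B →ₛₗ[frobenius k p] LimS v T B where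
  toFun x := ⟨(x : Ω) ^ p, pow_LimS x.2⟩
  map_add' x y := Subtype.ext (add_pow_char _ _ p)
  map_smul' a x := Subtype.ext (by
    change (a • (x : Ω)) ^ p = (frobenius k p a) • (x : Ω) ^ p
    rw [_root_.smul_pow, frobenius_def])

/-- The Frobenius of the classes. -/
noncomputable def frQ (p : ℕ) [Fact p.Prime] [CharP k p] [CharP Ω p] (v : RVal Ω)
    [Fact (Ctx0 k v)] (T B : IntermediateField k Ω) : MQ v T B →ₛₗ[frobenius k p] MQ v T B :=
  Submodule.mapQ _ _ (frL p v T B) fun x hx => by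
    rw [Submodule.mem_comap] at hx ⊢
    rw [Submodule.mem_comap]
    exact pow_NrS hx

theorem frQ_cl {x : Ω} (hx : x ∈ LimS v T B) : frQ p v T B (cl hx) = cl (pow_LimS (p := p) hx) :=
  rfl

end Fr

namespace World

variable (W : World p v N L G M) (hΩ : CompleteV v)

theorem prD_lim (hNA : N ≤ A) (hAL : A ≤ L) (hA : Cld v A) (c : ℝ ⧸ VG v N) {x : Ω}
    (hx : x ∈ LimS v (PM v L G M) (PM v A G M)) :
    W.prD hΩ c x ∈ LimS v (PM v L G M) (PM v A G M) := by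
  refine ⟨W.prD_memT hΩ c hx.1, fun ε hε => ?_⟩
  obtain ⟨a, ha, h1⟩ := hx.2 ε hε
  have haT : a ∈ PM v L G M := PM.mono hAL ha
  refine ⟨W.prD hΩ c a, W.prD_mem hΩ hNA hAL hA c ha, ?_⟩
  rw [← W.prD_sub hΩ c hx.1 haT]
  exact W.prD_ge hΩ c (sub_mem hx.1 haT) h1

theorem prD_nr (hNA : N ≤ A) (hAL : A ≤ L) (hA : Cld v A) (c : ℝ ⧸ VG v N) {x : Ω}
    (hx : x ∈ NrS v (PM v L G M) (PM v A G M)) :
    W.prD hΩ c x ∈ NrS v (PM v L G M) (PM v A G M) := by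
  obtain ⟨hx, a, ha, h1⟩ := hx
  have haT : a ∈ PM v L G M := PM.mono hAL ha
  refine ⟨W.prD_memT hΩ c hx, W.prD hΩ c a, W.prD_mem hΩ hNA hAL hA c ha, ?_⟩
  rw [← W.prD_sub hΩ c hx haT]
  exact W.prD_ge hΩ c (sub_mem hx haT) h1

/-- The component of degree `c`, on the limits. -/
noncomputable def prL (hNA : N ≤ A) (hAL : A ≤ L) (hA : Cld v A) (c : ℝ ⧸ VG v N) :
    LimS v (PM v L G M) (PM v A G M) →ₗ[k] LimS v (PM v L G M) (PM v A G M) where
  toFun x := ⟨W.prD hΩ c x, W.prD_lim hΩ hNA hAL hA c x.2⟩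
  map_add' x y := Subtype.ext (W.prD_add hΩ c x.2.1 y.2.1)
  map_smul' a x := Subtype.ext (W.prD_smul hΩ c a x.2.1)

/-- The component of degree `c`, on the classes. -/
noncomputable def prQ (hNA : N ≤ A) (hAL : A ≤ L) (hA : Cld v A) (c : ℝ ⧸ VG v N) :
    MQ v (PM v L G M) (PM v A G M) →ₗ[k] MQ v (PM v L G M) (PM v A G M) :=
  Submodule.mapQ _ _ (W.prL hΩ hNA hAL hA c) fun x hx => by
    rw [Submodule.mem_comap] at hx ⊢
    rw [Submodule.mem_comap]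
    exact W.prD_nr hΩ hNA hAL hA c hx

theorem prQ_cl (hNA : N ≤ A) (hAL : A ≤ L) (hA : Cld v A) (c : ℝ ⧸ VG v N) {x : Ω}
    (hx : x ∈ LimS v (PM v L G M) (PM v A G M)) :
    W.prQ hΩ hNA hAL hA c (cl hx) = cl (W.prD_lim hΩ hNA hAL hA c hx) := rfl

variable [Fact p.Prime] [CharP k p] [CharP Ω p]

/-- **The graded module of the limits of the graded field `PM v A G M`.** -/
noncomputable def gm (hNA : N ≤ A) (hAL : A ≤ L) (hA : Cld v A) :
    H28.GM k p (ℝ ⧸ VG v N) (MQ v (PM v L G M) (PM v A G M)) where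
  F := (frQ p v (PM v L G M) (PM v A G M)).toAddMonoidHom
  F_smul a m := by
    change frQ p v _ _ (a • m) = _
    rw [map_smulₛₗ, frobenius_def]
    rfl
  pr := W.prQ hΩ hNA hAL hA
  pr_same c m := by
    obtain ⟨x, hx, rfl⟩ := exists_cl m
    rw [W.prQ_cl hΩ hNA hAL hA c hx, W.prQ_cl hΩ hNA hAL hA c, cl_eq, W.prD_same hΩ c hx.1,
      sub_self]
    exact ⟨0, zero_mem _, by rw [sub_zero]; exact RVal.Ge.zero⟩
  pr_ne c c' m hc := by
    obtain ⟨x, hx, rfl⟩ := exists_cl m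
    rw [W.prQ_cl hΩ hNA hAL hA c' hx, W.prQ_cl hΩ hNA hAL hA c, cl_eq_zero,
      W.prD_ne hΩ hc hx.1]
    exact ⟨0, zero_mem _, by rw [sub_zero]; exact RVal.Ge.zero⟩
  dec m := by
    obtain ⟨x, hx, rfl⟩ := exists_cl m
    obtain ⟨S, hS⟩ := W.exists_dec hΩ hx.1 0
    refine ⟨S, ?_⟩
    have h1 : ∑ c ∈ S, W.prQ hΩ hNA hAL hA c (cl hx) =
        cl ((LimS v (PM v L G M) (PM v A G M)).sum_mem fun c (_ : c ∈ S) =>
          W.prD_lim hΩ hNA hAL hA c hx) :=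
      (cl_sum S fun c => W.prD_lim hΩ hNA hAL hA c hx).symm
    rw [h1, eq_comm, cl_eq]
    exact ⟨0, zero_mem _, by rw [sub_zero]; exact hS⟩
  pr_F c m := by
    obtain ⟨x, hx, rfl⟩ := exists_cl m
    change W.prQ hΩ hNA hAL hA (p • c) (frQ p v _ _ (cl (W.prD_lim hΩ hNA hAL hA c hx))) =
      frQ p v _ _ (cl (W.prD_lim hΩ hNA hAL hA c hx))
    rw [frQ_cl, W.prQ_cl, cl_eq, W.prD_pow hΩ c hx.1, sub_self]
    exact ⟨0, zero_mem _, by rw [sub_zero]; exact RVal.Ge.zero⟩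

theorem gm_F (hNA : N ≤ A) (hAL : A ≤ L) (hA : Cld v A) {x : Ω}
    (hx : x ∈ LimS v (PM v L G M) (PM v A G M)) :
    (W.gm hΩ hNA hAL hA).F (cl hx) = cl (pow_LimS (p := p) hx) := rfl

theorem gm_pr (hNA : N ≤ A) (hAL : A ≤ L) (hA : Cld v A) (c : ℝ ⧸ VG v N) {x : Ω}
    (hx : x ∈ LimS v (PM v L G M) (PM v A G M)) :
    (W.gm hΩ hNA hAL hA).pr c (cl hx) = cl (W.prD_lim hΩ hNA hAL hA c hx) := rfl

theorem gm_iter (hNA : N ≤ A) (hAL : A ≤ L) (hA : Cld v A) {x : Ω}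
    (hx : x ∈ LimS v (PM v L G M) (PM v A G M)) (n : ℕ) :
    (W.gm hΩ hNA hAL hA).F^[n] (cl hx) = cl (pow_pow_LimS (p := p) hx n) := by
  induction n with
  | zero =>
    rw [Function.iterate_zero_apply, cl_eq, pow_zero, pow_one, sub_self]
    exact ⟨0, zero_mem _, by rw [sub_zero]; exact RVal.Ge.zero⟩
  | succ n ih =>
    rw [Function.iterate_succ_apply', ih, W.gm_F hΩ hNA hAL hA, cl_eq, ← pow_mul, ← pow_succ,
      sub_self]
    exact ⟨0, zero_mem _, by rw [sub_zero]; exact RVal.Ge.zero⟩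

/-- The degrees are of `p`-power torsion. -/
theorem gm_tor (hGN : ∀ g ∈ G, ∃ n : ℕ, (p : ℝ) ^ n * g ∈ VG v N) (hNA : N ≤ A) (hAL : A ≤ L)
    (hA : Cld v A) (c : ℝ ⧸ VG v N) (m : MQ v (PM v L G M) (PM v A G M))
    (h : (W.gm hΩ hNA hAL hA).pr c m ≠ 0) : ∃ n, p ^ n • c = 0 := by
  obtain ⟨x, hx, rfl⟩ := exists_cl m
  rw [W.gm_pr hΩ hNA hAL hA] at h
  rcases W.prD_cases hΩ c with h1 | ⟨g, hg, rfl, -⟩
  · exfalso
    refine h ?_
    rw [cl_eq_zero, h1]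
    exact ⟨0, zero_mem _, by rw [sub_zero]; exact RVal.Ge.zero⟩
  · obtain ⟨n, hn⟩ := hGN g hg
    refine ⟨n, ?_⟩
    have e : p ^ n • (QuotientAddGroup.mk g : ℝ ⧸ VG v N) =
        QuotientAddGroup.mk ((p : ℝ) ^ n * g) := by
      rw [← Nat.cast_pow, ← nsmul_eq_mul]
      rfl
    rw [e]
    exact (QuotientAddGroup.eq_zero_iff _).2 hn

/-- The homogeneous elements. -/
theorem hom_iff (hNA : N ≤ A) (hAL : A ≤ L) (hA : Cld v A) (c : ℝ ⧸ VG v N) {x : Ω}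
    (hx : x ∈ LimS v (PM v L G M) (PM v A G M)) :
    (W.gm hΩ hNA hAL hA).Hom c (cl hx) ↔ Nr v (PM v A G M) 0 (x - W.prD hΩ c x) := by
  unfold H28.GM.Hom
  rw [W.gm_pr hΩ hNA hAL hA, eq_comm, cl_eq]

/-- `M g * l` is homogeneous of degree `g`. -/
theorem hom_mon (hNA : N ≤ A) (hAL : A ≤ L) (hA : Cld v A) {g : ℝ} (hg : g ∈ G) {l : Ω}
    (hl : l ∈ L) (hx : M g * l ∈ LimS v (PM v L G M) (PM v A G M)) :
    (W.gm hΩ hNA hAL hA).Hom (QuotientAddGroup.mk g) (cl hx) := by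
  classical
  rw [W.hom_iff hΩ hNA hAL hA, W.prD_mon hΩ _ hg hl, if_pos rfl, sub_self]
  exact ⟨0, zero_mem _, by rw [sub_zero]; exact RVal.Ge.zero⟩

/-- Each homogeneous class is the class of some `M g * l`. -/
theorem exists_hom (hNA : N ≤ A) (hAL : A ≤ L) (hA : Cld v A) {c : ℝ ⧸ VG v N}
    {m : MQ v (PM v L G M) (PM v A G M)} (h : (W.gm hΩ hNA hAL hA).Hom c m) (h0 : m ≠ 0) :
    ∃ g ∈ G, (QuotientAddGroup.mk g : ℝ ⧸ VG v N) = c ∧ ∃ (l : Ω) (_ : l ∈ L)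
      (hx : M g * l ∈ LimS v (PM v L G M) (PM v A G M)), m = cl hx := by
  obtain ⟨x, hx, rfl⟩ := exists_cl m
  rw [W.hom_iff hΩ hNA hAL hA] at h
  rcases W.prD_cases hΩ c with h1 | ⟨g, hg, rfl, h1⟩
  · exfalso
    rw [h1, sub_zero] at h
    exact h0 ((cl_eq_zero hx).2 h)
  · have h2 := W.prD_lim hΩ hNA hAL hA (QuotientAddGroup.mk g) hx
    obtain ⟨l, hl, h3⟩ := W.prd_form hΩ hg hx.1
    rw [h1 _ hx.1, h3] at h2
    refine ⟨g, hg, rfl, l, hl, h2, ?_⟩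
    rw [cl_eq, ← h3, ← h1 _ hx.1]
    exact h

/-! ### Operators and `ev` -/

theorem gm_op (hNA : N ≤ A) (hAL : A ≤ L) (hA : Cld v A) (P : k[X]) {x : Ω}
    (hx : x ∈ LimS v (PM v L G M) (PM v A G M)) :
    (W.gm hΩ hNA hAL hA).op P (cl hx) =
      cl ((LimS v (PM v L G M) (PM v A G M)).sum_mem fun j (_ : j ∈ Finset.range (P.natDegree + 1)) =>
        (LimS v (PM v L G M) (PM v A G M)).smul_mem (P.coeff j) (pow_pow_LimS (p := p) hx j)) := by
  rw [H28.GM.op_range _ _ _ (Nat.lt_succ_self _),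
    cl_sum (Finset.range (P.natDegree + 1)) fun j =>
      (LimS v (PM v L G M) (PM v A G M)).smul_mem (P.coeff j) (pow_pow_LimS (p := p) hx j)]
  exact Finset.sum_congr rfl fun j _ => by rw [W.gm_iter hΩ hNA hAL hA, cl_smul]

include W in
/-- `M (-R) ev P w` is the value of the operator `P` at `M g * w`, `s = -g`. -/
theorem mul_ev {g R : ℝ} (hg : g ∈ G) (hR : R ∈ G) (P : k[X]) (w : Ω) :
    M (-R) * ev p M (-g) R P w =
      ∑ j ∈ Finset.range (P.natDegree + 1), P.coeff j • (M g * w) ^ p ^ j := by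
  rw [ev, P.sum_over_range fun j => by rw [map_zero, zero_mul, zero_mul], Finset.mul_sum]
  refine Finset.sum_congr rfl fun j _ => ?_
  have hpg : (p : ℝ) ^ j * g ∈ G := by
    have := G.nsmul_mem hg (p ^ j)
    rw [nsmul_eq_mul] at this
    push_cast at this
    exact this
  have h1 : M (-R) * M (R - (p : ℝ) ^ j * -g) = M g ^ p ^ j := by
    have h2 : R - (p : ℝ) ^ j * -g ∈ G := by
      rw [mul_neg, sub_neg_eq_add]
      exact G.add_mem hR hpg
    rw [← W.ms.pow hg (p ^ j), ← W.ms.mul _ (G.neg_mem hR) _ h2]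
    congr 1
    push_cast
    ring
  rw [mul_pow, ← h1, Algebra.smul_def]
  ring

/-- The value of an operator as a class. -/
theorem op_ev (hNA : N ≤ A) (hAL : A ≤ L) (hA : Cld v A) {g R : ℝ} (hg : g ∈ G) (hR : R ∈ G)
    (P : k[X]) {w : Ω} (hx : M g * w ∈ LimS v (PM v L G M) (PM v A G M)) :
    ∃ h : M (-R) * ev p M (-g) R P w ∈ LimS v (PM v L G M) (PM v A G M),
      (W.gm hΩ hNA hAL hA).op P (cl hx) = cl h := by
  have h1 := W.mul_ev hg hR P w (k := k)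
  refine ⟨?_, ?_⟩
  · rw [h1]
    exact (LimS v (PM v L G M) (PM v A G M)).sum_mem fun j _ =>
      (LimS v (PM v L G M) (PM v A G M)).smul_mem (P.coeff j) (pow_pow_LimS (p := p) hx j)
  · rw [W.gm_op hΩ hNA hAL hA, cl_eq, ← h1, sub_self]
    exact ⟨0, zero_mem _, by rw [sub_zero]; exact RVal.Ge.zero⟩

/-! ### Free families -/

/-- A homogeneous family over a homogeneous free one. -/
theorem exists_free_hom [IsAlgClosed k] (hGN : ∀ g ∈ G, ∃ n : ℕ, (p : ℝ) ^ n * g ∈ VG v N) {g₀ : ℝ}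
    (hg₀ : g₀ ∈ VG v N) (hg₀' : g₀ / p ∉ VG v N)
    (hG : ∀ g ∈ VG v N, ∃ l < p, ∃ g' ∈ VG v N, g = l * g₀ + p * g')
    (hNA : N ≤ A) (hAL : A ≤ L) (hA : Cld v A)
    (hFT : FTB p v (PM v L G M) (PM v A G M))
    (hFV : FVB p v (PM v L G M) (PM v A G M) (W.pj hΩ 0))
    {ι : Type*} [Fintype ι] [DecidableEq ι] (g : ι → ℝ) (l : ι → Ω) (hg : ∀ i, g i ∈ G)
    (hl : ∀ i, l i ∈ L) (hx : ∀ i, M (g i) * l i ∈ LimS v (PM v L G M) (PM v A G M)) :
    ∃ (S : Finset ι) (e : S → MQ v (PM v L G M) (PM v A G M)),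
      (∀ i : S, (W.gm hΩ hNA hAL hA).Hom (QuotientAddGroup.mk (g i)) (e i)) ∧
      LinearIndependent k (fun x : S × ℕ => (W.gm hΩ hNA hAL hA).F^[x.2] (e x.1)) ∧
      ∀ i, cl (hx i) ∈
        Submodule.span k (Set.range fun x : S × ℕ => (W.gm hΩ hNA hAL hA).F^[x.2] (e x.1)) := by
  classical
  have hMB : ∀ g ∈ G, M g ∈ PM v A G M := fun g hg => PM.mon hg
  have hB : N ≤ PM v A G M := hNA.trans PM.le
  have hL' : ∀ i, l i ∈ L ∧ Lim v (PM v A G M) (-g i) (l i) := fun i => by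
    refine ⟨hl i, ?_⟩
    have h1 := W.lim_scale (G.neg_mem (hg i)) hMB (hx i).2
    rwa [zero_add, ← mul_assoc, W.M_neg_mul (hg i), one_mul] at h1
  obtain ⟨S, w, h1, h2, -, h4⟩ := W.exists_free hΩ hGN hg₀ hg₀' hG hNA hAL hA hFT hFV
    (fun i => -g i) l (fun i => G.neg_mem (hg i)) hL'
  have hw : ∀ i ∈ S, M (g i) * w i ∈ LimS v (PM v L G M) (PM v A G M) := fun i hi => by
    refine ⟨mul_mem (PM.mon (hg i)) (PM.le (h1 i hi).1), ?_⟩
    have h5 := W.lim_scale (hg i) hMB (h1 i hi).2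
    rwa [neg_add_cancel] at h5
  set V := W.gm hΩ hNA hAL hA with hV
  set e : S → MQ v (PM v L G M) (PM v A G M) := fun i => cl (hw i i.2) with he
  have hhom : ∀ i : S, V.Hom (QuotientAddGroup.mk (g i)) (e i) := fun i =>
    W.hom_mon hΩ hNA hAL hA (hg i) (h1 i i.2).1 (hw i i.2)
  have hrad : ∀ r ∈ G, ∀ x : Ω, Rad p (VG v N) r x := fun r hr x => Or.inr (hGN r hr)
  have hZ := gsub_Z (k := k) (p := p) (v := v) (B := PM v A G M) W.msΓ W.monΓ W.NL hB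
  have hLB := gsub_L (k := k) (p := p) (v := v) (B := PM v A G M) W.msΓ W.monΓ W.NL hB
  refine ⟨S, e, hhom, ?_, ?_⟩
  · rw [linearIndependent_iff]
    intro f hf
    ext ⟨i₀, n₀⟩
    -- a bound of the indices
    obtain ⟨K, hK⟩ : ∃ K : ℕ, ∀ (i : S) (n : ℕ), K ≤ n → f (i, n) = 0 := by
      refine ⟨(f.support.image Prod.snd).sup id + 1, fun i n hn => ?_⟩
      by_contra h
      have h5 : n ∈ f.support.image Prod.snd :=
        Finset.mem_image.2 ⟨(i, n), Finsupp.mem_support_iff.2 h, rfl⟩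
      have h6 := Finset.le_sup (f := id) h5
      simp only [id] at h6
      omega
    set P0 : S → k[X] := fun i => ∑ n ∈ Finset.range K, C (f (i, n)) * X ^ n with hP0
    have hcP0 : ∀ i n, (P0 i).coeff n = f (i, n) := by
      intro i n
      rw [hP0]
      dsimp only
      rw [finsetSum_coeff]
      by_cases h : n < K
      · rw [Finset.sum_eq_single n]
        · rw [coeff_C_mul, coeff_X_pow, if_pos rfl, mul_one]
        · intro m _ hm
          rw [coeff_C_mul, coeff_X_pow, if_neg (Ne.symm hm), mul_zero]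
        · exact fun h' => absurd (Finset.mem_range.2 h) h'
      · rw [hK i n (not_lt.1 h)]
        refine Finset.sum_eq_zero fun m hm => ?_
        rw [coeff_C_mul, coeff_X_pow, if_neg (by have := Finset.mem_range.1 hm; omega), mul_zero]
    have hsum : ∑ i : S, V.op (P0 i) (e i) = 0 := by
      rw [← hf, Finsupp.linearCombination_apply, Finsupp.sum]
      have e1 : ∀ i : S, V.op (P0 i) (e i) = ∑ n ∈ Finset.range K, f (i, n) • V.F^[n] (e i) := by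
        intro i
        have h5 : (P0 i).natDegree < K + 1 := by
          refine lt_of_le_of_lt ?_ (Nat.lt_succ_self K)
          rw [natDegree_le_iff_coeff_eq_zero]
          intro n hn
          rw [hcP0, hK i n (by omega)]
        rw [V.op_range _ _ h5, Finset.sum_range_succ, hcP0, hK i K le_rfl, zero_smul, add_zero]
        exact Finset.sum_congr rfl fun n _ => by rw [hcP0]
      rw [Finset.sum_congr rfl fun i _ => e1 i, ← Finset.sum_product']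
      symm
      refine Finset.sum_subset ?_ ?_
      · rintro ⟨i, n⟩ h
        rw [Finset.mem_product, Finset.mem_range]
        refine ⟨Finset.mem_univ _, ?_⟩
        by_contra h5
        exact (Finsupp.mem_support_iff.1 h) (hK i n (not_lt.1 h5))
      · rintro ⟨i, n⟩ _ h
        rw [Finsupp.notMem_support_iff.1 h, zero_smul]
    -- the component of degree `d`
    set R : ℝ := (p : ℝ) ^ n₀ * -g i₀ with hR
    have hpG : ∀ (n : ℕ) {a : ℝ}, a ∈ G → (p : ℝ) ^ n * a ∈ G := fun n a ha => by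
      have := G.nsmul_mem ha (p ^ n)
      rw [nsmul_eq_mul] at this
      push_cast at this
      exact this
    have hRG : R ∈ G := hpG n₀ (G.neg_mem (hg i₀))
    set d : ℝ ⧸ VG v N := QuotientAddGroup.mk (-R) with hd
    set P : ι → k[X] := fun i => if h : i ∈ S then
      H28.GM.filt p (QuotientAddGroup.mk (g i) : ℝ ⧸ VG v N) d (P0 ⟨i, h⟩) else 0 with hP
    have hPS : ∀ i : S, P i = H28.GM.filt p (QuotientAddGroup.mk (g i) : ℝ ⧸ VG v N) d (P0 i) :=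
      fun i => dif_pos i.2
    have hmk : ∀ (n : ℕ) (a : ℝ), p ^ n • (QuotientAddGroup.mk a : ℝ ⧸ VG v N) =
        QuotientAddGroup.mk ((p : ℝ) ^ n * a) := fun n a => by
      rw [← Nat.cast_pow, ← nsmul_eq_mul]
      rfl
    have hIs : ∀ i ∈ S, IsOp p (VG v N) (-g i) R (P i) := by
      intro i hi j hj
      have h5 := hPS ⟨i, hi⟩
      dsimp only at h5
      rw [h5, H28.GM.coeff_filt] at hj
      by_cases h6 : p ^ j • (QuotientAddGroup.mk (g i) : ℝ ⧸ VG v N) = d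
      · rw [hmk, hd, mk_eq] at h6
        have h7 : R - (p : ℝ) ^ j * -g i = (p : ℝ) ^ j * g i - -R := by ring
        rw [h7]
        exact h6
      · rw [if_neg h6] at hj
        exact absurd rfl hj
    have hsum' : ∑ i : S, V.op (P i) (e i) = 0 := by
      have h5 : V.pr d (∑ i : S, V.op (P0 i) (e i)) = 0 := by rw [hsum, map_zero]
      rw [map_sum] at h5
      rw [← h5]
      refine Finset.sum_congr rfl fun i _ => ?_
      rw [V.pr_op (hhom i), hPS]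
    -- the element
    set x : Ω := ∑ i ∈ S, ev p M (-g i) R (P i) (w i) with hx'
    have hxLB : LB p (VG v N) v L (PM v A G M) R x := hLB.sum fun i hi =>
      hLB.ev (hIs i hi) ⟨(h1 i hi).1, (h1 i hi).2, hrad _ (G.neg_mem (hg i)) _⟩
    have hxN : Nr v (PM v A G M) 0 (M (-R) * x) := by
      have h5 : ∀ i : S, ∃ h : M (-R) * ev p M (-g i) R (P i) (w i) ∈
          LimS v (PM v L G M) (PM v A G M), V.op (P i) (e i) = cl h := fun i =>
        W.op_ev hΩ hNA hAL hA (hg i) hRG (P i) (hw i i.2)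
      choose h6 h7 using h5
      have h8 : M (-R) * x = ∑ i : S, M (-R) * ev p M (-g i) R (P i) (w i) := by
        rw [hx', Finset.mul_sum]
        exact (Finset.sum_coe_sort S fun i => M (-R) * ev p M (-g i) R (P i) (w i)).symm
      rw [Finset.sum_congr rfl fun i _ => h7 i, ← cl_sum Finset.univ h6, cl_eq_zero] at hsum'
      rwa [h8]
    have hxZ : ZB p (VG v N) v L (PM v A G M) R x := by
      refine ⟨hxLB.1, W.nr_nr' hRG hMB ?_, hrad R hRG x⟩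
      have h5 := W.nr_scale hRG hMB hxN
      have h6 : M R * M (-R) = 1 := by rw [mul_comm, W.M_neg_mul hRG]
      rwa [zero_add, ← mul_assoc, h6, one_mul] at h5
    have hPz := h4 R P hIs hxZ i₀ i₀.2
    rw [hPS, ] at hPz
    have h9 : (H28.GM.filt p (QuotientAddGroup.mk (g i₀) : ℝ ⧸ VG v N) d (P0 i₀)).coeff n₀ = 0 := by
      rw [hPz, coeff_zero]
    rw [H28.GM.coeff_filt, hcP0, if_pos] at h9
    · exact h9
    · rw [hmk, hd, hR]
      congr 1
      ring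
  · intro i
    obtain ⟨Q, hQ, h5⟩ := h2 i
    have h6 : ∀ j : S, ∃ h : M (- -g i) * ev p M (-g j) (-g i) (Q j) (w j) ∈
        LimS v (PM v L G M) (PM v A G M), V.op (Q j) (e j) = cl h := fun j =>
      W.op_ev hΩ hNA hAL hA (hg j) (G.neg_mem (hg i)) (Q j) (hw j j.2)
    choose h7 h8 using h6
    have h9 : cl (hx i) = ∑ j : S, V.op (Q j) (e j) := by
      rw [Finset.sum_congr rfl fun j _ => h8 j, ← cl_sum Finset.univ h7, cl_eq]
      have h10 := W.nr_scale (hg i) hMB (Nr'.nr h5.2.1)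
      rw [neg_add_cancel, mul_sub, Finset.mul_sum] at h10
      rw [neg_neg]
      have h11 : ∑ j : S, M (g i) * ev p M (-g j) (-g i) (Q j) (w j) =
          ∑ j ∈ S, M (g i) * ev p M (-g j) (-g i) (Q j) (w j) :=
        Finset.sum_coe_sort S fun j => M (g i) * ev p M (-g j) (-g i) (Q j) (w j)
      rwa [h11]
    rw [h9]
    refine Submodule.sum_mem _ fun j _ => ?_
    rw [V.op_range _ _ (Nat.lt_succ_self _)]
    exact Submodule.sum_mem _ fun n _ => Submodule.smul_mem _ _ (Submodule.subset_span ⟨(j, n), rfl⟩)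

end World

end Pool.Agent.TWIV
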