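import Pool.Agent.Lib.TWIV.Contr

/-!
# TANK W, leaf (IV): the part of negative support

* `NegP p v pr E nu`: `nu` is the projection to the part of negative support;
* `FinR p pr`: the root of a homogeneous element is a finite sum of homogeneous elements.
-/

set_option autoImplicit false
set_option linter.unusedSectionVars false

namespace Pool.Agent.TWIV

open Pool.Agent.H15JM (RVal)

universe u

variable {k H : Type u} [Field k] [Field H] [Algebra k H]

/-- The part of negative support. -/
structure NegP (p : ℕ) (v : RVal H) {A : Type*} (pr : A → H →ₗ[k] H) (E : IntermediateField k H)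
    (nu : H →ₗ[k] H) : Prop where
  frob : ∀ x, nu (x ^ p) = nu x ^ p
  pr : ∀ c x, nu (pr c x) = pr c (nu x)
  ge : ∀ x, v.Ge 0 (x - nu x)
  zero : ∀ x, v.Ge 0 x → nu x = 0
  mem : ∀ x ∈ E, nu x ∈ E

/-- The root of a homogeneous element is a finite sum of homogeneous elements. -/
def FinR (p : ℕ) [Fact p.Prime] [CharP H p] [PerfectRing H p] {A : Type*} (pr : A → H →ₗ[k] H) :
    Prop :=
  ∀ c x, pr c x = x → ∃ S : Finset A, Rt p 1 x = ∑ d ∈ S, pr d (Rt p 1 x)

end Pool.Agent.TWIV
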