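import Pool.Agent.Lib.TWS.Ac
import Pool.Agent.Lib.TWS.MonC
import Pool.Agent.Lib.TWIV.NegP

/-!
# TANK W, leaf (IV): the Hahn field as graded perfect field

`HF k = HahnSeries ℝ k` with its valuation `hv k`.
* `resS S`: the restriction of a series to the set `S` of exponents;
* `hpr Γ c`: the restriction to the coset `c ∈ ℝ / Γ`; `grP_hpr : GrP p (hv k) (hpr Γ)`,
  `hpr_orth`;
* `NegP`: the projection to the series with negative support; `negP_hv`.
-/

set_option autoImplicit false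

namespace Pool.Agent.TWIV

open Pool.Agent.H15JM (RVal)
open Pool.Agent.LU1 (VPos)
open Pool.Agent.D2 (Ctx0)
open Pool.Agent.TWM
open Pool.Agent.TWS

universe u

variable {k : Type u} [Field k]

/-! ### Coefficients -/

theorem cof_ext {x y : HF k} (h : ∀ γ, cof x γ = cof y γ) : x = y :=
  HahnSeries.ext (funext h)

theorem cof_neg (x : HF k) (γ : ℝ) : cof (-x) γ = -cof x γ := HahnSeries.coeff_neg

/-- The coefficients of a product. -/
theorem coeff_mul_finsum (x y : HahnSeries ℝ k) (γ : ℝ) :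
    (x * y).coeff γ = ∑ᶠ i, x.coeff i * y.coeff (γ - i) := by
  rw [HahnSeries.coeff_mul, finsum_eq_sum_of_support_subset
    (s := (Finset.antidiagonal x.isPWO_support y.isPWO_support γ).image Prod.fst)]
  · rw [Finset.sum_image]
    · refine Finset.sum_congr rfl fun ij hij => ?_
      have h1 := (Finset.mem_antidiagonal.1 hij).2.2
      rw [← h1, add_sub_cancel_left]
    · intro a ha b hb hab
      have h1 := (Finset.mem_antidiagonal.1 ha).2.2
      have h2 := (Finset.mem_antidiagonal.1 hb).2.2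
      refine Prod.ext hab ?_
      have h3 : a.1 + a.2 = b.1 + b.2 := h1.trans h2.symm
      have h4 : a.1 = b.1 := hab
      linarith
  · intro i hi
    rw [Function.mem_support] at hi
    rw [Finset.coe_image]
    refine ⟨(i, γ - i), ?_, rfl⟩
    rw [Finset.mem_coe, Finset.mem_antidiagonal]
    exact ⟨left_ne_zero_of_mul hi, right_ne_zero_of_mul hi, by ring⟩

theorem cof_mul (x y : HF k) (γ : ℝ) :
    cof (x * y) γ = ∑ᶠ i, cof x i * cof y (γ - i) := coeff_mul_finsum _ _ γ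

theorem cof_smul (c : k) (x : HF k) (γ : ℝ) : cof (c • x) γ = c * cof x γ := by
  rw [Algebra.smul_def]
  exact HahnSeries.coeff_single_zero_mul

/-- The restriction of a series to the exponents in `S`. -/
noncomputable def resF (S : Set ℝ) (x : HF k) : HF k := by
  classical
  exact mkH (fun γ => if γ ∈ S then cof x γ else 0)
    ((HahnSeries.isPWO_support (show HahnSeries ℝ k from x)).mono fun γ hγ => by
      rw [Function.mem_support] at hγ
      by_cases h : γ ∈ S
      · rwa [if_pos h] at hγ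
      · rw [if_neg h] at hγ
        exact absurd rfl hγ)

theorem cof_resF_of_mem {S : Set ℝ} {γ : ℝ} (h : γ ∈ S) (x : HF k) :
    cof (resF S x) γ = cof x γ := by
  classical
  rw [resF, cof_mkH, if_pos h]

theorem cof_resF_of_notMem {S : Set ℝ} {γ : ℝ} (h : γ ∉ S) (x : HF k) :
    cof (resF S x) γ = 0 := by
  classical
  rw [resF, cof_mkH, if_neg h]

/-- The restriction, as a linear map. -/
noncomputable def resS (S : Set ℝ) : HF k →ₗ[k] HF k where
  toFun := resF S
  map_add' x y := cof_ext fun γ => by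
    by_cases h : γ ∈ S
    · rw [cof_resF_of_mem h, cof_add, cof_add, cof_resF_of_mem h, cof_resF_of_mem h]
    · rw [cof_resF_of_notMem h, cof_add, cof_resF_of_notMem h, cof_resF_of_notMem h, add_zero]
  map_smul' c x := cof_ext fun γ => by
    by_cases h : γ ∈ S
    · rw [cof_resF_of_mem h, RingHom.id_apply, cof_smul, cof_smul, cof_resF_of_mem h]
    · rw [cof_resF_of_notMem h, RingHom.id_apply, cof_smul, cof_resF_of_notMem h, mul_zero]

theorem cof_resS_of_mem {S : Set ℝ} {γ : ℝ} (h : γ ∈ S) (x : HF k) :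
    cof (resS S x) γ = cof x γ := cof_resF_of_mem h x

theorem cof_resS_of_notMem {S : Set ℝ} {γ : ℝ} (h : γ ∉ S) (x : HF k) :
    cof (resS S x) γ = 0 := cof_resF_of_notMem h x

/-- `x` is supported in `S`. -/
theorem resS_eq_self {S : Set ℝ} {x : HF k} : resS S x = x ↔ ∀ γ, γ ∉ S → cof x γ = 0 := by
  constructor
  · intro h γ hγ
    rw [← h]
    exact cof_resS_of_notMem hγ x
  · intro h
    refine cof_ext fun γ => ?_
    by_cases hγ : γ ∈ S
    · exact cof_resS_of_mem hγ x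
    · rw [cof_resS_of_notMem hγ, h γ hγ]

theorem resS_resS (S T : Set ℝ) (x : HF k) : resS S (resS T x) = resS (S ∩ T) x := by
  refine cof_ext fun γ => ?_
  by_cases hS : γ ∈ S
  · rw [cof_resS_of_mem hS]
    by_cases hT : γ ∈ T
    · rw [cof_resS_of_mem hT, cof_resS_of_mem (⟨hS, hT⟩ : γ ∈ S ∩ T)]
    · rw [cof_resS_of_notMem hT, cof_resS_of_notMem fun h : γ ∈ S ∩ T => hT h.2]
  · rw [cof_resS_of_notMem hS, cof_resS_of_notMem fun h : γ ∈ S ∩ T => hS h.1]

theorem resS_ge {b : ℝ} {x : HF k} (S : Set ℝ) (h : (hv k).Ge b x) : (hv k).Ge b (resS S x) := by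
  rw [hge_iff] at h ⊢
  intro γ hγ
  by_cases hS : γ ∈ S
  · rw [cof_resS_of_mem hS, h γ hγ]
  · exact cof_resS_of_notMem hS x

/-- Products: if `S + T ⊆ U` and `S + Tᶜ ⊆ Uᶜ`. -/
theorem resS_mul {S T U : Set ℝ} (hU : ∀ i ∈ S, ∀ j, i + j ∈ U ↔ j ∈ T) (x y : HF k) :
    resS U (resS S x * y) = resS S x * resS T y := by
  -- the terms with the second factor outside `T` do not contribute
  refine cof_ext fun γ => ?_
  have hS : ∀ i, cof (resS S x) i ≠ 0 → i ∈ S := by
    intro i hi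
    by_contra h
    exact hi (cof_resS_of_notMem h x)
  rw [cof_mul (resS S x) (resS T y)]
  by_cases hγ : γ ∈ U
  · rw [cof_resS_of_mem hγ, cof_mul]
    refine finsum_congr fun i => ?_
    by_cases hi : cof (resS S x) i = 0
    · rw [hi, zero_mul, zero_mul]
    · have h1 : γ - i ∈ T := (hU i (hS i hi) _).1 (by rwa [add_sub_cancel])
      rw [cof_resS_of_mem h1]
  · rw [cof_resS_of_notMem hγ]
    symm
    refine finsum_eq_zero_of_forall_eq_zero fun i => ?_
    by_cases hi : cof (resS S x) i = 0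
    · rw [hi, zero_mul]
    · have h1 : γ - i ∉ T := fun h => hγ (by
        have := (hU i (hS i hi) _).2 h
        rwa [add_sub_cancel] at this)
      rw [cof_resS_of_notMem h1, mul_zero]


/-! ### Powers -/

/-- The support of a power. -/
theorem cof_pow_eq_zero {δ : ℝ} {x : HF k} (hx : ∀ γ, δ ≤ γ → cof x γ = 0) (n : ℕ) :
    ∀ γ, (n + 1 : ℝ) * δ ≤ γ → cof (x ^ (n + 1)) γ = 0 := by
  induction n with
  | zero =>
    intro γ hγ
    rw [zero_add, pow_one]
    refine hx γ ?_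
    push_cast at hγ
    linarith
  | succ n ih =>
    intro γ hγ
    rw [pow_succ, cof_mul]
    refine finsum_eq_zero_of_forall_eq_zero fun i => ?_
    rcases le_or_gt ((n + 1 : ℝ) * δ) i with h | h
    · rw [ih i h, zero_mul]
    · rw [hx (γ - i) (by push_cast at hγ; linarith), mul_zero]

theorem cof_mon (γ δ : ℝ) : cof (mon k γ) δ = if δ = γ then 1 else 0 := by
  split_ifs with h
  · rw [h]
    exact HahnSeries.coeff_single_same γ 1
  · exact HahnSeries.coeff_single_of_ne h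

theorem mon_pow (γ : ℝ) (n : ℕ) : mon k γ ^ n = mon k (n * γ) := by
  induction n with
  | zero =>
    rw [pow_zero, Nat.cast_zero, zero_mul]
    exact ((ms_hv k).zero).symm
  | succ n ih =>
    rw [pow_succ, ih, ← (ms_hv k).mul _ trivial _ trivial]
    congr 1
    push_cast
    ring

section Char

variable (p : ℕ) [hp : Fact p.Prime] [CharP (HF k) p]

/-- **The coefficients of the `p`-th power.** -/
theorem cof_pow_char (x : HF k) (γ : ℝ) : cof (x ^ p) γ = cof x (γ / p) ^ p := by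
  have hp0 : (0 : ℝ) < p := by exact_mod_cast hp.out.pos
  have hp1 : p - 1 + 1 = p := Nat.sub_add_cancel hp.out.one_le
  set δ : ℝ := γ / p with hδ
  have hpd : (p : ℝ) * δ = γ := by rw [hδ]; field_simp
  -- three parts
  have h1 : x = resS (Set.Iio δ) x + cof x δ • mon k δ + resS (Set.Ioi δ) x := by
    refine cof_ext fun ε => ?_
    rw [cof_add, cof_add, cof_smul, cof_mon]
    rcases lt_trichotomy ε δ with h | h | h
    · rw [cof_resS_of_mem (Set.mem_Iio.2 h), cof_resS_of_notMem (by simpa using h.le),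
        if_neg h.ne]
      ring
    · subst h
      rw [cof_resS_of_notMem (by simp), cof_resS_of_notMem (by simp), if_pos rfl]
      ring
    · rw [cof_resS_of_notMem (by simpa using h.le), cof_resS_of_mem (Set.mem_Ioi.2 h),
        if_neg h.ne']
      ring
  have h2 : cof (resS (Set.Iio δ) x ^ p) γ = 0 := by
    have := cof_pow_eq_zero (x := resS (Set.Iio δ) x) (δ := δ)
      (fun ε hε => cof_resS_of_notMem (by simpa using hε) x) (p - 1) γ (by
        have h3 : ((p - 1 : ℕ) : ℝ) + 1 = p := by exact_mod_cast hp1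
        rw [h3, hpd])
    rwa [hp1] at this
  have h3 : cof (resS (Set.Ioi δ) x ^ p) γ = 0 := by
    by_contra h4
    have h5 : resS (Set.Ioi δ) x ≠ 0 := by
      intro h5
      rw [h5, zero_pow hp.out.ne_zero, cof_zero] at h4
      exact h4 rfl
    have h6 := hv_le h4
    rw [(hv k).map_pow h5] at h6
    have h7 := cof_hv h5
    have h8 : δ < hv k (resS (Set.Ioi δ) x) := by
      by_contra h9
      exact h7 (cof_resS_of_notMem h9 x)
    have h9 : (p : ℝ) * δ < p * hv k (resS (Set.Ioi δ) x) := mul_lt_mul_of_pos_left h8 hp0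
    rw [hpd] at h9
    exact absurd h6 (not_le.2 h9)
  have h4 : x ^ p = resS (Set.Iio δ) x ^ p + (cof x δ • mon k δ) ^ p +
      resS (Set.Ioi δ) x ^ p := by
    conv_lhs => rw [h1]
    rw [add_pow_char, add_pow_char]
  rw [h4, cof_add, cof_add, h2, h3, smul_pow, mon_pow, hpd, cof_smul, cof_mon, if_pos rfl]
  ring

variable [PerfectRing (HF k) p]

/-- The coefficients of the root. -/
theorem cof_Rt (x : HF k) (γ : ℝ) : cof (Rt p 1 x) γ ^ p = cof x (p * γ) := by
  have hp0 : (p : ℝ) ≠ 0 := by exact_mod_cast hp.out.ne_zero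
  have h1 := Rt_pow p 1 x
  rw [pow_one] at h1
  conv_rhs => rw [← h1]
  rw [cof_pow_char, mul_div_cancel_left₀ γ hp0]

end Char

/-! ### The projections -/

/-- The restriction to the coset `c`. -/
noncomputable def hpr (Γ : AddSubgroup ℝ) (c : ℝ ⧸ Γ) : HF k →ₗ[k] HF k :=
  resS {g | (g : ℝ ⧸ Γ) = c}

variable {Γ : AddSubgroup ℝ}

theorem cof_hpr_of_eq {c : ℝ ⧸ Γ} {γ : ℝ} (h : (γ : ℝ ⧸ Γ) = c) (x : HF k) :
    cof (hpr Γ c x) γ = cof x γ := cof_resS_of_mem h x

theorem cof_hpr_of_ne {c : ℝ ⧸ Γ} {γ : ℝ} (h : (γ : ℝ ⧸ Γ) ≠ c) (x : HF k) :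
    cof (hpr Γ c x) γ = 0 := cof_resS_of_notMem h x

theorem hpr_eq_self {c : ℝ ⧸ Γ} {x : HF k} :
    hpr Γ c x = x ↔ ∀ γ : ℝ, (γ : ℝ ⧸ Γ) ≠ c → cof x γ = 0 := resS_eq_self

theorem hpr_ge {b : ℝ} {x : HF k} (c : ℝ ⧸ Γ) (h : (hv k).Ge b x) :
    (hv k).Ge b (hpr Γ c x) := resS_ge _ h

theorem hpr_orth {c d : ℝ ⧸ Γ} (x : HF k) (h : c ≠ d) : hpr Γ c (hpr Γ d x) = 0 := by
  refine cof_ext fun γ => ?_
  rw [cof_zero]
  by_cases h1 : (γ : ℝ ⧸ Γ) = c
  · rw [cof_hpr_of_eq h1, cof_hpr_of_ne fun h2 => h (h1.symm.trans h2)]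
  · exact cof_hpr_of_ne h1 _

theorem hpr_mon (γ : ℝ) : hpr Γ (γ : ℝ ⧸ Γ) (mon k γ) = mon k γ := by
  rw [hpr_eq_self]
  intro δ hδ
  rw [cof_mon, if_neg]
  rintro rfl
  exact hδ rfl

theorem hpr_mon_ne {c : ℝ ⧸ Γ} {γ : ℝ} (h : (γ : ℝ ⧸ Γ) ≠ c) : hpr Γ c (mon k γ) = 0 := by
  refine cof_ext fun δ => ?_
  rw [cof_zero]
  by_cases h1 : (δ : ℝ ⧸ Γ) = c
  · rw [cof_hpr_of_eq h1, cof_mon, if_neg]
    rintro rfl
    exact h h1
  · exact cof_hpr_of_ne h1 _

theorem hpr_one : hpr Γ 0 (1 : HF k) = 1 := by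
  have h1 : (1 : HF k) = mon k 0 := ((ms_hv k).zero).symm
  rw [h1]
  exact hpr_mon 0

theorem hpr_mul (c d : ℝ ⧸ Γ) (g h : HF k) :
    hpr Γ (c + d) (hpr Γ c g * h) = hpr Γ c g * hpr Γ d h :=
  resS_mul (fun i hi j => by
    rw [Set.mem_ofPred_eq] at hi
    rw [Set.mem_ofPred_eq, Set.mem_ofPred_eq, QuotientAddGroup.mk_add, hi, add_right_inj]) g h

/-- **The Hahn field is a graded perfect field.** -/
theorem grP_hpr (p : ℕ) [Fact p.Prime] [CharP (HF k) p] [PerfectRing (HF k) p]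
    (Γ : AddSubgroup ℝ) : GrP p (hv k) (hpr (k := k) Γ) where
  one := hpr_one
  mul c d g h := hpr_mul c d g h
  ge b c h hb := hpr_ge c hb
  frob c x := by
    refine cof_ext fun γ => ?_
    by_cases h1 : (γ : ℝ ⧸ Γ) = c
    · rw [cof_hpr_of_eq h1, cof_hpr_of_eq h1]
      have h2 : (((p : ℝ) * γ : ℝ) : ℝ ⧸ Γ) = p • c := by
        rw [← h1, ← nsmul_eq_mul, QuotientAddGroup.mk_nsmul]
      have h3 := cof_Rt (k := k) p (hpr Γ (p • c) x) γ
      rw [cof_hpr_of_eq h2, ← cof_Rt (k := k) p x γ] at h3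
      have : CharP k p := (RingHom.charP_iff (algebraMap k (HF k))
        (algebraMap k (HF k)).injective p).2 inferInstance
      exact frobenius_inj k p h3
    · rw [cof_hpr_of_ne h1, cof_hpr_of_ne h1]

/-! ### The part of negative support -/

variable (k) in
/-- The part of negative support. -/
noncomputable def nuH : HF k →ₗ[k] HF k := resS (Set.Iio 0)

theorem nuH_of_ge {x : HF k} (h : (hv k).Ge 0 x) : nuH k x = 0 := by
  refine cof_ext fun γ => ?_
  rw [cof_zero]
  rcases lt_or_ge γ 0 with h1 | h1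
  · rw [nuH, cof_resS_of_mem (Set.mem_Iio.2 h1), hge_iff.1 h γ h1]
  · exact cof_resS_of_notMem (by simpa using h1) x

theorem sub_nuH_ge (x : HF k) : (hv k).Ge 0 (x - nuH k x) := by
  rw [hge_iff]
  intro γ hγ
  rw [cof_sub, nuH, cof_resS_of_mem (Set.mem_Iio.2 hγ), sub_self]

theorem nuH_mon {γ : ℝ} (h : γ < 0) : nuH k (mon k γ) = mon k γ := by
  rw [nuH, resS_eq_self]
  intro δ hδ
  rw [cof_mon, if_neg]
  rintro rfl
  exact hδ (Set.mem_Iio.2 h)

theorem nuH_pow_char (p : ℕ) [hp : Fact p.Prime] [CharP (HF k) p] (x : HF k) :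
    nuH k (x ^ p) = nuH k x ^ p := by
  have hp0 : (0 : ℝ) < p := by exact_mod_cast hp.out.pos
  refine cof_ext fun γ => ?_
  rw [cof_pow_char]
  rcases lt_or_ge γ 0 with h1 | h1
  · rw [nuH, cof_resS_of_mem (Set.mem_Iio.2 h1), cof_pow_char,
      cof_resS_of_mem (Set.mem_Iio.2 (div_neg_of_neg_of_pos h1 hp0))]
  · rw [nuH, cof_resS_of_notMem (by simpa using h1),
      cof_resS_of_notMem (by simpa using div_nonneg h1 hp0.le), zero_pow hp.out.ne_zero]

/-- The record `NegP` for the Hahn field. -/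
theorem negP_hv (p : ℕ) [Fact p.Prime] [CharP (HF k) p] (Γ : AddSubgroup ℝ)
    {E : IntermediateField k (HF k)}
    (hE : ∀ x ∈ E, ∃ (S : Finset ℝ) (a : ℝ → k), (∀ g ∈ S, mon k g ∈ E) ∧
      (hv k).Ge 0 (x - ∑ g ∈ S, a g • mon k g)) :
    NegP p (hv k) (hpr Γ) E (nuH k) where
  frob := nuH_pow_char p
  pr c x := by
    rw [nuH, hpr, resS_resS, resS_resS, Set.inter_comm]
  ge := sub_nuH_ge
  zero x := nuH_of_ge
  mem x hx := by
    obtain ⟨S, a, hS, h⟩ := hE x hx
    have h1 := nuH_of_ge h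
    rw [map_sub, sub_eq_zero, map_sum] at h1
    rw [h1]
    refine sum_mem fun g hg => ?_
    rw [map_smul]
    refine E.smul_mem ?_
    rcases lt_or_ge g 0 with h2 | h2
    · rw [nuH_mon h2]
      exact hS g hg
    · rw [nuH_of_ge]
      · exact zero_mem E
      · intro _
        rw [hv_mon]
        exact h2

/-- Roots of homogeneous elements are finite sums of homogeneous elements. -/
theorem finR_hpr (p : ℕ) [hp : Fact p.Prime] [CharP (HF k) p] [PerfectRing (HF k) p]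
    (hfin : ∀ c : ℝ ⧸ Γ, {d : ℝ ⧸ Γ | p • d = c}.Finite) : FinR p (hpr (k := k) Γ) := by
  classical
  intro c x hx
  refine ⟨(hfin c).toFinset, cof_ext fun γ => ?_⟩
  have hsum : ∀ (S : Finset (ℝ ⧸ Γ)) (f : ℝ ⧸ Γ → HF k),
      cof (∑ d ∈ S, f d) γ = ∑ d ∈ S, cof (f d) γ := by
    intro S f
    induction S using Finset.induction_on with
    | empty => rw [Finset.sum_empty, Finset.sum_empty, cof_zero]
    | insert a S ha ih => rw [Finset.sum_insert ha, Finset.sum_insert ha, cof_add, ih]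
  rw [hsum]
  by_cases h1 : p • (γ : ℝ ⧸ Γ) = c
  · rw [Finset.sum_eq_single (γ : ℝ ⧸ Γ), cof_hpr_of_eq rfl]
    · intro d _ hd
      exact cof_hpr_of_ne hd.symm _
    · intro h
      exact absurd ((hfin c).mem_toFinset.2 h1) h
  · rw [Finset.sum_eq_zero]
    · have h2 := cof_Rt (k := k) p x γ
      have h3 : (((p : ℝ) * γ : ℝ) : ℝ ⧸ Γ) ≠ c := by
        rw [← nsmul_eq_mul, QuotientAddGroup.mk_nsmul]
        exact h1
      rw [hpr_eq_self.1 hx _ h3] at h2
      exact pow_eq_zero_iff hp.out.ne_zero |>.1 h2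
    · intro d hd
      refine cof_hpr_of_ne (fun h => h1 ?_) _
      rw [h]
      exact (hfin c).mem_toFinset.1 hd

/-- The fibres of the multiplication by `p` on `ℝ / Γ` are finite if `Γ / p Γ` is finite. -/
theorem finite_fibre {p : ℕ} (hp : 0 < p) (T : Finset ℝ)
    (hT : ∀ g ∈ Γ, ∃ t ∈ T, g / p - t ∈ Γ) (c : ℝ ⧸ Γ) : {d : ℝ ⧸ Γ | p • d = c}.Finite := by
  classical
  have hp0 : (p : ℝ) ≠ 0 := by exact_mod_cast hp.ne'
  obtain ⟨γ, rfl⟩ := QuotientAddGroup.mk_surjective c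
  refine (T.image fun t : ℝ => ((γ / p + t : ℝ) : ℝ ⧸ Γ)).finite_toSet.subset ?_
  intro d hd
  obtain ⟨δ, rfl⟩ := QuotientAddGroup.mk_surjective d
  have h1 : ((p • δ : ℝ) : ℝ ⧸ Γ) = (γ : ℝ ⧸ Γ) := hd
  rw [QuotientAddGroup.eq, nsmul_eq_mul] at h1
  have h2 : (p : ℝ) * δ - γ ∈ Γ := by
    have := Γ.neg_mem h1
    rwa [neg_add_rev, neg_neg, add_comm, ← sub_eq_add_neg] at this
  obtain ⟨t, ht, h3⟩ := hT _ h2
  rw [Finset.coe_image]
  refine ⟨t, ht, ?_⟩
  change ((γ / p + t : ℝ) : ℝ ⧸ Γ) = (δ : ℝ ⧸ Γ)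
  rw [QuotientAddGroup.eq]
  have h4 : -(γ / p + t) + δ = ((p : ℝ) * δ - γ) / p - t := by
    field_simp
    ring
  rw [h4]
  exact h3

end Pool.Agent.TWIV
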