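import Pool.Agent.Lib.TWIV.SysR

/-!
# TANK W, leaf (IV), row A5: jets and systems over any index monoid

`I` is a commutative monoid of indices (`ℕ × ℕ` for the mixed lift, `Fin r → ℕ` for `r` generators),
`dg : I →+ A` the degrees.
* `JetsM`: a family of jets, `JetsM.jet_q`, `jet_e`, `jet_zero`, `jet_iter`, `jet_iter_e`, `rr`;
* `JetsMC`: compatible with the grading;
* `SysM`: systems; `JetsM.sysM` (the constant system), `SysM.fin`, `SysM.gauge`, `SysM.derived`;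
* `Jets.toM`, `JetsC.toM`: the case `ℕ × ℕ`.
-/

set_option autoImplicit false
set_option linter.unusedSectionVars false

open Polynomial

namespace Pool.Agent.TWIV

open Pool.Agent.H15JM (RVal)
open Pool.Agent.TWC (Nul Cau)

universe u

variable {k H : Type u} [Field k] [Field H] [Algebra k H]
  {A : Type*} [AddCommGroup A] {I : Type*} [AddCommMonoid I]

/-- The index is divisible by `p`. -/
def Pd (p : ℕ) (i : I) : Prop := ∃ j, i = p • j

/-- A family of jets. -/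
structure JetsM (p : ℕ) (v : RVal H) (pr : A → H →ₗ[k] H) (K : IntermediateField k H)
    (dg : I →+ A) (D : I → H → H) : Prop where
  id : ∀ x ∈ K, D 0 x = x
  add : ∀ i, ∀ x ∈ K, ∀ y ∈ K, D i (x + y) = D i x + D i y
  smul : ∀ i, ∀ a : k, ∀ x ∈ K, D i (algebraMap k H a * x) = algebraMap k H a * D i x
  norm : ∀ i, ∀ x ∈ K, ∀ b : ℝ, v.Ge b x → v.Ge b (D i x)
  frob : ∀ i, ∀ x ∈ K, D (p • i) (x ^ p) = D i x ^ p
  frob0 : ∀ i, ¬ Pd p i → ∀ x ∈ K, D i (x ^ p) = 0
  deg : ∀ i c, ∀ x ∈ K, pr c x = x → pr (c - dg i) (D i x) = D i x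

/-- Jets compatible with the grading. -/
structure JetsMC (p : ℕ) (v : RVal H) (pr : A → H →ₗ[k] H) (K : IntermediateField k H)
    (dg : I →+ A) (D : I → H → H) : Prop extends JetsM p v pr K dg D where
  gr : ∀ c, ∀ x ∈ K, pr c x ∈ K
  prc : ∀ i c, ∀ x ∈ K, D i (pr c x) = pr (c - dg i) (D i x)

/-- The composition law `D i (D e x) = ch i e * D (i + e) x` for `e = p ^ m • e₀`. -/
structure CompM (p : ℕ) (K : IntermediateField k H) (D : I → H → H) (ch : I → I → ℕ)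
    (e₀ : I) : Prop where
  mem : ∀ m : ℕ, ∀ x ∈ K, D (p ^ m • e₀) x ∈ K
  comp : ∀ m i, ∀ x ∈ K, D i (D (p ^ m • e₀) x) = (ch i (p ^ m • e₀) : H) * D (i + p ^ m • e₀) x
  mul : ∀ m i, (ch (p • i) (p ^ (m + 1) • e₀) : H) = (ch i (p ^ m • e₀) : H)
  zero : ∀ i, Pd p (i + e₀) → (ch i e₀ : H) = 0
  /-- cancellation in the monoid of indices -/
  can : ∀ i j : I, Pd p (i + p • j) → Pd p i

section Main

variable {v : RVal H} {p : ℕ} [hp : Fact p.Prime] [CharP H p]
  {pr : A → H →ₗ[k] H} {K : IntermediateField k H} {dg : I →+ A} {D : I → H → H}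

namespace JetsM

variable (h : JetsM p v pr K dg D)
include h

theorem zero (i : I) : D i 0 = 0 := by
  have h1 := h.add i 0 K.zero_mem 0 K.zero_mem
  rw [add_zero] at h1
  exact left_eq_add.1 h1

theorem neg (i : I) {x : H} (hx : x ∈ K) : D i (-x) = -D i x := by
  have h1 := h.add i x hx (-x) (neg_mem hx)
  rw [add_neg_cancel, h.zero] at h1
  exact (neg_eq_of_add_eq_zero_right h1.symm).symm

theorem sub (i : I) {x y : H} (hx : x ∈ K) (hy : y ∈ K) : D i (x - y) = D i x - D i y := by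
  rw [sub_eq_add_neg, h.add i x hx _ (neg_mem hy), h.neg i hy, ← sub_eq_add_neg]

theorem sum {ι : Type*} (i : I) (S : Finset ι) (f : ι → H) (hf : ∀ c ∈ S, f c ∈ K) :
    D i (∑ c ∈ S, f c) = ∑ c ∈ S, D i (f c) := by
  classical
  induction S using Finset.induction_on with
  | empty => simpa using h.zero i
  | insert a S ha ih =>
    rw [Finset.sum_insert ha, Finset.sum_insert ha,
      h.add i _ (hf a (Finset.mem_insert_self a S)) _
        (sum_mem fun c hc => hf c (Finset.mem_insert_of_mem hc)),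
      ih fun c hc => hf c (Finset.mem_insert_of_mem hc)]

theorem nul (i : I) {x : ℕ → H} (hx : ∀ n, x n ∈ K) (hn : Nul v x) :
    Nul v fun n => D i (x n) := by
  intro ε hε
  obtain ⟨N, hN⟩ := hn ε hε
  exact ⟨N, fun n hn => h.norm i _ (hx n) _ (hN n hn)⟩

end JetsM

section RR

variable [PerfectRing H p] {T : Finset A} {q : ℕ → H} {e : A → ℕ → H} {f : H}

namespace JetsM

/-- The relation for the jets at `p i`. -/
theorem rel_mul (hD : JetsM p v pr K dg D) (h : Exo p v pr K T q e f) (i : I) :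
    Nul v fun n => D i (q n) ^ p - D (p • i) (q n) - D (p • i) f - ∑ c ∈ T, D i (e c n) ^ p := by
  have h1 := hD.nul (p • i) (x := fun n => q n ^ p - q n - f - ∑ c ∈ T, e c n ^ p)
    (fun n => sub_mem (sub_mem (sub_mem (pow_mem (h.cq.mem n) _) (h.cq.mem n)) h.mf)
      (sum_mem fun c hc => pow_mem ((h.ce c hc).mem n) _)) h.rel
  refine h1.congr fun n => ?_
  have hq := h.cq.mem n
  have hs : ∑ c ∈ T, e c n ^ p ∈ K := sum_mem fun c hc => pow_mem ((h.ce c hc).mem n) _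
  rw [hD.sub _ (sub_mem (sub_mem (pow_mem hq _) hq) h.mf) hs,
    hD.sub _ (sub_mem (pow_mem hq _) hq) h.mf, hD.sub _ (pow_mem hq _) hq, hD.frob i _ hq,
    hD.sum _ T _ fun c hc => pow_mem ((h.ce c hc).mem n) _]
  congr 1
  exact Finset.sum_congr rfl fun c hc => hD.frob i _ ((h.ce c hc).mem n)

/-- **(J0)** -/
theorem jet_zero (hD : JetsM p v pr K dg D) (h : Exo p v pr K T q e f) {i : I} (hi : ¬ Pd p i) :
    Nul v fun n => D i (q n) + D i f := by
  have h1 := hD.nul i (x := fun n => q n ^ p - q n - f - ∑ c ∈ T, e c n ^ p)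
    (fun n => sub_mem (sub_mem (sub_mem (pow_mem (h.cq.mem n) _) (h.cq.mem n)) h.mf)
      (sum_mem fun c hc => pow_mem ((h.ce c hc).mem n) _)) h.rel
  refine (h1.neg).congr fun n => ?_
  have hq := h.cq.mem n
  have hs : ∑ c ∈ T, e c n ^ p ∈ K := sum_mem fun c hc => pow_mem ((h.ce c hc).mem n) _
  rw [hD.sub _ (sub_mem (sub_mem (pow_mem hq _) hq) h.mf) hs,
    hD.sub _ (sub_mem (pow_mem hq _) hq) h.mf, hD.sub _ (pow_mem hq _) hq, hD.frob0 i hi _ hq,
    hD.sum _ T _ fun c hc => pow_mem ((h.ce c hc).mem n) _,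
    Finset.sum_eq_zero fun c hc => hD.frob0 i hi _ ((h.ce c hc).mem n)]
  ring

/-- One step for `q`. -/
theorem jet_q (hpr : GrP p v pr) (hne : ∀ c d x, c ≠ d → pr c (pr d x) = 0)
    (hD : JetsM p v pr K dg D) (h : Exo p v pr K T q e f) (i : I) :
    Nul v fun n => D i (q n) - pr (-dg i) (Rt p 1 (D (p • i) (q n) + D (p • i) f)) := by
  have h1 := nul_pr p hpr (nul_Rt p (hD.rel_mul h i) 1) (-dg i)
  refine h1.congr fun n => ?_
  have h2 := hD.deg i 0 (q n) (h.cq.mem n) (h.q0 n)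
  rw [zero_sub] at h2
  have h3 : ∑ c ∈ T, pr (-dg i) (Rt p 1 (D i (e c n) ^ p)) = 0 := by
    refine Finset.sum_eq_zero fun c hc => ?_
    rw [Rt_one_pow, ← hD.deg i c _ ((h.ce c hc).mem n) (h.e0 c hc n)]
    refine hne _ _ _ fun h4 => h.ne ?_
    have h5 : (0 : A) = c := by
      have h6 := congrArg (fun z => z + dg i) h4
      simpa using h6
    rwa [h5]
  rw [Rt_sub, Rt_sub, Rt_sub, Rt_sum, map_sub, map_sub, map_sub, map_sum, h3, Rt_one_pow, h2,
    Rt_add, map_add]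
  ring

/-- One step for `e c`. -/
theorem jet_e (hpr : GrP p v pr) (hne : ∀ c d x, c ≠ d → pr c (pr d x) = 0)
    (hD : JetsM p v pr K dg D) (h : Exo p v pr K T q e f) (i : I) {c : A} (hc : c ∈ T) :
    Nul v fun n => D i (e c n) +
      pr (c - dg i) (Rt p 1 (D (p • i) (q n) + D (p • i) f)) := by
  classical
  have h1 := (nul_pr p hpr (nul_Rt p (hD.rel_mul h i) 1) (c - dg i)).neg
  refine h1.congr fun n => ?_
  have hc0 : c ≠ 0 := fun h0 => h.ne (h0 ▸ hc)
  have hsum : ∑ d ∈ T, pr (c - dg i) (Rt p 1 (D i (e d n) ^ p)) = D i (e c n) := by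
    rw [Finset.sum_eq_single c]
    · rw [Rt_one_pow]
      exact hD.deg i c _ ((h.ce c hc).mem n) (h.e0 c hc n)
    · intro d hd hdc
      rw [Rt_one_pow, ← hD.deg i d _ ((h.ce d hd).mem n) (h.e0 d hd n)]
      refine hne _ _ _ fun h3 => hdc (sub_left_injective h3).symm
    · exact fun h2 => absurd hc h2
  have h3 : pr (c - dg i) (D i (q n)) = 0 := by
    have h2 := hD.deg i 0 (q n) (h.cq.mem n) (h.q0 n)
    rw [← h2]
    refine hne _ _ _ fun h4 => hc0 ?_
    exact sub_left_injective h4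
  rw [Rt_sub, Rt_sub, Rt_sub, Rt_sum, map_sub, map_sub, map_sub, map_sum, hsum, Rt_one_pow, h3,
    Rt_add, map_add]
  ring

/-- **(J)** -/
theorem jet_iter (hpr : GrP p v pr) (hne : ∀ c d x, c ≠ d → pr c (pr d x) = 0)
    (hD : JetsM p v pr K dg D) (h : Exo p v pr K T q e f) (i : I) (M : ℕ) :
    Nul v fun n => D i (q n) -
      (∑ s ∈ Finset.range M, pr (-dg i) (Rt p (s + 1) (D (p ^ (s + 1) • i) f))) -
      pr (-dg i) (Rt p M (D (p ^ M • i) (q n))) := by
  induction M with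
  | zero =>
    refine Nul.congr (Nul.zero (v := v)) fun n => ?_
    have h2 := hD.deg i 0 (q n) (h.cq.mem n) (h.q0 n)
    rw [zero_sub] at h2
    rw [Finset.range_zero, Finset.sum_empty, pow_zero, one_smul, Rt_idx_zero, h2]
    ring
  | succ M ih =>
    have h1 := nul_pr p hpr (nul_Rt p (hD.jet_q hpr hne h (p ^ M • i)) M) (-dg i)
    refine (ih.add h1).congr fun n => ?_
    have hd : -dg (p ^ M • i) = p ^ M • (-dg i) := by
      rw [map_nsmul, smul_neg]
    have e1 : p • (p ^ M • i) = p ^ (M + 1) • i := by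
      rw [← mul_smul, ← pow_succ']
    rw [hd, Rt_sub, map_sub, hpr.frobN M, Rt_Rt, Rt_add, map_add, Finset.sum_range_succ, e1]
    ring

/-- (J) for `e c`. -/
theorem jet_iter_e (hpr : GrP p v pr) (hne : ∀ c d x, c ≠ d → pr c (pr d x) = 0)
    (hD : JetsM p v pr K dg D) (h : Exo p v pr K T q e f) (i : I) (M : ℕ) {c : A} (hc : c ∈ T)
    (hpc : p • c = 0) :
    Nul v fun n => D i (e c n) +
      (∑ s ∈ Finset.range (M + 1), pr (c - dg i) (Rt p (s + 1) (D (p ^ (s + 1) • i) f))) +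
      pr (c - dg i) (Rt p (M + 1) (D (p ^ (M + 1) • i) (q n))) := by
  have h1 := hD.jet_e hpr hne h i hc
  have h2 := nul_pr p hpr (nul_Rt p (hD.jet_iter hpr hne h (p • i) M) 1) (c - dg i)
  refine (h1.sub h2).congr fun n => ?_
  have hd : -dg (p • i) = p ^ 1 • (c - dg i) := by
    rw [map_nsmul, pow_one, smul_sub, hpc, zero_sub]
  have e1 : ∀ s : ℕ, p ^ s • (p • i) = p ^ (s + 1) • i := fun s => by
    rw [← mul_smul, ← pow_succ]
  have hs : pr (c - dg i) (Rt p 1 (∑ s ∈ Finset.range M,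
      pr (-dg (p • i)) (Rt p (s + 1) (D (p ^ (s + 1) • (p • i)) f)))) =
      ∑ s ∈ Finset.range M, pr (c - dg i) (Rt p (s + 1 + 1) (D (p ^ (s + 1 + 1) • i) f)) := by
    rw [Rt_sum, map_sum]
    refine Finset.sum_congr rfl fun s _ => ?_
    rw [hd, hpr.frobN 1, Rt_Rt, e1, add_comm 1 (s + 1)]
  rw [Rt_sub, Rt_sub, map_sub, map_sub, hs, Finset.sum_range_succ']
  rw [hd, hpr.frobN 1, Rt_Rt, e1, add_comm 1 M, Rt_add, map_add]
  simp only [zero_add, pow_one]
  ring

/-- **(RR)** -/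
theorem rr (hpr : GrP p v pr) (hne : ∀ c d x, c ≠ d → pr c (pr d x) = 0)
    (hD : JetsM p v pr K dg D) (h : Exo p v pr K T q e f) :
    ∃ g : ℝ, 0 ≤ g ∧ ∀ i : I, ¬ Pd p i → ∀ M : ℕ,
      v.Ge (-(g / p ^ M)) (∑ s ∈ Finset.range (M + 1),
        pr (-dg i) (Rt p s (D (p ^ s • i) f))) := by
  -- the bound
  obtain ⟨N, hN⟩ := h.cq.cau 1 one_pos
  obtain ⟨g, hg, hqg⟩ : ∃ g : ℝ, 0 < g ∧ ∀ n, N ≤ n → v.Ge (-g) (q n) := by
    refine ⟨max 1 (-v (q N)), lt_of_lt_of_le one_pos (le_max_left _ _), fun n hn => ?_⟩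
    have e1 : q n = (q n - q N) + q N := by ring
    rw [e1]
    refine RVal.Ge.add ((hN n N hn le_rfl).mono (neg_le_neg (le_max_left _ _))) ?_
    refine (RVal.ge_self (v := v) (q N)).mono ?_
    have := le_max_right 1 (-v (q N))
    linarith
  refine ⟨g, hg.le, fun i hi M => ?_⟩
  have hpM : (0 : ℝ) < p ^ M := by
    have := hp.out.pos
    positivity
  have hε : 0 < g / p ^ M := div_pos hg hpM
  obtain ⟨N₁, h1⟩ := (hD.jet_zero h hi).sub (hD.jet_iter hpr hne h i M) _ hε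
  have h2 := h1 (max N N₁) (le_max_right _ _)
  set n := max N N₁ with hn
  have h3 : v.Ge (-(g / p ^ M)) (pr (-dg i) (Rt p M (D (p ^ M • i) (q n)))) := by
    refine hpr.ge _ _ _ ?_
    have h4 := ge_Rt p (n := M) (hD.norm (p ^ M • i) (q n) (h.cq.mem n) _
      (hqg n (le_max_left _ _)))
    rwa [neg_div] at h4
  have hf := hD.deg i 0 f h.mf h.f0
  rw [zero_sub] at hf
  have e1 : ∑ s ∈ Finset.range (M + 1), pr (-dg i) (Rt p s (D (p ^ s • i) f)) =
      (D i (q n) + D i f - (D i (q n) -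
      (∑ s ∈ Finset.range M, pr (-dg i) (Rt p (s + 1) (D (p ^ (s + 1) • i) f))) -
      pr (-dg i) (Rt p M (D (p ^ M • i) (q n))))) -
      pr (-dg i) (Rt p M (D (p ^ M • i) (q n))) := by
    rw [Finset.sum_range_succ', pow_zero, one_smul, Rt_idx_zero, hf]
    ring
  rw [e1]
  exact h2.sub h3

end JetsM

end RR

section Sys

variable [PerfectRing H p] {δ : ℤ → A} {φ ψ : ℤ → H}

/-- The sum of (RR), cut at `M`. -/
noncomputable def csM (p : ℕ) [Fact p.Prime] [CharP H p] [PerfectRing H p] (pr : A → H →ₗ[k] H)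
    (dg : I →+ A) (D : I → H → H) (δ : ℤ → A) (φ : ℤ → H) (n : ℤ) (i : I) (M : ℕ) : H :=
  ∑ s ∈ Finset.range M, pr (δ n - dg i) (Rt p s (D (p ^ s • i) (φ (n + s))))

/-- A system. -/
structure SysM (p : ℕ) [Fact p.Prime] [CharP H p] [PerfectRing H p] (v : RVal H)
    (pr : A → H →ₗ[k] H) (K : IntermediateField k H) (dg : I →+ A) (D : I → H → H) (δ : ℤ → A)
    (φ : ℤ → H) : Prop where
  deg : ∀ n, p • δ n = δ (n + 1)
  mem : ∀ n, φ n ∈ K
  hom : ∀ n, pr (δ n) (φ n) = φ n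
  rr : ∀ n i, ¬ Pd p i → Nul v fun M => csM p pr dg D δ φ n i M

/-- The constant system. -/
theorem JetsM.sysM (hpr : GrP p v pr) (hne : ∀ c d x, c ≠ d → pr c (pr d x) = 0)
    (hD : JetsM p v pr K dg D) {T : Finset A} {q : ℕ → H} {e : A → ℕ → H} {f : H}
    (h : Exo p v pr K T q e f) : SysM p v pr K dg D (fun _ => 0) fun _ => f where
  deg := fun _ => smul_zero _
  mem := fun _ => h.mf
  hom := fun _ => h.f0
  rr := by
    intro n i hi ε hε
    obtain ⟨g, hg, h1⟩ := hD.rr hpr hne h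
    -- the bound tends to zero
    obtain ⟨M₀, hM₀⟩ : ∃ M₀ : ℕ, g / ε < (p : ℝ) ^ M₀ :=
      pow_unbounded_of_one_lt _ (by exact_mod_cast hp.out.one_lt)
    refine ⟨M₀ + 1, fun M hM => ?_⟩
    obtain ⟨M', rfl⟩ : ∃ M', M = M' + 1 := ⟨M - 1, by omega⟩
    have h2 := h1 i hi M'
    have e1 : csM p pr dg D (fun _ => 0) (fun _ => f) n i (M' + 1) =
        ∑ s ∈ Finset.range (M' + 1), pr (-dg i) (Rt p s (D (p ^ s • i) f)) := by
      unfold csM
      rw [zero_sub]
    show v.Ge (-ε) (csM p pr dg D (fun _ => 0) (fun _ => f) n i (M' + 1))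
    rw [e1]
    refine h2.mono (neg_le_neg ?_)
    have h3 : (0 : ℝ) < p ^ M' := by
      have := hp.out.pos
      positivity
    rw [div_le_iff₀ h3]
    have h4 : (p : ℝ) ^ M₀ ≤ p ^ M' :=
      pow_le_pow_right₀ (by exact_mod_cast hp.out.one_le) (by omega)
    have h5 : g < ε * p ^ M₀ := by
      rw [div_lt_iff₀ hε] at hM₀
      linarith
    nlinarith

namespace SysM

theorem degN (h : SysM p v pr K dg D δ φ) (n : ℤ) (s : ℕ) : p ^ s • δ n = δ (n + s) := by
  induction s with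
  | zero => simp
  | succ s ih =>
    rw [pow_succ', mul_smul, ih, h.deg]
    congr 1
    push_cast
    ring

theorem add (hD : JetsM p v pr K dg D) (h : SysM p v pr K dg D δ φ)
    (h' : SysM p v pr K dg D δ ψ) : SysM p v pr K dg D δ fun n => φ n + ψ n where
  deg := h.deg
  mem := fun n => add_mem (h.mem n) (h'.mem n)
  hom := fun n => by rw [map_add, h.hom, h'.hom]
  rr := by
    intro n i hi
    refine ((h.rr n i hi).add (h'.rr n i hi)).congr fun M => ?_
    unfold csM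
    rw [← Finset.sum_add_distrib]
    refine Finset.sum_congr rfl fun s _ => ?_
    rw [hD.add _ _ (h.mem _) _ (h'.mem _), Rt_add, map_add]

theorem neg (hD : JetsM p v pr K dg D) (h : SysM p v pr K dg D δ φ) :
    SysM p v pr K dg D δ fun n => -φ n where
  deg := h.deg
  mem := fun n => neg_mem (h.mem n)
  hom := fun n => by rw [map_neg, h.hom]
  rr := by
    intro n i hi
    refine (h.rr n i hi).neg.congr fun M => ?_
    unfold csM
    rw [← Finset.sum_neg_distrib]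
    refine Finset.sum_congr rfl fun s _ => ?_
    rw [hD.neg _ (h.mem _), Rt_neg, map_neg]

theorem sub (hD : JetsM p v pr K dg D) (h : SysM p v pr K dg D δ φ)
    (h' : SysM p v pr K dg D δ ψ) : SysM p v pr K dg D δ fun n => φ n - ψ n := by
  have h1 := h.add hD (h'.neg hD)
  simpa only [sub_eq_add_neg] using h1

/-- A null family may be subtracted. -/
theorem congr (hpr : GrP p v pr) (hD : JetsM p v pr K dg D) (h : SysM p v pr K dg D δ φ)
    (hm : ∀ n, ψ n ∈ K) (hh : ∀ n, pr (δ n) (ψ n) = ψ n) (h1 : ∀ n, v.Ge 0 (φ n - ψ n)) :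
    SysM p v pr K dg D δ ψ where
  deg := h.deg
  mem := hm
  hom := hh
  rr := by
    intro n i hi
    have h2 : Nul v fun M => csM p pr dg D δ (fun n => φ n - ψ n) n i M := by
      refine Nul.of_ge fun M => RVal.Ge.sum _ _ fun s _ => hpr.ge _ _ _ ?_
      have h3 := ge_Rt p (n := s) (hD.norm (p ^ s • i) _ (sub_mem (h.mem (n + s)) (hm (n + s))) _
        (h1 (n + s)))
      rwa [zero_div] at h3
    refine ((h.rr n i hi).sub h2).congr fun M => ?_
    unfold csM
    rw [← Finset.sum_sub_distrib]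
    refine Finset.sum_congr rfl fun s _ => ?_
    rw [hD.sub _ (h.mem _) (hm _), Rt_sub, map_sub]
    ring

/-- Finite sums. -/
theorem fin (hpr : GrP p v pr) (h : SysM p v pr K dg D δ φ) {n : ℤ} {i : I}
    (hi : ¬ Pd p i) {M₁ : ℕ} (hO : ∀ s : ℕ, M₁ ≤ s → v.Ge 0 (D (p ^ s • i) (φ (n + s)))) :
    v.Ge 0 (csM p pr dg D δ φ n i M₁) := by
  refine Nul.const (a := csM p pr dg D δ φ n i M₁) ?_
  intro ε hε
  obtain ⟨M₀, h1⟩ := h.rr n i hi ε hε
  refine ⟨0, fun _ _ => ?_⟩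
  have h2 := h1 (max M₀ M₁) (le_max_left _ _)
  have e1 : csM p pr dg D δ φ n i M₁ = csM p pr dg D δ φ n i (max M₀ M₁) -
      ∑ s ∈ Finset.Ico M₁ (max M₀ M₁), pr (δ n - dg i) (Rt p s (D (p ^ s • i) (φ (n + s)))) := by
    unfold csM
    rw [← Finset.sum_range_add_sum_Ico _ (le_max_right M₀ M₁)]
    ring
  rw [e1]
  refine h2.sub ((RVal.Ge.sum _ _ fun s hs => ?_).mono (by linarith : -ε ≤ 0))
  refine hpr.ge _ _ _ ?_
  have h3 := ge_Rt p (n := s) (hO s (Finset.mem_Ico.1 hs).1)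
  rwa [zero_div] at h3

/-- **Gauge.** -/
theorem gauge (hpr : GrP p v pr) (hD : JetsMC p v pr K dg D) (h : SysM p v pr K dg D δ φ)
    {μ : ℤ → H} (hμ : ∀ n, μ n ∈ K) {g : ℝ} (hg : ∀ n, v.Ge (-g) (μ n))
    (hμd : ∀ n, pr (δ n) (μ n ^ p) = μ n ^ p) :
    SysM p v pr K dg D δ fun n => φ n - μ n ^ p + pr (δ n) (μ (n + 1)) where
  deg := h.deg
  mem := fun n => add_mem (sub_mem (h.mem n) (pow_mem (hμ n) _)) (hD.gr _ _ (hμ _))
  hom := fun n => by rw [map_add, map_sub, h.hom, hμd, hpr.idem]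
  rr := by
    intro n i hi
    -- the last term
    have hlast : Nul v fun M : ℕ => if M = 0 then (0 : H) else pr (δ n - dg i)
        (Rt p (M - 1) (D (p ^ (M - 1) • i) (μ (n + M)))) := by
      intro ε hε
      obtain ⟨M₀, hM₀⟩ : ∃ M₀ : ℕ, |g| / ε < (p : ℝ) ^ M₀ :=
        pow_unbounded_of_one_lt _ (by exact_mod_cast hp.out.one_lt)
      refine ⟨M₀ + 1, fun M hM => ?_⟩
      show v.Ge (-ε) (if M = 0 then (0 : H) else pr (δ n - dg i)
        (Rt p (M - 1) (D (p ^ (M - 1) • i) (μ (n + M)))))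
      rw [if_neg (by omega)]
      refine hpr.ge _ _ _ ((ge_Rt p (hD.norm _ _ (hμ _) _ (hg _))).mono ?_)
      have h3 : (0 : ℝ) < p ^ (M - 1) := by
        have := hp.out.pos
        positivity
      rw [le_div_iff₀ h3]
      have h4 : (p : ℝ) ^ M₀ ≤ p ^ (M - 1) :=
        pow_le_pow_right₀ (by exact_mod_cast hp.out.one_le) (by omega)
      have h5 : |g| < ε * p ^ M₀ := by
        rw [div_lt_iff₀ hε] at hM₀
        linarith
      have h6 := le_abs_self g
      nlinarith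
    refine ((h.rr n i hi).add hlast).congr fun M => ?_
    show csM p pr dg D δ φ n i M + (if M = 0 then (0 : H) else pr (δ n - dg i)
        (Rt p (M - 1) (D (p ^ (M - 1) • i) (μ (n + M))))) = _
    -- the terms with a `p`-th power
    have hb : ∀ s : ℕ, pr (δ n - dg i) (Rt p s (D (p ^ s • i) (μ (n + s) ^ p))) =
        if s = 0 then (0 : H) else pr (δ n - dg i)
          (Rt p (s - 1) (D (p ^ (s - 1) • i) (μ (n + s)))) := by
      intro s
      rcases Nat.eq_zero_or_pos s with rfl | hs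
      · rw [if_pos rfl, pow_zero, one_smul, hD.frob0 i hi _ (hμ _), Rt_zero, map_zero]
      · obtain ⟨s, rfl⟩ : ∃ s', s = s' + 1 := ⟨s - 1, by omega⟩
        rw [if_neg (by omega), Nat.add_sub_cancel, pow_succ', mul_smul,
          hD.frob _ _ (hμ _), ← Rt_Rt, Rt_one_pow]
    -- the other terms
    have ha : ∀ s : ℕ, pr (δ n - dg i) (Rt p s (D (p ^ s • i)
        (pr (δ (n + s)) (μ (n + s + 1))))) = pr (δ n - dg i)
        (Rt p s (D (p ^ s • i) (μ (n + s + 1)))) := by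
      intro s
      have h1 : δ (n + s) - dg (p ^ s • i) = p ^ s • (δ n - dg i) := by
        rw [smul_sub, h.degN, map_nsmul]
      rw [hD.prc _ _ _ (hμ _), h1, hpr.frobN]
    induction M with
    | zero =>
      rw [if_pos rfl, add_zero]
      rfl
    | succ M ih =>
      have e1 : ∀ φ' : ℤ → H, csM p pr dg D δ φ' n i (M + 1) = csM p pr dg D δ φ' n i M +
          pr (δ n - dg i) (Rt p M (D (p ^ M • i) (φ' (n + M)))) := fun φ' =>
        Finset.sum_range_succ _ _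
      rw [e1, e1, ← ih, if_neg (by omega), Nat.add_sub_cancel,
        hD.add _ _ (sub_mem (h.mem _) (pow_mem (hμ _) _)) _ (hD.gr _ _ (hμ _)),
        hD.toJetsM.sub _ (h.mem _) (pow_mem (hμ _) _), Rt_add, Rt_sub, map_add, map_sub, ha M,
        hb M]
      push_cast
      rw [← add_assoc n]
      ring

/-- The sums at negative indices of a family which vanishes there. -/
theorem cs_shift (hpr : GrP p v pr) {δ' : ℤ → A} (hδ' : ∀ m, p • δ' m = δ' (m + 1)) {ψ : ℤ → H}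
    (hψ0 : ∀ m : ℤ, m < 0 → ψ m = 0) (hD0 : ∀ i, D i 0 = 0) (r : ℕ) (i : I) (M : ℕ) :
    csM p pr dg D δ' ψ (-(r : ℤ)) i (r + M) = pr (δ' (-(r : ℤ)) - dg i)
      (Rt p r (csM p pr dg D δ' ψ 0 (p ^ r • i) M)) := by
  have hdegN : ∀ (n : ℤ) (s : ℕ), p ^ s • δ' n = δ' (n + s) := by
    intro n s
    induction s with
    | zero => simp
    | succ s ih =>
      rw [pow_succ', mul_smul, ih, hδ']
      congr 1
      push_cast
      ring
  unfold csM
  rw [Finset.sum_range_add, Finset.sum_eq_zero, zero_add, Rt_sum, map_sum]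
  · refine Finset.sum_congr rfl fun s _ => ?_
    have h1 : δ' 0 - dg (p ^ r • i) = p ^ r • (δ' (-(r : ℤ)) - dg i) := by
      rw [smul_sub, hdegN, map_nsmul]
      congr 2
      ring
    have h2 : -(r : ℤ) + ((r + s : ℕ) : ℤ) = 0 + s := by
      push_cast
      ring
    have e1 : p ^ (r + s) • i = p ^ s • (p ^ r • i) := by
      rw [← mul_smul, pow_add, mul_comm]
    rw [h1, hpr.frobN, Rt_Rt, h2, e1]
  · intro s hs
    rw [Finset.mem_range] at hs
    rw [hψ0 _ (by omega), hD0, Rt_zero, map_zero]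

/-- The sum of the derived system, `m ≥ 0`. -/
theorem derived_pos {ch : I → I → ℕ} {e₀ : I} (hC : CompM p K D ch e₀)
    (h : SysM p v pr K dg D δ φ) (n₀ : ℤ) {δ' : ℤ → A}
    (hδ0 : ∀ m : ℕ, δ' m = δ (n₀ + m) - dg (p ^ m • e₀)) {ψ : ℤ → H}
    (hψ : ∀ m : ℕ, ψ m = D (p ^ m • e₀) (φ (n₀ + m))) (m : ℕ) (i : I) (M : ℕ) :
    csM p pr dg D δ' ψ m i M = (ch i (p ^ m • e₀) : H) *
      csM p pr dg D δ φ (n₀ + m) (i + p ^ m • e₀) M := by
  have hch : ∀ s : ℕ, (ch (p ^ s • i) (p ^ (m + s) • e₀) : H) = (ch i (p ^ m • e₀) : H) := by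
    intro s
    induction s with
    | zero => rw [pow_zero, one_smul, add_zero]
    | succ s ih =>
      rw [← ih, pow_succ', mul_smul, ← hC.mul (m + s) (p ^ s • i)]
      rfl
  unfold csM
  rw [Finset.mul_sum]
  refine Finset.sum_congr rfl fun s _ => ?_
  have e1 : ((m : ℤ) + s) = ((m + s : ℕ) : ℤ) := by push_cast; rfl
  have e2 : n₀ + ((m + s : ℕ) : ℤ) = n₀ + m + s := by push_cast; ring
  rw [e1, hψ, e2, hC.comp _ _ _ (h.mem _)]
  have e3 : p ^ s • i + p ^ (m + s) • e₀ = p ^ s • (i + p ^ m • e₀) := by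
    rw [smul_add, ← mul_smul, pow_add, mul_comm]
  have e5 : δ' m - dg i = δ (n₀ + m) - dg (i + p ^ m • e₀) := by
    rw [hδ0, map_add]
    abel
  rw [e3, hch, Rt_mul, Rt_natCast, e5]
  have h1 : ∀ (c : ℕ) (x : H) (d : A), pr d ((c : H) * x) = (c : H) * pr d x := by
    intro c x d
    rw [← nsmul_eq_mul, ← nsmul_eq_mul, map_nsmul]
  rw [h1]

/-- **The derived system.** -/
theorem derived (hpr : GrP p v pr) (hD : JetsM p v pr K dg D) {ch : I → I → ℕ} {e₀ : I}
    (hC : CompM p K D ch e₀) (he₀ : ¬ Pd p e₀) (h : SysM p v pr K dg D δ φ) (n₀ : ℤ) {δ' : ℤ → A}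
    (hδ' : ∀ m, p • δ' m = δ' (m + 1))
    (hδ0 : ∀ m : ℕ, δ' m = δ (n₀ + m) - dg (p ^ m • e₀)) {ψ : ℤ → H}
    (hψ : ∀ m : ℕ, ψ m = D (p ^ m • e₀) (φ (n₀ + m))) (hψ0 : ∀ m : ℤ, m < 0 → ψ m = 0) :
    SysM p v pr K dg D δ' ψ where
  deg := hδ'
  mem := by
    intro m
    rcases lt_or_ge m 0 with hm | hm
    · rw [hψ0 m hm]
      exact zero_mem _
    · obtain ⟨m, rfl⟩ := Int.eq_ofNat_of_zero_le hm
      rw [hψ]
      exact hC.mem _ _ (h.mem _)
  hom := by
    intro m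
    rcases lt_or_ge m 0 with hm | hm
    · rw [hψ0 m hm, map_zero]
    · obtain ⟨m, rfl⟩ := Int.eq_ofNat_of_zero_le hm
      rw [hψ, hδ0]
      exact hD.deg _ _ _ (h.mem _) (h.hom _)
  rr := by
    have hmul : ∀ (c : ℕ) {x : ℕ → H}, Nul v x → Nul v fun M => (c : H) * x M := by
      intro c x hx ε hε
      obtain ⟨N, hN⟩ := hx ε hε
      refine ⟨N, fun M hM => ((TWM.ge_natCast v c).mul (hN M hM)).mono (by linarith)⟩
    have hpow : ∀ (r : ℕ) (i : I), 0 < r → p ^ r • i = p • (p ^ (r - 1) • i) := by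
      intro r i hr
      rw [← mul_smul, ← pow_succ']
      congr 2
      omega
    intro m i hi
    rcases lt_or_ge m 0 with hm | hm
    · obtain ⟨r, hr, rfl⟩ : ∃ r : ℕ, 0 < r ∧ m = -(r : ℤ) :=
        ⟨m.natAbs, by omega, by omega⟩
      have hi' : ¬ Pd p (p ^ r • i + p ^ 0 • e₀) := by
        intro h2
        rw [pow_zero, one_smul, hpow r i hr, add_comm] at h2
        exact he₀ (hC.can _ _ h2)
      have h1 := h.rr (n₀ + (0 : ℕ)) (p ^ r • i + p ^ 0 • e₀) hi'
      have h2 := nul_pr p hpr (nul_Rt p (hmul (ch (p ^ r • i) (p ^ 0 • e₀)) h1) r)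
        (δ' (-(r : ℤ)) - dg i)
      intro ε hε
      obtain ⟨N, hN⟩ := h2 ε hε
      refine ⟨r + N, fun M hM => ?_⟩
      obtain ⟨M', rfl⟩ : ∃ M', M = r + M' := ⟨M - r, by omega⟩
      have h3 := hN M' (by omega)
      have h4 := cs_shift (dg := dg) hpr hδ' hψ0 (fun i => hD.zero i) r i M'
      have h5 := derived_pos (p := p) (pr := pr) hC h n₀ hδ0 hψ 0 (p ^ r • i) M'
      show v.Ge (-ε) (csM p pr dg D δ' ψ (-(r : ℤ)) i (r + M'))
      rw [h4]
      have e0 : ((0 : ℕ) : ℤ) = 0 := rfl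
      rw [e0] at h5
      rw [h5]
      exact h3
    · obtain ⟨m, rfl⟩ := Int.eq_ofNat_of_zero_le hm
      have h5 : ∀ M, csM p pr dg D δ' ψ m i M = (ch i (p ^ m • e₀) : H) *
          csM p pr dg D δ φ (n₀ + m) (i + p ^ m • e₀) M := fun M =>
        derived_pos hC h n₀ hδ0 hψ m i M
      by_cases hi' : Pd p (i + p ^ m • e₀)
      · have hm0 : m = 0 := by
          by_contra hm0
          rw [hpow m e₀ (Nat.pos_of_ne_zero hm0)] at hi'
          exact hi (hC.can _ _ hi')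
        have h6 : (ch i (p ^ m • e₀) : H) = 0 := by
          rw [hm0, pow_zero, one_smul] at hi' ⊢
          exact hC.zero i hi'
        refine Nul.congr (Nul.zero (v := v)) fun M => ?_
        rw [h5, h6, zero_mul]
      · exact (hmul _ (h.rr (n₀ + m) (i + p ^ m • e₀) hi')).congr fun M => (h5 M).symm

end SysM

end Sys

end Main

/-! ### The case `ℕ × ℕ` -/

section NN

variable {v : RVal H} {p : ℕ} {pr : A → H →ₗ[k] H} {K : IntermediateField k H}
  {α ζ : A} {D : ℕ × ℕ → H → H}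

/-- The degrees of the indices `(m, J)`. -/
def dgM (α ζ : A) : (ℕ × ℕ) →+ A where
  toFun i := dg α ζ i
  map_zero' := by simp [dg]
  map_add' i j := by
    show (i.1 + j.1) • α + (i.2 + j.2) • ζ = (i.1 • α + i.2 • ζ) + (j.1 • α + j.2 • ζ)
    rw [add_smul, add_smul]
    abel

theorem pd_iff (i : ℕ × ℕ) : Pd p i ↔ p ∣ i.1 ∧ p ∣ i.2 := by
  constructor
  · rintro ⟨j, rfl⟩
    exact ⟨⟨j.1, rfl⟩, ⟨j.2, rfl⟩⟩
  · rintro ⟨⟨a, ha⟩, ⟨b, hb⟩⟩
    exact ⟨(a, b), Prod.ext ha hb⟩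

theorem Jets.toM (h : Jets p v pr K α ζ D) : JetsM p v pr K (dgM α ζ) D where
  id := h.id
  add := h.add
  smul := h.smul
  norm := h.norm
  frob := fun i x hx => h.frob i.1 i.2 x hx
  frob0 := fun i hi x hx => h.frob0 i.1 i.2 (fun h1 => hi ((pd_iff i).2 h1)) x hx
  deg := h.deg

theorem JetsC.toM (h : JetsC p v pr K α ζ D) : JetsMC p v pr K (dgM α ζ) D where
  toJetsM := h.toJets.toM
  gr := h.gr
  prc := h.prc

/-- The binomials of the second index. -/
theorem JetsC.compM [hp : Fact p.Prime] [CharP H p] [PerfectRing H p]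
    (h : JetsC p v pr K α ζ D) {e₀ : ℕ} (he₀ : ¬ p ∣ e₀) :
    CompM p K D (fun i e => (i.2 + e.2).choose e.2) (0, e₀) where
  mem := fun m x hx => by
    have e1 : p ^ m • ((0, e₀) : ℕ × ℕ) = (0, p ^ m * e₀) := Prod.ext (mul_zero _) rfl
    rw [e1]
    exact h.zmem _ x hx
  comp := fun m i x hx => by
    have e1 : p ^ m • ((0, e₀) : ℕ × ℕ) = (0, p ^ m * e₀) := Prod.ext (mul_zero _) rfl
    rw [e1]
    exact h.comp i.1 i.2 (p ^ m * e₀) x hx
  mul := fun m i => by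
    have e1 : (p • i).2 + (p ^ (m + 1) • ((0, e₀) : ℕ × ℕ)).2 = p ^ 1 * (i.2 + p ^ m * e₀) := by
      show p * i.2 + p ^ (m + 1) * e₀ = _
      ring
    have e2 : (p ^ (m + 1) • ((0, e₀) : ℕ × ℕ)).2 = p ^ 1 * (p ^ m * e₀) := by
      show p ^ (m + 1) * e₀ = _
      ring
    show (((p • i).2 + (p ^ (m + 1) • ((0, e₀) : ℕ × ℕ)).2).choose
      (p ^ (m + 1) • ((0, e₀) : ℕ × ℕ)).2 : H) = _
    rw [e1, e2, choose_pow (p := p)]
    rfl
  zero := fun i hi => by
    have h1 := ((pd_iff _).1 hi).2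
    exact choose_zero (p := p) h1 he₀
  can := by
    rintro i j h1
    obtain ⟨h2, h3⟩ := (pd_iff _).1 h1
    exact (pd_iff _).2 ⟨(Nat.dvd_add_left (dvd_mul_right p j.1)).1 h2,
      (Nat.dvd_add_left (dvd_mul_right p j.2)).1 h3⟩

end NN

end Pool.Agent.TWIV
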