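import Pool.Agent.Lib.TWIV.Tay
import Pool.Agent.Lib.TWIV.SysM

/-!
# TANK W, leaf (IV), row A5: the jets of `E<y_1, .., y_r>`

The `y_j` are limits of `E` up to the level `0`, `y_j` of transcendental type over
`E<y_1, .., y_(j-1)>`, homogeneous.
* `twr`: the tower; `TwrH`: the hypotheses; `exists_dir`: the Taylor homomorphism in the direction
  `y_j`, the identity on the other generators;
* `Dir`, `comps`, `multD`: the jets of index `N : Fin r → ℕ`;
* `mono`, `dense_mono`: the monomials; `comps_mono`;
* `exists_multi`: the jets, `JetsMC`, and the composition law.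
-/

set_option autoImplicit false
set_option linter.unusedSectionVars false

open Polynomial

namespace Pool.Agent.TWIV

open Pool.Agent.H15JM (RVal)
open Pool.Agent.D2 (Ctx0)
open Pool.Agent.D2P (mem_clI)
open Pool.Agent.TWM
open Pool.Agent.TWC (Nul Cau HSI HSX PGe eq_of_ge)

universe u

variable {k H : Type u} [Field k] [Field H] [Algebra k H] {v : RVal H} {p : ℕ} [hp : Fact p.Prime]
  [CharP H p] [PerfectRing H p] {A : Type*} [AddCommGroup A] {pr : A → H →ₗ[k] H}
  [IsAlgClosed H] {E K : IntermediateField k H} {y : ℕ → H} {α : ℕ → A} {r : ℕ}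

/-- The tower `E<y_0, .., y_(n-1)>`. -/
noncomputable def twr (v : RVal H) (E : IntermediateField k H) (y : ℕ → H) :
    ℕ → IntermediateField k H
  | 0 => E
  | n + 1 => cadj v (twr v E y n) (y n)

/-- The hypotheses. -/
structure TwrH (v : RVal H) (pr : A → H →ₗ[k] H) (E : IntermediateField k H) (y : ℕ → H)
    (α : ℕ → A) (r : ℕ) : Prop where
  gr : ∀ c, ∀ x ∈ E, pr c x ∈ E
  tl : ∀ j, j < r → TL v (twr v E y j) (y j) 0
  lim : ∀ j, j < r → Lim v E 0 (y j)
  deg : ∀ j, j < r → pr (α j) (y j) = y j

omit [IsAlgClosed H] in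
theorem le_twr (n : ℕ) : E ≤ twr v E y n := by
  induction n with
  | zero => exact le_rfl
  | succ n ih => exact ih.trans (le_cadj v _ _)

omit [IsAlgClosed H] in
theorem twr_mono {m n : ℕ} (h : m ≤ n) : twr v E y m ≤ twr v E y n := by
  induction h with
  | refl => exact le_rfl
  | step _ ih => exact ih.trans (le_cadj v _ _)

omit [IsAlgClosed H] in
theorem mem_twr {j n : ℕ} (h : j < n) : y j ∈ twr v E y n :=
  twr_mono (Nat.succ_le_of_lt h) (self_mem_cadj v _ _)

theorem TwrH.gr_twr (hg : GrP p v pr) (h : TwrH v pr E y α r) {n : ℕ} (hn : n ≤ r) :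
    ∀ c, ∀ x ∈ twr v E y n, pr c x ∈ twr v E y n := by
  induction n with
  | zero => exact h.gr
  | succ n ih =>
    exact gr_cadj hg (ih (Nat.le_of_succ_le hn)) (h.tl n hn) (h.deg n hn)

/-! ### One direction -/

/-- The Taylor homomorphism in the direction `y_j`, with values in `H`, on `K = E<y_0, .., y_(n-1)>`. -/
structure DirH (v : RVal H) (pr : A → H →ₗ[k] H) (E : IntermediateField k H) (y : ℕ → H) (n j : ℕ)
    (γ : A) (K : IntermediateField k H) (h : K →ₐ[k] PowerSeries H) : Prop where
  hsi : HSI v K h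
  base : ∀ x : K, (x : H) ∈ E → h x = PowerSeries.C (x : H)
  gen : ∀ l, l < n → ∀ x : K, (x : H) = y l →
    h x = PowerSeries.C (x : H) + if l = j then PowerSeries.X else 0
  prc : PrC pr γ K h
  val : ∀ (x : K) (m : ℕ), PowerSeries.coeff m (h x) ∈ K

theorem exists_dir0 [Fact (Ctx0 k v)] (hc : CompleteV v) (hg : GrP p v pr)
    (hT : TwrH v pr E y α r) (j : ℕ) {n : ℕ} (hn : n ≤ r) :
    ∃ h : twr v E y n →ₐ[k] PowerSeries H, DirH v pr E y n j (α j) (twr v E y n) h := by
  induction n with
  | zero =>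
    change ∃ h : E →ₐ[k] PowerSeries H, DirH v pr E y 0 j (α j) E h
    refine ⟨idS E, hsi_idS, fun x _ => idS_apply x, fun l hl => absurd hl (Nat.not_lt_zero l),
      prc_idS (fun x _ => idS_apply x) hT.gr, fun x m => ?_⟩
    rw [idS_apply, PowerSeries.coeff_C]
    split_ifs
    exacts [x.2, zero_mem _]
  | succ n ih =>
    obtain ⟨h, h1, h2, h3, h4, h5⟩ := ih (Nat.le_of_succ_le hn)
    change ∃ h : cadj v (twr v E y n) (y n) →ₐ[k] PowerSeries H,
      DirH v pr E y (n + 1) j (α j) (cadj v (twr v E y n) (y n)) h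
    have hTL := hT.tl n hn
    set X' : PowerSeries H := if n = j then PowerSeries.X else 0 with hX'
    have hX0 : PowerSeries.constantCoeff X' = 0 := by
      rw [hX']
      split_ifs
      · exact PowerSeries.constantCoeff_X
      · exact map_zero _
    have hXg : PGe v 0 X' := by
      rw [hX']
      split_ifs
      · exact pge_X
      · exact PGe.zero
    obtain ⟨g, g1, g2, g3⟩ := exists_ext0 p hc h1 hTL (Y := PowerSeries.C (y n) + X') (by
      rw [map_add, PowerSeries.constantCoeff_C, hX0, add_zero])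
      (fun ε hε => by
        obtain ⟨ψ, hψ, a1⟩ := hT.lim n hn ε hε
        rw [zero_sub] at a1
        refine ⟨⟨ψ, le_twr n hψ⟩, a1, ?_⟩
        have e : PowerSeries.C (y n) + X' - h ⟨ψ, le_twr n hψ⟩ =
            PowerSeries.C (y n - ψ) + X' := by
          rw [h2 _ hψ, map_sub]
          ring
        rw [e]
        exact (pge_C a1).add (hXg.mono (by linarith)))
    have hgr := hT.gr_twr hg (Nat.le_of_succ_le hn)
    have hY : SDeg pr (α j) (α n) (PowerSeries.C (y n) + X') := by
      refine (SDeg.C (hT.deg n hn)).add ?_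
      rw [hX']
      split_ifs with hnj
      · rw [hnj]
        exact SDeg.X hg
      · exact SDeg.zero
    refine ⟨g, g1, fun x hx => ?_, fun l hl x hx => ?_, ?_, ?_⟩
    · rw [g2 x (le_twr n hx), h2 _ hx]
    · rcases Nat.lt_succ_iff_lt_or_eq.1 hl with hl' | hl'
      · have hx' : (x : H) ∈ twr v E y n := by
          rw [hx]
          exact mem_twr hl'
        rw [g2 x hx', h3 l hl' _ hx]
      · rw [hl'] at hx
        rw [g3 x hx, hx, hl', hX']
    · refine prc_cadj hg hgr hTL (hT.deg n hn) g1 (fun x x' c hx hx' m => ?_) ?_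
      · have hx'1 : (x' : H) ∈ twr v E y n := by
          rw [hx']
          exact hgr c _ hx
        rw [g2 x hx, g2 x' hx'1]
        exact h4 _ _ c hx hx' m
      · rw [g3 _ rfl]
        exact hY
    · refine val_cadj (cld_cadj v _ _) hTL g1 (fun x m hx => ?_) (fun m => ?_)
      · rw [g2 x hx]
        exact le_cadj v _ _ (h5 _ m)
      · rw [g3 _ rfl, map_add, PowerSeries.coeff_C]
        refine add_mem ?_ ?_
        · split_ifs
          exacts [self_mem_cadj v _ _, zero_mem _]
        · rw [hX']
          split_ifs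
          · rw [PowerSeries.coeff_X]
            split_ifs
            exacts [one_mem _, zero_mem _]
          · rw [map_zero]
            exact zero_mem _

/-- The Taylor homomorphism in the direction `y_j`, the identity on `E` and on the other `y_l`. -/
structure Dir (v : RVal H) (pr : A → H →ₗ[k] H) (K E : IntermediateField k H) (y : ℕ → H)
    (r j : ℕ) (γ : A) (t : K →ₐ[k] PowerSeries K) : Prop where
  base : ∀ x : K, (x : H) ∈ E → t x = PowerSeries.C x
  gen : ∀ l, l < r → ∀ x : K, (x : H) = y l →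
    t x = PowerSeries.C x + if l = j then PowerSeries.X else 0
  zero : ∀ x, PowerSeries.coeff 0 (t x) = x
  norm : ∀ (n : ℕ) (x : K) (b : ℝ), v.Ge b (x : H) → v.Ge b ((PowerSeries.coeff n (t x) : K) : H)
  prc : ∀ (x x' : K) (c : A), (x' : H) = pr c (x : H) → ∀ n : ℕ,
    pr (c - n • γ) ((PowerSeries.coeff n (t x) : K) : H) = (PowerSeries.coeff n (t x') : K)

theorem exists_dir [Fact (Ctx0 k v)] (hc : CompleteV v) (hg : GrP p v pr)
    (hT : TwrH v pr E y α r) (j : ℕ) :
    ∃ t : twr v E y r →ₐ[k] PowerSeries (twr v E y r),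
      Dir v pr (twr v E y r) E y r j (α j) t := by
  obtain ⟨h, h1, h2, h3, h4, h5⟩ := exists_dir0 hc hg hT j (le_refl r)
  obtain ⟨s, hs⟩ := exists_restr h5
  refine ⟨s, fun x hx => ?_, fun l hl x hx => ?_, fun x => Subtype.ext ?_, fun n x b hb => ?_,
    fun x x' c hx n => ?_⟩
  · ext n
    rw [hs, h2 x hx, PowerSeries.coeff_C, PowerSeries.coeff_C]
    split_ifs
    · rfl
    · rfl
  · ext n
    rw [hs, h3 l hl x hx, map_add, map_add, PowerSeries.coeff_C, PowerSeries.coeff_C]
    push_cast
    congr 1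
    · split_ifs
      · rfl
      · rfl
    · split_ifs
      · rw [PowerSeries.coeff_X, PowerSeries.coeff_X]
        split_ifs
        · rfl
        · rfl
      · rw [map_zero, map_zero]
        rfl
  · rw [hs, h1.zero]
  · rw [hs]
    exact h1.norm n x b hb
  · rw [hs, hs]
    exact h4 x x' c x.2 hx n

/-! ### Monomials -/

/-- The monomial `e ∏ y_l ^ (M l)`. -/
noncomputable def mono {R : Type*} [CommRing R] (r : ℕ) (yK : Fin r → R) (e : R)
    (M : Fin r → ℕ) : R := e * ∏ l : Fin r, yK l ^ M l

theorem map_mono {R S : Type*} [CommRing R] [CommRing S] (f : R →+* S) (yK : Fin r → R) (e : R)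
    (M : Fin r → ℕ) : f (mono r yK e M) = mono r (fun l => f (yK l)) (f e) M := by
  rw [mono, mono, map_mul, map_prod]
  congr 1
  exact Finset.prod_congr rfl fun l _ => map_pow f _ _

theorem mono_mul_gen {R : Type*} [CommRing R] (yK : Fin r → R) (e : R) (M : Fin r → ℕ)
    (j : Fin r) : mono r yK e M * yK j = mono r yK e (Function.update M j (M j + 1)) := by
  classical
  rw [mono, mono, ← Finset.mul_prod_erase Finset.univ _ (Finset.mem_univ j),
    ← Finset.mul_prod_erase Finset.univ (fun l => yK l ^ (Function.update M j (M j + 1)) l)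
      (Finset.mem_univ j), Function.update_self, pow_succ]
  have e1 : ∏ x ∈ Finset.univ.erase j, yK x ^ (Function.update M j (M j + 1)) x =
      ∏ x ∈ Finset.univ.erase j, yK x ^ M x :=
    Finset.prod_congr rfl fun x hx => by
      rw [Function.update_of_ne (Finset.ne_of_mem_erase hx)]
  rw [e1]
  ring

/-- The values of a Taylor homomorphism at a monomial. -/
theorem coeff_mono {R : Type*} [CommRing R] (yK : Fin r → R) (e : R) (M : Fin r → ℕ) (j : Fin r)
    (n : ℕ) :
    PowerSeries.coeff n (PowerSeries.C e * ∏ l : Fin r,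
      (PowerSeries.C (yK l) + if (l : ℕ) = (j : ℕ) then PowerSeries.X else 0) ^ M l) =
      ((M j).choose n : R) * mono r yK e (Function.update M j (M j - n)) := by
  classical
  have e0 : ∀ l : Fin r, (PowerSeries.C (yK l) + if (l : ℕ) = (j : ℕ) then PowerSeries.X else 0 :
      PowerSeries R) ^ M l = if l = j then (PowerSeries.C (yK l) + PowerSeries.X) ^ M l else
        PowerSeries.C (yK l ^ M l) := by
    intro l
    by_cases hl : l = j
    · rw [if_pos hl, if_pos (by rw [hl])]
    · rw [if_neg hl, if_neg (fun h => hl (Fin.ext h)), add_zero, map_pow]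
  rw [Finset.prod_congr rfl fun l _ => e0 l, ← Finset.mul_prod_erase Finset.univ _
    (Finset.mem_univ j), if_pos rfl]
  have e1 : ∏ x ∈ Finset.univ.erase j, (if x = j then (PowerSeries.C (yK x) + PowerSeries.X) ^ M x
      else PowerSeries.C (yK x ^ M x)) =
      PowerSeries.C (∏ x ∈ Finset.univ.erase j, yK x ^ M x) := by
    rw [map_prod]
    exact Finset.prod_congr rfl fun x hx => by rw [if_neg (Finset.ne_of_mem_erase hx)]
  rw [e1, PowerSeries.coeff_C_mul, PowerSeries.coeff_mul_C, coeff_add_X_pow, mono,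
    ← Finset.mul_prod_erase Finset.univ (fun l => yK l ^ (Function.update M j (M j - n)) l)
      (Finset.mem_univ j), Function.update_self]
  have e2 : ∏ x ∈ Finset.univ.erase j, yK x ^ (Function.update M j (M j - n)) x =
      ∏ x ∈ Finset.univ.erase j, yK x ^ M x :=
    Finset.prod_congr rfl fun x hx => by
      rw [Function.update_of_ne (Finset.ne_of_mem_erase hx)]
  rw [e2]
  ring

/-- The generators as elements of the top. -/
noncomputable def yT (v : RVal H) (E : IntermediateField k H) (y : ℕ → H) (r : ℕ) (l : Fin r) :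
    twr v E y r := ⟨y l, mem_twr l.2⟩

/-- The elements of `E` as elements of the top. -/
noncomputable def eT (v : RVal H) (y : ℕ → H) (r : ℕ) {e : H} (he : e ∈ E) : twr v E y r := ⟨e, le_twr r he⟩

omit [IsAlgClosed H] in
theorem Dir.coeff_mono {j : Fin r} {γ : A} {t : twr v E y r →ₐ[k] PowerSeries (twr v E y r)}
    (h : Dir v pr (twr v E y r) E y r j γ t) {e : H} (he : e ∈ E) (M : Fin r → ℕ) (n : ℕ) :
    PowerSeries.coeff n (t (mono r (yT v E y r) (eT v y r he) M)) =
      ((M j).choose n : twr v E y r) *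
        mono r (yT v E y r) (eT v y r he) (Function.update M j (M j - n)) := by
  rw [← Pool.Agent.TWIV.coeff_mono]
  congr 1
  have h1 := map_mono (r := r) (t : twr v E y r →+* PowerSeries (twr v E y r)) (yT v E y r)
    (eT v y r he) M
  simp only [RingHom.coe_coe] at h1
  rw [h1, Pool.Agent.TWIV.mono, h.base _ he]
  congr 1
  exact Finset.prod_congr rfl fun l _ => by rw [h.gen l l.2 _ rfl]

/-- The sums of monomials. -/
noncomputable def MonS (v : RVal H) (E : IntermediateField k H) (y : ℕ → H) (r : ℕ) :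
    AddSubmonoid (twr v E y r) :=
  AddSubmonoid.closure {x | ∃ (e : H) (he : e ∈ E) (M : Fin r → ℕ),
    x = mono r (yT v E y r) (eT v y r he) M}

omit [IsAlgClosed H] in
theorem MonS.mul_gen {x : twr v E y r} (hx : x ∈ MonS v E y r) (j : Fin r) :
    x * yT v E y r j ∈ MonS v E y r := by
  induction hx using AddSubmonoid.closure_induction with
  | mem x hx =>
    obtain ⟨e, he, M, rfl⟩ := hx
    rw [mono_mul_gen]
    exact AddSubmonoid.subset_closure ⟨e, he, _, rfl⟩
  | zero =>
    rw [zero_mul]
    exact zero_mem _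
  | add x y _ _ h1 h2 =>
    rw [add_mul]
    exact add_mem h1 h2

omit [IsAlgClosed H] in
theorem MonS.mul_pow {x : twr v E y r} (hx : x ∈ MonS v E y r) (j : Fin r) (i : ℕ) :
    x * yT v E y r j ^ i ∈ MonS v E y r := by
  induction i with
  | zero => rwa [pow_zero, mul_one]
  | succ i ih =>
    rw [pow_succ, ← mul_assoc]
    exact MonS.mul_gen ih j

/-- The sums of monomials are dense. -/
theorem dense_mono (hT : TwrH v pr E y α r) {n : ℕ} (hn : n ≤ r) :
    ∀ x ∈ twr v E y n, ∀ b : ℝ, ∃ f ∈ MonS v E y r, v.Ge b (x - (f : H)) := by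
  classical
  induction n with
  | zero =>
    intro x hx b
    refine ⟨eT v y r hx, ?_, ?_⟩
    · refine AddSubmonoid.subset_closure ⟨x, hx, fun _ => 0, ?_⟩
      rw [mono]
      simp
    · change v.Ge b (x - x)
      rw [sub_self]
      exact RVal.Ge.zero
  | succ n ih =>
    intro x hx b
    obtain ⟨f, hf, h1⟩ := (hT.tl n hn).dense (w := x) hx b
    choose g hg h2 using fun i : ℕ =>
      ih (Nat.le_of_succ_le hn) (f.coeff i) (hf i) (b - i * v (y n))
    refine ⟨∑ i ∈ Finset.range (f.natDegree + 1), g i * yT v E y r ⟨n, hn⟩ ^ i,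
      sum_mem fun i _ => MonS.mul_pow (hg i) _ i, ?_⟩
    have e : x - ((∑ i ∈ Finset.range (f.natDegree + 1), g i * yT v E y r ⟨n, hn⟩ ^ i :
        twr v E y r) : H) = (x - f.eval (y n)) +
        ∑ i ∈ Finset.range (f.natDegree + 1), (f.coeff i - (g i : H)) * y n ^ i := by
      rw [eval_eq_sum_range]
      push_cast
      have e1 : ((yT v E y r ⟨n, hn⟩ : twr v E y r) : H) = y n := rfl
      rw [e1]
      simp only [sub_mul, Finset.sum_sub_distrib]
      ring
    rw [e]
    refine h1.add (RVal.Ge.sum _ _ fun i _ => ?_)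
    have h3 := (h2 i).mul (TWM.ge_pow (RVal.ge_self (v := v) (y n)) i)
    rwa [sub_add_cancel] at h3

/-- Two additive maps of norm `≤ 0` which agree on the monomials. -/
theorem eq_of_mono (hT : TwrH v pr E y α r) {φ ψ : twr v E y r → twr v E y r}
    (a1 : ∀ x x', φ (x + x') = φ x + φ x') (a2 : ∀ x x', ψ (x + x') = ψ x + ψ x')
    (b1 : ∀ (x : twr v E y r) (b : ℝ), v.Ge b (x : H) → v.Ge b (φ x : H))
    (b2 : ∀ (x : twr v E y r) (b : ℝ), v.Ge b (x : H) → v.Ge b (ψ x : H))
    (h : ∀ (e : H) (he : e ∈ E) (M : Fin r → ℕ), φ (mono r (yT v E y r) (eT v y r he) M) =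
      ψ (mono r (yT v E y r) (eT v y r he) M)) (x : twr v E y r) : φ x = ψ x := by
  have z1 : φ 0 = 0 := by
    have := a1 0 0
    rw [add_zero] at this
    exact left_eq_add.1 this
  have z2 : ψ 0 = 0 := by
    have := a2 0 0
    rw [add_zero] at this
    exact left_eq_add.1 this
  have h1 : ∀ f ∈ MonS v E y r, φ f = ψ f := by
    intro f hf
    induction hf using AddSubmonoid.closure_induction with
    | mem x hx =>
      obtain ⟨e, he, M, rfl⟩ := hx
      exact h e he M
    | zero => rw [z1, z2]
    | add x y _ _ h1 h2 => rw [a1, a2, h1, h2]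
  refine Subtype.ext (eq_of_ge (v := v) fun b => ?_)
  obtain ⟨f, hf, h2⟩ := dense_mono hT le_rfl x x.2 b
  have e1 : φ x = φ (x - f) + φ f := by rw [← a1, sub_add_cancel]
  have e2 : ψ x = ψ (x - f) + ψ f := by rw [← a2, sub_add_cancel]
  have e3 : ((φ x : twr v E y r) : H) - (ψ x : twr v E y r) =
      (φ (x - f) : twr v E y r) - (ψ (x - f) : twr v E y r) := by
    rw [e1, e2, h1 f hf]
    push_cast
    ring
  rw [e3]
  exact (b1 _ b h2).sub (b2 _ b h2)

/-- The jets in two directions commute. -/
theorem Dir.comm (hT : TwrH v pr E y α r) {i j : Fin r} (hij : i ≠ j) {γ δ : A}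
    {t s : twr v E y r →ₐ[k] PowerSeries (twr v E y r)}
    (ht : Dir v pr (twr v E y r) E y r i γ t) (hs : Dir v pr (twr v E y r) E y r j δ s)
    (m n : ℕ) (x : twr v E y r) :
    PowerSeries.coeff m (t (PowerSeries.coeff n (s x))) =
      PowerSeries.coeff n (s (PowerSeries.coeff m (t x))) := by
  have e1 : ∀ (u : twr v E y r →ₐ[k] PowerSeries (twr v E y r)) (q n : ℕ) (x : twr v E y r),
      PowerSeries.coeff q (u ((n : twr v E y r) * x)) =
        (n : twr v E y r) * PowerSeries.coeff q (u x) := by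
    intro u q n x
    rw [← nsmul_eq_mul, map_nsmul, map_nsmul, nsmul_eq_mul]
  refine eq_of_mono hT (φ := fun x => PowerSeries.coeff m (t (PowerSeries.coeff n (s x))))
    (ψ := fun x => PowerSeries.coeff n (s (PowerSeries.coeff m (t x)))) (fun x x' => ?_)
    (fun x x' => ?_) (fun x b hb => ht.norm _ _ _ (hs.norm _ _ _ hb))
    (fun x b hb => hs.norm _ _ _ (ht.norm _ _ _ hb)) (fun e he M => ?_) x
  · rw [map_add, map_add, map_add, map_add]
  · rw [map_add, map_add, map_add, map_add]
  · rw [hs.coeff_mono, ht.coeff_mono, e1, e1, ht.coeff_mono, hs.coeff_mono, Function.update_of_ne hij,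
      Function.update_of_ne hij.symm, Function.update_comm hij]
    ring

/-- The jets in one direction are iterative. -/
theorem Dir.comp (hT : TwrH v pr E y α r) {j : Fin r} {γ : A}
    {t : twr v E y r →ₐ[k] PowerSeries (twr v E y r)}
    (ht : Dir v pr (twr v E y r) E y r j γ t) (m n : ℕ) (x : twr v E y r) :
    PowerSeries.coeff n (t (PowerSeries.coeff m (t x))) =
      ((n + m).choose m : twr v E y r) * PowerSeries.coeff (n + m) (t x) := by
  have e1 : ∀ (u : twr v E y r →ₐ[k] PowerSeries (twr v E y r)) (q n : ℕ) (x : twr v E y r),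
      PowerSeries.coeff q (u ((n : twr v E y r) * x)) =
        (n : twr v E y r) * PowerSeries.coeff q (u x) := by
    intro u q n x
    rw [← nsmul_eq_mul, map_nsmul, map_nsmul, nsmul_eq_mul]
  refine eq_of_mono hT (φ := fun x => PowerSeries.coeff n (t (PowerSeries.coeff m (t x))))
    (ψ := fun x => ((n + m).choose m : twr v E y r) * PowerSeries.coeff (n + m) (t x))
    (fun x x' => ?_) (fun x x' => ?_) (fun x b hb => ht.norm _ _ _ (ht.norm _ _ _ hb))
    (fun x b hb => ?_) (fun e he M => ?_) x
  · rw [map_add, map_add, map_add, map_add]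
  · rw [map_add, map_add, mul_add]
  · push_cast
    have h1 := (TWM.ge_natCast v ((n + m).choose m)).mul (ht.norm (n + m) x b hb)
    rwa [zero_add] at h1
  · rw [ht.coeff_mono, ht.coeff_mono, e1, ht.coeff_mono, Function.update_self, Function.update_idem]
    have e4 : M j - m - n = M j - (n + m) := by omega
    rw [e4]
    generalize mono r (yT v E y r) (eT v y r he) (Function.update M j (M j - (n + m))) = W
    have h7 := Nat.choose_mul (n := M j) (k := n + m) (s := m) (Nat.le_add_left m n)
    rw [Nat.add_sub_cancel] at h7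
    have h8 := congrArg (fun n : ℕ => (n : twr v E y r)) h7
    simp only [Nat.cast_mul] at h8
    linear_combination (-W) * h8

omit [IsAlgClosed H] in
/-- The Frobenius. -/
theorem Dir.frob {j : ℕ} {γ : A} {t : K →ₐ[k] PowerSeries K} (_ : Dir v pr K E y r j γ t)
    (n : ℕ) (x : K) : PowerSeries.coeff n (t (x ^ p)) =
      if p ∣ n then PowerSeries.coeff (n / p) (t x) ^ p else 0 := by
  rw [map_pow, coeff_ps_powK]

/-! ### Compositions -/

/-- The composition of the jets in the directions of the list. -/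
noncomputable def comps (t : Fin r → K →ₐ[k] PowerSeries K) (N : Fin r → ℕ) :
    List (Fin r) → K → K
  | [] => fun x => x
  | j :: L => fun x => PowerSeries.coeff (N j) (t j (comps t N L x))

theorem comps_cons (t : Fin r → K →ₐ[k] PowerSeries K) (N : Fin r → ℕ) (j : Fin r)
    (L : List (Fin r)) (x : K) :
    comps t N (j :: L) x = PowerSeries.coeff (N j) (t j (comps t N L x)) := rfl

theorem comps_add (t : Fin r → K →ₐ[k] PowerSeries K) (N : Fin r → ℕ) (L : List (Fin r))
    (x x' : K) : comps t N L (x + x') = comps t N L x + comps t N L x' := by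
  induction L with
  | nil => rfl
  | cons j L ih =>
    rw [comps_cons, comps_cons, comps_cons, ih, map_add, map_add]

theorem comps_zero (t : Fin r → K →ₐ[k] PowerSeries K) (N : Fin r → ℕ) (L : List (Fin r)) :
    comps t N L 0 = 0 := by
  have h := comps_add t N L 0 0
  rw [add_zero] at h
  exact left_eq_add.1 h

theorem comps_nat (t : Fin r → K →ₐ[k] PowerSeries K) (N : Fin r → ℕ) (L : List (Fin r))
    (n : ℕ) (x : K) : comps t N L ((n : K) * x) = (n : K) * comps t N L x := by
  induction n with
  | zero => rw [Nat.cast_zero, zero_mul, zero_mul, comps_zero]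
  | succ n ih => rw [Nat.cast_succ, add_mul, one_mul, comps_add, ih, add_mul, one_mul]

theorem comps_smul (t : Fin r → K →ₐ[k] PowerSeries K) (N : Fin r → ℕ) (L : List (Fin r))
    (a : k) (x : K) : comps t N L (a • x) = a • comps t N L x := by
  induction L with
  | nil => rfl
  | cons j L ih =>
    rw [comps_cons, comps_cons, ih, map_smul, PowerSeries.coeff_smul]

theorem comps_norm {t : Fin r → K →ₐ[k] PowerSeries K}
    (ht : ∀ (j : Fin r) (n : ℕ) (x : K) (b : ℝ), v.Ge b (x : H) →
      v.Ge b ((PowerSeries.coeff n (t j x) : K) : H)) (N : Fin r → ℕ) (L : List (Fin r)) (x : K)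
    (b : ℝ) (hx : v.Ge b (x : H)) : v.Ge b ((comps t N L x : K) : H) := by
  induction L with
  | nil => exact hx
  | cons j L ih => exact ht j _ _ b ih

theorem comps_frob (t : Fin r → K →ₐ[k] PowerSeries K) (N : Fin r → ℕ) (L : List (Fin r))
    (hN : ∀ j ∈ L, p ∣ N j) (x : K) :
    comps t N L (x ^ p) = comps t (fun j => N j / p) L x ^ p := by
  induction L with
  | nil => rfl
  | cons j L ih =>
    rw [comps_cons, comps_cons, ih fun l hl => hN l (List.mem_cons_of_mem _ hl), map_pow, coeff_ps_powK,
      if_pos (hN j List.mem_cons_self)]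

theorem comps_frob0 (t : Fin r → K →ₐ[k] PowerSeries K) (N : Fin r → ℕ) (L : List (Fin r))
    (hN : ¬ ∀ j ∈ L, p ∣ N j) (x : K) : comps t N L (x ^ p) = 0 := by
  induction L with
  | nil => exact absurd (fun j hj => absurd hj (List.not_mem_nil)) hN
  | cons j L ih =>
    rw [comps_cons]
    by_cases h1 : ∀ l ∈ L, p ∣ N l
    · have h2 : ¬ p ∣ N j := fun h3 => hN fun l hl => by
        rcases List.mem_cons.1 hl with rfl | h4
        · exact h3
        · exact h1 l h4
      rw [comps_frob t N L h1, map_pow, coeff_ps_powK, if_neg h2]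
    · rw [ih h1, map_zero, map_zero]

theorem comps_prc {t : Fin r → K →ₐ[k] PowerSeries K} {β : Fin r → A}
    (ht : ∀ (j : Fin r) (x x' : K) (c : A), (x' : H) = pr c (x : H) → ∀ n : ℕ,
      pr (c - n • β j) ((PowerSeries.coeff n (t j x) : K) : H) =
        (PowerSeries.coeff n (t j x') : K)) (N : Fin r → ℕ) (L : List (Fin r)) (x x' : K) (c : A)
    (hx : (x' : H) = pr c (x : H)) :
    pr (c - (L.map fun j => N j • β j).sum) ((comps t N L x : K) : H) =
      (comps t N L x' : K) := by
  induction L with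
  | nil =>
    rw [List.map_nil, List.sum_nil, sub_zero]
    exact hx.symm
  | cons j L ih =>
    rw [List.map_cons, List.sum_cons, comps_cons, comps_cons]
    have h1 := ht j _ _ _ ih.symm (N j)
    have e : c - (N j • β j + (L.map fun j => N j • β j).sum) =
        c - (L.map fun j => N j • β j).sum - N j • β j := by abel
    rw [e]
    exact h1

/-- The values at the monomials. -/
theorem comps_mono {t : Fin r → twr v E y r →ₐ[k] PowerSeries (twr v E y r)} {β : Fin r → A}
    (ht : ∀ j : Fin r, Dir v pr (twr v E y r) E y r j (β j) (t j)) (N : Fin r → ℕ)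
    (L : List (Fin r)) (hL : L.Nodup) {e : H} (he : e ∈ E) (M : Fin r → ℕ) :
    comps t N L (mono r (yT v E y r) (eT v y r he) M) =
      (((L.map fun j => (M j).choose (N j)).prod : ℕ) : twr v E y r) *
        mono r (yT v E y r) (eT v y r he) (fun l => if l ∈ L then M l - N l else M l) := by
  induction L with
  | nil =>
    rw [List.map_nil, List.prod_nil, Nat.cast_one, one_mul]
    simp [comps]
  | cons j L ih =>
    obtain ⟨h1, h2⟩ := List.nodup_cons.1 hL
    rw [comps_cons, ih h2, List.map_cons, List.prod_cons, Nat.cast_mul]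
    have e1 : ∀ (n : ℕ) (x : twr v E y r), t j ((n : twr v E y r) * x) =
        PowerSeries.C (n : twr v E y r) * t j x := by
      intro n x
      rw [map_mul, map_natCast, map_natCast]
    rw [e1, PowerSeries.coeff_C_mul, (ht j).coeff_mono, if_neg h1]
    have e2 : Function.update (fun l => if l ∈ L then M l - N l else M l) j (M j - N j) =
        fun l => if l ∈ j :: L then M l - N l else M l := by
      funext l
      by_cases hl : l = j
      · rw [hl, Function.update_self, if_pos List.mem_cons_self]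
      · rw [Function.update_of_ne hl]
        simp only [List.mem_cons, hl, false_or]
    rw [e2]
    ring

/-- The jet of index `N` on the tower. -/
noncomputable def multD (t : Fin r → K →ₐ[k] PowerSeries K) (N : Fin r → ℕ) (x : H) : H :=
  open Classical in
  if hx : x ∈ K then (comps t N (List.finRange r) ⟨x, hx⟩ : K) else 0

theorem multD_eq (t : Fin r → K →ₐ[k] PowerSeries K) (N : Fin r → ℕ) {x : H} (hx : x ∈ K) :
    multD t N x = (comps t N (List.finRange r) ⟨x, hx⟩ : K) := dif_pos hx

/-- The degrees of the indices. -/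
def dgR (r : ℕ) (β : Fin r → A) : (Fin r → ℕ) →+ A where
  toFun N := ∑ j, N j • β j
  map_zero' := Finset.sum_eq_zero fun j _ => zero_smul _ _
  map_add' N N' := by
    rw [← Finset.sum_add_distrib]
    exact Finset.sum_congr rfl fun j _ => add_smul _ _ _

theorem dgR_list (r : ℕ) (β : Fin r → A) (N : Fin r → ℕ) :
    ((List.finRange r).map fun j => N j • β j).sum = dgR r β N := by
  rw [← List.ofFn_eq_map, List.sum_ofFn]
  rfl

/-- The binomials. -/
def chM (r : ℕ) (N N' : Fin r → ℕ) : ℕ := ∏ j, (N j + N' j).choose (N' j)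

theorem comps_mono' {t : Fin r → twr v E y r →ₐ[k] PowerSeries (twr v E y r)} {β : Fin r → A}
    (ht : ∀ j : Fin r, Dir v pr (twr v E y r) E y r j (β j) (t j)) (N : Fin r → ℕ)
    {e : H} (he : e ∈ E) (M : Fin r → ℕ) :
    comps t N (List.finRange r) (mono r (yT v E y r) (eT v y r he) M) =
      ((∏ j, (M j).choose (N j) : ℕ) : twr v E y r) *
        mono r (yT v E y r) (eT v y r he) (fun l => M l - N l) := by
  rw [comps_mono ht N _ (List.nodup_finRange r) he M, ← List.ofFn_eq_map, List.prod_ofFn]
  have e1 : (fun l => if l ∈ List.finRange r then M l - N l else M l) = fun l => M l - N l := by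
    funext l
    rw [if_pos (List.mem_finRange l)]
  rw [e1]

/-- **The composition law.** -/
theorem comps_comp (hT : TwrH v pr E y α r)
    {t : Fin r → twr v E y r →ₐ[k] PowerSeries (twr v E y r)} {β : Fin r → A}
    (ht : ∀ j : Fin r, Dir v pr (twr v E y r) E y r j (β j) (t j)) (N N' : Fin r → ℕ)
    (x : twr v E y r) :
    comps t N (List.finRange r) (comps t N' (List.finRange r) x) =
      (chM r N N' : twr v E y r) * comps t (fun l => N l + N' l) (List.finRange r) x := by
  have hn : ∀ (N : Fin r → ℕ) (x : twr v E y r) (b : ℝ), v.Ge b (x : H) →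
      v.Ge b ((comps t N (List.finRange r) x : twr v E y r) : H) := fun N x b hb =>
    comps_norm (fun j => (ht j).norm) N _ x b hb
  refine eq_of_mono hT (φ := fun x => comps t N (List.finRange r)
    (comps t N' (List.finRange r) x)) (ψ := fun x => (chM r N N' : twr v E y r) *
      comps t (fun l => N l + N' l) (List.finRange r) x) (fun x x' => ?_) (fun x x' => ?_)
    (fun x b hb => hn N _ b (hn N' _ b hb)) (fun x b hb => ?_) (fun e he M => ?_) x
  · rw [comps_add, comps_add]
  · rw [comps_add, mul_add]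
  · push_cast
    have h1 := (TWM.ge_natCast v (chM r N N')).mul (hn (fun l => N l + N' l) x b hb)
    rwa [zero_add] at h1
  · rw [comps_mono' ht, comps_mono' ht, comps_nat, comps_mono' ht, ← mul_assoc, ← mul_assoc]
    have e1 : (fun l => M l - N' l - N l) = fun l => M l - (N l + N' l) := by
      funext l
      omega
    rw [e1]
    congr 1
    rw [← Nat.cast_mul, ← Nat.cast_mul]
    congr 1
    rw [chM, ← Finset.prod_mul_distrib, ← Finset.prod_mul_distrib]
    refine Finset.prod_congr rfl fun j _ => ?_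
    have h7 := Nat.choose_mul (n := M j) (k := N j + N' j) (s := N' j) (Nat.le_add_left _ _)
    rw [Nat.add_sub_cancel] at h7
    rw [← h7, mul_comm]

/-! ### The jets -/

theorem pd_iffM (N : Fin r → ℕ) : Pd p N ↔ ∀ j, p ∣ N j := by
  constructor
  · rintro ⟨M, rfl⟩ j
    exact ⟨M j, rfl⟩
  · intro h
    choose M hM using h
    exact ⟨M, funext hM⟩

/-- **The jets of `E<y_1, .., y_r>`.** -/
theorem jetsMC_multD (hg : GrP p v pr) (hT : TwrH v pr E y α r)
    {t : Fin r → twr v E y r →ₐ[k] PowerSeries (twr v E y r)}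
    (ht : ∀ j : Fin r, Dir v pr (twr v E y r) E y r j (α j) (t j)) :
    JetsMC p v pr (twr v E y r) (dgR r fun j => α j) (multD t) where
  id x hx := by
    rw [multD_eq _ _ hx]
    have h1 : ∀ L : List (Fin r), comps t 0 L ⟨x, hx⟩ = ⟨x, hx⟩ := by
      intro L
      induction L with
      | nil => rfl
      | cons j L ih =>
        rw [comps_cons, ih]
        exact (ht j).zero _
    rw [h1]
  add N x hx x' hx' := by
    rw [multD_eq _ _ hx, multD_eq _ _ hx', multD_eq _ _ (add_mem hx hx')]
    have e : (⟨x + x', add_mem hx hx'⟩ : twr v E y r) = ⟨x, hx⟩ + ⟨x', hx'⟩ := rfl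
    rw [e, comps_add]
    rfl
  smul N a x hx := by
    have hax : algebraMap k H a * x ∈ twr v E y r :=
      mul_mem (IntermediateField.algebraMap_mem _ a) hx
    rw [multD_eq _ _ hx, multD_eq _ _ hax]
    have e : (⟨algebraMap k H a * x, hax⟩ : twr v E y r) = a • ⟨x, hx⟩ := by
      refine Subtype.ext ?_
      change _ = a • x
      rw [Algebra.smul_def]
    rw [e, comps_smul, ← Algebra.smul_def]
    rfl
  norm N x hx b hb := by
    rw [multD_eq _ _ hx]
    exact comps_norm (fun j => (ht j).norm) N _ _ b hb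
  frob N x hx := by
    rw [multD_eq _ _ hx, multD_eq _ _ (pow_mem hx p)]
    have e : (⟨x ^ p, pow_mem hx p⟩ : twr v E y r) = ⟨x, hx⟩ ^ p := rfl
    rw [e, comps_frob t _ _ fun j _ => (pd_iffM _).1 ⟨N, rfl⟩ j]
    have e1 : (fun j => (p • N) j / p) = N := by
      funext j
      change p * N j / p = N j
      exact Nat.mul_div_cancel_left _ hp.out.pos
    rw [e1]
    rfl
  frob0 N hN x hx := by
    rw [multD_eq _ _ (pow_mem hx p)]
    have e : (⟨x ^ p, pow_mem hx p⟩ : twr v E y r) = ⟨x, hx⟩ ^ p := rfl
    rw [e, comps_frob0 t N _ fun h => hN ((pd_iffM N).2 fun j => h j (List.mem_finRange j))]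
    rfl
  deg N c x hx hc := by
    rw [multD_eq _ _ hx]
    have h1 := comps_prc (fun j => (ht j).prc) N (List.finRange r) ⟨x, hx⟩ ⟨x, hx⟩ c hc.symm
    rwa [dgR_list r (fun j => α j) N] at h1
  gr := hT.gr_twr hg le_rfl
  prc N c x hx := by
    rw [multD_eq _ _ hx, multD_eq _ _ (hT.gr_twr hg le_rfl c x hx)]
    have h1 := comps_prc (fun j => (ht j).prc) N (List.finRange r) ⟨x, hx⟩
      ⟨pr c x, hT.gr_twr hg le_rfl c x hx⟩ c rfl
    rw [dgR_list r (fun j => α j) N] at h1
    exact h1.symm

/-- **The composition law.** -/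
theorem compM_multD (hT : TwrH v pr E y α r)
    {t : Fin r → twr v E y r →ₐ[k] PowerSeries (twr v E y r)}
    (ht : ∀ j : Fin r, Dir v pr (twr v E y r) E y r j (α j) (t j)) {e₀ : Fin r → ℕ}
    (he₀ : ¬ Pd p e₀) : CompM p (twr v E y r) (multD t) (chM r) e₀ where
  mem m x hx := by
    rw [multD_eq _ _ hx]
    exact SetLike.coe_mem _
  comp m i x hx := by
    rw [multD_eq _ _ hx, multD_eq _ _ (SetLike.coe_mem _), multD_eq _ _ hx, Subtype.coe_eta,
      comps_comp hT ht]
    push_cast
    rfl
  mul m i := by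
    rw [chM, chM]
    push_cast
    refine Finset.prod_congr rfl fun j _ => ?_
    have e1 : (p • i) j + (p ^ (m + 1) • e₀) j = p ^ 1 * (i j + (p ^ m • e₀) j) := by
      change p * i j + p ^ (m + 1) * e₀ j = p ^ 1 * (i j + p ^ m * e₀ j)
      ring
    have e2 : (p ^ (m + 1) • e₀) j = p ^ 1 * (p ^ m • e₀) j := by
      change p ^ (m + 1) * e₀ j = p ^ 1 * (p ^ m * e₀ j)
      ring
    rw [e1, e2, choose_pow (p := p)]
  zero i hi := by
    rw [pd_iffM] at hi he₀
    push Not at he₀
    obtain ⟨j, hj⟩ := he₀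
    rw [chM]
    push_cast
    exact Finset.prod_eq_zero (Finset.mem_univ j) (choose_zero (p := p) (hi j) hj)
  can := by
    rintro i j h1
    rw [pd_iffM] at h1 ⊢
    exact fun l => (Nat.dvd_add_left (dvd_mul_right p (j l))).1 (h1 l)

/-- **Existence of the jets of `E<y_1, .., y_r>`.** -/
theorem exists_multi [Fact (Ctx0 k v)] (hc : CompleteV v) (hg : GrP p v pr)
    (hT : TwrH v pr E y α r) :
    ∃ t : Fin r → twr v E y r →ₐ[k] PowerSeries (twr v E y r),
      (∀ j : Fin r, Dir v pr (twr v E y r) E y r j (α j) (t j)) ∧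
      JetsMC p v pr (twr v E y r) (dgR r fun j => α j) (multD t) ∧
      ∀ e₀ : Fin r → ℕ, ¬ Pd p e₀ → CompM p (twr v E y r) (multD t) (chM r) e₀ := by
  choose t ht using fun j : Fin r => exists_dir hc hg hT (j : ℕ)
  exact ⟨t, ht, jetsMC_multD hg hT ht, fun e₀ he₀ => compM_multD hT ht he₀⟩

/-- The values at the monomials. -/
theorem multD_mono {t : Fin r → twr v E y r →ₐ[k] PowerSeries (twr v E y r)} {β : Fin r → A}
    (ht : ∀ j : Fin r, Dir v pr (twr v E y r) E y r j (β j) (t j)) (N : Fin r → ℕ)
    {e : H} (he : e ∈ E) (M : Fin r → ℕ) :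
    multD t N (e * ∏ l : Fin r, y l ^ M l) =
      ((∏ j, (M j).choose (N j) : ℕ) : H) * (e * ∏ l : Fin r, y l ^ (M l - N l)) := by
  have e1 : ∀ M : Fin r → ℕ, ((mono r (yT v E y r) (eT v y r he) M : twr v E y r) : H) =
      e * ∏ l : Fin r, y l ^ M l := by
    intro M
    rw [mono]
    push_cast
    rfl
  rw [← e1, multD_eq _ _ (SetLike.coe_mem _), Subtype.coe_eta, comps_mono' ht, ← e1]
  push_cast
  rfl

end Pool.Agent.TWIV
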