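import Pool.Agent.Lib.TWIV.EmbX
import Pool.Agent.Lib.TWIV.HFW
import Pool.Agent.Lib.TWIV.GMW
import Pool.Agent.Lib.TWIV.Multi

/-!
# TANK W, leaf (IV): the graded embedding in the Hahn field

* `theta_step`: `θ : Ω → HF k` isometric, `TL v F b 0`, `b` near to elements of `F` with
  homogeneous images: a new `θ'`, equal on `F`, with `θ' b` homogeneous of negative support;
* `World.exists_theta`: `θ (M g) = t ^ g`, the `θ (u_i)` have degree `0`, the `θ (M d_i u_i)` have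
  negative support;
* `World.theta_pj`, `World.theta_prd`: `θ` and the projections.
-/

set_option autoImplicit false

open Polynomial

namespace Pool.Agent.TWIV

open Pool.Agent.H15JM (RVal)
open Pool.Agent.D2 (Ctx0)
open Pool.Agent.D2P (clI mem_clI)
open Pool.Agent.TWM Pool.Agent.TWS

universe u

variable {k Ω : Type u} [Field k] [Field Ω] [Algebra k Ω] {v : RVal Ω}

/-! ### The step -/

/-- The parts of degree `c` and negative support. -/
theorem nuH_hpr (Γ : AddSubgroup ℝ) (c : ℝ ⧸ Γ) (x : HF k) :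
    nuH k (hpr Γ c x) = hpr Γ c (nuH k x) := by
  rw [nuH, hpr, resS_resS, resS_resS, Set.inter_comm]

theorem nuH_nuH (x : HF k) : nuH k (nuH k x) = nuH k x := by
  rw [nuH, resS_resS, Set.inter_self]

theorem hpr_hpr (Γ : AddSubgroup ℝ) (c : ℝ ⧸ Γ) (x : HF k) : hpr Γ c (hpr Γ c x) = hpr Γ c x := by
  rw [hpr, resS_resS, Set.inter_self]

/-- **The step.** -/
theorem theta_step [IsAlgClosed k] [IsAlgClosed Ω] (hk : Ctx0 k v) {θ : Ω →ₐ[k] HF k}
    (hθ : IsoE v (hv k) θ) {F : IntermediateField k Ω} {b : Ω} (hb : TL v F b 0)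
    (Γ : AddSubgroup ℝ) (c : ℝ ⧸ Γ)
    (hn : ∀ ε : ℝ, 0 < ε → ∃ ψ ∈ F, v.Ge (-ε) (b - ψ) ∧ hpr Γ c (θ ψ) = θ ψ) :
    ∃ θ' : Ω →ₐ[k] HF k, IsoE v (hv k) θ' ∧ (∀ x ∈ F, θ' x = θ x) ∧
      hpr Γ c (θ' b) = θ' b ∧ nuH k (θ' b) = θ' b := by
  have h1 : ∀ n : ℕ, ∃ ψ ∈ F, v.Ge (-(1 / ((n : ℝ) + 1))) (b - ψ) ∧ hpr Γ c (θ ψ) = θ ψ := fun n =>
    hn _ (by positivity)
  choose ψ hψ h2 h3 using h1
  have hmono : ∀ n m : ℕ, n ≤ m → -(1 / ((n : ℝ) + 1)) ≤ -(1 / ((m : ℝ) + 1)) := fun n m hnm => by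
    have h4 : (n : ℝ) ≤ m := by exact_mod_cast hnm
    have h5 : (0 : ℝ) < (n : ℝ) + 1 := by positivity
    exact neg_le_neg (one_div_le_one_div_of_le h5 (by linarith))
  obtain ⟨y, hy⟩ := sphC_hv k (fun n => θ (ψ n)) (fun n => -(1 / ((n : ℝ) + 1))) fun n m hnm => by
    rw [← map_sub, hθ.ge_iff]
    have e : ψ m - ψ n = (b - ψ n) - (b - ψ m) := by ring
    rw [e]
    exact (h2 n).sub ((h2 m).mono (hmono n m hnm))
  obtain ⟨θ', h4, h5, h6⟩ := reemb hk (sphC_hv k) (exists_val k) hθ hb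
    (b' := nuH k (hpr Γ c y)) fun ε hε => by
    obtain ⟨n, hn⟩ := exists_nat_one_div_lt hε
    refine ⟨ψ n, hψ n, (h2 n).mono (by linarith), ?_⟩
    have h7 : (hv k).Ge (-(1 / ((n : ℝ) + 1))) (hpr Γ c y - θ (ψ n)) := by
      rw [← h3 n, ← map_sub]
      exact hpr_ge c (hy n)
    have e : nuH k (hpr Γ c y) - θ (ψ n) =
        (hpr Γ c y - θ (ψ n)) - (hpr Γ c y - nuH k (hpr Γ c y)) := by ring
    rw [e]
    exact (h7.mono (by linarith)).sub ((sub_nuH_ge _).mono (by linarith))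
  refine ⟨θ', h4, h5, ?_, ?_⟩
  · rw [h6, ← nuH_hpr, hpr_hpr]
  · rw [h6, nuH_nuH]

/-! ### The field of degree `0` -/

/-- The elements of degree `0` of the Hahn field. -/
noncomputable def degF (k : Type u) [Field k] (Γ : AddSubgroup ℝ) :
    IntermediateField k (HF k) where
  carrier := {x | hpr Γ 0 x = x}
  mul_mem' := by
    intro x y hx hy
    have h1 := hpr_mul (k := k) (Γ := Γ) 0 0 x y
    rw [Set.mem_ofPred_eq] at hx hy ⊢
    rwa [hx, hy, add_zero] at h1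
  add_mem' := by
    intro x y hx hy
    rw [Set.mem_ofPred_eq] at hx hy ⊢
    rw [map_add, hx, hy]
  algebraMap_mem' a := by
    rw [Set.mem_ofPred_eq, Algebra.algebraMap_eq_smul_one, map_smul, hpr_one]
  inv_mem' := by
    intro x hx
    change hpr Γ 0 x = x at hx
    change hpr Γ 0 x⁻¹ = x⁻¹
    by_cases h0 : x = 0
    · rw [h0, inv_zero, map_zero]
    · have h1 := hpr_mul (k := k) (Γ := Γ) 0 0 x x⁻¹
      rw [hx, mul_inv_cancel₀ h0, add_zero, hpr_one] at h1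
      exact eq_inv_of_mul_eq_one_right h1.symm

theorem mem_degF {Γ : AddSubgroup ℝ} {x : HF k} : x ∈ degF k Γ ↔ hpr Γ 0 x = x := Iff.rfl

/-- Limits of homogeneous elements. -/
theorem hpr_lim {Γ : AddSubgroup ℝ} {c : ℝ ⧸ Γ} {x : HF k}
    (h : ∀ b : ℝ, ∃ y, hpr Γ c y = y ∧ (hv k).Ge b (x - y)) : hpr Γ c x = x := by
  rw [← sub_eq_zero]
  refine TWC.eq_zero_of_ge (v := hv k) fun b => ?_
  obtain ⟨y, h1, h2⟩ := h b
  have e : hpr Γ c x - x = hpr Γ c (x - y) - (x - y) := by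
    rw [map_sub, h1]
    ring
  rw [e]
  exact (hpr_ge c h2).sub h2

theorem cld_degF (Γ : AddSubgroup ℝ) : Cld (hv k) (degF k Γ) := by
  intro x hx
  refine hpr_lim fun b => ?_
  obtain ⟨y, hy, h1⟩ := mem_clI.1 hx b
  exact ⟨y, hy, h1⟩

/-- The elements of `Ω` with image of degree `0`. -/
noncomputable def degP (θ : Ω →ₐ[k] HF k) (Γ : AddSubgroup ℝ) : IntermediateField k Ω :=
  (degF k Γ).comap θ

theorem mem_degP {θ : Ω →ₐ[k] HF k} {Γ : AddSubgroup ℝ} {x : Ω} :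
    x ∈ degP θ Γ ↔ hpr Γ 0 (θ x) = θ x := Iff.rfl

theorem cld_degP {θ : Ω →ₐ[k] HF k} (hθ : IsoE v (hv k) θ) (Γ : AddSubgroup ℝ) :
    Cld v (degP θ Γ) := by
  intro x hx
  refine mem_degP.2 (hpr_lim fun b => ?_)
  obtain ⟨y, hy, h1⟩ := mem_clI.1 hx b
  refine ⟨θ y, mem_degP.1 hy, ?_⟩
  rw [← map_sub, hθ.ge_iff]
  exact h1

/-- The product with a monomial. -/
theorem hpr_mon_mul (Γ : AddSubgroup ℝ) (g : ℝ) (x : HF k) :
    hpr Γ (g : ℝ ⧸ Γ) (mon k g * x) = mon k g * hpr Γ 0 x := by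
  have h1 := hpr_mul (k := k) (Γ := Γ) (g : ℝ ⧸ Γ) 0 (mon k g) x
  rwa [add_zero, hpr_mon] at h1

/-! ### The world -/

variable [hk : Fact (Ctx0 k v)] {N L A B : IntermediateField k Ω} {G : AddSubgroup ℝ} {M : ℝ → Ω}
  {p : ℕ} {u : ℕ → Ω} {d : ℕ → ℝ}

namespace World

variable (W : World p v N L G M) (hΩ : CompleteV v)

include W hΩ in
/-- The images of the elements of `N` have degree `0`. -/
theorem supp {θ : Ω →ₐ[k] HF k} (hθ : IsoE v (hv k) θ) (hg : ∀ g ∈ G, θ (M g) = TWS.mon k g) :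
    ∀ x ∈ N, hpr (VG v N) 0 (θ x) = θ x := by
  classical
  intro x hx
  have hM : MonG v (⊥ : IntermediateField k Ω) G M := ⟨W.ms, fun g hg h => by
    obtain ⟨y, hy, hy0, rfl⟩ := h
    obtain ⟨c, rfl⟩ := IntermediateField.mem_bot.1 hy
    have hc : c ≠ 0 := fun h => hy0 (by rw [h, map_zero])
    rw [(Fact.out : Ctx0 k v).triv c hc, W.ms.zero]
    exact one_mem _⟩
  refine hpr_lim fun b => ?_
  obtain ⟨Lf, hL, h2⟩ := dense_PM hM (Imm.refl _) (W.gen hx) b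
  have hc : ∀ g ∈ Lf.support, ∃ c : k, algebraMap k Ω c = Lf g := fun g _ =>
    IntermediateField.mem_bot.1 (hL.mem g)
  have hG : ∀ g ∈ Lf.support, g ∈ G := fun g hg => hL.mem_G hg
  have hLL : ∀ g ∈ Lf.support, Lf g ∈ L := fun g hg => by
    obtain ⟨c, hc⟩ := hc g hg
    rw [← hc]
    exact L.algebraMap_mem c
  have hyT : evM M Lf ∈ PM v L G M := sum_mem fun g hg =>
    mul_mem (PM.le (hLL g hg)) (PM.mon (hG g hg))
  have hy : W.pj hΩ 0 (evM M Lf) =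
      ∑ g ∈ Lf.support, if g ∈ Gj p v N G 0 then Lf g * M g else 0 :=
    pj_sum (W.isPj hΩ 0) Lf.support (g := id) hLL hG
  refine ⟨θ (W.pj hΩ 0 (evM M Lf)), ?_, ?_⟩
  · rw [hy, map_sum, map_sum]
    refine Finset.sum_congr rfl fun g hg' => ?_
    split_ifs with h3
    · obtain ⟨c, hc⟩ := hc g hg'
      have h4 : g ∈ VG v N := by
        have := h3.2
        rwa [pow_zero, one_mul] at this
      rw [map_mul, ← hc, θ.commutes, hg g h3.1]
      have h5 := hpr_mon (k := k) (Γ := VG v N) g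
      rw [(QuotientAddGroup.eq_zero_iff g).2 h4] at h5
      rw [← Algebra.smul_def, map_smul, h5]
    · rw [map_zero, map_zero]
  · have h3 := (W.isPj hΩ 0).prj.ge _ (sub_mem (PM.le (W.NL hx)) hyT) b h2
    rw [(W.isPj hΩ 0).prj.sub (PM.le (W.NL hx)) hyT, W.pj0_self hΩ (W.NL hx)] at h3
    rw [← map_sub, hθ.ge_iff]
    exact h3

omit hk in
/-- The towers in `L`. -/
theorem twr_le (W : World p v N L G M) (n : ℕ) (hu : ∀ i, i < n → u i ∈ L) :
    twr v N u n ≤ L := by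
  induction n with
  | zero => exact W.NL
  | succ n ih =>
    exact cadj_le W.cldL (ih fun i hi => hu i (Nat.lt_succ_of_lt hi)) (hu n (Nat.lt_succ_self n))

include W hΩ in
/-- **The graded embedding in the Hahn field.** -/
theorem exists_theta [IsAlgClosed k] [IsAlgClosed Ω] (n : ℕ) (hd : ∀ i, i < n → d i ∈ G)
    (hu : ∀ i, i < n → u i ∈ L)
    (ht : ∀ i, i < n → TL v (PM v (twr v N u i) G M) (M (d i) * u i) 0) :
    ∃ θ : Ω →ₐ[k] HF k, IsoE v (hv k) θ ∧ (∀ g ∈ G, θ (M g) = TWS.mon k g) ∧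
      (∀ x ∈ twr v N u n, hpr (VG v N) 0 (θ x) = θ x) ∧
      ∀ i, i < n → nuH k (θ (M (d i) * u i)) = θ (M (d i) * u i) := by
  have hk0 : Ctx0 k v := hk.out
  induction n with
  | zero =>
    obtain ⟨θ, h1, h2⟩ := exists_emb_base hk0 (ctx0_hv k) (sphC_hv k) (exists_val k) W.ms
      (⟨fun g _ => mon_ne k g, fun g _ => hv_mon k g,
        fun g _ h _ => (ms_hv k).mul g trivial h trivial⟩ : MS (hv k) G (TWS.mon k))
    exact ⟨θ, h1, h2, W.supp hΩ h1 h2, fun i hi => absurd hi (Nat.not_lt_zero i)⟩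
  | succ n ih =>
    obtain ⟨θ, h1, h2, h3, h4⟩ := ih (fun i hi => hd i (Nat.lt_succ_of_lt hi))
      (fun i hi => hu i (Nat.lt_succ_of_lt hi)) (fun i hi => ht i (Nat.lt_succ_of_lt hi))
    have hAL : twr v N u n ≤ L := W.twr_le n fun i hi => hu i (Nat.lt_succ_of_lt hi)
    have hdn := hd n (Nat.lt_succ_self n)
    have hun := hu n (Nat.lt_succ_self n)
    have htn := ht n (Nat.lt_succ_self n)
    have hM0 := W.ms.ne _ hdn
    obtain ⟨θ', h5, h6, h7, h8⟩ := theta_step hk0 h1 htn (VG v N) ((d n : ℝ) : ℝ ⧸ VG v N)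
      fun ε hε => by
      have hl := htn.lim
      rw [mul_comm] at hl
      have hl' := (lim_mon W.mon (W.immA (le_twr n) hAL) W.imm hAL hun hdn).1 hl
      obtain ⟨a, ha, h9⟩ := hl' ε hε
      refine ⟨M (d n) * a, mul_mem (PM.mon hdn) (PM.le ha), ?_, ?_⟩
      · rw [← mul_sub]
        have h10 := (RVal.ge_self (v := v) (M (d n))).mul h9
        rw [W.ms.val _ hdn] at h10
        refine h10.mono (le_of_eq ?_)
        ring
      · rw [map_mul, h2 _ hdn, hpr_mon_mul, h3 a ha]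
    have hg' : ∀ g ∈ G, θ' (M g) = TWS.mon k g := fun g hg => by
      rw [h6 _ (PM.mon hg), h2 g hg]
    have hdeg : hpr (VG v N) 0 (θ' (u n)) = θ' (u n) := by
      have h9 : TWS.mon k (d n) ≠ 0 := mon_ne k _
      refine mul_left_cancel₀ h9 ?_
      rw [← hpr_mon_mul, ← hg' _ hdn, ← map_mul, h7]
    refine ⟨θ', h5, hg', ?_, fun i hi => ?_⟩
    · have h9 : twr v N u (n + 1) ≤ degP θ' (VG v N) := by
        refine cadj_le (cld_degP h5 _) (fun x hx => ?_) (mem_degP.2 hdeg)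
        rw [mem_degP, h6 x (PM.le hx)]
        exact h3 x hx
      exact fun x hx => mem_degP.1 (h9 hx)
    · rcases Nat.lt_succ_iff_lt_or_eq.1 hi with h9 | rfl
      · have h10 : M (d i) * u i ∈ PM v (twr v N u n) G M :=
          mul_mem (PM.mon (hd i hi)) (PM.le (mem_twr h9))
        rw [h6 _ h10]
        exact h4 i h9
      · exact h8

include W in
/-- **`θ` and the projection `π_0`.** -/
theorem theta_pj {θ : Ω →ₐ[k] HF k} (hθ : IsoE v (hv k) θ) (hg : ∀ g ∈ G, θ (M g) = TWS.mon k g)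
    (hNB : N ≤ B) (hBL : B ≤ L) (hB : ∀ x ∈ B, hpr (VG v N) 0 (θ x) = θ x) {x : Ω}
    (hx : x ∈ PM v B G M) : hpr (VG v N) 0 (θ x) = θ (W.pj hΩ 0 x) := by
  classical
  rw [← sub_eq_zero]
  refine TWC.eq_zero_of_ge (v := hv k) fun b => ?_
  obtain ⟨Lf, hL, h2⟩ := dense_PM W.mon (W.immA hNB hBL) hx b
  have hG : ∀ g ∈ Lf.support, g ∈ G := fun g hg => hL.mem_G hg
  have hLL : ∀ g ∈ Lf.support, Lf g ∈ L := fun g _ => hBL (hL.mem g)
  have hyT : evM M Lf ∈ PM v L G M := sum_mem fun g hg =>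
    mul_mem (PM.le (hLL g hg)) (PM.mon (hG g hg))
  have hxT : x ∈ PM v L G M := PM.mono hBL hx
  have hy : W.pj hΩ 0 (evM M Lf) =
      ∑ g ∈ Lf.support, if g ∈ Gj p v N G 0 then Lf g * M g else 0 :=
    pj_sum (W.isPj hΩ 0) Lf.support (g := id) hLL hG
  have h3 : hpr (VG v N) 0 (θ (evM M Lf)) = θ (W.pj hΩ 0 (evM M Lf)) := by
    rw [hy, evM, Finsupp.sum, map_sum, map_sum, map_sum]
    refine Finset.sum_congr rfl fun g hg' => ?_
    have h4 := hpr_mul (k := k) (Γ := VG v N) 0 0 (θ (Lf g)) (TWS.mon k g)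
    rw [hB _ (hL.mem g), add_zero] at h4
    rw [map_mul, hg g (hG g hg'), h4]
    split_ifs with h3
    · have h5 : g ∈ VG v N := by
        have := h3.2
        rwa [pow_zero, one_mul] at this
      have h6 := hpr_mon (k := k) (Γ := VG v N) g
      rw [(QuotientAddGroup.eq_zero_iff g).2 h5] at h6
      rw [h6, map_mul, hg g (hG g hg')]
    · have h5 : (g : ℝ ⧸ VG v N) ≠ 0 := fun h => h3 ⟨hG g hg', by
        rw [pow_zero, one_mul]
        exact (QuotientAddGroup.eq_zero_iff g).1 h⟩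
      rw [hpr_mon_ne h5, mul_zero, map_zero]
  have e : hpr (VG v N) 0 (θ x) - θ (W.pj hΩ 0 x) =
      hpr (VG v N) 0 (θ (x - evM M Lf)) - θ (W.pj hΩ 0 (x - evM M Lf)) := by
    rw [(W.isPj hΩ 0).prj.sub hxT hyT, map_sub, map_sub, map_sub, h3]
    ring
  rw [e]
  refine RVal.Ge.sub (hpr_ge _ (hθ.ge_iff.2 h2)) (hθ.ge_iff.2 ?_)
  exact (W.isPj hΩ 0).prj.ge _ (sub_mem hxT hyT) b h2

include W in
/-- **`θ` and the components.** -/
theorem theta_prd {θ : Ω →ₐ[k] HF k} (hθ : IsoE v (hv k) θ) (hg : ∀ g ∈ G, θ (M g) = TWS.mon k g)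
    (hNB : N ≤ B) (hBL : B ≤ L) (hB : ∀ x ∈ B, hpr (VG v N) 0 (θ x) = θ x) {g : ℝ} (hgG : g ∈ G)
    {x : Ω} (hx : x ∈ PM v B G M) :
    hpr (VG v N) (g : ℝ ⧸ VG v N) (θ x) = θ (W.prd hΩ g x) := by
  have h1 : M (-g) * x ∈ PM v B G M := mul_mem (PM.mon (G.neg_mem hgG)) hx
  have h2 : θ x = TWS.mon k g * θ (M (-g) * x) := by
    rw [← hg g hgG, ← map_mul, ← mul_assoc, ← W.ms.mul g hgG _ (G.neg_mem hgG), add_neg_cancel,
      W.ms.zero, one_mul]
  rw [h2, hpr_mon_mul, W.theta_pj hΩ hθ hg hNB hBL hB h1, World.prd, map_mul, hg g hgG]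

end World

end Pool.Agent.TWIV
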