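import Pool.Agent.Lib.TWS.Emb
import Pool.Agent.Lib.TWS.Tr
import Pool.Agent.Lib.TWM.Op
import Mathlib.Algebra.MonoidAlgebra.Basic
import Mathlib.RingTheory.Localization.FractionRing

/-!
# TANK W, leaf (IV): isometric embeddings, changes of an embedding

* `exists_emb_from`: an isometric lift extends to `Ω`;
* `trans_step'`: the transcendental step with given image;
* `IsoE.reemb`: `θ : Ω → H` isometric, `TL v F b s`, `b'` as near to `θ(F)` as `b` to `F`: there is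
  an isometric `θ'` which is `θ` on `F`, with `θ' b = b'`;
* `exists_base`, `exists_emb_base`: `G` a group of real numbers with the monomials `M g` in `Ω` and
  `M' g` in `H`: the isometric lift `M g ↦ M' g`, the embedding of `Ω`.
-/

set_option autoImplicit false

open Polynomial IntermediateField

namespace Pool.Agent.TWIV

open Pool.Agent.H15JM (RVal)
open Pool.Agent.D2 (Ctx0)
open Pool.Agent.TWM Pool.Agent.TWS

universe u

variable {k Ω H : Type u} [Field k] [Field Ω] [Algebra k Ω] [Field H] [Algebra k H]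
  {v : RVal Ω} {w : RVal H} {G : AddSubgroup ℝ} {M : ℝ → Ω} {M' : ℝ → H}

/-- **An isometric lift extends.** -/
theorem exists_emb_from [IsAlgClosed Ω] [IsAlgClosed H] (hk : Ctx0 k v)
    (hw : SphC w) (hval : ∀ ρ : ℝ, ∃ x : H, x ≠ 0 ∧ w x = ρ) {σ : Lifts k Ω H}
    (hσ : IsoL v w σ) :
    ∃ φ : Ω →ₐ[k] H, IsoE v w φ ∧ ∀ a : σ.carrier, φ (a : Ω) = σ.emb a := by
  obtain ⟨m, hσm, hm⟩ := zorn_le_nonempty₀ {σ : Lifts k Ω H | IsoL v w σ}
    (fun c hcs hc y hy => ⟨Lifts.union c hc, IsoL.union hc ⟨y, hy⟩ fun σ hσ => hcs hσ,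
      fun σ hσ => Lifts.le_union c hc hσ⟩) σ hσ
  have hmI : IsoL v w m := hm.prop
  have hA : ∀ θ : Ω, IsAlgebraic m.carrier θ → θ ∈ m.carrier := by
    intro θ hθ
    obtain ⟨A', ψ, h1, h2, h3, h4⟩ := alg_step (φ := m.emb) hmI hθ
    have h5 : m ≤ (⟨A', ψ⟩ : Lifts k Ω H) := ⟨h1, fun x => h3 x x.2 (h1 x.2)⟩
    exact (hm.le_of_ge (y := (⟨A', ψ⟩ : Lifts k Ω H)) h4 h5).1 h2
  have htop : ∀ z : Ω, z ∈ m.carrier := by
    intro z
    by_contra hz
    obtain ⟨τ, h1, h2, h3⟩ := hmI.trans_step hk hw hval hA hz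
    exact hz ((hm.le_of_ge h2 h1).1 h3)
  have htop' : m.carrier = ⊤ := top_unique fun z _ => htop z
  refine ⟨m.emb.comp ((IntermediateField.inclusion htop'.ge).comp
    (IntermediateField.topEquiv (F := k) (E := Ω)).symm.toAlgHom), ⟨fun a ha => ?_⟩, fun a => ?_⟩
  · exact hmI ⟨a, htop a⟩ fun h0 => ha (congrArg (fun y : m.carrier => (y : Ω)) h0)
  · exact hσm.2 a

/-- The restriction of an isometric embedding. -/
noncomputable def rstL (θ : Ω →ₐ[k] H) (F : IntermediateField k Ω) : Lifts k Ω H :=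
  ⟨F, θ.comp F.val⟩

theorem rstL_iso {θ : Ω →ₐ[k] H} (hθ : IsoE v w θ) (F : IntermediateField k Ω) :
    IsoL v w (rstL θ F) := fun a ha => hθ.val (a : Ω) fun h => ha (Subtype.ext h)

/-- **The transcendental step**, the image is given. -/
theorem trans_step' [IsAlgClosed Ω] {σ : Lifts k Ω H} (h : IsoL v w σ)
    (hA : ∀ θ : Ω, IsAlgebraic σ.carrier θ → θ ∈ σ.carrier) {z : Ω} {ζ : H} (hz : z ∉ σ.carrier)
    (hζ : ∀ a : σ.carrier, ζ - σ.emb a ≠ 0 ∧ w (ζ - σ.emb a) = v (z - a)) :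
    ∃ τ : Lifts k Ω H, σ ≤ τ ∧ IsoL v w τ ∧ ∃ hz : z ∈ τ.carrier, τ.emb ⟨z, hz⟩ = ζ := by
  have hpoly := val_poly h hA hz hζ
  have htr : Transcendental σ.carrier z := fun h0 => hz (hA z h0)
  let _ : Algebra σ.carrier H := (σ.emb : σ.carrier →+* H).toAlgebra
  have _ : IsScalarTower k σ.carrier H := IsScalarTower.of_algebraMap_eq fun c =>
    (σ.emb.commutes c).symm
  have hζtr : Transcendental σ.carrier ζ := by
    rintro ⟨f, hf, hf0⟩
    exact (hpoly f hf).1 hf0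
  let e₁ := RatFunc.algEquivOfTranscendental z htr
  let e₂ := RatFunc.algEquivOfTranscendental ζ hζtr
  let ψ : (σ.carrier⟮z⟯ : IntermediateField σ.carrier Ω) →ₐ[σ.carrier] H :=
    (IntermediateField.val _).comp (e₂.toAlgHom.comp e₁.symm.toAlgHom)
  have hgen : ψ (AdjoinSimple.gen σ.carrier z) = ζ := by
    have h1 := RatFunc.algEquivOfTranscendental_symm_aeval z htr X
    rw [aeval_X] at h1
    change ((e₂ (e₁.symm (AdjoinSimple.gen σ.carrier z)) : _) : H) = ζ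
    rw [h1, RatFunc.algebraMap_X]
    exact RatFunc.algEquivOfTranscendental_X ζ hζtr
  have hψ : ∀ f : Polynomial σ.carrier, ψ (aeval (AdjoinSimple.gen σ.carrier z) f) =
      eval₂ (σ.emb : σ.carrier →+* H) ζ f := by
    intro f
    rw [← aeval_algHom_apply, hgen]
    rfl
  have hval : ∀ f : Polynomial σ.carrier,
      ((aeval (AdjoinSimple.gen σ.carrier z) f : σ.carrier⟮z⟯) : Ω) = aeval z f := by
    intro f
    have := aeval_algHom_apply (IntermediateField.val (σ.carrier⟮z⟯)) (AdjoinSimple.gen σ.carrier z) f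
    exact this.symm
  have hiso : ∀ x : σ.carrier⟮z⟯, x ≠ 0 → w (ψ x) = v (x : Ω) := by
    intro x hx0
    obtain ⟨r, s, hrs⟩ := (IntermediateField.mem_adjoin_simple_iff σ.carrier (x : Ω)).1 x.2
    have hx0' : (x : Ω) ≠ 0 := fun h0 => hx0 (Subtype.ext h0)
    have hr : r ≠ 0 := by
      rintro rfl
      rw [map_zero, zero_div] at hrs
      exact hx0' hrs
    have hs : s ≠ 0 := by
      rintro rfl
      rw [map_zero, div_zero] at hrs
      exact hx0' hrs
    have e1 : x = aeval (AdjoinSimple.gen σ.carrier z) r /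
        aeval (AdjoinSimple.gen σ.carrier z) s := by
      refine Subtype.ext ?_
      rw [hrs, ← hval, ← hval]
      rfl
    have e2 : ψ x = eval₂ (σ.emb : σ.carrier →+* H) ζ r /
        eval₂ (σ.emb : σ.carrier →+* H) ζ s := by
      rw [e1, map_div₀, hψ, hψ]
    obtain ⟨h1, h2, h3⟩ := hpoly r hr
    obtain ⟨h4, h5, h6⟩ := hpoly s hs
    rw [e2, w.map_div h1 h4, h3, h6, hrs, v.map_div h2 h5]
  refine ⟨⟨(σ.carrier⟮z⟯).restrictScalars k, ψ.restrictScalars k⟩, ⟨?_, ?_⟩, ?_, ?_, ?_⟩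
  · intro a ha
    exact (σ.carrier⟮z⟯).algebraMap_mem ⟨a, ha⟩
  · intro a
    exact ψ.commutes a
  · exact hiso
  · exact IntermediateField.mem_adjoin_simple_self σ.carrier z
  · exact hgen

/-- **The change of an embedding.** -/
theorem reemb [IsAlgClosed Ω] [IsAlgClosed H] (hk : Ctx0 k v)
    (hw : SphC w) (hval : ∀ ρ : ℝ, ∃ x : H, x ≠ 0 ∧ w x = ρ) {θ : Ω →ₐ[k] H} (hθ : IsoE v w θ)
    {F : IntermediateField k Ω} {b : Ω} {s : ℝ} (hb : TL v F b s) {b' : H}
    (hn : ∀ ε : ℝ, 0 < ε → ∃ ψ ∈ F, v.Ge (s - ε) (b - ψ) ∧ w.Ge (s - ε) (b' - θ ψ)) :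
    ∃ θ' : Ω →ₐ[k] H, IsoE v w θ' ∧ (∀ x ∈ F, θ' x = θ x) ∧ θ' b = b' := by
  have hbF : b ∉ algc F := fun h => (hb.far b (mem_algc.1 h)).1 rfl
  obtain ⟨τ, h1, h2, h3, h4⟩ := trans_step' (σ := rstL θ (algc F)) (rstL_iso hθ _)
    (fun x hx => mem_algc.2 (isAlgebraic_of_algc hx)) (z := b) (ζ := b') hbF (fun a => by
      obtain ⟨a1, a2⟩ := hb.far (a : Ω) (mem_algc.1 a.2)
      have a0 : b - (a : Ω) ≠ 0 := sub_ne_zero.2 a1
      obtain ⟨ψ, hψ, a3, a4⟩ := hn ((s - v (b - a)) / 2) (by linarith)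
      have a5 : ((s - (s - v (b - a)) / 2)) = (s + v (b - a)) / 2 := by ring
      rw [a5] at a3 a4
      have a6 : Gt v (v (b - (a : Ω))) (b - ψ) := Gt.of_ge a3 (by linarith)
      obtain ⟨a7, a8⟩ := Gt.val_eq (x := b - (a : Ω)) (y := ψ - (a : Ω)) a0 (by
        rwa [sub_sub_sub_cancel_right])
      have a9 : θ (ψ - a) ≠ 0 := IsoE.ne_zero a7
      have a10 : w (θ (ψ - a)) = v (b - a) := by rw [hθ.val _ a7, a8]
      have a11 : Gt w (w (θ (ψ - (a : Ω)))) (θ (ψ - a) - (b' - θ a)) := by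
        rw [a10, map_sub]
        have e : θ ψ - θ (a : Ω) - (b' - θ (a : Ω)) = -(b' - θ ψ) := by ring
        rw [e]
        exact (Gt.of_ge a4 (by linarith)).neg
      obtain ⟨a12, a13⟩ := Gt.val_eq a9 a11
      exact ⟨a12, a13.trans a10⟩)
  obtain ⟨φ, h5, h6⟩ := exists_emb_from hk hw hval h2
  refine ⟨φ, h5, fun x hx => ?_, ?_⟩
  · have h7 : x ∈ algc F := mem_algc.2 (isAlgebraic_algebraMap (⟨x, hx⟩ : F))
    have h8 := h6 ⟨x, h1.1 h7⟩
    have h9 := h1.2 (⟨x, h7⟩ : (rstL θ (algc F)).carrier)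
    exact h8.trans h9
  · exact (h6 ⟨b, h3⟩).trans h4

/-! ### The base -/

omit [Field k] [Algebra k Ω] in
/-- The monomials as a homomorphism. -/
def msHom (hM : MS v G M) : Multiplicative G →* Ω where
  toFun g := M (g.toAdd : ℝ)
  map_one' := hM.zero
  map_mul' a b := hM.mul _ a.toAdd.2 _ b.toAdd.2

/-- The sums of the monomials. -/
noncomputable def evG (k : Type u) {Ω : Type u} [Field k] [Field Ω] [Algebra k Ω] {v : RVal Ω}
    {G : AddSubgroup ℝ} {M : ℝ → Ω} (hM : MS v G M) : AddMonoidAlgebra k G →ₐ[k] Ω :=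
  AddMonoidAlgebra.lift k Ω G (msHom hM)

theorem evG_apply (hM : MS v G M) (f : AddMonoidAlgebra k G) :
    evG k hM f = ∑ g ∈ f.coeff.support, f.coeff g • M (g : ℝ) :=
  AddMonoidAlgebra.lift_apply (msHom hM) f

/-- The value of a sum. -/
theorem evG_val (hk : Ctx0 k v) (hM : MS v G M) {f : AddMonoidAlgebra k G} {g : G}
    (hg : g ∈ f.coeff.support) (hmin : ∀ g' ∈ f.coeff.support, g ≤ g') :
    evG k hM f ≠ 0 ∧ v (evG k hM f) = g := by
  classical
  have hc : ∀ c : k, c ≠ 0 → algebraMap k Ω c ≠ 0 := fun c hc => by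
    rwa [Ne, _root_.map_eq_zero]
  have hv : ∀ c : k, c ≠ 0 → ∀ g : G, c • M (g : ℝ) ≠ 0 ∧ v (c • M (g : ℝ)) = g := by
    intro c h0 g
    rw [Algebra.smul_def]
    refine ⟨mul_ne_zero (hc c h0) (hM.ne _ g.2), ?_⟩
    rw [v.map_mul (hc c h0) (hM.ne _ g.2), hk.triv c h0, hM.val _ g.2, zero_add]
  have hg0 : f.coeff g ≠ 0 := Finsupp.mem_support_iff.1 hg
  obtain ⟨h1, h2⟩ := hv _ hg0 g
  have h3 : Gt v (v (f.coeff g • M (g : ℝ))) (f.coeff g • M (g : ℝ) - evG k hM f) := by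
    have e : f.coeff g • M (g : ℝ) - evG k hM f =
        -∑ g' ∈ f.coeff.support.erase g, f.coeff g' • M (g' : ℝ) := by
      rw [evG_apply, ← Finset.sum_erase_add _ _ hg]
      ring
    rw [e]
    refine (Gt.sum _ _ fun g' hg' => ?_).neg
    intro h4
    have h5 := Finset.mem_of_mem_erase hg'
    have h6 := Finset.ne_of_mem_erase hg'
    have h7 : f.coeff g' ≠ 0 := Finsupp.mem_support_iff.1 h5
    rw [h2, (hv _ h7 g').2]
    have h8 : g < g' := lt_of_le_of_ne (hmin g' h5) (Ne.symm h6)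
    exact h8
  obtain ⟨h4, h5⟩ := Gt.val_eq h1 h3
  exact ⟨h4, h5.trans h2⟩

theorem exists_evG (hk : Ctx0 k v) (hkw : Ctx0 k w) (hM : MS v G M) (hM' : MS w G M')
    {f : AddMonoidAlgebra k G} (hf : f ≠ 0) :
    evG k hM f ≠ 0 ∧ evG k hM' f ≠ 0 ∧ w (evG k hM' f) = v (evG k hM f) := by
  classical
  have hne : f.coeff.support.Nonempty := by
    rw [Finsupp.support_nonempty_iff]
    exact fun h => hf (AddMonoidAlgebra.coeff_eq_zero.1 h)
  obtain ⟨g, hg, hmin⟩ := Finset.exists_min_image f.coeff.support id hne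
  obtain ⟨h1, h2⟩ := evG_val hk hM hg hmin
  obtain ⟨h3, h4⟩ := evG_val hkw hM' hg hmin
  exact ⟨h1, h3, h4.trans h2.symm⟩

/-- **The base.** -/
theorem exists_base (hk : Ctx0 k v) (hkw : Ctx0 k w) (hM : MS v G M) (hM' : MS w G M') :
    ∃ σ : Lifts k Ω H, IsoL v w σ ∧ ∀ g ∈ G, ∃ h : M g ∈ σ.carrier, σ.emb ⟨M g, h⟩ = M' g := by
  classical
  have hi : Function.Injective (evG k hM) := by
    rw [injective_iff_map_eq_zero]
    intro f hf
    by_contra h0
    exact (exists_evG hk hkw hM hM' h0).1 hf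
  have hi' : Function.Injective (evG k hM') := by
    rw [injective_iff_map_eq_zero]
    intro f hf
    by_contra h0
    exact (exists_evG hk hkw hM hM' h0).2.1 hf
  have _ : IsDomain (AddMonoidAlgebra k G) := Function.Injective.isDomain (evG k hM).toRingHom hi
  let K := FractionRing (AddMonoidAlgebra k G)
  let φ : K →ₐ[k] Ω := IsFractionRing.liftAlgHom hi
  let φ' : K →ₐ[k] H := IsFractionRing.liftAlgHom hi'
  have hφ : ∀ r, φ (algebraMap (AddMonoidAlgebra k G) K r) = evG k hM r := fun r =>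
    IsFractionRing.lift_algebraMap hi r
  have hφ' : ∀ r, φ' (algebraMap (AddMonoidAlgebra k G) K r) = evG k hM' r := fun r =>
    IsFractionRing.lift_algebraMap hi' r
  have hval : ∀ x : K, x ≠ 0 → w (φ' x) = v (φ x) := by
    intro x hx
    obtain ⟨r, s, hs, rfl⟩ := IsFractionRing.div_surjective (AddMonoidAlgebra k G) x
    have hs0 : s ≠ 0 := nonZeroDivisors.ne_zero hs
    have hr0 : r ≠ 0 := by
      rintro rfl
      rw [map_zero, zero_div] at hx
      exact hx rfl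
    obtain ⟨h1, h2, h3⟩ := exists_evG hk hkw hM hM' hr0
    obtain ⟨h4, h5, h6⟩ := exists_evG hk hkw hM hM' hs0
    rw [map_div₀, map_div₀, hφ, hφ, hφ', hφ', v.map_div h1 h4, w.map_div h2 h5, h3, h6]
  let e : K ≃ₐ[k] φ.fieldRange := AlgEquiv.ofInjectiveField φ
  have he : ∀ x : K, ((e x : φ.fieldRange) : Ω) = φ x := fun x => rfl
  have key : ∀ a : φ.fieldRange, a ≠ 0 → w (φ' (e.symm a)) = v (a : Ω) := by
    intro a ha
    obtain ⟨x, rfl⟩ := e.surjective a
    rw [e.symm_apply_apply, he]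
    exact hval x fun h => ha (by rw [h, map_zero])
  refine ⟨⟨φ.fieldRange, φ'.comp e.symm.toAlgHom⟩, fun a ha => key a ha, fun g hg => ?_⟩
  · have h1 : evG k hM (AddMonoidAlgebra.single (⟨g, hg⟩ : G) 1) = M g := by
      rw [evG, AddMonoidAlgebra.lift_single, one_smul]
      rfl
    have h2 : evG k hM' (AddMonoidAlgebra.single (⟨g, hg⟩ : G) 1) = M' g := by
      rw [evG, AddMonoidAlgebra.lift_single, one_smul]
      rfl
    have h3 : φ (algebraMap (AddMonoidAlgebra k G) K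
        (AddMonoidAlgebra.single (⟨g, hg⟩ : G) 1)) = M g := by rw [hφ, h1]
    have h4 : M g ∈ φ.fieldRange := by
      rw [← h3]
      exact ⟨_, rfl⟩
    refine ⟨h4, ?_⟩
    change φ' (e.symm ⟨M g, h4⟩) = M' g
    have h5 : e.symm ⟨M g, h4⟩ = algebraMap (AddMonoidAlgebra k G) K
        (AddMonoidAlgebra.single (⟨g, hg⟩ : G) 1) := by
      rw [e.symm_apply_eq]
      exact Subtype.ext h3.symm
    rw [h5, hφ', h2]

/-- **The embedding of the base.** -/
theorem exists_emb_base [IsAlgClosed Ω] [IsAlgClosed H] (hk : Ctx0 k v) (hkw : Ctx0 k w)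
    (hw : SphC w) (hval : ∀ ρ : ℝ, ∃ x : H, x ≠ 0 ∧ w x = ρ) (hM : MS v G M) (hM' : MS w G M') :
    ∃ θ : Ω →ₐ[k] H, IsoE v w θ ∧ ∀ g ∈ G, θ (M g) = M' g := by
  obtain ⟨σ, h1, h2⟩ := exists_base hk hkw hM hM'
  obtain ⟨φ, h3, h4⟩ := exists_emb_from hk hw hval h1
  refine ⟨φ, h3, fun g hg => ?_⟩
  obtain ⟨h5, h6⟩ := h2 g hg
  exact (h4 ⟨M g, h5⟩).trans h6

end Pool.Agent.TWIV
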