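import Pool.Agent.Lib.TWM.G4
import Pool.Agent.Lib.TWM.Lin
import Pool.Agent.Lib.TWM.RankOne

/-!
# TANK W, tame case: the modules of radius `0` over `k{F}`

* `ldiv`: the division with a left factor in `k{F}`, `k` perfect;
* `Ss`: the span of two elements at the radius `0`;
* `euclid2`: if `w ≡ P₁ u₁ + P₂ u₂` then there is a basis `x₁, x₂` of the span of `u₁, u₂` with
  `w ≡ D x₁`;
* `exists_free_tf`: finite families of torsion free modules have a free basis.
-/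

set_option autoImplicit false
set_option linter.unusedSectionVars false

open Polynomial

namespace Pool.Agent.TWIV

open Pool.Agent.H15JM (RVal)
open Pool.Agent.LU1 (VPos adj)
open Pool.Agent.D2 (Ctx0)
open Pool.Agent.TWM

universe u

variable {k Ω : Type u} [Field k] [Field Ω] [Algebra k Ω] {v : RVal Ω}
  {G : AddSubgroup ℝ} {M : ℝ → Ω} {p : ℕ} [hp : Fact p.Prime] [CharP k p]

section Div

theorem tw_CX_coeff (Q : k[X]) (s : k) (d m : ℕ) :
    (tw p Q (C s * X ^ d)).coeff m = if d ≤ m then Q.coeff (m - d) * s ^ p ^ (m - d) else 0 := by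
  rw [tw_coeff]
  split_ifs with h
  · rw [Finset.sum_eq_single (m - d)]
    · rw [coeff_C_mul_X_pow, if_pos (by omega)]
    · intro i hi hne
      rw [Finset.mem_range] at hi
      rw [coeff_C_mul_X_pow, if_neg (by omega), zero_pow (pow_pos hp.out.pos i).ne', mul_zero]
    · intro h1
      rw [Finset.mem_range] at h1
      omega
  · refine Finset.sum_eq_zero fun i hi => ?_
    rw [Finset.mem_range] at hi
    rw [coeff_C_mul_X_pow, if_neg (by omega), zero_pow (pow_pos hp.out.pos i).ne', mul_zero]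

theorem ldiv_aux [PerfectRing k p] {Q : k[X]} (hQ : Q ≠ 0) (n : ℕ) : ∀ P : k[X],
    (∀ m, n ≤ m → P.coeff m = 0) → ∃ S R : k[X], P = tw p Q S + R ∧
      ∀ m, Q.natDegree ≤ m → R.coeff m = 0 := by
  induction n with
  | zero =>
    intro P hP
    have h1 : P = 0 := Polynomial.ext fun m => by rw [hP m (Nat.zero_le m), coeff_zero]
    exact ⟨0, 0, by rw [tw_zero_right, add_zero, h1], fun m _ => coeff_zero m⟩
  | succ n ih =>
    intro P hP
    by_cases hn : n < Q.natDegree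
    · exact ⟨0, P, by rw [tw_zero_right, zero_add], fun m hm => hP m (by omega)⟩
    · rw [not_lt] at hn
      have hlc : Q.coeff Q.natDegree ≠ 0 := by
        rw [coeff_natDegree]
        exact leadingCoeff_ne_zero.2 hQ
      obtain ⟨s, hs⟩ : ∃ s : k, s ^ p ^ Q.natDegree = P.coeff n / Q.coeff Q.natDegree := by
        refine ⟨(iterateFrobeniusEquiv k p Q.natDegree).symm (P.coeff n / Q.coeff Q.natDegree), ?_⟩
        exact (iterateFrobeniusEquiv k p Q.natDegree).apply_symm_apply _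
      obtain ⟨S, R, h1, h2⟩ := ih (P - tw p Q (C s * X ^ (n - Q.natDegree))) (by
        intro m hm
        rw [coeff_sub, tw_CX_coeff, if_pos (by omega)]
        rcases Nat.eq_or_lt_of_le hm with h | h
        · rw [← h, Nat.sub_sub_self hn, hs, mul_div_cancel₀ _ hlc, sub_self]
        · rw [hP m (by omega), coeff_eq_zero_of_natDegree_lt (p := Q) (by omega), zero_mul,
            sub_zero])
      refine ⟨C s * X ^ (n - Q.natDegree) + S, R, ?_, h2⟩
      rw [tw_add_right, add_assoc, ← h1]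
      ring

/-- The division with the left factor `Q`. -/
theorem ldiv [PerfectRing k p] (P : k[X]) {Q : k[X]} (hQ : Q ≠ 0) :
    ∃ S R : k[X], P = tw p Q S + R ∧ (R = 0 ∨ R.natDegree < Q.natDegree) := by
  obtain ⟨S, R, h1, h2⟩ := ldiv_aux (p := p) hQ (P.natDegree + 1) P fun m hm =>
    coeff_eq_zero_of_natDegree_lt (by omega)
  refine ⟨S, R, h1, ?_⟩
  by_contra h
  push Not at h
  have h3 := h2 _ h.2
  rw [coeff_natDegree] at h3
  exact h.1 (leadingCoeff_eq_zero.1 h3)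

end Div

section Zero

variable [CharP Ω p]

/-- Every polynomial is an operator at the radius `0`. -/
theorem isOp00 (P : k[X]) : IsOp p G 0 0 P := fun j _ => by
  rw [mul_zero, sub_zero]
  exact G.zero_mem

theorem ev00_ge (h0 : Ctx0 k v) (hM : MS v G M) (P : k[X]) {x : Ω} (hx : v.Ge 0 x) :
    v.Ge 0 (ev p M 0 0 P x) := by
  rw [ev, Polynomial.sum]
  refine RVal.Ge.sum _ _ fun j _ => ?_
  have h1 := ge_pow hx (p ^ j)
  rw [mul_zero] at h1
  rw [mul_zero, sub_zero, hM.zero, mul_one]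
  have h2 := (h0.ge (P.coeff j)).mul h1
  rwa [add_zero] at h2

/-- The span of two elements, radius `0`. -/
def Ss (p : ℕ) (M : ℝ → Ω) (v : RVal Ω) (A : IntermediateField k Ω) (u₁ u₂ x : Ω) : Prop :=
  ∃ P₁ P₂ : k[X], Nr' v A 0 (x - (ev p M 0 0 P₁ u₁ + ev p M 0 0 P₂ u₂))

variable {A : IntermediateField k Ω}

theorem ev00_tw (hM : MS v G M) (P Q : k[X]) (x : Ω) :
    ev p M 0 0 (tw p P Q) x = ev p M 0 0 P (ev p M 0 0 Q x) :=
  ev_tw hM (isOp00 Q) (isOp00 P) x

theorem nr'_ev00 (h0 : Ctx0 k v) (hM : MS v G M) (hMA : ∀ g ∈ G, M g ∈ A) (P : k[X]) {x : Ω}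
    (hx : Nr' v A 0 x) : Nr' v A 0 (ev p M 0 0 P x) :=
  (gsub_Nr' (p := p) h0 hM hMA).ev (isOp00 P) hx

theorem nr'_add {r : ℝ} {x y : Ω} (hx : Nr' v A r x) (hy : Nr' v A r y) : Nr' v A r (x + y) := by
  obtain ⟨a, ha, h1⟩ := hx
  obtain ⟨b, hb, h2⟩ := hy
  refine ⟨a + b, add_mem ha hb, ?_⟩
  rw [add_sub_add_comm]
  exact h1.add h2

theorem nr'_neg {r : ℝ} {x : Ω} (hx : Nr' v A r x) : Nr' v A r (-x) := by
  obtain ⟨a, ha, h1⟩ := hx
  refine ⟨-a, neg_mem ha, ?_⟩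
  rw [show -x - -a = -(x - a) by ring]
  exact h1.neg

theorem nr'_sub {r : ℝ} {x y : Ω} (hx : Nr' v A r x) (hy : Nr' v A r y) : Nr' v A r (x - y) := by
  rw [sub_eq_add_neg]
  exact nr'_add hx (nr'_neg hy)

/-- **The Euclidean algorithm** on a pair. -/
theorem euclid2 (hM : MS v G M) [PerfectRing k p]
    {K : IntermediateField k Ω} {w : Ω} (n : ℕ) : ∀ (u₁ u₂ : Ω) (P₁ P₂ : k[X]), u₁ ∈ K → u₂ ∈ K →
      P₂.natDegree < n ∨ P₂ = 0 → Nr' v A 0 (w - (ev p M 0 0 P₁ u₁ + ev p M 0 0 P₂ u₂)) →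
      ∃ (x₁ x₂ : Ω) (D a b c d a' b' c' d' : k[X]), x₁ ∈ K ∧ x₂ ∈ K ∧
        Nr' v A 0 (w - ev p M 0 0 D x₁) ∧
        x₁ = ev p M 0 0 a u₁ + ev p M 0 0 b u₂ ∧ x₂ = ev p M 0 0 c u₁ + ev p M 0 0 d u₂ ∧
        u₁ = ev p M 0 0 a' x₁ + ev p M 0 0 b' x₂ ∧ u₂ = ev p M 0 0 c' x₁ + ev p M 0 0 d' x₂ := by
  induction n with
  | zero =>
    intro u₁ u₂ P₁ P₂ h₁ h₂ hP hw
    have hP2 : P₂ = 0 := by
      rcases hP with h | h
      · exact absurd h (Nat.not_lt_zero _)
      · exact h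
    rw [hP2, ev_zero, add_zero] at hw
    refine ⟨u₁, u₂, P₁, 1, 0, 0, 1, 1, 0, 0, 1, h₁, h₂, hw, ?_, ?_, ?_, ?_⟩ <;>
    simp only [ev_one hM, ev_zero, add_zero, zero_add]
  | succ n ih =>
    intro u₁ u₂ P₁ P₂ h₁ h₂ hP hw
    by_cases hP0 : P₂ = 0
    · exact ih u₁ u₂ P₁ P₂ h₁ h₂ (Or.inr hP0) hw
    have hPn : P₂.natDegree < n + 1 := by
      rcases hP with h | h
      · exact h
      · exact absurd h hP0
    obtain ⟨S, R, h1, h2⟩ := ldiv (p := p) P₁ hP0
    -- the new pair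
    have e1 : ev p M 0 0 P₁ u₁ + ev p M 0 0 P₂ u₂ =
        ev p M 0 0 P₂ (u₂ + ev p M 0 0 S u₁) + ev p M 0 0 R u₁ := by
      rw [h1, ev_add, ev00_tw hM, ev_add_right]
      ring
    rw [e1] at hw
    have hSK : u₂ + ev p M 0 0 S u₁ ∈ K := by
      refine add_mem h₂ ?_
      rw [ev, Polynomial.sum]
      refine sum_mem fun j _ => mul_mem (mul_mem (K.algebraMap_mem _) ?_) (pow_mem h₁ _)
      rw [mul_zero, sub_zero, hM.zero]
      exact one_mem K
    obtain ⟨x₁, x₂, D, a, b, c, d, a', b', c', d', hx₁, hx₂, hD, e2, e3, e4, e5⟩ :=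
      ih (u₂ + ev p M 0 0 S u₁) u₁ P₂ R hSK h₁ (by
        rcases h2 with h | h
        · exact Or.inr h
        · exact Or.inl (by omega)) hw
    refine ⟨x₁, x₂, D, tw p a S + b, a, tw p c S + d, c, c', d', a' - tw p S c', b' - tw p S d',
      hx₁, hx₂, hD, ?_, ?_, e5, ?_⟩
    · rw [e2, ev_add_right, ev_add, ev00_tw hM]
      ring
    · rw [e3, ev_add_right, ev_add, ev00_tw hM]
      ring
    · have e6 : u₂ = (ev p M 0 0 a' x₁ + ev p M 0 0 b' x₂) - ev p M 0 0 S u₁ := by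
        rw [← e4]
        ring
      conv_lhs => rw [e6, e5]
      rw [ev_add_right, ev_sub, ev_sub, ev00_tw hM, ev00_tw hM]
      ring

/-- Finite families of torsion free modules have a free basis, radius `0`. -/
theorem exists_free_tf [IsAlgClosed k] (hM : MS v G M) {Z L : ℝ → Ω → Prop}
    (hZ : GSub k p G M Z) (hL : GSub k p G M L) (hZL : ∀ r a, Z r a → L r a)
    (htf : ∀ x, L 0 x → ∀ Q : k[X], Q ≠ 0 → Z 0 (ev p M 0 0 Q x) → Z 0 x)
    {ι : Type*} [Fintype ι] [DecidableEq ι] (w₀ : ι → Ω) (hw₀ : ∀ i, L 0 (w₀ i)) :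
    ∃ (S : Finset ι) (w : ι → Ω), (∀ i ∈ S, L 0 (w i)) ∧
      (∀ i, InSpan k p G M Z (fun _ => 0) w S 0 (w₀ i)) ∧
      (∀ i ∈ S, InSpan k p G M Z (fun _ => 0) w₀ Finset.univ 0 (w i)) ∧
      FreeOn k p G M Z (fun _ => 0) w S := by
  classical
  obtain ⟨S, w, h1, h2, h3, h4, h5⟩ := exists_reduced hM hZ hL hZL (fun _ : ι => (0 : ℝ)) w₀ hw₀
  refine ⟨S, w, h1, h2, h3, ?_⟩
  rcases h5 with h5 | ⟨R, Q, hQ, ⟨i, hi, hQi⟩, hrel, -, hd⟩
  · exact h5
  exfalso
  -- the radius of the relation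
  have hpos : (Q i).coeff (Q i).natDegree ≠ 0 := by
    rw [coeff_natDegree]
    exact leadingCoeff_ne_zero.2 hQi
  have hR : R ∈ G := by
    have h6 := hQ i hi _ hpos
    rwa [mul_zero, sub_zero] at h6
  -- only one term
  have h6 : ∀ j ∈ S, j ≠ i → Q j = 0 := by
    intro j hj hji
    by_contra hQj
    rcases le_total (Q j).natDegree (Q i).natDegree with h | h
    · refine hd i hi j hj (Ne.symm hji) hQi hQj h ?_
      rw [mul_zero, sub_zero]
      exact G.zero_mem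
    · refine hd j hj i hi hji hQj hQi h ?_
      rw [mul_zero, sub_zero]
      exact G.zero_mem
  rw [Finset.sum_eq_single i (fun j hj hji => by rw [h6 j hj hji, ev_zero])
    (fun h => absurd hi h)] at hrel
  have h7 : Z 0 (ev p M 0 0 (Q i) (w i)) := by
    have h8 := hZ.op 1 R (-R) 0 _ (G.neg_mem hR) hrel
    rw [pow_zero, one_mul, neg_add_cancel, pow_zero, pow_one, map_one, one_mul] at h8
    have e1 : ev p M 0 R (Q i) (w i) = M R * ev p M 0 0 (Q i) (w i) := by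
      rw [ev, ev, Polynomial.sum, Polynomial.sum, Finset.mul_sum]
      refine Finset.sum_congr rfl fun j _ => ?_
      rw [mul_zero, sub_zero, sub_zero, hM.zero]
      ring
    rw [e1, ← mul_assoc, ← hM.mul _ (G.neg_mem hR) _ hR, neg_add_cancel, hM.zero, one_mul] at h8
    exact h8
  exact h4 i hi (InSpan.of_Z (htf _ (h1 i hi) _ hQi h7))

end Zero

end Pool.Agent.TWIV
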