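import Pool.Agent.Lib.TWIV.EmbX
import Pool.Agent.Lib.TWX.Core
import Pool.Agent.Lib.TWS.MonC

/-!
# TANK W, leaf (IV): exchange of the monomials

`M`, `M'` two systems of monomials with the values `G`, `L` closed, `M d` and `M' d` in `L` and
`v (M d - M' d) ≥ d + γ`, `γ > 0`, for the values `d ∈ G` of `L` (`NP`). The `L`-linear map
`M g ↦ M' g` (`g` in a system of representatives) is an additive isometry of `PM v L G M` onto
`PM v L G M'`, multiplicative with the gain `γ` (`NP.exists_alm`), near to every isometric embedding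
with `M g ↦ M' g` on `PM v ⊥ G M` (`NP.clo`). So towers are moved (`NP.towR`).
-/

set_option autoImplicit false
set_option linter.unusedSectionVars false

open Polynomial IntermediateField

namespace Pool.Agent.TWIV

open Pool.Agent.H15JM (RVal)
open Pool.Agent.D2 (Ctx0)
open Pool.Agent.D2P (clI mem_clI)
open Pool.Agent.TWM Pool.Agent.TWS
open Pool.Agent.TWC (eq_zero_of_ge)

universe u

variable {k Ω H : Type u} [Field k] [Field Ω] [Algebra k Ω] [Field H] [Algebra k H]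
  {v : RVal Ω} {w : RVal H} {G : AddSubgroup ℝ} {M M' : ℝ → Ω} {L : IntermediateField k Ω}
  {γ b c : ℝ} {f f' g g' h' f'' : Ω}

/-- The two systems are near on the values of `L`. -/
structure NP (v : RVal Ω) (L : IntermediateField k Ω) (G : AddSubgroup ℝ) (M M' : ℝ → Ω)
    (γ : ℝ) : Prop where
  mon : MonG v L G M
  mon' : MonG v L G M'
  pos : 0 < γ
  gap : ∀ d ∈ G, d ∈ VG v L → v.Ge (d + γ) (M d - M' d)

theorem NP.symm (h : NP v L G M M' γ) : NP v L G M' M γ :=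
  ⟨h.mon', h.mon, h.pos, fun d h1 h2 => ge_sub_comm (h.gap d h1 h2)⟩

/-- Normal forms of the precision `b + γ`. -/
def Nm (v : RVal Ω) (L : IntermediateField k Ω) (G : AddSubgroup ℝ) (M M' : ℝ → Ω) (γ b : ℝ)
    (f f' : Ω) : Prop :=
  ∃ N : ℝ →₀ Ω, NF v L L G N ∧ f = evM M N ∧ v.Ge (b + γ) (f' - evM M' N)

theorem Nm.zero : Nm v L G M M' γ b 0 0 :=
  ⟨0, NF.zero, evM_zero.symm, by
    rw [evM_zero, sub_zero]
    exact RVal.Ge.zero⟩

theorem Nm.add (h : Nm v L G M M' γ b f f') (h1 : Nm v L G M M' γ b g g') :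
    Nm v L G M M' γ b (f + g) (f' + g') := by
  obtain ⟨N, h2, h3, h4⟩ := h
  obtain ⟨N', h5, h6, h7⟩ := h1
  refine ⟨N + N', h2.add h5, by rw [h3, h6, evM_add], ?_⟩
  rw [evM_add, add_sub_add_comm]
  exact h4.add h7

theorem Nm.sum {ι : Type*} (S : Finset ι) {F F' : ι → Ω}
    (h : ∀ i ∈ S, Nm v L G M M' γ b (F i) (F' i)) :
    Nm v L G M M' γ b (∑ i ∈ S, F i) (∑ i ∈ S, F' i) := by
  classical
  induction S using Finset.induction_on with
  | empty =>
    rw [Finset.sum_empty, Finset.sum_empty]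
    exact Nm.zero
  | insert a S ha ih =>
    rw [Finset.sum_insert ha, Finset.sum_insert ha]
    exact (h a (Finset.mem_insert_self a S)).add (ih fun i hi => h i (Finset.mem_insert_of_mem hi))

/-- One term. -/
theorem NP.single (h : NP v L G M M' γ) {a : Ω} (ha : a ∈ L) {e : ℝ} (he : e ∈ G)
    (hb : v.Ge b (a * M e)) : Nm v L G M M' γ b (a * M e) (a * M' e) := by
  have h1 := rep_sub (v := v) (A₀ := L) (G := G) e
  have h2 : e - rep v L G e ∈ G ⊓ VG v L := by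
    have := (G ⊓ VG v L).neg_mem h1
    rwa [neg_sub] at this
  have hr := rep_mem (v := v) (A₀ := L) he
  set d : ℝ := e - rep v L G e with hd
  have hde : d + rep v L G e = e := by rw [hd]; ring
  refine ⟨Finsupp.single (rep v L G e) (a * M d), ⟨fun i => ?_, fun i hi => ?_⟩, ?_, ?_⟩
  · rw [Finsupp.single_apply]
    split_ifs
    · exact mul_mem ha (h.mon.mem _ h2.1 h2.2)
    · exact zero_mem _
  · rw [Finsupp.single_apply] at hi
    split_ifs at hi with h3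
    · rw [← h3]
      exact ⟨hr, rep_rep e⟩
    · exact absurd rfl hi
  · rw [evM_single, mul_assoc, ← h.mon.ms.mul _ h2.1 _ hr, hde]
  · rw [evM_single]
    have e1 : a * M' e - a * M d * M' (rep v L G e) = -(a * (M d - M' d) * M' (rep v L G e)) := by
      have e2 : M' e = M' d * M' (rep v L G e) := by
        rw [← h.mon'.ms.mul _ h2.1 _ hr, hde]
      rw [e2]
      ring
    rw [e1]
    refine RVal.Ge.neg ?_
    by_cases ha0 : a = 0
    · rw [ha0, zero_mul, zero_mul]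
      exact RVal.Ge.zero
    have h3 : b ≤ v a + e := by
      have h4 := hb (mul_ne_zero ha0 (h.mon.ms.ne e he))
      rwa [v.map_mul ha0 (h.mon.ms.ne e he), h.mon.ms.val e he] at h4
    have h5 : v.Ge (rep v L G e) (M' (rep v L G e)) := fun _ => (h.mon'.ms.val _ hr).ge
    refine (((RVal.ge_self (v := v) a).mul (h.gap d h2.1 h2.2)).mul h5).mono ?_
    linarith

/-- The values do not depend on the system. -/
theorem NP.ge_ev (h : NP v L G M M' γ) {N : ℝ →₀ Ω} (hN : NF v L L G N)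
    (hc : v.Ge c (evM M N)) : v.Ge c (evM M' N) := by
  rw [evM, Finsupp.sum]
  refine RVal.Ge.sum _ _ fun e he => ?_
  have h1 := orth h.mon (Imm.refl L) hN hc e
  have h2 := Finsupp.mem_support_iff.1 he
  have h3 := (hN.rep e h2).1
  intro h4
  rw [v.map_mul h2 (h.mon'.ms.ne e h3), h.mon'.ms.val e h3]
  have h5 := h1 (mul_ne_zero h2 (h.mon.ms.ne e h3))
  rwa [v.map_mul h2 (h.mon.ms.ne e h3), h.mon.ms.val e h3] at h5

/-- `f'` is the image of `f`. -/
def RlM (v : RVal Ω) (L : IntermediateField k Ω) (G : AddSubgroup ℝ) (M M' : ℝ → Ω)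
    (f f' : Ω) : Prop :=
  ∀ c : ℝ, ∃ N : ℝ →₀ Ω, NF v L L G N ∧ v.Ge c (f - evM M N) ∧ v.Ge c (f' - evM M' N)

theorem RlM.symm (h : RlM v L G M M' f f') : RlM v L G M' M f' f := fun c => by
  obtain ⟨N, h1, h2, h3⟩ := h c
  exact ⟨N, h1, h3, h2⟩

theorem RlM.add (h : RlM v L G M M' f f') (h' : RlM v L G M M' g g') :
    RlM v L G M M' (f + g) (f' + g') := fun c => by
  obtain ⟨N, h1, h2, h3⟩ := h c
  obtain ⟨N', h4, h5, h6⟩ := h' c
  refine ⟨N + N', h1.add h4, ?_, ?_⟩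
  · rw [evM_add, add_sub_add_comm]
    exact h2.add h5
  · rw [evM_add, add_sub_add_comm]
    exact h3.add h6

theorem evM_neg {N : ℝ →₀ Ω} : evM M (-N) = -evM M N := by
  have h := evM_add (M := M) N (-N)
  rw [add_neg_cancel, evM_zero] at h
  exact (neg_eq_of_add_eq_zero_right h.symm).symm

theorem NF.neg' {N : ℝ →₀ Ω} (h : NF v L L G N) : NF v L L G (-N) := by
  refine ⟨fun e => ?_, fun e he => h.rep e fun h0 => he ?_⟩
  · rw [Finsupp.neg_apply]
    exact neg_mem (h.mem e)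
  · rw [Finsupp.neg_apply, h0, neg_zero]

theorem RlM.neg (h : RlM v L G M M' f f') : RlM v L G M M' (-f) (-f') := fun c => by
  obtain ⟨N, h1, h2, h3⟩ := h c
  refine ⟨-N, NF.neg' h1, ?_, ?_⟩
  · rw [evM_neg, neg_sub_neg, ← neg_sub]
    exact h2.neg
  · rw [evM_neg, neg_sub_neg, ← neg_sub]
    exact h3.neg

theorem NP.rl_ge (h : NP v L G M M' γ) (h1 : RlM v L G M M' f f') (hf : v.Ge c f) :
    v.Ge c f' := by
  obtain ⟨N, h2, h3, h4⟩ := h1 c
  have h5 : v.Ge c (evM M N) := by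
    have e : evM M N = f - (f - evM M N) := by ring
    rw [e]
    exact hf.sub h3
  have e : f' = (f' - evM M' N) + evM M' N := by ring
  rw [e]
  exact h4.add (h.ge_ev h2 h5)

theorem NP.rl_uniq (h : NP v L G M M' γ) (h1 : RlM v L G M M' f f')
    (h2 : RlM v L G M M' f f'') : f' = f'' := by
  refine sub_eq_zero.1 (eq_zero_of_ge (v := v) fun c => ?_)
  have h3 := h1.add h2.neg
  rw [add_neg_cancel] at h3
  rw [sub_eq_add_neg]
  exact h.rl_ge h3 RVal.Ge.zero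

/-- The image exists. -/
theorem NP.rl_exists (h : NP v L G M M' γ) (hc : CompleteV v) (hf : f ∈ PM v L G M) :
    ∃ f' ∈ PM v L G M', RlM v L G M M' f f' := by
  have h1 : ∀ n : ℕ, ∃ N : ℝ →₀ Ω, NF v L L G N ∧ v.Ge n (f - evM M N) := fun n =>
    dense_PM h.mon (Imm.refl L) hf n
  choose N hN hn using h1
  have hd : ∀ c : ℝ, ∀ m n : ℕ, c ≤ m → c ≤ n → v.Ge c (evM M' (N m) - evM M' (N n)) := by
    intro c m n hm hn'
    have h2 : NF v L L G (N m + -N n) := (hN m).add (NF.neg' (hN n))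
    have h3 : v.Ge c (evM M (N m + -N n)) := by
      have e : evM M (N m + -N n) = (f - evM M (N n)) - (f - evM M (N m)) := by
        rw [evM_add, evM_neg]
        ring
      rw [e]
      exact ((hn n).mono hn').sub ((hn m).mono hm)
    have h4 := h.ge_ev h2 h3
    rwa [evM_add, evM_neg, ← sub_eq_add_neg] at h4
  obtain ⟨f', hf'⟩ := hc (fun n => evM M' (N n)) (by
    intro c
    obtain ⟨n₀, h0⟩ := exists_nat_ge c
    exact ⟨n₀, fun m n hm hn => hd c m n (h0.trans (by exact_mod_cast hm))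
      (h0.trans (by exact_mod_cast hn))⟩)
  refine ⟨f', PM.cld (mem_clI.2 fun c => ?_), fun c => ?_⟩
  · obtain ⟨n₀, h0⟩ := hf' c
    exact ⟨_, evM_mem_PM (hN n₀), h0 n₀ le_rfl⟩
  · obtain ⟨n₀, h0⟩ := hf' c
    obtain ⟨n₁, h1⟩ := exists_nat_ge c
    exact ⟨N (max n₀ n₁), hN _, (hn _).mono (h1.trans (by exact_mod_cast le_max_right n₀ n₁)),
      h0 _ (le_max_left _ _)⟩

/-- The products of the normal forms. -/
theorem NP.mul_ev (h : NP v L G M M' γ) {N N' : ℝ →₀ Ω} (hN : NF v L L G N)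
    (hN' : NF v L L G N') (hb : v.Ge b (evM M N)) (hc : v.Ge c (evM M N')) :
    Nm v L G M M' γ (b + c) (evM M N * evM M N') (evM M' N * evM M' N') := by
  have e1 : ∀ K : ℝ → Ω, evM K N * evM K N' =
      ∑ e ∈ N.support, ∑ e' ∈ N'.support, N e * K e * (N' e' * K e') := fun K => by
    rw [evM, evM, Finsupp.sum, Finsupp.sum, Finset.sum_mul_sum]
  rw [e1 M, e1 M']
  refine Nm.sum _ fun e he => Nm.sum _ fun e' he' => ?_
  have h1 := (hN.rep e (Finsupp.mem_support_iff.1 he)).1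
  have h2 := (hN'.rep e' (Finsupp.mem_support_iff.1 he')).1
  have e2 : ∀ {K : ℝ → Ω}, MS v G K →
      N e * K e * (N' e' * K e') = N e * N' e' * K (e + e') := fun {K} hK => by
    rw [hK.mul e h1 e' h2]
    ring
  rw [e2 h.mon.ms, e2 h.mon'.ms]
  refine h.single (mul_mem (hN.mem e) (hN'.mem e')) (G.add_mem h1 h2) ?_
  rw [← e2 h.mon.ms]
  exact (orth h.mon (Imm.refl L) hN hb e).mul (orth h.mon (Imm.refl L) hN' hc e')

/-- `RlM` and `Nm`. -/
theorem NP.rl_nm (h : NP v L G M M' γ) (h1 : Nm v L G M M' γ b f f')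
    (h2 : RlM v L G M M' f g') : v.Ge (b + γ) (g' - f') := by
  obtain ⟨N, h3, h4, h5⟩ := h1
  have h6 : RlM v L G M M' f (evM M' N) := fun c => ⟨N, h3, by
    rw [h4, sub_self]
    exact RVal.Ge.zero, by
    rw [sub_self]
    exact RVal.Ge.zero⟩
  rw [h.rl_uniq h2 h6]
  exact ge_sub_comm h5

/-- **Multiplicativity with a gain.** -/
theorem NP.rl_mul (h : NP v L G M M' γ) (h1 : RlM v L G M M' f f') (h2 : RlM v L G M M' g g')
    (h3 : RlM v L G M M' (f * g) h') (hf : v.Ge b f) (hg : v.Ge c g) :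
    v.Ge (b + c + γ) (h' - f' * g') := by
  have hγ := h.pos
  set e : ℝ := max (b + γ) (max (c + γ) (b + c + γ)) with he
  have e1 : b + γ ≤ e := le_max_left _ _
  have e2 : c + γ ≤ e := (le_max_left _ _).trans (le_max_right _ _)
  have e3 : b + c + γ ≤ e := (le_max_right _ _).trans (le_max_right _ _)
  obtain ⟨N₁, a1, a2, a3⟩ := h1 e
  obtain ⟨N₂, b1, b2, b3⟩ := h2 e
  obtain ⟨N₃, c1, c2, c3⟩ := h3 e
  have h4 : v.Ge b (evM M N₁) := by
    have e : evM M N₁ = f - (f - evM M N₁) := by ring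
    rw [e]
    exact hf.sub (a2.mono (by linarith))
  have h5 : v.Ge c (evM M N₂) := by
    have e : evM M N₂ = g - (g - evM M N₂) := by ring
    rw [e]
    exact hg.sub (b2.mono (by linarith))
  have h4' : v.Ge b (evM M' N₁) := h.ge_ev a1 h4
  have hg' : v.Ge c g' := h.rl_ge h2 hg
  obtain ⟨N, d1, d2, d3⟩ := h.mul_ev a1 b1 h4 h5
  -- the difference of the normal forms
  have h6 : v.Ge (b + c + γ) (evM M (N₃ + -N)) := by
    have e4 : evM M (N₃ + -N) = ((f - evM M N₁) * g + evM M N₁ * (g - evM M N₂)) -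
        (f * g - evM M N₃) := by
      rw [evM_add, evM_neg, ← d2]
      ring
    rw [e4]
    exact (((a2.mul hg).mono (by linarith)).add ((h4.mul b2).mono (by linarith))).sub
      (c2.mono e3)
  have h7 := h.ge_ev (c1.add (NF.neg' d1)) h6
  have e5 : h' - f' * g' = (h' - evM M' N₃) + evM M' (N₃ + -N) -
      (evM M' N₁ * evM M' N₂ - evM M' N) - ((f' - evM M' N₁) * g' +
        evM M' N₁ * (g' - evM M' N₂)) := by
    rw [evM_add, evM_neg]
    ring
  rw [e5]
  exact (((c3.mono e3).add h7).sub d3).sub (((a3.mul hg').mono (by linarith)).add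
    ((h4'.mul b3).mono (by linarith)))

/-- **The map.** -/
theorem NP.exists_alm (h : NP v L G M M' γ) (hc : CompleteV v) :
    ∃ α : Ω → Ω, (∀ f ∈ PM v L G M, RlM v L G M M' f (α f)) ∧
      AlM v v (PM v L G M) (PM v L G M') γ α := by
  have h1 : ∀ f ∈ PM v L G M, ∃ f' ∈ PM v L G M', RlM v L G M M' f f' :=
    fun f hf => h.rl_exists hc hf
  choose! α hα1 hα2 using h1
  refine ⟨α, hα2, ⟨hα1, fun b hb => ?_, fun f hf g hg => ?_, fun f hf c => ⟨fun h2 => ?_,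
    fun h2 => ?_⟩, fun f hf g hg c d hc' hd => ?_⟩⟩
  · obtain ⟨a, ha, h2⟩ := h.symm.rl_exists hc hb
    exact ⟨a, ha, h.rl_uniq (hα2 a ha) h2.symm⟩
  · exact h.rl_uniq (hα2 _ (add_mem hf hg)) ((hα2 f hf).add (hα2 g hg))
  · exact h.symm.rl_ge (hα2 f hf).symm h2
  · exact h.rl_ge (hα2 f hf) h2
  · exact h.rl_mul (hα2 f hf) (hα2 g hg) (hα2 _ (mul_mem hf hg)) hc' hd

/-- `⊥` has the value `0` only. -/
theorem monG_bot_of (hk : Ctx0 k v) (hM : MS v G M) :
    MonG v (⊥ : IntermediateField k Ω) G M := ⟨hM, fun g hg h => by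
  obtain ⟨y, hy, hy0, rfl⟩ := h
  obtain ⟨c, rfl⟩ := IntermediateField.mem_bot.1 hy
  have hc : c ≠ 0 := by
    rintro rfl
    exact hy0 (map_zero _)
  rw [hk.triv c hc, hM.zero]
  exact one_mem _⟩

/-- **The map is near to the embedding of the base.** -/
theorem NP.clo (h : NP v L G M M' γ) (hk : Ctx0 k v) {α : Ω → Ω}
    (hα1 : ∀ f ∈ PM v L G M, RlM v L G M M' f (α f))
    (hα : AlM v v (PM v L G M) (PM v L G M') γ α)
    {ι Φ : Ω →ₐ[k] H} (hι : IsoE v w ι) (hΦ : IsoE v w Φ) (hx : ∀ g ∈ G, Φ (M g) = ι (M' g)) :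
    Clo v w (fun a => ι (α a)) γ Φ (PM v (⊥ : IntermediateField k Ω) G M) := by
  have hα' := hα.comp hι
  have hPA : PM v (⊥ : IntermediateField k Ω) G M ≤ PM v L G M := PM.mono bot_le
  have hb := monG_bot_of hk h.mon.ms
  intro f hf c hcf
  refine nr_lim hα' hΦ h.pos.le
    (S := {y | ∃ N : ℝ →₀ Ω, NF v ⊥ (⊥ : IntermediateField k Ω) G N ∧ y = evM M N}) ?_ ?_
    (hPA hf) ?_ hcf
  · rintro _ ⟨N, hN, rfl⟩
    exact hPA (evM_mem_PM hN)
  · rintro _ ⟨N, hN, rfl⟩ c hc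
    have h1 : Nm v L G M M' γ c (evM M N) (evM M' N) := by
      rw [evM, evM, Finsupp.sum, Finsupp.sum]
      refine Nm.sum _ fun e he => ?_
      exact h.single ((bot_le : (⊥ : IntermediateField k Ω) ≤ L) (hN.mem e))
        (hN.rep e (Finsupp.mem_support_iff.1 he)).1 (orth hb (Imm.refl _) hN hc e)
    have h2 := h.rl_nm h1 (hα1 _ (hPA (evM_mem_PM hN)))
    have h3 : Φ (evM M N) = ι (evM M' N) := by
      rw [evM, evM, Finsupp.sum, Finsupp.sum, map_sum, map_sum]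
      refine Finset.sum_congr rfl fun e he => ?_
      have h4 := hN.mem e
      obtain ⟨t, ht⟩ := IntermediateField.mem_bot.1 h4
      rw [map_mul, map_mul, ← ht, AlgHom.commutes, AlgHom.commutes,
        hx e (hN.rep e (Finsupp.mem_support_iff.1 he)).1]
    rw [h3, ← map_sub, hι.ge_iff]
    exact ge_sub_comm h2
  · intro c
    obtain ⟨N, hN, h1⟩ := dense_PM hb (Imm.refl _) hf c
    exact ⟨_, ⟨N, hN, rfl⟩, h1⟩

/-- The image of the field with the monomials. -/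
theorem map_PM_bot_of (hc : CompleteV v) {ι Φ : Ω →ₐ[k] H} (hι : IsoE v w ι) (hΦ : IsoE v w Φ)
    (hx : ∀ g ∈ G, Φ (M g) = ι (M' g)) :
    (PM v (⊥ : IntermediateField k Ω) G M).map Φ = (PM v (⊥ : IntermediateField k Ω) G M').map ι := by
  have e : ∀ {K : ℝ → Ω} {φ : Ω →ₐ[k] H}, IsoE v w φ →
      (PM v (⊥ : IntermediateField k Ω) G K).map φ =
      clI w (IntermediateField.adjoin k (φ '' (K '' (G : Set ℝ)))) := fun {K φ} hφ => by
    rw [PM, ← hφ.clI_map hc, bot_sup_eq, IntermediateField.adjoin_map]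
  rw [e hΦ, e hι]
  congr 2
  ext y
  constructor
  · rintro ⟨_, ⟨g, hg, rfl⟩, rfl⟩
    exact ⟨M' g, ⟨g, hg, rfl⟩, (hx g hg).symm⟩
  · rintro ⟨_, ⟨g, hg, rfl⟩, rfl⟩
    exact ⟨M g, ⟨g, hg, rfl⟩, hx g hg⟩

/-- **EXCHANGE OF THE MONOMIALS.** -/
theorem NP.exch_iso [IsAlgClosed Ω] [IsAlgClosed H] (h : NP v L G M M' γ) (hk : Ctx0 k v)
    (hkw : Ctx0 k w) (hc : CompleteV v) (hw : SphC w) (hval : ∀ ρ : ℝ, ∃ x : H, x ≠ 0 ∧ w x = ρ)
    {ι : Ω →ₐ[k] H} (hι : IsoE v w ι) {n : ℕ}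
    (hT : TowR v n (PM v (⊥ : IntermediateField k Ω) G M) (PM v L G M)) :
    ∃ Φ : Ω →ₐ[k] H, IsoE v w Φ ∧ (∀ g ∈ G, Φ (M g) = ι (M' g)) ∧
      (PM v (⊥ : IntermediateField k Ω) G M).map Φ =
        (PM v (⊥ : IntermediateField k Ω) G M').map ι ∧
      (PM v L G M).map Φ = (PM v L G M').map ι := by
  have hM' : MS w G fun g => ι (M' g) :=
    ⟨fun g hg => IsoE.ne_zero (h.mon'.ms.ne g hg),
      fun g hg => by rw [hι.val _ (h.mon'.ms.ne g hg), h.mon'.ms.val g hg],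
      fun g hg g' hg' => by rw [h.mon'.ms.mul g hg g' hg', map_mul]⟩
  obtain ⟨Φ, h1, h2⟩ := exists_emb_base hk hkw hw hval h.mon.ms hM'
  obtain ⟨α, h4, h5⟩ := h.exists_alm hc
  have hE := map_PM_bot_of hc hι h1 h2
  have hle : (PM v (⊥ : IntermediateField k Ω) G M).map Φ ≤ (PM v L G M').map ι := by
    rw [hE]
    rintro _ ⟨b, hb, rfl⟩
    exact ⟨b, PM.mono bot_le hb, rfl⟩
  obtain ⟨Φ', h6, h7, h8⟩ := AlM.exists_iso hk hc hw hval hT (h5.comp hι)
    ((hι.cld_iff hc).2 PM.cld) h1 h.pos le_rfl (h.clo hk h4 h5 hι h1 h2) hle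
  refine ⟨Φ', h6, fun g hg => (h7 _ (PM.mon hg)).trans (h2 g hg), ?_, h8⟩
  rw [← hE]
  ext a
  constructor
  · rintro ⟨b, hb, rfl⟩
    exact ⟨b, hb, (h7 b hb).symm⟩
  · rintro ⟨b, hb, rfl⟩
    exact ⟨b, hb, h7 b hb⟩

/-- **Towers.** -/
theorem NP.towR [IsAlgClosed k] [IsAlgClosed Ω] (h : NP v L G M M' γ) (hk : Ctx0 k v)
    (hc : CompleteV v) {n : ℕ}
    (hT : TowR v n (PM v (⊥ : IntermediateField k Ω) G M) (PM v L G M)) :
    TowR v n (PM v (⊥ : IntermediateField k Ω) G M') (PM v L G M') := by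
  obtain ⟨ι, hι⟩ := TWS.exists_emb (Ω := Ω) hk
  have hι : IsoE v (TWS.hv k) ι := ⟨hι⟩
  obtain ⟨Φ, h1, -, h2, h3⟩ := h.exch_iso hk (TWS.ctx0_hv k) hc (TWS.sphC_hv k)
    (TWS.exists_val k) hι hT
  have h4 := h1.towR_map hc hT
  rw [h2, h3] at h4
  exact (hι.towR_iff hc).1 h4

end Pool.Agent.TWIV
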