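import Pool.Agent.Lib.TWC.GCls
import Pool.Agent.Lib.TWM.Op

/-!
# TANK W, leaf (IV): the overlap lemma (OL)

`s` is of transcendental type and of radius `0` over the perfect field `E`, and
`y = ∑ c i * s ^ p ^ i` with `c` in the algebraically closed field `k`, not all `0`.

* `exists_comp`: a polynomial over `E` which is invariant under `X → X + 1` is a polynomial over `E`
  in `X ^ p - X`;
* `ol_fr`, `ol_as`: one factor, `y = s ^ p` and `y = s ^ p - s`;
* `ol`: a polynomial `f` over `E` whose value at `s` is a limit of `E⟨y⟩` up to `0` is, at `s` and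
  up to `O(0)`, a polynomial over `E` in `y` plus a combination of the `s ^ p ^ i`.
-/

set_option autoImplicit false

open Polynomial

namespace Pool.Agent.TWIV

open Pool.Agent.H15JM (RVal)
open Pool.Agent.LU1 (VPos adj)
open Pool.Agent.D2 (Ctx0)
open Pool.Agent.TWM Pool.Agent.TWC

universe u

/-! ### Invariant polynomials -/

section Inv

variable {k Ω : Type u} [Field k] [Field Ω] [Algebra k Ω] {E : IntermediateField k Ω}

theorem exists_map {f : Polynomial Ω} (hf : f ∈ PI E) :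
    ∃ g : Polynomial E, g.map (algebraMap E Ω) = f := by
  have hl : f ∈ Polynomial.lifts (algebraMap E Ω) := by
    rw [Polynomial.lifts_iff_coeff_lifts]
    exact fun i => ⟨⟨f.coeff i, hf i⟩, rfl⟩
  exact (Polynomial.mem_lifts _).1 hl

theorem map_mem (g : Polynomial E) : g.map (algebraMap E Ω) ∈ PI E := fun i => by
  rw [coeff_map]
  exact (g.coeff i).2

theorem div_mem {f m : Polynomial Ω} (hf : f ∈ PI E) (hm : m ∈ PI E) (h : m.Monic) :
    f /ₘ m ∈ PI E ∧ f %ₘ m ∈ PI E := by
  obtain ⟨F, rfl⟩ := exists_map hf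
  obtain ⟨M, rfl⟩ := exists_map hm
  have hM : M.Monic := (Polynomial.monic_map_iff).1 h
  rw [← Polynomial.map_divByMonic _ hM, ← Polynomial.map_modByMonic _ hM]
  exact ⟨map_mem _, map_mem _⟩

theorem comp_mem_PI {f g : Polynomial Ω} (hf : f ∈ PI E) (hg : g ∈ PI E) : f.comp g ∈ PI E := by
  obtain ⟨F, rfl⟩ := exists_map hf
  obtain ⟨G, rfl⟩ := exists_map hg
  rw [← Polynomial.map_comp]
  exact map_mem _

variable (p : ℕ) [hp : Fact p.Prime] [CharP Ω p]

omit k [Field k] [Algebra k Ω] hp in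
theorem natCast_inj {i j : ℕ} (hi : i < p) (hj : j < p) (h : (i : Ω) = (j : Ω)) : i = j := by
  rw [CharP.natCast_eq_natCast (R := Ω) p] at h
  exact Nat.ModEq.eq_of_lt_of_lt h hi hj

omit k [Field k] [Algebra k Ω] in
/-- An invariant polynomial takes the value at `0` at the elements of the prime field. -/
theorem inv_eval {f : Polynomial Ω} (hf : taylor 1 f = f) (j : ℕ) :
    f.eval (j : Ω) = f.eval 0 := by
  induction j with
  | zero => rw [Nat.cast_zero]
  | succ j ih =>
    rw [← ih, Nat.cast_succ]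
    conv_rhs => rw [← hf, taylor_eval]

omit k [Field k] [Algebra k Ω] hp in
/-- An invariant polynomial of degree `< p` is constant. -/
theorem inv_const {f : Polynomial Ω} (hf : taylor 1 f = f) (hd : f.natDegree < p) :
    f = C (f.eval 0) := by
  classical
  have h1 : f - C (f.eval 0) = 0 := by
    refine Polynomial.eq_zero_of_natDegree_lt_card_of_eval_eq_zero' _
      ((Finset.range p).image fun j : ℕ => (j : Ω)) ?_ ?_
    · intro x hx
      obtain ⟨j, -, rfl⟩ := Finset.mem_image.1 hx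
      rw [eval_sub, eval_C, inv_eval hf, sub_self]
    · rw [Finset.card_image_of_injOn, Finset.card_range, natDegree_sub_C]
      · exact hd
      · intro i hi j hj h
        exact natCast_inj p (Finset.mem_range.1 hi) (Finset.mem_range.1 hj) h
  exact sub_eq_zero.1 h1

omit k [Field k] [Algebra k Ω] [CharP Ω p] in
theorem monic_as : (X ^ p - X : Polynomial Ω).Monic :=
  monic_X_pow_sub (by rw [degree_X]; exact_mod_cast hp.out.one_lt)

omit k [Field k] [Algebra k Ω] [CharP Ω p] in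
theorem natDegree_as : (X ^ p - X : Polynomial Ω).natDegree = p := by
  rw [natDegree_sub_eq_left_of_natDegree_lt, natDegree_X_pow]
  rw [natDegree_X_pow, natDegree_X]
  exact hp.out.one_lt

omit k [Field k] [Algebra k Ω] in
theorem taylor_as : taylor 1 (X ^ p - X : Polynomial Ω) = X ^ p - X := by
  rw [map_sub, taylor_pow, taylor_X, C_1, add_pow_char, one_pow]
  ring

/-- An invariant polynomial is a polynomial in `X ^ p - X`. -/
theorem exists_comp (d : ℕ) : ∀ {f : Polynomial Ω}, f ∈ PI E → taylor 1 f = f →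
    f.natDegree ≤ d → ∃ g ∈ PI E, f = g.comp (X ^ p - X) := by
  induction d using Nat.strong_induction_on with
  | _ d ih =>
    intro f hf hT hd
    have hm := monic_as (Ω := Ω) p
    have hmE : (X ^ p - X : Polynomial Ω) ∈ PI E := sub_mem (pow_mem X_mem_PI p) X_mem_PI
    obtain ⟨hq, hr⟩ := div_mem hf hmE hm
    set q := f /ₘ (X ^ p - X) with hqd
    set r := f %ₘ (X ^ p - X) with hrd
    have h1 : r + (X ^ p - X) * q = f := modByMonic_add_div f _
    have hrdeg : r.natDegree < p := by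
      have h2 := natDegree_modByMonic_lt f hm (by
        intro h3
        have h4 := natDegree_as (Ω := Ω) p
        rw [h3, natDegree_one] at h4
        exact hp.out.ne_zero h4.symm)
      rwa [natDegree_as] at h2
    have h2 : taylor 1 r + (X ^ p - X) * taylor 1 q = f := by
      conv_rhs => rw [← hT, ← h1, map_add, taylor_mul, taylor_as]
    have h3 : q = taylor 1 q ∧ r = taylor 1 r := by
      refine div_modByMonic_unique (taylor 1 q) (taylor 1 r) hm ⟨h2, ?_⟩
      refine degree_lt_degree ?_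
      rw [natDegree_taylor, natDegree_as]
      exact hrdeg
    have hrc : r = C (r.eval 0) := inv_const p h3.2.symm hrdeg
    by_cases hdp : f.natDegree < p
    · refine ⟨f, hf, ?_⟩
      rw [inv_const p hT hdp, C_comp]
    · have hqd' : q.natDegree = f.natDegree - p := by
        rw [hqd, natDegree_divByMonic f hm, natDegree_as]
      obtain ⟨g, hg, h4⟩ := ih (f.natDegree - p) (by have := hp.out.pos; omega) hq h3.1.symm
        hqd'.le
      refine ⟨C (r.eval 0) + X * g, add_mem (C_mem_PI (eval_mem hr (zero_mem E)))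
        (mul_mem X_mem_PI hg), ?_⟩
      rw [add_comp, C_comp, mul_comp, X_comp, ← h4, ← hrc, h1]

omit k [Field k] [Algebra k Ω] hp in
/-- The trace under `X → X + 1`. -/
theorem taylor_trace (F : Polynomial Ω) :
    taylor 1 (∑ j ∈ Finset.range p, taylor (j : Ω) F) = ∑ j ∈ Finset.range p, taylor (j : Ω) F := by
  rw [map_sum]
  have h1 : ∀ j : ℕ, taylor 1 (taylor (j : Ω) F) = taylor ((j + 1 : ℕ) : Ω) F := fun j => by
    rw [taylor_taylor, Nat.cast_succ, add_comm]
  simp only [h1]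
  have h2 := Finset.sum_range_succ (fun j : ℕ => taylor (j : Ω) F) p
  have h3 := Finset.sum_range_succ' (fun j : ℕ => taylor (j : Ω) F) p
  rw [h2] at h3
  have h4 : taylor ((p : ℕ) : Ω) F = taylor ((0 : ℕ) : Ω) F := by
    rw [CharP.cast_eq_zero, Nat.cast_zero]
  rw [h4] at h3
  exact (add_right_cancel h3).symm

omit k [Field k] [Algebra k Ω] in
/-- The trace of `X ^ (p - 1)`. -/
theorem trace_pow (x : Ω) : ∑ j ∈ Finset.range p, (x + j) ^ (p - 1) = -1 := by
  set F : Polynomial Ω := X ^ (p - 1) with hF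
  set P : Polynomial Ω := ∑ j ∈ Finset.range p, taylor (j : Ω) F with hP
  have h1 : P.natDegree < p := by
    refine lt_of_le_of_lt (natDegree_sum_le_of_forall_le _ _ (n := p - 1) fun j _ => ?_)
      (by have := hp.out.pos; omega)
    rw [natDegree_taylor, hF, natDegree_X_pow]
  have h2 := inv_const p (taylor_trace p F) h1
  have h3 : ∀ x : Ω, P.eval x = ∑ j ∈ Finset.range p, (x + j) ^ (p - 1) := fun x => by
    rw [hP, eval_finsetSum]
    refine Finset.sum_congr rfl fun j _ => ?_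
    rw [taylor_eval, hF, eval_pow, eval_X]
  have h4 : P.eval x = P.eval 0 := by
    conv_lhs => rw [hP, h2, eval_C]
  rw [← h3, h4, h3]
  have h5 : ∀ j ∈ Finset.range (p - 1), ((0 : Ω) + ((j + 1 : ℕ) : Ω)) ^ (p - 1) = 1 := by
    intro j hj
    have hj' := Finset.mem_range.1 hj
    have h6 : ((j + 1 : ℕ) : ZMod p) ≠ 0 := by
      rw [Ne, ZMod.natCast_eq_zero_iff]
      intro h7
      exact absurd (Nat.le_of_dvd (Nat.succ_pos j) h7) (by omega)
    have h7 := ZMod.pow_card_sub_one_eq_one h6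
    have h8 := congrArg (ZMod.castHom (dvd_refl p) Ω) h7
    rw [map_pow, map_natCast, map_one] at h8
    rw [zero_add, h8]
  have h6 : p = (p - 1) + 1 := by have := hp.out.pos; omega
  conv_lhs => rw [h6]
  rw [Finset.sum_range_succ', Nat.add_sub_cancel, Finset.sum_congr rfl h5, Finset.sum_const,
    Finset.card_range, Nat.cast_zero, add_zero, nsmul_eq_mul, mul_one,
    zero_pow (by have := hp.out.two_le; omega), add_zero, Nat.cast_sub hp.out.one_lt.le,
    CharP.cast_eq_zero, Nat.cast_one, zero_sub]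

end Inv

/-! ### The Frobenius on the polynomials -/

section Frob

variable {k Ω : Type u} [Field k] [Field Ω] [Algebra k Ω] {E : IntermediateField k Ω}
  (p : ℕ) [hp : Fact p.Prime] [CharP Ω p]

theorem exists_frob {g : Polynomial Ω} (hg : g ∈ PI E) :
    ∃ g' ∈ PI E, ∀ x, g'.eval (x ^ p) = g.eval x ^ p := by
  refine ⟨g.map (frobenius Ω p), fun i => ?_, fun x => ?_⟩
  · rw [coeff_map, frobenius_def]
    exact pow_mem (hg i) p
  · have h1 := Polynomial.eval_map_apply (frobenius Ω p) (p := g) x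
    rwa [frobenius_def, frobenius_def] at h1

theorem exists_frob_root (hE : ∀ a ∈ E, ∃ b ∈ E, b ^ p = a) {g : Polynomial Ω} (hg : g ∈ PI E) :
    ∃ g' ∈ PI E, ∀ x, g'.eval x ^ p = g.eval (x ^ p) := by
  choose ρ hρ h1 using fun j => hE (g.coeff j) (hg j)
  set g' : Polynomial Ω := ∑ j ∈ Finset.range (g.natDegree + 1), monomial j (ρ j) with hg'
  refine ⟨g', sum_mem fun j _ => ?_, fun x => ?_⟩
  · intro i
    rw [coeff_monomial]
    split_ifs
    exacts [hρ _, zero_mem _]
  · have h2 : g'.map (frobenius Ω p) = g := by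
      conv_rhs => rw [as_sum_range g]
      rw [hg', Polynomial.map_sum]
      refine Finset.sum_congr rfl fun j _ => ?_
      rw [Polynomial.map_monomial, frobenius_def, h1]
    have h3 := Polynomial.eval_map_apply (frobenius Ω p) (p := g') x
    rw [h2, frobenius_def, frobenius_def] at h3
    exact h3.symm

end Frob

/-! ### One factor -/

section One

variable {k Ω : Type u} [Field k] [Field Ω] [Algebra k Ω] {v : RVal Ω}
  {E : IntermediateField k Ω} {s : Ω} (p : ℕ) [hp : Fact p.Prime] [CharP Ω p]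

omit k [Field k] [Algebra k Ω] hp [CharP Ω p] in
theorem ge_of_eps {x : Ω} (h : ∀ ε : ℝ, 0 < ε → v.Ge (-ε) x) : v.Ge 0 x :=
  Nul.const (v := v) fun ε hε => ⟨0, fun _ _ => h ε hε⟩

variable [IsAlgClosed Ω]

omit hp [CharP Ω p] in
theorem lim_poly (h : TL v E s 0) {x : Ω} (hl : Lim v (cadj v E s) 0 x) {ε : ℝ} (hε : 0 < ε) :
    ∃ g ∈ PI E, v.Ge (-ε) (x - g.eval s) := by
  obtain ⟨a, ha, h1⟩ := hl ε hε
  obtain ⟨g, hg, h2⟩ := h.dense ha 0
  refine ⟨g, hg, ?_⟩
  rw [show x - g.eval s = (x - a) + (a - g.eval s) by ring]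
  rw [zero_sub] at h1
  exact h1.add (h2.mono (by linarith))

theorem tl_fr (h : TL v E s 0) : TL v E (s ^ p) 0 where
  lim := by
    have hp0 : (0 : ℝ) < p := by exact_mod_cast hp.out.pos
    intro ε hε
    obtain ⟨a, ha, h1⟩ := h.lim (ε / p) (div_pos hε hp0)
    refine ⟨a ^ p, pow_mem ha p, ?_⟩
    rw [← sub_pow_char]
    exact (ge_pow h1 p).mono (by rw [mul_sub, mul_div_cancel₀ _ hp0.ne', mul_zero])
  far := by
    intro θ hθ
    obtain ⟨θ', rfl⟩ := IsAlgClosed.exists_pow_nat_eq θ hp.out.pos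
    obtain ⟨h1, h2⟩ := h.far θ' (IsAlgebraic.of_pow hp.out.pos hθ)
    have h3 : s - θ' ≠ 0 := sub_ne_zero.2 h1
    have hp0 : (0 : ℝ) < p := by exact_mod_cast hp.out.pos
    rw [← sub_pow_char, v.map_pow h3]
    refine ⟨?_, mul_neg_of_pos_of_neg hp0 h2⟩
    rw [← sub_ne_zero, ← sub_pow_char]
    exact pow_ne_zero p h3

omit k [Field k] [Algebra k Ω] [CharP Ω p] [IsAlgClosed Ω] in
theorem as_neg {u : Ω} (hu : u ≠ 0) (h : v u < 0) : u ^ p - u ≠ 0 ∧ v (u ^ p - u) < 0 := by
  by_contra hcon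
  have h1 : v.Ge 0 (u ^ p - u) := fun h0 => by
    by_contra h2
    exact hcon ⟨h0, not_le.1 h2⟩
  have h2 : v.Ge (v u) (u ^ p) := by
    rw [show u ^ p = (u ^ p - u) + u by ring]
    exact (h1.mono h.le).add (RVal.ge_self u)
  have h3 := h2 (pow_ne_zero p hu)
  rw [v.map_pow hu] at h3
  have h4 : (1 : ℝ) < p := by exact_mod_cast hp.out.one_lt
  nlinarith

theorem tl_as (h : TL v E s 0) : TL v E (s ^ p - s) 0 where
  lim := by
    have hp0 : (0 : ℝ) < p := by exact_mod_cast hp.out.pos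
    have hp1 : (1 : ℝ) < p := by exact_mod_cast hp.out.one_lt
    intro ε hε
    obtain ⟨a, ha, h1⟩ := h.lim (ε / p) (div_pos hε hp0)
    refine ⟨a ^ p - a, sub_mem (pow_mem ha p) ha, ?_⟩
    have e : s ^ p - s - (a ^ p - a) = (s - a) ^ p - (s - a) := by rw [sub_pow_char]; ring
    rw [e]
    refine RVal.Ge.sub ((ge_pow h1 p).mono ?_) (h1.mono ?_)
    · rw [mul_sub, mul_div_cancel₀ _ hp0.ne', mul_zero]
    · have : ε / p ≤ ε := div_le_self hε.le hp1.le
      linarith
  far := by
    intro θ hθ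
    have hd : (X ^ p - X - C θ : Polynomial Ω).degree ≠ 0 := by
      intro h1
      have h2 : (X ^ p - X - C θ : Polynomial Ω).natDegree = p := by
        rw [natDegree_sub_C, natDegree_as]
      rw [natDegree_eq_of_degree_eq_some h1] at h2
      exact hp.out.ne_zero h2.symm
    obtain ⟨θ', h1⟩ := IsAlgClosed.exists_root _ hd
    rw [IsRoot.def, eval_sub, eval_sub, eval_pow, eval_X, eval_C] at h1
    have h0 : (X ^ p - X - C θ : Polynomial Ω) ≠ 0 := by
      rintro h2
      have h3 : (X ^ p - X - C θ : Polynomial Ω).natDegree = p := by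
        rw [natDegree_sub_C, natDegree_as]
      rw [h2, natDegree_zero] at h3
      exact hp.out.ne_zero h3.symm
    have h2 : IsAlgebraic E θ' := isAlgebraic_of_algc (isAlgebraic_root (A := TWM.algc E)
      (f := X ^ p - X - C θ) (sub_mem (sub_mem (pow_mem X_mem_PI p) X_mem_PI)
        (C_mem_PI (mem_algc.2 hθ))) h0 (by rw [eval_sub, eval_sub, eval_pow, eval_X, eval_C, h1]))
    obtain ⟨h3, h4⟩ := h.far θ' h2
    obtain ⟨h5, h6⟩ := as_neg p (sub_ne_zero.2 h3) h4
    have e : (s - θ') ^ p - (s - θ') = s ^ p - s - θ := by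
      rw [sub_pow_char]
      linear_combination -h1
    rw [e] at h5 h6
    exact ⟨sub_ne_zero.1 h5, h6⟩

/-- (OL), the factor `Fr`. -/
theorem ol_fr (hk : Ctx0 k v) (hE : ∀ a ∈ E, ∃ b ∈ E, b ^ p = a) (hs : TL v E s 0)
    {f : Polynomial Ω} (hf : f ∈ PI E) (hl : Lim v (cadj v E (s ^ p)) 0 (f.eval s)) :
    ∃ g ∈ PI E, ∃ c : k, Gt v 0 (f.eval s - g.eval (s ^ p) - algebraMap k Ω c * s) := by
  obtain ⟨g, hg, c, h1⟩ := root_core hk hs p hE 1 hf fun l hl1 hlp => ge_of_eps fun ε hε => by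
    obtain ⟨g, hg, h1⟩ := lim_poly (tl_fr p hs) hl hε
    obtain ⟨g', hg', h2⟩ := exists_frob_root p hE hg
    have h3 := hasse_ge hs (sub_mem hf (pow_mem hg' (p ^ 1))) (r := -ε) (by
      rw [eval_sub, eval_pow, pow_one, h2]
      exact h1) l
    rw [map_sub, eval_sub, hasse_pow_char p 1 g' hlp, sub_zero] at h3
    exact h3
  obtain ⟨g', hg', h2⟩ := exists_frob p hg
  refine ⟨g', hg', c 0, ?_⟩
  rw [pow_one, Finset.sum_range_one, pow_zero, pow_one] at h1
  rw [h2]
  exact h1

omit k [Field k] [Algebra k Ω] hp [CharP Ω p] [IsAlgClosed Ω] in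
/-- Finitely many elements of positive value. -/
theorem exists_unif (x : ℕ → Ω) (n : ℕ) (h : ∀ j < n, Gt v 0 (x j)) :
    ∃ m : ℝ, 0 < m ∧ ∀ j < n, v.Ge m (x j) := by
  induction n with
  | zero => exact ⟨1, one_pos, fun j hj => absurd hj (Nat.not_lt_zero j)⟩
  | succ n ih =>
    obtain ⟨m, hm, h1⟩ := ih fun j hj => h j (Nat.lt_succ_of_lt hj)
    by_cases h0 : x n = 0
    · refine ⟨m, hm, fun j hj => ?_⟩
      rcases Nat.lt_succ_iff_lt_or_eq.1 hj with hj | rfl
      · exact h1 j hj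
      · rw [h0]; exact RVal.Ge.zero
    · have h2 := h n (Nat.lt_succ_self n) h0
      refine ⟨min m (v (x n)), lt_min hm h2, fun j hj => ?_⟩
      rcases Nat.lt_succ_iff_lt_or_eq.1 hj with hj | rfl
      · exact (h1 j hj).mono (min_le_left _ _)
      · exact RVal.Ge.of_le (min_le_right _ _)

/-- The translations have norm `≤ 0`. -/
theorem transl_ge (h : TL v E s 0) {f : Polynomial Ω} (hf : f ∈ PI E) {r : ℝ}
    (hr : v.Ge r (f.eval s)) (j : ℕ) : v.Ge r (f.eval (s + j)) := by
  rw [eval_eq_taylor f s (s + j), add_sub_cancel_left, eval_eq_sum_range]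
  refine RVal.Ge.sum _ _ fun l _ => ?_
  have h1 := (hasse_ge h hf hr l).mul (ge_pow (ge_natCast v j) l)
  rwa [mul_zero, add_zero, ← taylor_coeff] at h1

theorem transl_gt (h : TL v E s 0) {f : Polynomial Ω} (hf : f ∈ PI E)
    (hr : Gt v 0 (f.eval s)) (j : ℕ) : Gt v 0 (f.eval (s + j)) := by
  by_cases h0 : f.eval s = 0
  · have h1 : ∀ r, v.Ge r (f.eval (s + j)) := fun r =>
      transl_ge h hf (by rw [h0]; exact RVal.Ge.zero) j
    exact Gt.of_ge (h1 1) one_pos
  · exact Gt.of_ge (transl_ge h hf (RVal.ge_self _) j) (hr h0)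

/-- (OL), the factor `Fr - 1`. -/
theorem ol_as (hk : Ctx0 k v) (hs : TL v E s 0)
    {f : Polynomial Ω} (hf : f ∈ PI E) (hl : Lim v (cadj v E (s ^ p - s)) 0 (f.eval s)) :
    ∃ g ∈ PI E, ∃ c : k, Gt v 0 (f.eval s - g.eval (s ^ p - s) - algebraMap k Ω c * s) := by
  have hT : ∀ {g : Polynomial Ω}, g ∈ PI E → taylor 1 g - g ∈ PI E := fun hg =>
    sub_mem (taylor_mem_PI hg (one_mem E)) hg
  -- the difference is integral
  have h1 : v.Ge 0 ((taylor 1 f - f).eval s) := by
    refine ge_of_eps fun ε hε => ?_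
    obtain ⟨g, hg, h1⟩ := lim_poly (tl_as p hs) hl hε
    have hmE : (X ^ p - X : Polynomial Ω) ∈ PI E := sub_mem (pow_mem X_mem_PI p) X_mem_PI
    set h := f - g.comp (X ^ p - X) with hh
    have hhE : h ∈ PI E := sub_mem hf (comp_mem_PI hg hmE)
    have h2 : v.Ge (-ε) (h.eval s) := by
      rw [hh, eval_sub, eval_comp, eval_sub, eval_pow, eval_X]
      exact h1
    have h3 := transl_ge hs hhE h2 1
    have h4 : taylor 1 (g.comp (X ^ p - X)) = g.comp (X ^ p - X) := by
      rw [taylor_apply, comp_assoc, ← taylor_apply, taylor_as]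
    have h5 : taylor 1 f - f = taylor 1 h - h := by
      rw [hh, map_sub, h4]
      ring
    rw [h5, eval_sub, taylor_eval]
    rw [Nat.cast_one] at h3
    exact h3.sub h2
  obtain ⟨c, hc⟩ := hk.residue h1
  set f' := f - C (algebraMap k Ω c) * X with hf'
  have hf'E : f' ∈ PI E := sub_mem hf (mul_mem (C_mem_PI (E.algebraMap_mem c)) X_mem_PI)
  set D := taylor 1 f' - f' with hD
  have hDE : D ∈ PI E := hT hf'E
  have hDs : Gt v 0 (D.eval s) := by
    have e : D.eval s = (taylor 1 f - f).eval s - algebraMap k Ω c := by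
      rw [hD, hf', map_sub, taylor_mul, taylor_C, taylor_X]
      simp only [eval_sub, eval_mul, eval_C, eval_X, eval_add]
      ring
    rw [e]
    exact hc
  have hstep : ∀ j : ℕ, Gt v 0 (f'.eval (s + j) - f'.eval s) := by
    intro j
    induction j with
    | zero => rw [Nat.cast_zero, add_zero, sub_self]; exact Gt.zero
    | succ j ih =>
      have e1 : D.eval (s + j) = f'.eval (s + j + 1) - f'.eval (s + j) := by
        rw [hD, eval_sub, taylor_eval]
      have e : f'.eval (s + (j + 1 : ℕ)) - f'.eval s =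
          D.eval (s + j) + (f'.eval (s + j) - f'.eval s) := by
        rw [e1, Nat.cast_succ, add_assoc]
        ring
      rw [e]
      exact (transl_gt hs hDE hDs j).add ih
  obtain ⟨m, hm, hmj⟩ := exists_unif (v := v) (fun j => f'.eval (s + j) - f'.eval s) p
    fun j _ => hstep j
  have hp0 : (0 : ℝ) < p := by exact_mod_cast hp.out.pos
  obtain ⟨ψ, hψE, hψ⟩ := hs.lim (m / (2 * p)) (by positivity)
  rw [zero_sub] at hψ
  set F : Polynomial Ω := (X - C ψ) ^ (p - 1) * f' with hF
  have hFE : F ∈ PI E := mul_mem (pow_mem (sub_mem X_mem_PI (C_mem_PI hψE)) _) hf'E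
  obtain ⟨g, hg, h2⟩ := exists_comp p _ (sum_mem fun j (_ : j ∈ Finset.range p) =>
    taylor_mem_PI hFE (natCast_mem E j)) (taylor_trace p F) le_rfl
  refine ⟨-g, neg_mem hg, c, ?_⟩
  have h3 : g.eval (s ^ p - s) = ∑ j ∈ Finset.range p, F.eval (s + j) := by
    have h4 := congrArg (fun q => q.eval s) h2
    simp only [eval_comp, eval_sub, eval_pow, eval_X] at h4
    rw [← h4, eval_finsetSum]
    exact Finset.sum_congr rfl fun j _ => taylor_eval _ _ _
  have h4 : f.eval s = f'.eval s + algebraMap k Ω c * s := by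
    rw [hf', eval_sub, eval_mul, eval_C, eval_X]
    ring
  have h5 : f.eval s - (-g).eval (s ^ p - s) - algebraMap k Ω c * s =
      ∑ j ∈ Finset.range p, (s - ψ + j) ^ (p - 1) * (f'.eval (s + j) - f'.eval s) := by
    have h6 : ∑ j ∈ Finset.range p, F.eval (s + j) =
        ∑ j ∈ Finset.range p, (s - ψ + j) ^ (p - 1) * (f'.eval (s + j) - f'.eval s) +
          (∑ j ∈ Finset.range p, (s - ψ + j) ^ (p - 1)) * f'.eval s := by
      rw [Finset.sum_mul, ← Finset.sum_add_distrib]
      refine Finset.sum_congr rfl fun j _ => ?_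
      rw [hF, eval_mul, eval_pow, eval_sub, eval_X, eval_C]
      ring
    rw [eval_neg, h3, h6, trace_pow, h4]
    ring
  rw [h5]
  refine Gt.sum _ _ fun j hj => ?_
  have h6 : v.Ge (-(m / (2 * p))) (s - ψ + j) :=
    hψ.add ((ge_natCast v j).mono (neg_nonpos.2 (by positivity)))
  refine Gt.of_ge ((ge_pow h6 (p - 1)).mul (hmj j (Finset.mem_range.1 hj))) ?_
  have h7 : ((p - 1 : ℕ) : ℝ) ≤ p := by exact_mod_cast Nat.sub_le p 1
  have h8 : (p : ℝ) * (m / (2 * p)) = m / 2 := by field_simp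
  have h9 : ((p - 1 : ℕ) : ℝ) * (m / (2 * p)) ≤ p * (m / (2 * p)) :=
    mul_le_mul_of_nonneg_right h7 (by positivity)
  rw [h8] at h9
  rw [mul_neg]
  linarith

end One

/-! ### Combinations of Frobenius powers -/

section Fr

variable {k Ω : Type u} [Field k] [Field Ω] [Algebra k Ω] {v : RVal Ω}
  {E : IntermediateField k Ω} {s : Ω} (p : ℕ)

/-- The combinations of the `s ^ p ^ i`, `s ∈ S`. -/
def FrS (k : Type u) {Ω : Type u} [Field k] [Field Ω] [Algebra k Ω] (p : ℕ) (S : Set Ω) :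
    Submodule k Ω :=
  Submodule.span k {x | ∃ s ∈ S, ∃ i : ℕ, x = s ^ p ^ i}

variable {S T : Set Ω} {x : Ω}

theorem FrS.pow_mem (hs : s ∈ S) (i : ℕ) : s ^ p ^ i ∈ FrS k p S :=
  Submodule.subset_span ⟨s, hs, i, rfl⟩

theorem FrS.self_mem (hs : s ∈ S) : s ∈ FrS k p S := by
  have h := FrS.pow_mem (k := k) p hs 0
  rwa [pow_zero, pow_one] at h

theorem FrS.mul_mem (a : k) (hx : x ∈ FrS k p S) : algebraMap k Ω a * x ∈ FrS k p S := by
  rw [← Algebra.smul_def]
  exact (FrS k p S).smul_mem a hx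

theorem FrS.mono (h : S ⊆ T) : FrS k p S ≤ FrS k p T :=
  Submodule.span_mono fun _ ⟨s, hs, i, hi⟩ => ⟨s, h hs, i, hi⟩

section CharP

variable [hp : Fact p.Prime] [CharP Ω p]

theorem FrS.frob (hx : x ∈ FrS k p S) : x ^ p ∈ FrS k p S := by
  induction hx using Submodule.span_induction with
  | mem x hx =>
    obtain ⟨s, hs, i, rfl⟩ := hx
    rw [← pow_mul, ← pow_succ]
    exact FrS.pow_mem p hs (i + 1)
  | zero => rw [zero_pow hp.out.ne_zero]; exact zero_mem _
  | add x y _ _ h1 h2 => rw [add_pow_char]; exact add_mem h1 h2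
  | smul a x _ h1 => rw [_root_.smul_pow]; exact (FrS k p S).smul_mem _ h1

theorem FrS.frob_pow (hx : x ∈ FrS k p S) (i : ℕ) : x ^ p ^ i ∈ FrS k p S := by
  induction i with
  | zero => rwa [pow_zero, pow_one]
  | succ i ih => rw [pow_succ, pow_mul]; exact FrS.frob p ih

theorem FrS.le (h : ∀ s ∈ S, s ∈ FrS k p T) : FrS k p S ≤ FrS k p T := by
  refine Submodule.span_le.2 ?_
  rintro _ ⟨s, hs, i, rfl⟩
  exact FrS.frob_pow p (h s hs) i

theorem FrS.lim (hk : Ctx0 k v) (h : ∀ s ∈ S, Lim v E 0 s) (hx : x ∈ FrS k p S) :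
    Lim v E 0 x := by
  have : Fact (Ctx0 k v) := ⟨hk⟩
  have : CharP k p := (RingHom.charP_iff (algebraMap k Ω) (algebraMap k Ω).injective p).2 inferInstance
  induction hx using Submodule.span_induction with
  | mem x hx =>
    obtain ⟨s, hs, i, rfl⟩ := hx
    exact TWC.Lim.pow_pow p (h s hs) i
  | zero => exact TWC.Lim.of_mem (zero_mem E)
  | add x y _ _ h1 h2 => exact TWC.Lim.add h1 h2
  | smul a x _ h1 => rw [Algebra.smul_def]; exact TWC.Lim.smul h1 a

end CharP

theorem FrS.mem_field {L : IntermediateField k Ω} (h : ∀ s ∈ S, s ∈ L) (hx : x ∈ FrS k p S) :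
    x ∈ L := by
  induction hx using Submodule.span_induction with
  | mem x hx =>
    obtain ⟨s, hs, i, rfl⟩ := hx
    exact _root_.pow_mem (h s hs) _
  | zero => exact zero_mem L
  | add x y _ _ h1 h2 => exact add_mem h1 h2
  | smul a x _ h1 => exact L.smul_mem h1

/-- One element: the combinations as sums. -/
theorem FrS.exists_sum (hx : x ∈ FrS k p {s}) :
    ∃ (N : ℕ) (c : ℕ → k), x = ∑ i ∈ Finset.range N, algebraMap k Ω (c i) * s ^ p ^ i := by
  induction hx using Submodule.span_induction with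
  | mem x hx =>
    obtain ⟨t, rfl, i, rfl⟩ := hx
    refine ⟨i + 1, fun j => if j = i then 1 else 0, ?_⟩
    rw [Finset.sum_eq_single i]
    · simp only [if_true, map_one, one_mul]
    · intro j _ hj
      simp only [if_neg hj, map_zero, zero_mul]
    · intro h
      exact absurd (Finset.mem_range.2 (Nat.lt_succ_self i)) h
  | zero => exact ⟨0, fun _ => 0, by rw [Finset.sum_range_zero]⟩
  | add x y _ _ h1 h2 =>
    obtain ⟨N, c, rfl⟩ := h1
    obtain ⟨M, d, rfl⟩ := h2
    refine ⟨max N M, fun i => (if i < N then c i else 0) + (if i < M then d i else 0), ?_⟩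
    have key : ∀ (K L : ℕ) (e : ℕ → k), K ≤ L →
        ∑ i ∈ Finset.range K, algebraMap k Ω (e i) * s ^ p ^ i =
          ∑ i ∈ Finset.range L, algebraMap k Ω (if i < K then e i else 0) * s ^ p ^ i := by
      intro K L e hKL
      rw [← Finset.sum_subset (Finset.range_subset_range.2 hKL)]
      · refine Finset.sum_congr rfl fun i hi => ?_
        rw [if_pos (Finset.mem_range.1 hi)]
      · intro i _ hi
        rw [if_neg (fun h => hi (Finset.mem_range.2 h)), map_zero, zero_mul]
    rw [key N _ c (le_max_left N M), key M _ d (le_max_right N M), ← Finset.sum_add_distrib]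
    refine Finset.sum_congr rfl fun i _ => ?_
    rw [map_add, add_mul]
  | smul a x _ h1 =>
    obtain ⟨N, c, rfl⟩ := h1
    refine ⟨N, fun i => a * c i, ?_⟩
    rw [Finset.smul_sum]
    refine Finset.sum_congr rfl fun i _ => ?_
    rw [map_mul, Algebra.smul_def, mul_assoc]

theorem FrS.sum_mem' (N : ℕ) (c : ℕ → k) {t : Ω} (ht : t ∈ S) :
    ∑ i ∈ Finset.range N, algebraMap k Ω (c i) * t ^ p ^ i ∈ FrS k p S :=
  sum_mem fun i _ => FrS.mul_mem p _ (FrS.pow_mem p ht i)

end Fr

/-! ### All factors -/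

section All

variable {k Ω : Type u} [Field k] [Field Ω] [Algebra k Ω] {v : RVal Ω}
  {E : IntermediateField k Ω} (p : ℕ) [hp : Fact p.Prime] [CharP Ω p] [IsAlgClosed Ω]

omit [IsAlgClosed Ω] in
/-- Telescoping. -/
theorem sum_as (t : Ω) (d : ℕ → Ω) (n : ℕ) :
    ∑ i ∈ Finset.range n, (-∑ j ∈ Finset.range (i + 1), d j) * (t ^ p - t) ^ p ^ i =
      ∑ i ∈ Finset.range (n + 1), d i * t ^ p ^ i -
        (∑ j ∈ Finset.range (n + 1), d j) * t ^ p ^ n := by
  induction n with
  | zero =>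
    rw [Finset.sum_range_zero, zero_add, Finset.sum_range_one, Finset.sum_range_one, sub_self]
  | succ n ih =>
    rw [Finset.sum_range_succ, ih, Finset.sum_range_succ (fun i => d i * t ^ p ^ i) (n + 1),
      Finset.sum_range_succ d (n + 1), sub_pow_char_pow, ← pow_mul, ← pow_succ']
    ring

omit [CharP Ω p] [IsAlgClosed Ω] [Algebra k Ω] in
/-- A root of an additive polynomial. -/
theorem exists_add_root [IsAlgClosed k] (c : ℕ → k) (h0 : c 0 ≠ 0) {N i : ℕ} (hi : i < N)
    (hci : c (i + 1) ≠ 0) :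
    ∃ μ : k, μ ≠ 0 ∧ ∑ j ∈ Finset.range (N + 1), c j * μ ^ p ^ j = 0 := by
  have hpp : ∀ j, 2 ≤ p ^ (j + 1) := fun j =>
    hp.out.two_le.trans (Nat.le_self_pow (Nat.succ_ne_zero j) p)
  set Q : Polynomial k := ∑ j ∈ Finset.range N, C (c (j + 1)) * X ^ (p ^ (j + 1) - 1) + C (c 0)
    with hQ
  have hco : Q.coeff (p ^ (i + 1) - 1) = c (i + 1) := by
    rw [hQ, coeff_add, finsetSum_coeff, coeff_C_of_ne_zero (by have := hpp i; omega), add_zero,
      Finset.sum_eq_single i]
    · rw [coeff_C_mul_X_pow, if_pos rfl]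
    · intro j _ hj
      rw [coeff_C_mul_X_pow, if_neg]
      intro h
      have h1 : p ^ (i + 1) = p ^ (j + 1) := by have := hpp i; have := hpp j; omega
      have h2 := (Nat.pow_right_injective hp.out.two_le) h1
      omega
    · intro h
      exact absurd (Finset.mem_range.2 hi) h
  have hd : Q.degree ≠ 0 := by
    intro h
    have h1 := eq_C_of_degree_eq_zero h
    rw [h1, coeff_C_of_ne_zero (by have := hpp i; omega)] at hco
    exact hci hco.symm
  obtain ⟨μ, hμ⟩ := IsAlgClosed.exists_root Q hd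
  have he : ∀ μ : k, Q.eval μ = ∑ j ∈ Finset.range N, c (j + 1) * μ ^ (p ^ (j + 1) - 1) + c 0 := by
    intro μ
    rw [hQ, eval_add, eval_C, eval_finsetSum]
    congr 1
    refine Finset.sum_congr rfl fun j _ => ?_
    rw [eval_mul, eval_C, eval_pow, eval_X]
  rw [IsRoot.def, he] at hμ
  refine ⟨μ, ?_, ?_⟩
  · rintro rfl
    rw [Finset.sum_eq_zero, zero_add] at hμ
    · exact h0 hμ
    · intro j _
      rw [zero_pow (by have := hpp j; omega), mul_zero]
  · rw [Finset.sum_range_succ', pow_zero, pow_one]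
    have h1 : ∑ j ∈ Finset.range N, c (j + 1) * μ ^ p ^ (j + 1) =
        (∑ j ∈ Finset.range N, c (j + 1) * μ ^ (p ^ (j + 1) - 1)) * μ := by
      rw [Finset.sum_mul]
      refine Finset.sum_congr rfl fun j _ => ?_
      rw [mul_assoc, ← pow_succ]
      congr 2
      have := hpp j
      omega
    rw [h1, ← add_mul, hμ, zero_mul]

theorem ol_aux [IsAlgClosed k] (hk : Ctx0 k v) (hE : ∀ a ∈ E, ∃ b ∈ E, b ^ p = a) {y : Ω}
    (hy0 : y ≠ 0) (N : ℕ) : ∀ (c : ℕ → k) {s : Ω}, TL v E s 0 →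
    y = ∑ i ∈ Finset.range N, algebraMap k Ω (c i) * s ^ p ^ i → ∀ {f : Polynomial Ω}, f ∈ PI E →
    Lim v (cadj v E y) 0 (f.eval s) →
    ∃ g ∈ PI E, ∃ w ∈ FrS k p {s}, v.Ge 0 (f.eval s - g.eval y - w) := by
  have : Fact (Ctx0 k v) := ⟨hk⟩
  induction N with
  | zero =>
    intro c s _ hy
    rw [Finset.sum_range_zero] at hy
    exact absurd hy hy0
  | succ N ih =>
    intro c s hs hy f hf hl
    -- the end of the argument, after one factor
    have key : ∀ {s₁ : Ω}, TL v E s₁ 0 → s₁ ∈ FrS k p {s} → ∀ b : ℕ → k,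
        y = ∑ i ∈ Finset.range N, algebraMap k Ω (b i) * s₁ ^ p ^ i → ∀ g₁ ∈ PI E,
        ∀ w ∈ FrS k p {s}, v.Ge 0 (f.eval s - g₁.eval s₁ - w) →
        ∃ g ∈ PI E, ∃ w ∈ FrS k p {s}, v.Ge 0 (f.eval s - g.eval y - w) := by
      intro s₁ hs₁ hs₁s b hb g₁ hg₁ w hw h1
      have h2 : Lim v (cadj v E y) 0 (g₁.eval s₁) := by
        have h3 : Lim v E 0 w := FrS.lim p hk (S := {s}) (fun t ht => by
          rw [Set.mem_singleton_iff.1 ht]; exact hs.lim) hw
        have h4 := TWC.Lim.sub hl (h3.mono (le_cadj v E y))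
        have h5 : Lim v (cadj v E y) 0 (f.eval s - g₁.eval s₁ - w) :=
          TWC.Nr.lim ⟨0, zero_mem _, by rwa [sub_zero]⟩
        have h6 := TWC.Lim.sub h4 h5
        rwa [show f.eval s - w - (f.eval s - g₁.eval s₁ - w) = g₁.eval s₁ by ring] at h6
      obtain ⟨g, hg, w₁, hw₁, h3⟩ := ih b hs₁ hb hg₁ h2
      refine ⟨g, hg, w + w₁, add_mem hw (FrS.le p (fun t ht => by
        rw [Set.mem_singleton_iff.1 ht]; exact hs₁s) hw₁), ?_⟩
      have h4 := h1.add h3
      rwa [show f.eval s - g₁.eval s₁ - w + (g₁.eval s₁ - g.eval y - w₁) =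
        f.eval s - g.eval y - (w + w₁) by ring] at h4
    have hss : s ∈ ({s} : Set Ω) := rfl
    have hmono : ∀ {s₁ : Ω} (b : ℕ → k),
        y = ∑ i ∈ Finset.range N, algebraMap k Ω (b i) * s₁ ^ p ^ i →
        cadj v E y ≤ cadj v E s₁ := fun {s₁} b hb =>
      cadj_le (cld_cadj v E _) (le_cadj v E _) (by
        rw [hb]
        exact sum_mem fun i _ => mul_mem ((cadj v E s₁).algebraMap_mem _)
          (_root_.pow_mem (self_mem_cadj v E s₁) _))
    by_cases hc0 : c 0 = 0
    · -- the factor `Fr`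
      have hy1 : y = ∑ i ∈ Finset.range N, algebraMap k Ω (c (i + 1)) * (s ^ p) ^ p ^ i := by
        rw [hy, Finset.sum_range_succ', hc0, map_zero, zero_mul, add_zero]
        refine Finset.sum_congr rfl fun i _ => ?_
        rw [← pow_mul, ← pow_succ']
      obtain ⟨g₁, hg₁, c₁, h1⟩ := ol_fr p hk hE hs hf (hl.mono (hmono _ hy1))
      exact key (tl_fr p hs) (FrS.frob p (FrS.self_mem p hss)) _ hy1 g₁ hg₁ _
        (FrS.mul_mem p c₁ (FrS.self_mem p hss)) h1.ge
    · by_cases hall : ∀ i < N, c (i + 1) = 0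
      · -- `y = c 0 * s`
        have hy1 : y = algebraMap k Ω (c 0) * s := by
          rw [hy, Finset.sum_range_succ', Finset.sum_eq_zero, zero_add, pow_zero, pow_one]
          intro i hi
          rw [hall i (Finset.mem_range.1 hi), map_zero, zero_mul]
        have hc0' : algebraMap k Ω (c 0) ≠ 0 := by rwa [Ne, map_eq_zero]
        refine ⟨f.comp (C (algebraMap k Ω (c 0))⁻¹ * X), comp_mem_PI hf (mul_mem (C_mem_PI
          (inv_mem (E.algebraMap_mem _))) X_mem_PI), 0, zero_mem _, ?_⟩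
        rw [eval_comp, eval_mul, eval_C, eval_X, hy1, inv_mul_cancel_left₀ hc0', sub_self, sub_zero]
        exact RVal.Ge.zero
      · -- the factor `Fr - λ`
        push Not at hall
        obtain ⟨i, hi, hci⟩ := hall
        obtain ⟨μ, hμ0, hμ⟩ := exists_add_root p c hc0 hi hci
        have hμ' : algebraMap k Ω μ ≠ 0 := by rwa [Ne, map_eq_zero]
        set t := algebraMap k Ω μ⁻¹ * s with ht
        have hst : s = algebraMap k Ω μ * t := by
          rw [ht, map_inv₀, mul_inv_cancel_left₀ hμ']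
        have htl : TL v E t 0 := by
          have h1 := hs.affine (c := algebraMap k Ω μ⁻¹) (f := 0) (E.algebraMap_mem _)
            (by rw [map_inv₀]; exact inv_ne_zero hμ') (zero_mem E)
          rwa [add_zero, hk.triv _ (inv_ne_zero hμ0), add_zero] at h1
        set b : ℕ → k := fun i => -∑ j ∈ Finset.range (i + 1), c j * μ ^ p ^ j with hb
        have hy1 : y = ∑ i ∈ Finset.range N, algebraMap k Ω (b i) * (t ^ p - t) ^ p ^ i := by
          have h1 := sum_as p t (fun j => algebraMap k Ω (c j * μ ^ p ^ j)) N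
          have h2 : ∑ j ∈ Finset.range (N + 1), algebraMap k Ω (c j * μ ^ p ^ j) = 0 := by
            rw [← map_sum, hμ, map_zero]
          rw [h2, zero_mul, sub_zero] at h1
          have h3 : ∑ i ∈ Finset.range N, algebraMap k Ω (b i) * (t ^ p - t) ^ p ^ i =
              ∑ i ∈ Finset.range (N + 1), algebraMap k Ω (c i * μ ^ p ^ i) * t ^ p ^ i := by
            rw [← h1]
            refine Finset.sum_congr rfl fun i _ => ?_
            rw [hb, map_neg, map_sum]
          rw [h3, hy]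
          refine Finset.sum_congr rfl fun i _ => ?_
          rw [hst, mul_pow, map_mul, map_pow, mul_assoc]
        have hf' : f.comp (C (algebraMap k Ω μ) * X) ∈ PI E :=
          comp_mem_PI hf (mul_mem (C_mem_PI (E.algebraMap_mem _)) X_mem_PI)
        have hfe : (f.comp (C (algebraMap k Ω μ) * X)).eval t = f.eval s := by
          rw [eval_comp, eval_mul, eval_C, eval_X, ← hst]
        obtain ⟨g₁, hg₁, c₁, h1⟩ := ol_as p hk htl hf' (by
          rw [hfe]
          exact hl.mono (hmono _ hy1))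
        rw [hfe] at h1
        have htm : t ∈ FrS k p {s} := FrS.mul_mem p _ (FrS.self_mem p hss)
        exact key (tl_as p htl) (sub_mem (FrS.frob p htm) htm) _ hy1 g₁ hg₁ _
          (FrS.mul_mem p c₁ htm) h1.ge

/-- **(OL)**: `s` of transcendental type and of radius `0` over the perfect field `E`, `y ≠ 0` a
combination of the `s ^ p ^ i`, `f` over `E` and `f(s)` a limit of `E⟨y⟩` up to `0`. Then
`f(s) ∈ E[y] + ∑ k s ^ p ^ i + O(0)`. -/
theorem ol [IsAlgClosed k] (hk : Ctx0 k v) (hE : ∀ a ∈ E, ∃ b ∈ E, b ^ p = a) {s y : Ω}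
    (hs : TL v E s 0) (hy : y ∈ FrS k p {s}) (hy0 : y ≠ 0) {f : Polynomial Ω} (hf : f ∈ PI E)
    (hl : Lim v (cadj v E y) 0 (f.eval s)) :
    ∃ g ∈ PI E, ∃ w ∈ FrS k p {s}, v.Ge 0 (f.eval s - g.eval y - w) := by
  obtain ⟨N, c, h1⟩ := FrS.exists_sum p hy
  exact ol_aux p hk hE hy0 N c hs h1 hf hl

/-- The combinations of the `s ^ p ^ i`, as values of operators. -/
theorem mem_FrS_iff {k Ω : Type u} [Field k] [Field Ω] [Algebra k Ω] (p : ℕ) {s x : Ω} :
    x ∈ FrS k p {s} ↔ ∃ c : k[X], x = ev p (fun _ => (1 : Ω)) 0 0 c s := by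
  constructor
  · intro h
    obtain ⟨N, c, rfl⟩ := FrS.exists_sum p h
    refine ⟨∑ i ∈ Finset.range N, C (c i) * X ^ i, ?_⟩
    rw [ev_sum]
    refine Finset.sum_congr rfl fun i _ => ?_
    rw [ev_mono, mul_one]
  · rintro ⟨c, rfl⟩
    rw [ev, Polynomial.sum_def]
    refine sum_mem fun i _ => ?_
    rw [mul_one]
    exact FrS.mul_mem p _ (FrS.pow_mem p (Set.mem_singleton s) i)

/-- **(OL)**, in the language of operators. -/
theorem ol_ev [IsAlgClosed k] (hk : Ctx0 k v) (hE : ∀ a ∈ E, ∃ b ∈ E, b ^ p = a) {s : Ω}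
    (hs : TL v E s 0) {Q : k[X]} (hy0 : ev p (fun _ => (1 : Ω)) 0 0 Q s ≠ 0) {f : Polynomial Ω}
    (hf : f ∈ PI E) (hl : Lim v (cadj v E (ev p (fun _ => (1 : Ω)) 0 0 Q s)) 0 (f.eval s)) :
    ∃ g ∈ PI E, ∃ c : k[X], v.Ge 0 (f.eval s - g.eval (ev p (fun _ => (1 : Ω)) 0 0 Q s) -
      ev p (fun _ => (1 : Ω)) 0 0 c s) := by
  have hy : ev p (fun _ => (1 : Ω)) 0 0 Q s ∈ FrS k p {s} := (mem_FrS_iff p).2 ⟨Q, rfl⟩
  obtain ⟨g, hg, w, hw, h1⟩ := ol p hk hE hs hy hy0 hf hl
  obtain ⟨c, h2⟩ := (mem_FrS_iff p).1 hw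
  rw [h2] at h1
  exact ⟨g, hg, c, h1⟩

/-- The value of an operator at an element of transcendental type is not `0`. -/
theorem ev_ne {s : Ω} (hs : TL v E s 0) {Q : k[X]} (hQ : Q ≠ 0) :
    ev p (fun _ => (1 : Ω)) 0 0 Q s ≠ 0 := by
  have h1 : Q.coeff Q.natDegree ≠ 0 := leadingCoeff_ne_zero.2 hQ
  have h2 := hs.germ_far p (e := Q.natDegree + 1) (c := fun i => algebraMap k Ω (Q.coeff i))
    (fun i => le_algc E (E.algebraMap_mem _)) (Nat.lt_succ_self _)
    (by rwa [Ne, map_eq_zero]) (θ := 0) isAlgebraic_zero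
  have h3 : ev p (fun _ => (1 : Ω)) 0 0 Q s =
      ∑ j ∈ Finset.range (Q.natDegree + 1), algebraMap k Ω (Q.coeff j) * s ^ p ^ j := by
    rw [ev, sum_over_range]
    · refine Finset.sum_congr rfl fun j _ => ?_
      rw [mul_one]
    · intro j
      rw [map_zero, zero_mul, zero_mul]
  rw [h3]
  exact h2.1

end All

end Pool.Agent.TWIV
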