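import Pool.Agent.Lib.TWIV.SeqG
import Pool.Agent.Lib.TWIV.OL

/-!
# TANK W, leaf (IV), row EXH: exhaustion over a perfect field, part A

`E` perfect, `A = E⟨y⟩`, `B = A⟨u⟩`, all steps of transcendental type and of radius `0`.
* `lim_of_pow`: `w ∈ L(B)`, `w ^ p ∈ L(A)` imply `w ∈ L(A)`;
* `root_np`: extraction of a root over a field which is not perfect;
* `root_margin`: extraction of a `p`-th root over a perfect field, with a margin;
* `root_two`: the case of two variables;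
* `beta_exh`: the relation between the derivatives in `y`.
-/

set_option autoImplicit false
set_option linter.unusedSectionVars false

open Polynomial

namespace Pool.Agent.TWIV

open Pool.Agent.H15JM (RVal)
open Pool.Agent.D2 (Ctx0)
open Pool.Agent.TWM
open Pool.Agent.TWC

universe u

variable {k Ω : Type u} [Field k] [Field Ω] [Algebra k Ω] {v : RVal Ω}
  {E A : IntermediateField k Ω} {y u z : Ω} [IsAlgClosed Ω]

/-! ### Near points -/

/-- Finitely many polynomials: the points near `z`. -/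
theorem near_ge_fin (h : TL v A z 0) {r : ℝ} (T : Finset (Polynomial Ω))
    (hT : ∀ g ∈ T, g ∈ PI A ∧ v.Ge r (g.eval z)) :
    ∃ δ : ℝ, 0 < δ ∧ ∀ ψ, v.Ge (-δ) (z - ψ) → ∀ g ∈ T, v.Ge r (g.eval ψ) := by
  classical
  induction T using Finset.induction_on with
  | empty => exact ⟨1, one_pos, by simp⟩
  | insert g T hg ih =>
    obtain ⟨δ, hδ, h1⟩ := ih fun g' h' => hT g' (Finset.mem_insert_of_mem h')
    obtain ⟨h2, h3⟩ := hT g (Finset.mem_insert_self g T)
    by_cases h0 : g = 0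
    · refine ⟨δ, hδ, fun ψ hψ g' h' => ?_⟩
      rcases Finset.mem_insert.1 h' with rfl | h'
      · rw [h0, eval_zero]; exact RVal.Ge.zero
      · exact h1 ψ hψ g' h'
    obtain ⟨δ', hδ', h5⟩ := h.near_val (PI_mono (le_algc A) h2) h0
    refine ⟨min δ δ', lt_min hδ hδ', fun ψ hψ g' h' => ?_⟩
    rcases Finset.mem_insert.1 h' with rfl | h'
    · obtain ⟨-, h6⟩ := h5 ψ (hψ.mono (by have := min_le_right δ δ'; linarith))
      have h7 := h3 (h.eval_ne (PI_mono (le_algc A) h2) h0)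
      exact RVal.Ge.of_le (by rw [h6]; exact h7)
    · exact h1 ψ (hψ.mono (by have := min_le_left δ δ'; linarith)) g' h'

theorem near_ge (h : TL v A z 0) {r : ℝ} {g : Polynomial Ω} (hg : g ∈ PI A)
    (h1 : v.Ge r (g.eval z)) : ∃ δ : ℝ, 0 < δ ∧ ∀ ψ, v.Ge (-δ) (z - ψ) → v.Ge r (g.eval ψ) := by
  obtain ⟨δ, hδ, h2⟩ := near_ge_fin h (r := r) {g} (by
    intro g' hg'
    rw [Finset.mem_singleton.1 hg']
    exact ⟨hg, h1⟩)
  exact ⟨δ, hδ, fun ψ hψ => h2 ψ hψ g (Finset.mem_singleton_self g)⟩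

theorem ge_of_near (h : TL v A z 0) {g : Polynomial Ω} (hg : g ∈ PI A) :
    ∃ δ : ℝ, 0 < δ ∧ ∀ ψ, v.Ge (-δ) (z - ψ) → ∀ r, v.Ge r (g.eval ψ) → v.Ge r (g.eval z) := by
  by_cases h0 : g = 0
  · exact ⟨1, one_pos, fun ψ _ r _ => by rw [h0, eval_zero]; exact RVal.Ge.zero⟩
  obtain ⟨δ, hδ, h1⟩ := h.near_val (PI_mono (le_algc A) hg) h0
  refine ⟨δ, hδ, fun ψ hψ r hr => ?_⟩
  obtain ⟨h2, h3⟩ := h1 ψ (hψ.mono (by linarith))
  exact RVal.Ge.of_le (by rw [← h3]; exact hr h2)

/-- The element `u` is near to the values at `y` of the polynomials over `E`. -/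
theorem exists_near_poly (hy : TL v E y 0) (hu : Lim v (cadj v E y) 0 u) {ε : ℝ} (hε : 0 < ε) :
    ∃ ψ ∈ PI E, v.Ge (-ε) (u - ψ.eval y) := by
  obtain ⟨a, ha, h1⟩ := hu ε hε
  obtain ⟨ψ, hψ, h2⟩ := hy.dense ha 0
  refine ⟨ψ, hψ, ?_⟩
  rw [zero_sub] at h1
  rw [show u - ψ.eval y = (u - a) + (a - ψ.eval y) by ring]
  exact h1.add (h2.mono (by linarith))

variable (p : ℕ) [hp : Fact p.Prime] [CharP Ω p]

/-- `w ∈ L(A⟨u⟩)` and `w ^ p ∈ L(A)` imply `w ∈ L(A)`. -/
theorem lim_of_pow (hu : TL v A u 0) {w : Ω} (hw : Lim v (cadj v A u) 0 w)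
    (hwp : Lim v A 0 (w ^ p)) : Lim v A 0 w := by
  obtain ⟨x, hx, hxw⟩ := exists_pcI hu hw
  obtain ⟨l, hl, hlw⟩ := Lim.exists_cau hwp
  have h1 : Nul v fun n => (x n ^ p - C (l n)).eval u := by
    have h2 := nul_pow hxw p hp.out.ne_zero
    refine (hlw.sub h2).congr fun n => ?_
    rw [sub_pow_char, eval_sub, eval_pow, eval_C]
    ring
  have h2 : ∀ c, Nul v fun n => (hasseDeriv (p ^ c) (x n)).eval u := by
    intro c
    have h3 := nul_hasse hu (fun n => sub_mem (pow_mem (hx.mem n) p) (C_mem_PI (hl.mem n))) h1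
      (p * p ^ c)
    refine Nul.of_pow (q := p) hp.out.ne_zero (h3.congr fun n => ?_)
    rw [map_sub, hasse_pow_p, hasseDeriv_C _ _ (Nat.mul_pos hp.out.pos (Nat.pow_pos hp.out.pos)),
      sub_zero, eval_pow]
  obtain ⟨m, hm, hmn⟩ := const_pc hu p hx h2
  exact Lim.of_nul hm.mem ((hxw.add hmn).congr fun n => by ring)

/-- A polynomial all of whose Hasse derivatives of orders prime to `p` are integral is a
polynomial in `u ^ p`, up to `k u`. -/
theorem root_np (hk : Ctx0 k v) (h : TL v A u 0) {f : Polynomial Ω} (hf : f ∈ PI A)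
    (hD : ∀ l, ¬ p ∣ l → v.Ge 0 ((hasseDeriv l f).eval u)) :
    ∃ g ∈ PI A, ∃ c : k, Gt v 0 (f.eval u - g.eval (u ^ p) - algebraMap k Ω c * u) := by
  classical
  have hp1 := hp.out.one_lt
  obtain ⟨c, hc⟩ := hk.residue (hD 1 (fun h1 => by
    rw [Nat.dvd_one] at h1
    omega))
  set f₁ := f - C (algebraMap k Ω c) * X with hf₁
  have hf₁A : f₁ ∈ PI A := sub_mem hf (mul_mem (C_mem_PI (A.algebraMap_mem c)) X_mem_PI)
  have hgt : ∀ l, ¬ p ∣ l → Gt v 0 ((hasseDeriv l f₁).eval u) := by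
    intro l hl
    have hl1 : 1 ≤ l := Nat.one_le_iff_ne_zero.2 fun h0 => hl (by rw [h0]; exact dvd_zero p)
    have h1 : ∀ j, hasseDeriv j (C (algebraMap k Ω c) * X : Polynomial Ω) =
        C (algebraMap k Ω c) * hasseDeriv j X := fun j => by
      rw [← smul_eq_C_mul, map_smul, smul_eq_C_mul]
    have hone : Gt v 0 ((hasseDeriv 1 f₁).eval u) := by
      rw [hf₁, map_sub, h1, eval_sub, hasseDeriv_one, derivative_X, mul_one, eval_C]
      rw [hasseDeriv_one] at hc
      exact hc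
    rcases hl1.eq_or_lt with rfl | hl2
    · exact hone
    · have h2 := hasse_gt h (hasse_mem_PI hf₁A 1) hone (l - 1)
      have h3 := congrArg (fun L => L f₁) (hasseDeriv_comp (R := Ω) (l - 1) 1)
      simp only [LinearMap.comp_apply, LinearMap.smul_apply] at h3
      rw [h3, eval_smul, nsmul_eq_mul, show l - 1 + 1 = l by omega,
        Nat.choose_symm (by omega), Nat.choose_one_right] at h2
      obtain ⟨h4, h5⟩ := val_natCast (Ω := Ω) (v := v) p hl
      intro h6
      have h7 := h2 (mul_ne_zero h4 h6)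
      rwa [v.map_mul h4 h6, h5, zero_add] at h7
  set D := f₁.natDegree with hDdef
  obtain ⟨m, hm, δ, hδ, hmar⟩ := margin_aux h
    (((Finset.range (D + 1)).filter fun l => ¬ p ∣ l).image fun l => hasseDeriv l f₁)
    (by
      intro g hg
      obtain ⟨l, hl, rfl⟩ := Finset.mem_image.1 hg
      obtain ⟨-, hl2⟩ := Finset.mem_filter.1 hl
      exact ⟨hasse_mem_PI hf₁A l, hgt l hl2⟩)
  obtain ⟨ψ, hψA, hψ⟩ := h.lim (min δ (m / (2 * (D + 1)))) (lt_min hδ (by positivity))
  rw [zero_sub] at hψ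
  have hmar' := hmar ψ (hψ.mono (neg_le_neg (min_le_left _ _)))
  set T := taylor ψ f₁ with hT
  have hTA : T ∈ PI A := taylor_mem_PI hf₁A hψA
  have hTc : ∀ l, ¬ p ∣ l → v.Ge m (T.coeff l) := by
    intro l hlq
    by_cases hlD : l < D + 1
    · rw [hT, taylor_coeff]
      exact hmar' _ (Finset.mem_image.2 ⟨l, Finset.mem_filter.2 ⟨Finset.mem_range.2 hlD, hlq⟩,
        rfl⟩)
    · rw [coeff_eq_zero_of_natDegree_lt (by rw [hT, natDegree_taylor]; omega)]
      exact RVal.Ge.zero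
  set S := contract p T with hS
  have hSc : ∀ j, S.coeff j = T.coeff (j * p) := fun j => coeff_contract hp.out.ne_zero T j
  have hSA : S ∈ PI A := fun j => by rw [hSc]; exact hTA _
  set R := T - expand Ω p S with hR
  have hRc : ∀ l, v.Ge m (R.coeff l) := by
    intro l
    rw [hR, coeff_sub, coeff_expand hp.out.pos]
    split_ifs with h3
    · rw [hSc, Nat.div_mul_cancel h3, sub_self]
      exact RVal.Ge.zero
    · rw [sub_zero]
      exact hTc l h3
  have hRd : R.natDegree ≤ D := by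
    rw [natDegree_le_iff_coeff_eq_zero]
    intro l hl
    rw [hR, coeff_sub, coeff_expand hp.out.pos]
    have h4 : T.coeff l = 0 :=
      coeff_eq_zero_of_natDegree_lt (by rw [hT, natDegree_taylor]; omega)
    split_ifs with h3
    · rw [hSc, Nat.div_mul_cancel h3, sub_self]
    · rw [h4, sub_zero]
  have hRgt : Gt v 0 (R.eval (u - ψ)) := by
    rw [eval_eq_sum_range' (n := D + 1) (by omega)]
    refine Gt.sum _ _ fun l hl => ?_
    have h1 : l ≤ D := by have := Finset.mem_range.1 hl; omega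
    refine Gt.of_ge (RVal.Ge.mul (hRc l) (ge_pow hψ l)) ?_
    have h2 : (l : ℝ) ≤ D := by exact_mod_cast h1
    have h3 : 0 ≤ min δ (m / (2 * ((D : ℝ) + 1))) := le_min hδ.le (by positivity)
    have h4 : (D : ℝ) * min δ (m / (2 * (D + 1))) < m := by
      have h3 := min_le_right δ (m / (2 * ((D : ℝ) + 1)))
      have h4 : (D : ℝ) * (m / (2 * (D + 1))) < m := by
        rw [mul_div_assoc', div_lt_iff₀ (by positivity)]
        nlinarith
      have h5 : (0 : ℝ) ≤ D := Nat.cast_nonneg D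
      nlinarith
    nlinarith
  refine ⟨taylor (-(ψ ^ p)) S, taylor_mem_PI hSA (neg_mem (pow_mem hψA _)), c, ?_⟩
  have h2 : f₁.eval u = R.eval (u - ψ) + (expand Ω p S).eval (u - ψ) := by
    rw [eval_eq_taylor f₁ ψ u, ← hT, hR, eval_sub]; ring
  have h3 : (taylor (-(ψ ^ p)) S).eval (u ^ p) = (expand Ω p S).eval (u - ψ) := by
    rw [taylor_eval, expand_eval, sub_pow_char, sub_eq_add_neg, add_comm]
  have h1 : f.eval u = f₁.eval u + algebraMap k Ω c * u := by
    rw [hf₁, eval_sub, eval_mul, eval_C, eval_X]; ring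
  rw [h1, h2, h3]
  convert hRgt using 1
  ring

/-- Extraction of a `p`-th root over a perfect field, with a margin. -/
theorem root_margin (h : TL v E y 0) (hE : ∀ a ∈ E, ∃ b ∈ E, b ^ p = a) {m : ℝ} (hm : 0 < m)
    {f : Polynomial Ω} (hf : f ∈ PI E) (hD : v.Ge m ((derivative f).eval y)) :
    ∃ g ∈ PI E, v.Ge (m / 2) (f.eval y - g.eval y ^ p) := by
  classical
  have hDl : ∀ l, ¬ p ∣ l → v.Ge m ((hasseDeriv l f).eval y) := by
    intro l hl
    have hl1 : 1 ≤ l := Nat.one_le_iff_ne_zero.2 fun h0 => hl (by rw [h0]; exact dvd_zero p)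
    rw [← hasseDeriv_one] at hD
    have h2 := hasse_ge h (hasse_mem_PI hf 1) hD (l - 1)
    have h3 := congrArg (fun L => L f) (hasseDeriv_comp (R := Ω) (l - 1) 1)
    simp only [LinearMap.comp_apply, LinearMap.smul_apply] at h3
    rw [h3, eval_smul, nsmul_eq_mul, show l - 1 + 1 = l by omega,
      Nat.choose_symm (by omega), Nat.choose_one_right] at h2
    exact ge_of_natCast_mul p hl h2
  set D := f.natDegree with hDdef
  obtain ⟨δ, hδ, hnear⟩ := near_ge_fin h (r := m)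
    (((Finset.range (D + 1)).filter fun l => ¬ p ∣ l).image fun l => hasseDeriv l f)
    (by
      intro g hg
      obtain ⟨l, hl, rfl⟩ := Finset.mem_image.1 hg
      obtain ⟨-, hl2⟩ := Finset.mem_filter.1 hl
      exact ⟨hasse_mem_PI hf l, hDl l hl2⟩)
  obtain ⟨ψ, hψE, hψ⟩ := h.lim (min δ (m / (2 * (D + 1)))) (lt_min hδ (by positivity))
  rw [zero_sub] at hψ
  have hnear' := hnear ψ (hψ.mono (neg_le_neg (min_le_left _ _)))
  set T := taylor ψ f with hT
  have hTE : T ∈ PI E := taylor_mem_PI hf hψE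
  have hTc : ∀ l, ¬ p ∣ l → v.Ge m (T.coeff l) := by
    intro l hlq
    by_cases hlD : l < D + 1
    · rw [hT, taylor_coeff]
      exact hnear' _ (Finset.mem_image.2 ⟨l, Finset.mem_filter.2 ⟨Finset.mem_range.2 hlD, hlq⟩,
        rfl⟩)
    · rw [coeff_eq_zero_of_natDegree_lt (by rw [hT, natDegree_taylor]; omega)]
      exact RVal.Ge.zero
  set S := contract p T with hS
  have hSc : ∀ j, S.coeff j = T.coeff (j * p) := fun j => coeff_contract hp.out.ne_zero T j
  choose ρ hρE hρ using fun j => hE (S.coeff j) (by rw [hSc]; exact hTE _)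
  set g₁ : Polynomial Ω := ∑ j ∈ Finset.range (S.natDegree + 1), monomial j (ρ j) with hg₁
  have hg₁E : g₁ ∈ PI E := sum_mem fun j _ => by
    intro i
    rw [coeff_monomial]
    split_ifs
    exacts [hρE _, zero_mem _]
  set R := T - expand Ω p S with hR
  have hRc : ∀ l, v.Ge m (R.coeff l) := by
    intro l
    rw [hR, coeff_sub, coeff_expand hp.out.pos]
    split_ifs with h3
    · rw [hSc, Nat.div_mul_cancel h3, sub_self]
      exact RVal.Ge.zero
    · rw [sub_zero]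
      exact hTc l h3
  have hRd : R.natDegree ≤ D := by
    rw [natDegree_le_iff_coeff_eq_zero]
    intro l hl
    rw [hR, coeff_sub, coeff_expand hp.out.pos]
    have h4 : T.coeff l = 0 :=
      coeff_eq_zero_of_natDegree_lt (by rw [hT, natDegree_taylor]; omega)
    split_ifs with h3
    · rw [hSc, Nat.div_mul_cancel h3, sub_self]
    · rw [h4, sub_zero]
  have hRge : v.Ge (m / 2) (R.eval (y - ψ)) := by
    rw [eval_eq_sum_range' (n := D + 1) (by omega)]
    refine RVal.Ge.sum _ _ fun l hl => ?_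
    have h1 : l ≤ D := by have := Finset.mem_range.1 hl; omega
    refine (RVal.Ge.mul (hRc l) (ge_pow hψ l)).mono ?_
    have h2 : (l : ℝ) ≤ D := by exact_mod_cast h1
    have h3 : 0 ≤ min δ (m / (2 * ((D : ℝ) + 1))) := le_min hδ.le (by positivity)
    have h4 : (D : ℝ) * min δ (m / (2 * (D + 1))) ≤ m / 2 := by
      have h3 := min_le_right δ (m / (2 * ((D : ℝ) + 1)))
      have h4 : (D : ℝ) * (m / (2 * (D + 1))) ≤ m / 2 := by
        rw [mul_div_assoc', div_le_div_iff₀ (by positivity) (by positivity)]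
        nlinarith
      have h5 : (0 : ℝ) ≤ D := Nat.cast_nonneg D
      nlinarith
    nlinarith
  refine ⟨taylor (-ψ) g₁, taylor_mem_PI hg₁E (neg_mem hψE), ?_⟩
  have h2 : f.eval y = R.eval (y - ψ) + (expand Ω p S).eval (y - ψ) := by
    rw [eval_eq_taylor f ψ y, ← hT, hR, eval_sub]; ring
  have h3 : (taylor (-ψ) g₁).eval y = g₁.eval (y - ψ) := by
    rw [taylor_eval, sub_eq_add_neg, add_comm]
  have h4 : (expand Ω p S).eval (y - ψ) = g₁.eval (y - ψ) ^ p := by
    rw [expand_eval, eval_eq_sum_range, hg₁, eval_finsetSum, sum_pow_char]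
    refine Finset.sum_congr rfl fun j _ => ?_
    rw [eval_monomial, mul_pow, hρ, ← pow_mul, ← pow_mul, mul_comm j]
  rw [h2, h3, h4]
  convert hRge using 1
  ring

/-! ### Two variables -/

omit hp [CharP Ω p] in
/-- The coefficients of a polynomial over `E⟨y⟩`, replaced by polynomials in `y`. -/
theorem coeff_approx (hy : TL v E y 0) {g : Polynomial Ω} (hg : g ∈ PI (cadj v E y)) (w : Ω) :
    ∃ (D : ℕ) (α : ℕ → Polynomial Ω), (∀ j, α j ∈ PI E) ∧
      v.Ge 0 (g.eval w - ∑ j ∈ Finset.range D, (α j).eval y * w ^ j) := by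
  choose K _ hK using fun j : ℕ => exists_ge v (w ^ j)
  choose α hα h1 using fun j => hy.dense (hg j) (K j)
  refine ⟨g.natDegree + 1, α, hα, ?_⟩
  rw [eval_eq_sum_range, ← Finset.sum_sub_distrib]
  refine RVal.Ge.sum _ _ fun j _ => ?_
  rw [← sub_mul]
  have h2 := (h1 j).mul (hK j)
  rwa [add_neg_cancel] at h2

omit hp [CharP Ω p] in
theorem eval_hasse_sum (a : ℕ → Ω) (D J : ℕ) (c : Ω) :
    (hasseDeriv J (∑ j ∈ Finset.range D, C (a j) * X ^ j)).eval c =
      ∑ j ∈ Finset.range D, (j.choose J : Ω) * a j * c ^ (j - J) := by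
  rw [map_sum, eval_finsetSum]
  refine Finset.sum_congr rfl fun j _ => ?_
  rw [C_mul_X_pow_eq_monomial, hasseDeriv_monomial, eval_monomial]

theorem derivative_pow_p (ψ : Polynomial Ω) (n : ℕ) : derivative ((ψ ^ p) ^ n) = 0 := by
  rw [derivative_pow, derivative_pow, CharP.cast_eq_zero Ω p, C_0, zero_mul, zero_mul, mul_zero]

/-- Extraction of a `p`-th root in two variables: if the derivative in `y` of `h(y, u ^ p)` is in
`A + O`, then `h(y, u ^ p)` is in `B ^ p + A + O`. -/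
theorem root_two (hy : TL v E y 0) (hE : ∀ a ∈ E, ∃ b ∈ E, b ^ p = a)
    (hu : TL v (cadj v E y) u 0) {α : ℕ → Polynomial Ω} (hα : ∀ j, α j ∈ PI E) (D : ℕ) {a : Ω}
    (ha : a ∈ cadj v E y)
    (h : v.Ge 0 (∑ j ∈ Finset.range D, (derivative (α j)).eval y * (u ^ p) ^ j - a)) :
    ∃ b ∈ cadj v (cadj v E y) u, ∃ a' ∈ cadj v E y,
      v.Ge 0 (∑ j ∈ Finset.range D, (α j).eval y * (u ^ p) ^ j - b ^ p - a') := by
  classical
  have hp0 : (0 : ℝ) < p := by exact_mod_cast hp.out.pos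
  have hU : TL v (cadj v E y) (u ^ p) 0 := tl_fr p hu
  have hdE : ∀ j, derivative (α j) ∈ PI E := fun j => by
    rw [← hasseDeriv_one]; exact hasse_mem_PI (hα j) 1
  have hev : ∀ {f : Polynomial Ω}, f ∈ PI E → f.eval y ∈ cadj v E y := fun hf =>
    eval_mem (PI_mono (le_cadj v E y) hf) (self_mem_cadj v E y)
  set G : Polynomial Ω :=
    ∑ j ∈ Finset.range D, C ((derivative (α j)).eval y) * X ^ j - C a with hG
  have hGA : G ∈ PI (cadj v E y) := sub_mem (sum_mem fun j _ =>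
    mul_mem (C_mem_PI (hev (hdE j))) (pow_mem X_mem_PI _)) (C_mem_PI ha)
  have hGU : v.Ge 0 (G.eval (u ^ p)) := by
    rw [hG, eval_sub, eval_finsetSum, eval_C]
    simp only [eval_mul, eval_C, eval_pow, eval_X]
    exact h
  obtain ⟨m, hm, δ, hδ, hmar⟩ := margin_aux hU
    ((Finset.Icc 1 D).image fun J => hasseDeriv J G) (by
      intro g hg
      obtain ⟨J, hJ, rfl⟩ := Finset.mem_image.1 hg
      exact ⟨hasse_mem_PI hGA J, hasse_gt_of_ge hU hGA hGU (Finset.mem_Icc.1 hJ).1⟩)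
  set ε : ℝ := min (δ / p) (m / (2 * p * (D + 1))) with hε
  have hε0 : 0 < ε := lt_min (by positivity) (by positivity)
  obtain ⟨ψ, hψ, hψu⟩ := exists_near_poly hy hu.lim hε0
  set c : Ω := ψ.eval y ^ p with hc
  have hUc : v.Ge (-(p * ε)) (u ^ p - c) := by
    rw [hc, ← sub_pow_char]
    have h1 := ge_pow hψu p
    rwa [mul_neg] at h1
  have hmar' := hmar c (hUc.mono (neg_le_neg (by
    have h1 := min_le_left (δ / (p : ℝ)) (m / (2 * p * (D + 1)))
    rw [← hε, le_div_iff₀' hp0] at h1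
    exact h1)))
  -- the coefficients at `c`
  set cJ : ℕ → Polynomial Ω := fun J =>
    ∑ j ∈ Finset.range D, C ((j.choose J : ℕ) : Ω) * α j * (ψ ^ p) ^ (j - J) with hcJ
  have hnat : ∀ n : ℕ, (n : Ω) ∈ E := fun n => natCast_mem E n
  have hcJE : ∀ J, cJ J ∈ PI E := fun J => sum_mem fun j _ =>
    mul_mem (mul_mem (C_mem_PI (hnat _)) (hα j)) (pow_mem (pow_mem hψ _) _)
  have hcJd : ∀ J, 1 ≤ J → (derivative (cJ J)).eval y = (hasseDeriv J G).eval c := by
    intro J hJ
    rw [hG, map_sub, hasseDeriv_C _ _ hJ, sub_zero, eval_hasse_sum]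
    simp only [hcJ]
    rw [derivative_sum, eval_finsetSum]
    refine Finset.sum_congr rfl fun j _ => ?_
    rw [derivative_mul, derivative_pow_p, mul_zero, add_zero, derivative_mul, derivative_C,
      zero_mul, zero_add, eval_mul, eval_mul, eval_C, eval_pow, eval_pow, ← hc]
  have hcJe : ∀ J, (cJ J).eval y = (hasseDeriv J
      (∑ j ∈ Finset.range D, C ((α j).eval y) * X ^ j)).eval c := by
    intro J
    rw [eval_hasse_sum]
    simp only [hcJ]
    rw [eval_finsetSum]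
    refine Finset.sum_congr rfl fun j _ => ?_
    rw [eval_mul, eval_mul, eval_C, eval_pow, eval_pow, ← hc]
  have hr : ∀ J, ∃ r ∈ PI E, 1 ≤ J ∧ J ≤ D → v.Ge (m / 2) ((cJ J).eval y - r.eval y ^ p) := by
    intro J
    by_cases hJ : 1 ≤ J ∧ J ≤ D
    · obtain ⟨r, hr, h1⟩ := root_margin p hy hE hm (hcJE J) (by
        rw [hcJd J hJ.1]
        exact hmar' _ (Finset.mem_image.2 ⟨J, Finset.mem_Icc.2 hJ, rfl⟩))
      exact ⟨r, hr, fun _ => h1⟩
    · exact ⟨0, zero_mem _, fun h1 => absurd h1 hJ⟩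
  choose r hrE hr using hr
  refine ⟨∑ J ∈ Finset.range D, (r (J + 1)).eval y * (u - ψ.eval y) ^ (J + 1),
    sum_mem fun J _ => mul_mem (le_cadj v _ u (hev (hrE _)))
      (pow_mem (sub_mem (self_mem_cadj v _ u) (le_cadj v _ u (hev hψ))) _),
    (cJ 0).eval y, hev (hcJE 0), ?_⟩
  have hH : ∑ j ∈ Finset.range D, (α j).eval y * (u ^ p) ^ j =
      ∑ J ∈ Finset.range D, (cJ (J + 1)).eval y * (u ^ p - c) ^ (J + 1) + (cJ 0).eval y := by
    set H : Polynomial Ω := ∑ j ∈ Finset.range D, C ((α j).eval y) * X ^ j with hHdef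
    have h1 : H.natDegree ≤ D := by
      refine natDegree_sum_le_of_forall_le _ _ fun j hj => ?_
      refine (natDegree_C_mul_X_pow_le _ _).trans (Finset.mem_range.1 hj).le
    have h2 : H.eval (u ^ p) = ∑ j ∈ Finset.range D, (α j).eval y * (u ^ p) ^ j := by
      rw [hHdef, eval_finsetSum]
      simp only [eval_mul, eval_C, eval_pow, eval_X]
    rw [← h2, eval_eq_taylor H c (u ^ p),
      eval_eq_sum_range' (n := D + 1) (by rw [natDegree_taylor]; omega), Finset.sum_range_succ',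
      pow_zero, mul_one]
    simp only [taylor_coeff, hcJe]
  rw [hH, sum_pow_char]
  have e1 : ∑ J ∈ Finset.range D, (cJ (J + 1)).eval y * (u ^ p - c) ^ (J + 1) + (cJ 0).eval y -
      ∑ J ∈ Finset.range D, ((r (J + 1)).eval y * (u - ψ.eval y) ^ (J + 1)) ^ p -
        (cJ 0).eval y =
      ∑ J ∈ Finset.range D, ((cJ (J + 1)).eval y - (r (J + 1)).eval y ^ p) *
        (u ^ p - c) ^ (J + 1) := by
    rw [add_sub_right_comm, add_sub_cancel_right, ← Finset.sum_sub_distrib]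
    refine Finset.sum_congr rfl fun J _ => ?_
    rw [mul_pow, ← pow_mul, mul_comm (J + 1) p, pow_mul,
      show (u - ψ.eval y) ^ p = u ^ p - c from sub_pow_char _ _]
    ring
  rw [e1]
  refine RVal.Ge.sum _ _ fun J hJ => ?_
  have hJD : J + 1 ≤ D := Finset.mem_range.1 hJ
  refine ((hr (J + 1) ⟨by omega, hJD⟩).mul (ge_pow hUc (J + 1))).mono ?_
  have h1 := min_le_right (δ / (p : ℝ)) (m / (2 * p * (D + 1)))
  rw [← hε, le_div_iff₀ (by positivity)] at h1
  have h2 : ((J + 1 : ℕ) : ℝ) ≤ D := by exact_mod_cast hJD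
  have h3 : ((J + 1 : ℕ) : ℝ) * (p * ε) ≤ D * (p * ε) :=
    mul_le_mul_of_nonneg_right h2 (by positivity)
  have h4 : 0 < (p : ℝ) * ε := by positivity
  nlinarith

/-- The relation between the derivatives in `y` of `z ^ p ^ m = h(y, u ^ p) + l`. -/
theorem beta_exh (hy : TL v E y 0) (hu : TL v (cadj v E y) u 0) {m : ℕ} (hm : 1 ≤ m) {z : Ω}
    (hz : Lim v (cadj v (cadj v E y) u) 0 z) {α : ℕ → Polynomial Ω} (hα : ∀ j, α j ∈ PI E)
    (D : ℕ) {l : ℕ → Polynomial Ω} (hl : ∀ n, l n ∈ PI E)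
    (h : Nul v fun n => z ^ p ^ m - ∑ j ∈ Finset.range D, (α j).eval y * (u ^ p) ^ j -
      (l n).eval y) :
    Nul v fun n => (derivative (l n)).eval y +
      ∑ j ∈ Finset.range D, (derivative (α j)).eval y * (u ^ p) ^ j := by
  intro ε hε
  obtain ⟨N, hN⟩ := h ε hε
  refine ⟨N, fun n hn => ?_⟩
  have hn1 := hN n hn
  have hpm : p ^ m ≠ 0 := pow_ne_zero _ hp.out.ne_zero
  have hpm' : (0 : ℝ) < (p ^ m : ℕ) := by exact_mod_cast Nat.pos_of_ne_zero hpm
  have hdE : ∀ {f : Polynomial Ω}, f ∈ PI E → derivative f ∈ PI E := fun hf => by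
    rw [← hasseDeriv_one]; exact hasse_mem_PI hf 1
  have hev : ∀ {f : Polynomial Ω}, f ∈ PI E → f.eval y ∈ cadj v E y := fun hf =>
    eval_mem (PI_mono (le_cadj v E y) hf) (self_mem_cadj v E y)
  -- `z` near `ζ(u)`
  obtain ⟨w, hw, hzw⟩ := hz (ε / (p ^ m : ℕ)) (by positivity)
  obtain ⟨ζ, hζ, hwζ⟩ := hu.dense hw 0
  rw [zero_sub] at hzw
  have hzζ : v.Ge (-ε) ((z - ζ.eval u) ^ p ^ m) := by
    have h1 : v.Ge (-(ε / (p ^ m : ℕ))) (z - ζ.eval u) := by
      rw [show z - ζ.eval u = (z - w) + (w - ζ.eval u) by ring]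
      exact hzw.add (hwζ.mono (by
        have : 0 ≤ ε / (p ^ m : ℕ) := by positivity
        linarith))
    refine (ge_pow h1 (p ^ m)).mono (le_of_eq ?_)
    field_simp
  set G : Polynomial Ω := ζ ^ p ^ m - ∑ j ∈ Finset.range D, C ((α j).eval y) * (X ^ p) ^ j -
    C ((l n).eval y) with hG
  set G₁ : Polynomial Ω := C ((derivative (l n)).eval y) +
    ∑ j ∈ Finset.range D, C ((derivative (α j)).eval y) * (X ^ p) ^ j with hG₁
  have hGA : G ∈ PI (cadj v E y) := sub_mem (sub_mem (pow_mem hζ _) (sum_mem fun j _ =>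
    mul_mem (C_mem_PI (hev (hα j))) (pow_mem (pow_mem X_mem_PI _) _)))
    (C_mem_PI (hev (hl n)))
  have hG₁A : G₁ ∈ PI (cadj v E y) := add_mem (C_mem_PI (hev (hdE (hl n))))
    (sum_mem fun j _ => mul_mem (C_mem_PI (hev (hdE (hα j)))) (pow_mem (pow_mem X_mem_PI _) _))
  have hGe : ∀ s : Ω, G.eval s = ζ.eval s ^ p ^ m -
      ∑ j ∈ Finset.range D, (α j).eval y * (s ^ p) ^ j - (l n).eval y := fun s => by
    rw [hG, eval_sub, eval_sub, eval_finsetSum, eval_C, eval_pow]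
    simp only [eval_mul, eval_C, eval_pow, eval_X]
  have hG₁e : ∀ s : Ω, G₁.eval s = (derivative (l n)).eval y +
      ∑ j ∈ Finset.range D, (derivative (α j)).eval y * (s ^ p) ^ j := fun s => by
    rw [hG₁, eval_add, eval_finsetSum, eval_C]
    simp only [eval_mul, eval_C, eval_pow, eval_X]
  have hGu : v.Ge (-ε) (G.eval u) := by
    have h1 := hn1.sub hzζ
    rw [sub_pow_char_pow] at h1
    rw [hGe]
    convert h1 using 1
    ring
  obtain ⟨δ, hδ, hnear⟩ := near_ge hu hGA hGu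
  obtain ⟨δ', hδ', hnear'⟩ := ge_of_near hu hG₁A
  obtain ⟨ψ, hψ, hψu⟩ := exists_near_poly hy hu.lim (lt_min hδ hδ')
  suffices hfin : v.Ge (-ε) (G₁.eval u) by
    rw [hG₁e] at hfin
    exact hfin
  refine hnear' (ψ.eval y) (hψu.mono (neg_le_neg (min_le_right _ _))) _ ?_
  have hGψ := hnear (ψ.eval y) (hψu.mono (neg_le_neg (min_le_left _ _)))
  obtain ⟨ζ', hζ', hζζ⟩ := hy.dense (eval_mem hζ (hev hψ)) 0
  set K : Polynomial Ω := ζ' ^ p ^ m - ∑ j ∈ Finset.range D, α j * (ψ ^ p) ^ j - l n with hK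
  have hKE : K ∈ PI E := sub_mem (sub_mem (pow_mem hζ' _) (sum_mem fun j _ =>
    mul_mem (hα j) (pow_mem (pow_mem hψ _) _))) (hl n)
  have hKy : v.Ge (-ε) (K.eval y) := by
    have h1 := ge_pow hζζ (p ^ m)
    rw [mul_zero, sub_pow_char_pow] at h1
    have h2 := hGψ.sub (h1.mono (by linarith : -ε ≤ 0))
    rw [hGe] at h2
    rw [hK, eval_sub, eval_sub, eval_finsetSum]
    simp only [eval_mul, eval_pow]
    convert h2 using 1
    ring
  have h1 := hasse_ge hy hKE hKy 1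
  have h2 : (hasseDeriv 1 K).eval y = -(G₁.eval (ψ.eval y)) := by
    rw [hasseDeriv_one, hK, derivative_sub, derivative_sub, derivative_sum]
    have h3 : derivative (ζ' ^ p ^ m) = 0 := by
      obtain ⟨m', rfl⟩ : ∃ m', m = m' + 1 := ⟨m - 1, by omega⟩
      rw [pow_succ', pow_mul]
      exact derivative_pow_p p ζ' (p ^ m')
    have h4 : ∀ j, derivative (α j * (ψ ^ p) ^ j) = derivative (α j) * (ψ ^ p) ^ j := fun j => by
      rw [derivative_mul, derivative_pow_p, mul_zero, add_zero]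
    rw [h3, hG₁e]
    simp only [h4, eval_sub, eval_finsetSum, eval_mul, eval_pow, eval_zero]
    ring
  rw [h2] at h1
  have h3 := h1.neg
  rwa [neg_neg] at h3

/-- Saturation over a perfect field: `P(F) w + h ∈ L(E)`, `P ≠ 0`, `w ∈ L(E⟨y⟩)` and `h ∈ E⟨y⟩`
imply `w ∈ E⟨y⟩ + L(E)`. -/
theorem sat_perfE (hk : Ctx0 k v) (hy : TL v E y 0) (hE : ∀ a ∈ E, ∃ b ∈ E, b ^ p = a) {P : k[X]}
    (hP : P ≠ 0) {w h : Ω} (hw : Lim v (cadj v E y) 0 w) (hh : h ∈ cadj v E y)
    (hrel : Lim v E 0 (opv p P w + h)) : ∃ a ∈ cadj v E y, Lim v E 0 (w - a) := by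
  have : Fact (Ctx0 k v) := ⟨hk⟩
  have : CharP k p := (Algebra.charP_iff k Ω p).2 inferInstance
  set t := P.natTrailingDegree with ht
  have hPt : P.coeff t ≠ 0 := mem_support_iff.1 (natTrailingDegree_mem_support_of_nonzero hP)
  have h1 : opv p P w = ∑ i ∈ Finset.range (P.natDegree + 1),
      algebraMap k Ω (P.coeff (t + i)) * (w ^ p ^ t) ^ p ^ i := by
    rw [opv_range p P w (N := t + (P.natDegree + 1)) (by omega), Finset.sum_range_add]
    have h2 : ∑ i ∈ Finset.range t, algebraMap k Ω (P.coeff i) * w ^ p ^ i = 0 :=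
      Finset.sum_eq_zero fun i hi => by
        rw [coeff_eq_zero_of_lt_natTrailingDegree (Finset.mem_range.1 hi), map_zero, zero_mul]
    rw [h2, zero_add]
    refine Finset.sum_congr rfl fun i _ => ?_
    rw [← pow_mul, ← pow_add]
  rw [h1] at hrel
  obtain ⟨F, hF, h2⟩ := lim_frob p hk hy (P := fun i => P.coeff (t + i)) (M := P.natDegree)
    (by simpa using hPt) hh (Lim.pow_pow p hw t) hrel
  obtain ⟨x, hx, hxw⟩ := Lim.exists_cau hw
  obtain ⟨m, hm, hmn⟩ := Lim.exists_cau h2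
  have hev : F.eval y ∈ cadj v E y :=
    eval_mem (PI_mono (le_cadj v E y) hF) (self_mem_cadj v E y)
  have h3 : InBL v (cadj v E y) E fun n => x n ^ p ^ t := by
    refine ⟨F.eval y, hev, m, hm, ?_⟩
    have h4 := nul_pow hxw (p ^ t) (pow_ne_zero _ hp.out.ne_zero)
    refine (hmn.sub h4).congr fun n => ?_
    rw [sub_pow_char_pow]
    ring
  obtain ⟨b, hb, m', hm', h4⟩ := lemmaR_ii' hk hy p hE (q := t) hx h3
  exact ⟨b, hb, Lim.of_nul hm'.mem ((hxw.add h4).congr fun n => by ring)⟩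

end Pool.Agent.TWIV
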