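import Pool.Agent.Lib.TWIV.ExhA

/-!
# TANK W, leaf (IV), row EXH: exhaustion over a perfect field, part B

`E` perfect, `A = E⟨y⟩`, `B = A⟨u⟩`, all steps of transcendental type and of radius `0`.
* `opv_X_pow_mul`, `opv_lin`, `exists_opv_pow`, `opv_far`: operators;
* `exh_key`: `x = P(F) z + b` a limit of `E`, `P ≠ 0`, `b ∈ B`, `z` a limit of `B`: then `z` is in
  `B + L(A)`.
-/

set_option autoImplicit false
set_option linter.unusedSectionVars false

open Polynomial

namespace Pool.Agent.TWIV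

open Pool.Agent.H15JM (RVal)
open Pool.Agent.D2 (Ctx0)
open Pool.Agent.TWM
open Pool.Agent.TWC

universe u

variable {k Ω : Type u} [Field k] [Field Ω] [Algebra k Ω] {v : RVal Ω}
  {E A : IntermediateField k Ω} {y u z : Ω} [IsAlgClosed Ω]
  (p : ℕ) [hp : Fact p.Prime] [CharP Ω p]

/-! ### Operators -/

theorem opv_X_pow_mul (P : k[X]) (m : ℕ) (w : Ω) :
    opv p (X ^ m * P) w = opv p P (w ^ p ^ m) := by
  have hd : (X ^ m * P).natDegree < m + (P.natDegree + 1) :=
    (natDegree_mul_le.trans (add_le_add_left (natDegree_X_pow_le m) _)).trans_lt (by omega)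
  rw [opv_range p P (w ^ p ^ m) (N := P.natDegree + 1) (Nat.lt_succ_self _),
    opv_range p (X ^ m * P) w hd, Finset.sum_range_add]
  have h2 : ∑ i ∈ Finset.range m, algebraMap k Ω ((X ^ m * P).coeff i) * w ^ p ^ i = 0 :=
    Finset.sum_eq_zero fun i hi => by
      rw [coeff_X_pow_mul', if_neg (by have := Finset.mem_range.1 hi; omega), map_zero, zero_mul]
  rw [h2, zero_add]
  refine Finset.sum_congr rfl fun i _ => ?_
  rw [coeff_X_pow_mul', if_pos (by omega), Nat.add_sub_cancel_left, ← pow_mul, ← pow_add]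

theorem opv_mono (a : k) (i : ℕ) (w : Ω) :
    opv p (C a * X ^ i) w = algebraMap k Ω a * w ^ p ^ i := by
  rw [opv_range p (C a * X ^ i) w (N := i + 1) (Nat.lt_succ_of_le (natDegree_C_mul_X_pow_le _ _)),
    Finset.sum_range_succ, coeff_C_mul_X_pow, if_pos rfl]
  have h2 : ∑ j ∈ Finset.range i, algebraMap k Ω ((C a * X ^ i).coeff j) * w ^ p ^ j = 0 :=
    Finset.sum_eq_zero fun j hj => by
      rw [coeff_C_mul_X_pow, if_neg (by have := Finset.mem_range.1 hj; omega), map_zero, zero_mul]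
  rw [h2, zero_add]

theorem opv_zero (w : Ω) : opv p (0 : k[X]) w = 0 := by
  rw [opv, support_zero, Finset.sum_empty]

theorem opv_lin (c : ℕ → k) (N : ℕ) (w : Ω) :
    opv p (∑ i ∈ Finset.range N, C (c i) * X ^ i) w =
      ∑ i ∈ Finset.range N, algebraMap k Ω (c i) * w ^ p ^ i := by
  induction N with
  | zero => rw [Finset.sum_range_zero, Finset.sum_range_zero, opv_zero]
  | succ N ih => rw [Finset.sum_range_succ, Finset.sum_range_succ, opv_padd, ih, opv_mono]

theorem opv_map_frob [CharP k p] (S : k[X]) (w : Ω) :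
    opv p (S.map (frobenius k p)) (w ^ p) = opv p S w ^ p := by
  rw [opv_range p (S.map (frobenius k p)) (w ^ p) (N := S.natDegree + 1)
    (Nat.lt_succ_of_le natDegree_map_le), opv_range p S w (N := S.natDegree + 1)
    (Nat.lt_succ_self _), sum_pow_char]
  refine Finset.sum_congr rfl fun i _ => ?_
  rw [coeff_map, frobenius_def, map_pow, mul_pow, ← pow_mul, ← pow_mul, mul_comm p]

theorem exists_opv_pow {S : k[X]} (hS : S ≠ 0) (q : ℕ) :
    ∃ S' : k[X], S' ≠ 0 ∧ ∀ w : Ω, opv p S' w = opv p S w ^ p ^ q := by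
  have : CharP k p := (Algebra.charP_iff k Ω p).2 inferInstance
  induction q with
  | zero => exact ⟨S, hS, fun w => by rw [pow_zero, pow_one]⟩
  | succ q ih =>
    obtain ⟨S', hS', h1⟩ := ih
    refine ⟨X ^ 1 * S'.map (frobenius k p), mul_ne_zero (pow_ne_zero _ X_ne_zero)
      ((Polynomial.map_ne_zero_iff (frobenius_inj k p)).2 hS'), fun w => ?_⟩
    rw [opv_X_pow_mul, pow_one, opv_map_frob, h1, ← pow_mul, ← pow_succ]

theorem opv_far (hk : Ctx0 k v) (hu : TL v A u 0) {S : k[X]} (hS : S ≠ 0) {a : Ω} (ha : a ∈ A) :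
    ¬ v.Ge 0 (opv p S u - a) := by
  have h1 : S.coeff S.natDegree ≠ 0 := leadingCoeff_ne_zero.2 hS
  have h2 := hu.germ_far p (e := S.natDegree + 1) (c := fun i => algebraMap k Ω (S.coeff i))
    (fun i => le_algc A (A.algebraMap_mem _)) (Nat.lt_succ_self _)
    (by rwa [Ne, map_eq_zero]) (θ := a) (isAlgebraic_algebraMap (⟨a, ha⟩ : A))
  rw [opv_range p S u (N := S.natDegree + 1) (Nat.lt_succ_self _)]
  intro h3
  have h4 := h3 (sub_ne_zero.2 h2.1)
  have h5 := h2.2
  rw [hk.triv _ h1, mul_zero, zero_add] at h5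
  exact absurd h4 (not_le.2 h5)

theorem nul_opv (hk : Ctx0 k v) (S : k[X]) {x : ℕ → Ω} (hx : Nul v x) :
    Nul v fun n => opv p S (x n) := by
  unfold opv
  exact nul_sumI _ fun i _ => nul_ge_mul (hk.ge _) (nul_pow hx _ (pow_ne_zero _ hp.out.ne_zero))

theorem pc_of_nul {w : Ω} {f : ℕ → Polynomial Ω} (hf : ∀ n, f n ∈ PI A)
    (h : Nul v fun n => w - (f n).eval z) : PC v A z f where
  mem := hf
  cau := by
    intro ε hε
    obtain ⟨N, hN⟩ := h ε hε
    refine ⟨N, fun i j hi hj => ?_⟩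
    rw [eval_sub, show (f i).eval z - (f j).eval z = (w - (f j).eval z) - (w - (f i).eval z) by ring]
    exact (hN j hj).sub (hN i hi)

omit hp [CharP Ω p] [IsAlgClosed Ω] in
theorem lim_of_geE {x w : Ω} (hx : Lim v A 0 x) (h : v.Ge 0 (x - w)) : Lim v A 0 w := by
  intro ε hε
  obtain ⟨a, ha, h1⟩ := hx ε hε
  refine ⟨a, ha, ?_⟩
  rw [show w - a = (x - a) - (x - w) by ring]
  exact h1.sub (h.mono (by linarith))

/-! ### The relation with a limit of `A` -/

/-- `P(F) z + b` a limit of `A`: `z ^ p ^ t` is in `B + L(A)`, `t` the lowest index of `P`. -/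
theorem exists_lim_pow (hk : Ctx0 k v) (hu : TL v A u 0) (hz : Lim v (cadj v A u) 0 z) {x : Ω}
    (hx : Lim v A 0 x) {P : k[X]} (hP : P ≠ 0) {b : Ω} (hb : b ∈ cadj v A u)
    (hrel : v.Ge 0 (x - (opv p P z + b))) :
    ∃ b₀ ∈ cadj v A u, Lim v A 0 (z ^ p ^ P.natTrailingDegree - b₀) := by
  have : Fact (Ctx0 k v) := ⟨hk⟩
  have : CharP k p := (Algebra.charP_iff k Ω p).2 inferInstance
  set t := P.natTrailingDegree with ht
  obtain ⟨P', hP'⟩ : X ^ t ∣ P := X_pow_dvd_iff.2 fun d hd =>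
    coeff_eq_zero_of_lt_natTrailingDegree hd
  have hPt : P.coeff t ≠ 0 := mem_support_iff.1 (natTrailingDegree_mem_support_of_nonzero hP)
  have hP'0 : P'.coeff 0 ≠ 0 := by
    rw [hP', coeff_X_pow_mul', if_pos le_rfl, Nat.sub_self] at hPt
    exact hPt
  have h1 : opv p P z = ∑ i ∈ Finset.range (P'.natDegree + 1),
      algebraMap k Ω (P'.coeff i) * (z ^ p ^ t) ^ p ^ i := by
    conv_lhs => rw [hP']
    rw [opv_X_pow_mul, opv_range p P' _ (Nat.lt_succ_self _)]
  have h2 : Lim v A 0 (opv p P z + b) := lim_of_geE hx hrel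
  rw [h1] at h2
  obtain ⟨F, hF, h3⟩ := lim_frob p hk hu hP'0 hb (Lim.pow_pow p hz t) h2
  exact ⟨F.eval u, eval_mem (PI_mono (le_cadj v A u) hF) (self_mem_cadj v A u), h3⟩

/-- The expansion of `x` in `T ∩ L(A)`. -/
theorem exists_expand (hk : Ctx0 k v) (hu : TL v A u 0) {x : Ω}
    (hx : Lim v A 0 x) {P : k[X]} (hP : P ≠ 0) {b : Ω} (hb : b ∈ cadj v A u)
    (hrel : v.Ge 0 (x - (opv p P z + b))) {m : ℕ} (hm : m ≤ P.natTrailingDegree) {b₀ : Ω}
    (hb₀ : b₀ ∈ cadj v A u) (hl : Lim v A 0 (z ^ p ^ m - b₀)) :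
    ∃ P' Q : k[X], ∃ a ∈ A, P' ≠ 0 ∧
      v.Ge 0 (x - (opv p P' (z ^ p ^ m - b₀) + opv p Q u + a)) := by
  have : Fact (Ctx0 k v) := ⟨hk⟩
  have : CharP k p := (Algebra.charP_iff k Ω p).2 inferInstance
  obtain ⟨P', hP'⟩ : X ^ m ∣ P := X_pow_dvd_iff.2 fun d hd =>
    coeff_eq_zero_of_lt_natTrailingDegree (hd.trans_le hm)
  have hP'0 : P' ≠ 0 := fun h0 => hP (by rw [hP', h0, mul_zero])
  set l := z ^ p ^ m - b₀ with hldef
  have h1 : opv p P z = opv p P' l + opv p P' b₀ := by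
    conv_lhs => rw [hP']
    rw [opv_X_pow_mul, ← opv_add, hldef, sub_add_cancel]
  set b' := b + opv p P' b₀ with hb'
  have hb'B : b' ∈ cadj v A u := add_mem hb (opv_mem p P' hb₀)
  have h2 : v.Ge 0 (x - opv p P' l - b') := by
    have : x - opv p P' l - b' = x - (opv p P z + b) := by rw [h1, hb']; ring
    rw [this]
    exact hrel
  have h3 : Lim v A 0 b' := lim_of_geE (Lim.sub hx (opv_lim p hk P' hl)) h2
  obtain ⟨e, he, N, c, h4⟩ := germ_res hk hu p hb'B h3
  refine ⟨P', ∑ i ∈ Finset.range N, C (c i) * X ^ i, e, he, hP'0, ?_⟩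
  rw [opv_lin]
  have h5 := h2.add h4.ge
  convert h5 using 1
  ring

/-- Normal form of the element `b₀` of `z ^ p ^ m - b₀ ∈ L(A)`. -/
theorem exists_normal (hk : Ctx0 k v) (hy : TL v E y 0) (hu : TL v (cadj v E y) u 0)
    (hz : Lim v (cadj v (cadj v E y) u) 0 z) {m : ℕ} (hm : 1 ≤ m) {b₀ : Ω}
    (hb₀ : b₀ ∈ cadj v (cadj v E y) u) (hl : Lim v (cadj v E y) 0 (z ^ p ^ m - b₀)) :
    ∃ (D : ℕ) (α : ℕ → Polynomial Ω), (∀ j, α j ∈ PI E) ∧
      Lim v (cadj v E y) 0 (z ^ p ^ m - ∑ j ∈ Finset.range D, (α j).eval y * (u ^ p) ^ j) := by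
  have : Fact (Ctx0 k v) := ⟨hk⟩
  have : CharP k p := (Algebra.charP_iff k Ω p).2 inferInstance
  have hpm' : (0 : ℝ) < (p ^ m : ℕ) := by
    exact_mod_cast Nat.pos_of_ne_zero (pow_ne_zero _ hp.out.ne_zero)
  obtain ⟨h, hh, hbh⟩ := hu.dense hb₀ 0
  have hD : ∀ j, ¬ p ∣ j → v.Ge 0 ((hasseDeriv j h).eval u) := by
    intro j hj
    refine ge_of_eps fun ε hε => ?_
    obtain ⟨w, hw, hzw⟩ := hz (ε / (p ^ m : ℕ)) (by positivity)
    obtain ⟨ζ, hζ, hwζ⟩ := hu.dense hw 0
    rw [zero_sub] at hzw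
    have hzζ : v.Ge (-ε) ((z - ζ.eval u) ^ p ^ m) := by
      have h1 : v.Ge (-(ε / (p ^ m : ℕ))) (z - ζ.eval u) := by
        rw [show z - ζ.eval u = (z - w) + (w - ζ.eval u) by ring]
        exact hzw.add (hwζ.mono (by
          have : 0 ≤ ε / (p ^ m : ℕ) := by positivity
          linarith))
      refine (ge_pow h1 (p ^ m)).mono (le_of_eq ?_)
      field_simp
    obtain ⟨a, ha, hla⟩ := hl ε hε
    rw [zero_sub] at hla
    have hG : ζ ^ p ^ m - h - C a ∈ PI (cadj v E y) :=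
      sub_mem (sub_mem (pow_mem hζ _) hh) (C_mem_PI ha)
    have hGu : v.Ge (-ε) ((ζ ^ p ^ m - h - C a).eval u) := by
      have h1 := (hla.sub hzζ).add (hbh.mono (by linarith : -ε ≤ 0))
      rw [sub_pow_char_pow] at h1
      rw [eval_sub, eval_sub, eval_pow, eval_C]
      convert h1 using 1
      ring
    have h2 := hasse_ge hu hG hGu j
    have hj1 : 1 ≤ j := Nat.one_le_iff_ne_zero.2 fun h0 => hj (by rw [h0]; exact dvd_zero p)
    rw [map_sub, map_sub, hasse_ppow, if_neg fun h3 => hj ((dvd_pow_self p (by omega)).trans h3),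
      hasseDeriv_C _ _ hj1, zero_sub, sub_zero, eval_neg] at h2
    have h3 := h2.neg
    rwa [neg_neg] at h3
  obtain ⟨g, hg, c, h1⟩ := root_np p hk hu hh hD
  obtain ⟨D, α, hα, h2⟩ := coeff_approx hy hg (u ^ p)
  refine ⟨D, α, hα, ?_⟩
  have h3 := Lim.add hl (Lim.smul hu.lim c)
  refine lim_of_geE h3 ?_
  have h4 := (hbh.add h1.ge).add h2
  have h5 := h4.neg
  convert h5 using 1
  ring

/-- The derivative of `l`, up to `O`: `D_1 l = e + (S(F) u) ^ p`. -/
theorem exists_deriv [IsAlgClosed k] (hk : Ctx0 k v) (hy : TL v E y 0)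
    (hu : TL v (cadj v E y) u 0) (hz : Lim v (cadj v (cadj v E y) u) 0 z) {m : ℕ} (hm : 1 ≤ m)
    {α : ℕ → Polynomial Ω} (hα : ∀ j, α j ∈ PI E) (D : ℕ) {l : ℕ → Polynomial Ω}
    (hl : ∀ n, l n ∈ PI E)
    (h : Nul v fun n => z ^ p ^ m - ∑ j ∈ Finset.range D, (α j).eval y * (u ^ p) ^ j -
      (l n).eval y) :
    ∃ (S : k[X]) (e : Polynomial Ω), e ∈ PI E ∧
      Nul v (fun n => (derivative (l n)).eval y - e.eval y - opv p S u ^ p) ∧
      v.Ge 0 (∑ j ∈ Finset.range D, (derivative (α j)).eval y * (u ^ p) ^ j + e.eval y +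
        opv p S u ^ p) := by
  have : Fact (Ctx0 k v) := ⟨hk⟩
  have : CharP k p := (Algebra.charP_iff k Ω p).2 inferInstance
  have hbeta := beta_exh p hy hu hm hz hα D hl h
  set η := ∑ j ∈ Finset.range D, (derivative (α j)).eval y * (u ^ p) ^ j with hη
  have hdE : ∀ {f : Polynomial Ω}, f ∈ PI E → derivative f ∈ PI E := fun hf => by
    rw [← hasseDeriv_one]; exact hasse_mem_PI hf 1
  have hev : ∀ {f : Polynomial Ω}, f ∈ PI E → f.eval y ∈ cadj v E y := fun hf =>
    eval_mem (PI_mono (le_cadj v E y) hf) (self_mem_cadj v E y)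
  have hηB : η ∈ cadj v (cadj v E y) u := sum_mem fun j _ =>
    mul_mem (le_cadj v _ u (hev (hdE (hα j)))) (pow_mem (pow_mem (self_mem_cadj v _ u) _) _)
  have hηL : Lim v (cadj v E y) 0 η :=
    Lim.of_nul (m := fun n => -((derivative (l n)).eval y)) (fun n => neg_mem (hev (hdE (hl n))))
      (hbeta.congr fun n => by ring)
  obtain ⟨e₀, he₀, N, c, h1⟩ := germ_res hk hu p hηB hηL
  obtain ⟨e₁, he₁, h2⟩ := hy.dense he₀ 0
  -- one more term
  set c' : ℕ → k := fun i => if i < N then c i else 0 with hc'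
  have hsum : ∑ i ∈ Finset.range N, algebraMap k Ω (c i) * u ^ p ^ i =
      ∑ i ∈ Finset.range (N + 1), algebraMap k Ω (c' i) * u ^ p ^ i := by
    rw [Finset.sum_range_succ]
    simp only [hc', lt_irrefl, if_false, map_zero, zero_mul, add_zero]
    exact Finset.sum_congr rfl fun i hi => by rw [if_pos (Finset.mem_range.1 hi)]
  rw [hsum] at h1
  -- the coefficient of `u` is `0`
  have hc0 : c' 0 = 0 := by
    by_contra h0
    set G : Polynomial Ω := ∑ j ∈ Finset.range D, C ((derivative (α j)).eval y) * (X ^ p) ^ j -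
      C e₀ - addP p (N + 1) (fun i => algebraMap k Ω (c' i)) with hG
    have hGA : G ∈ PI (cadj v E y) := sub_mem (sub_mem (sum_mem fun j _ =>
      mul_mem (C_mem_PI (hev (hdE (hα j)))) (pow_mem (pow_mem X_mem_PI _) _)) (C_mem_PI he₀))
      (addP_mem fun i => (cadj v E y).algebraMap_mem _)
    have hGu : v.Ge 0 (G.eval u) := by
      rw [hG, eval_sub, eval_sub, eval_finsetSum, eval_C, addP_eval]
      simp only [eval_mul, eval_C, eval_pow, eval_X]
      rw [← hη]
      convert h1.ge using 1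
      ring
    have h3 := hasse_gt_of_ge hu hGA hGu (l := 1) le_rfl
    have h4 : (hasseDeriv 1 (addP p (N + 1) (fun i => algebraMap k Ω (c' i)))).eval u =
        algebraMap k Ω (c' 0) := by
      have h5 := coeff_taylor_addP_pow p (N + 1) (fun i => algebraMap k Ω (c' i)) u 0
      rw [pow_zero, if_pos (Nat.succ_pos N), taylor_coeff] at h5
      exact h5
    have h6 : ∀ j, derivative (C ((derivative (α j)).eval y) * (X ^ p) ^ j : Polynomial Ω) = 0 :=
      fun j => by rw [derivative_mul, derivative_pow_p, derivative_C, mul_zero, zero_mul, add_zero]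
    rw [hG, map_sub, map_sub, eval_sub, h4, eval_sub, hasseDeriv_C _ _ (le_refl 1), eval_zero,
      sub_zero, hasseDeriv_one, derivative_sum] at h3
    simp only [h6, Finset.sum_const_zero, eval_zero, zero_sub] at h3
    have h7 := h3 (neg_ne_zero.2 ((_root_.map_ne_zero _).2 h0))
    rw [v.map_neg _ ((_root_.map_ne_zero _).2 h0), hk.triv _ h0] at h7
    exact lt_irrefl _ h7
  choose ρ hρ using fun i : ℕ => IsAlgClosed.exists_pow_nat_eq (-(c' (i + 1))) hp.out.pos
  set S : k[X] := ∑ i ∈ Finset.range N, C (ρ i) * X ^ i with hS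
  have hSu : opv p S u ^ p = -∑ i ∈ Finset.range (N + 1), algebraMap k Ω (c' i) * u ^ p ^ i := by
    rw [hS, opv_lin, sum_pow_char, Finset.sum_range_succ', hc0, map_zero, zero_mul, add_zero,
      ← Finset.sum_neg_distrib]
    refine Finset.sum_congr rfl fun i _ => ?_
    rw [mul_pow, ← map_pow, hρ, ← pow_mul, ← pow_succ, map_neg, neg_mul]
  have hge : v.Ge 0 (η + (-e₁).eval y + opv p S u ^ p) := by
    have h3 := h1.ge.add h2
    rw [hSu, eval_neg]
    convert h3 using 1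
    ring
  refine ⟨S, -e₁, neg_mem he₁, ?_, hge⟩
  refine (hbeta.sub (Nul.const_iff.2 hge)).congr fun n => ?_
  ring

end Pool.Agent.TWIV
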