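import Pool.Agent.Lib.TWIV.ExhB

/-!
# TANK W, leaf (IV), row EXH: exhaustion over a perfect field, part C

`E` perfect, `A = E⟨y⟩`, `B = A⟨u⟩`, all steps of transcendental type and of radius `0`.
* `key_U`, `key_G`: the two cases of the relation `D_1 l = e + (S(F) u) ^ p`, `S ≠ 0`;
* `exh_key`: `x = P(F) z + b` a limit of `E`, `P ≠ 0`, `b ∈ B`, `z` a limit of `B`: then `z` is in
  `B + L(A)`.
-/

set_option autoImplicit false
set_option linter.unusedSectionVars false

open Polynomial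

namespace Pool.Agent.TWIV

open Pool.Agent.H15JM (RVal)
open Pool.Agent.D2 (Ctx0)
open Pool.Agent.TWM
open Pool.Agent.TWC

universe u

variable {k Ω : Type u} [Field k] [Field Ω] [Algebra k Ω] {v : RVal Ω}
  {E A : IntermediateField k Ω} {y u z : Ω} [IsAlgClosed Ω]
  (p : ℕ) [hp : Fact p.Prime] [CharP Ω p]

theorem opP_add (P : k[X]) (f g : Polynomial Ω) : opP p P (f + g) = opP p P f + opP p P g := by
  unfold opP
  rw [← Finset.sum_add_distrib]
  exact Finset.sum_congr rfl fun i _ => by rw [add_pow_char_pow]; ring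

omit hp [CharP Ω p] in
theorem opP_C (P : k[X]) (a : Ω) : opP p P (C a) = C (opv p P a) := by
  unfold opP opv
  rw [map_sum]
  exact Finset.sum_congr rfl fun i _ => by rw [map_mul, map_pow]

/-- The jet of order `p ^ t` of `P(F) f`, `t` the lowest index of `P`. -/
theorem hasse_opP_low {P : k[X]} (hP : P ≠ 0) (f : Polynomial Ω) :
    hasseDeriv (p ^ P.natTrailingDegree) (opP p P f) =
      C (algebraMap k Ω (P.coeff P.natTrailingDegree)) *
        derivative f ^ p ^ P.natTrailingDegree := by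
  have hp1 := hp.out.one_lt
  rw [hasse_opP, Finset.sum_eq_single P.natTrailingDegree]
  · rw [if_pos (dvd_refl _), Nat.div_self (Nat.pow_pos hp.out.pos), hasseDeriv_one]
  · intro a ha hne
    rw [if_neg]
    intro h1
    have h2 := (Nat.pow_dvd_pow_iff_le_right hp1).1 h1
    exact hne (le_antisymm h2 (natTrailingDegree_le_of_mem_supp a ha))
  · intro h1
    exact absurd (natTrailingDegree_mem_support_of_nonzero hP) h1

/-- The relation, for the approximating polynomials. -/
theorem rel_nul (hk : Ctx0 k v) {l uu : ℕ → Polynomial Ω} {x lam a : Ω} {fa : Polynomial Ω}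
    {P Q : k[X]} {e : ℕ → Ω} (hlam : Nul v fun n => lam - (l n).eval y)
    (huu : Nul v fun n => u - (uu n).eval y) (hxe : Nul v fun n => x - e n)
    (hfa : v.Ge 0 (a - fa.eval y))
    (hrel : v.Ge 0 (x - (opv p P lam + opv p Q u + a))) :
    Nul v fun n => (opP p P (l n) + opP p Q (uu n) + fa - C (e n)).eval y := by
  have h1 := nul_opv p hk P hlam
  have h2 := nul_opv p hk Q huu
  have h3 := ((hxe.sub h1).sub h2).sub (Nul.of_ge (v := v) fun _ => hrel.add hfa)
  refine h3.congr fun n => ?_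
  rw [eval_sub, eval_add, eval_add, eval_C, eval_opP, eval_opP, opv_sub, opv_sub]
  ring

/-- `D_1 l = e + (S(F) u) ^ p`, `S ≠ 0`, `u` in `A + L(E)` and `x = P(F) l + Q(F) u + a` in `L(E)`:
impossible. -/
theorem key_U (hk : Ctx0 k v) (hy : TL v E y 0) (hu : TL v (cadj v E y) u 0)
    {l : ℕ → Polynomial Ω} (hl : ∀ n, l n ∈ PI E) {S : k[X]} (hS : S ≠ 0) {e : Polynomial Ω}
    (he : e ∈ PI E)
    (hd : Nul v fun n => (derivative (l n)).eval y - e.eval y - opv p S u ^ p)
    {x lam : Ω} (hlam : Nul v fun n => lam - (l n).eval y) (hx : Lim v E 0 x) {P Q : k[X]}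
    (hP : P ≠ 0) {a : Ω} (ha : a ∈ cadj v E y)
    (hrel : v.Ge 0 (x - (opv p P lam + opv p Q u + a))) {a₀ : Ω} (ha₀ : a₀ ∈ cadj v E y)
    (hU : Lim v E 0 (u - a₀)) : False := by
  have hev : ∀ {f : Polynomial Ω}, f ∈ PI E → f.eval y ∈ cadj v E y := fun hf =>
    eval_mem (PI_mono (le_cadj v E y) hf) (self_mem_cadj v E y)
  obtain ⟨f₀, hf₀, h1⟩ := hy.dense ha₀ 0
  obtain ⟨lm, hlm, h2⟩ := Lim.exists_cau hU
  obtain ⟨fa, hfa, h3⟩ := hy.dense ha 0
  obtain ⟨en, hen, h4⟩ := Lim.exists_cau hx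
  have huu : Nul v fun n => u - (f₀ + C (lm n)).eval y := by
    refine (h2.add (Nul.of_ge (v := v) fun _ => h1)).congr fun n => ?_
    rw [eval_add, eval_C]
    ring
  have hW := rel_nul p hk hlam huu h4 h3 hrel
  have hWE : ∀ n, opP p P (l n) + opP p Q (f₀ + C (lm n)) + fa - C (en n) ∈ PI E := fun n =>
    sub_mem (add_mem (add_mem (opP_mem p P (hl n))
      (opP_mem p Q (add_mem hf₀ (C_mem_PI (hlm.mem n))))) hfa) (C_mem_PI (hen.mem n))
  set t := P.natTrailingDegree with ht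
  have hPt : P.coeff t ≠ 0 := mem_support_iff.1 (natTrailingDegree_mem_support_of_nonzero hP)
  have hpt : 1 ≤ p ^ t := Nat.pow_pos hp.out.pos
  have hH := nul_hasse hy hWE hW (p ^ t)
  set r : Ω := (hasseDeriv (p ^ t) (opP p Q f₀)).eval y + (hasseDeriv (p ^ t) fa).eval y with hr
  have hrA : r ∈ cadj v E y :=
    add_mem (hev (hasse_mem_PI (opP_mem p Q hf₀) _)) (hev (hasse_mem_PI hfa _))
  have hH' : Nul v fun n => algebraMap k Ω (P.coeff t) * (derivative (l n)).eval y ^ p ^ t + r := by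
    refine hH.congr fun n => ?_
    rw [map_sub, map_add, map_add, hasse_opP_low p hP, ← ht, opP_add, opP_C, map_add,
      hasseDeriv_C _ _ hpt, hasseDeriv_C _ _ hpt, sub_zero, add_zero, eval_add, eval_add, eval_mul,
      eval_C, eval_pow, hr]
    ring
  have h5 := nul_ge_mul (hk.ge (P.coeff t)) (nul_pow hd (p ^ t) (pow_ne_zero _ hp.out.ne_zero))
  have h6 : v.Ge 0 (algebraMap k Ω (P.coeff t) * (e.eval y + opv p S u ^ p) ^ p ^ t + r) := by
    refine Nul.const_iff.1 ((hH'.sub h5).congr fun n => ?_)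
    rw [show (derivative (l n)).eval y - e.eval y - opv p S u ^ p =
      (derivative (l n)).eval y - (e.eval y + opv p S u ^ p) by ring, sub_pow_char_pow]
    ring
  have h7 := (hk.ge (P.coeff t)⁻¹).mul h6
  obtain ⟨S', hS', hS'u⟩ := exists_opv_pow (Ω := Ω) p hS (t + 1)
  refine opv_far p hk hu hS' (a := -(e.eval y ^ p ^ t + algebraMap k Ω (P.coeff t)⁻¹ * r))
    (neg_mem (add_mem (pow_mem (hev he) _) (mul_mem ((cadj v E y).algebraMap_mem _) hrA))) ?_
  rw [zero_add] at h7
  convert h7 using 1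
  have h8 : algebraMap k Ω (P.coeff t)⁻¹ * algebraMap k Ω (P.coeff t) = 1 := by
    rw [← map_mul, inv_mul_cancel₀ hPt, map_one]
  have h9 : (e.eval y + opv p S u ^ p) ^ p ^ t = e.eval y ^ p ^ t + opv p S u ^ p ^ (t + 1) := by
    rw [add_pow_char_pow, ← pow_mul, ← pow_succ']
  rw [hS'u, h9]
  linear_combination (-(e.eval y ^ p ^ t + opv p S u ^ p ^ (t + 1))) * h8

/-! ### Lemma G' -/

/-- Constant sequences. -/
def cst (hk : Ctx0 k v) (a : Ω) : BSeq hk :=
  ⟨fun _ => a, by
    obtain ⟨C, -, hC⟩ := exists_ge v a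
    exact ⟨C, 0, fun _ _ => hC⟩⟩

theorem cst_mem_BBs {hk : Ctx0 k v} {a : Ω} (ha : a ∈ A) : cst hk a ∈ BBs p hk A :=
  ⟨0, a, ha, Nul.zero.congr fun n => by
    show (0 : Ω) = a ^ p ^ 0 - a
    rw [pow_zero, pow_one, sub_self]⟩

theorem jets_sub {V : Type*} [AddCommGroup V] [Module k V] (F : V →+ V) (P : k[X])
    (Y Z : ℕ → V) (j : ℕ) :
    jets p F P (fun i => Y i - Z i) j = jets p F P Y j - jets p F P Z j := by
  unfold jets
  rw [← Finset.sum_sub_distrib]
  refine Finset.sum_congr rfl fun a _ => ?_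
  split_ifs
  · rw [iterate_map_sub, smul_sub]
  · rw [sub_zero]

/-- `D_1 l = e + (S(F) u) ^ p`, `S ≠ 0`, `u` not in `A + L(E)` and `x = P(F) l + Q(F) u + a` in
`L(E)`: then `P = 0`. -/
theorem key_G (hk : Ctx0 k v) (hE : ∀ a ∈ E, ∃ b ∈ E, b ^ p = a) (hy : TL v E y 0)
    (hu : TL v (cadj v E y) u 0) {l : ℕ → Polynomial Ω} (hl : PC v E y l) {S : k[X]}
    (hS : S ≠ 0) {e : Polynomial Ω} (he : e ∈ PI E)
    (hd : Nul v fun n => (derivative (l n)).eval y - e.eval y - opv p S u ^ p)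
    {x lam : Ω} (hlam : Nul v fun n => lam - (l n).eval y) (hx : Lim v E 0 x) {P Q : k[X]}
    {a : Ω} (ha : a ∈ cadj v E y)
    (hrel : v.Ge 0 (x - (opv p P lam + opv p Q u + a)))
    (hU : ∀ a₀ ∈ cadj v E y, ¬ Lim v E 0 (u - a₀)) : P = 0 := by
  classical
  have hp1 := hp.out.one_lt
  have hev : ∀ {f : Polynomial Ω}, f ∈ PI E → f.eval y ∈ cadj v E y := fun hf =>
    eval_mem (PI_mono (le_cadj v E y) hf) (self_mem_cadj v E y)
  obtain ⟨fa, hfa, h3⟩ := hy.dense ha 0
  obtain ⟨en, hen, h4⟩ := Lim.exists_cau hx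
  obtain ⟨uu, huu, huun⟩ := exists_pcI hy hu.lim
  have hW := rel_nul p hk hlam huun h4 h3 hrel
  have hWE : ∀ n, opP p P (l n) + opP p Q (uu n) + fa - C (en n) ∈ PI E := fun n =>
    sub_mem (add_mem (add_mem (opP_mem p P (hl.mem n)) (opP_mem p Q (huu.mem n))) hfa)
      (C_mem_PI (hen.mem n))
  -- the sequences
  set F := bfrob p hk with hF
  set Y : ℕ → BSeq hk := fun i => jseq hk hy huu i with hY
  set L : ℕ → BSeq hk := fun i => jseq hk hy hl i with hL
  set c : ℕ → BSeq hk := fun i => cst hk ((hasseDeriv (i - 1) e).eval y) with hc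
  set B : ℕ → BSeq hk := fun i => L i - c i with hB
  set E' : ℕ → BSeq hk := fun j => if j = 0 then -(jets p F Q Y 0 + jets p F P B 0)
    else cst hk ((hasseDeriv j fa).eval y) + jets p F P c j with hE'
  -- `y# = S(F) u`
  have hSpc : PC v E y fun n => opP p S (uu n) := by
    refine pc_of_nul (w := opv p S u) (fun n => opP_mem p S (huu.mem n)) ?_
    refine (nul_opv p hk S huun).congr fun n => ?_
    rw [eval_opP, opv_sub]
  have hZ : ∀ j, jets p F S Y j = jseq hk hy hSpc j := by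
    intro j
    apply Subtype.ext
    funext n
    exact coe_jets_jseq p hy huu S j n
  have hZ0 : jets p F S Y 0 ∉ BBs p hk (cadj v E y) := by
    rintro ⟨N, a', ha', h5⟩
    have h6 : v.Ge 0 (opv p S u ^ p ^ N - a') := by
      refine Nul.const_iff.1 ((h5.add (nul_pow (nul_opv p hk S huun) (p ^ N)
        (pow_ne_zero _ hp.out.ne_zero))).congr fun n => ?_)
      rw [hZ, coe_jseq, hasseDeriv_zero', eval_opP, opv_sub, sub_pow_char_pow]
      ring
    obtain ⟨S', hS', hS'u⟩ := exists_opv_pow (Ω := Ω) p hS N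
    obtain ⟨a₀, ha₀, h7⟩ := sat_perfE p hk hy hE hS' hu.lim (neg_mem ha') (by
      intro ε hε
      refine ⟨0, zero_mem _, ?_⟩
      rw [hS'u, sub_zero, ← sub_eq_add_neg]
      exact h6.mono (by linarith))
    exact hU a₀ ha₀ h7
  refine GSys.zero (V := BSeq hk) (p := p) (gap := bgap) (F := F)
    (BB := BBs p hk (cadj v E y)) (n := 0) (A := S) (P₁ := Q) (P₂ := P) (Y := Y)
    (Z := fun j => jets p F S Y j) (B := B) (X := fun _ => 0) (E := E') ?_
  refine ⟨fgap_bseq p, fsub_bbs p _, hS, fun j => by rw [sub_self]; exact gap_bseq.zero,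
    fun i => ?_, jseq_bdd hy huu, ?_, hZ0, ⟨0, fun j _ R hR => ?_⟩, fun j _ _ _ => zero_mem _,
    fun j => ?_, ?_, fun j hj => ?_⟩
  · -- (BETA)
    refine bgap_eq_zero.2 ?_
    have hT : ∀ n, derivative (l n) - e - opP p S (uu n) ^ p ∈ PI E := fun n =>
      sub_mem (sub_mem (by rw [← hasseDeriv_one]; exact hasse_mem_PI (hl.mem n) 1) he)
        (pow_mem (opP_mem p S (huu.mem n)) _)
    have hTn : Nul v fun n => (derivative (l n) - e - opP p S (uu n) ^ p).eval y := by
      refine (hd.add (nul_pow (nul_opv p hk S huun) p hp.out.ne_zero)).congr fun n => ?_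
      rw [eval_sub, eval_sub, eval_pow, eval_opP, opv_sub, sub_pow_char]
      ring
    refine (nul_hasse hy hT hTn (p * i)).congr fun n => ?_
    rw [zero_add, pow_one, Function.iterate_one]
    have e1 : (hasseDeriv (p * i) (derivative (l n))) = hasseDeriv (1 + p * i) (l n) := by
      have h5 := congrArg (fun L => L (l n)) (hasseDeriv_comp (R := Ω) (p * i) 1)
      simp only [LinearMap.comp_apply, LinearMap.smul_apply] at h5
      rw [hasseDeriv_one] at h5
      rw [h5, add_comm 1 (p * i), show (p * i + 1).choose (p * i) = p * i + 1 by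
        rw [Nat.choose_symm_add, Nat.choose_one_right], ← Nat.cast_smul_eq_nsmul Ω, Nat.cast_add,
        Nat.cast_mul, CharP.cast_eq_zero Ω p, zero_mul, zero_add, Nat.cast_one, one_smul]
    rw [map_sub, map_sub, e1, hasse_pow_p, eval_sub, eval_sub, eval_pow]
    have e2 : ((F (jets p F S Y i) : BSeq hk) : ℕ → Ω) n =
        (hasseDeriv i (opP p S (uu n))).eval y ^ p := by
      rw [hF, coe_bfrob, ← hF, hZ, coe_jseq]
    have e3 : ((B (1 + p * i) : BSeq hk) : ℕ → Ω) n =
        (hasseDeriv (1 + p * i) (l n)).eval y - (hasseDeriv (p * i) e).eval y := by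
      show ((L (1 + p * i) : BSeq hk) : ℕ → Ω) n - ((c (1 + p * i) : BSeq hk) : ℕ → Ω) n = _
      simp only [hL, hc]
      rw [coe_jseq, Nat.add_sub_cancel_left]
      rfl
    show _ = ((B (1 + p * i) : BSeq hk) : ℕ → Ω) n - ((F (jets p F S Y i) : BSeq hk) : ℕ → Ω) n
    rw [e2, e3]
  · obtain ⟨C, hC⟩ := jseq_bdd (hk := hk) hy hSpc
    exact ⟨C, fun j => by rw [hZ]; exact hC j⟩
  · rw [gap_bseq.zero]
    exact (gap_bseq.nonneg _).trans (hR j le_rfl)
  · -- the relation
    rcases Nat.eq_zero_or_pos j with rfl | hj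
    · simp only [hE', if_true]
      rw [add_neg_cancel, sub_zero]
      exact gap_bseq.zero
    · have hj0 : j ≠ 0 := by omega
      refine bgap_eq_zero.2 ?_
      refine ((nul_hasse hy hWE hW j).neg).congr fun n => ?_
      simp only [hE', if_neg hj0, hB]
      rw [jets_sub, map_sub, map_add, map_add, hasseDeriv_C _ _ hj, sub_zero, eval_add, eval_add]
      have e1 := coe_jets_jseq (hk := hk) p hy huu Q j n
      have e2 := coe_jets_jseq (hk := hk) p hy hl P j n
      show _ = (0 : Ω) - (((jets p F Q Y j : BSeq hk) : ℕ → Ω) n +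
        (((jets p F P L j : BSeq hk) : ℕ → Ω) n - ((jets p F P c j : BSeq hk) : ℕ → Ω) n) +
        ((hasseDeriv j fa).eval y + ((jets p F P c j : BSeq hk) : ℕ → Ω) n))
      rw [hF, hY, hL, e1, e2]
      ring
  · -- the jets of `e` vanish for large orders
    refine ⟨fa.natDegree + 1 + (e.natDegree + 2) * p ^ P.natDegree, fun j hj => ?_⟩
    have hpd : 1 ≤ p ^ P.natDegree := Nat.pow_pos hp.out.pos
    have hj0 : j ≠ 0 := by omega
    have h5 : E' j = 0 := by
      simp only [hE', if_neg hj0]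
      have h6 : cst hk ((hasseDeriv j fa).eval y) = 0 := by
        rw [hasseDeriv_eq_zero_of_lt_natDegree _ _ (by omega), eval_zero]
        rfl
      have h7 : jets p F P c j = 0 := by
        unfold jets
        refine Finset.sum_eq_zero fun b hb => ?_
        split_ifs with h8
        · have h9 : c (j / p ^ b) = 0 := by
            have h10 : p ^ b ≤ p ^ P.natDegree :=
              Nat.pow_le_pow_right hp.out.pos (le_natDegree_of_mem_supp b hb)
            have h11 : e.natDegree + 2 ≤ j / p ^ b := by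
              rw [Nat.le_div_iff_mul_le (Nat.pow_pos hp.out.pos)]
              have : (e.natDegree + 2) * p ^ b ≤ (e.natDegree + 2) * p ^ P.natDegree :=
                Nat.mul_le_mul_left _ h10
              omega
            simp only [hc]
            rw [hasseDeriv_eq_zero_of_lt_natDegree _ _ (by omega), eval_zero]
            rfl
          rw [h9, iterate_map_zero, smul_zero]
        · rfl
      rw [h6, h7, add_zero]
    rw [h5]
    exact gap_bseq.zero
  · have hj0 : j ≠ 0 := by omega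
    simp only [hE', if_neg hj0]
    have hfs := fsub_bbs (hk := hk) p (cadj v E y)
    refine add_mem (cst_mem_BBs p (hev (hasse_mem_PI hfa j))) ?_
    unfold jets
    refine sum_mem fun b _ => ?_
    split_ifs
    · exact hfs.smul _ _ (hfs.iter b (cst_mem_BBs p (hev (hasse_mem_PI he _))))
    · exact zero_mem _

/-- **Exhaustion, the key.** `x = P(F) z + b` a limit of the perfect field `E`, `P ≠ 0`, `b ∈ B`,
`z` a limit of `B`, `B = E⟨y⟩⟨u⟩`: then `z` is in `B + L(E⟨y⟩)`. -/
theorem exh_key [IsAlgClosed k] (hk : Ctx0 k v) (hE : ∀ a ∈ E, ∃ b ∈ E, b ^ p = a)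
    (hy : TL v E y 0) (hu : TL v (cadj v E y) u 0)
    (hz : Lim v (cadj v (cadj v E y) u) 0 z) {x : Ω} (hx : Lim v E 0 x) {P : k[X]} (hP : P ≠ 0)
    {b : Ω} (hb : b ∈ cadj v (cadj v E y) u) (hrel : v.Ge 0 (x - (opv p P z + b))) :
    ∃ b' ∈ cadj v (cadj v E y) u, Lim v (cadj v E y) 0 (z - b') := by
  classical
  have : Fact (Ctx0 k v) := ⟨hk⟩
  have : CharP k p := (Algebra.charP_iff k Ω p).2 inferInstance
  have hev : ∀ {f : Polynomial Ω}, f ∈ PI E → f.eval y ∈ cadj v E y := fun hf =>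
    eval_mem (PI_mono (le_cadj v E y) hf) (self_mem_cadj v E y)
  have hxA : Lim v (cadj v E y) 0 x := Lim.mono hx (le_cadj v E y)
  have hex : ∃ m, ∃ b₀ ∈ cadj v (cadj v E y) u, Lim v (cadj v E y) 0 (z ^ p ^ m - b₀) :=
    ⟨_, exists_lim_pow p hk hu hz hxA hP hb hrel⟩
  set m := Nat.find hex with hm
  obtain ⟨b₀, hb₀, hl₀⟩ := Nat.find_spec hex
  have hmt : m ≤ P.natTrailingDegree := Nat.find_min' hex
    (exists_lim_pow p hk hu hz hxA hP hb hrel)
  rcases Nat.eq_zero_or_pos m with h0 | hm1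
  · rw [← hm, h0, pow_zero, pow_one] at hl₀
    exact ⟨b₀, hb₀, hl₀⟩
  exfalso
  have hmin : ∀ b' ∈ cadj v (cadj v E y) u, ¬ Lim v (cadj v E y) 0 (z ^ p ^ (m - 1) - b') :=
    fun b' hb' h1 => Nat.find_min hex (m := m - 1) (by omega) ⟨b', hb', h1⟩
  obtain ⟨D, α, hα, hlam⟩ := exists_normal p hk hy hu hz hm1 hb₀ hl₀
  set b₁ := ∑ j ∈ Finset.range D, (α j).eval y * (u ^ p) ^ j with hb₁
  have hb₁B : b₁ ∈ cadj v (cadj v E y) u := sum_mem fun j _ =>
    mul_mem (le_cadj v _ u (hev (hα j))) (pow_mem (pow_mem (self_mem_cadj v _ u) _) _)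
  obtain ⟨P', Q, a, ha, hP', hrel'⟩ := exists_expand p hk hu hxA hP hb hrel hmt hb₁B hlam
  obtain ⟨l, hl, hln⟩ := exists_pcI hy hlam
  obtain ⟨S, e, he, hd, hge⟩ := exists_deriv p hk hy hu hz hm1 hα D hl.mem hln
  by_cases hS : S = 0
  · -- one more root
    rw [hS, opv_zero, zero_pow hp.out.ne_zero, add_zero] at hge
    obtain ⟨b₂, hb₂, a', ha', h1⟩ := root_two p hy hE hu hα D (a := -(e.eval y))
      (neg_mem (hev he)) (by rwa [sub_neg_eq_add])
    rw [← hb₁] at h1
    refine hmin b₂ hb₂ ?_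
    have hzB : Lim v (cadj v (cadj v E y) u) 0 (z ^ p ^ (m - 1) - b₂) :=
      Lim.sub (Lim.pow_pow p hz _) (Lim.of_mem hb₂)
    refine lim_of_pow p hu hzB ?_
    have h2 := Lim.add hlam (Lim.of_mem ha')
    refine lim_of_geE h2 ?_
    rw [sub_pow_char, ← pow_mul, ← pow_succ, Nat.sub_add_cancel hm1]
    have h3 := h1.neg
    convert h3 using 1
    ring
  · by_cases hU : ∃ a₀ ∈ cadj v E y, Lim v E 0 (u - a₀)
    · obtain ⟨a₀, ha₀, h1⟩ := hU
      exact key_U p hk hy hu hl.mem hS he hd hln hx hP' ha hrel' ha₀ h1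
    · push Not at hU
      exact hP' (key_G p hk hE hy hu hl hS he hd hln hx ha hrel' hU)

end Pool.Agent.TWIV
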