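import Pool.Agent.Lib.TWIV.ExhC
import Pool.Agent.Lib.TWC.Exch
import Pool.Agent.Lib.TWC.Tow
import Pool.Agent.Lib.TWC.Tower1
import Pool.Agent.Lib.TWM.G3

/-!
# TANK W, leaf (IV), row EXH: exhaustion over a perfect field, part D

* `Chn v T n bs A`: the list `bs` is a chain of generators over `A`, with `n` more floors up to `T`;
* `euclid`: reduction of a combination of two generators to one generator;
* `exh_two`, `exh_three`: exhaustion in a tower of length three over a perfect field;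
* `chn_basis`: change of the basis of the limits of the base.
-/

set_option autoImplicit false
set_option linter.unusedSectionVars false

open Polynomial

namespace Pool.Agent.TWIV

open Pool.Agent.H15JM (RVal)
open Pool.Agent.D2 (Ctx0)
open Pool.Agent.TWM
open Pool.Agent.TWC

universe u

variable {k Ω : Type u} [Field k] [Field Ω] [Algebra k Ω] {v : RVal Ω}
  {E A T : IntermediateField k Ω} {y u z : Ω} [IsAlgClosed Ω]
  (p : ℕ) [hp : Fact p.Prime] [CharP Ω p] [CharP k p]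

/-! ### Composition of operators -/

omit [IsAlgClosed Ω] in
theorem ms_oneE (v : RVal Ω) : MS v (⊥ : AddSubgroup ℝ) (fun _ => (1 : Ω)) where
  ne := fun _ _ => one_ne_zero
  val := by
    intro g hg
    rw [AddSubgroup.mem_bot.1 hg, v.map_one]
  mul := fun _ _ _ _ => (one_mul 1).symm

omit [IsAlgClosed Ω] hp [CharP Ω p] [CharP k p] in
theorem opv_eq_ev (P : k[X]) (w : Ω) : opv p P w = ev p (fun _ => (1 : Ω)) 0 0 P w := by
  rw [ev, Polynomial.sum_def, opv]
  exact Finset.sum_congr rfl fun i _ => by rw [mul_one]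

omit [IsAlgClosed Ω] in
theorem opv_tw (v : RVal Ω) (f g : k[X]) (w : Ω) :
    opv p (tw p f g) w = opv p f (opv p g w) := by
  have h : ∀ P : k[X], IsOp p (⊥ : AddSubgroup ℝ) 0 0 P := fun P j _ => by
    rw [mul_zero, sub_zero]
    exact zero_mem _
  rw [opv_eq_ev, opv_eq_ev, opv_eq_ev, ev_tw (ms_oneE v) (h g) (h f)]

omit [CharP k p] in
theorem opv_one (w : Ω) : opv p (1 : k[X]) w = w := by
  have h := opv_mono (Ω := Ω) p (1 : k) 0 w
  rwa [map_one, pow_zero, mul_one, map_one, pow_zero, pow_one, one_mul] at h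

omit [CharP k p] in
theorem opv_psub (P Q : k[X]) (w : Ω) : opv p (P - Q) w = opv p P w - opv p Q w := by
  have h := opv_padd (Ω := Ω) p (P - Q) Q w
  rw [sub_add_cancel] at h
  rw [h, add_sub_cancel_right]

/-- The size of a polynomial. -/
noncomputable def szP (P : k[X]) : ℕ := by
  classical
  exact if P = 0 then 0 else P.natDegree + 1

theorem szP_zero_iff {P : k[X]} : szP P = 0 ↔ P = 0 := by
  unfold szP
  split_ifs with h
  · simp [h]
  · simp [h]

theorem szP_lt {P Q : k[X]} (hP : P ≠ 0) (hd : Q.natDegree ≤ P.natDegree)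
    (hc : Q.coeff P.natDegree = 0) : szP Q < szP P := by
  unfold szP
  rw [if_neg hP]
  split_ifs with h
  · omega
  · have h1 : Q.natDegree ≠ P.natDegree := fun h2 => by
      rw [← h2, coeff_natDegree] at hc
      exact h (leadingCoeff_eq_zero.1 hc)
    omega

/-- Division on the other side, over a perfect field. -/
theorem exists_ldiv [IsAlgClosed k] {P Q : k[X]} (hP : P ≠ 0) (hQ : Q ≠ 0)
    (hd : Q.natDegree ≤ P.natDegree) :
    ∃ (μ : k) (d : ℕ), szP (P - tw p Q (C μ * X ^ d)) < szP P := by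
  set d := P.natDegree - Q.natDegree with hdd
  have hlQ := leadingCoeff_ne_zero.2 hQ
  have hlP := leadingCoeff_ne_zero.2 hP
  obtain ⟨μ, hμ⟩ := IsAlgClosed.exists_pow_nat_eq (P.leadingCoeff / Q.leadingCoeff)
    (n := p ^ Q.natDegree) (Nat.pow_pos hp.out.pos)
  have hμ0 : μ ≠ 0 := by
    rintro rfl
    rw [zero_pow (pow_ne_zero _ hp.out.ne_zero)] at hμ
    exact div_ne_zero hlP hlQ hμ.symm
  have hM : (C μ * X ^ d : k[X]).natDegree = d := natDegree_C_mul_X_pow d μ hμ0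
  have hMl : (C μ * X ^ d : k[X]).leadingCoeff = μ := by
    rw [leadingCoeff, hM, coeff_C_mul_X_pow, if_pos rfl]
  refine ⟨μ, d, szP_lt hP ?_ ?_⟩
  · refine (natDegree_sub_le _ _).trans (max_le le_rfl ?_)
    refine (tw_natDegree_le _ _).trans ?_
    rw [hM]
    omega
  · have h3 := tw_ne_zero_aux (p := p) Q (C μ * X ^ d)
    rw [hM, hMl, hμ] at h3
    have h4 : Q.natDegree + d = P.natDegree := by omega
    rw [coeff_sub, ← h4, h3, h4, coeff_natDegree, mul_div_cancel₀ _ hlQ, sub_self]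

/-! ### Two generators -/

omit [IsAlgClosed Ω] in
theorem opv_mem_FrS {S : Set Ω} (P : k[X]) {w : Ω} (hw : w ∈ FrS k p S) :
    opv p P w ∈ FrS k p S :=
  sum_mem fun i _ => FrS.mul_mem p _ (FrS.frob_pow p hw i)

omit [IsAlgClosed Ω] in
theorem exists_opv {s x : Ω} (hx : x ∈ FrS k p {s}) : ∃ P : k[X], x = opv p P s := by
  obtain ⟨P, hP⟩ := (mem_FrS_iff p).1 hx
  exact ⟨P, by rw [opv_eq_ev]; exact hP⟩

/-- Translation of the second generator. -/
theorem fib_trans {w : Ω} (hF : Fib v A T u z 0 0) {f : Ω} (hf : f ∈ cadj v A u)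
    (hw : w = z + f) : Fib v A T u w 0 0 := by
  subst hw
  have hzT : z ∈ T := by rw [hF.eq]; exact self_mem_cadj v _ z
  have hfT : f ∈ T := by rw [hF.eq]; exact le_cadj v _ z hf
  refine hF.gen₂ (one_mem _) one_ne_zero hf (add_mem hzT hfT) (by rw [v.map_one, zero_add]) ?_
  rw [one_mul, sub_self]
  exact Gt.zero

/-- Reduction of a combination of two generators to one generator. -/
theorem euclid [IsAlgClosed k] (hk : Ctx0 k v) (n : ℕ) : ∀ {u z : Ω} (P Q : k[X]),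
    szP P + szP Q ≤ n → Fib v A T u z 0 0 → Lim v A 0 z →
    ∃ (u' z' : Ω) (D : k[X]), Fib v A T u' z' 0 0 ∧ Lim v A 0 z' ∧
      opv p P z + opv p Q u = opv p D z' ∧ FrS k p {u', z'} = FrS k p {u, z} := by
  classical
  have : Fact (Ctx0 k v) := ⟨hk⟩
  induction n with
  | zero =>
    intro u z P Q hn hF hz
    have hP : P = 0 := szP_zero_iff.1 (by omega)
    have hQ : Q = 0 := szP_zero_iff.1 (by omega)
    exact ⟨u, z, 0, hF, hz, by rw [hP, hQ, opv_zero, opv_zero, add_zero], rfl⟩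
  | succ n ih =>
    intro u z P Q hn hF hz
    by_cases hQ : Q = 0
    · exact ⟨u, z, P, hF, hz, by rw [hQ, opv_zero, add_zero], rfl⟩
    by_cases hP : P = 0
    · exact ⟨z, u, Q, hF.swap hz, hF.ty.lim, by rw [hP, opv_zero, zero_add], by
        rw [Set.pair_comm]⟩
    rcases le_total Q.natDegree P.natDegree with hd | hd
    · obtain ⟨μ, d, hμ⟩ := exists_ldiv p hP hQ hd
      set f : Ω := algebraMap k Ω μ * z ^ p ^ d with hf
      have hfz : f ∈ cadj v A z :=
        mul_mem ((cadj v A z).algebraMap_mem _) (pow_mem (self_mem_cadj v A z) _)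
      have hF1 : Fib v A T z (u + f) 0 0 := fib_trans (hF.swap hz) hfz rfl
      have hlf : Lim v A 0 f := Lim.smul (Lim.pow_pow p hz d) μ
      have hF2 : Fib v A T (u + f) z 0 0 := hF1.swap (Lim.add hF.ty.lim hlf)
      obtain ⟨u', z', D, h1, h2, h3, h4⟩ := ih (P - tw p Q (C μ * X ^ d)) Q (by omega) hF2 hz
      refine ⟨u', z', D, h1, h2, ?_, h4.trans ?_⟩
      · rw [← h3, opv_psub, opv_tw p v, opv_mono, opv_add]
        ring
      · have hfS : f ∈ FrS k p {z} :=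
          FrS.mul_mem p _ (FrS.pow_mem p (Set.mem_singleton z) d)
        refine le_antisymm (FrS.le p ?_) (FrS.le p ?_)
        · rintro s (rfl | rfl)
          · exact add_mem (FrS.self_mem p (by simp)) (FrS.mono p (by simp) hfS)
          · exact FrS.self_mem p (by simp)
        · rintro s (rfl | rfl)
          · have h5 : s + f - f ∈ FrS k p {s + f, z} := sub_mem (FrS.self_mem p (by simp))
              (FrS.mono p (by simp) hfS)
            rwa [add_sub_cancel_right] at h5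
          · exact FrS.self_mem p (by simp)
    · obtain ⟨μ, d, hμ⟩ := exists_ldiv p hQ hP hd
      set f : Ω := algebraMap k Ω μ * u ^ p ^ d with hf
      have hfu : f ∈ cadj v A u :=
        mul_mem ((cadj v A u).algebraMap_mem _) (pow_mem (self_mem_cadj v A u) _)
      have hF1 : Fib v A T u (z + f) 0 0 := fib_trans hF hfu rfl
      have hlf : Lim v A 0 f := Lim.smul (Lim.pow_pow p hF.ty.lim d) μ
      obtain ⟨u', z', D, h1, h2, h3, h4⟩ :=
        ih P (Q - tw p P (C μ * X ^ d)) (by omega) hF1 (Lim.add hz hlf)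
      refine ⟨u', z', D, h1, h2, ?_, h4.trans ?_⟩
      · rw [← h3, opv_psub, opv_tw p v, opv_mono, opv_add]
        ring
      · have hfS : f ∈ FrS k p {u} :=
          FrS.mul_mem p _ (FrS.pow_mem p (Set.mem_singleton u) d)
        refine le_antisymm (FrS.le p ?_) (FrS.le p ?_)
        · rintro s (rfl | rfl)
          · exact FrS.self_mem p (by simp)
          · exact add_mem (FrS.self_mem p (by simp)) (FrS.mono p (by simp) hfS)
        · rintro s (rfl | rfl)
          · exact FrS.self_mem p (by simp)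
          · have h5 : s + f - f ∈ FrS k p {u, s + f} := sub_mem (FrS.self_mem p (by simp))
              (FrS.mono p (by simp) hfS)
            rwa [add_sub_cancel_right] at h5

/-! ### Exhaustion in a tower of length three -/

/-- `x` in `T = B⟨z⟩` a limit of `B` which is not in `B + O`. -/
theorem exists_opv_top (hk : Ctx0 k v) {B : IntermediateField k Ω} (hz : TL v B z 0)
    (hT : T = cadj v B z) {x : Ω} (hx : x ∈ T) (hl : Lim v B 0 x) (hn : ¬ Nr v B 0 x) :
    ∃ P : k[X], P ≠ 0 ∧ ∃ b ∈ B, v.Ge 0 (x - (opv p P z + b)) := by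
  rw [hT] at hx
  obtain ⟨e, he, N, c, h1⟩ := germ_res hk hz p hx hl
  refine ⟨∑ i ∈ Finset.range N, C (c i) * X ^ i, ?_, e, he, ?_⟩
  · intro h0
    refine hn ⟨e, he, ?_⟩
    have h2 := opv_lin (Ω := Ω) p c N z
    rw [h0, opv_zero] at h2
    rw [← h2, add_zero] at h1
    exact h1.ge
  · rw [opv_lin, add_comm]
    exact h1.ge

/-- The limits of `A` in `A⟨u⟩`. -/
theorem exists_opv_mem (hk : Ctx0 k v) (hu : TL v A u 0) {x : Ω} (hx : x ∈ cadj v A u)
    (hl : Lim v A 0 x) : ∃ (P : k[X]), ∃ b ∈ A, v.Ge 0 (x - (opv p P u + b)) := by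
  obtain ⟨e, he, N, c, h1⟩ := germ_res hk hu p hx hl
  refine ⟨∑ i ∈ Finset.range N, C (c i) * X ^ i, e, he, ?_⟩
  rw [opv_lin, add_comm]
  exact h1.ge

/-- `x ∈ T ∩ L(E)` not in `B + O`: after a translation `z` is a limit of `A = E⟨y⟩`, and `x` is
`P(F) z + Q(F) u + a`. -/
theorem exh_top [IsAlgClosed k] (hk : Ctx0 k v) (hE : ∀ a ∈ E, ∃ b ∈ E, b ^ p = a)
    (hy : TL v E y 0) (hF : Fib v (cadj v E y) T u z 0 0) {x : Ω} (hx : x ∈ T)
    (hl : Lim v E 0 x) (hn : ¬ Nr v (cadj v (cadj v E y) u) 0 x) :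
    ∃ z₁ : Ω, Fib v (cadj v E y) T u z₁ 0 0 ∧ Lim v (cadj v E y) 0 z₁ ∧
      ∃ P Q : k[X], P ≠ 0 ∧ ∃ a ∈ cadj v E y, v.Ge 0 (x - (opv p P z₁ + opv p Q u + a)) := by
  have : Fact (Ctx0 k v) := ⟨hk⟩
  have hlA : Lim v (cadj v E y) 0 x := Lim.mono hl (le_cadj v E y)
  have hlB : Lim v (cadj v (cadj v E y) u) 0 x := Lim.mono hlA (le_cadj v _ u)
  obtain ⟨P, hP, b, hb, h1⟩ := exists_opv_top p hk hF.tz hF.eq hx hlB hn
  obtain ⟨b', hb', h2⟩ := exh_key p hk hE hy hF.ty hF.tz.lim hl hP hb h1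
  have hF1 : Fib v (cadj v E y) T u (z - b') 0 0 :=
    fib_trans hF (neg_mem hb') (sub_eq_add_neg z b')
  refine ⟨z - b', hF1, h2, P, ?_⟩
  have hb2 : b + opv p P b' ∈ cadj v (cadj v E y) u := add_mem hb (opv_mem p P hb')
  have h3 : v.Ge 0 (x - opv p P (z - b') - (b + opv p P b')) := by
    rw [opv_sub]
    convert h1 using 1
    ring
  have h4 : Lim v (cadj v E y) 0 (b + opv p P b') :=
    lim_of_geE (TWC.Lim.sub hlA (opv_lim p hk P h2)) h3
  obtain ⟨Q, a, ha, h5⟩ := exists_opv_mem p hk hF.ty hb2 h4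
  refine ⟨Q, hP, a, ha, ?_⟩
  have h6 := h3.add h5
  convert h6 using 1
  ring

/-- **Exhaustion, rank three.** `T = E⟨y⟩⟨a₂⟩⟨z⟩` over the perfect field `E`, `a₂` a limit of `E`,
and a limit `x ∈ T` of `E` which is not in `E⟨y⟩⟨a₂⟩ + O`: then `T = E⟨y⟩⟨a₂⟩⟨a₃⟩` with `a₃` a limit
of `E`. -/
theorem exh_three [IsAlgClosed k] (hk : Ctx0 k v) (hE : ∀ a ∈ E, ∃ b ∈ E, b ^ p = a)
    (hy : TL v E y 0) {a₂ : Ω} (hF : Fib v (cadj v E y) T a₂ z 0 0) (ha₂ : Lim v E 0 a₂) {x : Ω}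
    (hx : x ∈ T) (hl : Lim v E 0 x) (hn : ¬ Nr v (cadj v (cadj v E y) a₂) 0 x) :
    ∃ a₃ : Ω, Fib v (cadj v E y) T a₂ a₃ 0 0 ∧ Lim v E 0 a₃ := by
  have : Fact (Ctx0 k v) := ⟨hk⟩
  obtain ⟨z₁, hF1, hz₁, P, Q, hP, a, ha, h1⟩ := exh_top p hk hE hy hF hx hl hn
  have h2 : Lim v E 0 (opv p P z₁ + a) := by
    refine lim_of_geE (TWC.Lim.sub hl (opv_lim p hk Q ha₂)) ?_
    convert h1 using 1
    ring
  obtain ⟨a', ha', h3⟩ := sat_perfE p hk hy hE hP hz₁ ha h2
  exact ⟨z₁ - a', fib_trans hF1 (neg_mem (le_cadj v _ _ ha')) (sub_eq_add_neg z₁ a'), h3⟩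

/-- **Exhaustion, rank two.** `T = E⟨y⟩⟨u⟩⟨z⟩` over the perfect field `E`, and a limit `x ∈ T` of
`E` which is not in `E⟨y⟩ + O`: then `T = E⟨y⟩⟨a₂⟩⟨z'⟩` with `a₂` a limit of `E`. -/
theorem exh_two [IsAlgClosed k] (hk : Ctx0 k v) (hE : ∀ a ∈ E, ∃ b ∈ E, b ^ p = a)
    (hy : TL v E y 0) (hF : Fib v (cadj v E y) T u z 0 0) {x : Ω}
    (hx : x ∈ T) (hl : Lim v E 0 x) (hn : ¬ Nr v (cadj v E y) 0 x) :
    ∃ a₂ z' : Ω, Fib v (cadj v E y) T a₂ z' 0 0 ∧ Lim v E 0 a₂ := by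
  have : Fact (Ctx0 k v) := ⟨hk⟩
  have hlA : Lim v (cadj v E y) 0 x := Lim.mono hl (le_cadj v E y)
  by_cases hxB : Nr v (cadj v (cadj v E y) u) 0 x
  · obtain ⟨b, hb, h1⟩ := hxB
    have hbA : Lim v (cadj v E y) 0 b := lim_of_geE hlA h1
    have hbn : ¬ Nr v (cadj v E y) 0 b := by
      rintro ⟨a, ha, h2⟩
      refine hn ⟨a, ha, ?_⟩
      rw [show x - a = (x - b) + (b - a) by ring]
      exact h1.add h2
    obtain ⟨Q, hQ, a, ha, h2⟩ := exists_opv_top p hk hF.ty rfl hb hbA hbn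
    have h3 : Lim v E 0 (opv p Q u + a) := lim_of_geE (lim_of_geE hl h1) h2
    obtain ⟨a', ha', h4⟩ := sat_perfE p hk hy hE hQ hF.ty.lim ha h3
    exact ⟨u - a', z, fib_sub hF ha', h4⟩
  · obtain ⟨z₁, hF1, hz₁, P, Q, hP, a, ha, h1⟩ := exh_top p hk hE hy hF hx hl hxB
    obtain ⟨u', z', D, hF2, hz', h2, -⟩ := euclid p hk _ P Q le_rfl hF1 hz₁
    have hD : D ≠ 0 := by
      rintro rfl
      rw [opv_zero] at h2
      refine opv_far p hk hF1.tz hP (a := -(opv p Q u))
        (neg_mem (opv_mem p Q (self_mem_cadj v _ u))) ?_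
      rw [sub_neg_eq_add, h2]
      exact RVal.Ge.zero
    rw [h2] at h1
    obtain ⟨a', ha', h4⟩ := sat_perfE p hk hy hE hD hz' ha (lim_of_geE hl h1)
    exact ⟨z' - a', u', fib_sub (hF2.swap hz') ha', h4⟩

end Pool.Agent.TWIV
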