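import Pool.Agent.Lib.TWC.MonExit
import Pool.Agent.Lib.TWS.Emb

/-!
# TANK W, class (IV): the exit in a larger field

`Ω` complete, `φ : Ω → H` isometric (`H` the field of the Hahn series), the closure of `K₀` is a
tower over a field of monomials of `H`: `hrone_of_mon_emb`. If `Ω` is not complete:
`hrone_of_monc`.
-/

set_option autoImplicit false

open Polynomial

namespace Pool.Agent.TWIV

open Pool.Agent.H15JM (RVal)
open Pool.Agent.LU1 (adj)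
open Pool.Agent.D2 (Ctx0)
open Pool.Agent.D2P (clI mem_clI mem_adj_self)
open Pool.Agent.TWM
open Pool.Agent.TWS (VG TowR PM IsoE HF hv)
open Pool.Agent.TW (Ctx Full BD HRone LU)
open Pool.Agent.TWC (exists_gen_tow full_of_mem rat_mul_of_ctx towR_le)

universe u

section

variable {k Ω H : Type u} [Field k] [Field Ω] [Algebra k Ω] [Field H] [Algebra k H]
  {v : RVal Ω} {w : RVal H} {φ : Ω →ₐ[k] H} {K₀ : IntermediateField k Ω} {G : AddSubgroup ℝ}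
  {M : ℝ → H}

/-- The closure of `K₀` is a tower over the monomials of a larger field. -/
theorem exists_gen_emb (p : ℕ) [Fact p.Prime] [CharP k p] [CharP Ω p] [CharP H p] [IsAlgClosed k]
    [IsAlgClosed Ω] [IsAlgClosed H] (h : Ctx k v 1) (hc : CompleteV v) (hw : Ctx0 k w)
    (hcw : CompleteV w) (hI : IsoE v w φ) {m : ℕ} (hK₀ : K₀.FG) (hBD : BD p v K₀)
    (hM : MS w G M) {g₀ : ℝ} (hg₀ : g₀ ∈ G) (hg0 : g₀ ≠ 0)
    (hT : TowR w (m + 1) (PM w (⊥ : IntermediateField k H) G M) (clI w (K₀.map φ))) :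
    ∃ (F₂ : IntermediateField k Ω) (x y : Ω), x ∈ F₂ ∧ x ≠ 0 ∧ v x ≠ 0 ∧ F₂.FG ∧
      Algebra.trdeg k F₂ = (m + 1 : ℕ) ∧ clI v K₀ = clI v (adj F₂ y) := by
  have hmem : ∀ g ∈ G, ∃ x : Ω, x ≠ 0 ∧ φ x = M g ∧ v x = g := by
    intro g hg
    have h1 : M g ∈ clI w (K₀.map φ) := towR_le hT (TWS.PM.mon hg)
    rw [hI.clI_map hc] at h1
    obtain ⟨x, -, hx⟩ := h1
    have hx' : φ x = M g := hx
    have hx0 : x ≠ 0 := by
      rintro rfl
      rw [map_zero] at hx'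
      exact hM.ne g hg hx'.symm
    refine ⟨x, hx0, hx', ?_⟩
    rw [← hI.val x hx0, hx', hM.val g hg]
  have hG : ∀ a ∈ G, ∀ b ∈ G, b ≠ 0 → ∃ q : ℚ, a = q * b := by
    intro a ha b hb hb0
    obtain ⟨x, hx0, -, hx⟩ := hmem a ha
    obtain ⟨y, hy0, -, hy⟩ := hmem b hb
    obtain ⟨q, hq⟩ := rat_mul_of_ctx h hy0 (by rw [hy]; exact hb0) hx0
    rw [hx, hy] at hq
    exact ⟨q, hq⟩
  obtain ⟨g, F₂, y, hg, hgn, hgF, hF, hFt, hcl⟩ :=
    exists_gen_tow hw hcw (TWM.Dense.fg_map hK₀) (hI.bd_iff.2 hBD) hM hG hg₀ hg0 hT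
  rw [hI.clI_map hc] at hcl
  have hle : adj F₂ y ≤ (clI v K₀).map φ := by
    rw [hcl]
    exact TWM.le_clI _
  obtain ⟨F, hFfg, hFF⟩ := TWM.Dense.of_fg hF fun z hz => by
    obtain ⟨a, -, ha⟩ := hle ((mem_adj_self F₂ y).2 hz)
    exact ⟨a, ha⟩
  obtain ⟨y₀, -, hy⟩ := hle (mem_adj_self F₂ y).1
  obtain ⟨x, hx0, hx, hxv⟩ := hmem g hg
  subst hFF
  have hy' : φ y₀ = y := hy
  subst hy'
  refine ⟨F, x, y₀, ?_, hx0, by rw [hxv]; exact hgn, hFfg, ?_, ?_⟩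
  · obtain ⟨a, ha, hax⟩ := hgF
    have h1 : φ a = φ x := by rw [hx]; exact hax
    rw [← φ.injective h1]
    exact ha
  · rw [← TWM.Dense.trdeg_map F φ, hFt]
    congr 1
    omega
  · rw [← TWM.Dense.adj_map, hI.clI_map hc] at hcl
    exact TWM.Dense.map_inj hcl

/-- **The exit**, `Ω` complete, the monomials in a larger field. -/
theorem hrone_of_mon_emb (p : ℕ) [Fact p.Prime] [CharP k p] [CharP Ω p] [CharP H p]
    [IsAlgClosed k] [IsAlgClosed Ω] [IsAlgClosed H] (h : Ctx k v 1) (hc : CompleteV v)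
    (hw : Ctx0 k w) (hcw : CompleteV w) (hI : IsoE v w φ) {m : ℕ} (hm : m ≤ 2) (hK₀ : K₀.FG)
    (hfull : Full v K₀) (htr : Algebra.trdeg k K₀ = (m + 2 : ℕ)) (hBD : BD p v K₀)
    (hM : MS w G M) {g₀ : ℝ} (hg₀ : g₀ ∈ G) (hg0 : g₀ ≠ 0)
    (hT : TowR w (m + 1) (PM w (⊥ : IntermediateField k H) G M) (clI w (K₀.map φ))) :
    HRone v K₀ := by
  obtain ⟨F₂, x, y, hx, hx0, hxv, hF, hFt, hcl⟩ :=
    exists_gen_emb p h hc hw hcw hI hK₀ hBD hM hg₀ hg0 hT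
  have hFf : Full v F₂ := full_of_mem h hx hx0 hxv
  refine TWJ.exitg p h hc (D := m) ?_ hK₀ hfull (by rw [htr]; congr 1; omega) hBD hF hFf
    (by rw [hFt]; congr 1; omega) hcl
  intro K hK hKf htK hBDK
  exact TWJ.lu_bd_two p h (TWJ.stepAll p k 1) (by omega) hK hKf htK hBDK

/-- The closure of `E` in the completion is a tower over a field of monomials of a larger complete
field. -/
def MonC (v : RVal Ω) (m : ℕ) (E : IntermediateField k Ω) : Prop :=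
  ∃ (Ω' : Type u) (_ : Field Ω') (_ : Algebra k Ω') (ι : Ω →ₐ[k] Ω') (v' : RVal Ω')
    (_ : IsAlgClosed Ω') (H : Type u) (_ : Field H) (_ : Algebra k H) (_ : IsAlgClosed H)
    (φ : Ω' →ₐ[k] H) (w : RVal H), CompleteV v' ∧ Dense v v' ι ∧ Ctx0 k w ∧ CompleteV w ∧
      IsoE v' w φ ∧ ∃ (G : AddSubgroup ℝ) (M : ℝ → H), MS w G M ∧ (∃ g ∈ G, g ≠ 0) ∧
        TowR w (m + 1) (PM w (⊥ : IntermediateField k H) G M)
          (clI w ((E.map ι).map φ))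

/-- **The exit.** -/
theorem hrone_of_monc (p : ℕ) [Fact p.Prime] [CharP k p] [CharP Ω p] [IsAlgClosed k]
    [IsAlgClosed Ω] (h : Ctx k v 1) {m : ℕ} (hm : m ≤ 2) (hK₀ : K₀.FG) (hfull : Full v K₀)
    (htr : Algebra.trdeg k K₀ = (m + 2 : ℕ)) (hBD : BD p v K₀) (hM : MonC v m K₀) :
    HRone v K₀ := by
  obtain ⟨Ω', iF, iA, ι, v', iC, H, jF, jA, jC, φ, w, h1, h2, h3, h4, h5, G, M, h6, ⟨g, hg, hg0⟩,
    h7⟩ := hM
  have : CharP Ω' p := Dense.charP ι p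
  have : CharP H p := charP_of_injective_algebraMap (algebraMap k H).injective p
  rw [← Dense.hrone_iff h2]
  exact hrone_of_mon_emb p (h2.ctx h) h1 h3 h4 h5 hm (Dense.fg_map hK₀)
    ((Dense.full_iff h2).2 hfull) (by rw [Dense.trdeg_map]; exact htr)
    ((Dense.bd_iff h2).2 hBD) h6 hg hg0 h7

end

end Pool.Agent.TWIV
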