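import Mathlib

/-!
# TANK W, leaf (IV), row A7.f: submodules of finitely generated modules over `k{F}`

* `FSp F x`: the `k{F}`-span of `x`; `FSpL F l`: of a list;
* `peel`: a submodule of `V' + k{F} x` is generated, modulo `V'`, by one element;
* `sub_fg`: a submodule of `V₀ + k{F} x_1 + .. + k{F} x_n` is generated, modulo its intersection
  with `V₀`, by `n` elements.
-/

set_option autoImplicit false

namespace Pool.Agent.TWIV

variable {k V : Type*} [Field k] [AddCommGroup V] [Module k V] {p : ℕ} {F : V →+ V}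
  {W V₀ V' : Submodule k V} {x w₀ : V}

/-- The `k{F}`-span of `x`. -/
def FSp (k : Type*) {V : Type*} [Field k] [AddCommGroup V] [Module k V] (F : V →+ V) (x : V) :
    Submodule k V := Submodule.span k (Set.range fun a : ℕ => F^[a] x)

/-- The `k{F}`-span of a list. -/
def FSpL (k : Type*) {V : Type*} [Field k] [AddCommGroup V] [Module k V] (F : V →+ V) :
    List V → Submodule k V
  | [] => ⊥
  | x :: l => FSp k F x ⊔ FSpL k F l

theorem FSp_mem (a : ℕ) : F^[a] x ∈ FSp k F x := Submodule.subset_span ⟨a, rfl⟩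

theorem FSp_self : x ∈ FSp k F x := FSp_mem 0

theorem FSp_le (hW : ∀ w ∈ W, F w ∈ W) (hx : x ∈ W) : FSp k F x ≤ W := by
  refine Submodule.span_le.2 ?_
  rintro _ ⟨a, rfl⟩
  change F^[a] x ∈ W
  induction a with
  | zero => exact hx
  | succ a ih => rw [Function.iterate_succ_apply']; exact hW _ ih

theorem FSp_stable (hF : ∀ (c : k) (y : V), F (c • y) = c ^ p • F y) :
    ∀ w ∈ FSp k F x, F w ∈ FSp k F x := by
  intro w hw
  induction hw using Submodule.span_induction with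
  | mem y hy =>
    obtain ⟨a, rfl⟩ := hy
    change F (F^[a] x) ∈ _
    rw [← Function.iterate_succ_apply' (⇑F)]
    exact FSp_mem (a + 1)
  | zero => rw [map_zero]; exact zero_mem _
  | add y z _ _ hy hz => rw [map_add]; exact add_mem hy hz
  | smul c y _ hy => rw [hF]; exact Submodule.smul_mem _ _ hy

theorem FSpL_stable (hF : ∀ (c : k) (y : V), F (c • y) = c ^ p • F y) (l : List V) :
    ∀ w ∈ FSpL k F l, F w ∈ FSpL k F l := by
  induction l with
  | nil =>
    intro w hw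
    rw [FSpL, Submodule.mem_bot] at hw
    rw [hw, map_zero]
    exact zero_mem _
  | cons y l ih =>
    intro w hw
    rw [FSpL] at hw ⊢
    obtain ⟨u, hu, t, ht, rfl⟩ := Submodule.mem_sup.1 hw
    rw [map_add]
    exact add_mem (Submodule.mem_sup_left (FSp_stable hF u hu)) (Submodule.mem_sup_right (ih t ht))

theorem FSpL_le (hW : ∀ w ∈ W, F w ∈ W) {l : List V} (hl : ∀ y ∈ l, y ∈ W) : FSpL k F l ≤ W := by
  induction l with
  | nil => exact bot_le
  | cons y l ih =>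
    rw [FSpL]
    exact sup_le (FSp_le hW (hl y List.mem_cons_self))
      (ih fun z hz => hl z (List.mem_cons_of_mem y hz))

theorem sup_stable {U : Submodule k V} (hV : ∀ w ∈ V', F w ∈ V') (hU : ∀ w ∈ U, F w ∈ U) :
    ∀ w ∈ V' ⊔ U, F w ∈ V' ⊔ U := by
  intro w hw
  obtain ⟨u, hu, t, ht, rfl⟩ := Submodule.mem_sup.1 hw
  rw [map_add]
  exact add_mem (Submodule.mem_sup_left (hV u hu)) (Submodule.mem_sup_right (hU t ht))

/-- The elements of degree `< N`. -/
def Ub (F : V →+ V) (V' : Submodule k V) (x : V) : ℕ → Submodule k V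
  | 0 => V'
  | N + 1 => Ub F V' x N ⊔ Submodule.span k {F^[N] x}

theorem mem_Ub {N : ℕ} {w : V} :
    w ∈ Ub F V' x (N + 1) ↔ ∃ u ∈ Ub F V' x N, ∃ c : k, w = u + c • F^[N] x := by
  rw [Ub, Submodule.mem_sup]
  constructor
  · rintro ⟨u, hu, t, ht, rfl⟩
    obtain ⟨c, rfl⟩ := Submodule.mem_span_singleton.1 ht
    exact ⟨u, hu, c, rfl⟩
  · rintro ⟨u, hu, c, rfl⟩
    exact ⟨u, hu, _, Submodule.mem_span_singleton.2 ⟨c, rfl⟩, rfl⟩

theorem Ub_mono {N M : ℕ} (h : N ≤ M) : Ub F V' x N ≤ Ub F V' x M := by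
  induction M, h using Nat.le_induction with
  | base => exact le_rfl
  | succ M _ ih => exact ih.trans (by rw [Ub]; exact le_sup_left)

theorem Ub_stable (hF : ∀ (c : k) (y : V), F (c • y) = c ^ p • F y) (hV : ∀ w ∈ V', F w ∈ V')
    (N : ℕ) : ∀ w ∈ Ub F V' x N, F w ∈ Ub F V' x (N + 1) := by
  induction N with
  | zero => intro w hw; exact Ub_mono (Nat.zero_le 1) (hV w hw)
  | succ N ih =>
    intro w hw
    obtain ⟨u, hu, c, rfl⟩ := mem_Ub.1 hw
    rw [map_add, hF, ← Function.iterate_succ_apply' (⇑F)]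
    exact mem_Ub.2 ⟨F u, ih u hu, c ^ p, rfl⟩

theorem exists_Ub {w : V} (hw : w ∈ V' ⊔ FSp k F x) : ∃ N, w ∈ Ub F V' x N := by
  obtain ⟨u, hu, t, ht, rfl⟩ := Submodule.mem_sup.1 hw
  have h1 : ∃ N, t ∈ Ub F V' x N := by
    clear hw
    induction ht using Submodule.span_induction with
    | mem y hy =>
      obtain ⟨a, rfl⟩ := hy
      exact ⟨a + 1, mem_Ub.2 ⟨0, zero_mem _, 1, by rw [zero_add, one_smul]⟩⟩
    | zero => exact ⟨0, zero_mem _⟩
    | add y z _ _ hy hz =>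
      obtain ⟨N, hN⟩ := hy
      obtain ⟨M, hM⟩ := hz
      exact ⟨max N M, add_mem (Ub_mono (le_max_left _ _) hN) (Ub_mono (le_max_right _ _) hM)⟩
    | smul c y _ hy =>
      obtain ⟨N, hN⟩ := hy
      exact ⟨N, Submodule.smul_mem _ c hN⟩
  obtain ⟨N, hN⟩ := h1
  exact ⟨N, add_mem (Ub_mono (Nat.zero_le N) hu) hN⟩

/-- **One generator.** -/
theorem peel (hF : ∀ (c : k) (y : V), F (c • y) = c ^ p • F y) (hV : ∀ w ∈ V', F w ∈ V')
    (hW : ∀ w ∈ W, F w ∈ W) (h : W ≤ V' ⊔ FSp k F x) : ∃ w₀ ∈ W, W ≤ V' ⊔ FSp k F w₀ := by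
  classical
  by_cases hex : ∃ N, ∃ w ∈ W, w ∈ Ub F V' x N ∧ w ∉ V'
  swap
  · refine ⟨0, zero_mem W, fun w hw => Submodule.mem_sup_left ?_⟩
    by_contra hcon
    obtain ⟨N, hN⟩ := exists_Ub (h hw)
    exact hex ⟨N, w, hw, hN, hcon⟩
  obtain ⟨w₀, hw₀, hd, hd'⟩ := Nat.find_spec hex
  have hmin : ∀ N, N < Nat.find hex → ∀ w ∈ W, w ∈ Ub F V' x N → w ∈ V' := by
    intro N hN w hw hwN
    by_contra hcon
    exact Nat.find_min hex hN ⟨w, hw, hwN, hcon⟩
  generalize hdd : Nat.find hex = d at *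
  obtain _ | e := d
  · exact absurd hd hd'
  obtain ⟨u₀, hu₀, c₀, hc₀⟩ := mem_Ub.1 hd
  have hc0 : c₀ ≠ 0 := by
    rintro rfl
    rw [zero_smul, add_zero] at hc₀
    exact hd' (hmin e (Nat.lt_succ_self e) w₀ hw₀ (by rw [hc₀]; exact hu₀))
  have h4 : ∀ j, ∃ u ∈ Ub F V' x (e + j), F^[j] w₀ = u + c₀ ^ p ^ j • F^[e + j] x := by
    intro j
    induction j with
    | zero => exact ⟨u₀, hu₀, by rw [pow_zero, pow_one]; exact hc₀⟩
    | succ j ih =>
      obtain ⟨u, hu, h5⟩ := ih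
      refine ⟨F u, Ub_stable hF hV _ u hu, ?_⟩
      rw [Function.iterate_succ_apply', h5, map_add, hF, ← Function.iterate_succ_apply' (⇑F),
        ← pow_mul, ← pow_succ]
      rfl
  refine ⟨w₀, hw₀, ?_⟩
  have h5 : ∀ N, ∀ w ∈ W, w ∈ Ub F V' x N → w ∈ V' ⊔ FSp k F w₀ := by
    intro N
    induction N with
    | zero => exact fun w _ h => Submodule.mem_sup_left h
    | succ N ih =>
      intro w hw hwN
      rcases Nat.lt_or_ge N e with hNe | hNe
      · exact Submodule.mem_sup_left (hmin (N + 1) (by omega) w hw hwN)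
      obtain ⟨j, rfl⟩ := Nat.exists_eq_add_of_le hNe
      obtain ⟨u, hu, c, rfl⟩ := mem_Ub.1 hwN
      obtain ⟨u', hu', h6⟩ := h4 j
      have hcj : c₀ ^ p ^ j ≠ 0 := pow_ne_zero _ hc0
      have h7 : u + c • F^[e + j] x - (c / c₀ ^ p ^ j) • F^[j] w₀ =
          u - (c / c₀ ^ p ^ j) • u' := by
        rw [h6, smul_add, smul_smul, div_mul_cancel₀ _ hcj]
        abel
      have h8 : F^[j] w₀ ∈ W := by
        clear h6 h7
        induction j with
        | zero => exact hw₀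
        | succ j _ =>
          exact FSp_le hW hw₀ (FSp_mem (j + 1))
      have h9 := ih (u + c • F^[e + j] x - (c / c₀ ^ p ^ j) • F^[j] w₀)
        (sub_mem hw (Submodule.smul_mem _ _ h8))
        (by rw [h7]; exact sub_mem hu (Submodule.smul_mem _ _ hu'))
      have h10 : (c / c₀ ^ p ^ j) • F^[j] w₀ ∈ V' ⊔ FSp k F w₀ :=
        Submodule.smul_mem _ _ (Submodule.mem_sup_right (FSp_mem j))
      have h11 := add_mem h9 h10
      rwa [sub_add_cancel] at h11
  intro w hw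
  obtain ⟨N, hN⟩ := exists_Ub (h hw)
  exact h5 N w hw hN

/-- **Submodules.** -/
theorem sub_fg (hF : ∀ (c : k) (y : V), F (c • y) = c ^ p • F y) (hV₀ : ∀ w ∈ V₀, F w ∈ V₀)
    (l : List V) : ∀ W : Submodule k V, (∀ w ∈ W, F w ∈ W) → W ≤ V₀ ⊔ FSpL k F l →
      ∃ l' : List V, l'.length = l.length ∧ (∀ y ∈ l', y ∈ W) ∧
        W ≤ (W ⊓ V₀) ⊔ FSpL k F l' := by
  induction l with
  | nil =>
    intro W _ h
    refine ⟨[], rfl, by simp, ?_⟩
    rw [FSpL, sup_bot_eq] at h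
    exact (le_inf le_rfl h).trans le_sup_left
  | cons x l ih =>
    intro W hW h
    have hV' : ∀ w ∈ V₀ ⊔ FSpL k F l, F w ∈ V₀ ⊔ FSpL k F l := sup_stable hV₀ (FSpL_stable hF l)
    have h1 : W ≤ (V₀ ⊔ FSpL k F l) ⊔ FSp k F x := by
      refine h.trans ?_
      rw [FSpL, sup_comm (FSp k F x), ← sup_assoc]
    obtain ⟨w₀, hw₀, h2⟩ := peel hF hV' hW h1
    have hst : ∀ w ∈ W ⊓ (V₀ ⊔ FSpL k F l), F w ∈ W ⊓ (V₀ ⊔ FSpL k F l) :=
      fun w hw => ⟨hW w hw.1, hV' w hw.2⟩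
    obtain ⟨l', h3, h4, h5⟩ := ih (W ⊓ (V₀ ⊔ FSpL k F l)) hst inf_le_right
    refine ⟨w₀ :: l', by rw [List.length_cons, h3, List.length_cons], ?_, ?_⟩
    · intro y hy
      rcases List.mem_cons.1 hy with rfl | hy
      · exact hw₀
      · exact (h4 y hy).1
    · intro w hw
      obtain ⟨u, hu, t, ht, rfl⟩ := Submodule.mem_sup.1 (h2 hw)
      have h6 : t ∈ W := FSp_le hW hw₀ ht
      have h7 : u ∈ W := by
        have := sub_mem hw h6
        rwa [add_sub_cancel_right] at this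
      have h8 := h5 ⟨h7, hu⟩
      rw [FSpL]
      obtain ⟨a, ha, b, hb, rfl⟩ := Submodule.mem_sup.1 h8
      refine add_mem (add_mem (Submodule.mem_sup_left ⟨ha.1.1, ha.2⟩) ?_) ?_
      · exact Submodule.mem_sup_right (Submodule.mem_sup_right hb)
      · exact Submodule.mem_sup_right (Submodule.mem_sup_left ht)

end Pool.Agent.TWIV
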