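import Pool.Agent.Lib.TWM.A1

/-!
# TANK W, leaf (IV), the free lift of higher derivations, part 1: jets

* `Cg q f g`: the polynomials `f`, `g` (the jets) agree in degrees `< q`;
* `GeP v q r f`: the coefficients of degree `< q` have value `≥ r`;
* `PR D`: the polynomials with coefficients in the subalgebra `D`;
* `psi q θ c = ∑_{a < q} θ_a(c) X ^ a`; `lf q θ S f = ∑ psi(f_i) S ^ i`, the jet of `f(s)` if `S` is the
  jet of `s`;
* `lf_add`, `lf_mul`, `lf_taylor`.
-/

set_option autoImplicit false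

open Polynomial

namespace Pool.Agent.TWIV

open Pool.Agent.H15JM (RVal)
open Pool.Agent.TWM

universe u

variable {k Ω : Type u} [Field k] [Field Ω] [Algebra k Ω] {v : RVal Ω}

/-! ### Congruences -/

/-- `f` and `g` agree in degrees `< q`. -/
def Cg (q : ℕ) (f g : Polynomial Ω) : Prop := ∀ j < q, f.coeff j = g.coeff j

section Cg

variable {q : ℕ} {f g f' g' h : Polynomial Ω}

theorem Cg.refl (f : Polynomial Ω) : Cg q f f := fun _ _ => rfl

theorem Cg.symm (h1 : Cg q f g) : Cg q g f := fun j hj => (h1 j hj).symm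

theorem Cg.trans (h1 : Cg q f g) (h2 : Cg q g h) : Cg q f h := fun j hj =>
  (h1 j hj).trans (h2 j hj)

theorem Cg.add (h1 : Cg q f g) (h2 : Cg q f' g') : Cg q (f + f') (g + g') := fun j hj => by
  rw [coeff_add, coeff_add, h1 j hj, h2 j hj]

theorem Cg.sum {ι : Type*} (S : Finset ι) {F G : ι → Polynomial Ω} (h1 : ∀ i ∈ S, Cg q (F i) (G i)) :
    Cg q (∑ i ∈ S, F i) (∑ i ∈ S, G i) := fun j hj => by
  rw [finsetSum_coeff, finsetSum_coeff]
  exact Finset.sum_congr rfl fun i hi => h1 i hi j hj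

theorem Cg.mul (h1 : Cg q f g) (h2 : Cg q f' g') : Cg q (f * f') (g * g') := fun j hj => by
  rw [coeff_mul, coeff_mul]
  refine Finset.sum_congr rfl fun x hx => ?_
  have hx' : x.1 + x.2 = j := by simpa using hx
  rw [h1 x.1 (by omega), h2 x.2 (by omega)]

theorem Cg.pow (h1 : Cg q f g) (n : ℕ) : Cg q (f ^ n) (g ^ n) := by
  induction n with
  | zero => rw [pow_zero, pow_zero]; exact Cg.refl _
  | succ n ih => rw [pow_succ, pow_succ]; exact ih.mul h1

/-- Evaluation. -/
theorem Cg.eval {P Q : Polynomial (Polynomial Ω)} (h1 : ∀ i, Cg q (P.coeff i) (Q.coeff i))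
    (S : Polynomial Ω) : Cg q (P.eval S) (Q.eval S) := by
  set n := max P.natDegree Q.natDegree + 1 with hn
  have h2 : P.natDegree < n := by rw [hn]; omega
  have h3 : Q.natDegree < n := by rw [hn]; omega
  rw [eval_eq_sum_range' h2, eval_eq_sum_range' h3]
  exact Cg.sum _ fun i _ => (h1 i).mul (Cg.refl _)

end Cg

/-! ### Values of jets -/

/-- The coefficients of degree `< q` have value `≥ r`. -/
def GeP (v : RVal Ω) (q : ℕ) (r : ℝ) (f : Polynomial Ω) : Prop := ∀ j < q, v.Ge r (f.coeff j)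

section GeP

variable {q : ℕ} {f g : Polynomial Ω} {r r' : ℝ}

theorem GeP.congr (h : GeP v q r f) (h1 : Cg q f g) : GeP v q r g := fun j hj => by
  rw [← h1 j hj]; exact h j hj

theorem GeP.mono (h : GeP v q r f) (h1 : r' ≤ r) : GeP v q r' f := fun j hj => (h j hj).mono h1

theorem GeP.add (hf : GeP v q r f) (hg : GeP v q r g) : GeP v q r (f + g) := fun j hj => by
  rw [coeff_add]; exact (hf j hj).add (hg j hj)

theorem GeP.sub (hf : GeP v q r f) (hg : GeP v q r g) : GeP v q r (f - g) := fun j hj => by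
  rw [coeff_sub]; exact (hf j hj).sub (hg j hj)

theorem GeP.sum {ι : Type*} (S : Finset ι) {F : ι → Polynomial Ω} (h : ∀ i ∈ S, GeP v q r (F i)) :
    GeP v q r (∑ i ∈ S, F i) := fun j hj => by
  rw [finsetSum_coeff]
  exact RVal.Ge.sum _ _ fun i hi => h i hi j hj

theorem GeP.mul (hf : GeP v q r f) (hg : GeP v q r' g) : GeP v q (r + r') (f * g) := fun j hj => by
  rw [coeff_mul]
  refine RVal.Ge.sum _ _ fun x hx => ?_
  have hx' : x.1 + x.2 = j := by simpa using hx
  exact (hf x.1 (by omega)).mul (hg x.2 (by omega))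

theorem GeP.one : GeP v q 0 (1 : Polynomial Ω) := fun j _ => by
  rw [coeff_one]
  split_ifs
  · intro _; rw [v.map_one]
  · exact RVal.Ge.zero

theorem GeP.pow (hf : GeP v q r f) (n : ℕ) : GeP v q (n * r) (f ^ n) := by
  induction n with
  | zero => rw [pow_zero, Nat.cast_zero, zero_mul]; exact GeP.one
  | succ n ih =>
    rw [pow_succ]
    refine (ih.mul hf).mono (le_of_eq ?_)
    push_cast
    ring

/-- The coefficients of a polynomial are bounded below. -/
theorem exists_GeP (v : RVal Ω) (q : ℕ) (f : Polynomial Ω) : ∃ r : ℝ, r ≤ 0 ∧ GeP v q r f := by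
  induction q with
  | zero => exact ⟨0, le_rfl, fun j hj => absurd hj (Nat.not_lt_zero j)⟩
  | succ q ih =>
    obtain ⟨r, hr, h1⟩ := ih
    refine ⟨min r (v (f.coeff q)), (min_le_left _ _).trans hr, fun j hj => ?_⟩
    rcases Nat.lt_succ_iff_lt_or_eq.1 hj with h2 | h2
    · exact (h1 j h2).mono (min_le_left _ _)
    · rw [h2]
      exact (RVal.ge_self _).mono (min_le_right _ _)

end GeP

/-! ### Polynomials over a subalgebra -/

/-- The polynomials with coefficients in `D`. -/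
def PR (D : Subalgebra k Ω) : Subring (Polynomial Ω) where
  carrier := {f | ∀ i, f.coeff i ∈ D}
  mul_mem' := by
    intro f g hf hg i
    rw [coeff_mul]
    exact sum_mem fun x _ => mul_mem (hf _) (hg _)
  one_mem' := by
    intro i
    rw [coeff_one]
    split_ifs
    exacts [one_mem _, zero_mem _]
  add_mem' := by
    intro f g hf hg i
    rw [coeff_add]
    exact add_mem (hf i) (hg i)
  zero_mem' := by
    intro i
    rw [coeff_zero]
    exact zero_mem _
  neg_mem' := by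
    intro f hf i
    rw [coeff_neg]
    exact neg_mem (hf i)

theorem mem_PR {D : Subalgebra k Ω} {f : Polynomial Ω} : f ∈ PR D ↔ ∀ i, f.coeff i ∈ D := Iff.rfl

theorem PR_mono {D D' : Subalgebra k Ω} (h : D ≤ D') : PR D ≤ PR D' := fun _ hf i => h (hf i)

theorem C_mem_PR {D : Subalgebra k Ω} {a : Ω} (ha : a ∈ D) : Polynomial.C a ∈ PR D := fun i => by
  rw [coeff_C]
  split_ifs
  exacts [ha, zero_mem _]

theorem X_mem_PR {D : Subalgebra k Ω} : (X : Polynomial Ω) ∈ PR D := fun i => by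
  rw [coeff_X]
  split_ifs
  exacts [one_mem _, zero_mem _]

theorem taylor_mem_PR {D : Subalgebra k Ω} {f : Polynomial Ω} (hf : f ∈ PR D) {a : Ω} (ha : a ∈ D) :
    taylor a f ∈ PR D := by
  intro l
  rw [taylor_coeff, hasseDeriv_apply, eval_sum, Polynomial.sum_def]
  refine sum_mem fun i _ => ?_
  rw [eval_monomial]
  exact mul_mem (mul_mem (natCast_mem D _) (hf i)) (pow_mem ha _)

/-! ### The jet of an element, the jet of a polynomial -/

/-- The jet of `c`. -/
noncomputable def psi (q : ℕ) (θ : ℕ → Ω → Ω) (c : Ω) : Polynomial Ω :=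
  ∑ a ∈ Finset.range q, monomial a (θ a c)

theorem coeff_psi (q : ℕ) (θ : ℕ → Ω → Ω) (c : Ω) (j : ℕ) :
    (psi q θ c).coeff j = if j < q then θ j c else 0 := by
  rw [psi, finsetSum_coeff]
  simp only [coeff_monomial]
  rw [Finset.sum_ite_eq' (Finset.range q) j]
  simp only [Finset.mem_range]

/-- A system of operators of length `q` on `R`, multiplicative on `D`. -/
structure Dq (q : ℕ) (R D : Subalgebra k Ω) (θ : ℕ → Ω → Ω) : Prop where
  add : ∀ j < q, ∀ x ∈ R, ∀ y ∈ R, θ j (x + y) = θ j x + θ j y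
  zero : ∀ x ∈ R, θ 0 x = x
  one : ∀ j < q, 0 < j → θ j 1 = 0
  mul : ∀ j < q, ∀ x ∈ D, ∀ y ∈ D, θ j (x * y) = ∑ z ∈ Finset.HasAntidiagonal.antidiagonal j, θ z.1 x * θ z.2 y

/-- The coefficientwise jet. -/
noncomputable def hat (q : ℕ) (θ : ℕ → Ω → Ω) (f : Polynomial Ω) : Polynomial (Polynomial Ω) :=
  ∑ i ∈ f.support, monomial i (psi q θ (f.coeff i))

/-- The jet of `f(s)`, `S` being the jet of `s`. -/
noncomputable def lf (q : ℕ) (θ : ℕ → Ω → Ω) (S f : Polynomial Ω) : Polynomial Ω :=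
  ∑ i ∈ f.support, psi q θ (f.coeff i) * S ^ i

theorem lf_eq_eval (q : ℕ) (θ : ℕ → Ω → Ω) (S f : Polynomial Ω) :
    lf q θ S f = (hat q θ f).eval S := by
  rw [lf, hat, eval_finsetSum]
  simp only [eval_monomial]

section Dq

variable {q : ℕ} {R D : Subalgebra k Ω} {θ : ℕ → Ω → Ω}

theorem Dq.map_zero (h : Dq q R D θ) {j : ℕ} (hj : j < q) : θ j 0 = 0 := by
  have h1 := h.add j hj 0 (zero_mem R) 0 (zero_mem R)
  rw [add_zero] at h1
  exact left_eq_add.1 h1

theorem Dq.map_neg (h : Dq q R D θ) {j : ℕ} (hj : j < q) {x : Ω} (hx : x ∈ R) :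
    θ j (-x) = -θ j x := by
  have h1 := h.add j hj x hx (-x) (neg_mem hx)
  rw [add_neg_cancel, h.map_zero hj] at h1
  exact (neg_eq_of_add_eq_zero_right h1.symm).symm

theorem Dq.map_sub (h : Dq q R D θ) {j : ℕ} (hj : j < q) {x y : Ω} (hx : x ∈ R) (hy : y ∈ R) :
    θ j (x - y) = θ j x - θ j y := by
  rw [sub_eq_add_neg, h.add j hj x hx _ (neg_mem hy), h.map_neg hj hy, sub_eq_add_neg]

theorem Dq.map_sum (h : Dq q R D θ) {j : ℕ} (hj : j < q) {ι : Type*} (S : Finset ι) {x : ι → Ω}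
    (hx : ∀ i ∈ S, x i ∈ R) : θ j (∑ i ∈ S, x i) = ∑ i ∈ S, θ j (x i) := by
  classical
  induction S using Finset.induction_on with
  | empty => rw [Finset.sum_empty, Finset.sum_empty, h.map_zero hj]
  | insert i S hi ih =>
    rw [Finset.sum_insert hi, Finset.sum_insert hi,
      h.add j hj _ (hx i (Finset.mem_insert_self i S)) _
        (sum_mem fun l hl => hx l (Finset.mem_insert_of_mem hl)),
      ih fun l hl => hx l (Finset.mem_insert_of_mem hl)]

theorem Dq.psi_zero (h : Dq q R D θ) : psi q θ 0 = 0 := by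
  ext j
  rw [coeff_psi, coeff_zero]
  split_ifs with h1
  exacts [h.map_zero h1, rfl]

theorem Dq.psi_add (h : Dq q R D θ) {x y : Ω} (hx : x ∈ R) (hy : y ∈ R) :
    psi q θ (x + y) = psi q θ x + psi q θ y := by
  ext j
  rw [coeff_add, coeff_psi, coeff_psi, coeff_psi]
  split_ifs with h1
  exacts [h.add j h1 x hx y hy, (add_zero 0).symm]

theorem Dq.psi_sub (h : Dq q R D θ) {x y : Ω} (hx : x ∈ R) (hy : y ∈ R) :
    psi q θ (x - y) = psi q θ x - psi q θ y := by
  ext j
  rw [coeff_sub, coeff_psi, coeff_psi, coeff_psi]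
  split_ifs with h1
  exacts [h.map_sub h1 hx hy, (sub_zero 0).symm]

theorem Dq.psi_sum (h : Dq q R D θ) {ι : Type*} (S : Finset ι) {x : ι → Ω}
    (hx : ∀ i ∈ S, x i ∈ R) : psi q θ (∑ i ∈ S, x i) = ∑ i ∈ S, psi q θ (x i) := by
  ext j
  rw [finsetSum_coeff, coeff_psi]
  simp only [coeff_psi]
  split_ifs with h1
  · exact h.map_sum h1 S hx
  · rw [Finset.sum_const_zero]

theorem Dq.psi_one (h : Dq q R D θ) (hq : 0 < q) : psi q θ 1 = 1 := by
  ext j
  rw [coeff_psi, coeff_one]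
  rcases Nat.eq_zero_or_pos j with rfl | h1
  · rw [if_pos hq, if_pos rfl, h.zero 1 (one_mem R)]
  · rw [if_neg (by omega : ¬ j = 0)]
    split_ifs with h2
    exacts [h.one j h2 h1, rfl]

theorem Dq.psi_mul (h : Dq q R D θ) {x y : Ω} (hx : x ∈ D) (hy : y ∈ D) :
    Cg q (psi q θ (x * y)) (psi q θ x * psi q θ y) := fun j hj => by
  rw [coeff_psi, if_pos hj, h.mul j hj x hx y hy, coeff_mul]
  refine Finset.sum_congr rfl fun z hz => ?_
  have hz' : z.1 + z.2 = j := by simpa using hz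
  rw [coeff_psi, coeff_psi, if_pos (by omega), if_pos (by omega)]

theorem Dq.coeff_hat (h : Dq q R D θ) (f : Polynomial Ω) (i : ℕ) :
    (hat q θ f).coeff i = psi q θ (f.coeff i) := by
  rw [hat, finsetSum_coeff]
  simp only [coeff_monomial]
  rw [Finset.sum_ite_eq' f.support i]
  split_ifs with h1
  · rfl
  · rw [notMem_support_iff.1 h1, h.psi_zero]

theorem Dq.lf_range (h : Dq q R D θ) (S : Polynomial Ω) {f : Polynomial Ω} {n : ℕ}
    (hn : f.natDegree < n) : lf q θ S f = ∑ i ∈ Finset.range n, psi q θ (f.coeff i) * S ^ i := by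
  rw [lf]
  refine Finset.sum_subset (fun i hi => Finset.mem_range.2
    ((le_natDegree_of_mem_supp i hi).trans_lt hn)) fun i _ hi => ?_
  rw [notMem_support_iff.1 hi, h.psi_zero, zero_mul]

theorem Dq.lf_add (h : Dq q R D θ) (S : Polynomial Ω) {f g : Polynomial Ω} (hf : f ∈ PR R)
    (hg : g ∈ PR R) : lf q θ S (f + g) = lf q θ S f + lf q θ S g := by
  have h1 : hat q θ (f + g) = hat q θ f + hat q θ g := by
    refine Polynomial.ext fun i => ?_
    rw [h.coeff_hat, coeff_add, coeff_add, h.coeff_hat, h.coeff_hat, h.psi_add (hf i) (hg i)]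
  rw [lf_eq_eval, lf_eq_eval, lf_eq_eval, h1, eval_add]

theorem Dq.lf_sub (h : Dq q R D θ) (S : Polynomial Ω) {f g : Polynomial Ω} (hf : f ∈ PR R)
    (hg : g ∈ PR R) : lf q θ S (f - g) = lf q θ S f - lf q θ S g := by
  have h1 : hat q θ (f - g) = hat q θ f - hat q θ g := by
    refine Polynomial.ext fun i => ?_
    rw [h.coeff_hat, coeff_sub, coeff_sub, h.coeff_hat, h.coeff_hat, h.psi_sub (hf i) (hg i)]
  rw [lf_eq_eval, lf_eq_eval, lf_eq_eval, h1, eval_sub]

theorem Dq.lf_zero (_h : Dq q R D θ) (S : Polynomial Ω) : lf q θ S 0 = 0 := by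
  rw [lf, support_zero, Finset.sum_empty]

theorem Dq.lf_sum (h : Dq q R D θ) (S : Polynomial Ω) {ι : Type*} (T : Finset ι)
    {f : ι → Polynomial Ω} (hf : ∀ i ∈ T, f i ∈ PR R) :
    lf q θ S (∑ i ∈ T, f i) = ∑ i ∈ T, lf q θ S (f i) := by
  classical
  induction T using Finset.induction_on with
  | empty => rw [Finset.sum_empty, Finset.sum_empty, h.lf_zero]
  | insert i T hi ih =>
    rw [Finset.sum_insert hi, Finset.sum_insert hi,
      h.lf_add S (hf i (Finset.mem_insert_self i T))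
        (sum_mem fun l hl => hf l (Finset.mem_insert_of_mem hl)),
      ih fun l hl => hf l (Finset.mem_insert_of_mem hl)]

theorem Dq.lf_C (h : Dq q R D θ) (S : Polynomial Ω) (c : Ω) : lf q θ S (C c) = psi q θ c := by
  rw [h.lf_range S (n := 1) (by rw [natDegree_C]; exact one_pos), Finset.sum_range_one, coeff_C_zero,
    pow_zero, mul_one]

theorem Dq.lf_X (h : Dq q R D θ) (hq : 0 < q) (S : Polynomial Ω) : lf q θ S X = S := by
  rw [h.lf_range S (n := 2) (by rw [natDegree_X]; exact one_lt_two), Finset.sum_range_succ,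
    Finset.sum_range_one, coeff_X_zero, coeff_X_one, h.psi_zero, h.psi_one hq, zero_mul, zero_add,
    one_mul, pow_one]

theorem Dq.lf_mul (h : Dq q R D θ) (hD : D ≤ R) (S : Polynomial Ω) {f g : Polynomial Ω}
    (hf : f ∈ PR D) (hg : g ∈ PR D) : Cg q (lf q θ S (f * g)) (lf q θ S f * lf q θ S g) := by
  rw [lf_eq_eval, lf_eq_eval, lf_eq_eval, ← eval_mul]
  refine Cg.eval (fun i => ?_) S
  rw [h.coeff_hat, coeff_mul, coeff_mul,
    h.psi_sum _ fun x _ => hD (mul_mem (hf _) (hg _))]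
  refine Cg.sum _ fun x _ => ?_
  rw [h.coeff_hat, h.coeff_hat]
  exact h.psi_mul (hf _) (hg _)

theorem Dq.lf_pow (h : Dq q R D θ) (hq : 0 < q) (hD : D ≤ R) (S : Polynomial Ω) {f : Polynomial Ω}
    (hf : f ∈ PR D) (n : ℕ) : Cg q (lf q θ S (f ^ n)) (lf q θ S f ^ n) := by
  induction n with
  | zero =>
    rw [pow_zero, pow_zero, ← C_1, h.lf_C, h.psi_one hq]
    exact Cg.refl _
  | succ n ih =>
    rw [pow_succ, pow_succ]
    exact (h.lf_mul hD S (pow_mem hf n) hf).trans (ih.mul (Cg.refl _))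

/-- The Taylor formula for the jets. -/
theorem Dq.lf_taylor (h : Dq q R D θ) (hq : 0 < q) (hD : D ≤ R) (S : Polynomial Ω)
    {f : Polynomial Ω} (hf : f ∈ PR D) {σ : Ω} (hσ : σ ∈ D) :
    Cg q (lf q θ S f) (∑ i ∈ (taylor σ f).support, psi q θ ((taylor σ f).coeff i) *
      (S - psi q θ σ) ^ i) := by
  have h1 : f = ∑ i ∈ (taylor σ f).support, C ((taylor σ f).coeff i) * (X - C σ) ^ i :=
    (sum_taylor_eq f σ).symm
  have h2 : (X - C σ : Polynomial Ω) ∈ PR D := sub_mem X_mem_PR (C_mem_PR hσ)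
  have h3 : ∀ i, C ((taylor σ f).coeff i) ∈ PR D := fun i => C_mem_PR (taylor_mem_PR hf hσ i)
  have h4 : lf q θ S f = ∑ i ∈ (taylor σ f).support,
      lf q θ S (C ((taylor σ f).coeff i) * (X - C σ) ^ i) := by
    conv_lhs => rw [h1]
    exact h.lf_sum S _ fun i _ => PR_mono hD (mul_mem (h3 i) (pow_mem h2 i))
  rw [h4]
  refine Cg.sum _ fun i _ => ?_
  refine (h.lf_mul hD S (h3 i) (pow_mem h2 i)).trans ?_
  rw [h.lf_C]
  refine (Cg.refl _).mul ?_
  refine (h.lf_pow hq hD S h2 i).trans ?_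
  rw [h.lf_sub S X_mem_PR (PR_mono hD (C_mem_PR hσ)), h.lf_X hq, h.lf_C]
  exact Cg.refl _

/-- The constant coefficient. -/
theorem Dq.lf_coeff_zero (h : Dq q R D θ) (hq : 0 < q) (S : Polynomial Ω) {f : Polynomial Ω}
    (hf : f ∈ PR R) : (lf q θ S f).coeff 0 = f.eval (S.coeff 0) := by
  rw [h.lf_range S (Nat.lt_succ_self _), finsetSum_coeff, eval_eq_sum_range]
  refine Finset.sum_congr rfl fun i _ => ?_
  rw [mul_coeff_zero, coeff_psi, if_pos hq, h.zero _ (hf i), coeff_zero_eq_eval_zero (S ^ i), eval_pow,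
    ← coeff_zero_eq_eval_zero]

end Dq

end Pool.Agent.TWIV
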