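import Pool.Agent.Lib.TWIV.FLc

/-!
# TANK W, leaf (IV), the free lift of higher derivations, part 4: levels and the exact word

* `ge_of_op`, `exists_op_root`: the roots of the operators of `k{F}` modulo `O`;
* `Fre.congr`, `exact_word`: a word is exact after moving one letter inside `O`;
* `Lvl`: the elements of level `m`; `HSn.lvl_op`; `HSn.const_of_lvl`.
-/

set_option autoImplicit false

open Polynomial

namespace Pool.Agent.TWIV

open Pool.Agent.H15JM (RVal)
open Pool.Agent.LU1 (VPos adj)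
open Pool.Agent.D2 (Ctx0)
open Pool.Agent.TWM Pool.Agent.TWC

universe u

variable {k Ω : Type u} [Field k] [Field Ω] [Algebra k Ω] {v : RVal Ω} {p : ℕ} [Fact p.Prime]

/-! ### The roots of the operators -/

/-- An element whose image by an operator is integral is integral. -/
theorem ge_of_op (hk : Ctx0 k v) {P : k[X]} (hP : P ≠ 0) {x : Ω} (h : v.Ge 0 (op p P x)) :
    v.Ge 0 x := by
  have hp1 : (1 : ℝ) < p := by exact_mod_cast (Fact.out : p.Prime).one_lt
  intro hx0
  by_contra hx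
  rw [not_le] at hx
  set d := P.natDegree with hd
  have hlc : P.coeff d ≠ 0 := by
    rw [hd]
    exact leadingCoeff_ne_zero.2 hP
  have hlc' : algebraMap k Ω (P.coeff d) ≠ 0 := (_root_.map_ne_zero _).2 hlc
  have htop : algebraMap k Ω (P.coeff d) * x ^ p ^ d ≠ 0 := mul_ne_zero hlc' (pow_ne_zero _ hx0)
  have hvtop : v (algebraMap k Ω (P.coeff d) * x ^ p ^ d) = (p : ℝ) ^ d * v x := by
    rw [v.map_mul hlc' (pow_ne_zero _ hx0), hk.triv _ hlc, zero_add, v.map_pow hx0]
    push_cast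
    ring
  have hmem : d ∈ P.support := mem_support_iff.2 hlc
  have h1 : Gt v (v (algebraMap k Ω (P.coeff d) * x ^ p ^ d))
      (algebraMap k Ω (P.coeff d) * x ^ p ^ d - op p P x) := by
    rw [op_eq, ← Finset.add_sum_erase _ _ hmem, ← sub_sub, sub_self, zero_sub]
    refine (Gt.sum _ _ fun i hi => ?_).neg
    obtain ⟨hi1, hi2⟩ := Finset.mem_erase.1 hi
    have hi3 : i < d := lt_of_le_of_ne (le_natDegree_of_mem_supp i hi2) hi1
    refine Gt.of_ge (r' := (p : ℝ) ^ i * v x) ?_ ?_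
    · have h2 := (hk.ge (P.coeff i)).mul (ge_pow (RVal.ge_self x) (p ^ i))
      refine h2.mono (le_of_eq ?_)
      push_cast
      ring
    · rw [hvtop]
      have h3 : (p : ℝ) ^ i < (p : ℝ) ^ d := pow_lt_pow_right₀ hp1 hi3
      nlinarith
  obtain ⟨h2, h3⟩ := Gt.val_eq htop h1
  have h4 := h h2
  rw [h3, hvtop] at h4
  have h5 : (0 : ℝ) < (p : ℝ) ^ d := pow_pos (by linarith) d
  nlinarith

/-- The operators are onto. -/
theorem exists_op_eq [IsAlgClosed Ω] {P : k[X]} (hP : P ≠ 0) (o : Ω) :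
    ∃ δ : Ω, op p P δ = o := by
  have hp := (Fact.out : p.Prime)
  set Q : Polynomial Ω := ∑ i ∈ P.support, C (algebraMap k Ω (P.coeff i)) * X ^ p ^ i with hQ
  have hQe : ∀ x : Ω, Q.eval x = op p P x := fun x => by
    rw [hQ, eval_finsetSum, op_eq]
    exact Finset.sum_congr rfl fun i _ => by rw [eval_mul, eval_C, eval_pow, eval_X]
  have hcoe : Q.coeff (p ^ P.natDegree) = algebraMap k Ω (P.coeff P.natDegree) := by
    rw [hQ, finsetSum_coeff]
    simp only [coeff_C_mul, coeff_X_pow]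
    rw [Finset.sum_eq_single P.natDegree]
    · rw [if_pos rfl, mul_one]
    · intro i _ hi
      rw [if_neg (fun h => hi (Nat.pow_right_injective hp.two_le h).symm), mul_zero]
    · intro h
      rw [notMem_support_iff.1 h, map_zero, zero_mul]
  have hdeg : (Q - C o).degree ≠ 0 := by
    intro h0
    have h1 : Q - C o = C ((Q - C o).coeff 0) := eq_C_of_degree_eq_zero h0
    have h2 := congrArg (fun q : Polynomial Ω => q.coeff (p ^ P.natDegree)) h1
    simp only [coeff_sub] at h2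
    rw [coeff_C_of_ne_zero (pow_ne_zero _ hp.ne_zero), coeff_C_of_ne_zero (pow_ne_zero _ hp.ne_zero),
      hcoe, sub_zero] at h2
    exact leadingCoeff_ne_zero.2 hP ((_root_.map_eq_zero _).1 h2)
  obtain ⟨δ, hδ⟩ := IsAlgClosed.exists_root _ hdeg
  refine ⟨δ, ?_⟩
  rw [IsRoot.def, eval_sub, eval_C, hQe, sub_eq_zero] at hδ
  exact hδ

theorem exists_op_root [IsAlgClosed Ω] (hk : Ctx0 k v) {P : k[X]} (hP : P ≠ 0) {o : Ω}
    (ho : v.Ge 0 o) : ∃ δ : Ω, v.Ge 0 δ ∧ op p P δ = o := by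
  obtain ⟨δ, hδ⟩ := exists_op_eq (p := p) hP o
  exact ⟨δ, ge_of_op hk hP (by rwa [hδ]), hδ⟩

/-! ### The exact word -/

section Exact

variable [CharP Ω p] {E : IntermediateField k Ω} {ι : Type} [Fintype ι] {w w' : ι → Ω}

theorem Fre.congr (hk : Ctx0 k v) (h : Fre p v E w) (hw : ∀ i, v.Ge 0 (w' i - w i)) :
    Fre p v E w' := by
  intro c hc
  refine h c ?_
  obtain ⟨e, he, h1⟩ := hc
  refine ⟨e, he, ?_⟩
  have h2 : v.Ge 0 (∑ i, op p (c i) (w' i - w i)) :=
    RVal.Ge.sum _ _ fun i _ => op_ge_zero hk (c i) (hw i)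
  have h3 := h1.sub h2
  convert h3 using 1
  simp only [op_sub_right, Finset.sum_sub_distrib]
  ring

theorem lm_congr0 {A : IntermediateField k Ω} {x y : Ω} (h : Lim v A 0 x) (hxy : v.Ge 0 (y - x)) :
    Lim v A 0 y := by
  have h1 := lm_add h (lm_of_ge (A := A) hxy)
  rwa [add_sub_cancel] at h1

/-- **The exact word.** -/
theorem exact_word [IsAlgClosed Ω] [DecidableEq ι] (hk : Ctx0 k v) {y e : Ω} {P : ι → k[X]}
    (h : v.Ge 0 (y - e - ∑ i, op p (P i) (w i))) {i₀ : ι} (hP : P i₀ ≠ 0) :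
    ∃ w' : ι → Ω, (∀ i, v.Ge 0 (w' i - w i)) ∧ (∀ i, i ≠ i₀ → w' i = w i) ∧
      y = e + ∑ i, op p (P i) (w' i) := by
  obtain ⟨δ, hδ, h1⟩ := exists_op_root (p := p) hk hP h
  have h2 : ∀ i, v.Ge 0 ((fun i => w i + if i = i₀ then δ else 0) i - w i) := by
    intro i
    simp only [add_sub_cancel_left]
    split_ifs
    exacts [hδ, RVal.Ge.zero]
  refine ⟨fun i => w i + if i = i₀ then δ else 0, h2, fun i hi => ?_, ?_⟩
  · simp only [if_neg hi, add_zero]
  · have h3 : ∑ i, op p (P i) (if i = i₀ then δ else 0) = op p (P i₀) δ := by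
      rw [Finset.sum_eq_single i₀]
      · rw [if_pos rfl]
      · intro i _ hi
        rw [if_neg hi, op_zero_right]
      · intro hi
        exact absurd (Finset.mem_univ _) hi
    simp only [op_add_right, Finset.sum_add_distrib, h3, h1]
    ring

end Exact

/-! ### Levels -/

section Lvl

variable {n : ℕ} {R : Subalgebra k Ω} {D : ℕ → Subalgebra k Ω} {Th : ℕ → ℕ → Ω → Ω}

/-- The elements of level `m`: `θ^[g] x = 0` if `g ∉ p ^ (-m) ℤ`. -/
structure Lvl (p n : ℕ) (R : Subalgebra k Ω) (Th : ℕ → ℕ → Ω → Ω) (m : ℕ) (x : Ω) : Prop where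
  mem : x ∈ R
  lvl : ∀ N, n ≤ N + m → ∀ j < p ^ (N + m), ¬ p ^ N ∣ j → Th (N + m) j x = 0

omit [Fact p.Prime] in
theorem Lvl.zero (h : HSn p v n R D Th) (m : ℕ) : Lvl p n R Th m 0 where
  mem := zero_mem R
  lvl := fun _ hN _ hj _ => (h.dq hN).map_zero hj

omit [Fact p.Prime] in
theorem Lvl.add (h : HSn p v n R D Th) {m : ℕ} {x y : Ω} (hx : Lvl p n R Th m x)
    (hy : Lvl p n R Th m y) : Lvl p n R Th m (x + y) where
  mem := add_mem hx.mem hy.mem
  lvl := fun N hN j hj hpj => by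
    rw [h.add _ hN j hj x hx.mem y hy.mem, hx.lvl N hN j hj hpj, hy.lvl N hN j hj hpj, add_zero]

theorem Lvl.smul (h : HSn p v n R D Th) {m : ℕ} {x : Ω} (hx : Lvl p n R Th m x) (c : k) :
    Lvl p n R Th m (algebraMap k Ω c * x) where
  mem := mul_mem (algebraMap_mem R c) hx.mem
  lvl := fun N hN j hj hpj => by
    rw [h.smul c hN hj hx.mem, hx.lvl N hN j hj hpj, mul_zero]

theorem Lvl.sum (h : HSn p v n R D Th) {m : ℕ} {ι : Type*} (S : Finset ι) {x : ι → Ω}
    (hx : ∀ i ∈ S, Lvl p n R Th m (x i)) : Lvl p n R Th m (∑ i ∈ S, x i) := by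
  classical
  induction S using Finset.induction_on with
  | empty => rw [Finset.sum_empty]; exact Lvl.zero h m
  | insert i S hi ih =>
    rw [Finset.sum_insert hi]
    exact Lvl.add h (hx i (Finset.mem_insert_self i S))
      (ih fun l hl => hx l (Finset.mem_insert_of_mem hl))

/-- `D N` has level `N`. -/
theorem HSn.lvl_D (h : HSn p v n R D Th) {m : ℕ} (hm : n ≤ m) {x : Ω} (hx : x ∈ D m) :
    Lvl p n R Th m x where
  mem := h.le m hm hx
  lvl := by
    have hp := (Fact.out : p.Prime).pos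
    intro N
    induction N with
    | zero =>
      intro _ j _ hpj
      rw [pow_zero] at hpj
      exact absurd (one_dvd j) hpj
    | succ N ih =>
      intro hN j hj hpj
      have e1 : N + 1 + m = N + m + 1 := by ring
      rw [e1] at hj ⊢
      by_cases h1 : p ∣ j
      · obtain ⟨i, rfl⟩ := h1
        have h2 : i < p ^ (N + m) := by
          rw [pow_succ, mul_comm (p ^ (N + m)) p] at hj
          exact (Nat.mul_lt_mul_left hp).1 hj
        rw [h.lev (N + m) (by omega) i h2 x (h.le m hm hx)]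
        refine ih (by omega) i h2 fun h3 => hpj ?_
        rw [pow_succ, mul_comm (p ^ N) p]
        exact Nat.mul_dvd_mul_left p h3
      · exact h.nil (N + m) (by omega) j hj h1 x (h.mono' hm (by omega) hx)

variable [CharP Ω p]

theorem Lvl.pow (h : HSn p v n R D Th) {m : ℕ} {x : Ω} (hx : Lvl p n R Th m x) (i : ℕ) :
    Lvl p n R Th m (x ^ p ^ i) where
  mem := pow_mem hx.mem _
  lvl := fun N hN j hj hpj => by
    have hp := (Fact.out : p.Prime).pos
    have e1 : N + m + i = N + i + m := by ring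
    rw [h.frob' hN hj hx.mem i, e1, hx.lvl (N + i) (by omega) j ?_ ?_,
      zero_pow (pow_ne_zero _ hp.ne')]
    · exact hj.trans_le (Nat.pow_le_pow_right hp (by omega))
    · exact fun h1 => hpj ((pow_dvd_pow p (Nat.le_add_right N i)).trans h1)

/-- The words in elements of level `m`. -/
theorem Lvl.op (h : HSn p v n R D Th) {m : ℕ} {x : Ω} (hx : Lvl p n R Th m x) (P : k[X]) :
    Lvl p n R Th m (op p P x) := by
  rw [op_eq]
  exact Lvl.sum h _ fun i _ => Lvl.smul h (Lvl.pow h hx i) _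

/-- `y ^ (p ^ m)` is a constant, if `y` has level `m`. -/
theorem Lvl.const (h : HSn p v n R D Th) {m : ℕ} {y : Ω} (hy : Lvl p n R Th m y) {N : ℕ}
    (hN : n ≤ N) {j : ℕ} (hj : j < p ^ N) (h0 : 0 < j) : Th N j (y ^ p ^ m) = 0 :=
  h.const_pow hy.mem m (fun N _ j hj h0 => hy.lvl N (by omega) j
    (hj.trans_le (Nat.pow_le_pow_right (Fact.out : p.Prime).pos (by omega)))
    fun h1 => absurd (Nat.le_of_dvd h0 h1) (not_le.2 hj)) hN hj h0

omit [CharP Ω p] in
/-- The letters have level `n`. -/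
theorem lvl_letter {s : Ω} (hs : s ∈ R) {T : Polynomial Ω}
    (h : ∀ N, n ≤ N → ∀ j < p ^ N, Th N j s = (jT p n T N).coeff j) : Lvl p n R Th n s where
  mem := hs
  lvl := fun N hN j hj hpj => by
    rw [h _ hN j hj, jT, coeff_expand (pow_pos (Fact.out : p.Prime).pos _), Nat.add_sub_cancel,
      if_neg hpj]

end Lvl

end Pool.Agent.TWIV
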