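import Pool.Agent.Lib.TWIV.RADb
import Pool.Agent.Lib.TWIV.OL

/-!
# TANK W, tame case, row S5 (RAD), part 3: the adapted basis and the theorem
-/

set_option autoImplicit false

open Polynomial

namespace Pool.Agent.TWIV

open Pool.Agent.H15JM (RVal)
open Pool.Agent.LU1 (VPos adj)
open Pool.Agent.D2 (Ctx0)
open Pool.Agent.D2P (clI mem_clI)
open Pool.Agent.TWM Pool.Agent.TWC

universe u

variable {k Ω : Type u} [Field k] [Field Ω] [Algebra k Ω] {v : RVal Ω}
  {E : IntermediateField k Ω} {p : ℕ} {ι : Type} [Fintype ι] [DecidableEq ι]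

open Classical in
/-- The size of an operator. -/
noncomputable def szo (f : k[X]) : ℕ := if f = 0 then 0 else f.natDegree + 1

/-- One division. -/
theorem div_step [IsAlgClosed k] [Fact p.Prime] [CharP k p] {f g : k[X]} (hf : f ≠ 0)
    (hg : g ≠ 0) (hd : f.natDegree ≤ g.natDegree) :
    ∃ R : k[X], szo (g - tw p f R) < szo g := by
  have hp : p.Prime := Fact.out
  have hpa : 0 < p ^ f.natDegree := pow_pos hp.pos _
  obtain ⟨c, hc⟩ := IsAlgClosed.exists_pow_nat_eq (g.leadingCoeff / f.leadingCoeff) hpa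
  have hf0 := leadingCoeff_ne_zero.2 hf
  have hg0 := leadingCoeff_ne_zero.2 hg
  have hc0 : c ≠ 0 := by
    rintro rfl
    rw [zero_pow hpa.ne'] at hc
    exact div_ne_zero hg0 hf0 hc.symm
  set R : k[X] := C c * X ^ (g.natDegree - f.natDegree) with hR
  have hRd : R.natDegree = g.natDegree - f.natDegree := natDegree_C_mul_X_pow _ _ hc0
  have hRl : R.leadingCoeff = c := leadingCoeff_C_mul_X_pow _ _
  have h1 := tw_ne_zero_aux (p := p) f R
  rw [hRd, hRl, hc, Nat.add_sub_cancel' hd, mul_div_cancel₀ _ hf0] at h1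
  have h2 := tw_natDegree_le (p := p) f R
  rw [hRd, Nat.add_sub_cancel' hd] at h2
  refine ⟨R, ?_⟩
  have h3 : (g - tw p f R).natDegree ≤ g.natDegree := by
    refine (natDegree_sub_le _ _).trans (max_le le_rfl h2)
  have h4 : (g - tw p f R).coeff g.natDegree = 0 := by
    rw [coeff_sub, h1, leadingCoeff, sub_self]
  rw [szo, szo, if_neg hg]
  split_ifs with h5
  · exact Nat.succ_pos _
  · refine Nat.succ_lt_succ (lt_of_le_of_ne h3 fun h6 => ?_)
    rw [← h6] at h4
    exact h5 (leadingCoeff_eq_zero.1 h4)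

section

variable [IsAlgClosed k] [IsAlgClosed Ω] [Fact p.Prime] [CharP k p] [CharP Ω p]

/-- **The adapted basis.** -/
theorem exists_adapted (hk : Ctx0 k v) {y e : Ω} (n : ℕ) : ∀ (w : ι → Ω) (Q : ι → k[X]),
    Fre p v E w → (∀ i, Lim v E 0 (w i)) → ∑ i, szo (Q i) = n → (∃ i, Q i ≠ 0) →
    y = e + ∑ i, op p (Q i) (w i) →
    ∃ (w' : ι → Ω) (i₀ : ι) (P : k[X]), Fre p v E w' ∧ (∀ i, Lim v E 0 (w' i)) ∧ P ≠ 0 ∧
      y = e + op p P (w' i₀) ∧ ∀ i, w i ∈ cadS v E w' Set.univ := by
  classical
  induction n using Nat.strong_induction_on with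
  | _ n ih =>
    intro w Q hw hl hn hQ hy
    by_cases hone : ∀ i j, i ≠ j → Q i ≠ 0 → Q j = 0
    · obtain ⟨i₀, hi₀⟩ := hQ
      refine ⟨w, i₀, Q i₀, hw, hl, hi₀, ?_, fun i => mem_cadS (Set.mem_univ i)⟩
      rw [hy, Finset.sum_eq_single i₀]
      · intro j _ hj
        rw [hone i₀ j hj.symm hi₀, op_zero]
      · intro h
        exact absurd (Finset.mem_univ i₀) h
    · push Not at hone
      obtain ⟨i', j', hij', hi', hj'⟩ := hone
      obtain ⟨i, j, hij, hi, hj, hd⟩ : ∃ i j : ι, i ≠ j ∧ Q i ≠ 0 ∧ Q j ≠ 0 ∧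
          (Q i).natDegree ≤ (Q j).natDegree := by
        rcases le_total (Q i').natDegree (Q j').natDegree with h | h
        · exact ⟨i', j', hij', hi', hj', h⟩
        · exact ⟨j', i', hij'.symm, hj', hi', h⟩
      obtain ⟨R, hR⟩ := div_step (p := p) hi hj hd
      set w₁ : ι → Ω := fun l => w l + if l = i then op p R (w j) else 0 with hw₁
      set Q₁ : ι → k[X] := fun l => if l = j then Q j - tw p (Q i) R else Q l with hQ₁
      have hw₁j : w₁ j = w j := by
        rw [hw₁]
        simp only
        rw [if_neg hij.symm, add_zero]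
      have hw₁i : w₁ i = w i + op p R (w j) := by
        rw [hw₁]
        simp only [if_true]
      -- sums of operators
      have hsum : ∀ c : ι → k[X], ∑ l, op p (c l) (w₁ l) =
          ∑ l, op p (c l + if l = j then tw p (c i) R else 0) (w l) := by
        intro c
        have e1 : ∑ l, op p (c l) (w₁ l) = ∑ l, op p (c l) (w l) +
            op p (c i) (op p R (w j)) := by
          have e2 : ∀ l, op p (c l) (w₁ l) = op p (c l) (w l) +
              if l = i then op p (c i) (op p R (w j)) else 0 := by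
            intro l
            rw [hw₁]
            simp only
            split_ifs with h
            · rw [op_add_right, h]
            · rw [add_zero, add_zero]
          rw [Finset.sum_congr rfl fun l _ => e2 l, Finset.sum_add_distrib,
            Finset.sum_ite_eq' Finset.univ i, if_pos (Finset.mem_univ i)]
        have e3 : ∑ l, op p (c l + if l = j then tw p (c i) R else 0) (w l) =
            ∑ l, op p (c l) (w l) + op p (tw p (c i) R) (w j) := by
          have e2 : ∀ l, op p (c l + if l = j then tw p (c i) R else 0) (w l) =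
              op p (c l) (w l) + if l = j then op p (tw p (c i) R) (w j) else 0 := by
            intro l
            rw [op_add]
            split_ifs with h
            · rw [h]
            · rw [op_zero]
          rw [Finset.sum_congr rfl fun l _ => e2 l, Finset.sum_add_distrib,
            Finset.sum_ite_eq' Finset.univ j, if_pos (Finset.mem_univ j)]
        rw [e1, e3, op_tw v]
      have hfre : Fre p v E w₁ := by
        intro c hc
        rw [hsum c] at hc
        have h1 := hw _ hc
        have h2 : ∀ l, l ≠ j → c l = 0 := fun l hlj => by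
          have := h1 l
          rwa [if_neg hlj, add_zero] at this
        intro l
        by_cases hlj : l = j
        · subst hlj
          have h3 := h1 l
          rwa [if_pos rfl, h2 i hij, tw_zero_left, add_zero] at h3
        · exact h2 l hlj
      have hlim : ∀ l, Lim v E 0 (w₁ l) := by
        intro l
        rw [hw₁]
        simp only
        refine lm_add (hl l) ?_
        split_ifs
        · exact lim_op hk (hl j) R
        · exact lm_mem (zero_mem E)
      have hlt : ∑ l, szo (Q₁ l) < n := by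
        rw [← hn]
        refine Finset.sum_lt_sum (fun l _ => ?_) ⟨j, Finset.mem_univ j, ?_⟩
        · rw [hQ₁]
          simp only
          split_ifs with h
          · rw [h]
            exact hR.le
          · exact le_rfl
        · rw [hQ₁]
          simp only [if_true]
          exact hR
      have hne : ∃ l, Q₁ l ≠ 0 := ⟨i, by
        rw [hQ₁]
        simp only
        rw [if_neg hij]
        exact hi⟩
      have hy₁ : y = e + ∑ l, op p (Q₁ l) (w₁ l) := by
        rw [hy, hsum Q₁]
        congr 1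
        refine Finset.sum_congr rfl fun l _ => ?_
        congr 1
        rw [hQ₁]
        simp only
        rw [if_neg hij]
        split_ifs with h
        · rw [h, sub_add_cancel]
        · rw [add_zero]
      obtain ⟨w', i₀, P, h1, h2, h3, h4, h5⟩ := ih _ hlt w₁ Q₁ hfre hlim rfl hne hy₁
      refine ⟨w', i₀, P, h1, h2, h3, h4, fun l => ?_⟩
      have hwj : w j ∈ cadS v E w' Set.univ := by
        rw [← hw₁j]
        exact h5 j
      by_cases hli : l = i
      · subst hli
        have h6 : w l = w₁ l - op p R (w j) := by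
          rw [hw₁i]
          ring
        rw [h6]
        exact sub_mem (h5 l) (op_mem hwj)
      · have h6 : w l = w₁ l := by
          rw [hw₁]
          simp only
          rw [if_neg hli, add_zero]
        rw [h6]
        exact h5 l

/-- **RAD.** A polynomial over `E` in the free letters `w_i` which is a limit of `E⟨y⟩`,
`y = e + ∑ Q_i(F) w_i` exactly, is in `E⟨y⟩ + L(E) + O`. -/
theorem rad (hk : Ctx0 k v) (hE : Cld v E) (hp : ∀ a ∈ E, ∃ b ∈ E, b ^ p = a) {w : ι → Ω}
    (hl : ∀ i, Lim v E 0 (w i)) (hw : Fre p v E w) {y e : Ω} (he : e ∈ E) {Q : ι → k[X]}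
    (hy : y = e + ∑ i, op p (Q i) (w i)) (hyE : y ∉ E) {r : Ω}
    (hr : r ∈ cadS v E w Set.univ) (hlr : Lim v (cadj v E y) 0 r) :
    ∃ b ∈ cadj v E y, ∃ a, Lim v E 0 a ∧ v.Ge 0 (r - b - a) := by
  classical
  have hQ : ∃ i, Q i ≠ 0 := by
    by_contra hcon
    push Not at hcon
    refine hyE ?_
    rw [hy]
    simp only [hcon, op_zero, Finset.sum_const_zero, add_zero]
    exact he
  obtain ⟨w', i₀, P, hw', hl', hP, hy', hww⟩ := exists_adapted hk _ w Q hw hl rfl hQ hy
  have hr' : r ∈ cadS v E w' ((insert i₀ (Finset.univ : Finset ι) : Finset ι) : Set ι) := by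
    rw [Finset.insert_eq_of_mem (Finset.mem_univ i₀), Finset.coe_univ]
    exact cadS_le cld_cadS le_cadS (fun i _ => hww i) hr
  have hi₀ : w' i₀ ∈ cadS v E w' {i₀} := mem_cadS (Set.mem_singleton i₀)
  have hY : cadj v E y ≤ cadS v E w' {i₀} := by
    refine cadj_le cld_cadS le_cadS ?_
    rw [hy']
    exact add_mem (le_cadS he) (op_mem hi₀)
  obtain ⟨h₁, hh₁, a, ha, h1⟩ := tower hk hE hl' hw' (le_cadj v E y) hY Finset.univ r hr' hlr
  have hE' : clI v E = E := le_antisymm hE (le_clI E)
  have e1 : cadS v E w' {i₀} = cadj v E (w' i₀) := by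
    have h2 := cadj_cadS (v := v) (A := E) (w := w') (S := ∅) i₀
    rw [cadS_empty, hE', insert_empty_eq] at h2
    exact h2.symm
  have hT : TL v E (w' i₀) 0 := by
    have h2 := (span_and_tl hk hE hl' hw' ∅).2 i₀ (Finset.notMem_empty i₀)
    rwa [Finset.coe_empty, cadS_empty, hE'] at h2
  rw [e1] at hh₁
  obtain ⟨f, hf, h2⟩ := hT.dense hh₁ 0
  -- the field of `y`
  have e2 : cadj v E y = cadj v E (op p P (w' i₀)) := by
    refine le_antisymm (cadj_le (cld_cadj _ _ _) (le_cadj _ _ _) ?_)
      (cadj_le (cld_cadj _ _ _) (le_cadj _ _ _) ?_)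
    · rw [hy']
      exact add_mem (le_cadj _ _ _ he) (self_mem_cadj _ _ _)
    · have h3 : op p P (w' i₀) = y - e := by
        rw [hy']
        ring
      rw [h3]
      exact sub_mem (self_mem_cadj _ _ _) (le_cadj _ _ _ he)
  have hlf : Lim v (cadj v E y) 0 (f.eval (w' i₀)) := by
    have h3 := lm_sub (lm_sub (lm_sub hlr (ha.mono (le_cadj v E y)))
      (lm_of_ge (A := cadj v E y) h1)) (lm_of_ge (A := cadj v E y) h2)
    convert h3 using 1
    ring
  rw [e2] at hlf
  obtain ⟨g, hg, c, h4⟩ := ol_ev p hk hp hT (ev_ne p hT hP) hf hlf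
  refine ⟨g.eval (op p P (w' i₀)), ?_, a + op p c (w' i₀),
    lm_add ha (lim_op hk (hl' i₀) c), ?_⟩
  · rw [e2]
    exact eval_mem (PI_mono (le_cadj v E _) hg) (self_mem_cadj _ _ _)
  · have h5 := (h1.add h2).add h4
    convert h5 using 1
    rw [op, op]
    ring

/-- **RAD**, for the polynomials in the letters. -/
theorem rad_adjoin (hk : Ctx0 k v) (hE : Cld v E) (hp : ∀ a ∈ E, ∃ b ∈ E, b ^ p = a) {w : ι → Ω}
    (hl : ∀ i, Lim v E 0 (w i)) (hw : Fre p v E w) {y e : Ω} (he : e ∈ E) {Q : ι → k[X]}
    (hy : y = e + ∑ i, op p (Q i) (w i)) (hyT : TL v E y 0) {r : Ω}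
    (hr : r ∈ Algebra.adjoin E (Set.range w)) (hlr : Lim v (cadj v E y) 0 r) :
    ∃ b ∈ cadj v E y, ∃ a, Lim v E 0 a ∧ v.Ge 0 (r - b - a) := by
  refine rad hk hE hp hl hw he hy (fun h => ?_) ?_ hlr
  · exact (hyT.far y (isAlgebraic_algebraMap (R := E) (⟨y, h⟩ : E))).1 rfl
  · clear hlr
    induction hr using Algebra.adjoin_induction with
    | mem x hx =>
      obtain ⟨i, rfl⟩ := hx
      exact mem_cadS (Set.mem_univ i)
    | algebraMap x => exact le_cadS x.2
    | add x y _ _ hx hy => exact add_mem hx hy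
    | mul x y _ _ hx hy => exact mul_mem hx hy

end

end Pool.Agent.TWIV
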