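import Pool.Agent.Lib.TWIV.FLd
import Pool.Agent.Lib.TWIV.RADc

/-!
# TANK W, leaf (IV), the free lift of higher derivations, part 5: a free basis

* `WdFL w x`: `x` is a word in the `w_i`; `SpFL E w x`: `x ∈ E + ∑ k{F} w_i + O`;
  `LL E w x`: `x ∈ E + ∑ k{F} w_i`;
* `exists_basis`: if `L(E) / (E + O)` is torsion free, a finite family of limits spans a free module,
  whose basis consists of words.
-/

set_option autoImplicit false
set_option linter.unusedSectionVars false

open Polynomial

namespace Pool.Agent.TWIV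

open Pool.Agent.H15JM (RVal)
open Pool.Agent.LU1 (VPos adj)
open Pool.Agent.D2 (Ctx0)
open Pool.Agent.TWM Pool.Agent.TWC

universe u

variable {k Ω : Type u} [Field k] [Field Ω] [Algebra k Ω] {v : RVal Ω} {p : ℕ}
  {E : IntermediateField k Ω}

/-- `x` is a word in the family `w`. -/
def WdFL (k : Type u) {Ω : Type u} [Field k] [Field Ω] [Algebra k Ω] (p : ℕ) {ι : Type} [Fintype ι]
    (w : ι → Ω) (x : Ω) : Prop := ∃ c : ι → k[X], x = ∑ i, op p (c i) (w i)

/-- `x ∈ E + ∑ k{F} w_i`. -/
def LL (p : ℕ) (E : IntermediateField k Ω) {ι : Type} [Fintype ι] (w : ι → Ω) (x : Ω) : Prop :=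
  ∃ e ∈ E, ∃ c : ι → k[X], x = e + ∑ i, op p (c i) (w i)

/-- `x ∈ E + ∑ k{F} w_i + O`. -/
def SpFL (p : ℕ) (v : RVal Ω) (E : IntermediateField k Ω) {ι : Type} [Fintype ι] (w : ι → Ω)
    (x : Ω) : Prop := ∃ y, LL p E w y ∧ v.Ge 0 (x - y)

section Alg

variable [Fact p.Prime] [CharP k p] [CharP Ω p] {ι κ : Type} [Fintype ι] [Fintype κ] {w : ι → Ω}
  {w' : κ → Ω} {x y : Ω}

omit [CharP k p] [CharP Ω p] [Fact p.Prime] in
theorem WdFL.self [DecidableEq ι] (i : ι) : WdFL k p w (w i) :=
  ⟨fun j => if j = i then 1 else 0, by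
    rw [Finset.sum_eq_single i]
    · simp only [if_true, op_one]
    · intro j _ hj
      simp only [if_neg hj, op_zero]
    · intro h
      exact absurd (Finset.mem_univ i) h⟩

omit [CharP k p] [CharP Ω p] [Fact p.Prime] in
theorem WdFL.zero : WdFL k p w 0 := ⟨fun _ => 0, by simp only [op_zero, Finset.sum_const_zero]⟩

omit [CharP k p] [CharP Ω p] [Fact p.Prime] in
theorem WdFL.add (hx : WdFL k p w x) (hy : WdFL k p w y) : WdFL k p w (x + y) := by
  obtain ⟨c, rfl⟩ := hx
  obtain ⟨d, rfl⟩ := hy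
  exact ⟨fun i => c i + d i, by simp only [op_add, Finset.sum_add_distrib]⟩

theorem WdFL.op (v : RVal Ω) (hx : WdFL k p w x) (P : k[X]) : WdFL k p w (op p P x) := by
  obtain ⟨c, rfl⟩ := hx
  refine ⟨fun i => tw p P (c i), ?_⟩
  rw [op_sum_right]
  exact Finset.sum_congr rfl fun i _ => (op_tw v P (c i) (w i)).symm

theorem WdFL.sum {τ : Type*} (S : Finset τ) {f : τ → Ω} (h : ∀ i ∈ S, WdFL k p w (f i)) :
    WdFL k p w (∑ i ∈ S, f i) := by
  classical
  induction S using Finset.induction_on with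
  | empty => rw [Finset.sum_empty]; exact WdFL.zero
  | insert i S hi ih =>
    rw [Finset.sum_insert hi]
    exact (h i (Finset.mem_insert_self i S)).add
      (ih fun j hj => h j (Finset.mem_insert_of_mem hj))

theorem WdFL.trans (v : RVal Ω) (hx : WdFL k p w x) (h : ∀ i, WdFL k p w' (w i)) : WdFL k p w' x := by
  obtain ⟨c, rfl⟩ := hx
  exact WdFL.sum _ fun i _ => (h i).op v (c i)

omit [CharP k p] [CharP Ω p] [Fact p.Prime] in
theorem WdFL.ll (hx : WdFL k p w x) : LL p E w x := by
  obtain ⟨c, rfl⟩ := hx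
  exact ⟨0, zero_mem E, c, (zero_add _).symm⟩

omit [CharP k p] [CharP Ω p] [Fact p.Prime] in
theorem LL.of_mem (hx : x ∈ E) : LL p E w x :=
  ⟨x, hx, fun _ => 0, by simp only [op_zero, Finset.sum_const_zero, add_zero]⟩

omit [CharP k p] [CharP Ω p] [Fact p.Prime] in
theorem LL.add (hx : LL p E w x) (hy : LL p E w y) : LL p E w (x + y) := by
  obtain ⟨e, he, c, rfl⟩ := hx
  obtain ⟨e', he', d, rfl⟩ := hy
  refine ⟨e + e', add_mem he he', fun i => c i + d i, ?_⟩
  simp only [op_add, Finset.sum_add_distrib]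
  ring

omit [CharP k p] [CharP Ω p] [Fact p.Prime] in
theorem LL.neg (hx : LL p E w x) : LL p E w (-x) := by
  obtain ⟨e, he, c, rfl⟩ := hx
  refine ⟨-e, neg_mem he, fun i => -c i, ?_⟩
  simp only [op_neg, Finset.sum_neg_distrib]
  ring

omit [CharP k p] [CharP Ω p] [Fact p.Prime] in
theorem LL.sum {τ : Type*} (S : Finset τ) {f : τ → Ω} (h : ∀ i ∈ S, LL p E w (f i)) :
    LL p E w (∑ i ∈ S, f i) := by
  classical
  induction S using Finset.induction_on with
  | empty => rw [Finset.sum_empty]; exact LL.of_mem (zero_mem E)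
  | insert i S hi ih =>
    rw [Finset.sum_insert hi]
    exact (h i (Finset.mem_insert_self i S)).add
      (ih fun j hj => h j (Finset.mem_insert_of_mem hj))

theorem LL.op (v : RVal Ω) (hx : LL p E w x) (P : k[X]) : LL p E w (op p P x) := by
  obtain ⟨e, he, c, rfl⟩ := hx
  rw [op_add_right]
  refine (LL.of_mem (op_mem he)).add ?_
  have h1 : WdFL k p w (∑ i, Pool.Agent.TWIV.op p (c i) (w i)) := ⟨c, rfl⟩
  exact (h1.op v P).ll

theorem LL.pow (v : RVal Ω) (hx : LL p E w x) (n : ℕ) : LL p E w (x ^ p ^ n) := by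
  have h1 := hx.op v (C (1 : k) * X ^ n)
  rwa [op_mono, map_one, one_mul] at h1

theorem LL.smul (v : RVal Ω) (hx : LL p E w x) (c : k) : LL p E w (algebraMap k Ω c * x) := by
  have h1 := hx.op v (C c * X ^ 0)
  rwa [op_mono, pow_zero, pow_one] at h1

theorem LL.lim (hk : Ctx0 k v) (hw : ∀ i, Lim v E 0 (w i)) (hx : LL p E w x) : Lim v E 0 x := by
  obtain ⟨e, he, c, rfl⟩ := hx
  exact lm_add (lm_mem he) (lim_sum _ fun i _ => lim_op hk (hw i) (c i))

theorem LL.sp (hx : LL p E w x) : SpFL p v E w x := ⟨x, hx, by rw [sub_self]; exact RVal.Ge.zero⟩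

theorem SpFL.of_nr (hx : Nr v E 0 x) : SpFL p v E w x := by
  obtain ⟨e, he, h1⟩ := hx
  exact ⟨e, LL.of_mem he, h1⟩

theorem SpFL.add (hx : SpFL p v E w x) (hy : SpFL p v E w y) : SpFL p v E w (x + y) := by
  obtain ⟨a, ha, h1⟩ := hx
  obtain ⟨b, hb, h2⟩ := hy
  exact ⟨a + b, ha.add hb, by rw [add_sub_add_comm]; exact h1.add h2⟩

theorem SpFL.neg (hx : SpFL p v E w x) : SpFL p v E w (-x) := by
  obtain ⟨a, ha, h1⟩ := hx
  exact ⟨-a, ha.neg, by rw [neg_sub_neg]; exact ge_sub_comm h1⟩

theorem SpFL.sub (hx : SpFL p v E w x) (hy : SpFL p v E w y) : SpFL p v E w (x - y) := by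
  rw [sub_eq_add_neg]
  exact hx.add hy.neg

theorem SpFL.congr (hx : SpFL p v E w x) (h : v.Ge 0 (y - x)) : SpFL p v E w y := by
  obtain ⟨a, ha, h1⟩ := hx
  refine ⟨a, ha, ?_⟩
  have h2 := h.add h1
  rwa [sub_add_sub_cancel] at h2

theorem SpFL.sum {τ : Type*} (S : Finset τ) {f : τ → Ω} (h : ∀ i ∈ S, SpFL p v E w (f i)) :
    SpFL p v E w (∑ i ∈ S, f i) := by
  classical
  induction S using Finset.induction_on with
  | empty => rw [Finset.sum_empty]; exact (LL.of_mem (zero_mem E)).sp
  | insert i S hi ih =>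
    rw [Finset.sum_insert hi]
    exact (h i (Finset.mem_insert_self i S)).add
      (ih fun j hj => h j (Finset.mem_insert_of_mem hj))

theorem SpFL.op (hk : Ctx0 k v) (hx : SpFL p v E w x) (P : k[X]) : SpFL p v E w (op p P x) := by
  obtain ⟨a, ha, h1⟩ := hx
  exact ⟨_, ha.op v P, by rw [← op_sub_right]; exact op_ge_zero hk P h1⟩

theorem SpFL.trans (hk : Ctx0 k v) (hx : SpFL p v E w x) (h : ∀ i, SpFL p v E w' (w i)) :
    SpFL p v E w' x := by
  obtain ⟨a, ⟨e, he, c, rfl⟩, h1⟩ := hx
  refine SpFL.congr (SpFL.add (LL.of_mem he).sp (SpFL.sum _ fun i _ => (h i).op hk (c i))) h1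

end Alg

/-! ### The basis -/

section Basis

variable [IsAlgClosed k] [IsAlgClosed Ω] [Fact p.Prime] [CharP k p] [CharP Ω p]

/-- Reduction of a relation to one letter. -/
theorem exists_one_rel (hk : Ctx0 k v) {ι : Type} [Fintype ι] [DecidableEq ι] (n : ℕ) :
    ∀ (w : ι → Ω) (Q : ι → k[X]), (∀ i, Lim v E 0 (w i)) → ∑ i, szo (Q i) = n →
    (∃ i, Q i ≠ 0) → Nr v E 0 (∑ i, op p (Q i) (w i)) →
    ∃ (w' : ι → Ω) (i₀ : ι) (P : k[X]), (∀ i, Lim v E 0 (w' i)) ∧ P ≠ 0 ∧
      Nr v E 0 (op p P (w' i₀)) ∧ (∀ i, WdFL k p w (w' i)) ∧ ∀ i, WdFL k p w' (w i) := by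
  classical
  induction n using Nat.strong_induction_on with
  | _ n ih =>
    intro w Q hl hn hQ hy
    by_cases hone : ∀ i j, i ≠ j → Q i ≠ 0 → Q j = 0
    · obtain ⟨i₀, hi₀⟩ := hQ
      refine ⟨w, i₀, Q i₀, hl, hi₀, ?_, fun i => WdFL.self i, fun i => WdFL.self i⟩
      rw [Finset.sum_eq_single i₀] at hy
      · exact hy
      · intro j _ hj
        rw [hone i₀ j hj.symm hi₀, op_zero]
      · intro h
        exact absurd (Finset.mem_univ i₀) h
    · push Not at hone
      obtain ⟨i', j', hij', hi', hj'⟩ := hone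
      obtain ⟨i, j, hij, hi, hj, hd⟩ : ∃ i j : ι, i ≠ j ∧ Q i ≠ 0 ∧ Q j ≠ 0 ∧
          (Q i).natDegree ≤ (Q j).natDegree := by
        rcases le_total (Q i').natDegree (Q j').natDegree with h | h
        · exact ⟨i', j', hij', hi', hj', h⟩
        · exact ⟨j', i', hij'.symm, hj', hi', h⟩
      obtain ⟨R, hR⟩ := div_step (p := p) hi hj hd
      set w₁ : ι → Ω := fun l => w l + if l = i then op p R (w j) else 0 with hw₁
      set Q₁ : ι → k[X] := fun l => if l = j then Q j - tw p (Q i) R else Q l with hQ₁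
      have hw₁j : w₁ j = w j := by
        rw [hw₁]
        simp only
        rw [if_neg hij.symm, add_zero]
      have hw₁i : w₁ i = w i + op p R (w j) := by
        rw [hw₁]
        simp only [if_true]
      have hsum : ∑ l, op p (Q₁ l) (w₁ l) = ∑ l, op p (Q l) (w l) := by
        have e2 : ∀ l, op p (Q₁ l) (w₁ l) = op p (Q l) (w l) +
            ((if l = i then op p (tw p (Q i) R) (w j) else 0) -
              if l = j then op p (tw p (Q i) R) (w j) else 0) := by
          intro l
          by_cases h1 : l = i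
          · subst h1
            rw [hQ₁, hw₁]
            simp only [if_true, if_neg hij]
            rw [op_add_right, op_tw v]
            ring
          · by_cases h2 : l = j
            · subst h2
              rw [hw₁j, hQ₁]
              simp only [if_true, if_neg h1]
              rw [op_sub]
              ring
            · rw [hQ₁, hw₁]
              simp only [if_neg h1, if_neg h2]
              rw [add_zero, sub_zero, add_zero]
        rw [Finset.sum_congr rfl fun l _ => e2 l, Finset.sum_add_distrib, Finset.sum_sub_distrib,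
          Finset.sum_ite_eq' Finset.univ i, if_pos (Finset.mem_univ i),
          Finset.sum_ite_eq' Finset.univ j, if_pos (Finset.mem_univ j), sub_self, add_zero]
      have hlim : ∀ l, Lim v E 0 (w₁ l) := by
        intro l
        rw [hw₁]
        simp only
        refine lm_add (hl l) ?_
        split_ifs
        · exact lim_op hk (hl j) R
        · exact lm_mem (zero_mem E)
      have hlt : ∑ l, szo (Q₁ l) < n := by
        rw [← hn]
        refine Finset.sum_lt_sum (fun l _ => ?_) ⟨j, Finset.mem_univ j, ?_⟩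
        · rw [hQ₁]
          simp only
          split_ifs with h
          · rw [h]
            exact hR.le
          · exact le_rfl
        · rw [hQ₁]
          simp only [if_true]
          exact hR
      have hne : ∃ l, Q₁ l ≠ 0 := ⟨i, by
        rw [hQ₁]
        simp only
        rw [if_neg hij]
        exact hi⟩
      obtain ⟨w', i₀, P, h2, h3, h4, h5, h6⟩ := ih _ hlt w₁ Q₁ hlim rfl hne (by rwa [hsum])
      have hw1 : ∀ l, WdFL k p w (w₁ l) := by
        intro l
        rw [hw₁]
        simp only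
        refine (WdFL.self l).add ?_
        split_ifs
        exacts [(WdFL.self j).op v R, WdFL.zero]
      have hw2 : ∀ l, WdFL k p w₁ (w l) := by
        intro l
        by_cases hli : l = i
        · rw [hli]
          have h7 : w i = w₁ i + op p (-R) (w₁ j) := by
            rw [hw₁i, hw₁j, op_neg]
            ring
          rw [h7]
          exact (WdFL.self i).add ((WdFL.self j).op v (-R))
        · have h7 : w l = w₁ l := by
            rw [hw₁]
            simp only
            rw [if_neg hli, add_zero]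
          rw [h7]
          exact WdFL.self l
      exact ⟨w', i₀, P, h2, h3, h4, fun l => (h5 l).trans v hw1, fun l => (hw2 l).trans v h6⟩

/-- **A free basis.** -/
theorem exists_basis (hk : Ctx0 k v)
    (htf : ∀ (P : k[X]) (x : Ω), P ≠ 0 → Lim v E 0 x → Nr v E 0 (op p P x) → Nr v E 0 x) (n : ℕ) :
    ∀ (w : Fin n → Ω), (∀ i, Lim v E 0 (w i)) →
    ∃ (m : ℕ) (s : Fin m → Ω), (∀ i, Lim v E 0 (s i)) ∧ Fre p v E s ∧
      (∀ i, WdFL k p w (s i)) ∧ ∀ i, SpFL p v E s (w i) := by
  induction n with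
  | zero =>
    intro w hl
    exact ⟨0, w, hl, fun c _ i => i.elim0, fun i => i.elim0, fun i => i.elim0⟩
  | succ n ih =>
    intro w hl
    by_cases hw : Fre p v E w
    · exact ⟨n + 1, w, hl, hw, fun i => WdFL.self i, fun i => (WdFL.self i).ll.sp⟩
    · have h0 : ∃ Q : Fin (n + 1) → k[X], (∃ i, Q i ≠ 0) ∧
          Nr v E 0 (∑ i, op p (Q i) (w i)) := by
        by_contra hcon
        refine hw fun c hc i => ?_
        by_contra hi
        exact hcon ⟨c, ⟨i, hi⟩, hc⟩
      obtain ⟨Q, hQ, h1⟩ := h0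
      obtain ⟨w', i₀, P, hl', hP, h2, h3, h4⟩ := exists_one_rel hk _ w Q hl rfl hQ h1
      have h5 := htf P _ hP (hl' i₀) h2
      obtain ⟨m, s, hs1, hs2, hs3, hs4⟩ := ih (fun i => w' (i₀.succAbove i)) fun i => hl' _
      have h6 : ∀ i, SpFL p v E s (w' i) := by
        intro i
        by_cases hi : i = i₀
        · rw [hi]
          exact SpFL.of_nr h5
        · obtain ⟨l, hl⟩ := Fin.exists_succAbove_eq hi
          rw [← hl]
          exact hs4 l
      refine ⟨m, s, hs1, hs2, fun i => (hs3 i).trans v fun l => h3 _, fun i => ?_⟩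
      exact SpFL.trans hk ((h4 i).ll.sp) h6

end Basis

end Pool.Agent.TWIV
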