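import Pool.Agent.Lib.TWIV.FLe

/-!
# TANK W, leaf (IV), the free lift of higher derivations, part 6: operators on jets

* `opJ p P U = ∑ P_a U ^ (p ^ a)`, the jet of `P(F) x` if `U` is the jet of `x`;
* `Lvl.psi_op`: for the elements of level `N`, at the level `N`;
* `solve_opJ`: the triangular system `P(F) U = Z` in the jets with coefficients in `E ∩ O`.
-/

set_option autoImplicit false
set_option linter.unusedSectionVars false

open Polynomial

namespace Pool.Agent.TWIV

open Pool.Agent.H15JM (RVal)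
open Pool.Agent.LU1 (VPos adj)
open Pool.Agent.D2 (Ctx0)
open Pool.Agent.TWM Pool.Agent.TWC

universe u

variable {k Ω : Type u} [Field k] [Field Ω] [Algebra k Ω] {v : RVal Ω} {p : ℕ}
  {E : IntermediateField k Ω}

theorem ge_of_pow {x : Ω} {m : ℕ} (hm : 0 < m) (h : v.Ge 0 (x ^ m)) : v.Ge 0 x := by
  intro h0
  have h1 := h (pow_ne_zero m h0)
  rw [v.map_pow h0] at h1
  have hm' : (0 : ℝ) < m := by exact_mod_cast hm
  exact (mul_nonneg_iff_of_pos_left hm').1 h1

/-- The operators on the jets. -/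
noncomputable def opJ (p : ℕ) (P : k[X]) (U : Polynomial Ω) : Polynomial Ω :=
  ∑ a ∈ P.support, C (algebraMap k Ω (P.coeff a)) * U ^ p ^ a

theorem expand_opJ (P : k[X]) (U : Polynomial Ω) (m : ℕ) :
    expand Ω m (opJ p P U) = opJ p P (expand Ω m U) := by
  rw [opJ, opJ, map_sum]
  exact Finset.sum_congr rfl fun a _ => by rw [map_mul, map_pow, expand_C]

theorem Cg.opJ {q : ℕ} {U U' : Polynomial Ω} (h : Cg q U U') (P : k[X]) :
    Cg q (opJ p P U) (opJ p P U') := Cg.sum _ fun _ _ => (Cg.refl _).mul (h.pow _)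

section

variable [Fact p.Prime] [CharP Ω p]

theorem coeff_pow_char (U : Polynomial Ω) (a j : ℕ) :
    (U ^ p ^ a).coeff j = if p ^ a ∣ j then U.coeff (j / p ^ a) ^ p ^ a else 0 := by
  have hp := (Fact.out : p.Prime).pos
  rw [← map_iterateFrobenius_expand p, coeff_map, coeff_expand (pow_pos hp a),
    iterateFrobenius_def]
  split_ifs
  · rfl
  · exact zero_pow (pow_ne_zero _ hp.ne')

theorem coeff_opJ (P : k[X]) (U : Polynomial Ω) (j : ℕ) :
    (opJ p P U).coeff j = ∑ a ∈ P.support, algebraMap k Ω (P.coeff a) *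
      if p ^ a ∣ j then U.coeff (j / p ^ a) ^ p ^ a else 0 := by
  rw [opJ, finsetSum_coeff]
  exact Finset.sum_congr rfl fun a _ => by rw [coeff_C_mul, coeff_pow_char]

theorem opJ_add (P : k[X]) (U V : Polynomial Ω) : opJ p P (U + V) = opJ p P U + opJ p P V := by
  rw [opJ, opJ, opJ, ← Finset.sum_add_distrib]
  exact Finset.sum_congr rfl fun a _ => by rw [add_pow_char_pow, mul_add]

theorem opJ_sub (P : k[X]) (U V : Polynomial Ω) : opJ p P (U - V) = opJ p P U - opJ p P V := by
  rw [opJ, opJ, opJ, ← Finset.sum_sub_distrib]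
  exact Finset.sum_congr rfl fun a _ => by rw [sub_pow_char_pow, mul_sub]

theorem opJ_coeff_zero (P : k[X]) (U : Polynomial Ω) :
    (opJ p P U).coeff 0 = op p P (U.coeff 0) := by
  rw [coeff_opJ, op_eq]
  exact Finset.sum_congr rfl fun a _ => by rw [if_pos (dvd_zero _), Nat.zero_div]

theorem opJ_geP (hk : Ctx0 k v) (P : k[X]) {r : ℝ} (hr : r ≤ 0) {q : ℕ} {U : Polynomial Ω}
    (hU : GeP v q r U) : GeP v q ((p : ℝ) ^ P.natDegree * r) (opJ p P U) := by
  have hp1 : (1 : ℝ) ≤ p := by exact_mod_cast (Fact.out : p.Prime).one_lt.le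
  intro j hj
  rw [coeff_opJ]
  refine RVal.Ge.sum _ _ fun a ha => ?_
  split_ifs
  · have h1 := (hk.ge (P.coeff a)).mul (ge_pow (hU (j / p ^ a) ((Nat.div_le_self _ _).trans_lt hj))
      (p ^ a))
    refine h1.mono ?_
    have h2 : a ≤ P.natDegree := le_natDegree_of_mem_supp a ha
    have h3 : (p : ℝ) ^ a ≤ (p : ℝ) ^ P.natDegree := pow_le_pow_right₀ hp1 h2
    push_cast
    nlinarith
  · rw [mul_zero]
    exact RVal.Ge.zero

theorem opJ_mem (P : k[X]) {U : Polynomial Ω} (hU : ∀ j, U.coeff j ∈ E) (j : ℕ) :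
    (opJ p P U).coeff j ∈ E := by
  rw [coeff_opJ]
  refine sum_mem fun a _ => mul_mem (E.algebraMap_mem _) ?_
  split_ifs
  exacts [pow_mem (hU _) _, zero_mem _]

theorem opJ_ge (hk : Ctx0 k v) (P : k[X]) {U : Polynomial Ω} (hU : ∀ j, v.Ge 0 (U.coeff j))
    (j : ℕ) : v.Ge 0 ((opJ p P U).coeff j) := by
  have h1 := opJ_geP (p := p) hk P le_rfl (q := j + 1) (fun j _ => hU j) j (Nat.lt_succ_self j)
  rwa [mul_zero] at h1

/-- The triangular system. -/
theorem solve_opJ (hk : Ctx0 k v) (hP : ∀ a ∈ E, ∃ b ∈ E, b ^ p = a) {P : k[X]} {a₀ : ℕ}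
    (ha₀ : P.coeff a₀ ≠ 0) (hlow : ∀ a < a₀, P.coeff a = 0) {Z : Polynomial Ω}
    (hZE : ∀ j, Z.coeff j ∈ E) (hZO : ∀ j, v.Ge 0 (Z.coeff j)) (hZ0 : Z.coeff 0 = 0)
    (hZd : ∀ j, ¬ p ^ a₀ ∣ j → Z.coeff j = 0) (K : ℕ) :
    ∃ U : Polynomial Ω, (∀ j, U.coeff j ∈ E) ∧ (∀ j, v.Ge 0 (U.coeff j)) ∧ U.coeff 0 = 0 ∧
      Cg K (opJ p P U) Z := by
  have hp := (Fact.out : p.Prime).pos
  have hsup : ∀ a ∈ P.support, a₀ ≤ a := fun a ha => by
    by_contra h
    exact mem_support_iff.1 ha (hlow a (not_le.1 h))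
  induction K with
  | zero =>
    exact ⟨0, fun _ => by rw [coeff_zero]; exact zero_mem _, fun _ => by
      rw [coeff_zero]; exact RVal.Ge.zero, coeff_zero 0, fun j hj => absurd hj (Nat.not_lt_zero j)⟩
  | succ K ih =>
    obtain ⟨U, hU1, hU2, hU3, hU4⟩ := ih
    by_cases hK0 : K = 0
    · refine ⟨U, hU1, hU2, hU3, fun j hj => ?_⟩
      have hj0 : j = 0 := by omega
      rw [hj0, hZ0, opJ_coeff_zero, hU3, op_zero_right]
    by_cases hKd : p ^ a₀ ∣ K
    · obtain ⟨l, hl⟩ := hKd
      have hl0 : 0 < l := by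
        rcases Nat.eq_zero_or_pos l with h | h
        · rw [h, mul_zero] at hl
          exact absurd hl hK0
        · exact h
      set c : Ω := Z.coeff K - (opJ p P U).coeff K with hc
      have hcE : c ∈ E := sub_mem (hZE K) (opJ_mem P hU1 K)
      have hcO : v.Ge 0 c := (hZO K).sub (opJ_ge hk P hU2 K)
      have hu : algebraMap k Ω (P.coeff a₀) ≠ 0 := (_root_.map_ne_zero _).2 ha₀
      obtain ⟨b, hbE, hb⟩ := exists_rootn p hP a₀ ((algebraMap k Ω (P.coeff a₀))⁻¹ * c)
        (mul_mem (inv_mem (E.algebraMap_mem _)) hcE)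
      have hbO : v.Ge 0 b := by
        refine ge_of_pow (pow_pos hp a₀) ?_
        rw [hb]
        have h1 := (hk.ge (P.coeff a₀)⁻¹).mul hcO
        rwa [add_zero, map_inv₀] at h1
      have hmon : ∀ j, (opJ p P (monomial l b)).coeff j =
          ∑ a ∈ P.support, algebraMap k Ω (P.coeff a) * if j = p ^ a * l then b ^ p ^ a else 0 := by
        intro j
        rw [coeff_opJ]
        refine Finset.sum_congr rfl fun a _ => ?_
        congr 1
        by_cases h1 : j = p ^ a * l
        · rw [if_pos h1, h1, if_pos (dvd_mul_right _ _), Nat.mul_div_cancel_left _ (pow_pos hp a),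
            coeff_monomial, if_pos rfl]
        · rw [if_neg h1]
          split_ifs with h2
          · rw [coeff_monomial, if_neg, zero_pow (pow_ne_zero _ hp.ne')]
            intro h3
            exact h1 (by rw [h3, Nat.mul_div_cancel' h2])
          · rfl
      refine ⟨U + monomial l b, fun j => ?_, fun j => ?_, ?_, fun j hj => ?_⟩
      · rw [coeff_add, coeff_monomial]
        refine add_mem (hU1 j) ?_
        split_ifs
        exacts [hbE, zero_mem _]
      · rw [coeff_add, coeff_monomial]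
        refine (hU2 j).add ?_
        split_ifs
        exacts [hbO, RVal.Ge.zero]
      · rw [coeff_add, hU3, coeff_monomial, if_neg hl0.ne', add_zero]
      · rw [opJ_add, coeff_add, hmon]
        rcases Nat.lt_succ_iff_lt_or_eq.1 hj with h1 | h1
        · rw [hU4 j h1, Finset.sum_eq_zero, add_zero]
          intro a ha
          rw [if_neg, mul_zero]
          intro h2
          have h3 : p ^ a₀ * l ≤ p ^ a * l :=
            Nat.mul_le_mul_right l (Nat.pow_le_pow_right hp (hsup a ha))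
          omega
        · rw [h1, Finset.sum_eq_single a₀]
          · rw [if_pos hl, hb, mul_inv_cancel_left₀ hu, hc, add_sub_cancel]
          · intro a ha haa
            rw [if_neg, mul_zero]
            intro h2
            rw [hl] at h2
            have h3 : p ^ a₀ = p ^ a := Nat.eq_of_mul_eq_mul_right hl0 h2
            exact haa (Nat.pow_right_injective (Fact.out : p.Prime).two_le h3).symm
          · intro h2
            exact absurd (mem_support_iff.2 ha₀) h2
    · refine ⟨U, hU1, hU2, hU3, fun j hj => ?_⟩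
      rcases Nat.lt_succ_iff_lt_or_eq.1 hj with h1 | h1
      · exact hU4 j h1
      · rw [h1, hZd K hKd, coeff_opJ, Finset.sum_eq_zero]
        intro a ha
        rw [if_neg, mul_zero]
        exact fun h2 => hKd ((pow_dvd_pow p (hsup a ha)).trans h2)

end

/-! ### Jets of words -/

section Lvl

variable [Fact p.Prime] [CharP Ω p] {n : ℕ} {R : Subalgebra k Ω} {D : ℕ → Subalgebra k Ω}
  {Th : ℕ → ℕ → Ω → Ω}

/-- The jets of words in elements of level `N`. -/
theorem Lvl.psi_op (h : HSn p v n R D Th) {N : ℕ} (hN : n ≤ N) {x : Ω} (hx : Lvl p n R Th N x)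
    (P : k[X]) : Cg (p ^ N) (psi (p ^ N) (Th N) (Pool.Agent.TWIV.op p P x)) (opJ p P (psi (p ^ N) (Th N) x)) := by
  have hp := (Fact.out : p.Prime).pos
  intro j hj
  rw [coeff_psi, if_pos hj, op_eq, (h.dq hN).map_sum hj _ fun a _ =>
    mul_mem (algebraMap_mem R _) (pow_mem hx.mem _), coeff_opJ]
  refine Finset.sum_congr rfl fun a _ => ?_
  rw [h.smul _ hN hj (pow_mem hx.mem _), h.frob' hN hj hx.mem a]
  congr 1
  have hj' : j < p ^ (a + N) := hj.trans_le (Nat.pow_le_pow_right hp (by omega))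
  split_ifs with h1
  · obtain ⟨i, rfl⟩ := h1
    have hi : i < p ^ N := lt_of_le_of_lt (Nat.le_mul_of_pos_left i (pow_pos hp a)) hj
    rw [h.lev' hN a hi hx.mem, Nat.mul_div_cancel_left _ (pow_pos hp a), coeff_psi, if_pos hi]
  · rw [add_comm N a, hx.lvl a (by omega) j hj' h1, zero_pow (pow_ne_zero _ hp.ne')]

theorem HSn.restrict (h : HSn p v n R D Th) {n' : ℕ} (hn : n ≤ n') : HSn p v n' R D Th where
  le := fun N hN => h.le N (hn.trans hN)
  mono := fun N hN => h.mono N (hn.trans hN)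
  dense := fun x hx b => by
    obtain ⟨N, hN, y, hy, h1⟩ := h.dense x hx b
    exact ⟨max N n', le_max_right _ _, y, h.mono' hN (le_max_left _ _) hy, h1⟩
  add := fun N hN => h.add N (hn.trans hN)
  ge := fun N hN => h.ge N (hn.trans hN)
  zero := fun N hN => h.zero N (hn.trans hN)
  alg := fun N hN => h.alg N (hn.trans hN)
  mul := fun N hN => h.mul N (hn.trans hN)
  lev := fun N hN => h.lev N (hn.trans hN)
  nil := fun N hN => h.nil N (hn.trans hN)

/-- The jets of the elements of `D n`. -/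
theorem HSn.psi_up (h : HSn p v n R D Th) {N : ℕ} (hN : n ≤ N) {x : Ω} (hx : x ∈ D N) (d : ℕ) :
    psi (p ^ (N + d)) (Th (N + d)) x = expand Ω (p ^ d) (psi (p ^ N) (Th N) x) := by
  induction d with
  | zero => rw [add_zero, pow_zero, expand_one]
  | succ d ih =>
    rw [← add_assoc, h.psi_nil (by omega) (h.mono' hN (by omega) hx), ih, expand_expand, pow_succ,
      mul_comm]

end Lvl

end Pool.Agent.TWIV
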