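import Pool.Agent.Lib.TWIV.FLf

/-!
# TANK W, leaf (IV), the free lift of higher derivations, part 7: constant Artin–Schreier letters

`HSn.chainAS`: the operators extend to `R[t_0, …, t_{m - 1}]`, where `t_i ^ p - t_i` is a constant and
the polynomials of degree `< p` are strict at `t_i`; the `t_i` are constants.
-/

set_option autoImplicit false
set_option linter.unusedSectionVars false

open Polynomial

namespace Pool.Agent.TWIV

open Pool.Agent.H15JM (RVal)
open Pool.Agent.LU1 (VPos adj)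
open Pool.Agent.D2 (Ctx0)
open Pool.Agent.TWM Pool.Agent.TWC

universe u

variable {k Ω : Type u} [Field k] [Field Ω] [Algebra k Ω] {v : RVal Ω} {p n : ℕ}
  {R : Subalgebra k Ω} {D : ℕ → Subalgebra k Ω} {Th : ℕ → ℕ → Ω → Ω}

section

variable [Fact p.Prime]

theorem monomial_mem_PR {c : Ω} (hc : c ∈ R) (i : ℕ) : monomial i c ∈ PR R := fun j => by
  rw [coeff_monomial]
  split_ifs
  exacts [hc, zero_mem _]

theorem Dq.lf_monomial {q : ℕ} {θ : ℕ → Ω → Ω} {D₀ : Subalgebra k Ω} (h : Dq q R D₀ θ)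
    (S : Polynomial Ω) (i : ℕ) (c : Ω) : lf q θ S (monomial i c) = psi q θ c * S ^ i := by
  rw [h.lf_range S (n := i + 1) (Nat.lt_succ_of_le (natDegree_monomial_le c)),
    Finset.sum_eq_single i]
  · rw [coeff_monomial, if_pos rfl]
  · intro j _ hj
    rw [coeff_monomial, if_neg hj.symm, h.psi_zero, zero_mul]
  · intro hi
    exact absurd (Finset.mem_range.2 (Nat.lt_succ_self i)) hi

/-- The reduction of the degree modulo `X ^ p - X - w`. -/
theorem HSn.red (h : HSn p v n R D Th) {t w : Ω} (hw : w ∈ R) (ht : t ^ p - t = w)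
    (hwc : ∀ M, n ≤ M → ∀ j < p ^ M, 0 < j → Th M j w = 0) (d : ℕ) :
    ∀ f ∈ PR R, f.natDegree < d → ∃ g ∈ PR R, g.natDegree < p ∧ g.eval t = f.eval t ∧
      ∀ N, n ≤ N → Cg (p ^ N) (lf (p ^ N) (Th N) (jT p n (C t) N) f)
        (lf (p ^ N) (Th N) (jT p n (C t) N) g) := by
  have hp := (Fact.out : p.Prime)
  induction d with
  | zero => exact fun f _ hd => absurd hd (Nat.not_lt_zero _)
  | succ d ih =>
    intro f hf hd
    rcases Nat.lt_succ_iff_lt_or_eq.1 hd with hd' | hd'
    · exact ih f hf hd'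
    by_cases hpd : d < p
    · exact ⟨f, hf, by omega, rfl, fun N _ => Cg.refl _⟩
    rw [not_lt] at hpd
    obtain ⟨i, hi⟩ := Nat.exists_eq_add_of_le hpd
    set c := f.coeff d with hc
    have hcR : c ∈ R := hf d
    set g : Polynomial Ω := f.erase d + (monomial (i + 1) c + monomial i (w * c)) with hg
    have hfe : f = f.erase d + monomial d c := by
      rw [add_comm, hc]
      exact (monomial_add_erase f d).symm
    have herR : f.erase d ∈ PR R := fun j => by
      rw [coeff_erase]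
      split_ifs
      exacts [zero_mem _, hf j]
    have hgR : g ∈ PR R := add_mem herR (add_mem (monomial_mem_PR hcR _)
      (monomial_mem_PR (mul_mem hw hcR) _))
    have hgd : g.natDegree < d := by
      have hd1 : 0 < d := hp.pos.trans_le hpd
      have hle : g.natDegree ≤ d - 1 := by
        rw [natDegree_le_iff_coeff_eq_zero]
        intro j hj
        have hj1 : i + 1 ≠ j := by have := hp.two_le; omega
        have hj2 : i ≠ j := by have := hp.two_le; omega
        rw [hg, coeff_add, coeff_add, coeff_monomial, coeff_monomial, if_neg hj1, if_neg hj2,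
          add_zero, add_zero, coeff_erase]
        split_ifs with h1
        · rfl
        · exact coeff_eq_zero_of_natDegree_lt (by omega)
      exact lt_of_le_of_lt hle (Nat.sub_lt hd1 one_pos)
    obtain ⟨g', hg', hgd', hge, hgl⟩ := ih g hgR hgd
    refine ⟨g', hg', hgd', ?_, fun N hN => Cg.trans ?_ (hgl N hN)⟩
    · rw [hge, hg]
      conv_rhs => rw [hfe]
      have htp : t ^ p = t + w := by rw [← ht]; ring
      have htd : t ^ d = (t + w) * t ^ i := by rw [hi, pow_add, htp]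
      rw [eval_add, eval_add, eval_add, eval_monomial, eval_monomial, eval_monomial, htd]
      ring
    · have hS : jT p n (C t) N = C t := by rw [jT, expand_C]
      have hcm : Cg (p ^ N) (psi (p ^ N) (Th N) (w * c)) (C w * psi (p ^ N) (Th N) c) := by
        intro j hj
        rw [coeff_C_mul, coeff_psi, coeff_psi, if_pos hj, if_pos hj, h.const_mul hw hwc hN hj hcR]
      have h1 : lf (p ^ N) (Th N) (jT p n (C t) N) f = lf (p ^ N) (Th N) (jT p n (C t) N)
          (f.erase d) + psi (p ^ N) (Th N) c * C t ^ d := by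
        conv_lhs => rw [hfe]
        rw [(h.dq hN).lf_add _ herR (monomial_mem_PR hcR _), (h.dq hN).lf_monomial, hS]
      rw [h1, hg, (h.dq hN).lf_add _ herR (add_mem (monomial_mem_PR hcR _)
        (monomial_mem_PR (mul_mem hw hcR) _)), (h.dq hN).lf_add _ (monomial_mem_PR hcR _)
        (monomial_mem_PR (mul_mem hw hcR) _), (h.dq hN).lf_monomial, (h.dq hN).lf_monomial, hS]
      refine (Cg.refl _).add ?_
      have h2 : psi (p ^ N) (Th N) c * C t ^ d = psi (p ^ N) (Th N) c * C t ^ (i + 1) +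
          C w * psi (p ^ N) (Th N) c * C t ^ i := by
        rw [hi, pow_add, ← C_pow (n := p), show t ^ p = t + w by rw [← ht]; ring, C_add]
        ring
      rw [h2]
      exact (Cg.refl _).add (hcm.symm.mul (Cg.refl _))

theorem HSn.ltr_as (h : HSn p v n R D Th) {t w : Ω} (hw : w ∈ R) (ht : t ^ p - t = w)
    (hwc : ∀ M, n ≤ M → ∀ j < p ^ M, 0 < j → Th M j w = 0)
    (hstr : ∀ f ∈ PR R, f ≠ 0 → f.natDegree < p → Str v 0 (taylor t f)) :
    Ltr v R t fun d => d < p where
  down := fun _ _ hab hb => hab.trans_lt hb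
  rep := fun f hf => by
    obtain ⟨g, hg, hgd, hge, -⟩ := h.red hw ht hwc _ f hf (Nat.lt_succ_self _)
    exact ⟨g, hg, hgd, hge⟩
  str := hstr

theorem HSn.wdl_as (h : HSn p v n R D Th) {t w : Ω} (hw : w ∈ R) (ht : t ^ p - t = w)
    (hwc : ∀ M, n ≤ M → ∀ j < p ^ M, 0 < j → Th M j w = 0)
    (hstr : ∀ f ∈ PR R, f ≠ 0 → f.natDegree < p → Str v 0 (taylor t f)) :
    WdL p n R Th t (C t) := by
  intro N hN f hf hft j hj
  obtain ⟨g, hg, hgd, hge, hgl⟩ := h.red hw ht hwc _ f hf (Nat.lt_succ_self _)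
  have h0 : g = 0 := by
    by_contra h0
    have h1 := (hstr g hg h0 hgd).ne
    rw [taylor_coeff_zero, hge] at h1
    exact h1 hft
  rw [hgl N hN j hj, h0, (h.dq hN).lf_zero, coeff_zero]

variable {A : ℕ → IntermediateField k Ω} {t : ℕ → Ω}

/-- **Constant Artin–Schreier letters.** -/
theorem HSn.chainAS (h : HSn p v n R D Th) (m : ℕ) (hR : R ≤ (A 0).toSubalgebra)
    (hA : ∀ i < m, A i ≤ A (i + 1)) (htA : ∀ i < m, t i ∈ A (i + 1))
    (hstr : ∀ i < m, ∀ f ∈ PI (A i), f ≠ 0 → f.natDegree < p → Str v 0 (taylor (t i) f))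
    (hw : ∀ i < m, t i ^ p - t i ∈ R)
    (hwc : ∀ i < m, ∀ M, n ≤ M → ∀ j < p ^ M, 0 < j → Th M j (t i ^ p - t i) = 0)
    (hT : ∀ i < m, ∀ ε : ℝ, 0 < ε → ∃ N, n ≤ N ∧ ∃ σ ∈ D N, v.Ge (-ε) (t i - σ) ∧
      ∀ j < p ^ N, 0 < j → v.Ge (-ε) (Th N j σ)) :
    ∃ Th' : ℕ → ℕ → Ω → Ω, HSn p v n (adN R t m) (fun N => adN (D N) t m) Th' ∧
      (∀ N, n ≤ N → ∀ j < p ^ N, ∀ x ∈ R, Th' N j x = Th N j x) ∧
      (∀ N, n ≤ N → ∀ j < p ^ N, 0 < j → ∀ i < m, Th' N j (t i) = 0) ∧
      ∀ B : Subalgebra k Ω, (∀ N, n ≤ N → ∀ j < p ^ N, ∀ x ∈ R, Th N j x ∈ B) →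
        (∀ i < m, t i ∈ B) → ∀ N, n ≤ N → ∀ j < p ^ N, ∀ x ∈ adN R t m, Th' N j x ∈ B := by
  induction m with
  | zero =>
    exact ⟨Th, h, fun _ _ _ _ _ _ => rfl, fun _ _ _ _ _ i hi => absurd hi (Nat.not_lt_zero i),
      fun B hB _ N hN j hj x hx => hB N hN j hj x hx⟩
  | succ m ih =>
    obtain ⟨Th', h', hbase, hself, hstab⟩ := ih (fun i hi => hA i (by omega))
      (fun i hi => htA i (by omega)) (fun i hi => hstr i (by omega)) (fun i hi => hw i (by omega))
      (fun i hi => hwc i (by omega)) (fun i hi => hT i (by omega))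
    have hm := Nat.lt_succ_self m
    have hAi : ∀ i l, i ≤ l → l ≤ m → A i ≤ A l := by
      intro i l hil hl
      induction l, hil using Nat.le_induction with
      | base => exact le_rfl
      | succ l hil ihl => exact (ihl (by omega)).trans (hA l (by omega))
    have hRm : adN R t m ≤ (A m).toSubalgebra :=
      adN_le m (hR.trans (hAi 0 m (Nat.zero_le m) le_rfl)) fun i hi =>
        hAi (i + 1) m (by omega) le_rfl (htA i (by omega))
    have hw' : t m ^ p - t m ∈ adN R t m := le_adN R t m (hw m hm)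
    have hwc' : ∀ M, n ≤ M → ∀ j < p ^ M, 0 < j → Th' M j (t m ^ p - t m) = 0 := by
      intro M hM j hj h0
      rw [hbase M hM j hj _ (hw m hm), hwc m hm M hM j hj h0]
    have hstr' : ∀ f ∈ PR (adN R t m), f ≠ 0 → f.natDegree < p → Str v 0 (taylor (t m) f) :=
      fun f hf => hstr m hm f (fun i => hRm (hf i))
    have hT' : ∀ ε : ℝ, 0 < ε → ∃ N, n ≤ N ∧ ∃ σ ∈ adN (D N) t m,
        GeP v (p ^ N) (-ε) (jT p n (C (t m)) N - psi (p ^ N) (Th' N) σ) := by
      intro ε hε
      obtain ⟨N, hN, σ, hσ, h1, h2⟩ := hT m hm ε hε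
      refine ⟨N, hN, σ, le_adN _ _ _ hσ, fun j hj => ?_⟩
      rw [coeff_sub, coeff_psi, if_pos hj, hbase N hN j hj σ (h.le N hN hσ), jT, expand_C]
      rcases Nat.eq_zero_or_pos j with rfl | h0
      · rw [coeff_C_zero, h.zero N hN σ (h.le N hN hσ)]
        exact h1
      · rw [coeff_C_of_ne_zero h0.ne', zero_sub]
        exact (h2 j hj h0).neg
    have hwd := h'.wdl_as hw' rfl hwc' hstr'
    refine ⟨Tx p n (adN R t m) Th' (t m) (C (t m)),
      h'.adjoinG (h'.ltr_as hw' rfl hwc' hstr') hwd hT' (coeff_C_zero), ?_, ?_, ?_⟩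
    · intro N hN j hj x hx
      rw [h'.Tx_base hwd hN hj (le_adN R t m hx), hbase N hN j hj x hx]
    · intro N hN j hj h0 i hi
      rcases Nat.lt_succ_iff_lt_or_eq.1 hi with h1 | h1
      · rw [h'.Tx_base hwd hN hj (mem_adN R t h1), hself N hN j hj h0 i h1]
      · rw [h1, h'.Tx_self hwd hN hj, jT, expand_C, coeff_C_of_ne_zero h0.ne']
    · intro B hB hTB N hN j hj x hx
      refine h'.Tx_mem hwd (hstab B hB fun i hi => hTB i (by omega)) (fun l => ?_) hN hj hx
      rw [coeff_C]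
      split_ifs
      exacts [hTB m hm, zero_mem _]

end

end Pool.Agent.TWIV
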