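import Pool.Agent.Lib.TWIV.FLg

/-!
# TANK W, leaf (IV), the free lift of higher derivations, part 8: exact letters

`exact_lift`: `s_i` free modulo `A + O`, limits of `D n` with jets in `E + ∑ k{F} t_i + ∑ k{F} s_i + O`,
`y ≡ e + ∑ P_i(F) s_i`, `P ≠ 0`, `y` a limit of `D n`: after moving the `s_i` inside `O`, the operators
extend to `R[s]` with exact jets of the letters in `E + ∑ k{F} t_i + ∑ k{F} s_i`, `y` is exactly a word
and `y ^ (p ^ n)` is a constant.
-/

set_option autoImplicit false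
set_option linter.unusedSectionVars false

open Polynomial

namespace Pool.Agent.TWIV

open Pool.Agent.H15JM (RVal)
open Pool.Agent.LU1 (VPos adj)
open Pool.Agent.D2 (Ctx0)
open Pool.Agent.TWM Pool.Agent.TWC

universe u

variable {k Ω : Type u} [Field k] [Field Ω] [Algebra k Ω] {v : RVal Ω} {p n : ℕ}
  {R : Subalgebra k Ω} {D : ℕ → Subalgebra k Ω} {Th : ℕ → ℕ → Ω → Ω}

theorem ge_of_forall_neg {x : Ω} (h : ∀ ε : ℝ, 0 < ε → v.Ge (-ε) x) : v.Ge 0 x := by
  intro h0
  by_contra h1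
  rw [not_le] at h1
  have := h (-(v x) / 2) (by linarith) h0
  linarith

theorem op_mem_sub {S : Subalgebra k Ω} {f : k[X]} {x : Ω} (hx : x ∈ S) : op p f x ∈ S := by
  rw [op_eq]
  exact sum_mem fun i _ => mul_mem (algebraMap_mem S _) (pow_mem hx _)

section

variable [Fact p.Prime] [CharP k p] [CharP Ω p] {E A : IntermediateField k Ω}

/-- Words in two families. -/
theorem ll_sum {a m : ℕ} {t : Fin a → Ω} {s : Fin m → Ω} {x : Ω} :
    LL p E (Sum.elim t s) x ↔ ∃ e ∈ E, ∃ c : Fin a → k[X], ∃ d : Fin m → k[X],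
      x = e + ∑ i, op p (c i) (t i) + ∑ i, op p (d i) (s i) := by
  constructor
  · rintro ⟨e, he, c, rfl⟩
    refine ⟨e, he, fun i => c (Sum.inl i), fun i => c (Sum.inr i), ?_⟩
    rw [Fintype.sum_sum_type]
    simp only [Sum.elim_inl, Sum.elim_inr]
    ring
  · rintro ⟨e, he, c, d, rfl⟩
    refine ⟨e, he, Sum.elim c d, ?_⟩
    rw [Fintype.sum_sum_type]
    simp only [Sum.elim_inl, Sum.elim_inr]
    ring

theorem ll_move (hk : Ctx0 k v) {a m : ℕ} {t : Fin a → Ω} {s s' : Fin m → Ω} {x : Ω}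
    (hs : ∀ i, v.Ge 0 (s' i - s i)) (hx : LL p E (Sum.elim t s) x) :
    ∃ x', LL p E (Sum.elim t s') x' ∧ v.Ge 0 (x - x') := by
  obtain ⟨e, he, c, d, rfl⟩ := ll_sum.1 hx
  refine ⟨_, ll_sum.2 ⟨e, he, c, d, rfl⟩, ?_⟩
  have h1 : v.Ge 0 (∑ i, op p (d i) (s' i - s i)) :=
    RVal.Ge.sum _ _ fun i _ => op_ge_zero hk (d i) (hs i)
  have h2 := h1.neg
  convert h2 using 1
  simp only [op_sub_right, Finset.sum_sub_distrib]
  ring

variable [IsAlgClosed Ω]

/-- **Exact letters.** -/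
theorem exact_lift (hk : Ctx0 k v) (hA : Cld v A) (hP : ∀ a ∈ E, ∃ b ∈ E, b ^ p = a)
    (h : HSn p v n R D Th) (hRA : R ≤ A.toSubalgebra)
    (hdE : ∀ x ∈ E, ∀ b : ℝ, ∃ N, n ≤ N ∧ ∃ y ∈ D N, y ∈ E ∧ v.Ge b (x - y))
    (hEs : ∀ N, n ≤ N → ∀ j < p ^ N, ∀ x ∈ E, Th N j x ∈ E)
    {m : ℕ} {s : Fin m → Ω} (hl : ∀ i, Lim v A 0 (s i)) (hs : Fre p v A s)
    {T : Fin m → Polynomial Ω} (hT0 : ∀ i, (T i).coeff 0 = s i)
    (hT : ∀ i, ∀ ε : ℝ, 0 < ε → ∃ σ ∈ D n, GeP v (p ^ n) (-ε) (T i - psi (p ^ n) (Th n) σ))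
    {a : ℕ} {t : Fin a → Ω}
    (hTL : ∀ i, ∀ l < p ^ n, ∃ x, LL p E (Sum.elim t s) x ∧ v.Ge 0 ((T i).coeff l - x))
    {y e : Ω} (he : e ∈ E) {P : Fin m → k[X]} {i₀ : Fin m} (hPi : P i₀ ≠ 0)
    (hy : v.Ge 0 (y - e - ∑ i, op p (P i) (s i)))
    (hyl : ∀ ε : ℝ, 0 < ε → ∃ σ ∈ D n, v.Ge (-ε) (y - σ)) :
    ∃ (s' : Fin m → Ω) (N1 : ℕ) (Th' : ℕ → ℕ → Ω → Ω), n ≤ N1 ∧ (∀ i, v.Ge 0 (s' i - s i)) ∧
      HSn p v N1 (adW R s') (fun N => adW (D N) s') Th' ∧
      (∀ N, N1 ≤ N → ∀ j < p ^ N, ∀ x ∈ R, Th' N j x = Th N j x) ∧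
      (∀ N, N1 ≤ N → ∀ j < p ^ N, ∀ i, LL p E (Sum.elim t s') (Th' N j (s' i))) ∧
      LL p E s' y ∧
      (∀ N, N1 ≤ N → ∀ j < p ^ N, 0 < j → Th' N j (y ^ p ^ n) = 0) ∧
      ∀ B : Subalgebra k Ω, (∀ N, n ≤ N → ∀ j < p ^ N, ∀ x ∈ R, Th N j x ∈ B) →
        (∀ x, LL p E (Sum.elim t s') x → x ∈ B) →
        ∀ N, N1 ≤ N → ∀ j < p ^ N, ∀ x ∈ adW R s', Th' N j x ∈ B := by
  classical
  have hpp := (Fact.out : p.Prime)
  have hp := hpp.pos
  have hp1 : (1 : ℝ) ≤ p := by exact_mod_cast hpp.one_lt.le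
  -- the word of finite level
  obtain ⟨N0, hN0, e', he'D, he'E, hee⟩ := hdE e he 0
  have hy' : v.Ge 0 (y - e' - ∑ i, op p (P i) (s i)) := by
    have h1 := hy.add hee
    convert h1 using 1
    ring
  obtain ⟨s', hs', -, hyw⟩ := exact_word hk hy' hPi
  have he'R : e' ∈ R := h.le N0 hN0 he'D
  have hFre : Fre p v A s' := hs.congr hk hs'
  have hl' : ∀ i, Lim v A 0 (s' i) := fun i => lm_congr0 (hl i) (hs' i)
  -- `e'` is killed modulo `O`
  have hkill : ∀ N, n ≤ N → ∀ j < p ^ N, ¬ p ^ (N - n) ∣ j → v.Ge 0 (Th N j e') := by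
    intro N hN j hj hpj
    refine ge_of_forall_neg fun ε hε => ?_
    obtain ⟨σ, hσ, h1⟩ := hyl ε hε
    have h2 : ∀ i, ∃ τ ∈ D n, v.Ge (-ε) (op p (P i) (s' i - τ)) := by
      intro i
      have hq : (0 : ℝ) < (p : ℝ) ^ (P i).natDegree := pow_pos (by linarith) _
      obtain ⟨τ, hτ, h3⟩ := hT i (ε / (p : ℝ) ^ (P i).natDegree) (div_pos hε hq)
      refine ⟨τ, hτ, ?_⟩
      have h4 := h3 0 (pow_pos hp n)
      rw [coeff_sub, hT0, coeff_psi, if_pos (pow_pos hp n), h.zero n le_rfl τ (h.le n le_rfl hτ)]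
        at h4
      have h5 : v.Ge (-(ε / (p : ℝ) ^ (P i).natDegree)) (s' i - τ) := by
        have h6 := ((hs' i).mono (show -(ε / (p : ℝ) ^ (P i).natDegree) ≤ 0 by
          have := div_pos hε hq
          linarith)).add h4
        rwa [sub_add_sub_cancel] at h6
      refine (op_ge (p := p) hk (P i) (by
        have := div_pos hε hq
        linarith) h5).mono (le_of_eq ?_)
      field_simp
    choose τ hτ hτg using h2
    set d : Ω := σ - ∑ i, op p (P i) (τ i) with hd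
    have hdD : d ∈ D n := sub_mem hσ (sum_mem fun i _ => op_mem_sub (hτ i))
    have hdR : d ∈ R := h.le n le_rfl hdD
    have h3 : v.Ge (-ε) (e' - d) := by
      have h4 : e' - d = (y - σ) - ∑ i, op p (P i) (s' i - τ i) := by
        rw [hd, hyw]
        simp only [op_sub_right, Finset.sum_sub_distrib]
        ring
      rw [h4]
      exact h1.sub (RVal.Ge.sum _ _ fun i _ => hτg i)
    have h4 := h.ge N hN j hj (e' - d) (sub_mem he'R hdR) _ h3
    rw [(h.dq hN).map_sub hj he'R hdR] at h4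
    have h5 := (h.lvl_D le_rfl hdD).lvl (N - n) (by omega) j (by rwa [Nat.sub_add_cancel hN]) hpj
    rw [Nat.sub_add_cancel hN] at h5
    rwa [h5, sub_zero] at h4
  -- the lowest coefficient
  have hex : ∃ c, (P i₀).coeff c ≠ 0 := by
    by_contra hcon
    push Not at hcon
    exact hPi (Polynomial.ext fun c => by rw [hcon c, coeff_zero])
  set a₀ := Nat.find hex with ha₀
  have ha1 : (P i₀).coeff a₀ ≠ 0 := Nat.find_spec hex
  have ha2 : ∀ c < a₀, (P i₀).coeff c = 0 := fun c hc => by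
    have := Nat.find_min hex hc
    rwa [not_not] at this
  set N1 := N0 + a₀ with hN1
  have hnN1 : n ≤ N1 := by omega
  -- the correction
  set K := p ^ (N1 - n) with hK
  have hK0 : 0 < K := pow_pos hp _
  have hKle : K ≤ p ^ N1 := Nat.pow_le_pow_right hp (Nat.sub_le _ _)
  set Z : Polynomial Ω := ∑ j ∈ Finset.Ico 1 K, monomial j (-Th N1 j e') with hZ
  have hZc : ∀ j, Z.coeff j = if 1 ≤ j ∧ j < K then -Th N1 j e' else 0 := by
    intro j
    rw [hZ, finsetSum_coeff]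
    simp only [coeff_monomial]
    rw [Finset.sum_ite_eq' (Finset.Ico 1 K) j]
    simp only [Finset.mem_Ico]
  have hnd : ∀ j, 1 ≤ j → j < K → ¬ p ^ (N1 - n) ∣ j := fun j h1 h2 h3 =>
    absurd (Nat.le_of_dvd h1 h3) (not_le.2 h2)
  obtain ⟨U, hU1, hU2, hU3, hU4⟩ := solve_opJ (p := p) hk hP ha1 ha2 (Z := Z)
    (fun j => by
      rw [hZc]
      split_ifs with h1
      · exact neg_mem (hEs N1 hnN1 j (h1.2.trans_le hKle) e' he'E)
      · exact zero_mem _)
    (fun j => by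
      rw [hZc]
      split_ifs with h1
      · exact (hkill N1 hnN1 j (h1.2.trans_le hKle) (hnd j h1.1 h1.2)).neg
      · exact RVal.Ge.zero)
    (by rw [hZc, if_neg (by omega)])
    (fun j hj => by
      rw [hZc]
      split_ifs with h1
      · have h2 := (h.lvl_D hN0 he'D).lvl a₀ (by omega) j (by
          rw [add_comm a₀ N0]
          exact h1.2.trans_le hKle) hj
        rw [add_comm a₀ N0] at h2
        rw [hN1, h2, neg_zero]
      · rfl) K
  -- the jets
  have hτ : ∀ i : Fin m, ∀ l : ℕ, ∃ x, LL p E (Sum.elim t s') x ∧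
      (l < p ^ n → v.Ge 0 ((T i).coeff l - x)) := by
    intro i l
    by_cases hlt : l < p ^ n
    · obtain ⟨x, hx, h1⟩ := hTL i l hlt
      obtain ⟨x', hx', h2⟩ := ll_move hk hs' hx
      refine ⟨x', hx', fun _ => ?_⟩
      have h3 := h1.add h2
      rwa [sub_add_sub_cancel] at h3
    · exact ⟨0, LL.of_mem (zero_mem E), fun h1 => absurd h1 hlt⟩
  choose τ hτL hτg using hτ
  have hsL : ∀ i, LL p E (Sum.elim t s') (s' i) := fun i => by
    have h1 : WdFL k p (Sum.elim t s') (Sum.elim t s' (Sum.inr i)) := WdFL.self _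
    exact h1.ll
  set Tn : Fin m → Polynomial Ω := fun i =>
    ∑ l ∈ Finset.range (p ^ n), monomial l (if l = 0 then s' i else τ i l) with hTn
  have hTnc : ∀ i l, (Tn i).coeff l =
      if l < p ^ n then (if l = 0 then s' i else τ i l) else 0 := by
    intro i l
    rw [hTn]
    simp only
    rw [finsetSum_coeff]
    simp only [coeff_monomial]
    rw [Finset.sum_ite_eq' (Finset.range (p ^ n)) l]
    simp only [Finset.mem_range]
  have hTnL : ∀ i l, LL p E (Sum.elim t s') ((Tn i).coeff l) := by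
    intro i l
    rw [hTnc]
    split_ifs
    exacts [hsL i, hτL i l, LL.of_mem (zero_mem E)]
  have hTng : ∀ i, ∀ l < p ^ n, v.Ge 0 ((Tn i).coeff l - (T i).coeff l) := by
    intro i l hl1
    rw [hTnc, if_pos hl1]
    split_ifs with h1
    · rw [h1, hT0]
      exact hs' i
    · exact ge_sub_comm (hτg i l hl1)
  set T1 : Fin m → Polynomial Ω := fun i =>
    expand Ω (p ^ (N1 - n)) (Tn i) + if i = i₀ then U else 0 with hT1
  have hT1c : ∀ i j, (T1 i).coeff j = (if p ^ (N1 - n) ∣ j then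
      (Tn i).coeff (j / p ^ (N1 - n)) else 0) + if i = i₀ then U.coeff j else 0 := by
    intro i j
    rw [hT1]
    simp only
    rw [coeff_add, coeff_expand (pow_pos hp _)]
    congr 1
    split_ifs
    exacts [rfl, coeff_zero j]
  have hT1L : ∀ i j, LL p E (Sum.elim t s') ((T1 i).coeff j) := by
    intro i j
    rw [hT1c]
    refine LL.add ?_ ?_
    · split_ifs
      exacts [hTnL i _, LL.of_mem (zero_mem E)]
    · split_ifs
      exacts [LL.of_mem (hU1 j), LL.of_mem (zero_mem E)]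
  have hT10 : ∀ i, (T1 i).coeff 0 = s' i := by
    intro i
    rw [hT1c, if_pos (dvd_zero _), Nat.zero_div, hTnc, if_pos (pow_pos hp n), if_pos rfl]
    split_ifs
    · rw [hU3, add_zero]
    · rw [add_zero]
  have hjT : ∀ i, jT p N1 (T1 i) N1 = T1 i := fun i => by
    rw [jT, Nat.sub_self, pow_zero, expand_one]
  have hgerm : ∀ i, ∀ ε : ℝ, 0 < ε → ∃ N, N1 ≤ N ∧ ∃ σ ∈ D N,
      GeP v (p ^ N) (-ε) (jT p N1 (T1 i) N - psi (p ^ N) (Th N) σ) := by
    intro i ε hε
    obtain ⟨σ, hσ, h1⟩ := hT i ε hε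
    refine ⟨N1, le_rfl, σ, h.mono' le_rfl hnN1 hσ, fun j hj => ?_⟩
    have h2 := h.psi_up le_rfl hσ (N1 - n)
    rw [Nat.add_sub_cancel' hnN1] at h2
    rw [hjT, coeff_sub, hT1c, h2, coeff_expand (pow_pos hp _)]
    have h3 : v.Ge (-ε) (if i = i₀ then U.coeff j else 0) := by
      split_ifs
      exacts [(hU2 j).mono (by linarith), RVal.Ge.zero]
    by_cases h4 : p ^ (N1 - n) ∣ j
    · rw [if_pos h4, if_pos h4]
      obtain ⟨l, rfl⟩ := h4
      rw [Nat.mul_div_cancel_left _ (pow_pos hp _)]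
      have hln : l < p ^ n := by
        have h5 : p ^ N1 = p ^ (N1 - n) * p ^ n := by
          rw [← pow_add, Nat.sub_add_cancel hnN1]
        rw [h5] at hj
        exact (Nat.mul_lt_mul_left (pow_pos hp _)).1 hj
      have h5 := h1 l hln
      rw [coeff_sub] at h5
      have h6 := (((hTng i l hln).mono (show -ε ≤ 0 by linarith)).add h5).add h3
      convert h6 using 1
      ring
    · rw [if_neg h4, if_neg h4, zero_add, sub_zero]
      exact h3
  -- the lift
  obtain ⟨Th', h', hbase, hself, hstab⟩ := free_lift (p := p) hk hA hl' hFre (h.restrict hnN1) hRA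
    hgerm hT10
  refine ⟨s', N1, Th', hnN1, hs', h', hbase, ?_, ?_, ?_, ?_⟩
  · intro N hN j hj i
    rw [hself N hN j hj i, jT, coeff_expand (pow_pos hp _)]
    split_ifs
    exacts [hT1L i _, LL.of_mem (zero_mem E)]
  · exact ⟨e', he'E, P, hyw⟩
  · -- `y ^ (p ^ n)` is a constant
    have hsW : ∀ i, s' i ∈ adW R s' := mem_adW R s'
    have hlet : ∀ i, Lvl p N1 (adW R s') Th' N1 (s' i) := fun i =>
      lvl_letter (hsW i) fun N hN j hj => hself N hN j hj i
    have he'W : e' ∈ adW (D N1) s' := le_adW _ _ (h.mono' hN0 (by omega) he'D)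
    have hle' : Lvl p N1 (adW R s') Th' N1 e' := h'.lvl_D le_rfl he'W
    have hlow : Lvl p N1 (adW R s') Th' N1 (∑ i, op p (P i) (s' i)) :=
      Lvl.sum h' _ fun i _ => Lvl.op h' (hlet i) (P i)
    have hly : Lvl p N1 (adW R s') Th' N1 y := by
      rw [hyw]
      exact Lvl.add h' hle' hlow
    have hcl : ∀ j, 0 < j → j < K → Th' N1 j y = 0 := by
      intro j hj0 hjK
      have hj : j < p ^ N1 := hjK.trans_le hKle
      have h1 : ∀ i, Th' N1 j (op p (P i) (s' i)) = if i = i₀ then Z.coeff j else 0 := by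
        intro i
        have h2 := Lvl.psi_op h' le_rfl (hlet i) (P i) j hj
        rw [coeff_psi, if_pos hj] at h2
        have h3 : Cg (p ^ N1) (psi (p ^ N1) (Th' N1) (s' i)) (T1 i) := by
          intro l hl1
          rw [coeff_psi, if_pos hl1, hself N1 le_rfl l hl1 i, hjT]
        rw [h2, h3.opJ (P i) j hj, hT1]
        simp only
        rw [opJ_add, coeff_add, ← expand_opJ, coeff_expand (pow_pos hp _),
          if_neg (hnd j hj0 hjK), zero_add]
        split_ifs with h4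
        · rw [h4]
          exact hU4 j hjK
        · rw [coeff_opJ]
          refine Finset.sum_eq_zero fun c _ => ?_
          split_ifs
          · rw [coeff_zero, zero_pow (pow_ne_zero _ hpp.ne_zero), mul_zero]
          · rw [mul_zero]
      rw [hyw, h'.add N1 le_rfl j hj e' hle'.mem _ hlow.mem,
        (h'.dq le_rfl).map_sum hj _ fun i _ => op_mem_sub (hsW i),
        Finset.sum_congr rfl fun i _ => h1 i, Finset.sum_ite_eq' Finset.univ i₀,
        if_pos (Finset.mem_univ i₀), hZc, if_pos ⟨hj0, hjK⟩, hbase N1 le_rfl j hj e' he'R,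
        add_neg_cancel]
    intro N hN j hj hj0
    rw [h'.frob' hN hj hly.mem n]
    have h1 : Th' (N + n) j y = 0 := by
      obtain ⟨d, hd⟩ := Nat.exists_eq_add_of_le (show N1 ≤ N + n by omega)
      have hjN : j < p ^ (N + n) := hj.trans_le (Nat.pow_le_pow_right hp (Nat.le_add_right N n))
      rw [hd] at hjN ⊢
      by_cases h2 : p ^ d ∣ j
      · obtain ⟨j', rfl⟩ := h2
        have hj'0 : 0 < j' := Nat.pos_of_mul_pos_left hj0
        have hj'K : j' < K := by
          have h3 : p ^ N = p ^ d * p ^ (N1 - n) := by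
            rw [← pow_add]
            congr 1
            omega
          rw [h3] at hj
          exact (Nat.mul_lt_mul_left (pow_pos hp d)).1 hj
        rw [h'.lev' le_rfl d (hj'K.trans_le hKle) hly.mem]
        exact hcl j' hj'0 hj'K
      · rw [add_comm N1 d] at hjN ⊢
        exact hly.lvl d (by omega) j hjN h2
    rw [h1, zero_pow (pow_ne_zero _ hpp.ne_zero)]
  · intro B hB hLB N hN j hj x hx
    exact hstab B (fun N hN => hB N (hnN1.trans hN)) (fun i l => hLB _ (hT1L i l)) N hN j hj x hx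

end

end Pool.Agent.TWIV
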