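import Pool.Agent.Lib.TWIV.RADc

/-!
# TANK W: torsion letters


* `exists_op_str`: the lemma of Kaplansky with a bound of the degree;
* `LP`: a letter of degree `p`: the limit `t` is not in `A + O` and is a root of a monic polynomial of
  degree `p` over `A`; `LP.str`: the polynomials of degree `< p` over `A` are strict at `t`;
* `LP.dense`: `A⟨t⟩` is the closure of the polynomials of degree `< p`;
* `LP.res`: the limits of `A` in `A⟨t⟩` are `A + k t` modulo `O`;
* `LP.tower`: a tower of such letters;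
* `TA`: the case `t ^ p - t ∈ A`.
-/

set_option autoImplicit false

open Polynomial

namespace Pool.Agent.TWIV

open Pool.Agent.H15JM (RVal)
open Pool.Agent.LU1 (VPos adj)
open Pool.Agent.D2 (Ctx0)
open Pool.Agent.TWM Pool.Agent.TWC

universe u

variable {k Ω : Type u} [Field k] [Field Ω] [Algebra k Ω] {v : RVal Ω}
  {A E B : IntermediateField k Ω} {p : ℕ}

/-- **Kaplansky**, with a bound of the degree. -/
theorem exists_op_str [IsAlgClosed Ω] [Fact p.Prime] [CharP Ω p] (hk : Ctx0 k v) {θ : Ω}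
    (hl : Lim v A 0 θ) {f₀ : Polynomial Ω} (hf₀ : f₀ ∈ PI A) (hf₀0 : f₀ ≠ 0)
    (hf₀S : ¬ Str v 0 (taylor θ f₀)) :
    ∃ P : k[X], P ≠ 0 ∧ p ^ P.natDegree ≤ f₀.natDegree ∧ Nr v A 0 (op p P θ) := by
  classical
  have hp : p.Prime := Fact.out
  have hex : ∃ d : ℕ, ∃ f ∈ PI A, f ≠ 0 ∧ f.natDegree = d ∧ ¬ Str v 0 (taylor θ f) :=
    ⟨_, f₀, hf₀, hf₀0, rfl, hf₀S⟩
  obtain ⟨f, hf, hf0, hfd, hfS⟩ := Nat.find_spec hex
  have hff : f.natDegree ≤ f₀.natDegree := by
    rw [hfd]
    exact Nat.find_min' hex ⟨f₀, hf₀, hf₀0, rfl, hf₀S⟩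
  have hmin : ∀ g ∈ PI A, g ≠ 0 → g.natDegree < f.natDegree → Str v 0 (taylor θ g) := by
    intro g hg hg0 hd
    by_contra hS
    rw [hfd] at hd
    exact Nat.find_min hex hd ⟨g, hg, hg0, rfl, hS⟩
  have hd1 : 1 ≤ f.natDegree := by
    by_contra h
    have h0 : f.natDegree = 0 := by omega
    refine hfS ?_
    rw [eq_C_of_natDegree_eq_zero h0] at hf0 ⊢
    rw [taylor_C]
    refine Str.C fun h1 => hf0 ?_
    rw [h1, map_zero]
  -- the jets
  set c : ℕ → Ω := fun l => (taylor θ f).coeff l with hc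
  have hcd : c f.natDegree ≠ 0 := by
    have h1 : taylor θ f ≠ 0 := (taylor_eq_zero θ f).not.2 hf0
    have h2 := leadingCoeff_ne_zero.2 h1
    rwa [leadingCoeff, natDegree_taylor] at h2
  have hstep : ∀ j l : ℕ, 1 ≤ j → j < l → ¬ p ∣ l.choose j → c l ≠ 0 →
      c j ≠ 0 ∧ v (c j) < v (c l) := by
    intro j l hj hjl hch h0
    obtain ⟨h1, h2⟩ := val_natCast (Ω := Ω) (v := v) p hch
    have h3 := taylor_hasse_coeff θ f hjl.le
    have h4 : (taylor θ (hasseDeriv j f)).coeff (l - j) ≠ 0 := by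
      rw [h3]
      exact mul_ne_zero h1 h0
    have h5 : hasseDeriv j f ≠ 0 := by
      intro h6
      rw [h6, map_zero, coeff_zero] at h4
      exact h4 rfl
    have h6 := hmin _ (hasse_mem_PI hf j) h5 (by
      have := natDegree_hasseDeriv_le f j
      omega)
    have h7 : (taylor θ (hasseDeriv j f)).coeff 0 = c j := by
      rw [taylor_coeff_zero, hc]
      simp only
      rw [taylor_coeff]
    have h8 := h6.ne
    have h9 := h6.gt (l - j) (by omega) h4
    rw [h7] at h8 h9
    rw [h3, v.map_mul h1 h0, h2] at h9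
    exact ⟨h8, by linarith⟩
  obtain ⟨l₁, hl₁, hl₁m⟩ := Finset.exists_min_image
    ((Finset.Icc 1 f.natDegree).filter fun l => c l ≠ 0) (fun l => v (c l))
    ⟨f.natDegree, Finset.mem_filter.2 ⟨Finset.mem_Icc.2 ⟨hd1, le_rfl⟩, hcd⟩⟩
  obtain ⟨hl₁I, hl₁0⟩ := Finset.mem_filter.1 hl₁
  obtain ⟨hl₁1, hl₁d⟩ := Finset.mem_Icc.1 hl₁I
  set μ : ℝ := v (c l₁) with hμ
  have k2 : ∀ l, 1 ≤ l → v.Ge μ (c l) := by
    intro l hl h0
    have h1 : l ≤ f.natDegree := by
      by_contra h2
      refine h0 (coeff_eq_zero_of_natDegree_lt ?_)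
      rw [natDegree_taylor]
      omega
    exact hl₁m l (Finset.mem_filter.2 ⟨Finset.mem_Icc.2 ⟨hl, h1⟩, h0⟩)
  have k3 : v.Ge μ (f.eval θ) := by
    intro h0
    by_contra hlt
    rw [not_le] at hlt
    refine hfS ⟨by rwa [taylor_coeff_zero], fun l hl h1 => ?_⟩
    rw [taylor_coeff_zero]
    have h2 := k2 l hl h1
    have h3 : v ((taylor θ f).coeff l) = v (c l) := rfl
    rw [h3]
    linarith
  have k4 : ∀ l, 1 ≤ l → (∀ i, l ≠ p ^ i) → Gt v μ (c l) := by
    intro l hl hlp h0
    obtain ⟨j, hj0, hjl, hj⟩ := exists_choose hp hl hlp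
    obtain ⟨h1, h2⟩ := hstep j l hj0 hjl hj h0
    exact (k2 j hj0 h1).trans_lt h2
  obtain ⟨i₁, hi₁⟩ : ∃ i, l₁ = p ^ i := by
    by_contra hcon
    push Not at hcon
    exact lt_irrefl _ (k4 l₁ hl₁1 hcon hl₁0)
  -- an element of `A` of value `μ`
  obtain ⟨b, hbA, hb0, hbv⟩ : ∃ b ∈ A, b ≠ 0 ∧ v b = μ := by
    have h5 : hasseDeriv l₁ f ≠ 0 := by
      intro h6
      refine hl₁0 ?_
      rw [hc]
      simp only
      rw [taylor_coeff, h6, eval_zero]
    have h6 := hmin _ (hasse_mem_PI hf l₁) h5 (by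
      have := natDegree_hasseDeriv_le f l₁
      omega)
    obtain ⟨δ, hδ, h7⟩ := h6.near
    obtain ⟨a, ha, h8⟩ := hl δ hδ
    have h9 := h7 (a - θ) (ge_sub_comm h8)
    rw [← eval_eq_taylor] at h9
    have h10 : (taylor θ (hasseDeriv l₁ f)).coeff 0 = c l₁ := by
      rw [taylor_coeff_zero, hc]
      simp only
      rw [taylor_coeff]
    rw [h10] at h9
    obtain ⟨h11, h12⟩ := Gt.val_eq hl₁0 (Gt.of_ge (ge_sub_comm h9) (by linarith))
    exact ⟨_, eval_mem (hasse_mem_PI hf l₁) ha, h11, h12⟩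
  have hbi : v.Ge (-μ) b⁻¹ := RVal.Ge.of_le (by rw [v.map_inv hb0, hbv])
  -- the residues
  have hx0 : ∀ l, 1 ≤ l → v.Ge 0 (b⁻¹ * c l) := fun l hl => by
    have := hbi.mul (k2 l hl)
    rwa [neg_add_cancel] at this
  have hκ' : ∀ i : ℕ, ∃ c' : k, Gt v 0 (b⁻¹ * c (p ^ i) - algebraMap k Ω c') ∧
      (f.natDegree < p ^ i → c' = 0) := by
    intro i
    by_cases hi : f.natDegree < p ^ i
    · refine ⟨0, ?_, fun _ => rfl⟩
      have h1 : c (p ^ i) = 0 := by
        refine coeff_eq_zero_of_natDegree_lt ?_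
        rwa [natDegree_taylor]
      rw [h1, mul_zero, map_zero, sub_zero]
      exact Gt.zero
    · obtain ⟨c', h1⟩ := hk.residue (hx0 (p ^ i) (Nat.one_le_pow _ _ hp.pos))
      exact ⟨c', h1, fun h2 => absurd h2 hi⟩
  choose κ hκ hκ0 using hκ'
  set N := f.natDegree + 1 with hN
  have hκ1 : κ i₁ ≠ 0 := by
    intro h0
    have h1 := hκ i₁
    rw [h0, map_zero, sub_zero, ← hi₁] at h1
    have h2 := h1 (mul_ne_zero (inv_ne_zero hb0) hl₁0)
    rw [v.map_mul (inv_ne_zero hb0) hl₁0, v.map_inv hb0, hbv, ← hμ] at h2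
    linarith
  have hi₁N : i₁ < N := by
    have h1 : i₁ < p ^ i₁ := Nat.lt_pow_self hp.one_lt
    omega
  have hPc : ∀ j, (∑ i ∈ Finset.range N, C (κ i) * X ^ i : k[X]).coeff j =
      if j ∈ Finset.range N then κ j else 0 := by
    intro j
    simp only [finsetSum_coeff, coeff_C_mul_X_pow]
    exact Finset.sum_ite_eq (Finset.range N) j κ
  have hP0 : (∑ i ∈ Finset.range N, C (κ i) * X ^ i : k[X]) ≠ 0 := fun h0 => hκ1 (by
    have h1 := hPc i₁
    rw [h0, coeff_zero, if_pos (Finset.mem_range.2 hi₁N)] at h1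
    exact h1.symm)
  refine ⟨∑ i ∈ Finset.range N, C (κ i) * X ^ i, hP0, ?_, ?_⟩
  · set P : k[X] := ∑ i ∈ Finset.range N, C (κ i) * X ^ i with hP
    by_contra hcon
    rw [not_le] at hcon
    have h1 := leadingCoeff_ne_zero.2 hP0
    rw [leadingCoeff, hPc] at h1
    split_ifs at h1
    · exact h1 (hκ0 _ (hff.trans_lt hcon))
    · exact h1 rfl
  -- the difference
  set F : Polynomial Ω := C b⁻¹ * f - addP p N (fun i => algebraMap k Ω (κ i)) with hF
  have hFA : F ∈ PI A := sub_mem (mul_mem (C_mem_PI (inv_mem hbA)) hf)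
    (addP_mem fun i => A.algebraMap_mem _)
  have hFc : ∀ l : ℕ, 1 ≤ l → Gt v (0 - l * 0) ((taylor θ F).coeff l) := by
    intro l hl
    rw [mul_zero, sub_zero, hF, map_sub, coeff_sub, taylor_mul, taylor_C, coeff_C_mul]
    by_cases hlp : ∃ i, l = p ^ i
    · obtain ⟨i, rfl⟩ := hlp
      rw [coeff_taylor_addP_pow]
      split_ifs with hi
      · exact hκ i
      · have h1 : (taylor θ f).coeff (p ^ i) = 0 := by
          refine coeff_eq_zero_of_natDegree_lt ?_
          rw [natDegree_taylor]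
          have : i < p ^ i := Nat.lt_pow_self hp.one_lt
          omega
        rw [h1, mul_zero, sub_zero]
        exact Gt.zero
    · push Not at hlp
      rw [coeff_taylor_addP p N _ θ hl, Finset.sum_eq_zero fun i _ => if_neg (hlp i), sub_zero,
        mul_comm]
      have h1 := (k4 l hl hlp).mul_ge hbi
      rwa [add_neg_cancel] at h1
  obtain ⟨δ, hδ, h1⟩ := var_bound' F θ 0 0 hFc
  obtain ⟨a, ha, h2⟩ := hl δ hδ
  refine ⟨-F.eval a, neg_mem (eval_mem hFA ha), ?_⟩
  have hFe : ∀ x, F.eval x = b⁻¹ * f.eval x -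
      ∑ i ∈ Finset.range N, algebraMap k Ω (κ i) * x ^ p ^ i := fun x => by
    rw [hF, eval_sub, eval_mul, eval_C, addP_eval]
  have h3 : op p (∑ i ∈ Finset.range N, C (κ i) * X ^ i) θ - -F.eval a =
      b⁻¹ * f.eval θ - (F.eval θ - F.eval a) := by
    rw [op_range, hFe θ]
    ring
  rw [h3]
  have h4 := hbi.mul k3
  rw [neg_add_cancel] at h4
  exact h4.sub (h1 a h2).ge

/-! ### Letters of degree `p` -/

/-- An algebraic letter of degree `p` over `A`. -/
structure LP (p : ℕ) (v : RVal Ω) (A : IntermediateField k Ω) (t : Ω) : Prop where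
  lim : Lim v A 0 t
  nr : ¬ Nr v A 0 t
  pol : ∃ q ∈ PI A, q.Monic ∧ q.natDegree = p ∧ q.eval t = 0

/-- A torsion letter over `A`. -/
structure TA (p : ℕ) (v : RVal Ω) (A : IntermediateField k Ω) (t : Ω) : Prop where
  lim : Lim v A 0 t
  nr : ¬ Nr v A 0 t
  mem : t ^ p - t ∈ A

section LP

variable {t : Ω} [IsAlgClosed Ω] [Fact p.Prime] [CharP Ω p]

/-- The polynomials of degree `< p` are strict. -/
theorem LP.str (hk : Ctx0 k v) (h : LP p v A t) {f : Polynomial Ω} (hf : f ∈ PI A) (hf0 : f ≠ 0)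
    (hd : f.natDegree < p) : Str v 0 (taylor t f) := by
  by_contra hS
  obtain ⟨P, hP, h1, h2⟩ := exists_op_str hk h.lim hf hf0 hS
  have h3 : P.natDegree = 0 := by
    by_contra h4
    have h5 : p ^ 1 ≤ p ^ P.natDegree :=
      Nat.pow_le_pow_right (Fact.out : p.Prime).pos (by omega)
    rw [pow_one] at h5
    omega
  rw [eq_C_of_natDegree_eq_zero h3] at hP h2
  set c := P.coeff 0 with hc
  have hc0 : c ≠ 0 := fun h4 => hP (by rw [h4, map_zero])
  obtain ⟨a, ha, h4⟩ := h2
  refine h.nr ⟨algebraMap k Ω c⁻¹ * a, mul_mem (A.algebraMap_mem _) ha, ?_⟩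
  have h5 : op p (C c) t = algebraMap k Ω c * t := by
    have := op_mono (p := p) c 0 t
    rwa [pow_zero, mul_one, pow_zero, pow_one] at this
  rw [h5] at h4
  have h6 := (hk.ge c⁻¹).mul h4
  rw [zero_add, mul_sub, ← mul_assoc, ← map_mul, inv_mul_cancel₀ hc0, map_one, one_mul] at h6
  exact h6

theorem LP.eval_ne (hk : Ctx0 k v) (h : LP p v A t) {f : Polynomial Ω} (hf : f ∈ PI A)
    (hf0 : f ≠ 0) (hd : f.natDegree < p) : f.eval t ≠ 0 := by
  have h1 := (h.str hk hf hf0 hd).ne
  rwa [taylor_coeff_zero] at h1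

omit [IsAlgClosed Ω] [Fact p.Prime] [CharP Ω p] in
/-- Division with remainder by a monic polynomial, in a subring. -/
theorem exists_rem' {S : Subring (Polynomial Ω)} (hX : X ∈ S)
    (hC : ∀ f ∈ S, C f.leadingCoeff ∈ S) {q : Polynomial Ω} (hq : q.Monic) (hqA : q ∈ S)
    (hq1 : 1 ≤ q.natDegree) {f : Polynomial Ω} (hf : f ∈ S) :
    ∃ g ∈ S, ∃ r ∈ S, f = q * g + r ∧ r.natDegree < q.natDegree := by
  have hn : ∀ n : ℕ, ∀ f ∈ S, f.natDegree < n →
      ∃ g ∈ S, ∃ r ∈ S, f = q * g + r ∧ r.natDegree < q.natDegree := by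
    intro n
    induction n with
    | zero => exact fun f _ h => absurd h (Nat.not_lt_zero _)
    | succ n ih =>
      intro f hf hfn
      by_cases hd : f.natDegree < q.natDegree
      · exact ⟨0, zero_mem _, f, hf, by rw [mul_zero, zero_add], hd⟩
      rw [not_lt] at hd
      set m : Polynomial Ω := C f.leadingCoeff * X ^ (f.natDegree - q.natDegree) with hm
      have hmA : m ∈ S := mul_mem (hC f hf) (pow_mem hX _)
      have h1 : (f - q * m).natDegree < n ∨ f - q * m = 0 := by
        by_cases h0 : f - q * m = 0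
        · exact Or.inr h0
        left
        have h2 : f ≠ 0 := fun h => by
          rw [h, natDegree_zero] at hd
          omega
        have h3 : (q * m).degree = f.degree := by
          rw [mul_comm, hq.degree_mul, hm, degree_C_mul_X_pow _ (leadingCoeff_ne_zero.2 h2),
            degree_eq_natDegree hq.ne_zero, degree_eq_natDegree h2]
          exact_mod_cast (by omega : f.natDegree - q.natDegree + q.natDegree = f.natDegree)
        have h4 : (f - q * m).degree < f.degree := by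
          refine degree_sub_lt_left h3.symm h2 ?_
          rw [mul_comm, leadingCoeff_mul_monic hq, hm, leadingCoeff_C_mul_X_pow]
        have h5 := natDegree_lt_natDegree h0 h4
        omega
      rcases h1 with h1 | h1
      · obtain ⟨g, hg, r, hr, h2, h3⟩ := ih (f - q * m) (sub_mem hf (mul_mem hqA hmA)) h1
        refine ⟨g + m, add_mem hg hmA, r, hr, ?_, h3⟩
        linear_combination h2
      · exact ⟨m, hmA, 0, zero_mem _, by rw [add_zero]; exact sub_eq_zero.1 h1,
          by rw [natDegree_zero]; omega⟩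
  exact hn _ f hf (Nat.lt_succ_self _)

omit [IsAlgClosed Ω] [Fact p.Prime] [CharP Ω p] in
/-- Division with remainder by a monic polynomial over `A`. -/
theorem exists_rem {q : Polynomial Ω} (hq : q.Monic) (hqA : q ∈ PI A) (hq1 : 1 ≤ q.natDegree)
    {f : Polynomial Ω} (hf : f ∈ PI A) :
    ∃ g ∈ PI A, ∃ r ∈ PI A, f = q * g + r ∧ r.natDegree < q.natDegree :=
  exists_rem' X_mem_PI (fun _ hf => C_mem_PI (hf _)) hq hqA hq1 hf

omit [IsAlgClosed Ω] [CharP Ω p] in
/-- Reduction of the degree. -/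
theorem LP.red (h : LP p v A t) {f : Polynomial Ω} (hf : f ∈ PI A) :
    ∃ r ∈ PI A, r.natDegree < p ∧ r.eval t = f.eval t := by
  have hp : 1 < p := (Fact.out : p.Prime).one_lt
  obtain ⟨q, hqA, hq, hqd, hqt⟩ := h.pol
  obtain ⟨g, _, r, hr, h1, h2⟩ := exists_rem hq hqA (by omega) hf
  refine ⟨r, hr, by omega, ?_⟩
  rw [h1, eval_add, eval_mul, hqt, zero_mul, zero_add]

omit [IsAlgClosed Ω] [CharP Ω p] in
theorem LP.isAlgebraic (h : LP p v A t) : IsAlgebraic A t := by
  obtain ⟨q, hqA, hq, hqd, hqt⟩ := h.pol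
  exact isAlgebraic_root hqA hq.ne_zero hqt

omit [IsAlgClosed Ω] [CharP Ω p] in
/-- The elements of `A(t)`. -/
theorem LP.adj (h : LP p v A t) {w : Ω} (hw : w ∈ LU1.adj A t) :
    ∃ f ∈ PI A, f.natDegree < p ∧ w = f.eval t := by
  have h1 : LU1.adj A t ≤ (IntermediateField.adjoin A {t}).restrictScalars k :=
    D2P.adj_le (fun a ha => (IntermediateField.adjoin A {t}).algebraMap_mem (⟨a, ha⟩ : A))
      (IntermediateField.mem_adjoin_simple_self A t)
  have h2 : w ∈ (IntermediateField.adjoin A {t}).toSubalgebra := h1 hw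
  rw [IntermediateField.adjoin_simple_toSubalgebra_of_isAlgebraic h.isAlgebraic,
    Algebra.adjoin_singleton_eq_range_aeval] at h2
  obtain ⟨g, hg⟩ := h2
  obtain ⟨r, hr, h3, h4⟩ := h.red (f := g.map (algebraMap A Ω)) fun i => by
    rw [coeff_map]
    exact (g.coeff i).2
  refine ⟨r, hr, h3, ?_⟩
  rw [h4, eval_map_algebraMap]
  exact hg.symm

/-- The polynomials of degree `< p` are dense. -/
theorem LP.dense (h : LP p v A t) {w : Ω} (hw : w ∈ cadj v A t) (b : ℝ) :
    ∃ f ∈ PI A, f.natDegree < p ∧ v.Ge b (w - f.eval t) := by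
  obtain ⟨w', hw', h1⟩ := (mem_cadj.1 hw) b
  obtain ⟨f, hf, hd, rfl⟩ := h.adj hw'
  exact ⟨f, hf, hd, h1⟩

theorem LP.far (h : LP p v A t) {a b : Ω} (ha : a ∈ A) (hb : b ∈ A) (hb0 : b ≠ 0)
    (hb1 : v b = 0) : ¬ v.Ge 0 (b * t - a) := by
  intro h1
  refine h.nr ⟨b⁻¹ * a, mul_mem (inv_mem hb) ha, ?_⟩
  have h2 : v.Ge 0 b⁻¹ := RVal.Ge.of_le (by rw [v.map_inv hb0, hb1, neg_zero])
  have h3 := h2.mul h1
  rw [zero_add, mul_sub, inv_mul_cancel_left₀ hb0] at h3
  exact h3

/-- The jets of a polynomial of degree `< p` whose value is a limit. -/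
theorem LP.jet (hk : Ctx0 k v) (h : LP p v A t) {f : Polynomial Ω} (hf : f ∈ PI A)
    (hd : f.natDegree < p) (hl : Lim v A 0 (f.eval t)) {i : ℕ} (hi : 1 ≤ i) :
    v.Ge 0 ((taylor t f).coeff i) := by
  refine Nul.const (v := v) fun ε hε => ⟨0, fun _ _ => ?_⟩
  obtain ⟨a, ha, h1⟩ := hl ε hε
  rw [zero_sub] at h1
  have h2 : (taylor t (f - C a)).coeff i = (taylor t f).coeff i := by
    rw [map_sub, taylor_C, coeff_sub, coeff_C_of_ne_zero (by omega), sub_zero]
  have h3 : (taylor t (f - C a)).coeff 0 = f.eval t - a := by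
    rw [taylor_coeff_zero, eval_sub, eval_C]
  by_cases h0 : f - C a = 0
  · rw [← h2, h0, map_zero, coeff_zero]
    exact RVal.Ge.zero
  have h4 := h.str hk (sub_mem hf (C_mem_PI ha)) h0
    ((natDegree_sub_le _ _).trans_lt (max_lt hd (by
      rw [natDegree_C]
      exact (Fact.out : p.Prime).pos)))
  have h5 := h4.gt i hi
  rw [h2, h3, mul_zero, sub_zero] at h5
  refine (h5.ge).mono ?_
  have h6 := h4.ne
  rw [h3] at h6
  exact h1 h6

/-- **The limits of `A` in `A⟨t⟩`**, polynomials. -/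
theorem LP.res' (hk : Ctx0 k v) (h : LP p v A t) : ∀ n : ℕ, ∀ f ∈ PI A, f.natDegree ≤ n →
    f.natDegree < p → Lim v A 0 (f.eval t) → ∃ c : k, Nr v A 0 (f.eval t - algebraMap k Ω c * t) := by
  have hp : p.Prime := Fact.out
  intro n
  induction n with
  | zero =>
    intro f hf hn _ _
    refine ⟨0, f.coeff 0, hf 0, ?_⟩
    rw [eq_C_of_natDegree_eq_zero (Nat.le_zero.1 hn), eval_C, map_zero, zero_mul, sub_zero,
      coeff_C_zero, sub_self]
    exact RVal.Ge.zero
  | succ n ih =>
    intro f hf hn hd hl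
    by_cases hn' : f.natDegree ≤ n
    · exact ih f hf hn' hd hl
    have hfn : f.natDegree = n + 1 := by omega
    have hf0 : f ≠ 0 := fun h0 => by
      rw [h0, natDegree_zero] at hfn
      omega
    set a := f.coeff (n + 1) with ha
    have ha0 : a ≠ 0 := by
      rw [ha, ← hfn]
      exact leadingCoeff_ne_zero.2 hf0
    have hT : ∀ i, (taylor t f).coeff i = (hasseDeriv i f).eval t := fun i => by
      rw [taylor_coeff]
    -- the leading coefficient
    have h1 : v.Ge 0 a := by
      have h2 := h.jet hk hf hd hl (i := n + 1) (by omega)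
      have h3 : (taylor t f).coeff (n + 1) = a := by
        have h4 := leadingCoeff_taylor t f
        rw [leadingCoeff, leadingCoeff, natDegree_taylor, hfn] at h4
        exact h4
      rwa [h3] at h2
    rcases Nat.eq_zero_or_pos n with hn0 | hn0
    · -- degree one
      subst hn0
      obtain ⟨c, hc⟩ := hk.residue h1
      have hf1 : f = C a * X + C (f.coeff 0) := by
        rw [ha]
        exact eq_X_add_C_of_natDegree_le_one (by omega)
      set μ := a - algebraMap k Ω c with hμ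
      have hμA : μ ∈ A := sub_mem (hf _) (A.algebraMap_mem c)
      obtain ⟨σ, hσ, h2⟩ : ∃ σ ∈ A, v.Ge 0 (μ * (t - σ)) := by
        by_cases hμ0 : μ = 0
        · exact ⟨0, zero_mem A, by rw [hμ0, zero_mul]; exact RVal.Ge.zero⟩
        · obtain ⟨σ, hσ, h3⟩ := h.lim (v μ) (hc hμ0)
          refine ⟨σ, hσ, ?_⟩
          have h4 := (RVal.ge_self μ).mul h3
          rwa [zero_sub, add_neg_cancel] at h4
      refine ⟨c, μ * σ + f.coeff 0, add_mem (mul_mem hμA hσ) (hf 0), ?_⟩
      have h3 : f.eval t = a * t + f.coeff 0 := by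
        conv_lhs => rw [hf1]
        rw [eval_add, eval_mul, eval_C, eval_X, eval_C]
      rw [h3]
      have h4 : a * t + f.coeff 0 - algebraMap k Ω c * t - (μ * σ + f.coeff 0) =
          μ * (t - σ) := by
        rw [hμ]
        ring
      rw [h4]
      exact h2
    · -- degree at least two
      have h2 : 0 < v a := by
        by_contra hcon
        have hva : v a = 0 := le_antisymm (not_lt.1 hcon) (h1 ha0)
        have h3 := h.jet hk hf hd hl (i := n) hn0
        have hnp : ¬ p ∣ n + 1 := fun hd' => by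
          have := Nat.le_of_dvd (Nat.succ_pos n) hd'
          omega
        obtain ⟨h4, h5⟩ := val_natCast (Ω := Ω) (v := v) p hnp
        have h6 : (taylor t f).coeff n = ((n + 1 : ℕ) : Ω) * a * t - (-f.coeff n) := by
          rw [hT, eval_eq_sum_range' (n := 2) (by
            have := natDegree_hasseDeriv_le f n
            omega), Finset.sum_range_succ, Finset.sum_range_one, hasseDeriv_coeff,
            hasseDeriv_coeff, zero_add, Nat.choose_self, Nat.cast_one, one_mul, pow_zero, mul_one,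
            pow_one, add_comm 1 n, Nat.choose_succ_self_right, ← ha]
          ring
        rw [h6] at h3
        refine h.far (neg_mem (hf n)) (mul_mem (natCast_mem A (n + 1)) (hf (n + 1)))
          (mul_ne_zero h4 ha0) ?_ h3
        rw [v.map_mul h4 ha0, h5, hva, add_zero]
      obtain ⟨σ, hσ, h3⟩ := h.lim (v a / (n + 1)) (by positivity)
      rw [zero_sub] at h3
      have h4 : v.Ge 0 (a * (t - σ) ^ (n + 1)) := by
        have h5 := (RVal.ge_self a).mul (ge_pow h3 (n + 1))
        refine h5.mono (le_of_eq ?_)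
        push_cast
        field_simp
        ring
      set g := f - C a * (X - C σ) ^ (n + 1) with hg
      have hgA : g ∈ PI A := sub_mem hf (mul_mem (C_mem_PI (hf _))
        (pow_mem (sub_mem X_mem_PI (C_mem_PI hσ)) _))
      have hm : ((X - C σ) ^ (n + 1) : Polynomial Ω).Monic := (monic_X_sub_C σ).pow _
      have hmd : ((X - C σ) ^ (n + 1) : Polynomial Ω).natDegree = n + 1 := by
        rw [natDegree_pow, natDegree_X_sub_C, mul_one]
      have hgd : g.natDegree ≤ n := by
        rw [natDegree_le_iff_coeff_eq_zero]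
        intro i hi
        rw [hg, coeff_sub, coeff_C_mul]
        rcases Nat.lt_or_ge (n + 1) i with h5 | h5
        · rw [coeff_eq_zero_of_natDegree_lt (by omega), coeff_eq_zero_of_natDegree_lt (by omega),
            mul_zero, sub_zero]
        · have h6 : i = n + 1 := by omega
          rw [h6]
          have h7 : ((X - C σ) ^ (n + 1) : Polynomial Ω).coeff (n + 1) = 1 := by
            have := hm.coeff_natDegree
            rwa [hmd] at this
          rw [h7, mul_one, ← ha, sub_self]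
      have hge : g.eval t = f.eval t - a * (t - σ) ^ (n + 1) := by
        rw [hg, eval_sub, eval_mul, eval_C, eval_pow, eval_sub, eval_X, eval_C]
      obtain ⟨c, e, he, h5⟩ := ih g hgA hgd (by omega) (by
        rw [hge]
        exact lm_sub hl (lim_of_ge h4))
      refine ⟨c, e, he, ?_⟩
      rw [hge] at h5
      have h6 := h5.add h4
      refine Eq.mp (congrArg (fun w => v.Ge 0 w) ?_) h6
      ring

/-- **The limits of `A` in `A⟨t⟩`.** -/
theorem LP.res (hk : Ctx0 k v) (h : LP p v A t) {x : Ω} (hx : x ∈ cadj v A t)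
    (hl : Lim v A 0 x) : ∃ c : k, Nr v A 0 (x - algebraMap k Ω c * t) := by
  obtain ⟨f, hf, hd, h1⟩ := h.dense hx 0
  have h2 : Lim v A 0 (f.eval t) := by
    have h3 := lm_sub hl (lim_of_ge (A := A) h1)
    rwa [sub_sub_cancel] at h3
  obtain ⟨c, e, he, h3⟩ := h.res' hk _ f hf le_rfl hd h2
  refine ⟨c, e, he, ?_⟩
  have h4 := h1.add h3
  refine Eq.mp (congrArg (fun w => v.Ge 0 w) ?_) h4
  ring

/-- **A tower of letters of degree `p`** which are limits of the base. -/
theorem LP.tower (hk : Ctx0 k v) {A : ℕ → IntermediateField k Ω} {x : ℕ → Ω}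
    (hA : ∀ i, A (i + 1) ≤ cadj v (A i) (x i)) (h : ∀ i, LP p v (A i) (x i))
    (hmono : ∀ i, A i ≤ A (i + 1)) (hx : ∀ i, Lim v (A 0) 0 (x i)) :
    ∀ N : ℕ, ∀ e ∈ A N, Lim v (A 0) 0 e → ∃ c : ℕ → k,
      Nr v (A 0) 0 (e - ∑ i ∈ Finset.range N, algebraMap k Ω (c i) * x i) := by
  have hm : ∀ i, A 0 ≤ A i := fun i => by
    induction i with
    | zero => exact le_rfl
    | succ i ih => exact ih.trans (hmono i)
  intro N
  induction N with
  | zero =>
    intro e he _
    refine ⟨fun _ => 0, e, he, ?_⟩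
    rw [Finset.sum_range_zero, sub_zero, sub_self]
    exact RVal.Ge.zero
  | succ N ih =>
    intro e he hl
    obtain ⟨c, a, ha, h1⟩ := (h N).res hk (hA N he) (hl.mono (hm N))
    have hcx : Lim v (A 0) 0 (algebraMap k Ω c * x N) := by
      intro ε hε
      obtain ⟨b, hb, h2⟩ := hx N ε hε
      refine ⟨algebraMap k Ω c * b, mul_mem ((A 0).algebraMap_mem c) hb, ?_⟩
      have h3 := (hk.ge c).mul h2
      rwa [zero_add, mul_sub] at h3
    have h2 : Lim v (A 0) 0 a := by
      have h3 := lm_sub (lm_sub hl hcx) (lim_of_ge (A := A 0) h1)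
      rwa [sub_sub_cancel] at h3
    obtain ⟨d, b, hb, h3⟩ := ih a ha h2
    refine ⟨fun i => if i = N then c else d i, b, hb, ?_⟩
    have h4 : ∑ i ∈ Finset.range (N + 1), algebraMap k Ω (if i = N then c else d i) * x i =
        ∑ i ∈ Finset.range N, algebraMap k Ω (d i) * x i + algebraMap k Ω c * x N := by
      rw [Finset.sum_range_succ, if_pos rfl]
      congr 1
      refine Finset.sum_congr rfl fun i hi => ?_
      rw [if_neg (Finset.mem_range.1 hi).ne]
    rw [h4]
    refine Eq.mp (congrArg (fun w => v.Ge 0 w) ?_) (h1.add h3)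
    ring

end LP

/-! ### One torsion letter -/

section TA

variable {t : Ω}

/-- The equation of `t`. -/
noncomputable def aspol (p : ℕ) (a : Ω) : Polynomial Ω := X ^ p - X - C a

theorem aspol_deg [Fact p.Prime] (a : Ω) : (-X - C a : Polynomial Ω).degree < (p : ℕ) := by
  have hp : 1 < p := (Fact.out : p.Prime).one_lt
  have h1 : (-X - C a : Polynomial Ω).degree ≤ (1 : ℕ) := by
    refine (degree_sub_le _ _).trans (max_le ?_ ?_)
    · rw [degree_neg]
      exact degree_X_le
    · exact degree_C_le.trans (by norm_num)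
  exact h1.trans_lt (by exact_mod_cast hp)

theorem aspol_monic [Fact p.Prime] (a : Ω) : (aspol p a).Monic := by
  have h1 : aspol p a = X ^ p + (-X - C a) := by rw [aspol]; ring
  rw [h1]
  exact monic_X_pow_add (aspol_deg a)

theorem aspol_natDegree [Fact p.Prime] (a : Ω) : (aspol p a).natDegree = p := by
  have h1 : aspol p a = X ^ p + (-X - C a) := by rw [aspol]; ring
  rw [h1, natDegree_eq_of_degree_eq (degree_add_eq_left_of_degree_lt
    (by rw [degree_X_pow]; exact aspol_deg a)), natDegree_X_pow]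

theorem aspol_eval : (aspol p (t ^ p - t)).eval t = 0 := by
  rw [aspol, eval_sub, eval_sub, eval_pow, eval_X, eval_C, sub_self]

theorem TA.lp [Fact p.Prime] (h : TA p v A t) : LP p v A t :=
  ⟨h.lim, h.nr, aspol p (t ^ p - t),
    sub_mem (sub_mem (pow_mem X_mem_PI _) X_mem_PI) (C_mem_PI h.mem),
    aspol_monic _, aspol_natDegree _, aspol_eval⟩

variable [IsAlgClosed Ω] [Fact p.Prime] [CharP Ω p]

/-- The polynomials of degree `< p` are strict. -/
theorem TA.str (hk : Ctx0 k v) (h : TA p v A t) {f : Polynomial Ω} (hf : f ∈ PI A) (hf0 : f ≠ 0)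
    (hd : f.natDegree < p) : Str v 0 (taylor t f) := h.lp.str hk hf hf0 hd

/-- The polynomials of degree `< p` are dense. -/
theorem TA.dense (h : TA p v A t) {w : Ω} (hw : w ∈ cadj v A t) (b : ℝ) :
    ∃ f ∈ PI A, f.natDegree < p ∧ v.Ge b (w - f.eval t) := h.lp.dense hw b

/-- **The limits of `A` in `A⟨t⟩`.** -/
theorem TA.res (hk : Ctx0 k v) (h : TA p v A t) {x : Ω} (hx : x ∈ cadj v A t)
    (hl : Lim v A 0 x) : ∃ c : k, Nr v A 0 (x - algebraMap k Ω c * t) := h.lp.res hk hx hl

end TA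

end Pool.Agent.TWIV
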