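import Pool.Agent.Lib.TWIV.FLb
import Pool.Agent.Lib.TWIV.TorL

/-!
# TANK W, the lift of higher derivations to a torsion letter

`t ^ p - t ∈ D n`, `t` a limit of `A ≥ R` which is not in `A + O`: the operators of `HSn` extend to
`R[t]` with `t ↦ T`, if `T ^ p - T` is the jet of `t ^ p - t` and `T` is the limit, up to `0`, of the
jets of elements of the `D N`.

* `TJ`: the hypotheses on `T`; `TJ.of_const`: `T = t` constant;
* `Txt`: the extension; `HSn.adjoinT`: it has the properties `HSn`;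
* `Txt_base`, `Txt_self`, `Txt_mem`: values on `R`, on `t`, stability.
-/

set_option autoImplicit false

open Polynomial

namespace Pool.Agent.TWIV

open Pool.Agent.H15JM (RVal)
open Pool.Agent.D2 (Ctx0)
open Pool.Agent.TWM

universe u

variable {k Ω : Type u} [Field k] [Field Ω] [Algebra k Ω] {v : RVal Ω}

/-- `T` is the jet of the torsion letter `t`. -/
structure TJ (p : ℕ) (v : RVal Ω) (n : ℕ) (D : ℕ → Subalgebra k Ω) (Th : ℕ → ℕ → Ω → Ω) (t : Ω)
    (T : Polynomial Ω) : Prop where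
  zero : T.coeff 0 = t
  mem : t ^ p - t ∈ D n
  eq : ∀ l < p ^ n, (T ^ p - T).coeff l = Th n l (t ^ p - t)
  germ : ∀ ε : ℝ, 0 < ε → ∃ N, n ≤ N ∧ ∃ σ ∈ D N,
    GeP v (p ^ N) (-ε) (jT p n T N - psi (p ^ N) (Th N) σ)

section Adj

variable {p n : ℕ} {R : Subalgebra k Ω} {D : ℕ → Subalgebra k Ω} {Th : ℕ → ℕ → Ω → Ω}
  {A : IntermediateField k Ω} {t : Ω} {T : Polynomial Ω} [Fact p.Prime]

omit [Fact p.Prime] in
/-- A constant letter. -/
theorem TJ.of_const (h : HSn p v n R D Th) (hm : t ^ p - t ∈ D n)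
    (h0 : ∀ l < p ^ n, 0 < l → Th n l (t ^ p - t) = 0)
    (hg : ∀ ε : ℝ, 0 < ε → ∃ N, n ≤ N ∧ ∃ σ ∈ D N, v.Ge (-ε) (t - σ) ∧
      ∀ j < p ^ N, 0 < j → v.Ge (-ε) (Th N j σ)) : TJ p v n D Th t (C t) where
  zero := coeff_C_zero
  mem := hm
  eq := by
    intro l hl
    rw [← C_pow, ← C_sub, coeff_C]
    split_ifs with h1
    · rw [h1, h.zero n le_rfl _ (h.le n le_rfl hm)]
    · rw [h0 l hl (Nat.pos_of_ne_zero h1)]
  germ := by
    intro ε hε
    obtain ⟨N, hN, σ, hσ, h1, h2⟩ := hg ε hε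
    refine ⟨N, hN, σ, hσ, fun j hj => ?_⟩
    rw [jT, expand_C, coeff_sub, coeff_C, coeff_psi, if_pos hj]
    split_ifs with h3
    · rw [h3, h.zero N hN σ (h.le N hN hσ)]
      exact h1
    · rw [zero_sub]
      exact (h2 j hj (Nat.pos_of_ne_zero h3)).neg

/-- The equation, at all levels. -/
theorem TJ.eqN (h : HSn p v n R D Th) (hT : TJ p v n D Th t T) {N : ℕ} (hN : n ≤ N) :
    Cg (p ^ N) (jT p n T N ^ p - jT p n T N) (psi (p ^ N) (Th N) (t ^ p - t)) := by
  have hp := (Fact.out : p.Prime).pos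
  induction N, hN using Nat.le_induction with
  | base =>
    intro j hj
    have h1 : jT p n T n = T := by rw [jT, Nat.sub_self, pow_zero, expand_one]
    rw [h1, hT.eq j hj, coeff_psi, if_pos hj]
  | succ N hN ih =>
    intro j hj
    rw [jT_succ T hN, ← map_pow, ← map_sub, h.psi_nil hN (h.mono' le_rfl hN hT.mem),
      coeff_expand hp, coeff_expand hp]
    split_ifs with h1
    · obtain ⟨i, rfl⟩ := h1
      rw [Nat.mul_div_cancel_left i hp]
      refine ih i ?_
      rw [pow_succ, mul_comm (p ^ N) p] at hj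
      exact (Nat.mul_lt_mul_left hp).1 hj
    · rfl

/-- The equation of `t` has the jet `0`. -/
theorem TJ.lf_asp (h : HSn p v n R D Th) (hT : TJ p v n D Th t T) {N : ℕ} (hN : n ≤ N) :
    Cg (p ^ N) (lf (p ^ N) (Th N) (jT p n T N) (aspol p (t ^ p - t))) 0 := by
  have hq : 0 < p ^ N := pow_pos (Fact.out : p.Prime).pos N
  have hm : t ^ p - t ∈ D N := h.mono' le_rfl hN hT.mem
  have h1 : (X ^ p : Polynomial Ω) ∈ PR (D N) := pow_mem X_mem_PR p
  have h2 := h.dq hN
  rw [aspol, h2.lf_sub _ (PR_mono (h.le N hN) (sub_mem h1 X_mem_PR))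
    (C_mem_PR (h.le N hN hm)), h2.lf_sub _ (PR_mono (h.le N hN) h1) X_mem_PR, h2.lf_X hq, h2.lf_C]
  intro j hj
  have h3 := h2.lf_pow hq (h.le N hN) (jT p n T N) (X_mem_PR (D := D N)) p j hj
  rw [h2.lf_X hq] at h3
  have h4 := hT.eqN h hN j hj
  rw [coeff_sub] at h4
  rw [coeff_sub, coeff_sub, h3, h4, sub_self, coeff_zero]

/-- Reduction of the degree. -/
theorem TJ.lf_red (h : HSn p v n R D Th) (hT : TJ p v n D Th t T) {N : ℕ} (hN : n ≤ N)
    {f : Polynomial Ω} (hf : f ∈ PR (D N)) : ∃ r ∈ PR (D N), r.natDegree < p ∧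
      r.eval t = f.eval t ∧ Cg (p ^ N) (lf (p ^ N) (Th N) (jT p n T N) f)
        (lf (p ^ N) (Th N) (jT p n T N) r) := by
  have hp := (Fact.out : p.Prime)
  have hm : t ^ p - t ∈ D N := h.mono' le_rfl hN hT.mem
  have hqA : aspol p (t ^ p - t) ∈ PR (D N) :=
    sub_mem (sub_mem (pow_mem X_mem_PR p) X_mem_PR) (C_mem_PR hm)
  obtain ⟨g, hg, r, hr, h1, h2⟩ := exists_rem' (S := PR (D N)) X_mem_PR
    (fun f hf => C_mem_PR (hf _)) (aspol_monic (p := p) (t ^ p - t)) hqA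
    (by rw [aspol_natDegree]; exact hp.one_lt.le) hf
  rw [aspol_natDegree] at h2
  have h3 := h.dq hN
  refine ⟨r, hr, h2, ?_, ?_⟩
  · rw [h1, eval_add, eval_mul, aspol_eval, zero_mul, zero_add]
  · rw [h1, h3.lf_add _ (PR_mono (h.le N hN) (mul_mem hqA hg)) (PR_mono (h.le N hN) hr)]
    have h4 := (h3.lf_mul (h.le N hN) (jT p n T N) hqA hg).trans
      ((hT.lf_asp h hN).mul (Cg.refl _))
    rw [zero_mul] at h4
    have h5 := h4.add (Cg.refl (lf (p ^ N) (Th N) (jT p n T N) r))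
    rwa [zero_add] at h5

/-- Reduction of the degree, over `R`. -/
theorem TJ.red (h : HSn p v n R D Th) (hT : TJ p v n D Th t T) {f : Polynomial Ω}
    (hf : f ∈ PR R) : ∃ r ∈ PR R, r.natDegree < p ∧ r.eval t = f.eval t := by
  have hp := (Fact.out : p.Prime)
  have hqA : aspol p (t ^ p - t) ∈ PR R :=
    sub_mem (sub_mem (pow_mem X_mem_PR p) X_mem_PR) (C_mem_PR (h.le n le_rfl hT.mem))
  obtain ⟨g, hg, r, hr, h1, h2⟩ := exists_rem' (S := PR R) X_mem_PR
    (fun f hf => C_mem_PR (hf _)) (aspol_monic (p := p) (t ^ p - t)) hqA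
    (by rw [aspol_natDegree]; exact hp.one_lt.le) hf
  rw [aspol_natDegree] at h2
  exact ⟨r, hr, h2, by rw [h1, eval_add, eval_mul, aspol_eval, zero_mul, zero_add]⟩

open Classical in
/-- The extension of the operators. -/
noncomputable def Txt (p n : ℕ) (R : Subalgebra k Ω) (Th : ℕ → ℕ → Ω → Ω) (t : Ω)
    (T : Polynomial Ω) (N j : ℕ) (x : Ω) : Ω :=
  if h : ∃ f ∈ PR R, f.natDegree < p ∧ f.eval t = x then
    (lf (p ^ N) (Th N) (jT p n T N) h.choose).coeff j
  else Th N j x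

variable [IsAlgClosed Ω] [CharP Ω p] (hk : Ctx0 k v)

include hk

theorem eval_inj_of_TA (ht : TA p v A t) {f g : Polynomial Ω} (hf : f ∈ PI A) (hg : g ∈ PI A)
    (hfd : f.natDegree < p) (hgd : g.natDegree < p) (h : f.eval t = g.eval t) : f = g := by
  by_contra hne
  have h1 := ht.lp.eval_ne hk (sub_mem hf hg) (sub_ne_zero.2 hne)
    ((natDegree_sub_le _ _).trans_lt (max_lt hfd hgd))
  rw [eval_sub, h, sub_self] at h1
  exact h1 rfl

theorem Txt_eval (hR : R ≤ A.toSubalgebra) (ht : TA p v A t) (T : Polynomial Ω) (N j : ℕ)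
    {f : Polynomial Ω} (hf : f ∈ PR R) (hd : f.natDegree < p) :
    Txt p n R Th t T N j (f.eval t) = (lf (p ^ N) (Th N) (jT p n T N) f).coeff j := by
  have h : ∃ g ∈ PR R, g.natDegree < p ∧ g.eval t = f.eval t := ⟨f, hf, hd, rfl⟩
  have h1 : h.choose = f := eval_inj_of_TA hk ht (PR_PI hR h.choose_spec.1) (PR_PI hR hf)
    h.choose_spec.2.1 hd h.choose_spec.2.2
  rw [Txt, dif_pos h, h1]

theorem Txt_eval' (h : HSn p v n R D Th) (hR : R ≤ A.toSubalgebra) (ht : TA p v A t)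
    (hT : TJ p v n D Th t T) {N j : ℕ} (hN : n ≤ N) (hj : j < p ^ N) {f : Polynomial Ω}
    (hf : f ∈ PR (D N)) :
    Txt p n R Th t T N j (f.eval t) = (lf (p ^ N) (Th N) (jT p n T N) f).coeff j := by
  obtain ⟨r, hr, h1, h2, h3⟩ := hT.lf_red h hN hf
  rw [← h2, Txt_eval hk hR ht T N j (PR_mono (h.le N hN) hr) h1, h3 j hj]

/-- The norm, for a polynomial with coefficients in `D N`. -/
theorem HSn.norm_auxT (h : HSn p v n R D Th) (hR : R ≤ A.toSubalgebra) (ht : TA p v A t)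
    (hT : TJ p v n D Th t T) {N : ℕ} (hN : n ≤ N) {f : Polynomial Ω} (hf : f ∈ PR (D N))
    (hf0 : f ≠ 0) (hfd : f.natDegree < p) :
    GeP v (p ^ N) (v (f.eval t)) (lf (p ^ N) (Th N) (jT p n T N) f) := by
  have hp := (Fact.out : p.Prime).pos
  have hfA : f ∈ PI A := PR_PI hR (PR_mono (h.le N hN) hf)
  obtain ⟨δ, hδ, hstr⟩ := (ht.str hk hfA hf0 hfd).exists_delta (Finset.Icc 1 f.natDegree)
    fun l hl => (Finset.mem_Icc.1 hl).1
  rw [taylor_coeff_zero] at hstr
  obtain ⟨N1, hN1, σ, hσ, hg⟩ := hT.germ δ hδ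
  set M := max N N1 with hM
  have hNM : N ≤ M := le_max_left _ _
  have hN1M : N1 ≤ M := le_max_right _ _
  have hnM : n ≤ M := hN.trans hNM
  have hσM : σ ∈ D M := h.mono' hN1 hN1M hσ
  have hfM : f ∈ PR (D M) := PR_mono (h.mono' hN hNM) hf
  have hgM := h.germ_up hN1 hσ hg hN1M
  have hq : 0 < p ^ M := pow_pos hp M
  -- the distance from `t` to `σ`
  have hsσ : v.Ge (-δ) (t - σ) := by
    have h1 := hgM 0 hq
    rwa [coeff_sub, jT_zero, hT.zero, coeff_psi, if_pos hq, h.zero M hnM σ (h.le M hnM hσM)] at h1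
  -- the coefficients at `σ`
  have hco : ∀ i : ℕ, v.Ge (v (f.eval t) + i * δ) ((taylor σ f).coeff i) := by
    intro i
    have h1 : (taylor σ f).coeff i = (taylor (σ - t) (taylor t f)).coeff i := by
      rw [taylor_taylor, sub_add_cancel]
    rw [h1, taylor_coeff, hasseDeriv_apply, eval_sum, Polynomial.sum_def]
    refine RVal.Ge.sum _ _ fun l hl => ?_
    rw [eval_monomial]
    rcases lt_or_ge l i with hli | hli
    · rw [Nat.choose_eq_zero_of_lt hli, Nat.cast_zero, zero_mul, zero_mul]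
      exact RVal.Ge.zero
    have h2 : v.Ge (((l - i : ℕ) : ℝ) * (-δ)) ((σ - t) ^ (l - i)) := ge_pow (ge_sub_comm hsσ) _
    rw [Nat.cast_sub hli] at h2
    rcases Nat.eq_zero_or_pos l with rfl | hl0
    · have hi : i = 0 := by omega
      subst hi
      rw [taylor_coeff_zero, Nat.choose_self, Nat.cast_one, one_mul, Nat.sub_zero, pow_zero, mul_one,
        Nat.cast_zero, zero_mul, add_zero]
      exact RVal.ge_self _
    have hl1 : l ∈ Finset.Icc 1 f.natDegree := by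
      refine Finset.mem_Icc.2 ⟨hl0, ?_⟩
      have := le_natDegree_of_mem_supp l hl
      rwa [natDegree_taylor] at this
    have h3 := ((ge_natCast v (l.choose i)).mul (hstr l hl1)).mul h2
    refine h3.mono ?_
    have hli' : (i : ℝ) ≤ l := by exact_mod_cast hli
    nlinarith
  -- the Taylor formula at the level `M`
  have hD := h.dq hnM
  have key : GeP v (p ^ M) (v (f.eval t)) (lf (p ^ M) (Th M) (jT p n T M) f) := by
    refine GeP.congr ?_ (hD.lf_taylor hq (h.le M hnM) (jT p n T M) hfM hσM).symm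
    refine GeP.sum _ fun i _ => ?_
    have h1 : GeP v (p ^ M) (v (f.eval t) + i * δ) (psi (p ^ M) (Th M) ((taylor σ f).coeff i)) := by
      intro j hj
      rw [coeff_psi, if_pos hj]
      exact h.ge M hnM j hj _ (h.le M hnM (taylor_mem_PR hfM hσM i)) _ (hco i)
    refine (h1.mul (hgM.pow i)).mono (le_of_eq ?_)
    ring
  -- back to the level `N`
  intro j hj
  obtain ⟨d, hd⟩ := Nat.exists_eq_add_of_le hNM
  have h1 := h.lf_lev' T hN d (PR_mono (h.le N hN) hf) j
  rw [← hd] at h1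
  rw [← h1]
  refine key _ ?_
  rw [hd, pow_add, mul_comm]
  exact Nat.mul_lt_mul_of_pos_right hj (pow_pos hp d)

omit [IsAlgClosed Ω] [CharP Ω p] hk [Fact p.Prime] in
/-- Approximation by the polynomials with coefficients in the `D M`, of the same degree. -/
theorem HSn.approxD (h : HSn p v n R D Th) (T : Polynomial Ω) {N : ℕ} (hN : n ≤ N)
    {f : Polynomial Ω} (hf : f ∈ PR R) (b : ℝ) : ∃ M, N ≤ M ∧ ∃ g ∈ PR (D M),
      g.natDegree ≤ f.natDegree ∧
      GeP v (p ^ N) b (lf (p ^ N) (Th N) (jT p n T N) (f - g)) := by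
  have h1 : ∀ i : ℕ, ∃ r : ℝ, r ≤ 0 ∧ GeP v (p ^ N) r (jT p n T N ^ i) := fun i =>
    exists_GeP v _ _
  choose r hr0 hr using h1
  have h2 : ∀ i : ℕ, ∃ K, n ≤ K ∧ ∃ y ∈ D K, v.Ge (b - r i) (f.coeff i - y) := fun i =>
    h.dense _ (hf i) _
  choose K hK y hy hyb using h2
  set m := f.natDegree + 1 with hm
  set M := max N ((Finset.range m).sup K) with hM
  have hNM : N ≤ M := le_max_left _ _
  have hKM : ∀ i ∈ Finset.range m, K i ≤ M := fun i hi =>
    (Finset.le_sup (f := K) hi).trans (le_max_right _ _)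
  set g : Polynomial Ω := ∑ i ∈ Finset.range m, monomial i (y i) with hg
  have hgc : ∀ i, g.coeff i = if i < m then y i else 0 := by
    intro i
    rw [hg, finsetSum_coeff]
    simp only [coeff_monomial]
    rw [Finset.sum_ite_eq' (Finset.range m) i]
    simp only [Finset.mem_range]
  have hgD : g ∈ PR (D M) := by
    intro i
    rw [hgc]
    split_ifs with h3
    · exact h.mono' (hK i) (hKM i (Finset.mem_range.2 h3)) (hy i)
    · exact zero_mem _
  have hgR : g ∈ PR R := PR_mono (h.le M (hN.trans hNM)) hgD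
  have hdeg : (f - g).natDegree < m := by
    rw [Nat.lt_succ_iff, natDegree_le_iff_coeff_eq_zero]
    intro i hi
    rw [coeff_sub, hgc, if_neg (by omega), coeff_eq_zero_of_natDegree_lt (by omega), sub_zero]
  refine ⟨M, hNM, g, hgD, ?_, ?_⟩
  · rw [natDegree_le_iff_coeff_eq_zero]
    intro i hi
    rw [hgc, if_neg (by omega)]
  rw [(h.dq hN).lf_range _ hdeg]
  refine GeP.sum _ fun i hi => ?_
  have h3 : GeP v (p ^ N) (b - r i) (psi (p ^ N) (Th N) ((f - g).coeff i)) := by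
    intro j hj
    rw [coeff_psi, if_pos hj]
    refine h.ge N hN j hj _ (sub_mem hf hgR i) _ ?_
    rw [coeff_sub, hgc, if_pos (Finset.mem_range.1 hi)]
    exact hyb i
  exact (h3.mul (hr i)).mono (by rw [sub_add_cancel])

/-- The norm. -/
theorem HSn.normT (h : HSn p v n R D Th) (hR : R ≤ A.toSubalgebra) (ht : TA p v A t)
    (hT : TJ p v n D Th t T) {N : ℕ} (hN : n ≤ N) {f : Polynomial Ω} (hf : f ∈ PR R)
    (hfd : f.natDegree < p) {b : ℝ} (hb : v.Ge b (f.eval t)) :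
    GeP v (p ^ N) b (lf (p ^ N) (Th N) (jT p n T N) f) := by
  have hp := (Fact.out : p.Prime).pos
  by_cases hf0 : f = 0
  · rw [hf0, (h.dq hN).lf_zero]
    intro j _
    rw [coeff_zero]
    exact RVal.Ge.zero
  have hx : f.eval t ≠ 0 := ht.lp.eval_ne hk (PR_PI hR hf) hf0 hfd
  refine GeP.mono ?_ (hb hx)
  obtain ⟨M, hNM, g, hg, hgd, h1⟩ := h.approxD T hN hf (v (f.eval t) + 1)
  have hgR : g ∈ PR R := PR_mono (h.le M (hN.trans hNM)) hg
  have hq : 0 < p ^ N := pow_pos hp N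
  have h2 : v.Ge (v (f.eval t) + 1) (f.eval t - g.eval t) := by
    have h3 := h1 0 hq
    rwa [(h.dq hN).lf_coeff_zero hq _ (sub_mem hf hgR), jT_zero, hT.zero, eval_sub] at h3
  obtain ⟨h4, h5⟩ := Gt.val_eq hx (Gt.of_ge h2 (by linarith))
  have hg0 : g ≠ 0 := by
    rintro rfl
    rw [eval_zero] at h4
    exact h4 rfl
  have h6 := h.norm_auxT hk hR ht hT (hN.trans hNM) hg hg0 (hgd.trans_lt hfd)
  rw [h5] at h6
  have h7 : GeP v (p ^ N) (v (f.eval t)) (lf (p ^ N) (Th N) (jT p n T N) g) := by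
    intro j hj
    obtain ⟨d, hd⟩ := Nat.exists_eq_add_of_le hNM
    rw [hd] at h6
    rw [← h.lf_lev' T hN d hgR j]
    refine h6 _ ?_
    rw [pow_add, mul_comm]
    exact Nat.mul_lt_mul_of_pos_right hj (pow_pos hp d)
  have h8 := h7.add (h1.mono (by linarith : v (f.eval t) ≤ v (f.eval t) + 1))
  rw [(h.dq hN).lf_sub _ hf hgR, add_sub_cancel] at h8
  exact h8

/-- **One torsion letter.** -/
theorem HSn.adjoinT (h : HSn p v n R D Th) (hR : R ≤ A.toSubalgebra) (ht : TA p v A t)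
    (hT : TJ p v n D Th t T) :
    HSn p v n (adS R t) (fun N => adS (D N) t) (Txt p n R Th t T) where
  le := fun N hN => adS_mono (h.le N hN) t
  mono := fun N hN => adS_mono (h.mono N hN) t
  dense := by
    rintro x ⟨f, hf, rfl⟩ b
    obtain ⟨M, hM, g, hg, -, h1⟩ := h.approx T le_rfl hf b
    have hq : 0 < p ^ n := pow_pos (Fact.out : p.Prime).pos n
    refine ⟨M, hM, g.eval t, ⟨g, hg, rfl⟩, ?_⟩
    have h3 := h1 0 hq
    rwa [(h.dq le_rfl).lf_coeff_zero hq _ (sub_mem hf (PR_mono (h.le M hM) hg)), jT_zero, hT.zero,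
      eval_sub] at h3
  add := by
    rintro N hN j hj x ⟨f', hf', rfl⟩ y ⟨g', hg', rfl⟩
    obtain ⟨f, hf, hfd, hfe⟩ := hT.red h hf'
    obtain ⟨g, hg, hgd, hge⟩ := hT.red h hg'
    rw [← hfe, ← hge, ← eval_add, Txt_eval hk hR ht T N j (add_mem hf hg)
      ((natDegree_add_le _ _).trans_lt (max_lt hfd hgd)), Txt_eval hk hR ht T N j hf hfd,
      Txt_eval hk hR ht T N j hg hgd, (h.dq hN).lf_add _ hf hg, coeff_add]
  ge := by
    rintro N hN j hj x ⟨f', hf', rfl⟩ b hb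
    obtain ⟨f, hf, hfd, hfe⟩ := hT.red h hf'
    rw [← hfe] at hb ⊢
    rw [Txt_eval hk hR ht T N j hf hfd]
    exact h.normT hk hR ht hT hN hf hfd hb j hj
  zero := by
    rintro N hN x ⟨f', hf', rfl⟩
    obtain ⟨f, hf, hfd, hfe⟩ := hT.red h hf'
    rw [← hfe, Txt_eval hk hR ht T N 0 hf hfd,
      (h.dq hN).lf_coeff_zero (pow_pos (Fact.out : p.Prime).pos N) _ hf, jT_zero, hT.zero]
  alg := by
    intro N hN j hj h0 c
    have h1 := Txt_eval (p := p) (n := n) (Th := Th) hk hR ht T N j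
      (C_mem_PR (algebraMap_mem R c)) (by rw [natDegree_C]; exact (Fact.out : p.Prime).pos)
    rw [eval_C, (h.dq hN).lf_C, coeff_psi, if_pos hj, h.alg N hN j hj h0] at h1
    exact h1
  mul := by
    rintro N hN j hj x ⟨f, hf, rfl⟩ y ⟨g, hg, rfl⟩
    rw [← eval_mul, Txt_eval' hk h hR ht hT hN hj (mul_mem hf hg),
      (h.dq hN).lf_mul (h.le N hN) _ hf hg j hj, coeff_mul]
    refine Finset.sum_congr rfl fun z hz => ?_
    have hz' : z.1 + z.2 = j := by simpa using hz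
    rw [Txt_eval' hk h hR ht hT hN (by omega : z.1 < p ^ N) hf,
      Txt_eval' hk h hR ht hT hN (by omega : z.2 < p ^ N) hg]
  lev := by
    rintro N hN j hj x ⟨f', hf', rfl⟩
    obtain ⟨f, hf, hfd, hfe⟩ := hT.red h hf'
    rw [← hfe, Txt_eval hk hR ht T (N + 1) (p * j) hf hfd, Txt_eval hk hR ht T N j hf hfd,
      ← h.lf_lev T hN hf, coeff_contract (Fact.out : p.Prime).ne_zero, mul_comm]
  nil := by
    rintro N hN j hj hpj x ⟨f', hf', rfl⟩
    obtain ⟨f, hf, hfd, hfe, -⟩ := hT.lf_red h hN hf'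
    rw [← hfe, Txt_eval hk hR ht T (N + 1) j (PR_mono (h.le N hN) hf) hfd, h.lf_nil T hN hf,
      coeff_expand (Fact.out : p.Prime).pos, if_neg hpj]

/-- The extension, on `R`. -/
theorem HSn.Txt_base (h : HSn p v n R D Th) (hR : R ≤ A.toSubalgebra) (ht : TA p v A t)
    (T : Polynomial Ω) {N : ℕ} (hN : n ≤ N) {j : ℕ} (hj : j < p ^ N) {x : Ω} (hx : x ∈ R) :
    Txt p n R Th t T N j x = Th N j x := by
  have h1 := Txt_eval (p := p) (n := n) (Th := Th) hk hR ht T N j (C_mem_PR hx)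
    (by rw [natDegree_C]; exact (Fact.out : p.Prime).pos)
  rw [eval_C, (h.dq hN).lf_C, coeff_psi, if_pos hj] at h1
  exact h1

/-- The extension, on the letter. -/
theorem HSn.Txt_self (h : HSn p v n R D Th) (hR : R ≤ A.toSubalgebra) (ht : TA p v A t)
    (T : Polynomial Ω) {N : ℕ} (hN : n ≤ N) (j : ℕ) :
    Txt p n R Th t T N j t = (jT p n T N).coeff j := by
  have h1 := Txt_eval (p := p) (n := n) (Th := Th) hk hR ht T N j (f := X) X_mem_PR
    (by rw [natDegree_X]; exact (Fact.out : p.Prime).one_lt)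
  rw [eval_X, (h.dq hN).lf_X (pow_pos (Fact.out : p.Prime).pos N)] at h1
  exact h1

/-- The extension, stability. -/
theorem Txt_mem (h : HSn p v n R D Th) (hR : R ≤ A.toSubalgebra) (ht : TA p v A t)
    (hT : TJ p v n D Th t T) {B : Subalgebra k Ω}
    (hB : ∀ N, n ≤ N → ∀ j < p ^ N, ∀ x ∈ R, Th N j x ∈ B) (hTB : ∀ l, T.coeff l ∈ B)
    {N : ℕ} (hN : n ≤ N) (j : ℕ) {x : Ω} (hx : x ∈ adS R t) : Txt p n R Th t T N j x ∈ B := by
  obtain ⟨f', hf', rfl⟩ := hx
  obtain ⟨f, hf, hfd, hfe⟩ := hT.red h hf'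
  rw [← hfe, Txt_eval hk hR ht T N j hf hfd]
  have h1 : jT p n T N ∈ PR B := by
    intro l
    rw [jT, coeff_expand (pow_pos (Fact.out : p.Prime).pos _)]
    split_ifs
    exacts [hTB _, zero_mem _]
  have h2 : lf (p ^ N) (Th N) (jT p n T N) f ∈ PR B := by
    rw [lf]
    refine sum_mem fun i _ => mul_mem (fun l => ?_) (pow_mem h1 i)
    rw [coeff_psi]
    split_ifs with h3
    exacts [hB N hN l h3 _ (hf i), zero_mem _]
  exact h2 j

end Adj

end Pool.Agent.TWIV
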