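import Pool.Agent.Lib.TWIV.TL4
import Pool.Agent.Lib.TWIV.AAH

/-!
# TANK W, leaf (IV): homogeneous approximation

`hg_approx`: a homogeneous limit of `E⟨y⟩` (`y` homogeneous) is a limit of polynomials in `y`,
the terms of which have the degree of the limit.
-/

set_option autoImplicit false
set_option linter.unusedSectionVars false

open Polynomial

namespace Pool.Agent.TWIV

open Pool.Agent.H15JM (RVal)
open Pool.Agent.D2 (Ctx0)
open Pool.Agent.TWM Pool.Agent.TWC

universe u

variable {k H : Type u} [Field k] [Field H] [Algebra k H] {v : RVal H} {p : ℕ} [hp : Fact p.Prime]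
  [CharP H p] [PerfectRing H p]
  {A : Type*} [AddCommGroup A] {pr : A → H →ₗ[k] H} {E : IntermediateField k H}

/-- a homogeneous element has the degree of `z` -/
theorem hg_of (h : GrP p v pr) {z w : H} (hz : z ≠ 0) {ζ : A} (hζ : pr ζ z = z)
    (hw : pr ζ w = w) : Hg z (AA pr) w := by
  intro φ hφ x
  rw [AA] at hφ
  induction hφ using Submodule.span_induction with
  | mem φ hφ =>
    rcases Set.mem_insert_iff.1 hφ with rfl | ⟨c, rfl⟩
    · rw [cj_apply, Module.End.one_apply, Module.End.one_apply, inv_mul_cancel_left₀ hz]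
    · rw [cj_pr h hz hζ, h.mul_left hw]
  | zero => rw [cj_apply, LinearMap.zero_apply, LinearMap.zero_apply, mul_zero, mul_zero]
  | add φ ψ _ _ h1 h2 =>
    rw [cj_apply] at h1 h2 ⊢
    rw [LinearMap.add_apply, LinearMap.add_apply, h1, h2, mul_add, mul_add]
  | smul a φ _ h1 =>
    rw [cj_apply] at h1 ⊢
    rw [LinearMap.smul_apply, LinearMap.smul_apply, h1, mul_smul_comm, mul_smul_comm]

/-- **Homogeneous approximation.** -/
theorem hg_approx [IsAlgClosed H] [Fact (Ctx0 k v)] (h : GrP p v pr) (hE : ∀ c, ∀ x ∈ E, pr c x ∈ E)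
    {y z : H} {η ζ : A} (hz0 : z ≠ 0) (hηy : pr η y = y) (hζz : pr ζ z = z) (hy : TL v E y 0)
    (hz : Lim v (cadj v E y) 0 z) :
    ∀ ε : ℝ, 0 < ε → ∃ g ∈ PI E, (∀ i, Hg z (AA pr) (g.coeff i * y ^ i)) ∧
      v.Ge (-ε) (z - g.eval y) := by
  intro ε hε
  obtain ⟨x, hx, h1⟩ := hz ε hε
  rw [zero_sub] at h1
  obtain ⟨f, hf, h2⟩ := hy.dense hx (-ε)
  have h3 : v.Ge (-ε) (z - f.eval y) := by
    have := h1.add h2
    rwa [sub_add_sub_cancel] at this
  set g : Polynomial H := ∑ i ∈ f.support, monomial i (pr (ζ - i • η) (f.coeff i)) with hg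
  have hgc : ∀ i, g.coeff i = pr (ζ - i • η) (f.coeff i) := by
    intro i
    rw [hg, finsetSum_coeff]
    simp only [coeff_monomial]
    rw [Finset.sum_ite_eq']
    split_ifs with h4
    · rfl
    · rw [notMem_support_iff.1 h4, map_zero]
  have hterm : ∀ i, g.coeff i * y ^ i = pr ζ (f.coeff i * y ^ i) := by
    intro i
    rw [hgc, h.mul_right (h.pow_mem hηy i)]
  have hev : g.eval y = pr ζ (f.eval y) := by
    have h4 : f.eval y = ∑ i ∈ f.support, f.coeff i * y ^ i := by
      rw [eval_eq_sum, Polynomial.sum_def]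
    rw [h4, map_sum, hg, eval_finsetSum]
    refine Finset.sum_congr rfl fun i hi => ?_
    rw [eval_monomial, h.mul_right (h.pow_mem hηy i)]
  refine ⟨g, ?_, fun i => ?_, ?_⟩
  · intro i
    rw [hgc]
    exact hE _ _ (hf i)
  · refine hg_of h hz0 hζz ?_
    rw [hterm, h.idem]
  · rw [hev]
    have h4 := h.ge _ ζ _ h3
    rwa [map_sub, hζz] at h4

end Pool.Agent.TWIV
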