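import Pool.Agent.Lib.TWIV.TL4

/-!
# TANK W, leaf (IV): the mixed part, from the polynomials at `z` to the polynomials at `y`

* `MXD`: the relation `X_j ^ p = ∑ φ_jl X_l + ∑ q_ji y z ^ p ^ i + e_j z + f_j` over `B = E<y>`;
* `MXD.tld`: evaluation at homogeneous polynomials `g n` over `E` with `(g n) y → z`;
* `MXD.main`: the conclusion of `TLD.main`.
-/

set_option autoImplicit false

open Polynomial

namespace Pool.Agent.TWIV

open Pool.Agent.H15JM (RVal)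
open Pool.Agent.LU1 (VPos adj)
open Pool.Agent.D2 (Ctx0)
open Pool.Agent.TWM Pool.Agent.TWC

universe u

variable {k Ω : Type u} [Field k] [Field Ω] [Algebra k Ω] {v : RVal Ω}
  {E : IntermediateField k Ω} {y z : Ω} {𝒜 : Submodule k (Module.End k Ω)}
  {ι : Type} [Fintype ι] {N : ℕ}
  {φ : ι → ι → Module.End k Ω} {q : ι → ℕ → k} {e0 f0 : ι → Ω}
  {vt : ι → ℕ → Ω} {X : ι → ℕ → Polynomial Ω}

/-- The relation over `E<y>`. -/
structure MXD (p : ℕ) (v : RVal Ω) (E : IntermediateField k Ω) (y z : Ω)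
    (𝒜 : Submodule k (Module.End k Ω)) {ι : Type} [Fintype ι] (N : ℕ)
    (φ : ι → ι → Module.End k Ω) (q : ι → ℕ → k) (e0 f0 : ι → Ω)
    (vt : ι → ℕ → Ω) (X : ι → ℕ → Polynomial Ω) : Prop where
  XB : ∀ j n, X j n ∈ PI (cadj v E y)
  φA : ∀ j l, φ j l ∈ 𝒜
  e0E : ∀ j, e0 j ∈ E
  f0B : ∀ j, f0 j ∈ cadj v E y
  v0 : ∀ j i, N ≤ i → vt j i = 0
  vr : ∀ j i, i < N → vt j i ^ p =
    ∑ l, cj (z ^ p ^ (i + 1)) (φ j l) (vt l (i + 1)) + algebraMap k Ω (q j (i + 1)) * y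
  o0 : ∀ j, v.Ge 0 (e0 j + ∑ l, cj z (φ j l) (vt l 0))
  rel : ∀ j, Nul v fun n => (X j n).eval z ^ p - ∑ l, φ j l ((X l n).eval z) -
    ∑ i ∈ Finset.Icc 1 N, algebraMap k Ω (q j i) * (y * z ^ p ^ i) - e0 j * z - f0 j

/-- The value of `gcf z φ f` at an element of the degree of `z`. -/
theorem Hg.gcf_eval (hc : ∀ φ ∈ 𝒜, cj z φ ∈ 𝒜) {w : Ω} (hw : Hg z 𝒜 w) {φ : Module.End k Ω}
    (hφ : φ ∈ 𝒜) (f : Polynomial Ω) : (gcf z φ f).eval w = φ (f.eval w) := by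
  have h1 : (gcf z φ f).eval w =
      ∑ i ∈ Finset.range (f.natDegree + 1), φ (f.coeff i * w ^ i) := by
    rw [eval_eq_sum_range' (Nat.lt_succ_of_le (natDegree_gcf φ f))]
    refine Finset.sum_congr rfl fun i _ => ?_
    rw [coeff_gcf, mul_comm (f.coeff i), hw.pow hc i φ hφ, mul_comm]
  rw [h1, ← map_sum, ← eval_eq_sum_range]

/-- The relation as a polynomial over `E<y>`. -/
noncomputable def mpol (p : ℕ) (y z : Ω) (N : ℕ) (φ : ι → ι → Module.End k Ω) (q : ι → ℕ → k)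
    (e0 f0 : ι → Ω) (X : ι → ℕ → Polynomial Ω) (j : ι) (n : ℕ) : Polynomial Ω :=
  X j n ^ p - ∑ l, gcf z (φ j l) (X l n) -
    ∑ i ∈ Finset.Icc 1 N, Polynomial.C (algebraMap k Ω (q j i) * y) * Polynomial.X ^ p ^ i -
    Polynomial.C (e0 j) * Polynomial.X - Polynomial.C (f0 j)

theorem mpol_eval {p : ℕ} {w : Ω} (hc : ∀ φ ∈ 𝒜, cj z φ ∈ 𝒜) (hw : Hg z 𝒜 w)
    (hφ : ∀ j l, φ j l ∈ 𝒜) (j : ι) (n : ℕ) :
    (mpol p y z N φ q e0 f0 X j n).eval w = (X j n).eval w ^ p -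
      ∑ l, φ j l ((X l n).eval w) -
      ∑ i ∈ Finset.Icc 1 N, algebraMap k Ω (q j i) * (y * w ^ p ^ i) - e0 j * w - f0 j := by
  rw [mpol, eval_sub, eval_sub, eval_sub, eval_sub, eval_pow, eval_finsetSum, eval_finsetSum,
    eval_mul, eval_C, eval_C, eval_X]
  have h1 : ∑ l, (gcf z (φ j l) (X l n)).eval w = ∑ l, φ j l ((X l n).eval w) :=
    Finset.sum_congr rfl fun l _ => Hg.gcf_eval hc hw (hφ j l) _
  have h2 : ∑ i ∈ Finset.Icc 1 N,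
      (Polynomial.C (algebraMap k Ω (q j i) * y) * Polynomial.X ^ p ^ i).eval w =
      ∑ i ∈ Finset.Icc 1 N, algebraMap k Ω (q j i) * (y * w ^ p ^ i) :=
    Finset.sum_congr rfl fun i _ => by
      rw [eval_mul, eval_C, eval_pow, eval_X, mul_assoc]
  rw [h1, h2]

theorem Hg.self (hz : z ≠ 0) : Hg z 𝒜 z := by
  intro φ _ x
  rw [cj_apply]
  field_simp

variable (p : ℕ) [Fact p.Prime] [CharP Ω p]

/-- Evaluation at homogeneous polynomials at `y`. -/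
theorem MXD.tld [IsAlgClosed Ω] (M : MXD p v E y z 𝒜 N φ q e0 f0 vt X) (hy : TL v E y 0)
    (hz : TL v (cadj v E y) z 0) (hO : OpA v 𝒜) (sy : Stb 𝒜 E y) (sz : Stb 𝒜 (cadj v E y) z)
    (hG : ∀ ε : ℝ, 0 < ε → ∃ g ∈ PI E, (∀ i, Hg z 𝒜 (g.coeff i * y ^ i)) ∧
      v.Ge (-ε) (z - g.eval y)) :
    ∃ (f0' : ι → Polynomial Ω) (g : ℕ → Polynomial Ω) (h : ι → ℕ → Polynomial Ω),
      TLD p v E y z 𝒜 N φ q e0 f0' vt g h ∧ Nul v fun n => z - (g n).eval y := by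
  classical
  have hz0 : z ≠ 0 := TL.ne_zero4 hz
  -- the constants
  choose f0' hf0' hf0 using fun j => hy.dense (M.f0B j) 0
  -- the indices
  have h1 : ∀ t : ℕ, ∃ m : ℕ, ∀ j, v.Ge (-(1 / ((t : ℝ) + 1)))
      ((mpol p y z N φ q e0 f0 X j m).eval z) := by
    intro t
    choose n₀ hn₀ using fun j => M.rel j (1 / ((t : ℝ) + 1)) (by positivity)
    refine ⟨Finset.univ.sup n₀, fun j => ?_⟩
    rw [mpol_eval sz.cj (Hg.self hz0) M.φA]
    exact hn₀ j _ (Finset.le_sup (f := n₀) (Finset.mem_univ j))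
  choose m hm using h1
  have hmp : ∀ j n, mpol p y z N φ q e0 f0 X j n ∈ PI (cadj v E y) := by
    intro j n
    refine sub_mem (sub_mem (sub_mem (sub_mem (pow_mem (M.XB j n) p)
      (sum_mem fun l _ => gcf_mem sz (M.φA j l) (M.XB l n)))
      (sum_mem fun i _ => mul_mem (C_mem_PI (mul_mem ((cadj v E y).algebraMap_mem _)
        (self_mem_cadj v E y))) (pow_mem X_mem_PI' _)))
      (mul_mem (C_mem_PI (le_cadj v E y (M.e0E j))) X_mem_PI')) (C_mem_PI (M.f0B j))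
  -- the approximants
  have h2 : ∀ t : ℕ, ∃ g ∈ PI E, (∀ i, Hg z 𝒜 (g.coeff i * y ^ i)) ∧
      v.Ge (-(1 / ((t : ℝ) + 1))) (z - g.eval y) ∧
      ∀ j, v.Ge (-(1 / ((t : ℝ) + 1))) ((mpol p y z N φ q e0 f0 X j (m t)).eval (g.eval y)) := by
    intro t
    obtain ⟨δ, hδ, h3⟩ := ge_near_fin hz
      (Finset.univ.image fun j => mpol p y z N φ q e0 f0 X j (m t))
      (r := -(1 / ((t : ℝ) + 1))) (by
        intro f hf
        obtain ⟨j, -, rfl⟩ := Finset.mem_image.1 hf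
        exact ⟨hmp j _, hm t j⟩)
    obtain ⟨g, hg, hg1, hg2⟩ := hG (min δ (1 / ((t : ℝ) + 1))) (lt_min hδ (by positivity))
    refine ⟨g, hg, hg1, hg2.mono (neg_le_neg (min_le_right _ _)), fun j => ?_⟩
    exact h3 _ (hg2.mono (neg_le_neg (min_le_left _ _))) _
      (Finset.mem_image.2 ⟨j, Finset.mem_univ j, rfl⟩)
  choose g hg hgH hgz hgm using h2
  have hgB : ∀ t, (g t).eval y ∈ cadj v E y := fun t =>
    eval_mem (PI_mono (le_cadj v E y) (hg t)) (self_mem_cadj v E y)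
  have hgHg : ∀ t, Hg z 𝒜 ((g t).eval y) := fun t => by
    rw [eval_eq_sum, Polynomial.sum_def]
    exact Hg.sum _ _ fun i _ => hgH t i
  -- the unknowns
  choose h hhE hh using fun (j : ι) (t : ℕ) =>
    hy.dense (eval_mem (M.XB j (m t)) (hgB t)) 0
  have hnul : ∀ ε : ℝ, 0 < ε → ∃ N₀ : ℕ, ∀ t : ℕ, N₀ ≤ t → 1 / ((t : ℝ) + 1) ≤ ε := by
    intro ε hε
    obtain ⟨N₀, hN₀⟩ := exists_nat_gt (1 / ε)
    refine ⟨N₀, fun t ht => ?_⟩
    have h4 : (N₀ : ℝ) ≤ t := by exact_mod_cast ht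
    rw [div_le_iff₀ (by positivity)]
    rw [div_lt_iff₀ hε] at hN₀
    nlinarith
  refine ⟨f0', g, h,
    { aop := ⟨hO, sy, sz.cj⟩
      φA := M.φA
      gE := hg
      gh := hgH
      e0E := M.e0E
      f0E := hf0'
      hE := hhE
      v0 := M.v0
      vr := M.vr
      o0 := M.o0
      rel := ?_ }, ?_⟩
  · intro j ε hε
    obtain ⟨N₀, hN₀⟩ := hnul ε hε
    refine ⟨N₀, fun t ht => ?_⟩
    have h3 := (hgm t j).mono (neg_le_neg (hN₀ t ht))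
    rw [mpol_eval sz.cj (hgHg t) M.φA] at h3
    have h4 : v.Ge 0 ((X j (m t)).eval ((g t).eval y) ^ p - (h j t).eval y ^ p) := by
      have h5 := ge_pow (hh j t) p
      rw [mul_zero, sub_pow_char] at h5
      exact h5
    have h5 : v.Ge 0 (∑ l, (φ j l ((X l (m t)).eval ((g t).eval y)) -
        φ j l ((h l t).eval y))) := by
      refine RVal.Ge.sum _ _ fun l _ => ?_
      rw [← map_sub]
      exact hO.ge _ (M.φA j l) _ _ (hh l t)
    rw [Finset.sum_sub_distrib] at h5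
    have h6 := (h3.sub ((h4.sub h5).mono (by linarith))).add ((hf0 j).mono (by linarith))
    refine Eq.mp (congrArg (fun w => v.Ge (-ε) w) ?_) h6
    ring
  · intro ε hε
    obtain ⟨N₀, hN₀⟩ := hnul ε hε
    exact ⟨N₀, fun t ht => (hgz t).mono (neg_le_neg (hN₀ t ht))⟩

/-- **The mixed part.** -/
theorem MXD.main [IsAlgClosed Ω] [Fact (Ctx0 k v)] (M : MXD p v E y z 𝒜 N φ q e0 f0 vt X)
    (hy : TL v E y 0) (hz : TL v (cadj v E y) z 0) (hO : OpA v 𝒜) (sy : Stb 𝒜 E y)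
    (sz : Stb 𝒜 (cadj v E y) z)
    (hG : ∀ ε : ℝ, 0 < ε → ∃ g ∈ PI E, (∀ i, Hg z 𝒜 (g.coeff i * y ^ i)) ∧
      v.Ge (-ε) (z - g.eval y)) {RR : Submodule k Ω} (hR : RRd p E y 𝒜 RR)
    (hq : ∃ j i, 1 ≤ i ∧ i ≤ N ∧ q j i ≠ 0) :
    ∃ (M : ℕ) (c : ℕ → k), 1 ≤ M ∧ c M ≠ 0 ∧ ∃ r ∈ RR,
      v.Ge 0 (∑ i ∈ Finset.Icc 1 M, algebraMap k Ω (c i) * z ^ p ^ i - r) := by
  obtain ⟨f0', g, h, D, hgz⟩ := M.tld p hy hz hO sy sz hG
  exact D.main p hy hR hgz hq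

end Pool.Agent.TWIV
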