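import Pool.Agent.Lib.TWIV.S6B
import Pool.Agent.Lib.TWIV.S6C

/-!
# TANK W, leaf (IV): the mixed part, III

* `STO.gd`: the start of the gauge;
* `GDt.step`, `GDt.run`: the gauge;
* `H1`: the torsion property of the base;
* `STO.mxd`: from the output of the degree induction to `MXD`.
-/

set_option autoImplicit false
set_option linter.unusedSectionVars false

open Polynomial

namespace Pool.Agent.TWIV

open Pool.Agent.H15JM (RVal)
open Pool.Agent.D2 (Ctx0)
open Pool.Agent.TWM Pool.Agent.TWC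

universe u

section Gauge

variable {k Ω : Type u} [Field k] [Field Ω] [Algebra k Ω] {v : RVal Ω} {E : IntermediateField k Ω}
  {y z : Ω} {𝒜 : Submodule k (Module.End k Ω)} (p : ℕ) [Fact p.Prime] [CharP k p] [CharP Ω p]
  [IsAlgClosed Ω] {ι : Type} [Fintype ι] {N t : ℕ} {φ : ι → ι → Module.End k Ω}
  {X : ι → ℕ → Polynomial Ω} {f : ι → Polynomial Ω}

/-- The start of the gauge. -/
theorem STO.gd (hO : OpA v 𝒜) (sy : Stb 𝒜 E y) (sz : Stb 𝒜 (cadj v E y) z)
    (hy : TL v E y 0) (hz : TL v (cadj v E y) z 0) (hres : ResR v (cadj v (cadj v E y) z))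
    (hcan : Can p v E (cadj v E y) z) (hφ : ∀ j l, φ j l ∈ 𝒜) {w : ι → ℕ → ℕ → Ω}
    (h : STO p v E (cadj v E y) z N φ X f w) :
    ∃ (M : ℕ) (wt ep : ι → ℕ → Ω) (Q : ι → ℕ → Polynomial k),
      N ≤ M ∧ GDt p v E (cadj v E y) y z M M φ X f wt ep Q := by
  classical
  have hp : p.Prime := Fact.out
  set M : ℕ := N + ∑ j, (f j).natDegree with hM
  have hfM : ∀ j i, M < i → hasseDeriv (p ^ i) (f j) = 0 := by
    intro j i hi
    refine hasseDeriv_eq_zero_of_lt_natDegree _ _ ?_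
    have h1 : (f j).natDegree ≤ ∑ j, (f j).natDegree :=
      Finset.single_le_sum (f := fun j => (f j).natDegree) (fun _ _ => Nat.zero_le _)
        (Finset.mem_univ j)
    have h2 : i < p ^ i := Nat.lt_pow_self hp.one_lt
    omega
  obtain ⟨r1, r0⟩ := jet_rel p hO sz hz hφ (fun j n => (h.pc j).mem n) h.fB h.jet h.rel
  obtain ⟨wt, h0, h1, h2⟩ := exists_exact_jets p M (fun i j l => cj (z ^ p ^ (i + 1)) (φ j l))
    (fun i j l x b hx => hO.ge _ (sz.pow _ (hφ j l)) x b hx)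
    (fun j i => (hasseDeriv (p ^ (i + 1)) (f j)).eval z) w (v := v)
    (fun j i hi => h.w0 j i (by omega)) (fun j i _ => r1 j i)
  have hwL : ∀ j i, Lim v E 0 (wt j i) := fun j i =>
    Lim.of_nul (h.wE j i).mem ((h2 j i).neg.congr fun n => by ring)
  have hjet : ∀ j i, Nul v fun n => (hasseDeriv (p ^ i) (X j n)).eval z - wt j i := fun j i =>
    ((h.jet j i).add (h2 j i)).congr fun n => by ring
  -- the jets of `f`
  have hfL : ∀ j i, Lim v E 0 ((hasseDeriv (p ^ i) (f j)).eval z) := by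
    intro j i
    rcases Nat.eq_zero_or_pos i with rfl | hi
    · have h3 : Nul v fun _ : ℕ => ∑ l, cj z (φ j l) (wt l 0) +
          (hasseDeriv (p ^ 0) (f j)).eval z := by
        refine ((r0 j).sub (nul_op_sum hO (ψ := fun l => cj z (φ j l))
          (fun l => sz.cj _ (hφ j l)) fun l => h2 l 0)).congr fun n => ?_
        ring
      have h4 := Nul.const h3
      have h5 : Lim v E 0 (-∑ l, cj z (φ j l) (wt l 0)) :=
        limz_neg (limz_sum _ fun l _ => limz_op hO sy.mem (sz.cj _ (hφ j l)) (hwL l 0))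
      refine limz_ge h5 ?_
      have h6 := h4.neg
      rwa [neg_add'] at h6
    · obtain ⟨i, rfl⟩ := Nat.exists_eq_add_of_le' hi
      by_cases hiM : i < M
      · have h3 := h1 j i hiM
        have h4 : (hasseDeriv (p ^ (i + 1)) (f j)).eval z = wt j i ^ p -
            ∑ l, cj (z ^ p ^ (i + 1)) (φ j l) (wt l (i + 1)) := by
          rw [h3]
          ring
        rw [h4]
        refine limz_sub ?_ (limz_sum _ fun l _ =>
          limz_op hO sy.mem (sz.pow _ (hφ j l)) (hwL l (i + 1)))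
        obtain ⟨m, hm, h5⟩ := Lim.exists_cau (hwL j i)
        exact Lim.of_nul (hm.pow p).mem ((h5.pow p).congr fun n => sub_pow_char _ _)
      · rw [hfM j (i + 1) (by omega), eval_zero]
        exact limz_mem (zero_mem _)
  have key : ∀ j i, ∃ e ∈ E, ∃ Q : Polynomial k,
      Gt v 0 ((hasseDeriv (p ^ i) (f j)).eval z - (e + ly p y Q)) ∧
      (M < i → e = 0 ∧ Q = 0) := by
    intro j i
    by_cases hi : M < i
    · refine ⟨0, zero_mem _, 0, ?_, fun _ => ⟨rfl, rfl⟩⟩
      rw [hfM j i hi, eval_zero, ly_zero, add_zero, sub_zero]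
      exact Gt.zero
    · obtain ⟨e, he, Q, h3⟩ := hcan.lin p hy hz hres (hasse_mem_PI (h.fB j) (p ^ i)) (hfL j i)
      exact ⟨e, he, Q, h3, fun h4 => absurd h4 hi⟩
  choose ep hep Q hQ htop using key
  exact ⟨M, wt, ep, Q, Nat.le_add_right _ _, h.pc, h.fB, hwL, h0, hjet, h.rel, hep, hQ,
    fun j i hi => ⟨(htop j i hi).1, 0, by rw [(htop j i hi).2, C_0]⟩, htop⟩

theorem limz_pow_char {x : Ω} (hx : Lim v E 0 x) (a : ℕ) : Lim v E 0 (x ^ p ^ a) := by
  obtain ⟨m, hm, h⟩ := Lim.exists_cau hx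
  exact Lim.of_nul (hm.pow_pow p a).mem ((h.pow (p ^ a)).congr fun n => sub_pow_char_pow _ _ _)

theorem ge_cst (hO : OpA v 𝒜) (c : k) {x : Ω} {b : ℝ} (hx : v.Ge b x) :
    v.Ge b (algebraMap k Ω c * x) := by
  have h := hO.ge _ (𝒜.smul_mem c hO.one) x b hx
  rwa [LinearMap.smul_apply, Module.End.one_apply, Algebra.smul_def] at h

theorem limz_const (hO : OpA v 𝒜) (c : k) {x : Ω} (hx : Lim v E 0 x) :
    Lim v E 0 (algebraMap k Ω c * x) := by
  intro ε hε
  obtain ⟨a, ha, h1⟩ := hx ε hε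
  exact ⟨algebraMap k Ω c * a, mul_mem (E.algebraMap_mem c) ha, by
    rw [← mul_sub]; exact ge_cst hO c h1⟩

theorem limz_ly (hO : OpA v 𝒜) {x : Ω} (hx : Lim v E 0 x) (Q : Polynomial k) :
    Lim v E 0 (ly p x Q) := by
  rw [ly_eq p x Q (Nat.lt_succ_self _)]
  exact limz_sum _ fun a _ => limz_const hO _ (limz_pow_char p hx a)

/-- The step of the gauge. -/
theorem GDt.step (hO : OpA v 𝒜) (sy : Stb 𝒜 E y) (sz : Stb 𝒜 (cadj v E y) z)
    (hy : TL v E y 0) (hz : TL v (cadj v E y) z 0) (hE : Perf p E)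
    (hφ : ∀ j l, φ j l ∈ 𝒜) {wt ep : ι → ℕ → Ω} {Q : ι → ℕ → Polynomial k}
    (h : GDt p v E (cadj v E y) y z N (t + 1) φ X f wt ep Q) (ht : t + 1 ≤ N)
    [PerfectRing k p] :
    ∃ (G : ι → Polynomial Ω) (f' : ι → Polynomial Ω) (wt' ep' : ι → ℕ → Ω)
      (Q' : ι → ℕ → Polynomial k), (∀ j, G j ∈ PI (cadj v E y)) ∧
      GDt p v E (cadj v E y) y z N t φ (fun j n => X j n - G j) f' wt' ep' Q' := by
  classical
  have hp : p.Prime := Fact.out
  have hy0 : y ≠ 0 := (hy.far 0 isAlgebraic_zero).1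
  have hz0 : z ≠ 0 := (hz.far 0 isAlgebraic_zero).1
  have hyB : y ∈ cadj v E y := self_mem_cadj v E y
  have hEB : E ≤ cadj v E y := le_cadj v E y
  -- the roots
  choose η hη hηp using fun j => hE (ep j (t + 1)) (h.eE j (t + 1))
  have key : ∀ j, ∃ P : Polynomial k, ∃ c : k,
      Q j (t + 1) = C c + Polynomial.X * P.map (frobenius k p) := by
    intro j
    refine ⟨(divX (Q j (t + 1))).map ((frobeniusEquiv k p).symm : k →+* k),
      (Q j (t + 1)).coeff 0, ?_⟩
    have h1 : (frobenius k p).comp ((frobeniusEquiv k p).symm : k →+* k) = RingHom.id k :=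
      RingHom.ext fun x => frobenius_apply_frobeniusEquiv_symm (R := k) (p := p) x
    rw [Polynomial.map_map, h1, Polynomial.map_id, mul_comm Polynomial.X,
      add_comm (C ((Q j (t + 1)).coeff 0))]
    exact (divX_mul_X_add (Q j (t + 1))).symm
  choose P c hP using key
  set γ : ι → Ω := fun j => η j + ly p y (P j) with hγ
  have hγB : ∀ j, γ j ∈ cadj v E y := fun j => add_mem (hEB (hη j)) (ly_mem p hyB _)
  have hγL : ∀ j, Lim v E 0 (γ j) := by
    intro j
    exact limz_add (limz_mem (hη j)) (limz_ly p hO hy.lim _)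
  have hγp : ∀ j, γ j ^ p = ep j (t + 1) + ly p y (Q j (t + 1)) - algebraMap k Ω (c j) * y := by
    intro j
    rw [hγ]
    dsimp only
    rw [add_pow_char, hηp, ly_pow, hP j, ly_add, ly_C]
    ring
  -- the operators on `γ`
  have hop : ∀ j l, ∃ e ∈ E, ∃ R : Polynomial k,
      cj (z ^ p ^ t) (φ j l) (γ l) = e + ly p y R := by
    intro j l
    obtain ⟨R, -, hR⟩ := exists_ly p hO sy (sz.pow (p ^ t) (hφ j l)) hy0 (P l)
    refine ⟨cj (z ^ p ^ t) (φ j l) (η l), sy.mem _ (sz.pow _ (hφ j l)) _ (hη l), R, ?_⟩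
    rw [hγ]
    dsimp only
    rw [map_add, hR]
  choose e he R hR using hop
  set G : ι → Polynomial Ω := fun j => C (γ j) * Polynomial.X ^ p ^ t with hG
  set f' : ι → Polynomial Ω := fun j => f j - C (γ j ^ p) * Polynomial.X ^ p ^ (t + 1) +
    ∑ l, C (cj (z ^ p ^ t) (φ j l) (γ l)) * Polynomial.X ^ p ^ t with hf'
  have hGB : ∀ j, G j ∈ PI (cadj v E y) := fun j => mul_mem (C_mem_PI (hγB j)) (pow_mem X_mem_PI _)
  have hf'B : ∀ j, f' j ∈ PI (cadj v E y) := fun j =>
    add_mem (sub_mem (h.fB j) (mul_mem (C_mem_PI (pow_mem (hγB j) _)) (pow_mem X_mem_PI _)))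
      (sum_mem fun l _ => mul_mem (C_mem_PI (sz.mem _ (sz.pow _ (hφ j l)) _ (hγB l)))
        (pow_mem X_mem_PI _))
  have hjG : ∀ j i, (hasseDeriv (p ^ i) (G j)).eval z = if t = i then γ j else 0 := fun j i =>
    hasse_mono p (γ j) z i t
  have hjf : ∀ j i, (hasseDeriv (p ^ i) (f' j)).eval z = (hasseDeriv (p ^ i) (f j)).eval z -
      (if t + 1 = i then γ j ^ p else 0) +
      if t = i then ∑ l, cj (z ^ p ^ t) (φ j l) (γ l) else 0 := by
    intro j i
    rw [hf']
    dsimp only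
    rw [map_add, map_sub, map_sum, eval_add, eval_sub, eval_finsetSum, hasse_mono]
    simp only [hasse_mono]
    split_ifs <;> simp
  refine ⟨G, f', fun j i => wt j i - if t = i then γ j else 0,
    fun j i => if i = t + 1 then 0 else if i = t then ep j t + ∑ l, e j l else ep j i,
    fun j i => if i = t + 1 then C (c j) else if i = t then Q j t + ∑ l, R j l else Q j i,
    hGB, ?_⟩
  refine
    { pc := fun j => ?_
      fB := hf'B
      wL := fun j i => ?_
      w0 := fun j i hi => ?_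
      jet := fun j i => ?_
      rel := fun j => ?_
      eE := fun j i => ?_
      fj := fun j i => ?_
      nrm := fun j i hi => ?_
      top := fun j i hi => ?_ }
  · exact { mem := fun n => sub_mem ((h.pc j).mem n) (hGB j)
            cau := fun ε hε => by
              obtain ⟨M, hM⟩ := (h.pc j).cau ε hε
              refine ⟨M, fun m n hm hn => ?_⟩
              rw [sub_sub_sub_cancel_right]
              exact hM m n hm hn }
  · refine limz_sub (h.wL j i) ?_
    split_ifs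
    exacts [hγL j, limz_mem (zero_mem _)]
  · rw [h.w0 j i hi, if_neg (by omega), sub_zero]
  · refine (h.jet j i).congr fun n => ?_
    rw [map_sub, eval_sub, hjG]
    ring
  · refine (h.rel j).congr fun n => ?_
    have h1 : ∀ l, φ j l (γ l * z ^ p ^ t) = cj (z ^ p ^ t) (φ j l) (γ l) * z ^ p ^ t := fun l =>
      cj_mul (pow_ne_zero _ hz0) _ _
    have h2 : (f' j).eval z = (f j).eval z - γ j ^ p * z ^ p ^ (t + 1) +
        ∑ l, cj (z ^ p ^ t) (φ j l) (γ l) * z ^ p ^ t := by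
      rw [hf']
      dsimp only
      rw [eval_add, eval_sub, eval_finsetSum, eval_mul, eval_C, eval_pow, eval_X]
      simp only [eval_mul, eval_C, eval_pow, eval_X]
    have h3 : ∀ l, (X l n - G l).eval z = (X l n).eval z - γ l * z ^ p ^ t := fun l => by
      rw [eval_sub, hG]
      dsimp only
      rw [eval_mul, eval_C, eval_pow, eval_X]
    rw [h2]
    simp only [h3, map_sub, h1, Finset.sum_sub_distrib]
    rw [sub_pow_char, mul_pow, ← pow_mul, ← pow_succ]
    ring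
  · split_ifs
    exacts [zero_mem _, add_mem (h.eE j t) (sum_mem fun l _ => he j l), h.eE j i]
  · rw [hjf j i]
    by_cases h1 : i = t + 1
    · subst h1
      have h2 := h.fj j (t + 1)
      rw [if_pos rfl, if_neg (by omega), if_pos rfl, if_pos rfl, ly_C, hγp j]
      have h3 : (hasseDeriv (p ^ (t + 1)) (f j)).eval z -
          (ep j (t + 1) + ly p y (Q j (t + 1)) - algebraMap k Ω (c j) * y) + 0 -
          (0 + algebraMap k Ω (c j) * y) = (hasseDeriv (p ^ (t + 1)) (f j)).eval z -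
          (ep j (t + 1) + ly p y (Q j (t + 1))) := by ring
      rwa [h3]
    · by_cases h2 : i = t
      · subst h2
        have h3 := h.fj j i
        rw [if_neg (by omega), if_pos rfl, if_neg h1, if_pos rfl, if_neg h1, if_pos rfl, ly_add,
          ly_sum]
        simp only [hR, Finset.sum_add_distrib]
        have h4 : (hasseDeriv (p ^ i) (f j)).eval z - 0 + (∑ l, e j l + ∑ l, ly p y (R j l)) -
            (ep j i + ∑ l, e j l + (ly p y (Q j i) + ∑ l, ly p y (R j l))) =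
            (hasseDeriv (p ^ i) (f j)).eval z - (ep j i + ly p y (Q j i)) := by ring
        rwa [h4]
      · rw [if_neg (fun h => h1 h.symm), if_neg (fun h => h2 h.symm), if_neg h1, if_neg h2,
          if_neg h1, if_neg h2, sub_zero, add_zero]
        exact h.fj j i
  · by_cases h1 : i = t + 1
    · rw [if_pos h1, if_pos h1]
      exact ⟨rfl, c j, rfl⟩
    · rw [if_neg h1, if_neg h1, if_neg (by omega), if_neg (by omega)]
      exact h.nrm j i (by omega)
  · rw [if_neg (by omega), if_neg (by omega), if_neg (by omega), if_neg (by omega)]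
    exact h.top j i hi

/-- The gauge. -/
theorem GDt.run (hO : OpA v 𝒜) (sy : Stb 𝒜 E y) (sz : Stb 𝒜 (cadj v E y) z)
    (hy : TL v E y 0) (hz : TL v (cadj v E y) z 0) (hE : Perf p E) [PerfectRing k p]
    (hφ : ∀ j l, φ j l ∈ 𝒜) (t : ℕ) : ∀ {X : ι → ℕ → Polynomial Ω} {f : ι → Polynomial Ω}
    {wt ep : ι → ℕ → Ω} {Q : ι → ℕ → Polynomial k},
    GDt p v E (cadj v E y) y z N t φ X f wt ep Q → t ≤ N →
    ∃ (G : ι → Polynomial Ω) (f' : ι → Polynomial Ω) (wt' ep' : ι → ℕ → Ω)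
      (Q' : ι → ℕ → Polynomial k), (∀ j, G j ∈ PI (cadj v E y)) ∧
      GDt p v E (cadj v E y) y z N 0 φ (fun j n => X j n - G j) f' wt' ep' Q' := by
  induction t with
  | zero =>
    intro X f wt ep Q h _
    refine ⟨fun _ => 0, f, wt, ep, Q, fun _ => zero_mem _, ?_⟩
    simpa only [sub_zero] using h
  | succ t ih =>
    intro X f wt ep Q h ht
    obtain ⟨G, f', wt', ep', Q', hG, h1⟩ := h.step p hO sy sz hy hz hE hφ ht
    obtain ⟨G', f'', wt'', ep'', Q'', hG', h2⟩ := ih h1 (by omega)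
    refine ⟨fun j => G j + G' j, f'', wt'', ep'', Q'', fun j => add_mem (hG j) (hG' j), ?_⟩
    simpa only [sub_add_eq_sub_sub] using h2

end Gauge

section Torsion

variable {k Ω : Type u} [Field k] [Field Ω] [Algebra k Ω] {v : RVal Ω} {E : IntermediateField k Ω}
  {y z : Ω} {𝒜 : Submodule k (Module.End k Ω)} (p : ℕ)

/-- The torsion property of the base: a finite family of limits of `E`, the `p`-th powers of which
are combinations of the family, has torsion combinations only. -/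
def H1 (v : RVal Ω) (E : IntermediateField k Ω) (𝒜 : Submodule k (Module.End k Ω)) : Prop :=
  ∀ (κ : Type) [Fintype κ] (m e : κ → Ω) (ψ : κ → κ → Module.End k Ω) (χ : κ → Module.End k Ω),
    (∀ a, Lim v E 0 (m a)) → (∀ a, e a ∈ E) → (∀ a b, ψ a b ∈ 𝒜) → (∀ a, χ a ∈ 𝒜) →
    (∀ a, v.Ge 0 (m a ^ p - ∑ b, ψ a b (m b) - e a)) →
    ∃ Q : Polynomial k, Q ≠ 0 ∧ ∃ e' ∈ E, v.Ge 0 (ly p (∑ a, χ a (m a)) Q - e')

/-- The elements `∑ χ_a m_a + e`. -/
def InSp (v : RVal Ω) (E : IntermediateField k Ω) (𝒜 : Submodule k (Module.End k Ω)) {κ : Type}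
    [Fintype κ] (m : κ → Ω) (x : Ω) : Prop :=
  ∃ χ : κ → Module.End k Ω, (∀ a, χ a ∈ 𝒜) ∧ ∃ e ∈ E, v.Ge 0 (x - ∑ a, χ a (m a) - e)

variable [IsAlgClosed Ω] {κ : Type} [Fintype κ] {m : κ → Ω}

theorem InSp.add {x x' : Ω} (h : InSp v E 𝒜 m x) (h' : InSp v E 𝒜 m x') :
    InSp v E 𝒜 m (x + x') := by
  obtain ⟨χ, h1, e, he, h2⟩ := h
  obtain ⟨χ', h3, e', he', h4⟩ := h'
  refine ⟨fun a => χ a + χ' a, fun a => 𝒜.add_mem (h1 a) (h3 a), e + e', add_mem he he', ?_⟩
  have h5 := h2.add h4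
  have h6 : x - ∑ a, χ a (m a) - e + (x' - ∑ a, χ' a (m a) - e') =
      x + x' - ∑ a, (χ a + χ' a) (m a) - (e + e') := by
    simp only [LinearMap.add_apply, Finset.sum_add_distrib]
    ring
  rwa [h6] at h5

theorem InSp.zero : InSp v E 𝒜 m 0 := by
  refine ⟨fun _ => 0, fun _ => 𝒜.zero_mem, 0, zero_mem _, ?_⟩
  simp only [LinearMap.zero_apply, Finset.sum_const_zero, sub_zero]
  exact RVal.Ge.zero

theorem InSp.smul (hO : OpA v 𝒜) {x : Ω} (h : InSp v E 𝒜 m x) (c : k) :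
    InSp v E 𝒜 m (algebraMap k Ω c * x) := by
  obtain ⟨χ, h1, e, he, h2⟩ := h
  refine ⟨fun a => c • χ a, fun a => 𝒜.smul_mem c (h1 a), algebraMap k Ω c * e,
    mul_mem (E.algebraMap_mem c) he, ?_⟩
  have h5 := ge_cst hO c h2
  have h6 : algebraMap k Ω c * (x - ∑ a, χ a (m a) - e) =
      algebraMap k Ω c * x - ∑ a, (c • χ a) (m a) - algebraMap k Ω c * e := by
    simp only [LinearMap.smul_apply]
    rw [← Finset.smul_sum, Algebra.smul_def]
    ring
  rwa [h6] at h5

theorem InSp.sum {α : Type*} (s : Finset α) {x : α → Ω} (h : ∀ i ∈ s, InSp v E 𝒜 m (x i)) :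
    InSp v E 𝒜 m (∑ i ∈ s, x i) := by
  classical
  induction s using Finset.induction_on with
  | empty => rw [Finset.sum_empty]; exact InSp.zero
  | insert i s hi ih =>
    rw [Finset.sum_insert hi]
    exact (h i (Finset.mem_insert_self i s)).add
      (ih fun j hj => h j (Finset.mem_insert_of_mem hj))

theorem InSp.mem {e : Ω} (he : e ∈ E) : InSp v E 𝒜 m e := by
  refine ⟨fun _ => 0, fun _ => 𝒜.zero_mem, e, he, ?_⟩
  simp only [LinearMap.zero_apply, Finset.sum_const_zero, sub_zero, sub_self]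
  exact RVal.Ge.zero

theorem InSp.neg (hO : OpA v 𝒜) {x : Ω} (h : InSp v E 𝒜 m x) : InSp v E 𝒜 m (-x) := by
  have h1 := h.smul hO (-1)
  rwa [map_neg, map_one, neg_one_mul] at h1

theorem InSp.ge {x x' : Ω} (h : InSp v E 𝒜 m x) (h' : v.Ge 0 (x' - x)) : InSp v E 𝒜 m x' := by
  obtain ⟨χ, h1, e, he, h2⟩ := h
  refine ⟨χ, h1, e, he, ?_⟩
  have h3 := h'.add h2
  have h4 : x' - x + (x - ∑ a, χ a (m a) - e) = x' - ∑ a, χ a (m a) - e := by ring
  rwa [h4] at h3

theorem InSp.op (a : κ) {ψ : Module.End k Ω} (hψ : ψ ∈ 𝒜) : InSp v E 𝒜 m (ψ (m a)) := by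
  classical
  refine ⟨fun b => if b = a then ψ else 0, fun b => ?_, 0, zero_mem _, ?_⟩
  · dsimp only
    split_ifs
    exacts [hψ, 𝒜.zero_mem]
  · have h1 : ∑ b, (if b = a then ψ else 0) (m b) = ψ (m a) := by
      rw [Finset.sum_eq_single a]
      · rw [if_pos rfl]
      · intro b _ hb
        rw [if_neg hb, LinearMap.zero_apply]
      · intro h
        exact absurd (Finset.mem_univ a) h
    rw [h1, sub_self, sub_zero]
    exact RVal.Ge.zero

theorem InSp.self (hO : OpA v 𝒜) (a : κ) : InSp v E 𝒜 m (m a) := by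
  have h := InSp.op (v := v) (E := E) (m := m) a hO.one
  rwa [Module.End.one_apply] at h

variable [Fact p.Prime] [CharP k p] [CharP Ω p]

theorem ly_add_arg (x x' : Ω) (Q : Polynomial k) :
    ly p (x + x') Q = ly p x Q + ly p x' Q := by
  rw [ly_eq p (x + x') Q (Nat.lt_succ_self _), ly_eq p x Q (Nat.lt_succ_self _),
    ly_eq p x' Q (Nat.lt_succ_self _), ← Finset.sum_add_distrib]
  refine Finset.sum_congr rfl fun a _ => ?_
  rw [add_pow_char_pow, mul_add]

theorem ly_ge (hO : OpA v 𝒜) {x : Ω} (hx : v.Ge 0 x) (Q : Polynomial k) :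
    v.Ge 0 (ly p x Q) := by
  rw [ly_eq p x Q (Nat.lt_succ_self _)]
  refine RVal.Ge.sum _ _ fun a _ => ge_cst hO _ ?_
  have h1 := ge_pow hx (p ^ a)
  rwa [mul_zero] at h1

/-- The family is closed: every combination is torsion. -/
theorem H1.tor (h : H1 p v E 𝒜) (hO : OpA v 𝒜) (hm : ∀ a, Lim v E 0 (m a))
    (hcl : ∀ a, InSp v E 𝒜 m (m a ^ p)) {x : Ω} (hx : InSp v E 𝒜 m x) :
    ∃ Q : Polynomial k, Q ≠ 0 ∧ ∃ e' ∈ E, v.Ge 0 (ly p x Q - e') := by
  choose ψ hψ e he h1 using hcl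
  obtain ⟨χ, hχ, e₁, he₁, h2⟩ := hx
  obtain ⟨Q, hQ, e', he', h3⟩ := h κ m e ψ χ hm he hψ hχ h1
  refine ⟨Q, hQ, e' + ly p e₁ Q, add_mem he' (ly_mem p he₁ Q), ?_⟩
  have h4 := ly_ge p hO h2 Q
  have h5 : ly p x Q = ly p (x - ∑ a, χ a (m a) - e₁) Q +
      (ly p (∑ a, χ a (m a)) Q + ly p e₁ Q) := by
    rw [← ly_add_arg, ← ly_add_arg]
    congr 1
    ring
  have h6 : ly p x Q - (e' + ly p e₁ Q) = ly p (x - ∑ a, χ a (m a) - e₁) Q +
      (ly p (∑ a, χ a (m a)) Q - e') := by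
    rw [h5]
    ring
  rw [h6]
  exact h4.add h3

/-- `y` is not torsion. -/
theorem not_tor_ly [hc : Fact (Ctx0 k v)] (hy : TL v E y 0) {Q : Polynomial k} (hQ : Q ≠ 0) {e : Ω}
    (he : e ∈ E) : ¬ v.Ge 0 (ly p y Q - e) := by
  intro h
  set g : Polynomial Ω := ∑ a ∈ Finset.range (Q.natDegree + 1),
    C (algebraMap k Ω (Q.coeff a)) * Polynomial.X ^ p ^ a - C e with hg
  have hgE : g ∈ PI E := sub_mem (sum_mem fun a _ =>
    mul_mem (C_mem_PI (E.algebraMap_mem _)) (pow_mem X_mem_PI _)) (C_mem_PI he)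
  have h1 : g.eval y = ly p y Q - e := by
    rw [hg, eval_sub, eval_C, eval_finsetSum, ly_eq p y Q (Nat.lt_succ_self _)]
    simp only [eval_mul, eval_C, eval_pow, eval_X]
  have h2 : (hasseDeriv (p ^ Q.natDegree) g).eval y = algebraMap k Ω Q.leadingCoeff := by
    rw [hg, map_sub, map_sum, hasseDeriv_C _ _ (pow_pos (Fact.out : p.Prime).pos _), sub_zero,
      eval_finsetSum]
    simp only [hasse_mono]
    rw [Finset.sum_ite_eq', if_pos (Finset.self_mem_range_succ _)]
    rfl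
  have h3 := hasse_gt_of_ge hy hgE (r := 0) (by rw [h1]; exact h)
    (l := p ^ Q.natDegree) (Nat.one_le_iff_ne_zero.2 (pow_pos (Fact.out : p.Prime).pos _).ne')
  rw [h2] at h3
  exact hQ (leadingCoeff_eq_zero.1 (hc.out.const_eq_zero h3))

end Torsion

end Pool.Agent.TWIV
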