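import Pool.Agent.Lib.TWIV.NSDH
import Pool.Agent.Lib.TWIV.S6D

/-!
# TANK W, leaf (IV): the instance of `H1` for the graded base

`GrE.H1_of : H1 p v E (AA pr)`.
-/

set_option autoImplicit false
set_option linter.unusedSectionVars false

open Polynomial

namespace Pool.Agent.TWIV

open Pool.Agent.H15JM (RVal)
open Pool.Agent.D2 (Ctx0)
open Pool.Agent.TWM Pool.Agent.TWC

universe u

variable {k H : Type u} [Field k] [Field H] [Algebra k H] {v : RVal H} (p : ℕ) [hp : Fact p.Prime]
  [CharP k p] [PerfectRing k p] [CharP H p] [PerfectRing H p]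
  {A : Type*} [AddCommGroup A] {pr : A → H →ₗ[k] H} {E : IntermediateField k H}

theorem GrE.H1_of (h : GrE p v pr E) (hk : Ctx0 k v) : H1 p v E (AA pr) := by
  classical
  intro κ _ m e ψ χ _ he hψ hχ hr
  obtain ⟨N, b, ⟨j₀, hj₀, hb⟩, w, hw, h1⟩ := h.h1_lin p hk (x := fun a _ => m a) hψ he
    (fun a => Nul.of_ge fun _ => hr a) hχ
  set Q : Polynomial k := ∑ j ∈ Finset.range (N + 1), monomial j (b j) with hQ
  have hc : ∀ j, j < N + 1 → Q.coeff j = b j := by
    intro j hj
    rw [hQ, finsetSum_coeff, Finset.sum_eq_single j]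
    · rw [coeff_monomial, if_pos rfl]
    · intro i _ hi
      rw [coeff_monomial, if_neg hi]
    · intro hj'
      exact absurd (Finset.mem_range.2 hj) hj'
  have hdeg : Q.natDegree < N + 1 := by
    refine Nat.lt_succ_of_le (natDegree_sum_le_of_forall_le _ _ fun j hj => ?_)
    exact (natDegree_monomial_le _).trans (Nat.lt_succ_iff.1 (Finset.mem_range.1 hj))
  refine ⟨Q, fun h0 => hb ?_, w, hw, ?_⟩
  · rw [← hc j₀ (Nat.lt_succ_of_le hj₀), h0, coeff_zero]
  · have h2 : ly p (∑ a, χ a (m a)) Q =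
        ∑ j ∈ Finset.range (N + 1), b j • (∑ a, χ a (m a)) ^ p ^ j := by
      rw [ly_eq p _ Q hdeg]
      refine Finset.sum_congr rfl fun j hj => ?_
      rw [hc j (Finset.mem_range.1 hj), Algebra.smul_def]
    rw [h2]
    exact Nul.const h1

end Pool.Agent.TWIV
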