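import Pool.Agent.Lib.TWIV.TL4
import Pool.Agent.Lib.TWIV.AAH
import Pool.Agent.Lib.TWIV.NegP
import Pool.Agent.Lib.TWM.Red

/-!
# TANK W, leaf (IV): the words of a homogeneous element

`y` homogeneous. The words of depth `n` are the components of the `p ^ n`-th root of `y`.

* `RRn p pr E y n`: the `E`-algebra generated by the words of depth `n`;
* `RR p pr E y`: their union; `rrd`: it has the properties `RRd`;
* `tf`: a finite sum of homogeneous elements which is torsion modulo `E + O` is in `E + O`;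
* `letters`: an element of `RR` is a polynomial over `E` in a finite free family of elements of
  negative support, and `y` is exactly in the span of this family.
-/

set_option autoImplicit false
set_option linter.unusedSectionVars false

open Polynomial

namespace Pool.Agent.TWIV

open Pool.Agent.H15JM (RVal)
open Pool.Agent.D2 (Ctx0)
open Pool.Agent.TWM Pool.Agent.TWC

universe u

variable {k H : Type u} [Field k] [Field H] [Algebra k H] {v : RVal H} {p : ℕ} [hp : Fact p.Prime]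
  [CharP H p] [PerfectRing H p] {A : Type*} [AddCommGroup A] {pr : A → H →ₗ[k] H}
  {E : IntermediateField k H} {y : H}

/-! ### Finite sums of homogeneous elements -/

/-- `x` is a finite sum of homogeneous elements. -/
def Fs (pr : A → H →ₗ[k] H) (x : H) : Prop := ∃ S : Finset A, x = ∑ c ∈ S, pr c x

section Fs

variable (ho : ∀ c d x, c ≠ d → pr c (pr d x) = 0)

include ho

theorem Fs.out {x : H} {S : Finset A} (h : x = ∑ c ∈ S, pr c x) {c : A} (hc : c ∉ S) :
    pr c x = 0 := by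
  rw [h, map_sum]
  exact Finset.sum_eq_zero fun d hd => ho c d _ fun h1 => hc (h1 ▸ hd)

theorem Fs.sup {x : H} {S T : Finset A} (h : x = ∑ c ∈ S, pr c x) (hST : S ⊆ T) :
    x = ∑ c ∈ T, pr c x := by
  rw [← Finset.sum_subset hST fun c _ hc => Fs.out ho h hc]
  exact h

theorem Fs.add {x x' : H} (h : Fs pr x) (h' : Fs pr x') : Fs pr (x + x') := by
  classical
  obtain ⟨S, hS⟩ := h
  obtain ⟨T, hT⟩ := h'
  refine ⟨S ∪ T, ?_⟩
  simp only [map_add, Finset.sum_add_distrib]
  rw [← Fs.sup ho hS Finset.subset_union_left, ← Fs.sup ho hT Finset.subset_union_right]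

theorem Fs.zero : Fs pr (0 : H) := ⟨∅, by rw [Finset.sum_empty]⟩

theorem Fs.sum {ι : Type*} (U : Finset ι) (f : ι → H) (h : ∀ i ∈ U, Fs pr (f i)) :
    Fs pr (∑ i ∈ U, f i) := by
  classical
  induction U using Finset.induction_on with
  | empty => rw [Finset.sum_empty]; exact Fs.zero ho
  | insert i U hi ih =>
    rw [Finset.sum_insert hi]
    exact Fs.add ho (h i (Finset.mem_insert_self i U))
      (ih fun j hj => h j (Finset.mem_insert_of_mem hj))

end Fs

theorem Fs.hom {c : A} {x : H} (h : pr c x = x) : Fs pr x :=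
  ⟨{c}, by rw [Finset.sum_singleton, h]⟩

theorem Fs.smul (a : k) {x : H} (h : Fs pr x) : Fs pr (a • x) := by
  obtain ⟨S, hS⟩ := h
  refine ⟨S, ?_⟩
  simp only [map_smul, ← Finset.smul_sum]
  rw [← hS]

section Gr

variable (h : GrP p v pr) (ho : ∀ c d x, c ≠ d → pr c (pr d x) = 0)

include h ho

theorem Fs.powp {x : H} (hx : Fs pr x) : Fs pr (x ^ p) := by
  obtain ⟨S, hS⟩ := hx
  rw [hS, sum_pow_char]
  exact Fs.sum ho _ _ fun c _ => Fs.hom (h.pow_mem (h.idem c x) p)

theorem Fs.rt (hf : FinR p pr) {x : H} (hx : Fs pr x) : Fs pr (Rt p 1 x) := by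
  obtain ⟨S, hS⟩ := hx
  rw [hS, Rt_sum]
  refine Fs.sum ho _ _ fun c _ => ?_
  obtain ⟨T, hT⟩ := hf c (pr c x) (h.idem c x)
  exact ⟨T, hT⟩

theorem Fs.rtn (hf : FinR p pr) {x : H} (hx : Fs pr x) (n : ℕ) : Fs pr (Rt p n x) := by
  induction n with
  | zero => rwa [Rt_idx_zero]
  | succ n ih =>
    rw [add_comm n 1, ← Rt_Rt]
    exact Fs.rt h ho hf ih

open Classical in
/-- the components of the root of a homogeneous element -/
theorem pr_Rt_pr (c d : A) (w : H) :
    pr d (Rt p 1 (pr c w)) = if p • d = c then pr d (Rt p 1 w) else 0 := by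
  split_ifs with hc
  · rw [← hc, h.frob]
  · rw [← h.frob, ho (p • d) c w hc, Rt_zero, map_zero]

end Gr

/-! ### The algebra of the words -/

/-- The algebra of the words of depth `n`. -/
def RRn (p : ℕ) [Fact p.Prime] [CharP H p] [PerfectRing H p] (pr : A → H →ₗ[k] H)
    (E : IntermediateField k H) (y : H) (n : ℕ) : Subalgebra E H :=
  Algebra.adjoin E (Set.range fun c => pr c (Rt p n y))

section RRn

theorem RRn.word (n : ℕ) (c : A) : pr c (Rt p n y) ∈ RRn p pr E y n :=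
  Algebra.subset_adjoin ⟨c, rfl⟩

theorem RRn.base (n : ℕ) {e : H} (he : e ∈ E) : e ∈ RRn p pr E y n :=
  (RRn p pr E y n).algebraMap_mem (⟨e, he⟩ : E)

variable (h : GrP p v pr) (ho : ∀ c d x, c ≠ d → pr c (pr d x) = 0) (hf : FinR p pr)

include h ho hf

/-- the root of a word -/
theorem RRn.rt_word (n : ℕ) (c : A) : Rt p 1 (pr c (Rt p n y)) ∈ RRn p pr E y (n + 1) := by
  obtain ⟨S, hS⟩ := hf c (pr c (Rt p n y)) (h.idem c _)
  rw [hS]
  refine sum_mem fun d _ => ?_
  rw [pr_Rt_pr h ho, Rt_Rt]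
  split_ifs
  · rw [add_comm 1 n]
    exact RRn.word (n + 1) d
  · exact zero_mem _

theorem RRn.rt (hE : ∀ x ∈ E, Rt p 1 x ∈ E) {n : ℕ} {x : H} (hx : x ∈ RRn p pr E y n) :
    Rt p 1 x ∈ RRn p pr E y (n + 1) := by
  rw [RRn] at hx
  induction hx using Algebra.adjoin_induction with
  | mem x hx =>
    obtain ⟨c, rfl⟩ := hx
    exact RRn.rt_word h ho hf n c
  | algebraMap e => exact RRn.base (n + 1) (hE _ e.2)
  | add x x' _ _ h1 h2 => rw [Rt_add]; exact add_mem h1 h2
  | mul x x' _ _ h1 h2 => rw [Rt_mul]; exact mul_mem h1 h2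

theorem RRn.succ (n : ℕ) : RRn p pr E y n ≤ RRn p pr E y (n + 1) := by
  refine Algebra.adjoin_le ?_
  rintro _ ⟨c, rfl⟩
  have h1 := RRn.rt_word (E := E) (y := y) h ho hf n c
  have h2 := Rt_pow p 1 (pr c (Rt p n y))
  rw [pow_one] at h2
  simp only [SetLike.mem_coe]
  rw [← h2]
  exact pow_mem h1 p

theorem RRn.mono {m n : ℕ} (hmn : m ≤ n) : RRn p pr E y m ≤ RRn p pr E y n := by
  induction n, hmn using Nat.le_induction with
  | base => exact le_rfl
  | succ n _ ih => exact ih.trans (RRn.succ h ho hf n)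

omit hf in
/-- the words form a graded algebra -/
theorem RRn.prm (hE : ∀ c, ∀ x ∈ E, pr c x ∈ E) {n : ℕ} {x : H} (hx : x ∈ RRn p pr E y n) :
    ∀ d, pr d x ∈ RRn p pr E y n := by
  have h1 : x ∈ Submodule.span E
      ((Submonoid.closure (Set.range fun c => pr c (Rt p n y)) : Submonoid H) : Set H) := by
    rw [← Algebra.adjoin_eq_span]
    exact hx
  -- the monomials
  have h2 : ∀ x ∈ (Submonoid.closure (Set.range fun c => pr c (Rt p n y)) : Submonoid H),
      x ∈ RRn p pr E y n ∧ ∃ c, pr c x = x := by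
    intro x hx
    induction hx using Submonoid.closure_induction with
    | mem x hx =>
      obtain ⟨c, rfl⟩ := hx
      exact ⟨RRn.word n c, c, h.idem c _⟩
    | one => exact ⟨one_mem _, 0, h.one⟩
    | mul x x' _ _ h1 h2 =>
      obtain ⟨h4, c, h5⟩ := h1
      obtain ⟨h6, c', h7⟩ := h2
      exact ⟨mul_mem h4 h6, c + c', h.mul_mem h5 h7⟩
  induction h1 using Submodule.closure_induction with
  | zero => intro d; rw [map_zero]; exact zero_mem _
  | add x x' hx1 hx2 h1 h3 =>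
    intro d
    rw [map_add]
    have h4 : ∀ w ∈ Submodule.span E
        ((Submonoid.closure (Set.range fun c => pr c (Rt p n y)) : Submonoid H) : Set H),
        w ∈ RRn p pr E y n := by
      intro w hw
      rw [← Algebra.adjoin_eq_span] at hw
      exact hw
    exact add_mem (h1 (h4 _ hx1) d) (h3 (h4 _ hx2) d)
  | smul_mem e x hx1 =>
    intro d
    obtain ⟨h4, c, h5⟩ := h2 x hx1
    have h6 : e • x = (e : H) * x := rfl
    rw [h6, h.mul_right h5]
    exact mul_mem (RRn.base n (hE _ _ e.2)) h4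

end RRn

/-- The union of the algebras of the words. -/
noncomputable def RR (h : GrP p v pr) (ho : ∀ c d x, c ≠ d → pr c (pr d x) = 0) (hf : FinR p pr)
    (E : IntermediateField k H) (y : H) : Submodule k H where
  carrier := {x | ∃ n, x ∈ RRn p pr E y n}
  add_mem' := by
    rintro x x' ⟨m, hm⟩ ⟨n, hn⟩
    exact ⟨max m n, add_mem (RRn.mono h ho hf (le_max_left m n) hm)
      (RRn.mono h ho hf (le_max_right m n) hn)⟩
  zero_mem' := ⟨0, zero_mem _⟩
  smul_mem' := by
    rintro a x ⟨n, hn⟩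
    refine ⟨n, ?_⟩
    rw [Algebra.smul_def]
    exact mul_mem (RRn.base n (E.algebraMap_mem a)) hn

theorem mem_RR {h : GrP p v pr} {ho : ∀ c d x, c ≠ d → pr c (pr d x) = 0} {hf : FinR p pr}
    {x : H} : x ∈ RR h ho hf E y ↔ ∃ n, x ∈ RRn p pr E y n := Iff.rfl

/-- **The properties of `RR`.** -/
theorem rrd (h : GrP p v pr) (ho : ∀ c d x, c ≠ d → pr c (pr d x) = 0) (hf : FinR p pr)
    (hE : ∀ x ∈ E, Rt p 1 x ∈ E) (hE' : ∀ c, ∀ x ∈ E, pr c x ∈ E) {η : A} (hy : pr η y = y) :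
    RRd p E y (AA pr) (RR h ho hf E y) where
  poly f hf' := by
    refine ⟨0, ?_⟩
    have h1 : y ∈ RRn p pr E y 0 := by
      have h2 := RRn.word (p := p) (pr := pr) (E := E) (y := y) 0 η
      rwa [Rt_idx_zero, hy] at h2
    rw [eval_eq_sum_range]
    exact sum_mem fun i _ => mul_mem (RRn.base 0 (hf' i)) (pow_mem h1 i)
  op φ hφ x hx := by
    obtain ⟨n, hn⟩ := hx
    refine ⟨n, ?_⟩
    rw [AA] at hφ
    induction hφ using Submodule.span_induction with
    | mem φ hφ =>
      rcases Set.mem_insert_iff.1 hφ with rfl | ⟨c, rfl⟩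
      · exact hn
      · exact RRn.prm h ho hE' hn c
    | zero => exact zero_mem _
    | add φ ψ _ _ h1 h2 => exact add_mem h1 h2
    | smul a φ _ h1 =>
      rw [LinearMap.smul_apply, Algebra.smul_def]
      exact mul_mem (RRn.base n (E.algebraMap_mem a)) h1
  rt x hx := by
    obtain ⟨n, hn⟩ := hx
    refine ⟨Rt p 1 x, ⟨n + 1, RRn.rt h ho hf hE hn⟩, ?_⟩
    have h2 := Rt_pow p 1 x
    rwa [pow_one] at h2
  fr x hx := by
    obtain ⟨n, hn⟩ := hx
    exact ⟨n, pow_mem hn p⟩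

/-! ### Torsion -/

section Tf

variable [CharP k p]

theorem ev_range (Q : k[X]) (x : H) : ev p (fun _ => (1 : H)) 0 0 Q x =
    ∑ j ∈ Finset.range (Q.natDegree + 1), Q.coeff j • x ^ p ^ j := by
  rw [ev, Polynomial.sum_over_range' Q (fun j => by rw [map_zero, zero_mul, zero_mul])
    (Q.natDegree + 1) (Nat.lt_succ_self _)]
  exact Finset.sum_congr rfl fun j _ => by rw [mul_one, Algebra.smul_def]

variable [PerfectRing k p] (h : GrE p v pr E) (hk : Ctx0 k v)

include h

/-- A finite sum of homogeneous elements which is torsion modulo `E + O` is in `E + O`. -/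
theorem tf {x : H} (hx : Fs pr x) {Q : k[X]} (hQ : Q ≠ 0)
    (hq : ev p (fun _ => (1 : H)) 0 0 Q x ∈ EO k hk E) : x ∈ EO k hk E := by
  classical
  have hlc : Q.coeff Q.natDegree ≠ 0 := leadingCoeff_ne_zero.2 hQ
  set d := Q.natDegree with hd
  rw [ev_range, ← hd, Finset.sum_range_succ] at hq
  have h1 := Submodule.smul_mem (EO k hk E) (Q.coeff d)⁻¹ hq
  rw [smul_add, smul_smul, inv_mul_cancel₀ hlc, one_smul, Finset.smul_sum] at h1
  rcases Nat.eq_zero_or_pos d with h0 | h0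
  · rw [h0, Finset.range_zero, Finset.sum_empty, zero_add, pow_zero, pow_one] at h1
    exact h1
  obtain ⟨e, he, h2⟩ := h1
  set a : Fin d → Fin d → k := fun i j =>
    if (i : ℕ) + 1 < d then (if (j : ℕ) = i + 1 then 1 else 0)
      else -((Q.coeff d)⁻¹ * Q.coeff j) with ha
  set e' : Fin d → H := fun i => if (i : ℕ) + 1 < d then 0 else e with he'
  have h3 : ∀ i : Fin d, Nul v fun _ : ℕ => (x ^ p ^ (i : ℕ)) ^ p -
      (∑ j : Fin d, a i j • x ^ p ^ (j : ℕ)) -
      (∑ c ∈ (∅ : Finset A), ∑ j : Fin d, (0 : k) • pr c (x ^ p ^ (j : ℕ))) - e' i := by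
    intro i
    rw [Finset.sum_empty, sub_zero, ← pow_mul, ← pow_succ]
    by_cases hi : (i : ℕ) + 1 < d
    · refine Nul.of_ge fun _ => ?_
      have h4 : ∑ j : Fin d, a i j • x ^ p ^ (j : ℕ) = x ^ p ^ ((i : ℕ) + 1) := by
        rw [Finset.sum_eq_single (⟨(i : ℕ) + 1, hi⟩ : Fin d)]
        · simp only [ha, if_pos hi, if_true, one_smul]
        · intro j _ hj
          have h5 : (j : ℕ) ≠ i + 1 := fun h6 => hj (Fin.ext h6)
          simp only [ha, if_pos hi, if_neg h5, zero_smul]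
        · intro h5
          exact absurd (Finset.mem_univ _) h5
      rw [h4, sub_self, zero_sub, he']
      simp only [if_pos hi, neg_zero]
      exact RVal.Ge.zero
    · refine Nul.of_ge fun _ => ?_
      have h4 : (i : ℕ) + 1 = d := by
        have := i.2
        omega
      have h5 : ∑ j : Fin d, a i j • x ^ p ^ (j : ℕ) =
          -∑ j ∈ Finset.range d, (Q.coeff d)⁻¹ • Q.coeff j • x ^ p ^ j := by
        rw [Finset.sum_range, ← Finset.sum_neg_distrib]
        refine Finset.sum_congr rfl fun j _ => ?_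
        simp only [ha, if_neg hi, neg_smul, smul_smul]
      rw [h5, h4, he']
      simp only [if_neg hi]
      refine Eq.mp (congrArg (fun w => v.Ge 0 w) ?_) h2
      ring
  have h4 : ∀ c, pr c x ∈ EO k hk E := by
    intro c
    obtain ⟨w, hw, h5⟩ := h.pr_mem p hk ∅ a (fun _ _ _ => (0 : k))
      (x := fun i _ => x ^ p ^ (i : ℕ)) (e := e')
      (fun i => by rw [he']; simp only; split_ifs; exacts [zero_mem _, he]) h3 c ⟨0, h0⟩
    refine ⟨w, hw, ?_⟩
    have h6 := Nul.const h5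
    simpa using h6
  obtain ⟨S, hS⟩ := hx
  rw [hS]
  exact sum_mem fun c _ => h4 c

end Tf

/-! ### The letters -/

section Let

theorem lim_add {x x' : H} (hx : Lim v E 0 x) (hx' : Lim v E 0 x') : Lim v E 0 (x + x') := by
  intro ε hε
  obtain ⟨a, ha, h1⟩ := hx ε hε
  obtain ⟨b, hb, h2⟩ := hx' ε hε
  refine ⟨a + b, add_mem ha hb, ?_⟩
  rw [add_sub_add_comm]
  exact h1.add h2

theorem lim_mem {e : H} (he : e ∈ E) : Lim v E 0 e := fun _ _ =>
  ⟨e, he, by rw [sub_self]; exact RVal.Ge.zero⟩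

theorem lim_pow {w : H} (hw : Lim v E 0 w) (j : ℕ) : Lim v E 0 (w ^ p ^ j) := by
  intro ε hε
  have hp0 : (0 : ℝ) < (p : ℝ) ^ j := pow_pos (by exact_mod_cast hp.out.pos) j
  obtain ⟨a, ha, h1⟩ := hw (ε / (p : ℝ) ^ j) (div_pos hε hp0)
  refine ⟨a ^ p ^ j, pow_mem ha _, ?_⟩
  rw [← sub_pow_char_pow]
  refine (ge_pow' p (n := j) h1).mono (le_of_eq ?_)
  rw [zero_sub, zero_sub, mul_neg, mul_div_cancel₀ _ hp0.ne']

theorem lim_mul (hk : Ctx0 k v) {w : H} (hw : Lim v E 0 w) (c : k) :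
    Lim v E 0 (algebraMap k H c * w) := by
  intro ε hε
  obtain ⟨a, ha, h1⟩ := hw ε hε
  refine ⟨algebraMap k H c * a, mul_mem (E.algebraMap_mem c) ha, ?_⟩
  rw [← mul_sub]
  exact ((hk.ge c).mul h1).mono (by linarith)

theorem lim_Rt (hE : ∀ x ∈ E, Rt p 1 x ∈ E) {w : H} (hw : Lim v E 0 w) (n : ℕ) :
    Lim v E 0 (Rt p n w) := by
  induction n with
  | zero => rwa [Rt_idx_zero]
  | succ n ih =>
    intro ε hε
    obtain ⟨a, ha, h1⟩ := ih ε hε
    refine ⟨Rt p 1 a, hE a ha, ?_⟩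
    rw [add_comm n 1, ← Rt_Rt, ← Rt_sub]
    refine (ge_Rt p (n := 1) h1).mono ?_
    have hp1 : (1 : ℝ) ≤ p := by exact_mod_cast hp.out.one_le
    rw [zero_sub, pow_one, neg_div, neg_le_neg_iff]
    exact div_le_self hε.le hp1

theorem lim_pr (h : GrP p v pr) (hE : ∀ c, ∀ x ∈ E, pr c x ∈ E) {w : H} (hw : Lim v E 0 w)
    (c : A) : Lim v E 0 (pr c w) := by
  intro ε hε
  obtain ⟨a, ha, h1⟩ := hw ε hε
  refine ⟨pr c a, hE c a ha, ?_⟩
  rw [← map_sub]
  exact h.ge _ c _ h1

variable [CharP k p] {nu : H →ₗ[k] H}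

theorem NegP.powN (hN : NegP p v pr E nu) (x : H) (j : ℕ) : nu (x ^ p ^ j) = nu x ^ p ^ j := by
  induction j with
  | zero => rw [pow_zero, pow_one, pow_one]
  | succ j ih => rw [pow_succ, pow_mul, pow_mul, hN.frob, ih]

theorem NegP.rtn (hN : NegP p v pr E nu) {x : H} (hx : nu x = x) (n : ℕ) :
    nu (Rt p n x) = Rt p n x := by
  have h1 := hN.powN (Rt p n x) n
  rw [Rt_pow, hx] at h1
  have h2 := Rt_of_pow p n (nu (Rt p n x))
  rw [← h1] at h2
  exact h2.symm

/-- The elements of negative support in `E + O` are in `E`. -/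
theorem NegP.mem_of_EO (hN : NegP p v pr E nu) {hk : Ctx0 k v} {x : H} (hx : nu x = x)
    (h1 : x ∈ EO k hk E) : x ∈ E := by
  obtain ⟨e, he, h2⟩ := h1
  have h3 := hN.zero _ h2
  rw [map_sub, hx, sub_eq_zero] at h3
  rw [h3]
  exact hN.mem e he

variable (v pr E nu) in
/-- The letters. -/
def L0 (x : H) : Prop := nu x = x ∧ Lim v E 0 x ∧ ∃ x', Fs pr x' ∧ x - x' ∈ E

theorem ms_bot : MS v (⊥ : AddSubgroup ℝ) (fun _ => (1 : H)) where
  ne _ _ := one_ne_zero
  val g hg := by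
    rw [AddSubgroup.mem_bot.1 hg]
    have h1 := RVal.map_mul (v := v) (one_ne_zero (α := H)) (one_ne_zero (α := H))
    rw [one_mul] at h1
    linarith
  mul _ _ _ _ := (one_mul _).symm

theorem gsub_Zo (hN : NegP p v pr E nu) : GSub k p (⊥ : AddSubgroup ℝ) (fun _ => (1 : H))
    (fun _ x => x ∈ E ∧ nu x = x) where
  zero _ := ⟨zero_mem _, map_zero _⟩
  add _ a b ha hb := ⟨add_mem ha.1 hb.1, by rw [map_add, ha.2, hb.2]⟩
  op c _ _ j w _ hw := by
    rw [mul_one, ← Algebra.smul_def]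
    exact ⟨E.smul_mem (pow_mem hw.1 _), by rw [map_smul, hN.powN, hw.2]⟩

theorem gsub_Lo (h : GrP p v pr) (ho : ∀ c d x, c ≠ d → pr c (pr d x) = 0) (hk : Ctx0 k v)
    (hN : NegP p v pr E nu) : GSub k p (⊥ : AddSubgroup ℝ) (fun _ => (1 : H))
    (fun _ x => L0 v pr E nu x) where
  zero _ := ⟨map_zero _, lim_mem (zero_mem E), 0, Fs.zero ho, by rw [sub_zero]; exact zero_mem _⟩
  add _ a b ha hb := by
    obtain ⟨h1, h2, a', h3, h4⟩ := ha
    obtain ⟨h5, h6, b', h7, h8⟩ := hb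
    refine ⟨by rw [map_add, h1, h5], lim_add h2 h6, a' + b', Fs.add ho h3 h7, ?_⟩
    rw [add_sub_add_comm]
    exact add_mem h4 h8
  op c _ _ j w _ hw := by
    obtain ⟨h1, h2, w', h3, h4⟩ := hw
    have h5 : Fs pr (w' ^ p ^ j) := by
      induction j with
      | zero => rwa [pow_zero, pow_one]
      | succ j ih => rw [pow_succ, pow_mul]; exact Fs.powp h ho ih
    rw [mul_one]
    refine ⟨?_, lim_mul hk (lim_pow h2 j) c, c • w' ^ p ^ j, Fs.smul c h5, ?_⟩
    · rw [← Algebra.smul_def, map_smul, hN.powN, h1]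
    · rw [← Algebra.smul_def, ← smul_sub, ← sub_pow_char_pow]
      exact E.smul_mem (pow_mem h4 _)

/-- The span of the letters. -/
def SpE (p : ℕ) (E : IntermediateField k H) {ι : Type*} (S : Finset ι) (w : ι → H) (x : H) :
    Prop := ∃ e ∈ E, ∃ Q : ι → k[X], x = e + ∑ i ∈ S, ev p (fun _ => (1 : H)) 0 0 (Q i) (w i)

theorem SpE.add {ι : Type*} {S : Finset ι} {w : ι → H} {x x' : H} (h : SpE p E S w x)
    (h' : SpE p E S w x') : SpE p E S w (x + x') := by
  obtain ⟨e, he, Q, rfl⟩ := h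
  obtain ⟨e', he', Q', rfl⟩ := h'
  refine ⟨e + e', add_mem he he', fun i => Q i + Q' i, ?_⟩
  simp only [ev_add, Finset.sum_add_distrib]
  ring

theorem SpE.sum {ι α : Type*} {S : Finset ι} {w : ι → H} (U : Finset α) (f : α → H)
    (h : ∀ a ∈ U, SpE p E S w (f a)) : SpE p E S w (∑ a ∈ U, f a) := by
  classical
  induction U using Finset.induction_on with
  | empty =>
    rw [Finset.sum_empty]
    refine ⟨0, zero_mem E, fun _ => 0, ?_⟩
    simp only [ev_zero, Finset.sum_const_zero, add_zero]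
  | insert a U ha ih =>
    rw [Finset.sum_insert ha]
    exact (h a (Finset.mem_insert_self a U)).add (ih fun b hb => h b (Finset.mem_insert_of_mem hb))

theorem ev_op (v : RVal H) {f g : k[X]} (w : H) : ev p (fun _ => (1 : H)) 0 0 (tw p f g) w =
    ev p (fun _ => (1 : H)) 0 0 f (ev p (fun _ => (1 : H)) 0 0 g w) :=
  ev_tw (p := p) (ms_bot (v := v)) (G := (⊥ : AddSubgroup ℝ)) (s := 0) (r := 0) (t := 0)
    (fun j _ => by rw [mul_zero, sub_zero]; exact zero_mem _)
    (fun j _ => by rw [mul_zero, sub_zero]; exact zero_mem _) w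

theorem ev_X (x : H) : ev p (fun _ => (1 : H)) 0 0 (X : k[X]) x = x ^ p := by
  have h1 := ev_mono (k := k) (p := p) (M := fun _ => (1 : H)) (s := 0) (r := 0) 1 1 x
  rw [map_one, one_mul, pow_one] at h1
  rw [h1, map_one, one_mul, one_mul, pow_one]

theorem SpE.powp (v : RVal H) {ι : Type*} {S : Finset ι} {w : ι → H} {x : H}
    (h : SpE p E S w x) : SpE p E S w (x ^ p) := by
  obtain ⟨e, he, Q, rfl⟩ := h
  refine ⟨e ^ p, pow_mem he p, fun i => tw p X (Q i), ?_⟩
  rw [add_pow_char, sum_pow_char]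
  simp only [ev_op v, ev_X]

theorem SpE.powN (v : RVal H) {ι : Type*} {S : Finset ι} {w : ι → H} {x : H}
    (h : SpE p E S w x) (n : ℕ) : SpE p E S w (x ^ p ^ n) := by
  induction n with
  | zero => rwa [pow_zero, pow_one]
  | succ n ih => rw [pow_succ, pow_mul]; exact ih.powp v

theorem SpE.adj {ι : Type*} {S : Finset ι} {w : ι → H} {x : H} (h : SpE p E S w x) :
    x ∈ Algebra.adjoin E (w '' S) := by
  obtain ⟨e, he, Q, rfl⟩ := h
  refine add_mem ((Algebra.adjoin E (w '' (S : Set ι))).algebraMap_mem (⟨e, he⟩ : E))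
    (sum_mem fun i hi => ?_)
  rw [ev_range]
  refine sum_mem fun j _ => ?_
  rw [Algebra.smul_def]
  refine mul_mem ((Algebra.adjoin E (w '' (S : Set ι))).algebraMap_mem
    (⟨_, E.algebraMap_mem ((Q i).coeff j)⟩ : E)) (pow_mem ?_ _)
  exact Algebra.subset_adjoin (Set.mem_image_of_mem w (Finset.mem_coe.2 hi))

/-- **The letters.** -/
theorem letters [PerfectRing k p] [IsAlgClosed k] (h : GrE p v pr E) (hk : Ctx0 k v)
    (hN : NegP p v pr E nu) (hf : FinR p pr) {η : A} (hy : pr η y = y) (hny : nu y = y)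
    (hly : Lim v E 0 y) {r : H} (hr : r ∈ RR h.gr h.orth hf E y) :
    ∃ (n : ℕ) (w : Fin n → H), (∀ i, Lim v E 0 (w i)) ∧ (∀ i, nu (w i) = w i) ∧
      (∀ P : Fin n → k[X], ∑ i, ev p (fun _ => (1 : H)) 0 0 (P i) (w i) ∈ EO k hk E →
        ∀ i, P i = 0) ∧
      r ∈ Algebra.adjoin E (Set.range w) ∧
      ∃ e ∈ E, ∃ Q : Fin n → k[X], y = e + ∑ i, ev p (fun _ => (1 : H)) 0 0 (Q i) (w i) := by
  classical
  obtain ⟨m, hm⟩ := hr
  -- the words
  obtain ⟨U, hU⟩ := Fs.rtn h.gr h.orth hf (Fs.hom hy) m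
  have hnm : nu (Rt p m y) = Rt p m y := hN.rtn hny m
  set w₀ : U → H := fun c => pr c (Rt p m y) with hw₀
  have hL : ∀ c : U, L0 v pr E nu (w₀ c) := fun c =>
    ⟨by rw [hw₀]; simp only; rw [hN.pr, hnm], lim_pr h.gr h.mem (lim_Rt h.perf hly m) c,
      w₀ c, Fs.hom (h.gr.idem _ _), by rw [sub_self]; exact zero_mem _⟩
  have hLL := gsub_Lo (E := E) (nu := nu) h.gr h.orth hk hN
  obtain ⟨S, w, h1, h2, -, h4, h5⟩ := exists_reduced (v := v) (r := fun _ : U => (0 : ℝ)) ms_bot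
    (gsub_Zo hN) hLL (fun _ a ha => ⟨ha.2, lim_mem ha.1, 0, Fs.zero h.orth, by
      rw [sub_zero]; exact ha.1⟩) w₀ hL
  -- the elements which are torsion
  have htor : ∀ i ∈ S, ∀ Q : k[X], Q ≠ 0 → ev p (fun _ => (1 : H)) 0 0 Q (w i) ∈ EO k hk E →
      w i ∈ E := by
    intro i hi Q hQ hq
    obtain ⟨h6, h7, x', h8, h9⟩ := h1 i hi
    refine hN.mem_of_EO (hk := hk) h6 ?_
    have h10 : ev p (fun _ => (1 : H)) 0 0 Q x' ∈ EO k hk E := by
      have h11 : ev p (fun _ => (1 : H)) 0 0 Q (w i - x') ∈ EO k hk E := by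
        refine ⟨_, ?_, by rw [sub_self]; exact RVal.Ge.zero⟩
        rw [ev_range]
        exact sum_mem fun j _ => E.smul_mem (pow_mem h9 _)
      have h12 := Submodule.sub_mem _ hq h11
      rw [← ev_sub_right, sub_sub_cancel] at h12
      exact h12
    have h11 := tf h hk h8 hQ h10
    have h12 : w i - x' ∈ EO k hk E := ⟨_, h9, by rw [sub_self]; exact RVal.Ge.zero⟩
    have h13 := Submodule.add_mem _ h12 h11
    rwa [sub_add_cancel] at h13
  -- the family is free
  have hfree : FreeOn k p (⊥ : AddSubgroup ℝ) (fun _ => (1 : H)) (fun _ x => x ∈ E ∧ nu x = x)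
      (fun _ => (0 : ℝ)) w S := by
    rcases h5 with h5 | ⟨R, Q, hQ, ⟨i, hi, hQi⟩, hrel, -, hd⟩
    · exact h5
    · exfalso
      have huniq : ∀ j ∈ S, j ≠ i → Q j = 0 := by
        intro j hj hji
        by_contra hQj
        rcases le_total (Q j).natDegree (Q i).natDegree with h6 | h6
        · refine hd i hi j hj (Ne.symm hji) hQi hQj h6 ?_
          rw [mul_zero, sub_zero]
          exact zero_mem _
        · refine hd j hj i hi hji hQj hQi h6 ?_
          rw [mul_zero, sub_zero]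
          exact zero_mem _
      have hR : R = 0 := by
        have h6 : (Q i).coeff (Q i).natDegree ≠ 0 := leadingCoeff_ne_zero.2 hQi
        have h7 := hQ i hi _ h6
        rw [mul_zero, sub_zero] at h7
        exact AddSubgroup.mem_bot.1 h7
      rw [hR, Finset.sum_eq_single i (fun j hj hji => by rw [huniq j hj hji, ev_zero])
        (fun h6 => absurd hi h6)] at hrel
      have h6 := htor i hi (Q i) hQi ⟨_, hrel.1, by rw [sub_self]; exact RVal.Ge.zero⟩
      exact h4 i hi (InSpan.of_Z ⟨h6, (h1 i hi).1⟩)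
  -- the words are in the span
  have hspan : ∀ c, SpE p E S w (w₀ c) := by
    intro c
    obtain ⟨Q, -, h6⟩ := h2 c
    exact ⟨_, h6.1, Q, by ring⟩
  have hySp : SpE p E S w y := by
    have h6 := Rt_pow p m y
    rw [← h6, hU, sum_pow_char_pow, ← Finset.sum_coe_sort]
    exact SpE.sum _ _ fun c _ => (hspan c).powN v m
  have hrS : r ∈ Algebra.adjoin E (w '' S) := by
    rw [RRn] at hm
    refine Algebra.adjoin_le (S := Algebra.adjoin E (w '' S)) ?_ hm
    rintro _ ⟨c, rfl⟩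
    by_cases hc : c ∈ U
    · exact (hspan ⟨c, hc⟩).adj
    · simp only [SetLike.mem_coe]
      rw [Fs.out h.orth hU hc]
      exact zero_mem _
  -- the index set
  set f : Fin S.card ≃ S := S.equivFin.symm with hf'
  have hsum : ∀ g : U → H, ∑ i ∈ S, g i = ∑ i, g (f i) := by
    intro g
    rw [← Finset.sum_coe_sort S g]
    exact (Equiv.sum_comp f fun i : S => g i).symm
  refine ⟨S.card, fun i => w (f i), fun i => (h1 _ (f i).2).2.1, fun i => (h1 _ (f i).2).1,
    fun P hP => ?_, ?_, ?_⟩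
  · set P' : U → k[X] := fun c => if hc : c ∈ S then P (f.symm ⟨c, hc⟩) else 0 with hP'
    have h6 : ∀ i, P' (f i) = P i := by
      intro i
      rw [hP']
      simp only
      rw [dif_pos (f i).2]
      simp
    have h7 : ∑ i ∈ S, ev p (fun _ => (1 : H)) 0 0 (P' i) (w i) ∈ EO k hk E := by
      rw [hsum fun c => ev p (fun _ => (1 : H)) 0 0 (P' c) (w c)]
      simp only [h6]
      exact hP
    have h8 : L0 v pr E nu (∑ i ∈ S, ev p (fun _ => (1 : H)) 0 0 (P' i) (w i)) :=
      hLL.sum (r := 0) fun i hi => hLL.ev (s := 0) (r := 0)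
        (fun j _ => by rw [mul_zero, sub_zero]; exact zero_mem _) (h1 i hi)
    have h9 := hfree 0 P' (fun i _ j _ => by rw [mul_zero, sub_zero]; exact zero_mem _)
      ⟨hN.mem_of_EO h8.1 h7, h8.1⟩
    intro i
    rw [← h6 i]
    exact h9 _ (f i).2
  · have h6 : w '' S = Set.range fun i => w (f i) := by
      ext x
      constructor
      · rintro ⟨c, hc, rfl⟩
        exact ⟨f.symm ⟨c, hc⟩, by simp⟩
      · rintro ⟨i, rfl⟩
        exact ⟨_, (f i).2, rfl⟩
    rwa [h6] at hrS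
  · obtain ⟨e, he, Q, h6⟩ := hySp
    refine ⟨e, he, fun i => Q (f i), ?_⟩
    rw [hsum fun c => ev p (fun _ => (1 : H)) 0 0 (Q c) (w c)] at h6
    exact h6

end Let

end Pool.Agent.TWIV
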