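import Pool.Agent.Lib.TWIV.JetDefs
import Pool.Agent.Lib.TWC.ExtH

/-!
# TANK W, leaf (IV), row A5: homogeneous series, graded closed fields

* `SDeg pr α c f`: the coefficient of index `n` of the power series `f` has degree `c - n α`;
* `exists_hpoly`: homogeneous polynomials are dense; `gr_cadj`: the closure of `E(y)` is graded;
* `Hsd`: an isometric homomorphism `h : K → H⟦a⟧` which is homogeneous; `Hsd.adj`: extension of the
  homogeneity to the closure of `F(w)`;
* `exists_taylor`: the Taylor homomorphism `w -> w + a`, values in the closure of `F(w)`.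
-/

set_option autoImplicit false

open Polynomial

namespace Pool.Agent.TWIV

open Pool.Agent.H15JM (RVal)
open Pool.Agent.D2 (Ctx0)
open Pool.Agent.D2P (mem_clI)
open Pool.Agent.TWM
open Pool.Agent.TWC (Nul Cau HSI HSX PGe eq_of_ge)
open Pool.Agent.TWS (SphC)

universe u

variable {k H : Type u} [Field k] [Field H] [Algebra k H] {v : RVal H} {p : ℕ} [hp : Fact p.Prime]
  [CharP H p] [PerfectRing H p] {A : Type*} [AddCommGroup A] {pr : A → H →ₗ[k] H} {α c d : A}

/-! ### Homogeneous series -/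

/-- The coefficient of index `n` has degree `c - n α`. -/
def SDeg (pr : A → H →ₗ[k] H) (α c : A) (f : PowerSeries H) : Prop :=
  ∀ n : ℕ, pr (c - n • α) (PowerSeries.coeff n f) = PowerSeries.coeff n f

omit [PerfectRing H p] [CharP H p] hp in
theorem SDeg.add {f g : PowerSeries H} (hf : SDeg pr α c f) (hg : SDeg pr α c g) :
    SDeg pr α c (f + g) := fun n => by
  rw [map_add, map_add, hf n, hg n]

omit [PerfectRing H p] [CharP H p] hp in
theorem SDeg.zero : SDeg pr α c (0 : PowerSeries H) := fun n => by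
  rw [map_zero, map_zero]

omit [PerfectRing H p] [CharP H p] hp in
theorem SDeg.sum {ι : Type*} (s : Finset ι) {f : ι → PowerSeries H}
    (h : ∀ i ∈ s, SDeg pr α c (f i)) : SDeg pr α c (∑ i ∈ s, f i) := fun n => by
  rw [map_sum, map_sum]
  exact Finset.sum_congr rfl fun i hi => h i hi n

theorem SDeg.mul (h : GrP p v pr) {f g : PowerSeries H} (hf : SDeg pr α c f)
    (hg : SDeg pr α d g) : SDeg pr α (c + d) (f * g) := fun n => by
  rw [PowerSeries.coeff_mul, map_sum]
  refine Finset.sum_congr rfl fun i hi => ?_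
  rw [Finset.HasAntidiagonal.mem_antidiagonal] at hi
  have e : c + d - n • α = (c - i.1 • α) + (d - i.2 • α) := by
    rw [← hi, add_smul]
    abel
  rw [e]
  exact h.mul_mem (hf i.1) (hg i.2)

theorem SDeg.one (h : GrP p v pr) : SDeg pr α 0 (1 : PowerSeries H) := fun n => by
  rw [PowerSeries.coeff_one]
  split_ifs with hn
  · rw [hn, zero_smul, sub_zero]
    exact h.one
  · exact map_zero _

theorem SDeg.pow (h : GrP p v pr) {f : PowerSeries H} (hf : SDeg pr α c f) (l : ℕ) :
    SDeg pr α (l • c) (f ^ l) := by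
  induction l with
  | zero =>
    rw [zero_smul, pow_zero]
    exact SDeg.one h
  | succ l ih =>
    rw [succ_nsmul, pow_succ]
    exact ih.mul h hf

omit [PerfectRing H p] [CharP H p] hp in
theorem SDeg.C {x : H} (hx : pr c x = x) : SDeg pr α c (PowerSeries.C x) := fun n => by
  rw [PowerSeries.coeff_C]
  split_ifs with hn
  · rw [hn, zero_smul, sub_zero, hx]
  · exact map_zero _

theorem SDeg.X (h : GrP p v pr) : SDeg pr α α (PowerSeries.X : PowerSeries H) := fun n => by
  rw [PowerSeries.coeff_X]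
  split_ifs with hn
  · rw [hn, one_smul, sub_self]
    exact h.one
  · exact map_zero _

/-- A limit of elements of degree `c` has degree `c`. -/
theorem deg_of_lim (h : GrP p v pr) {x : H}
    (hx : ∀ b : ℝ, ∃ t : H, pr c t = t ∧ v.Ge b (x - t)) : pr c x = x := by
  refine eq_of_ge (v := v) fun b => ?_
  obtain ⟨t, ht, h1⟩ := hx b
  have e : pr c x - x = pr c (x - t) - (x - t) := by
    rw [map_sub, ht]
    ring
  rw [e]
  exact (h.ge b c _ h1).sub h1

/-! ### Graded closed fields -/

variable [IsAlgClosed H] {E F K : IntermediateField k H} {w y z : H} {γ ζ : A}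

/-- Homogeneous polynomials in `w` of degree `c` are dense in the part of degree `c`. -/
theorem exists_hpoly (h : GrP p v pr) (hF : ∀ c, ∀ x ∈ F, pr c x ∈ F) (hw : TL v F w 0)
    (hγ : pr γ w = w) {x : H} (hx : x ∈ cadj v F w) (c : A) (b : ℝ) :
    ∃ f ∈ PI F, (∀ j : ℕ, pr (c - j • γ) (f.coeff j) = f.coeff j) ∧
      v.Ge b (pr c x - f.eval w) := by
  classical
  obtain ⟨f, hf, h1⟩ := hw.dense hx b
  set g : Polynomial H := ∑ j ∈ Finset.range (f.natDegree + 1),
    Polynomial.C (pr (c - j • γ) (f.coeff j)) * Polynomial.X ^ j with hg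
  have hgc : ∀ j, g.coeff j = if j ∈ Finset.range (f.natDegree + 1) then
      pr (c - j • γ) (f.coeff j) else 0 := by
    intro j
    rw [hg, finsetSum_coeff]
    simp only [coeff_C_mul, coeff_X_pow, mul_ite, mul_one, mul_zero]
    rw [Finset.sum_ite_eq]
  have hge : g.eval w = pr c (f.eval w) := by
    rw [hg, eval_finsetSum, eval_eq_sum_range, map_sum]
    refine Finset.sum_congr rfl fun j _ => ?_
    rw [eval_mul, eval_C, eval_pow, eval_X, h.mul_right (h.pow_mem hγ j)]
  refine ⟨g, fun j => ?_, fun j => ?_, ?_⟩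
  · rw [hgc]
    split_ifs
    · exact hF _ _ (hf j)
    · exact zero_mem _
  · rw [hgc]
    split_ifs
    · exact h.idem _ _
    · exact map_zero _
  · rw [hge, ← map_sub]
    exact h.ge b c _ h1

/-- The closure of `F(w)` is graded. -/
theorem gr_cadj (h : GrP p v pr) (hF : ∀ c, ∀ x ∈ F, pr c x ∈ F) (hw : TL v F w 0)
    (hγ : pr γ w = w) : ∀ c, ∀ x ∈ cadj v F w, pr c x ∈ cadj v F w := by
  intro c x hx
  refine cld_cadj v F w (mem_clI.2 fun b => ?_)
  obtain ⟨f, hf, -, h1⟩ := exists_hpoly h hF hw hγ hx c b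
  exact ⟨f.eval w, eval_mem (PI_mono (le_cadj v F w) hf) (self_mem_cadj v F w), h1⟩

/-! ### Homogeneous homomorphisms -/

omit [IsAlgClosed H] hp [CharP H p] [PerfectRing H p] in
/-- The values at the polynomials in `w`. -/
theorem map_evalw {R : Type*} [CommRing R] (h : cadj v F w →+* R) {f : Polynomial H}
    (hf : f ∈ PI F) (hx : f.eval w ∈ cadj v F w) :
    h ⟨f.eval w, hx⟩ = ∑ j ∈ Finset.range (f.natDegree + 1),
      h ⟨f.coeff j, le_cadj v F w (hf j)⟩ * h ⟨w, self_mem_cadj v F w⟩ ^ j := by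
  have e : (⟨f.eval w, hx⟩ : cadj v F w) = ∑ j ∈ Finset.range (f.natDegree + 1),
      ⟨f.coeff j, le_cadj v F w (hf j)⟩ * ⟨w, self_mem_cadj v F w⟩ ^ j := by
    refine Subtype.ext ?_
    push_cast
    exact eval_eq_sum_range w
  rw [e, map_sum]
  refine Finset.sum_congr rfl fun j _ => ?_
  rw [map_mul, map_pow]

/-- `h` is homogeneous. -/
theorem sdeg_cadj (hg : GrP p v pr) (hF : ∀ c, ∀ x ∈ F, pr c x ∈ F) (hw : TL v F w 0)
    (hγ : pr γ w = w) {h : cadj v F w →ₐ[k] PowerSeries H} (hh : HSI v (cadj v F w) h)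
    (h0 : ∀ (x : cadj v F w) (c : A), (x : H) ∈ F → pr c (x : H) = x → SDeg pr α c (h x))
    (h1 : SDeg pr α γ (h ⟨w, self_mem_cadj v F w⟩)) (x : cadj v F w) (c : A)
    (hx : pr c (x : H) = x) : SDeg pr α c (h x) := by
  intro n
  refine deg_of_lim hg fun b => ?_
  obtain ⟨f, hf, h2, h3⟩ := exists_hpoly hg hF hw hγ x.2 c b
  rw [hx] at h3
  have hfw : f.eval w ∈ cadj v F w :=
    eval_mem (PI_mono (le_cadj v F w) hf) (self_mem_cadj v F w)
  have h4 : SDeg pr α c (h ⟨f.eval w, hfw⟩) := by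
    have h5 := map_evalw (h : cadj v F w →+* PowerSeries H) hf hfw
    simp only [RingHom.coe_coe] at h5
    rw [h5]
    refine SDeg.sum _ fun j _ => ?_
    have h6 := (h0 ⟨f.coeff j, le_cadj v F w (hf j)⟩ (c - j • γ) (hf j) (h2 j)).mul hg
      (h1.pow hg j)
    rwa [sub_add_cancel] at h6
  refine ⟨_, h4 n, ?_⟩
  rw [← map_sub, ← map_sub]
  exact hh.norm n _ b h3

omit [PerfectRing H p] [CharP H p] hp in
/-- `h` has values in `K`. -/
theorem val_cadj (hK : Cld v K) (hw : TL v F w 0)
    {h : cadj v F w →ₐ[k] PowerSeries H} (hh : HSI v (cadj v F w) h)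
    (h0 : ∀ (x : cadj v F w) (n : ℕ), (x : H) ∈ F → PowerSeries.coeff n (h x) ∈ K)
    (h1 : ∀ n, PowerSeries.coeff n (h ⟨w, self_mem_cadj v F w⟩) ∈ K) (x : cadj v F w) (n : ℕ) :
    PowerSeries.coeff n (h x) ∈ K := by
  classical
  refine hK (mem_clI.2 fun b => ?_)
  obtain ⟨f, hf, h2⟩ := hw.dense x.2 b
  have hfw : f.eval w ∈ cadj v F w :=
    eval_mem (PI_mono (le_cadj v F w) hf) (self_mem_cadj v F w)
  refine ⟨PowerSeries.coeff n (h ⟨f.eval w, hfw⟩), ?_, ?_⟩
  · have h5 := map_evalw (h : cadj v F w →+* PowerSeries H) hf hfw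
    simp only [RingHom.coe_coe] at h5
    rw [h5, map_sum]
    refine sum_mem fun j _ => ?_
    have hpow : ∀ (j n : ℕ), PowerSeries.coeff n (h ⟨w, self_mem_cadj v F w⟩ ^ j) ∈ K := by
      intro j
      induction j with
      | zero =>
        intro n
        rw [pow_zero, PowerSeries.coeff_one]
        split_ifs
        exacts [one_mem _, zero_mem _]
      | succ j ih =>
        intro n
        rw [pow_succ, PowerSeries.coeff_mul]
        exact sum_mem fun i _ => mul_mem (ih i.1) (h1 i.2)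
    rw [PowerSeries.coeff_mul]
    exact sum_mem fun i _ => mul_mem (h0 _ i.1 (hf j)) (hpow j i.2)
  · rw [← map_sub, ← map_sub]
    exact hh.norm n _ b h2

end Pool.Agent.TWIV
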