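import Pool.Agent.Lib.TWIV.W2M
import Pool.Agent.Lib.TWIV.NSDG
import Pool.Agent.Lib.TWIV.RRo
import Pool.Agent.Lib.TWIV.HgA
import Pool.Agent.Lib.TWIV.SDeg

/-!
# TANK W, leaf (IV): FV(y; z) over a graded perfect base

* `GrE.hTor`: the torsion property in the form of `W1S`;
* `RadSt`: the statement of RAD for free letters;
* `fv2_of`: the record `FV2` for homogeneous `y`, `z`.
-/

set_option autoImplicit false
set_option linter.unusedSectionVars false

open Polynomial

namespace Pool.Agent.TWIV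

open Pool.Agent.H15JM (RVal)
open Pool.Agent.D2 (Ctx0)
open Pool.Agent.TWM Pool.Agent.TWC

universe u

variable {k H : Type u} [Field k] [Field H] [Algebra k H] {v : RVal H} (p : ℕ) [hp : Fact p.Prime]
  [CharP k p] [PerfectRing k p] [CharP H p] [PerfectRing H p]
  {A : Type*} [AddCommGroup A] {pr : A → H →ₗ[k] H} {E : IntermediateField k H}

/-- **The torsion property of the graded base**, for sequences. -/
theorem GrE.hTor (h : GrE p v pr E) (hk : Ctx0 k v) : HTor p v (AA pr) E := by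
  classical
  intro κ _ m _ hd l
  choose φ e hφ he hn using hd
  obtain ⟨N, b, hb, w, hw, h1⟩ := h.h1_lin p hk (x := m) hφ he (fun i => hn i)
    (ψ := fun j => if j = l then 1 else 0) (fun j => by
      split_ifs
      · exact AA_one
      · exact zero_mem _)
  refine ⟨N, b, hb, w, hw, h1.congr fun n => ?_⟩
  have h2 : ∑ i, (if i = l then (1 : Module.End k H) else 0) (m i n) = m l n := by
    rw [Finset.sum_eq_single l]
    · rw [if_pos rfl, Module.End.one_apply]
    · intro i _ hi
      rw [if_neg hi, LinearMap.zero_apply]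
    · intro h3
      exact absurd (Finset.mem_univ l) h3
  rw [h2]

/-- The statement of RAD for free letters. -/
def RadSt (k : Type u) {H : Type u} [Field k] [Field H] [Algebra k H] (p : ℕ) [Fact p.Prime]
    [CharP H p] (v : RVal H) (hk : Ctx0 k v) (E : IntermediateField k H) (y : H) : Prop :=
  ∀ (n : ℕ) (w : Fin n → H), (∀ i, Lim v E 0 (w i)) →
    (∀ P : Fin n → k[X], ∑ i, ev p (fun _ => (1 : H)) 0 0 (P i) (w i) ∈ EO k hk E →
      ∀ i, P i = 0) →
    (∃ e ∈ E, ∃ Q : Fin n → k[X], y = e + ∑ i, ev p (fun _ => (1 : H)) 0 0 (Q i) (w i)) →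
    ∀ r ∈ Algebra.adjoin E (Set.range w), Lim v (cadj v E y) 0 r →
      ∃ b ∈ cadj v E y, ∃ a, Lim v E 0 a ∧ v.Ge 0 (r - b - a)

/-- **FV(y; z)** over a graded perfect base: the record. -/
theorem fv2_of [IsAlgClosed k] [IsAlgClosed H] [hk : Fact (Ctx0 k v)] (h : GrE p v pr E)
    (hf : FinR p pr) {nu : H →ₗ[k] H} (hN : NegP p v pr E nu) {y z : H} {η ζ : A}
    (hy : pr η y = y) (hz : pr ζ z = z) (hny : nu y = y) (ty : TL v E y 0)
    (tz : TL v (cadj v E y) z 0) (res : ResR v (cadj v (cadj v E y) z))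
    (can : Can p v E (cadj v E y) z) (rad : RadSt k p v hk.out E y) :
    FV2 p v (AA pr) E y z (RR h.gr h.orth hf E y) where
  op := opA_of h.gr h.orth hk.out
  sy := stb_of h.gr h.mem (TL.ne_zero4 ty) hy
  sz := stb_of h.gr (gr_cadj h.gr h.mem ty hy) (TL.ne_zero4 tz) hz
  ty := ty
  tz := tz
  res := res
  can := can
  perf x hx := ⟨Rt p 1 x, h.perf x hx, by
    have h1 := Rt_pow p 1 x
    rwa [pow_one] at h1⟩
  tor := h.hTor p hk.out
  h1 := h.H1_of p hk.out
  hom := hg_approx h.gr h.mem (TL.ne_zero4 tz) hy hz ty tz.lim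
  rr := rrd h.gr h.orth hf h.perf h.mem hy
  rad r hr hl := by
    obtain ⟨n, w, h1, -, h3, h4, h5⟩ := letters h hk.out hN hf hy hny ty.lim hr
    exact rad n w h1 h3 h5 r h4 hl

end Pool.Agent.TWIV
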