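import Pool.Agent.Lib.TWIV.LangF
import Pool.Agent.Lib.TWIV.RADb
import Pool.Agent.Lib.TWIV.Fl2H
import Pool.Agent.Lib.TWM.Red

/-!
# TANK W: finitely generated modules over the skew polynomial ring, modulo `E + O`

`exists_fg`: `k` algebraically closed, `E` perfect: the module generated by finitely many elements
modulo `E + O` is the sum of a free one and of one with a basis of fixed vectors of the Frobenius map.
-/

set_option autoImplicit false
set_option linter.unusedSectionVars false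

open Polynomial

namespace Pool.Agent.TWIV

open Pool.Agent.H15JM (RVal)
open Pool.Agent.D2 (Ctx0)
open Pool.Agent.TWM Pool.Agent.TWC

universe u

variable {k Ω : Type u} [Field k] [Field Ω] [Algebra k Ω] {v : RVal Ω} {E : IntermediateField k Ω}
  (p : ℕ) [hp : Fact p.Prime] [CharP k p] [CharP Ω p] (hk : Ctx0 k v)

/-- The exact combinations of the `z i`. -/
def Sp {ι : Type*} [Fintype ι] (z : ι → Ω) (x : Ω) : Prop :=
  ∃ P : ι → k[X], x = ∑ i, op p (P i) (z i)

section Sp

variable {p} {ι : Type*} [Fintype ι] {z : ι → Ω} {x y : Ω}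

theorem Sp.zero : Sp (k := k) p z 0 := ⟨fun _ => 0, by simp only [op_zero, Finset.sum_const_zero]⟩

theorem Sp.add (hx : Sp (k := k) p z x) (hy : Sp (k := k) p z y) : Sp (k := k) p z (x + y) := by
  obtain ⟨P, rfl⟩ := hx
  obtain ⟨Q, rfl⟩ := hy
  exact ⟨fun i => P i + Q i, by simp only [op_add, Finset.sum_add_distrib]⟩

theorem Sp.neg (hx : Sp (k := k) p z x) : Sp (k := k) p z (-x) := by
  obtain ⟨P, rfl⟩ := hx
  exact ⟨fun i => -P i, by simp only [op_neg, Finset.sum_neg_distrib]⟩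

theorem Sp.sub (hx : Sp (k := k) p z x) (hy : Sp (k := k) p z y) : Sp (k := k) p z (x - y) := by
  rw [sub_eq_add_neg]
  exact hx.add hy.neg

theorem Sp.opr (v : RVal Ω) (f : k[X]) (hx : Sp (k := k) p z x) : Sp (k := k) p z (op p f x) := by
  obtain ⟨P, rfl⟩ := hx
  refine ⟨fun i => tw p f (P i), ?_⟩
  rw [op_sum_right]
  simp only [op_tw v]

theorem Sp.self (i : ι) : Sp (k := k) p z (z i) := by
  classical
  refine ⟨fun j => if j = i then 1 else 0, ?_⟩
  have h1 : ∀ j, op p (if j = i then (1 : k[X]) else 0) (z j) = if j = i then z j else 0 := by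
    intro j
    split_ifs
    · exact op_one _
    · exact op_zero _
  simp only [h1]
  rw [Finset.sum_ite_eq' Finset.univ i, if_pos (Finset.mem_univ i)]

theorem Sp.sum {α : Type*} (S : Finset α) (f : α → Ω) (h : ∀ a ∈ S, Sp (k := k) p z (f a)) :
    Sp (k := k) p z (∑ a ∈ S, f a) := by
  classical
  induction S using Finset.induction_on with
  | empty => rw [Finset.sum_empty]; exact Sp.zero
  | insert a S ha ih =>
    rw [Finset.sum_insert ha]
    exact (h a (Finset.mem_insert_self a S)).add (ih fun b hb => h b (Finset.mem_insert_of_mem hb))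

theorem Sp.smul (v : RVal Ω) (c : k) (hx : Sp (k := k) p z x) : Sp (k := k) p z (c • x) := by
  have h1 := hx.opr v (C c * X ^ 0)
  rwa [op_mono, pow_zero, pow_one, ← Algebra.smul_def] at h1

theorem Sp.powp (v : RVal Ω) (hx : Sp (k := k) p z x) : Sp (k := k) p z (x ^ p) := by
  have h1 := hx.opr v (C (1 : k) * X ^ 1)
  rwa [op_mono, map_one, one_mul, pow_one] at h1

end Sp

/-! ### The quotient -/

/-- The Frobenius map of `Ω`. -/
noncomputable def frOm : Ω →ₛₗ[frobenius k p] Ω where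
  toFun x := x ^ p
  map_add' x y := add_pow_char x y p
  map_smul' a x := by
    rw [Algebra.smul_def, mul_pow, ← map_pow, ← Algebra.smul_def, frobenius_def]

theorem frOm_le : EO k hk E ≤ (EO k hk E).comap (frOm (k := k) (Ω := Ω) p) := by
  rintro x ⟨e, he, h1⟩
  refine ⟨e ^ p, pow_mem he p, ?_⟩
  change v.Ge 0 (x ^ p - e ^ p)
  rw [← sub_pow_char x e]
  have h2 := ge_pow h1 p
  rwa [mul_zero] at h2

/-- The Frobenius map of `Ω / (E + O)`. -/
noncomputable def frEO : (Ω ⧸ EO k hk E) →ₛₗ[frobenius k p] (Ω ⧸ EO k hk E) :=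
  Submodule.mapQ _ _ (frOm p) (frOm_le p hk)

theorem frEO_mk (x : Ω) :
    frEO p hk ((EO k hk E).mkQ x) = (EO k hk E).mkQ (x ^ p) := rfl

theorem frEO_smul (a : k) (x : Ω ⧸ EO k hk E) :
    (frEO p hk).toAddMonoidHom (a • x) = a ^ p • (frEO p hk).toAddMonoidHom x := by
  change frEO p hk (a • x) = a ^ p • frEO p hk x
  rw [map_smulₛₗ, frobenius_def]

theorem frEO_it (x : Ω) (j : ℕ) : ((frEO p hk).toAddMonoidHom)^[j] ((EO k hk E).mkQ x) =
    (EO k hk E).mkQ (x ^ p ^ j) := by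
  induction j with
  | zero => rw [Function.iterate_zero, id_eq, pow_zero, pow_one]
  | succ j ih =>
    rw [Function.iterate_succ_apply', ih, pow_succ, pow_mul]
    exact frEO_mk p hk _

theorem frEO_inj (hE : ∀ a ∈ E, ∃ b ∈ E, b ^ p = a) (x : Ω ⧸ EO k hk E)
    (hx : (frEO p hk).toAddMonoidHom x = 0) : x = 0 := by
  obtain ⟨x, rfl⟩ := (EO k hk E).mkQ_surjective x
  have h1 : (EO k hk E).mkQ (x ^ p) = 0 := hx
  rw [Submodule.mkQ_apply, Submodule.Quotient.mk_eq_zero] at h1 ⊢
  obtain ⟨e, he, h2⟩ := h1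
  obtain ⟨b, hb, rfl⟩ := hE e he
  refine ⟨b, hb, ?_⟩
  rw [← sub_pow_char x b] at h2
  intro h3
  have h4 := h2 (pow_ne_zero p h3)
  rw [v.map_pow h3] at h4
  have h5 : (0 : ℝ) < p := by exact_mod_cast hp.out.pos
  exact nonneg_of_mul_nonneg_right h4 h5

/-- Torsion. -/
def Trs (x : Ω) : Prop :=
  ∃ W : Submodule k (Ω ⧸ EO k hk E), FiniteDimensional k W ∧
    (∀ y ∈ W, (frEO p hk).toAddMonoidHom y ∈ W) ∧ (EO k hk E).mkQ x ∈ W

theorem mkQ_eo {x : Ω} : (EO k hk E).mkQ x = 0 ↔ Nr v E 0 x := by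
  rw [Submodule.mkQ_apply, Submodule.Quotient.mk_eq_zero]
  exact Iff.rfl

section Trs

variable {p hk} {x y : Ω}

theorem Trs.zero : Trs (E := E) p hk 0 :=
  ⟨⊥, inferInstance, fun y hy => by
    rw [Submodule.mem_bot] at hy ⊢
    rw [hy, map_zero], by rw [map_zero]; exact zero_mem _⟩

theorem Trs.add (hx : Trs (E := E) p hk x) (hy : Trs (E := E) p hk y) :
    Trs (E := E) p hk (x + y) := by
  obtain ⟨W, h1, h2, h3⟩ := hx
  obtain ⟨W', h1', h2', h3'⟩ := hy
  refine ⟨W ⊔ W', inferInstance, fun y hy => ?_, ?_⟩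
  · obtain ⟨a, ha, b, hb, rfl⟩ := Submodule.mem_sup.1 hy
    rw [map_add]
    exact add_mem (Submodule.mem_sup_left (h2 a ha)) (Submodule.mem_sup_right (h2' b hb))
  · rw [map_add]
    exact add_mem (Submodule.mem_sup_left h3) (Submodule.mem_sup_right h3')

theorem itEO_mem {W : Submodule k (Ω ⧸ EO k hk E)}
    (h : ∀ y ∈ W, (frEO p hk).toAddMonoidHom y ∈ W) {x : Ω} (hx : (EO k hk E).mkQ x ∈ W) (j : ℕ) :
    (EO k hk E).mkQ (x ^ p ^ j) ∈ W := by
  induction j with
  | zero => rwa [pow_zero, pow_one]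
  | succ j ih =>
    have h1 := h _ ih
    rw [pow_succ, pow_mul]
    exact h1

theorem Trs.opm (hx : Trs (E := E) p hk x) (c : k) (j : ℕ) :
    Trs (E := E) p hk (c • x ^ p ^ j) := by
  obtain ⟨W, h1, h2, h3⟩ := hx
  refine ⟨W, h1, h2, ?_⟩
  rw [map_smul]
  exact W.smul_mem c (itEO_mem h2 h3 j)

theorem mkQ_op (f : k[X]) (x : Ω) : (EO k hk E).mkQ (op p f x) =
    ∑ j ∈ Finset.range (f.natDegree + 1), f.coeff j • (EO k hk E).mkQ (x ^ p ^ j) := by
  have h1 : op p f x = ∑ j ∈ Finset.range (f.natDegree + 1), f.coeff j • x ^ p ^ j := by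
    conv_lhs => rw [f.as_sum_range_C_mul_X_pow]
    rw [op_sum]
    refine Finset.sum_congr rfl fun j _ => ?_
    rw [op_mono, Algebra.smul_def]
  rw [h1, map_sum]
  simp only [map_smul]

/-- The torsion is saturated. -/
theorem Trs.of_op {Q : k[X]} (hQ : Q ≠ 0) (hx : Trs (E := E) p hk (op p Q x)) :
    Trs (E := E) p hk x := by
  classical
  obtain ⟨W, h1, h2, h3⟩ := hx
  set d := Q.natDegree with hd
  set S : Submodule k (Ω ⧸ EO k hk E) := Submodule.span k
    (Set.range fun j : Fin d => (EO k hk E).mkQ (x ^ p ^ (j : ℕ))) with hS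
  have hfd : FiniteDimensional k S := FiniteDimensional.span_of_finite k (Set.finite_range _)
  have h4 : ∀ j, j < d → (EO k hk E).mkQ (x ^ p ^ j) ∈ W ⊔ S := fun j hj =>
    Submodule.mem_sup_right (Submodule.subset_span ⟨⟨j, hj⟩, rfl⟩)
  have h5 : (EO k hk E).mkQ (x ^ p ^ d) ∈ W ⊔ S := by
    have h6 := mkQ_op (hk := hk) (E := E) (p := p) Q x
    rw [← hd, Finset.sum_range_succ] at h6
    have h7 : Q.coeff d • (EO k hk E).mkQ (x ^ p ^ d) ∈ W ⊔ S := by
      have h8 : Q.coeff d • (EO k hk E).mkQ (x ^ p ^ d) = (EO k hk E).mkQ (op p Q x) -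
          ∑ j ∈ Finset.range d, Q.coeff j • (EO k hk E).mkQ (x ^ p ^ j) := by
        rw [h6, add_sub_cancel_left]
      rw [h8]
      exact sub_mem (Submodule.mem_sup_left h3) (sum_mem fun j hj =>
        Submodule.smul_mem _ _ (h4 j (Finset.mem_range.1 hj)))
    have h8 := (W ⊔ S).smul_mem (Q.coeff d)⁻¹ h7
    rwa [smul_smul, inv_mul_cancel₀ (by rw [hd]; exact leadingCoeff_ne_zero.2 hQ), one_smul] at h8
  have h6 : ∀ j, j ≤ d → (EO k hk E).mkQ (x ^ p ^ j) ∈ W ⊔ S := by
    intro j hj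
    rcases Nat.lt_or_eq_of_le hj with h7 | h7
    · exact h4 j h7
    · rw [h7]
      exact h5
  refine ⟨W ⊔ S, inferInstance, fun y hy => ?_, ?_⟩
  · obtain ⟨a, ha, b, hb, rfl⟩ := Submodule.mem_sup.1 hy
    rw [map_add]
    refine add_mem (Submodule.mem_sup_left (h2 a ha)) ?_
    clear hy
    rw [hS] at hb
    induction hb using Submodule.span_induction with
    | mem b hb =>
      obtain ⟨j, rfl⟩ := hb
      have h7 : (frEO p hk).toAddMonoidHom ((EO k hk E).mkQ (x ^ p ^ (j : ℕ))) =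
          (EO k hk E).mkQ (x ^ p ^ ((j : ℕ) + 1)) := by
        rw [pow_succ, pow_mul]
        exact frEO_mk p hk _
      rw [h7]
      exact h6 _ j.2
    | zero => rw [map_zero]; exact zero_mem _
    | add b c _ _ hb hc => rw [map_add]; exact add_mem hb hc
    | smul t b _ hb =>
      rw [frEO_smul]
      exact Submodule.smul_mem _ _ hb
  · have h7 := h6 0 (Nat.zero_le _)
    rwa [pow_zero, pow_one] at h7

end Trs

include hk in
/-- **The structure of the finitely generated modules.** -/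
theorem exists_fg [IsAlgClosed k] (hE : ∀ a ∈ E, ∃ b ∈ E, b ^ p = a) {ι : Type*} [Fintype ι]
    (z : ι → Ω) :
    ∃ (m r : ℕ) (s : Fin m → Ω) (u : Fin r → Ω), (∀ i, Sp (k := k) p z (s i)) ∧
      (∀ j, Sp (k := k) p z (u j)) ∧ (∀ j, Nr v E 0 (u j ^ p - u j)) ∧
      (∀ (c : Fin m → k[X]) (a : Fin r → k),
        Nr v E 0 (∑ i, op p (c i) (s i) + ∑ j, a j • u j) → (∀ i, c i = 0) ∧ ∀ j, a j = 0) ∧
      ∀ l, ∃ (Q : Fin m → k[X]) (a : Fin r → k),
        Nr v E 0 (z l - ∑ i, op p (Q i) (s i) - ∑ j, a j • u j) := by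
  classical
  -- the free part
  have hZ : GSub k p (⊥ : AddSubgroup ℝ) (fun _ => (1 : Ω))
      (fun _ x => Trs (E := E) p hk x ∧ Sp (k := k) p z x) :=
    ⟨fun _ => ⟨Trs.zero, Sp.zero⟩, fun _ a b ha hb => ⟨ha.1.add hb.1, ha.2.add hb.2⟩,
      fun c _ _ j w _ hw => by
        refine ⟨?_, ?_⟩
        · rw [mul_one, ← Algebra.smul_def]
          exact hw.1.opm c j
        · have h1 := hw.2.opr v (C c * X ^ j)
          rw [op_mono] at h1
          rwa [mul_one]⟩
  have hL : GSub k p (⊥ : AddSubgroup ℝ) (fun _ => (1 : Ω)) (fun _ x => Sp (k := k) p z x) :=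
    ⟨fun _ => Sp.zero, fun _ a b ha hb => ha.add hb, fun c _ _ j w _ hw => by
      have h1 := hw.opr v (C c * X ^ j)
      rw [op_mono] at h1
      rwa [mul_one]⟩
  obtain ⟨S, w, h1, h2, -, h4, h5⟩ := exists_reduced (v := v) (r := fun _ : ι => (0 : ℝ)) ms_one
    hZ hL (fun _ a ha => ha.2) z (fun i => Sp.self i)
  have hfree : FreeOn k p (⊥ : AddSubgroup ℝ) (fun _ => (1 : Ω))
      (fun _ x => Trs (E := E) p hk x ∧ Sp (k := k) p z x) (fun _ => (0 : ℝ)) w S := by
    rcases h5 with h5 | ⟨R, Q, hQ, ⟨i, hi, hQi⟩, hrel, -, hd⟩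
    · exact h5
    · exfalso
      have huniq : ∀ j ∈ S, j ≠ i → Q j = 0 := by
        intro j hj hji
        by_contra hQj
        rcases le_total (Q j).natDegree (Q i).natDegree with h6 | h6
        · refine hd i hi j hj (Ne.symm hji) hQi hQj h6 ?_
          rw [mul_zero, sub_zero]
          exact zero_mem _
        · refine hd j hj i hi hji hQj hQi h6 ?_
          rw [mul_zero, sub_zero]
          exact zero_mem _
      have hR : R = 0 := by
        have h6 : (Q i).coeff (Q i).natDegree ≠ 0 := leadingCoeff_ne_zero.2 hQi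
        have h7 := hQ i hi _ h6
        rw [mul_zero, sub_zero] at h7
        exact AddSubgroup.mem_bot.1 h7
      rw [hR, Finset.sum_eq_single i (fun j hj hji => by rw [huniq j hj hji, ev_zero])
        (fun h6 => absurd hi h6)] at hrel
      exact h4 i hi (InSpan.of_Z ⟨Trs.of_op hQi hrel.1, h1 i hi⟩)
  -- the torsion part
  choose Q hQ1 hQ2 using h2
  set τ : ι → Ω := fun l => z l - ∑ i ∈ S, op p (Q l i) (w i) with hτ
  have hτ1 : ∀ l, Trs (E := E) p hk (τ l) := fun l => (hQ2 l).1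
  have hτ2 : ∀ l, Sp (k := k) p z (τ l) := fun l => (hQ2 l).2
  choose W hW1 hW2 hW3 using hτ1
  set Wt : Submodule k (Ω ⧸ EO k hk E) := Submodule.span k
    (Set.range fun q : ι × ℕ => (EO k hk E).mkQ (τ q.1 ^ p ^ q.2)) with hWt
  have hWle : Wt ≤ ⨆ l, W l := by
    rw [hWt, Submodule.span_le]
    rintro _ ⟨⟨l, j⟩, rfl⟩
    exact Submodule.mem_iSup_of_mem l (itEO_mem (hW2 l) (hW3 l) j)
  have hWfd : FiniteDimensional k Wt := by
    have : ∀ l, FiniteDimensional k (W l) := hW1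
    exact Submodule.finiteDimensional_of_le hWle
  have hWst : ∀ y ∈ Wt, (frEO p hk).toAddMonoidHom y ∈ Wt := by
    intro y hy
    rw [hWt] at hy
    induction hy using Submodule.span_induction with
    | mem b hb =>
      obtain ⟨⟨l, j⟩, rfl⟩ := hb
      have h7 : (frEO p hk).toAddMonoidHom ((EO k hk E).mkQ (τ l ^ p ^ j)) =
          (EO k hk E).mkQ (τ l ^ p ^ (j + 1)) := by
        rw [pow_succ, pow_mul]
        exact frEO_mk p hk _
      rw [h7]
      exact Submodule.subset_span ⟨(l, j + 1), rfl⟩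
    | zero => rw [map_zero]; exact zero_mem _
    | add b c _ _ hb hc => rw [map_add]; exact add_mem hb hc
    | smul t b _ hb =>
      rw [frEO_smul]
      exact Submodule.smul_mem _ _ hb
  obtain ⟨r, u', hu1, hu2, hu3⟩ := lang_basis p (frEO_smul p hk) hWst
    (fun x _ hx => frEO_inj p hk hE x hx)
  have hlift : ∀ y ∈ Wt, ∃ x, Sp (k := k) p z x ∧ (EO k hk E).mkQ x = y := by
    intro y hy
    rw [hWt] at hy
    induction hy using Submodule.span_induction with
    | mem b hb =>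
      obtain ⟨⟨l, j⟩, rfl⟩ := hb
      refine ⟨_, ?_, rfl⟩
      have h6 := (hτ2 l).opr v (C (1 : k) * X ^ j)
      rwa [op_mono, map_one, one_mul] at h6
    | zero => exact ⟨0, Sp.zero, map_zero _⟩
    | add b c _ _ hb hc =>
      obtain ⟨x, hx, rfl⟩ := hb
      obtain ⟨y, hy, rfl⟩ := hc
      exact ⟨x + y, hx.add hy, map_add _ _ _⟩
    | smul t b _ hb =>
      obtain ⟨x, hx, rfl⟩ := hb
      exact ⟨t • x, hx.smul v t, map_smul _ _ _⟩
  choose u hu4 hu5 using fun j => hlift (u' j) (hu1 j).1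
  -- the index set
  set f : Fin S.card ≃ S := S.equivFin.symm with hf
  have hsum : ∀ g : ι → Ω, ∑ i ∈ S, g i = ∑ i, g (f i) := by
    intro g
    rw [← Finset.sum_coe_sort S g]
    exact (Equiv.sum_comp f fun i : S => g i).symm
  refine ⟨S.card, r, fun i => w (f i), u, fun i => h1 _ (f i).2, hu4, fun j => ?_, ?_, ?_⟩
  · rw [← mkQ_eo (k := k) hk, map_sub, hu5, ← frEO_mk, hu5]
    exact sub_eq_zero.2 (hu1 j).2
  · intro c a h6
    have h7 : (EO k hk E).mkQ (∑ i, op p (c i) (w (f i))) = -∑ j, a j • u' j := by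
      rw [← mkQ_eo (k := k) hk, map_add, map_sum (EO k hk E).mkQ (fun j => a j • u j)] at h6
      simp only [map_smul, hu5] at h6
      exact eq_neg_of_add_eq_zero_left h6
    set P' : ι → k[X] := fun i => if h : i ∈ S then c (f.symm ⟨i, h⟩) else 0 with hP'
    have h8 : ∀ i : Fin S.card, P' (f i) = c i := by
      intro i
      rw [hP']
      simp only
      rw [dif_pos (f i).2]
      simp
    have h9 : ∑ i ∈ S, op p (P' i) (w i) = ∑ i, op p (c i) (w (f i)) := by
      rw [hsum fun i => op p (P' i) (w i)]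
      simp only [h8]
    have h10 : Trs (E := E) p hk (∑ i ∈ S, op p (P' i) (w i)) := by
      refine ⟨Wt, hWfd, hWst, ?_⟩
      rw [h9, h7]
      exact neg_mem (sum_mem fun j _ => Wt.smul_mem _ (hu1 j).1)
    have h11 := hfree 0 P' (fun i _ => isOp_bot _) ⟨h10, Sp.sum _ _ fun i hi => (h1 i hi).opr v _⟩
    have h12 : ∀ i, c i = 0 := fun i => by
      rw [← h8 i]
      exact h11 _ (f i).2
    refine ⟨h12, ?_⟩
    have h13 : ∑ j, a j • u' j = 0 := by
      rw [← neg_eq_zero, ← h7]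
      simp only [h12, op_zero, Finset.sum_const_zero, map_zero]
    exact Fintype.linearIndependent_iff.1 hu2 a h13
  · intro l
    have h6 : (EO k hk E).mkQ (τ l) ∈ Submodule.span k (Set.range u') := by
      rw [hu3]
      refine Submodule.subset_span ⟨(l, 0), ?_⟩
      simp only [pow_zero, pow_one]
    obtain ⟨a, ha⟩ := (Submodule.mem_span_range_iff_exists_fun k).1 h6
    refine ⟨fun i => Q l (f i), a, ?_⟩
    rw [← mkQ_eo (k := k) hk, map_sub, map_sum (EO k hk E).mkQ (fun j => a j • u j)]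
    simp only [map_smul, hu5]
    have h7 : τ l = z l - ∑ i, op p (Q l (f i)) (w (f i)) := by
      rw [hτ]
      simp only
      rw [hsum fun i => op p (Q l i) (w i)]
    rw [ha, ← h7, sub_self]

end Pool.Agent.TWIV
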