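import Pool.Agent.Lib.TWIV.Mix

/-!
# TANK W, leaf (IV): finite shape (sec. 4 (d), (e) of b525bf_TAME_h11.md), abstract form

* `Tl`: the identities (T_l), `p ∤ l`;
* `Tl.fin`: finite shape: `z_J ∈ O` for `J` large;
* `Cl`: closed sets `RR + O`; `Tl.mem`, `Tl.mem_zero`: `z_j ∈ RR + O` for `j ≥ 1` and
  `∑ q_i F ^ i z_0 ∈ RR + O`.
-/

set_option autoImplicit false
set_option linter.unusedSectionVars false

open Polynomial Finset

namespace Pool.Agent.TWIV

open Pool.Agent.H15JM (RVal)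
open Pool.Agent.TWC (Nul)
open Pool.Agent.TWM (Gt)

universe u

variable {k H : Type u} [Field k] [Field H] [Algebra k H] {v : RVal H} (p : ℕ) [hp : Fact p.Prime]
  [CharP H p] [PerfectRing H p] {A : Type*} [AddCommGroup A] {pr : A → H →ₗ[k] H}

/-- the left side of (T_l), the sum over `m` cut at `M` -/
noncomputable def Tls (pr : A → H →ₗ[k] H) (α : A) (N : ℕ) (q : ℕ → k) (o : k) (z t : ℕ → H)
    (l M : ℕ) : H :=
  ∑ i ∈ Icc 1 N, (if p ^ i ∣ l - 1 then algebraMap k H (q i) * z ((l - 1) / p ^ i) ^ p ^ i else 0) +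
    ∑ m ∈ range M, pr (-(l • α)) (Rt p m (algebraMap k H o * z (p ^ m * l))) + t l

/-- the identities (T_l) -/
structure Tl (v : RVal H) (pr : A → H →ₗ[k] H) (α : A) (N : ℕ) (q : ℕ → k) (o : k)
    (z t : ℕ → H) : Prop where
  rel : ∀ l, ¬ p ∣ l → Nul v fun M => Tls p pr α N q o z t l M
  top : q N ≠ 0
  pos : 1 ≤ N
  /-- the gaps of `z_J` tend to `0` -/
  lim : ∀ ε : ℝ, 0 < ε → ∃ J₀, ∀ J, J₀ ≤ J → v.Ge (-ε) (z J)
  /-- `t_l` is in `O` for `l` large -/
  bdd : ∃ l₀, ∀ l, l₀ ≤ l → v.Ge 0 (t l)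

/-- A set `RR + O`. -/
structure Cl (k : Type u) {H : Type u} [Field k] [Field H] [Algebra k H] (v : RVal H) (p : ℕ)
    [Fact p.Prime] [CharP H p] [PerfectRing H p] {A : Type*} (pr : A → H →ₗ[k] H)
    (Q : H → Prop) : Prop where
  int : ∀ x, v.Ge 0 x → Q x
  add : ∀ x y, Q x → Q y → Q (x + y)
  smul : ∀ (c : k) x, Q x → Q (algebraMap k H c * x)
  frob : ∀ x, Q x → Q (x ^ p)
  root : ∀ x, Q x → Q (Rt p 1 x)
  pr : ∀ c x, Q x → Q (pr c x)

namespace Cl

variable {p} {Q : H → Prop} (h : Cl k v p pr Q)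

include h

theorem zero : Q 0 := h.int 0 RVal.Ge.zero

theorem neg {x : H} (hx : Q x) : Q (-x) := by
  have h1 := h.smul (-1) x hx
  rwa [map_neg, map_one, neg_one_mul] at h1

theorem sub {x y : H} (hx : Q x) (hy : Q y) : Q (x - y) := by
  rw [sub_eq_add_neg]
  exact h.add _ _ hx (h.neg hy)

theorem sum {ι : Type*} (s : Finset ι) (f : ι → H) (hf : ∀ i ∈ s, Q (f i)) :
    Q (∑ i ∈ s, f i) := by
  classical
  induction s using Finset.induction_on with
  | empty => rw [sum_empty]; exact h.zero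
  | insert a s ha ih =>
    rw [sum_insert ha]
    exact h.add _ _ (hf a (mem_insert_self a s)) (ih fun i hi => hf i (mem_insert_of_mem hi))

theorem frobN {x : H} (hx : Q x) (n : ℕ) : Q (x ^ p ^ n) := by
  induction n with
  | zero => rwa [pow_zero, pow_one]
  | succ n ih =>
    rw [pow_succ p n, pow_mul]
    exact h.frob _ ih

theorem rootN {x : H} (hx : Q x) (n : ℕ) : Q (Rt p n x) := by
  induction n with
  | zero => rwa [Rt_idx_zero]
  | succ n ih =>
    rw [add_comm n 1, ← Rt_Rt]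
    exact h.root _ ih

end Cl

namespace Tl

variable {p} {α : A} {N : ℕ} {q : ℕ → k} {o : k} {z t : ℕ → H}

/-- a record -/
theorem exists_record (h : Tl p v pr α N q o z t) (hinf : ∀ J₀, ∃ J, J₀ ≤ J ∧ ¬ v.Ge 0 (z J))
    (L : ℕ) : ∃ (j : ℕ) (g : ℝ), L ≤ j ∧ 0 < g ∧ z j ≠ 0 ∧ v (z j) = -g ∧
      ∀ K, L ≤ K → v.Ge (-g) (z K) := by
  obtain ⟨J₁, hJ₁, hz₁⟩ := hinf L
  have h0 : z J₁ ≠ 0 := fun h1 => hz₁ (by rw [h1]; exact RVal.Ge.zero)
  have hg₁ : v (z J₁) < 0 := by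
    by_contra h1
    exact hz₁ fun _ => not_lt.1 h1
  obtain ⟨J₀, hJ₀⟩ := h.lim (-v (z J₁) / 2) (by linarith)
  -- the finite set of the candidates
  classical
  set S : Finset ℕ := (Ico L (max J₀ (J₁ + 1))).filter fun K => z K ≠ 0 with hS
  have hJS : J₁ ∈ S := by
    rw [hS, mem_filter, mem_Ico]
    exact ⟨⟨hJ₁, lt_of_lt_of_le (Nat.lt_succ_self _) (le_max_right _ _)⟩, h0⟩
  obtain ⟨j, hj, hmin⟩ := S.exists_min_image (fun K => v (z K)) ⟨J₁, hJS⟩
  have h1 := hmin J₁ hJS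
  have h2 := hj
  rw [hS, mem_filter, mem_Ico] at h2
  refine ⟨j, -v (z j), h2.1.1, by linarith, h2.2, by ring, fun K hK hK0 => ?_⟩
  rw [neg_neg]
  rcases lt_or_ge K (max J₀ (J₁ + 1)) with h3 | h3
  · exact hmin K (by rw [hS, mem_filter, mem_Ico]; exact ⟨⟨hK, h3⟩, hK0⟩)
  · have h4 := hJ₀ K ((le_max_left _ _).trans h3) hK0
    linarith

/-- **Finite shape.** -/
theorem fin (hpr : GrP p v pr) (hk : ∀ c : k, v.Ge 0 (algebraMap k H c))
    (h : Tl p v pr α N q o z t) : ∃ J₀, ∀ J, J₀ ≤ J → v.Ge 0 (z J) := by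
  by_contra hcon
  push Not at hcon
  have hp1 : 1 < p := hp.out.one_lt
  have hp1' : (1 : ℝ) ≤ p := by exact_mod_cast hp1.le
  obtain ⟨l₀, hl₀⟩ := h.bdd
  obtain ⟨j, g, hj, hg, hj0, hvj, hK⟩ := h.exists_record hcon l₀
  obtain ⟨w, hw⟩ := Nat.exists_eq_add_of_le h.pos
  have hl : ¬ p ∣ 1 + p ^ N * j := by
    intro h1
    have h2 : p ∣ p ^ N * j := (dvd_pow_self p (by have := h.pos; omega)).trans (dvd_mul_right _ _)
    have h3 := (Nat.dvd_add_left h2).1 h1
    rw [Nat.dvd_one] at h3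
    omega
  have hpos : ∀ i, 0 < p ^ i := fun i => pow_pos hp.out.pos i
  have hgw : 0 < (p : ℝ) ^ w * g := by positivity
  obtain ⟨M₀, hM₀⟩ := h.rel _ hl ((p : ℝ) ^ w * g) hgw
  have h1 : v.Ge (-((p : ℝ) ^ w * g)) (Tls p pr α N q o z t (1 + p ^ N * j) M₀) := hM₀ M₀ le_rfl
  -- the lower terms
  have h2 : v.Ge (-((p : ℝ) ^ w * g)) (∑ i ∈ Ico 1 N,
      (if p ^ i ∣ 1 + p ^ N * j - 1 then
        algebraMap k H (q i) * z ((1 + p ^ N * j - 1) / p ^ i) ^ p ^ i else 0)) := by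
    refine RVal.Ge.sum _ _ fun i hi => ?_
    have hi' := mem_Ico.1 hi
    split_ifs with h3
    · have e : (1 + p ^ N * j - 1) / p ^ i = p ^ (N - i) * j := by
        rw [Nat.add_sub_cancel_left]
        have e2 : p ^ N = p ^ i * p ^ (N - i) := by rw [← pow_add]; congr 1; omega
        rw [e2, mul_assoc, Nat.mul_div_cancel_left _ (hpos i)]
      rw [e]
      have h4 : l₀ ≤ p ^ (N - i) * j := hj.trans (Nat.le_mul_of_pos_left _ (hpos _))
      have h5 := (hk (q i)).mul (ge_pow' p (n := i) (hK _ h4))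
      rw [zero_add] at h5
      refine h5.mono ?_
      rw [mul_neg, neg_le_neg_iff]
      exact mul_le_mul_of_nonneg_right (pow_le_pow_right₀ hp1' (by omega)) hg.le
    · exact RVal.Ge.zero
  have h3 : v.Ge (-((p : ℝ) ^ w * g)) (∑ m ∈ range M₀, pr (-((1 + p ^ N * j) • α))
      (Rt p m (algebraMap k H o * z (p ^ m * (1 + p ^ N * j))))) := by
    refine RVal.Ge.sum _ _ fun m _ => hpr.ge _ _ _ ?_
    have h4 : l₀ ≤ p ^ m * (1 + p ^ N * j) := by
      refine le_trans ?_ (Nat.le_mul_of_pos_left _ (hpos m))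
      have h5 : j ≤ p ^ N * j := Nat.le_mul_of_pos_left _ (hpos N)
      omega
    have h5 := (hk o).mul (hK _ h4)
    rw [zero_add] at h5
    refine (ge_Rt p (n := m) h5).mono ?_
    rw [neg_div, neg_le_neg_iff]
    refine (div_le_self hg.le (one_le_pow₀ hp1')).trans ?_
    exact le_mul_of_one_le_left hg.le (one_le_pow₀ hp1')
  have h4 : v.Ge (-((p : ℝ) ^ w * g)) (t (1 + p ^ N * j)) := by
    refine (hl₀ _ ?_).mono (by linarith)
    have h5 : j ≤ p ^ N * j := Nat.le_mul_of_pos_left _ (hpos N)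
    omega
  have h5 : Tls p pr α N q o z t (1 + p ^ N * j) M₀ =
      (∑ i ∈ Ico 1 N, (if p ^ i ∣ 1 + p ^ N * j - 1 then
        algebraMap k H (q i) * z ((1 + p ^ N * j - 1) / p ^ i) ^ p ^ i else 0)) +
      algebraMap k H (q N) * z j ^ p ^ N +
      ∑ m ∈ range M₀, pr (-((1 + p ^ N * j) • α))
        (Rt p m (algebraMap k H o * z (p ^ m * (1 + p ^ N * j)))) + t (1 + p ^ N * j) := by
    rw [Tls]
    have e1 : Icc 1 N = insert N (Ico 1 N) := by
      ext i
      rw [mem_Icc, mem_insert, mem_Ico]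
      have := h.pos
      omega
    rw [e1, sum_insert (by rw [mem_Ico]; omega), if_pos (by
      rw [Nat.add_sub_cancel_left]; exact dvd_mul_right _ _), Nat.add_sub_cancel_left,
      Nat.mul_div_cancel_left _ (hpos N)]
    ring
  have h6 : v.Ge (-((p : ℝ) ^ w * g)) (algebraMap k H (q N) * z j ^ p ^ N) := by
    have h7 := ((h1.sub h2).sub h3).sub h4
    rw [h5] at h7
    have e : (∑ i ∈ Ico 1 N, (if p ^ i ∣ 1 + p ^ N * j - 1 then
        algebraMap k H (q i) * z ((1 + p ^ N * j - 1) / p ^ i) ^ p ^ i else 0)) +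
      algebraMap k H (q N) * z j ^ p ^ N +
      ∑ m ∈ range M₀, pr (-((1 + p ^ N * j) • α))
        (Rt p m (algebraMap k H o * z (p ^ m * (1 + p ^ N * j)))) + t (1 + p ^ N * j) -
      (∑ i ∈ Ico 1 N, (if p ^ i ∣ 1 + p ^ N * j - 1 then
        algebraMap k H (q i) * z ((1 + p ^ N * j - 1) / p ^ i) ^ p ^ i else 0)) -
      ∑ m ∈ range M₀, pr (-((1 + p ^ N * j) • α))
        (Rt p m (algebraMap k H o * z (p ^ m * (1 + p ^ N * j)))) - t (1 + p ^ N * j) =
        algebraMap k H (q N) * z j ^ p ^ N := by ring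
    rwa [e] at h7
  have h7 := (hk (q N)⁻¹).mul h6
  rw [zero_add, ← mul_assoc, ← map_mul, inv_mul_cancel₀ h.top, map_one, one_mul] at h7
  have h8 := h7 (pow_ne_zero _ hj0)
  rw [v.map_pow hj0, hvj] at h8
  push_cast at h8
  have h9 : (p : ℝ) ^ N = p * (p : ℝ) ^ w := by rw [hw, add_comm, pow_succ]; ring
  rw [h9] at h8
  have h10 : (1 : ℝ) < p := by exact_mod_cast hp1
  nlinarith

/-- (T_l) modulo `O`: `p ∤ l` -/
theorem rel_mod (hpr : GrP p v pr) (hk : ∀ c : k, v.Ge 0 (algebraMap k H c))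
    (h : Tl p v pr α N q o z t) {l : ℕ} (hl : ¬ p ∣ l) : ∃ M, v.Ge 0 (Tls p pr α N q o z t l M) := by
  have hp1 : 1 < p := hp.out.one_lt
  obtain ⟨J₀, hJ₀⟩ := h.fin hpr hk
  have hl0 : 1 ≤ l := Nat.one_le_iff_ne_zero.2 fun h => hl (by rw [h]; exact dvd_zero p)
  refine ⟨J₀, Nul.const (v := v) ?_⟩
  have h1 : Nul v fun M => Tls p pr α N q o z t l (M + J₀) := by
    intro ε hε
    obtain ⟨M₀, hM₀⟩ := h.rel l hl ε hε
    exact ⟨M₀, fun M hM => hM₀ _ (by omega)⟩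
  have h2 : Nul v fun M => ∑ m ∈ range M, pr (-(l • α))
      (Rt p (J₀ + m) (algebraMap k H o * z (p ^ (J₀ + m) * l))) := by
    refine Nul.of_ge fun M => RVal.Ge.sum _ _ fun m _ => hpr.ge _ _ _ ?_
    have h3 : J₀ ≤ p ^ (J₀ + m) * l := by
      have h4 : J₀ + m < p ^ (J₀ + m) := Nat.lt_pow_self hp1
      have h5 : p ^ (J₀ + m) ≤ p ^ (J₀ + m) * l := Nat.le_mul_of_pos_right _ hl0
      omega
    have h4 := (hk o).mul (hJ₀ _ h3)
    rw [zero_add] at h4
    have h5 := ge_Rt p (n := J₀ + m) h4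
    rwa [zero_div] at h5
  refine (h1.sub h2).congr fun M => ?_
  rw [Tls, Tls, add_comm M J₀, sum_range_add]
  ring

variable {Q : H → Prop}

/-- **The letters.** `z_j ∈ RR + O` for `j ≥ 1`. -/
theorem mem (hpr : GrP p v pr) (hk : ∀ c : k, v.Ge 0 (algebraMap k H c)) (hQ : Cl k v p pr Q)
    (h : Tl p v pr α N q o z t) (ht : ∀ l, Q (t l)) {j : ℕ} (hj : 1 ≤ j) : Q (z j) := by
  have hp1 : 1 < p := hp.out.one_lt
  have hpos : ∀ i, 0 < p ^ i := fun i => pow_pos hp.out.pos i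
  obtain ⟨J₀, hJ₀⟩ := h.fin hpr hk
  suffices H : ∀ d j, 1 ≤ j → J₀ ≤ j + d → Q (z j) from H J₀ j hj (Nat.le_add_left _ _)
  intro d
  induction d using Nat.strong_induction_on with
  | _ d ih =>
    intro j hj hjd
    by_cases hjJ : J₀ ≤ j
    · exact hQ.int _ (hJ₀ j hjJ)
    have ih' : ∀ i, j < i → Q (z i) := by
      intro i hi
      refine ih (d - 1) (by omega) i (by omega) (by omega)
    have hl : ¬ p ∣ 1 + p ^ N * j := by
      intro h1
      have h2 : p ∣ p ^ N * j :=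
        (dvd_pow_self p (by have := h.pos; omega)).trans (dvd_mul_right _ _)
      have h3 := (Nat.dvd_add_left h2).1 h1
      rw [Nat.dvd_one] at h3
      omega
    have hjl : j ≤ p ^ N * j := Nat.le_mul_of_pos_left _ (hpos N)
    obtain ⟨M, hM⟩ := h.rel_mod hpr hk hl
    have h2 : Q (∑ i ∈ Ico 1 N, (if p ^ i ∣ 1 + p ^ N * j - 1 then
        algebraMap k H (q i) * z ((1 + p ^ N * j - 1) / p ^ i) ^ p ^ i else 0)) := by
      refine hQ.sum _ _ fun i hi => ?_
      have hi' := mem_Ico.1 hi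
      split_ifs with h3
      · have e : (1 + p ^ N * j - 1) / p ^ i = p ^ (N - i) * j := by
          rw [Nat.add_sub_cancel_left]
          have e2 : p ^ N = p ^ i * p ^ (N - i) := by rw [← pow_add]; congr 1; omega
          rw [e2, mul_assoc, Nat.mul_div_cancel_left _ (hpos i)]
        rw [e]
        refine hQ.smul _ _ (hQ.frobN (ih' _ ?_) i)
        have h4 : p ^ (N - i) = p * p ^ (N - i - 1) := by
          rw [← pow_succ']; congr 1; omega
        rw [h4, mul_assoc]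
        have h5 : j ≤ p ^ (N - i - 1) * j := Nat.le_mul_of_pos_left _ (hpos _)
        have h6 : 2 * (p ^ (N - i - 1) * j) ≤ p * (p ^ (N - i - 1) * j) :=
          Nat.mul_le_mul_right _ hp1
        omega
      · exact hQ.zero
    have h3 : Q (∑ m ∈ range M, pr (-((1 + p ^ N * j) • α))
        (Rt p m (algebraMap k H o * z (p ^ m * (1 + p ^ N * j))))) := by
      refine hQ.sum _ _ fun m _ => hQ.pr _ _ (hQ.rootN (hQ.smul _ _ (ih' _ ?_)) m)
      have h4 : 1 + p ^ N * j ≤ p ^ m * (1 + p ^ N * j) := Nat.le_mul_of_pos_left _ (hpos m)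
      omega
    have h5 : Tls p pr α N q o z t (1 + p ^ N * j) M =
        (∑ i ∈ Ico 1 N, (if p ^ i ∣ 1 + p ^ N * j - 1 then
          algebraMap k H (q i) * z ((1 + p ^ N * j - 1) / p ^ i) ^ p ^ i else 0)) +
        algebraMap k H (q N) * z j ^ p ^ N +
        ∑ m ∈ range M, pr (-((1 + p ^ N * j) • α))
          (Rt p m (algebraMap k H o * z (p ^ m * (1 + p ^ N * j)))) + t (1 + p ^ N * j) := by
      rw [Tls]
      have e1 : Icc 1 N = insert N (Ico 1 N) := by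
        ext i
        rw [mem_Icc, mem_insert, mem_Ico]
        have := h.pos
        omega
      rw [e1, sum_insert (by rw [mem_Ico]; omega), if_pos (by
        rw [Nat.add_sub_cancel_left]; exact dvd_mul_right _ _), Nat.add_sub_cancel_left,
        Nat.mul_div_cancel_left _ (hpos N)]
      ring
    have h6 : Q (algebraMap k H (q N) * z j ^ p ^ N) := by
      have h7 := hQ.sub (hQ.sub (hQ.sub (hQ.int _ hM) h2) h3) (ht (1 + p ^ N * j))
      rw [h5] at h7
      have e : (∑ i ∈ Ico 1 N, (if p ^ i ∣ 1 + p ^ N * j - 1 then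
          algebraMap k H (q i) * z ((1 + p ^ N * j - 1) / p ^ i) ^ p ^ i else 0)) +
        algebraMap k H (q N) * z j ^ p ^ N +
        ∑ m ∈ range M, pr (-((1 + p ^ N * j) • α))
          (Rt p m (algebraMap k H o * z (p ^ m * (1 + p ^ N * j)))) + t (1 + p ^ N * j) -
        (∑ i ∈ Ico 1 N, (if p ^ i ∣ 1 + p ^ N * j - 1 then
          algebraMap k H (q i) * z ((1 + p ^ N * j - 1) / p ^ i) ^ p ^ i else 0)) -
        ∑ m ∈ range M, pr (-((1 + p ^ N * j) • α))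
          (Rt p m (algebraMap k H o * z (p ^ m * (1 + p ^ N * j)))) - t (1 + p ^ N * j) =
          algebraMap k H (q N) * z j ^ p ^ N := by ring
      rwa [e] at h7
    have h7 := hQ.smul (q N)⁻¹ _ h6
    rw [← mul_assoc, ← map_mul, inv_mul_cancel₀ h.top, map_one, one_mul] at h7
    have h8 := hQ.rootN h7 N
    rwa [Rt_of_pow] at h8

/-- **`P(F) z ∈ RR + O`.** -/
theorem mem_zero (hpr : GrP p v pr) (hk : ∀ c : k, v.Ge 0 (algebraMap k H c)) (hQ : Cl k v p pr Q)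
    (h : Tl p v pr α N q o z t) (ht : ∀ l, Q (t l)) :
    Q (∑ i ∈ Icc 1 N, algebraMap k H (q i) * z 0 ^ p ^ i) := by
  have hp1 : 1 < p := hp.out.one_lt
  have hpos : ∀ i, 0 < p ^ i := fun i => pow_pos hp.out.pos i
  obtain ⟨M, hM⟩ := h.rel_mod hpr hk (l := 1) (by rw [Nat.dvd_one]; omega)
  have h3 : Q (∑ m ∈ range M, pr (-((1 : ℕ) • α)) (Rt p m (algebraMap k H o * z (p ^ m * 1)))) :=
    hQ.sum _ _ fun m _ => hQ.pr _ _ (hQ.rootN (hQ.smul _ _ (h.mem hpr hk hQ ht (by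
      rw [mul_one]; exact hpos m))) m)
  have h5 : Tls p pr α N q o z t 1 M = ∑ i ∈ Icc 1 N, algebraMap k H (q i) * z 0 ^ p ^ i +
      ∑ m ∈ range M, pr (-((1 : ℕ) • α)) (Rt p m (algebraMap k H o * z (p ^ m * 1))) + t 1 := by
    rw [Tls]
    congr 2
    refine sum_congr rfl fun i _ => ?_
    rw [Nat.sub_self, if_pos (dvd_zero _), Nat.zero_div]
  have h7 := hQ.sub (hQ.sub (hQ.int _ hM) h3) (ht 1)
  rw [h5] at h7
  have e : ∑ i ∈ Icc 1 N, algebraMap k H (q i) * z 0 ^ p ^ i +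
      ∑ m ∈ range M, pr (-((1 : ℕ) • α)) (Rt p m (algebraMap k H o * z (p ^ m * 1))) + t 1 -
      ∑ m ∈ range M, pr (-((1 : ℕ) • α)) (Rt p m (algebraMap k H o * z (p ^ m * 1))) - t 1 =
      ∑ i ∈ Icc 1 N, algebraMap k H (q i) * z 0 ^ p ^ i := by ring
  rwa [e] at h7

end Tl

end Pool.Agent.TWIV
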