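import Mathlib

/-!
# TANK W, leaf (IV): finite shape, module form (sec. 4 (d), (e) of b525bf_TAME_h11.md)

* `Gap gap`: an ultrametric function `gap : V → ℝ`, `gap ≥ 0`;
* `TlV`: the identities (T_l), `p ∤ l`, with additive maps `Φ i` in the place of `q_i F ^ i` and
  `Λ l m` in the place of the `m`-th power of the Cartier operator;
* `TlV.fin`: finite shape: `gap z_J = 0` for `J` large;
* `TlV.mem`, `TlV.mem_zero`: `z_j ∈ Q` for `j ≥ 1` and `∑ Φ i z_0 ∈ Q`, for a subgroup `Q` which is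
  stable under the operators.
-/

set_option autoImplicit false

open Finset

namespace Pool.Agent.TWIV

/-- an ultrametric function -/
structure Gap {V : Type*} [AddCommGroup V] (gap : V → ℝ) : Prop where
  nonneg : ∀ x, 0 ≤ gap x
  zero : gap 0 = 0
  add : ∀ x y, gap (x + y) ≤ max (gap x) (gap y)
  neg : ∀ x, gap (-x) = gap x

namespace Gap

variable {V : Type*} [AddCommGroup V] {gap : V → ℝ} (h : Gap gap)

include h

theorem sub (x y : V) : gap (x - y) ≤ max (gap x) (gap y) := by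
  rw [sub_eq_add_neg, ← h.neg y]
  exact h.add _ _

theorem add_le {x y : V} {g : ℝ} (hx : gap x ≤ g) (hy : gap y ≤ g) : gap (x + y) ≤ g :=
  (h.add x y).trans (max_le hx hy)

theorem sub_le {x y : V} {g : ℝ} (hx : gap x ≤ g) (hy : gap y ≤ g) : gap (x - y) ≤ g :=
  (h.sub x y).trans (max_le hx hy)

theorem sum_le {ι : Type*} {g : ℝ} (hg : 0 ≤ g) (s : Finset ι) (f : ι → V)
    (hf : ∀ i ∈ s, gap (f i) ≤ g) : gap (∑ i ∈ s, f i) ≤ g := by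
  classical
  induction s using Finset.induction_on with
  | empty => rw [sum_empty, h.zero]; exact hg
  | insert a s ha ih =>
    rw [sum_insert ha]
    exact h.add_le (hf a (mem_insert_self a s)) (ih fun i hi => hf i (mem_insert_of_mem hi))

end Gap

/-- the left side of (T_l), the sum over `m` cut at `M` -/
def TlsV {V : Type*} [AddCommGroup V] (p N : ℕ) (Φ : ℕ → V →+ V) (Λ : ℕ → ℕ → V →+ V)
    (z t : ℕ → V) (l M : ℕ) : V :=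
  ∑ i ∈ Icc 1 N, (if p ^ i ∣ l - 1 then Φ i (z ((l - 1) / p ^ i)) else 0) +
    ∑ m ∈ range M, Λ l m (z (p ^ m * l)) + t l

/-- the identities (T_l) -/
structure TlV {V : Type*} [AddCommGroup V] (p : ℕ) (gap : V → ℝ) (N : ℕ) (Φ : ℕ → V →+ V)
    (Λ : ℕ → ℕ → V →+ V) (z t : ℕ → V) : Prop where
  gp : Gap gap
  pos : 1 ≤ N
  top : ∀ x, gap (Φ N x) = p ^ N * gap x
  low : ∀ i, 1 ≤ i → i < N → ∀ x, gap (Φ i x) ≤ p ^ i * gap x
  car : ∀ l m x, gap (Λ l m x) ≤ gap x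
  rel : ∀ l, ¬ p ∣ l → ∀ ε : ℝ, 0 < ε → ∃ M₀, ∀ M, M₀ ≤ M → gap (TlsV p N Φ Λ z t l M) ≤ ε
  /-- the gaps of `z_J` tend to `0` -/
  lim : ∀ ε : ℝ, 0 < ε → ∃ J₀, ∀ J, J₀ ≤ J → gap (z J) ≤ ε
  /-- `t_l` is small for `l` large -/
  bdd : ∃ l₀, ∀ l, l₀ ≤ l → gap (t l) = 0

namespace TlV

variable {V : Type*} [AddCommGroup V] {p : ℕ} [hp : Fact p.Prime] {gap : V → ℝ} {N : ℕ}
  {Φ : ℕ → V →+ V} {Λ : ℕ → ℕ → V →+ V} {z t : ℕ → V}

omit hp in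
/-- a record -/
theorem exists_record (h : TlV p gap N Φ Λ z t) (hinf : ∀ J₀, ∃ J, J₀ ≤ J ∧ gap (z J) ≠ 0)
    (L : ℕ) : ∃ j, L ≤ j ∧ 0 < gap (z j) ∧ ∀ K, L ≤ K → gap (z K) ≤ gap (z j) := by
  obtain ⟨J₁, hJ₁, hz₁⟩ := hinf L
  have hg₁ : 0 < gap (z J₁) := lt_of_le_of_ne (h.gp.nonneg _) (Ne.symm hz₁)
  obtain ⟨J₀, hJ₀⟩ := h.lim (gap (z J₁)) hg₁
  have hJS : J₁ ∈ Ico L (max J₀ (J₁ + 1)) :=
    mem_Ico.2 ⟨hJ₁, lt_of_lt_of_le (Nat.lt_succ_self _) (le_max_right _ _)⟩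
  obtain ⟨j, hj, hmax⟩ := (Ico L (max J₀ (J₁ + 1))).exists_max_image (fun K => gap (z K))
    ⟨J₁, hJS⟩
  have h1 := hmax J₁ hJS
  refine ⟨j, (mem_Ico.1 hj).1, hg₁.trans_le h1, fun K hK => ?_⟩
  rcases lt_or_ge K (max J₀ (J₁ + 1)) with h3 | h3
  · exact hmax K (mem_Ico.2 ⟨hK, h3⟩)
  · exact (hJ₀ K ((le_max_left _ _).trans h3)).trans h1

omit hp in
theorem tls_eq (hp0 : 0 < p) (hN : 1 ≤ N) (j M : ℕ) : TlsV p N Φ Λ z t (1 + p ^ N * j) M =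
    (∑ i ∈ Ico 1 N, (if p ^ i ∣ 1 + p ^ N * j - 1 then
      Φ i (z ((1 + p ^ N * j - 1) / p ^ i)) else 0)) + Φ N (z j) +
    ∑ m ∈ range M, Λ (1 + p ^ N * j) m (z (p ^ m * (1 + p ^ N * j))) + t (1 + p ^ N * j) := by
  rw [TlsV]
  have e1 : Icc 1 N = insert N (Ico 1 N) := by
    ext i
    rw [mem_Icc, mem_insert, mem_Ico]
    omega
  rw [e1, sum_insert (by rw [mem_Ico]; omega), if_pos (by
    rw [Nat.add_sub_cancel_left]; exact dvd_mul_right _ _), Nat.add_sub_cancel_left,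
    Nat.mul_div_cancel_left _ (pow_pos hp0 N)]
  abel

theorem idx (i j : ℕ) (hi : i ≤ N) : (1 + p ^ N * j - 1) / p ^ i = p ^ (N - i) * j := by
  rw [Nat.add_sub_cancel_left]
  have e2 : p ^ N = p ^ i * p ^ (N - i) := by rw [← pow_add]; congr 1; omega
  rw [e2, mul_assoc, Nat.mul_div_cancel_left _ (pow_pos hp.out.pos i)]

theorem not_dvd (hN : 1 ≤ N) (j : ℕ) : ¬ p ∣ 1 + p ^ N * j := by
  intro h1
  have h2 : p ∣ p ^ N * j := (dvd_pow_self p (by omega)).trans (dvd_mul_right _ _)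
  have h3 := (Nat.dvd_add_left h2).1 h1
  rw [Nat.dvd_one] at h3
  exact hp.out.one_lt.ne' h3

/-- **Finite shape.** -/
theorem fin (h : TlV p gap N Φ Λ z t) : ∃ J₀, ∀ J, J₀ ≤ J → gap (z J) = 0 := by
  by_contra hcon
  push Not at hcon
  have hp1 : 1 < p := hp.out.one_lt
  have hp1' : (1 : ℝ) ≤ p := by exact_mod_cast hp1.le
  obtain ⟨l₀, hl₀⟩ := h.bdd
  obtain ⟨j, hj, hg, hK⟩ := h.exists_record hcon l₀
  set g := gap (z j) with hgdef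
  obtain ⟨w, hw⟩ := Nat.exists_eq_add_of_le h.pos
  have hpos : ∀ i, 0 < p ^ i := fun i => pow_pos hp.out.pos i
  have hgw : 0 < (p : ℝ) ^ w * g := by positivity
  have hgw' : g ≤ (p : ℝ) ^ w * g := le_mul_of_one_le_left hg.le (one_le_pow₀ hp1')
  obtain ⟨M₀, hM₀⟩ := h.rel _ (not_dvd h.pos j) ((p : ℝ) ^ w * g) hgw
  have h1 := hM₀ M₀ le_rfl
  have hjl : j ≤ p ^ N * j := Nat.le_mul_of_pos_left _ (hpos N)
  -- the lower terms
  have h2 : gap (∑ i ∈ Ico 1 N, (if p ^ i ∣ 1 + p ^ N * j - 1 then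
      Φ i (z ((1 + p ^ N * j - 1) / p ^ i)) else 0)) ≤ (p : ℝ) ^ w * g := by
    refine h.gp.sum_le hgw.le _ _ fun i hi => ?_
    have hi' := mem_Ico.1 hi
    split_ifs with h3
    · rw [idx i j (by omega)]
      have h4 : l₀ ≤ p ^ (N - i) * j := hj.trans (Nat.le_mul_of_pos_left _ (hpos _))
      refine (h.low i hi'.1 hi'.2 _).trans ?_
      exact mul_le_mul (pow_le_pow_right₀ hp1' (by omega)) (hK _ h4) (h.gp.nonneg _)
        (by positivity)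
    · rw [h.gp.zero]
      exact hgw.le
  have h3 : gap (∑ m ∈ range M₀, Λ (1 + p ^ N * j) m (z (p ^ m * (1 + p ^ N * j)))) ≤
      (p : ℝ) ^ w * g := by
    refine h.gp.sum_le hgw.le _ _ fun m _ => (h.car _ _ _).trans ((hK _ ?_).trans hgw')
    refine le_trans ?_ (Nat.le_mul_of_pos_left _ (hpos m))
    omega
  have h4 : gap (t (1 + p ^ N * j)) ≤ (p : ℝ) ^ w * g := by
    rw [hl₀ _ (by omega)]
    exact hgw.le
  have h6 : gap (Φ N (z j)) ≤ (p : ℝ) ^ w * g := by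
    have h7 := h.gp.sub_le (h.gp.sub_le (h.gp.sub_le h1 h2) h3) h4
    rw [tls_eq hp.out.pos h.pos] at h7
    have e : (∑ i ∈ Ico 1 N, (if p ^ i ∣ 1 + p ^ N * j - 1 then
        Φ i (z ((1 + p ^ N * j - 1) / p ^ i)) else 0)) + Φ N (z j) +
      ∑ m ∈ range M₀, Λ (1 + p ^ N * j) m (z (p ^ m * (1 + p ^ N * j))) + t (1 + p ^ N * j) -
      (∑ i ∈ Ico 1 N, (if p ^ i ∣ 1 + p ^ N * j - 1 then
        Φ i (z ((1 + p ^ N * j - 1) / p ^ i)) else 0)) -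
      ∑ m ∈ range M₀, Λ (1 + p ^ N * j) m (z (p ^ m * (1 + p ^ N * j))) -
      t (1 + p ^ N * j) = Φ N (z j) := by abel
    rwa [e] at h7
  rw [h.top] at h6
  have h9 : (p : ℝ) ^ N = p * (p : ℝ) ^ w := by rw [hw, add_comm, pow_succ]; ring
  rw [h9, ← hgdef] at h6
  have h10 : (1 : ℝ) < p := by exact_mod_cast hp1
  nlinarith

/-- (T_l) exactly: `p ∤ l` -/
theorem rel_mod (h : TlV p gap N Φ Λ z t) {l : ℕ} (hl : ¬ p ∣ l) :
    ∃ M, gap (TlsV p N Φ Λ z t l M) = 0 := by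
  have hp1 : 1 < p := hp.out.one_lt
  obtain ⟨J₀, hJ₀⟩ := h.fin
  have hl0 : 1 ≤ l := Nat.one_le_iff_ne_zero.2 fun h => hl (by rw [h]; exact dvd_zero p)
  refine ⟨J₀, le_antisymm ?_ (h.gp.nonneg _)⟩
  refine le_of_forall_pos_le_add fun ε hε => ?_
  obtain ⟨M₀, hM₀⟩ := h.rel l hl ε hε
  have h1 := hM₀ (J₀ + M₀) (by omega)
  have h2 : gap (∑ m ∈ range M₀, Λ l (J₀ + m) (z (p ^ (J₀ + m) * l))) ≤ ε := by
    refine h.gp.sum_le hε.le _ _ fun m _ => (h.car _ _ _).trans ?_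
    have h3 : J₀ ≤ p ^ (J₀ + m) * l := by
      have h4 : J₀ + m < p ^ (J₀ + m) := Nat.lt_pow_self hp1
      have h5 : p ^ (J₀ + m) ≤ p ^ (J₀ + m) * l := Nat.le_mul_of_pos_right _ hl0
      omega
    rw [hJ₀ _ h3]
    exact hε.le
  have h3 := h.gp.sub_le h1 h2
  have e : TlsV p N Φ Λ z t l (J₀ + M₀) - ∑ m ∈ range M₀, Λ l (J₀ + m) (z (p ^ (J₀ + m) * l)) =
      TlsV p N Φ Λ z t l J₀ := by
    rw [TlsV, TlsV, sum_range_add]
    abel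
  rw [e] at h3
  linarith

variable {Q : AddSubgroup V}

/-- **The letters.** `z_j ∈ Q` for `j ≥ 1`. -/
theorem mem (h : TlV p gap N Φ Λ z t) (hQ0 : ∀ x, gap x = 0 → x ∈ Q)
    (hQΦ : ∀ i, 1 ≤ i → i < N → ∀ x ∈ Q, Φ i x ∈ Q) (hQΛ : ∀ l m, ∀ x ∈ Q, Λ l m x ∈ Q)
    (hQN : ∀ x, Φ N x ∈ Q → x ∈ Q) (ht : ∀ l, t l ∈ Q) {j : ℕ} (hj : 1 ≤ j) : z j ∈ Q := by
  have hp1 : 1 < p := hp.out.one_lt
  have hpos : ∀ i, 0 < p ^ i := fun i => pow_pos hp.out.pos i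
  obtain ⟨J₀, hJ₀⟩ := h.fin
  suffices H : ∀ d j, 1 ≤ j → J₀ ≤ j + d → z j ∈ Q from H J₀ j hj (Nat.le_add_left _ _)
  intro d
  induction d using Nat.strong_induction_on with
  | _ d ih =>
    intro j hj hjd
    by_cases hjJ : J₀ ≤ j
    · exact hQ0 _ (hJ₀ j hjJ)
    have ih' : ∀ i, j < i → z i ∈ Q := by
      intro i hi
      refine ih (d - 1) (by omega) i (by omega) (by omega)
    have hjl : j ≤ p ^ N * j := Nat.le_mul_of_pos_left _ (hpos N)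
    obtain ⟨M, hM⟩ := h.rel_mod (not_dvd h.pos j)
    have h2 : (∑ i ∈ Ico 1 N, (if p ^ i ∣ 1 + p ^ N * j - 1 then
        Φ i (z ((1 + p ^ N * j - 1) / p ^ i)) else 0)) ∈ Q := by
      refine sum_mem fun i hi => ?_
      have hi' := mem_Ico.1 hi
      split_ifs with h3
      · rw [idx i j (by omega)]
        refine hQΦ i hi'.1 hi'.2 _ (ih' _ ?_)
        have h4 : p ^ (N - i) = p * p ^ (N - i - 1) := by
          rw [← pow_succ']; congr 1; omega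
        rw [h4, mul_assoc]
        have h5 : j ≤ p ^ (N - i - 1) * j := Nat.le_mul_of_pos_left _ (hpos _)
        have h6 : 2 * (p ^ (N - i - 1) * j) ≤ p * (p ^ (N - i - 1) * j) :=
          Nat.mul_le_mul_right _ hp1
        omega
      · exact zero_mem Q
    have h3 : (∑ m ∈ range M, Λ (1 + p ^ N * j) m (z (p ^ m * (1 + p ^ N * j)))) ∈ Q := by
      refine sum_mem fun m _ => hQΛ _ _ _ (ih' _ ?_)
      have h4 : 1 + p ^ N * j ≤ p ^ m * (1 + p ^ N * j) := Nat.le_mul_of_pos_left _ (hpos m)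
      omega
    have h7 := Q.sub_mem (Q.sub_mem (Q.sub_mem (hQ0 _ hM) h2) h3) (ht (1 + p ^ N * j))
    rw [tls_eq hp.out.pos h.pos] at h7
    have e : (∑ i ∈ Ico 1 N, (if p ^ i ∣ 1 + p ^ N * j - 1 then
        Φ i (z ((1 + p ^ N * j - 1) / p ^ i)) else 0)) + Φ N (z j) +
      ∑ m ∈ range M, Λ (1 + p ^ N * j) m (z (p ^ m * (1 + p ^ N * j))) + t (1 + p ^ N * j) -
      (∑ i ∈ Ico 1 N, (if p ^ i ∣ 1 + p ^ N * j - 1 then
        Φ i (z ((1 + p ^ N * j - 1) / p ^ i)) else 0)) -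
      ∑ m ∈ range M, Λ (1 + p ^ N * j) m (z (p ^ m * (1 + p ^ N * j))) -
      t (1 + p ^ N * j) = Φ N (z j) := by abel
    rw [e] at h7
    exact hQN _ h7

/-- **`P(F) z ∈ Q`.** -/
theorem mem_zero (h : TlV p gap N Φ Λ z t) (hQ0 : ∀ x, gap x = 0 → x ∈ Q)
    (hQΦ : ∀ i, 1 ≤ i → i < N → ∀ x ∈ Q, Φ i x ∈ Q) (hQΛ : ∀ l m, ∀ x ∈ Q, Λ l m x ∈ Q)
    (hQN : ∀ x, Φ N x ∈ Q → x ∈ Q) (ht : ∀ l, t l ∈ Q) :
    ∑ i ∈ Icc 1 N, Φ i (z 0) ∈ Q := by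
  have hpos : ∀ i, 0 < p ^ i := fun i => pow_pos hp.out.pos i
  obtain ⟨M, hM⟩ := h.rel_mod (l := 1) (by rw [Nat.dvd_one]; exact hp.out.one_lt.ne')
  have h3 : (∑ m ∈ range M, Λ 1 m (z (p ^ m * 1))) ∈ Q :=
    sum_mem fun m _ => hQΛ _ _ _ (h.mem hQ0 hQΦ hQΛ hQN ht (by
      rw [mul_one]
      exact hpos m))
  have h5 : TlsV p N Φ Λ z t 1 M = ∑ i ∈ Icc 1 N, Φ i (z 0) +
      ∑ m ∈ range M, Λ 1 m (z (p ^ m * 1)) + t 1 := by
    rw [TlsV]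
    congr 2
    refine sum_congr rfl fun i _ => ?_
    rw [Nat.sub_self, if_pos (dvd_zero _), Nat.zero_div]
  have h7 := Q.sub_mem (Q.sub_mem (hQ0 _ hM) h3) (ht 1)
  rw [h5] at h7
  have e : ∑ i ∈ Icc 1 N, Φ i (z 0) + ∑ m ∈ range M, Λ 1 m (z (p ^ m * 1)) + t 1 -
      ∑ m ∈ range M, Λ 1 m (z (p ^ m * 1)) - t 1 = ∑ i ∈ Icc 1 N, Φ i (z 0) := by abel
  rwa [e] at h7

end TlV

end Pool.Agent.TWIV
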