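import Pool.Agent.Lib.TWC.LS

/-!
# TANK W, leaf (IV), floor 2, rank `r`: the quadratic part vanishes (algebra)

`V` a `k`-space with an injective `σ`-semilinear map `F` and projections `pr c`; `y a` (`a ∈ ι`)
elements of `V` such that the `F^i (y a)` are independent and homogeneous of degree `p ^ i δ_a`.

* `NoSys F pr`: there is no finite dimensional `U ≠ 0` with `F U ≤ ∑_(c ∈ C) pr_c U`, `C` finite;
* `Fl2`: the relations of the coefficients `S n a b d` of `y_a F^d y_b` in `φ_n`;
* `Fl2.zero`: they vanish, if the system `φ` is constant (and `NoSys`) or finitely supported.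
-/

set_option autoImplicit false
set_option linter.unusedSectionVars false

namespace Pool.Agent.TWIV

open Module Submodule TensorProduct
open Pool.Agent.TWC (tp tmul_mem_tp tp_le tp_mono FF FF_tmul LS LS_fg mem_tp_LS eq_zero_of_LS slice
  slice_tmul it_LS)

universe u w

variable {k : Type u} {V : Type w} [Field k] [AddCommGroup V] [Module k V]
variable {σ : k →+* k} [RingHomSurjective σ] {F : V →ₛₗ[σ] V}
variable {A : Type*} [AddCommGroup A] {pr : A → V →ₗ[k] V}

/-! ## Alternating tensors -/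

/-- `x ⊗ y - y ⊗ x` -/
noncomputable def alt (x y : V) : V ⊗[k] V := x ⊗ₜ[k] y - y ⊗ₜ[k] x

theorem alt_add (x y z : V) : alt (k := k) x (y + z) = alt x y + alt x z := by
  simp only [alt, TensorProduct.tmul_add, TensorProduct.add_tmul]
  abel

theorem alt_smul (a : k) (x y : V) : alt (k := k) x (a • y) = a • alt x y := by
  simp only [alt, TensorProduct.tmul_smul, TensorProduct.smul_tmul', smul_sub]

theorem alt_neg (x y : V) : alt (k := k) x (-y) = -alt x y := by
  simp only [alt, TensorProduct.tmul_neg, TensorProduct.neg_tmul]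
  abel

theorem alt_zero (x : V) : alt (k := k) x 0 = 0 := by
  simp only [alt, TensorProduct.tmul_zero, TensorProduct.zero_tmul, sub_zero]

theorem alt_sum {κ : Type*} (s : Finset κ) (x : V) (f : κ → V) :
    alt (k := k) x (∑ i ∈ s, f i) = ∑ i ∈ s, alt x (f i) := by
  simp only [alt, TensorProduct.tmul_sum, TensorProduct.sum_tmul, Finset.sum_sub_distrib]

theorem alt_swap (x y : V) : alt (k := k) x y = -alt y x := by
  simp only [alt]
  abel

omit [RingHomSurjective σ] in
theorem FF_alt (x y : V) : FF F (alt x y) = alt (F x) (F y) := by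
  simp only [alt, map_sub, FF_tmul]

/-! ## The finite projection of degree `e` -/

/-- `∑_(c ∈ C) pr_c ⊗ pr_(e - c)` -/
noncomputable def prT (pr : A → V →ₗ[k] V) (C : Finset A) (e : A) : V ⊗[k] V →ₗ[k] V ⊗[k] V :=
  ∑ c ∈ C, TensorProduct.map (pr c) (pr (e - c))

theorem prT_tmul (C : Finset A) (e : A) (x y : V) :
    prT pr C e (x ⊗ₜ[k] y) = ∑ c ∈ C, pr c x ⊗ₜ[k] pr (e - c) y := by
  rw [prT, LinearMap.sum_apply]
  exact Finset.sum_congr rfl fun c _ => TensorProduct.map_tmul _ _ _ _

/-- `F U ≤ ∑_(c ∈ C) pr_c U` only for `U = 0` -/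
def NoSys (F : V →ₛₗ[σ] V) (pr : A → V →ₗ[k] V) : Prop :=
  ∀ U : Submodule k V, U.FG → ∀ C : Finset A, (∀ x ∈ U, F x ∈ ⨆ c ∈ C, U.map (pr c)) → U = ⊥

theorem prT_mem (C : Finset A) (e : A) {U : Submodule k V} {t : V ⊗[k] V} (ht : t ∈ tp U) :
    prT pr C e t ∈ tp (⨆ c ∈ C, U.map (pr c)) := by
  have h1 : tp U ≤ (tp (⨆ c ∈ C, U.map (pr c))).comap (prT pr C e) := by
    rw [tp_le]
    intro x hx y
    rw [Submodule.mem_comap, prT_tmul]
    refine sum_mem fun c hc => tmul_mem_tp ?_ _
    exact (le_iSup₂ (f := fun (c : A) (_ : c ∈ C) => U.map (pr c)) c hc)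
      (Submodule.mem_map_of_mem hx)
  exact h1 ht

/-- `F ⊗ F` is injective -/
theorem FF_eq_zero (hF : Function.Injective F) {t : V ⊗[k] V} (h : FF F t = 0) : t = 0 := by
  apply eq_zero_of_LS
  rw [eq_bot_iff]
  intro y hy
  have h1 : (FF F)^[1] t ∈ tp (⊥ : Submodule k V) := by
    rw [Function.iterate_one, h]
    exact zero_mem _
  have h2 := it_LS hF h1 hy
  rw [Function.iterate_one, Submodule.mem_bot] at h2
  rw [Submodule.mem_bot]
  exact hF (by rw [h2, map_zero])

/-- `(F ⊗ F) t = P t` only for `t = 0` -/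
theorem NoSys.tensor (hN : NoSys F pr) (hF : Function.Injective F) {C : Finset A} {e : A}
    {t : V ⊗[k] V} (h : FF F t = prT pr C e t) : t = 0 := by
  apply eq_zero_of_LS
  refine hN _ (LS_fg t) C fun x hx => ?_
  have h1 : (FF F)^[1] t ∈ tp (⨆ c ∈ C, (LS t).map (pr c)) := by
    rw [Function.iterate_one, h]
    exact prT_mem C e (mem_tp_LS t)
  have h2 := it_LS hF h1 hx
  rwa [Function.iterate_one] at h2

/-- a family of tensors, `(F ⊗ F) t_j` a combination of `(pr_c ⊗ pr_c') t_l` -/
theorem NoSys.tensors (hN : NoSys F pr) (hF : Function.Injective F) {κ : Type*} [Finite κ]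
    (t : κ → V ⊗[k] V) (C : Finset A) (h : ∀ j, FF F (t j) ∈ Submodule.span k
      {w | ∃ l : κ, ∃ c ∈ C, ∃ d : A, TensorProduct.map (pr c) (pr d) (t l) = w}) (j : κ) :
    t j = 0 := by
  have h0 : (⨆ l, LS (t l)) = ⊥ := by
    refine hN _ (Submodule.fg_iSup _ fun j => LS_fg (t j)) C ?_
    set W : Submodule k V := ⨆ c ∈ C, (⨆ l, LS (t l)).map (pr c) with hW
    have h1 : Submodule.span k
        {w | ∃ l : κ, ∃ c ∈ C, ∃ d : A, TensorProduct.map (pr c) (pr d) (t l) = w} ≤ tp W := by
      rw [Submodule.span_le]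
      rintro _ ⟨l, c, hc, d, rfl⟩
      have h2 : tp (LS (t l)) ≤ (tp W).comap (TensorProduct.map (pr c) (pr d)) := by
        rw [tp_le]
        intro x hx y
        rw [Submodule.mem_comap, TensorProduct.map_tmul]
        refine tmul_mem_tp ?_ _
        have h3 : x ∈ ⨆ l, LS (t l) := (le_iSup (fun l => LS (t l)) l) hx
        exact (le_iSup₂ (f := fun (c : A) (_ : c ∈ C) => (⨆ l, LS (t l)).map (pr c)) c hc)
          (Submodule.mem_map_of_mem h3)
      exact h2 (mem_tp_LS (t l))
    have h2 : (⨆ l, LS (t l)) ≤ W.comap F := by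
      refine iSup_le fun l x hx => ?_
      have h3 : (FF F)^[1] (t l) ∈ tp W := by
        rw [Function.iterate_one]
        exact h1 (h l)
      have h4 := it_LS hF h3 hx
      rw [Function.iterate_one] at h4
      exact Submodule.mem_comap.2 h4
    exact fun x hx => Submodule.mem_comap.1 (h2 hx)
  exact eq_zero_of_LS (le_bot_iff.1 (h0 ▸ le_iSup (fun l => LS (t l)) j))

/-! ## The relations -/

variable {ι : Type*} [Fintype ι]

/-- The relations of floor 2. -/
structure Fl2 (F : V →ₛₗ[σ] V) (pr : A → V →ₗ[k] V) (p : ℕ) (δ : ι → A) (y : ι → V) (e : ℤ → A)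
    (D : ℕ) (S : ℤ → ι → ι → ℕ → k) (m : ℤ → ι → ℕ → V) : Prop where
  hom : ∀ a i, pr (p ^ i • δ a) (F^[i] (y a)) = F^[i] (y a)
  orth : ∀ c a i, c ≠ p ^ i • δ a → pr c (F^[i] (y a)) = 0
  ind : LinearIndependent k (fun x : ι × ℕ => F^[x.2] (y x.1))
  big : ∀ n a b d, D ≤ d → S n a b d = 0
  mbig : ∀ n a i, D ≤ i → m n a i = 0
  step : ∀ n a i, F (m n a i) = (∑ b, S (n + 1) b a (i + 1) • y b) +
    pr (e (n + 1) - p ^ (i + 1) • δ a) (m (n + 1) a (i + 1))
  rel : ∀ n a, (∑ b, ∑ d ∈ Finset.range D, S n a b d • F^[d] (y b)) + (∑ b, S n b a 0 • y b) +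
    pr (e n - p ^ 0 • δ a) (m n a 0) = 0

namespace Fl2

variable {p : ℕ} {δ : ι → A} {y : ι → V} {e : ℤ → A} {D : ℕ} {S : ℤ → ι → ι → ℕ → k}
  {m : ℤ → ι → ℕ → V}

/-- the tensor -/
noncomputable def tn (F : V →ₛₗ[σ] V) (y : ι → V) (D : ℕ) (m : ℤ → ι → ℕ → V) (n : ℤ) :
    V ⊗[k] V :=
  ∑ a, ∑ i ∈ Finset.range D, alt (F^[i] (y a)) (m n a i)

variable (h : Fl2 F pr p δ y e D S m)

include h

omit [RingHomSurjective σ] in
/-- the projection of `alt (F^i y_a) w` -/
theorem prT_alt {C : Finset A} (n : ℤ) {a : ι} {i : ℕ} (h1 : p ^ i • δ a ∈ C)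
    (h2 : e n - p ^ i • δ a ∈ C) (x : V) : prT pr C (e n) (alt (F^[i] (y a)) x) =
      alt (F^[i] (y a)) (pr (e n - p ^ i • δ a) x) := by
  classical
  rw [alt, map_sub, prT_tmul, prT_tmul, alt]
  congr 1
  · rw [Finset.sum_eq_single_of_mem _ h1]
    · rw [h.hom]
    · intro c _ hc
      rw [h.orth c a i hc, TensorProduct.zero_tmul]
  · rw [Finset.sum_eq_single_of_mem _ h2]
    · rw [sub_sub_cancel, h.hom]
    · intro c _ hc
      rw [h.orth (e n - c) a i (fun h3 => hc (by rw [← h3, sub_sub_cancel])),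
        TensorProduct.tmul_zero]

omit [RingHomSurjective σ] in
/-- `(F ⊗ F) t_n = P t_(n + 1)` -/
theorem FF_tn {C : Finset A} (n : ℤ) (h1 : ∀ a, ∀ i < D, p ^ i • δ a ∈ C)
    (h2 : ∀ a, ∀ i < D, e (n + 1) - p ^ i • δ a ∈ C) :
    FF F (tn F y D m n) = prT pr C (e (n + 1)) (tn F y D m (n + 1)) := by
  classical
  set g : ι → ℕ → V ⊗[k] V := fun a i => alt (F^[i] (y a)) ((∑ b, S (n + 1) b a i • y b) +
    pr (e (n + 1) - p ^ i • δ a) (m (n + 1) a i)) with hg
  have e1 : FF F (tn F y D m n) = ∑ a, ∑ i ∈ Finset.range D, g a (i + 1) := by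
    rw [tn, map_sum]
    refine Finset.sum_congr rfl fun a _ => ?_
    rw [map_sum]
    refine Finset.sum_congr rfl fun i _ => ?_
    rw [FF_alt, h.step, ← Function.iterate_succ_apply' F]
  have e2 : ∀ a, ∑ i ∈ Finset.range D, g a (i + 1) = ∑ i ∈ Finset.range D, g a i - g a 0 := by
    intro a
    have h3 := Finset.sum_range_succ' (g a) D
    rw [Finset.sum_range_succ] at h3
    have h4 : g a D = 0 := by
      rw [hg]
      simp only [h.big _ _ _ D le_rfl, h.mbig _ _ D le_rfl, map_zero, zero_smul,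
        Finset.sum_const_zero, add_zero, alt_zero]
    rw [h4, add_zero] at h3
    rw [h3, add_sub_cancel_right]
  have e3 : prT pr C (e (n + 1)) (tn F y D m (n + 1)) = ∑ a, ∑ i ∈ Finset.range D,
      alt (F^[i] (y a)) (pr (e (n + 1) - p ^ i • δ a) (m (n + 1) a i)) := by
    rw [tn, map_sum]
    refine Finset.sum_congr rfl fun a _ => ?_
    rw [map_sum]
    refine Finset.sum_congr rfl fun i hi => ?_
    rw [h.prT_alt (n + 1) (h1 a i (Finset.mem_range.1 hi)) (h2 a i (Finset.mem_range.1 hi))]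
  have e4 : ∀ a, g a 0 = -∑ b, ∑ d ∈ Finset.range D, S (n + 1) a b d • alt (y a) (F^[d] (y b)) := by
    intro a
    have h3 := h.rel (n + 1) a
    have h4 : (∑ b, S (n + 1) b a 0 • y b) + pr (e (n + 1) - p ^ 0 • δ a) (m (n + 1) a 0) =
        -∑ b, ∑ d ∈ Finset.range D, S (n + 1) a b d • F^[d] (y b) := by
      rw [eq_neg_iff_add_eq_zero, ← h3]
      abel
    rw [hg]
    simp only [Function.iterate_zero, id_eq]
    rw [h4, alt_neg, alt_sum]
    congr 1
    refine Finset.sum_congr rfl fun b _ => ?_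
    rw [alt_sum]
    exact Finset.sum_congr rfl fun d _ => alt_smul _ _ _
  have e5 : ∀ a i, g a i = (∑ b, S (n + 1) b a i • alt (F^[i] (y a)) (y b)) +
      alt (F^[i] (y a)) (pr (e (n + 1) - p ^ i • δ a) (m (n + 1) a i)) := by
    intro a i
    rw [hg]
    simp only
    rw [alt_add, alt_sum]
    congr 1
    exact Finset.sum_congr rfl fun b _ => alt_smul _ _ _
  have e8 : ∑ a, ∑ i ∈ Finset.range D, g a (i + 1) =
      (∑ a, ∑ i ∈ Finset.range D, ∑ b, S (n + 1) b a i • alt (k := k) (F^[i] (y a)) (y b)) +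
      (∑ a, ∑ i ∈ Finset.range D,
        alt (F^[i] (y a)) (pr (e (n + 1) - p ^ i • δ a) (m (n + 1) a i))) +
      ∑ a, ∑ b, ∑ d ∈ Finset.range D, S (n + 1) a b d • alt (y a) (F^[d] (y b)) := by
    rw [← Finset.sum_add_distrib, ← Finset.sum_add_distrib]
    refine Finset.sum_congr rfl fun a _ => ?_
    rw [e2 a, e4 a, sub_neg_eq_add, ← Finset.sum_add_distrib]
    congr 1
    exact Finset.sum_congr rfl fun i _ => e5 a i
  rw [e1, e3, e8, add_right_comm]
  have e6 : ∑ a, ∑ i ∈ Finset.range D, ∑ b, S (n + 1) b a i • alt (k := k) (F^[i] (y a)) (y b) =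
      -∑ a, ∑ b, ∑ d ∈ Finset.range D, S (n + 1) a b d • alt (y a) (F^[d] (y b)) := by
    rw [← Finset.sum_neg_distrib]
    have e7 : ∀ a, ∑ i ∈ Finset.range D, ∑ b,
        S (n + 1) b a i • alt (k := k) (F^[i] (y a)) (y b) =
        ∑ b, ∑ i ∈ Finset.range D, -(S (n + 1) b a i • alt (y b) (F^[i] (y a))) := by
      intro a
      rw [Finset.sum_comm]
      refine Finset.sum_congr rfl fun b _ => Finset.sum_congr rfl fun i _ => ?_
      rw [alt_swap, smul_neg]
    simp only [e7]
    rw [Finset.sum_comm]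
    simp only [Finset.sum_neg_distrib]
  rw [e6, neg_add_cancel, zero_add]

/-- an element of the span of the `F^i y_b`, `F x` in the span of the `y_b` -/
theorem sum_eq_zero {x : V} {c : ι → k} (hx : x ∈ Submodule.span k
    (Set.range fun z : ι × ℕ => F^[z.2] (y z.1))) (h1 : F x = ∑ b, c b • y b) :
    F x = 0 ∧ ∀ b, c b = 0 := by
  classical
  have h2 : F x ∈ Submodule.span k ((fun z : ι × ℕ => F^[z.2] (y z.1)) '' {z | z.2 ≠ 0}) := by
    have h3 : (Submodule.span k (Set.range fun z : ι × ℕ => F^[z.2] (y z.1))).map F ≤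
        Submodule.span k ((fun z : ι × ℕ => F^[z.2] (y z.1)) '' {z | z.2 ≠ 0}) := by
      rw [Submodule.map_span_le]
      rintro _ ⟨⟨b, i⟩, rfl⟩
      refine Submodule.subset_span ⟨(b, i + 1), Nat.succ_ne_zero i, ?_⟩
      exact Function.iterate_succ_apply' F i (y b)
    exact h3 (Submodule.mem_map_of_mem hx)
  have h3 : F x ∈ Submodule.span k ((fun z : ι × ℕ => F^[z.2] (y z.1)) '' {z | z.2 = 0}) := by
    rw [h1]
    exact sum_mem fun b _ => Submodule.smul_mem _ _ (Submodule.subset_span ⟨(b, 0), rfl, rfl⟩)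
  have h4 : F x = 0 := by
    refine Submodule.disjoint_def.1 (h.ind.disjoint_span_image ?_) _ h3 h2
    rw [Set.disjoint_left]
    exact fun z h5 h6 => h6 h5
  refine ⟨h4, fun b => ?_⟩
  have h5 : LinearIndependent k y := h.ind.comp (fun b : ι => (b, 0)) fun a b hab =>
    (Prod.mk.inj hab).1
  rw [h4] at h1
  exact (Fintype.linearIndependent_iff.1 h5 c h1.symm) b

omit [RingHomSurjective σ] in
/-- if `t_n = 0` then the `m n a i` are combinations of the `F^j y_b` -/
theorem mem_span (n : ℤ) (ht : tn F y D m n = 0) (a : ι) (i : ℕ) :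
    m n a i ∈ Submodule.span k (Set.range fun z : ι × ℕ => F^[z.2] (y z.1)) := by
  classical
  by_cases hi : i < D
  · -- a functional dual to `F^i y_a`
    obtain ⟨ξ, hξ⟩ : ∃ ξ : V →ₗ[k] k, ∀ (b : ι) (j : ℕ),
        ξ (F^[j] (y b)) = if (b, j) = (a, i) then 1 else 0 := by
      obtain ⟨g, hg⟩ := LinearMap.exists_extend
        ((Basis.span h.ind).constr k (fun z : ι × ℕ => if z = (a, i) then (1 : k) else 0))
      refine ⟨g, fun b j => ?_⟩
      have h1 : (F^[j] (y b)) = (Submodule.subtype _) (Basis.span h.ind (b, j)) := by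
        simp [Basis.span_apply]
      rw [h1, ← LinearMap.comp_apply, hg, Basis.constr_basis]
    have h1 := congrArg (slice ξ) ht
    rw [tn, map_sum, map_zero] at h1
    have h2 : ∀ b, slice ξ (∑ j ∈ Finset.range D, alt (F^[j] (y b)) (m n b j)) =
        ∑ j ∈ Finset.range D, (ξ (m n b j) • F^[j] (y b) -
          (if (b, j) = (a, i) then (1 : k) else 0) • m n b j) := by
      intro b
      rw [map_sum]
      refine Finset.sum_congr rfl fun j _ => ?_
      rw [alt, map_sub, slice_tmul, slice_tmul, hξ]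
    simp only [h2, Finset.sum_sub_distrib] at h1
    have h3 : ∑ b, ∑ j ∈ Finset.range D, (if (b, j) = (a, i) then (1 : k) else 0) • m n b j =
        m n a i := by
      rw [Finset.sum_eq_single a]
      · rw [Finset.sum_eq_single_of_mem i (Finset.mem_range.2 hi)]
        · rw [if_pos rfl, one_smul]
        · intro j _ hj
          rw [if_neg (fun h4 => hj (Prod.mk.inj h4).2), zero_smul]
      · intro b _ hb
        refine Finset.sum_eq_zero fun j _ => ?_
        rw [if_neg (fun h4 => hb (Prod.mk.inj h4).1), zero_smul]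
      · exact fun h4 => absurd (Finset.mem_univ a) h4
    rw [h3, sub_eq_zero] at h1
    rw [← h1]
    exact sum_mem fun b _ => sum_mem fun j _ => Submodule.smul_mem _ _
      (Submodule.subset_span ⟨(b, j), rfl⟩)
  · rw [h.mbig n a i (not_lt.1 hi)]
    exact zero_mem _

/-- the end -/
theorem zero_of_tn (hF : Function.Injective F) (ht : ∀ n, tn F y D m n = 0) :
    (∀ n a i, m n a i = 0) ∧ (∀ n a b d, 1 ≤ d → S n a b d = 0) ∧
      ∀ n a b, S n a b 0 + S n b a 0 = 0 := by
  classical
  have h1 : ∀ (j i : ℕ), D ≤ i + j → ∀ n a, m n a i = 0 := by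
    intro j
    induction j with
    | zero => exact fun i hi n a => h.mbig n a i (by omega)
    | succ j ih =>
      intro i hi n a
      have h2 := h.step n a i
      rw [ih (i + 1) (by omega), map_zero, add_zero] at h2
      exact hF (by rw [(h.sum_eq_zero (h.mem_span n (ht n) a i) h2).1, map_zero])
  have h2 : ∀ n a i, m n a i = 0 := fun n a i => h1 D i (by omega) n a
  have h3 : ∀ n a b d, S n a b (d + 1) = 0 := by
    intro n a b d
    have h4 := h.step (n - 1) b d
    rw [sub_add_cancel, h2, h2, map_zero, map_zero, add_zero] at h4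
    have h5 := (h.sum_eq_zero (x := 0) (zero_mem _) (by rw [map_zero]; exact h4)).2
    exact h5 a
  refine ⟨h2, fun n a b d hd => ?_, fun n a b => ?_⟩
  · obtain ⟨d, rfl⟩ := Nat.exists_eq_add_of_le' hd
    exact h3 n a b d
  · have h4 := h.rel n a
    rw [h2, map_zero, add_zero, ← Finset.sum_add_distrib] at h4
    have h5 : ∀ b, (∑ d ∈ Finset.range D, S n a b d • F^[d] (y b)) + S n b a 0 • y b =
        (S n a b 0 + S n b a 0) • y b := by
      intro b
      have h6 : ∑ d ∈ Finset.range D, S n a b d • F^[d] (y b) = S n a b 0 • y b := by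
        rcases Nat.eq_zero_or_pos D with hD | hD
        · rw [hD, Finset.sum_range_zero, h.big n a b 0 (by omega), zero_smul]
        · rw [Finset.sum_eq_single_of_mem 0 (Finset.mem_range.2 hD)]
          · rfl
          · intro d _ hd
            obtain ⟨d, rfl⟩ := Nat.exists_eq_succ_of_ne_zero hd
            rw [Nat.succ_eq_add_one, h3, zero_smul]
      rw [h6, add_smul]
    simp only [h5] at h4
    have h6 : LinearIndependent k y := h.ind.comp (fun b : ι => (b, 0)) fun a b hab =>
      (Prod.mk.inj hab).1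
    exact Fintype.linearIndependent_iff.1 h6 _ h4 b

/-- **Floor 2, finitely supported systems.** -/
theorem zero_of_finite (hF : Function.Injective F) {M : ℤ} (hM : ∀ n, M ≤ n → ∀ a b d,
    S n a b d = 0) : (∀ n a i, m n a i = 0) ∧ (∀ n a b d, 1 ≤ d → S n a b d = 0) ∧
      ∀ n a b, S n a b 0 + S n b a 0 = 0 := by
  classical
  refine h.zero_of_tn hF ?_
  have h1 : ∀ (j i : ℕ), D ≤ i + j → ∀ n, M ≤ n → ∀ a, m n a i = 0 := by
    intro j
    induction j with
    | zero => exact fun i hi n _ a => h.mbig n a i (by omega)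
    | succ j ih =>
      intro i hi n hn a
      have h2 := h.step n a i
      rw [ih (i + 1) (by omega) (n + 1) (by omega), map_zero, add_zero] at h2
      have h3 : ∑ b, S (n + 1) b a (i + 1) • y b = 0 := by
        refine Finset.sum_eq_zero fun b _ => ?_
        rw [hM (n + 1) (by omega), zero_smul]
      exact hF (by rw [h2, h3, map_zero])
  have h2 : ∀ (j : ℕ) (n : ℤ), M ≤ n + j → tn F y D m n = 0 := by
    intro j
    induction j with
    | zero =>
      intro n hn
      rw [tn]
      refine Finset.sum_eq_zero fun a _ => Finset.sum_eq_zero fun i _ => ?_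
      rw [h1 D i (by omega) n (by simpa using hn), alt_zero]
    | succ j ih =>
      intro n hn
      refine FF_eq_zero hF ?_
      rw [h.FF_tn (C := (Finset.univ ×ˢ Finset.range D).image (fun x : ι × ℕ => p ^ x.2 • δ x.1) ∪
        (Finset.univ ×ˢ Finset.range D).image (fun x : ι × ℕ => e (n + 1) - p ^ x.2 • δ x.1)) n
        (fun a i hi => Finset.mem_union_left _ (Finset.mem_image.2 ⟨(a, i),
          Finset.mem_product.2 ⟨Finset.mem_univ _, Finset.mem_range.2 hi⟩, rfl⟩))
        (fun a i hi => Finset.mem_union_right _ (Finset.mem_image.2 ⟨(a, i),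
          Finset.mem_product.2 ⟨Finset.mem_univ _, Finset.mem_range.2 hi⟩, rfl⟩)),
        ih (n + 1) (by push_cast at hn; omega), map_zero]
  intro n
  exact h2 (M - n).toNat n (by omega)

/-- **Floor 2, constant systems.** -/
theorem zero_of_const (hF : Function.Injective F) (hN : NoSys F pr) (he : ∀ n, e n = e 0)
    (hS : ∀ n a b d, S n a b d = S 0 a b d) : (∀ n a i, m n a i = 0) ∧
      (∀ n a b d, 1 ≤ d → S n a b d = 0) ∧ ∀ n a b, S n a b 0 + S n b a 0 = 0 := by
  classical
  refine h.zero_of_tn hF fun n => ?_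
  have h1 : ∀ (j i : ℕ), D ≤ i + j → ∀ n a, m n a i = m (n + 1) a i := by
    intro j
    induction j with
    | zero => exact fun i hi n a => by rw [h.mbig n a i (by omega), h.mbig (n + 1) a i (by omega)]
    | succ j ih =>
      intro i hi n a
      apply hF
      rw [h.step n a i, h.step (n + 1) a i, he (n + 1), he (n + 1 + 1),
        ih (i + 1) (by omega) (n + 1) a]
      congr 1
      refine Finset.sum_congr rfl fun b _ => ?_
      rw [hS (n + 1), hS (n + 1 + 1)]
  have h2 : tn F y D m (n + 1) = tn F y D m n := by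
    rw [tn, tn]
    refine Finset.sum_congr rfl fun a _ => Finset.sum_congr rfl fun i _ => ?_
    rw [← h1 D i (by omega)]
  have h3 := h.FF_tn (C := (Finset.univ ×ˢ Finset.range D).image
      (fun x : ι × ℕ => p ^ x.2 • δ x.1) ∪
      (Finset.univ ×ˢ Finset.range D).image (fun x : ι × ℕ => e (n + 1) - p ^ x.2 • δ x.1)) n
      (fun a i hi => Finset.mem_union_left _ (Finset.mem_image.2 ⟨(a, i),
        Finset.mem_product.2 ⟨Finset.mem_univ _, Finset.mem_range.2 hi⟩, rfl⟩))
      (fun a i hi => Finset.mem_union_right _ (Finset.mem_image.2 ⟨(a, i),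
        Finset.mem_product.2 ⟨Finset.mem_univ _, Finset.mem_range.2 hi⟩, rfl⟩))
  rw [h2] at h3
  exact hN.tensor hF h3

end Fl2

end Pool.Agent.TWIV
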