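import Pool.Agent.Lib.TWIV.Mixed
import Pool.Agent.Lib.TWM.D1

/-!
# TANK W, leaf (IV), shape (1,2)': the forbidden jets

* `WJ v B K w N D`: operators `D i`, `i < N`, linear over `B`, the jets in `w`, of norm `≤ 0`;
* `WJ.core`: an element `x` near to a polynomial in `w` over `B`, with the `D i x`, `0 < i < p ^ m`,
  integral, is `b + ∑ r_c w ^ (p ^ c)` modulo the valuation ring;
* `forb`: an element of `E<w><y>` which is a limit of `B = E<w ^ (p ^ m)><y>` up to the level `0`;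
* `shape`: an element of `A<y>` whose jets of order `0 < i < p ^ m` are integral;
* `tauJ`: the shape of the limits `z` of `B` with `z ^ (p ^ m) + D_(p ^ m J) g` integral.
-/

set_option autoImplicit false
set_option linter.unusedSectionVars false

open Polynomial

namespace Pool.Agent.TWIV

open Pool.Agent.H15JM (RVal)
open Pool.Agent.LU1 (VPos)
open Pool.Agent.D2 (Ctx0)
open Pool.Agent.D2P (mem_clI)
open Pool.Agent.TWM
open Pool.Agent.TWC (Nul Cau HSI HSX PGe eq_of_ge)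
open Pool.Agent.TWS (SphC)

universe u

variable {k H : Type u} [Field k] [Field H] [Algebra k H] {v : RVal H} {p : ℕ} [hp : Fact p.Prime]
  [CharP H p] {B K E₀ : IntermediateField k H} {w x : H} {N m : ℕ} {D : ℕ → H → H}

/-- The jets in `w` of order `< N`. -/
structure WJ (v : RVal H) (B K : IntermediateField k H) (w : H) (N : ℕ) (D : ℕ → H → H) :
    Prop where
  le : B ≤ K
  mem : w ∈ K
  add : ∀ i < N, ∀ x ∈ K, ∀ y ∈ K, D i (x + y) = D i x + D i y
  norm : ∀ i < N, ∀ x ∈ K, ∀ b : ℝ, v.Ge b x → v.Ge b (D i x)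
  mon : ∀ i < N, ∀ b ∈ B, ∀ j : ℕ, D i (b * w ^ j) = (j.choose i : H) * (b * w ^ (j - i))

namespace WJ

variable (h : WJ v B K w N D)
include h

theorem zero {i : ℕ} (hi : i < N) : D i 0 = 0 := by
  have h1 := h.add i hi 0 (zero_mem K) 0 (zero_mem K)
  rw [add_zero] at h1
  exact left_eq_add.1 h1

theorem sub {i : ℕ} (hi : i < N) {x y : H} (hx : x ∈ K) (hy : y ∈ K) :
    D i (x - y) = D i x - D i y := by
  have h1 := h.add i hi (x - y) (sub_mem hx hy) y hy
  rw [sub_add_cancel] at h1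
  rw [h1, add_sub_cancel_right]

theorem sum {i : ℕ} (hi : i < N) {ι : Type*} (S : Finset ι) (f : ι → H) (hf : ∀ c ∈ S, f c ∈ K) :
    D i (∑ c ∈ S, f c) = ∑ c ∈ S, D i (f c) := by
  classical
  induction S using Finset.induction_on with
  | empty => simpa using h.zero hi
  | insert a S ha ih =>
    rw [Finset.sum_insert ha, Finset.sum_insert ha,
      h.add i hi _ (hf a (Finset.mem_insert_self a S)) _
        (sum_mem fun c hc => hf c (Finset.mem_insert_of_mem hc)),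
      ih fun c hc => hf c (Finset.mem_insert_of_mem hc)]

theorem eval_mem' {g : Polynomial H} (hg : g ∈ PI B) : g.eval w ∈ K :=
  TWM.eval_mem (PI_mono h.le hg) h.mem

/-- The jets of a polynomial in `w`. -/
theorem poly {g : Polynomial H} (hg : g ∈ PI B) {i : ℕ} (hi : i < N) :
    D i (g.eval w) = (hasseDeriv i g).eval w := by
  rw [eval_eq_sum, Polynomial.sum, h.sum hi _ _ fun j _ =>
    mul_mem (h.le (hg j)) (pow_mem h.mem j), hasseDeriv_apply, Polynomial.sum, eval_finsetSum]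
  refine Finset.sum_congr rfl fun j _ => ?_
  rw [h.mon i hi _ (hg j), eval_monomial, mul_assoc]

end WJ

/-- Reduction of the degree. -/
theorem exists_red {g : Polynomial H} (hg : g ∈ PI B) (hN : 0 < N) (hw : w ^ N ∈ B) :
    ∃ g' ∈ PI B, g'.natDegree < N ∧ g'.eval w = g.eval w := by
  classical
  refine ⟨∑ j ∈ Finset.range (g.natDegree + 1),
    Polynomial.C (g.coeff j * (w ^ N) ^ (j / N)) * Polynomial.X ^ (j % N), ?_, ?_, ?_⟩
  · exact sum_mem fun j _ => mul_mem (C_mem_PI (mul_mem (hg j) (pow_mem hw _)))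
      (pow_mem X_mem_PI _)
  · have h1 : (∑ j ∈ Finset.range (g.natDegree + 1),
        Polynomial.C (g.coeff j * (w ^ N) ^ (j / N)) * Polynomial.X ^ (j % N)).natDegree ≤
        N - 1 := by
      refine natDegree_sum_le_of_forall_le _ _ fun j _ => ?_
      refine (natDegree_C_mul_X_pow_le _ _).trans ?_
      have := Nat.mod_lt j hN
      omega
    omega
  · rw [eval_finsetSum, eval_eq_sum_range]
    refine Finset.sum_congr rfl fun j _ => ?_
    rw [eval_mul, eval_C, eval_pow, eval_X, mul_assoc, ← pow_mul, ← pow_add, Nat.div_add_mod]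

/-- A power of a small element times an element of positive value. -/
theorem exists_small {ι : Type*} (S : Finset ι) (o : ι → H) (ho : ∀ i ∈ S, VPos v (o i))
    (n : ℕ) : ∃ δ : ℝ, 0 < δ ∧ ∀ i ∈ S, v.Ge (n * δ) (o i) := by
  classical
  induction S using Finset.induction_on with
  | empty => exact ⟨1, one_pos, fun i hi => absurd hi (Finset.notMem_empty i)⟩
  | insert a S ha ih =>
    obtain ⟨δ, hδ, h1⟩ := ih fun i hi => ho i (Finset.mem_insert_of_mem hi)
    have hn : (0 : ℝ) < n + 1 := by positivity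
    by_cases h0 : o a = 0
    · refine ⟨δ, hδ, fun i hi => ?_⟩
      rcases Finset.mem_insert.1 hi with rfl | hi
      · rw [h0]
        exact RVal.Ge.zero
      · exact h1 i hi
    · have h2 := ho a (Finset.mem_insert_self a S) h0
      refine ⟨min δ (v (o a) / (n + 1)), lt_min hδ (div_pos h2 hn), fun i hi => ?_⟩
      have hm1 := min_le_left δ (v (o a) / (n + 1))
      have hm2 := min_le_right δ (v (o a) / (n + 1))
      have hm0 : 0 < min δ (v (o a) / (n + 1)) := lt_min hδ (div_pos h2 hn)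
      rcases Finset.mem_insert.1 hi with rfl | hi
      · refine (RVal.ge_self (v := v) (o i)).mono ?_
        rw [le_div_iff₀ hn] at hm2
        nlinarith
      · refine (h1 i hi).mono ?_
        exact mul_le_mul_of_nonneg_left hm1 (Nat.cast_nonneg n)

/-- **The core.** -/
theorem WJ.core [hc : Fact (Ctx0 k v)] (h : WJ v B K w (p ^ m) D) (hwN : w ^ p ^ m ∈ B)
    (hE₀ : E₀ ≤ B) (hl : Lim v E₀ 0 w) (hx : x ∈ K) {g : Polynomial H} (hg : g ∈ PI B)
    (hxg : v.Ge 0 (x - g.eval w)) (hD : ∀ i, 0 < i → i < p ^ m → v.Ge 0 (D i x)) :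
    ∃ b ∈ B, ∃ r : ℕ → k, v.Ge 0 (x - b - ∑ c ∈ Finset.range m,
      algebraMap k H (r c) * w ^ p ^ c) := by
  classical
  have hN : 0 < p ^ m := pow_pos hp.out.pos m
  obtain ⟨g', hg', hdeg, hev⟩ := exists_red hg hN hwN
  rw [← hev] at hxg
  -- the jets
  have hc0 : ∀ i, 0 < i → i < p ^ m → v.Ge 0 ((hasseDeriv i g').eval w) := by
    intro i hi hiN
    rw [← h.poly hg' hiN]
    have e : g'.eval w = x - (x - g'.eval w) := by ring
    rw [e, h.sub hiN hx (sub_mem hx (h.eval_mem' hg'))]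
    exact (hD i hi hiN).sub (h.norm i hiN _ (sub_mem hx (h.eval_mem' hg')) 0 hxg)
  -- the residues
  have hres : ∀ i, ∃ r : k, (0 < i → i < p ^ m →
      VPos v ((hasseDeriv i g').eval w - algebraMap k H r)) := by
    intro i
    by_cases hi : 0 < i ∧ i < p ^ m
    · obtain ⟨r, hr⟩ := hc.out.residue (hc0 i hi.1 hi.2)
      exact ⟨r, fun _ _ => hr⟩
    · exact ⟨0, fun h1 h2 => absurd ⟨h1, h2⟩ hi⟩
  choose r hr using hres
  have hconst : ∀ i < p ^ m, 0 < i → ∀ a : k, D i (algebraMap k H a) = 0 := by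
    intro i hi hi0 a
    have h1 := h.mon i hi (algebraMap k H a) (B.algebraMap_mem a) 0
    rw [pow_zero, mul_one, Nat.choose_eq_zero_of_lt hi0, Nat.cast_zero, zero_mul] at h1
    exact h1
  have hr0 : ∀ n, 0 < n → n < p ^ m → (∀ c, n ≠ p ^ c) → r n = 0 := by
    intro n hn0 hn hnp
    obtain ⟨i, hi0, hin, hch⟩ := exists_choose hp.out hn0 hnp
    have hiN : i < p ^ m := hin.trans hn
    have hjN : n - i < p ^ m := by omega
    have hmemI : (hasseDeriv i g').eval w ∈ K := by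
      refine h.eval_mem' fun l => ?_
      rw [hasseDeriv_coeff]
      exact mul_mem (natCast_mem _ _) (hg' _)
    have hI : hasseDeriv i g' ∈ PI B := fun l => by
      rw [hasseDeriv_coeff]
      exact mul_mem (natCast_mem _ _) (hg' _)
    -- the composition
    have e1 : D (n - i) ((hasseDeriv i g').eval w) =
        (n.choose i : H) * (hasseDeriv n g').eval w := by
      rw [h.poly hI hjN]
      have h2 := congrArg (fun f => f g') (hasseDeriv_comp (R := H) (n - i) i)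
      simp only [LinearMap.comp_apply, LinearMap.smul_apply] at h2
      have e3 : n - i + i = n := by omega
      rw [h2, e3, eval_smul, nsmul_eq_mul]
      have e4 : n.choose (n - i) = n.choose i := Nat.choose_symm hin.le
      rw [e4]
    have e2 : D (n - i) ((hasseDeriv i g').eval w) =
        D (n - i) ((hasseDeriv i g').eval w - algebraMap k H (r i)) := by
      rw [h.sub hjN hmemI (K.algebraMap_mem _), hconst _ hjN (by omega), sub_zero]
    have h3 : VPos v ((n.choose i : H) * (hasseDeriv n g').eval w) := by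
      rw [← e1, e2]
      intro h4
      have h5 := hr i hi0 hiN
      by_cases h6 : (hasseDeriv i g').eval w - algebraMap k H (r i) = 0
      · exact absurd (by rw [h6, h.zero hjN]) h4
      · exact lt_of_lt_of_le (h5 h6) (h.norm _ hjN _ (sub_mem hmemI (K.algebraMap_mem _)) _
          (RVal.ge_self _) h4)
    have hu : (n.choose i : H) ≠ 0 ∧ v (n.choose i : H) = 0 := by
      have h7 : (n.choose i : H) ≠ 0 := fun h0 => hch ((CharP.cast_eq_zero_iff H p _).1 h0)
      have h8 : (n.choose i : H) = algebraMap k H (n.choose i : k) := (map_natCast _ _).symm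
      have h9 : ((n.choose i : ℕ) : k) ≠ 0 := fun h0 => h7 (by rw [h8, h0, map_zero])
      exact ⟨h7, by rw [h8, hc.out.triv _ h9]⟩
    have h10 : VPos v ((hasseDeriv n g').eval w) := by
      intro h0
      have h11 := h3 (mul_ne_zero hu.1 h0)
      rwa [v.map_mul hu.1 h0, hu.2, zero_add] at h11
    refine hc.out.const_eq_zero ?_
    have e5 : algebraMap k H (r n) = (hasseDeriv n g').eval w -
        ((hasseDeriv n g').eval w - algebraMap k H (r n)) := by ring
    rw [e5]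
    exact h10.sub (hr n hn0 hn)
  -- the centre
  obtain ⟨δ, hδ, h12⟩ := exists_small (v := v) (Finset.Ioo 0 (p ^ m))
    (fun i => (hasseDeriv i g').eval w - algebraMap k H (r i)) (fun i hi => by
      rw [Finset.mem_Ioo] at hi
      exact hr i hi.1 hi.2) (p ^ m)
  obtain ⟨ψ, hψ, h13⟩ := hl δ hδ
  rw [zero_sub] at h13
  have hψB : ψ ∈ B := hE₀ hψ
  -- Taylor
  have hT : g'.eval ψ = g'.eval w + ∑ i ∈ Finset.Ioo 0 (p ^ m),
      (hasseDeriv i g').eval w * (ψ - w) ^ i := by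
    have h1 : g'.eval ψ = (taylor w g').eval (ψ - w) := by
      rw [taylor_eval_sub]
    have h2 : (taylor w g').natDegree < p ^ m := by rwa [natDegree_taylor]
    have h3 : Finset.range (p ^ m) = insert 0 (Finset.Ioo 0 (p ^ m)) := by
      ext i
      rw [Finset.mem_insert, Finset.mem_range, Finset.mem_Ioo]
      omega
    rw [h1, eval_eq_sum_range' h2, h3, Finset.sum_insert (by simp), pow_zero, mul_one,
      taylor_coeff_zero]
    congr 1
    exact Finset.sum_congr rfl fun i _ => by rw [taylor_coeff]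
  -- the p-power terms
  have hsum : ∑ i ∈ Finset.Ioo 0 (p ^ m), algebraMap k H (r i) * (ψ - w) ^ i =
      ∑ c ∈ Finset.range m, algebraMap k H (r (p ^ c)) * (ψ - w) ^ p ^ c := by
    have hinj : Set.InjOn (fun c : ℕ => p ^ c) (Finset.range m : Set ℕ) :=
      fun a _ b _ hab => Nat.pow_right_injective hp.out.two_le hab
    rw [← Finset.sum_image (f := fun i => algebraMap k H (r i) * (ψ - w) ^ i) hinj]
    symm
    refine Finset.sum_subset ?_ ?_
    · intro i hi
      obtain ⟨c, hc', rfl⟩ := Finset.mem_image.1 hi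
      rw [Finset.mem_Ioo]
      exact ⟨pow_pos hp.out.pos c, Nat.pow_lt_pow_right hp.out.one_lt (Finset.mem_range.1 hc')⟩
    · intro i hi hno
      rw [Finset.mem_Ioo] at hi
      rw [hr0 i hi.1 hi.2 fun c hic => hno (Finset.mem_image.2 ⟨c, ?_, hic.symm⟩), map_zero,
        zero_mul]
      rw [Finset.mem_range]
      rw [hic] at hi
      exact (Nat.pow_lt_pow_iff_right hp.out.one_lt).1 hi.2
  refine ⟨g'.eval ψ - ∑ c ∈ Finset.range m, algebraMap k H (r (p ^ c)) * ψ ^ p ^ c,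
    sub_mem (TWM.eval_mem hg' hψB) (sum_mem fun c _ =>
      mul_mem (B.algebraMap_mem _) (pow_mem hψB _)), fun c => r (p ^ c), ?_⟩
  have e6 : x - (g'.eval ψ - ∑ c ∈ Finset.range m, algebraMap k H (r (p ^ c)) * ψ ^ p ^ c) -
      ∑ c ∈ Finset.range m, algebraMap k H (r (p ^ c)) * w ^ p ^ c = (x - g'.eval w) -
      ∑ i ∈ Finset.Ioo 0 (p ^ m), ((hasseDeriv i g').eval w - algebraMap k H (r i)) *
        (ψ - w) ^ i := by
    have e7 : ∑ c ∈ Finset.range m, algebraMap k H (r (p ^ c)) * (ψ - w) ^ p ^ c =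
        ∑ c ∈ Finset.range m, algebraMap k H (r (p ^ c)) * ψ ^ p ^ c -
        ∑ c ∈ Finset.range m, algebraMap k H (r (p ^ c)) * w ^ p ^ c := by
      rw [← Finset.sum_sub_distrib]
      refine Finset.sum_congr rfl fun c _ => ?_
      rw [sub_pow_char_pow]
      ring
    simp only [sub_mul, Finset.sum_sub_distrib]
    rw [hT, hsum, e7]
    ring
  rw [e6]
  refine hxg.sub (RVal.Ge.sum _ _ fun i hi => ?_)
  have h14 := h12 i hi
  rw [Finset.mem_Ioo] at hi
  have h15 : v.Ge (-δ) (ψ - w) := by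
    rw [← neg_sub]
    exact h13.neg
  have h16 := h14.mul (TWM.ge_pow h15 i)
  refine h16.mono ?_
  have h17 : (i : ℝ) ≤ (p ^ m : ℕ) := by exact_mod_cast hi.2.le
  have h18 : (i : ℝ) * δ ≤ (p ^ m : ℕ) * δ := mul_le_mul_of_nonneg_right h17 hδ.le
  linarith

theorem ge_zero_of_forall {x : H} (h : ∀ ε : ℝ, 0 < ε → v.Ge (-ε) x) : v.Ge 0 x := by
  intro h0
  by_contra h1
  rw [not_le] at h1
  have h2 := h (-v x / 2) (by linarith) h0
  linarith

/-! ### Roots of towers -/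

section Roots

variable [IsAlgClosed H] {A : IntermediateField k H} {y : H}

theorem rootF_succ (n : ℕ) (A : IntermediateField k H) :
    D2P.rootF p (n + 1) A = D2P.rootF p 1 (D2P.rootF p n A) := by
  ext x
  rw [mem_rootF1, D2P.mem_rootF, D2P.mem_rootF, ← pow_mul, ← pow_succ']

variable (p) in
theorem rootFn_cadj (n : ℕ) (A : IntermediateField k H) (t : H) :
    D2P.rootF p n (cadj v A (t ^ p ^ n)) = cadj v (D2P.rootF p n A) t := by
  induction n generalizing t with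
  | zero =>
    have h0 : ∀ F : IntermediateField k H, D2P.rootF p 0 F = F := fun F => by
      ext x
      rw [D2P.mem_rootF, pow_zero, pow_one]
    rw [h0, h0, pow_zero, pow_one]
  | succ n ih =>
    rw [rootF_succ n, rootF_succ n]
    have e : t ^ p ^ (n + 1) = (t ^ p) ^ p ^ n := by rw [← pow_mul, ← pow_succ']
    rw [e, ih, rootF_cadj]

theorem exists_rootN (hP : ∀ a ∈ A, ∃ b ∈ A, b ^ p = a) (n : ℕ) :
    ∀ a ∈ A, ∃ b ∈ A, b ^ p ^ n = a := by
  induction n with
  | zero => exact fun a ha => ⟨a, ha, by rw [pow_zero, pow_one]⟩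
  | succ n ih =>
    intro a ha
    obtain ⟨b, hb, h1⟩ := ih a ha
    obtain ⟨b', hb', h2⟩ := hP b hb
    exact ⟨b', hb', by rw [pow_succ', pow_mul, h2, h1]⟩

theorem le_rootFn (n : ℕ) (A : IntermediateField k H) : A ≤ D2P.rootF p n A := fun _ ha =>
  D2P.mem_rootF.2 (pow_mem ha _)

theorem rootFn_perf (hP : ∀ a ∈ A, ∃ b ∈ A, b ^ p = a) (n : ℕ) : D2P.rootF p n A = A := by
  refine le_antisymm (fun x hx => ?_) (le_rootFn n A)
  obtain ⟨b, hb, h1⟩ := exists_rootN hP n _ (D2P.mem_rootF.1 hx)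
  have h2 : b = x := iterateFrobenius_inj H p n (by rwa [iterateFrobenius_def, iterateFrobenius_def])
  rwa [← h2]

theorem rootFn_le_algc (n : ℕ) (A : IntermediateField k H) : D2P.rootF p n A ≤ algc A := by
  intro a ha
  have h1 := D2P.mem_rootF.1 ha
  have h2 : IsAlgebraic A (a ^ p ^ n) :=
    isAlgebraic_algebraMap (R := A) (⟨a ^ p ^ n, h1⟩ : A)
  exact mem_algc.2 (IsAlgebraic.of_pow (pow_pos hp.out.pos n) h2)

/-- The jets of order `< p ^ m` in `w`, from a homomorphism of `B`. -/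
theorem exists_wj [Fact (Ctx0 k v)] (hc : CompleteV v) {h : B →ₐ[k] PowerSeries H}
    (hh : HSI v B h) (hw : w ^ p ^ m ∈ B)
    (hY : h ⟨w ^ p ^ m, hw⟩ = PowerSeries.C (w ^ p ^ m) + PowerSeries.X) :
    ∃ D, WJ v B (D2P.clI v (TWC.pcl p B)) w (p ^ m) D := by
  classical
  obtain ⟨A, hA⟩ := TWC.exists_hsx (p := p) hc hh
  have hBP : B ≤ TWC.pcl p B := fun x hx => ⟨0, by rwa [pow_zero, pow_one]⟩
  have hPL : TWC.pcl p B ≤ D2P.clI v (TWC.pcl p B) := le_clI _
  have hBL := hBP.trans hPL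
  have hwL : w ∈ D2P.clI v (TWC.pcl p B) := hPL ⟨m, hw⟩
  have hwl : w ∈ TWC.Lvl p B (D2P.clI v (TWC.pcl p B)) m := TWC.mem_Lvl.2 ⟨hw, hwL⟩
  have hser : hA.ser m ⟨w, hwl⟩ = PowerSeries.C w + PowerSeries.X := by
    ext j
    rw [hA.coeff_ser, map_add, PowerSeries.coeff_C, PowerSeries.coeff_X]
    have h1 := hA.base m j ⟨w, hwL⟩ hw
    rw [hY, map_add, PowerSeries.coeff_C, PowerSeries.coeff_X] at h1
    rcases Nat.eq_zero_or_pos j with rfl | hj
    · rw [hA.zero]
      simp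
    · rw [if_neg (by omega), zero_add] at h1 ⊢
      refine iterateFrobenius_inj H p m ?_
      rw [iterateFrobenius_def, iterateFrobenius_def]
      refine h1.trans ?_
      split_ifs
      · rw [one_pow]
      · rw [zero_pow (pow_pos hp.out.pos m).ne']
  refine ⟨fun i x => if hx : x ∈ D2P.clI v (TWC.pcl p B) then A m i ⟨x, hx⟩ else 0, hBL, hwL,
    fun i _ x hx y hy => ?_, fun i _ x hx b hb => ?_, fun i hi b hb j => ?_⟩
  · rw [dif_pos hx, dif_pos hy, dif_pos (add_mem hx hy), ← map_add]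
    rfl
  · rw [dif_pos hx]
    exact hA.norm m i ⟨x, hx⟩ b hb
  · have hbw : b * w ^ j ∈ D2P.clI v (TWC.pcl p B) := mul_mem (hBL hb) (pow_mem hwL j)
    rw [dif_pos hbw]
    have e1 : (⟨b * w ^ j, hbw⟩ : D2P.clI v (TWC.pcl p B)) = ⟨b, hBL hb⟩ * ⟨w, hwL⟩ ^ j := rfl
    rw [e1, hA.lin hi ⟨b, hBL hb⟩ _ hb]
    have e2 : A m i (⟨w, hwL⟩ ^ j) = PowerSeries.coeff i (hA.ser m (⟨w, hwl⟩ ^ j)) := by
      rw [hA.coeff_ser]
      rfl
    rw [e2, map_pow, hser, coeff_add_X_pow]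
    ring

/-- An element of `E<w><y>` is near to a polynomial in `w` over `E'<y>`, `E ≤ E'`. -/
theorem exists_polyW {E E' : IntermediateField k H} (hE : TL v E w 0)
    (hy : TL v (cadj v E w) y 0) (hEE : E ≤ E') {x : H} (hx : x ∈ cadj v (cadj v E w) y) (b : ℝ) :
    ∃ g ∈ PI (cadj v E' y), v.Ge b (x - g.eval w) := by
  classical
  obtain ⟨f, hf, h1⟩ := hy.dense hx b
  choose g hg h2 using fun i : ℕ => hE.dense (hf i) (b - i * v y)
  refine ⟨∑ i ∈ Finset.range (f.natDegree + 1), Polynomial.C (y ^ i) * g i, ?_, ?_⟩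
  · refine sum_mem fun i _ => mul_mem (C_mem_PI (pow_mem (self_mem_cadj _ _ _) i)) ?_
    exact PI_mono (hEE.trans (le_cadj _ _ _)) (hg i)
  · have e : x - (∑ i ∈ Finset.range (f.natDegree + 1), Polynomial.C (y ^ i) * g i).eval w =
        (x - f.eval y) + ∑ i ∈ Finset.range (f.natDegree + 1),
          (f.coeff i - (g i).eval w) * y ^ i := by
      rw [eval_finsetSum, eval_eq_sum_range (p := f)]
      simp only [eval_mul, eval_C, sub_mul, Finset.sum_sub_distrib]
      have e1 : ∑ i ∈ Finset.range (f.natDegree + 1), y ^ i * (g i).eval w =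
          ∑ i ∈ Finset.range (f.natDegree + 1), (g i).eval w * y ^ i :=
        Finset.sum_congr rfl fun i _ => mul_comm _ _
      rw [e1]
      ring
    rw [e]
    refine h1.add (RVal.Ge.sum _ _ fun i _ => ?_)
    have h3 := (h2 i).mul (TWM.ge_pow (RVal.ge_self (v := v) y) i)
    rwa [sub_add_cancel] at h3

/-- **The forbidden jets** (INPUT 1). -/
theorem forb [Fact (Ctx0 k v)] (hc : CompleteV v) {E : IntermediateField k H} {x : H}
    (hw : TL v E w 0) (hy : TL v (cadj v E (w ^ p ^ m)) y 0)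
    {h : cadj v (cadj v E (w ^ p ^ m)) y →ₐ[k] PowerSeries H}
    (hh : HSI v (cadj v (cadj v E (w ^ p ^ m)) y) h)
    (hY : ∀ x : cadj v (cadj v E (w ^ p ^ m)) y, (x : H) = w ^ p ^ m →
      h x = PowerSeries.C (w ^ p ^ m) + PowerSeries.X)
    (hx : x ∈ cadj v (cadj v E w) y) (hl : Lim v (cadj v (cadj v E (w ^ p ^ m)) y) 0 x) :
    ∃ b ∈ cadj v (cadj v E (w ^ p ^ m)) y, ∃ r : ℕ → k,
      v.Ge 0 (x - b - ∑ c ∈ Finset.range m, algebraMap k H (r c) * w ^ p ^ c) := by
  set E₁ := cadj v E (w ^ p ^ m) with hE₁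
  set B := cadj v E₁ y with hB
  have hwB : w ^ p ^ m ∈ B := le_cadj _ _ _ (self_mem_cadj _ _ _)
  have hEB : E ≤ B := (le_cadj _ _ _).trans (le_cadj _ _ _)
  obtain ⟨D, hD⟩ := exists_wj hc hh hwB (hY ⟨_, hwB⟩ rfl)
  -- the field `E<w>` is algebraic over `E<w ^ (p ^ m)>`
  have hle : cadj v E w ≤ D2P.rootF p m E₁ := by
    rw [hE₁, rootFn_cadj]
    exact cadj_mono (le_rootFn m E) w
  have hyw : TL v (cadj v E w) y 0 := by
    have h1 : TL v (D2P.rootF p m E₁) y 0 := hy.mono (le_rootFn _ _) (rootFn_le_algc m _)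
    refine ⟨fun ε hε => ?_, fun θ hθ => h1.far θ (D2P.isAlgebraic_mono hle hθ)⟩
    obtain ⟨a, ha, h2⟩ := hy.lim ε hε
    exact ⟨a, cadj_le (cld_cadj _ _ _) (le_cadj _ _ _) (pow_mem (self_mem_cadj _ _ _) _) ha, h2⟩
  have hxL : x ∈ D2P.clI v (TWC.pcl p B) := by
    have hc1 : Cld v (D2P.clI v (TWC.pcl p B)) := cld_clI _ _
    refine cadj_le hc1 (cadj_le hc1 (hEB.trans hD.le) hD.mem) ?_ hx
    exact hD.le (self_mem_cadj _ _ _)
  obtain ⟨g, hg, h1⟩ := exists_polyW hw hyw (le_cadj v E (w ^ p ^ m)) hx 0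
  refine hD.core hwB hEB hw.lim hxL hg h1 fun i hi0 hi => ?_
  refine ge_zero_of_forall fun ε hε => ?_
  obtain ⟨b, hb, h2⟩ := hl ε hε
  rw [zero_sub] at h2
  have h3 : D i b = 0 := by
    have h4 := hD.mon i hi b hb 0
    rwa [pow_zero, mul_one, Nat.choose_eq_zero_of_lt hi0, Nat.cast_zero, zero_mul] at h4
  have e : D i x = D i (x - b) := by
    rw [hD.sub hi hxL (hD.le hb), h3, sub_zero]
  rw [e]
  exact hD.norm i hi _ (sub_mem hxL (hD.le hb)) _ h2

/-! ### The Taylor homomorphism and the field `A<y ^ (p ^ m)>` -/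

/-- The powers of an element of transcendental type. -/
theorem tl_pow (hy : TL v A y 0) (m : ℕ) : TL v A (y ^ p ^ m) 0 where
  lim ε hε := by
    have hN : (0 : ℝ) < (p ^ m : ℕ) := by exact_mod_cast pow_pos hp.out.pos m
    obtain ⟨a, ha, h1⟩ := hy.lim (ε / (p ^ m : ℕ)) (div_pos hε hN)
    refine ⟨a ^ p ^ m, pow_mem ha _, ?_⟩
    rw [← sub_pow_char_pow]
    refine (TWM.ge_pow h1 (p ^ m)).mono (le_of_eq ?_)
    rw [zero_sub, zero_sub, mul_neg, mul_div_cancel₀ _ hN.ne']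
  far θ hθ := by
    obtain ⟨θ', rfl⟩ := IsAlgClosed.exists_pow_nat_eq θ (pow_pos hp.out.pos m)
    have h1 : IsAlgebraic A θ' := IsAlgebraic.of_pow (pow_pos hp.out.pos m) hθ
    obtain ⟨h2, h3⟩ := hy.far θ' h1
    have h4 : y - θ' ≠ 0 := sub_ne_zero.2 h2
    have hN : (0 : ℝ) < (p ^ m : ℕ) := by exact_mod_cast pow_pos hp.out.pos m
    refine ⟨fun h5 => h2 (iterateFrobenius_inj H p m ?_), ?_⟩
    · rwa [iterateFrobenius_def, iterateFrobenius_def]
    · rw [← sub_pow_char_pow, v.map_pow h4]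
      exact mul_neg_of_pos_of_neg hN h3

section Tay

variable {t : cadj v A y →ₐ[k] PowerSeries H}

/-- The jets of the elements of `A<y ^ (p ^ m)>`. -/
theorem tay_root (hy : TL v A y 0) (ht : HSI v (cadj v A y) t)
    (h0 : ∀ x : cadj v A y, (x : H) ∈ A → t x = PowerSeries.C (x : H))
    (h1 : ∀ x : cadj v A y, (x : H) = y → t x = PowerSeries.C y + PowerSeries.X) (m : ℕ)
    (x : cadj v A y) (hx : (x : H) ∈ cadj v A (y ^ p ^ m)) (l : ℕ) :
    PowerSeries.coeff l (t x) ∈ cadj v A (y ^ p ^ m) ∧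
      (¬ p ^ m ∣ l → PowerSeries.coeff l (t x) = 0) := by
  classical
  have hyN := tl_pow (p := p) hy m
  -- the approximations
  have key : ∀ b : ℝ, ∃ u : H, u ∈ cadj v A (y ^ p ^ m) ∧ (¬ p ^ m ∣ l → u = 0) ∧
      v.Ge b (PowerSeries.coeff l (t x) - u) := by
    intro b
    obtain ⟨f, hf, h2⟩ := hyN.dense hx b
    have hle : cadj v A (y ^ p ^ m) ≤ cadj v A y :=
      cadj_le (cld_cadj _ _ _) (le_cadj _ _ _) (pow_mem (self_mem_cadj _ _ _) _)
    have hfm : f.eval (y ^ p ^ m) ∈ cadj v A y :=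
      TWM.eval_mem (PI_mono (le_cadj _ _ _) hf) (pow_mem (self_mem_cadj _ _ _) _)
    have e1 : t ⟨f.eval (y ^ p ^ m), hfm⟩ = ∑ j ∈ Finset.range (f.natDegree + 1),
        PowerSeries.C (f.coeff j) * ((PowerSeries.C y + PowerSeries.X) ^ j) ^ p ^ m := by
      have e2 : (⟨f.eval (y ^ p ^ m), hfm⟩ : cadj v A y) =
          ∑ j ∈ Finset.range (f.natDegree + 1), ⟨f.coeff j, le_cadj _ _ _ (hf j)⟩ *
            ((⟨y, self_mem_cadj _ _ _⟩ : cadj v A y) ^ j) ^ p ^ m := by
        refine Subtype.ext ?_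
        push_cast
        rw [eval_eq_sum_range]
        refine Finset.sum_congr rfl fun j _ => ?_
        rw [← pow_mul, ← pow_mul, mul_comm j]
      rw [e2, map_sum]
      refine Finset.sum_congr rfl fun j _ => ?_
      rw [map_mul, map_pow, map_pow, h0 _ (hf j), h1 _ rfl]
    refine ⟨PowerSeries.coeff l (t ⟨f.eval (y ^ p ^ m), hfm⟩), ?_, fun hl => ?_, ?_⟩
    · rw [e1, map_sum]
      refine sum_mem fun j _ => ?_
      rw [PowerSeries.coeff_C_mul]
      refine mul_mem (le_cadj _ _ _ (hf j)) ?_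
      by_cases hl : p ^ m ∣ l
      · obtain ⟨l', rfl⟩ := hl
        rw [TWC.coeff_ps_pow_pow, coeff_add_X_pow, mul_pow, ← pow_mul, mul_comm (j - l'), pow_mul]
        exact mul_mem (pow_mem (natCast_mem _ _) _) (pow_mem (self_mem_cadj _ _ _) _)
      · rw [TWC.coeff_ps_pow_zero p _ m l hl]
        exact zero_mem _
    · rw [e1, map_sum]
      refine Finset.sum_eq_zero fun j _ => ?_
      rw [PowerSeries.coeff_C_mul, TWC.coeff_ps_pow_zero p _ m l hl, mul_zero]
    · rw [← map_sub, ← map_sub]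
      exact ht.norm l _ b h2
  refine ⟨cld_cadj _ _ _ (mem_clI.2 fun b => ?_), fun hl => ?_⟩
  · obtain ⟨u, hu, -, h2⟩ := key b
    exact ⟨u, hu, h2⟩
  · refine eq_of_ge (v := v) fun b => ?_
    obtain ⟨u, -, hu, h2⟩ := key b
    rwa [hu hl] at h2

/-- The jets of order `< p ^ m` are linear over `A<y ^ (p ^ m)>`. -/
theorem wj_tay (hy : TL v A y 0) (ht : HSI v (cadj v A y) t)
    (h0 : ∀ x : cadj v A y, (x : H) ∈ A → t x = PowerSeries.C (x : H))
    (h1 : ∀ x : cadj v A y, (x : H) = y → t x = PowerSeries.C y + PowerSeries.X) (m : ℕ) :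
    ∃ D : ℕ → H → H, WJ v (cadj v A (y ^ p ^ m)) (cadj v A y) y (p ^ m) D ∧
      ∀ i (x : cadj v A y), D i x = PowerSeries.coeff i (t x) := by
  classical
  have hle : cadj v A (y ^ p ^ m) ≤ cadj v A y :=
    cadj_le (cld_cadj _ _ _) (le_cadj _ _ _) (pow_mem (self_mem_cadj _ _ _) _)
  refine ⟨fun i x => if hx : x ∈ cadj v A y then PowerSeries.coeff i (t ⟨x, hx⟩) else 0,
    ⟨hle, self_mem_cadj _ _ _, fun i _ x hx y hy => ?_, fun i _ x hx b hb => ?_,
      fun i hi b hb j => ?_⟩, fun i x => ?_⟩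
  · rw [dif_pos hx, dif_pos hy, dif_pos (add_mem hx hy), ← map_add, ← map_add]
    rfl
  · rw [dif_pos hx]
    exact ht.norm i _ b hb
  · have hbw : b * y ^ j ∈ cadj v A y := mul_mem (hle hb) (pow_mem (self_mem_cadj _ _ _) j)
    rw [dif_pos hbw]
    have e1 : (⟨b * y ^ j, hbw⟩ : cadj v A y) = ⟨b, hle hb⟩ * ⟨y, self_mem_cadj _ _ _⟩ ^ j := rfl
    rw [e1, map_mul, map_pow, h1 ⟨y, self_mem_cadj _ _ _⟩ rfl, PowerSeries.coeff_mul,
      Finset.sum_eq_single (0, i)]
    · rw [coeff_add_X_pow, ht.zero]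
      ring
    · rintro ⟨a, c⟩ hac hne
      rw [Finset.HasAntidiagonal.mem_antidiagonal] at hac
      simp only at hac ⊢
      have ha : a ≠ 0 := by
        rintro rfl
        exact hne (by rw [← hac, zero_add])
      have h2 : ¬ p ^ m ∣ a := fun h3 => by
        have := Nat.le_of_dvd (Nat.pos_of_ne_zero ha) h3
        omega
      rw [(tay_root hy ht h0 h1 m ⟨b, hle hb⟩ hb a).2 h2, zero_mul]
    · intro hno
      exfalso
      apply hno
      rw [Finset.HasAntidiagonal.mem_antidiagonal]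
      exact zero_add i
  · change (if hx : (x : H) ∈ cadj v A y then _ else _) = _
    rw [dif_pos x.2]

/-- **The shape of an element whose jets of order `< p ^ m` are integral.** -/
theorem shape [Fact (Ctx0 k v)] (hy : TL v A y 0) (ht : HSI v (cadj v A y) t)
    (h0 : ∀ x : cadj v A y, (x : H) ∈ A → t x = PowerSeries.C (x : H))
    (h1 : ∀ x : cadj v A y, (x : H) = y → t x = PowerSeries.C y + PowerSeries.X) {m : ℕ}
    {x : cadj v A y} (hx : ∀ i, 0 < i → i < p ^ m → v.Ge 0 (PowerSeries.coeff i (t x))) :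
    ∃ b ∈ cadj v A (y ^ p ^ m), ∃ r : ℕ → k,
      v.Ge 0 ((x : H) - b - ∑ c ∈ Finset.range m, algebraMap k H (r c) * y ^ p ^ c) := by
  obtain ⟨D, hD, h2⟩ := wj_tay hy ht h0 h1 m
  obtain ⟨g, hg, h3⟩ := hy.dense x.2 0
  refine hD.core (self_mem_cadj _ _ _) (le_cadj _ _ _) hy.lim x.2
    (PI_mono (le_cadj _ _ _) hg) h3 fun i hi0 hi => ?_
  rw [h2 i x]
  exact hx i hi0 hi

/-- **The shape of the `z_J`.** -/
theorem tauJ [Fact (Ctx0 k v)] (hc : CompleteV v) {E : IntermediateField k H} {z : H}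
    (hEp : ∀ a ∈ E, ∃ b ∈ E, b ^ p = a) (hw : TL v E w 0)
    (hy : TL v (cadj v E (w ^ p ^ m)) y 0)
    -- the lift
    {h : cadj v (cadj v E (w ^ p ^ m)) y →ₐ[k] PowerSeries H}
    (hh : HSI v (cadj v (cadj v E (w ^ p ^ m)) y) h)
    (hY : ∀ x : cadj v (cadj v E (w ^ p ^ m)) y, (x : H) = w ^ p ^ m →
      h x = PowerSeries.C (w ^ p ^ m) + PowerSeries.X)
    -- the Taylor homomorphism in `y`
    {t : cadj v (cadj v E (w ^ p ^ m)) y →ₐ[k] PowerSeries H}
    (ht : HSI v (cadj v (cadj v E (w ^ p ^ m)) y) t)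
    (h0 : ∀ x : cadj v (cadj v E (w ^ p ^ m)) y, (x : H) ∈ cadj v E (w ^ p ^ m) →
      t x = PowerSeries.C (x : H))
    (h1 : ∀ x : cadj v (cadj v E (w ^ p ^ m)) y, (x : H) = y →
      t x = PowerSeries.C y + PowerSeries.X)
    {g : cadj v (cadj v E (w ^ p ^ m)) y}
    (hg : ∀ i, 0 < i → i < p ^ m → v.Ge 0 (PowerSeries.coeff i (t g))) {J : ℕ} (hJ : 0 < J)
    (hz : v.Ge 0 (z ^ p ^ m + PowerSeries.coeff (p ^ m * J) (t g)))
    (hl : Lim v (cadj v (cadj v E (w ^ p ^ m)) y) 0 z) :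
    ∃ b ∈ cadj v (cadj v E (w ^ p ^ m)) y, ∃ r : ℕ → k,
      v.Ge 0 (z - b - ∑ c ∈ Finset.range m, algebraMap k H (r c) * w ^ p ^ c) := by
  classical
  have hN : 0 < p ^ m := pow_pos hp.out.pos m
  obtain ⟨b, hb, r, h2⟩ := shape hy ht h0 h1 hg
  have hle : cadj v (cadj v E (w ^ p ^ m)) (y ^ p ^ m) ≤ cadj v (cadj v E (w ^ p ^ m)) y :=
    cadj_le (cld_cadj _ _ _) (le_cadj _ _ _) (pow_mem (self_mem_cadj _ _ _) _)
  set u := PowerSeries.coeff (p ^ m * J) (t ⟨b, hle hb⟩) with hu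
  have huB : u ∈ cadj v (cadj v E (w ^ p ^ m)) (y ^ p ^ m) := (tay_root hy ht h0 h1 m ⟨b, hle hb⟩ hb _).1
  -- the jet of `g`
  have h3 : v.Ge 0 (PowerSeries.coeff (p ^ m * J) (t g) - u) := by
    set s : cadj v (cadj v E (w ^ p ^ m)) y := ∑ c ∈ Finset.range m, algebraMap k _ (r c) *
      (⟨y, self_mem_cadj _ _ _⟩ : cadj v (cadj v E (w ^ p ^ m)) y) ^ p ^ c with hs
    have hsv : (s : H) = ∑ c ∈ Finset.range m, algebraMap k H (r c) * y ^ p ^ c := by
      rw [hs]
      push_cast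
      rfl
    have h4 : PowerSeries.coeff (p ^ m * J) (t s) = 0 := by
      rw [hs, map_sum, map_sum]
      refine Finset.sum_eq_zero fun c hc' => ?_
      rw [map_mul, map_pow, h1 ⟨y, self_mem_cadj _ _ _⟩ rfl, t.commutes, PowerSeries.algebraMap_apply,
        PowerSeries.coeff_C_mul, coeff_add_X_pow]
      have h5 : p ^ c < p ^ m * J :=
        lt_of_lt_of_le (Nat.pow_lt_pow_right hp.out.one_lt (Finset.mem_range.1 hc'))
          (Nat.le_mul_of_pos_right _ hJ)
      rw [Nat.choose_eq_zero_of_lt h5, Nat.cast_zero, zero_mul, mul_zero]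
    have e : PowerSeries.coeff (p ^ m * J) (t g) - u =
        PowerSeries.coeff (p ^ m * J) (t (g - ⟨b, hle hb⟩ - s)) := by
      rw [map_sub, map_sub, map_sub, map_sub, h4, sub_zero]
    rw [e]
    refine ht.norm _ _ 0 ?_
    push_cast
    rw [hsv]
    exact h2
  -- the root
  have hroot : D2P.rootF p m (cadj v (cadj v E (w ^ p ^ m)) (y ^ p ^ m)) = cadj v (cadj v E w) y := by
    rw [rootFn_cadj, rootFn_cadj, rootFn_perf hEp]
  obtain ⟨x, hx⟩ := IsAlgClosed.exists_pow_nat_eq (-u) hN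
  have hxm : x ∈ cadj v (cadj v E w) y := by
    rw [← hroot, D2P.mem_rootF, hx]
    exact neg_mem huB
  have h6 : v.Ge 0 (z - x) := by
    have h7 : v.Ge 0 ((z - x) ^ p ^ m) := by
      rw [sub_pow_char_pow, hx]
      have e : z ^ p ^ m - -u = (z ^ p ^ m + PowerSeries.coeff (p ^ m * J) (t g)) -
          (PowerSeries.coeff (p ^ m * J) (t g) - u) := by ring
      rw [e]
      exact hz.sub h3
    intro h8
    have h9 := h7 (pow_ne_zero _ h8)
    rw [v.map_pow h8] at h9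
    have hN' : (0 : ℝ) < (p ^ m : ℕ) := by exact_mod_cast hN
    by_contra h10
    rw [not_le] at h10
    have := mul_neg_of_pos_of_neg hN' h10
    linarith
  have hlx : Lim v (cadj v (cadj v E (w ^ p ^ m)) y) 0 x := by
    intro ε hε
    obtain ⟨b', hb', h7⟩ := hl ε hε
    refine ⟨b', hb', ?_⟩
    have e : x - b' = (z - b') - (z - x) := by ring
    rw [e]
    exact h7.sub (h6.mono (by linarith))
  obtain ⟨b', hb', r', h7⟩ := forb hc hw hy hh hY hxm hlx
  refine ⟨b', hb', r', ?_⟩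
  have e : z - b' - ∑ c ∈ Finset.range m, algebraMap k H (r' c) * w ^ p ^ c =
      (z - x) + (x - b' - ∑ c ∈ Finset.range m, algebraMap k H (r' c) * w ^ p ^ c) := by ring
  rw [e]
  exact h6.add h7

end Tay

end Roots

/-! ### Limits of sequences -/

/-- A Cauchy sequence (up to the level `0`) has a limit. -/
theorem exists_lim0 (hs : SphC v) {x : ℕ → H}
    (hx : ∀ ε : ℝ, 0 < ε → ∃ N, ∀ m n, N ≤ m → N ≤ n → v.Ge (-ε) (x m - x n)) :
    ∃ z : H, Nul v fun n => z - x n := by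
  classical
  choose N hN using fun j : ℕ => hx (1 / ((j : ℝ) + 1)) (by positivity)
  let M : ℕ → ℕ := fun j => (Finset.range (j + 1)).sup N
  have hM : ∀ i j, i ≤ j → N i ≤ M j := fun i j hij =>
    Finset.le_sup (f := N) (Finset.mem_range.2 (Nat.lt_succ_of_le hij))
  obtain ⟨z, hz⟩ := hs (fun j => x (M j)) (fun j => -(1 / ((j : ℝ) + 1))) fun n m hnm =>
    hN n _ _ (hM n m hnm) (hM n n le_rfl)
  refine ⟨z, fun ε hε => ?_⟩
  obtain ⟨j, hj⟩ := exists_nat_one_div_lt hε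
  refine ⟨N j, fun n hn => ?_⟩
  have e : z - x n = (z - x (M j)) + (x (M j) - x n) := by ring
  change v.Ge (-ε) (z - x n)
  rw [e]
  exact ((hz j).mono (by linarith)).add ((hN j _ _ (hM j j le_rfl) hn).mono (by linarith))

/-- **The shape of the `z_J`**, for sequences. -/
theorem tauJ_seq [IsAlgClosed H] [Fact (Ctx0 k v)] (hc : CompleteV v) (hs : SphC v) {y : H}
    {E : IntermediateField k H} {zs : ℕ → H}
    (hEp : ∀ a ∈ E, ∃ b ∈ E, b ^ p = a) (hw : TL v E w 0)
    (hy : TL v (cadj v E (w ^ p ^ m)) y 0)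
    {h : cadj v (cadj v E (w ^ p ^ m)) y →ₐ[k] PowerSeries H}
    (hh : HSI v (cadj v (cadj v E (w ^ p ^ m)) y) h)
    (hY : ∀ x : cadj v (cadj v E (w ^ p ^ m)) y, (x : H) = w ^ p ^ m →
      h x = PowerSeries.C (w ^ p ^ m) + PowerSeries.X)
    {t : cadj v (cadj v E (w ^ p ^ m)) y →ₐ[k] PowerSeries H}
    (ht : HSI v (cadj v (cadj v E (w ^ p ^ m)) y) t)
    (h0 : ∀ x : cadj v (cadj v E (w ^ p ^ m)) y, (x : H) ∈ cadj v E (w ^ p ^ m) →
      t x = PowerSeries.C (x : H))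
    (h1 : ∀ x : cadj v (cadj v E (w ^ p ^ m)) y, (x : H) = y →
      t x = PowerSeries.C y + PowerSeries.X)
    {g : cadj v (cadj v E (w ^ p ^ m)) y}
    (hg : ∀ i, 0 < i → i < p ^ m → v.Ge 0 (PowerSeries.coeff i (t g))) {J : ℕ} (hJ : 0 < J)
    (hz : Cau v (cadj v (cadj v E (w ^ p ^ m)) y) zs)
    (hzN : Nul v fun n => zs n ^ p ^ m + PowerSeries.coeff (p ^ m * J) (t g)) :
    ∃ b ∈ cadj v (cadj v E (w ^ p ^ m)) y, ∃ r : ℕ → k,
      Nul v fun n => zs n - b - ∑ c ∈ Finset.range m, algebraMap k H (r c) * w ^ p ^ c := by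
  obtain ⟨z, hz1⟩ := exists_lim0 hs hz.cau
  have hN : 0 < p ^ m := pow_pos hp.out.pos m
  have hNr : (0 : ℝ) < (p ^ m : ℕ) := by exact_mod_cast hN
  have h2 : v.Ge 0 (z ^ p ^ m + PowerSeries.coeff (p ^ m * J) (t g)) := by
    refine ge_zero_of_forall fun ε hε => ?_
    obtain ⟨N₁, hN₁⟩ := hzN ε hε
    obtain ⟨N₂, hN₂⟩ := hz1 (ε / (p ^ m : ℕ)) (div_pos hε hNr)
    have a1 := hN₁ (max N₁ N₂) (le_max_left _ _)
    have a2 := TWM.ge_pow (hN₂ (max N₁ N₂) (le_max_right _ _)) (p ^ m)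
    rw [mul_neg, mul_div_cancel₀ _ hNr.ne', sub_pow_char_pow] at a2
    have e : z ^ p ^ m + PowerSeries.coeff (p ^ m * J) (t g) =
        (z ^ p ^ m - zs (max N₁ N₂) ^ p ^ m) +
        (zs (max N₁ N₂) ^ p ^ m + PowerSeries.coeff (p ^ m * J) (t g)) := by ring
    rw [e]
    exact a2.add a1
  have h3 : Lim v (cadj v (cadj v E (w ^ p ^ m)) y) 0 z := by
    intro ε hε
    obtain ⟨N₂, hN₂⟩ := hz1 ε hε
    exact ⟨zs N₂, hz.mem _, by rw [zero_sub]; exact hN₂ _ le_rfl⟩
  obtain ⟨b, hb, r, h4⟩ := tauJ hc hEp hw hy hh hY ht h0 h1 hg hJ h2 h3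
  refine ⟨b, hb, r, fun ε hε => ?_⟩
  obtain ⟨N₂, hN₂⟩ := hz1 ε hε
  refine ⟨N₂, fun n hn => ?_⟩
  have e : zs n - b - ∑ c ∈ Finset.range m, algebraMap k H (r c) * w ^ p ^ c =
      (z - b - ∑ c ∈ Finset.range m, algebraMap k H (r c) * w ^ p ^ c) - (z - zs n) := by ring
  change v.Ge (-ε) (zs n - b - ∑ c ∈ Finset.range m, algebraMap k H (r c) * w ^ p ^ c)
  rw [e]
  exact (h4.mono (by linarith)).sub (hN₂ n hn)

end Pool.Agent.TWIV
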