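import Pool.Agent.Lib.TWIV.ZBas
import Pool.Agent.Lib.TWIV.Top

/-!
# TANK W, tame case: `FVB` over `E⟨a₁⟩`, any rank

* `World.fv_one_sat`: `fv_one` for a value group saturated prime to `p`;
* `World.fvb_first`: `a_1, .., a_ρ` a homogeneous basis of the limits of `E` in `T`: no exotic
  relation over `E⟨a₁⟩`.
-/

set_option autoImplicit false
set_option linter.unusedSectionVars false

open Polynomial

namespace Pool.Agent.TWIV

open Pool.Agent.H15JM (RVal)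
open Pool.Agent.LU1 (VPos adj)
open Pool.Agent.D2 (Ctx0)
open Pool.Agent.D2P (hen clI mem_clI)
open Pool.Agent.TWM Pool.Agent.TWS
open Pool.Agent.TWC (Tow Nul Cau)

universe u

variable {k Ω : Type u} [Field k] [Field Ω] [Algebra k Ω] {v : RVal Ω} [hcx : Fact (Ctx0 k v)]
  {N L A B : IntermediateField k Ω} {G : AddSubgroup ℝ} {M : ℝ → Ω} {p : ℕ}
  [hp : Fact p.Prime] [CharP k p] [CharP Ω p] [PerfectRing k p] [IsAlgClosed k] [IsAlgClosed Ω]

namespace World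

variable (W : World p v N L G M) (hΩ : CompleteV v)

/-- The floor `1`, the value group saturated prime to `p`. -/
theorem fv_one_sat (hsat : ∀ n : ℕ, ¬ p ∣ n → ∀ g ∈ G, (n : ℝ) * g ∈ VG v N → g ∈ VG v N)
    {δ : ℝ} {u z : Ω} (hδ : δ ∈ G) (hu : u ∈ L)
    (hzu : z = M δ * u) (hz : TL v (PM v N G M) z 0) {Y : Ω}
    (hY : Y ∈ PM v L G M) (hl : Lim v (cadj v (PM v N G M) z) 0 Y)
    (h : Nr v (cadj v (PM v N G M) z) 0 (Y ^ p - W.pj hΩ 0 Y)) :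
    ∃ b ∈ cadj v (PM v N G M) z, Lim v (PM v N G M) 0 (Y - b) := by
  have hzT : z ∈ PM v L G M := by
    rw [hzu]
    exact mul_mem (PM.mon hδ) (PM.le hu)
  by_cases hd : δ ∈ VG v N
  · refine W.fv_deg0 hΩ ?_ hz hY hl h
    rw [hzu]
    exact mul_mem (W.NL (W.mon.mem δ hδ hd)) hu
  · exact W.fv_hom hΩ hδ hu hzu hzT hz (fun n hn hnδ => hd (hsat n hn δ hδ hnδ)) hY hl h

/-- `π_0` of an operator of radius `0`. -/
theorem pj0_ev0 {r : ℝ} (hr : r ∈ G) {w : Ω} (hw : w ∈ L) (P : k[X]) :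
    W.pj hΩ 0 (TWM.ev p M r 0 P w) = TWM.ev p M r 0 (clsPart p (VG v N) r 0 0 P) w := by
  have h := W.pj0_ev hΩ G.zero_mem hw (P := P) (r := r) (R := 0) fun j _ => by
    rw [zero_sub]
    refine G.neg_mem ?_
    have := G.nsmul_mem hr (p ^ j)
    rwa [nsmul_eq_mul, Nat.cast_pow] at this
  rwa [neg_zero, W.ms.zero, one_mul, sub_zero] at h

theorem nr'_pj0z (hNA : N ≤ A) (hAL : A ≤ L) (hA : Cld v A) {x : Ω}
    (hx : x ∈ PM v L G M) (h : Nr' v (PM v A G M) 0 x) :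
    Nr' v (PM v A G M) 0 (W.pj hΩ 0 x) := by
  have h1 := W.nr'_pj0 hΩ hNA hAL hA G.zero_mem hx h
  rwa [neg_zero, W.ms.zero, one_mul, sub_zero] at h1

/-- **`FVB` over `E⟨a₁⟩`.** -/
theorem fvb_first (hsat : ∀ n : ℕ, ¬ p ∣ n → ∀ g ∈ G, (n : ℝ) * g ∈ VG v N → g ∈ VG v N)
    {m : ℕ} {S : Finset (Fin m)} {r : Fin m → ℝ} {u : Fin m → Ω} (hr : ∀ i, r i ∈ G)
    (hu : ∀ i ∈ S, u i ∈ L)
    (h : ZBas k p M v (PM v N G M) (PM v L G M) S (fun i => M (-(r i)) * u i)) {i₁ : Fin m}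
    (hi₁ : i₁ ∈ S) (ht : TL v (PM v N G M) (M (-(r i₁)) * u i₁) 0) :
    FVB p v (PM v L G M) (PM v (cadj v N (u i₁)) G M) (W.pj hΩ 0) := by
  classical
  have hk : Ctx0 k v := hcx.out
  have hP := (W.isPj hΩ 0).prj
  have hnr : ∀ i, -(r i) ∈ G := fun i => G.neg_mem (hr i)
  have hPM := W.PM_cadj (hnr i₁) (rfl : M (-(r i₁)) * u i₁ = M (-(r i₁)) * u i₁)
  have hAL : cadj v N (u i₁) ≤ L := TWM.cadj_le W.cldL W.NL (hu i₁ hi₁)
  have hE₁T : PM v (cadj v N (u i₁)) G M ≤ PM v L G M := PM.mono hAL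
  have hME : ∀ g ∈ G, M g ∈ PM v N G M := fun g hg => PM.mon hg
  have hvE : ∀ b ∈ PM v N G M, b ≠ 0 → v b ∈ G := fun b hb hb0 => W.val_T (W.E_le_T hb) hb0
  intro Y hY hl hrel
  obtain ⟨b, hb, h1⟩ : ∃ b ∈ PM v (cadj v N (u i₁)) G M, Lim v (PM v N G M) 0 (Y - b) := by
    rw [hPM] at hl hrel ⊢
    exact W.fv_one_sat hΩ hsat (hnr i₁) (hu i₁ hi₁) rfl ht hY hl hrel
  have hbT : b ∈ PM v L G M := hE₁T hb
  have hyT : Y - b ∈ PM v L G M := sub_mem hY hbT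
  -- the relation for `y = Y - b`
  have h2 : Nr' v (PM v (cadj v N (u i₁)) G M) 0 ((Y - b) ^ p - W.pj hΩ 0 (Y - b)) := by
    have h3 : b ^ p - W.pj hΩ 0 b ∈ PM v (cadj v N (u i₁)) G M :=
      sub_mem (pow_mem hb p) (W.pj_mem hΩ (le_cadj v N _) hAL (cld_cadj v N _) 0 hb)
    have h4 := nr'_sub (Nr.nr' hrel) (Nr'.self (r := 0) h3)
    rw [hP.sub hY hbT, sub_pow_char]
    rwa [show Y ^ p - b ^ p - (W.pj hΩ 0 Y - W.pj hΩ 0 b) =
      Y ^ p - W.pj hΩ 0 Y - (b ^ p - W.pj hΩ 0 b) by ring]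
  obtain ⟨P, hPs⟩ := h.span _ hyT h1
  have hmem : ∀ i ∈ S, ∀ Q : k[X], TWM.ev p M (r i) 0 Q (u i) ∈ PM v L G M := by
    intro i hi Q
    rw [ev_shift (p := p) W.ms (hr i), ev00_fev W.ms]
    exact fev_mem Q (h.mem i hi)
  have hsum : ∀ Q : Fin m → k[X], ∑ i ∈ S, TWM.ev p M 0 0 (Q i) (M (-(r i)) * u i) =
      ∑ i ∈ S, TWM.ev p M (r i) 0 (Q i) (u i) := fun Q =>
    Finset.sum_congr rfl fun i _ => (ev_shift (p := p) W.ms (hr i) (Q i) (u i)).symm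
  -- the projection
  have h5 : Nr' v (PM v N G M) 0 (W.pj hΩ 0 (Y - b) -
      ∑ i ∈ S, TWM.ev p M 0 0 (clsPart p (VG v N) (r i) 0 0 (P i)) (M (-(r i)) * u i)) := by
    have h6 := W.nr'_pj0z hΩ le_rfl W.NL W.cldN (sub_mem hyT (sum_mem fun i hi => by
      rw [← ev_shift (p := p) W.ms (hr i)]
      exact hmem i hi (P i))) hPs
    rw [hsum, hP.sub hyT (sum_mem fun i hi => hmem i hi (P i)),
      hP.sum _ fun i hi => hmem i hi (P i),
      Finset.sum_congr rfl fun i hi => W.pj0_ev0 hΩ (hr i) (hu i hi) (P i)] at h6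
    rwa [hsum]
  -- the power
  have h6 : Nr' v (PM v N G M) 0 ((Y - b) ^ p -
      ∑ i ∈ S, TWM.ev p M 0 0 (tw p X (P i)) (M (-(r i)) * u i)) := by
    have h7 := nr'_ev00 (p := p) hk W.ms hME X hPs
    have hX : ∀ l : Ω, TWM.ev p M 0 0 (X : k[X]) l = l ^ p := fun l => by
      rw [ev00_fev W.ms]
      have := fev_X_pow (k := k) (p := p) 1 l
      rwa [pow_one, pow_one] at this
    rw [ev_sub_right, ev00_sum,
      Finset.sum_congr rfl fun i _ => (ev00_tw W.ms X (P i) (M (-(r i)) * u i)).symm, hX] at h7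
    exact h7
  have hEE₁ : PM v N G M ≤ PM v (cadj v N (u i₁)) G M := PM.mono (le_cadj v N _)
  have h7 : Nr' v (PM v (cadj v N (u i₁)) G M) 0 (∑ i ∈ S, TWM.ev p M 0 0
      (tw p X (P i) - clsPart p (VG v N) (r i) 0 0 (P i)) (M (-(r i)) * u i)) := by
    have h8 := nr'_sub h2 (Nr'.mono (nr'_sub h6 h5) hEE₁)
    rw [Finset.sum_congr rfl fun i _ => ev_sub (p := p) (M := M) (s := 0) (r := 0) _ _ _,
      Finset.sum_sub_distrib]
    rwa [sub_sub_sub_comm, sub_sub_cancel, sub_sub_cancel] at h8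
  rw [hPM] at h7
  have h8 := h.free1 W.ms hME hvE hi₁ ht _ h7
  have h9 : ∀ i ∈ S, i ≠ i₁ → P i = 0 := by
    intro i hi hne
    by_contra h10
    have h11 := sub_eq_zero.1 (h8 i hi hne)
    have h12 := tw_natDegree (p := p) (f := (X : k[X])) (g := P i) X_ne_zero h10
    rw [h11, natDegree_X] at h12
    have h13 : (clsPart p (VG v N) (r i) 0 0 (P i)).natDegree ≤ (P i).natDegree := by
      rw [natDegree_le_iff_coeff_eq_zero]
      intro j hj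
      rw [clsPart_coeff, coeff_eq_zero_of_natDegree_lt hj, ite_self]
    omega
  have h10 : ∑ i ∈ S, TWM.ev p M 0 0 (P i) (M (-(r i)) * u i) =
      TWM.ev p M 0 0 (P i₁) (M (-(r i₁)) * u i₁) :=
    Finset.sum_eq_single i₁ (fun i hi hne => by rw [h9 i hi hne, ev_zero])
      fun h => absurd hi₁ h
  rw [h10] at hPs
  have h11 : TWM.ev p M 0 0 (P i₁) (M (-(r i₁)) * u i₁) ∈ PM v (cadj v N (u i₁)) G M := by
    rw [hPM, ev00_fev W.ms]
    exact fev_mem _ (self_mem_cadj v _ _)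
  have h12 := nr'_add (nr'_add (Nr'.mono hPs hEE₁) (Nr'.self (r := 0) h11)) (Nr'.self (r := 0) hb)
  rw [sub_add_cancel, sub_add_cancel] at h12
  exact Nr'.nr h12

end World

end Pool.Agent.TWIV
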