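import Pool.Agent.Lib.TWIV.GMW

/-!
# TANK W, leaf (IV): the graded module of the limits of a graded field, part 2

* `GM.FV_of_P`, `GM.P_of_FV`: (P) and the absence of exotic relations;
* `World.ftb_iff`, `World.fvb_iff`, `World.fvb_iff_P`: `FTB` and `FVB` as properties of `W.gm`;
* `World.exists_free_fam`: every finite family is in the span of a homogeneous free family;
* `World.exists_basis_gmW2`: if `W.gm` is finitely generated then it has a homogeneous basis;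
* `incl`: the map of `MQ v T B` to `MQ v T B'`, `B ≤ B'`.
-/

set_option autoImplicit false
set_option linter.unusedSectionVars false

open Polynomial

namespace Pool.Agent.TWIV

open Pool.Agent.H15JM (RVal)
open Pool.Agent.LU1 (VPos adj)
open Pool.Agent.D2 (Ctx0)
open Pool.Agent.D2P (hen clI mem_clI)
open Pool.Agent.TWM Pool.Agent.TWC Pool.Agent.TWS Pool.Agent.TWT

namespace H28.GM

variable {k : Type*} [Field k] {p : ℕ} {A V : Type*} [AddCommGroup A] [AddCommGroup V]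
  [Module k V] (G : H28.GM k p A V)

theorem F_mem_span {ι : Type*} (e : ι → V) {m : V}
    (hm : m ∈ Submodule.span k (Set.range fun x : ι × ℕ => G.F^[x.2] (e x.1))) :
    G.F m ∈ Submodule.span k (Set.range fun x : ι × ℕ => G.F^[x.2] (e x.1)) := by
  induction hm using Submodule.span_induction with
  | mem m h =>
    obtain ⟨⟨i, n⟩, rfl⟩ := h
    refine Submodule.subset_span ⟨(i, n + 1), ?_⟩
    exact Function.iterate_succ_apply' _ _ _
  | zero =>
    rw [map_zero]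
    exact zero_mem _
  | add a b _ _ ha hb =>
    rw [map_add]
    exact add_mem ha hb
  | smul c a _ ha =>
    rw [G.F_smul]
    exact Submodule.smul_mem _ _ ha

theorem iter_mem_span {ι : Type*} (e : ι → V) {m : V}
    (hm : m ∈ Submodule.span k (Set.range fun x : ι × ℕ => G.F^[x.2] (e x.1))) (n : ℕ) :
    G.F^[n] m ∈ Submodule.span k (Set.range fun x : ι × ℕ => G.F^[x.2] (e x.1)) := by
  induction n with
  | zero => exact hm
  | succ n ih =>
    rw [Function.iterate_succ_apply']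
    exact G.F_mem_span e ih

theorem op_mem_span {ι : Type*} (e : ι → V) {m : V}
    (hm : m ∈ Submodule.span k (Set.range fun x : ι × ℕ => G.F^[x.2] (e x.1))) (P : k[X]) :
    G.op P m ∈ Submodule.span k (Set.range fun x : ι × ℕ => G.F^[x.2] (e x.1)) :=
  G.op_mem (fun _ h => G.F_mem_span e h) hm P

/-- The components of the elements with `F m = pr 0 m`. -/
theorem pr_of_F (hFT : ∀ m, G.F m = 0 → m = 0) {m : V} (h : G.F m = G.pr 0 m) {c : A}
    (hc : p • c ≠ 0) : G.pr c m = 0 := by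
  classical
  obtain ⟨S, hS⟩ := G.dec m
  set z : V := ∑ c' ∈ S with p • c' = p • c, G.pr c' m with hz
  have h1 : G.F z = 0 := by
    have h2 : G.pr (p • c) (G.F m) = G.F z := by
      conv_lhs => rw [← hS]
      rw [map_sum, map_sum, hz, map_sum, Finset.sum_filter]
      refine Finset.sum_congr rfl fun c' _ => ?_
      have h3 : G.Hom (p • c') (G.F (G.pr c' m)) := Hom.F (G.pr_same c' m)
      split_ifs with h4
      · rw [← h4]
        exact h3
      · exact h3.pr_ne fun h5 => h4 h5.symm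
    rw [← h2, h]
    exact G.pr_ne _ _ _ hc
  have h2 := hFT z h1
  have h3 : G.pr c z = if c ∈ S then G.pr c m else 0 := by
    rw [hz, map_sum]
    split_ifs with hcS
    · rw [Finset.sum_eq_single c]
      · exact G.pr_same c m
      · intro c' _ hne
        exact G.pr_ne _ _ _ (Ne.symm hne)
      · intro h4
        exact absurd (Finset.mem_filter.2 ⟨hcS, rfl⟩ : c ∈ S.filter fun c' => p • c' = p • c) h4
    · refine Finset.sum_eq_zero fun c' hc' => G.pr_ne _ _ _ ?_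
      rintro rfl
      exact hcS (Finset.mem_filter.1 hc').1
  by_cases hcS : c ∈ S
  · rw [if_pos hcS, h2, map_zero] at h3
    exact h3.symm
  · rw [← hS, map_sum]
    refine Finset.sum_eq_zero fun c' hc' => G.pr_ne _ _ _ ?_
    rintro rfl
    exact hcS hc'

/-- No exotic relation, from (P). -/
theorem FV_of_P (hFT : ∀ m, G.F m = 0 → m = 0)
    (hP : ∀ q x : V, G.Hom 0 q → (∀ c', (c' = 0 ∨ p • c' ≠ 0) → G.pr c' x = 0) →
      G.F q - q = G.F x → q = 0) {m : V} (h : G.F m = G.pr 0 m) : m = 0 := by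
  have h0 : G.Hom 0 (G.pr 0 m) := G.pr_same 0 m
  have h1 := hP (G.pr 0 m) (G.pr 0 m - m) h0 (fun c' hc' => by
    rw [map_sub]
    by_cases hc : c' = 0
    · rw [hc, G.pr_same, sub_self]
    · rw [G.pr_ne _ _ _ hc, G.pr_of_F hFT h (hc'.resolve_left hc), sub_self]) (by
    rw [map_sub, h])
  rw [h1] at h
  exact hFT m h

/-- (P), if there is no exotic relation. -/
theorem P_of_FV (hFV : ∀ m, G.F m = G.pr 0 m → m = 0) {q x : V} (hq : G.Hom 0 q)
    (hx : ∀ c', (c' = 0 ∨ p • c' ≠ 0) → G.pr c' x = 0) (h : G.F q - q = G.F x) : q = 0 := by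
  have hx0 : G.pr 0 x = 0 := hx 0 (Or.inl rfl)
  have h1 : q - x = 0 := hFV _ (by
    rw [map_sub, map_sub, hx0, sub_zero, ← h, sub_sub_cancel]
    exact hq.symm)
  have h2 : G.pr 0 q = 0 := by rw [sub_eq_zero.1 h1, hx0]
  rw [← h2]
  exact hq.symm

end H28.GM

universe u

variable {k Ω : Type u} [Field k] [Field Ω] [Algebra k Ω] {v : RVal Ω} [Fact (Ctx0 k v)]
  {N L A A' B B' T : IntermediateField k Ω} {G : AddSubgroup ℝ} {M : ℝ → Ω} {p : ℕ}

/-! ### The change of the field -/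

theorem LimS_mono (h : B ≤ B') : LimS v T B ≤ LimS v T B' := fun _ hx =>
  ⟨hx.1, fun ε hε => by
    obtain ⟨a, ha, h1⟩ := hx.2 ε hε
    exact ⟨a, h ha, h1⟩⟩

theorem NrS_mono (h : B ≤ B') : NrS v T B ≤ NrS v T B' := fun _ hx =>
  ⟨hx.1, by
    obtain ⟨a, ha, h1⟩ := hx.2
    exact ⟨a, h ha, h1⟩⟩

/-- The map of the modules, `B ≤ B'`. -/
noncomputable def incl (v : RVal Ω) [Fact (Ctx0 k v)] (T : IntermediateField k Ω) (h : B ≤ B') :
    MQ v T B →ₗ[k] MQ v T B' :=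
  Submodule.mapQ _ _ (Submodule.inclusion (LimS_mono h)) fun x hx => by
    rw [Submodule.mem_comap] at hx ⊢
    rw [Submodule.mem_comap]
    exact NrS_mono h hx

theorem incl_cl (h : B ≤ B') {x : Ω} (hx : x ∈ LimS v T B) :
    incl v T h (cl hx) = cl (LimS_mono h hx) := rfl

theorem incl_eq_zero (h : B ≤ B') {x : Ω} (hx : x ∈ LimS v T B) :
    incl v T h (cl hx) = 0 ↔ Nr v B' 0 x := by
  rw [incl_cl, cl_eq_zero]

namespace World

variable (W : World p v N L G M) (hΩ : CompleteV v)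
variable [Fact p.Prime] [CharP k p] [CharP Ω p]

theorem incl_F (hNA : N ≤ A) (hAL : A ≤ L) (hA : Cld v A) (hNA' : N ≤ A') (hAL' : A' ≤ L)
    (hA' : Cld v A') (h : PM v A G M ≤ PM v A' G M) (m : MQ v (PM v L G M) (PM v A G M)) :
    incl v (PM v L G M) h ((W.gm hΩ hNA hAL hA).F m) =
      (W.gm hΩ hNA' hAL' hA').F (incl v (PM v L G M) h m) := by
  obtain ⟨x, hx, rfl⟩ := exists_cl m
  rw [W.gm_F hΩ hNA hAL hA, incl_cl, incl_cl, W.gm_F hΩ hNA' hAL' hA']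

theorem incl_pr (hNA : N ≤ A) (hAL : A ≤ L) (hA : Cld v A) (hNA' : N ≤ A') (hAL' : A' ≤ L)
    (hA' : Cld v A') (h : PM v A G M ≤ PM v A' G M) (c : ℝ ⧸ VG v N)
    (m : MQ v (PM v L G M) (PM v A G M)) :
    incl v (PM v L G M) h ((W.gm hΩ hNA hAL hA).pr c m) =
      (W.gm hΩ hNA' hAL' hA').pr c (incl v (PM v L G M) h m) := by
  obtain ⟨x, hx, rfl⟩ := exists_cl m
  rw [W.gm_pr hΩ hNA hAL hA, incl_cl, incl_cl, W.gm_pr hΩ hNA' hAL' hA']

theorem incl_op (hNA : N ≤ A) (hAL : A ≤ L) (hA : Cld v A) (hNA' : N ≤ A') (hAL' : A' ≤ L)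
    (hA' : Cld v A') (h : PM v A G M ≤ PM v A' G M) (P : k[X])
    (m : MQ v (PM v L G M) (PM v A G M)) :
    incl v (PM v L G M) h ((W.gm hΩ hNA hAL hA).op P m) =
      (W.gm hΩ hNA' hAL' hA').op P (incl v (PM v L G M) h m) := by
  have h1 : ∀ n, incl v (PM v L G M) h ((W.gm hΩ hNA hAL hA).F^[n] m) =
      (W.gm hΩ hNA' hAL' hA').F^[n] (incl v (PM v L G M) h m) := by
    intro n
    induction n with
    | zero => rfl
    | succ n ih =>
      rw [Function.iterate_succ_apply', W.incl_F hΩ hNA hAL hA hNA' hAL' hA' h, ih,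
        ← Function.iterate_succ_apply' (W.gm hΩ hNA' hAL' hA').F]
  rw [H28.GM.op_range _ _ _ (Nat.lt_succ_self _), H28.GM.op_range _ _ _ (Nat.lt_succ_self _),
    map_sum]
  exact Finset.sum_congr rfl fun j _ => by rw [map_smul, h1]

/-! ### `FTB` and `FVB` -/

theorem prD_zero_eq {x : Ω} (hx : x ∈ PM v L G M) :
    W.prD hΩ (0 : ℝ ⧸ VG v N) x = W.pj hΩ 0 x := by
  have h1 := W.prD_mk hΩ G.zero_mem hx
  have h2 : (QuotientAddGroup.mk (0 : ℝ) : ℝ ⧸ VG v N) = 0 := rfl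
  rw [h2] at h1
  rw [h1, prd, neg_zero, W.ms.zero, one_mul, one_mul]

theorem ftb_iff (hNA : N ≤ A) (hAL : A ≤ L) (hA : Cld v A) :
    FTB p v (PM v L G M) (PM v A G M) ↔ ∀ m, (W.gm hΩ hNA hAL hA).F m = 0 → m = 0 := by
  constructor
  · intro h m hm
    obtain ⟨x, hx, rfl⟩ := exists_cl m
    rw [W.gm_F hΩ hNA hAL hA, cl_eq_zero] at hm
    exact (cl_eq_zero hx).2 (h x hx.1 hx.2 hm)
  · intro h x hx hl hn
    have h1 : x ∈ LimS v (PM v L G M) (PM v A G M) := ⟨hx, hl⟩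
    refine (cl_eq_zero h1).1 (h _ ?_)
    rw [W.gm_F hΩ hNA hAL hA, cl_eq_zero]
    exact hn

theorem fvb_iff (hNA : N ≤ A) (hAL : A ≤ L) (hA : Cld v A) :
    FVB p v (PM v L G M) (PM v A G M) (W.pj hΩ 0) ↔
      ∀ m, (W.gm hΩ hNA hAL hA).F m = (W.gm hΩ hNA hAL hA).pr 0 m → m = 0 := by
  constructor
  · intro h m hm
    obtain ⟨x, hx, rfl⟩ := exists_cl m
    rw [W.gm_F hΩ hNA hAL hA, W.gm_pr hΩ hNA hAL hA, cl_eq, W.prD_zero_eq hΩ hx.1] at hm
    exact (cl_eq_zero hx).2 (h x hx.1 hx.2 hm)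
  · intro h x hx hl hn
    have h1 : x ∈ LimS v (PM v L G M) (PM v A G M) := ⟨hx, hl⟩
    refine (cl_eq_zero h1).1 (h _ ?_)
    rw [W.gm_F hΩ hNA hAL hA, W.gm_pr hΩ hNA hAL hA, cl_eq, W.prD_zero_eq hΩ hx]
    exact hn

/-- `FVB` and (P). -/
theorem fvb_iff_P (hNA : N ≤ A) (hAL : A ≤ L) (hA : Cld v A)
    (hFT : FTB p v (PM v L G M) (PM v A G M)) :
    FVB p v (PM v L G M) (PM v A G M) (W.pj hΩ 0) ↔
      ∀ q x : MQ v (PM v L G M) (PM v A G M), (W.gm hΩ hNA hAL hA).Hom 0 q →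
        (∀ c', (c' = 0 ∨ p • c' ≠ 0) → (W.gm hΩ hNA hAL hA).pr c' x = 0) →
        (W.gm hΩ hNA hAL hA).F q - q = (W.gm hΩ hNA hAL hA).F x → q = 0 := by
  rw [W.fvb_iff hΩ hNA hAL hA]
  constructor
  · intro h q x hq hx h1
    exact H28.GM.P_of_FV _ h hq hx h1
  · intro h m hm
    exact H28.GM.FV_of_P _ ((W.ftb_iff hΩ hNA hAL hA).1 hFT) h hm

/-! ### Free families -/

/-- **Each finite family is in the span of a homogeneous free family.** -/
theorem exists_free_fam [IsAlgClosed k] (hGN : ∀ g ∈ G, ∃ n : ℕ, (p : ℝ) ^ n * g ∈ VG v N)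
    {g₀ : ℝ} (hg₀ : g₀ ∈ VG v N) (hg₀' : g₀ / p ∉ VG v N)
    (hG : ∀ g ∈ VG v N, ∃ l < p, ∃ g' ∈ VG v N, g = l * g₀ + p * g')
    (hNA : N ≤ A) (hAL : A ≤ L) (hA : Cld v A)
    (hFT : FTB p v (PM v L G M) (PM v A G M))
    (hFV : FVB p v (PM v L G M) (PM v A G M) (W.pj hΩ 0))
    {κ : Type*} [Finite κ] (y : κ → MQ v (PM v L G M) (PM v A G M)) :
    ∃ (n : ℕ) (e : Fin n → MQ v (PM v L G M) (PM v A G M)) (δ : Fin n → ℝ ⧸ VG v N),
      (∀ i, (W.gm hΩ hNA hAL hA).Hom (δ i) (e i)) ∧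
      LinearIndependent k (fun x : Fin n × ℕ => (W.gm hΩ hNA hAL hA).F^[x.2] (e x.1)) ∧
      ∀ j, y j ∈ Submodule.span k
        (Set.range fun x : Fin n × ℕ => (W.gm hΩ hNA hAL hA).F^[x.2] (e x.1)) := by
  classical
  have := Fintype.ofFinite κ
  set V := W.gm hΩ hNA hAL hA with hV
  choose S hS using fun j => V.dec (y j)
  -- the homogeneous components
  set H : Finset (MQ v (PM v L G M) (PM v A G M)) :=
    (Finset.univ.biUnion fun j => (S j).image fun c => V.pr c (y j)).filter (· ≠ 0) with hH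
  have hHom : ∀ m : H, ∃ g ∈ G, ∃ (l : Ω) (_ : l ∈ L)
      (hx : M g * l ∈ LimS v (PM v L G M) (PM v A G M)), (m : MQ v _ _) = cl hx := by
    rintro ⟨m, hm⟩
    obtain ⟨h1, h2⟩ := Finset.mem_filter.1 hm
    obtain ⟨j, -, h3⟩ := Finset.mem_biUnion.1 h1
    obtain ⟨c, -, rfl⟩ := Finset.mem_image.1 h3
    obtain ⟨g, hg, -, l, hl, hx, h4⟩ := W.exists_hom hΩ hNA hAL hA (V.pr_same c (y j)) h2
    exact ⟨g, hg, l, hl, hx, h4⟩
  choose g hg l hl hx hcl using hHom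
  obtain ⟨S', e, h1, h2, h3⟩ := W.exists_free_hom hΩ hGN hg₀ hg₀' hG hNA hAL hA hFT hFV g l hg hl hx
  -- to `Fin n`
  set φ := S'.equivFin with hφ
  have hrange : (Set.range fun x : Fin S'.card × ℕ => V.F^[x.2] (e (φ.symm x.1))) =
      Set.range fun x : S' × ℕ => V.F^[x.2] (e x.1) := by
    ext m
    constructor
    · rintro ⟨⟨i, n⟩, rfl⟩
      exact ⟨(φ.symm i, n), rfl⟩
    · rintro ⟨⟨i, n⟩, rfl⟩
      exact ⟨(φ i, n), by simp⟩
  refine ⟨S'.card, fun i => e (φ.symm i), fun i => QuotientAddGroup.mk (g (φ.symm i : S')),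
    fun i => h1 _, ?_, fun j => ?_⟩
  · have h4 := h2.comp (fun x : Fin S'.card × ℕ => ((φ.symm x.1 : S'), x.2)) (by
      rintro ⟨i, n⟩ ⟨i', n'⟩ h
      simp only [Prod.mk.injEq, EmbeddingLike.apply_eq_iff_eq] at h
      exact Prod.ext h.1 h.2)
    exact h4
  · rw [hrange, ← hS j]
    refine Submodule.sum_mem _ fun c hc => ?_
    by_cases h0 : V.pr c (y j) = 0
    · rw [h0]
      exact zero_mem _
    · have h4 : V.pr c (y j) ∈ H := Finset.mem_filter.2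
        ⟨Finset.mem_biUnion.2 ⟨j, Finset.mem_univ _, Finset.mem_image_of_mem _ hc⟩, h0⟩
      have h5 := h3 ⟨_, h4⟩
      rwa [← hcl] at h5

/-- **A homogeneous basis, if the module is finitely generated.** -/
theorem exists_basis_gmW2 [IsAlgClosed k] (hGN : ∀ g ∈ G, ∃ n : ℕ, (p : ℝ) ^ n * g ∈ VG v N)
    {g₀ : ℝ} (hg₀ : g₀ ∈ VG v N) (hg₀' : g₀ / p ∉ VG v N)
    (hG : ∀ g ∈ VG v N, ∃ l < p, ∃ g' ∈ VG v N, g = l * g₀ + p * g')
    (hNA : N ≤ A) (hAL : A ≤ L) (hA : Cld v A)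
    (hFT : FTB p v (PM v L G M) (PM v A G M))
    (hFV : FVB p v (PM v L G M) (PM v A G M) (W.pj hΩ 0))
    {κ : Type*} [Finite κ] (y : κ → MQ v (PM v L G M) (PM v A G M))
    (hy : Submodule.span k (Set.range fun x : κ × ℕ => (W.gm hΩ hNA hAL hA).F^[x.2] (y x.1)) = ⊤) :
    ∃ (n : ℕ) (e : Fin n → MQ v (PM v L G M) (PM v A G M)) (δ : Fin n → ℝ ⧸ VG v N),
      (∀ i, (W.gm hΩ hNA hAL hA).Hom (δ i) (e i)) ∧
      LinearIndependent k (fun x : Fin n × ℕ => (W.gm hΩ hNA hAL hA).F^[x.2] (e x.1)) ∧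
      Submodule.span k
        (Set.range fun x : Fin n × ℕ => (W.gm hΩ hNA hAL hA).F^[x.2] (e x.1)) = ⊤ := by
  obtain ⟨n, e, δ, h1, h2, h3⟩ := W.exists_free_fam hΩ hGN hg₀ hg₀' hG hNA hAL hA hFT hFV y
  refine ⟨n, e, δ, h1, h2, ?_⟩
  rw [eq_top_iff, ← hy, Submodule.span_le]
  rintro _ ⟨⟨j, m⟩, rfl⟩
  exact H28.GM.iter_mem_span _ e (h3 j) m

/-- Sec. 2 of (1,2)': if `A₁ (F) y`, `A₁ 0 ≠ 0`, has all its components in `k{F} y`, then `y` is
the class of some `M g * l`. -/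
theorem hom_of_comps [IsAlgClosed k] (hGN : ∀ g ∈ G, ∃ n : ℕ, (p : ℝ) ^ n * g ∈ VG v N)
    {g₀ : ℝ} (hg₀ : g₀ ∈ VG v N) (hg₀' : g₀ / p ∉ VG v N)
    (hG : ∀ g ∈ VG v N, ∃ l < p, ∃ g' ∈ VG v N, g = l * g₀ + p * g')
    (hNA : N ≤ A) (hAL : A ≤ L) (hA : Cld v A)
    (hFT : FTB p v (PM v L G M) (PM v A G M))
    (hFV : FVB p v (PM v L G M) (PM v A G M) (W.pj hΩ 0))
    {y : MQ v (PM v L G M) (PM v A G M)} {A₁ : k[X]} (hA₁ : A₁.coeff 0 ≠ 0)
    (hc : ∀ d, ∃ P : k[X],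
      (W.gm hΩ hNA hAL hA).pr d ((W.gm hΩ hNA hAL hA).op A₁ y) = (W.gm hΩ hNA hAL hA).op P y) :
    ∃ c, (W.gm hΩ hNA hAL hA).Hom c y := by
  obtain ⟨n, e, δ, h1, h2, h3⟩ := W.exists_free_fam hΩ hGN hg₀ hg₀' hG hNA hAL hA hFT hFV
    (fun _ : Unit => y)
  exact H28.GM.homog_of_comps _ h1 h2 (h3 ()) (W.gm_tor hΩ hGN hNA hAL hA) hA₁ hc

end World

end Pool.Agent.TWIV
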