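import Pool.Agent.Lib.TWM.Op
import Pool.Agent.Lib.TWIV.H28

/-!
# TANK W, leaf (IV), shape (1,2)': the components of `y`, without torsion hypotheses

* `exists_mul`: a left multiple `P A₁`, `P 0 ≠ 0`, with all exponents divisible by `m`;
* `GM.comp_mem`: `W` a saturated `k{F}`-submodule, all components of `A₁ y` in `W` (`A₁ 0 ≠ 0`):
  all components of `y` are in `W`;
* `GM.homog_of_sat`: if they are in `k{F} y`, and form a free module, then `y` is homogeneous.
-/

set_option autoImplicit false
set_option linter.unusedSectionVars false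

open Polynomial Finset

namespace Pool.Agent.TWIV.H28

open Pool.Agent.TWM

universe u

section Mul

variable {k : Type u} [Field k] {p : ℕ} [Fact p.Prime] [CharP k p]

theorem exists_mul_aux (A₁ : k[X]) {m : ℕ} (hm : 0 < m) :
    ∃ P : k[X], P ≠ 0 ∧ ∀ i, ¬ m ∣ i → (tw p P A₁).coeff i = 0 := by
  classical
  set a := A₁.natDegree with ha
  set n' := (a + 1) * (m - 1) + 1 with hn'
  let Φ : (Fin n' → k) →ₗ[k] (Fin (a + 1) × Fin (m - 1) → k) :=
    { toFun := fun c x => ∑ j : Fin n', c j *
        (if (j : ℕ) ≤ m * x.1 + (x.2 + 1) then A₁.coeff (m * x.1 + (x.2 + 1) - j) ^ p ^ (j : ℕ)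
          else 0)
      map_add' := fun c c' => by
        funext x
        rw [Pi.add_apply, ← Finset.sum_add_distrib]
        exact Finset.sum_congr rfl fun j _ => by rw [Pi.add_apply, add_mul]
      map_smul' := fun r c => by
        funext x
        rw [Pi.smul_apply, RingHom.id_apply, smul_eq_mul, Finset.mul_sum]
        exact Finset.sum_congr rfl fun j _ => by rw [Pi.smul_apply, smul_eq_mul, mul_assoc] }
  have hker : LinearMap.ker Φ ≠ ⊥ := by
    refine LinearMap.ker_ne_bot_of_finrank_lt ?_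
    rw [Module.finrank_fin_fun, Module.finrank_fintype_fun_eq_card, Fintype.card_prod,
      Fintype.card_fin, Fintype.card_fin, hn']
    exact Nat.lt_succ_self _
  obtain ⟨c, hc, hc0⟩ := Submodule.exists_mem_ne_zero_of_ne_bot hker
  set P : k[X] := ∑ j : Fin n', C (c j) * X ^ (j : ℕ) with hP
  have hcoef : ∀ j : ℕ, P.coeff j = if h : j < n' then c ⟨j, h⟩ else 0 := by
    intro j
    rw [hP, finsetSum_coeff]
    split_ifs with h
    · rw [Finset.sum_eq_single ⟨j, h⟩]
      · rw [coeff_C_mul, coeff_X_pow, if_pos rfl, mul_one]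
      · intro i _ hi
        rw [coeff_C_mul, coeff_X_pow, if_neg, mul_zero]
        intro h'
        exact hi (Fin.ext h'.symm)
      · exact fun h' => absurd (Finset.mem_univ _) h'
    · refine Finset.sum_eq_zero fun i _ => ?_
      rw [coeff_C_mul, coeff_X_pow, if_neg, mul_zero]
      intro h'
      have := i.2
      omega
  have hdeg : P.natDegree ≤ (a + 1) * (m - 1) := by
    rw [natDegree_le_iff_coeff_eq_zero]
    intro j hj
    rw [hcoef, dif_neg (by omega)]
  refine ⟨P, ?_, fun i hi => ?_⟩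
  · intro h0
    refine hc0 (funext fun j => ?_)
    have h1 := hcoef j
    rw [h0, coeff_zero, dif_pos j.2] at h1
    exact h1.symm
  · by_cases hbig : m * (a + 1) ≤ i
    · refine coeff_eq_zero_of_natDegree_lt (lt_of_le_of_lt (tw_natDegree_le P A₁) ?_)
      have h1 : (a + 1) * (m - 1) + (a + 1) = m * (a + 1) := by
        obtain ⟨m', rfl⟩ : ∃ m', m = m' + 1 := ⟨m - 1, by omega⟩
        rw [Nat.add_sub_cancel]
        ring
      omega
    · push Not at hbig
      -- `i = m q + (r + 1)`
      have hmod : 0 < i % m := Nat.pos_of_ne_zero fun h => hi (Nat.dvd_of_mod_eq_zero h)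
      have hmod' : i % m < m := Nat.mod_lt _ hm
      have hq : i / m < a + 1 := Nat.div_lt_of_lt_mul hbig
      have hr : i % m - 1 < m - 1 := by omega
      have hi' : m * (i / m) + (i % m - 1 + 1) = i := by
        rw [Nat.sub_add_cancel hmod]
        exact Nat.div_add_mod i m
      have h1 : Φ c (⟨i / m, hq⟩, ⟨i % m - 1, hr⟩) = 0 := by
        rw [LinearMap.mem_ker.1 hc]
        rfl
      have h2 : Φ c (⟨i / m, hq⟩, ⟨i % m - 1, hr⟩) = ∑ j : Fin n', c j *
          (if (j : ℕ) ≤ i then A₁.coeff (i - j) ^ p ^ (j : ℕ) else 0) := by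
        change ∑ j : Fin n', c j * (if (j : ℕ) ≤ m * (i / m) + (i % m - 1 + 1) then
          A₁.coeff (m * (i / m) + (i % m - 1 + 1) - j) ^ p ^ (j : ℕ) else 0) = _
        rw [hi']
      rw [tw_coeff, ← h1, h2]
      have h3 : ∑ j : Fin n', c j * (if (j : ℕ) ≤ i then A₁.coeff (i - j) ^ p ^ (j : ℕ) else 0) =
          ∑ j ∈ Finset.range n', P.coeff j *
            (if j ≤ i then A₁.coeff (i - j) ^ p ^ j else 0) := by
        rw [Finset.sum_range]
        refine Finset.sum_congr rfl fun j _ => ?_
        rw [hcoef, dif_pos j.2]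
      rw [h3]
      have h4 : ∀ K : ℕ, n' ≤ K → i + 1 ≤ K → ∑ j ∈ Finset.range n', P.coeff j *
            (if j ≤ i then A₁.coeff (i - j) ^ p ^ j else 0) =
          ∑ j ∈ Finset.range (i + 1), P.coeff j * A₁.coeff (i - j) ^ p ^ j := by
        intro K h5 h6
        have e1 : ∑ j ∈ Finset.range n', P.coeff j *
            (if j ≤ i then A₁.coeff (i - j) ^ p ^ j else 0) = ∑ j ∈ Finset.range K, P.coeff j *
            (if j ≤ i then A₁.coeff (i - j) ^ p ^ j else 0) := by
          refine Finset.sum_subset (Finset.range_subset_range.mpr h5) fun j _ hj => ?_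
          rw [hcoef, dif_neg (by rwa [Finset.mem_range] at hj), zero_mul]
        have e2 : ∑ j ∈ Finset.range (i + 1), P.coeff j * A₁.coeff (i - j) ^ p ^ j =
            ∑ j ∈ Finset.range (i + 1), P.coeff j *
              (if j ≤ i then A₁.coeff (i - j) ^ p ^ j else 0) := by
          refine Finset.sum_congr rfl fun j hj => ?_
          rw [if_pos (Nat.lt_succ_iff.1 (Finset.mem_range.1 hj))]
        rw [e1, e2]
        symm
        refine Finset.sum_subset (Finset.range_subset_range.mpr h6) fun j _ hj => ?_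
        rw [if_neg, mul_zero]
        intro h7
        exact hj (Finset.mem_range.2 (Nat.lt_succ_of_le h7))
      exact (h4 (n' + (i + 1)) (by omega) (by omega)).symm

theorem coeff_divX_iter (P : k[X]) (s n : ℕ) : (divX^[s] P).coeff n = P.coeff (n + s) := by
  induction s generalizing n with
  | zero => rfl
  | succ s ih =>
    rw [Function.iterate_succ_apply', coeff_divX, ih]
    congr 1
    ring

/-- A left multiple `P A₁`, `P 0 ≠ 0`, with all exponents divisible by `m`. -/
theorem exists_mul [PerfectRing k p] {A₁ : k[X]} (h0 : A₁.coeff 0 ≠ 0) {m : ℕ} (hm : 0 < m) :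
    ∃ P : k[X], P.coeff 0 ≠ 0 ∧ ∀ i, ¬ m ∣ i → (tw p P A₁).coeff i = 0 := by
  classical
  have hp : p.Prime := Fact.out
  obtain ⟨P, hP, hPm⟩ := exists_mul_aux (p := p) A₁ hm
  set s := P.natTrailingDegree with hs
  have hPs : P.coeff s ≠ 0 := by
    rw [hs]
    exact (trailingCoeff_nonzero_iff_nonzero).2 hP
  have hlow : ∀ j, j < s → P.coeff j = 0 := fun j hj =>
    coeff_eq_zero_of_lt_natTrailingDegree hj
  have hsm : m ∣ s := by
    by_contra h
    have h1 := hPm s h
    rw [tw_coeff, Finset.sum_eq_single s] at h1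
    · rw [Nat.sub_self] at h1
      exact mul_ne_zero hPs (pow_ne_zero _ h0) h1
    · intro j hj hne
      have h2 := Finset.mem_range.1 hj
      rw [hlow j (by omega), zero_mul]
    · intro h2
      exact absurd (Finset.mem_range.2 (Nat.lt_succ_self s)) h2
  set P' : k[X] := (divX^[s] P).map ((iterateFrobeniusEquiv k p s).symm : k →+* k) with hP'
  have hc : ∀ j, P'.coeff j ^ p ^ s = P.coeff (j + s) := by
    intro j
    rw [hP', coeff_map, coeff_divX_iter]
    have h1 := (iterateFrobeniusEquiv k p s).apply_symm_apply (P.coeff (j + s))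
    rw [iterateFrobeniusEquiv_def] at h1
    exact h1
  refine ⟨P', ?_, fun i hi => ?_⟩
  · intro h1
    have h2 := hc 0
    rw [h1, zero_pow (pow_ne_zero _ hp.ne_zero), zero_add] at h2
    exact hPs h2.symm
  · have h1 : (tw p P' A₁).coeff i ^ p ^ s = (tw p P A₁).coeff (i + s) := by
      rw [tw_coeff, tw_coeff, sum_pow_char_pow]
      have h2 : ∑ j ∈ Finset.range (i + s + 1), P.coeff j * A₁.coeff (i + s - j) ^ p ^ j =
          ∑ j ∈ Finset.range (i + 1), P.coeff (j + s) * A₁.coeff (i - j) ^ p ^ (j + s) := by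
        have e1 : i + s + 1 = s + (i + 1) := by ring
        rw [e1, Finset.sum_range_add, Finset.sum_eq_zero fun j hj => by
          rw [hlow j (Finset.mem_range.1 hj), zero_mul], zero_add]
        refine Finset.sum_congr rfl fun j _ => ?_
        have e2 : i + s - (s + j) = i - j := by omega
        rw [e2, add_comm s j]
      rw [h2]
      refine Finset.sum_congr rfl fun j _ => ?_
      rw [mul_pow, hc, ← pow_mul, ← pow_add]
    rw [hPm (i + s) fun h3 => hi ((Nat.dvd_add_left hsm).1 h3)] at h1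
    exact pow_eq_zero_iff (pow_ne_zero _ hp.ne_zero) |>.1 h1

end Mul

namespace GM

variable {k : Type u} [Field k] {p : ℕ} [Fact p.Prime] [CharP k p] {A V : Type*} [AddCommGroup A]
  [AddCommGroup V] [Module k V] (G : GM k p A V)

theorem F_iter_zero (j : ℕ) : G.F^[j] (0 : V) = 0 := by
  induction j with
  | zero => rfl
  | succ j ih => rw [Function.iterate_succ_apply, map_zero, ih]

theorem op_mono (a : k) (i : ℕ) (v : V) : G.op (C a * X ^ i) v = a • G.F^[i] v := by
  rw [op, C_mul_X_pow_eq_monomial, sum_monomial_index]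
  exact zero_smul k _

theorem op_add_right (P : k[X]) (v w : V) : G.op P (v + w) = G.op P v + G.op P w := by
  have h := Nat.lt_succ_self P.natDegree
  rw [G.op_range P _ h, G.op_range P _ h, G.op_range P _ h, ← Finset.sum_add_distrib]
  exact Finset.sum_congr rfl fun j _ => by rw [G.F_iter_add, smul_add]

theorem op_zero_right (P : k[X]) : G.op P (0 : V) = 0 := by
  rw [G.op_range P _ (Nat.lt_succ_self _)]
  exact Finset.sum_eq_zero fun j _ => by rw [G.F_iter_zero, smul_zero]

theorem op_neg_right (P : k[X]) (v : V) : G.op P (-v) = -G.op P v := by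
  have h := G.op_add_right P v (-v)
  rw [add_neg_cancel, G.op_zero_right] at h
  exact (neg_eq_of_add_eq_zero_right h.symm).symm

theorem op_sub_right (P : k[X]) (v w : V) : G.op P (v - w) = G.op P v - G.op P w := by
  rw [sub_eq_add_neg, G.op_add_right, G.op_neg_right, ← sub_eq_add_neg]

theorem op_sum_right {ι : Type*} (P : k[X]) (S : Finset ι) (f : ι → V) :
    G.op P (∑ i ∈ S, f i) = ∑ i ∈ S, G.op P (f i) := by
  classical
  induction S using Finset.induction_on with
  | empty => rw [Finset.sum_empty, Finset.sum_empty, G.op_zero_right]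
  | insert a S ha ih => rw [Finset.sum_insert ha, Finset.sum_insert ha, G.op_add_right, ih]

/-- The composition. -/
theorem op_tw (P Q : k[X]) (v : V) : G.op (tw p P Q) v = G.op P (G.op Q v) := by
  conv_lhs => rw [as_sum_support_C_mul_X_pow P, as_sum_support_C_mul_X_pow Q, tw_sum_left, op_sum]
  conv_rhs => rw [as_sum_support_C_mul_X_pow P, op_sum]
  refine Finset.sum_congr rfl fun i _ => ?_
  rw [tw_sum_right, op_sum]
  conv_rhs => rw [as_sum_support_C_mul_X_pow Q, op_sum, op_sum_right]
  refine Finset.sum_congr rfl fun j _ => ?_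
  rw [tw_mono, G.op_mono, G.op_mono, G.op_mono, G.F_iter_smul, ← Function.iterate_add_apply,
    mul_smul]

theorem op_one (v : V) : G.op 1 v = v := by
  rw [← C_1, G.op_C, one_smul]

theorem filt_zero_coeff (c : A) (P : k[X]) : (filt p c c P).coeff 0 = P.coeff 0 := by
  classical
  rw [coeff_filt, if_pos]
  rw [pow_zero, one_smul]

theorem smul_fix {c : A} {a : ℕ} (h : p ^ a • c = c) (t : ℕ) : p ^ (a * t) • c = c := by
  induction t with
  | zero => rw [mul_zero, pow_zero, one_smul]
  | succ t ih => rw [Nat.mul_succ, pow_add, mul_smul, h, ih]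

/-- **The components of `y`**: `W` a saturated `k{F}`-submodule, all components of `A₁ y` in `W`,
`A₁ 0 ≠ 0`: all components of `y` are in `W`. -/
theorem comp_mem [PerfectRing k p] {W : Submodule k V} (hF : ∀ w ∈ W, G.F w ∈ W)
    (hsat : ∀ (P : k[X]) (x : V), P ≠ 0 → G.op P x ∈ W → x ∈ W) {A₁ : k[X]}
    (h0 : A₁.coeff 0 ≠ 0) {y : V} (h : ∀ d, G.pr d (G.op A₁ y) ∈ W) (c : A) : G.pr c y ∈ W := by
  classical
  obtain ⟨S, hS⟩ := G.dec y
  have hout : ∀ c, c ∉ S → G.pr c y = 0 := by
    intro c hc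
    rw [← hS, map_sum]
    refine Finset.sum_eq_zero fun c' hc' => G.pr_ne _ _ _ ?_
    rintro rfl
    exact hc hc'
  -- the periods
  have hper0 : ∀ c : A, ∃ n : ℕ, 0 < n ∧ ((∃ j, 0 < j ∧ p ^ j • c = c) → p ^ n • c = c) := by
    intro c
    by_cases hc : ∃ j, 0 < j ∧ p ^ j • c = c
    · obtain ⟨j, hj, h1⟩ := hc
      exact ⟨j, hj, fun _ => h1⟩
    · exact ⟨1, one_pos, fun h => absurd h hc⟩
  choose n hn hnp using hper0
  set m := ∏ c ∈ S, n c with hm
  have hm0 : 0 < m := Finset.prod_pos fun c _ => hn c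
  have hper : ∀ c ∈ S, (∃ j, 0 < j ∧ p ^ j • c = c) → p ^ m • c = c := by
    intro c hc h1
    obtain ⟨t, ht⟩ := Finset.dvd_prod_of_mem n hc
    rw [hm, ht]
    exact smul_fix (hnp c h1) t
  obtain ⟨P, hP0, hPm⟩ := exists_mul (p := p) h0 hm0
  set Q := tw p P A₁ with hQ
  have hQ0 : Q.coeff 0 ≠ 0 := by
    rw [hQ, tw_coeff, Finset.sum_range_one, Nat.sub_zero, pow_zero, pow_one]
    exact mul_ne_zero hP0 h0
  have hQW : ∀ d, G.pr d (G.op Q y) ∈ W := by
    intro d
    rw [hQ, G.op_tw]
    obtain ⟨S', hS'⟩ := G.dec (G.op A₁ y)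
    rw [← hS', G.op_sum_right, map_sum]
    refine W.sum_mem fun d' _ => ?_
    rw [G.pr_op (G.pr_same d' _)]
    exact G.op_mem hF (h d') _
  -- the order
  let R : A → A → Prop := fun c' c => c' ≠ c ∧ ∃ j, 0 < j ∧ p ^ (m * j) • c' = c
  have hirr : ∀ c, ¬ R c c := fun c h => h.1 rfl
  have htrans : ∀ c'' ∈ S, ∀ c' c, R c'' c' → R c' c → R c'' c := by
    rintro c'' hc'' c' c ⟨h1, j, hj, h2⟩ ⟨h3, i, hi, h4⟩
    have h5 : p ^ (m * (i + j)) • c'' = c := by
      rw [mul_add, pow_add, mul_smul, h2, h4]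
    refine ⟨?_, i + j, by omega, h5⟩
    rintro rfl
    have h6 := hper c'' hc'' ⟨m * (i + j), Nat.mul_pos hm0 (by omega), h5⟩
    exact h1 (by rw [← h2, smul_fix h6])
  have key : ∀ (N : ℕ) (c : A), c ∈ S → (S.filter fun c' => R c' c).card = N → G.pr c y ∈ W := by
    intro N
    induction N using Nat.strong_induction_on with
    | _ N ih =>
      intro c hc hN
      have h1 := hQW c
      have h2 : G.pr c (G.op Q y) = ∑ c' ∈ S, G.op (filt p c' c Q) (G.pr c' y) := by
        conv_lhs => rw [← hS]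
        rw [G.op_sum_right, map_sum]
        exact Finset.sum_congr rfl fun c' _ => G.pr_op (G.pr_same c' y) c Q
      rw [h2, ← Finset.add_sum_erase S _ hc] at h1
      have h3 : ∑ c' ∈ S.erase c, G.op (filt p c' c Q) (G.pr c' y) ∈ W := by
        refine W.sum_mem fun c' hc' => ?_
        obtain ⟨hne, hc'S⟩ := Finset.mem_erase.1 hc'
        by_cases hf : filt p c' c Q = 0
        · rw [hf, G.op_zero]
          exact zero_mem _
        · obtain ⟨j, hj⟩ : ∃ j, (filt p c' c Q).coeff j ≠ 0 := by
            by_contra h4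
            push Not at h4
            exact hf (Polynomial.ext fun j => by rw [h4 j, coeff_zero])
          rw [coeff_filt] at hj
          by_cases h5 : p ^ j • c' = c
          · rw [if_pos h5] at hj
            have h6 : m ∣ j := by
              by_contra h7
              exact hj (hPm j h7)
            obtain ⟨t, rfl⟩ := h6
            have ht : 0 < t := by
              rcases Nat.eq_zero_or_pos t with h7 | h7
              · rw [h7, mul_zero, pow_zero, one_smul] at h5
                exact absurd h5 hne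
              · exact h7
            have hR : R c' c := ⟨hne, t, ht, h5⟩
            refine G.op_mem hF (ih _ ?_ c' hc'S rfl) _
            rw [← hN]
            refine Finset.card_lt_card ?_
            rw [Finset.ssubset_iff_of_subset]
            · exact ⟨c', Finset.mem_filter.2 ⟨hc'S, hR⟩, fun h8 =>
                hirr c' (Finset.mem_filter.1 h8).2⟩
            · intro c'' hc''
              obtain ⟨h8, h9⟩ := Finset.mem_filter.1 hc''
              exact Finset.mem_filter.2 ⟨h8, htrans c'' h8 c' c h9 hR⟩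
          · rw [if_neg h5] at hj
            exact absurd rfl hj
      have h4 : G.op (filt p c c Q) (G.pr c y) ∈ W := by
        have := W.sub_mem h1 h3
        rwa [add_sub_cancel_right] at this
      refine hsat _ _ ?_ h4
      intro h5
      apply hQ0
      rw [← filt_zero_coeff (p := p) c Q, h5, coeff_zero]
  by_cases hc : c ∈ S
  · exact key _ c hc rfl
  · rw [hout c hc]
    exact zero_mem _

/-! ### Cyclic submodules and bases -/

theorem op_C_mul (a : k) (P : k[X]) (v : V) : G.op (C a * P) v = a • G.op P v := by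
  have h1 : (C a * P).natDegree < P.natDegree + 1 := Nat.lt_succ_of_le (natDegree_C_mul_le a P)
  rw [G.op_range _ v h1, G.op_range P v (Nat.lt_succ_self _), Finset.smul_sum]
  exact Finset.sum_congr rfl fun j _ => by rw [coeff_C_mul, mul_smul]

theorem op_X_pow (n : ℕ) (v : V) : G.op (X ^ n) v = G.F^[n] v := by
  have h := G.op_mono 1 n v
  rwa [C_1, one_mul, one_smul] at h

/-- The submodule generated by `y`. -/
def cyc (y : V) : Submodule k V where
  carrier := {x | ∃ P : k[X], x = G.op P y}
  add_mem' := by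
    rintro _ _ ⟨P, rfl⟩ ⟨Q, rfl⟩
    exact ⟨P + Q, (G.op_add P Q y).symm⟩
  zero_mem' := ⟨0, (G.op_zero y).symm⟩
  smul_mem' := by
    rintro a _ ⟨P, rfl⟩
    exact ⟨C a * P, (G.op_C_mul a P y).symm⟩

theorem mem_cyc {x y : V} : x ∈ G.cyc y ↔ ∃ P : k[X], x = G.op P y := Iff.rfl

theorem cyc_self (y : V) : y ∈ G.cyc y := ⟨1, (G.op_one y).symm⟩

theorem cyc_op {x y : V} (h : x ∈ G.cyc y) (P : k[X]) : G.op P x ∈ G.cyc y := by
  obtain ⟨Q, rfl⟩ := h
  exact ⟨tw p P Q, (G.op_tw P Q y).symm⟩

theorem cyc_F {x y : V} (h : x ∈ G.cyc y) : G.F x ∈ G.cyc y := by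
  have h1 := G.op_X_pow 1 x
  rw [pow_one, Function.iterate_one] at h1
  rw [← h1]
  exact G.cyc_op h X

theorem span_le_cyc {κ : Type*} {f : κ → V} {y : V} (h : ∀ j, f j ∈ G.cyc y) :
    Submodule.span k (Set.range fun x : κ × ℕ => G.F^[x.2] (f x.1)) ≤ G.cyc y := by
  rw [Submodule.span_le]
  rintro _ ⟨⟨j, n⟩, rfl⟩
  have h1 := G.cyc_op (h j) (X ^ n)
  rw [G.op_X_pow] at h1
  exact h1

/-- The elements of the span of a family. -/
theorem exists_ops {ι : Type*} [Fintype ι] (e : ι → V) {y : V}
    (hy : y ∈ Submodule.span k (Set.range fun x : ι × ℕ => G.F^[x.2] (e x.1))) :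
    ∃ Y : ι → k[X], y = ∑ i, G.op (Y i) (e i) := by
  classical
  induction hy using Submodule.span_induction with
  | mem m h =>
    obtain ⟨⟨i, n⟩, rfl⟩ := h
    refine ⟨fun j => if j = i then X ^ n else 0, ?_⟩
    rw [Finset.sum_eq_single i]
    · dsimp only
      rw [if_pos rfl, G.op_X_pow]
    · intro j _ hj
      dsimp only
      rw [if_neg hj, G.op_zero]
    · exact fun h => absurd (Finset.mem_univ _) h
  | zero => exact ⟨fun _ => 0, by rw [Finset.sum_eq_zero fun i _ => G.op_zero _]⟩
  | add a b _ _ ha hb =>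
    obtain ⟨Y, rfl⟩ := ha
    obtain ⟨Y', rfl⟩ := hb
    refine ⟨fun i => Y i + Y' i, ?_⟩
    rw [← Finset.sum_add_distrib]
    exact Finset.sum_congr rfl fun i _ => (G.op_add _ _ _).symm
  | smul c a _ ha =>
    obtain ⟨Y, rfl⟩ := ha
    refine ⟨fun i => C c * Y i, ?_⟩
    rw [Finset.smul_sum]
    exact Finset.sum_congr rfl fun i _ => (G.op_C_mul _ _ _).symm

/-- The uniqueness of the coefficients. -/
theorem ops_zero {ι : Type*} [Fintype ι] {e : ι → V}
    (hli : LinearIndependent k (fun x : ι × ℕ => G.F^[x.2] (e x.1))) {Y : ι → k[X]}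
    (h : ∑ i, G.op (Y i) (e i) = 0) (i : ι) : Y i = 0 := by
  classical
  obtain ⟨K, hK⟩ : ∃ K : ℕ, ∀ i, (Y i).natDegree < K :=
    ⟨(Finset.univ.sup fun i => (Y i).natDegree) + 1, fun i =>
      Nat.lt_succ_of_le (Finset.le_sup (f := fun i => (Y i).natDegree) (Finset.mem_univ i))⟩
  have h1 : ∑ x ∈ (Finset.univ : Finset ι) ×ˢ Finset.range K,
      (Y x.1).coeff x.2 • G.F^[x.2] (e x.1) = 0 := by
    rw [Finset.sum_product, ← h]
    exact Finset.sum_congr rfl fun i _ => (G.op_range (Y i) (e i) (hK i)).symm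
  have h2 := linearIndependent_iff'.1 hli _ (fun x => (Y x.1).coeff x.2) h1
  ext n
  rw [coeff_zero]
  by_cases hn : n < K
  · exact h2 (i, n) (Finset.mem_product.2 ⟨Finset.mem_univ _, Finset.mem_range.2 hn⟩)
  · exact coeff_eq_zero_of_natDegree_lt (lt_of_lt_of_le (hK i) (not_lt.1 hn))

/-- `y` generates a free module: it is a multiple of an element of the basis. -/
theorem eq_smul_of_basis {ι : Type*} [Fintype ι] {e : ι → V}
    (hli : LinearIndependent k (fun x : ι × ℕ => G.F^[x.2] (e x.1))) {y : V}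
    (hy : y ∈ Submodule.span k (Set.range fun x : ι × ℕ => G.F^[x.2] (e x.1)))
    (hey : ∀ i, e i ∈ G.cyc y) (hy0 : y ≠ 0) : ∃ (i : ι) (a : k), a ≠ 0 ∧ y = a • e i := by
  classical
  obtain ⟨Y, hY⟩ := G.exists_ops e hy
  choose E hE using hey
  have h1 : ∀ i j, tw p (E i) (Y j) = if j = i then 1 else 0 := by
    intro i
    have h2 : ∑ j, G.op (tw p (E i) (Y j) - if j = i then 1 else 0) (e j) = 0 := by
      have e1 : ∑ j, G.op (tw p (E i) (Y j)) (e j) = e i := by
        conv_rhs => rw [hE i, hY, G.op_sum_right]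
        exact Finset.sum_congr rfl fun j _ => G.op_tw _ _ _
      have e2 : ∑ j, G.op (if j = i then 1 else 0 : k[X]) (e j) = e i := by
        rw [Finset.sum_eq_single i]
        · rw [if_pos rfl, G.op_one]
        · intro j _ hj
          rw [if_neg hj, G.op_zero]
        · exact fun h => absurd (Finset.mem_univ _) h
      have e3 : ∀ j, G.op (tw p (E i) (Y j) - if j = i then 1 else 0) (e j) =
          G.op (tw p (E i) (Y j)) (e j) - G.op (if j = i then 1 else 0 : k[X]) (e j) := by
        intro j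
        rw [sub_eq_add_neg, G.op_add, G.op_neg, ← sub_eq_add_neg]
      rw [Finset.sum_congr rfl fun j _ => e3 j, Finset.sum_sub_distrib, e1, e2, sub_self]
    intro j
    exact sub_eq_zero.1 (G.ops_zero hli h2 j)
  have hne : ∀ i, E i ≠ 0 ∧ Y i ≠ 0 := by
    intro i
    have h2 := h1 i i
    rw [if_pos rfl] at h2
    constructor
    · intro h3
      rw [h3, tw_zero_left] at h2
      exact zero_ne_one h2
    · intro h3
      rw [h3, tw_zero_right] at h2
      exact zero_ne_one h2
  have huniq : ∀ i j : ι, j = i := by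
    intro i j
    by_contra h
    have h2 := h1 i j
    rw [if_neg h] at h2
    exact tw_ne_zero (hne i).1 (hne j).2 h2
  obtain ⟨i⟩ : Nonempty ι := by
    by_contra h
    rw [not_nonempty_iff] at h
    rw [Finset.univ_eq_empty, Finset.sum_empty] at hY
    exact hy0 hY
  have h2 := h1 i i
  rw [if_pos rfl] at h2
  have h3 := (tw_eq_one h2).2
  have h4 : Y i = C ((Y i).coeff 0) := eq_C_of_natDegree_eq_zero h3
  refine ⟨i, (Y i).coeff 0, fun h5 => ?_, ?_⟩
  · rw [h5, C_0] at h4
    exact (hne i).2 h4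
  · rw [hY, Finset.sum_eq_single i]
    · rw [← G.op_C, ← h4]
    · exact fun j _ hj => absurd (huniq i j) hj
    · exact fun h => absurd (Finset.mem_univ _) h

end GM

end Pool.Agent.TWIV.H28
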