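import Pool.Agent.Lib.TWIV.GMW2
import Pool.Agent.Lib.TWIV.H28b
import Pool.Agent.Lib.TWIV.Top
import Pool.Agent.Lib.TWIV.GpH

/-!
# TANK W, leaf (IV): the graded module of the limits of a graded field, part 3: from `FreeB`

No condition on the torsion of the degrees.
* `World.exists_free_homB`, `exists_free_famB`, `exists_basisB`: homogeneous free families;
* `World.op_fev_gmW3`: the operators as `fev`;
* `World.homog`: sec. 2 of (1,2)'.
-/

set_option autoImplicit false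
set_option linter.unusedSectionVars false

open Polynomial

namespace Pool.Agent.TWIV

open Pool.Agent.H15JM (RVal)
open Pool.Agent.LU1 (VPos adj)
open Pool.Agent.D2 (Ctx0)
open Pool.Agent.D2P (hen clI mem_clI)
open Pool.Agent.TWM Pool.Agent.TWC Pool.Agent.TWS Pool.Agent.TWT

universe u

variable {k Ω : Type u} [Field k] [Field Ω] [Algebra k Ω] {v : RVal Ω} [Fact (Ctx0 k v)]
  {N L A A' B B' T : IntermediateField k Ω} {G : AddSubgroup ℝ} {M : ℝ → Ω} {p : ℕ}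

namespace World

variable (W : World p v N L G M) (hΩ : CompleteV v)
variable [Fact p.Prime] [CharP k p] [CharP Ω p]

/-- A homogeneous family over a homogeneous free one. -/
theorem exists_free_homB (hNA : N ≤ A) (hAL : A ≤ L) (hA : Cld v A)
    (hF : FreeB k p v L (PM v A G M) G M)
    {ι : Type} [Fintype ι] [DecidableEq ι] (g : ι → ℝ) (l : ι → Ω) (hg : ∀ i, g i ∈ G)
    (hl : ∀ i, l i ∈ L) (hx : ∀ i, M (g i) * l i ∈ LimS v (PM v L G M) (PM v A G M)) :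
    ∃ (S : Finset ι) (e : S → MQ v (PM v L G M) (PM v A G M)),
      (∀ i : S, (W.gm hΩ hNA hAL hA).Hom (QuotientAddGroup.mk (g i)) (e i)) ∧
      LinearIndependent k (fun x : S × ℕ => (W.gm hΩ hNA hAL hA).F^[x.2] (e x.1)) ∧
      (∀ i, cl (hx i) ∈
        Submodule.span k (Set.range fun x : S × ℕ => (W.gm hΩ hNA hAL hA).F^[x.2] (e x.1))) ∧
      ∀ i, e i ∈
        Submodule.span k (Set.range fun x : ι × ℕ => (W.gm hΩ hNA hAL hA).F^[x.2] (cl (hx x.1))) := by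
  classical
  have hMB : ∀ g ∈ G, M g ∈ PM v A G M := fun g hg => PM.mon hg
  have hB : N ≤ PM v A G M := hNA.trans PM.le
  have hL' : ∀ i, l i ∈ L ∧ Lim v (PM v A G M) (-g i) (l i) := fun i => by
    refine ⟨hl i, ?_⟩
    have h1 := W.lim_scale (G.neg_mem (hg i)) hMB (hx i).2
    rwa [zero_add, ← mul_assoc, W.M_neg_mul (hg i), one_mul] at h1
  obtain ⟨S, w, h1, h2, h3, h4⟩ := hF ι (fun i => -g i) l (fun i => G.neg_mem (hg i)) hL'
  have hw : ∀ i ∈ S, M (g i) * w i ∈ LimS v (PM v L G M) (PM v A G M) := fun i hi => by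
    refine ⟨mul_mem (PM.mon (hg i)) (PM.le (h1 i hi).1), ?_⟩
    have h5 := W.lim_scale (hg i) hMB (h1 i hi).2
    rwa [neg_add_cancel] at h5
  set V := W.gm hΩ hNA hAL hA with hV
  set e : S → MQ v (PM v L G M) (PM v A G M) := fun i => cl (hw i i.2) with he
  have hhom : ∀ i : S, V.Hom (QuotientAddGroup.mk (g i)) (e i) := fun i =>
    W.hom_mon hΩ hNA hAL hA (hg i) (h1 i i.2).1 (hw i i.2)
  refine ⟨S, e, hhom, ?_, ?_, ?_⟩
  · rw [linearIndependent_iff]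
    intro f hf
    ext ⟨i₀, n₀⟩
    -- a bound of the indices
    obtain ⟨K, hK⟩ : ∃ K : ℕ, ∀ (i : S) (n : ℕ), K ≤ n → f (i, n) = 0 := by
      refine ⟨(f.support.image Prod.snd).sup id + 1, fun i n hn => ?_⟩
      by_contra h
      have h5 : n ∈ f.support.image Prod.snd :=
        Finset.mem_image.2 ⟨(i, n), Finsupp.mem_support_iff.2 h, rfl⟩
      have h6 := Finset.le_sup (f := id) h5
      simp only [id] at h6
      omega
    set P0 : S → k[X] := fun i => ∑ n ∈ Finset.range K, C (f (i, n)) * X ^ n with hP0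
    have hcP0 : ∀ i n, (P0 i).coeff n = f (i, n) := by
      intro i n
      rw [hP0]
      dsimp only
      rw [finsetSum_coeff]
      by_cases h : n < K
      · rw [Finset.sum_eq_single n]
        · rw [coeff_C_mul, coeff_X_pow, if_pos rfl, mul_one]
        · intro m _ hm
          rw [coeff_C_mul, coeff_X_pow, if_neg (Ne.symm hm), mul_zero]
        · exact fun h' => absurd (Finset.mem_range.2 h) h'
      · rw [hK i n (not_lt.1 h)]
        refine Finset.sum_eq_zero fun m hm => ?_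
        rw [coeff_C_mul, coeff_X_pow, if_neg (by have := Finset.mem_range.1 hm; omega), mul_zero]
    have hsum : ∑ i : S, V.op (P0 i) (e i) = 0 := by
      rw [← hf, Finsupp.linearCombination_apply, Finsupp.sum]
      have e1 : ∀ i : S, V.op (P0 i) (e i) = ∑ n ∈ Finset.range K, f (i, n) • V.F^[n] (e i) := by
        intro i
        have h5 : (P0 i).natDegree < K + 1 := by
          refine lt_of_le_of_lt ?_ (Nat.lt_succ_self K)
          rw [natDegree_le_iff_coeff_eq_zero]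
          intro n hn
          rw [hcP0, hK i n (by omega)]
        rw [V.op_range _ _ h5, Finset.sum_range_succ, hcP0, hK i K le_rfl, zero_smul, add_zero]
        exact Finset.sum_congr rfl fun n _ => by rw [hcP0]
      rw [Finset.sum_congr rfl fun i _ => e1 i, ← Finset.sum_product']
      symm
      refine Finset.sum_subset ?_ ?_
      · rintro ⟨i, n⟩ h
        rw [Finset.mem_product, Finset.mem_range]
        refine ⟨Finset.mem_univ _, ?_⟩
        by_contra h5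
        exact (Finsupp.mem_support_iff.1 h) (hK i n (not_lt.1 h5))
      · rintro ⟨i, n⟩ _ h
        rw [Finsupp.notMem_support_iff.1 h, zero_smul]
    set P : ι → k[X] := fun i => if h : i ∈ S then P0 ⟨i, h⟩ else 0 with hP
    have hPS : ∀ i : S, P i = P0 i := fun i => dif_pos i.2
    have hpG : ∀ (n : ℕ) {a : ℝ}, a ∈ G → (p : ℝ) ^ n * a ∈ G := fun n a ha => by
      have := G.nsmul_mem ha (p ^ n)
      rw [nsmul_eq_mul] at this
      push_cast at this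
      exact this
    have hIs : ∀ i ∈ S, IsOp p G (-g i) 0 (P i) := fun i hi j hj =>
      G.sub_mem G.zero_mem (hpG j (G.neg_mem (hg i)))
    have hsum' : ∑ i : S, V.op (P i) (e i) = 0 := by
      rw [← hsum]
      exact Finset.sum_congr rfl fun i _ => by rw [hPS]
    -- the element
    set x : Ω := ∑ i ∈ S, ev p M (-g i) 0 (P i) (w i) with hx'
    have hM0 : M (-0) = 1 := by rw [neg_zero, W.ms.zero]
    have hxN : Nr v (PM v A G M) 0 x := by
      have h5 : ∀ i : S, ∃ h : M (-0) * ev p M (-g i) 0 (P i) (w i) ∈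
          LimS v (PM v L G M) (PM v A G M), V.op (P i) (e i) = cl h := fun i =>
        W.op_ev hΩ hNA hAL hA (hg i) G.zero_mem (P i) (hw i i.2)
      choose h6 h7 using h5
      have h8 : x = ∑ i : S, M (-0) * ev p M (-g i) 0 (P i) (w i) := by
        rw [hx', hM0]
        simp only [one_mul]
        exact (Finset.sum_coe_sort S fun i => ev p M (-g i) 0 (P i) (w i)).symm
      rw [Finset.sum_congr rfl fun i _ => h7 i, ← cl_sum Finset.univ h6, cl_eq_zero] at hsum'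
      rwa [h8]
    have hPz := h4 0 P hIs (Nr.nr' hxN) i₀ i₀.2
    rw [hPS] at hPz
    have h9 : (P0 i₀).coeff n₀ = 0 := by rw [hPz, coeff_zero]
    rw [hcP0] at h9
    exact h9
  · intro i
    obtain ⟨Q, hQ, h5⟩ := h2 i
    have h6 : ∀ j : S, ∃ h : M (- -g i) * ev p M (-g j) (-g i) (Q j) (w j) ∈
        LimS v (PM v L G M) (PM v A G M), V.op (Q j) (e j) = cl h := fun j =>
      W.op_ev hΩ hNA hAL hA (hg j) (G.neg_mem (hg i)) (Q j) (hw j j.2)
    choose h7 h8 using h6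
    have h9 : cl (hx i) = ∑ j : S, V.op (Q j) (e j) := by
      rw [Finset.sum_congr rfl fun j _ => h8 j, ← cl_sum Finset.univ h7, cl_eq]
      have h10 := W.nr_scale (hg i) hMB (Nr'.nr h5)
      rw [neg_add_cancel, mul_sub, Finset.mul_sum] at h10
      rw [neg_neg]
      have h11 : ∑ j : S, M (g i) * ev p M (-g j) (-g i) (Q j) (w j) =
          ∑ j ∈ S, M (g i) * ev p M (-g j) (-g i) (Q j) (w j) :=
        Finset.sum_coe_sort S fun j => M (g i) * ev p M (-g j) (-g i) (Q j) (w j)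
      rwa [h11]
    rw [h9]
    refine Submodule.sum_mem _ fun j _ => ?_
    rw [V.op_range _ _ (Nat.lt_succ_self _)]
    exact Submodule.sum_mem _ fun n _ => Submodule.smul_mem _ _ (Submodule.subset_span ⟨(j, n), rfl⟩)
  · intro i
    obtain ⟨Q, hQ, h5⟩ := h3 i i.2
    have h6 : ∀ j : ι, ∃ h : M (- -g i) * ev p M (-g j) (-g i) (Q j) (l j) ∈
        LimS v (PM v L G M) (PM v A G M), V.op (Q j) (cl (hx j)) = cl h := fun j =>
      W.op_ev hΩ hNA hAL hA (hg j) (G.neg_mem (hg i)) (Q j) (hx j)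
    choose h7 h8 using h6
    have h9 : e i = ∑ j : ι, V.op (Q j) (cl (hx j)) := by
      rw [Finset.sum_congr rfl fun j _ => h8 j, ← cl_sum Finset.univ h7, he, cl_eq]
      have h10 := W.nr_scale (hg i) hMB (Nr'.nr h5)
      rw [neg_add_cancel, mul_sub, Finset.mul_sum] at h10
      rw [neg_neg]
      exact h10
    rw [h9]
    refine Submodule.sum_mem _ fun j _ => ?_
    rw [V.op_range _ _ (Nat.lt_succ_self _)]
    exact Submodule.sum_mem _ fun n _ => Submodule.smul_mem _ _ (Submodule.subset_span ⟨(j, n), rfl⟩)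

/-- **Each finite family is in the span of a homogeneous free family.** -/
theorem exists_free_famB (hNA : N ≤ A) (hAL : A ≤ L) (hA : Cld v A)
    (hF : FreeB k p v L (PM v A G M) G M)
    {κ : Type*} [Finite κ] (y : κ → MQ v (PM v L G M) (PM v A G M)) :
    ∃ (n : ℕ) (e : Fin n → MQ v (PM v L G M) (PM v A G M)) (δ : Fin n → ℝ ⧸ VG v N),
      (∀ i, (W.gm hΩ hNA hAL hA).Hom (δ i) (e i)) ∧
      LinearIndependent k (fun x : Fin n × ℕ => (W.gm hΩ hNA hAL hA).F^[x.2] (e x.1)) ∧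
      (∀ j, y j ∈ Submodule.span k
        (Set.range fun x : Fin n × ℕ => (W.gm hΩ hNA hAL hA).F^[x.2] (e x.1))) ∧
      ∀ i, e i ∈ Submodule.span k (Set.range fun x : (κ × (ℝ ⧸ VG v N)) × ℕ =>
        (W.gm hΩ hNA hAL hA).F^[x.2] ((W.gm hΩ hNA hAL hA).pr x.1.2 (y x.1.1))) := by
  classical
  have := Fintype.ofFinite κ
  set V := W.gm hΩ hNA hAL hA with hV
  choose S hS using fun j => V.dec (y j)
  -- the homogeneous components
  set H : Finset (MQ v (PM v L G M) (PM v A G M)) :=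
    (Finset.univ.biUnion fun j => (S j).image fun c => V.pr c (y j)).filter (· ≠ 0) with hH
  have hHc : ∀ m : Fin H.card, ∃ j c, V.pr c (y j) = ((H.equivFin.symm m : H) : MQ v _ _) := by
    intro m
    obtain ⟨h1, h2⟩ := Finset.mem_filter.1 (H.equivFin.symm m).2
    obtain ⟨j, -, h3⟩ := Finset.mem_biUnion.1 h1
    obtain ⟨c, -, hc⟩ := Finset.mem_image.1 h3
    exact ⟨j, c, hc⟩
  have hHom : ∀ m : Fin H.card, ∃ g ∈ G, ∃ (l : Ω) (_ : l ∈ L)
      (hx : M g * l ∈ LimS v (PM v L G M) (PM v A G M)),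
      ((H.equivFin.symm m : H) : MQ v _ _) = cl hx := by
    intro m
    obtain ⟨h1, h2⟩ := Finset.mem_filter.1 (H.equivFin.symm m).2
    obtain ⟨j, -, h3⟩ := Finset.mem_biUnion.1 h1
    obtain ⟨c, -, hc⟩ := Finset.mem_image.1 h3
    have h5 : V.Hom c ((H.equivFin.symm m : H) : MQ v _ _) := by
      rw [← hc]
      exact V.pr_same c (y j)
    obtain ⟨g, hg, -, l, hl, hx, h4⟩ := W.exists_hom hΩ hNA hAL hA h5 h2
    exact ⟨g, hg, l, hl, hx, h4⟩
  choose g hg l hl hx hcl using hHom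
  obtain ⟨S', e, h1, h2, h3, h3'⟩ := W.exists_free_homB hΩ hNA hAL hA hF g l hg hl hx
  -- to `Fin n`
  set φ := S'.equivFin with hφ
  have hrange : (Set.range fun x : Fin S'.card × ℕ => V.F^[x.2] (e (φ.symm x.1))) =
      Set.range fun x : S' × ℕ => V.F^[x.2] (e x.1) := by
    ext m
    constructor
    · rintro ⟨⟨i, n⟩, rfl⟩
      exact ⟨(φ.symm i, n), rfl⟩
    · rintro ⟨⟨i, n⟩, rfl⟩
      exact ⟨(φ i, n), by simp⟩
  refine ⟨S'.card, fun i => e (φ.symm i), fun i => QuotientAddGroup.mk (g (φ.symm i : S')),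
    fun i => h1 _, ?_, fun j => ?_, fun i => ?_⟩
  · have h4 := h2.comp (fun x : Fin S'.card × ℕ => ((φ.symm x.1 : S'), x.2)) (by
      rintro ⟨i, n⟩ ⟨i', n'⟩ h
      simp only [Prod.mk.injEq, EmbeddingLike.apply_eq_iff_eq] at h
      exact Prod.ext h.1 h.2)
    exact h4
  · rw [hrange, ← hS j]
    refine Submodule.sum_mem _ fun c hc => ?_
    by_cases h0 : V.pr c (y j) = 0
    · rw [h0]
      exact zero_mem _
    · have h4 : V.pr c (y j) ∈ H := Finset.mem_filter.2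
        ⟨Finset.mem_biUnion.2 ⟨j, Finset.mem_univ _, Finset.mem_image_of_mem _ hc⟩, h0⟩
      have h5 := h3 (H.equivFin ⟨_, h4⟩)
      rw [← hcl, Equiv.symm_apply_apply] at h5
      exact h5
  · refine Submodule.span_mono ?_ (h3' (φ.symm i))
    rintro _ ⟨⟨m, n⟩, rfl⟩
    obtain ⟨j, c, h4⟩ := hHc m
    refine ⟨((j, c), n), ?_⟩
    dsimp only
    rw [h4, hcl]

/-- **A homogeneous basis, if the module is finitely generated.** -/
theorem exists_basisB (hNA : N ≤ A) (hAL : A ≤ L) (hA : Cld v A)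
    (hF : FreeB k p v L (PM v A G M) G M)
    {κ : Type*} [Finite κ] (y : κ → MQ v (PM v L G M) (PM v A G M))
    (hy : Submodule.span k (Set.range fun x : κ × ℕ => (W.gm hΩ hNA hAL hA).F^[x.2] (y x.1)) = ⊤) :
    ∃ (n : ℕ) (e : Fin n → MQ v (PM v L G M) (PM v A G M)) (δ : Fin n → ℝ ⧸ VG v N),
      (∀ i, (W.gm hΩ hNA hAL hA).Hom (δ i) (e i)) ∧
      LinearIndependent k (fun x : Fin n × ℕ => (W.gm hΩ hNA hAL hA).F^[x.2] (e x.1)) ∧
      Submodule.span k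
        (Set.range fun x : Fin n × ℕ => (W.gm hΩ hNA hAL hA).F^[x.2] (e x.1)) = ⊤ := by
  obtain ⟨n, e, δ, h1, h2, h3, -⟩ := W.exists_free_famB hΩ hNA hAL hA hF y
  refine ⟨n, e, δ, h1, h2, ?_⟩
  rw [eq_top_iff, ← hy, Submodule.span_le]
  rintro _ ⟨⟨j, m⟩, rfl⟩
  exact H28.GM.iter_mem_span _ e (h3 j) m

/-- The degrees fixed by `p ^ n`, `VG v N` saturated for the primes other than `p`. -/
theorem gm_ns (hsat : ∀ n : ℕ, ¬ p ∣ n → ∀ g ∈ G, (n : ℝ) * g ∈ VG v N → g ∈ VG v N)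
    (hNA : N ≤ A) (hAL : A ≤ L) (hA : Cld v A) (c : ℝ ⧸ VG v N)
    (m : MQ v (PM v L G M) (PM v A G M)) (h : (W.gm hΩ hNA hAL hA).pr c m ≠ 0) (n : ℕ)
    (hn : 0 < n) (hc : p ^ n • c = c) : c = 0 := by
  obtain ⟨x, hx, rfl⟩ := exists_cl m
  rw [W.gm_pr hΩ hNA hAL hA] at h
  rcases W.prD_cases hΩ c with h1 | ⟨g, hg, rfl, -⟩
  · exfalso
    refine h ?_
    rw [cl_eq_zero, h1]
    exact ⟨0, zero_mem _, by rw [sub_zero]; exact RVal.Ge.zero⟩
  · have e : p ^ n • (QuotientAddGroup.mk g : ℝ ⧸ VG v N) =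
        QuotientAddGroup.mk ((p : ℝ) ^ n * g) := by
      rw [← Nat.cast_pow, ← nsmul_eq_mul]
      rfl
    rw [e, mk_eq] at hc
    have hp1 : 1 ≤ p ^ n := Nat.one_le_pow _ _ (Fact.out : p.Prime).pos
    have h2 : ¬ p ∣ p ^ n - 1 := by
      intro h3
      have h4 : p ∣ p ^ n := dvd_pow_self p hn.ne'
      have h5 := (Nat.dvd_sub h4 h3)
      rw [Nat.sub_sub_self hp1] at h5
      exact (Fact.out : p.Prime).one_lt.ne' (Nat.dvd_one.1 h5)
    refine (QuotientAddGroup.eq_zero_iff _).2 (hsat _ h2 g hg ?_)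
    rw [Nat.cast_sub hp1, Nat.cast_pow, Nat.cast_one, sub_mul, one_mul]
    exact hc

/-- Sec. 2 of (1,2)': if `A₁ (F) y`, `A₁ 0 ≠ 0`, has all its components in `k{F} y`, then `y` is
homogeneous. -/
theorem hom_of_compsB (hsat : ∀ n : ℕ, ¬ p ∣ n → ∀ g ∈ G, (n : ℝ) * g ∈ VG v N → g ∈ VG v N)
    (hNA : N ≤ A) (hAL : A ≤ L) (hA : Cld v A) (hF : FreeB k p v L (PM v A G M) G M)
    {y : MQ v (PM v L G M) (PM v A G M)} {A₁ : k[X]} (hA₁ : A₁.coeff 0 ≠ 0)
    (hc : ∀ d, ∃ P : k[X],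
      (W.gm hΩ hNA hAL hA).pr d ((W.gm hΩ hNA hAL hA).op A₁ y) = (W.gm hΩ hNA hAL hA).op P y) :
    ∃ c, (W.gm hΩ hNA hAL hA).Hom c y := by
  obtain ⟨n, e, δ, h1, h2, h3, -⟩ := W.exists_free_famB hΩ hNA hAL hA hF (fun _ : Unit => y)
  exact H28.GM.homog_of_comps_ns _ h1 h2 (h3 ()) (W.gm_ns hΩ hsat hNA hAL hA) hA₁ hc

/-- The operators as `fev`. -/
theorem op_fev_gmW3 (hNA : N ≤ A) (hAL : A ≤ L) (hA : Cld v A) (P : k[X]) {x : Ω}
    (hx : x ∈ LimS v (PM v L G M) (PM v A G M)) :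
    ∃ h : fev p P x ∈ LimS v (PM v L G M) (PM v A G M),
      (W.gm hΩ hNA hAL hA).op P (cl hx) = cl h := by
  have h1 : fev p P x = ∑ j ∈ Finset.range (P.natDegree + 1), P.coeff j • x ^ p ^ j := by
    rw [fev]
    refine (Finset.sum_subset (fun a ha => Finset.mem_range.2
      (Nat.lt_succ_of_le (le_natDegree_of_mem_supp a ha))) fun a _ ha => ?_).trans
      (Finset.sum_congr rfl fun a _ => by rw [Algebra.smul_def])
    rw [notMem_support_iff.1 ha, map_zero, zero_mul]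
  refine ⟨?_, ?_⟩
  · rw [h1]
    exact (LimS v (PM v L G M) (PM v A G M)).sum_mem fun j _ =>
      (LimS v (PM v L G M) (PM v A G M)).smul_mem (P.coeff j) (pow_pow_LimS (p := p) hx j)
  · rw [W.gm_op hΩ hNA hAL hA, cl_eq, ← h1, sub_self]
    exact ⟨0, zero_mem _, by rw [sub_zero]; exact RVal.Ge.zero⟩

/-- **`y` is homogeneous** (sec. 2 of (1,2)'). -/
theorem homog (hsat : ∀ n : ℕ, ¬ p ∣ n → ∀ g ∈ G, (n : ℝ) * g ∈ VG v N → g ∈ VG v N)
    (hNA : N ≤ A) (hAL : A ≤ L) (hA : Cld v A) (hF : FreeB k p v L (PM v A G M) G M)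
    {y : Ω} (hy : y ∈ PM v L G M) (hyl : Lim v (PM v A G M) 0 y) {P0 : k[X]}
    (hP0 : P0.coeff 0 ≠ 0)
    (h : ∀ g ∈ G, ∃ P1 : k[X], ∃ e ∈ PM v A G M,
      v.Ge 0 (W.prd hΩ g (fev p P0 y) - fev p P1 y - e)) :
    ∃ d ∈ G, ∃ e ∈ PM v A G M, v.Ge 0 (y - e - W.prd hΩ d y) := by
  have hyL : y ∈ LimS v (PM v L G M) (PM v A G M) := ⟨hy, hyl⟩
  obtain ⟨c, hc⟩ := W.hom_of_compsB hΩ hsat hNA hAL hA hF (y := cl hyL) hP0 (by
    intro d
    obtain ⟨h1, h2⟩ := W.op_fev_gmW3 hΩ hNA hAL hA P0 hyL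
    rw [h2, W.gm_pr hΩ hNA hAL hA]
    rcases W.prD_cases hΩ d with h3 | ⟨g, hg, rfl, h3⟩
    · refine ⟨0, ?_⟩
      rw [H28.GM.op_zero, cl_eq_zero, h3]
      exact ⟨0, zero_mem _, by rw [sub_zero]; exact RVal.Ge.zero⟩
    · obtain ⟨P1, e, he, h4⟩ := h g hg
      obtain ⟨h5, h6⟩ := W.op_fev_gmW3 hΩ hNA hAL hA P1 hyL
      refine ⟨P1, ?_⟩
      rw [h6, cl_eq, h3 _ h1.1]
      exact ⟨e, he, h4⟩)
  rw [W.hom_iff hΩ hNA hAL hA] at hc
  rcases W.prD_cases hΩ c with h3 | ⟨g, hg, rfl, h3⟩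
  · obtain ⟨e, he, h4⟩ := hc
    rw [h3, sub_zero] at h4
    have heT : e ∈ PM v L G M := PM.mono hAL he
    refine ⟨0, G.zero_mem, e - W.prd hΩ 0 e, sub_mem he (W.prd_mem hΩ hNA hAL hA G.zero_mem he), ?_⟩
    have h5 : y - (e - W.prd hΩ 0 e) - W.prd hΩ 0 y = (y - e) - W.prd hΩ 0 (y - e) := by
      rw [W.prd_sub hΩ G.zero_mem hy heT]
      ring
    rw [h5]
    exact h4.sub (W.prd_ge hΩ G.zero_mem (sub_mem hy heT) h4)
  · obtain ⟨e, he, h4⟩ := hc
    rw [h3 _ hy] at h4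
    refine ⟨g, hg, e, he, ?_⟩
    have h5 : y - e - W.prd hΩ g y = y - W.prd hΩ g y - e := by ring
    rwa [h5]

/-! ### The components of `y`, without torsion hypotheses -/

/-- If all the components of `y` are in `k{F} y` then `y` is homogeneous. -/
theorem hom_of_cyc (hNA : N ≤ A) (hAL : A ≤ L) (hA : Cld v A) (hF : FreeB k p v L (PM v A G M) G M)
    {y : MQ v (PM v L G M) (PM v A G M)}
    (hc : ∀ c, (W.gm hΩ hNA hAL hA).pr c y ∈ (W.gm hΩ hNA hAL hA).cyc y) :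
    ∃ c, (W.gm hΩ hNA hAL hA).Hom c y := by
  by_cases hy0 : y = 0
  · exact ⟨0, by rw [hy0]; exact H28.GM.Hom.zero⟩
  obtain ⟨n, e, δ, h1, h2, h3, h4⟩ := W.exists_free_famB hΩ hNA hAL hA hF (fun _ : Unit => y)
  obtain ⟨i, a, -, h5⟩ := (W.gm hΩ hNA hAL hA).eq_smul_of_basis h2 (h3 ()) (fun i =>
    (W.gm hΩ hNA hAL hA).span_le_cyc (fun j : Unit × (ℝ ⧸ VG v N) => hc j.2) (h4 i)) hy0
  exact ⟨δ i, by rw [h5]; exact (h1 i).smul a⟩

/-- The homogeneous classes. -/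
theorem exists_near (hNA : N ≤ A) (hAL : A ≤ L) (hA : Cld v A) {y : Ω}
    (hyL : y ∈ LimS v (PM v L G M) (PM v A G M)) {c : ℝ ⧸ VG v N}
    (hc : (W.gm hΩ hNA hAL hA).Hom c (cl hyL)) :
    ∃ d ∈ G, ∃ l ∈ L, ∃ e ∈ PM v A G M, v.Ge 0 (y - e - M d * l) := by
  by_cases h0 : cl hyL = 0
  · obtain ⟨e, he, h1⟩ := (cl_eq_zero hyL).1 h0
    exact ⟨0, G.zero_mem, 0, zero_mem L, e, he, by rwa [mul_zero, sub_zero]⟩
  · obtain ⟨g, hg, -, l, hl, hx, h1⟩ := W.exists_hom hΩ hNA hAL hA hc h0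
    rw [cl_eq] at h1
    obtain ⟨e, he, h2⟩ := h1
    refine ⟨g, hg, l, hl, e, he, ?_⟩
    have h3 : y - e - M g * l = y - M g * l - e := by ring
    rwa [h3]

/-- **`y` is homogeneous**: all the components of `P0 (F) y`, `P0 0 ≠ 0`, are in a saturated
submodule `W'` contained in `k{F} y`. -/
theorem homog_sat [PerfectRing k p] (hNA : N ≤ A) (hAL : A ≤ L) (hA : Cld v A)
    (hF : FreeB k p v L (PM v A G M) G M) {y : Ω}
    (hyL : y ∈ LimS v (PM v L G M) (PM v A G M))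
    {W' : Submodule k (MQ v (PM v L G M) (PM v A G M))}
    (hW'F : ∀ w ∈ W', (W.gm hΩ hNA hAL hA).F w ∈ W')
    (hsat : ∀ (P : k[X]) (x : MQ v (PM v L G M) (PM v A G M)), P ≠ 0 →
      (W.gm hΩ hNA hAL hA).op P x ∈ W' → x ∈ W')
    (hcyc : W' ≤ (W.gm hΩ hNA hAL hA).cyc (cl hyL)) {P0 : k[X]} (hP0 : P0.coeff 0 ≠ 0)
    (h : ∀ d, (W.gm hΩ hNA hAL hA).pr d ((W.gm hΩ hNA hAL hA).op P0 (cl hyL)) ∈ W') :
    ∃ d ∈ G, ∃ l ∈ L, ∃ e ∈ PM v A G M, v.Ge 0 (y - e - M d * l) := by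
  obtain ⟨c, hc⟩ := W.hom_of_cyc hΩ hNA hAL hA hF (y := cl hyL) (fun c =>
    hcyc ((W.gm hΩ hNA hAL hA).comp_mem hW'F hsat hP0 h c))
  exact W.exists_near hΩ hNA hAL hA hyL hc

/-- **`y` is homogeneous**, in terms of `fev`. -/
theorem homog_sat_fev [PerfectRing k p] (hNA : N ≤ A) (hAL : A ≤ L) (hA : Cld v A)
    (hF : FreeB k p v L (PM v A G M) G M) {y : Ω} (hy : y ∈ PM v L G M)
    (hyl : Lim v (PM v A G M) 0 y)
    (hsat : ∀ (P Q : k[X]) (x : Ω), P ≠ 0 → x ∈ PM v L G M → Lim v (PM v A G M) 0 x →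
      Nr v (PM v A G M) 0 (fev p P x - fev p Q y) →
        ∃ Q' : k[X], Nr v (PM v A G M) 0 (x - fev p Q' y)) {P0 : k[X]} (hP0 : P0.coeff 0 ≠ 0)
    (h : ∀ g ∈ G, ∃ P1 : k[X], ∃ e ∈ PM v A G M,
      v.Ge 0 (W.prd hΩ g (fev p P0 y) - fev p P1 y - e)) :
    ∃ d ∈ G, ∃ l ∈ L, ∃ e ∈ PM v A G M, v.Ge 0 (y - e - M d * l) := by
  have hyL : y ∈ LimS v (PM v L G M) (PM v A G M) := ⟨hy, hyl⟩
  refine W.homog_sat hΩ hNA hAL hA hF hyL (W' := (W.gm hΩ hNA hAL hA).cyc (cl hyL))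
    (fun w hw => (W.gm hΩ hNA hAL hA).cyc_F hw) (fun P x hP hx => ?_) le_rfl hP0 fun d => ?_
  · obtain ⟨x, hxL, rfl⟩ := exists_cl x
    obtain ⟨Q, hQ⟩ := hx
    obtain ⟨h1, h2⟩ := W.op_fev_gmW3 hΩ hNA hAL hA P hxL
    obtain ⟨h3, h4⟩ := W.op_fev_gmW3 hΩ hNA hAL hA Q hyL
    rw [h2, h4, cl_eq] at hQ
    obtain ⟨Q', hQ'⟩ := hsat P Q x hP hxL.1 hxL.2 hQ
    obtain ⟨h5, h6⟩ := W.op_fev_gmW3 hΩ hNA hAL hA Q' hyL
    refine ⟨Q', ?_⟩
    rw [h6, cl_eq]
    exact hQ'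
  · obtain ⟨h1, h2⟩ := W.op_fev_gmW3 hΩ hNA hAL hA P0 hyL
    rw [h2, W.gm_pr hΩ hNA hAL hA]
    rcases W.prD_cases hΩ d with h3 | ⟨g, hg, rfl, h3⟩
    · refine ⟨0, ?_⟩
      rw [H28.GM.op_zero, cl_eq_zero, h3]
      exact ⟨0, zero_mem _, by rw [sub_zero]; exact RVal.Ge.zero⟩
    · obtain ⟨P1, e, he, h4⟩ := h g hg
      obtain ⟨h5, h6⟩ := W.op_fev_gmW3 hΩ hNA hAL hA P1 hyL
      refine ⟨P1, ?_⟩
      rw [h6, cl_eq, h3 _ h1.1]
      exact ⟨e, he, h4⟩

end World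

end Pool.Agent.TWIV
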