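import Pool.Agent.Lib.TWIV.FinV

/-!
# TANK W, leaf (IV): Lemma G' (sec. 1 of b525bf_W_TAME_12prime_h28.md), module form

Everything takes place in a `k`-module `V` with an ultrametric function `gap`, a Frobenius `F` with
`gap (F x) = p * gap x`, and a subgroup `BB` which contains the elements of gap `0` and is stable
under `k`, `F` and `F⁻¹`. The elements enter through the sequences of their jets:

* `jets p F P Y`: the jets of `P(F) y`, if `Y` are those of `y` (`jets_of` is the reason);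
* `dom_Y`, `mem_Y`: `y` is dominated by `y# = A(F) y`, `A ≠ 0`;
* `GSys`: the hypotheses of Lemma G' for `x = P₁(F) y + P₂(F) b' + e`, all identities modulo the
  elements of gap `0`, (BETA) included;
* `GSys.zero`: Lemma G': `P₂ = 0`.
-/

set_option autoImplicit false

open Finset Polynomial

namespace Pool.Agent.TWIV

/-- an ultrametric function on a `k`-module with a Frobenius -/
structure FGap (k : Type*) {V : Type*} [Field k] [AddCommGroup V] [Module k V] (p : ℕ)
    (gap : V → ℝ) (F : V →+ V) : Prop where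
  gp : Gap gap
  smul : ∀ (c : k) (x : V), gap (c • x) ≤ gap x
  frob : ∀ x : V, gap (F x) = p * gap x

/-- the jets of `P(F) y` -/
def jets {k V : Type*} [Field k] [AddCommGroup V] [Module k V] (p : ℕ) (F : V →+ V) (P : k[X])
    (Y : ℕ → V) (j : ℕ) : V :=
  ∑ a ∈ P.support, if p ^ a ∣ j then P.coeff a • F^[a] (Y (j / p ^ a)) else 0

/-- a subgroup which contains the elements of gap `0`, stable under `k`, `F` and `F⁻¹` -/
structure FSub (k : Type*) {V : Type*} [Field k] [AddCommGroup V] [Module k V] (gap : V → ℝ)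
    (F : V →+ V) (BB : AddSubgroup V) : Prop where
  smul : ∀ (c : k) (u : V), u ∈ BB → c • u ∈ BB
  frob : ∀ u ∈ BB, F u ∈ BB
  root : ∀ u, F u ∈ BB → u ∈ BB
  zero : ∀ u, gap u = 0 → u ∈ BB

variable {k V : Type*} [Field k] [AddCommGroup V] [Module k V] {p : ℕ} {gap : V → ℝ}
  {F : V →+ V} {BB : AddSubgroup V}

namespace FSub

variable (h : FSub k gap F BB)

include h

theorem iter (a : ℕ) {u : V} (hu : u ∈ BB) : F^[a] u ∈ BB := by
  induction a generalizing u with
  | zero => exact hu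
  | succ a ih => rw [Function.iterate_succ_apply]; exact ih (h.frob _ hu)

theorem root_iter (a : ℕ) {u : V} (hu : F^[a] u ∈ BB) : u ∈ BB := by
  induction a generalizing u with
  | zero => exact hu
  | succ a ih => rw [Function.iterate_succ_apply] at hu; exact h.root _ (ih hu)

theorem of_smul {c : k} (hc : c ≠ 0) {u : V} (hu : c • u ∈ BB) : u ∈ BB := by
  have h1 := h.smul c⁻¹ _ hu
  rwa [smul_smul, inv_mul_cancel₀ hc, one_smul] at h1

theorem congr {u v : V} (huv : gap (u - v) = 0) (hv : v ∈ BB) : u ∈ BB := by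
  have h1 := BB.add_mem (h.zero _ huv) hv
  rwa [sub_add_cancel] at h1

theorem congr' (hg : Gap gap) {u v : V} (huv : gap (u - v) = 0) (hu : u ∈ BB) : v ∈ BB := by
  refine h.congr (u := v) (v := u) ?_ hu
  rw [← neg_sub, hg.neg, huv]

end FSub

namespace FGap

variable (h : FGap k p gap F)

include h

theorem smul_eq {c : k} (hc : c ≠ 0) (x : V) : gap (c • x) = gap x := by
  refine le_antisymm (h.smul c x) ?_
  have h1 := h.smul c⁻¹ (c • x)
  rwa [smul_smul, inv_mul_cancel₀ hc, one_smul] at h1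

theorem iter (a : ℕ) (x : V) : gap (F^[a] x) = p ^ a * gap x := by
  induction a generalizing x with
  | zero => rw [Function.iterate_zero_apply, pow_zero, one_mul]
  | succ a ih => rw [Function.iterate_succ_apply, ih, h.frob, pow_succ]; ring

/-- gaps modulo elements of gap `0` -/
theorem congr_le {x y : V} {g : ℝ} (hg : 0 ≤ g) (hxy : gap (x - y) = 0) (hy : gap y ≤ g) :
    gap x ≤ g := by
  have h1 := h.gp.add_le (hxy.le.trans hg) hy
  rwa [sub_add_cancel] at h1

theorem congr_le' {x y : V} {g : ℝ} (hg : 0 ≤ g) (hxy : gap (x - y) = 0) (hx : gap x ≤ g) :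
    gap y ≤ g := by
  have h1 := h.gp.sub_le hx (hxy.le.trans hg)
  rwa [sub_sub_cancel] at h1

end FGap

/-- the jets of `P(F) y` at `p ^ π * m`, `p ∤ m` -/
theorem jets_at [hp : Fact p.Prime] (P : k[X]) (Y : ℕ → V) (π : ℕ) {m : ℕ} (hm : ¬ p ∣ m) :
    jets p F P Y (p ^ π * m) =
      ∑ a ∈ P.support with a ≤ π, P.coeff a • F^[a] (Y (p ^ (π - a) * m)) := by
  rw [jets, sum_filter]
  refine sum_congr rfl fun a _ => ?_
  have hpa : 0 < p ^ a := pow_pos hp.out.pos a
  by_cases ha : a ≤ π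
  · have e : p ^ π * m = p ^ a * (p ^ (π - a) * m) := by
      rw [← mul_assoc, ← pow_add]
      congr 2
      omega
    rw [if_pos ha, if_pos (by rw [e]; exact dvd_mul_right _ _), e, Nat.mul_div_cancel_left _ hpa]
  · rw [if_neg ha, if_neg]
    intro h1
    have e : p ^ a = p ^ π * p ^ (a - π) := by
      rw [← pow_add]
      congr 1
      omega
    rw [e] at h1
    have h2 := Nat.dvd_of_mul_dvd_mul_left (pow_pos hp.out.pos π) h1
    exact hm ((dvd_pow_self p (by omega)).trans h2)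

/-- the jets of `P(F) y` at `p ^ t * j`, `t` the degree of `P` -/
theorem jets_top [hp : Fact p.Prime] {P : k[X]} (hP : P ≠ 0) (Y : ℕ → V) (j : ℕ) :
    jets p F P Y (p ^ P.natDegree * j) =
      P.leadingCoeff • F^[P.natDegree] (Y j) + ∑ a ∈ P.support.erase P.natDegree,
        P.coeff a • F^[a] (Y (p ^ (P.natDegree - a) * j)) := by
  have ht : P.natDegree ∈ P.support := natDegree_mem_support_of_nonzero hP
  have h1 : ∀ a ∈ P.support, (if p ^ a ∣ p ^ P.natDegree * j then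
      P.coeff a • F^[a] (Y (p ^ P.natDegree * j / p ^ a)) else 0) =
      P.coeff a • F^[a] (Y (p ^ (P.natDegree - a) * j)) := by
    intro a ha
    have ha' : a ≤ P.natDegree := le_natDegree_of_mem_supp a ha
    have e : p ^ P.natDegree * j = p ^ a * (p ^ (P.natDegree - a) * j) := by
      rw [← mul_assoc, ← pow_add]
      congr 2
      omega
    rw [if_pos (by rw [e]; exact dvd_mul_right _ _), e,
      Nat.mul_div_cancel_left _ (pow_pos hp.out.pos a)]
  rw [jets, sum_congr rfl h1, ← add_sum_erase _ _ ht, Nat.sub_self, pow_zero, one_mul,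
    leadingCoeff]

/-- an additive function of the gap: if `f j ≤ R / p` as soon as `f ≤ R` beyond `j`, then `f = 0` -/
theorem shrink (hp1 : 1 < p) {f : ℕ → ℝ} {C : ℝ} {J : ℕ} (hC : ∀ j, f j ≤ C)
    (h0 : ∀ j, 0 ≤ f j)
    (hs : ∀ R : ℝ, ∀ j, J ≤ j → (∀ i, j ≤ i → f i ≤ R) → p * f j ≤ R) {j : ℕ} (hj : J ≤ j) :
    f j = 0 := by
  have hp0 : (0 : ℝ) < p := by exact_mod_cast (Nat.zero_lt_one.trans hp1)
  have h1 : ∀ N : ℕ, ∀ j, J ≤ j → (p : ℝ) ^ N * f j ≤ C := by
    intro N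
    induction N with
    | zero => intro j _; rw [pow_zero, one_mul]; exact hC j
    | succ N ih =>
      intro j hj
      have hpN : (0 : ℝ) < (p : ℝ) ^ N := by positivity
      have h2 := hs (C / (p : ℝ) ^ N) j hj (fun i hi => by
        rw [le_div_iff₀ hpN, mul_comm]
        exact ih i (hj.trans hi))
      rw [le_div_iff₀ hpN] at h2
      rw [pow_succ]
      linarith
  refine le_antisymm ?_ (h0 j)
  by_contra hcon
  push Not at hcon
  have hp1' : (1 : ℝ) < p := by exact_mod_cast hp1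
  obtain ⟨N, hN⟩ := pow_unbounded_of_one_lt (C / f j) hp1'
  have h2 := h1 N j hj
  rw [div_lt_iff₀ hcon] at hN
  linarith

section dom

variable [hp : Fact p.Prime] {A : k[X]} {Y Z : ℕ → V}

/-- **`y` is dominated by `y# = A(F) y`**, part (a) -/
theorem dom_Y (h : FGap k p gap F) (hA : A ≠ 0) (hZ : ∀ j, gap (Z j - jets p F A Y j) = 0)
    {C : ℝ} (hC : ∀ j, gap (Y j) ≤ C) {R : ℝ} {j : ℕ} (hR : ∀ i, j ≤ i → gap (Z i) ≤ R)
    {i : ℕ} (hi : j ≤ i) : gap (Y i) ≤ R := by
  have hp1 : 1 < p := hp.out.one_lt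
  have hp1' : (1 : ℝ) < p := by exact_mod_cast hp1
  have hR0 : 0 ≤ R := (h.gp.nonneg _).trans (hR j le_rfl)
  have hA0 : A.leadingCoeff ≠ 0 := leadingCoeff_ne_zero.2 hA
  -- one step
  have key : ∀ S : ℝ, 0 ≤ S → (∀ i, j ≤ i → gap (Y i) ≤ S) → ∀ i, j ≤ i →
      gap (Y i) ≤ max R (S / p) := by
    intro S hS hYS i hi
    have hpt : (0 : ℝ) < (p : ℝ) ^ A.natDegree := by positivity
    set G : ℝ := max R ((p : ℝ) ^ A.natDegree * (S / p)) with hG
    have hG0 : 0 ≤ G := hR0.trans (le_max_left _ _)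
    have h1 : gap (jets p F A Y (p ^ A.natDegree * i)) ≤ G := by
      refine h.congr_le' hG0 (hZ _) ((hR _ ?_).trans (le_max_left _ _))
      exact hi.trans (Nat.le_mul_of_pos_left _ (pow_pos hp.out.pos _))
    rw [jets_top hA] at h1
    have h2 : gap (∑ a ∈ A.support.erase A.natDegree,
        A.coeff a • F^[a] (Y (p ^ (A.natDegree - a) * i))) ≤ G := by
      refine h.gp.sum_le hG0 _ _ fun a ha => ?_
      have ha' : a < A.natDegree :=
        lt_of_le_of_ne (le_natDegree_of_mem_supp a (mem_of_mem_erase ha)) (ne_of_mem_erase ha)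
      refine (h.smul _ _).trans ?_
      rw [h.iter]
      refine le_trans ?_ (le_max_right _ _)
      have h3 : gap (Y (p ^ (A.natDegree - a) * i)) ≤ S :=
        hYS _ (hi.trans (Nat.le_mul_of_pos_left _ (pow_pos hp.out.pos _)))
      have h4 : (p : ℝ) ^ A.natDegree * (S / p) = (p : ℝ) ^ (A.natDegree - 1) * S := by
        obtain ⟨w, hw⟩ := Nat.exists_eq_add_of_lt ha'
        have e1 : A.natDegree - 1 = a + w := by omega
        rw [e1, hw, pow_succ]
        field_simp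
      rw [h4]
      exact mul_le_mul (pow_le_pow_right₀ hp1'.le (by omega)) h3 (h.gp.nonneg _)
        (by positivity)
    have h5 := h.gp.sub_le h1 h2
    rw [add_sub_cancel_right, h.smul_eq hA0, h.iter] at h5
    rcases le_max_iff.1 h5 with h6 | h6
    · refine le_trans ?_ (le_max_left _ _)
      refine le_trans ?_ h6
      exact le_mul_of_one_le_left (h.gp.nonneg _) (one_le_pow₀ hp1'.le)
    · exact (le_of_mul_le_mul_left h6 hpt).trans (le_max_right _ _)
  have hC0 : 0 ≤ C := (h.gp.nonneg _).trans (hC 0)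
  have h1 : ∀ N : ℕ, ∀ i, j ≤ i → gap (Y i) ≤ max R (C / (p : ℝ) ^ N) := by
    intro N
    induction N with
    | zero => intro i _; rw [pow_zero, div_one]; exact (hC i).trans (le_max_right _ _)
    | succ N ih =>
      intro i hi
      refine (key _ (hR0.trans (le_max_left _ _)) ih i hi).trans (max_le (le_max_left _ _) ?_)
      rw [div_le_iff₀ (by positivity)]
      refine max_le ?_ ?_
      · refine le_trans ?_ (mul_le_mul_of_nonneg_right (le_max_left _ _) (by positivity))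
        exact le_mul_of_one_le_right hR0 hp1'.le
      · refine le_trans (le_of_eq ?_)
          (mul_le_mul_of_nonneg_right (le_max_right _ _) (by positivity))
        rw [pow_succ, ← div_div]
        field_simp
  by_contra hcon
  push Not at hcon
  have hpos : 0 < gap (Y i) := hR0.trans_lt hcon
  obtain ⟨N, hN⟩ := pow_unbounded_of_one_lt (C / gap (Y i)) hp1'
  have h2 := h1 N i hi
  rcases le_max_iff.1 h2 with h3 | h3
  · exact absurd h3 (not_le.2 hcon)
  · have hpN : (0 : ℝ) < (p : ℝ) ^ N := by positivity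
    rw [le_div_iff₀ hpN] at h3
    rw [div_lt_iff₀ hpos] at hN
    linarith

/-- **`y` is dominated by `y# = A(F) y`**, part (b) -/
theorem mem_Y (h : FGap k p gap F) (hB : FSub k gap F BB) (hA : A ≠ 0)
    (hZ : ∀ j, gap (Z j - jets p F A Y j) = 0) (hfin : ∃ J₀, ∀ j, J₀ ≤ j → gap (Y j) = 0)
    {j : ℕ} (hj : 1 ≤ j) (hmem : ∀ i, j ≤ i → Z i ∈ BB) {i : ℕ} (hi : j ≤ i) : Y i ∈ BB := by
  have hp1 : 1 < p := hp.out.one_lt
  obtain ⟨J₀, hJ₀⟩ := hfin
  have hA0 : A.leadingCoeff ≠ 0 := leadingCoeff_ne_zero.2 hA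
  suffices H : ∀ d i, j ≤ i → J₀ ≤ i + d → Y i ∈ BB from H J₀ i hi (Nat.le_add_left _ _)
  intro d
  induction d using Nat.strong_induction_on with
  | _ d ih =>
    intro i hi hid
    by_cases hiJ : J₀ ≤ i
    · exact hB.zero _ (hJ₀ i hiJ)
    have ih' : ∀ l, i < l → Y l ∈ BB := fun l hl =>
      ih (d - 1) (by omega) l (by omega) (by omega)
    have h1 : jets p F A Y (p ^ A.natDegree * i) ∈ BB :=
      hB.congr' h.gp (hZ _) (hmem _
        (hi.trans (Nat.le_mul_of_pos_left _ (pow_pos hp.out.pos _))))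
    rw [jets_top hA] at h1
    have h2 : ∑ a ∈ A.support.erase A.natDegree,
        A.coeff a • F^[a] (Y (p ^ (A.natDegree - a) * i)) ∈ BB := by
      refine sum_mem fun a ha => hB.smul _ _ (hB.iter a (ih' _ ?_))
      have ha' : a < A.natDegree :=
        lt_of_le_of_ne (le_natDegree_of_mem_supp a (mem_of_mem_erase ha)) (ne_of_mem_erase ha)
      have h4 : p ^ (A.natDegree - a) = p * p ^ (A.natDegree - a - 1) := by
        rw [← pow_succ']
        congr 1
        omega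
      rw [h4, mul_assoc]
      have h5 : i ≤ p ^ (A.natDegree - a - 1) * i :=
        Nat.le_mul_of_pos_left _ (pow_pos hp.out.pos _)
      have h6 : 2 * (p ^ (A.natDegree - a - 1) * i) ≤ p * (p ^ (A.natDegree - a - 1) * i) :=
        Nat.mul_le_mul_right _ hp1
      omega
    have h3 := BB.sub_mem h1 h2
    rw [add_sub_cancel_right] at h3
    exact hB.root_iter _ (hB.of_smul hA0 h3)

end dom

/-- **The hypotheses of Lemma G'.** `Y`, `Z`, `B`, `X`, `E` are the sequences of jets of `y`,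
`y# = A(F) y`, `b'`, `x`, `e`, and `x = P₁(F) y + P₂(F) b' + e`. -/
structure GSys (p : ℕ) (gap : V → ℝ) (F : V →+ V) (BB : AddSubgroup V) (n : ℕ) (A P₁ P₂ : k[X])
    (Y Z B X E : ℕ → V) : Prop where
  fg : FGap k p gap F
  fs : FSub k gap F BB
  ne : A ≠ 0
  /-- `y# = A(F) y` -/
  ys : ∀ j, gap (Z j - jets p F A Y j) = 0
  /-- (BETA) -/
  beta : ∀ i, gap (B (1 + p ^ (n + 1) * i) - F^[n + 1] (Z i)) = 0
  bdd : ∃ C, ∀ j, gap (Y j) ≤ C
  bdd' : ∃ C, ∀ j, gap (Z j) ≤ C
  /-- `y# ∉ BB` -/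
  not_mem : Z 0 ∉ BB
  /-- domination (a) -/
  domA : ∃ J₀, ∀ j, J₀ ≤ j → ∀ R : ℝ, (∀ i, j ≤ i → gap (Z i) ≤ R) → gap (X j) ≤ R
  /-- domination (b) -/
  domB : ∀ j, 1 ≤ j → (∀ i, j ≤ i → Z i ∈ BB) → (∃ J₀, ∀ i, J₀ ≤ i → gap (Z i) = 0) → X j ∈ BB
  /-- `x = P₁(F) y + P₂(F) b' + e` -/
  eq : ∀ j, gap (X j - (jets p F P₁ Y j + jets p F P₂ B j + E j)) = 0
  /-- `e ∈ E_1`: its jets are `0` modulo gap `0` for large orders, and all of them are in `BB` -/
  eO : ∃ J₀, ∀ j, J₀ ≤ j → gap (E j) = 0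
  eB : ∀ j, 1 ≤ j → E j ∈ BB

namespace GSys

variable [hp : Fact p.Prime] {n : ℕ} {A P₁ P₂ : k[X]} {Y Z B X E : ℕ → V}

/-- formula (1) -/
theorem one (h : GSys p gap F BB n A P₁ P₂ Y Z B X E) (hP : P₂ ≠ 0) (i : ℕ) :
    gap (P₂.coeff P₂.natTrailingDegree • F^[P₂.natTrailingDegree] (F^[n + 1] (Z i)) -
      (X (p ^ P₂.natTrailingDegree * (1 + p ^ (n + 1) * i)) -
        ∑ a ∈ P₁.support with a ≤ P₂.natTrailingDegree, P₁.coeff a •
          F^[a] (Y (p ^ (P₂.natTrailingDegree - a) * (1 + p ^ (n + 1) * i))) -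
        E (p ^ P₂.natTrailingDegree * (1 + p ^ (n + 1) * i)))) = 0 := by
  set π := P₂.natTrailingDegree with hπ
  set m := 1 + p ^ (n + 1) * i with hm
  have hpm : ¬ p ∣ m := TlV.not_dvd (Nat.le_add_left 1 n) i
  have h1 := h.eq (p ^ π * m)
  rw [jets_at P₁ Y π hpm, jets_at P₂ B π hpm] at h1
  have h2 : ∑ a ∈ P₂.support with a ≤ π, P₂.coeff a • F^[a] (B (p ^ (π - a) * m)) =
      P₂.coeff π • F^[π] (B m) := by
    rw [sum_eq_single π]
    · rw [Nat.sub_self, pow_zero, one_mul]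
    · intro a ha hne
      have ha' := mem_filter.1 ha
      have h3 : π ≤ a := natTrailingDegree_le_of_mem_supp a ha'.1
      exact absurd (le_antisymm ha'.2 h3) hne
    · intro h3
      exact (h3 (mem_filter.2 ⟨natTrailingDegree_mem_support_of_nonzero hP, le_rfl⟩)).elim
  rw [h2] at h1
  -- replace `B m` by `F ^ (n + 1) Z_i`
  have h3 : gap (P₂.coeff π • F^[π] (B m - F^[n + 1] (Z i))) = 0 := by
    refine le_antisymm ((h.fg.smul _ _).trans ?_) (h.fg.gp.nonneg _)
    rw [h.fg.iter, h.beta i, mul_zero]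
  have e0 : F^[π] (B m - F^[n + 1] (Z i)) = F^[π] (B m) - F^[π] (F^[n + 1] (Z i)) := by
    have : ∀ (a : ℕ) (u v : V), F^[a] (u - v) = F^[a] u - F^[a] v := by
      intro a
      induction a with
      | zero => intro u v; rfl
      | succ a ih =>
        intro u v
        rw [Function.iterate_succ_apply, Function.iterate_succ_apply,
          Function.iterate_succ_apply, map_sub, ih]
    exact this _ _ _
  rw [e0, smul_sub] at h3
  refine le_antisymm ?_ (h.fg.gp.nonneg _)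
  have h4 := h.fg.gp.neg (X (p ^ π * m) - (∑ a ∈ P₁.support with a ≤ π,
    P₁.coeff a • F^[a] (Y (p ^ (π - a) * m)) + P₂.coeff π • F^[π] (B m) + E (p ^ π * m)))
  rw [h1] at h4
  have h5 := h.fg.gp.sub_le h4.le h3.le
  refine le_trans (le_of_eq ?_) h5
  congr 1
  abel

/-- the gaps of `Z` shrink -/
theorem step (h : GSys p gap F BB n A P₁ P₂ Y Z B X E) (hP : P₂ ≠ 0) :
    ∃ J, ∀ R : ℝ, ∀ j, J ≤ j → (∀ i, j ≤ i → gap (Z i) ≤ R) → p * gap (Z j) ≤ R := by
  have hp1' : (1 : ℝ) < p := by exact_mod_cast hp.out.one_lt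
  obtain ⟨C, hC⟩ := h.bdd
  obtain ⟨J₁, hJ₁⟩ := h.domA
  obtain ⟨J₂, hJ₂⟩ := h.eO
  refine ⟨max J₁ J₂, fun R j hj hR => ?_⟩
  have hR0 : 0 ≤ R := (h.fg.gp.nonneg _).trans (hR j le_rfl)
  set π := P₂.natTrailingDegree with hπ
  set m := 1 + p ^ (n + 1) * j with hm
  have hjm : j ≤ m := by
    have := Nat.le_mul_of_pos_left j (pow_pos hp.out.pos (n + 1))
    omega
  have hpos : ∀ a, m ≤ p ^ a * m := fun a => Nat.le_mul_of_pos_left _ (pow_pos hp.out.pos a)
  have hpπ : (0 : ℝ) < (p : ℝ) ^ π := by positivity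
  have hRπ : R ≤ (p : ℝ) ^ π * R := le_mul_of_one_le_left hR0 (one_le_pow₀ hp1'.le)
  have hG0 : 0 ≤ (p : ℝ) ^ π * R := hR0.trans hRπ
  have h1 : gap (X (p ^ π * m)) ≤ (p : ℝ) ^ π * R := by
    refine (hJ₁ _ ?_ R fun i hi => hR i ?_).trans hRπ
    · exact (le_max_left _ _).trans (hj.trans (hjm.trans (hpos π)))
    · exact (hjm.trans (hpos π)).trans hi
  have h2 : gap (∑ a ∈ P₁.support with a ≤ π, P₁.coeff a • F^[a] (Y (p ^ (π - a) * m))) ≤
      (p : ℝ) ^ π * R := by
    refine h.fg.gp.sum_le hG0 _ _ fun a ha => (h.fg.smul _ _).trans ?_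
    rw [h.fg.iter]
    have ha' := (mem_filter.1 ha).2
    refine mul_le_mul (pow_le_pow_right₀ hp1'.le ha') ?_ (h.fg.gp.nonneg _) hpπ.le
    exact dom_Y h.fg h.ne h.ys hC hR (hjm.trans (hpos _))
  have h3 : gap (E (p ^ π * m)) ≤ (p : ℝ) ^ π * R := by
    rw [hJ₂ _ ((le_max_right _ _).trans (hj.trans (hjm.trans (hpos π))))]
    exact hG0
  have h4 := h.fg.congr_le hG0 (h.one hP j) (h.fg.gp.sub_le (h.fg.gp.sub_le h1 h2) h3)
  have hc : P₂.coeff π ≠ 0 := mem_support_iff.1 (natTrailingDegree_mem_support_of_nonzero hP)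
  rw [← hπ, h.fg.smul_eq hc, h.fg.iter, h.fg.iter] at h4
  have h5 := le_of_mul_le_mul_left h4 hpπ
  rw [pow_succ, mul_assoc] at h5
  refine le_trans ?_ h5
  exact le_mul_of_one_le_left (mul_nonneg (by positivity) (h.fg.gp.nonneg _))
    (one_le_pow₀ hp1'.le)

/-- finite shape -/
theorem fin (h : GSys p gap F BB n A P₁ P₂ Y Z B X E) (hP : P₂ ≠ 0) :
    ∃ J, ∀ j, J ≤ j → gap (Z j) = 0 := by
  obtain ⟨J, hJ⟩ := h.step hP
  obtain ⟨C, hC⟩ := h.bdd'
  exact ⟨J, fun j hj => shrink hp.out.one_lt hC (fun _ => h.fg.gp.nonneg _) hJ hj⟩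

/-- **Lemma G'.** -/
theorem zero (h : GSys p gap F BB n A P₁ P₂ Y Z B X E) : P₂ = 0 := by
  classical
  by_contra hP
  obtain ⟨J, hJ⟩ := h.fin hP
  obtain ⟨C, hC⟩ := h.bdd
  -- the last jet outside of `BB`
  have hex : ∃ I, Z I ∉ BB ∧ ∀ i, I < i → Z i ∈ BB := by
    have hJ0 : ∀ i, J ≤ i → Z i ∈ BB := fun i hi => h.fs.zero _ (hJ i hi)
    have hne : ((range (J + 1)).filter fun i => Z i ∉ BB).Nonempty :=
      ⟨0, mem_filter.2 ⟨mem_range.2 (Nat.succ_pos _), h.not_mem⟩⟩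
    obtain ⟨I, hI, hmax⟩ := exists_max_image _ (fun i : ℕ => i) hne
    refine ⟨I, (mem_filter.1 hI).2, fun i hi => ?_⟩
    by_contra hcon
    have hiJ : i < J + 1 := by
      by_contra h1
      exact hcon (hJ0 i (by omega))
    have := hmax i (mem_filter.2 ⟨mem_range.2 hiJ, hcon⟩)
    omega
  obtain ⟨I, hI, hlt⟩ := hex
  have hYfin : ∃ J₀, ∀ j, J₀ ≤ j → gap (Y j) = 0 :=
    ⟨J, fun j hj => le_antisymm
      (dom_Y h.fg h.ne h.ys hC (fun i hi => (hJ i hi).le) hj) (h.fg.gp.nonneg _)⟩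
  set π := P₂.natTrailingDegree with hπ
  set m := 1 + p ^ (n + 1) * I with hm
  have hjm : I + 1 ≤ m := by
    have := Nat.le_mul_of_pos_left I (pow_pos hp.out.pos (n + 1))
    omega
  have hpos : ∀ a, m ≤ p ^ a * m := fun a => Nat.le_mul_of_pos_left _ (pow_pos hp.out.pos a)
  have hm1 : 1 ≤ m := by omega
  have h1 : X (p ^ π * m) ∈ BB := by
    refine h.domB _ (hm1.trans (hpos π)) (fun i hi => hlt i ?_) ⟨J, hJ⟩
    have := hpos π
    omega
  have h2 : ∑ a ∈ P₁.support with a ≤ π, P₁.coeff a • F^[a] (Y (p ^ (π - a) * m)) ∈ BB := by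
    refine sum_mem fun a _ => h.fs.smul _ _ (h.fs.iter a ?_)
    exact mem_Y h.fg h.fs h.ne h.ys hYfin hm1 (fun i hi => hlt i (by omega)) (hpos _)
  have h3 : E (p ^ π * m) ∈ BB := h.eB _ (hm1.trans (hpos π))
  have h4 := h.fs.congr (h.one hP I) (BB.sub_mem (BB.sub_mem h1 h2) h3)
  have hc : P₂.coeff π ≠ 0 := mem_support_iff.1 (natTrailingDegree_mem_support_of_nonzero hP)
  exact hI (h.fs.root_iter _ (h.fs.root_iter _ (h.fs.of_smul hc h4)))

end GSys

section operators

variable {W : Type*} [AddCommGroup W] [Module k W]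

/-- `P(F) x` -/
noncomputable def act (G : W →+ W) (P : k[X]) (x : W) : W :=
  ∑ a ∈ P.support, P.coeff a • G^[a] x

/-- the jets of `F ^ a x` -/
theorem jet_iter [hp : Fact p.Prime] (h : Gap gap) (hF : ∀ x, gap (F x) = p * gap x)
    {G : W →+ W} {D : ℕ → W →+ V} (hD : ∀ j x, gap (D (p * j) (G x) - F (D j x)) = 0)
    (hD' : ∀ j x, ¬ p ∣ j → gap (D j (G x)) = 0) (a : ℕ) (x : W) (j : ℕ) :
    gap (D j (G^[a] x) - if p ^ a ∣ j then F^[a] (D (j / p ^ a) x) else 0) = 0 := by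
  induction a generalizing x j with
  | zero =>
    rw [pow_zero, if_pos (one_dvd _), Nat.div_one, Function.iterate_zero_apply,
      Function.iterate_zero_apply, sub_self, h.zero]
  | succ a ih =>
    rw [Function.iterate_succ_apply']
    by_cases hj : p ∣ j
    · obtain ⟨l, rfl⟩ := hj
      have h1 := ih x l
      have h2 := hD l (G^[a] x)
      have e1 : (p ^ (a + 1) ∣ p * l) ↔ p ^ a ∣ l := by
        rw [pow_succ', Nat.mul_dvd_mul_iff_left hp.out.pos]
      have e2 : p * l / p ^ (a + 1) = l / p ^ a := by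
        rw [pow_succ', Nat.mul_div_mul_left _ _ hp.out.pos]
      have e3 : (if p ^ (a + 1) ∣ p * l then F^[a + 1] (D (p * l / p ^ (a + 1)) x) else 0) =
          F (if p ^ a ∣ l then F^[a] (D (l / p ^ a) x) else 0) := by
        by_cases h3 : p ^ a ∣ l
        · rw [if_pos (e1.2 h3), if_pos h3, e2, Function.iterate_succ_apply']
        · rw [if_neg (fun h4 => h3 (e1.1 h4)), if_neg h3, map_zero]
      rw [e3]
      have h4 : gap (F (D l (G^[a] x) - if p ^ a ∣ l then F^[a] (D (l / p ^ a) x) else 0)) = 0 := by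
        rw [hF, h1, mul_zero]
      refine le_antisymm ?_ (h.nonneg _)
      have h5 := h.add_le h2.le h4.le
      rwa [map_sub, sub_add_sub_cancel] at h5
    · rw [if_neg fun h1 => hj ((dvd_pow_self p (by omega)).trans h1), sub_zero]
      exact hD' j _ hj

/-- the jets of `P(F) x` -/
theorem jets_of [hp : Fact p.Prime] (h : FGap k p gap F)
    {G : W →+ W} {D : ℕ → W →ₗ[k] V} (hD : ∀ j x, gap (D (p * j) (G x) - F (D j x)) = 0)
    (hD' : ∀ j x, ¬ p ∣ j → gap (D j (G x)) = 0) (P : k[X]) (x : W) (j : ℕ) :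
    gap (D j (act G P x) - jets p F P (fun i => D i x) j) = 0 := by
  rw [act, jets, map_sum, ← sum_sub_distrib]
  refine le_antisymm (h.gp.sum_le le_rfl _ _ fun a _ => ?_) (h.gp.nonneg _)
  rw [map_smul]
  have h1 := jet_iter (D := fun j => (D j).toAddMonoidHom) h.gp h.frob hD hD' a x j
  have e : P.coeff a • D j (G^[a] x) - (if p ^ a ∣ j then
      P.coeff a • F^[a] (D (j / p ^ a) x) else 0) =
      P.coeff a • (D j (G^[a] x) - if p ^ a ∣ j then F^[a] (D (j / p ^ a) x) else 0) := by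
    split_ifs
    · rw [smul_sub]
    · rw [sub_zero, sub_zero]
  rw [e]
  exact (h.smul _ _).trans h1.le

/-- **Lemma G', with operators.** `D j : W → V` are the jets, `G` is the Frobenius of `W`. -/
theorem G' [hp : Fact p.Prime] (h : FGap k p gap F) (hB : FSub k gap F BB)
    {G : W →+ W} {D : ℕ → W →ₗ[k] V} (hD : ∀ j x, gap (D (p * j) (G x) - F (D j x)) = 0)
    (hD' : ∀ j x, ¬ p ∣ j → gap (D j (G x)) = 0)
    (hbd : ∀ x, ∃ C, ∀ j, gap (D j x) ≤ C)
    {n : ℕ} {A P₁ P₂ : k[X]} {y b x e : W} (hA : A ≠ 0)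
    (hbeta : ∀ i, gap (D (1 + p ^ (n + 1) * i) b - F^[n + 1] (D i (act G A y))) = 0)
    (hns : D 0 (act G A y) ∉ BB)
    (ha : ∃ J₀, ∀ j, J₀ ≤ j → ∀ R : ℝ, (∀ i, j ≤ i → gap (D i (act G A y)) ≤ R) →
      gap (D j x) ≤ R)
    (hb : ∀ j, 1 ≤ j → (∀ i, j ≤ i → D i (act G A y) ∈ BB) →
      (∃ J₀, ∀ i, J₀ ≤ i → gap (D i (act G A y)) = 0) → D j x ∈ BB)
    (hx : x = act G P₁ y + act G P₂ b + e)
    (heO : ∃ J₀, ∀ j, J₀ ≤ j → gap (D j e) = 0) (heB : ∀ j, 1 ≤ j → D j e ∈ BB) :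
    P₂ = 0 := by
  refine GSys.zero (V := V) (p := p) (gap := gap) (F := F) (BB := BB) (n := n) (A := A)
    (P₁ := P₁) (Y := fun j => D j y) (Z := fun j => D j (act G A y)) (B := fun j => D j b)
    (X := fun j => D j x) (E := fun j => D j e) ?_
  refine ⟨h, hB, hA, fun j => jets_of h hD hD' A y j, hbeta, hbd y, hbd _, hns, ha, hb,
    fun j => ?_, heO, heB⟩
  have h1 := jets_of h hD hD' P₁ y j
  have h2 := jets_of h hD hD' P₂ b j
  have h3 := h.gp.add_le h1.le h2.le
  refine le_antisymm (le_trans (le_of_eq ?_) h3) (h.gp.nonneg _)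
  congr 1
  simp only [hx, map_add]
  abel

end operators

end Pool.Agent.TWIV
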