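import Pool.Agent.Lib.TWIV.Gp
import Pool.Agent.Lib.TWIV.Grow

/-!
# TANK W, leaf (IV): the module of the bounded sequences, with its gap

* `Bd v x`: `x` is bounded in the limit; `GV v R x`: `x` is in `O(-R)` in the limit;
* `BS k v`: the bounded sequences; `gapS v x`: the infimum of the `R` with `GV v R x`;
* `fgapS`: `FGap` for `BS k v`; `BBS`, `fsubS`: the sequences near an element of `RR`;
* `domB`: domination through a contracting recursion.
-/

set_option autoImplicit false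

open Finset Polynomial

namespace Pool.Agent.TWIV

open Pool.Agent.H15JM (RVal)
open Pool.Agent.D2 (Ctx0)
open Pool.Agent.TWM Pool.Agent.TWC

universe u

/-! ### Domination through a contracting recursion -/

section Dom

variable {k V : Type*} [Field k] [AddCommGroup V] [Module k V] {p : ℕ} {gap : V → ℝ}
  {F : V →+ V} {BB : AddSubgroup V} [hp : Fact p.Prime] {X Y E : ℕ → V} {C : ℕ → V →+ V} {r : k}

/-- the recursion bounds the gaps -/
theorem domRa (h : FGap k p gap F) (hC : ∀ j u, p * gap (C j u) ≤ gap u)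
    (hX : ∀ j, 1 ≤ j → gap (X j - C j (X (p * j) + r • Y (p * j) + E (p * j))) = 0)
    {C₀ : ℝ} (hbd : ∀ j, gap (X j) ≤ C₀) {J₀ : ℕ} (hE : ∀ j, J₀ ≤ j → gap (E j) = 0)
    {j : ℕ} (hj1 : 1 ≤ j) (hj : J₀ ≤ j) {R : ℝ} (hR : ∀ i, j ≤ i → gap (Y i) ≤ R) {i : ℕ}
    (hi : j ≤ i) : gap (X i) ≤ R := by
  have hp1 : 1 < p := hp.out.one_lt
  have hp1' : (1 : ℝ) < p := by exact_mod_cast hp1
  have hp0 : (0 : ℝ) < p := by linarith
  have hR0 : 0 ≤ R := (h.gp.nonneg _).trans (hR j le_rfl)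
  have hC0 : 0 ≤ C₀ := (h.gp.nonneg _).trans (hbd 0)
  have h1 : ∀ N : ℕ, ∀ i, j ≤ i → gap (X i) ≤ max R (C₀ / (p : ℝ) ^ N) := by
    intro N
    induction N with
    | zero => intro i _; rw [pow_zero, div_one]; exact (hbd i).trans (le_max_right _ _)
    | succ N ih =>
      intro i hi
      have hpi : i ≤ p * i := Nat.le_mul_of_pos_left _ hp.out.pos
      set S : ℝ := max R (C₀ / (p : ℝ) ^ N) with hS
      have hS0 : 0 ≤ S := hR0.trans (le_max_left _ _)
      have h2 : gap (X (p * i) + r • Y (p * i) + E (p * i)) ≤ S := by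
        refine h.gp.add_le (h.gp.add_le (ih _ (hi.trans hpi)) ?_) ?_
        · exact (h.smul _ _).trans ((hR _ (hi.trans hpi)).trans (le_max_left _ _))
        · rw [hE _ (hj.trans (hi.trans hpi))]
          exact hS0
      have h3 : gap (X i) ≤ S / p := by
        refine h.congr_le (by positivity) (hX i (hj1.trans hi)) ?_
        rw [le_div_iff₀ hp0, mul_comm]
        exact (hC _ _).trans h2
      refine h3.trans ?_
      rw [div_le_iff₀ hp0]
      refine max_le ?_ ?_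
      · refine le_trans ?_ (mul_le_mul_of_nonneg_right (le_max_left _ _) hp0.le)
        exact le_mul_of_one_le_right hR0 hp1'.le
      · refine le_trans (le_of_eq ?_) (mul_le_mul_of_nonneg_right (le_max_right _ _) hp0.le)
        rw [pow_succ, ← div_div]
        field_simp
  by_contra hcon
  push Not at hcon
  have hpos : 0 < gap (X i) := hR0.trans_lt hcon
  obtain ⟨N, hN⟩ := pow_unbounded_of_one_lt (C₀ / gap (X i)) hp1'
  have h2 := h1 N i hi
  rcases le_max_iff.1 h2 with h3 | h3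
  · exact absurd h3 (not_le.2 hcon)
  · have hpN : (0 : ℝ) < (p : ℝ) ^ N := by positivity
    rw [le_div_iff₀ hpN] at h3
    rw [div_lt_iff₀ hpos] at hN
    linarith

/-- the recursion and `BB` -/
theorem domRb (h : FGap k p gap F) (hB : FSub k gap F BB)
    (hC : ∀ j u, p * gap (C j u) ≤ gap u) (hCB : ∀ j, ∀ u ∈ BB, C j u ∈ BB)
    (hX : ∀ j, 1 ≤ j → gap (X j - C j (X (p * j) + r • Y (p * j) + E (p * j))) = 0)
    {C₀ : ℝ} (hbd : ∀ j, gap (X j) ≤ C₀) {J₀ : ℕ} (hE : ∀ j, J₀ ≤ j → gap (E j) = 0)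
    (hEB : ∀ j, 1 ≤ j → E j ∈ BB) {j : ℕ} (hj : 1 ≤ j) (hY : ∀ i, j ≤ i → Y i ∈ BB)
    {J₁ : ℕ} (hfin : ∀ i, J₁ ≤ i → gap (Y i) = 0) {i : ℕ} (hi : j ≤ i) : X i ∈ BB := by
  have hp1 : 1 < p := hp.out.one_lt
  set J := max (max 1 J₀) J₁ with hJ
  have h1 : ∀ i, J ≤ i → gap (X i) = 0 := fun i hi => le_antisymm
    (domRa h hC hX hbd hE (j := J) ((le_max_left _ _).trans (le_max_left _ _))
      ((le_max_right _ _).trans (le_max_left _ _))
      (fun l hl => (hfin l ((le_max_right _ _).trans hl)).le) hi) (h.gp.nonneg _)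
  suffices H : ∀ d i, j ≤ i → J ≤ i + d → X i ∈ BB from H J i hi (Nat.le_add_left _ _)
  intro d
  induction d using Nat.strong_induction_on with
  | _ d ih =>
    intro i hi hid
    by_cases hiJ : J ≤ i
    · exact hB.zero _ (h1 i hiJ)
    have hpi : i < p * i := by
      have h6 : 2 * i ≤ p * i := Nat.mul_le_mul_right _ hp1
      omega
    refine hB.congr (hX i (hj.trans hi)) (hCB _ _ (BB.add_mem (BB.add_mem ?_ ?_) ?_))
    · exact ih (d - 1) (by omega) _ (by omega) (by omega)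
    · exact hB.smul _ _ (hY _ (by omega))
    · exact hEB _ (by omega)

end Dom

/-! ### Bounded sequences -/

section Bd

variable {k Ω : Type u} [Field k] [Field Ω] [Algebra k Ω] {v : RVal Ω}

/-- `x` is bounded in the limit. -/
def Bd (v : RVal Ω) (x : ℕ → Ω) : Prop := ∃ b : ℝ, ∃ N : ℕ, ∀ n, N ≤ n → v.Ge b (x n)

/-- `x` is in `O(-R)` in the limit. -/
def GV (v : RVal Ω) (R : ℝ) (x : ℕ → Ω) : Prop :=
  ∀ ε : ℝ, 0 < ε → ∃ N : ℕ, ∀ n, N ≤ n → v.Ge (-(R + ε)) (x n)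

theorem GV_zero {x : ℕ → Ω} : GV v 0 x ↔ Nul v x := by
  unfold GV Nul
  simp only [zero_add]

theorem GV.mono {R S : ℝ} {x : ℕ → Ω} (h : GV v R x) (hRS : R ≤ S) : GV v S x := fun ε hε => by
  obtain ⟨N, hN⟩ := h ε hε
  exact ⟨N, fun n hn => (hN n hn).mono (by linarith)⟩

theorem GV.of_nul {R : ℝ} (hR : 0 ≤ R) {x : ℕ → Ω} (h : Nul v x) : GV v R x :=
  (GV_zero.2 h).mono hR

theorem GV.add {R : ℝ} {x y : ℕ → Ω} (hx : GV v R x) (hy : GV v R y) :
    GV v R (fun n => x n + y n) := fun ε hε => by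
  obtain ⟨N, hN⟩ := hx ε hε
  obtain ⟨M, hM⟩ := hy ε hε
  exact ⟨max N M, fun n hn => (hN n ((le_max_left _ _).trans hn)).add
    (hM n ((le_max_right _ _).trans hn))⟩

theorem GV.neg {R : ℝ} {x : ℕ → Ω} (hx : GV v R x) : GV v R (fun n => -x n) := fun ε hε => by
  obtain ⟨N, hN⟩ := hx ε hε
  exact ⟨N, fun n hn => (hN n hn).neg⟩

theorem GV.congr {R : ℝ} {x y : ℕ → Ω} (hx : GV v R x) (h : ∀ n, x n = y n) : GV v R y := by
  intro ε hε
  obtain ⟨N, hN⟩ := hx ε hε
  exact ⟨N, fun n hn => by rw [← h n]; exact hN n hn⟩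

/-- an operator of norm `≤ 0` -/
theorem GV.op {R : ℝ} {x : ℕ → Ω} {Φ : Ω → Ω} (hΦ : ∀ n c, v.Ge c (x n) → v.Ge c (Φ (x n)))
    (hx : GV v R x) : GV v R (fun n => Φ (x n)) := fun ε hε => by
  obtain ⟨N, hN⟩ := hx ε hε
  exact ⟨N, fun n hn => hΦ _ _ (hN n hn)⟩

/-- `p`-th powers -/
theorem GV.pow {p : ℕ} (hp : p ≠ 0) {R : ℝ} {x : ℕ → Ω} (hx : GV v R x) :
    GV v (p * R) (fun n => x n ^ p) := fun ε hε => by
  have hp0 : (0 : ℝ) < p := by exact_mod_cast Nat.pos_of_ne_zero hp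
  obtain ⟨N, hN⟩ := hx (ε / p) (by positivity)
  refine ⟨N, fun n hn => ?_⟩
  refine (ge_pow (hN n hn) p).mono (le_of_eq ?_)
  field_simp

/-- `p`-th roots -/
theorem GV.of_pow {p : ℕ} (hp : p ≠ 0) {R : ℝ} {x : ℕ → Ω} (hx : GV v R (fun n => x n ^ p)) :
    GV v (R / p) x := fun ε hε => by
  have hp0 : (0 : ℝ) < p := by exact_mod_cast Nat.pos_of_ne_zero hp
  obtain ⟨N, hN⟩ := hx (p * ε) (by positivity)
  refine ⟨N, fun n hn h0 => ?_⟩
  have h2 := hN n hn (pow_ne_zero _ h0)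
  rw [RVal.map_pow _ h0] at h2
  have h3 : (p : ℝ) * (-(R / p + ε)) ≤ p * v (x n) := by
    have e : (p : ℝ) * (-(R / p + ε)) = -(R + p * ε) := by
      field_simp
    rw [e]
    exact h2
  exact le_of_mul_le_mul_left h3 hp0

theorem Bd.add {x y : ℕ → Ω} (hx : Bd v x) (hy : Bd v y) : Bd v (fun n => x n + y n) := by
  obtain ⟨b, N, hN⟩ := hx
  obtain ⟨c, M, hM⟩ := hy
  exact ⟨min b c, max N M, fun n hn => ((hN n ((le_max_left _ _).trans hn)).mono
    (min_le_left _ _)).add ((hM n ((le_max_right _ _).trans hn)).mono (min_le_right _ _))⟩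

theorem Bd.zero : Bd v (fun _ => (0 : Ω)) := ⟨0, 0, fun _ _ => RVal.Ge.zero⟩

theorem Bd.of_nul {x : ℕ → Ω} (hx : Nul v x) : Bd v x := by
  obtain ⟨N, hN⟩ := hx 1 one_pos
  exact ⟨_, N, hN⟩

theorem Bd.congr {x y : ℕ → Ω} (hx : Bd v x) (h : ∀ n, x n = y n) : Bd v y := by
  obtain ⟨b, N, hN⟩ := hx
  exact ⟨b, N, fun n hn => by rw [← h n]; exact hN n hn⟩

theorem Bd.pow {x : ℕ → Ω} (hx : Bd v x) (m : ℕ) : Bd v (fun n => x n ^ m) := by
  obtain ⟨b, N, hN⟩ := hx
  exact ⟨m * b, N, fun n hn => ge_pow (hN n hn) m⟩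

theorem Bd.op {x : ℕ → Ω} {Φ : Ω → Ω} (hΦ : ∀ n c, v.Ge c (x n) → v.Ge c (Φ (x n)))
    (hx : Bd v x) : Bd v (fun n => Φ (x n)) := by
  obtain ⟨b, N, hN⟩ := hx
  exact ⟨b, N, fun n hn => hΦ _ _ (hN n hn)⟩

theorem Cau.bd {B : IntermediateField k Ω} {x : ℕ → Ω} (hx : Cau v B x) : Bd v x := by
  obtain ⟨N, hN⟩ := hx.cau 1 one_pos
  refine ⟨min (-1) (v (x N)), N, fun n hn => ?_⟩
  have h1 := ((hN n N hn le_rfl).mono (min_le_left _ (v (x N)))).add
    ((RVal.ge_self (v := v) (x N)).mono (min_le_right (-1) _))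
  rwa [sub_add_cancel] at h1

/-- a bound -/
theorem Bd.gl {x : ℕ → Ω} (hx : Bd v x) : ∃ R, 0 ≤ R ∧ GV v R x := by
  obtain ⟨b, N, hN⟩ := hx
  refine ⟨max 0 (-b), le_max_left _ _, fun ε hε => ⟨N, fun n hn => (hN n hn).mono ?_⟩⟩
  have := le_max_right 0 (-b)
  linarith

/-- The gap of a sequence. -/
noncomputable def gapS (v : RVal Ω) (x : ℕ → Ω) : ℝ := sInf {R | 0 ≤ R ∧ GV v R x}

theorem gapS_nonneg (x : ℕ → Ω) : 0 ≤ gapS v x := Real.sInf_nonneg fun _ h => h.1

theorem gapS_le {x : ℕ → Ω} (hx : Bd v x) {R : ℝ} (hR : 0 ≤ R) : gapS v x ≤ R ↔ GV v R x := by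
  constructor
  · intro h ε hε
    have hne : {R | 0 ≤ R ∧ GV v R x}.Nonempty := hx.gl
    obtain ⟨S, hS, hS'⟩ := exists_lt_of_csInf_lt hne
      (show sInf {R | 0 ≤ R ∧ GV v R x} < R + ε / 2 from h.trans_lt (by linarith))
    obtain ⟨N, hN⟩ := hS.2 (ε / 2) (by positivity)
    exact ⟨N, fun n hn => (hN n hn).mono (by linarith)⟩
  · intro h
    exact csInf_le ⟨0, fun _ h => h.1⟩ ⟨hR, h⟩

theorem gapS_eq_zero {x : ℕ → Ω} (hx : Bd v x) : gapS v x = 0 ↔ Nul v x := by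
  rw [← GV_zero, ← gapS_le hx le_rfl]
  exact ⟨fun h => h.le, fun h => le_antisymm h (gapS_nonneg x)⟩

theorem gl_self {x : ℕ → Ω} (hx : Bd v x) : GV v (gapS v x) x :=
  (gapS_le hx (gapS_nonneg x)).1 le_rfl

/-- The bounded sequences. -/
def BS (k : Type u) {Ω : Type u} [Field k] [Field Ω] [Algebra k Ω] (v : RVal Ω)
    [hc : Fact (Ctx0 k v)] : Submodule k (ℕ → Ω) where
  carrier := {x | Bd v x}
  add_mem' hx hy := hx.add hy
  zero_mem' := Bd.zero
  smul_mem' := by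
    intro a x hx
    refine (hx.op (Φ := fun y => a • y) fun n c hc' => ?_)
    rw [Algebra.smul_def]
    have := (hc.out.ge a).mul hc'
    rwa [zero_add] at this

variable [hc : Fact (Ctx0 k v)] (p : ℕ) [hp : Fact p.Prime] [CharP Ω p]

/-- The Frobenius of the bounded sequences. -/
def frB (k : Type u) {Ω : Type u} [Field k] [Field Ω] [Algebra k Ω] (v : RVal Ω)
    [hc : Fact (Ctx0 k v)] (p : ℕ) [hp : Fact p.Prime] [CharP Ω p] : BS k v →+ BS k v where
  toFun x := ⟨fun n => (x : ℕ → Ω) n ^ p, Bd.pow x.2 p⟩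
  map_zero' := Subtype.ext (funext fun n => by
    change (0 : Ω) ^ p = 0
    exact zero_pow hp.out.ne_zero)
  map_add' x y := Subtype.ext (funext fun n => by
    change ((x : ℕ → Ω) n + (y : ℕ → Ω) n) ^ p = _
    exact add_pow_char _ _ _)

theorem frB_apply (x : BS k v) (n : ℕ) : (frB k v p x : ℕ → Ω) n = (x : ℕ → Ω) n ^ p := rfl

/-- **The gap of the bounded sequences.** -/
theorem fgapS : FGap k p (fun x : BS k v => gapS v (x : ℕ → Ω)) (frB k v p) where
  gp :=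
    { nonneg := fun x => gapS_nonneg _
      zero := (gapS_eq_zero (v := v) Bd.zero).2 Nul.zero
      add := fun x y => by
        refine (gapS_le (x + y : BS k v).2 (le_max_of_le_left (gapS_nonneg _))).2 ?_
        exact ((gl_self x.2).mono (le_max_left _ _)).add ((gl_self y.2).mono (le_max_right _ _))
      neg := fun x => by
        refine le_antisymm ?_ ?_
        · refine (gapS_le (-x : BS k v).2 (gapS_nonneg _)).2 ?_
          exact (gl_self x.2).neg
        · refine (gapS_le x.2 (gapS_nonneg _)).2 ?_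
          exact (gl_self (-x : BS k v).2).neg.congr fun n => by
            change -(-(x : ℕ → Ω) n) = _
            exact neg_neg _ }
  smul c x := by
    refine (gapS_le (c • x : BS k v).2 (gapS_nonneg _)).2 ?_
    refine (gl_self x.2).op (Φ := fun y => c • y) fun n b hb => ?_
    rw [Algebra.smul_def]
    have := (hc.out.ge c).mul hb
    rwa [zero_add] at this
  frob x := by
    have hp0 : (0 : ℝ) < p := by exact_mod_cast hp.out.pos
    refine le_antisymm ?_ ?_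
    · refine (gapS_le (frB k v p x).2 (by have := gapS_nonneg (v := v) (x : ℕ → Ω); positivity)).2 ?_
      exact (gl_self x.2).pow hp.out.ne_zero
    · have h1 : gapS v (x : ℕ → Ω) ≤ gapS v (frB k v p x : ℕ → Ω) / p := by
        refine (gapS_le x.2 (div_nonneg (gapS_nonneg _) hp0.le)).2 ?_
        exact (gl_self (frB k v p x).2).of_pow hp.out.ne_zero
      rw [le_div_iff₀ hp0] at h1
      linarith

/-- The sequences near an element of `RR`. -/
def BBS (v : RVal Ω) [hc : Fact (Ctx0 k v)] (RR : Submodule k Ω) : AddSubgroup (BS k v) where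
  carrier := {x | NR v RR (x : ℕ → Ω)}
  add_mem' hx hy := hx.add hy
  zero_mem' := NR.of_nul Nul.zero
  neg_mem' hx := hx.neg

theorem mem_BBS {RR : Submodule k Ω} (x : BS k v) : x ∈ BBS v RR ↔ NR v RR (x : ℕ → Ω) := Iff.rfl

/-- stability -/
theorem fsubS {RR : Submodule k Ω} (hrt : ∀ x ∈ RR, ∃ w ∈ RR, w ^ p = x)
    (hfr : ∀ x ∈ RR, x ^ p ∈ RR) :
    FSub k (fun x : BS k v => gapS v (x : ℕ → Ω)) (frB k v p) (BBS v RR) where
  smul c x hx := by
    refine (NR.smul c hx).congr fun n => ?_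
    rw [← Algebra.smul_def]
    rfl
  frob x hx := by
    refine (NR.pow p hfr 1 hx).congr fun n => ?_
    rw [pow_one]
    rfl
  root x hx := NR.root p hrt hx
  zero x hx := NR.of_nul ((gapS_eq_zero x.2).1 hx)

end Bd

end Pool.Agent.TWIV
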