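import Pool.Agent.Lib.TWIV.Grow

/-!
# TANK W, leaf (IV): growth and descent of the jets, filtered form

The same as `Grow`, with an increasing family `S : ℕ → Submodule k Ω` instead of one submodule: the
operators preserve every `S i`, a `p`-th root leads from `S i` to `S (i + 1)`, for `i < D`; and the
elements `o j` are only integral and multipliers of every `S i` (no residues).

* `GrwF`: the data;
* `GrwF.A_nul`, `GrwF.desc`, `GrwF.fin`.
-/

set_option autoImplicit false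

namespace Pool.Agent.TWIV

open Pool.Agent.H15JM (RVal)
open Pool.Agent.D2 (Ctx0)
open Pool.Agent.TWM Pool.Agent.TWC

universe u

variable {k Ω : Type u} [Field k] [Field Ω] [Algebra k Ω] {v : RVal Ω}

namespace NR

variable {S S' : Submodule k Ω} {x : ℕ → Ω}

theorem mono (h : S ≤ S') (hx : NR v S x) : NR v S' x := by
  obtain ⟨r, hr, h1⟩ := hx
  exact ⟨r, h hr, h1⟩

theorem root' (p : ℕ) [Fact p.Prime] [CharP Ω p] (hS : ∀ x ∈ S, ∃ y ∈ S', y ^ p = x)
    (hx : NR v S (fun n => x n ^ p)) : NR v S' x := by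
  obtain ⟨r, hr, h1⟩ := hx
  obtain ⟨s, hs, rfl⟩ := hS r hr
  exact ⟨s, hs, Nul.of_pow (Fact.out : p.Prime).ne_zero
    (h1.congr fun n => by rw [sub_pow_char])⟩

end NR

variable {T : Submodule k Ω} {S : ℕ → Submodule k Ω} {D : ℕ} {ι : Type} [Fintype ι] {N : ℕ}
  {q : ι → ℕ → k} {o : ι → Ω} {μ : ℝ}
  {Φ : ℕ → ι → ι → Ω → Ω} {F : ι → ℕ → Ω} {A : ℕ → ℕ → Ω} {b : ℕ → ι → ℕ → Ω} {J₁ : ℕ}

/-- The data of the growth lemma, filtered form. -/
structure GrwF (p : ℕ) (v : RVal Ω) (T : Submodule k Ω) (S : ℕ → Submodule k Ω) (D : ℕ)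
    {ι : Type} [Fintype ι] (N : ℕ)
    (q : ι → ℕ → k) (o : ι → Ω) (μ : ℝ) (Φ : ℕ → ι → ι → Ω → Ω) (F : ι → ℕ → Ω)
    (A : ℕ → ℕ → Ω) (b : ℕ → ι → ℕ → Ω) (J₁ : ℕ) : Prop where
  ST : ∀ i, S i ≤ T
  SS : ∀ i, S i ≤ S (i + 1)
  bT : ∀ n j L, b n j L ∈ T
  Φsub : ∀ L j l, ∀ x ∈ T, ∀ y ∈ T, Φ L j l (x - y) = Φ L j l x - Φ L j l y
  Φge : ∀ L j l, ∀ x ∈ T, ∀ c : ℝ, v.Ge c x → v.Ge c (Φ L j l x)
  ΦS : ∀ L j l i, ∀ x ∈ S i, Φ L j l x ∈ S i
  rt : ∀ i < D, ∀ x ∈ S i, ∃ y ∈ S (i + 1), y ^ p = x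
  fr : ∀ i, ∀ x ∈ S i, x ^ p ∈ S i
  FS : ∀ j L, F j L ∈ S 0
  F0 : ∀ j L, J₁ ≤ L → F j L = 0
  oS : ∀ j i, ∀ x ∈ S i, o j * x ∈ S i
  o0 : ∀ j, v.Ge 0 (o j)
  Aμ : ∀ n J, v.Ge (-μ) (A n J)
  deg : ∀ n, ∃ D : ℕ, ∀ L, D ≤ L → A n L = 0 ∧ ∀ j, b n j L = 0
  rel₁ : ∀ ε : ℝ, 0 < ε → ∃ n₀ : ℕ, ∀ n, n₀ ≤ n → ∀ j L, 1 ≤ L → v.Ge (-ε) (b n j L ^ p -
    (∑ l, Φ (p * L) j l (b n l (p * L)) + o j * A n (p * L) + F j (p * L)))
  rel₂ : ∀ ε : ℝ, 0 < ε → ∃ n₀ : ℕ, ∀ n, n₀ ≤ n → ∀ j L, ¬ p ∣ L → v.Ge (-ε)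
    (∑ l, Φ L j l (b n l L) + o j * A n L + F j L +
      ∑ i ∈ (Finset.Icc 1 N).filter (fun i => p ^ i ∣ L - 1),
        algebraMap k Ω (q j i) * A n ((L - 1) / p ^ i) ^ p ^ i)

namespace GrwF

variable {p : ℕ} [hk : Fact (Ctx0 k v)]

theorem SS' (h : GrwF p v T S D N q o μ Φ F A b J₁) {i i' : ℕ} (hi : i ≤ i') : S i ≤ S i' := by
  induction i', hi using Nat.le_induction with
  | base => exact le_rfl
  | succ i' _ ih => exact ih.trans (h.SS i')

variable [Fact p.Prime]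

theorem b_ge (h : GrwF p v T S D N q o μ Φ F A b J₁) {n : ℕ} {ε β : ℝ} (hε : 0 < ε) (hβ : ε ≤ β)
    (h1 : ∀ j L, 1 ≤ L → v.Ge (-ε) (b n j L ^ p -
      (∑ l, Φ (p * L) j l (b n l (p * L)) + o j * A n (p * L) + F j (p * L))))
    (hA : ∀ J, 1 ≤ J → J₁ ≤ J → v.Ge (-β) (A n J)) :
    ∀ j L, 1 ≤ L → J₁ ≤ L → v.Ge (-β) (b n j L) := by
  have hp : p.Prime := Fact.out
  have hp2 := hp.two_le
  have hp0 : (0 : ℝ) < p := by exact_mod_cast hp.pos
  obtain ⟨D, hD⟩ := h.deg n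
  have h2 : ∀ m j L, 1 ≤ L → J₁ ≤ L → D ≤ L + m → v.Ge (-β) (b n j L) := by
    intro m
    induction m with
    | zero =>
      intro j L _ _ hL
      rw [(hD L hL).2 j]
      exact RVal.Ge.zero
    | succ m ih =>
      intro j L hL1 hLJ hL
      have hpL : L + 1 ≤ p * L := by nlinarith
      have h3 : v.Ge (-β) (b n j L ^ p) := by
        have h4 := (h1 j L hL1).mono (show -β ≤ -ε by linarith)
        have h5 : v.Ge (-β) (∑ l, Φ (p * L) j l (b n l (p * L)) + o j * A n (p * L) +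
            F j (p * L)) := by
          refine (RVal.Ge.add (RVal.Ge.sum _ _ fun l _ => ?_) ?_).add ?_
          · exact h.Φge _ _ _ _ (h.bT _ _ _) _ (ih l _ (by omega) (by omega) (by omega))
          · have h6 := (h.o0 j).mul (hA (p * L) (by omega) (by omega))
            rwa [zero_add] at h6
          · rw [h.F0 j _ (by omega)]
            exact RVal.Ge.zero
        have h6 := h4.add h5
        rwa [sub_add_cancel] at h6
      intro h0
      have h4 := h3 (pow_ne_zero _ h0)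
      rw [RVal.map_pow _ h0] at h4
      have h5 : (1 : ℝ) ≤ p := by exact_mod_cast hp.one_lt.le
      by_contra h6
      rw [not_le] at h6
      have h7 : (p : ℝ) * v (b n j L) < (p : ℝ) * (-β) := mul_lt_mul_of_pos_left h6 hp0
      nlinarith
  exact fun j L hL1 hLJ => h2 D j L hL1 hLJ (by omega)

include hk in
theorem A_step (h : GrwF p v T S D N q o μ Φ F A b J₁) (hN : 1 ≤ N) {j₀ : ι} (hq : q j₀ N ≠ 0)
    {n : ℕ} {ε β : ℝ} (hε : 0 < ε) (hβ : ε ≤ β)
    (h1 : ∀ j L, 1 ≤ L → v.Ge (-ε) (b n j L ^ p -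
      (∑ l, Φ (p * L) j l (b n l (p * L)) + o j * A n (p * L) + F j (p * L))))
    (h2 : ∀ j L, ¬ p ∣ L → v.Ge (-ε) (∑ l, Φ L j l (b n l L) + o j * A n L + F j L +
      ∑ i ∈ (Finset.Icc 1 N).filter (fun i => p ^ i ∣ L - 1),
        algebraMap k Ω (q j i) * A n ((L - 1) / p ^ i) ^ p ^ i))
    (hA : ∀ J, 1 ≤ J → J₁ ≤ J → v.Ge (-β) (A n J)) :
    ∀ J, 1 ≤ J → J₁ ≤ J → v.Ge (-(β / p)) (A n J) := by
  classical
  have hp : p.Prime := Fact.out
  have hp2 := hp.two_le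
  have hp0 : (0 : ℝ) < p := by exact_mod_cast hp.pos
  have hp1 : (1 : ℝ) ≤ p := by exact_mod_cast hp.one_lt.le
  have hβ0 : 0 < β := hε.trans_le hβ
  have hb := h.b_ge hε hβ h1 hA
  intro J hJ1 hJJ
  set L : ℕ := 1 + p ^ N * J with hL
  have hL1 : L - 1 = p ^ N * J := by omega
  have hJL : J ≤ p ^ N * J := Nat.le_mul_of_pos_left _ (pow_pos hp.pos _)
  have hpL : ¬ p ∣ L := by
    intro hd
    have h3 : p ∣ p ^ N * J := (dvd_pow_self p (by omega)).mul_right J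
    have h4 : p ∣ 1 := (Nat.dvd_add_left h3).1 hd
    exact hp.one_lt.ne' (Nat.dvd_one.1 h4)
  have h3 := h2 j₀ L hpL
  have h4 : (Finset.Icc 1 N).filter (fun i => p ^ i ∣ L - 1) = Finset.Icc 1 N := by
    refine Finset.filter_true_of_mem fun i hi => ?_
    rw [hL1]
    exact (pow_dvd_pow p (Finset.mem_Icc.1 hi).2).mul_right J
  rw [h4, hL1, ← Finset.add_sum_erase _ _ (Finset.mem_Icc.2 ⟨hN, le_rfl⟩)] at h3
  have h5 : p ^ N * J / p ^ N = J := Nat.mul_div_cancel_left J (pow_pos hp.pos N)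
  rw [h5] at h3
  set c : ℝ := (p : ℝ) ^ (N - 1) with hc
  have hc1 : 1 ≤ c := one_le_pow₀ hp1
  have hcβ : β ≤ c * β := le_mul_of_one_le_left hβ0.le hc1
  have h6 : v.Ge (-(c * β)) (∑ l, Φ L j₀ l (b n l L) + o j₀ * A n L + F j₀ L) := by
    refine (RVal.Ge.add (RVal.Ge.sum _ _ fun l _ => ?_) ?_).add ?_
    · exact h.Φge _ _ _ _ (h.bT _ _ _) _ ((hb l L (by omega) (by omega)).mono (by linarith))
    · have h7 := (h.o0 j₀).mul (hA L (by omega) (by omega))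
      exact h7.mono (by linarith)
    · rw [h.F0 j₀ _ (by omega)]
      exact RVal.Ge.zero
  have h7 : v.Ge (-(c * β)) (∑ i ∈ (Finset.Icc 1 N).erase N,
      algebraMap k Ω (q j₀ i) * A n (p ^ N * J / p ^ i) ^ p ^ i) := by
    refine RVal.Ge.sum _ _ fun i hi => ?_
    obtain ⟨hi1, hi2⟩ := Finset.mem_erase.1 hi
    obtain ⟨hi3, hi4⟩ := Finset.mem_Icc.1 hi2
    have h8 : p ^ N * J / p ^ i = p ^ (N - i) * J := by
      rw [show N = i + (N - i) by omega, pow_add, mul_assoc,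
        Nat.mul_div_cancel_left _ (pow_pos hp.pos i), show i + (N - i) - i = N - i by omega]
    have h9 : J ≤ p ^ (N - i) * J := Nat.le_mul_of_pos_left _ (pow_pos hp.pos _)
    rw [h8]
    have h10 := ge_pow (hA (p ^ (N - i) * J) (by omega) (by omega)) (p ^ i)
    have h11 := (hk.out.ge (q j₀ i)).mul h10
    refine h11.mono ?_
    have h12 : (p : ℝ) ^ i ≤ c := pow_le_pow_right₀ hp1 (by omega)
    have h13 : (p : ℝ) ^ i * β ≤ c * β := mul_le_mul_of_nonneg_right h12 hβ0.le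
    push_cast
    linarith
  have h8 : v.Ge (-(c * β)) (algebraMap k Ω (q j₀ N) * A n J ^ p ^ N) := by
    have h9 := (h3.mono (show -(c * β) ≤ -ε by linarith)).sub (h6.add h7)
    refine Eq.mp (congrArg (fun w => v.Ge (-(c * β)) w) ?_) h9
    ring
  have h9 : v.Ge (-(c * β)) (A n J ^ p ^ N) := by
    have h10 := (hk.out.ge (q j₀ N)⁻¹).mul h8
    rw [zero_add, ← mul_assoc, ← map_mul, inv_mul_cancel₀ hq, map_one, one_mul] at h10
    exact h10
  intro h0
  have h10 := h9 (pow_ne_zero _ h0)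
  rw [RVal.map_pow _ h0] at h10
  push_cast at h10
  have h11 : (p : ℝ) ^ N = c * p := by
    rw [hc, ← pow_succ, show N - 1 + 1 = N by omega]
  rw [h11] at h10
  have hc0 : 0 < c := by linarith
  have h12 : -β ≤ p * v (A n J) := by
    have h13 : c * (-β) ≤ c * (p * v (A n J)) := by linarith
    exact le_of_mul_le_mul_left h13 hc0
  rw [← neg_div, div_le_iff₀ hp0]
  linarith

include hk in
/-- The jets `A n J` converge to `0` up to `0`, uniformly in `J ≥ J₁`. -/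
theorem A_nul (h : GrwF p v T S D N q o μ Φ F A b J₁) (hN : 1 ≤ N) {j₀ : ι} (hq : q j₀ N ≠ 0)
    {ε : ℝ} (hε : 0 < ε) : ∃ n₀ : ℕ, ∀ n, n₀ ≤ n → ∀ J, 1 ≤ J → J₁ ≤ J →
      v.Ge (-ε) (A n J) ∧ ∀ j, v.Ge (-ε) (b n j J) := by
  have hp : p.Prime := Fact.out
  have hp0 : (0 : ℝ) < p := by exact_mod_cast hp.pos
  have hp1 : (1 : ℝ) < p := by exact_mod_cast hp.one_lt
  obtain ⟨n₁, h1⟩ := h.rel₁ ε hε
  obtain ⟨n₂, h2⟩ := h.rel₂ ε hε
  refine ⟨max n₁ n₂, fun n hn => ?_⟩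
  have h1n := h1 n ((le_max_left _ _).trans hn)
  have h2n := h2 n ((le_max_right _ _).trans hn)
  have h3 : ∀ m : ℕ, ∀ J, 1 ≤ J → J₁ ≤ J → v.Ge (-(max (μ / (p : ℝ) ^ m) ε)) (A n J) := by
    intro m
    induction m with
    | zero =>
      intro J _ _
      refine (h.Aμ n J).mono ?_
      rw [pow_zero, div_one]
      exact neg_le_neg (le_max_left _ _)
    | succ m ih =>
      intro J hJ hJ'
      refine (h.A_step hN hq hε (le_max_right _ _) h1n h2n ih J hJ hJ').mono ?_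
      refine neg_le_neg ?_
      rw [div_le_iff₀ hp0]
      refine max_le ?_ ?_
      · calc μ / (p : ℝ) ^ m = μ / (p : ℝ) ^ (m + 1) * p := by
              rw [pow_succ]
              field_simp
          _ ≤ _ := mul_le_mul_of_nonneg_right (le_max_left _ _) hp0.le
      · calc ε ≤ ε * p := by nlinarith
          _ ≤ _ := mul_le_mul_of_nonneg_right (le_max_right _ _) hp0.le
  obtain ⟨m, hm⟩ : ∃ m : ℕ, μ / (p : ℝ) ^ m ≤ ε := by
    obtain ⟨m, hm⟩ := pow_unbounded_of_one_lt (μ / ε) hp1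
    refine ⟨m, ?_⟩
    rw [div_lt_iff₀ hε] at hm
    rw [div_le_iff₀ (by positivity)]
    linarith
  have h4 : ∀ J, 1 ≤ J → J₁ ≤ J → v.Ge (-ε) (A n J) := by
    intro J hJ hJ'
    have := h3 m J hJ hJ'
    rwa [max_eq_right hm] at this
  exact fun J hJ hJ' => ⟨h4 J hJ hJ', fun j => h.b_ge hε le_rfl h1n h4 j J hJ hJ'⟩

omit [Fact p.Prime] in
/-- The product with `o j`. -/
theorem NR_o (h : GrwF p v T S D N q o μ Φ F A b J₁) (j : ι) {i : ℕ} {x : ℕ → Ω}
    (hJ : NR v (S i) x) : NR v (S i) fun n => o j * x n := by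
  obtain ⟨r, hr, h1⟩ := hJ
  exact ⟨o j * r, h.oS j i r hr, (h1.mul_ge (c := fun _ => o j) fun _ => h.o0 j).congr
    fun n => by ring⟩

variable [CharP Ω p]

/-- Iterated roots. -/
theorem NR_rt (h : GrwF p v T S D N q o μ Φ F A b J₁) {x : ℕ → Ω} : ∀ (a i : ℕ), i + a ≤ D →
    (NR v (S i) fun n => x n ^ p ^ a) → NR v (S (i + a)) x := by
  intro a
  induction a with
  | zero => exact fun i _ h10 => h10.congr fun n => by rw [pow_zero, pow_one]
  | succ a ih =>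
    intro i hi h10
    have h11 : NR v (S (i + 1)) fun n => x n ^ p ^ a := by
      refine NR.root' p (h.rt i (by omega)) (h10.congr fun n => ?_)
      rw [pow_succ, pow_mul]
    have h12 := ih (i + 1) (by omega) h11
    rwa [show i + 1 + a = i + (a + 1) by omega] at h12

include hk in
/-- All jets of order `≥ 1` converge to elements of `S (N * m)`. -/
theorem desc (h : GrwF p v T S D N q o μ Φ F A b J₁) (hN : 1 ≤ N) {j₀ : ι} (hq : q j₀ N ≠ 0) :
    ∀ m L : ℕ, 1 ≤ L → J₁ ≤ L + m → N * m ≤ D →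
      (∀ j, NR v (S (N * m)) fun n => b n j L) ∧ NR v (S (N * m)) fun n => A n L := by
  classical
  have hp : p.Prime := Fact.out
  have hp2 := hp.two_le
  intro m
  induction m with
  | zero =>
    intro L hL hL' _
    refine ⟨fun j => NR.of_nul fun ε hε => ?_, NR.of_nul fun ε hε => ?_⟩
    · obtain ⟨n₀, h1⟩ := h.A_nul hN hq hε
      exact ⟨n₀, fun n hn => (h1 n hn L hL hL').2 j⟩
    · obtain ⟨n₀, h1⟩ := h.A_nul hN hq hε
      exact ⟨n₀, fun n hn => (h1 n hn L hL hL').1⟩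
  | succ m ih =>
    intro L hL hL' hD
    have hNm : N * (m + 1) = N * m + N := by ring
    -- the jets of larger order
    have ih' : ∀ K : ℕ, L + 1 ≤ K →
        (∀ j, NR v (S (N * m)) fun n => b n j K) ∧ NR v (S (N * m)) fun n => A n K :=
      fun K hK => ih K (by omega) (by omega) (by omega)
    have hb : ∀ j, NR v (S (N * m + 1)) fun n => b n j L := by
      intro j
      have hpL : L + 1 ≤ p * L := by nlinarith
      obtain ⟨h1, h2⟩ := ih' (p * L) hpL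
      refine NR.root' p (h.rt (N * m) (by omega)) ?_
      have h3 : NR v (S (N * m)) fun n => ∑ l, Φ (p * L) j l (b n l (p * L)) +
          o j * A n (p * L) + F j (p * L) :=
        ((NR.sum _ (fun l n => Φ (p * L) j l (b n l (p * L))) fun l _ =>
          NR.op (h.ST _) (h.Φsub _ _ _) (h.Φge _ _ _) (h.ΦS _ _ _ _) (fun n => h.bT _ _ _)
            (h1 l)).add (h.NR_o j h2)).add (NR.const (h.SS' (Nat.zero_le _) (h.FS _ _)))
      have h4 : NR v (S (N * m)) fun n => b n j L ^ p - (∑ l, Φ (p * L) j l (b n l (p * L)) +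
          o j * A n (p * L) + F j (p * L)) := by
        refine NR.of_nul fun ε hε => ?_
        obtain ⟨n₀, h5⟩ := h.rel₁ ε hε
        exact ⟨n₀, fun n hn => h5 n hn j L hL⟩
      exact (h4.add h3).congr fun n => sub_add_cancel _ _
    refine ⟨fun j => (hb j).mono (h.SS' (by omega)), ?_⟩
    -- the relation at `1 + p ^ N * L`
    set K : ℕ := 1 + p ^ N * L with hK
    have hK1 : K - 1 = p ^ N * L := by omega
    have hLK : L ≤ p ^ N * L := Nat.le_mul_of_pos_left _ (pow_pos hp.pos _)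
    have hpK : ¬ p ∣ K := by
      intro hd
      have h3 : p ∣ p ^ N * L := (dvd_pow_self p (by omega)).mul_right L
      have h4 : p ∣ 1 := (Nat.dvd_add_left h3).1 hd
      exact hp.one_lt.ne' (Nat.dvd_one.1 h4)
    obtain ⟨h1, h2⟩ := ih' K (by omega)
    have h3 : (Finset.Icc 1 N).filter (fun i => p ^ i ∣ K - 1) = Finset.Icc 1 N := by
      refine Finset.filter_true_of_mem fun i hi => ?_
      rw [hK1]
      exact (pow_dvd_pow p (Finset.mem_Icc.1 hi).2).mul_right L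
    have h4 : NR v (S (N * m)) fun n => ∑ l, Φ K j₀ l (b n l K) + o j₀ * A n K + F j₀ K +
        ∑ i ∈ Finset.Icc 1 N, algebraMap k Ω (q j₀ i) * A n (p ^ N * L / p ^ i) ^ p ^ i := by
      refine NR.of_nul fun ε hε => ?_
      obtain ⟨n₀, h5⟩ := h.rel₂ ε hε
      refine ⟨n₀, fun n hn => ?_⟩
      have h6 := h5 n hn j₀ K hpK
      rwa [h3, hK1] at h6
    have h5 : NR v (S (N * m)) fun n => ∑ l, Φ K j₀ l (b n l K) + o j₀ * A n K + F j₀ K :=
      ((NR.sum _ (fun l n => Φ K j₀ l (b n l K)) fun l _ =>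
        NR.op (h.ST _) (h.Φsub _ _ _) (h.Φge _ _ _) (h.ΦS _ _ _ _) (fun n => h.bT _ _ _)
          (h1 l)).add (h.NR_o j₀ h2)).add (NR.const (h.SS' (Nat.zero_le _) (h.FS _ _)))
    have h6 : NR v (S (N * m)) fun n => ∑ i ∈ (Finset.Icc 1 N).erase N,
        algebraMap k Ω (q j₀ i) * A n (p ^ N * L / p ^ i) ^ p ^ i := by
      refine NR.sum _ (fun i n => algebraMap k Ω (q j₀ i) * A n (p ^ N * L / p ^ i) ^ p ^ i)
        fun i hi => ?_
      obtain ⟨hi1, hi2⟩ := Finset.mem_erase.1 hi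
      obtain ⟨hi3, hi4⟩ := Finset.mem_Icc.1 hi2
      have h8 : p ^ N * L / p ^ i = p ^ (N - i) * L := by
        rw [show N = i + (N - i) by omega, pow_add, mul_assoc,
          Nat.mul_div_cancel_left _ (pow_pos hp.pos i), show i + (N - i) - i = N - i by omega]
      have h9 : L + 1 ≤ p ^ (N - i) * L := by
        have h10 : 2 ≤ p ^ (N - i) := hp2.trans (Nat.le_self_pow (by omega) p)
        nlinarith
      refine NR.smul _ (NR.pow p (h.fr _) i ?_)
      rw [h8]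
      exact (ih' _ h9).2
    have h7 : NR v (S (N * m)) fun n => algebraMap k Ω (q j₀ N) * A n L ^ p ^ N := by
      refine (h4.sub (h5.add h6)).congr fun n => ?_
      rw [← Finset.add_sum_erase _ _ (Finset.mem_Icc.2 ⟨hN, le_rfl⟩),
        Nat.mul_div_cancel_left L (pow_pos hp.pos N)]
      ring
    have h8 : NR v (S (N * m)) fun n => A n L ^ p ^ N := by
      refine (NR.smul (q j₀ N)⁻¹ h7).congr fun n => ?_
      rw [← mul_assoc, ← map_mul, inv_mul_cancel₀ hq, map_one, one_mul]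
    rw [hNm]
    exact h.NR_rt N (N * m) (by omega) h8

include hk in
/-- The relation of order `1`. -/
theorem fin (h : GrwF p v T S D N q o μ Φ F A b J₁) (hD : N * J₁ ≤ D) (hN : 1 ≤ N) {j₀ : ι}
    (hq : q j₀ N ≠ 0) : NR v (S (N * J₁)) fun n =>
      ∑ i ∈ Finset.Icc 1 N, algebraMap k Ω (q j₀ i) * A n 0 ^ p ^ i := by
  classical
  have hp : p.Prime := Fact.out
  obtain ⟨h1, h2⟩ := h.desc hN hq J₁ 1 le_rfl (by omega) hD
  have h3 : NR v (S (N * J₁)) fun n => ∑ l, Φ 1 j₀ l (b n l 1) + o j₀ * A n 1 + F j₀ 1 +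
      ∑ i ∈ Finset.Icc 1 N, algebraMap k Ω (q j₀ i) * A n 0 ^ p ^ i := by
    refine NR.of_nul fun ε hε => ?_
    obtain ⟨n₀, h5⟩ := h.rel₂ ε hε
    refine ⟨n₀, fun n hn => ?_⟩
    have h6 := h5 n hn j₀ 1 (fun hd => hp.one_lt.ne' (Nat.dvd_one.1 hd))
    rw [Nat.sub_self, Finset.filter_true_of_mem fun i _ => dvd_zero _] at h6
    simpa only [Nat.zero_div] using h6
  have h5 : NR v (S (N * J₁)) fun n => ∑ l, Φ 1 j₀ l (b n l 1) + o j₀ * A n 1 + F j₀ 1 :=
    ((NR.sum _ (fun l n => Φ 1 j₀ l (b n l 1)) fun l _ =>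
      NR.op (h.ST _) (h.Φsub _ _ _) (h.Φge _ _ _) (h.ΦS _ _ _ _) (fun n => h.bT _ _ _)
        (h1 l)).add (h.NR_o j₀ h2)).add (NR.const (h.SS' (Nat.zero_le _) (h.FS _ _)))
  exact (h3.sub h5).congr fun n => by ring

end GrwF

end Pool.Agent.TWIV
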