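import Pool.Agent.Lib.TWIV.A2P
import Pool.Agent.Lib.TWC.Exch
import Pool.Agent.Lib.TWC.Tow

/-!
# TANK W, tame case, shape (1,2)': changes of the generators

* `tl_aff`, `tow_chg`: the generator `y` of a tower may be replaced by `c y + e + o`;
* `ftb_of_tl`: no Frobenius torsion over `B` in `cadj v B z`.
-/

set_option autoImplicit false

open Polynomial

namespace Pool.Agent.TWIV

open Pool.Agent.H15JM (RVal)
open Pool.Agent.LU1 (VPos adj)
open Pool.Agent.D2 (Ctx0)
open Pool.Agent.D2P (hen clI mem_clI)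
open Pool.Agent.TWM Pool.Agent.TWC

universe u

variable {k Ω : Type u} [Field k] [Field Ω] [Algebra k Ω] {v : RVal Ω} [IsAlgClosed Ω]
  {A B T : IntermediateField k Ω} {p : ℕ} {y z w e : Ω} {c : k}

theorem tl_aux (hk : Ctx0 k v) (h : TL v A y 0) (hc : c ≠ 0) (he : e ∈ A)
    (h0 : v.Ge 0 (w - (algebraMap k Ω c * y + e))) :
    ∃ u : Ω, TL v A u 0 ∧ cadj v A u = cadj v A y ∧ Gt v 0 (w - u) := by
  obtain ⟨κ, h1⟩ := hk.residue h0
  have hc0 : algebraMap k Ω c ≠ 0 := (_root_.map_ne_zero _).2 hc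
  have hcA : algebraMap k Ω c ∈ A := A.algebraMap_mem c
  have hf : e + algebraMap k Ω κ ∈ A := add_mem he (A.algebraMap_mem κ)
  refine ⟨algebraMap k Ω c * y + (e + algebraMap k Ω κ), ?_, cadj_affine hcA hc0 hf, ?_⟩
  · have h2 := h.affine hcA hc0 hf
    rwa [hk.triv c hc, zero_add] at h2
  · have h3 : w - (algebraMap k Ω c * y + (e + algebraMap k Ω κ)) =
        w - (algebraMap k Ω c * y + e) - algebraMap k Ω κ := by ring
    rwa [h3]

/-- `w = c y + e + o`, `c ≠ 0` in `k`, `e ∈ A`, `o` integral. -/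
theorem tl_aff (hk : Ctx0 k v) (h : TL v A y 0) (hc : c ≠ 0) (he : e ∈ A)
    (h0 : v.Ge 0 (w - (algebraMap k Ω c * y + e))) : TL v A w 0 := by
  obtain ⟨u, h1, -, h2⟩ := tl_aux hk h hc he h0
  exact h1.congr h2

/-- The first generator of a tower may be changed modulo the integral elements. -/
theorem tow_chg (hk : Ctx0 k v) (h : TL v A y 0) {n : ℕ} (hT : Tow v n (cadj v A y) T)
    (hc : c ≠ 0) (he : e ∈ A) (hw : w ∈ T) (h0 : v.Ge 0 (w - (algebraMap k Ω c * y + e))) :
    TL v A w 0 ∧ Tow v n (cadj v A w) T := by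
  obtain ⟨u, h1, h2, h3⟩ := tl_aux hk h hc he h0
  refine ⟨h1.congr h3, ?_⟩
  obtain ⟨e', he', hge⟩ : ∃ e' : ℝ, 0 < e' ∧ v.Ge (0 + e') (w - u) := by
    by_cases h0 : w - u = 0
    · exact ⟨1, one_pos, by rw [h0]; exact RVal.Ge.zero⟩
    · exact ⟨v (w - u), h3 h0, fun _ => by rw [zero_add]⟩
  have hT' : Tow v n (cadj v A u) T := by rwa [h2]
  have hB : Cld v T := hT'.cld
  have huT : cadj v A u ≤ T := hT'.le (cld_cadj v A u)
  exact hT'.near (cld_cadj v A w) (cadj_le hB ((le_cadj v A u).trans huT) hw) he'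
    (tl_gn_of_ge h1 he' hge) (tl_gn_of_ge (h1.congr h3) he' (ge_sub_comm hge))

/-- An additive polynomial of `z` near to the base is `0`. -/
theorem coeff_zero_of_near (hk : Ctx0 k v) [Fact p.Prime] [CharP Ω p] (h : TL v B z 0) {N : ℕ}
    {c : ℕ → k} {b : Ω} (hb : b ∈ B)
    (h0 : v.Ge 0 (∑ i ∈ Finset.range N, algebraMap k Ω (c i) * z ^ p ^ i - b)) :
    ∀ i < N, c i = 0 := by
  intro i hi
  by_contra hci
  have h1 := h.germ_far p (e := N) (c := fun i => algebraMap k Ω (c i))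
    (fun j => le_algc B (B.algebraMap_mem _)) hi ((_root_.map_ne_zero _).2 hci)
    (isAlgebraic_algebraMap (R := B) (⟨b, hb⟩ : B))
  have h2 := h0 (sub_ne_zero.2 h1.1)
  have h3 := h1.2
  rw [hk.triv _ hci, mul_zero, add_zero] at h3
  exact absurd h2 (not_le.2 h3)

/-- No Frobenius torsion. -/
theorem ftb_of_tl (hk : Ctx0 k v) [Fact p.Prime] [CharP Ω p] (h : TL v B z 0) :
    FTB p v (cadj v B z) B := by
  intro Y hY hl hp
  obtain ⟨e, he, N, c, h1⟩ := germ_res hk h p hY hl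
  obtain ⟨b, hb, h2⟩ := hp
  have h3 : ∀ i < N, c i = 0 := by
    intro i hi
    have h4 : v.Ge 0 (∑ i ∈ Finset.range (N + 1), algebraMap k Ω (if i = 0 then 0 else
        c (i - 1) ^ p) * z ^ p ^ i - (b - e ^ p)) := by
      have e1 : ∑ i ∈ Finset.range (N + 1), algebraMap k Ω (if i = 0 then 0 else
          c (i - 1) ^ p) * z ^ p ^ i =
          (∑ i ∈ Finset.range N, algebraMap k Ω (c i) * z ^ p ^ i) ^ p := by
        rw [Finset.sum_range_succ', sum_pow_char, if_pos rfl, map_zero, zero_mul, add_zero]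
        refine Finset.sum_congr rfl fun i _ => ?_
        rw [if_neg (Nat.succ_ne_zero i), Nat.add_sub_cancel, map_pow, mul_pow, ← pow_mul,
          ← pow_succ]
      have e2 : ∑ i ∈ Finset.range (N + 1), algebraMap k Ω (if i = 0 then 0 else
          c (i - 1) ^ p) * z ^ p ^ i - (b - e ^ p) =
          (Y ^ p - b) - (Y - (e + ∑ i ∈ Finset.range N, algebraMap k Ω (c i) * z ^ p ^ i)) ^ p := by
        rw [e1, sub_pow_char, add_pow_char]
        ring
      rw [e2]
      have h5 := ge_pow h1.ge p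
      rw [mul_zero] at h5
      exact h2.sub h5
    have h5 := coeff_zero_of_near hk h (sub_mem hb (pow_mem he p)) h4 (i + 1) (by omega)
    rw [if_neg (Nat.succ_ne_zero i), Nat.add_sub_cancel] at h5
    exact pow_eq_zero_iff (Fact.out : p.Prime).ne_zero |>.1 h5
  refine ⟨e, he, ?_⟩
  have h4 : ∑ i ∈ Finset.range N, algebraMap k Ω (c i) * z ^ p ^ i = 0 :=
    Finset.sum_eq_zero fun i hi => by
      rw [h3 i (Finset.mem_range.1 hi), map_zero, zero_mul]
  rw [h4, add_zero] at h1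
  exact h1.ge

end Pool.Agent.TWIV
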