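import Pool.Agent.Lib.TWIV.GpH
import Pool.Agent.Lib.TWIV.Beta
import Pool.Agent.Lib.TWIV.OTa
import Pool.Agent.Lib.TWS.Tr

/-!
# TANK W, tame case, shape (1,2)': the data of Lemma G'

`θ : Ω → H` isometric, `H` graded; `E_1 = E<y_1>`, `T = E_1<y><z>`, `b = z ^ p ^ m + h_1` a limit of
`E_1`, `m` minimal: `exists_gdat`.
-/

set_option autoImplicit false
set_option linter.unusedSectionVars false

open Polynomial

namespace Pool.Agent.TWIV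

open Pool.Agent.H15JM (RVal)
open Pool.Agent.D2 (Ctx0)
open Pool.Agent.TWM Pool.Agent.TWC
open Pool.Agent.TWS (IsoE SphC)

universe u

variable {k Ω H : Type u} [Field k] [Field Ω] [Algebra k Ω] [Field H] [Algebra k H]
  [IsAlgClosed Ω] [IsAlgClosed H] {v : RVal Ω} {w : RVal H} {p : ℕ} [hp : Fact p.Prime]
  [CharP k p] [PerfectRing k p] [CharP Ω p] [CharP H p] [PerfectRing H p]
  {A : Type*} [AddCommGroup A] {pr : A → H →ₗ[k] H} {θ : Ω →ₐ[k] H}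
  {E T : IntermediateField k Ω} {y₁ y z : Ω} {α : A}

theorem map_fev (P : k[X]) (x : Ω) : θ (fev p P x) = fev p P (θ x) := by
  rw [fev, fev, map_sum]
  refine Finset.sum_congr rfl fun a _ => ?_
  rw [map_mul, map_pow, AlgHom.commutes]

theorem fev_lim (hk : Ctx0 k v) {B : IntermediateField k Ω} {x : Ω} (hx : Lim v B 0 x)
    (P : k[X]) : Lim v B 0 (fev p P x) := by
  have _ : Fact (Ctx0 k v) := ⟨hk⟩
  obtain ⟨m, hm, hn⟩ := Lim.exists_cau hx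
  refine Lim.of_nul (m := fun n => fev p P (m n)) (fun n => fev_mem P (hm.mem n)) ?_
  exact (fev_nul (p := p) P hn).congr fun n => fev_sub P _ _

/-- **The data of Lemma G'.** -/
theorem exists_gdat [Fact (Ctx0 k w)] (hk : Ctx0 k v) (hcv : CompleteV v) (hcw : CompleteV w)
    (hS : SphC w) (hθ : IsoE v w θ) (hE : ∀ a ∈ E, ∃ b ∈ E, b ^ p = a) (hy₁ : TL v E y₁ 0)
    (hy : TL v (cadj v E y₁) y 0) (hz : TL v (cadj v (cadj v E y₁) y) z 0)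
    {s : cadj w (E.map θ) (θ y₁) →ₐ[k] PowerSeries (cadj w (E.map θ) (θ y₁))}
    (hs : Tay w pr (cadj w (E.map θ) (θ y₁)) (E.map θ) (θ y₁) α s)
    (hgr : ∀ c, ∀ x ∈ cadj w (E.map θ) (θ y₁), pr c x ∈ cadj w (E.map θ) (θ y₁))
    {RR : Submodule k H} (hRR : RRp p (E.map θ) (θ y₁) pr RR)
    (hfar : ∀ u ∈ cadj v (cadj v E y₁) y, Lim v (cadj v E y₁) 0 u →
      (∃ r ∈ RR, w.Ge 0 (θ u - r)) → Nr v (cadj v E y₁) 0 u)
    {h₁ : Ω} (hh : h₁ ∈ cadj v (cadj v E y₁) y) {m : ℕ} (hm : 1 ≤ m)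
    (hb : Lim v (cadj v E y₁) 0 (z ^ p ^ m + h₁))
    (hmin : ∀ h₀ ∈ cadj v (cadj v E y₁) y, ¬ Lim v (cadj v E y₁) 0 (z ^ p ^ (m - 1) + h₀)) :
    ∃ (c : k) (e : Ω) (n : ℕ) (P₀ : k[X]) (yn bn : ℕ → H), e ∈ cadj v E y₁ ∧ P₀.coeff 0 ≠ 0 ∧
      GDat p w pr (E.map θ) (θ y₁) α s RR n P₀ (θ y)
        (θ (z ^ p ^ m + h₁ - algebraMap k Ω c * y - e)) yn bn := by
  classical
  have hkw : Ctx0 k w := Fact.out
  have hE₁ : cadj w (E.map θ) (θ y₁) = (cadj v E y₁).map θ := hθ.cadj_map hcv E y₁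
  have hE₂ : cadj w (cadj w (E.map θ) (θ y₁)) (θ y) = (cadj v (cadj v E y₁) y).map θ := by
    rw [hE₁]
    exact hθ.cadj_map hcv _ y
  have hy₁' : TL w (E.map θ) (θ y₁) 0 := hθ.tl_iff.2 hy₁
  have hy' : TL w (cadj w (E.map θ) (θ y₁)) (θ y) 0 := by
    rw [hE₁]
    exact hθ.tl_iff.2 hy
  have hzl : Lim w (cadj w (cadj w (E.map θ) (θ y₁)) (θ y)) 0 (θ z) := by
    rw [hE₂]
    exact hθ.lim_iff.2 hz.lim
  have hbl : Lim w (cadj w (E.map θ) (θ y₁)) 0 (θ (z ^ p ^ m + h₁)) := by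
    rw [hE₁]
    exact hθ.lim_iff.2 hb
  obtain ⟨yn, hyn, hynul⟩ := Lim.exists_cau hy'.lim
  obtain ⟨zn, hzn, hznul⟩ := Lim.exists_cau hzl
  obtain ⟨bn, hbn, hbnul⟩ := Lim.exists_cau hbl
  have hppos : p ^ m ≠ 0 := (pow_pos hp.out.pos m).ne'
  have hh' : θ h₁ ∈ cadj w (cadj w (E.map θ) (θ y₁)) (θ y) := by
    rw [hE₂]
    exact ⟨h₁, hh, rfl⟩
  have hrel : Nul w fun n => bn n - zn n ^ p ^ m - θ h₁ := by
    refine ((hznul.pow (p ^ m)).sub hbnul).congr fun n => ?_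
    rw [sub_pow_char_pow, map_add, map_pow]
    ring
  obtain ⟨b', hb', c, e', N, Λ, he', hb'n, hbeta, hne⟩ := beta_step hcw hS
    ((TWS.IsoE.perf_iff p).2 hE) hy₁' hy' hs hyn hynul hzn hbn hh' hm hrel
  obtain ⟨e, he, rfl⟩ : ∃ e ∈ cadj v E y₁, θ e = e' := by
    rw [hE₁] at he'
    exact he'
  obtain ⟨j, hj, hΛ⟩ := hne (by
    intro h₀ hh₀ b₀ hb₀ hnul
    rw [hE₂] at hh₀
    obtain ⟨h, hh, rfl⟩ : ∃ h ∈ cadj v (cadj v E y₁) y, θ h = h₀ := hh₀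
    refine hmin h hh ?_
    have h1 : Lim w ((cadj v E y₁).map θ) 0 (θ (z ^ p ^ (m - 1) + h)) := by
      rw [← hE₁]
      refine Lim.of_nul hb₀.mem (((hznul.pow (p ^ (m - 1))).add hnul).congr fun n => ?_)
      rw [sub_pow_char_pow, map_add, map_pow]
      ring
    exact hθ.lim_iff.1 h1)
  obtain ⟨P, hP1, hP2⟩ := exists_fev (p := p) (Ω := H) Λ N
  have hP0 : P ≠ 0 := by
    intro h0
    have h1 := hP1 j
    rw [h0, coeff_zero, if_pos hj] at h1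
    exact hΛ h1.symm
  obtain ⟨n, P₀, hc0, hPP⟩ := exists_shift (p := p) (Ω := H) hP0
  refine ⟨c, e, n, P₀, yn, b', he, hc0, ?_⟩
  have hP₀ : P₀ ≠ 0 := fun h0 => hc0 (by rw [h0, coeff_zero])
  refine ⟨hy₁', hs, hgr, hRR, hP₀, hyn, hb', hynul, ?_, ?_, ?_⟩
  · refine (hbnul.sub hb'n).congr fun n => ?_
    rw [map_sub, map_sub, map_mul, AlgHom.commutes]
    ring
  · refine beta_shift hPP hyn.mem fun i => ?_
    refine (hbeta i).congr fun m => ?_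
    rw [hP2]
  · rintro ⟨r, hr, h1⟩
    have hfy : fev p P₀ y ∈ cadj v (cadj v E y₁) y := fev_mem P₀ (self_mem_cadj _ _ _)
    obtain ⟨a, ha, h2⟩ := hfar (fev p P₀ y) hfy (fev_lim hk hy.lim P₀)
      ⟨r, hr, by rw [map_fev]; exact h1⟩
    have _ : Fact (Ctx0 k v) := ⟨hk⟩
    exact fev_far hk hy hP₀ ⟨a, ha, h2⟩

end Pool.Agent.TWIV
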