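import Pool.Agent.Lib.TWIV.WSys
import Pool.Agent.Lib.TWIV.OTb

/-!
# TANK W, leaf (Ht), shape (1,2)': operators which are linear over `w`

`E₁ = E<w>`, `T = E₁<y><z>`, `b = z ^ p ^ m + h₁` a limit of `E₁`, `m ≥ 1` minimal. `𝒜` a space of
operators of norm `≤ 0` which preserve `E` and are linear over `w`.

* `prT_ht12`: the trivial grading; `grp_prT`, `exists_tayT`;
* `dj_phi`: the operators commute with the jets;
* `exists_gdatT`: the data of Lemma G', for any `RR`;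
* `GDat.phi`: Lemma G' for `φ (P₀(F) y)`;
* `ht_alpha`: `φ (P₀(F) y) = P₁(F) y + P₂(F) b + e` implies `P₂ = 0`.
-/

set_option autoImplicit false
set_option linter.unusedSectionVars false

open Polynomial

namespace Pool.Agent.TWIV

open Pool.Agent.H15JM (RVal)
open Pool.Agent.D2 (Ctx0)
open Pool.Agent.TWM Pool.Agent.TWC
open Pool.Agent.TWS (SphC)

universe u

variable {k Ω : Type u} [Field k] [Field Ω] [Algebra k Ω] {v : RVal Ω} {p : ℕ} [hp : Fact p.Prime]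
  [CharP Ω p] [PerfectRing Ω p] {E : IntermediateField k Ω} {w : Ω}

/-! ### The trivial grading -/

/-- The trivial grading. -/
def prT_ht12 (k Ω : Type u) [Field k] [Field Ω] [Algebra k Ω] : Unit → Ω →ₗ[k] Ω :=
  fun _ => LinearMap.id

theorem grp_prT : GrP p v (prT_ht12 k Ω) where
  one := rfl
  mul _ _ _ _ := rfl
  ge _ _ _ h := h
  frob _ _ := rfl

theorem exists_tayT (p : ℕ) [Fact p.Prime] [CharP Ω p] [PerfectRing Ω p] [Fact (Ctx0 k v)]
    (hc : CompleteV v) [IsAlgClosed Ω] (hw : TL v E w 0) :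
    ∃ t : cadj v E w →ₐ[k] PowerSeries (cadj v E w), Tay v (prT_ht12 k Ω) (cadj v E w) E w 0 t :=
  exists_tay p hc (grp_prT (p := p)) (fun _ _ hx => hx) hw rfl rfl

/-! ### Operators and jets -/

omit hp [CharP Ω p] [PerfectRing Ω p] in
theorem tl_ne0 (hw : TL v E w 0) : w ≠ 0 := by
  have h1 := (hw.far 0 isAlgebraic_zero).1
  simpa using h1

section Phi

variable {φ : Module.End k Ω}

/-- `φ` has norm `≤ 0`, preserves `E`, and is linear over `w`. -/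
structure WLin (v : RVal Ω) (E : IntermediateField k Ω) (w : Ω) (φ : Module.End k Ω) : Prop where
  ge : ∀ (x : Ω) (b : ℝ), v.Ge b x → v.Ge b (φ x)
  mem : ∀ x ∈ E, φ x ∈ E
  lin : cj w φ = φ

theorem WLin.cj_pow (h : WLin v E w φ) (n : ℕ) : cj (w ^ n) φ = φ := by
  induction n with
  | zero => rw [pow_zero, cj_one]
  | succ n ih => rw [pow_succ, ← cj_cj, ih, h.lin]

/-- on the polynomials -/
theorem WLin.gcf_mem (h : WLin v E w φ) {f : Polynomial Ω} (hf : f ∈ PI E) :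
    gcf w φ f ∈ PI E :=
  fun i => by
    rw [coeff_gcf, h.cj_pow]
    exact h.mem _ (hf i)

variable [IsAlgClosed Ω]

theorem WLin.mem' (h : WLin v E w φ) (hw : TL v E w 0) {x : Ω} (hx : x ∈ cadj v E w) :
    φ x ∈ cadj v E w := by
  refine cld_cadj v E w (D2P.mem_clI.2 fun b => ?_)
  obtain ⟨f, hf, h1⟩ := hw.dense hx b
  refine ⟨(gcf w φ f).eval w, eval_mem (PI_mono (le_cadj v E w) (h.gcf_mem hf))
    (self_mem_cadj v E w), ?_⟩
  rw [gcf_eval (tl_ne0 hw), ← map_sub]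
  exact h.ge _ _ h1

/-- The operators commute with the jets. -/
theorem WLin.dj_comm (h : WLin v E w φ) (hw : TL v E w 0) {A : Type*} [AddCommGroup A]
    {pr : A → Ω →ₗ[k] Ω} {γ : A} {s : cadj v E w →ₐ[k] PowerSeries (cadj v E w)}
    (hs : Tay v pr (cadj v E w) E w γ s) (j : ℕ) {x : Ω} (hx : x ∈ cadj v E w) :
    dj s j (φ x) = φ (dj s j x) := by
  refine eq_of_ge (v := v) fun b => ?_
  have hm := self_mem_cadj v E w
  have hw0 := tl_ne0 hw
  obtain ⟨f, hf, h1⟩ := hw.dense hx b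
  have hfw : f.eval w ∈ cadj v E w := eval_mem (PI_mono (le_cadj v E w) hf) hm
  have hd : x - f.eval w ∈ cadj v E w := sub_mem hx hfw
  have e1 : dj s j (φ (f.eval w)) = φ (dj s j (f.eval w)) := by
    rw [hs.tj_eval (le_cadj v E w) hm hf, ← gcf_eval hw0, ← gcf_eval hw0,
      hs.tj_eval (le_cadj v E w) hm (h.gcf_mem hf), hasse_gcf, h.cj_pow]
  have e2 : dj s j (φ x) - φ (dj s j x) =
      dj s j (φ (x - f.eval w)) - φ (dj s j (x - f.eval w)) := by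
    rw [map_sub, dj_sub j (h.mem' hw hx) (h.mem' hw hfw), dj_sub j hx hfw, map_sub, e1]
    ring
  rw [e2]
  exact (dj_norm hs j (h.mem' hw hd) (h.ge _ _ h1)).sub (h.ge _ _ (dj_norm hs j hd h1))

end Phi

/-! ### The data of Lemma G' -/

section Dat

variable [IsAlgClosed Ω] [CharP k p] [PerfectRing k p] [hc : Fact (Ctx0 k v)]
  {T : IntermediateField k Ω}
  {y z b : Ω} {RR : Submodule k Ω} {𝒜 : Submodule k (Module.End k Ω)}

/-- **The data of Lemma G'**, trivial grading. -/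
theorem exists_gdatT (hcv : CompleteV v) (hS : SphC v) (hE : ∀ a ∈ E, ∃ b ∈ E, b ^ p = a)
    (hw : TL v E w 0) (hy : TL v (cadj v E w) y 0) (hz : TL v (cadj v (cadj v E w) y) z 0)
    (hRR : RRp p E w (prT_ht12 k Ω) RR)
    (hfar : ∀ u ∈ cadj v (cadj v E w) y, Lim v (cadj v E w) 0 u →
      (∃ r ∈ RR, v.Ge 0 (u - r)) → Nr v (cadj v E w) 0 u)
    {h₁ : Ω} (hh : h₁ ∈ cadj v (cadj v E w) y) {m : ℕ} (hm : 1 ≤ m)
    (hb : Lim v (cadj v E w) 0 (z ^ p ^ m + h₁))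
    (hmin : ∀ h₀ ∈ cadj v (cadj v E w) y, ¬ Lim v (cadj v E w) 0 (z ^ p ^ (m - 1) + h₀)) :
    ∃ (s : cadj v E w →ₐ[k] PowerSeries (cadj v E w)) (c : k) (e : Ω) (n : ℕ) (P₀ : k[X])
      (yn bn : ℕ → Ω), e ∈ cadj v E w ∧ P₀.coeff 0 ≠ 0 ∧
      GDat p v (prT_ht12 k Ω) E w 0 s RR n P₀ y
        (z ^ p ^ m + h₁ - algebraMap k Ω c * y - e) yn bn := by
  classical
  have hk : Ctx0 k v := hc.out
  obtain ⟨s, hs⟩ := exists_tayT p hcv hw
  obtain ⟨yn, hyn, hynul⟩ := Lim.exists_cau hy.lim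
  obtain ⟨zn, hzn, hznul⟩ := Lim.exists_cau hz.lim
  obtain ⟨bn, hbn, hbnul⟩ := Lim.exists_cau hb
  have hrel : Nul v fun n => bn n - zn n ^ p ^ m - h₁ := by
    refine ((hznul.pow (p ^ m)).sub hbnul).congr fun n => ?_
    rw [sub_pow_char_pow]
    ring
  obtain ⟨b', hb', c, e, N, Λ, he, hb'n, hbeta, hne⟩ := beta_step hcv hS hE hw hy hs hyn hynul
    hzn hbn hh hm hrel
  obtain ⟨j, hj, hΛ⟩ := hne (by
    intro h₀ hh₀ b₀ hb₀ hnul
    refine hmin h₀ hh₀ ?_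
    refine Lim.of_nul hb₀.mem (((hznul.pow (p ^ (m - 1))).add hnul).congr fun n => ?_)
    rw [sub_pow_char_pow]
    ring)
  obtain ⟨P, hP1, hP2⟩ := exists_fev (p := p) (Ω := Ω) Λ N
  have hP0 : P ≠ 0 := by
    intro h0
    have h1 := hP1 j
    rw [h0, coeff_zero, if_pos hj] at h1
    exact hΛ h1.symm
  obtain ⟨n, P₀, hc0, hPP⟩ := exists_shift (p := p) (Ω := Ω) hP0
  refine ⟨s, c, e, n, P₀, yn, b', he, hc0, ?_⟩
  have hP₀ : P₀ ≠ 0 := fun h0 => hc0 (by rw [h0, coeff_zero])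
  refine ⟨hw, hs, fun _ _ hx => hx, hRR, hP₀, hyn, hb', hynul, ?_, ?_, ?_⟩
  · refine (hbnul.sub hb'n).congr fun n => ?_
    ring
  · refine beta_shift hPP hyn.mem fun i => ?_
    refine (hbeta i).congr fun m => ?_
    rw [hP2]
  · rintro ⟨r, hr, h1⟩
    have hfy : fev p P₀ y ∈ cadj v (cadj v E w) y := fev_mem P₀ (self_mem_cadj _ _ _)
    obtain ⟨a, ha, h2⟩ := hfar (fev p P₀ y) hfy (fev_lim hk hy.lim P₀) ⟨r, hr, h1⟩
    exact fev_far hk hy hP₀ ⟨a, ha, h2⟩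

omit [PerfectRing k p] in
/-- **Lemma G' for the operators.** -/
theorem GDat.phi (hS : SphC v) (hA : OpA v 𝒜)
    {s : cadj v E w →ₐ[k] PowerSeries (cadj v E w)} {n : ℕ} {P₀ P₁ P₂ : k[X]} {yn bn : ℕ → Ω}
    (h : GDat p v (prT_ht12 k Ω) E w 0 s (RRw p v E w 𝒜) n P₀ y b yn bn) {φ : Module.End k Ω}
    (hφ : φ ∈ 𝒜) (hW : WLin v E w φ) {e : Ω} (he : e ∈ cadj v E w)
    (hx : v.Ge 0 (φ (fev p P₀ y) - (fev p P₁ y + fev p P₂ b + e))) : P₂ = 0 := by
  have hm : ∀ m, fev p P₀ (yn m) ∈ cadj v E w := fun m => fev_mem P₀ (h.cy.mem m)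
  refine h.seq (xn := fun m => φ (fev p P₀ (yn m))) (P₁ := P₁) (e := e)
    (fun m => hW.mem' h.tl (hm m)) ?_ ?_ ?_ he ?_
  · exact (fev_bd P₀ (Cau.bd h.cy)).op (Φ := fun x => φ x) fun m b hb => hA.ge φ hφ _ b hb
  · refine ⟨0, fun j _ R _ hR => ?_⟩
    refine ((hR j le_rfl).op (Φ := fun x => φ x) fun m b hb => hA.ge φ hφ _ b hb).congr
      fun m => ?_
    exact (hW.dj_comm h.tl h.tay j (hm m)).symm
  · intro j _ hmem _
    refine (RRw.op hS h.tl hA hφ (fun m => dj_mem j (hm m)) (hmem j le_rfl)).congr fun m => ?_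
    exact (hW.dj_comm h.tl h.tay j (hm m)).symm
  · have h1 : Nul v fun m => φ (fev p P₀ (y - yn m)) := by
      intro ε hε
      obtain ⟨N, hN⟩ := fev_nul P₀ h.ny ε hε
      exact ⟨N, fun m hm => hA.ge φ hφ _ _ (hN m hm)⟩
    have h2 := (((fev_nul (p := p) P₁ h.ny).add (fev_nul (p := p) P₂ h.nb)).add
      (Nul.of_ge (x := fun _ => φ (fev p P₀ y) - (fev p P₁ y + fev p P₂ b + e))
        fun _ => hx)).sub h1
    refine h2.congr fun m => ?_
    rw [fev_sub, fev_sub, fev_sub, map_sub]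
    ring

end Dat

end Pool.Agent.TWIV
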