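import Pool.Agent.Lib.TWIV.Multi
import Pool.Agent.Lib.TWC.Poly

/-!
# TANK W, leaf (IV), shape (2,1): integration

* `OneT v K B z t`: `t` is a Taylor homomorphism `K → K⟦a⟧`, the identity on `B`, `z ↦ z + a`, norm
  `≤ 0`; `Dj t J` the operators;
* `OneT.int`: `K = B⟨z⟩`: exact data are integrated;
* `int_two`: exact data for two commuting directions.
-/

set_option autoImplicit false
set_option linter.unusedSectionVars false

open Polynomial

namespace Pool.Agent.TWIV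

open Pool.Agent.H15JM (RVal)
open Pool.Agent.D2 (Ctx0)
open Pool.Agent.TWM
open Pool.Agent.TWC (Nul Cau hasse_ge hasse_gt int_lemma germ_res)

universe u

variable {k H : Type u} [Field k] [Field H] [Algebra k H] {v : RVal H} {p : ℕ} [hp : Fact p.Prime]
  [CharP H p] {K B E : IntermediateField k H} {z : H}

/-- The operators of a homomorphism `K → K⟦a⟧`. -/
noncomputable def Dj (t : K →ₐ[k] PowerSeries K) (J : ℕ) (x : K) : K := PowerSeries.coeff J (t x)

/-- A Taylor homomorphism in the direction `z`. -/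
structure OneT (v : RVal H) (K B : IntermediateField k H) (z : H)
    (t : K →ₐ[k] PowerSeries K) : Prop where
  base : ∀ x : K, (x : H) ∈ B → t x = PowerSeries.C x
  gen : ∀ x : K, (x : H) = z → t x = PowerSeries.C x + PowerSeries.X
  norm : ∀ (n : ℕ) (x : K) (b : ℝ), v.Ge b (x : H) → v.Ge b ((PowerSeries.coeff n (t x) : K) : H)
  zero : ∀ x, PowerSeries.coeff 0 (t x) = x

theorem Dj_add (t : K →ₐ[k] PowerSeries K) (J : ℕ) (x y : K) :
    Dj t J (x + y) = Dj t J x + Dj t J y := by rw [Dj, map_add, map_add]; rfl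

theorem Dj_sub (t : K →ₐ[k] PowerSeries K) (J : ℕ) (x y : K) :
    Dj t J (x - y) = Dj t J x - Dj t J y := by rw [Dj, map_sub, map_sub]; rfl

theorem Dj_zero (t : K →ₐ[k] PowerSeries K) (J : ℕ) : Dj t J 0 = 0 := by
  rw [Dj, map_zero, map_zero]

namespace OneT

variable {t : K →ₐ[k] PowerSeries K} (h : OneT v K B z t)

include h

theorem gt {J : ℕ} {x : K} (hx : Gt v 0 (x : H)) : Gt v 0 ((Dj t J x : K) : H) := by
  by_cases h0 : (x : H) = 0
  · have h1 : x = 0 := Subtype.ext h0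
    rw [h1, Dj_zero]
    exact Gt.zero
  · exact Gt.of_ge (h.norm J x _ (RVal.ge_self _)) (hx h0)

/-- the operators on the polynomials -/
theorem eval {f : Polynomial H} (hf : f ∈ PI B) (hB : B ≤ K) (hz : z ∈ K) {x : K}
    (hx : (x : H) = f.eval z) (J : ℕ) : ((Dj t J x : K) : H) = (hasseDeriv J f).eval z := by
  have h1 : x = ∑ i ∈ f.support, (⟨f.coeff i, hB (hf i)⟩ : K) * (⟨z, hz⟩ : K) ^ i := by
    apply Subtype.ext
    rw [hx, eval_eq_sum, Polynomial.sum_def]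
    push_cast
    rfl
  have h2 : Dj t J x = ∑ i ∈ f.support, (⟨f.coeff i, hB (hf i)⟩ : K) *
      (((i.choose J : ℕ) : K) * (⟨z, hz⟩ : K) ^ (i - J)) := by
    rw [Dj, h1, map_sum, map_sum]
    refine Finset.sum_congr rfl fun i _ => ?_
    rw [map_mul, map_pow, h.base ⟨f.coeff i, hB (hf i)⟩ (hf i), h.gen ⟨z, hz⟩ rfl,
      PowerSeries.coeff_C_mul, coeff_add_X_pow]
  rw [h2, hasseDeriv_apply, Polynomial.eval_sum, Polynomial.sum_def]
  push_cast
  refine Finset.sum_congr rfl fun i _ => ?_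
  rw [eval_monomial]
  ring

/-- the iterated operators on the polynomials -/
theorem eval_it {f : Polynomial H} (hf : f ∈ PI B) (hB : B ≤ K) (hz : z ∈ K) {x : K}
    (hx : (x : H) = f.eval z) (J i : ℕ) :
    (((Dj t J)^[i] x : K) : H) = ((⇑(hasseDeriv (R := H) J))^[i] f).eval z := by
  induction i generalizing f x with
  | zero => exact hx
  | succ i ih =>
    rw [Function.iterate_succ_apply, Function.iterate_succ_apply]
    exact ih (hasse_mem_PI hf J) (h.eval hf hB hz hx J)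

/-- **Integration in one direction.** -/
theorem int [IsAlgClosed H] (hz : TL v B z 0) (hBK : B ≤ K) (hzK : z ∈ K) {N : ℕ} {b : ℕ → K}
    (hb : ∀ i, (b i : H) ∈ cadj v B z) (hN : ∀ i, N ≤ i → b i = 0)
    (h1 : ∀ i j, Gt v 0 ((Dj t (p ^ j) (b i) - Dj t (p ^ i) (b j) : K) : H))
    (h2 : ∀ i, Gt v 0 (((Dj t (p ^ i))^[p - 1] (b i) : K) : H)) :
    ∃ F : K, (F : H) ∈ cadj v B z ∧ ∀ i, Gt v 0 ((Dj t (p ^ i) F - b i : K) : H) := by
  classical
  have hdense : ∀ i, ∃ f ∈ PI B, Gt v 0 ((b i : H) - f.eval z) ∧ (N ≤ i → f = 0) := by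
    intro i
    by_cases hi : N ≤ i
    · exact ⟨0, zero_mem _, by rw [hN i hi, eval_zero, ZeroMemClass.coe_zero, sub_zero]; exact Gt.zero,
        fun _ => rfl⟩
    · obtain ⟨f, hf, h3⟩ := hz.dense (hb i) 1
      exact ⟨f, hf, Gt.of_ge h3 one_pos, fun h4 => absurd h4 hi⟩
  choose f hf hfb hf0 using hdense
  set g : ℕ → K := fun i => ⟨(f i).eval z, eval_mem (PI_mono hBK (hf i)) hzK⟩ with hg
  have hgb : ∀ i, Gt v 0 ((b i - g i : K) : H) := fun i => hfb i
  have h3 : ∀ i J, Gt v 0 ((Dj t J (b i) - Dj t J (g i) : K) : H) := by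
    intro i J
    rw [← Dj_sub]
    exact h.gt (hgb i)
  have h4 : ∀ J m (x : K), Gt v 0 (x : H) → Gt v 0 (((Dj t J)^[m] x : K) : H) := by
    intro J m
    induction m with
    | zero => exact fun x hx => hx
    | succ m ih =>
      intro x hx
      rw [Function.iterate_succ_apply]
      exact ih _ (h.gt hx)
  have h5 : ∀ J m (x y : K), (Dj t J)^[m] (x - y) = (Dj t J)^[m] x - (Dj t J)^[m] y := by
    intro J m
    induction m with
    | zero => exact fun x y => rfl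
    | succ m ih =>
      intro x y
      rw [Function.iterate_succ_apply, Function.iterate_succ_apply, Function.iterate_succ_apply,
        Dj_sub, ih]
  obtain ⟨F, hF, h6⟩ := int_lemma hz p (b := f) hf hf0 (fun i j => by
      have h7 := (h1 i j).sub ((h3 i (p ^ j)).sub (h3 j (p ^ i)))
      have h8 : ((Dj t (p ^ j) (b i) - Dj t (p ^ i) (b j) : K) : H) -
          (((Dj t (p ^ j) (b i) - Dj t (p ^ j) (g i) : K) : H) -
            ((Dj t (p ^ i) (b j) - Dj t (p ^ i) (g j) : K) : H)) =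
          (hasseDeriv (p ^ j) (f i) - hasseDeriv (p ^ i) (f j)).eval z := by
        rw [eval_sub, ← h.eval (hf i) hBK hzK (x := g i) rfl,
          ← h.eval (hf j) hBK hzK (x := g j) rfl]
        push_cast
        ring
      rwa [h8] at h7) (fun i => by
      have h7 := (h2 i).sub (h4 (p ^ i) (p - 1) _ (hgb i))
      have h8 : (((Dj t (p ^ i))^[p - 1] (b i) : K) : H) -
          (((Dj t (p ^ i))^[p - 1] (b i - g i) : K) : H) =
          ((⇑(hasseDeriv (R := H) (p ^ i)))^[p - 1] (f i)).eval z := by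
        rw [← h.eval_it (hf i) hBK hzK (x := g i) rfl, h5]
        push_cast
        ring
      rwa [h8] at h7)
  refine ⟨⟨F.eval z, eval_mem (PI_mono hBK hF) hzK⟩,
    eval_mem (PI_mono (le_cadj v B z) hF) (self_mem_cadj v B z), fun i => ?_⟩
  have h7 := (h6 i).sub (hgb i)
  have h8 : (hasseDeriv (p ^ i) F - f i).eval z - ((b i - g i : K) : H) =
      ((Dj t (p ^ i) ⟨F.eval z, eval_mem (PI_mono hBK hF) hzK⟩ - b i : K) : H) := by
    push_cast
    rw [h.eval hF hBK hzK (x := ⟨F.eval z, eval_mem (PI_mono hBK hF) hzK⟩) rfl, eval_sub]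
    ring
  rwa [h8] at h7

omit h

theorem Dj_natCast_mul (t : K →ₐ[k] PowerSeries K) (c J : ℕ) (x : K) :
    Dj t J ((c : K) * x) = (c : K) * Dj t J x := by
  rw [Dj, Dj, ← nsmul_eq_mul, map_nsmul, map_nsmul, nsmul_eq_mul]

/-- the iterates, in an iterative family -/
theorem it_comp {t : K →ₐ[k] PowerSeries K} (hz : ∀ x, Dj t 0 x = x)
    (hcomp : ∀ (m n : ℕ) (x : K), Dj t n (Dj t m x) = ((n + m).choose m : K) * Dj t (n + m) x)
    (q m : ℕ) (x : K) : ∃ c : ℕ, (Dj t q)^[m] x = (c : K) * Dj t (m * q) x := by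
  induction m with
  | zero => exact ⟨1, by rw [Function.iterate_zero, id_eq, Nat.zero_mul, hz, Nat.cast_one, one_mul]⟩
  | succ m ih =>
    obtain ⟨c, hc⟩ := ih
    refine ⟨c * (q + m * q).choose (m * q), ?_⟩
    rw [Function.iterate_succ_apply', hc, Dj_natCast_mul, hcomp, Nat.cast_mul, mul_assoc,
      show (m + 1) * q = q + m * q by ring]

/-- `D_(p^i) ^ p = 0` -/
theorem it_p {t : K →ₐ[k] PowerSeries K} (hz : ∀ x, Dj t 0 x = x)
    (hcomp : ∀ (m n : ℕ) (x : K), Dj t n (Dj t m x) = ((n + m).choose m : K) * Dj t (n + m) x)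
    (i : ℕ) (x : K) : Dj t (p ^ i) ((Dj t (p ^ i))^[p - 1] x) = 0 := by
  have _ : CharP K p := (RingHom.charP_iff (algebraMap K H) (algebraMap K H).injective p).2
    inferInstance
  obtain ⟨c, hc⟩ := it_comp hz hcomp (p ^ i) (p - 1) x
  rw [hc, Dj_natCast_mul, hcomp]
  have h1 : (p ^ i + (p - 1) * p ^ i) = p ^ i * p := by
    have := hp.out.pos
    obtain ⟨q, hq⟩ := Nat.exists_eq_succ_of_ne_zero hp.out.ne_zero
    rw [hq]
    simp only [Nat.succ_eq_add_one, Nat.add_sub_cancel]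
    ring
  have h2 : (((p ^ i + (p - 1) * p ^ i).choose ((p - 1) * p ^ i) : ℕ) : K) = 0 := by
    rw [CharP.cast_eq_zero_iff K p, ← Nat.choose_symm (Nat.le_add_left _ _),
      Nat.add_sub_cancel, h1, TWC.dvd_choose_pow_iff, Nat.mul_div_cancel_left _
      (Nat.pow_pos hp.out.pos)]
  rw [h2, zero_mul, mul_zero]

theorem it_sub (t : K →ₐ[k] PowerSeries K) (J m : ℕ) (x y : K) :
    (Dj t J)^[m] (x - y) = (Dj t J)^[m] x - (Dj t J)^[m] y := by
  induction m generalizing x y with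
  | zero => rfl
  | succ m ih =>
    rw [Function.iterate_succ_apply, Function.iterate_succ_apply, Function.iterate_succ_apply,
      Dj_sub, ih]

theorem it_gt {t : K →ₐ[k] PowerSeries K} (h : OneT v K B z t) (J m : ℕ) {x : K}
    (hx : Gt v 0 (x : H)) : Gt v 0 (((Dj t J)^[m] x : K) : H) := by
  induction m generalizing x with
  | zero => exact hx
  | succ m ih =>
    rw [Function.iterate_succ_apply]
    exact ih (h.gt hx)

/-- an element whose jets are strict is near to the base -/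
theorem near [IsAlgClosed H] {t : K →ₐ[k] PowerSeries K} (h : OneT v K B z t) (hz : TL v B z 0)
    (hBK : B ≤ K) (hzK : z ∈ K) {x : K} (hx : (x : H) ∈ cadj v B z)
    (h1 : ∀ i, Gt v 0 ((Dj t (p ^ i) x : K) : H)) : ∃ e : K, (e : H) ∈ B ∧
      Gt v 0 ((x - e : K) : H) := by
  obtain ⟨f, hf, h2⟩ := hz.dense hx 1
  have h2' : Gt v 0 ((x : H) - f.eval z) := Gt.of_ge h2 one_pos
  have hfK : f.eval z ∈ K := eval_mem (PI_mono hBK hf) hzK
  have h3 : ∀ i, Gt v 0 ((hasseDeriv (p ^ i) f).eval z) := by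
    intro i
    have h4 : Gt v 0 ((Dj t (p ^ i) (x - ⟨f.eval z, hfK⟩) : K) : H) := h.gt h2'
    rw [Dj_sub] at h4
    have h5 := (h1 i).sub h4
    have h6 : ((Dj t (p ^ i) x : K) : H) - ((Dj t (p ^ i) x - Dj t (p ^ i) ⟨f.eval z, hfK⟩ : K) : H)
        = (hasseDeriv (p ^ i) f).eval z := by
      rw [← h.eval hf hBK hzK (x := ⟨f.eval z, hfK⟩) rfl]
      push_cast
      ring
    rwa [h6] at h5
  have h4 : ∀ J, 1 ≤ J → Gt v 0 ((hasseDeriv J f).eval z) := by
    intro J hJ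
    by_cases hJp : ∃ i, J = p ^ i
    · obtain ⟨i, rfl⟩ := hJp
      exact h3 i
    · exact TWC.hasse_gt_all hz p hf hJ (fun i hi => hJp ⟨i, hi⟩) fun c _ => (h3 c).ge
  -- a uniform bound
  obtain ⟨δ, hδ, h5⟩ : ∃ δ : ℝ, 0 < δ ∧ ∀ J, 1 ≤ J → v.Ge δ ((hasseDeriv J f).eval z) := by
    have h6 : ∀ S : Finset ℕ, ∃ δ : ℝ, 0 < δ ∧ ∀ J ∈ S, 1 ≤ J →
        v.Ge δ ((hasseDeriv J f).eval z) := by
      classical
      intro S
      induction S using Finset.induction_on with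
      | empty => exact ⟨1, one_pos, fun J hJ => absurd hJ (Finset.notMem_empty J)⟩
      | insert J S _ ih =>
        obtain ⟨δ, hδ, h7⟩ := ih
        by_cases hJ : 1 ≤ J ∧ (hasseDeriv J f).eval z ≠ 0
        · have h8 := h4 J hJ.1 hJ.2
          refine ⟨min δ (v ((hasseDeriv J f).eval z)), lt_min hδ h8, fun L hL hL1 => ?_⟩
          rcases Finset.mem_insert.1 hL with rfl | hL
          · exact fun _ => min_le_right _ _
          · exact (h7 L hL hL1).mono (min_le_left _ _)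
        · refine ⟨δ, hδ, fun L hL hL1 => ?_⟩
          rcases Finset.mem_insert.1 hL with rfl | hL
          · intro h9
            exact absurd ⟨hL1, h9⟩ hJ
          · exact h7 L hL hL1
    obtain ⟨δ, hδ, h7⟩ := h6 (Finset.range (f.natDegree + 1))
    refine ⟨δ, hδ, fun J hJ => ?_⟩
    by_cases hJd : J < f.natDegree + 1
    · exact h7 J (Finset.mem_range.2 hJd) hJ
    · rw [hasseDeriv_eq_zero_of_lt_natDegree _ _ (by omega), eval_zero]
      exact RVal.Ge.zero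
  obtain ⟨e, he, h6⟩ := TWC.exists_near hz hf h5 (ε := δ / 2) (by positivity)
  refine ⟨⟨e, hBK he⟩, he, ?_⟩
  have h7 : Gt v 0 (f.eval z - e) := Gt.of_ge h6 (by linarith)
  have h8 := h2'.add h7
  have h9 : (x : H) - f.eval z + (f.eval z - e) = ((x - ⟨e, hBK he⟩ : K) : H) := by
    push_cast
    ring
  rwa [h9] at h8

end OneT

/-- **Integration in two directions.** -/
theorem int_two [IsAlgClosed H] {t₀ t₁ : K →ₐ[k] PowerSeries K} {y₀ y₁ : H}
    (h₀ : OneT v K E y₀ t₀) (h₁ : OneT v K B y₁ t₁) (hB : B = cadj v E y₀) (hK : K = cadj v B y₁)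
    (tl₀ : TL v E y₀ 0) (tl₁ : TL v B y₁ 0)
    (comm : ∀ (m n : ℕ) (x : K), Dj t₀ m (Dj t₁ n x) = Dj t₁ n (Dj t₀ m x))
    (comp₀ : ∀ (m n : ℕ) (x : K), Dj t₀ n (Dj t₀ m x) = ((n + m).choose m : K) * Dj t₀ (n + m) x)
    (fin₀ : ∀ x : K, ∃ M, ∀ i, M ≤ i → Gt v 0 ((Dj t₀ (p ^ i) x : K) : H))
    {N : ℕ} {b₀ b₁ : ℕ → K} (n₀ : ∀ i, N ≤ i → b₀ i = 0) (n₁ : ∀ i, N ≤ i → b₁ i = 0)
    (s₀₀ : ∀ i j, Gt v 0 ((Dj t₀ (p ^ j) (b₀ i) - Dj t₀ (p ^ i) (b₀ j) : K) : H))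
    (s₁₁ : ∀ i j, Gt v 0 ((Dj t₁ (p ^ j) (b₁ i) - Dj t₁ (p ^ i) (b₁ j) : K) : H))
    (s₀₁ : ∀ i j, Gt v 0 ((Dj t₁ (p ^ j) (b₀ i) - Dj t₀ (p ^ i) (b₁ j) : K) : H))
    (β₀ : ∀ i, Gt v 0 (((Dj t₀ (p ^ i))^[p - 1] (b₀ i) : K) : H))
    (β₁ : ∀ i, Gt v 0 (((Dj t₁ (p ^ i))^[p - 1] (b₁ i) : K) : H)) :
    ∃ F : K, (∀ i, Gt v 0 ((Dj t₀ (p ^ i) F - b₀ i : K) : H)) ∧
      ∀ i, Gt v 0 ((Dj t₁ (p ^ i) F - b₁ i : K) : H) := by
  classical
  have hEB : E ≤ B := hB ▸ le_cadj v E y₀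
  have hBK : B ≤ K := hK ▸ le_cadj v B y₁
  have hy₀ : y₀ ∈ B := hB ▸ self_mem_cadj v E y₀
  have hy₁ : y₁ ∈ K := hK ▸ self_mem_cadj v B y₁
  have hz₀ : ∀ x, Dj t₀ 0 x = x := h₀.zero
  -- the direction `y₁`
  obtain ⟨F₁, -, hF₁⟩ := h₁.int tl₁ hBK hy₁ (fun i => hK.le (b₁ i).2) n₁ s₁₁ β₁
  set c : ℕ → K := fun i => b₀ i - Dj t₀ (p ^ i) F₁ with hc
  have hc1 : ∀ i j, Gt v 0 ((Dj t₁ (p ^ j) (c i) : K) : H) := by
    intro i j
    have e1 := s₀₁ i j
    have e2 : Gt v 0 ((Dj t₀ (p ^ i) (Dj t₁ (p ^ j) F₁ - b₁ j) : K) : H) := h₀.gt (hF₁ j)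
    rw [Dj_sub, comm] at e2
    have e3 := e1.sub e2
    have e4 : ((Dj t₁ (p ^ j) (b₀ i) - Dj t₀ (p ^ i) (b₁ j) : K) : H) -
        ((Dj t₁ (p ^ j) (Dj t₀ (p ^ i) F₁) - Dj t₀ (p ^ i) (b₁ j) : K) : H) =
        ((Dj t₁ (p ^ j) (c i) : K) : H) := by
      rw [hc]
      simp only
      rw [Dj_sub]
      push_cast
      ring
    rwa [e4] at e3
  obtain ⟨M, hM⟩ := fin₀ F₁
  have he : ∀ i, ∃ e : K, (e : H) ∈ B ∧ Gt v 0 ((c i - e : K) : H) ∧ (max N M ≤ i → e = 0) := by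
    intro i
    by_cases hi : max N M ≤ i
    · refine ⟨0, zero_mem _, ?_, fun _ => rfl⟩
      rw [sub_zero, hc]
      simp only
      rw [n₀ i ((le_max_left _ _).trans hi), zero_sub]
      exact (hM i ((le_max_right _ _).trans hi)).neg
    · obtain ⟨e, he, h3⟩ := h₁.near tl₁ hBK hy₁ (x := c i) (hK.le (c i).2) (hc1 i)
      exact ⟨e, he, h3, fun h4 => absurd h4 hi⟩
  choose e heB hce he0 using he
  obtain ⟨F₀, hF₀B, hF₀⟩ := h₀.int tl₀ (hEB.trans hBK) (hBK hy₀) (b := e) (N := max N M)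
    (fun i => hB.le (heB i)) he0 (fun i j => by
      have a1 : Gt v 0 ((Dj t₀ (p ^ j) (c i - e i) : K) : H) := h₀.gt (hce i)
      have a2 : Gt v 0 ((Dj t₀ (p ^ i) (c j - e j) : K) : H) := h₀.gt (hce j)
      have a3 := ((s₀₀ i j).sub a1).add a2
      have a4 : Dj t₀ (p ^ j) (Dj t₀ (p ^ i) F₁) = Dj t₀ (p ^ i) (Dj t₀ (p ^ j) F₁) := by
        rw [comp₀, comp₀, add_comm (p ^ j) (p ^ i), Nat.choose_symm_add]
      have a5 : ((Dj t₀ (p ^ j) (b₀ i) - Dj t₀ (p ^ i) (b₀ j) : K) : H) -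
          ((Dj t₀ (p ^ j) (c i - e i) : K) : H) + ((Dj t₀ (p ^ i) (c j - e j) : K) : H) =
          ((Dj t₀ (p ^ j) (e i) - Dj t₀ (p ^ i) (e j) : K) : H) := by
        rw [hc]
        simp only [Dj_sub]
        rw [a4]
        push_cast
        ring
      rwa [a5] at a3) (fun i => by
      have a1 := OneT.it_gt h₀ (p ^ i) (p - 1) (hce i)
      have a2 := (β₀ i).sub a1
      have a3 : (Dj t₀ (p ^ i))^[p - 1] (Dj t₀ (p ^ i) F₁) = 0 := by
        rw [← Function.iterate_succ_apply, Function.iterate_succ_apply']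
        exact OneT.it_p hz₀ comp₀ i F₁
      have a4 : (((Dj t₀ (p ^ i))^[p - 1] (b₀ i) : K) : H) -
          (((Dj t₀ (p ^ i))^[p - 1] (c i - e i) : K) : H) =
          (((Dj t₀ (p ^ i))^[p - 1] (e i) : K) : H) := by
        rw [hc]
        simp only [OneT.it_sub]
        rw [a3]
        push_cast
        ring
      rwa [a4] at a2)
  refine ⟨F₀ + F₁, fun i => ?_, fun i => ?_⟩
  · have a1 := (hF₀ i).sub (hce i)
    have a2 : ((Dj t₀ (p ^ i) F₀ - e i : K) : H) - ((c i - e i : K) : H) =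
        ((Dj t₀ (p ^ i) (F₀ + F₁) - b₀ i : K) : H) := by
      rw [hc, Dj_add]
      push_cast
      ring
    rwa [a2] at a1
  · have a1 : Dj t₁ (p ^ i) F₀ = 0 := by
      rw [Dj, h₁.base F₀ (by rw [hB]; exact hF₀B), PowerSeries.coeff_C,
        if_neg (Nat.pow_pos hp.out.pos).ne']
    rw [Dj_add, a1, zero_add]
    exact hF₁ i

/-! ### The directions of the tower -/

section Dir

variable [PerfectRing H p] {A : Type*} [AddCommGroup A] {pr : A → H →ₗ[k] H}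
  [IsAlgClosed H] {y : ℕ → H} {α : ℕ → A} {r : ℕ}

/-- the direction `y_j` is the identity on `E<y_0, .., y_(j-1)>` -/
theorem Dir.base_twr (hT : TwrH v pr E y α r) {j : ℕ} {γ : A}
    {t : twr v E y r →ₐ[k] PowerSeries (twr v E y r)} (ht : Dir v pr (twr v E y r) E y r j γ t)
    {n : ℕ} (hn : n ≤ j) (hj : j ≤ r) :
    ∀ x : twr v E y r, (x : H) ∈ twr v E y n → t x = PowerSeries.C x := by
  induction n with
  | zero => exact fun x hx => ht.base x hx
  | succ n ih =>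
    intro x hx
    have hnr : n < r := by omega
    have ih' := ih (by omega)
    have hle : twr v E y n ≤ twr v E y r := twr_mono (by omega)
    have hyn : y n ∈ twr v E y r := mem_twr hnr
    -- the polynomials in `y n`
    have hpol : ∀ f ∈ PI (twr v E y n), ∀ w : twr v E y r, (w : H) = f.eval (y n) →
        t w = PowerSeries.C w := by
      intro f hf w hw
      have h1 : w = ∑ i ∈ f.support, (⟨f.coeff i, hle (hf i)⟩ : twr v E y r) *
          (⟨y n, hyn⟩ : twr v E y r) ^ i := by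
        apply Subtype.ext
        rw [hw, eval_eq_sum, Polynomial.sum_def]
        push_cast
        rfl
      have h2 : t ⟨y n, hyn⟩ = PowerSeries.C ⟨y n, hyn⟩ := by
        rw [ht.gen n hnr ⟨y n, hyn⟩ rfl, if_neg (by omega), add_zero]
      rw [h1, map_sum, map_sum]
      refine Finset.sum_congr rfl fun i _ => ?_
      rw [map_mul, map_pow, ih' ⟨f.coeff i, hle (hf i)⟩ (hf i), h2, ← map_pow, ← map_mul]
    ext m
    rcases Nat.eq_zero_or_pos m with rfl | hm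
    · rw [ht.zero, PowerSeries.coeff_C, if_pos rfl]
    · rw [PowerSeries.coeff_C, if_neg hm.ne']
      have h0 : ((PowerSeries.coeff m (t x) : twr v E y r) : H) = 0 := by
        refine TWC.eq_of_ge (v := v) fun b => ?_
        rw [sub_zero]
        obtain ⟨f, hf, h1⟩ := (hT.tl n hnr).dense (w := (x : H)) hx b
        have h2 : f.eval (y n) ∈ twr v E y r := eval_mem (PI_mono hle hf) hyn
        have h3 := ht.norm m (x - ⟨f.eval (y n), h2⟩) b h1
        rw [map_sub, map_sub, hpol f hf ⟨f.eval (y n), h2⟩ rfl, PowerSeries.coeff_C,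
          if_neg hm.ne', sub_zero] at h3
        exact h3
      exact h0.trans (ZeroMemClass.coe_zero _).symm

theorem Dir.oneT (hT : TwrH v pr E y α r) {j : ℕ} {γ : A}
    {t : twr v E y r →ₐ[k] PowerSeries (twr v E y r)} (ht : Dir v pr (twr v E y r) E y r j γ t)
    {n : ℕ} (hn : n ≤ j) (hj : j < r) : OneT v (twr v E y r) (twr v E y n) (y j) t where
  base := ht.base_twr hT hn hj.le
  gen x hx := by
    rw [ht.gen j hj x hx, if_pos rfl]
  norm := ht.norm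
  zero := ht.zero

/-- the jets of high order are strict -/
theorem Dir.fin (hT : TwrH v pr E y α r) {j : Fin r} {γ : A}
    {t : twr v E y r →ₐ[k] PowerSeries (twr v E y r)} (ht : Dir v pr (twr v E y r) E y r j γ t)
    (x : twr v E y r) : ∃ M, ∀ J, M ≤ J → Gt v 0 ((Dj t J x : twr v E y r) : H) := by
  obtain ⟨f, hf, h1⟩ := dense_mono hT le_rfl (x : H) x.2 1
  have h2 : ∃ M, ∀ J, M ≤ J → Dj t J f = 0 := by
    clear h1
    induction hf using AddSubmonoid.closure_induction with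
    | mem x hx =>
      obtain ⟨e, he, M, rfl⟩ := hx
      refine ⟨M j + 1, fun J hJ => ?_⟩
      rw [Dj, ht.coeff_mono, Nat.choose_eq_zero_of_lt (by omega), Nat.cast_zero, zero_mul]
    | zero => exact ⟨0, fun J _ => Dj_zero t J⟩
    | add x y _ _ h1 h2 =>
      obtain ⟨M, hM⟩ := h1
      obtain ⟨M', hM'⟩ := h2
      refine ⟨max M M', fun J hJ => ?_⟩
      rw [Dj_add, hM J ((le_max_left _ _).trans hJ), hM' J ((le_max_right _ _).trans hJ),
        add_zero]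
  obtain ⟨M, hM⟩ := h2
  refine ⟨M, fun J hJ => ?_⟩
  have h3 : v.Ge 1 ((Dj t J (x - f) : twr v E y r) : H) := ht.norm J (x - f) 1 h1
  rw [Dj_sub, hM J hJ, sub_zero] at h3
  exact Gt.of_ge h3 one_pos

/-- **Integration on `E<y_0, y_1>`.** -/
theorem Dir.int_two (hT : TwrH v pr E y α 2) {γ δ : A}
    {t₀ t₁ : twr v E y 2 →ₐ[k] PowerSeries (twr v E y 2)}
    (h₀ : Dir v pr (twr v E y 2) E y 2 ((0 : Fin 2) : ℕ) γ t₀)
    (h₁ : Dir v pr (twr v E y 2) E y 2 ((1 : Fin 2) : ℕ) δ t₁)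
    {N : ℕ} {b₀ b₁ : ℕ → twr v E y 2} (n₀ : ∀ i, N ≤ i → b₀ i = 0) (n₁ : ∀ i, N ≤ i → b₁ i = 0)
    (s₀₀ : ∀ i j, Gt v 0 ((Dj t₀ (p ^ j) (b₀ i) - Dj t₀ (p ^ i) (b₀ j) : twr v E y 2) : H))
    (s₁₁ : ∀ i j, Gt v 0 ((Dj t₁ (p ^ j) (b₁ i) - Dj t₁ (p ^ i) (b₁ j) : twr v E y 2) : H))
    (s₀₁ : ∀ i j, Gt v 0 ((Dj t₁ (p ^ j) (b₀ i) - Dj t₀ (p ^ i) (b₁ j) : twr v E y 2) : H))
    (β₀ : ∀ i, Gt v 0 (((Dj t₀ (p ^ i))^[p - 1] (b₀ i) : twr v E y 2) : H))
    (β₁ : ∀ i, Gt v 0 (((Dj t₁ (p ^ i))^[p - 1] (b₁ i) : twr v E y 2) : H)) :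
    ∃ F : twr v E y 2, (∀ i, Gt v 0 ((Dj t₀ (p ^ i) F - b₀ i : twr v E y 2) : H)) ∧
      ∀ i, Gt v 0 ((Dj t₁ (p ^ i) F - b₁ i : twr v E y 2) : H) := by
  refine TWIV.int_two (B := twr v E y 1) (y₀ := y 0) (y₁ := y 1)
    (h₀.oneT hT (n := 0) le_rfl (by norm_num)) (h₁.oneT hT (n := 1) le_rfl (by norm_num)) rfl rfl
    (hT.tl 0 (by norm_num)) (hT.tl 1 (by norm_num)) (fun m n x => ?_) (fun m n x => ?_)
    (fun x => ?_) n₀ n₁ s₀₀ s₁₁ s₀₁ β₀ β₁
  · exact Dir.comm hT (by decide) h₀ h₁ m n x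
  · exact Dir.comp hT h₀ m n x
  · obtain ⟨M, hM⟩ := h₀.fin hT x
    refine ⟨M, fun i hi => hM _ (hi.trans (Nat.lt_pow_self hp.out.one_lt).le)⟩

end Dir

end Pool.Agent.TWIV
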