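import Mathlib

/-!
# The joint weight step (tame leaf, Lemma V), pure algebra

`k` is a field of characteristic `p`, `R` a commutative `k`-algebra, `σ` a finite set of letters,
`Y = ∑ q i X i ^ (p ^ a)` a non-zero additive polynomial.  If
`P (s + Z) = 𝒮 (s; Y (Z)) + P' (Z)` with `P'` over `k`, then `P = H (Y) + A` with `A` additive
over `k`.
-/

set_option autoImplicit false

namespace TWIV.JW

open MvPolynomial

section defs

variable {σ : Type*} (R : Type*) [CommRing R]

/-- `R[s][Z]` -/
abbrev BB (σ R : Type*) [CommRing R] : Type _ := MvPolynomial σ (MvPolynomial σ R)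

/-- `P (s + Z)` -/
noncomputable def sh : MvPolynomial σ R →ₐ[R] BB σ R := aeval (fun i => C (X i) + X i)

/-- `P (s)` -/
noncomputable def cs : MvPolynomial σ R →ₐ[R] BB σ R := aeval (fun i => C (X i))

/-- `P (Z)` -/
noncomputable def cz : MvPolynomial σ R →ₐ[R] BB σ R := aeval (fun i => X i)

end defs

section ev

variable {σ R S : Type*} [CommRing R] [CommRing S] [Algebra R S]

/-- evaluation of `R[s][Z]` at two points -/
noncomputable def ev2 (s z : σ → S) : BB σ R →ₐ[R] S where
  toRingHom := eval₂Hom (aeval s : MvPolynomial σ R →ₐ[R] S).toRingHom z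
  commutes' := by
    intro r
    have h1 : algebraMap R (BB σ R) r = C (C r) := rfl
    rw [h1]
    simp

@[simp] theorem ev2_C (s z : σ → S) (P : MvPolynomial σ R) : ev2 s z (C P) = aeval s P := by
  show eval₂Hom (aeval s : MvPolynomial σ R →ₐ[R] S).toRingHom z (C P) = _
  simp

@[simp] theorem ev2_X (s z : σ → S) (i : σ) : ev2 (R := R) s z (X i) = z i := by
  show eval₂Hom (aeval s : MvPolynomial σ R →ₐ[R] S).toRingHom z (X i) = _
  simp

theorem ev2_sh (s z : σ → S) (P : MvPolynomial σ R) :
    ev2 s z (sh R P) = aeval (s + z) P := by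
  have : (ev2 s z).comp (sh R) = (aeval (s + z) : MvPolynomial σ R →ₐ[R] S) := by
    apply MvPolynomial.algHom_ext
    intro i
    simp [sh]
  exact DFunLike.congr_fun this P

theorem ev2_cs (s z : σ → S) (P : MvPolynomial σ R) : ev2 s z (cs R P) = aeval s P := by
  have : (ev2 s z).comp (cs R) = (aeval s : MvPolynomial σ R →ₐ[R] S) := by
    apply MvPolynomial.algHom_ext
    intro i
    simp [cs]
  exact DFunLike.congr_fun this P

theorem ev2_cz (s z : σ → S) (P : MvPolynomial σ R) : ev2 s z (cz R P) = aeval z P := by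
  have : (ev2 s z).comp (cz R) = (aeval z : MvPolynomial σ R →ₐ[R] S) := by
    apply MvPolynomial.algHom_ext
    intro i
    simp [cz]
  exact DFunLike.congr_fun this P

theorem cs_eq (P : MvPolynomial σ R) : cs R P = C P := by
  have : (cs R : MvPolynomial σ R →ₐ[R] BB σ R) =
      IsScalarTower.toAlgHom R (MvPolynomial σ R) (BB σ R) := by
    apply MvPolynomial.algHom_ext
    intro i
    simp [cs]
  rw [this]
  rfl

/-- exchange of `s` and `Z` -/
noncomputable def sw (σ R : Type*) [CommRing R] : BB σ R →ₐ[R] BB σ R :=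
  ev2 (fun i => X i) (fun i => C (X i))

theorem ev2_sw (s z : σ → S) (N : BB σ R) : ev2 s z (sw σ R N) = ev2 z s N := by
  have h : ((ev2 s z : BB σ R →ₐ[R] S).toRingHom.comp (sw σ R).toRingHom) =
      (ev2 z s : BB σ R →ₐ[R] S).toRingHom := by
    apply MvPolynomial.ringHom_ext
    · intro P
      simp only [RingHom.comp_apply, AlgHom.toRingHom_eq_coe, RingHom.coe_coe]
      unfold sw
      rw [ev2_C, ev2_C]
      have h2 : (ev2 s z : BB σ R →ₐ[R] S).comp (aeval (fun i => X i)) =
          (aeval z : MvPolynomial σ R →ₐ[R] S) := by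
        apply MvPolynomial.algHom_ext
        intro i
        simp
      exact DFunLike.congr_fun h2 P
    · intro i
      simp only [RingHom.comp_apply, AlgHom.toRingHom_eq_coe, RingHom.coe_coe]
      unfold sw
      rw [ev2_X, ev2_C, ev2_X]
      simp
  exact DFunLike.congr_fun h N

/-- `𝒮 (s; Y (Z))` -/
noncomputable def ev1 (Y : MvPolynomial σ R) (𝒮 : Polynomial (MvPolynomial σ R)) : BB σ R :=
  Polynomial.eval₂ C (cz R Y) 𝒮

theorem ev2_ev1 (Y : MvPolynomial σ R) (𝒮 : Polynomial (MvPolynomial σ R)) (s z : σ → S) :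
    ev2 s z (ev1 Y 𝒮) =
      Polynomial.eval₂ (aeval s : MvPolynomial σ R →ₐ[R] S).toRingHom (aeval z Y) 𝒮 := by
  unfold ev1
  rw [← AlgHom.coe_toRingHom, Polynomial.hom_eval₂]
  congr 1
  · apply MvPolynomial.ringHom_ext
    · intro r
      simp
    · intro i
      simp
  · simp [ev2_cz]

end ev

/-! ### one variable -/

theorem line_inj {T : Type*} [CommRing T] {q : T} (hq : IsUnit q) {n : ℕ} (hn : 0 < n)
    (𝒮 : Polynomial T)
    (h : Polynomial.eval₂ Polynomial.C (Polynomial.C q * Polynomial.X ^ n) 𝒮 = 0) : 𝒮 = 0 := by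
  ext l
  have h1 := congrArg (fun f => Polynomial.coeff f (n * l)) h
  simp only [Polynomial.coeff_zero] at h1
  rw [Polynomial.eval₂_eq_sum_range, Polynomial.finsetSum_coeff] at h1
  have h2 : ∀ i ∈ Finset.range (𝒮.natDegree + 1),
      (Polynomial.C (𝒮.coeff i) * (Polynomial.C q * Polynomial.X ^ n) ^ i).coeff (n * l) =
        if i = l then 𝒮.coeff i * q ^ i else 0 := by
    intro i _
    rw [mul_pow, ← Polynomial.C_pow, ← pow_mul, ← mul_assoc, ← Polynomial.C_mul,
      Polynomial.coeff_C_mul_X_pow]
    have : n * l = n * i ↔ i = l := by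
      constructor
      · intro h
        exact (Nat.eq_of_mul_eq_mul_left hn h).symm
      · intro h
        rw [h]
    by_cases hi : i = l
    · rw [if_pos (this.2 hi), if_pos hi]
    · rw [if_neg (fun h => hi (this.1 h)), if_neg hi]
  rw [Finset.sum_congr rfl h2, Finset.sum_ite_eq'] at h1
  by_cases hl : l ∈ Finset.range (𝒮.natDegree + 1)
  · rw [if_pos hl] at h1
    rw [Polynomial.coeff_zero]
    exact (hq.pow l).mul_left_eq_zero.1 h1
  · rw [Finset.mem_range, not_lt] at hl
    rw [Polynomial.coeff_zero]
    exact Polynomial.coeff_eq_zero_of_natDegree_lt (by omega)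


section core

variable {σ R : Type*} [CommRing R] [DecidableEq σ]

theorem aeval_single {S : Type*} [CommRing S] [Algebra R S] (i0 : σ) (x : S)
    (f : MvPolynomial σ R) :
    aeval (Pi.single i0 x) f =
      Polynomial.aeval x (aeval (Pi.single i0 (Polynomial.X : Polynomial R)) f) := by
  have : (aeval (Pi.single i0 x) : MvPolynomial σ R →ₐ[R] S) =
      (Polynomial.aeval x).comp (aeval (Pi.single i0 (Polynomial.X : Polynomial R))) := by
    apply MvPolynomial.algHom_ext
    intro j
    by_cases hj : j = i0
    · subst hj; simp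
    · simp [Pi.single_eq_of_ne hj]
  rw [this]
  rfl

theorem core (Y : MvPolynomial σ R) (i0 : σ) {q : R} (hq : IsUnit q) {n : ℕ} (hn : 0 < n)
    (hY : aeval (Pi.single i0 (Polynomial.X : Polynomial R)) Y =
      Polynomial.C q * Polynomial.X ^ n)
    (𝒮 : Polynomial (MvPolynomial σ R)) (hsym : sw σ R (ev1 Y 𝒮) = ev1 Y 𝒮)
    (hline : ev2 (R := R) (Pi.single i0 (Polynomial.C Polynomial.X) : σ → Polynomial (Polynomial R))
      (Pi.single i0 Polynomial.X) (ev1 Y 𝒮) = 0) : 𝒮 = 0 := by
  -- the coefficients of `𝒮` vanish on the line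
  set ln : MvPolynomial σ R →+* Polynomial R :=
    (aeval (Pi.single i0 (Polynomial.X : Polynomial R)) : MvPolynomial σ R →ₐ[R] _).toRingHom
    with hln
  have h1 : 𝒮.map ln = 0 := by
    apply line_inj (q := Polynomial.C q) (hq.map Polynomial.C) hn
    rw [ev2_ev1] at hline
    rw [Polynomial.eval₂_map]
    have e1 : (Polynomial.C.comp ln : MvPolynomial σ R →+* Polynomial (Polynomial R)) =
        (aeval (Pi.single i0 (Polynomial.C Polynomial.X : Polynomial (Polynomial R))) :
          MvPolynomial σ R →ₐ[R] _).toRingHom := by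
      apply MvPolynomial.ringHom_ext
      · intro r
        simp [hln]
      · intro j
        by_cases hj : j = i0
        · subst hj; simp [hln]
        · simp [hln, Pi.single_eq_of_ne hj]
    have e2 : (aeval (Pi.single i0 (Polynomial.X : Polynomial (Polynomial R))) Y) =
        Polynomial.C (Polynomial.C q) * Polynomial.X ^ n := by
      rw [aeval_single, hY]
      simp
    rw [e1, ← e2]
    exact hline
  have h2 : ev2 (R := R) (fun i => Polynomial.C (X i) : σ → Polynomial (MvPolynomial σ R))
      (Pi.single i0 Polynomial.X) (ev1 Y 𝒮) = 0 := by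
    rw [← hsym, ev2_sw, ev2_ev1]
    have h3 : (aeval (Pi.single i0 (Polynomial.X : Polynomial (MvPolynomial σ R))) :
        MvPolynomial σ R →ₐ[R] _).toRingHom = (Polynomial.mapRingHom C).comp ln := by
      apply MvPolynomial.ringHom_ext
      · intro r
        simp [hln]
      · intro j
        by_cases hj : j = i0
        · subst hj; simp [hln]
        · simp [hln, Pi.single_eq_of_ne hj]
    rw [h3, ← Polynomial.eval₂_map, h1, Polynomial.eval₂_zero]
  apply line_inj (q := (C q : MvPolynomial σ R)) (hq.map C) hn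
  rw [ev2_ev1] at h2
  have e1 : (Polynomial.C : MvPolynomial σ R →+* Polynomial (MvPolynomial σ R)) =
      (aeval (fun i => Polynomial.C (X i) : σ → Polynomial (MvPolynomial σ R)) :
        MvPolynomial σ R →ₐ[R] _).toRingHom := by
    apply MvPolynomial.ringHom_ext
    · intro r
      simp
    · intro j
      simp
  have e2 : (aeval (Pi.single i0 (Polynomial.X : Polynomial (MvPolynomial σ R))) Y) =
      Polynomial.C (C q) * Polynomial.X ^ n := by
    rw [aeval_single, hY]
    simp
  rw [← e2, e1]
  exact h2

end core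


/-! ### additive polynomials and the joint weight step -/

section main

variable {σ : Type*}

/-- additive polynomials in several variables -/
def IsAdd {k : Type*} [CommRing k] (A : MvPolynomial σ k) : Prop := sh k A = C A + cz k A

/-- `∑ q i X i ^ n` -/
noncomputable def YY {k : Type*} [CommRing k] [Fintype σ] (q : σ → k) (n : ℕ) : MvPolynomial σ k := ∑ i, C (q i) * X i ^ n

/-- the defect of additivity -/
noncomputable def dl (R : Type*) [CommRing R] (f : MvPolynomial σ R) : BB σ R :=
  sh R f - C f - cz R f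

theorem dl_sub {R : Type*} [CommRing R] (f g : MvPolynomial σ R) :
    dl R (f - g) = dl R f - dl R g := by
  unfold dl
  simp only [map_sub]
  ring

theorem dl_add {R : Type*} [CommRing R] (f g : MvPolynomial σ R) :
    dl R (f + g) = dl R f + dl R g := by
  unfold dl
  simp only [map_add]
  ring

theorem sw_dl {R : Type*} [CommRing R] (f : MvPolynomial σ R) : sw σ R (dl R f) = dl R f := by
  have h1 : sw σ R (sh R f) = sh R f := by
    unfold sw
    rw [ev2_sh]
    unfold sh
    congr 2
    funext i
    simp only [Pi.add_apply]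
    ring
  have h2 : sw σ R (C f) = cz R f := by
    unfold sw
    rw [ev2_C]
    rfl
  have h3 : sw σ R (cz R f) = C f := by
    unfold sw
    rw [ev2_cz, ← cs_eq]
    rfl
  unfold dl
  rw [map_sub, map_sub, h1, h2, h3]
  ring

theorem line_dl {R : Type*} [CommRing R] [DecidableEq σ] (i0 : σ) (f : MvPolynomial σ R) :
    ev2 (R := R) (Pi.single i0 (Polynomial.C Polynomial.X) : σ → Polynomial (Polynomial R))
      (Pi.single i0 Polynomial.X) (dl R f) =
    Polynomial.aeval (Polynomial.C Polynomial.X + Polynomial.X : Polynomial (Polynomial R))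
      (aeval (Pi.single i0 (Polynomial.X : Polynomial R)) f) -
    Polynomial.C (aeval (Pi.single i0 (Polynomial.X : Polynomial R)) f) -
    Polynomial.aeval (Polynomial.X : Polynomial (Polynomial R))
      (aeval (Pi.single i0 (Polynomial.X : Polynomial R)) f) := by
  unfold dl
  rw [map_sub, map_sub, ev2_sh, ev2_C, ev2_cz, ← Pi.single_add,
    aeval_single i0 (Polynomial.C Polynomial.X + Polynomial.X : Polynomial (Polynomial R)),
    aeval_single i0 (Polynomial.C Polynomial.X : Polynomial (Polynomial R)),
    aeval_single i0 (Polynomial.X : Polynomial (Polynomial R))]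
  have : (Polynomial.aeval (Polynomial.C Polynomial.X : Polynomial (Polynomial R))) =
      (IsScalarTower.toAlgHom R (Polynomial R) (Polynomial (Polynomial R))) := by
    apply Polynomial.algHom_ext
    simp
  rw [this]
  rfl

/-- for one variable polynomials: the coefficients of `f (x + y)` -/
theorem coeff_shift {R : Type*} [CommRing R] (f : Polynomial R) (i j : ℕ) :
    ((Polynomial.aeval (Polynomial.C Polynomial.X + Polynomial.X : Polynomial (Polynomial R))
      f).coeff j).coeff i = ((i + j).choose j : R) * f.coeff (i + j) := by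
  induction f using Polynomial.induction_on' with
  | add f g hf hg => rw [map_add, Polynomial.coeff_add, Polynomial.coeff_add, hf, hg,
      Polynomial.coeff_add, mul_add]
  | monomial m a =>
    rw [Polynomial.aeval_monomial, Polynomial.coeff_monomial]
    have h1 : algebraMap R (Polynomial (Polynomial R)) a = Polynomial.C (Polynomial.C a) := rfl
    rw [h1, Polynomial.coeff_C_mul, add_comm (Polynomial.C Polynomial.X),
      Polynomial.coeff_X_add_C_pow, Polynomial.coeff_C_mul]
    have h2 : ((m.choose j : ℕ) : Polynomial R) = Polynomial.C (m.choose j : R) := by simp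
    rw [h2, Polynomial.coeff_mul_C, Polynomial.coeff_X_pow]
    by_cases hm : m = i + j
    · subst hm
      rw [if_pos (by omega), if_pos rfl]
      ring
    · rw [if_neg hm]
      by_cases hj : j ≤ m
      · rw [if_neg (by omega)]
        ring
      · rw [Nat.choose_eq_zero_of_lt (by omega)]
        simp

theorem aeval_X_eq {R : Type*} [CommRing R] (f : Polynomial R) :
    Polynomial.aeval (Polynomial.X : Polynomial (Polynomial R)) f = f.map Polynomial.C := by
  induction f using Polynomial.induction_on' with
  | add f g hf hg => rw [map_add, hf, hg, Polynomial.map_add]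
  | monomial m a =>
    rw [Polynomial.aeval_monomial, Polynomial.map_monomial,
      ← Polynomial.C_mul_X_pow_eq_monomial]
    rfl

theorem coeff_dl1 {R : Type*} [CommRing R] (f : Polynomial R) (i j : ℕ) :
    ((Polynomial.aeval (Polynomial.C Polynomial.X + Polynomial.X : Polynomial (Polynomial R)) f -
      Polynomial.C f - Polynomial.aeval (Polynomial.X : Polynomial (Polynomial R)) f).coeff
        j).coeff i = ((i + j).choose j : R) * f.coeff (i + j) -
        (if j = 0 then f.coeff i else 0) - (if i = 0 then f.coeff j else 0) := by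
  rw [Polynomial.coeff_sub, Polynomial.coeff_sub, Polynomial.coeff_sub, Polynomial.coeff_sub,
    coeff_shift]
  congr 1
  · congr 1
    rw [Polynomial.coeff_C]
    split_ifs <;> simp
  · rw [aeval_X_eq, Polynomial.coeff_map, Polynomial.coeff_C]


/-- `𝒢 g`: `g (Y (s + Z)) = ev1 Y (𝒢 g)` -/
noncomputable def gg {R : Type*} [CommRing R] (Y : MvPolynomial σ R) (g : Polynomial R) :
    Polynomial (MvPolynomial σ R) :=
  (g.map C).comp (Polynomial.X + Polynomial.C Y)

theorem ev1_sub {R : Type*} [CommRing R] (Y : MvPolynomial σ R)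
    (f g : Polynomial (MvPolynomial σ R)) : ev1 Y (f - g) = ev1 Y f - ev1 Y g := by
  unfold ev1
  rw [Polynomial.eval₂_sub]

theorem ev1_C {R : Type*} [CommRing R] (Y P : MvPolynomial σ R) :
    ev1 Y (Polynomial.C P) = C P := by
  unfold ev1
  rw [Polynomial.eval₂_C]

theorem ev1_map {R : Type*} [CommRing R] (Y : MvPolynomial σ R) (g : Polynomial R) :
    ev1 Y (g.map C) = cz R (Polynomial.aeval Y g) := by
  unfold ev1
  rw [Polynomial.eval₂_map, ← Polynomial.aeval_algHom_apply, Polynomial.aeval_def]
  rfl

theorem ev1_gg {R : Type*} [CommRing R] {Y : MvPolynomial σ R} (hY : IsAdd Y)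
    (g : Polynomial R) : ev1 Y (gg Y g) = sh R (Polynomial.aeval Y g) := by
  unfold ev1 gg
  rw [Polynomial.eval₂_comp, Polynomial.eval₂_map, ← Polynomial.aeval_algHom_apply,
    Polynomial.aeval_def]
  have h1 : sh R Y = C Y + cz R Y := hY
  rw [h1]
  simp only [Polynomial.eval₂_add, Polynomial.eval₂_X, Polynomial.eval₂_C]
  rw [add_comm (cz R Y)]
  rfl

/-- the part of the cocycle of `f (Y)` -/
noncomputable def dd {R : Type*} [CommRing R] (Y : MvPolynomial σ R) (g : Polynomial R) :
    Polynomial (MvPolynomial σ R) :=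
  gg Y g - Polynomial.C (Polynomial.aeval Y g) - g.map C

theorem ev1_dd {R : Type*} [CommRing R] {Y : MvPolynomial σ R} (hY : IsAdd Y)
    (g : Polynomial R) : ev1 Y (dd Y g) = dl R (Polynomial.aeval Y g) := by
  unfold dd dl
  rw [ev1_sub, ev1_sub, ev1_gg hY, ev1_C, ev1_map]

theorem isAdd_iff {R : Type*} [CommRing R] {A : MvPolynomial σ R} : IsAdd A ↔ dl R A = 0 := by
  unfold IsAdd dl
  rw [sub_sub, sub_eq_zero]

/-! ### base change `k → R` -/

theorem bc_sh {k R : Type*} [CommRing k] [CommRing R] (φ : k →+* R) (f : MvPolynomial σ k) :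
    map (map φ) (sh k f) = sh R (map φ f) := by
  have h : ((map (map φ) : BB σ k →+* BB σ R).comp (sh k).toRingHom) =
      (sh R).toRingHom.comp (map φ) := by
    apply MvPolynomial.ringHom_ext
    · intro r
      simp [sh]
    · intro j
      simp [sh]
  exact DFunLike.congr_fun h f

theorem bc_cz {k R : Type*} [CommRing k] [CommRing R] (φ : k →+* R) (f : MvPolynomial σ k) :
    map (map φ) (cz k f) = cz R (map φ f) := by
  have h : ((map (map φ) : BB σ k →+* BB σ R).comp (cz k).toRingHom) =
      (cz R).toRingHom.comp (map φ) := by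
    apply MvPolynomial.ringHom_ext
    · intro r
      simp [cz]
    · intro j
      simp [cz]
  exact DFunLike.congr_fun h f

theorem bc_dl {k R : Type*} [CommRing k] [CommRing R] (φ : k →+* R) (f : MvPolynomial σ k) :
    map (map φ) (dl k f) = dl R (map φ f) := by
  unfold dl
  rw [map_sub, map_sub, bc_sh, bc_cz, map_C]

theorem isAdd_of_map {k R : Type*} [CommRing k] [CommRing R] {φ : k →+* R}
    (hφ : Function.Injective φ) {A : MvPolynomial σ k} (h : IsAdd (map φ A)) : IsAdd A := by
  rw [isAdd_iff] at h ⊢
  rw [← bc_dl] at h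
  have h2 : Function.Injective (map (map φ) : BB σ k →+* BB σ R) :=
    map_injective _ (map_injective _ hφ)
  exact h2 (by rw [h, map_zero])

theorem IsAdd.map {k R : Type*} [CommRing k] [CommRing R] (φ : k →+* R)
    {A : MvPolynomial σ k} (h : IsAdd A) : IsAdd (MvPolynomial.map φ A) := by
  rw [isAdd_iff] at h ⊢
  rw [← bc_dl, h, map_zero]

theorem isAdd_YY {k : Type*} [Field k] [Fintype σ] (p : ℕ) [Fact p.Prime] [CharP k p]
    (q : σ → k) (a : ℕ) : IsAdd (YY q (p ^ a)) := by
  unfold IsAdd YY
  simp only [map_sum, map_mul, map_pow]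
  rw [← Finset.sum_add_distrib]
  apply Finset.sum_congr rfl
  intro i _
  have h1 : sh k (X i : MvPolynomial σ k) = C (X i) + X i := by simp [sh]
  have h2 : cz k (X i : MvPolynomial σ k) = X i := by simp [cz]
  have h3 : sh k (C (q i) : MvPolynomial σ k) = C (C (q i)) := by simp [sh]
  have h4 : cz k (C (q i) : MvPolynomial σ k) = C (C (q i)) := by simp [cz]
  rw [h1, h2, h3, h4, add_pow_char_pow, mul_add]


/-- the polynomial in `Y` which corrects the line -/
noncomputable def cor {k : Type*} [Field k] (f : Polynomial k) (q : k) (n : ℕ) : Polynomial k :=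
  ∑ l ∈ Finset.range (f.natDegree + 1), Polynomial.C (f.coeff (n * l) / q ^ l) * Polynomial.X ^ l

theorem coeff_cor {k : Type*} [Field k] (f : Polynomial k) {q : k} (hq : q ≠ 0) {n : ℕ}
    (hn : 0 < n) (m : ℕ) :
    (Polynomial.aeval (Polynomial.C q * Polynomial.X ^ n : Polynomial k) (cor f q n)).coeff m =
      if n ∣ m then f.coeff m else 0 := by
  unfold cor
  rw [map_sum, Polynomial.finsetSum_coeff]
  have h1 : ∀ l ∈ Finset.range (f.natDegree + 1),
      (Polynomial.aeval (Polynomial.C q * Polynomial.X ^ n : Polynomial k)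
        (Polynomial.C (f.coeff (n * l) / q ^ l) * Polynomial.X ^ l)).coeff m =
      if n * l = m then f.coeff m else 0 := by
    intro l _
    rw [map_mul, Polynomial.aeval_C, map_pow, Polynomial.aeval_X, mul_pow, ← pow_mul]
    have h2 : (algebraMap k (Polynomial k)) (f.coeff (n * l) / q ^ l) =
        Polynomial.C (f.coeff (n * l) / q ^ l) := rfl
    rw [h2, ← mul_assoc, ← Polynomial.C_pow, ← Polynomial.C_mul, Polynomial.coeff_C_mul_X_pow,
      div_mul_cancel₀ _ (pow_ne_zero _ hq)]
    by_cases h : m = n * l
    · rw [if_pos h, if_pos h.symm, h]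
    · rw [if_neg h, if_neg (fun h' => h h'.symm)]
  rw [Finset.sum_congr rfl h1]
  by_cases hd : n ∣ m
  · obtain ⟨l0, rfl⟩ := hd
    rw [if_pos (dvd_mul_right _ _)]
    by_cases hl : l0 ∈ Finset.range (f.natDegree + 1)
    · rw [Finset.sum_eq_single l0]
      · rw [if_pos rfl]
      · intro l _ hl2
        rw [if_neg]
        intro h
        exact hl2 (Nat.eq_of_mul_eq_mul_left hn h)
      · intro h; exact absurd hl h
    · rw [Finset.sum_eq_zero]
      · rw [Polynomial.coeff_eq_zero_of_natDegree_lt]
        rw [Finset.mem_range, not_lt] at hl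
        have : l0 ≤ n * l0 := Nat.le_mul_of_pos_left _ hn
        omega
      · intro l hl2
        rw [if_neg]
        intro h
        rw [Nat.eq_of_mul_eq_mul_left hn h] at hl2
        exact hl hl2
  · rw [if_neg hd, Finset.sum_eq_zero]
    intro l _
    rw [if_neg]
    intro h
    exact hd ⟨l, h.symm⟩

/-- the line of a mapped polynomial -/
theorem line_map {k R : Type*} [CommRing k] [CommRing R] [DecidableEq σ] (φ : k →+* R) (i0 : σ)
    (f : MvPolynomial σ k) :
    aeval (Pi.single i0 (Polynomial.X : Polynomial R)) (MvPolynomial.map φ f) =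
      (aeval (Pi.single i0 (Polynomial.X : Polynomial k)) f).map φ := by
  have h : ((aeval (Pi.single i0 (Polynomial.X : Polynomial R)) :
      MvPolynomial σ R →ₐ[R] Polynomial R).toRingHom.comp (MvPolynomial.map φ)) =
      (Polynomial.mapRingHom φ).comp
        (aeval (Pi.single i0 (Polynomial.X : Polynomial k)) :
          MvPolynomial σ k →ₐ[k] Polynomial k).toRingHom := by
    apply MvPolynomial.ringHom_ext
    · intro r
      simp
    · intro j
      by_cases hj : j = i0
      · subst hj; simp
      · simp [Pi.single_eq_of_ne hj]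
  exact DFunLike.congr_fun h f

variable [Fintype σ] [DecidableEq σ] {k R : Type*} [Field k] [CommRing R] [Nontrivial R]

theorem line_YY (q : σ → k) (i0 : σ) {n : ℕ} (hn : 0 < n) :
    aeval (Pi.single i0 (Polynomial.X : Polynomial k)) (YY q n) =
      Polynomial.C (q i0) * Polynomial.X ^ n := by
  unfold YY
  rw [map_sum, Finset.sum_eq_single i0]
  · simp
  · intro j _ hj
    simp [Pi.single_eq_of_ne hj, hn.ne']
  · intro h; exact absurd (Finset.mem_univ _) h

/-- **joint weight step** -/
theorem joint (φ : k →+* R) (p : ℕ) [Fact p.Prime] [CharP k p] (q : σ → k) (i0 : σ)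
    (hq : q i0 ≠ 0) (a : ℕ) (P : MvPolynomial σ R) (𝒮 : Polynomial (MvPolynomial σ R))
    (Pc : MvPolynomial σ k)
    (h : sh R P = ev1 (map φ (YY q (p ^ a))) 𝒮 + cz R (map φ Pc)) :
    ∃ (H : Polynomial R) (A : MvPolynomial σ k), IsAdd A ∧
      P = Polynomial.aeval (map φ (YY q (p ^ a))) H + map φ A := by
  set n := p ^ a with hn
  have hn0 : 0 < n := pow_pos (Fact.out : p.Prime).pos a
  set Y : MvPolynomial σ R := map φ (YY q n) with hYdef
  have hYadd : IsAdd Y := (isAdd_YY p q a).map φ
  have hφ : Function.Injective φ := φ.injective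
  have hYline : aeval (Pi.single i0 (Polynomial.X : Polynomial R)) Y =
      Polynomial.C (φ (q i0)) * Polynomial.X ^ n := by
    rw [hYdef, line_map, line_YY q i0 hn0]
    simp
  -- step 0
  obtain ⟨g, hg⟩ : ∃ g : Polynomial R, P = Polynomial.aeval Y g + map φ Pc := by
    refine ⟨𝒮.map constantCoeff, ?_⟩
    have h1 := congrArg (ev2 (R := R) (0 : σ → MvPolynomial σ R) (fun i => X i)) h
    rw [ev2_sh, map_add, ev2_ev1, ev2_cz, zero_add] at h1
    rw [aeval_X_left, AlgHom.id_apply, AlgHom.id_apply, AlgHom.id_apply] at h1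
    rw [h1]
    congr 1
    rw [Polynomial.aeval_def, Polynomial.eval₂_map]
    congr 1
    apply MvPolynomial.ringHom_ext
    · intro r
      simp
    · intro j
      simp
  -- step 1
  set f : Polynomial k := aeval (Pi.single i0 (Polynomial.X : Polynomial k)) Pc with hf
  set 𝒮1 : Polynomial (MvPolynomial σ R) :=
    𝒮 - Polynomial.C P - g.map C - dd Y g with hS1
  have hM : dl R (map φ Pc) = ev1 Y 𝒮1 := by
    have e1 : map φ Pc = P - Polynomial.aeval Y g := by rw [hg]; ring
    rw [e1, dl_sub, ← ev1_dd hYadd, hS1, ev1_sub, ev1_sub, ev1_sub, ev1_C, ev1_map]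
    unfold dl
    rw [h]
    have e2 : cz R P = cz R (Polynomial.aeval Y g) + cz R (map φ Pc) := by
      rw [← map_add, ← hg]
    rw [e2]
    ring
  -- step 2: the coefficients on the line
  have hL := line_dl i0 (map φ Pc)
  rw [hM, ev2_ev1, line_map, ← hf] at hL
  have hLn : ∀ m i j : ℕ, ¬ n ∣ j → i + j = m → 1 ≤ i → 1 ≤ j →
      ((m.choose j : ℕ) : k) * f.coeff m = 0 := by
    intro m i j hj hij hi hj1
    have h1 := congrArg (fun t => (Polynomial.coeff t j).coeff i) hL
    rw [coeff_dl1, if_neg (by omega), if_neg (by omega), sub_zero, sub_zero,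
      Polynomial.coeff_map, hij] at h1
    have h2 : (Polynomial.eval₂
        (aeval (Pi.single i0 (Polynomial.C Polynomial.X : Polynomial (Polynomial R))) :
          MvPolynomial σ R →ₐ[R] _).toRingHom
        (aeval (Pi.single i0 (Polynomial.X : Polynomial (Polynomial R))) Y) 𝒮1).coeff j = 0 := by
      rw [aeval_single i0 (Polynomial.X : Polynomial (Polynomial R)), hYline,
        Polynomial.eval₂_eq_sum_range, Polynomial.finsetSum_coeff]
      apply Finset.sum_eq_zero
      intro l _
      have e3 : Polynomial.aeval (Polynomial.X : Polynomial (Polynomial R))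
          (Polynomial.C (φ (q i0)) * Polynomial.X ^ n) =
          Polynomial.C (Polynomial.C (φ (q i0))) * Polynomial.X ^ n := by
        simp
      rw [e3, mul_pow, ← pow_mul, ← mul_assoc]
      have e4 : (aeval (Pi.single i0 (Polynomial.C Polynomial.X : Polynomial (Polynomial R))) :
          MvPolynomial σ R →ₐ[R] _).toRingHom (𝒮1.coeff l) =
          Polynomial.C (aeval (Pi.single i0 (Polynomial.X : Polynomial R)) (𝒮1.coeff l)) := by
        show aeval (Pi.single i0 (Polynomial.C Polynomial.X : Polynomial (Polynomial R)))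
          (𝒮1.coeff l) = _
        rw [aeval_single]
        have e5 : (Polynomial.aeval (Polynomial.C Polynomial.X :
            Polynomial (Polynomial R))) =
            (IsScalarTower.toAlgHom R (Polynomial R) (Polynomial (Polynomial R))) := by
          apply Polynomial.algHom_ext
          simp
        rw [e5]
        rfl
      rw [e4, ← Polynomial.C_pow, ← Polynomial.C_mul, Polynomial.coeff_C_mul_X_pow,
        if_neg]
      intro h3
      exact hj ⟨l, h3⟩
    rw [h2, Polynomial.coeff_zero] at h1
    apply hφ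
    rw [map_mul, map_zero, map_natCast]
    exact h1.symm
  have hLn' : ∀ m i j : ℕ, ¬ n ∣ m → i + j = m → 1 ≤ i → 1 ≤ j →
      ((m.choose j : ℕ) : k) * f.coeff m = 0 := by
    intro m i j hm hij hi hj1
    by_cases hj : n ∣ j
    · have hi' : ¬ n ∣ i := by
        intro hi2
        exact hm (hij ▸ dvd_add hi2 hj)
      have h1 := hLn m j i hi' (by omega) hj1 hi
      rw [← Nat.choose_symm (show i ≤ m by omega)] at h1
      rw [show m - i = j by omega] at h1
      exact h1
    · exact hLn m i j hj hij hi hj1
  -- step 3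
  set G : Polynomial k := cor f (q i0) n with hG
  set A : MvPolynomial σ k := Pc - Polynomial.aeval (YY q n) G with hA
  have hmapG : map φ (Polynomial.aeval (YY q n) G) = Polynomial.aeval Y (G.map φ) := by
    rw [Polynomial.aeval_def, Polynomial.hom_eval₂, Polynomial.aeval_def, Polynomial.eval₂_map]
    congr 1
    ext r
    simp
  have hNA : dl R (map φ A) = ev1 Y (𝒮1 - dd Y (G.map φ)) := by
    rw [hA, map_sub, dl_sub, hM, hmapG, ← ev1_dd hYadd]
    exact (ev1_sub _ _ _).symm
  have hlineA : ∀ m, (aeval (Pi.single i0 (Polynomial.X : Polynomial k)) A).coeff m =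
      if n ∣ m then 0 else f.coeff m := by
    intro m
    have e1 : aeval (Pi.single i0 (Polynomial.X : Polynomial k)) (Polynomial.aeval (YY q n) G) =
        Polynomial.aeval (Polynomial.C (q i0) * Polynomial.X ^ n : Polynomial k) G := by
      rw [← Polynomial.aeval_algHom_apply, line_YY q i0 hn0]
    rw [hA, map_sub, e1, Polynomial.coeff_sub, hG, coeff_cor f hq hn0, ← hf]
    split_ifs <;> ring
  have hline0 : ev2 (R := R) (Pi.single i0 (Polynomial.C Polynomial.X) :
      σ → Polynomial (Polynomial R)) (Pi.single i0 Polynomial.X) (dl R (map φ A)) = 0 := by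
    rw [line_dl, line_map]
    ext j i
    rw [coeff_dl1, Polynomial.coeff_zero, Polynomial.coeff_zero]
    simp only [Polynomial.coeff_map, hlineA]
    rcases Nat.eq_zero_or_pos j with hj | hj
    · subst hj
      rcases Nat.eq_zero_or_pos i with hi | hi
      · subst hi
        simp
      · simp [hi.ne']
    · rcases Nat.eq_zero_or_pos i with hi | hi
      · subst hi
        simp [hj.ne']
      · rw [if_neg hj.ne', if_neg hi.ne', sub_zero, sub_zero]
        split_ifs with h5
        · simp
        · rw [← map_natCast φ, ← map_mul, hLn' (i + j) i j h5 rfl hi hj, map_zero]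
  have hS0 := core Y i0 (q := φ (q i0)) ((IsUnit.mk0 _ hq).map φ) hn0 hYline
    (𝒮1 - dd Y (G.map φ)) (by rw [← hNA, sw_dl]) (by rw [← hNA]; exact hline0)
  refine ⟨g + G.map φ, A, ?_, ?_⟩
  · apply isAdd_of_map hφ
    rw [isAdd_iff, hNA, hS0]
    unfold ev1
    rw [Polynomial.eval₂_zero]
  · rw [map_add, ← hmapG, add_assoc, ← map_add, hA, add_sub_cancel, ← hg]

end main

end TWIV.JW
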