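import Mathlib
import Pool.Agent.Lib.TWIV.JW
import Pool.Agent.Lib.TWIV.Coc

/-!
# The joint weight step: explicit additive part, homogeneous version, coefficient form
-/

set_option autoImplicit false

namespace TWIV.JW

open MvPolynomial

section

variable {σ : Type*} {k : Type*} [CommRing k]

theorem IsAdd.eval {S : Type*} [CommRing S] [Algebra k S] {A : MvPolynomial σ k} (hA : IsAdd A)
    (s z : σ → S) : aeval (s + z) A = aeval s A + aeval z A := by
  have h := congrArg (ev2 (R := k) s z) hA
  rw [map_add, ev2_sh, ev2_C, ev2_cz] at h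
  exact h

variable [Fintype σ] [DecidableEq σ]

theorem IsAdd.sum_eval {S : Type*} [CommRing S] [Algebra k S] {A : MvPolynomial σ k}
    (hA : IsAdd A) (t : Finset σ) (s : σ → σ → S) :
    aeval (∑ i ∈ t, s i) A = ∑ i ∈ t, aeval (s i) A := by
  induction t using Finset.induction_on with
  | empty =>
    rw [Finset.sum_empty, Finset.sum_empty]
    have h := hA.eval (0 : σ → S) 0
    rw [add_zero] at h
    exact left_eq_add.1 h
  | insert i t hi ih => rw [Finset.sum_insert hi, Finset.sum_insert hi, hA.eval, ih]

/-- an additive polynomial is the sum of its lines -/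
theorem IsAdd.eq_sum_line {A : MvPolynomial σ k} (hA : IsAdd A) :
    A = ∑ i, Polynomial.aeval (X i : MvPolynomial σ k)
      (aeval (Pi.single i (Polynomial.X : Polynomial k)) A) := by
  have h1 : (fun i => X i : σ → MvPolynomial σ k) = ∑ i, Pi.single i (X i) := by
    funext j
    rw [Finset.sum_apply, Finset.sum_eq_single j]
    · simp
    · intro i _ hij
      exact Pi.single_eq_of_ne hij.symm _
    · intro h; exact absurd (Finset.mem_univ _) h
  have h2 : A = aeval (fun i => X i : σ → MvPolynomial σ k) A := by
    rw [aeval_X_left]; rfl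
  conv_lhs => rw [h2, h1, hA.sum_eval]
  apply Finset.sum_congr rfl
  intro i _
  rw [aeval_single]

/-- the lines of an additive polynomial are additive families -/
theorem IsAdd.line_coeff {A : MvPolynomial σ k} (hA : IsAdd A) (i0 : σ) {i j : ℕ} (hi : 1 ≤ i)
    (hj : 1 ≤ j) : (((i + j).choose j : ℕ) : k) *
      (aeval (Pi.single i0 (Polynomial.X : Polynomial k)) A).coeff (i + j) = 0 := by
  have h := line_dl i0 A
  rw [isAdd_iff.1 hA, map_zero] at h
  have h1 := congrArg (fun t => (Polynomial.coeff t j).coeff i) h
  rw [coeff_dl1, if_neg (by omega), if_neg (by omega), sub_zero, sub_zero,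
    Polynomial.coeff_zero, Polynomial.coeff_zero] at h1
  exact h1.symm

theorem IsAdd.line_coeff_zero {A : MvPolynomial σ k} (hA : IsAdd A) (i0 : σ) :
    (aeval (Pi.single i0 (Polynomial.X : Polynomial k)) A).coeff 0 = 0 := by
  have h := line_dl i0 A
  rw [isAdd_iff.1 hA, map_zero] at h
  have h1 := congrArg (fun t => (Polynomial.coeff t 0).coeff 0) h
  rw [coeff_dl1] at h1
  simp only [add_zero, Nat.choose_self, Nat.cast_one, one_mul, sub_self, zero_sub, if_true,
    Polynomial.coeff_zero] at h1
  exact (neg_eq_zero.1 h1.symm)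

end

section

variable {σ : Type*} [Fintype σ] [DecidableEq σ] {k : Type*} [Field k]

theorem IsAdd.line_supp (p : ℕ) [Fact p.Prime] [CharP k p] {A : MvPolynomial σ k} (hA : IsAdd A)
    (i0 : σ) {n : ℕ} (hn : ∀ m, n ≠ p ^ m) :
    (aeval (Pi.single i0 (Polynomial.X : Polynomial k)) A).coeff n = 0 := by
  rcases Nat.eq_zero_or_pos n with h0 | h0
  · rw [h0]; exact hA.line_coeff_zero i0
  · refine Pool.Agent.TWIV.additive_family (k := k) p
      (f := fun m => (aeval (Pi.single i0 (Polynomial.X : Polynomial k)) A).coeff m)
      ?_ h0 hn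
    intro i j hi hj
    have := hA.line_coeff i0 hj hi
    rw [add_comm j i] at this
    exact this

/-- homogeneous component of an additive polynomial -/
theorem IsAdd.component {A : MvPolynomial σ k} (hA : IsAdd A) (w : ℕ) :
    homogeneousComponent w A = ∑ i, C ((aeval (Pi.single i (Polynomial.X : Polynomial k)) A).coeff
      w) * X i ^ w := by
  conv_lhs => rw [hA.eq_sum_line]
  rw [map_sum]
  apply Finset.sum_congr rfl
  intro i _
  set f := aeval (Pi.single i (Polynomial.X : Polynomial k)) A with hf
  rw [Polynomial.aeval_eq_sum_range, map_sum]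
  have h1 : ∀ m ∈ Finset.range (f.natDegree + 1),
      homogeneousComponent w (f.coeff m • (X i : MvPolynomial σ k) ^ m) =
        if m = w then C (f.coeff w) * X i ^ w else 0 := by
    intro m _
    have h2 : (f.coeff m • (X i : MvPolynomial σ k) ^ m).IsHomogeneous m := by
      rw [smul_eq_C_mul]
      have := (isHomogeneous_C σ (f.coeff m)).mul (isHomogeneous_X_pow (R := k) i m)
      rwa [zero_add] at this
    rw [homogeneousComponent_of_mem h2]
    by_cases h3 : m = w
    · subst h3
      rw [if_pos rfl, if_pos rfl, smul_eq_C_mul]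
    · rw [if_neg h3]
      by_cases h4 : w = m
      · exact absurd h4.symm h3
      · rw [if_neg h4]
  rw [Finset.sum_congr rfl h1, Finset.sum_ite_eq']
  split_ifs with h5
  · rfl
  · rw [Finset.mem_range, not_lt] at h5
    rw [Polynomial.coeff_eq_zero_of_natDegree_lt (by omega)]
    simp

/-- homogeneous version of the joint weight step: for `w` a multiple of `p ^ a` -/
theorem joint_homog {R : Type*} [CommRing R] [Nontrivial R] (φ : k →+* R) (p : ℕ)
    [Fact p.Prime] [CharP k p] (q : σ → k) (i0 : σ)
    (hq : q i0 ≠ 0) (a : ℕ) (P : MvPolynomial σ R) {w : ℕ} (hP : P.IsHomogeneous w)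
    (𝒮 : Polynomial (MvPolynomial σ R)) (Pc : MvPolynomial σ k)
    (h : sh R P = ev1 (map φ (YY q (p ^ a))) 𝒮 + cz R (map φ Pc)) :
    ∃ (c : R) (b : σ → k), ((∀ j, w ≠ p ^ j) → b = 0) ∧ (¬ p ^ a ∣ w → c = 0) ∧
      P = C c * map φ (YY q (p ^ a)) ^ (w / p ^ a) + ∑ i, C (φ (b i)) * X i ^ w := by
  obtain ⟨H, A, hA, hPA⟩ := joint φ p q i0 hq a P 𝒮 Pc h
  set n := p ^ a with hn
  have hn0 : 0 < n := pow_pos (Fact.out : p.Prime).pos a
  set Y : MvPolynomial σ R := map φ (YY q n) with hYdef
  have hYh : Y.IsHomogeneous n := by
    rw [hYdef]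
    apply IsHomogeneous.map
    unfold YY
    apply IsHomogeneous.sum
    intro i _
    have := (isHomogeneous_C σ (q i)).mul (isHomogeneous_X_pow (R := k) i n)
    rwa [zero_add] at this
  refine ⟨if n ∣ w then H.coeff (w / n) else 0,
    fun i => (aeval (Pi.single i (Polynomial.X : Polynomial k)) A).coeff w, ?_, ?_, ?_⟩
  · intro hw
    funext i
    exact hA.line_supp p i hw
  · intro hw
    rw [if_neg hw]
  · have h1 : P = homogeneousComponent w P := by
      rw [homogeneousComponent_of_mem hP, if_pos rfl]
    have h2 : homogeneousComponent w (map φ A) = map φ (homogeneousComponent w A) := by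
      ext d
      rw [coeff_homogeneousComponent, coeff_map, coeff_map, coeff_homogeneousComponent]
      split_ifs <;> simp
    rw [h1, hPA, map_add, h2, hA.component w, map_sum]
    congr 1
    · rw [Polynomial.aeval_eq_sum_range, map_sum]
      have h3 : ∀ l ∈ Finset.range (H.natDegree + 1),
          homogeneousComponent w (H.coeff l • Y ^ l) =
            if n * l = w then C (H.coeff l) * Y ^ l else 0 := by
        intro l _
        have h4 : (H.coeff l • Y ^ l).IsHomogeneous (n * l) := by
          rw [smul_eq_C_mul]
          have := (isHomogeneous_C σ (H.coeff l)).mul (hYh.pow l)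
          rwa [zero_add] at this
        rw [homogeneousComponent_of_mem h4]
        by_cases h5 : n * l = w
        · rw [if_pos h5.symm, if_pos h5, smul_eq_C_mul]
        · rw [if_neg h5, if_neg (fun h => h5 h.symm)]
      rw [Finset.sum_congr rfl h3]
      by_cases hd : n ∣ w
      · obtain ⟨l0, rfl⟩ := hd
        rw [if_pos (dvd_mul_right _ _), Nat.mul_div_cancel_left _ hn0]
        have h6 : ∀ l ∈ Finset.range (H.natDegree + 1),
            (if n * l = n * l0 then C (H.coeff l) * Y ^ l else 0) =
              if l = l0 then C (H.coeff l0) * Y ^ l0 else 0 := by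
          intro l _
          by_cases h7 : l = l0
          · subst h7; rw [if_pos rfl, if_pos rfl]
          · rw [if_neg h7, if_neg (fun h => h7 (Nat.eq_of_mul_eq_mul_left hn0 h))]
        rw [Finset.sum_congr rfl h6, Finset.sum_ite_eq']
        split_ifs with h8
        · rfl
        · rw [Finset.mem_range, not_lt] at h8
          rw [Polynomial.coeff_eq_zero_of_natDegree_lt (by omega)]
          simp
      · rw [if_neg hd, C_0, zero_mul]
        apply Finset.sum_eq_zero
        intro l _
        rw [if_neg]
        intro h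
        exact hd ⟨l, h.symm⟩
    · apply Finset.sum_congr rfl
      intro i _
      simp

end

end TWIV.JW
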