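import Pool.Agent.Lib.TWIV.Contr

/-!
# TANK W, leaf (IV), row A5: families of jet operators, definitions

* `dg α ζ (m, J) = m α + J ζ`;
* `Jets`: a family `D (m, J)` of jet operators on `K`, `D (m, J)` lowers the degree by
  `m α + J ζ`;
* `Exo`: the relation `F q - q = ∑ F e_c + f` for formal limits `q`, `e_c` of `K`, homogeneous of
  degree `0` and `c`.
-/

set_option autoImplicit false

open Polynomial

namespace Pool.Agent.TWIV

open Pool.Agent.H15JM (RVal)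
open Pool.Agent.TWC (Nul Cau)

universe u

variable {k H : Type u} [Field k] [Field H] [Algebra k H]
  {A : Type*} [AddCommGroup A]

/-- The degree of the operator of index `(m, J)`. -/
def dg (α ζ : A) (i : ℕ × ℕ) : A := i.1 • α + i.2 • ζ

/-- A family of jet operators on the field `K`. -/
structure Jets (p : ℕ) (v : RVal H) (pr : A → H →ₗ[k] H) (K : IntermediateField k H) (α ζ : A)
    (D : ℕ × ℕ → H → H) : Prop where
  id : ∀ x ∈ K, D (0, 0) x = x
  add : ∀ i, ∀ x ∈ K, ∀ y ∈ K, D i (x + y) = D i x + D i y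
  smul : ∀ i, ∀ a : k, ∀ x ∈ K, D i (algebraMap k H a * x) = algebraMap k H a * D i x
  norm : ∀ i, ∀ x ∈ K, ∀ b : ℝ, v.Ge b x → v.Ge b (D i x)
  frob : ∀ m J, ∀ x ∈ K, D (p * m, p * J) (x ^ p) = D (m, J) x ^ p
  frob0 : ∀ m J, ¬ (p ∣ m ∧ p ∣ J) → ∀ x ∈ K, D (m, J) (x ^ p) = 0
  deg : ∀ i c, ∀ x ∈ K, pr c x = x → pr (c - dg α ζ i) (D i x) = D i x

/-- The relation `F q - q = ∑ F e_c + f`, `q` of degree `0`, `e_c` of degree `c`. -/
structure Exo (p : ℕ) (v : RVal H) (pr : A → H →ₗ[k] H) (K : IntermediateField k H)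
    (T : Finset A) (q : ℕ → H) (e : A → ℕ → H) (f : H) : Prop where
  cq : Cau v K q
  q0 : ∀ n, pr 0 (q n) = q n
  ce : ∀ c ∈ T, Cau v K (e c)
  e0 : ∀ c ∈ T, ∀ n, pr c (e c n) = e c n
  ne : (0 : A) ∉ T
  mf : f ∈ K
  f0 : pr 0 f = f
  rel : Nul v fun n => q n ^ p - q n - f - ∑ c ∈ T, e c n ^ p

end Pool.Agent.TWIV
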