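import Mathlib

/-!
# TANK W: fixed vectors of a Frobenius semilinear map

`lang_span`: `k` algebraically closed, `F` an injective Frobenius semilinear endomorphism of a finite
dimensional space `W`: the fixed vectors span `W`; `lang_basis`: there is a basis of fixed vectors.
-/

set_option autoImplicit false
set_option linter.unusedSectionVars false

open Polynomial

namespace Pool.Agent.TWIV

section Pol

variable {k : Type*} [Field k] (p : ℕ) [hp : Fact p.Prime] [CharP k p]

/-- The polynomials of the recursion `c₀ = a₀ c ^ p`, `c_{i+1} = c_i ^ p + a_{i+1} c ^ p`. -/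
noncomputable def gpol (a : ℕ → k) : ℕ → k[X]
  | 0 => C (a 0) * X ^ p
  | i + 1 => gpol a i ^ p + C (a (i + 1)) * X ^ p

theorem gpol_deg {a : ℕ → k} (ha : a 0 ≠ 0) (i : ℕ) : (gpol p a i).natDegree = p ^ (i + 1) := by
  have hp1 : 1 < p := hp.out.one_lt
  induction i with
  | zero => rw [gpol, natDegree_C_mul_X_pow _ _ ha, zero_add, pow_one]
  | succ i ih =>
    have h1 : (gpol p a i ^ p).natDegree = p ^ (i + 1 + 1) := by
      rw [natDegree_pow, ih, pow_succ p (i + 1), mul_comm]
    rw [gpol, natDegree_add_eq_left_of_natDegree_lt, h1]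
    rw [h1]
    refine (natDegree_C_mul_X_pow_le _ _).trans_lt ?_
    calc p = p ^ 1 := (pow_one p).symm
      _ < p ^ (i + 1 + 1) := Nat.pow_lt_pow_right hp1 (by omega)

theorem gpol_der (a : ℕ → k) (i : ℕ) : derivative (gpol p a i) = 0 := by
  have hX : derivative (X ^ p : k[X]) = 0 := by
    rw [derivative_X_pow, CharP.cast_eq_zero, map_zero, zero_mul]
  cases i with
  | zero => rw [gpol, derivative_C_mul, hX, mul_zero]
  | succ i =>
    rw [gpol, derivative_add, derivative_C_mul, hX, mul_zero, add_zero, derivative_pow,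
      CharP.cast_eq_zero, map_zero, zero_mul, zero_mul]

theorem gpol_zero (a : ℕ → k) (i : ℕ) : (gpol p a i).eval 0 = 0 := by
  induction i with
  | zero => rw [gpol, eval_mul, eval_pow, eval_X, zero_pow hp.out.ne_zero, mul_zero]
  | succ i ih =>
    rw [gpol, eval_add, eval_pow, ih, eval_mul, eval_pow, eval_X, zero_pow hp.out.ne_zero,
      mul_zero, add_zero]

theorem exists_gfix [IsAlgClosed k] {a : ℕ → k} (ha : a 0 ≠ 0) (m : ℕ) :
    ∃ c : k, c ≠ 0 ∧ (gpol p a m).eval c = c := by
  have hp1 : 1 < p := hp.out.one_lt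
  have h1 : (X : k[X]) ∣ gpol p a m - X := by
    rw [X_dvd_iff, coeff_zero_eq_eval_zero, eval_sub, gpol_zero, eval_X, sub_zero]
  obtain ⟨h, hh⟩ := h1
  have hdeg : (gpol p a m - X).natDegree = p ^ (m + 1) := by
    rw [natDegree_sub_eq_left_of_natDegree_lt, gpol_deg p ha]
    rw [natDegree_X, gpol_deg p ha]
    calc 1 < p := hp1
      _ = p ^ 1 := (pow_one p).symm
      _ ≤ p ^ (m + 1) := Nat.pow_le_pow_right (by omega) (by omega)
  have hpm : 1 < p ^ (m + 1) := Nat.one_lt_pow (by omega) hp1
  have h0 : h ≠ 0 := by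
    rintro rfl
    rw [mul_zero] at hh
    rw [hh, natDegree_zero] at hdeg
    omega
  have h2 : h.natDegree ≠ 0 := by
    intro h3
    rw [hh, natDegree_mul X_ne_zero h0, natDegree_X, h3] at hdeg
    omega
  have h3 : h.eval 0 = -1 := by
    have h4 := congrArg (fun f : k[X] => (derivative f).eval 0) hh
    simp only [derivative_sub, gpol_der, derivative_X, derivative_mul, eval_neg, eval_add,
      eval_mul, eval_one, eval_X, zero_sub, one_mul, zero_mul, add_zero] at h4
    exact h4.symm
  obtain ⟨c, hc⟩ := IsAlgClosed.exists_root h (fun h4 => h2 (natDegree_eq_of_degree_eq_some h4))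
  refine ⟨c, ?_, ?_⟩
  · rintro rfl
    rw [IsRoot.def, h3] at hc
    exact one_ne_zero (neg_eq_zero.1 hc)
  · have h4 := congrArg (fun f : k[X] => f.eval c) hh
    simp only [eval_sub, eval_X, eval_mul] at h4
    rw [IsRoot.def] at hc
    rw [hc, mul_zero, sub_eq_zero] at h4
    exact h4

end Pol

section Lang

variable {k V : Type*} [Field k] [IsAlgClosed k] (p : ℕ) [hp : Fact p.Prime] [CharP k p]
  [AddCommGroup V] [Module k V] {F : V →+ V}

include hp in
/-- A fixed vector modulo `U`. -/
theorem lang_step (hF : ∀ (a : k) x, F (a • x) = a ^ p • F x) {U W : Submodule k V}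
    [FiniteDimensional k W] (hW : ∀ x ∈ W, F x ∈ W)
    (hU : ∀ x ∈ W, F x ∈ U → x ∈ U) {w : V} (hw : w ∈ W) (hwU : w ∉ U) :
    ∃ u ∈ W, u ∉ U ∧ F u - u ∈ U := by
  classical
  have hit : ∀ i : ℕ, F^[i] w ∈ W := by
    intro i
    induction i with
    | zero => exact hw
    | succ i ih => rw [Function.iterate_succ_apply']; exact hW _ ih
  -- a relation
  have hex : ∃ n : ℕ, ∃ c : ℕ → k, F^[n] w - ∑ i ∈ Finset.range n, c i • F^[i] w ∈ U := by
    set d := Module.finrank k W with hd
    have h1 : ¬ LinearIndependent k (fun i : Fin (d + 1) => (⟨F^[i] w, hit i⟩ : W)) := by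
      intro h2
      have h3 := h2.fintype_card_le_finrank
      rw [Fintype.card_fin] at h3
      omega
    rw [Fintype.not_linearIndependent_iff] at h1
    obtain ⟨g, hg, i₀, hi₀⟩ := h1
    set g' : ℕ → k := fun i => if h : i < d + 1 then g ⟨i, h⟩ else 0 with hg'
    have h2 : ∑ i ∈ Finset.range (d + 1), g' i • F^[i] w = 0 := by
      rw [Finset.sum_range]
      have h3 := congrArg (fun x : W => (x : V)) hg
      simp only [Submodule.coe_sum, Submodule.coe_smul, Submodule.coe_zero] at h3
      rw [← h3]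
      refine Finset.sum_congr rfl fun i _ => ?_
      rw [hg']
      simp only [i.2, dif_pos]
    -- the largest index
    have hne : ((Finset.range (d + 1)).filter fun i => g' i ≠ 0).Nonempty := by
      refine ⟨i₀, Finset.mem_filter.2 ⟨Finset.mem_range.2 i₀.2, ?_⟩⟩
      rw [hg']
      simp only [i₀.2, dif_pos]
      exact hi₀
    set n := ((Finset.range (d + 1)).filter fun i => g' i ≠ 0).max' hne with hn
    have hn1 := Finset.max'_mem _ hne
    rw [← hn, Finset.mem_filter, Finset.mem_range] at hn1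
    have hn2 : ∀ i, i < d + 1 → n < i → g' i = 0 := by
      intro i hi hni
      by_contra h3
      have h4 := Finset.le_max' ((Finset.range (d + 1)).filter fun i => g' i ≠ 0) i
        (Finset.mem_filter.2 ⟨Finset.mem_range.2 hi, h3⟩)
      omega
    have h3 : ∑ i ∈ Finset.range (n + 1), g' i • F^[i] w = 0 := by
      rw [← h2]
      refine Finset.sum_subset (Finset.range_mono (by omega)) fun i hi hi' => ?_
      rw [hn2 i (Finset.mem_range.1 hi) (by
        rw [Finset.mem_range] at hi'
        omega), zero_smul]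
    rw [Finset.sum_range_succ] at h3
    refine ⟨n, fun i => -((g' n)⁻¹ * g' i), ?_⟩
    have h4 : F^[n] w - ∑ i ∈ Finset.range n, (-((g' n)⁻¹ * g' i)) • F^[i] w = 0 := by
      have h5 : ∑ i ∈ Finset.range n, (-((g' n)⁻¹ * g' i)) • F^[i] w =
          -((g' n)⁻¹ • ∑ i ∈ Finset.range n, g' i • F^[i] w) := by
        rw [Finset.smul_sum, ← Finset.sum_neg_distrib]
        refine Finset.sum_congr rfl fun i _ => ?_
        rw [neg_smul, mul_smul]
      rw [h5, sub_neg_eq_add]
      have h6 := congrArg (fun x => (g' n)⁻¹ • x) h3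
      simp only [smul_add, smul_zero, smul_smul, inv_mul_cancel₀ hn1.2, one_smul] at h6
      rwa [add_comm] at h6
    rw [h4]
    exact zero_mem U
  set n := Nat.find hex with hn
  obtain ⟨a, ha⟩ := Nat.find_spec hex
  rw [← hn] at ha
  have hmin : ∀ m < n, ∀ c : ℕ → k, F^[m] w - ∑ i ∈ Finset.range m, c i • F^[i] w ∉ U := by
    intro m hm c hc
    exact Nat.find_min hex hm ⟨c, hc⟩
  have hn0 : n ≠ 0 := by
    intro h0
    rw [h0] at ha
    simp only [Function.iterate_zero, id_eq, Finset.range_zero, Finset.sum_empty, sub_zero] at ha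
    exact hwU ha
  obtain ⟨m, hm⟩ := Nat.exists_eq_succ_of_ne_zero hn0
  rw [hm] at ha hmin
  -- the constant coefficient
  have ha0 : a 0 ≠ 0 := by
    intro h0
    have hr : ∀ i, ∃ b : k, b ^ p = a (i + 1) := fun i =>
      IsAlgClosed.exists_pow_nat_eq _ hp.out.pos
    choose b hb using hr
    refine hmin m (Nat.lt_succ_self m) b (hU _ (sub_mem (hit m) (sum_mem fun i _ =>
      W.smul_mem _ (hit i))) ?_)
    have h1 : F (F^[m] w - ∑ i ∈ Finset.range m, b i • F^[i] w) =
        F^[m.succ] w - ∑ i ∈ Finset.range m.succ, a i • F^[i] w := by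
      rw [map_sub, map_sum, ← Function.iterate_succ_apply' F, Finset.sum_range_succ', h0,
        zero_smul, add_zero]
      refine congrArg _ (Finset.sum_congr rfl fun i _ => ?_)
      rw [hF, hb, ← Function.iterate_succ_apply' F]
    rw [h1]
    exact ha
  obtain ⟨c, hc0, hc⟩ := exists_gfix p ha0 m
  set e : ℕ → k := fun i => (gpol p a i).eval c with he
  have he0 : e 0 = a 0 * c ^ p := by
    rw [he]
    simp only [gpol, eval_mul, eval_C, eval_pow, eval_X]
  have hes : ∀ i, e (i + 1) = e i ^ p + a (i + 1) * c ^ p := by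
    intro i
    rw [he]
    simp only [gpol, eval_add, eval_mul, eval_C, eval_pow, eval_X]
  have hem : e m = c := hc
  refine ⟨∑ i ∈ Finset.range (m + 1), e i • F^[i] w, sum_mem fun i _ => W.smul_mem _ (hit i),
    fun h1 => ?_, ?_⟩
  · refine hmin m (Nat.lt_succ_self m) (fun i => -(c⁻¹ * e i)) ?_
    have h2 := U.smul_mem c⁻¹ h1
    have h3 : F^[m] w - ∑ i ∈ Finset.range m, (-(c⁻¹ * e i)) • F^[i] w =
        c⁻¹ • ∑ i ∈ Finset.range (m + 1), e i • F^[i] w := by
      rw [Finset.sum_range_succ, smul_add, hem, smul_smul c⁻¹ c, inv_mul_cancel₀ hc0, one_smul,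
        Finset.smul_sum, sub_eq_add_neg, ← Finset.sum_neg_distrib, add_comm]
      refine congrArg (· + _) (Finset.sum_congr rfl fun i _ => ?_)
      rw [neg_smul, neg_neg, mul_smul]
    rw [h3]
    exact h2
  · have h2 : F (∑ i ∈ Finset.range (m + 1), e i • F^[i] w) -
        ∑ i ∈ Finset.range (m + 1), e i • F^[i] w =
        c ^ p • (F^[m.succ] w - ∑ i ∈ Finset.range m.succ, a i • F^[i] w) := by
      rw [map_sum, Finset.sum_range_succ, Finset.sum_range_succ' (fun i => e i • F^[i] w),
        Finset.sum_range_succ' (fun i => a i • F^[i] w) m, hF, hem, he0, smul_sub, smul_add,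
        Finset.smul_sum]
      have h3 : ∑ i ∈ Finset.range m, e (i + 1) • F^[i + 1] w =
          ∑ i ∈ Finset.range m, F (e i • F^[i] w) +
            ∑ i ∈ Finset.range m, c ^ p • a (i + 1) • F^[i + 1] w := by
        rw [← Finset.sum_add_distrib]
        refine Finset.sum_congr rfl fun i _ => ?_
        rw [hes, hF, add_smul, Function.iterate_succ_apply', smul_smul, mul_comm (c ^ p)]
      rw [h3, smul_smul, mul_comm (c ^ p) (a 0), Function.iterate_succ_apply' F m]
      abel
    rw [h2]
    exact U.smul_mem _ ha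

include hp in
/-- **Lang.** The fixed vectors span. -/
theorem lang_span (hF : ∀ (a : k) x, F (a • x) = a ^ p • F x) {W : Submodule k V}
    [FiniteDimensional k W] (hW : ∀ x ∈ W, F x ∈ W) (hinj : ∀ x ∈ W, F x = 0 → x = 0) :
    Submodule.span k {x | x ∈ W ∧ F x = x} = W := by
  set U := Submodule.span k {x | x ∈ W ∧ F x = x} with hU
  have hUW : U ≤ W := Submodule.span_le.2 fun x hx => hx.1
  have h1 : ∀ y ∈ U, ∃ x ∈ U, F x = y := by
    intro y hy
    rw [hU] at hy
    induction hy using Submodule.span_induction with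
    | mem x hx => exact ⟨x, Submodule.subset_span hx, hx.2⟩
    | zero => exact ⟨0, zero_mem _, map_zero F⟩
    | add x y _ _ hx hy =>
      obtain ⟨a, ha, rfl⟩ := hx
      obtain ⟨b, hb, rfl⟩ := hy
      exact ⟨a + b, add_mem ha hb, map_add F a b⟩
    | smul t x _ hx =>
      obtain ⟨a, ha, rfl⟩ := hx
      obtain ⟨s, hs⟩ := IsAlgClosed.exists_pow_nat_eq t hp.out.pos
      exact ⟨s • a, U.smul_mem s ha, by rw [hF, hs]⟩
  have h2 : ∀ y ∈ U, ∃ x ∈ U, F x - x = y := by
    intro y hy
    rw [hU] at hy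
    have h3 : ∀ t : k, ∃ s : k, s ^ p - s = t := by
      intro t
      obtain ⟨s, hs⟩ := IsAlgClosed.exists_root (X ^ p - X - C t : k[X]) (by
        have h4 : (X ^ p - X - C t : k[X]) = X ^ p - (X + C t) := by ring
        rw [h4, degree_sub_eq_left_of_degree_lt, degree_X_pow]
        · exact_mod_cast hp.out.ne_zero
        · rw [degree_X_pow, degree_X_add_C]
          exact_mod_cast hp.out.one_lt)
      refine ⟨s, ?_⟩
      rw [IsRoot.def, eval_sub, eval_sub, eval_pow, eval_X, eval_C, sub_eq_zero] at hs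
      exact hs
    have h4 : ∀ t : k, ∃ x ∈ U, F x - x = t • y := by
      induction hy using Submodule.span_induction with
      | mem x hx =>
        intro t
        obtain ⟨s, hs⟩ := h3 t
        refine ⟨s • x, U.smul_mem s (Submodule.subset_span hx), ?_⟩
        rw [hF, hx.2, ← sub_smul, hs]
      | zero => exact fun t => ⟨0, zero_mem _, by rw [map_zero, sub_zero, smul_zero]⟩
      | add x y _ _ hx hy =>
        intro t
        obtain ⟨a, ha, h4⟩ := hx t
        obtain ⟨b, hb, h5⟩ := hy t
        refine ⟨a + b, add_mem ha hb, ?_⟩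
        rw [map_add, smul_add, ← h4, ← h5]
        abel
      | smul s x _ hx =>
        intro t
        obtain ⟨a, ha, h4⟩ := hx (t * s)
        exact ⟨a, ha, by rw [h4, mul_smul]⟩
    obtain ⟨x, hx, h5⟩ := h4 1
    exact ⟨x, hx, by rw [h5, one_smul]⟩
  by_contra hne
  obtain ⟨w, hw, hwU⟩ : ∃ w ∈ W, w ∉ U := by
    by_contra h3
    push Not at h3
    exact hne (le_antisymm hUW h3)
  obtain ⟨u, hu, huU, h3⟩ := lang_step p hF hW (fun x hx hx' => by
    obtain ⟨y, hy, h4⟩ := h1 _ hx'
    have h5 := hinj (x - y) (sub_mem hx (hUW hy)) (by rw [map_sub, h4, sub_self])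
    rw [sub_eq_zero.1 h5]
    exact hy) hw hwU
  obtain ⟨b, hb, h4⟩ := h2 _ (neg_mem h3)
  refine huU ?_
  have h5 : F (u + b) = u + b := by
    rw [map_add]
    have h6 : F u + F b - (u + b) = (F u - u) + (F b - b) := by abel
    rw [← sub_eq_zero, h6, h4, add_neg_cancel]
  have h6 : u + b ∈ U := Submodule.subset_span ⟨add_mem hu (hUW hb), h5⟩
  have h7 := sub_mem h6 hb
  rwa [add_sub_cancel_right] at h7

include hp in
/-- A basis of fixed vectors. -/
theorem lang_basis (hF : ∀ (a : k) x, F (a • x) = a ^ p • F x) {W : Submodule k V}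
    [FiniteDimensional k W] (hW : ∀ x ∈ W, F x ∈ W) (hinj : ∀ x ∈ W, F x = 0 → x = 0) :
    ∃ (r : ℕ) (u : Fin r → V), (∀ i, u i ∈ W ∧ F (u i) = u i) ∧ LinearIndependent k u ∧
      Submodule.span k (Set.range u) = W := by
  classical
  have h1 := lang_span p hF hW hinj
  obtain ⟨b, hb, hsp, hli⟩ := exists_linearIndependent k {x | x ∈ W ∧ F x = x}
  have hbW : ∀ x : b, (x : V) ∈ W := fun x => (hb x.2).1
  have hli' : LinearIndependent k (fun x : b => (⟨(x : V), hbW x⟩ : W)) := by
    refine LinearIndependent.of_comp W.subtype ?_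
    exact hli
  have : Finite b := hli'.finite
  obtain ⟨r, ⟨f⟩⟩ := Finite.exists_equiv_fin b
  refine ⟨r, fun i => (f.symm i : V), fun i => hb (f.symm i).2, ?_, ?_⟩
  · exact hli.comp f.symm f.symm.injective
  · rw [← h1, ← hsp]
    congr 1
    ext x
    constructor
    · rintro ⟨i, rfl⟩
      exact (f.symm i).2
    · intro hx
      exact ⟨f ⟨x, hx⟩, by simp⟩

end Lang

end Pool.Agent.TWIV
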