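import Pool.Agent.Lib.TWIV.Contr

/-!
# TANK W, leaf (IV), row A6, the mixed part (sec. 5 of b525bf_W_TAME_h43.md), abstract form

* `Cs p pr α n δ φ`: the iterated Cartier operator on power series in `a`, `deg a = α`;
* `Psi`: the contraction; `contr_Psi`;
* `mix_hull`: **the mixed part**: `G` is a hull sum;
* `HullSum`, `top_coeff`, `mix_zero`: if `z` is not a hull sum then `e_j = 0` for `j ≥ 1` and `e_0` is
  a constant.
-/

set_option autoImplicit false
set_option linter.unusedSectionVars false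

open Polynomial Finset

namespace Pool.Agent.TWIV

open Pool.Agent.H15JM (RVal)
open Pool.Agent.TWC (Nul coeff_ps_pow_pow coeff_ps_pow_zero)
open Pool.Agent.TWM (Gt PI hasse_mem_PI)

universe u

variable {k H : Type u} [Field k] [Field H] [Algebra k H] {v : RVal H} (p : ℕ) [hp : Fact p.Prime]
  [CharP H p] [PerfectRing H p] {A : Type*} [AddCommGroup A] {pr : A → H →ₗ[k] H}

/-! ### Power series -/

section PS

theorem coeff_pow_pow (f : PowerSeries H) (n i : ℕ) :
    PowerSeries.coeff i (f ^ p ^ n) =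
      if p ^ n ∣ i then (PowerSeries.coeff (i / p ^ n) f) ^ p ^ n else 0 := by
  split_ifs with h
  · obtain ⟨j, rfl⟩ := h
    rw [coeff_ps_pow_pow p, Nat.mul_div_cancel_left _ (pow_pos hp.out.pos n)]
  · exact coeff_ps_pow_zero p f n i h

/-- The coefficient of `a ^ (p ^ n l)` in `φ ψ ^ (p ^ n)`. -/
theorem coeff_mul_pow_pow (φ ψ : PowerSeries H) (n l : ℕ) :
    PowerSeries.coeff (p ^ n * l) (φ * ψ ^ p ^ n) = ∑ a ∈ antidiagonal l,
      PowerSeries.coeff (p ^ n * a.1) φ * (PowerSeries.coeff a.2 ψ) ^ p ^ n := by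
  have hpos : 0 < p ^ n := pow_pos hp.out.pos n
  rw [PowerSeries.coeff_mul]
  symm
  refine Finset.sum_of_injOn (fun a : ℕ × ℕ => (p ^ n * a.1, p ^ n * a.2)) ?_ ?_ ?_ ?_
  · intro a _ b _ hab
    simp only [Prod.mk.injEq] at hab
    exact Prod.ext (Nat.eq_of_mul_eq_mul_left hpos hab.1) (Nat.eq_of_mul_eq_mul_left hpos hab.2)
  · intro a ha
    have h1 := mem_antidiagonal.1 (mem_coe.1 ha)
    refine mem_coe.2 (mem_antidiagonal.2 ?_)
    show p ^ n * a.1 + p ^ n * a.2 = p ^ n * l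
    rw [← mul_add, h1]
  · intro b hb hb'
    have h1 := mem_antidiagonal.1 hb
    rw [coeff_pow_pow]
    split_ifs with h2
    · exfalso
      apply hb'
      obtain ⟨c, hc⟩ := h2
      have h3 : p ^ n ∣ b.1 := by
        have h4 : p ^ n ∣ b.1 + b.2 := by rw [h1]; exact ⟨l, rfl⟩
        exact (Nat.dvd_add_left ⟨c, hc⟩).1 h4
      obtain ⟨d, hd⟩ := h3
      refine ⟨(d, c), ?_, ?_⟩
      · refine mem_coe.2 (mem_antidiagonal.2 ?_)
        show d + c = l
        refine Nat.eq_of_mul_eq_mul_left hpos ?_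
        rw [mul_add, ← hd, ← hc, h1]
      · exact Prod.ext hd.symm hc.symm
    · rw [mul_zero]
  · intro a _
    show _ = PowerSeries.coeff (p ^ n * a.1) φ * PowerSeries.coeff (p ^ n * a.2) (ψ ^ p ^ n)
    rw [coeff_ps_pow_pow p]

theorem charP_ps : CharP (PowerSeries H) p :=
  charP_of_injective_ringHom (f := (PowerSeries.C : H →+* PowerSeries H)) PowerSeries.C_injective p

end PS

/-! ### The Cartier operator -/

/-- The iterated Cartier operator `C ^ n`, to the degree `-δ`. -/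
noncomputable def Cs (pr : A → H →ₗ[k] H) (α : A) (n : ℕ) (δ : A) (φ : PowerSeries H) :
    PowerSeries H :=
  PowerSeries.mk fun m => pr (-δ - m • α) (Rt p n (PowerSeries.coeff (p ^ n * m) φ))

variable {p} in
/-- `C ^ n (φ F ^ n ψ) = C ^ n (φ) ψ`. -/
theorem pr_Rt_mul (hpr : GrP p v pr) {α δ : A} {ψ : PowerSeries H}
    (hψ : ∀ m, pr (δ - m • α) (PowerSeries.coeff m ψ) = PowerSeries.coeff m ψ)
    (φ : PowerSeries H) (n l : ℕ) :
    pr (-(l • α)) (Rt p n (PowerSeries.coeff (p ^ n * l) (φ * ψ ^ p ^ n))) =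
      PowerSeries.coeff l (Cs p pr α n δ φ * ψ) := by
  rw [coeff_mul_pow_pow, Rt_sum, map_sum, PowerSeries.coeff_mul]
  refine sum_congr rfl fun a ha => ?_
  have h1 := mem_antidiagonal.1 ha
  rw [Rt_mul, Rt_of_pow, hpr.mul_right (hψ a.2), Cs, PowerSeries.coeff_mk]
  congr 3
  rw [← h1, add_smul]
  abel

variable {p} in
/-- powers of homogeneous series -/
theorem pr_coeff_pow (hpr : GrP p v pr) {α δ : A} {ψ : PowerSeries H}
    (hψ : ∀ m, pr (δ - m • α) (PowerSeries.coeff m ψ) = PowerSeries.coeff m ψ) (n m : ℕ) :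
    pr (p ^ n • δ - m • α) (PowerSeries.coeff m (ψ ^ p ^ n)) = PowerSeries.coeff m (ψ ^ p ^ n) := by
  rw [coeff_pow_pow]
  split_ifs with h
  · obtain ⟨j, rfl⟩ := h
    rw [Nat.mul_div_cancel_left _ (pow_pos hp.out.pos n)]
    have h1 := hpr.pow_mem (hψ j) (p ^ n)
    rwa [smul_sub, ← mul_smul] at h1
  · rw [map_zero]

/-! ### Bounds for products -/

section Bounds

variable {p} {φ ψ : PowerSeries H} {b c : ℝ}

theorem ge_coeff_mul (hφ : ∀ m, v.Ge b (PowerSeries.coeff m φ))
    (hψ : ∀ m, v.Ge c (PowerSeries.coeff m ψ)) (m : ℕ) :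
    v.Ge (b + c) (PowerSeries.coeff m (φ * ψ)) := by
  rw [PowerSeries.coeff_mul]
  exact RVal.Ge.sum _ _ fun a _ => (hφ _).mul (hψ _)

theorem red_coeff_mul {Red : ℝ → H → Prop} (hH : HullP p v pr Red) {w : ℝ} (hw : 0 ≤ w)
    (hφ : ∀ m, ∃ r : k, PowerSeries.coeff m φ = algebraMap k H r)
    (hψ : ∀ m, Red w (PowerSeries.coeff m ψ)) (m : ℕ) : Red w (PowerSeries.coeff m (φ * ψ)) := by
  rw [PowerSeries.coeff_mul]
  refine hH.sum hw _ _ fun a _ => ?_
  obtain ⟨r, hr⟩ := hφ a.1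
  rw [hr]
  exact hH.smul _ _ _ (hψ _)

omit [CharP H p] [PerfectRing H p] in
theorem coeff_mul_zero {d e : ℕ} (hφ : ∀ m, d < m → PowerSeries.coeff m φ = 0)
    (hψ : ∀ m, e < m → PowerSeries.coeff m ψ = 0) {m : ℕ} (hm : d + e < m) :
    PowerSeries.coeff m (φ * ψ) = 0 := by
  rw [PowerSeries.coeff_mul]
  refine sum_eq_zero fun a ha => ?_
  have h1 := mem_antidiagonal.1 ha
  rcases lt_or_ge d a.1 with h2 | h2
  · rw [hφ _ h2, zero_mul]
  · rw [hψ _ (by omega), mul_zero]

theorem ge_coeff_pow {x : PowerSeries H} {g : ℝ}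
    (hx : ∀ i, v.Ge (-g) (PowerSeries.coeff i x)) (n i : ℕ) :
    v.Ge (-(p ^ n * g)) (PowerSeries.coeff i (x ^ p ^ n)) := by
  rw [coeff_pow_pow]
  split_ifs
  · have h1 := ge_pow' p (n := n) (hx (i / p ^ n))
    rwa [mul_neg] at h1
  · exact RVal.Ge.zero

theorem red_coeff_pow {Red : ℝ → H → Prop} (hH : HullP p v pr Red) {x : PowerSeries H} {w : ℝ}
    (hw : 0 ≤ w) (hx : ∀ i, Red w (PowerSeries.coeff i x)) (n i : ℕ) :
    Red (p ^ n * w) (PowerSeries.coeff i (x ^ p ^ n)) := by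
  rw [coeff_pow_pow]
  split_ifs
  · exact hH.frobN (hx _) n
  · exact hH.zero _ (by positivity)

theorem coeff_pow_zero' {x : PowerSeries H} {B : ℕ} (hx : ∀ i, B < i → PowerSeries.coeff i x = 0)
    (n : ℕ) {i : ℕ} (hi : p ^ n * B < i) : PowerSeries.coeff i (x ^ p ^ n) = 0 := by
  rw [coeff_pow_pow]
  split_ifs with h
  · obtain ⟨j, rfl⟩ := h
    rw [Nat.mul_div_cancel_left _ (pow_pos hp.out.pos n), hx j (Nat.lt_of_mul_lt_mul_left hi),
      zero_pow (pow_pos hp.out.pos n).ne']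
  · rfl

end Bounds

/-! ### The contraction -/

section Psi

variable (pr) (α : A) (u : ℕ) (R : ℕ → PowerSeries H) (κ : k)

/-- The lower terms of the relation, the coefficient of `a ^ l`. -/
noncomputable def Phm (M : ℕ) (x : ℕ → H) (l : ℕ) : H :=
  ∑ c ∈ Ico 1 u, PowerSeries.coeff l (R c * (PowerSeries.mk x) ^ p ^ c) +
    ∑ t ∈ range M, pr (-(l • α)) (Rt p t (PowerSeries.coeff (p ^ t * l) (R 0 * PowerSeries.mk x)))

/-- The contraction. -/
noncomputable def Psi (M : ℕ) (x : ℕ → H) (j : ℕ) : H :=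
  -(Rt p u (algebraMap k H κ⁻¹ * Phm p pr α u R M x (p ^ u * j + 1)))

variable {pr α u R κ}

theorem Phm_sub (M : ℕ) (x y : ℕ → H) (l : ℕ) :
    Phm p pr α u R M (fun i => x i - y i) l = Phm p pr α u R M x l - Phm p pr α u R M y l := by
  have e : (PowerSeries.mk fun i => x i - y i) = PowerSeries.mk x - PowerSeries.mk y := by
    ext i
    simp
  have _ := charP_ps (H := H) p
  simp only [Phm, e, sub_pow_char_pow, mul_sub, map_sub, Rt_sub, sum_sub_distrib]
  ring

variable {p} in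
theorem contr_Psi (hpr : GrP p v pr) {Red : ℝ → H → Prop} (hH : HullP p v pr Red)
    (hk : ∀ c : k, v.Ge 0 (algebraMap k H c)) {d B : ℕ}
    (hR : ∀ c m, ∃ r : k, PowerSeries.coeff m (R c) = algebraMap k H r)
    (hRd : ∀ c m, d < m → PowerSeries.coeff m (R c) = 0) (hu : 1 ≤ u) (hB : d ≤ B) :
    Contr p v Red (Psi p pr α u R κ) B := by
  have hp1 : 1 < p := hp.out.one_lt
  have hp0 : (0 : ℝ) < p := by exact_mod_cast hp.out.pos
  have hR0 : ∀ c m, v.Ge 0 (PowerSeries.coeff m (R c)) := fun c m => by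
    obtain ⟨r, hr⟩ := hR c m
    rw [hr]
    exact hk r
  have hpu : (p : ℝ) ^ (u - 1) / (p : ℝ) ^ u = 1 / p := by
    obtain ⟨w, rfl⟩ := Nat.exists_eq_add_of_le hu
    rw [Nat.add_sub_cancel_left, add_comm 1 w, pow_succ]
    field_simp
  -- a bound for a single level
  have hle : ∀ c, c < u → (p : ℝ) ^ c ≤ (p : ℝ) ^ (u - 1) := fun c hc =>
    pow_le_pow_right₀ (by exact_mod_cast hp1.le) (by omega)
  constructor
  · intro M x y j
    rw [Psi, Phm_sub, mul_sub, Rt_sub, Psi, Psi]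
    ring
  · intro M x g hg hx j
    have h1 : v.Ge (-((p : ℝ) ^ (u - 1) * g)) (Phm p pr α u R M x (p ^ u * j + 1)) := by
      have hx' : ∀ i, v.Ge (-g) (PowerSeries.coeff i (PowerSeries.mk x)) := fun i => by
        rw [PowerSeries.coeff_mk]
        exact hx i
      refine (RVal.Ge.sum _ _ fun c hc => ?_).add (RVal.Ge.sum _ _ fun t _ => ?_)
      · have h2 := ge_coeff_mul (hR0 c) (ge_coeff_pow (p := p) hx' c) (p ^ u * j + 1)
        rw [zero_add] at h2
        refine h2.mono (neg_le_neg ?_)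
        exact mul_le_mul_of_nonneg_right (hle c (mem_Ico.1 hc).2) hg
      · have h2 := ge_coeff_mul (hR0 0) hx' (p ^ t * (p ^ u * j + 1))
        rw [zero_add] at h2
        refine (hpr.ge _ _ _ (ge_Rt p (n := t) h2)).mono ?_
        rw [neg_div, neg_le_neg_iff]
        have h3 : (1 : ℝ) ≤ (p : ℝ) ^ t := one_le_pow₀ (by exact_mod_cast hp1.le)
        have h4 : g / (p : ℝ) ^ t ≤ g := div_le_self hg h3
        have h5 : g ≤ (p : ℝ) ^ (u - 1) * g := le_mul_of_one_le_left hg
          (one_le_pow₀ (by exact_mod_cast hp1.le))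
        linarith
    rw [Psi]
    have h2 := (hk κ⁻¹).mul h1
    rw [zero_add] at h2
    have h3 := (ge_Rt p (n := u) h2).neg
    refine h3.mono (le_of_eq ?_)
    rw [neg_div, mul_div_right_comm, hpu]
    ring
  · refine ⟨d + B + 1, fun x hx M hM j => ?_⟩
    rw [Psi, Psi]
    congr 3
    rw [Phm, Phm]
    congr 1
    symm
    refine sum_subset (range_subset_range.2 hM) fun t _ ht => ?_
    rw [mem_range, not_lt] at ht
    rw [coeff_mul_zero (hRd 0) (e := B) (fun i hi => by rw [PowerSeries.coeff_mk]; exact hx i hi),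
      Rt_zero, map_zero]
    have h1 : t < p ^ t := Nat.lt_pow_self hp1
    have h2 : p ^ t ≤ p ^ t * (p ^ u * j + 1) := Nat.le_mul_of_pos_right _ (by omega)
    omega
  · intro x hx M j hj
    have hx' : ∀ i, B < i → PowerSeries.coeff i (PowerSeries.mk x) = 0 := fun i hi => by
      rw [PowerSeries.coeff_mk]
      exact hx i hi
    obtain ⟨w, rfl⟩ := Nat.exists_eq_add_of_le hu
    have hl : d + p ^ w * B < p ^ (1 + w) * j + 1 := by
      have h1 : p ^ (1 + w) * j = p * (p ^ w * j) := by rw [pow_add, pow_one, mul_assoc]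
      have h2 : p ^ w * B + p ^ w ≤ p ^ w * j := by
        rw [← Nat.mul_succ]
        exact Nat.mul_le_mul_left _ hj
      have h3 : B ≤ p ^ w * B := Nat.le_mul_of_pos_left _ (pow_pos hp.out.pos w)
      have h4 : 2 * (p ^ w * j) ≤ p * (p ^ w * j) := Nat.mul_le_mul_right _ hp1
      rw [h1]
      omega
    have h1 : Phm p pr α (1 + w) R M x (p ^ (1 + w) * j + 1) = 0 := by
      rw [Phm, sum_eq_zero, sum_eq_zero, add_zero]
      · intro t _
        rw [coeff_mul_zero (hRd 0) hx', Rt_zero, map_zero]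
        have h2 : B ≤ p ^ w * B := Nat.le_mul_of_pos_left _ (pow_pos hp.out.pos w)
        have h3 : p ^ (1 + w) * j + 1 ≤ p ^ t * (p ^ (1 + w) * j + 1) :=
          Nat.le_mul_of_pos_left _ (pow_pos hp.out.pos t)
        omega
      · intro c hc
        refine coeff_mul_zero (hRd c) (fun i hi => coeff_pow_zero' hx' c hi) ?_
        have h2 : p ^ c * B ≤ p ^ w * B :=
          Nat.mul_le_mul_right _ (Nat.pow_le_pow_right hp.out.pos (by
            have := (mem_Ico.1 hc).2
            omega))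
        omega
    rw [Psi, h1, mul_zero, Rt_zero, neg_zero]
  · intro w M x hw hx j
    have hx' : ∀ i, Red w (PowerSeries.coeff i (PowerSeries.mk x)) := fun i => by
      rw [PowerSeries.coeff_mk]
      exact hx i
    have h1 : Red ((p : ℝ) ^ (u - 1) * w) (Phm p pr α u R M x (p ^ u * j + 1)) := by
      refine hH.add _ _ _ (hH.sum (by positivity) _ _ fun c hc => ?_)
        (hH.sum (by positivity) _ _ fun t _ => ?_)
      · have h2 := red_coeff_mul hH (by positivity) (hR c) (red_coeff_pow hH hw hx' c)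
          (p ^ u * j + 1)
        exact hH.mono _ _ _ (mul_le_mul_of_nonneg_right (hle c (mem_Ico.1 hc).2) hw) h2
      · have h2 := hH.pr _ (-((p ^ u * j + 1) • α)) _
          (hH.rootN (red_coeff_mul hH hw (hR 0) hx' (p ^ t * (p ^ u * j + 1))) t)
        refine hH.mono _ _ _ ?_ h2
        have h3 : (1 : ℝ) ≤ (p : ℝ) ^ t := one_le_pow₀ (by exact_mod_cast hp1.le)
        have h4 : w / (p : ℝ) ^ t ≤ w := div_le_self hw h3
        have h5 : w ≤ (p : ℝ) ^ (u - 1) * w := le_mul_of_one_le_left hw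
          (one_le_pow₀ (by exact_mod_cast hp1.le))
        linarith
    rw [Psi]
    have h2 := hH.neg (hH.rootN (hH.smul _ κ⁻¹ _ h1) u)
    have e : (p : ℝ) ^ (u - 1) * w / (p : ℝ) ^ u = w / p := by
      rw [mul_div_right_comm, hpu]
      ring
    rwa [e] at h2

end Psi

/-! ### Elementary lemmas -/

section Elem

omit [CharP H p] [PerfectRing H p] in
theorem exists_bound (f : ℕ → H) (B : ℕ) : ∃ g : ℝ, 0 < g ∧ ∀ j ≤ B, v.Ge (-g) (f j) := by
  induction B with
  | zero =>
    refine ⟨|v (f 0)| + 1, by positivity, fun j hj _ => ?_⟩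
    rw [Nat.le_zero.1 hj]
    have := neg_abs_le (v (f 0))
    linarith
  | succ B ih =>
    obtain ⟨g, hg, h⟩ := ih
    refine ⟨max g (|v (f (B + 1))| + 1), lt_max_of_lt_left hg, fun j hj => ?_⟩
    rcases Nat.lt_or_ge B j with h1 | h1
    · intro _
      have h2 : j = B + 1 := by omega
      rw [h2]
      have h3 := neg_abs_le (v (f (B + 1)))
      have h4 := le_max_right g (|v (f (B + 1))| + 1)
      linarith
    · exact (h j h1).mono (neg_le_neg (le_max_left _ _))

theorem exists_div_pow_le (K : ℝ) {ε : ℝ} (hε : 0 < ε) : ∃ N, ∀ n, N ≤ n → K / (p : ℝ) ^ n ≤ ε := by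
  have hp1 : (1 : ℝ) < p := by exact_mod_cast hp.out.one_lt
  obtain ⟨N, hN⟩ := pow_unbounded_of_one_lt (|K| / ε) hp1
  refine ⟨N, fun n hn => ?_⟩
  have h1 : (p : ℝ) ^ N ≤ (p : ℝ) ^ n := pow_le_pow_right₀ hp1.le hn
  have h2 : (0 : ℝ) < (p : ℝ) ^ n := by positivity
  rw [div_le_iff₀ h2]
  have h3 := (div_lt_iff₀ hε).1 (hN.trans_le h1)
  have h4 := le_abs_self K
  linarith

/-- the tails -/
theorem tail_nul {b : ℕ → H} {K : ℝ} (hb : ∀ t, v.Ge (-(K / p ^ t)) (b t)) (j : ℕ) :
    Nul v fun N => ∑ t ∈ range N, b t - ∑ t ∈ range (N - j), b t := by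
  intro ε hε
  obtain ⟨N, hN⟩ := exists_div_pow_le p K hε
  refine ⟨N + j, fun n hn => ?_⟩
  show v.Ge (-ε) (∑ t ∈ range n, b t - ∑ t ∈ range (n - j), b t)
  rw [← sum_Ico_eq_sub b (Nat.sub_le n j)]
  refine RVal.Ge.sum _ _ fun t ht => (hb t).mono (neg_le_neg (hN t ?_))
  have := (mem_Ico.1 ht).1
  omega

omit [CharP H p] [PerfectRing H p] in
/-- a change of the order of summation -/
theorem sum_swap (F : ℕ → ℕ → H) (u : ℕ) (hF : ∀ n c, u < n + c → F n c = 0) :
    ∑ j ∈ range (u + 1), ∑ n ∈ range j, F n (j - n) =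
      ∑ c ∈ Ico 1 (u + 1), ∑ n ∈ range (u + 1), F n c := by
  rw [sum_sigma', sum_sigma']
  symm
  rw [← sum_filter_of_ne (p := fun x : (_ : ℕ) × ℕ => x.1 + x.2 ≤ u)]
  · refine sum_nbij' (fun x => ⟨x.1 + x.2, x.2⟩) (fun y => ⟨y.1 - y.2, y.2⟩) ?_ ?_ ?_ ?_ ?_
    · rintro ⟨c, n⟩ hx
      simp only [mem_filter, mem_sigma, mem_Ico, mem_range] at hx ⊢
      omega
    · rintro ⟨j, n⟩ hx
      simp only [mem_filter, mem_sigma, mem_Ico, mem_range] at hx ⊢
      omega
    · rintro ⟨c, n⟩ hx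
      simp only [add_tsub_cancel_right]
    · rintro ⟨j, n⟩ hx
      simp only [mem_sigma, mem_range] at hx
      simp only [Sigma.mk.injEq, heq_eq_eq, and_true]
      omega
    · rintro ⟨c, n⟩ hx
      simp only [add_tsub_cancel_right]
  · rintro ⟨c, n⟩ _ h0
    by_contra h1
    exact h0 (hF n c (by simp only at h1; omega))

end Elem

/-! ### The relation -/

section Rel

variable {p}

/-- the coefficients of (RR) at `(l, p ^ c)` as a power series -/
noncomputable def Om (p : ℕ) [Fact p.Prime] [CharP H p] [PerfectRing H p] (pr : A → H →ₗ[k] H)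
    (α ζ : A) (u : ℕ) (E : ℕ → PowerSeries H) (c : ℕ) : PowerSeries H :=
  ∑ n ∈ range (u + 1), Cs p pr α n (p ^ c • ζ) (E (n + c))

/-- the same, only the coefficients of index prime to `p`, for `c ≥ 1` -/
noncomputable def RS (p : ℕ) [Fact p.Prime] [CharP H p] [PerfectRing H p] (pr : A → H →ₗ[k] H)
    (α ζ : A) (u : ℕ) (E : ℕ → PowerSeries H) (c : ℕ) : PowerSeries H :=
  PowerSeries.mk fun m => if c = 0 ∨ ¬ p ∣ m then PowerSeries.coeff m (Om p pr α ζ u E c) else 0

variable {α ζ : A} {u : ℕ} {E : ℕ → PowerSeries H} {G Em : PowerSeries H}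

theorem coeff_Om (c m : ℕ) : PowerSeries.coeff m (Om p pr α ζ u E c) =
    ∑ n ∈ range (u + 1), pr (-(p ^ c • ζ) - m • α)
      (Rt p n (PowerSeries.coeff (p ^ n * m) (E (n + c)))) := by
  rw [Om, map_sum]
  exact sum_congr rfl fun n _ => by rw [Cs, PowerSeries.coeff_mk]

theorem Cs_zero (n : ℕ) (δ : A) : Cs p pr α n δ (0 : PowerSeries H) = 0 := by
  ext m
  rw [Cs, PowerSeries.coeff_mk, map_zero, Rt_zero, map_zero, map_zero]

theorem RS_zero : RS p pr α ζ u E 0 = Om p pr α ζ u E 0 := by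
  ext m
  rw [RS, PowerSeries.coeff_mk, if_pos (Or.inl rfl)]

/-- For `p ∤ l` only the coefficients prime to `p` matter. -/
theorem coeff_RS_mul {c l : ℕ} (hc : 1 ≤ c) (hl : ¬ p ∣ l) :
    PowerSeries.coeff l (RS p pr α ζ u E c * G ^ p ^ c) =
      PowerSeries.coeff l (Om p pr α ζ u E c * G ^ p ^ c) := by
  rw [PowerSeries.coeff_mul, PowerSeries.coeff_mul]
  refine sum_congr rfl fun a ha => ?_
  have h1 := mem_antidiagonal.1 ha
  rw [RS, PowerSeries.coeff_mk]
  split_ifs with h2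
  · rfl
  · have h3 : PowerSeries.coeff a.2 (G ^ p ^ c) = 0 := by
      rw [coeff_pow_pow, if_neg]
      intro h4
      apply hl
      have h5 : p ∣ a.2 := (dvd_pow_self p (by omega)).trans h4
      have h6 : p ∣ a.1 := by
        by_contra h7
        exact h2 (Or.inr h7)
      rw [← h1]
      exact dvd_add h6 h5
    rw [h3, mul_zero, mul_zero]

/-- the terms `n < j` -/
theorem term_lt (hpr : GrP p v pr)
    (hG : ∀ m, pr (ζ - m • α) (PowerSeries.coeff m G) = PowerSeries.coeff m G) {n j : ℕ}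
    (hnj : n ≤ j) (φ : PowerSeries H) (l : ℕ) :
    pr (-(l • α)) (Rt p n (PowerSeries.coeff (p ^ n * l) (φ * G ^ p ^ j))) =
      PowerSeries.coeff l (Cs p pr α n (p ^ (j - n) • ζ) φ * G ^ p ^ (j - n)) := by
  have e : G ^ p ^ j = (G ^ p ^ (j - n)) ^ p ^ n := by
    rw [← pow_mul, ← pow_add, Nat.sub_add_cancel hnj]
  rw [e]
  exact pr_Rt_mul hpr (fun m => pr_coeff_pow hpr hG (j - n) m) φ n l

/-- the terms `n = j + t` -/
theorem term_ge (hpr : GrP p v pr)
    (hG : ∀ m, pr (ζ - m • α) (PowerSeries.coeff m G) = PowerSeries.coeff m G) (t j : ℕ)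
    (φ : PowerSeries H) (l : ℕ) :
    pr (-(l • α)) (Rt p (j + t) (PowerSeries.coeff (p ^ (j + t) * l) (φ * G ^ p ^ j))) =
      pr (-(l • α)) (Rt p t (PowerSeries.coeff (p ^ t * l) (Cs p pr α j ζ φ * G))) := by
  have e : p ^ t • (-(l • α)) = -((p ^ t * l) • α) := by rw [smul_neg, mul_smul]
  have e2 : p ^ (j + t) * l = p ^ j * (p ^ t * l) := by rw [pow_add, mul_assoc]
  rw [add_comm j t, ← Rt_Rt, ← hpr.frobN t, e, add_comm t j, e2, pr_Rt_mul hpr hG]

/-- all the terms of `E_j G ^ (p ^ j)` -/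
theorem terms (hpr : GrP p v pr)
    (hG : ∀ m, pr (ζ - m • α) (PowerSeries.coeff m G) = PowerSeries.coeff m G) (j N : ℕ)
    (hN : j ≤ N) (φ : PowerSeries H) (l : ℕ) :
    ∑ n ∈ range N, pr (-(l • α)) (Rt p n (PowerSeries.coeff (p ^ n * l) (φ * G ^ p ^ j))) =
      ∑ n ∈ range j, PowerSeries.coeff l (Cs p pr α n (p ^ (j - n) • ζ) φ * G ^ p ^ (j - n)) +
      ∑ t ∈ range (N - j), pr (-(l • α))
        (Rt p t (PowerSeries.coeff (p ^ t * l) (Cs p pr α j ζ φ * G))) := by
  obtain ⟨M, rfl⟩ := Nat.exists_eq_add_of_le hN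
  rw [sum_range_add, Nat.add_sub_cancel_left]
  congr 1
  · exact sum_congr rfl fun n hn => term_lt hpr hG (mem_range.1 hn).le φ l
  · exact sum_congr rfl fun t _ => term_ge hpr hG t j φ l

omit [CharP H p] [PerfectRing H p] in
theorem nul_congr_ev {x y : ℕ → H} (hx : Nul v x) (N₀ : ℕ) (h : ∀ n, N₀ ≤ n → x n = y n) :
    Nul v y := by
  intro ε hε
  obtain ⟨N, h1⟩ := hx ε hε
  exact ⟨max N₀ N, fun n hn => by
    rw [← h n ((le_max_left _ _).trans hn)]
    exact h1 n ((le_max_right _ _).trans hn)⟩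

omit [CharP H p] [PerfectRing H p] in
theorem nulM_sum {ι : Type*} (s : Finset ι) {x : ι → ℕ → H} (hx : ∀ i ∈ s, Nul v (x i)) :
    Nul v fun n => ∑ i ∈ s, x i n := by
  classical
  induction s using Finset.induction_on with
  | empty => exact (Nul.zero (v := v)).congr fun n => by rw [sum_empty]
  | insert a s ha ih =>
    refine ((hx a (mem_insert_self a s)).add (ih fun i hi => hx i (mem_insert_of_mem hi))).congr
      fun n => ?_
    rw [sum_insert ha]

theorem relation (hpr : GrP p v pr) {d : ℕ} {g : ℝ}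
    (hE0 : ∀ j, u < j → E j = 0)
    (hEd : ∀ j m, d < m → PowerSeries.coeff m (E j) = 0)
    (hMd : ∀ m, d < m → PowerSeries.coeff m Em = 0)
    (hGp : ∀ m, pr (ζ - m • α) (PowerSeries.coeff m G) = PowerSeries.coeff m G)
    (hGg : ∀ m, v.Ge (-g) (PowerSeries.coeff m G))
    (hRR0 : ∀ l, ¬ p ∣ l → Nul v fun N => ∑ n ∈ range N, pr (-(l • α))
      (Rt p n (PowerSeries.coeff (p ^ n * l) (∑ j ∈ range (u + 1), E j * G ^ p ^ j + Em))))
    {l : ℕ} (hl : ¬ p ∣ l) :
    Nul v fun N => ∑ c ∈ Ico 1 (u + 1), PowerSeries.coeff l (RS p pr α ζ u E c * G ^ p ^ c) +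
      ∑ t ∈ range N, pr (-(l • α))
        (Rt p t (PowerSeries.coeff (p ^ t * l) (RS p pr α ζ u E 0 * G))) +
      ∑ n ∈ range (d + 1), pr (-(l • α)) (Rt p n (PowerSeries.coeff (p ^ n * l) Em)) := by
  have hp1 : 1 < p := hp.out.one_lt
  have hl0 : 1 ≤ l := Nat.one_le_iff_ne_zero.2 fun h => hl (by rw [h]; exact dvd_zero p)
  -- the terms with `C ^ t`
  set b : ℕ → ℕ → H := fun j t => pr (-(l • α))
    (Rt p t (PowerSeries.coeff (p ^ t * l) (Cs p pr α j ζ (E j) * G))) with hb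
  have hbt : ∀ j, ∃ K : ℝ, ∀ t, v.Ge (-(K / p ^ t)) (b j t) := by
    intro j
    obtain ⟨K, hK, hK2⟩ := exists_bound (v := v)
      (fun m => PowerSeries.coeff m (Cs p pr α j ζ (E j))) d
    have h1 : ∀ m, v.Ge (-K) (PowerSeries.coeff m (Cs p pr α j ζ (E j))) := by
      intro m
      rcases Nat.lt_or_ge d m with h2 | h2
      · have h3 : PowerSeries.coeff (p ^ j * m) (E j) = 0 :=
          hEd _ _ (h2.trans_le (Nat.le_mul_of_pos_left _ (pow_pos hp.out.pos j)))
        rw [Cs, PowerSeries.coeff_mk, h3, Rt_zero, map_zero]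
        exact RVal.Ge.zero
      · exact hK2 m h2
    refine ⟨K + g, fun t => ?_⟩
    have h2 := ge_coeff_mul h1 hGg (p ^ t * l)
    have h3 := hpr.ge _ (-(l • α)) _ (ge_Rt p (n := t) h2)
    refine h3.mono (le_of_eq ?_)
    ring
  have htail : Nul v fun N => ∑ j ∈ range (u + 1),
      (∑ t ∈ range N, b j t - ∑ t ∈ range (N - j), b j t) :=
    nulM_sum _ fun j _ => by
      obtain ⟨K, hK⟩ := hbt j
      exact tail_nul p hK j
  refine nul_congr_ev ((hRR0 l hl).add htail) (u + d + 1) fun N hN => ?_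
  -- the sum is split
  have h1 : ∑ n ∈ range N, pr (-(l • α)) (Rt p n (PowerSeries.coeff (p ^ n * l)
      (∑ j ∈ range (u + 1), E j * G ^ p ^ j + Em))) =
      ∑ j ∈ range (u + 1), ∑ n ∈ range N, pr (-(l • α)) (Rt p n (PowerSeries.coeff (p ^ n * l)
        (E j * G ^ p ^ j))) +
      ∑ n ∈ range N, pr (-(l • α)) (Rt p n (PowerSeries.coeff (p ^ n * l) Em)) := by
    rw [sum_comm, ← sum_add_distrib]
    refine sum_congr rfl fun n _ => ?_
    rw [map_add, map_sum, Rt_add, Rt_sum, map_add, map_sum]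
  have h2 : ∑ n ∈ range N, pr (-(l • α)) (Rt p n (PowerSeries.coeff (p ^ n * l) Em)) =
      ∑ n ∈ range (d + 1), pr (-(l • α)) (Rt p n (PowerSeries.coeff (p ^ n * l) Em)) := by
    symm
    refine sum_subset (range_subset_range.2 (by omega)) fun n _ hn => ?_
    rw [mem_range, not_lt] at hn
    have h3 : n < p ^ n := Nat.lt_pow_self hp1
    have h4 : p ^ n ≤ p ^ n * l := Nat.le_mul_of_pos_right _ hl0
    rw [hMd _ (by omega), Rt_zero, map_zero]
  have h3 : ∑ j ∈ range (u + 1), ∑ n ∈ range N, pr (-(l • α))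
      (Rt p n (PowerSeries.coeff (p ^ n * l) (E j * G ^ p ^ j))) =
      ∑ j ∈ range (u + 1), ∑ n ∈ range j,
        PowerSeries.coeff l (Cs p pr α n (p ^ (j - n) • ζ) (E j) * G ^ p ^ (j - n)) +
      ∑ j ∈ range (u + 1), ∑ t ∈ range (N - j), b j t := by
    rw [← sum_add_distrib]
    refine sum_congr rfl fun j hj => ?_
    exact terms hpr hGp j N (by have := mem_range.1 hj; omega) (E j) l
  have h4 : ∑ j ∈ range (u + 1), ∑ n ∈ range j,
      PowerSeries.coeff l (Cs p pr α n (p ^ (j - n) • ζ) (E j) * G ^ p ^ (j - n)) =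
      ∑ c ∈ Ico 1 (u + 1), PowerSeries.coeff l (RS p pr α ζ u E c * G ^ p ^ c) := by
    have h5 := sum_swap (fun n c => PowerSeries.coeff l
      (Cs p pr α n (p ^ c • ζ) (E (n + c)) * G ^ p ^ c)) u (fun n c hnc => by
        show PowerSeries.coeff l (Cs p pr α n (p ^ c • ζ) (E (n + c)) * G ^ p ^ c) = 0
        rw [hE0 _ hnc, Cs_zero, zero_mul, map_zero])
    have h6 : ∑ j ∈ range (u + 1), ∑ n ∈ range j,
        PowerSeries.coeff l (Cs p pr α n (p ^ (j - n) • ζ) (E j) * G ^ p ^ (j - n)) =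
        ∑ j ∈ range (u + 1), ∑ n ∈ range j,
        PowerSeries.coeff l (Cs p pr α n (p ^ (j - n) • ζ) (E (n + (j - n))) *
          G ^ p ^ (j - n)) := by
      refine sum_congr rfl fun j _ => sum_congr rfl fun n hn => ?_
      have := mem_range.1 hn
      rw [show n + (j - n) = j by omega]
    rw [h6]
    refine h5.trans (sum_congr rfl fun c hc => ?_)
    rw [coeff_RS_mul (mem_Ico.1 hc).1 hl, Om, sum_mul, map_sum]
  have h5 : ∑ j ∈ range (u + 1), ∑ t ∈ range N, b j t = ∑ t ∈ range N, pr (-(l • α))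
      (Rt p t (PowerSeries.coeff (p ^ t * l) (RS p pr α ζ u E 0 * G))) := by
    rw [sum_comm]
    refine sum_congr rfl fun t _ => ?_
    rw [RS_zero, Om, sum_mul, map_sum, Rt_sum, map_sum]
    refine sum_congr rfl fun j _ => ?_
    rw [hb, pow_zero, one_smul, add_zero]
  rw [h1, h2, h3, h4, sum_sub_distrib, h5]
  ring

/-- a change modulo `O` -/
theorem rr_congr (hpr : GrP p v pr) {φ ψ : ℕ → H} (h : ∀ n, v.Ge 0 (φ n - ψ n)) (c : A)
    (hφ : Nul v fun N => ∑ n ∈ range N, pr c (Rt p n (φ n))) :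
    Nul v fun N => ∑ n ∈ range N, pr c (Rt p n (ψ n)) := by
  have h1 : Nul v fun N => ∑ n ∈ range N, pr c (Rt p n (φ n)) -
      ∑ n ∈ range N, pr c (Rt p n (ψ n)) := by
    refine Nul.of_ge fun N => ?_
    rw [← sum_sub_distrib]
    refine RVal.Ge.sum _ _ fun n _ => ?_
    rw [← map_sub, ← Rt_sub]
    have h2 := ge_Rt p (n := n) (h n)
    rw [zero_div] at h2
    exact hpr.ge _ _ _ h2
  exact (hφ.sub h1).congr fun N => by rw [sub_sub_cancel]

theorem Om_eq {u' : ℕ} (hu' : u' ≤ u) (hE0 : ∀ j, u' < j → E j = 0) (c : ℕ) :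
    Om p pr α ζ u E c = Om p pr α ζ u' E c := by
  rw [Om, Om]
  symm
  refine sum_subset (range_subset_range.2 (by omega)) fun n _ hn => ?_
  rw [mem_range, not_lt] at hn
  rw [hE0 _ (by omega), Cs_zero]

theorem RS_eq {u' : ℕ} (hu' : u' ≤ u) (hE0 : ∀ j, u' < j → E j = 0) (c : ℕ) :
    RS p pr α ζ u E c = RS p pr α ζ u' E c := by
  rw [RS, RS, Om_eq hu' hE0]

/-- **THE MIXED PART.** The coefficients of `G`, hence `z = G(0)`, are hull sums. -/
theorem mix_hull (hpr : GrP p v pr) {Red : ℝ → H → Prop} (hH : HullP p v pr Red)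
    (hk : ∀ c : k, v.Ge 0 (algebraMap k H c)) (hu : 1 ≤ u) {d : ℕ} {W g δ : ℝ} (hW : 0 ≤ W)
    -- the `E j = e_j(y + a)`, `j ≤ u`, and `Em = e_-(y + a)`: polynomials
    (hE0 : ∀ j, u < j → E j = 0)
    (hEd : ∀ j m, d < m → PowerSeries.coeff m (E j) = 0)
    (hMd : ∀ m, d < m → PowerSeries.coeff m Em = 0)
    (hMr : ∀ m, Red W (PowerSeries.coeff m Em))
    -- `G = G(a)`
    (hGp : ∀ m, pr (ζ - m • α) (PowerSeries.coeff m G) = PowerSeries.coeff m G)
    (hg : 0 ≤ g) (hGg : ∀ m, v.Ge (-g) (PowerSeries.coeff m G)) (hgδ : p ^ u * g ≤ δ)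
    -- the constants
    {r : ℕ → ℕ → k} (hr : ∀ c m, v.Ge δ (PowerSeries.coeff m (RS p pr α ζ u E c) -
      algebraMap k H (r c m))) (hrd : ∀ c m, d < m → r c m = 0)
    {κ : k} (hκ : κ ≠ 0) (hru : ∀ m, r u m = if m = 1 then κ else 0)
    -- (RR) at `(l, 0)`, `p ∤ l`
    (hRR0 : ∀ l, ¬ p ∣ l → Nul v fun N => ∑ n ∈ range N, pr (-(l • α))
      (Rt p n (PowerSeries.coeff (p ^ n * l) (∑ j ∈ range (u + 1), E j * G ^ p ^ j + Em)))) :
    ∃ (P : ℕ → ℕ → H) (g' : ℝ), 0 < g' ∧ ∀ n j, Red (W / p ^ n) (P n j) ∧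
      v.Ge (-(g' / p ^ n)) (P n j) ∧
      v.Ge (-(g' / p ^ n)) (PowerSeries.coeff j G - ∑ i ∈ range n, P i j) := by
  have hp1 : 1 < p := hp.out.one_lt
  have hp1' : (1 : ℝ) ≤ p := by exact_mod_cast hp1.le
  have hp0 : (0 : ℝ) < p := by exact_mod_cast hp.out.pos
  set R : ℕ → PowerSeries H := fun c => PowerSeries.mk fun m => algebraMap k H (r c m) with hRdef
  have hRc : ∀ c m, PowerSeries.coeff m (R c) = algebraMap k H (r c m) := fun c m => by
    rw [hRdef, PowerSeries.coeff_mk]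
  -- the coefficients of `R c` are constants
  have hR : ∀ c m, ∃ r : k, PowerSeries.coeff m (R c) = algebraMap k H r := fun c m =>
    ⟨r c m, hRc c m⟩
  have hRd : ∀ c m, d < m → PowerSeries.coeff m (R c) = 0 := fun c m hm => by
    rw [hRc, hrd c m hm, map_zero]
  -- `R u = κ a`
  have hRu : R u = PowerSeries.X * PowerSeries.C (algebraMap k H κ) := by
    ext m
    rw [hRc, hru, PowerSeries.coeff_mul_C, PowerSeries.coeff_X, ite_mul, one_mul, zero_mul]
    split_ifs
    · rfl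
    · exact map_zero _
  -- the relation with the constants
  have hrel' : ∀ l, ¬ p ∣ l → Nul v fun N =>
      ∑ c ∈ Ico 1 (u + 1), PowerSeries.coeff l (R c * G ^ p ^ c) +
      ∑ t ∈ range N, pr (-(l • α)) (Rt p t (PowerSeries.coeff (p ^ t * l) (R 0 * G))) +
      ∑ n ∈ range (d + 1), pr (-(l • α)) (Rt p n (PowerSeries.coeff (p ^ n * l) Em)) := by
    intro l hl
    have h1 := relation hpr hE0 hEd hMd hGp hGg hRR0 hl
    have hsm : ∀ c m, c ≤ u →
        v.Ge 0 (PowerSeries.coeff m ((RS p pr α ζ u E c - R c) * G ^ p ^ c)) := by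
      intro c m hc
      have h2 := ge_coeff_mul (φ := RS p pr α ζ u E c - R c) (b := δ)
        (fun m => by rw [map_sub, hRc]; exact hr c m) (ge_coeff_pow (p := p) hGg c) m
      refine h2.mono ?_
      have h3 : (p : ℝ) ^ c * g ≤ (p : ℝ) ^ u * g :=
        mul_le_mul_of_nonneg_right (pow_le_pow_right₀ hp1' hc) hg
      linarith
    have h2 : Nul v fun N => (∑ c ∈ Ico 1 (u + 1),
        PowerSeries.coeff l ((RS p pr α ζ u E c - R c) * G ^ p ^ c) +
        ∑ t ∈ range N, pr (-(l • α)) (Rt p t (PowerSeries.coeff (p ^ t * l)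
          ((RS p pr α ζ u E 0 - R 0) * G)))) := by
      refine Nul.of_ge fun N => (RVal.Ge.sum _ _ fun c hc => ?_).add
        (RVal.Ge.sum _ _ fun t _ => ?_)
      · exact hsm c l (by have := (mem_Ico.1 hc).2; omega)
      · have h3 := hsm 0 (p ^ t * l) (Nat.zero_le u)
        rw [pow_zero, pow_one] at h3
        have h4 := ge_Rt p (n := t) h3
        rw [zero_div] at h4
        exact hpr.ge _ _ _ h4
    refine (h1.sub h2).congr fun N => ?_
    simp only [sub_mul, map_sub, Rt_sub, sum_sub_distrib]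
    ring
  -- the inhomogeneous part
  set T : ℕ → H := fun l => ∑ n ∈ range (d + 1), pr (-(l • α))
    (Rt p n (PowerSeries.coeff (p ^ n * l) Em)) with hT
  set t : ℕ → H := fun j => -(Rt p u (algebraMap k H κ⁻¹ * T (p ^ u * j + 1))) with ht
  have htB : ∀ j, d < j → t j = 0 := by
    intro j hj
    have h1 : T (p ^ u * j + 1) = 0 := by
      refine sum_eq_zero fun n _ => ?_
      have h2 : j ≤ p ^ u * j := Nat.le_mul_of_pos_left _ (pow_pos hp.out.pos u)
      have h3 : p ^ u * j + 1 ≤ p ^ n * (p ^ u * j + 1) :=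
        Nat.le_mul_of_pos_left _ (pow_pos hp.out.pos n)
      rw [hMd _ (by omega), Rt_zero, map_zero]
    rw [ht]
    show -(Rt p u (algebraMap k H κ⁻¹ * T (p ^ u * j + 1))) = 0
    rw [h1, mul_zero, Rt_zero, neg_zero]
  have htR : ∀ j, Red W (t j) := by
    intro j
    refine hH.neg (hH.mono _ _ _ (div_le_self hW (one_le_pow₀ hp1' :
      (1 : ℝ) ≤ (p : ℝ) ^ u)) (hH.rootN (hH.smul _ _ _ (hH.sum hW _ _ fun n _ =>
        hH.pr _ _ _ ?_)) u))
    exact hH.mono _ _ _ (div_le_self hW (one_le_pow₀ hp1')) (hH.rootN (hMr _) n)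
  obtain ⟨g₁, hg₁, htg⟩ := exists_bound (v := v) t d
  have htg' : ∀ j, v.Ge (-g₁) (t j) := by
    intro j
    rcases Nat.lt_or_ge d j with h | h
    · rw [htB j h]
      exact RVal.Ge.zero
    · exact htg j h
  -- the contraction
  have hC : Contr p v Red (Psi p pr α u R κ) d := contr_Psi hpr hH hk hR hRd hu le_rfl
  have hrel : ∀ j, ∀ ε : ℝ, 0 < ε → ∃ M₀, ∀ M, M₀ ≤ M →
      v.Ge (-ε) (PowerSeries.coeff j G - t j -
        Psi p pr α u R κ M (fun i => PowerSeries.coeff i G) j) := by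
    intro j ε hε
    have hl : ¬ p ∣ p ^ u * j + 1 := by
      intro h1
      have h2 : p ∣ p ^ u * j := (dvd_pow_self p (by omega)).trans (dvd_mul_right _ _)
      have h3 := (Nat.dvd_add_right h2).1 h1
      rw [Nat.dvd_one] at h3
      omega
    obtain ⟨M₀, hM₀⟩ := hrel' _ hl (p ^ u * ε) (by positivity)
    refine ⟨M₀, fun M hM => ?_⟩
    have h2 := hM₀ M hM
    have h3 : (PowerSeries.mk fun i => PowerSeries.coeff i G) = G := by
      ext i
      rw [PowerSeries.coeff_mk]
    have h4 : ∑ c ∈ Ico 1 (u + 1), PowerSeries.coeff (p ^ u * j + 1) (R c * G ^ p ^ c) +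
        ∑ t ∈ range M, pr (-((p ^ u * j + 1) • α))
          (Rt p t (PowerSeries.coeff (p ^ t * (p ^ u * j + 1)) (R 0 * G))) +
        ∑ n ∈ range (d + 1), pr (-((p ^ u * j + 1) • α))
          (Rt p n (PowerSeries.coeff (p ^ n * (p ^ u * j + 1)) Em)) =
        algebraMap k H κ * (PowerSeries.coeff j G) ^ p ^ u +
          Phm p pr α u R M (fun i => PowerSeries.coeff i G) (p ^ u * j + 1) +
          T (p ^ u * j + 1) := by
      rw [sum_Ico_succ_top hu, Phm, h3]
      have h5 : PowerSeries.coeff (p ^ u * j + 1) (R u * G ^ p ^ u) =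
          algebraMap k H κ * (PowerSeries.coeff j G) ^ p ^ u := by
        rw [hRu, mul_assoc, PowerSeries.coeff_succ_X_mul, PowerSeries.coeff_C_mul,
          coeff_ps_pow_pow p]
      rw [h5]
      ring
    have h2' : v.Ge (-(p ^ u * ε)) (algebraMap k H κ * (PowerSeries.coeff j G) ^ p ^ u +
          Phm p pr α u R M (fun i => PowerSeries.coeff i G) (p ^ u * j + 1) +
          T (p ^ u * j + 1)) := by
      rw [← h4]
      exact h2
    have h6 := (hk κ⁻¹).mul h2'
    rw [zero_add] at h6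
    have h7 := ge_Rt p (n := u) h6
    have h8 : -((p : ℝ) ^ u * ε) / (p : ℝ) ^ u = -ε := by
      field_simp
    rw [h8] at h7
    have hκ' : algebraMap k H κ⁻¹ * (algebraMap k H κ * (PowerSeries.coeff j G) ^ p ^ u) =
        (PowerSeries.coeff j G) ^ p ^ u := by
      rw [← mul_assoc, ← map_mul, inv_mul_cancel₀ hκ, map_one, one_mul]
    have h9 : Rt p u (algebraMap k H κ⁻¹ * (algebraMap k H κ * (PowerSeries.coeff j G) ^ p ^ u +
          Phm p pr α u R M (fun i => PowerSeries.coeff i G) (p ^ u * j + 1) +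
          T (p ^ u * j + 1))) = PowerSeries.coeff j G - t j -
        Psi p pr α u R κ M (fun i => PowerSeries.coeff i G) j := by
      rw [mul_add, mul_add, hκ', Rt_add, Rt_add, Rt_of_pow, ht, Psi]
      ring
    rw [h9] at h7
    exact h7
  set g' := max g₁ g with hg'
  obtain ⟨P, hP⟩ := hC.hull (x := fun i => PowerSeries.coeff i G) (t := t) (g := g') (W := W)
    (lt_max_of_lt_left hg₁) (fun j => (hGg j).mono (neg_le_neg (le_max_right _ _))) hW htR
    (fun j => (htg' j).mono (neg_le_neg (le_max_left _ _))) htB hrel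
  exact ⟨P, g', lt_max_of_lt_left hg₁, hP⟩

end Rel

/-! ### The conclusion -/

/-- A hull sum: a series of reduced hull polynomials, the weights and the gaps tend to `0`. -/
def HullSum (v : RVal H) (Red : ℝ → H → Prop) (x : H) : Prop :=
  ∃ (P : ℕ → H) (W g : ℝ), 0 ≤ W ∧ 0 < g ∧ ∀ n, Red (W / p ^ n) (P n) ∧
    v.Ge (-(g / p ^ n)) (P n) ∧ v.Ge (-(g / p ^ n)) (x - ∑ i ∈ range n, P i)

section Zero

variable {p} {B : IntermediateField k H} {y : H}

/-- `e(y + a)` as a power series in `a` -/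
noncomputable def Ty (y : H) (e : Polynomial H) : PowerSeries H :=
  ((taylor y e : Polynomial H) : PowerSeries H)

omit [CharP H p] [PerfectRing H p] in
theorem coeff_Ty (e : Polynomial H) (m : ℕ) :
    PowerSeries.coeff m (Ty y e) = (hasseDeriv m e).eval y := by
  rw [Ty, Polynomial.coeff_coe, taylor_coeff]

omit [CharP H p] [PerfectRing H p] in
theorem Ty_zero : Ty y (0 : Polynomial H) = 0 := by
  ext m
  rw [coeff_Ty, map_zero, eval_zero, map_zero]

omit [CharP H p] [PerfectRing H p] in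
theorem coeff_Ty_zero {e : Polynomial H} {m : ℕ} (hm : e.natDegree < m) :
    PowerSeries.coeff m (Ty y e) = 0 := by
  rw [Ty, Polynomial.coeff_coe]
  refine coeff_eq_zero_of_natDegree_lt ?_
  rwa [natDegree_taylor]

omit [CharP H p] [PerfectRing H p] in
theorem coeff_Ty_X (κ : H) {m : ℕ} (hm : m ≠ 0) :
    PowerSeries.coeff m (Ty y (C κ * X)) = if m = 1 then κ else 0 := by
  rw [Ty, Polynomial.coeff_coe, taylor_mul, taylor_C, taylor_X, coeff_C_mul, coeff_add, coeff_X,
    coeff_C, if_neg hm, add_zero]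
  rcases eq_or_ne m 1 with h | h
  · rw [if_pos h.symm, if_pos h, mul_one]
  · rw [if_neg (Ne.symm h), if_neg h, mul_zero]

omit [CharP H p] [PerfectRing H p] in
theorem hasse_natDegree (f : Polynomial H) : hasseDeriv f.natDegree f = C (f.coeff f.natDegree) := by
  ext m
  rw [hasseDeriv_coeff, coeff_C]
  rcases Nat.eq_zero_or_pos m with rfl | hm
  · rw [if_pos rfl, zero_add, Nat.choose_self, Nat.cast_one, one_mul]
  · rw [if_neg hm.ne', coeff_eq_zero_of_natDegree_lt (by omega), mul_zero]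

omit [CharP H p] [PerfectRing H p] in
/-- a polynomial with `e(y) ∈ O`, exact coefficients, is constant -/
theorem eq_C_of_ge (hD : ∀ f ∈ PI B, v.Ge 0 (f.eval y) → ∀ J, 1 ≤ J →
      Gt v 0 ((hasseDeriv J f).eval y)) {e : Polynomial H} (he : e ∈ PI B)
    (hex : ∀ m, Gt v 0 (e.coeff m) → e.coeff m = 0) (h : v.Ge 0 (e.eval y)) :
    e = C (e.coeff 0) := by
  rcases Nat.eq_zero_or_pos e.natDegree with h1 | h1
  · exact eq_C_of_natDegree_eq_zero h1
  · exfalso
    have h2 := hD e he h e.natDegree h1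
    rw [hasse_natDegree, eval_C] at h2
    have h3 := hex _ h2
    have h4 : e ≠ 0 := fun h5 => by rw [h5, natDegree_zero] at h1; exact lt_irrefl _ h1
    exact h4 (leadingCoeff_eq_zero.1 h3)

omit [PerfectRing H p] in
/-- `e` with exponents prime to `p`, `e'(y)` near to the constant `κ`: `e = κ X`. -/
theorem top_coeff (hk : ∀ c : k, v.Ge 0 (algebraMap k H c))
    (hD : ∀ f ∈ PI B, v.Ge 0 (f.eval y) → ∀ J, 1 ≤ J →
      Gt v 0 ((hasseDeriv J f).eval y)) {e : Polynomial H} (he : e ∈ PI B)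
    (hex : ∀ m (c : k), Gt v 0 (e.coeff m - algebraMap k H c) → e.coeff m = algebraMap k H c)
    (hep : ∀ m, p ∣ m → e.coeff m = 0) {κ : k}
    (h : Gt v 0 ((derivative e).eval y - algebraMap k H κ)) :
    e = C (algebraMap k H κ) * X := by
  have hk' : CharP k p := (algebraMap k H).charP (algebraMap k H).injective p
  -- division by `m`, `p ∤ m`
  have hdiv : ∀ (m : ℕ) (x : H), ¬ p ∣ m → ∀ c : k, Gt v 0 ((m : H) * x - algebraMap k H c) →
      Gt v 0 (x - algebraMap k H ((m : k)⁻¹ * c)) := by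
    intro m x hm c h1
    have hm0 : (m : k) ≠ 0 := fun h2 => hm ((CharP.cast_eq_zero_iff k p m).1 h2)
    have h2 := h1.mul_ge (hk (m : k)⁻¹)
    rw [zero_add] at h2
    have e1 : ((m : H) * x - algebraMap k H c) * algebraMap k H (m : k)⁻¹ =
        x - algebraMap k H ((m : k)⁻¹ * c) := by
      have e2 : (m : H) = algebraMap k H (m : k) := (map_natCast (algebraMap k H) m).symm
      have e3 : algebraMap k H (m : k) * algebraMap k H (m : k)⁻¹ = 1 := by
        rw [← map_mul, mul_inv_cancel₀ hm0, map_one]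
      rw [e2, map_mul]
      linear_combination x * e3
    rwa [e1] at h2
  have hd : derivative e ∈ PI B := by
    have := hasse_mem_PI he 1
    rwa [hasseDeriv_one] at this
  have hge : v.Ge 0 ((derivative e).eval y) := by
    have h1 := (RVal.Ge.add (v := v) (fun h0 => (h h0).le) (hk κ))
    rwa [sub_add_cancel] at h1
  have hdc : ∀ m, (derivative e).coeff m = ((m + 1 : ℕ) : H) * e.coeff (m + 1) := fun m => by
    rw [coeff_derivative, mul_comm]
    push_cast
    ring
  -- the derivative is constant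
  have h1 : derivative e = C ((derivative e).coeff 0) := by
    refine eq_C_of_ge hD hd (fun m hm => ?_) hge
    rw [hdc] at hm ⊢
    by_cases h2 : p ∣ m + 1
    · rw [hep _ h2, mul_zero]
    · have h3 := hdiv (m + 1) _ h2 0 (by rwa [map_zero, sub_zero])
      rw [mul_zero] at h3
      rw [hex _ _ h3, map_zero, mul_zero]
  have h2 : e.coeff 1 = algebraMap k H κ := by
    have h3 : (derivative e).eval y = ((1 : ℕ) : H) * e.coeff 1 := by
      rw [h1, eval_C, hdc]
    rw [h3, Nat.cast_one, one_mul] at h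
    exact hex 1 κ h
  refine Polynomial.ext fun m => ?_
  rw [coeff_C_mul, coeff_X]
  rcases eq_or_ne 1 m with rfl | hm
  · rw [if_pos rfl, mul_one, h2]
  · rw [if_neg hm, mul_zero]
    by_cases h4 : p ∣ m
    · exact hep m h4
    · obtain ⟨n, rfl⟩ : ∃ n, m = n + 1 := ⟨m - 1, by
        have : m ≠ 0 := fun h5 => h4 (by rw [h5]; exact dvd_zero p)
        omega⟩
      have h5 : (derivative e).coeff n = 0 := by
        rw [h1, coeff_C, if_neg (by omega)]
      rw [hdc] at h5
      refine (mul_eq_zero.1 h5).resolve_left fun h6 => h4 ?_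
      exact (CharP.cast_eq_zero_iff H p (n + 1)).1 h6

omit [CharP H p] [PerfectRing H p] in
theorem exists_delta (f : ℕ → ℕ → ℝ) (hf : ∀ c m, 0 < f c m) (u d : ℕ) :
    ∃ δ : ℝ, 0 < δ ∧ ∀ c ≤ u, ∀ m ≤ d, δ ≤ f c m := by
  have hne : ((range (u + 1)) ×ˢ (range (d + 1))).Nonempty :=
    ⟨(0, 0), by simp⟩
  refine ⟨((range (u + 1)) ×ˢ (range (d + 1))).inf' hne fun x => f x.1 x.2, ?_, ?_⟩
  · rw [lt_inf'_iff]
    exact fun x _ => hf _ _
  · intro c hc m hm
    exact inf'_le (fun x : ℕ × ℕ => f x.1 x.2) (b := (c, m)) (by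
      rw [mem_product, mem_range, mem_range]
      exact ⟨Nat.lt_succ_of_le hc, Nat.lt_succ_of_le hm⟩)

theorem Gt.exists_ge {x : H} (h : Gt v 0 x) : ∃ δ : ℝ, 0 < δ ∧ v.Ge δ x := by
  rcases eq_or_ne x 0 with rfl | h0
  · exact ⟨1, one_pos, RVal.Ge.zero⟩
  · exact ⟨v x, h h0, fun _ => le_rfl⟩

/-- **THE MIXED PART, conclusion.** If `z = G(0)` is not a hull sum then `e_j = 0` for `j ≥ 1` and
`e_0` is a constant. -/
theorem mix_zero (hpr : GrP p v pr) {Red : ℝ → H → Prop} (hH : HullP p v pr Red)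
    (hk : ∀ c : k, v.Ge 0 (algebraMap k H c))
    (hD : ∀ f ∈ PI B, v.Ge 0 (f.eval y) → ∀ J, 1 ≤ J → Gt v 0 ((hasseDeriv J f).eval y))
    {α ζ : A} {u : ℕ} {e : ℕ → Polynomial H} {W₀ : ℝ} (hW₀ : 0 ≤ W₀)
    (he : ∀ j, e j ∈ PI B) (he0 : ∀ j, u < j → e j = 0)
    -- the normal form
    (hep : ∀ j, 1 ≤ j → ∀ m, p ∣ m → (e j).coeff m = 0)
    -- the coefficients are finite sums of `t ^ g`, `g ≤ 0`
    (hex : ∀ j m (c : k), Gt v 0 ((e j).coeff m - algebraMap k H c) →
      (e j).coeff m = algebraMap k H c)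
    -- reduced, homogeneous
    (hEr : ∀ j m, Red W₀ ((hasseDeriv m (e j)).eval y))
    (hEp : ∀ j m, pr (-(p ^ j • ζ) - m • α) ((hasseDeriv m (e j)).eval y) =
      (hasseDeriv m (e j)).eval y)
    -- the jets `D m J` of `f`
    {D : ℕ → ℕ → H} (hD1 : ∀ m n, v.Ge 0 (D m (p ^ n) - (hasseDeriv m (e n)).eval y))
    -- (RR)
    (hRR : ∀ l J, ¬(p ∣ l ∧ p ∣ J) → Nul v fun M => ∑ n ∈ range M,
      pr (-(l • α + J • ζ)) (Rt p n (D (p ^ n * l) (p ^ n * J)))) :
    ∃ δ : ℝ, 0 < δ ∧ ∀ (G Em : PowerSeries H) (d : ℕ) (g W : ℝ), 0 ≤ g → p ^ u * g ≤ δ → 0 ≤ W →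
      (∀ m, pr (ζ - m • α) (PowerSeries.coeff m G) = PowerSeries.coeff m G) →
      (∀ m, v.Ge (-g) (PowerSeries.coeff m G)) →
      (∀ m, d < m → PowerSeries.coeff m Em = 0) → (∀ m, Red W (PowerSeries.coeff m Em)) →
      (∀ m, v.Ge 0 (D m 0 - PowerSeries.coeff m
        (∑ j ∈ range (u + 1), Ty y (e j) * G ^ p ^ j + Em))) →
      ¬ HullSum p v Red (PowerSeries.coeff 0 G) →
      (∀ j, 1 ≤ j → e j = 0) ∧ ∃ c : k, e 0 = C (algebraMap k H c) := by
  classical
  have hp1 : 1 < p := hp.out.one_lt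
  have hp1' : (1 : ℝ) ≤ p := by exact_mod_cast hp1.le
  set E : ℕ → PowerSeries H := fun j => Ty y (e j) with hE
  have hEc : ∀ j m, PowerSeries.coeff m (E j) = (hasseDeriv m (e j)).eval y := fun j m =>
    coeff_Ty _ _
  have hE0 : ∀ j, u < j → E j = 0 := fun j hj => by rw [hE]; simp only [he0 j hj, Ty_zero]
  -- (RR) at `(l, p ^ i)`
  have hOm : ∀ i l, i = 0 ∨ ¬ p ∣ l → v.Ge 0 (PowerSeries.coeff l (Om p pr α ζ u E i)) := by
    intro i l hil
    have h1 := hRR l (p ^ i) (by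
      rintro ⟨h2, h3⟩
      rcases hil with h4 | h4
      · rw [h4, pow_zero, Nat.dvd_one] at h3
        omega
      · exact h4 h2)
    have h2 := rr_congr hpr (φ := fun n => D (p ^ n * l) (p ^ n * p ^ i))
      (ψ := fun n => PowerSeries.coeff (p ^ n * l) (E (n + i)))
      (fun n => by
        show v.Ge 0 (D (p ^ n * l) (p ^ n * p ^ i) - PowerSeries.coeff (p ^ n * l) (E (n + i)))
        rw [hEc, ← pow_add]
        exact hD1 _ _) _ h1
    refine Nul.const (v := v) (nul_congr_ev h2 (u + 1) fun M hM => ?_)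
    rw [coeff_Om]
    have e1 : -(l • α + p ^ i • ζ) = -(p ^ i • ζ) - l • α := by abel
    rw [e1]
    symm
    refine sum_subset (range_subset_range.2 hM) fun n _ hn => ?_
    rw [mem_range, not_lt] at hn
    rw [hE0 _ (by omega), map_zero, Rt_zero, map_zero]
  -- the constants and `δ`
  have hconst : ∀ c m, ∃ (r : k) (δ : ℝ), 0 < δ ∧
      v.Ge δ (PowerSeries.coeff m (RS p pr α ζ u E c) - algebraMap k H r) := by
    intro c m
    by_cases h1 : c = 0 ∨ ¬ p ∣ m
    · obtain ⟨r, hr⟩ := hH.const W₀ (PowerSeries.coeff m (Om p pr α ζ u E c)) (by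
        rw [coeff_Om]
        refine hH.sum hW₀ _ _ fun n _ => hH.pr _ _ _ ?_
        refine hH.mono _ _ _ (div_le_self hW₀ (one_le_pow₀ hp1')) (hH.rootN ?_ n)
        rw [hEc]
        exact hEr _ _) (hOm c m h1)
      obtain ⟨δ, hδ, h2⟩ := Gt.exists_ge hr
      refine ⟨r, δ, hδ, ?_⟩
      rw [RS, PowerSeries.coeff_mk, if_pos h1]
      exact h2
    · refine ⟨0, 1, one_pos, ?_⟩
      rw [RS, PowerSeries.coeff_mk, if_neg h1, map_zero, sub_zero]
      exact RVal.Ge.zero
  choose r₀ δ₀ hδ₀ hr₀ using hconst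
  set d₀ := (range (u + 1)).sup fun j => (e j).natDegree with hd₀
  have hEd : ∀ j m, d₀ < m → PowerSeries.coeff m (E j) = 0 := by
    intro j m hm
    rcases Nat.lt_or_ge u j with h5 | h5
    · rw [hE0 j h5, map_zero]
    · exact coeff_Ty_zero (lt_of_le_of_lt
        (le_sup (f := fun j => (e j).natDegree) (mem_range.2 (Nat.lt_succ_of_le h5))) hm)
  obtain ⟨δ, hδ, hδ'⟩ := exists_delta δ₀ hδ₀ u d₀
  refine ⟨δ, hδ, fun G Em d g W hg hgδ hW hGp hGg hMd hMr hD0 hz => ?_⟩
  have h0 : ∀ j, 1 ≤ j → e j = 0 := by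
    by_contra hcon
    push Not at hcon
    obtain ⟨j₀, hj₀, hj₀'⟩ := hcon
    set S : Finset ℕ := (range (u + 1)).filter fun j => 1 ≤ j ∧ e j ≠ 0 with hS
    have hne : S.Nonempty := ⟨j₀, by
      rw [hS, mem_filter, mem_range]
      refine ⟨?_, hj₀, hj₀'⟩
      by_contra h1
      exact hj₀' (he0 j₀ (by omega))⟩
    set u' := S.max' hne with hu'
    have h1 := S.max'_mem hne
    rw [← hu', hS, mem_filter, mem_range] at h1
    obtain ⟨h1, h2, h3⟩ := h1
    have h4 : ∀ j, u' < j → e j = 0 := by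
      intro j hj
      by_contra h5
      have h6 : j ∈ S := by
        rw [hS, mem_filter, mem_range]
        refine ⟨?_, by omega, h5⟩
        by_contra h7
        exact h5 (he0 j (by omega))
      have := S.le_max' j h6
      omega
    have hT0 : ∀ j, u' < j → E j = 0 := fun j hj => by rw [hE]; simp only [h4 j hj, Ty_zero]
    have hu'u : u' ≤ u := by omega
    -- `κ`
    have hOm1 : ∀ m, PowerSeries.coeff m (Om p pr α ζ u E u') = PowerSeries.coeff m (E u') := by
      intro m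
      rw [coeff_Om, sum_eq_single_of_mem 0 (mem_range.2 (Nat.succ_pos u)), Rt_idx_zero, pow_zero,
        one_mul, zero_add, hEc, hEp]
      intro n _ hn
      rw [hT0 _ (by omega), map_zero, Rt_zero, map_zero]
    have hp1d : ¬ p ∣ 1 := by rw [Nat.dvd_one]; omega
    obtain ⟨κ, hκ⟩ := hH.const W₀ _ (hEr u' 1) (by
      rw [← hEc, ← hOm1]
      exact hOm u' 1 (Or.inr hp1d))
    rw [hasseDeriv_one] at hκ
    have h5 := top_coeff hk hD (he u') (hex u') (hep u' h2) hκ
    have hκ0 : κ ≠ 0 := by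
      intro h6
      rw [h6, map_zero, map_zero, zero_mul] at h5
      exact h3 h5
    -- the constants
    set r : ℕ → ℕ → k := fun c m =>
      if c < u' ∧ m ≤ d₀ then r₀ c m else if c = u' ∧ m = 1 then κ else 0 with hrdef
    have hr : ∀ c m, v.Ge δ (PowerSeries.coeff m (RS p pr α ζ u' E c) -
        algebraMap k H (r c m)) := by
      intro c m
      rw [← RS_eq hu'u hT0]
      by_cases h6 : c < u' ∧ m ≤ d₀
      · rw [hrdef]
        simp only [if_pos h6]
        exact (hr₀ c m).mono (hδ' c (by omega) m h6.2)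
      · have h7 : PowerSeries.coeff m (RS p pr α ζ u E c) = algebraMap k H (r c m) := by
          rw [hrdef]
          simp only [if_neg h6]
          rw [RS, PowerSeries.coeff_mk]
          rcases lt_trichotomy c u' with h8 | h8 | h8
          · have h9 : d₀ < m := by
              by_contra h10
              exact h6 ⟨h8, by omega⟩
            rw [if_neg (by omega : ¬ (c = u' ∧ m = 1)), map_zero]
            split_ifs
            · rw [coeff_Om]
              refine sum_eq_zero fun n _ => ?_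
              rw [hEd _ _ (h9.trans_le (Nat.le_mul_of_pos_left _ (pow_pos hp.out.pos n))),
                Rt_zero, map_zero]
            · rfl
          · rw [h8]
            by_cases h9 : p ∣ m
            · rw [if_neg (by rintro (h10 | h10); exacts [by omega, h10 h9]), if_neg, map_zero]
              rintro ⟨_, h10⟩
              rw [h10] at h9
              exact hp1d h9
            · have h10 : m ≠ 0 := fun h11 => h9 (by rw [h11]; exact dvd_zero p)
              rw [if_pos (Or.inr h9), hOm1]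
              have h11 : PowerSeries.coeff m (E u') =
                  PowerSeries.coeff m (Ty y (C (algebraMap k H κ) * X)) := by rw [← h5]
              rw [h11, coeff_Ty_X _ h10]
              by_cases h12 : m = 1
              · rw [if_pos h12, if_pos ⟨rfl, h12⟩]
              · rw [if_neg h12, if_neg (fun h13 => h12 h13.2), map_zero]
          · rw [if_neg (by omega : ¬ (c = u' ∧ m = 1)), map_zero]
            split_ifs
            · rw [coeff_Om]
              refine sum_eq_zero fun n _ => ?_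
              rw [hT0 _ (by omega), map_zero, Rt_zero, map_zero]
            · rfl
        rw [h7, sub_self]
        exact RVal.Ge.zero
    have hcut0 : ∑ j ∈ range (u + 1), E j * G ^ p ^ j = ∑ j ∈ range (u' + 1), E j * G ^ p ^ j := by
      symm
      refine sum_subset (range_subset_range.2 (by omega)) fun n _ hn => ?_
      rw [mem_range, not_lt] at hn
      rw [hT0 _ (by omega), zero_mul]
    obtain ⟨P, g', hg', hP⟩ := mix_hull (u := u') (E := E) (Em := Em) (G := G)
      (d := max 1 (max d d₀)) (W := W) (g := g) (δ := δ) (r := r) (κ := κ) hpr hH hk h2 hW hT0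
      (fun j m hm => hEd j m ((le_max_right _ _).trans_lt ((le_max_right _ _).trans_lt hm)))
      (fun m hm => hMd m ((le_max_left _ _).trans_lt ((le_max_right _ _).trans_lt hm)))
      hMr hGp hg hGg
      ((mul_le_mul_of_nonneg_right (pow_le_pow_right₀ hp1' hu'u) hg).trans hgδ) hr
      (fun c m hm => by
        have h6 := (le_max_right _ _).trans_lt ((le_max_right _ _).trans_lt hm)
        have h7 := (le_max_left _ _).trans_lt hm
        rw [hrdef]
        simp only
        rw [if_neg (by omega), if_neg (by omega)])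
      hκ0
      (fun m => by
        rw [hrdef]
        simp only
        rw [if_neg (by omega)]
        by_cases h6 : m = 1
        · rw [if_pos h6, if_pos ⟨trivial, h6⟩]
        · rw [if_neg h6, if_neg (fun h7 => h6 h7.2)])
      (fun l hl => by
        have h6 := hRR l 0 (fun h7 => hl h7.1)
        have h7 := rr_congr hpr (φ := fun n => D (p ^ n * l) (p ^ n * 0))
          (ψ := fun n => PowerSeries.coeff (p ^ n * l)
            (∑ j ∈ range (u + 1), Ty y (e j) * G ^ p ^ j + Em))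
          (fun n => by
            show v.Ge 0 (D (p ^ n * l) (p ^ n * 0) - _)
            rw [mul_zero]
            exact hD0 _) _ h6
        rw [zero_smul, add_zero] at h7
        have h8 : ∑ j ∈ range (u + 1), Ty y (e j) * G ^ p ^ j =
            ∑ j ∈ range (u' + 1), E j * G ^ p ^ j := hcut0
        rw [h8] at h7
        exact h7)
    exact hz ⟨fun n => P n 0, W, g', hW, hg', fun n => hP n 0⟩
  refine ⟨h0, ?_⟩
  have hT0 : ∀ j, 1 ≤ j → E j = 0 := fun j hj => by rw [hE]; simp only [h0 j hj, Ty_zero]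
  have h1 : v.Ge 0 ((e 0).eval y) := by
    have h5 := hOm 0 0 (Or.inl rfl)
    rw [coeff_Om, sum_eq_single_of_mem 0 (mem_range.2 (Nat.succ_pos u)), Rt_idx_zero, mul_zero,
      zero_add, hEc, hEp, hasseDeriv_zero] at h5
    · exact h5
    · intro n _ hn
      rw [hT0 _ (by omega), map_zero, Rt_zero, map_zero]
  have h2 := eq_C_of_ge hD (he 0) (fun m hm => by
    have h3 := hex 0 m 0 (by rwa [map_zero, sub_zero])
    rwa [map_zero] at h3) h1
  have h3 := hEr 0 0
  rw [hasseDeriv_zero, LinearMap.id_apply] at h3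
  obtain ⟨c, hc⟩ := hH.const W₀ _ h3 h1
  refine ⟨c, ?_⟩
  rw [h2, eval_C] at hc
  rw [h2, hex 0 0 c hc]

end Zero

end Pool.Agent.TWIV
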