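import Pool.Agent.Lib.TWIV.Fin

/-!
# TANK W, leaf (IV): the mixed part, the identities (T_l)

`f = ∑ e_j F ^ j z + e_-` with digit reduced `e_j` (for `j ≥ 1` only exponents prime to `p`).

* `kappa`: `e_j = κ_j y` for `j ≥ 1`, and `D_l e_0 ∈ O` for `l ≥ 1`;
* `mix_tl`: if `e_0` is an element of the base, the identities (T_l) hold;
* `mix_letters`: `∑ κ_j F ^ j z ∈ RR + O`.
-/

set_option autoImplicit false
set_option linter.unusedSectionVars false

open Polynomial Finset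

namespace Pool.Agent.TWIV

open Pool.Agent.H15JM (RVal)
open Pool.Agent.D2 (Ctx0)
open Pool.Agent.TWC (Nul coeff_ps_pow_pow coeff_ps_pow_zero)
open Pool.Agent.TWM (Gt PI hasse_mem_PI)

universe u

variable {k H : Type u} [Field k] [Field H] [Algebra k H] {v : RVal H} {p : ℕ} [hp : Fact p.Prime]
  [CharP H p] [PerfectRing H p] {A : Type*} [AddCommGroup A] {pr : A → H →ₗ[k] H}
  {B : IntermediateField k H} {y : H} {α ζ : A} {u : ℕ} {e : ℕ → Polynomial H} {D : ℕ → ℕ → H}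

/-- (RR) at `(l, p ^ i)` -/
theorem rr_om (hpr : GrP p v pr) (he0 : ∀ j, u < j → e j = 0)
    (hD1 : ∀ m n, v.Ge 0 (D m (p ^ n) - (hasseDeriv m (e n)).eval y))
    (hRR : ∀ l J, ¬(p ∣ l ∧ p ∣ J) → Nul v fun M => ∑ n ∈ range M,
      pr (-(l • α + J • ζ)) (Rt p n (D (p ^ n * l) (p ^ n * J)))) {i l : ℕ}
    (hil : i = 0 ∨ ¬ p ∣ l) :
    v.Ge 0 (PowerSeries.coeff l (Om p pr α ζ u (fun j => Ty y (e j)) i)) := by
  have hp1 : 1 < p := hp.out.one_lt
  have h1 := hRR l (p ^ i) (by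
    rintro ⟨h2, h3⟩
    rcases hil with h4 | h4
    · rw [h4, pow_zero, Nat.dvd_one] at h3
      omega
    · exact h4 h2)
  have h2 := rr_congr hpr (φ := fun n => D (p ^ n * l) (p ^ n * p ^ i))
    (ψ := fun n => PowerSeries.coeff (p ^ n * l) (Ty y (e (n + i))))
    (fun n => by
      show v.Ge 0 (D (p ^ n * l) (p ^ n * p ^ i) - PowerSeries.coeff (p ^ n * l) (Ty y (e (n + i))))
      rw [coeff_Ty, ← pow_add]
      exact hD1 _ _) _ h1
  refine Nul.const (v := v) (nul_congr_ev h2 (u + 1) fun M hM => ?_)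
  rw [coeff_Om]
  have e1 : -(l • α + p ^ i • ζ) = -(p ^ i • ζ) - l • α := by abel
  rw [e1]
  symm
  refine sum_subset (range_subset_range.2 hM) fun n _ hn => ?_
  rw [mem_range, not_lt] at hn
  rw [he0 _ (by omega), Ty_zero, map_zero, Rt_zero, map_zero]

theorem coeff_Ty_CX (κ : H) {m : ℕ} (hm : 2 ≤ m) : PowerSeries.coeff m (Ty y (C κ * X)) = 0 := by
  rw [coeff_Ty_X κ (by omega), if_neg (by omega)]

/-- the coefficients of `Om` for `e_j = κ_j X`, `j ≥ 1` -/
theorem coeff_Om_of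
    (hEp : ∀ j m, pr (-(p ^ j • ζ) - m • α) ((hasseDeriv m (e j)).eval y) =
      (hasseDeriv m (e j)).eval y) {κ : ℕ → k} {i : ℕ}
    (hκ : ∀ j, i < j → e j = C (algebraMap k H (κ j)) * X) {l : ℕ} (hl : 1 ≤ l) :
    PowerSeries.coeff l (Om p pr α ζ u (fun j => Ty y (e j)) i) =
      (hasseDeriv l (e i)).eval y := by
  have hp1 : 1 < p := hp.out.one_lt
  rw [coeff_Om, sum_eq_single_of_mem 0 (mem_range.2 (Nat.succ_pos u)), Rt_idx_zero, pow_zero,
    one_mul, zero_add, coeff_Ty, hEp]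
  intro n _ hn
  have h1 : 2 ≤ p ^ n * l := by
    obtain ⟨n', rfl⟩ := Nat.exists_eq_succ_of_ne_zero hn
    have h2 : 2 ≤ p ^ (n' + 1) := hp1.trans_le (by
      rw [pow_succ]
      exact Nat.le_mul_of_pos_left _ (pow_pos hp.out.pos _))
    exact h2.trans (Nat.le_mul_of_pos_right _ hl)
  rw [hκ _ (by omega), coeff_Ty_CX _ h1, Rt_zero, map_zero]

/-- `e_j = κ_j y` for `j ≥ 1`. -/
theorem kappa [hcx : Fact (Ctx0 k v)] (hpr : GrP p v pr)
    (hD : ∀ f ∈ PI B, v.Ge 0 (f.eval y) → ∀ J, 1 ≤ J → Gt v 0 ((hasseDeriv J f).eval y))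
    (he : ∀ j, e j ∈ PI B) (he0 : ∀ j, u < j → e j = 0)
    (hep : ∀ j, 1 ≤ j → ∀ m, p ∣ m → (e j).coeff m = 0)
    (hex : ∀ j, 1 ≤ j → ∀ m (c : k), Gt v 0 ((e j).coeff m - algebraMap k H c) →
      (e j).coeff m = algebraMap k H c)
    (hEp : ∀ j m, pr (-(p ^ j • ζ) - m • α) ((hasseDeriv m (e j)).eval y) =
      (hasseDeriv m (e j)).eval y)
    (hD1 : ∀ m n, v.Ge 0 (D m (p ^ n) - (hasseDeriv m (e n)).eval y))
    (hRR : ∀ l J, ¬(p ∣ l ∧ p ∣ J) → Nul v fun M => ∑ n ∈ range M,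
      pr (-(l • α + J • ζ)) (Rt p n (D (p ^ n * l) (p ^ n * J)))) :
    ∃ κ : ℕ → k, (∀ j, 1 ≤ j → e j = C (algebraMap k H (κ j)) * X) ∧ (∀ j, u < j → κ j = 0) ∧
      ∀ l, 1 ≤ l → v.Ge 0 ((hasseDeriv l (e 0)).eval y) := by
  classical
  have hk : ∀ c : k, v.Ge 0 (algebraMap k H c) := fun c => hcx.out.ge c
  have hp1d : ¬ p ∣ 1 := by rw [Nat.dvd_one]; exact hp.out.one_lt.ne'
  have key : ∀ d j, 1 ≤ j → u < j + d → ∃ κ : k, e j = C (algebraMap k H κ) * X := by
    intro d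
    induction d with
    | zero =>
      intro j _ hj
      exact ⟨0, by rw [he0 j hj, map_zero, map_zero, zero_mul]⟩
    | succ d ih =>
      intro j hj hjd
      have h1 : ∀ j', j < j' → ∃ κ : k, e j' = C (algebraMap k H κ) * X := fun j' hj' =>
        ih j' (by omega) (by omega)
      set κ' : ℕ → k := fun j' => if h : j < j' then (h1 j' h).choose else 0 with hκ'
      have h2 : ∀ j', j < j' → e j' = C (algebraMap k H (κ' j')) * X := fun j' hj' => by
        rw [hκ']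
        simp only [dif_pos hj']
        exact (h1 j' hj').choose_spec
      have h3 := rr_om (u := u) hpr he0 hD1 hRR (i := j) (l := 1) (Or.inr hp1d)
      rw [coeff_Om_of hEp h2 le_rfl] at h3
      obtain ⟨κ, hκ⟩ := hcx.out.residue h3
      refine ⟨κ, top_coeff hk hD (he j) (hex j hj) (hep j hj) ?_⟩
      rw [hasseDeriv_one] at hκ
      exact hκ
  have key' : ∀ j, 1 ≤ j → ∃ κ : k, e j = C (algebraMap k H κ) * X := fun j hj =>
    key (u + 1) j hj (by omega)
  set κ : ℕ → k := fun j => if h : 1 ≤ j then (key' j h).choose else 0 with hκ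
  have h1 : ∀ j, 1 ≤ j → e j = C (algebraMap k H (κ j)) * X := fun j hj => by
    rw [hκ]
    simp only [dif_pos hj]
    exact (key' j hj).choose_spec
  refine ⟨κ, h1, fun j hj => ?_, fun l hl => ?_⟩
  · have h2 := h1 j (by omega)
    rw [he0 j hj] at h2
    have h3 := congrArg (fun f => Polynomial.coeff f 1) h2
    simp only [coeff_zero, coeff_C_mul, coeff_X_one, mul_one] at h3
    exact (algebraMap k H).injective (by rw [← h3, map_zero])
  · have h3 := rr_om (u := u) hpr he0 hD1 hRR (i := 0) (l := l) (Or.inl rfl)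
    rwa [coeff_Om_of hEp (fun j hj => h1 j (by omega)) hl] at h3

/-- **The identities (T_l).** -/
theorem mix_tl [hcx : Fact (Ctx0 k v)] (hpr : GrP p v pr) {κ : ℕ → k}
    (hκ : ∀ j, 1 ≤ j → e j = C (algebraMap k H (κ j)) * X) {N : ℕ} (hN : 1 ≤ N)
    (hκN : κ N ≠ 0) (hκ0 : ∀ j, N < j → κ j = 0)
    (he00 : ∀ l, 1 ≤ l → (hasseDeriv l (e 0)).eval y = 0)
    (hEp : ∀ j m, pr (-(p ^ j • ζ) - m • α) ((hasseDeriv m (e j)).eval y) =
      (hasseDeriv m (e j)).eval y)
    (hD1 : ∀ m n, v.Ge 0 (D m (p ^ n) - (hasseDeriv m (e n)).eval y))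
    (hRR : ∀ l J, ¬(p ∣ l ∧ p ∣ J) → Nul v fun M => ∑ n ∈ range M,
      pr (-(l • α + J • ζ)) (Rt p n (D (p ^ n * l) (p ^ n * J)))) :
    ∃ (o : k) (δ : ℝ), 0 < δ ∧ ∀ (G Em : PowerSeries H) (d : ℕ) (g : ℝ), g ≤ δ →
      (∀ m, pr (ζ - m • α) (PowerSeries.coeff m G) = PowerSeries.coeff m G) →
      (∀ m, v.Ge (-g) (PowerSeries.coeff m G)) →
      (∀ ε : ℝ, 0 < ε → ∃ J₀, ∀ J, J₀ ≤ J → v.Ge (-ε) (PowerSeries.coeff J G)) →
      (∀ m, d < m → PowerSeries.coeff m Em = 0) →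
      (∀ m, v.Ge 0 (D m 0 - PowerSeries.coeff m
        (∑ j ∈ range (N + 1), Ty y (e j) * G ^ p ^ j + Em))) →
      Tl p v pr α N κ o (fun m => PowerSeries.coeff m G) fun l =>
        ∑ n ∈ range (d + 1), pr (-(l • α)) (Rt p n (PowerSeries.coeff (p ^ n * l) Em)) := by
  classical
  have hk : ∀ c : k, v.Ge 0 (algebraMap k H c) := fun c => hcx.out.ge c
  have hp1 : 1 < p := hp.out.one_lt
  have he0 : ∀ j, N < j → e j = 0 := fun j hj => by
    rw [hκ j (by omega), hκ0 j hj, map_zero, map_zero, zero_mul]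
  set E : ℕ → PowerSeries H := fun j => Ty y (e j) with hE
  have hE0 : ∀ j, N < j → E j = 0 := fun j hj => by
    show Ty y (e j) = 0
    rw [he0 j hj, Ty_zero]
  -- the coefficients of `Om 0`
  have hOm0 : ∀ m, 1 ≤ m → PowerSeries.coeff m (Om p pr α ζ N E 0) = 0 := fun m hm => by
    rw [hE, coeff_Om_of hEp (fun j hj => hκ j (by omega)) hm, he00 m hm]
  have hOm00 := rr_om (u := N) hpr he0 hD1 hRR (i := 0) (l := 0) (Or.inl rfl)
  obtain ⟨o, ho⟩ := hcx.out.residue hOm00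
  obtain ⟨δ, hδ, hoδ⟩ := Gt.exists_ge (v := v) ho
  refine ⟨o, δ, hδ, fun G Em d g hgδ hGp hGg hGlim hMd hD0 => ?_⟩
  have hR0 : RS p pr α ζ N E 0 = PowerSeries.C (PowerSeries.coeff 0 (Om p pr α ζ N E 0)) := by
    rw [RS_zero]
    ext m
    rw [PowerSeries.coeff_C]
    split_ifs with h
    · rw [h]
    · exact hOm0 m (by omega)
  have hRc : ∀ c, 1 ≤ c → RS p pr α ζ N E c =
      PowerSeries.X * PowerSeries.C (algebraMap k H (κ c)) := by
    intro c hc
    ext m
    rw [RS, PowerSeries.coeff_mk, PowerSeries.coeff_mul_C, PowerSeries.coeff_X, ite_mul, one_mul,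
      zero_mul]
    by_cases h1 : p ∣ m
    · rw [if_neg (by rintro (h2 | h2); exacts [by omega, h2 h1]), if_neg]
      intro h2
      rw [h2, Nat.dvd_one] at h1
      omega
    · have h2 : m ≠ 0 := fun h3 => h1 (by rw [h3]; exact dvd_zero p)
      rw [if_pos (Or.inr h1), hE, coeff_Om_of hEp (fun j hj => hκ j (by omega)) (by omega),
        ← coeff_Ty, hκ c hc, coeff_Ty_X _ h2]
  refine ⟨fun l hl => ?_, hκN, hN, hGlim, ?_⟩
  · have hl0 : 1 ≤ l := Nat.one_le_iff_ne_zero.2 fun h => hl (by rw [h]; exact dvd_zero p)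
    have hRR0 : ∀ l, ¬ p ∣ l → Nul v fun M => ∑ n ∈ range M, pr (-(l • α))
        (Rt p n (PowerSeries.coeff (p ^ n * l) (∑ j ∈ range (N + 1), E j * G ^ p ^ j + Em))) := by
      intro l hl
      have h6 := hRR l 0 (fun h7 => hl h7.1)
      have h7 := rr_congr hpr (φ := fun n => D (p ^ n * l) (p ^ n * 0))
        (ψ := fun n => PowerSeries.coeff (p ^ n * l)
          (∑ j ∈ range (N + 1), E j * G ^ p ^ j + Em))
        (fun n => by
          show v.Ge 0 (D (p ^ n * l) (p ^ n * 0) - _)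
          rw [mul_zero]
          exact hD0 _) _ h6
      rwa [zero_smul, add_zero] at h7
    -- a bound for the degrees
    set d' := max d ((range (N + 1)).sup fun j => (e j).natDegree) with hd'
    have hEd : ∀ j m, d' < m → PowerSeries.coeff m (E j) = 0 := by
      intro j m hm
      rcases Nat.lt_or_ge N j with h5 | h5
      · rw [hE0 j h5, map_zero]
      · refine coeff_Ty_zero (lt_of_le_of_lt ?_ hm)
        exact (le_sup (f := fun j => (e j).natDegree) (mem_range.2 (Nat.lt_succ_of_le h5))).trans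
          (le_max_right _ _)
    have h1 := relation (u := N) (E := E) (G := G) (Em := Em) (d := d') (g := g) hpr hE0 hEd
      (fun m hm => hMd m ((le_max_left _ _).trans_lt hm)) hGp hGg hRR0 hl
    have h2 : Nul v fun M => ∑ t ∈ range M, pr (-(l • α)) (Rt p t
        ((PowerSeries.coeff 0 (Om p pr α ζ N E 0) - algebraMap k H o) *
          PowerSeries.coeff (p ^ t * l) G)) := by
      refine Nul.of_ge fun M => RVal.Ge.sum _ _ fun t _ => hpr.ge _ _ _ ?_
      have h3 := hoδ.mul (hGg (p ^ t * l))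
      have h4 := ge_Rt p (n := t) (h3.mono (by linarith : (0 : ℝ) ≤ δ + -g))
      rwa [zero_div] at h4
    refine (h1.sub h2).congr fun M => ?_
    rw [Tls]
    have e1 : ∑ c ∈ Ico 1 (N + 1), PowerSeries.coeff l (RS p pr α ζ N E c * G ^ p ^ c) =
        ∑ i ∈ Icc 1 N, (if p ^ i ∣ l - 1 then
          algebraMap k H (κ i) * PowerSeries.coeff ((l - 1) / p ^ i) G ^ p ^ i else 0) := by
      have e2 : Ico 1 (N + 1) = Icc 1 N := by
        ext i
        rw [mem_Ico, mem_Icc]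
        omega
      rw [e2]
      refine sum_congr rfl fun i hi => ?_
      obtain ⟨l', rfl⟩ : ∃ l', l = l' + 1 := ⟨l - 1, by omega⟩
      rw [hRc i (mem_Icc.1 hi).1, mul_assoc, PowerSeries.coeff_succ_X_mul,
        PowerSeries.coeff_C_mul, coeff_pow_pow, Nat.add_sub_cancel, mul_ite, mul_zero]
    have e3 : ∀ t, PowerSeries.coeff (p ^ t * l) (RS p pr α ζ N E 0 * G) =
        (PowerSeries.coeff 0 (Om p pr α ζ N E 0) - algebraMap k H o) *
          PowerSeries.coeff (p ^ t * l) G +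
        algebraMap k H o * PowerSeries.coeff (p ^ t * l) G := fun t => by
      rw [hR0, PowerSeries.coeff_C_mul]
      ring
    have e4 : ∑ n ∈ range (d' + 1), pr (-(l • α)) (Rt p n (PowerSeries.coeff (p ^ n * l) Em)) =
        ∑ n ∈ range (d + 1), pr (-(l • α)) (Rt p n (PowerSeries.coeff (p ^ n * l) Em)) := by
      symm
      refine sum_subset (range_subset_range.2 (Nat.succ_le_succ (le_max_left _ _)))
        fun n _ hn => ?_
      rw [mem_range, not_lt] at hn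
      have h3 : n < p ^ n := Nat.lt_pow_self hp1
      have h4 : p ^ n ≤ p ^ n * l := Nat.le_mul_of_pos_right _ hl0
      rw [hMd _ (by omega), Rt_zero, map_zero]
    simp only [e1, e3, e4, Rt_add, map_add, sum_add_distrib]
    ring
  · refine ⟨d + 1, fun l hl => ?_⟩
    have h1 : ∑ n ∈ range (d + 1), pr (-(l • α))
        (Rt p n (PowerSeries.coeff (p ^ n * l) Em)) = 0 := by
      refine sum_eq_zero fun n _ => ?_
      have h2 : l ≤ p ^ n * l := Nat.le_mul_of_pos_left _ (pow_pos hp.out.pos n)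
      rw [hMd _ (by omega), Rt_zero, map_zero]
    show v.Ge 0 (∑ n ∈ range (d + 1), pr (-(l • α))
      (Rt p n (PowerSeries.coeff (p ^ n * l) Em)))
    rw [h1]
    exact RVal.Ge.zero

/-- **`∑ κ_j F ^ j z ∈ RR + O`.** -/
theorem mix_letters (hpr : GrP p v pr) (hk : ∀ c : k, v.Ge 0 (algebraMap k H c)) {N : ℕ}
    {κ : ℕ → k} {o : k} {G Em : PowerSeries H} {d : ℕ}
    (h : Tl p v pr α N κ o (fun m => PowerSeries.coeff m G) fun l =>
        ∑ n ∈ range (d + 1), pr (-(l • α)) (Rt p n (PowerSeries.coeff (p ^ n * l) Em)))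
    {Q : H → Prop} (hQ : Cl k v p pr Q) (hEm : ∀ m, Q (PowerSeries.coeff m Em)) :
    Q (∑ i ∈ Icc 1 N, algebraMap k H (κ i) * PowerSeries.coeff 0 G ^ p ^ i) :=
  h.mem_zero hpr hk hQ fun l => hQ.sum _ _ fun _ _ => hQ.pr _ _ (hQ.rootN (hEm _) _)

end Pool.Agent.TWIV
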