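import Pool.Agent.Lib.TWIV.RR

/-!
# TANK W, leaf (IV), row A5: systems

* `JetsC`: jets with the composition law in the second direction, compatible with the grading;
* `SysR`: a family `φ n` (`n : ℤ`), homogeneous of degree `δ n`, `p δ n = δ (n + 1)`, with (RR);
* `Exo.sysR`: the relation `F q - q = ∑ F e_c + f` gives the constant system `f`;
* `SysR.gauge`, `SysR.derived`, `SysR.fin`.
-/

set_option autoImplicit false
set_option linter.unusedSectionVars false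

open Polynomial

namespace Pool.Agent.TWIV

open Pool.Agent.H15JM (RVal)
open Pool.Agent.TWC (Nul Cau)

universe u

variable {k H : Type u} [Field k] [Field H] [Algebra k H]
  {A : Type*} [AddCommGroup A]

/-- Jets with the composition law in the second direction, compatible with the grading. -/
structure JetsC (p : ℕ) (v : RVal H) (pr : A → H →ₗ[k] H) (K : IntermediateField k H) (α ζ : A)
    (D : ℕ × ℕ → H → H) : Prop extends Jets p v pr K α ζ D where
  gr : ∀ c, ∀ x ∈ K, pr c x ∈ K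
  prc : ∀ i c, ∀ x ∈ K, D i (pr c x) = pr (c - dg α ζ i) (D i x)
  zmem : ∀ e, ∀ x ∈ K, D (0, e) x ∈ K
  comp : ∀ m J e, ∀ x ∈ K, D (m, J) (D (0, e) x) = ((J + e).choose e : H) * D (m, J + e) x

section Sys

variable {v : RVal H} (p : ℕ) [hp : Fact p.Prime] [CharP H p] [PerfectRing H p]
  {pr : A → H →ₗ[k] H} {α ζ : A} {K : IntermediateField k H} {D : ℕ × ℕ → H → H}

/-- The sum of (RR), cut at `M`. -/
noncomputable def csR (pr : A → H →ₗ[k] H) (α ζ : A) (D : ℕ × ℕ → H → H) (δ : ℤ → A) (φ : ℤ → H)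
    (n : ℤ) (i : ℕ × ℕ) (M : ℕ) : H :=
  ∑ s ∈ Finset.range M, pr (δ n - dg α ζ i) (Rt p s (D (p ^ s * i.1, p ^ s * i.2) (φ (n + s))))

/-- A system. -/
structure SysR (v : RVal H) (pr : A → H →ₗ[k] H) (K : IntermediateField k H) (α ζ : A)
    (D : ℕ × ℕ → H → H) (δ : ℤ → A) (φ : ℤ → H) : Prop where
  deg : ∀ n, p • δ n = δ (n + 1)
  mem : ∀ n, φ n ∈ K
  hom : ∀ n, pr (δ n) (φ n) = φ n
  rr : ∀ n i, ¬ (p ∣ i.1 ∧ p ∣ i.2) → Nul v fun M => csR p pr α ζ D δ φ n i M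

variable {p} {δ : ℤ → A} {φ ψ : ℤ → H}

/-- The constant system. -/
theorem Exo.sysR (hpr : GrP p v pr) (hne : ∀ c d x, c ≠ d → pr c (pr d x) = 0)
    (hD : Jets p v pr K α ζ D) {T : Finset A} {q : ℕ → H} {e : A → ℕ → H} {f : H}
    (h : Exo p v pr K T q e f) : SysR p v pr K α ζ D (fun _ => 0) fun _ => f where
  deg := fun _ => smul_zero _
  mem := fun _ => h.mf
  hom := fun _ => h.f0
  rr := by
    intro n i hi ε hε
    obtain ⟨g, hg, h1⟩ := h.rr hpr hne hD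
    -- the bound tends to zero
    obtain ⟨M₀, hM₀⟩ : ∃ M₀ : ℕ, g / ε < (p : ℝ) ^ M₀ :=
      pow_unbounded_of_one_lt _ (by exact_mod_cast hp.out.one_lt)
    refine ⟨M₀ + 1, fun M hM => ?_⟩
    obtain ⟨M', rfl⟩ : ∃ M', M = M' + 1 := ⟨M - 1, by omega⟩
    have h2 := h1 i.1 i.2 hi M'
    have e1 : csR p pr α ζ D (fun _ => 0) (fun _ => f) n i (M' + 1) =
        ∑ s ∈ Finset.range (M' + 1), pr (-dg α ζ (i.1, i.2))
          (Rt p s (D (p ^ s * i.1, p ^ s * i.2) f)) := by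
      unfold csR
      rw [zero_sub]
    show v.Ge (-ε) (csR p pr α ζ D (fun _ => 0) (fun _ => f) n i (M' + 1))
    rw [e1]
    refine h2.mono (neg_le_neg ?_)
    have h3 : (0 : ℝ) < p ^ M' := by
      have := hp.out.pos
      positivity
    rw [div_le_iff₀ h3]
    have h4 : (p : ℝ) ^ M₀ ≤ p ^ M' :=
      pow_le_pow_right₀ (by exact_mod_cast hp.out.one_le) (by omega)
    have h5 : g < ε * p ^ M₀ := by
      rw [div_lt_iff₀ hε] at hM₀
      linarith
    nlinarith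

namespace SysR

theorem degN (h : SysR p v pr K α ζ D δ φ) (n : ℤ) (s : ℕ) : p ^ s • δ n = δ (n + s) := by
  induction s with
  | zero => simp
  | succ s ih =>
    rw [pow_succ', mul_smul, ih, h.deg]
    congr 1
    push_cast
    ring

theorem add (hD : Jets p v pr K α ζ D) (h : SysR p v pr K α ζ D δ φ)
    (h' : SysR p v pr K α ζ D δ ψ) : SysR p v pr K α ζ D δ fun n => φ n + ψ n where
  deg := h.deg
  mem := fun n => add_mem (h.mem n) (h'.mem n)
  hom := fun n => by rw [map_add, h.hom, h'.hom]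
  rr := by
    intro n i hi
    refine ((h.rr n i hi).add (h'.rr n i hi)).congr fun M => ?_
    unfold csR
    rw [← Finset.sum_add_distrib]
    refine Finset.sum_congr rfl fun s _ => ?_
    rw [hD.add _ _ (h.mem _) _ (h'.mem _), Rt_add, map_add]

theorem neg (hD : Jets p v pr K α ζ D) (h : SysR p v pr K α ζ D δ φ) :
    SysR p v pr K α ζ D δ fun n => -φ n where
  deg := h.deg
  mem := fun n => neg_mem (h.mem n)
  hom := fun n => by rw [map_neg, h.hom]
  rr := by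
    intro n i hi
    refine (h.rr n i hi).neg.congr fun M => ?_
    unfold csR
    rw [← Finset.sum_neg_distrib]
    refine Finset.sum_congr rfl fun s _ => ?_
    rw [hD.neg _ (h.mem _), Rt_neg, map_neg]

theorem sub (hD : Jets p v pr K α ζ D) (h : SysR p v pr K α ζ D δ φ)
    (h' : SysR p v pr K α ζ D δ ψ) : SysR p v pr K α ζ D δ fun n => φ n - ψ n := by
  have h1 := h.add hD (h'.neg hD)
  simpa only [sub_eq_add_neg] using h1

/-- Finite sums. -/
theorem fin (hpr : GrP p v pr) (h : SysR p v pr K α ζ D δ φ) {n : ℤ} {i : ℕ × ℕ}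
    (hi : ¬ (p ∣ i.1 ∧ p ∣ i.2)) {M₁ : ℕ}
    (hO : ∀ s : ℕ, M₁ ≤ s → v.Ge 0 (D (p ^ s * i.1, p ^ s * i.2) (φ (n + s)))) :
    v.Ge 0 (csR p pr α ζ D δ φ n i M₁) := by
  refine Nul.const (a := csR p pr α ζ D δ φ n i M₁) ?_
  intro ε hε
  obtain ⟨M₀, h1⟩ := h.rr n i hi ε hε
  refine ⟨0, fun _ _ => ?_⟩
  have h2 := h1 (max M₀ M₁) (le_max_left _ _)
  have e1 : csR p pr α ζ D δ φ n i M₁ = csR p pr α ζ D δ φ n i (max M₀ M₁) -
      ∑ s ∈ Finset.Ico M₁ (max M₀ M₁), pr (δ n - dg α ζ i)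
        (Rt p s (D (p ^ s * i.1, p ^ s * i.2) (φ (n + s)))) := by
    unfold csR
    rw [← Finset.sum_range_add_sum_Ico _ (le_max_right M₀ M₁)]
    ring
  rw [e1]
  refine h2.sub ((RVal.Ge.sum _ _ fun s hs => ?_).mono (by linarith : -ε ≤ 0))
  refine hpr.ge _ _ _ ?_
  have h3 := ge_Rt p (n := s) (hO s (Finset.mem_Ico.1 hs).1)
  rwa [zero_div] at h3

/-- **Gauge.** -/
theorem gauge (hpr : GrP p v pr) (hD : JetsC p v pr K α ζ D) (h : SysR p v pr K α ζ D δ φ) {μ : ℤ → H}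
    (hμ : ∀ n, μ n ∈ K) {g : ℝ} (hg : ∀ n, v.Ge (-g) (μ n))
    (hμd : ∀ n, pr (δ n) (μ n ^ p) = μ n ^ p) :
    SysR p v pr K α ζ D δ fun n => φ n - μ n ^ p + pr (δ n) (μ (n + 1)) where
  deg := h.deg
  mem := fun n => add_mem (sub_mem (h.mem n) (pow_mem (hμ n) _)) (hD.gr _ _ (hμ _))
  hom := fun n => by rw [map_add, map_sub, h.hom, hμd, hpr.idem]
  rr := by
    intro n i hi
    -- the last term
    have hlast : Nul v fun M : ℕ => if M = 0 then (0 : H) else pr (δ n - dg α ζ i)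
        (Rt p (M - 1) (D (p ^ (M - 1) * i.1, p ^ (M - 1) * i.2) (μ (n + M)))) := by
      intro ε hε
      obtain ⟨M₀, hM₀⟩ : ∃ M₀ : ℕ, |g| / ε < (p : ℝ) ^ M₀ :=
        pow_unbounded_of_one_lt _ (by exact_mod_cast hp.out.one_lt)
      refine ⟨M₀ + 1, fun M hM => ?_⟩
      show v.Ge (-ε) (if M = 0 then (0 : H) else pr (δ n - dg α ζ i)
        (Rt p (M - 1) (D (p ^ (M - 1) * i.1, p ^ (M - 1) * i.2) (μ (n + M)))))
      rw [if_neg (by omega)]
      refine hpr.ge _ _ _ ((ge_Rt p (hD.norm _ _ (hμ _) _ (hg _))).mono ?_)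
      have h3 : (0 : ℝ) < p ^ (M - 1) := by
        have := hp.out.pos
        positivity
      rw [le_div_iff₀ h3]
      have h4 : (p : ℝ) ^ M₀ ≤ p ^ (M - 1) :=
        pow_le_pow_right₀ (by exact_mod_cast hp.out.one_le) (by omega)
      have h5 : |g| < ε * p ^ M₀ := by
        rw [div_lt_iff₀ hε] at hM₀
        linarith
      have h6 := le_abs_self g
      nlinarith
    refine ((h.rr n i hi).add hlast).congr fun M => ?_
    show csR p pr α ζ D δ φ n i M + (if M = 0 then (0 : H) else pr (δ n - dg α ζ i)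
        (Rt p (M - 1) (D (p ^ (M - 1) * i.1, p ^ (M - 1) * i.2) (μ (n + M))))) = _
    -- the terms with a `p`-th power
    have hb : ∀ s : ℕ, pr (δ n - dg α ζ i) (Rt p s (D (p ^ s * i.1, p ^ s * i.2)
        (μ (n + s) ^ p))) = if s = 0 then (0 : H) else pr (δ n - dg α ζ i)
        (Rt p (s - 1) (D (p ^ (s - 1) * i.1, p ^ (s - 1) * i.2) (μ (n + s)))) := by
      intro s
      rcases Nat.eq_zero_or_pos s with rfl | hs
      · rw [if_pos rfl, pow_zero, one_mul, one_mul, hD.frob0 i.1 i.2 hi _ (hμ _), Rt_zero,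
          map_zero]
      · obtain ⟨s, rfl⟩ : ∃ s', s = s' + 1 := ⟨s - 1, by omega⟩
        rw [if_neg (by omega), Nat.add_sub_cancel, pow_succ', mul_assoc, mul_assoc,
          hD.frob _ _ _ (hμ _), ← Rt_Rt, Rt_one_pow]
    -- the other terms
    have ha : ∀ s : ℕ, pr (δ n - dg α ζ i) (Rt p s (D (p ^ s * i.1, p ^ s * i.2)
        (pr (δ (n + s)) (μ (n + s + 1))))) = pr (δ n - dg α ζ i)
        (Rt p s (D (p ^ s * i.1, p ^ s * i.2) (μ (n + s + 1)))) := by
      intro s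
      have h1 : δ (n + s) - dg α ζ (p ^ s * i.1, p ^ s * i.2) = p ^ s • (δ n - dg α ζ i) := by
        rw [smul_sub, h.degN, dg_smul]
      rw [hD.prc _ _ _ (hμ _), h1, hpr.frobN]
    induction M with
    | zero =>
      rw [if_pos rfl, add_zero]
      rfl
    | succ M ih =>
      have e1 : ∀ φ' : ℤ → H, csR p pr α ζ D δ φ' n i (M + 1) = csR p pr α ζ D δ φ' n i M +
          pr (δ n - dg α ζ i) (Rt p M (D (p ^ M * i.1, p ^ M * i.2) (φ' (n + M)))) := fun φ' =>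
        Finset.sum_range_succ _ _
      rw [e1, e1, ← ih, if_neg (by omega), Nat.add_sub_cancel,
        hD.add _ _ (sub_mem (h.mem _) (pow_mem (hμ _) _)) _ (hD.gr _ _ (hμ _)),
        hD.toJets.sub _ (h.mem _) (pow_mem (hμ _) _), Rt_add, Rt_sub, map_add, map_sub, ha M, hb M]
      push_cast
      rw [← add_assoc n]
      ring

/-- Binomials of multiples of `p`. -/
theorem _root_.Pool.Agent.TWIV.choose_pow (s a b : ℕ) :
    ((p ^ s * a).choose (p ^ s * b) : H) = (a.choose b : H) := by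
  induction s with
  | zero => rw [pow_zero, one_mul, one_mul]
  | succ s ih =>
    rw [← ih, pow_succ', mul_assoc, mul_assoc]
    have h1 := Choose.choose_modEq_choose_mod_mul_choose_div_nat (p := p)
      (n := p * (p ^ s * a)) (k := p * (p ^ s * b))
    rw [Nat.mul_mod_right, Nat.mul_mod_right, Nat.mul_div_cancel_left _ hp.out.pos,
      Nat.mul_div_cancel_left _ hp.out.pos, Nat.choose_self, one_mul] at h1
    exact (CharP.natCast_eq_natCast H p).2 h1

theorem _root_.Pool.Agent.TWIV.choose_zero {a b : ℕ} (ha : p ∣ a) (hb : ¬ p ∣ b) :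
    (a.choose b : H) = 0 := by
  have h1 := Choose.choose_modEq_choose_mod_mul_choose_div_nat (p := p) (n := a) (k := b)
  have h2 : 0 < b % p := Nat.pos_of_ne_zero fun h => hb (Nat.dvd_of_mod_eq_zero h)
  rw [Nat.mod_eq_zero_of_dvd ha, Nat.choose_eq_zero_of_lt h2, zero_mul] at h1
  rw [← Nat.cast_zero]
  exact (CharP.natCast_eq_natCast H p).2 h1

theorem _root_.Pool.Agent.TWIV.Rt_natCast (s n : ℕ) : Rt p s (n : H) = (n : H) := by
  exact map_natCast (iterateFrobeniusEquiv H p s).symm n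

/-- The sum of the derived system, `m ≥ 0`. -/
theorem derived_pos (hD : JetsC p v pr K α ζ D)
    (h : SysR p v pr K α ζ D δ φ) (n₀ : ℤ) (e₀ : ℕ) {δ' : ℤ → A}
    (hδ0 : ∀ m : ℕ, δ' m = δ (n₀ + m) - dg α ζ (0, p ^ m * e₀)) {ψ : ℤ → H}
    (hψ : ∀ m : ℕ, ψ m = D (0, p ^ m * e₀) (φ (n₀ + m))) (m : ℕ) (i : ℕ × ℕ) (M : ℕ) :
    csR p pr α ζ D δ' ψ m i M = ((i.2 + p ^ m * e₀).choose (p ^ m * e₀) : H) *
      csR p pr α ζ D δ φ (n₀ + m) (i.1, i.2 + p ^ m * e₀) M := by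
  unfold csR
  rw [Finset.mul_sum]
  refine Finset.sum_congr rfl fun s _ => ?_
  have e1 : ((m : ℤ) + s) = ((m + s : ℕ) : ℤ) := by push_cast; rfl
  have e2 : n₀ + ((m + s : ℕ) : ℤ) = n₀ + m + s := by push_cast; ring
  rw [e1, hψ, e2, hD.comp _ _ _ _ (h.mem _)]
  have e3 : p ^ s * i.2 + p ^ (m + s) * e₀ = p ^ s * (i.2 + p ^ m * e₀) := by
    rw [pow_add]
    ring
  have e4 : p ^ (m + s) * e₀ = p ^ s * (p ^ m * e₀) := by
    rw [pow_add]
    ring
  have e5 : δ' m - dg α ζ i = δ (n₀ + m) - dg α ζ (i.1, i.2 + p ^ m * e₀) := by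
    rw [hδ0]
    simp only [dg, zero_smul, zero_add, add_smul]
    abel
  rw [e3, e4, choose_pow, Rt_mul, Rt_natCast, e5]
  have h1 : ∀ (c : ℕ) (x : H) (d : A), pr d ((c : H) * x) = (c : H) * pr d x := by
    intro c x d
    rw [← nsmul_eq_mul, ← nsmul_eq_mul, map_nsmul]
  rw [h1]

/-- The sums at negative indices of a family which vanishes there. -/
theorem cs_shift (hpr : GrP p v pr) {δ' : ℤ → A} (hδ' : ∀ m, p • δ' m = δ' (m + 1)) {ψ : ℤ → H}
    (hψ0 : ∀ m : ℤ, m < 0 → ψ m = 0) (hD0 : ∀ i, D i 0 = 0) (r : ℕ) (i : ℕ × ℕ) (M : ℕ) :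
    csR p pr α ζ D δ' ψ (-(r : ℤ)) i (r + M) = pr (δ' (-(r : ℤ)) - dg α ζ i)
      (Rt p r (csR p pr α ζ D δ' ψ 0 (p ^ r * i.1, p ^ r * i.2) M)) := by
  have hdegN : ∀ (n : ℤ) (s : ℕ), p ^ s • δ' n = δ' (n + s) := by
    intro n s
    induction s with
    | zero => simp
    | succ s ih =>
      rw [pow_succ', mul_smul, ih, hδ']
      congr 1
      push_cast
      ring
  unfold csR
  rw [Finset.sum_range_add, Finset.sum_eq_zero, zero_add, Rt_sum, map_sum]
  · refine Finset.sum_congr rfl fun s _ => ?_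
    have h1 : δ' 0 - dg α ζ (p ^ r * i.1, p ^ r * i.2) =
        p ^ r • (δ' (-(r : ℤ)) - dg α ζ i) := by
      rw [smul_sub, hdegN, dg_smul]
      congr 2
      ring
    have h2 : -(r : ℤ) + ((r + s : ℕ) : ℤ) = 0 + s := by
      push_cast
      ring
    have e1 : ∀ a : ℕ, p ^ (r + s) * a = p ^ s * (p ^ r * a) := fun a => by
      rw [pow_add]
      ring
    rw [h1, hpr.frobN, Rt_Rt, h2, e1, e1]
  · intro s hs
    rw [Finset.mem_range] at hs
    rw [hψ0 _ (by omega), hD0, Rt_zero, map_zero]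

/-- **The derived system.** -/
theorem derived (hpr : GrP p v pr) (hD : JetsC p v pr K α ζ D)
    (h : SysR p v pr K α ζ D δ φ) (n₀ : ℤ) {e₀ : ℕ} (he₀ : ¬ p ∣ e₀) {δ' : ℤ → A}
    (hδ' : ∀ m, p • δ' m = δ' (m + 1))
    (hδ0 : ∀ m : ℕ, δ' m = δ (n₀ + m) - dg α ζ (0, p ^ m * e₀)) {ψ : ℤ → H}
    (hψ : ∀ m : ℕ, ψ m = D (0, p ^ m * e₀) (φ (n₀ + m))) (hψ0 : ∀ m : ℤ, m < 0 → ψ m = 0) :
    SysR p v pr K α ζ D δ' ψ where
  deg := hδ'
  mem := by
    intro m
    rcases lt_or_ge m 0 with hm | hm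
    · rw [hψ0 m hm]
      exact zero_mem _
    · obtain ⟨m, rfl⟩ := Int.eq_ofNat_of_zero_le hm
      rw [hψ]
      exact hD.zmem _ _ (h.mem _)
  hom := by
    intro m
    rcases lt_or_ge m 0 with hm | hm
    · rw [hψ0 m hm, map_zero]
    · obtain ⟨m, rfl⟩ := Int.eq_ofNat_of_zero_le hm
      rw [hψ, hδ0]
      exact hD.deg _ _ _ (h.mem _) (h.hom _)
  rr := by
    have hmul : ∀ (c : ℕ) {x : ℕ → H}, Nul v x → Nul v fun M => (c : H) * x M := by
      intro c x hx ε hε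
      obtain ⟨N, hN⟩ := hx ε hε
      refine ⟨N, fun M hM => ((TWM.ge_natCast v c).mul (hN M hM)).mono (by linarith)⟩
    intro m i hi
    rcases lt_or_ge m 0 with hm | hm
    · obtain ⟨r, hr, rfl⟩ : ∃ r : ℕ, 0 < r ∧ m = -(r : ℤ) :=
        ⟨m.natAbs, by omega, by omega⟩
      have hi' : ¬ (p ∣ p ^ r * i.1 ∧ p ∣ p ^ r * i.2 + p ^ 0 * e₀) := by
        rintro ⟨-, h2⟩
        rw [pow_zero, one_mul] at h2
        exact he₀ ((Nat.dvd_add_right ((dvd_pow_self p hr.ne').mul_right i.2)).1 h2)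
      have h1 := h.rr (n₀ + (0 : ℕ)) (p ^ r * i.1, p ^ r * i.2 + p ^ 0 * e₀) hi'
      have h2 := nul_pr p hpr (nul_Rt p (hmul ((p ^ r * i.2 + p ^ 0 * e₀).choose (p ^ 0 * e₀)) h1) r)
        (δ' (-(r : ℤ)) - dg α ζ i)
      intro ε hε
      obtain ⟨N, hN⟩ := h2 ε hε
      refine ⟨r + N, fun M hM => ?_⟩
      obtain ⟨M', rfl⟩ : ∃ M', M = r + M' := ⟨M - r, by omega⟩
      have h3 := hN M' (by omega)
      have h4 := cs_shift (α := α) (ζ := ζ) hpr hδ' hψ0 (fun i => hD.toJets.zero i) r i M'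
      have h5 := derived_pos (p := p) (pr := pr) hD h n₀ e₀ hδ0 hψ 0
        (p ^ r * i.1, p ^ r * i.2) M'
      show v.Ge (-ε) (csR p pr α ζ D δ' ψ (-(r : ℤ)) i (r + M'))
      rw [h4]
      have e0 : ((0 : ℕ) : ℤ) = 0 := rfl
      rw [e0] at h5
      rw [h5]
      exact h3
    · obtain ⟨m, rfl⟩ := Int.eq_ofNat_of_zero_le hm
      have h5 : ∀ M, csR p pr α ζ D δ' ψ m i M = ((i.2 + p ^ m * e₀).choose (p ^ m * e₀) : H) *
          csR p pr α ζ D δ φ (n₀ + m) (i.1, i.2 + p ^ m * e₀) M := fun M =>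
        derived_pos hD h n₀ e₀ hδ0 hψ m i M
      by_cases hi' : p ∣ i.1 ∧ p ∣ i.2 + p ^ m * e₀
      · have hi2 : ¬ p ∣ i.2 := fun h2 => hi ⟨hi'.1, h2⟩
        have hm0 : m = 0 := by
          by_contra hm0
          exact hi2 ((Nat.dvd_add_left ((dvd_pow_self p hm0).mul_right e₀)).1 hi'.2)
        have h6 : ((i.2 + p ^ m * e₀).choose (p ^ m * e₀) : H) = 0 := by
          refine choose_zero (p := p) hi'.2 ?_
          rw [hm0, pow_zero, one_mul]
          exact he₀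
        refine Nul.congr (Nul.zero (v := v)) fun M => ?_
        rw [h5, h6, zero_mul]
      · exact (hmul _ (h.rr (n₀ + m) (i.1, i.2 + p ^ m * e₀) hi')).congr fun M => (h5 M).symm

end SysR

end Sys

end Pool.Agent.TWIV
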