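import Pool.Agent.Lib.TWIV.Mixed
import Pool.Agent.Lib.TWIV.SysR

/-!
# TANK W, leaf (IV), row A5: the mixed lift gives jets with the composition law

`MLift.jetsC`, `exists_jetsC`.
-/

set_option autoImplicit false

open Polynomial

namespace Pool.Agent.TWIV

open Pool.Agent.H15JM (RVal)
open Pool.Agent.D2 (Ctx0)
open Pool.Agent.TWM
open Pool.Agent.TWS (SphC)

universe u

variable {k H : Type u} [Field k] [Field H] [Algebra k H] {v : RVal H} {p : ℕ} [hp : Fact p.Prime]
  [CharP H p] [PerfectRing H p] {A : Type*} [AddCommGroup A] {pr : A → H →ₗ[k] H}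
  {E : IntermediateField k H} {y z : H} {α ζ : A}

/-- The jets of the mixed lift. -/
theorem MLift.jetsC {h : cadj v (cadj v E y) z →ₐ[k] PowerSeries H}
    {hz : cadj v (cadj v E y) z →ₐ[k] PowerSeries (cadj v (cadj v E y) z)}
    (hM : MLift v pr E y z α ζ h hz) :
    JetsC p v pr (cadj v (cadj v E y) z) α ζ (mixD h hz) where
  toJets := hM.jets
  gr := hM.gr
  prc i c x hx := hM.prcD i c hx
  zmem e x hx := by
    rw [hM.zmemD e hx]
    exact SetLike.coe_mem _
  comp m J e x hx := hM.compD m J e hx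

end Pool.Agent.TWIV
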