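import Pool.Agent.Lib.TWIV.Fl2H

/-!
# TANK W, leaf (IV): systems over the graded perfect base, sequences

`x i` (`i ∈ κ` finite) sequences of `H` with `x_i ^ p = ∑ (a x_j + ∑_c lam pr_c x_j) + e_i` up to a
null sequence, `e_i ∈ E`.

* `GrE.pr_mem`: every `pr_c x_i` is in `E` up to a null sequence;
* `GrE.sys_nul`: without scalars `a` every `x_i` is in `E` up to a null sequence;
* `GrE.torsion`: in general every `x_i` is torsion modulo `E`.
-/

set_option autoImplicit false
set_option linter.unusedSectionVars false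

open Polynomial

namespace Pool.Agent.TWIV

open Pool.Agent.H15JM (RVal)
open Pool.Agent.D2 (Ctx0)
open Pool.Agent.TWC (Nul)

universe u

variable {k H : Type u} [Field k] [Field H] [Algebra k H] {v : RVal H} (p : ℕ) [hp : Fact p.Prime]
  [CharP k p] [PerfectRing k p] [CharP H p] [PerfectRing H p]
  {A : Type*} [AddCommGroup A] {pr : A → H →ₗ[k] H} {E : IntermediateField k H}

section Sys

variable {κ : Type*} [Fintype κ]

open Classical in
/-- the coefficients of the relation in degree `c` -/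
noncomputable def Bc (C : Finset A) (a : κ → κ → k) (lam : κ → A → κ → k) (c : A) (i j : κ) : k :=
  a i j + if c ∈ C then lam i c j else 0

/-- the approximations of `pr_c x_i` -/
noncomputable def Ap (pr : A → H →ₗ[k] H) (C : Finset A) (a : κ → κ → k) (lam : κ → A → κ → k)
    (e : κ → H) : ℕ → A → κ → H
  | 0, _, _ => 0
  | M + 1, c, i => pr c (Rt p 1 (∑ j, Bc C a lam (p • c) i j • Ap pr C a lam e M (p • c) j + e i))

theorem Ap_zero (C : Finset A) (a : κ → κ → k) (lam : κ → A → κ → k) (e : κ → H) (c : A) (i : κ) :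
    Ap p pr C a lam e 0 c i = 0 := rfl

theorem Ap_succ (C : Finset A) (a : κ → κ → k) (lam : κ → A → κ → k) (e : κ → H) (M : ℕ) (c : A)
    (i : κ) : Ap p pr C a lam e (M + 1) c i =
      pr c (Rt p 1 (∑ j, Bc C a lam (p • c) i j • Ap p pr C a lam e M (p • c) j + e i)) := rfl

variable (h : GrE p v pr E) (hk : Ctx0 k v) (C : Finset A) (a : κ → κ → k) (lam : κ → A → κ → k)
  {x : κ → ℕ → H} {e : κ → H}

include h

theorem GrE.Ap_mem (he : ∀ i, e i ∈ E) (M : ℕ) (c : A) (i : κ) :
    Ap p pr C a lam e M c i ∈ E := by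
  induction M generalizing c i with
  | zero => exact zero_mem _
  | succ M ih =>
    rw [Ap_succ]
    exact h.mem c _ (h.perf _ (add_mem (sum_mem fun j _ => E.smul_mem (ih _ j)) (he i)))

/-- `pr_c` of the relation `y ^ p = w` -/
theorem GrE.pr_of_pow {y w : H} (hy : y ^ p = w) (c : A) :
    pr c y = pr c (Rt p 1 (pr (p • c) w)) := by
  have h1 := Rt_of_pow p 1 y
  rw [pow_one, hy] at h1
  rw [h.gr.frob, h1]

include hk

/-- the error of the approximation -/
theorem GrE.Ap_ge {n : ℕ} {K ε : ℝ} (hK : ∀ i, v.Ge (-K) (x i n)) (hε : 0 ≤ ε)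
    (hx : ∀ i, v.Ge (-ε) (x i n ^ p - (∑ j, a i j • x j n) -
      (∑ c ∈ C, ∑ j, lam i c j • pr c (x j n)) - e i)) (M : ℕ) (c : A) (i : κ) :
    v.Ge (-(max (K / (p : ℝ) ^ M) ε)) (pr c (x i n) - Ap p pr C a lam e M c i) := by
  classical
  have hp1 : (1 : ℝ) ≤ p := by exact_mod_cast hp.out.one_le
  have hp0 : (0 : ℝ) < p := by linarith
  induction M generalizing c i with
  | zero =>
    rw [Ap_zero, sub_zero, pow_zero, div_one]
    exact (h.gr.ge _ c _ (hK i)).mono (neg_le_neg (le_max_left _ _))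
  | succ M ih =>
    set o : H := x i n ^ p - (∑ j, a i j • x j n) -
      (∑ c ∈ C, ∑ j, lam i c j • pr c (x j n)) - e i with ho
    have h1 : x i n ^ p = (∑ j, a i j • x j n) +
        (∑ c ∈ C, ∑ j, lam i c j • pr c (x j n)) + e i + o := by
      rw [ho]; ring
    have h2 : pr (p • c) (x i n ^ p) =
        (∑ j, Bc C a lam (p • c) i j • pr (p • c) (x j n)) + pr (p • c) (e i) +
          pr (p • c) o := by
      have h3 : pr (p • c) (∑ d ∈ C, ∑ j, lam i d j • pr d (x j n)) =
          ∑ j, (if p • c ∈ C then lam i (p • c) j else 0) • pr (p • c) (x j n) := by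
        rw [map_sum]
        have h4 : ∀ d ∈ C, pr (p • c) (∑ j, lam i d j • pr d (x j n)) =
            if d = p • c then ∑ j, lam i (p • c) j • pr (p • c) (x j n) else 0 := by
          intro d _
          split_ifs with hd
          · rw [hd, map_sum]
            refine Finset.sum_congr rfl fun j _ => ?_
            rw [map_smul, h.gr.idem]
          · rw [map_sum]
            refine Finset.sum_eq_zero fun j _ => ?_
            rw [map_smul, h.orth _ _ _ (Ne.symm hd), smul_zero]
        rw [Finset.sum_congr rfl h4, Finset.sum_ite_eq']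
        split_ifs with hc
        · rfl
        · simp
      rw [h1, map_add, map_add, map_add, h3, map_sum]
      congr 2
      rw [← Finset.sum_add_distrib]
      refine Finset.sum_congr rfl fun j _ => ?_
      rw [map_smul, Bc, add_smul]
    have h5 : pr c (x i n) - Ap p pr C a lam e (M + 1) c i =
        pr c (Rt p 1 ((∑ j, Bc C a lam (p • c) i j •
          (pr (p • c) (x j n) - Ap p pr C a lam e M (p • c) j)) + pr (p • c) o)) := by
      have h6 : pr c (Rt p 1 (∑ j, Bc C a lam (p • c) i j • Ap p pr C a lam e M (p • c) j +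
          e i)) = pr c (Rt p 1 (∑ j, Bc C a lam (p • c) i j • Ap p pr C a lam e M (p • c) j +
          pr (p • c) (e i))) := by
        rw [Rt_add, Rt_add, map_add, map_add, h.gr.frob]
      rw [h.pr_of_pow p rfl c, h2, Ap_succ, h6, ← map_sub, ← Rt_sub]
      congr 2
      simp only [smul_sub, Finset.sum_sub_distrib]
      ring
    rw [h5]
    refine (h.gr.ge _ c _ ?_)
    have h7 : v.Ge (-(max (K / (p : ℝ) ^ M) ε)) ((∑ j, Bc C a lam (p • c) i j •
        (pr (p • c) (x j n) - Ap p pr C a lam e M (p • c) j)) + pr (p • c) o) := by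
      refine RVal.Ge.add (RVal.Ge.sum _ _ fun j _ => ?_) ?_
      · rw [Algebra.smul_def]
        have h8 := RVal.Ge.mul (hk.ge (Bc C a lam (p • c) i j)) (ih (p • c) j)
        rwa [zero_add] at h8
      · exact (h.gr.ge _ _ _ (hx i)).mono (neg_le_neg (le_max_right _ _))
    have h8 := ge_Rt p (n := 1) h7
    rw [pow_one] at h8
    refine h8.mono ?_
    rw [neg_div, neg_le_neg_iff]
    rcases le_total (K / (p : ℝ) ^ M) ε with h9 | h9
    · rw [max_eq_right h9]
      refine (div_le_self hε hp1).trans (le_max_right _ _)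
    · rw [max_eq_left h9, div_div, ← pow_succ]
      exact le_max_left _ _

omit hk in
/-- the words -/
theorem GrE.Ap_step (M : ℕ) (c : A) (i : κ) :
    Ap p pr C a lam e (M + 1) c i - Ap p pr C a lam e M c i ∈
      Submodule.span k (Set.range fun j => pr c (Rt p (M + 1) (e j))) := by
  induction M generalizing c i with
  | zero =>
    have h1 : ∑ j, Bc C a lam (p • c) i j • Ap p pr C a lam e 0 (p • c) j = 0 :=
      Finset.sum_eq_zero fun j _ => by rw [Ap_zero, smul_zero]
    have h2 : Ap p pr C a lam e (0 + 1) c i - Ap p pr C a lam e 0 c i =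
        pr c (Rt p (0 + 1) (e i)) := by
      rw [Ap_succ, Ap_zero, sub_zero, h1, zero_add, zero_add]
    rw [h2]
    exact Submodule.subset_span ⟨i, rfl⟩
  | succ M ih =>
    have h1 : Ap p pr C a lam e (M + 1 + 1) c i - Ap p pr C a lam e (M + 1) c i =
        ∑ j, pr c (Rt p 1 (Bc C a lam (p • c) i j •
          (Ap p pr C a lam e (M + 1) (p • c) j - Ap p pr C a lam e M (p • c) j))) := by
      rw [Ap_succ p C a lam e (M + 1), Ap_succ p C a lam e M, ← map_sub, ← Rt_sub, ← map_sum,
        ← Rt_sum]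
      congr 2
      simp only [smul_sub, Finset.sum_sub_distrib]
      ring
    rw [h1]
    refine sum_mem fun j _ => ?_
    rw [Rt_smul, map_smul]
    refine Submodule.smul_mem _ _ ?_
    have h2 := ih (p • c) j
    generalize Ap p pr C a lam e (M + 1) (p • c) j - Ap p pr C a lam e M (p • c) j = w at h2
    induction h2 using Submodule.span_induction with
    | mem y hy =>
      obtain ⟨l, rfl⟩ := hy
      simp only
      rw [h.gr.frob, Rt_Rt, add_comm 1]
      exact Submodule.subset_span ⟨l, rfl⟩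
    | zero => rw [Rt_zero, map_zero]; exact zero_mem _
    | add y z _ _ hy hz => rw [Rt_add, map_add]; exact add_mem hy hz
    | smul b y _ hy => rw [Rt_smul, map_smul]; exact Submodule.smul_mem _ _ hy

/-- **The components are in `E`.** -/
theorem GrE.pr_mem (he : ∀ i, e i ∈ E) (hx : ∀ i, Nul v fun n => x i n ^ p -
    (∑ j, a i j • x j n) - (∑ c ∈ C, ∑ j, lam i c j • pr c (x j n)) - e i) (c : A) (i : κ) :
    ∃ w ∈ E, Nul v fun n => pr c (x i n) - w := by
  classical
  have hp0 : (0 : ℝ) < p := by exact_mod_cast hp.out.pos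
  choose N hN using fun j => h.fin (e j) (he j) c
  set n₀ := Finset.univ.sup N with hn₀
  have h1 : ∀ M, n₀ ≤ M → ∀ y ∈ Submodule.span k
      (Set.range fun j => pr c (Rt p (M + 1) (e j))), v.Ge 0 y := by
    intro M hM y hy
    induction hy using Submodule.span_induction with
    | mem y hy =>
      obtain ⟨j, rfl⟩ := hy
      exact hN j (M + 1) (((Finset.le_sup (f := N) (Finset.mem_univ j)).trans hM).trans
        (Nat.le_succ M))
    | zero => exact RVal.Ge.zero
    | add y z _ _ hy hz => exact hy.add hz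
    | smul b y _ hy =>
      rw [Algebra.smul_def]
      have h2 := RVal.Ge.mul (hk.ge b) hy
      rwa [zero_add] at h2
  have h2 : ∀ M, v.Ge 0 (Ap p pr C a lam e (n₀ + M) c i - Ap p pr C a lam e n₀ c i) := by
    intro M
    induction M with
    | zero => rw [add_zero, sub_self]; exact RVal.Ge.zero
    | succ M ih =>
      have h3 : Ap p pr C a lam e (n₀ + (M + 1)) c i - Ap p pr C a lam e n₀ c i =
          (Ap p pr C a lam e (n₀ + M + 1) c i - Ap p pr C a lam e (n₀ + M) c i) +
          (Ap p pr C a lam e (n₀ + M) c i - Ap p pr C a lam e n₀ c i) := by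
        rw [← add_assoc]
        ring
      rw [h3]
      exact (h1 (n₀ + M) (by omega) _ (h.Ap_step p C a lam (n₀ + M) c i)).add ih
  refine ⟨Ap p pr C a lam e n₀ c i, h.Ap_mem p C a lam he n₀ c i, fun ε hε => ?_⟩
  choose N' hN' using fun j => hx j ε hε
  refine ⟨Finset.univ.sup N', fun n hn => ?_⟩
  have h4 : ∀ j, v.Ge (-ε) (x j n ^ p - (∑ l, a j l • x l n) -
      (∑ c ∈ C, ∑ l, lam j c l • pr c (x l n)) - e j) := fun j =>
    hN' j n ((Finset.le_sup (f := N') (Finset.mem_univ j)).trans hn)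
  obtain ⟨K, hK0, hK⟩ : ∃ K : ℝ, 0 ≤ K ∧ ∀ i, v.Ge (-K) (x i n) := by
    refine ⟨∑ i, |v (x i n)|, Finset.sum_nonneg fun i _ => abs_nonneg _, fun i h0 => ?_⟩
    have h3 := Finset.single_le_sum (f := fun i => |v (x i n)|) (fun i _ => abs_nonneg _)
      (Finset.mem_univ i)
    have h4 := neg_abs_le (v (x i n))
    linarith
  obtain ⟨M, hM⟩ := exists_nat_gt (K / ε)
  have h5 := h.Ap_ge p hk C a lam (e := e) hK hε.le h4 (n₀ + M) c i
  have h6 : K / (p : ℝ) ^ (n₀ + M) ≤ ε := by
    rw [div_le_iff₀ (by positivity)]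
    have h6 : (M : ℝ) ≤ (p : ℝ) ^ (n₀ + M) := by
      have h7 : M < p ^ M := Nat.lt_pow_self hp.out.one_lt
      have h8 : p ^ M ≤ p ^ (n₀ + M) := Nat.pow_le_pow_right hp.out.pos (by omega)
      exact_mod_cast (h7.le.trans h8)
    rw [div_lt_iff₀ hε] at hM
    nlinarith
  rw [max_eq_right h6] at h5
  have h7 : pr c (x i n) - Ap p pr C a lam e n₀ c i =
      (pr c (x i n) - Ap p pr C a lam e (n₀ + M) c i) +
      (Ap p pr C a lam e (n₀ + M) c i - Ap p pr C a lam e n₀ c i) := by ring
  change v.Ge (-ε) (pr c (x i n) - Ap p pr C a lam e n₀ c i)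
  rw [h7]
  exact h5.add ((h2 M).mono (by linarith))

omit h in
theorem nul_smul' (b : k) {x : ℕ → H} (hx : Nul v x) : Nul v fun n => b • x n := by
  intro ε hε
  obtain ⟨N, hN⟩ := hx ε hε
  refine ⟨N, fun n hn => ?_⟩
  change v.Ge (-ε) (b • x n)
  rw [Algebra.smul_def]
  have h1 := RVal.Ge.mul (hk.ge b) (hN n hn)
  rwa [zero_add] at h1

omit h hk in
theorem nul_Rt' {x : ℕ → H} (hx : Nul v x) : Nul v fun n => Rt p 1 (x n) := by
  intro ε hε
  obtain ⟨N, hN⟩ := hx ε hε
  refine ⟨N, fun n hn => ?_⟩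
  have h1 := ge_Rt p (n := 1) (hN n hn)
  refine h1.mono ?_
  have hp1 : (1 : ℝ) ≤ p := by exact_mod_cast hp.out.one_le
  rw [pow_one, neg_div, neg_le_neg_iff]
  exact div_le_self hε.le hp1

/-- the relation with the components replaced by elements of `E` -/
theorem GrE.scal (he : ∀ i, e i ∈ E) (hx : ∀ i, Nul v fun n => x i n ^ p -
    (∑ j, a i j • x j n) - (∑ c ∈ C, ∑ j, lam i c j • pr c (x j n)) - e i) :
    ∃ e' : κ → H, (∀ i, e' i ∈ E) ∧
      ∀ i, Nul v fun n => x i n ^ p - (∑ j, a i j • x j n) - e' i := by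
  classical
  choose w hw hwn using fun (q : A × κ) => h.pr_mem p hk C a lam he hx q.1 q.2
  refine ⟨fun i => (∑ c ∈ C, ∑ j, lam i c j • w (c, j)) + e i, fun i =>
    add_mem (sum_mem fun c _ => sum_mem fun j _ => E.smul_mem (hw _)) (he i), fun i => ?_⟩
  have h1 : Nul v fun n => ∑ c ∈ C, ∑ j, lam i c j • (pr c (x j n) - w (c, j)) :=
    Nul.sum C (fun c n => ∑ j, lam i c j • (pr c (x j n) - w (c, j))) fun c _ =>
      Nul.sum Finset.univ (fun j n => lam i c j • (pr c (x j n) - w (c, j))) fun j _ =>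
        nul_smul' hk _ (hwn (c, j))
  refine ((hx i).add h1).congr fun n => ?_
  simp only [smul_sub, Finset.sum_sub_distrib]
  ring

/-- **Systems without scalars**: the solutions are in `E`. -/
theorem GrE.sys_nul (he : ∀ i, e i ∈ E) (hx : ∀ i, Nul v fun n => x i n ^ p -
    (∑ c ∈ C, ∑ j, lam i c j • pr c (x j n)) - e i) (i : κ) :
    ∃ w ∈ E, Nul v fun n => x i n - w := by
  classical
  obtain ⟨e', he', h1⟩ := h.scal p hk C (fun _ _ => 0) lam he (x := x) fun i => (hx i).congr
    fun n => by simp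
  refine ⟨Rt p 1 (e' i), h.perf _ (he' i), ?_⟩
  refine (nul_Rt' p (h1 i)).congr fun n => ?_
  have h2 := Rt_of_pow p 1 (x i n)
  rw [pow_one] at h2
  simp only [zero_smul, Finset.sum_const_zero, sub_zero]
  rw [Rt_sub, h2]

end Sys

/-! ## The quotient of the sequences -/

section Quot

variable (k) in
/-- The sequences which are in `E` up to a null sequence. -/
def EN (hk : Ctx0 k v) (E : IntermediateField k H) : Submodule k (ℕ → H) where
  carrier := {x | ∃ e ∈ E, Nul v fun n => x n - e}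
  add_mem' := by
    rintro x y ⟨e, he, h1⟩ ⟨f, hf, h2⟩
    refine ⟨e + f, add_mem he hf, (h1.add h2).congr fun n => ?_⟩
    change _ = x n + y n - (e + f)
    ring
  zero_mem' := ⟨0, zero_mem E, Nul.zero.congr fun n => by
    change (0 : H) = 0 - 0
    rw [sub_zero]⟩
  smul_mem' := by
    rintro a x ⟨e, he, h1⟩
    refine ⟨a • e, E.smul_mem he, (nul_smul' hk a h1).congr fun n => ?_⟩
    change a • (x n - e) = a • x n - a • e
    rw [smul_sub]

/-- `F` on sequences -/
def frN (k : Type u) {H : Type u} [Field k] [Field H] [Algebra k H] (p : ℕ) [Fact p.Prime]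
    [CharP k p] [CharP H p] : (ℕ → H) →ₛₗ[frobenius k p] (ℕ → H) where
  toFun x n := x n ^ p
  map_add' x y := by
    funext n
    exact add_pow_char (x n) (y n) p
  map_smul' a x := by
    funext n
    change (a • x n) ^ p = (frobenius k p a) • x n ^ p
    rw [Algebra.smul_def, mul_pow, Algebra.smul_def, frobenius_def, map_pow]

variable (hk : Ctx0 k v)

/-- `F` on the quotient -/
noncomputable def fN (E : IntermediateField k H) :
    ((ℕ → H) ⧸ EN k hk E) →ₛₗ[frobenius k p] ((ℕ → H) ⧸ EN k hk E) :=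
  Submodule.mapQ (EN k hk E) (EN k hk E) (frN k p) fun x hx => by
    obtain ⟨e, he, h1⟩ := hx
    refine ⟨e ^ p, pow_mem he p, (h1.pow p).congr fun n => ?_⟩
    exact sub_pow_char (x n) e

theorem fN_mk (x : ℕ → H) : fN p hk E ((EN k hk E).mkQ x) =
    (EN k hk E).mkQ (fun n => x n ^ p) := rfl

theorem fN_it (j : ℕ) (x : ℕ → H) : (fN p hk E)^[j] ((EN k hk E).mkQ x) =
    (EN k hk E).mkQ (fun n => x n ^ p ^ j) := by
  induction j generalizing x with
  | zero =>
    simp only [pow_zero, pow_one]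
    rfl
  | succ j ih =>
    rw [Function.iterate_succ_apply, fN_mk, ih]
    congr 1
    funext n
    rw [← pow_mul, ← pow_succ']

variable {κ : Type*} [Fintype κ] (h : GrE p v pr E) (C : Finset A) (a : κ → κ → k)
  (lam : κ → A → κ → k) {x : κ → ℕ → H} {e : κ → H}

include h hk

/-- **(H1_E)**: the combinations of the solutions of a system with scalars are torsion. -/
theorem GrE.torsion_lin (he : ∀ i, e i ∈ E) (hx : ∀ i, Nul v fun n => x i n ^ p -
    (∑ j, a i j • x j n) - (∑ c ∈ C, ∑ j, lam i c j • pr c (x j n)) - e i) {y : ℕ → H}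
    {s : κ → k} {e₀ : H} (he₀ : e₀ ∈ E) (hy : Nul v fun n => y n - (∑ j, s j • x j n) - e₀) :
    ∃ (N : ℕ) (b : ℕ → k), (∃ j, j ≤ N ∧ b j ≠ 0) ∧ ∃ w ∈ E,
      Nul v fun n => (∑ j ∈ Finset.range (N + 1), b j • y n ^ p ^ j) - w := by
  classical
  obtain ⟨e', he', h1⟩ := h.scal p hk C a lam he hx
  set q := (EN k hk E).mkQ with hq
  set U : Submodule k ((ℕ → H) ⧸ EN k hk E) := Submodule.span k (Set.range fun j => q (x j))
    with hU
  have : FiniteDimensional k U := FiniteDimensional.span_of_finite k (Set.finite_range _)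
  have hlin : ∀ s : κ → k, ∑ l, s l • (EN k hk E).mkQ (x l) =
      (EN k hk E).mkQ (fun n => ∑ l, s l • x l n) := by
    intro s
    have h5 : (fun n => ∑ l, s l • x l n) = ∑ l, s l • x l := by
      funext n
      simp
    rw [h5, map_sum]
    exact Finset.sum_congr rfl fun l _ => (map_smul _ _ _).symm
  have h2 : ∀ j, fN p hk E (q (x j)) ∈ U := by
    intro j
    have h3 : fN p hk E (q (x j)) = ∑ l, a j l • q (x l) := by
      rw [hq, fN_mk, ← sub_eq_zero, hlin, ← map_sub, Submodule.mkQ_apply,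
        Submodule.Quotient.mk_eq_zero]
      exact ⟨e' j, he' j, (h1 j).congr fun n => rfl⟩
    rw [h3]
    exact sum_mem fun l _ => U.smul_mem _ (Submodule.subset_span ⟨l, rfl⟩)
  have h3 : U.map (fN p hk E) ≤ U := by
    rw [hU, Submodule.map_span_le]
    rintro _ ⟨j, rfl⟩
    exact h2 j
  have hyU : q y ∈ U := by
    have h4 : q y = ∑ l, s l • q (x l) := by
      rw [hq, ← sub_eq_zero, hlin, ← map_sub, Submodule.mkQ_apply, Submodule.Quotient.mk_eq_zero]
      exact ⟨e₀, he₀, hy.congr fun n => rfl⟩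
    rw [h4]
    exact sum_mem fun l _ => U.smul_mem _ (Submodule.subset_span ⟨l, rfl⟩)
  have h4 : ∀ j, (fN p hk E)^[j] (q y) ∈ U := by
    intro j
    induction j with
    | zero => exact hyU
    | succ j ih =>
      rw [Function.iterate_succ_apply']
      exact h3 (Submodule.mem_map_of_mem ih)
  set N := Module.finrank k U with hN
  have h5 : ¬ LinearIndependent k
      (fun j : Fin (N + 1) => (⟨(fN p hk E)^[(j : ℕ)] (q y), h4 j⟩ : U)) := by
    intro h6
    have h7 := h6.fintype_card_le_finrank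
    rw [Fintype.card_fin] at h7
    omega
  rw [Fintype.not_linearIndependent_iff] at h5
  obtain ⟨g, hg, j₀, hj₀⟩ := h5
  refine ⟨N, fun j => if hj : j < N + 1 then g ⟨j, hj⟩ else 0, ⟨j₀, Nat.lt_succ_iff.1 j₀.2, ?_⟩, ?_⟩
  · simp only [j₀.2, dif_pos]
    exact hj₀
  have h6 := congrArg Subtype.val hg
  simp only [Submodule.coe_sum, Submodule.coe_smul, Submodule.coe_zero] at h6
  have h7 : q (fun n => ∑ j ∈ Finset.range (N + 1),
      (if hj : j < N + 1 then g ⟨j, hj⟩ else 0) • y n ^ p ^ j) = 0 := by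
    have h8 : (fun n => ∑ j ∈ Finset.range (N + 1),
        (if hj : j < N + 1 then g ⟨j, hj⟩ else 0) • y n ^ p ^ j) =
        ∑ j : Fin (N + 1), g j • (fun n => y n ^ p ^ (j : ℕ)) := by
      funext n
      rw [Finset.sum_apply, Finset.sum_range]
      refine Finset.sum_congr rfl fun j _ => ?_
      simp only [j.2, dif_pos]
      rfl
    rw [h8, map_sum, ← h6]
    refine Finset.sum_congr rfl fun j _ => ?_
    rw [map_smul, hq, fN_it]
  rw [hq, Submodule.mkQ_apply, Submodule.Quotient.mk_eq_zero] at h7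
  exact h7

/-- **(H1_E)**: the systems with scalars are torsion. -/
theorem GrE.torsion (he : ∀ i, e i ∈ E) (hx : ∀ i, Nul v fun n => x i n ^ p -
    (∑ j, a i j • x j n) - (∑ c ∈ C, ∑ j, lam i c j • pr c (x j n)) - e i) (i : κ) :
    ∃ (N : ℕ) (b : ℕ → k), (∃ j, j ≤ N ∧ b j ≠ 0) ∧ ∃ w ∈ E,
      Nul v fun n => (∑ j ∈ Finset.range (N + 1), b j • x i n ^ p ^ j) - w := by
  classical
  refine h.torsion_lin p hk C a lam he hx (s := fun j => if j = i then 1 else 0)
    (zero_mem E) (Nul.zero.congr fun n => ?_)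
  simp

end Quot

/-! ## The operators `1`, `pr_c` -/

section AA

/-- The span of `1` and of the `pr_c`. -/
def AA (pr : A → H →ₗ[k] H) : Submodule k (Module.End k H) :=
  Submodule.span k (insert 1 (Set.range pr))

theorem AA_one : (1 : Module.End k H) ∈ AA pr :=
  Submodule.subset_span (Set.mem_insert _ _)

theorem AA_pr (c : A) : (pr c : Module.End k H) ∈ AA pr :=
  Submodule.subset_span (Set.mem_insert_of_mem _ ⟨c, rfl⟩)

theorem AA_exists {φ : Module.End k H} (hφ : φ ∈ AA pr) : ∃ (a : k) (C : Finset A) (lam : A → k),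
    (∀ c, c ∉ C → lam c = 0) ∧ ∀ x, φ x = a • x + ∑ c ∈ C, lam c • pr c x := by
  classical
  rw [AA] at hφ
  induction hφ using Submodule.span_induction with
  | mem φ hφ =>
    rcases Set.mem_insert_iff.1 hφ with rfl | ⟨c, rfl⟩
    · exact ⟨1, ∅, fun _ => 0, fun _ _ => rfl, fun x => by simp⟩
    · refine ⟨0, {c}, fun d => if d = c then 1 else 0, fun d hd => ?_, fun x => ?_⟩
      · exact if_neg (fun h => hd (Finset.mem_singleton.2 h))
      · simp
  | zero => exact ⟨0, ∅, fun _ => 0, fun _ _ => rfl, fun x => by simp⟩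
  | add φ ψ _ _ h1 h2 =>
    obtain ⟨a, C, lam, hC, h1⟩ := h1
    obtain ⟨b, D, mu, hD, h2⟩ := h2
    refine ⟨a + b, C ∪ D, fun c => lam c + mu c, fun c hc => ?_, fun x => ?_⟩
    · rw [Finset.mem_union, not_or] at hc
      change lam c + mu c = 0
      rw [hC c hc.1, hD c hc.2, add_zero]
    · rw [LinearMap.add_apply, h1, h2]
      have e1 : ∑ c ∈ C, lam c • pr c x = ∑ c ∈ C ∪ D, lam c • pr c x :=
        Finset.sum_subset Finset.subset_union_left fun c _ hc => by rw [hC c hc, zero_smul]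
      have e2 : ∑ c ∈ D, mu c • pr c x = ∑ c ∈ C ∪ D, mu c • pr c x :=
        Finset.sum_subset Finset.subset_union_right fun c _ hc => by rw [hD c hc, zero_smul]
      rw [e1, e2]
      simp only [add_smul, Finset.sum_add_distrib]
      abel
  | smul b φ _ h1 =>
    obtain ⟨a, C, lam, hC, h1⟩ := h1
    refine ⟨b * a, C, fun c => b * lam c, fun c hc => by
      change b * lam c = 0
      rw [hC c hc, mul_zero], fun x => ?_⟩
    rw [LinearMap.smul_apply, h1, smul_add, Finset.smul_sum, mul_smul]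
    simp only [mul_smul]

/-- a finite family of operators -/
theorem AA_fam {κ : Type*} [Fintype κ] {φ : κ → κ → Module.End k H}
    (hφ : ∀ i j, φ i j ∈ AA pr) : ∃ (a : κ → κ → k) (C : Finset A) (lam : κ → A → κ → k),
    ∀ i j x, φ i j x = a i j • x + ∑ c ∈ C, lam i c j • pr c x := by
  classical
  choose a C lam hC h1 using fun (q : κ × κ) => AA_exists (hφ q.1 q.2)
  refine ⟨fun i j => a (i, j), Finset.univ.biUnion C, fun i c j => lam (i, j) c, fun i j x => ?_⟩
  rw [h1 (i, j) x]
  congr 1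
  exact Finset.sum_subset (Finset.subset_biUnion_of_mem C (Finset.mem_univ (i, j))) fun c _ hc => by
    rw [hC (i, j) c hc, zero_smul]

variable {κ : Type*} [Fintype κ] (h : GrE p v pr E) (hk : Ctx0 k v) {x : κ → ℕ → H} {e : κ → H}
  {φ : κ → κ → Module.End k H}

include h hk

/-- **(H1_E)**: a finite family which is dominated is torsion modulo `E`. -/
theorem GrE.h1 (hφ : ∀ i j, φ i j ∈ AA pr) (he : ∀ i, e i ∈ E)
    (hx : ∀ i, Nul v fun n => x i n ^ p - (∑ j, φ i j (x j n)) - e i) (i : κ) :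
    ∃ (N : ℕ) (b : ℕ → k), (∃ j, j ≤ N ∧ b j ≠ 0) ∧ ∃ w ∈ E,
      Nul v fun n => (∑ j ∈ Finset.range (N + 1), b j • x i n ^ p ^ j) - w := by
  obtain ⟨a, C, lam, h1⟩ := AA_fam hφ
  refine h.torsion p hk C a lam he (fun i => (hx i).congr fun n => ?_) i
  have h2 : ∑ j, φ i j (x j n) = (∑ j, a i j • x j n) +
      ∑ c ∈ C, ∑ j, lam i c j • pr c (x j n) := by
    rw [Finset.sum_comm (s := C), ← Finset.sum_add_distrib]
    exact Finset.sum_congr rfl fun j _ => h1 i j (x j n)
  rw [h2]
  ring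

/-- **(H1_E)** for the combinations `∑ ψ_j x_j` of a dominated family. -/
theorem GrE.h1_lin (hφ : ∀ i j, φ i j ∈ AA pr) (he : ∀ i, e i ∈ E)
    (hx : ∀ i, Nul v fun n => x i n ^ p - (∑ j, φ i j (x j n)) - e i)
    {ψ : κ → Module.End k H} (hψ : ∀ j, ψ j ∈ AA pr) :
    ∃ (N : ℕ) (b : ℕ → k), (∃ j, j ≤ N ∧ b j ≠ 0) ∧ ∃ w ∈ E,
      Nul v fun n => (∑ j ∈ Finset.range (N + 1), b j • (∑ i, ψ i (x i n)) ^ p ^ j) - w := by
  classical
  obtain ⟨a, C, lam, h1⟩ := AA_fam hφ
  have h2 : ∀ i, Nul v fun n => x i n ^ p - (∑ j, a i j • x j n) -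
      (∑ c ∈ C, ∑ j, lam i c j • pr c (x j n)) - e i := by
    intro i
    refine (hx i).congr fun n => ?_
    have h2 : ∑ j, φ i j (x j n) = (∑ j, a i j • x j n) +
        ∑ c ∈ C, ∑ j, lam i c j • pr c (x j n) := by
      rw [Finset.sum_comm (s := C), ← Finset.sum_add_distrib]
      exact Finset.sum_congr rfl fun j _ => h1 i j (x j n)
    rw [h2]
    ring
  choose s D mu hD h3 using fun j => AA_exists (hψ j)
  choose w hw hwn using fun (q : A × κ) => h.pr_mem p hk C a lam he h2 q.1 q.2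
  refine h.torsion_lin p hk C a lam he h2 (s := s)
    (e₀ := ∑ j, ∑ c ∈ D j, mu j c • w (c, j))
    (sum_mem fun j _ => sum_mem fun c _ => E.smul_mem (hw _)) ?_
  have h4 : Nul v fun n => ∑ j, ∑ c ∈ D j, mu j c • (pr c (x j n) - w (c, j)) :=
    Nul.sum Finset.univ (fun j n => ∑ c ∈ D j, mu j c • (pr c (x j n) - w (c, j))) fun j _ =>
      Nul.sum (D j) (fun c n => mu j c • (pr c (x j n) - w (c, j))) fun c _ =>
        nul_smul' hk _ (hwn (c, j))
  refine h4.congr fun n => ?_
  simp only [h3, smul_sub, Finset.sum_sub_distrib, Finset.sum_add_distrib]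
  ring

/-- the components of a dominated family -/
theorem GrE.h1_pr (hφ : ∀ i j, φ i j ∈ AA pr) (he : ∀ i, e i ∈ E)
    (hx : ∀ i, Nul v fun n => x i n ^ p - (∑ j, φ i j (x j n)) - e i) (c : A) (i : κ) :
    ∃ w ∈ E, Nul v fun n => pr c (x i n) - w := by
  obtain ⟨a, C, lam, h1⟩ := AA_fam hφ
  refine h.pr_mem p hk C a lam he (fun i => (hx i).congr fun n => ?_) c i
  have h2 : ∑ j, φ i j (x j n) = (∑ j, a i j • x j n) +
      ∑ c ∈ C, ∑ j, lam i c j • pr c (x j n) := by
    rw [Finset.sum_comm (s := C), ← Finset.sum_add_distrib]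
    exact Finset.sum_congr rfl fun j _ => h1 i j (x j n)
  rw [h2]
  ring

/-- a homogeneous element of a dominated family is in `E` -/
theorem GrE.h1_hom (hφ : ∀ i j, φ i j ∈ AA pr) (he : ∀ i, e i ∈ E)
    (hx : ∀ i, Nul v fun n => x i n ^ p - (∑ j, φ i j (x j n)) - e i) {c : A} {i : κ}
    (hc : Nul v fun n => pr c (x i n) - x i n) : ∃ w ∈ E, Nul v fun n => x i n - w := by
  obtain ⟨w, hw, h1⟩ := h.h1_pr p hk hφ he hx c i
  exact ⟨w, hw, (h1.sub hc).congr fun n => by ring⟩

end AA

end Pool.Agent.TWIV
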