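import Pool.Agent.Lib.TWIV.W3
import Pool.Agent.Lib.TWIV.Contr

/-!
# TANK W, leaf (IV): the dominated families of limits of the graded base

`E` the closure of the field of the monomials `M g`, `g ∈ G`, `G` `p`-divisible; operators `φ` of `Ω`
of norm `≤ 0` with `φ (M g) ∈ k M g`.

* `DgE v E G M φ`: such an operator, `E` stable; `Far p v G M π`: `π (M (g / p ^ n))` is integral
  for large `n`;
* `MonE.pr_lim`: `m_k ^ p = ∑ φ_kl m_l + e_k` implies `π m_k ∈ E`;
* `MonE.torsion`: `φ_kl ∈ k + span of such π`: the `m_k` are torsion over `k{Fr}` modulo `E`;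
* `GrP.dgE`, `GrP.far`: the projections `pr c` of a graded field.
-/

set_option autoImplicit false
set_option linter.unusedSectionVars false

open Polynomial

namespace Pool.Agent.TWIV

open Pool.Agent.H15JM (RVal)
open Pool.Agent.LU1 (VPos adj)
open Pool.Agent.D2 (Ctx0)
open Pool.Agent.D2P (hen clI mem_clI)
open Pool.Agent.TWM Pool.Agent.TWC Pool.Agent.TWS

universe u

variable {k Ω : Type u} [Field k] [Field Ω] [Algebra k Ω] {v : RVal Ω} [Fact (Ctx0 k v)]
  {E : IntermediateField k Ω} {G : AddSubgroup ℝ} {M : ℝ → Ω} {p : ℕ}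

/-- The base of the monomials. -/
structure MonE (p : ℕ) (v : RVal Ω) (E : IntermediateField k Ω) (G : AddSubgroup ℝ)
    (M : ℝ → Ω) : Prop where
  ms : MS v G M
  div : ∀ g ∈ G, g / p ∈ G
  eq : E = PM v ⊥ G M

/-- A diagonal operator. -/
structure DgE (v : RVal Ω) (E : IntermediateField k Ω) (G : AddSubgroup ℝ) (M : ℝ → Ω)
    (φ : Module.End k Ω) : Prop where
  ge : ∀ (x : Ω) (b : ℝ), v.Ge b x → v.Ge b (φ x)
  mem : ∀ x ∈ E, φ x ∈ E
  mon : ∀ g ∈ G, ∃ c : k, φ (M g) = c • M g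

/-- The projections of the far monomials are integral. -/
def Far (p : ℕ) (v : RVal Ω) (G : AddSubgroup ℝ) (M : ℝ → Ω) (π : Module.End k Ω) : Prop :=
  ∀ g ∈ G, ∃ n₀ : ℕ, ∀ n, n₀ ≤ n → v.Ge 0 (π (M (g / (p : ℝ) ^ n)))

namespace DgE

variable {φ ψ : Module.End k Ω}

theorem one : DgE v E G M (1 : Module.End k Ω) :=
  ⟨fun _ _ h => h, fun _ h => h, fun g _ => ⟨1, by rw [one_smul]; rfl⟩⟩

theorem zero : DgE v E G M (0 : Module.End k Ω) :=
  ⟨fun _ _ _ => RVal.Ge.zero, fun _ _ => zero_mem E, fun g _ => ⟨0, by rw [zero_smul]; rfl⟩⟩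

theorem add (h : DgE v E G M φ) (h' : DgE v E G M ψ) : DgE v E G M (φ + ψ) where
  ge x b hx := (h.ge x b hx).add (h'.ge x b hx)
  mem x hx := add_mem (h.mem x hx) (h'.mem x hx)
  mon g hg := by
    obtain ⟨c, hc⟩ := h.mon g hg
    obtain ⟨d, hd⟩ := h'.mon g hg
    exact ⟨c + d, by rw [LinearMap.add_apply, hc, hd, add_smul]⟩

theorem smul (a : k) (h : DgE v E G M φ) : DgE v E G M (a • φ) where
  ge x b hx := by
    rw [LinearMap.smul_apply, Algebra.smul_def]
    have := ((Fact.out : Ctx0 k v).ge a).mul (h.ge x b hx)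
    rwa [zero_add] at this
  mem x hx := E.smul_mem (h.mem x hx)
  mon g hg := by
    obtain ⟨c, hc⟩ := h.mon g hg
    exact ⟨a * c, by rw [LinearMap.smul_apply, hc, mul_smul]⟩

/-- The restriction to `E`. -/
noncomputable def opr (h : DgE v E G M φ) : Opr v E :=
  mkOpr v E φ h.mem (fun x _ y _ => map_add φ x y) (fun a x _ => map_smul φ a x)
    fun x _ b hb => h.ge x b hb

theorem fn_opr (h : DgE v E G M φ) {x : Ω} (hx : x ∈ E) : fn h.opr x = φ x := fn_mkOpr hx

end DgE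

namespace MonE

variable (W : MonE p v E G M)

include W

theorem div_pow {g : ℝ} (hg : g ∈ G) (n : ℕ) : g / (p : ℝ) ^ n ∈ G := by
  induction n with
  | zero => rwa [pow_zero, div_one]
  | succ n ih =>
    rw [pow_succ, ← div_div]
    exact W.div _ ih

theorem mon_mem {g : ℝ} (hg : g ∈ G) : M g ∈ E := by
  rw [W.eq]
  exact PM.mon hg

theorem cld : Cld v E := by
  rw [W.eq]
  exact PM.cld

/-- The elements of `E` are near to sums of monomials. -/
theorem dense {x : Ω} (hx : x ∈ E) (c : ℝ) : ∃ (S : Finset ℝ) (a : ℝ → k),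
    (∀ g ∈ S, g ∈ G) ∧ v.Ge c (x - ∑ g ∈ S, a g • M g) := by
  have hM : MonG v (⊥ : IntermediateField k Ω) G M := ⟨W.ms, fun g hg h => by
    obtain ⟨y, hy, hy0, rfl⟩ := h
    obtain ⟨c, rfl⟩ := IntermediateField.mem_bot.1 hy
    have hc : c ≠ 0 := fun h => hy0 (by rw [h, map_zero])
    rw [(Fact.out : Ctx0 k v).triv c hc, W.ms.zero]
    exact one_mem _⟩
  rw [W.eq] at hx
  obtain ⟨Lf, hL, h1⟩ := dense_PM hM (Imm.refl _) hx c
  choose a ha using fun g => IntermediateField.mem_bot.1 (hL.mem g)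
  refine ⟨Lf.support, a, fun g hg => (hL.rep g (Finsupp.mem_support_iff.1 hg)).1, ?_⟩
  have e : evM M Lf = ∑ g ∈ Lf.support, a g • M g :=
    Finset.sum_congr rfl fun g _ => by rw [Algebra.smul_def, ha]
  rwa [e] at h1

theorem Orb_le {g : ℝ} (hg : g ∈ G) (h₀ : ℕ) {x : Ω} (hx : x ∈ Orb k p M g h₀) : x ∈ E := by
  induction hx using Submodule.span_induction with
  | mem x hx =>
    obtain ⟨n, -, rfl⟩ := hx
    exact W.mon_mem (W.div_pow hg n)
  | zero => exact zero_mem _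
  | add x y _ _ hx hy => exact add_mem hx hy
  | smul a x _ hx => exact E.smul_mem hx

theorem Orb_op {φ : Module.End k Ω} (hφ : DgE v E G M φ) {g : ℝ} (hg : g ∈ G) {h₀ : ℕ} {x : Ω}
    (hx : x ∈ Orb k p M g h₀) : φ x ∈ Orb k p M g h₀ := by
  induction hx using Submodule.span_induction with
  | mem x hx =>
    obtain ⟨n, hn, rfl⟩ := hx
    obtain ⟨c, hc⟩ := hφ.mon _ (W.div_pow hg n)
    rw [hc]
    exact Submodule.smul_mem _ c (Submodule.subset_span ⟨n, hn, rfl⟩)
  | zero =>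
    rw [map_zero]
    exact zero_mem _
  | add x y _ _ h1 h2 =>
    rw [map_add]
    exact add_mem h1 h2
  | smul a x _ h1 =>
    rw [map_smul]
    exact Submodule.smul_mem _ _ h1

theorem Orb_far {π : Module.End k Ω} (hf : Far p v G M π) {g : ℝ} (hg : g ∈ G) :
    ∃ n₀ : ℕ, ∀ x ∈ Orb k p M g n₀, v.Ge 0 (π x) := by
  obtain ⟨n₀, hn⟩ := hf g hg
  refine ⟨n₀, fun x hx => ?_⟩
  induction hx using Submodule.span_induction with
  | mem x hx =>
    obtain ⟨n, h, rfl⟩ := hx
    exact hn n h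
  | zero =>
    rw [map_zero]
    exact RVal.Ge.zero
  | add x y _ _ h1 h2 =>
    rw [map_add]
    exact h1.add h2
  | smul a x _ h1 =>
    rw [map_smul, Algebra.smul_def]
    have := ((Fact.out : Ctx0 k v).ge a).mul h1
    rwa [zero_add] at this

variable [Fact p.Prime] [CharP k p] [CharP Ω p] [PerfectRing k p] [IsAlgClosed Ω]

theorem perf : ∀ a ∈ E, ∃ b ∈ E, b ^ p = a := by
  rw [W.eq]
  refine PM.perf p W.ms W.div fun a ha => ?_
  obtain ⟨c, rfl⟩ := IntermediateField.mem_bot.1 ha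
  obtain ⟨d, rfl⟩ := (PerfectRing.bijective_frobenius (R := k) (p := p)).2 c
  exact ⟨_, (⊥ : IntermediateField k Ω).algebraMap_mem d, (map_pow (algebraMap k Ω) d p).symm⟩

variable {ι : Type} [Fintype ι] {b : ℕ} {lam : ℕ → ι → ι → k} {φ : ℕ → ι → ι → Module.End k Ω}

theorem PhiW_Orb (hφ : ∀ a l l', DgE v E G M (φ a l l')) {g : ℝ} (hg : g ∈ G)
    {h₀ : ℕ} {x : ι → Ω} (hx : ∀ l, x l ∈ Orb k p M g h₀) (l : ι) :
    PhiW p b lam (fun a l l' => (hφ a l l').opr) x l ∈ Orb k p M g (h₀ + 1) := by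
  refine sum_mem fun a ha => sum_mem fun l' _ => ?_
  have h0 : fn (hφ a l l').opr (x l') = φ a l l' (x l') := (hφ a l l').fn_opr (W.Orb_le hg h₀ (hx l'))
  have h1 := Orb_rtn p W.ms W.div hg (n := b - a)
    (add_mem (Submodule.smul_mem _ (lam a l l') (hx l')) (W.Orb_op (hφ a l l') hg (hx l')))
  rw [h0]
  refine Orb_mono ?_ h1
  have := Finset.mem_range.1 ha
  omega

theorem PhiW_it_Orb (hφ : ∀ a l l', DgE v E G M (φ a l l')) {g : ℝ}
    (hg : g ∈ G) {h₀ : ℕ} {x : ι → Ω} (hx : ∀ l, x l ∈ Orb k p M g h₀) (n : ℕ) (l : ι) :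
    (PhiW p b lam (fun a l l' => (hφ a l l').opr))^[n] x l ∈ Orb k p M g (h₀ + n) := by
  induction n generalizing l with
  | zero => exact hx l
  | succ n ih =>
    rw [Function.iterate_succ_apply']
    exact W.PhiW_Orb hφ hg ih l

/-- **The words of an element of `E`.** -/
theorem fin_word (hφ : ∀ a l l', DgE v E G M (φ a l l')) {π : Module.End k Ω}
    (hπ : DgE v E G M π) (hf : Far p v G M π) {e : ι → Ω} (he : ∀ l, e l ∈ E) :
    ∃ m₀ : ℕ, ∀ m, m₀ ≤ m → ∀ l,
      v.Ge 0 (π ((PhiW p b lam (fun a l l' => (hφ a l l').opr))^[m] e l)) := by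
  classical
  have hE := W.perf
  let P : (ι → Ω) → Prop := fun e => (∀ l, e l ∈ E) ∧ ∃ m₀ : ℕ, ∀ m, m₀ ≤ m → ∀ l,
    v.Ge 0 (π ((PhiW p b lam (fun a l l' => (hφ a l l').opr))^[m] e l))
  have hadd : ∀ x y, P x → P y → P (x + y) := by
    rintro x y ⟨hx, m₁, h1⟩ ⟨hy, m₂, h2⟩
    refine ⟨fun l => add_mem (hx l) (hy l), max m₁ m₂, fun m hm l => ?_⟩
    rw [PhiW_it_add p hE hx hy, Pi.add_apply, map_add]
    exact (h1 m ((le_max_left _ _).trans hm) l).add (h2 m ((le_max_right _ _).trans hm) l)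
  have h0 : P 0 := by
    refine ⟨fun l => zero_mem _, 0, fun m _ l => hπ.ge _ 0 ?_⟩
    exact PhiW_it_ge0 p hE (fun l => zero_mem _) (fun l => RVal.Ge.zero) m l
  have hge : ∀ x : ι → Ω, (∀ l, x l ∈ E) → (∀ l, v.Ge 0 (x l)) → P x := by
    intro x hx h
    exact ⟨hx, 0, fun m _ l => hπ.ge _ 0 (PhiW_it_ge0 p hE hx h m l)⟩
  have hmon : ∀ g ∈ G, ∀ x : ι → Ω, (∀ l, x l ∈ Orb k p M g 0) → P x := by
    intro g hg x hx
    obtain ⟨n₀, hn⟩ := W.Orb_far hf hg
    refine ⟨fun l => W.Orb_le hg 0 (hx l), n₀, fun m hm l => hn _ ?_⟩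
    have h1 := W.PhiW_it_Orb (b := b) (lam := lam) hφ hg hx m l
    exact Orb_mono (by omega) h1
  have hsum : ∀ {κ : Type} (S : Finset κ) (x : κ → ι → Ω), (∀ g ∈ S, P (x g)) →
      P (∑ g ∈ S, x g) := by
    intro κ S x h
    induction S using Finset.induction_on with
    | empty => rwa [Finset.sum_empty]
    | insert a S ha ih =>
      rw [Finset.sum_insert ha]
      exact hadd _ _ (h a (Finset.mem_insert_self a S))
        (ih fun g hg => h g (Finset.mem_insert_of_mem hg))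
  choose S a hS ha using fun l => W.dense (he l) 0
  have hfin : P (∑ l, fun l' => if l' = l then ∑ g ∈ S l, a l g • M g else 0) := by
    refine hsum _ _ fun l _ => ?_
    have h1 : (fun l' => if l' = l then ∑ g ∈ S l, a l g • M g else 0) =
        ∑ g ∈ S l, fun l' : ι => if l' = l then a l g • M g else 0 := by
      funext l'
      rw [Finset.sum_apply]
      split_ifs with h
      · rfl
      · rw [Finset.sum_const_zero]
    rw [h1]
    refine hsum _ _ fun g hg => hmon g (hS l g hg) _ fun l' => ?_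
    split_ifs
    · refine Submodule.smul_mem _ _ (Submodule.subset_span ⟨0, le_rfl, ?_⟩)
      rw [pow_zero, div_one]
    · exact zero_mem _
  have h2 : e = (∑ l, fun l' => if l' = l then ∑ g ∈ S l, a l g • M g else 0) +
      fun l => e l - ∑ g ∈ S l, a l g • M g := by
    funext l'
    rw [Pi.add_apply, Finset.sum_apply, Finset.sum_ite_eq Finset.univ l',
      if_pos (Finset.mem_univ _)]
    ring
  have h3 : P fun l => e l - ∑ g ∈ S l, a l g • M g := by
    refine hge _ (fun l => sub_mem (he l) (sum_mem fun g hg => ?_)) ha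
    exact E.smul_mem (W.mon_mem (hS l g hg))
  have h4 := hadd _ _ hfin h3
  rw [← h2] at h4
  exact h4.2

/-- **The projections of the dominated limits**, `b` levels. -/
theorem pr_lim_gen (hφ : ∀ a l l', DgE v E G M (φ a l l')) {π : Module.End k Ω}
    (hπ : DgE v E G M π) (hf : Far p v G M π) (x : ι → CauS v E) {e : ι → Ω} (he : ∀ l, e l ∈ E)
    (h : ∀ l, Nul v (fun i => (x l : ℕ → Ω) i ^ p ^ b - ∑ a ∈ Finset.range b,
      (∑ l', (lam a l l' • (x l' : ℕ → Ω) i + φ a l l' ((x l' : ℕ → Ω) i))) ^ p ^ a - e l))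
    (l : ι) : ∃ a ∈ E, Nul v (fun i => π ((x l : ℕ → Ω) i) - a) := by
  classical
  have hp1 : (1 : ℝ) < p := by exact_mod_cast (Fact.out : p.Prime).one_lt
  have hE := W.perf
  set Φ := PhiW p b lam (fun a l l' => (hφ a l l').opr) with hΦ
  -- the roots
  set X : ℕ → ι → Ω := fun i l => (x l : ℕ → Ω) i with hX
  have hXm : ∀ i l, X i l ∈ E := fun i l => (x l).2.mem i
  set e' : ι → Ω := fun l => rtn p b (e l) with he'
  have he'm : ∀ l, e' l ∈ E := fun l => rtn_mem p hE b (he l)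
  set η : ℕ → ι → Ω := fun i l => X i l - Φ (X i) l - e' l with hη
  have hηm : ∀ i l, η i l ∈ E := fun i l =>
    sub_mem (sub_mem (hXm i l) (PhiW_mem p hE (hXm i) l)) (he'm l)
  have hrel : ∀ i, X i = Φ (X i) + (e' + η i) := fun i => by
    funext l
    simp only [Pi.add_apply, hη]
    ring
  have hηn : ∀ l, Nul v (fun i => η i l) := fun l => by
    refine Nul.of_pow (q := p ^ b) (pow_ne_zero _ (Fact.out : p.Prime).ne_zero) ?_
    refine (h l).congr fun i => ?_
    simp only [hη, hΦ]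
    rw [sub_pow_char_pow, sub_pow_char_pow, PhiW_pow, he', rtn_pow]
    congr 2
    refine Finset.sum_congr rfl fun a _ => ?_
    congr 1
    refine Finset.sum_congr rfl fun l' _ => ?_
    rw [(hφ a l l').fn_opr (hXm i l')]
  -- the words of `e'`
  obtain ⟨m₀, hm₀⟩ := W.fin_word (b := b) (lam := lam) hφ hπ hf he'm
  rw [← hΦ] at hm₀
  refine ⟨∑ m ∈ Finset.range m₀, π (Φ^[m] e' l), sum_mem fun m _ =>
    hπ.mem _ (PhiW_it_mem p hE he'm m l), fun ε hε => ?_⟩
  obtain ⟨K, N₁, hK, hN₁⟩ := exists_bd x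
  obtain ⟨d, hd⟩ := pow_unbounded_of_one_lt (K / ε) hp1
  choose N₂ hN₂ using fun l => hηn l ε hε
  refine ⟨max N₁ (∑ l, N₂ l), fun i hi => ?_⟩
  have hX1 : ∀ l, v.Ge (-K) (X i l) := fun l => hN₁ l i ((le_max_left _ _).trans hi)
  have hη1 : ∀ l, v.Ge (-ε) (η i l) := fun l => hN₂ l i
    ((Finset.single_le_sum (f := N₂) (fun _ _ => Nat.zero_le _) (Finset.mem_univ l)).trans
      ((le_max_right _ _).trans hi))
  have hpd : ∀ m : ℕ, (1 : ℝ) ≤ (p : ℝ) ^ m := fun m => one_le_pow₀ hp1.le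
  -- the iteration
  have h1 := congrFun (PhiW_iter p hE (hXm i) he'm (hηm i) (hrel i) (m₀ + d)) l
  rw [Pi.add_apply, Pi.add_apply, Finset.sum_apply, Finset.sum_apply, Finset.sum_range_add] at h1
  have h2 : π (X i l) - ∑ m ∈ Finset.range m₀, π (Φ^[m] e' l) =
      π (Φ^[m₀ + d] (X i) l) + (∑ m ∈ Finset.range d, π (Φ^[m₀ + m] e' l) +
        π (∑ m ∈ Finset.range (m₀ + d), Φ^[m] (η i) l)) := by
    conv_lhs => rw [h1]
    rw [map_add, map_add, map_add, map_sum, map_sum]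
    ring
  change v.Ge (-ε) (π (X i l) - ∑ m ∈ Finset.range m₀, π (Φ^[m] e' l))
  rw [h2]
  refine RVal.Ge.add ?_ (RVal.Ge.add ?_ ?_)
  · refine hπ.ge _ _ ((PhiW_it_ge p hE (hXm i) hK hX1 (m₀ + d) l).mono ?_)
    rw [neg_le_neg_iff, div_le_iff₀ (by linarith [hpd (m₀ + d)])]
    rw [div_lt_iff₀ hε] at hd
    have h3 : (p : ℝ) ^ d ≤ (p : ℝ) ^ (m₀ + d) := pow_le_pow_right₀ hp1.le (by omega)
    nlinarith
  · exact RVal.Ge.sum _ _ fun m _ => (hm₀ (m₀ + m) (by omega) l).mono (by linarith)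
  · refine hπ.ge _ _ (RVal.Ge.sum _ _ fun m _ => ?_)
    refine (PhiW_it_ge p hE (hηm i) hε.le hη1 m l).mono ?_
    rw [neg_le_neg_iff]
    exact div_le_self hε.le (hpd m)

/-- **The projections of a dominated family**: `m_k ^ p = ∑ φ_kl m_l + e_k`. -/
theorem pr_lim {φ : ι → ι → Module.End k Ω} (hφ : ∀ l l', DgE v E G M (φ l l'))
    {π : Module.End k Ω} (hπ : DgE v E G M π) (hf : Far p v G M π) {m : ι → ℕ → Ω}
    (hm : ∀ l, Cau v E (m l)) {e : ι → Ω} (he : ∀ l, e l ∈ E)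
    (h : ∀ l, Nul v (fun i => m l i ^ p - ∑ l', φ l l' (m l' i) - e l)) (l : ι) :
    ∃ a ∈ E, Nul v (fun i => π (m l i) - a) := by
  refine W.pr_lim_gen (b := 1) (lam := fun _ _ _ => 0) (φ := fun _ => φ) (fun _ => hφ) hπ hf
    (fun l => ⟨m l, hm l⟩) he (fun l => (h l).congr fun i => ?_) l
  rw [pow_one, Finset.sum_range_one, pow_zero, pow_one]
  congr 2
  refine Finset.sum_congr rfl fun l' _ => ?_
  rw [zero_smul, zero_add]

/-- A scalar family is torsion. -/
theorem torsion_scalar {c : ι → ι → k} {m : ι → ℕ → Ω} (hm : ∀ l, Cau v E (m l)) {e : ι → Ω}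
    (he : ∀ l, e l ∈ E) (h : ∀ l, Nul v (fun i => m l i ^ p - ∑ l', c l l' • m l' i - e l))
    (l : ι) : ∃ P : k[X], P ≠ 0 ∧ ∃ a ∈ E,
      Nul v (fun i => (∑ j ∈ Finset.range (P.natDegree + 1), P.coeff j • m l i ^ p ^ j) - a) := by
  classical
  let x : ι → CauS v E := fun l => ⟨m l, hm l⟩
  let y : ι → MM v E := fun l => MM.mk v E (x l)
  let Y : Submodule k (MM v E) := Submodule.span k (Set.range y)
  have hfr : ∀ l, MM.fr p v E (y l) ∈ Y := by
    intro l
    have h1 : MM.fr p v E (y l) = ∑ l', c l l' • y l' := by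
      rw [← sub_eq_zero]
      change MM.mk v E (MM.frS p v E (x l)) - ∑ l', c l l' • MM.mk v E (x l') = 0
      simp only [← map_smul]
      rw [← map_sum, ← map_sub, MM.mk_eq_zero]
      refine ⟨e l, he l, (h l).congr fun i => ?_⟩
      rw [AddSubgroupClass.coe_sub, AddSubmonoidClass.coe_finsetSum, Pi.sub_apply,
        Finset.sum_apply]
      rfl
    rw [h1]
    exact sum_mem fun l' _ => Submodule.smul_mem _ _ (Submodule.subset_span ⟨l', rfl⟩)
  have hfY : ∀ z ∈ Y, MM.fr p v E z ∈ Y := by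
    intro z hz
    induction hz using Submodule.span_induction with
    | mem z hz =>
      obtain ⟨l, rfl⟩ := hz
      exact hfr l
    | zero =>
      rw [map_zero]
      exact zero_mem _
    | add a b _ _ ha hb =>
      rw [map_add]
      exact add_mem ha hb
    | smul a z _ hz =>
      rw [LinearMap.map_smulₛₗ]
      exact Submodule.smul_mem _ _ hz
  have hit : ∀ n, (MM.fr p v E)^[n] (y l) ∈ Y := by
    intro n
    induction n with
    | zero => exact Submodule.subset_span ⟨l, rfl⟩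
    | succ n ih =>
      rw [Function.iterate_succ_apply']
      exact hfY _ ih
  have hfd : FiniteDimensional k Y := FiniteDimensional.span_of_finite k (Set.finite_range y)
  -- a linear relation
  let w : Fin (Module.finrank k Y + 1) → Y := fun n => ⟨(MM.fr p v E)^[n] (y l), hit n⟩
  have hdep : ¬ LinearIndependent k w := fun hli => by
    have := hli.fintype_card_le_finrank
    rw [Fintype.card_fin] at this
    omega
  obtain ⟨g, hg, i₀, hi₀⟩ := Fintype.not_linearIndependent_iff.1 hdep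
  let P : k[X] := ∑ n : Fin (Module.finrank k Y + 1), monomial (n : ℕ) (g n)
  have hPc : ∀ n : Fin (Module.finrank k Y + 1), P.coeff n = g n := by
    intro n
    simp only [P, finsetSum_coeff, coeff_monomial]
    rw [Finset.sum_eq_single n]
    · rw [if_pos rfl]
    · intro b _ hb
      rw [if_neg fun h => hb (Fin.ext h)]
    · exact fun h => absurd (Finset.mem_univ n) h
  have hP0 : P ≠ 0 := fun h0 => hi₀ (by rw [← hPc, h0, coeff_zero])
  have hPd : P.natDegree < Module.finrank k Y + 1 := by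
    refine lt_of_le_of_lt (natDegree_sum_le_of_forall_le Finset.univ _ fun n _ =>
      (natDegree_monomial_le _).trans (Nat.lt_succ_iff.1 n.2)) (Nat.lt_succ_self _)
  refine ⟨P, hP0, ?_⟩
  have h1 : ∑ j ∈ Finset.range (P.natDegree + 1), P.coeff j • (MM.fr p v E)^[j] (y l) = 0 := by
    have h2 : ∑ j ∈ Finset.range (Module.finrank k Y + 1),
        P.coeff j • (MM.fr p v E)^[j] (y l) = 0 := by
      rw [Finset.sum_range]
      have h3 := congrArg Subtype.val hg
      rw [AddSubmonoidClass.coe_finsetSum] at h3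
      refine Eq.trans ?_ h3
      refine Finset.sum_congr rfl fun n _ => ?_
      rw [hPc]
      rfl
    rw [← h2]
    refine Finset.sum_subset (Finset.range_subset_range.2 (by omega)) fun j _ hj => ?_
    rw [coeff_eq_zero_of_natDegree_lt (by
      rw [Finset.mem_range] at hj
      omega), zero_smul]
  have h2 : MM.mk v E (∑ j ∈ Finset.range (P.natDegree + 1),
      P.coeff j • (MM.frS p v E)^[j] (x l)) = 0 := by
    rw [map_sum, ← h1]
    refine Finset.sum_congr rfl fun j _ => ?_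
    rw [map_smul, ← it_mk]
  rw [MM.mk_eq_zero] at h2
  obtain ⟨a, ha, h3⟩ := h2
  refine ⟨a, ha, h3.congr fun i => ?_⟩
  rw [AddSubmonoidClass.coe_finsetSum, Finset.sum_apply]
  congr 1
  refine Finset.sum_congr rfl fun j _ => ?_
  have h4 := frS_it (p := p) j (x l) i
  change P.coeff j • (((MM.frS p v E)^[j] (x l) : CauS v E) : ℕ → Ω) i = _
  rw [h4]

/-- **(H1).** The dominated families are torsion. -/
theorem torsion {φ : ι → ι → Module.End k Ω} (hφ : ∀ l l', DgE v E G M (φ l l'))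
    (hfar : ∀ l l', ∃ (c : k) (π : Module.End k Ω), DgE v E G M π ∧ Far p v G M π ∧
      φ l l' = algebraMap k _ c + π) {m : ι → ℕ → Ω}
    (hm : ∀ l, Cau v E (m l)) {e : ι → Ω} (he : ∀ l, e l ∈ E)
    (h : ∀ l, Nul v (fun i => m l i ^ p - ∑ l', φ l l' (m l' i) - e l)) (l : ι) :
    ∃ P : k[X], P ≠ 0 ∧ ∃ a ∈ E,
      Nul v (fun i => (∑ j ∈ Finset.range (P.natDegree + 1), P.coeff j • m l i ^ p ^ j) - a) := by
  choose c π hπ hf hφπ using hfar
  choose a ha hn using fun l l' => W.pr_lim hφ (hπ l l') (hf l l') hm he h l'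
  refine W.torsion_scalar (c := c) hm (e := fun l => e l + ∑ l', a l l')
    (fun l => add_mem (he l) (sum_mem fun l' _ => ha l l')) (fun l => ?_) l
  refine ((h l).add (Nul.sum Finset.univ (fun l' i => π l l' (m l' i) - a l l')
    fun l' _ => hn l l')).congr fun i => ?_
  rw [Finset.sum_sub_distrib]
  have h1 : ∑ l', φ l l' (m l' i) = ∑ l', c l l' • m l' i + ∑ l', π l l' (m l' i) := by
    rw [← Finset.sum_add_distrib]
    refine Finset.sum_congr rfl fun l' _ => ?_
    rw [hφπ, LinearMap.add_apply, Module.algebraMap_end_apply]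
  rw [h1]
  ring

end MonE

/-! ### The graded fields -/

section Gr

variable [Fact p.Prime] [CharP Ω p] [PerfectRing Ω p] {A : Type*} [AddCommGroup A]
  {pr : A → Ω →ₗ[k] Ω} {dg : ℝ → A}

/-- The projections are diagonal. -/
theorem GrP.dgE (h : GrP p v pr) (h1 : ∀ c, c ≠ 0 → pr c 1 = 0)
    (hdg : ∀ g ∈ G, pr (dg g) (M g) = M g) (c : A) (hE : ∀ x ∈ E, pr c x ∈ E) :
    DgE v E G M (pr c) where
  ge x b hx := h.ge b c x hx
  mem := hE
  mon g hg := by
    by_cases hc : c = dg g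
    · exact ⟨1, by rw [hc, hdg g hg, one_smul]⟩
    · refine ⟨0, ?_⟩
      have h2 := h.mul_left (x := M g) (y := 1) (c := dg g) (d := c) (hdg g hg)
      rw [mul_one, h1 _ (sub_ne_zero.2 hc), mul_zero] at h2
      rw [h2, zero_smul]

theorem GrP.far (h : GrP p v pr) (h1 : ∀ c, c ≠ 0 → pr c 1 = 0) (W : MonE p v E G M)
    (hdg : ∀ g ∈ G, pr (dg g) (M g) = M g)
    (hfar : ∀ g ∈ G, g ≠ 0 → ∀ c : A, ∃ n₀ : ℕ, ∀ n, n₀ ≤ n → dg (g / (p : ℝ) ^ n) ≠ c) (c : A) :
    Far p v G M (pr c) := by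
  intro g hg
  by_cases h0 : g = 0
  · refine ⟨0, fun n _ => ?_⟩
    rw [h0, zero_div, W.ms.zero]
    exact h.ge 0 c 1 fun _ => by rw [v.map_one]
  · obtain ⟨n₀, hn⟩ := hfar g hg h0 c
    refine ⟨n₀, fun n hn' => ?_⟩
    have h2 := h.mul_left (x := M (g / (p : ℝ) ^ n)) (y := 1) (d := c)
      (hdg _ (W.div_pow hg n))
    rw [mul_one, h1 _ (sub_ne_zero.2 (hn n hn').symm), mul_zero] at h2
    rw [h2]
    exact RVal.Ge.zero

end Gr

end Pool.Agent.TWIV
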