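import Pool.Agent.Lib.TWIV.Top
import Pool.Agent.Lib.TWM.G4

/-!
# TANK W, tame case: two top steps at the same time

`B = PM v A G M` a graded field, `N ≤ A ≤ L` closed, `T = PM v L G M`.

* `World.top2`: if `FreeB` and `T = B⟨y⟩⟨b⟩` with `y`, `b` limits of `B` then `L = A⟨w₁⟩⟨w₂⟩`, with
  `w₁`, `w₂` limits of `A`;
* `World.fib_homog`: the same from `FTB` and `FVB`.
-/

set_option autoImplicit false
set_option linter.unusedSectionVars false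

open Polynomial

namespace Pool.Agent.TWIV

open Pool.Agent.H15JM (RVal)
open Pool.Agent.LU1 (VPos adj)
open Pool.Agent.D2 (Ctx0)
open Pool.Agent.D2P (hen clI mem_clI)
open Pool.Agent.TWM Pool.Agent.TWC Pool.Agent.TWS Pool.Agent.TWT

universe u

variable {k Ω : Type u} [Field k] [Field Ω] [Algebra k Ω] {v : RVal Ω} [Fact (Ctx0 k v)]
  {N L A : IntermediateField k Ω} {G : AddSubgroup ℝ} {M : ℝ → Ω} {p : ℕ}

namespace World

variable (W : World p v N L G M) (hΩ : CompleteV v)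

include W hΩ

/-- A limit of `PM v A G M` in `L` is a limit of `A`. -/
theorem lim_desc (hNA : N ≤ A) (hAL : A ≤ L) (hA : Cld v A) {w : Ω} (hw : w ∈ L) {r : ℝ}
    (h : Lim v (PM v A G M) r w) : Lim v A r w := by
  intro ε hε
  obtain ⟨b, hb, h9⟩ := h ε hε
  refine ⟨W.pj hΩ 0 b, ?_, ?_⟩
  · have h10 := (W.isPj hΩ 0).sub A hNA hAL hA b hb
    rwa [W.PM0 hNA hA] at h10
  · have h10 := (W.isPj hΩ 0).prj.ge _ (sub_mem (PM.le hw) (PM.mono hAL hb)) _ h9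
    rwa [(W.isPj hΩ 0).prj.sub (PM.le hw) (PM.mono hAL hb), W.pj0_self hΩ hw] at h10

theorem tl_desc (hNA : N ≤ A) (hAL : A ≤ L) (hA : Cld v A) {w : Ω} (hw : w ∈ L) {r : ℝ}
    (h : TL v (PM v A G M) w r) : TL v A w r :=
  ⟨W.lim_desc hΩ hNA hAL hA hw h.lim, fun θ hθ => h.far θ (D2P.isAlgebraic_mono PM.le hθ)⟩

theorem eq_desc (hNA : N ≤ A) (hAL : A ≤ L) (hA : Cld v A) (h : PM v A G M = PM v L G M) :
    L = A := by
  refine le_antisymm (fun x hx => ?_) hAL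
  have h9 : x ∈ PM v A G M := by
    rw [h]
    exact PM.le hx
  have h10 := (W.isPj hΩ 0).sub A hNA hAL hA x h9
  rwa [W.PM0 hNA hA, W.pj0_self hΩ hx] at h10

/-- Two floors over `PM v A G M` with generators in `L`. -/
theorem fib_desc (hNA : N ≤ A) (hAL : A ≤ L) (hA : Cld v A) {w₁ w₂ : Ω} (hw₁ : w₁ ∈ L)
    (hw₂ : w₂ ∈ L) {r₁ r₂ : ℝ} (h : Fib v (PM v A G M) (PM v L G M) w₁ w₂ r₁ r₂) :
    Fib v A L w₁ w₂ r₁ r₂ := by
  have hN1 : N ≤ cadj v A w₁ := hNA.trans (le_cadj v A _)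
  have h1L : cadj v A w₁ ≤ L := TWM.cadj_le W.cldL hAL hw₁
  have h2L : cadj v (cadj v A w₁) w₂ ≤ L := TWM.cadj_le W.cldL h1L hw₂
  refine ⟨W.tl_desc hΩ hNA hAL hA hw₁ h.ty, W.tl_desc hΩ hN1 h1L (cld_cadj v A _) hw₂ ?_,
    W.eq_desc hΩ (hN1.trans (le_cadj v _ _)) h2L (cld_cadj v _ _) ?_⟩
  · rw [PM.cadj]
    exact h.tz
  · rw [PM.cadj, PM.cadj]
    exact h.eq.symm

section Char

variable [Fact p.Prime] [CharP k p] [CharP Ω p]

/-- The components of a limit in `T`. -/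
theorem comps [PerfectRing k p] [IsAlgClosed Ω] (hNA : N ≤ A) (hAL : A ≤ L) (hA : Cld v A)
    {c : Ω} {s : ℝ} (hc : c ∈ PM v L G M) (hl : Lim v (PM v A G M) s c) :
    ∃ (S : Finset ℝ) (a : ℝ → Ω), (∀ g ∈ S, g ∈ G) ∧ (∀ g ∈ S, a g ∈ L) ∧
      (∀ g ∈ S, Lim v (PM v A G M) (s - g) (a g)) ∧ Gt v s (c - ∑ g ∈ S, M g * a g) := by
  obtain ⟨S, a, hS, ha, huniq, hca⟩ := W.dense_cls hc (s + 1)
  have hl' : Lim v (PM v A G M) s (∑ g ∈ S, M g * a g) := by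
    intro ε hε
    obtain ⟨b, hb, h1⟩ := hl ε hε
    refine ⟨b, hb, ?_⟩
    rw [show ∑ g ∈ S, M g * a g - b = (c - b) - (c - ∑ g ∈ S, M g * a g) by ring]
    exact h1.sub (hca.mono (by linarith))
  exact ⟨S, a, hS, ha, fun g hg => W.lim_cls hΩ hNA hAL hA hS ha huniq hl' hg,
    Gt.of_ge hca (by linarith)⟩

/-- **Two top steps.** -/
theorem top2 [IsAlgClosed k] [IsAlgClosed Ω] [PerfectRing k p] (hNA : N ≤ A) (hAL : A ≤ L)
    (hA : Cld v A) (hF : FreeB k p v L (PM v A G M) G M) {y b : Ω} {s₁ s₂ : ℝ} (hs₁ : s₁ ∈ G)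
    (hs₂ : s₂ ∈ G) (hFib : Fib v (PM v A G M) (PM v L G M) y b s₁ s₂)
    (hb : Lim v (PM v A G M) s₂ b) :
    ∃ w₁ ∈ L, ∃ w₂ ∈ L, ∃ r₁ ∈ G, ∃ r₂ ∈ G, Fib v (PM v A G M) (PM v L G M) w₁ w₂ r₁ r₂ ∧
      Fib v A L w₁ w₂ r₁ r₂ ∧ Lim v A r₁ w₁ ∧ Lim v A r₂ w₂ := by
  classical
  have h0 : Ctx0 k v := Fact.out
  have hMB : ∀ g ∈ G, M g ∈ PM v A G M := fun g hg => PM.mon hg
  have hZ : GSub k p G M (Nr' v (PM v A G M)) := W.gsubG hMB
  have hvT : ∀ b ∈ PM v L G M, b ≠ 0 → v b ∈ G := fun b hb hb0 => W.val_T hb hb0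
  have hyT : y ∈ PM v L G M := by
    rw [hFib.eq]
    exact le_cadj _ _ _ (self_mem_cadj v _ y)
  have hbT : b ∈ PM v L G M := by
    rw [hFib.eq]
    exact self_mem_cadj v _ b
  obtain ⟨S₁, a₁, hS₁, ha₁, hl₁, hd₁⟩ := W.comps hΩ hNA hAL hA hyT hFib.ty.lim
  obtain ⟨S₂, a₂, hS₂, ha₂, hl₂, hd₂⟩ := W.comps hΩ hNA hAL hA hbT hb
  set r : S₁ ⊕ S₂ → ℝ := Sum.elim (fun g => s₁ - (g : ℝ)) (fun g => s₂ - (g : ℝ)) with hr
  set w₀ : S₁ ⊕ S₂ → Ω := Sum.elim (fun g => a₁ g) (fun g => a₂ g) with hw₀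
  have hrG : ∀ i, r i ∈ G := by
    rintro (g | g)
    · exact G.sub_mem hs₁ (hS₁ g g.2)
    · exact G.sub_mem hs₂ (hS₂ g g.2)
  obtain ⟨S', w, h1, h2, -, h4⟩ := hF (S₁ ⊕ S₂) r w₀ hrG (by
    rintro (g | g)
    · exact ⟨ha₁ g g.2, hl₁ g g.2⟩
    · exact ⟨ha₂ g g.2, hl₂ g g.2⟩)
  -- the span of the new family
  have hone : ∀ (i : S₁ ⊕ S₂) (g s : ℝ), g ∈ G → r i = s - g →
      InSpan k p G M (Nr' v (PM v A G M)) r w₀ Finset.univ s (M g * w₀ i) := by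
    intro i g s hg hi
    have e3 := (InSpan.self (S := (Finset.univ : Finset (S₁ ⊕ S₂))) (r := r) (w := w₀) W.ms hZ
      (Finset.mem_univ i)).op W.ms hZ (f := C 1 * X ^ 0) (t' := s) (IsOp.mono fun _ => by
        rw [pow_zero, one_mul, hi, sub_sub_cancel]
        exact hg)
    rwa [ev_mono, map_one, one_mul, pow_zero, pow_zero, pow_one, one_mul, hi, sub_sub_cancel]
      at e3
  have hspan : ∀ {c c' : Ω} {s : ℝ}, InSpan k p G M (Nr' v (PM v A G M)) r w₀ Finset.univ s c' →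
      Gt v s (c - c') → InSpan k p G M (Nr' v (PM v A G M)) r w S' s c := by
    intro c c' s hc hd
    have e1 := InSpan.add hZ hc (InSpan.of_Z (r := r) (w := w₀)
      (S := (Finset.univ : Finset (S₁ ⊕ S₂))) (show Nr' v (PM v A G M) s (c - c') from
        ⟨0, zero_mem _, by rwa [sub_zero]⟩))
    rw [add_sub_cancel] at e1
    exact InSpan.trans W.ms hZ (fun i _ => h2 i) e1
  have hyw : InSpan k p G M (Nr' v (PM v A G M)) r w S' s₁ y := by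
    refine hspan (InSpan.sum hZ (T := S₁) (z := fun g => M g * a₁ g) fun g hg => ?_) hd₁
    exact hone (Sum.inl ⟨g, hg⟩) g s₁ (hS₁ g hg) rfl
  have hbw : InSpan k p G M (Nr' v (PM v A G M)) r w S' s₂ b := by
    refine hspan (InSpan.sum hZ (T := S₂) (z := fun g => M g * a₂ g) fun g hg => ?_) hd₂
    exact hone (Sum.inr ⟨g, hg⟩) g s₂ (hS₂ g hg) rfl
  -- the operators
  have hex := fun i (hi : i ∈ S') => hFib.exists_ev (p := p) h0 W.ms hMB hvT hb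
    (PM.le (h1 i hi).1) (h1 i hi).2
  have hle : S'.card ≤ 2 := by
    have e1 := FreeOn.card_le (S' := (Finset.univ : Finset Bool))
      (r' := fun j => if j then s₁ else s₂) (w' := fun j => if j then y else b) W.ms hZ h4
      (fun i hi => by
        obtain ⟨P, R, hP, hR, h5⟩ := hex i hi
        refine ⟨fun j => if j then P else R, fun j _ => ?_, ?_⟩
        · cases j
          · exact hR
          · exact hP
        · rw [Fintype.sum_bool]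
          exact h5)
    rwa [Finset.card_univ, Fintype.card_bool] at e1
  have hge : 2 ≤ S'.card := by
    have e1 := FreeOn.card_le (S := (Finset.univ : Finset Bool)) (S' := S')
      (r := fun j => if j then s₁ else s₂) (w := fun j => if j then y else b) (r' := r) (w' := w)
      W.ms hZ (fun R P hP hrel i _ => by
        rw [Fintype.sum_bool] at hrel
        have e2 := hFib.ty.ev_free h0 W.ms hMB hFib.tz (hP true (Finset.mem_univ _))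
          (hP false (Finset.mem_univ _)) hrel
        cases i
        · exact e2.2
        · exact e2.1) (fun j _ => by
        cases j
        · exact hbw
        · exact hyw)
    rwa [Finset.card_univ, Fintype.card_bool] at e1
  obtain ⟨i₁, i₂, hne, rfl⟩ := Finset.card_eq_two.1 (le_antisymm hle hge)
  have hi₁ : i₁ ∈ ({i₁, i₂} : Finset (S₁ ⊕ S₂)) := Finset.mem_insert_self _ _
  have hi₂ : i₂ ∈ ({i₁, i₂} : Finset (S₁ ⊕ S₂)) :=
    Finset.mem_insert_of_mem (Finset.mem_singleton_self _)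
  obtain ⟨P₁, R₁, hP₁, hR₁, he₁⟩ := hex i₁ hi₁
  obtain ⟨P₂, R₂, hP₂, hR₂, he₂⟩ := hex i₂ hi₂
  have hsp : ∀ {s : ℝ} {x : Ω}, InSpan k p G M (Nr' v (PM v A G M)) r w {i₁, i₂} s x →
      Sp v (PM v A G M) p G M (w i₁) (w i₂) (r i₁) (r i₂) s x := by
    rintro s x ⟨Q, hQ, hx⟩
    rw [Finset.sum_pair hne] at hx
    exact ⟨Q i₁, Q i₂, hQ i₁ hi₁, hQ i₂ hi₂, hx⟩
  have hfib := hFib.basis h0 W.ms hMB hb (θ₁ := w i₁) (θ₂ := w i₂) (r₁ := r i₁) (r₂ := r i₂)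
    ⟨PM.le (h1 i₁ hi₁).1, PM.le (h1 i₂ hi₂).1, hP₁, hR₁, hP₂, hR₂, he₁, he₂, hsp hyw, hsp hbw⟩
  exact ⟨w i₁, (h1 i₁ hi₁).1, w i₂, (h1 i₂ hi₂).1, r i₁, hrG i₁, r i₂, hrG i₂, hfib,
    W.fib_desc hΩ hNA hAL hA (h1 i₁ hi₁).1 (h1 i₂ hi₂).1 hfib,
    W.lim_desc hΩ hNA hAL hA (h1 i₁ hi₁).1 (h1 i₁ hi₁).2,
    W.lim_desc hΩ hNA hAL hA (h1 i₂ hi₂).1 (h1 i₂ hi₂).2⟩

/-- **Two top steps**, from the properties of the floor. -/
theorem fib_homog [IsAlgClosed k] [IsAlgClosed Ω] [PerfectRing k p]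
    (hGN : ∀ g ∈ G, ∃ n : ℕ, (p : ℝ) ^ n * g ∈ VG v N) {g₀ : ℝ}
    (hg₀ : g₀ ∈ VG v N) (hg₀' : g₀ / p ∉ VG v N)
    (hG : ∀ g ∈ VG v N, ∃ l < p, ∃ g' ∈ VG v N, g = l * g₀ + p * g')
    (hNA : N ≤ A) (hAL : A ≤ L) (hA : Cld v A)
    (hFT : FTB p v (PM v L G M) (PM v A G M))
    (hFV : FVB p v (PM v L G M) (PM v A G M) (W.pj hΩ 0)) {y b : Ω}
    (hFib : Fib v (PM v A G M) (PM v L G M) y b 0 0) (hb : Lim v (PM v A G M) 0 b) :
    ∃ w₁ ∈ L, ∃ w₂ ∈ L, ∃ r₁ ∈ G, ∃ r₂ ∈ G, Fib v (PM v A G M) (PM v L G M) w₁ w₂ r₁ r₂ ∧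
      Fib v A L w₁ w₂ r₁ r₂ ∧ Lim v A r₁ w₁ ∧ Lim v A r₂ w₂ :=
  W.top2 hΩ hNA hAL hA (W.freeB hΩ hGN hg₀ hg₀' hG hNA hAL hA hFT hFV) G.zero_mem G.zero_mem
    hFib hb

end Char

end World

end Pool.Agent.TWIV
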