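import Pool.Agent.Lib.TWIV.OTc
import Pool.Agent.Lib.TWIV.GMW
import Pool.Agent.Lib.TWIV.Top
import Pool.Agent.Lib.TWC.TowR1

/-!
# TANK W, tame case, shape (1,2)': the generator is homogeneous

* `World.op_fev`: the class of `P(F) x`;
* `World.homog_free`: if all the components of `y` are in `k{F} y + B + O`, then `c y + e + O`
  contains a homogeneous element `M d * l`, `l ∈ L` (from `FreeB`).
-/

set_option autoImplicit false
set_option linter.unusedSectionVars false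

open Polynomial

namespace Pool.Agent.TWIV

open Pool.Agent.H15JM (RVal)
open Pool.Agent.LU1 (VPos adj)
open Pool.Agent.D2 (Ctx0)
open Pool.Agent.D2P (hen clI mem_clI)
open Pool.Agent.TWM Pool.Agent.TWC Pool.Agent.TWS Pool.Agent.TWT

universe u

variable {k Ω : Type u} [Field k] [Field Ω] [Algebra k Ω] {v : RVal Ω} [Fact (Ctx0 k v)]
  {N L A B : IntermediateField k Ω} {G : AddSubgroup ℝ} {M : ℝ → Ω} {p : ℕ}

namespace World

variable (W : World p v N L G M) (hΩ : CompleteV v) [IsAlgClosed k] [IsAlgClosed Ω]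
  [Fact p.Prime] [CharP k p] [PerfectRing k p] [CharP Ω p]

/-- The class of the value of an operator. -/
theorem op_fev (hNA : N ≤ A) (hAL : A ≤ L) (hA : Cld v A) (P : k[X]) {x : Ω}
    (hx : x ∈ LimS v (PM v L G M) (PM v A G M)) :
    ∃ h : fev p P x ∈ LimS v (PM v L G M) (PM v A G M),
      (W.gm hΩ hNA hAL hA).op P (cl hx) = cl h := by
  have h1 : fev p P x = ∑ j ∈ Finset.range (P.natDegree + 1), P.coeff j • x ^ p ^ j := by
    rw [fev_eq_range (N := P.natDegree + 1) fun a ha => coeff_eq_zero_of_natDegree_lt (by omega)]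
    exact Finset.sum_congr rfl fun j _ => (Algebra.smul_def _ _).symm
  have h2 : fev p P x ∈ LimS v (PM v L G M) (PM v A G M) := by
    rw [h1]
    exact (LimS v (PM v L G M) (PM v A G M)).sum_mem fun j _ =>
      (LimS v (PM v L G M) (PM v A G M)).smul_mem (P.coeff j) (pow_pow_LimS (p := p) hx j)
  refine ⟨h2, ?_⟩
  rw [W.gm_op hΩ hNA hAL hA, cl_eq, h1, sub_self]
  exact ⟨0, zero_mem _, by rw [sub_zero]; exact RVal.Ge.zero⟩

include W in
theorem ev_zero_rad {t : ℝ} (P : k[X]) (x : Ω) : ev p M 0 t P x = M t * fev p P x := by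
  rw [ev, Polynomial.sum, fev, Finset.mul_sum]
  refine Finset.sum_congr rfl fun j _ => ?_
  rw [mul_zero, sub_zero]
  ring

include hΩ in
/-- **The generator is homogeneous.** -/
theorem homog_free (hNA : N ≤ A) (hAL : A ≤ L) (hA : Cld v A)
    (hF : FreeB k p v L (PM v A G M) G M) {y : Ω} (hy : y ∈ PM v L G M)
    (hyl : TL v (PM v A G M) y 0)
    (hcomp : ∀ c : ℝ ⧸ VG v N, ∃ P : k[X], ∃ e ∈ PM v A G M,
      v.Ge 0 (W.prD hΩ c y - (fev p P y + e))) :
    ∃ d ∈ G, ∃ l ∈ L, ∃ κ : k, κ ≠ 0 ∧ ∃ e ∈ PM v A G M,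
      v.Ge 0 (M d * l - (algebraMap k Ω κ * y + e)) := by
  classical
  have h0 : Ctx0 k v := Fact.out
  set B := PM v A G M with hB
  have hMB : ∀ g ∈ G, M g ∈ B := fun g hg => PM.mon hg
  have hZ : GSub k p G M (Nr' v B) := W.gsubG hMB
  have hBT : B ≤ PM v L G M := PM.mono hAL
  obtain ⟨S, a, hS, ha, huniq, hca⟩ := W.dense_cls hy (0 + 1)
  set c' := ∑ g ∈ S, M g * a g with hc'
  have hc'T : c' ∈ PM v L G M :=
    sum_mem fun g hg => mul_mem (PM.mon (hS g hg)) (PM.le (ha g hg))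
  have hgt : Gt v 0 (c' - y) := Gt.of_ge (ge_sub_comm hca) (by linarith)
  have hc1 : TL v B c' 0 := hyl.congr hgt
  -- the free family
  obtain ⟨S', w, h1, h2, h3, h4⟩ := hF S (fun g => 0 - g) (fun g => a g)
    (fun g => G.sub_mem G.zero_mem (hS g g.2)) fun g =>
      ⟨ha g g.2, W.lim_cls hΩ hNA hAL hA hS ha huniq hc1.lim g.2⟩
  have hcw₀ : InSpan k p G M (Nr' v B) (fun g : S => 0 - (g : ℝ)) (fun g : S => a g)
      Finset.univ 0 c' := by
    refine ⟨fun _ => C 1 * X ^ 0, fun g _ => IsOp.mono fun _ => ?_, 0, zero_mem _, ?_⟩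
    · rw [pow_zero, one_mul, sub_sub_cancel]
      exact hS g g.2
    · have e2 : ∀ g : S, ev p M (0 - (g : ℝ)) 0 (C 1 * X ^ 0 : k[X]) (a g) = M g * a g := by
        intro g
        rw [ev_mono, map_one, one_mul, pow_zero, one_mul, sub_sub_cancel, pow_zero, pow_one]
      have e1 : ∑ g : S, ev p M (0 - (g : ℝ)) 0 (C 1 * X ^ 0 : k[X]) (a g) = c' := by
        rw [Finset.sum_congr rfl fun g _ => e2 g]
        exact Finset.sum_coe_sort S (fun g => M g * a g)
      rw [e1, sub_self, sub_zero]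
      exact Gt.zero
  have hcw : InSpan k p G M (Nr' v B) (fun g : S => 0 - (g : ℝ)) w S' 0 c' :=
    InSpan.trans W.ms hZ (fun i _ => h2 i) hcw₀
  have hwT : ∀ i ∈ S', w i ∈ PM v L G M := fun i hi => PM.le (h1 i hi).1
  -- the components of `y`
  have hac : ∀ g ∈ (Finset.univ : Finset S), InSpan k p G M (Nr' v B) (fun _ : Unit => 0)
      (fun _ => c') Finset.univ (0 - (g : ℝ)) (a g) := by
    intro g _
    have hgG := hS g g.2
    obtain ⟨P, e, he, h5⟩ := hcomp (QuotientAddGroup.mk (g : ℝ))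
    have e1 : W.prD hΩ (QuotientAddGroup.mk (g : ℝ)) c' = M g * a g := by
      rw [W.prD_mk hΩ hgG hc'T]
      unfold prd
      rw [hc', W.pj0_cls hΩ hS ha huniq g.2]
    have h6 : v.Ge 0 (M g * a g - (fev p P c' + e)) := by
      have h7 := W.prD_ge hΩ (QuotientAddGroup.mk (g : ℝ)) (sub_mem hc'T hy) hgt.ge
      rw [W.prD_sub hΩ _ hc'T hy, e1] at h7
      have h8 := ge_fev (p := p) h0 P hgt.ge
      rw [fev_sub] at h8
      have h9 := (h7.add h5).sub h8
      refine Eq.mp (congrArg (fun w => v.Ge 0 w) ?_) h9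
      ring
    obtain ⟨κ, h7⟩ := h0.residue h6
    have hgN : -(g : ℝ) ∈ G := G.neg_mem hgG
    refine ⟨fun _ => P, fun _ _ j _ => ?_, M (-(g : ℝ)) * (e + algebraMap k Ω κ),
      mul_mem (hMB _ hgN) (add_mem he (B.algebraMap_mem κ)), ?_⟩
    · rw [mul_zero, sub_zero, zero_sub]
      exact hgN
    · rw [Finset.univ_unique, Finset.sum_singleton, W.ev_zero_rad, zero_sub]
      have e2 : a g - M (-(g : ℝ)) * fev p P c' - M (-(g : ℝ)) * (e + algebraMap k Ω κ) =
          M (-(g : ℝ)) * (M g * a g - (fev p P c' + e) - algebraMap k Ω κ) := by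
        have h8 : M (-(g : ℝ)) * M (g : ℝ) = 1 := W.M_neg_mul hgG
        calc _ = (M (-(g : ℝ)) * M (g : ℝ)) * a g - M (-(g : ℝ)) * fev p P c' -
            M (-(g : ℝ)) * (e + algebraMap k Ω κ) := by rw [h8, one_mul]
          _ = _ := by ring
      rw [e2]
      have h8 : v.Ge (-(g : ℝ)) (M (-(g : ℝ))) := fun _ => (W.ms.val _ hgN).ge
      have h9 := Gt.mul_ge h7 h8
      rwa [zero_add, mul_comm] at h9
  have hwc : ∀ i ∈ S', InSpan k p G M (Nr' v B) (fun _ : Unit => 0) (fun _ => c') Finset.univ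
      (0 - (i : ℝ)) (w i) := fun i hi => InSpan.trans W.ms hZ hac (h3 i hi)
  -- the number of elements of `S'`
  have hle : S'.card ≤ 1 := by
    have := FreeOn.card_le W.ms hZ h4 hwc
    rwa [Finset.card_univ, Fintype.card_unit] at this
  have hne : S'.Nonempty := by
    rw [Finset.nonempty_iff_ne_empty]
    rintro rfl
    obtain ⟨Q, -, b, hb, h5⟩ := hcw
    rw [Finset.sum_empty, sub_zero] at h5
    obtain ⟨h6, h7⟩ := hc1.far b (isAlgebraic_algebraMap (R := B) (⟨b, hb⟩ : B))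
    have h8 := h5 (sub_ne_zero.2 h6)
    linarith
  obtain ⟨i₀, hi₀⟩ := Finset.card_eq_one.1 (le_antisymm hle hne.card_pos)
  subst hi₀
  have hi₀ : i₀ ∈ ({i₀} : Finset S) := Finset.mem_singleton_self i₀
  obtain ⟨Q₁, hQ₁, h5⟩ := hwc i₀ hi₀
  obtain ⟨Q₂, hQ₂, h6⟩ := hcw
  have hinv := FreeOn.inverse (S := (Finset.univ : Finset Unit)) (S' := ({i₀} : Finset S))
    (r := fun _ => 0) (w := fun _ => c') (r' := fun g : S => 0 - (g : ℝ)) (w' := w)
    (R := fun _ j => Q₁ j) (P := fun _ i => Q₂ i) W.ms hZ h4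
    (fun i hi j hj => by rw [Finset.mem_singleton.1 hi]; exact hQ₁ j hj)
    (fun j _ i hi => hQ₂ i hi)
    (fun i hi => by rw [Finset.mem_singleton.1 hi]; exact h5)
    (fun j _ => h6) hi₀ hi₀
  rw [if_pos rfl, Finset.univ_unique, Finset.sum_singleton] at hinv
  -- the operator `Q₁` is a constant
  obtain ⟨hd, -⟩ := tw_eq_one hinv
  obtain ⟨e, he⟩ : ∃ e, Q₁ default = C e := ⟨_, eq_C_of_natDegree_eq_zero hd⟩
  have he0 : e ≠ 0 := by
    rintro rfl
    rw [he, map_zero, tw_zero_left] at hinv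
    exact zero_ne_one hinv
  set r := 0 - (i₀ : ℝ) with hr
  have hrG : r ∈ G := G.sub_mem G.zero_mem (hS i₀ i₀.2)
  have hrn : -r ∈ G := G.neg_mem hrG
  obtain ⟨f, hf, h5⟩ := h5
  have hev : ∑ i, ev p M ((fun _ : Unit => (0 : ℝ)) i) r (Q₁ i) ((fun _ => c') i) =
      algebraMap k Ω e * M r * c' := by
    rw [Finset.univ_unique, Finset.sum_singleton, he]
    have h7 := ev_mono (p := p) (M := M) (s := 0) (r := r) e 0 c'
    rwa [pow_zero, mul_one, pow_zero, one_mul, pow_zero, pow_one, sub_zero] at h7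
  rw [hev] at h5
  refine ⟨-r, hrn, w i₀, (h1 i₀ hi₀).1, e, he0, M (-r) * f, mul_mem (hMB _ hrn) hf, ?_⟩
  have h8 : v.Ge (-r) (M (-r)) := fun _ => (W.ms.val _ hrn).ge
  have h9 := h8.mul h5.ge
  rw [neg_add_cancel] at h9
  have h10 : M (-r) * M r = 1 := W.M_neg_mul hrG
  have h11 := (h0.ge e).mul hgt.ge
  rw [zero_add] at h11
  have e3 : M (-r) * w i₀ - (algebraMap k Ω e * y + M (-r) * f) =
      M (-r) * (w i₀ - algebraMap k Ω e * M r * c' - f) + algebraMap k Ω e * (c' - y) := by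
    calc _ = M (-r) * w i₀ - (M (-r) * M r) * (algebraMap k Ω e * c') - M (-r) * f +
        algebraMap k Ω e * (c' - y) := by rw [h10]; ring
      _ = _ := by ring
  rw [e3]
  exact h9.add h11

end World

end Pool.Agent.TWIV
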