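import Pool.Agent.Lib.TWIV.OTd


/-!
# TANK W, tame case, shape (1,2)': the data of the shape, the homogeneous generator

* `HRc`: the graded isometric embedding `θ : Ω → H`, on `E_1`;
* `OTD`: the data `T = E_1⟨y⟩⟨z⟩` of the shape;
* `OTD.core`: `Gen2`, `GDat`; `OTD.can`: the canonicity; `OTD.near`: saturation;
* `OTD.h3a`: a homogeneous generator, from `FreeB`.
-/

set_option autoImplicit false
set_option linter.unusedSectionVars false

open Polynomial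

namespace Pool.Agent.TWIV

open Pool.Agent.H15JM (RVal)
open Pool.Agent.LU1 (VPos adj)
open Pool.Agent.D2 (Ctx0)
open Pool.Agent.D2P (hen clI mem_clI)
open Pool.Agent.TWM Pool.Agent.TWC Pool.Agent.TWS Pool.Agent.TWT

universe u

variable {k Ω H : Type u} [Field k] [Field Ω] [Algebra k Ω] [Field H] [Algebra k H]
  [IsAlgClosed k] [IsAlgClosed Ω] [IsAlgClosed H] {v : RVal Ω} {w : RVal H} [Fact (Ctx0 k v)]
  [Fact (Ctx0 k w)] {p : ℕ} [hp : Fact p.Prime] [CharP k p] [PerfectRing k p] [CharP Ω p]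
  [CharP H p] [PerfectRing H p] {N L A : IntermediateField k Ω} {G : AddSubgroup ℝ} {M : ℝ → Ω}
  {θ : Ω →ₐ[k] H} {pr : (ℝ ⧸ VG v N) → H →ₗ[k] H} {RR : Submodule k H}

/-- A graded isometric embedding of `E_1`. -/
structure HRc (W : World p v N L G M) (hΩ : CompleteV v) (w : RVal H) (θ : Ω →ₐ[k] H)
    (pr : (ℝ ⧸ VG v N) → H →ₗ[k] H) (E₁ : IntermediateField k Ω) : Prop where
  iso : IsoE v w θ
  gr : GrP p w pr
  prc : ∀ c, ∀ x ∈ E₁, pr c (θ x) = θ (W.prD hΩ c x)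

/-- The shape (1,2)': `E_1 = E⟨y_1⟩`, `T = E_1⟨y⟩⟨z⟩`, some limit of `E_1` in `T` is far from
`E_1⟨y⟩`, no `b` with `T = E_1⟨y⟩⟨b⟩` is a limit of `E_1`, `y ∉ E_1 + L(E)`. -/
structure Shp (v : RVal Ω) (E E₁ T : IntermediateField k Ω) (y₁ y z : Ω) : Prop where
  eq₁ : E₁ = cadj v E y₁
  tl₁ : TL v E y₁ 0
  tly : TL v E₁ y 0
  tlz : TL v (cadj v E₁ y) z 0
  eqT : T = cadj v (cadj v E₁ y) z
  far : ∃ x ∈ T, Lim v E₁ 0 x ∧ ¬ Nr v (cadj v E₁ y) 0 x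
  top : ∀ b, Lim v E₁ 0 b → ¬ Fib v E₁ T y b 0 0
  nc : ∀ e ∈ E₁, ¬ Lim v E 0 (y - e)

/-- The data of the shape (1,2)'. -/
structure OTD (W : World p v N L G M) (hΩ : CompleteV v) (w : RVal H) (θ : Ω →ₐ[k] H)
    (pr : (ℝ ⧸ VG v N) → H →ₗ[k] H) (RR : Submodule k H) (A : IntermediateField k Ω)
    (d₁ : ℝ) (u₁ y z : Ω) : Prop extends
    Shp v (PM v N G M) (PM v A G M) (PM v L G M) (M d₁ * u₁) y z where
  cw : CompleteV w
  sph : SphC w
  NA : N ≤ A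
  AL : A ≤ L
  cldA : Cld v A
  hd : d₁ ∈ G
  hu : u₁ ∈ L
  hrec : HRc W hΩ w θ pr (PM v A G M)
  rr : RRp p ((PM v N G M).map θ) (θ (M d₁ * u₁)) pr RR
  rad : ∀ u ∈ PM v L G M, Lim v (PM v A G M) 0 u → ∀ r ∈ RR, w.Ge 0 (θ u - r) →
    ∃ a ∈ PM v A G M, Lim v (PM v N G M) 0 (u - a)

/-- The Hahn side of a limit of `E_1`. -/
theorem HRc.lim {W : World p v N L G M} {hΩ : CompleteV v} (hR : HRc W hΩ w θ pr (PM v A G M))
    (hAL : A ≤ L) {x : Ω} (hx : x ∈ PM v L G M) (hl : Lim v (PM v A G M) 0 x) (c : ℝ ⧸ VG v N) :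
    w.Ge 0 (pr c (θ x) - θ (W.prD hΩ c x)) := by
  obtain ⟨m, hm, hmn⟩ := Lim.exists_cau hl
  refine Nul.const (v := w) ?_
  have h1 : Nul w fun n => pr c (θ (x - m n)) := by
    intro ε hε
    obtain ⟨n, hn⟩ := hmn ε hε
    exact ⟨n, fun i hi => hR.gr.ge _ c _ (hR.iso.ge_iff.2 (hn i hi))⟩
  have h2 : Nul w fun n => θ (W.prD hΩ c (x - m n)) := by
    intro ε hε
    obtain ⟨n, hn⟩ := hmn ε hε
    exact ⟨n, fun i hi => hR.iso.ge_iff.2 (W.prD_ge hΩ c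
      (sub_mem hx (PM.mono hAL (hm.mem i))) (hn i hi))⟩
  refine (h1.sub h2).congr fun n => ?_
  rw [W.prD_sub hΩ c hx (PM.mono hAL (hm.mem n)), map_sub, map_sub, map_sub,
    hR.prc c _ (hm.mem n)]
  ring

namespace OTD

variable {W : World p v N L G M} {hΩ : CompleteV v} {d₁ : ℝ} {u₁ y z : Ω}
  (D : OTD W hΩ w θ pr RR A d₁ u₁ y z)

include D

theorem le₁ : PM v A G M ≤ PM v L G M := PM.mono D.AL

theorem memy : y ∈ PM v L G M := by
  rw [D.eqT]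
  exact le_cadj _ _ _ (self_mem_cadj _ _ _)

theorem memz : z ∈ PM v L G M := by
  rw [D.eqT]
  exact self_mem_cadj _ _ _

theorem leB : cadj v (PM v A G M) y ≤ PM v L G M := by
  rw [D.eqT]
  exact le_cadj _ _ _

/-- Saturation: `P(F) x` near to `E_1⟨y⟩`. -/
theorem near {x : Ω} (hx : x ∈ PM v L G M) (hl : Lim v (cadj v (PM v A G M) y) 0 x) {P : k[X]}
    (hP : P ≠ 0) (h : Nr v (cadj v (PM v A G M) y) 0 (fev p P x)) :
    Nr v (cadj v (PM v A G M) y) 0 x :=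
  near_of_fev Fact.out D.tlz (by rw [← D.eqT]; exact hx) hl hP h

/-- The limits of `E_1` near to `E_1⟨y⟩`. -/
theorem germ {x : Ω} (hl : Lim v (PM v A G M) 0 x)
    (h : Nr v (cadj v (PM v A G M) y) 0 x) :
    ∃ P : k[X], ∃ e ∈ PM v A G M, v.Ge 0 (x - (fev p P y + e)) := by
  obtain ⟨b, hb, h1⟩ := h
  have h2 : Lim v (PM v A G M) 0 b := Lim.of_ge_sub hl (by
    have := h1.neg
    rwa [neg_sub] at this)
  obtain ⟨e, he, n, c, h3⟩ := germ_res (Fact.out : Ctx0 k v) D.tly p hb h2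
  obtain ⟨P, -, hP⟩ := exists_fev (p := p) (Ω := Ω) c n
  refine ⟨P, e, he, ?_⟩
  have h4 := h1.add h3.ge
  rw [← hP] at h4
  refine Eq.mp (congrArg (fun w => v.Ge 0 w) ?_) h4
  ring

/-- **The data of Lemma G'.** -/
theorem core : ∃ (b : Ω) (n : ℕ) (P₀ : k[X])
    (s : cadj w ((PM v N G M).map θ) (θ (M d₁ * u₁)) →ₐ[k]
      PowerSeries (cadj w ((PM v N G M).map θ) (θ (M d₁ * u₁)))) (yn bn : ℕ → H),
    P₀.coeff 0 ≠ 0 ∧ b ∈ PM v L G M ∧ Gen2 p v (PM v A G M) (PM v L G M) y b ∧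
      GDat p w pr ((PM v N G M).map θ) (θ (M d₁ * u₁)) (QuotientAddGroup.mk d₁) s RR n P₀
        (θ y) (θ b) yn bn := by
  classical
  have hk : Ctx0 k v := Fact.out
  have hE₁ : cadj w ((PM v N G M).map θ) (θ (M d₁ * u₁)) = (PM v A G M).map θ := by
    rw [D.hrec.iso.cadj_map hΩ, ← D.eq₁]
  have hym₁ : M d₁ * u₁ ∈ PM v A G M := by
    rw [D.eq₁]
    exact self_mem_cadj _ _ _
  have hgr : ∀ c, ∀ x ∈ cadj w ((PM v N G M).map θ) (θ (M d₁ * u₁)),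
      pr c x ∈ cadj w ((PM v N G M).map θ) (θ (M d₁ * u₁)) := by
    rw [hE₁]
    rintro c _ ⟨x, hx, rfl⟩
    exact ⟨W.prD hΩ c x, W.prD_mem hΩ D.NA D.AL D.cldA c hx, (D.hrec.prc c x hx).symm⟩
  have hgrE : ∀ c, ∀ x ∈ (PM v N G M).map θ, pr c x ∈ (PM v N G M).map θ := by
    rintro c _ ⟨x, hx, rfl⟩
    exact ⟨W.prD hΩ c x, W.prD_mem hΩ le_rfl W.NL W.cldN c hx,
      (D.hrec.prc c x (PM.mono D.NA hx)).symm⟩
  have hγ : pr (QuotientAddGroup.mk d₁) (θ (M d₁ * u₁)) = θ (M d₁ * u₁) := by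
    rw [D.hrec.prc _ _ hym₁, W.prD_mon hΩ _ D.hd D.hu, if_pos rfl]
  obtain ⟨s, hs⟩ := exists_tay (p := p) D.cw D.hrec.gr hgrE (D.hrec.iso.tl_iff.2 D.tl₁) hγ rfl
  obtain ⟨x, hxT, hxl, hxf⟩ := D.far
  obtain ⟨m, h, hh, hbl, hgen, hmin⟩ := str12 (p := p) hk D.tly D.tlz
    (by rw [← D.eqT]; exact hxT) hxl hxf
  have hbT : z ^ p ^ m + h ∈ PM v L G M := add_mem (pow_mem D.memz _) (D.leB hh)
  have hm : 1 ≤ m := by
    by_contra hm
    have hm0 : m = 0 := by omega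
    subst hm0
    rw [pow_zero, pow_one] at hbl hbT
    refine D.top _ hbl ⟨D.tly, ?_, ?_⟩
    · have h1 := D.tlz.affine (one_mem _) one_ne_zero hh
      rwa [v.map_one, zero_add, one_mul] at h1
    · have h1 := cadj_affine (v := v) (A := cadj v (PM v A G M) y) (z := z) (one_mem _)
        one_ne_zero hh
      rw [one_mul] at h1
      rw [h1]
      exact D.eqT
  have hE₁' : PM v A G M = cadj v (PM v N G M) (M d₁ * u₁) := D.eq₁
  obtain ⟨c, e, n, P₀, yn, bn, he, hc0, hG⟩ := exists_gdat (p := p) (w := w) (pr := pr)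
    (E := PM v N G M) (y₁ := M d₁ * u₁) (y := y) (z := z) (RR := RR) (h₁ := h) (m := m)
    hk hΩ D.cw D.sph D.hrec.iso W.perfE D.tl₁
    (by rw [← hE₁']; exact D.tly) (by rw [← hE₁']; exact D.tlz) hs hgr D.rr
    (by
      rw [← hE₁']
      rintro u hu hul ⟨r, hr, h1⟩
      obtain ⟨a, ha, h2⟩ := D.rad u (D.leB hu) hul r hr h1
      by_contra hnr
      obtain ⟨P, e', he', h3⟩ := D.germ hul ⟨u, hu, by rw [sub_self]; exact RVal.Ge.zero⟩
      have hP : P ≠ 0 := by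
        rintro rfl
        rw [fevO_zero, zero_add] at h3
        exact hnr ⟨e', he', h3⟩
      obtain ⟨e'', he'', h4⟩ := lim_of_fev (p := p) (P := P) (e := e' - a) hk W.perfE D.tl₁
        (by rw [← hE₁']; exact D.tly.lim) hP (by rw [← hE₁']; exact sub_mem he' ha)
        (Lim.of_ge_sub h2 (by
          have := h3.neg
          refine Eq.mp (congrArg (fun w => v.Ge 0 w) ?_) this
          ring))
      rw [← hE₁'] at he''
      exact D.nc e'' he'' h4)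
    (by rw [← hE₁']; exact hh) hm (by rw [← hE₁']; exact hbl)
    (by rw [← hE₁']; exact hmin hm)
  rw [← hE₁'] at he
  refine ⟨z ^ p ^ m + h - algebraMap k Ω c * y - e, n, P₀, s, yn, bn, hc0, ?_, ?_, hG⟩
  · exact sub_mem (sub_mem hbT (mul_mem (IntermediateField.algebraMap_mem _ _) D.memy))
      (D.le₁ he)
  · refine Gen2.chg ?_ he
    intro x hx hl
    exact hgen x (by rw [← D.eqT]; exact hx) hl

/-- **Canonicity.** -/
theorem can {x : Ω} (hx : x ∈ PM v L G M) (hl : Lim v (PM v N G M) 0 x) :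
    Nr v (PM v A G M) 0 x := by
  have hk : Ctx0 k v := Fact.out
  obtain ⟨b, n, P₀, s, yn, bn, -, hb, hgen, hG⟩ := D.core
  have hxl : Lim v (PM v A G M) 0 x := hl.mono (PM.mono D.NA)
  obtain ⟨P₁, P₂, e, he, h1⟩ := hgen x hx hxl
  have hE₁ : cadj w ((PM v N G M).map θ) (θ (M d₁ * u₁)) = (PM v A G M).map θ := by
    rw [D.hrec.iso.cadj_map hΩ, ← D.eq₁]
  have hP₂ : P₂ = 0 := by
    refine hG.of_lim (P₁ := P₁) (x := θ x) (e := θ e) (D.hrec.iso.lim_iff.2 hl) ?_ ?_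
    · rw [hE₁]
      exact ⟨e, he, rfl⟩
    · rw [← map_fev, ← map_fev, ← map_add, ← map_add, ← map_sub]
      exact D.hrec.iso.ge_iff.2 h1
  rw [hP₂, fevO_zero, add_zero] at h1
  by_cases hP₁ : P₁ = 0
  · rw [hP₁, fevO_zero, zero_add] at h1
    exact ⟨e, he, h1⟩
  · exfalso
    obtain ⟨e'', he'', h4⟩ := lim_of_fev (p := p) (P := P₁) (e := e) hk W.perfE D.tl₁
      (by rw [← D.eq₁]; exact D.tly.lim) hP₁ (by rw [← D.eq₁]; exact he)
      (Lim.of_ge_sub hl (by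
        have := h1.neg
        refine Eq.mp (congrArg (fun w => v.Ge 0 w) ?_) this
        ring))
    rw [← D.eq₁] at he''
    exact D.nc e'' he'' h4

end OTD

end Pool.Agent.TWIV
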