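import Pool.Agent.Lib.TWIV.OTe
import Pool.Agent.Lib.TWIV.H28b

/-!
# TANK W, tame case, shape (1,2)': the homogeneous generator

* `OTD.comp`: the components of `y`; `OTD.h3a`: the homogeneous generator (from `FreeB`).
-/

set_option autoImplicit false
set_option linter.unusedSectionVars false

open Polynomial

namespace Pool.Agent.TWIV



open Pool.Agent.H15JM (RVal)
open Pool.Agent.LU1 (VPos adj)
open Pool.Agent.D2 (Ctx0)
open Pool.Agent.D2P (hen clI mem_clI)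
open Pool.Agent.TWM Pool.Agent.TWC Pool.Agent.TWS Pool.Agent.TWT

universe u

variable {k Ω H : Type u} [Field k] [Field Ω] [Algebra k Ω] [Field H] [Algebra k H]
  [IsAlgClosed k] [IsAlgClosed Ω] [IsAlgClosed H] {v : RVal Ω} {w : RVal H} [Fact (Ctx0 k v)]
  [Fact (Ctx0 k w)] {p : ℕ} [hp : Fact p.Prime] [CharP k p] [PerfectRing k p] [CharP Ω p]
  [CharP H p] [PerfectRing H p] {N L A : IntermediateField k Ω} {G : AddSubgroup ℝ} {M : ℝ → Ω}
  {θ : Ω →ₐ[k] H} {pr : (ℝ ⧸ VG v N) → H →ₗ[k] H} {RR : Submodule k H}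

/-- The classes of the limits of `B₁` which are near to `B`. -/
def NrW (v : RVal Ω) [Fact (Ctx0 k v)] (T B₁ B : IntermediateField k Ω) :
    Submodule k (MQ v T B₁) where
  carrier := {m | ∃ (x : Ω) (hx : x ∈ LimS v T B₁), m = cl hx ∧ Nr v B 0 x}
  add_mem' := by
    rintro _ _ ⟨x, hx, rfl, a, ha, h1⟩ ⟨y, hy, rfl, b, hb, h2⟩
    refine ⟨x + y, (LimS v T B₁).add_mem hx hy, cl_add hx hy, a + b, add_mem ha hb, ?_⟩
    rw [add_sub_add_comm]
    exact h1.add h2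
  zero_mem' := ⟨0, (LimS v T B₁).zero_mem, rfl, 0, zero_mem _, by
    rw [sub_zero]
    exact RVal.Ge.zero⟩
  smul_mem' := by
    rintro c _ ⟨x, hx, rfl, a, ha, h1⟩
    refine ⟨c • x, (LimS v T B₁).smul_mem c hx, cl_smul hx c, c • a, B.smul_mem ha, ?_⟩
    rw [← smul_sub, Algebra.smul_def]
    have := ((Fact.out : Ctx0 k v).ge c).mul h1
    rwa [zero_add] at this

theorem cl_mem_NrW {T B₁ B : IntermediateField k Ω} (hB : B₁ ≤ B) {x : Ω}
    (hx : x ∈ LimS v T B₁) : cl hx ∈ NrW v T B₁ B ↔ Nr v B 0 x := by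
  constructor
  · rintro ⟨x', hx', h1, b, hb, h2⟩
    rw [cl_eq] at h1
    obtain ⟨a, ha, h3⟩ := h1
    refine ⟨a + b, add_mem (hB ha) hb, ?_⟩
    refine Eq.mp (congrArg (fun w => v.Ge 0 w) ?_) (h3.add h2)
    ring
  · intro h
    exact ⟨x, hx, rfl, h⟩

namespace OTD

variable {W : World p v N L G M} {hΩ : CompleteV v} {d₁ : ℝ} {u₁ y z : Ω}
  (D : OTD W hΩ w θ pr RR A d₁ u₁ y z)

include D

/-- The components of `y` are near to `E_1⟨y⟩`. -/
theorem comp (c : ℝ ⧸ VG v N) : ∃ P : k[X], ∃ e ∈ PM v A G M,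
    v.Ge 0 (W.prD hΩ c y - (fev p P y + e)) := by
  classical
  have hk : Ctx0 k v := Fact.out
  obtain ⟨b, n, P₀, s, yn, bn, hc0, hb, hgen, hG⟩ := D.core
  have hE₁ : cadj w ((PM v N G M).map θ) (θ (M d₁ * u₁)) = (PM v A G M).map θ := by
    rw [D.hrec.iso.cadj_map hΩ, ← D.eq₁]
  have hyS : y ∈ LimS v (PM v L G M) (PM v A G M) := ⟨D.memy, D.tly.lim⟩
  have hle := le_cadj v (PM v A G M) y
  set Wm := NrW v (PM v L G M) (PM v A G M) (cadj v (PM v A G M) y) with hWm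
  obtain ⟨hfS, hop⟩ := W.op_fev hΩ D.NA D.AL D.cldA P₀ hyS
  have hmem : (W.gm hΩ D.NA D.AL D.cldA).pr c (cl hyS) ∈ Wm := by
    refine (W.gm hΩ D.NA D.AL D.cldA).comp_mem (A₁ := P₀) (W := Wm) ?_ ?_ hc0 ?_ c
    · rintro _ ⟨x, hx, rfl, a, ha, h1⟩
      rw [W.gm_F hΩ D.NA D.AL D.cldA]
      refine ⟨x ^ p, pow_LimS (p := p) hx, rfl, a ^ p, pow_mem ha p, ?_⟩
      rw [← sub_pow_char]
      have := ge_pow h1 p
      rwa [mul_zero] at this
    · intro P m hP hm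
      obtain ⟨x, hx, rfl⟩ := exists_cl m
      obtain ⟨h1, h2⟩ := W.op_fev hΩ D.NA D.AL D.cldA P hx
      rw [h2, cl_mem_NrW hle] at hm
      rw [cl_mem_NrW hle]
      exact D.near hx.1 (hx.2.mono hle) hP hm
    · intro d
      rw [hop, W.gm_pr hΩ D.NA D.AL D.cldA, cl_mem_NrW hle]
      obtain ⟨P₁, P₂, e, he, h1⟩ := hgen _ (W.prD_lim hΩ D.NA D.AL D.cldA d hfS).1
        (W.prD_lim hΩ D.NA D.AL D.cldA d hfS).2
      have hP₂ : P₂ = 0 := by
        refine hG.alpha (P₁ := P₁) (c := d) (e := θ e) D.hrec.gr ?_ ?_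
        · rw [hE₁]
          exact ⟨e, he, rfl⟩
        · have h2 := D.hrec.lim D.AL hfS.1 hfS.2 d
          have h3 := D.hrec.iso.ge_iff.2 h1
          rw [map_fev] at h2
          rw [map_sub, map_add, map_add, map_fev, map_fev] at h3
          refine Eq.mp (congrArg (fun x => w.Ge 0 x) ?_) (h2.add h3)
          ring
      rw [hP₂, fevO_zero, add_zero] at h1
      exact ⟨fev p P₁ y + e, add_mem (fev_mem P₁ (self_mem_cadj _ _ _)) (hle he), h1⟩
  rw [W.gm_pr hΩ D.NA D.AL D.cldA, cl_mem_NrW hle] at hmem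
  exact D.germ (W.prD_lim hΩ D.NA D.AL D.cldA c hyS).2 hmem

/-- **The homogeneous generator.** -/
theorem h3a (hF : FreeB k p v L (PM v A G M) G M) : ∃ d ∈ G, ∃ l ∈ L,
    TL v (PM v A G M) (M d * l) 0 ∧ Tow v 1 (cadj v (PM v A G M) (M d * l)) (PM v L G M) ∧
      ∃ κ : k, κ ≠ 0 ∧ ∃ e ∈ PM v A G M, v.Ge 0 (M d * l - (algebraMap k Ω κ * y + e)) := by
  have hk : Ctx0 k v := Fact.out
  obtain ⟨d, hd, l, hl, κ, hκ, e, he, h1⟩ := W.homog_free hΩ D.NA D.AL D.cldA hF D.memy D.tly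
    D.comp
  have hT : Tow v 1 (cadj v (PM v A G M) y) (PM v L G M) := by
    rw [D.eqT]
    exact Tow.succ D.tlz (Tow.zero (cld_cadj _ _ _))
  obtain ⟨h2, h3⟩ := tow_chg hk D.tly hT hκ he (mul_mem (PM.mon hd) (PM.le hl)) h1
  exact ⟨d, hd, l, hl, h2, h3, κ, hκ, e, he, h1⟩

end OTD

end Pool.Agent.TWIV
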