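import Pool.Agent.Lib.TWIV.OTf
import Pool.Agent.Lib.TWC.Tow

/-!
# TANK W, tame case, shape (1,2)': change of the generator in the shape

* `Shp.chg`: the shape for another generator `y' = κ y + e + o`.
-/

set_option autoImplicit false
set_option linter.unusedSectionVars false

open Polynomial

namespace Pool.Agent.TWIV

open Pool.Agent.H15JM (RVal)
open Pool.Agent.D2 (Ctx0)
open Pool.Agent.TWM Pool.Agent.TWC

universe u

variable {k Ω : Type u} [Field k] [Field Ω] [Algebra k Ω] [IsAlgClosed Ω] {v : RVal Ω}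
  {E E₁ T : IntermediateField k Ω} {y₁ y z y' z' : Ω}

/-- **Change of the generator in the shape.** -/
theorem Shp.chg (p : ℕ) [hp : Fact p.Prime] [CharP k p] [PerfectRing k p] [CharP Ω p]
    (hk : Ctx0 k v) (S : Shp v E E₁ T y₁ y z) {κ : k} (hκ : κ ≠ 0) {e : Ω}
    (he : e ∈ E₁) (h : v.Ge 0 (y' - (algebraMap k Ω κ * y + e))) (hy' : TL v E₁ y' 0)
    (hz' : TL v (cadj v E₁ y') z' 0) (hT : T = cadj v (cadj v E₁ y') z') :
    Shp v E E₁ T y₁ y' z' := by
  have hκ' : algebraMap k Ω κ ≠ 0 := (_root_.map_ne_zero _).2 hκ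
  have hyB : y ∈ cadj v E₁ y := self_mem_cadj _ _ _
  have hle := le_cadj v E₁ y
  refine ⟨S.eq₁, S.tl₁, hy', hz', hT, ?_, ?_, ?_⟩
  · obtain ⟨x, hxT, hxl, hxf⟩ := S.far
    refine ⟨x, hxT, hxl, ?_⟩
    rintro ⟨b, hb, h1⟩
    refine hxf ?_
    have h2 : Lim v E₁ 0 b := Lim.of_ge_sub hxl (by
      have := h1.neg
      rwa [neg_sub] at this)
    obtain ⟨e', he', n, c, h3⟩ := germ_res hk hy' p hb h2
    obtain ⟨P, -, hP⟩ := exists_fev (p := p) (Ω := Ω) c n
    rw [← hP] at h3
    refine ⟨e' + fev p P (algebraMap k Ω κ * y + e), add_mem (hle he')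
      (fev_mem P (add_mem (mul_mem (IntermediateField.algebraMap_mem _ _) hyB) (hle he))), ?_⟩
    have h4 := ge_fev (p := p) hk P h
    rw [fev_sub] at h4
    refine Eq.mp (congrArg (fun w => v.Ge 0 w) ?_) ((h1.add h3.ge).add h4)
    ring
  · intro b hb hF
    refine S.top b hb ?_
    have h1 : Fib v E₁ T b y' 0 0 := hF.swap hb
    obtain ⟨ρ, h2⟩ := hk.residue h
    have hi : algebraMap k Ω κ⁻¹ ≠ 0 := (_root_.map_ne_zero _).2 (inv_ne_zero hκ)
    have hyT : y ∈ T := by
      rw [S.eqT]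
      exact le_cadj _ _ _ hyB
    have hle' := le_cadj v E₁ b
    have h3 : Fib v E₁ T b y 0 0 := by
      refine h1.gen₂ (c := algebraMap k Ω κ⁻¹)
        (f := -(algebraMap k Ω κ⁻¹ * (e + algebraMap k Ω ρ)))
        (IntermediateField.algebraMap_mem _ _) hi
        (neg_mem (mul_mem (IntermediateField.algebraMap_mem _ _)
          (add_mem (hle' he) (IntermediateField.algebraMap_mem _ _)))) hyT
        (by rw [hk.triv _ (inv_ne_zero hκ), zero_add]) ?_
      have h4 : y - (algebraMap k Ω κ⁻¹ * y' + -(algebraMap k Ω κ⁻¹ *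
          (e + algebraMap k Ω ρ))) =
          -(algebraMap k Ω κ⁻¹ * (y' - (algebraMap k Ω κ * y + e) - algebraMap k Ω ρ)) := by
        have h5 : algebraMap k Ω κ⁻¹ * algebraMap k Ω κ = 1 := by
          rw [← map_mul, inv_mul_cancel₀ hκ, map_one]
        calc _ = y - algebraMap k Ω κ⁻¹ * y' + algebraMap k Ω κ⁻¹ * (e + algebraMap k Ω ρ) := by
              ring
          _ = (algebraMap k Ω κ⁻¹ * algebraMap k Ω κ) * y - algebraMap k Ω κ⁻¹ * y' +
              algebraMap k Ω κ⁻¹ * (e + algebraMap k Ω ρ) := by rw [h5, one_mul]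
          _ = _ := by ring
      rw [h4]
      have h5 := Gt.mul_ge h2 (hk.ge κ⁻¹)
      rw [zero_add, mul_comm] at h5
      exact h5.neg
    exact h3.swap S.tly.lim
  · intro e' he' hl
    have h1 : Lim v E 0 (algebraMap k Ω κ * y + e - e') := Lim.of_ge_sub hl (by
      have := h.neg
      refine Eq.mp (congrArg (fun w => v.Ge 0 w) ?_) this
      ring)
    have h2 : Lim v E 0 (algebraMap k Ω κ⁻¹ * (algebraMap k Ω κ * y + e - e')) := by
      intro ε hε
      obtain ⟨a, ha, h3⟩ := h1 ε hε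
      refine ⟨algebraMap k Ω κ⁻¹ * a, mul_mem (IntermediateField.algebraMap_mem _ _) ha, ?_⟩
      rw [← mul_sub]
      have h4 := (hk.ge κ⁻¹).mul h3
      rwa [zero_add] at h4
    refine S.nc (algebraMap k Ω κ⁻¹ * (e' - e))
      (mul_mem (IntermediateField.algebraMap_mem _ _) (sub_mem he' he)) ?_
    have h5 : algebraMap k Ω κ⁻¹ * algebraMap k Ω κ = 1 := by
      rw [← map_mul, inv_mul_cancel₀ hκ, map_one]
    have h6 : y - algebraMap k Ω κ⁻¹ * (e' - e) =
        algebraMap k Ω κ⁻¹ * (algebraMap k Ω κ * y + e - e') := by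
      calc _ = (algebraMap k Ω κ⁻¹ * algebraMap k Ω κ) * y - algebraMap k Ω κ⁻¹ * (e' - e) := by
            rw [h5, one_mul]
        _ = _ := by ring
    rwa [h6]

end Pool.Agent.TWIV
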