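import Pool.Agent.Lib.TWIV.EuA
import Pool.Agent.Lib.TWIV.Str12
import Pool.Agent.Lib.TWIV.A2P
import Pool.Agent.Lib.TWC.MainP
import Pool.Agent.Lib.TWS.MonK

/-!
# TANK W, tame case: the exhaustion over a perfect base

* `sat_perf`: `x` a limit of `E⟨c⟩`, `P(F) x + e` a limit of `E`, `P ≠ 0`, `E` perfect: then
  `x` is in `E⟨c⟩ + L(E)`;
* `perf_descend`: the descent of the tower along the roots;
* `perf_exh`: **(PF)** `E` perfect, `T` a tower of length `3` over `E`, `w` a saturated limit of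
  `E` in `T`: then `T` is a tower of length `2` over `E⟨w⟩`.
-/

set_option autoImplicit false
set_option linter.unusedSectionVars false

open Polynomial

namespace Pool.Agent.TWIV

open Pool.Agent.H15JM (RVal)
open Pool.Agent.LU1 (VPos adj)
open Pool.Agent.D2 (Ctx0)
open Pool.Agent.D2P (hen clI mem_clI)
open Pool.Agent.TWM Pool.Agent.TWS
open Pool.Agent.TWC (Tow Nul Cau InBL EW EW.cld EW.le EW.mem)

universe u

variable {k Ω : Type u} [Field k] [Field Ω] [Algebra k Ω] {v : RVal Ω}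
  {E T T₀ : IntermediateField k Ω} {G : AddSubgroup ℝ} {M : ℝ → Ω} {p : ℕ}

theorem ev00_fev (hM : MS v G M) (P : k[X]) (x : Ω) : TWM.ev p M 0 0 P x = fev p P x := by
  rw [TWM.ev, fev, Polynomial.sum_def]
  refine Finset.sum_congr rfl fun j _ => ?_
  rw [mul_zero, sub_zero, hM.zero, mul_one]

theorem fev_X_pow (m : ℕ) (x : Ω) : fev p (X ^ m : k[X]) x = x ^ p ^ m := by
  rw [fev, Polynomial.support_X_pow, Finset.sum_singleton, coeff_X_pow_self, map_one,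
    one_mul]

/-- The operator with its lowest term first. -/
theorem fev_low {P : k[X]} {m : ℕ} (hlt : ∀ j < m, P.coeff j = 0)
    (hm : m ≤ P.natDegree) (x : Ω) :
    fev p P x = ∑ i ∈ Finset.range (P.natDegree - m + 1),
      algebraMap k Ω (P.coeff (m + i)) * (x ^ p ^ m) ^ p ^ i := by
  rw [fev, Finset.sum_subset (s₂ := Finset.range (m + (P.natDegree - m + 1)))
    (fun i hi => by
      rw [Finset.mem_range]
      have := le_natDegree_of_mem_supp i hi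
      omega)
    (fun i _ hi => by rw [notMem_support_iff.1 hi, map_zero, zero_mul]),
    Finset.sum_range_add, Finset.sum_eq_zero fun i hi => by
      rw [hlt i (Finset.mem_range.1 hi), map_zero, zero_mul], zero_add]
  refine Finset.sum_congr rfl fun i _ => ?_
  rw [← pow_mul, ← pow_add]

section Sat

variable [IsAlgClosed Ω] [hp : Fact p.Prime] [CharP Ω p]

/-- **The saturation over a perfect base.** -/
theorem sat_perf (hk : Ctx0 k v) (hE : ∀ a ∈ E, ∃ b ∈ E, b ^ p = a) {c : Ω} (hc : TL v E c 0)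
    {x e : Ω} (hx : Lim v (cadj v E c) 0 x) {P : k[X]} (hP : P ≠ 0) (he : e ∈ cadj v E c)
    (hl : Lim v E 0 (fev p P x + e)) : ∃ b ∈ cadj v E c, Lim v E 0 (x - b) := by
  classical
  have hex : ∃ j, P.coeff j ≠ 0 := ⟨P.natDegree, by
    rw [coeff_natDegree]; exact leadingCoeff_ne_zero.2 hP⟩
  set m := Nat.find hex with hm
  have hm0 : P.coeff m ≠ 0 := Nat.find_spec hex
  have hlt : ∀ j < m, P.coeff j = 0 := fun j hj => by
    by_contra h
    exact Nat.find_min hex hj h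
  rw [fev_low hlt (le_natDegree_of_ne_zero hm0)] at hl
  have hxm : Lim v (cadj v E c) 0 (x ^ p ^ m) := by
    rw [← fev_X_pow (k := k)]
    exact Lim.fevB hk hx _
  obtain ⟨F, hF, h1⟩ := lim_frob p hk hc (P := fun i => P.coeff (m + i))
    (M := P.natDegree - m) (w := x ^ p ^ m) hm0 he hxm hl
  obtain ⟨y, hy, hyn⟩ := TWC.Lim.exists_cau hx
  obtain ⟨n, hn, hnn⟩ := TWC.Lim.exists_cau h1
  have hFc : F.eval c ∈ cadj v E c :=
    eval_mem (PI_mono (le_cadj v E c) hF) (self_mem_cadj v E c)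
  have h2 : InBL v (cadj v E c) E fun i => y i ^ p ^ m := by
    refine ⟨F.eval c, hFc, n, hn, ?_⟩
    refine (hnn.sub (nul_powB p (x := fun _ => x) hyn m)).congr fun i => ?_
    ring
  obtain ⟨b, hb, n', hn', h3⟩ := TWC.lemmaR_ii' hk hc p hE (q := m) hy h2
  refine ⟨b, hb, TWC.Lim.of_nul (m := n') hn'.mem ((hyn.add h3).congr fun i => ?_)⟩
  ring

end Sat

section Desc

variable [Fact (Ctx0 k v)] [hp : Fact p.Prime] [CharP k p] [CharP Ω p] [PerfectRing k p]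
  [IsAlgClosed Ω]

/-- **The descent of the tower along the roots of `w`.** -/
theorem perf_descend (hc : CompleteV v) (hE : Cld v E) (hM : MonG v E ⊤ M)
    (hE' : ∀ a ∈ E, ∃ b ∈ E, b ^ p = a) {w : Ω} (hw : TL v E w 0) (hT : Cld v T)
    (h0T : T₀ ≤ T) {m : ℕ} (hm : ∀ x ∈ T, x ^ p ^ m ∈ T₀)
    (hfar : ∀ l ∈ T, ¬ v.Ge 0 (l ^ p - w)) {n : ℕ} (hn : n ≤ 2)
    (h : TowR v n (TWM.cadj v E w) T₀) : TowR v n (TWM.cadj v E w) T := by
  have hET : E ≤ T := (le_cadj v E w).trans (h.le.trans h0T)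
  have hwT : w ∈ T := h0T (h.le (self_mem_cadj v E w))
  obtain ⟨r, rfl, hr⟩ := TWC.exists_roots p w
  have hi : Imm v E (EW v E r) := TWS.imm_EW p hE' hr hw
  have hMP : MonG v (EW v E r) ⊤ M := hM.imm hi
  have h1 : TowR v n (EW v E r) (clI v (T₀ ⊔ EW v E r)) := TWS.first_base p hr (i := 0) h
  have h2 : ∀ j, TowR v n (EW v E r) (clI v ((D2P.rootF p j T₀ ⊓ T) ⊔ EW v E r)) := by
    intro j
    induction j with
    | zero =>
      have e1 : D2P.rootF p 0 T₀ ⊓ T = T₀ := by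
        refine le_antisymm (fun x hx => ?_) (le_inf (fun x hx => ?_) h0T)
        · have h3 := D2P.mem_rootF.1 (IntermediateField.mem_inf.1 hx).1
          rwa [pow_zero, pow_one] at h3
        · rw [D2P.mem_rootF, pow_zero, pow_one]
          exact hx
      rwa [e1]
    | succ j ih =>
      refine TWC.tow_step' hc hn hMP EW.cld (TWC.EW.perf p hc hE hE' hr) ih
        (fun x hx => ?_) (fun x hx => ?_)
      · obtain ⟨h3, h4⟩ := IntermediateField.mem_inf.1 hx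
        refine IntermediateField.mem_inf.2 ⟨D2P.mem_rootF.2 ?_, h4⟩
        rw [pow_succ, pow_mul]
        exact pow_mem (D2P.mem_rootF.1 h3) p
      · obtain ⟨h3, h4⟩ := IntermediateField.mem_inf.1 hx
        refine IntermediateField.mem_inf.2 ⟨D2P.mem_rootF.2 ?_, pow_mem h4 p⟩
        have h5 := D2P.mem_rootF.1 h3
        rwa [pow_succ', pow_mul] at h5
  have h3 := h2 m
  have e2 : D2P.rootF p m T₀ ⊓ T = T :=
    le_antisymm inf_le_right (le_inf (fun x hx => D2P.mem_rootF.2 (hm x hx)) le_rfl)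
  rw [e2] at h3
  exact last_descent p hc hE hM hE' hr hw hT hET hwT hfar hn h3

end Desc

section Core

variable [hcx : Fact (Ctx0 k v)] [hp : Fact p.Prime] [CharP k p] [CharP Ω p] [IsAlgClosed k]
  [IsAlgClosed Ω] {c₁ c₂ c₃ : Ω}

/-- `w` is saturated among the limits of `E` in `T`. -/
def Sat (k : Type u) {Ω : Type u} [Field k] [Field Ω] [Algebra k Ω] (p : ℕ) (M : ℝ → Ω)
    (v : RVal Ω) (E T : IntermediateField k Ω) (w : Ω) : Prop :=
  ∀ y ∈ T, Lim v E 0 y → ∀ P Q : k[X], P ≠ 0 →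
    Nr' v E 0 (TWM.ev p M 0 0 P y - TWM.ev p M 0 0 Q w) →
    ∃ S : k[X], Nr' v E 0 (y - TWM.ev p M 0 0 S w)

theorem ev00_not_nr' (hM : MS v G M) (hME : ∀ g ∈ G, M g ∈ E) {a : Ω} (ha : TL v E a 0)
    {f : k[X]} (h : Nr' v E 0 (TWM.ev p M 0 0 f a)) : f = 0 := by
  by_contra hf
  obtain ⟨θ, hθ, h1⟩ := h
  obtain ⟨h2, h3⟩ := TL.ev_far (hcx.out) hM hME ha (isOp00 (p := p) (G := G) f) hf
    (mem_algc.mp (le_algc E hθ))
  exact lt_asymm h3 (h1 (sub_ne_zero.mpr h2))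

/-- A generator of a saturated element is a unit multiple. -/
theorem Sat.unit (hM : MS v G M) (hME : ∀ g ∈ G, M g ∈ E) {w a : Ω} (hs : Sat k p M v E T w)
    (haT : a ∈ T) (ha : TL v E a 0) {D : k[X]} (hD : D ≠ 0)
    (h : Nr' v E 0 (w - TWM.ev p M 0 0 D a)) : ∃ d : k, d ≠ 0 ∧ D = C d := by
  obtain ⟨S, hS⟩ := hs a haT ha.lim D 1 hD (by
    rw [ev_one hM]
    have h1 := nr'_neg h
    rwa [neg_sub] at h1)
  have h1 := nr'_ev00 (p := p) hcx.out hM hME S h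
  have h2 := nr'_add hS h1
  rw [ev_sub_right, ← ev00_tw hM, sub_add_sub_cancel] at h2
  have h3 : Nr' v E 0 (TWM.ev p M 0 0 (1 - tw p S D) a) := by
    rw [ev_sub, ev_one hM]
    exact h2
  have h4 := ev00_not_nr' hM hME ha h3
  obtain ⟨-, h5⟩ := tw_eq_one (sub_eq_zero.1 h4).symm
  obtain ⟨d, rfl⟩ := natDegree_eq_zero.1 h5
  exact ⟨d, fun h6 => hD (by rw [h6, C_0]), rfl⟩

/-- **The first generator over the perfect base.** -/
theorem perf_core (hM : MS v G M) (hME : ∀ g ∈ G, M g ∈ E) (hvE : ∀ b ∈ E, b ≠ 0 → v b ∈ G)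
    (hE' : ∀ a ∈ E, ∃ b ∈ E, b ^ p = a) {c x x' w : Ω} (hc : TL v E c 0)
    (hx : TL v (cadj v E c) x 0) (hx' : TL v (cadj v (cadj v E c) x) x' 0)
    (hw : Lim v E 0 w) {D : k[X]} (hD : D ≠ 0)
    (hwD : Nr' v (cadj v E c) 0 (w - TWM.ev p M 0 0 D x)) :
    ∃ (a : Ω) (D' : k[X]), a ∈ cadj v (cadj v (cadj v E c) x) x' ∧ TL v E a 0 ∧
      TowR v 2 (cadj v E a) (cadj v (cadj v (cadj v E c) x) x') ∧
      Nr' v E 0 (w - TWM.ev p M 0 0 D' a) := by
  have hk : Ctx0 k v := hcx.out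
  obtain ⟨e, he, h1⟩ := hwD
  have hl : Lim v E 0 (fev p D x + e) := by
    refine Lim.of_ge_sub hw ?_
    rw [← ev00_fev hM, show TWM.ev p M 0 0 D x + e - w = -(w - TWM.ev p M 0 0 D x - e) by ring]
    exact h1.ge.neg
  obtain ⟨b, hb, hxb⟩ := sat_perf hk hE' hc hx.lim hD he hl
  have hx1 : TL v (cadj v E c) (x - b) 0 := hx.sub_mem hb
  have ex : cadj v (cadj v E c) (x - b) = cadj v (cadj v E c) x := cadj_sub_mem hb
  -- the part in `E⟨c⟩`
  have hg : TWM.ev p M 0 0 D b + e ∈ cadj v E c := by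
    refine add_mem ?_ he
    rw [ev00_fev hM]
    exact fev_mem D hb
  have h2 : Gt v 0 (w - TWM.ev p M 0 0 D (x - b) - (TWM.ev p M 0 0 D b + e)) := by
    rw [ev_sub_right]
    rwa [show w - (TWM.ev p M 0 0 D x - TWM.ev p M 0 0 D b) - (TWM.ev p M 0 0 D b + e) =
      w - TWM.ev p M 0 0 D x - e by ring]
  have h3 : Lim v E 0 (TWM.ev p M 0 0 D (x - b)) := by
    rw [ev00_fev hM]
    exact Lim.fevB hk hxb D
  have hgl : Lim v E 0 (TWM.ev p M 0 0 D b + e) := by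
    refine Lim.of_ge_sub (Lim.sub' hw h3) ?_
    rw [show TWM.ev p M 0 0 D b + e - (w - TWM.ev p M 0 0 D (x - b)) =
      -(w - TWM.ev p M 0 0 D (x - b) - (TWM.ev p M 0 0 D b + e)) by ring]
    exact h2.ge.neg
  obtain ⟨Q, -, hQ⟩ := TL.exists_ev (p := p) hk hM hME hvE hc hg hgl
  have hwQ : Nr' v E 0 (w - (TWM.ev p M 0 0 Q c + TWM.ev p M 0 0 D (x - b))) := by
    obtain ⟨f, hf, h4⟩ := hQ
    refine ⟨f, hf, ?_⟩
    rw [show w - (TWM.ev p M 0 0 Q c + TWM.ev p M 0 0 D (x - b)) - f =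
      (w - TWM.ev p M 0 0 D (x - b) - (TWM.ev p M 0 0 D b + e)) +
      (TWM.ev p M 0 0 D b + e - TWM.ev p M 0 0 Q c - f) by ring]
    exact h2.add h4
  -- Euclid
  set K := cadj v (cadj v E c) (x - b) with hK
  have hcK : c ∈ K := le_cadj v _ _ (self_mem_cadj v E c)
  have hxK : x - b ∈ K := self_mem_cadj v _ _
  obtain ⟨a, a', D', α, β, γ, δ, α', β', γ', δ', ha, ha', h5, h6, h7, h8, h9⟩ :=
    euclid2 hM (K := K) (D.natDegree + 1) c (x - b) Q D hcK hxK (Or.inl (Nat.lt_succ_self _)) hwQ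
  have hB : Bs v E K p G M c (x - b) 0 0 a a' 0 0 α β γ δ :=
    { m₁ := ha
      m₂ := ha'
      oP₁ := isOp00 _
      oR₁ := isOp00 _
      oP₂ := isOp00 _
      oR₂ := isOp00 _
      e₁ := by
        rw [← h6, sub_self]
        exact Nr'.self E.zero_mem
      e₂ := by
        rw [← h7, sub_self]
        exact Nr'.self E.zero_mem
      spy := ⟨α', β', isOp00 _, isOp00 _, by
        rw [← h8, sub_self]
        exact Nr'.self E.zero_mem⟩
      spz := ⟨γ', δ', isOp00 _, isOp00 _, by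
        rw [← h9, sub_self]
        exact Nr'.self E.zero_mem⟩ }
  have hF : Fib v E K a a' 0 0 := Fib.basis hk hM hME ⟨hc, hx1, rfl⟩ hxb hB
  have hKx : K = cadj v (cadj v E c) x := ex
  refine ⟨a, D', ?_, hF.ty, ?_, h5⟩
  · rw [← hKx]
    exact le_cadj v _ _ ha
  · rw [← hKx] at hx' ⊢
    refine TowR.succ hF.tz ?_
    rw [← hF.eq]
    exact TowR.succ hx' (TowR.zero (cld_cadj v _ _))

/-- The pair over `E⟨c₁⟩`. -/
theorem perf_pair (hM : MS v G M) (hME : ∀ g ∈ G, M g ∈ E)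
    (hvE₁ : ∀ b ∈ cadj v (cadj v E c₁) c₂, b ≠ 0 → v b ∈ G)
    {w : Ω} (h₂ : TL v (cadj v E c₁) c₂ 0)
    (h₃ : TL v (cadj v (cadj v E c₁) c₂) c₃ 0)
    (hw : w ∈ cadj v (cadj v (cadj v E c₁) c₂) c₃) (hwl : Lim v E 0 w)
    (hwn : ¬ Nr' v (cadj v E c₁) 0 w) :
    ∃ (m : ℕ) (x x' : Ω) (D : k[X]), TL v (cadj v E c₁) x 0 ∧
      TL v (cadj v (cadj v E c₁) x) x' 0 ∧
      cadj v (cadj v (cadj v E c₁) x) x' ≤ cadj v (cadj v (cadj v E c₁) c₂) c₃ ∧
      (∀ z ∈ cadj v (cadj v (cadj v E c₁) c₂) c₃,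
        z ^ p ^ m ∈ cadj v (cadj v (cadj v E c₁) x) x') ∧
      D ≠ 0 ∧ Nr' v (cadj v E c₁) 0 (w - TWM.ev p M 0 0 D x) := by
  have hk : Ctx0 k v := hcx.out
  set E₁ := cadj v E c₁ with hE₁
  have hEE₁ : E ≤ E₁ := le_cadj v E c₁
  have hME₁ : ∀ g ∈ G, M g ∈ E₁ := fun g hg => hEE₁ (hME g hg)
  have hvE' : ∀ b ∈ E₁, b ≠ 0 → v b ∈ G := fun b hb => hvE₁ b (le_cadj v _ _ hb)
  have hwl₁ : Lim v E₁ 0 w := fun ε hε => by
    obtain ⟨a, ha, h4⟩ := hwl ε hε
    exact ⟨a, hEE₁ ha, h4⟩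
  have hD0 : ∀ {D : k[X]} {x : Ω}, Nr' v E₁ 0 (w - TWM.ev p M 0 0 D x) → D ≠ 0 := by
    rintro D x h rfl
    rw [ev_zero, sub_zero] at h
    exact hwn h
  by_cases hcase : ∃ b₀ ∈ cadj v (cadj v E₁ c₂) c₃, Lim v E₁ 0 b₀ ∧ ¬ Nr v (cadj v E₁ c₂) 0 b₀
  · obtain ⟨b₀, hb₀, hbl, hbn⟩ := hcase
    obtain ⟨m, h, hh, hbl', hspan, -⟩ := str12 hk h₂ h₃ hb₀ hbl hbn
    set b := c₃ ^ p ^ m + h with hb
    have htb : TL v (cadj v E₁ c₂) b 0 := by
      have h4 := (tl_pow_powB p h₃ m).sub_mem (neg_mem hh)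
      rwa [sub_neg_eq_add] at h4
    have hbT : b ∈ cadj v (cadj v E₁ c₂) c₃ :=
      add_mem (pow_mem (self_mem_cadj v _ _) _) (le_cadj v _ _ hh)
    obtain ⟨P₁, P₂, e, he, h4⟩ := hspan w hw hwl₁
    have hwP : Nr' v E₁ 0 (w - (TWM.ev p M 0 0 P₁ c₂ + TWM.ev p M 0 0 P₂ b)) := by
      refine Nr.nr' ⟨e, he, ?_⟩
      rw [ev00_fev hM, ev00_fev hM]
      rwa [sub_sub]
    set K := cadj v (cadj v E₁ c₂) b with hK
    have hcK : c₂ ∈ K := le_cadj v _ _ (self_mem_cadj v E₁ c₂)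
    have hbK : b ∈ K := self_mem_cadj v _ _
    obtain ⟨a, a', D, α, β, γ, δ, α', β', γ', δ', ha, ha', h5, h6, h7, h8, h9⟩ :=
      euclid2 hM (K := K) (P₂.natDegree + 1) c₂ b P₁ P₂ hcK hbK (Or.inl (Nat.lt_succ_self _)) hwP
    have hB : Bs v E₁ K p G M c₂ b 0 0 a a' 0 0 α β γ δ :=
      { m₁ := ha
        m₂ := ha'
        oP₁ := isOp00 _
        oR₁ := isOp00 _
        oP₂ := isOp00 _
        oR₂ := isOp00 _
        e₁ := by
          rw [← h6, sub_self]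
          exact Nr'.self E₁.zero_mem
        e₂ := by
          rw [← h7, sub_self]
          exact Nr'.self E₁.zero_mem
        spy := ⟨α', β', isOp00 _, isOp00 _, by
          rw [← h8, sub_self]
          exact Nr'.self E₁.zero_mem⟩
        spz := ⟨γ', δ', isOp00 _, isOp00 _, by
          rw [← h9, sub_self]
          exact Nr'.self E₁.zero_mem⟩ }
    have hF : Fib v E₁ K a a' 0 0 := Fib.basis hk hM hME₁ ⟨h₂, htb, rfl⟩ hbl' hB
    refine ⟨m, a, a', D, hF.ty, hF.tz, ?_, ?_, hD0 h5, h5⟩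
    · rw [← hF.eq]
      exact cadj_le (cld_cadj v _ _) (le_cadj v _ _) hbT
    · rw [← hF.eq]
      have h10 : cadj v (cadj v E₁ c₂) c₃ ≤ D2P.rootF p m K := by
        refine cadj_le (TWC.cld_rootFn p m (cld_cadj v _ _)) (fun z hz => ?_) ?_
        · exact D2P.mem_rootF.2 (pow_mem (le_cadj v _ _ hz) _)
        · refine D2P.mem_rootF.2 ?_
          have h11 : c₃ ^ p ^ m = b - h := by
            rw [hb]
            ring
          rw [h11]
          exact sub_mem hbK (le_cadj v _ _ hh)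
      exact fun z hz => D2P.mem_rootF.1 (h10 hz)
  · have h4 : Nr v (cadj v E₁ c₂) 0 w := by
      by_contra h5
      exact hcase ⟨w, hw, hwl₁, h5⟩
    obtain ⟨g, hg, h5⟩ := Nr.nr' h4
    have hgl : Lim v E₁ 0 g := by
      refine Lim.of_ge_sub hwl₁ ?_
      rw [show g - w = -(w - g) by ring]
      exact h5.ge.neg
    obtain ⟨D, -, hD⟩ := TL.exists_ev (p := p) hk hM hME₁ hvE' h₂ hg hgl
    have h6 : Nr' v E₁ 0 (w - TWM.ev p M 0 0 D c₂) := by
      obtain ⟨f, hf, h7⟩ := hD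
      refine ⟨f, hf, ?_⟩
      rw [show w - TWM.ev p M 0 0 D c₂ - f = (w - g) + (g - TWM.ev p M 0 0 D c₂ - f) by ring]
      exact h5.add h7
    refine ⟨0, c₂, c₃, D, h₂, h₃, le_rfl, fun z hz => ?_, hD0 h6, h6⟩
    rwa [pow_zero, pow_one]

variable [PerfectRing k p]

/-- Limits of a perfect field have roots which are limits. -/
theorem lim_root_perf (hE' : ∀ a ∈ E, ∃ b ∈ E, b ^ p = a) {y : Ω} (h : Lim v E 0 (y ^ p)) :
    Lim v E 0 y := by
  intro ε hε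
  have hp0 : (0 : ℝ) < p := by exact_mod_cast hp.out.pos
  obtain ⟨a, ha, h1⟩ := h (p * ε) (by positivity)
  obtain ⟨b, hb, rfl⟩ := hE' a ha
  refine ⟨b, hb, ?_⟩
  rw [← sub_pow_char] at h1
  intro h0
  have h2 := h1 (pow_ne_zero _ h0)
  rw [v.map_pow h0] at h2
  nlinarith

/-- **(PF): the exhaustion over the perfect base.** -/
theorem perf_exh (hc : CompleteV v) (hE : Cld v E) (hE' : ∀ a ∈ E, ∃ b ∈ E, b ^ p = a)
    (hMG : MonG v E ⊤ M) (hM : MS v G M) (hME : ∀ g ∈ G, M g ∈ E)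
    (hvT : ∀ b ∈ T, b ≠ 0 → v b ∈ G) (hT : Tow v 3 E T) {w : Ω} (hw : w ∈ T)
    (hwl : Lim v E 0 w) (hwn : ¬ Nr' v E 0 w) (hs : Sat k p M v E T w) :
    TL v E w 0 ∧ TowR v 2 (cadj v E w) T := by
  have hk : Ctx0 k v := hcx.out
  obtain ⟨c₁, c₂, c₃, h₁, h₂, h₃, rfl⟩ : ∃ c₁ c₂ c₃, TL v E c₁ 0 ∧ TL v (cadj v E c₁) c₂ 0 ∧
      TL v (cadj v (cadj v E c₁) c₂) c₃ 0 ∧ T = cadj v (cadj v (cadj v E c₁) c₂) c₃ := by
    cases hT with
    | succ h₁ hT =>
      cases hT with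
      | succ h₂ hT =>
        cases hT with
        | succ h₃ hT =>
          cases hT with
          | zero _ => exact ⟨_, _, _, h₁, h₂, h₃, rfl⟩
  set T := cadj v (cadj v (cadj v E c₁) c₂) c₃ with hTT
  have hE₂T : cadj v (cadj v E c₁) c₂ ≤ T := le_cadj v _ _
  have hE₁T : cadj v E c₁ ≤ T := (le_cadj v _ _).trans hE₂T
  have hET : E ≤ T := (le_cadj v _ _).trans hE₁T
  have hvE : ∀ b ∈ E, b ≠ 0 → v b ∈ G := fun b hb => hvT b (hET hb)
  -- the first generator in a subfield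
  obtain ⟨m, T₀, a, D, h0T, hm, haT, ha, hta, hwD⟩ : ∃ (m : ℕ) (T₀ : IntermediateField k Ω)
      (a : Ω) (D : k[X]), T₀ ≤ T ∧ (∀ z ∈ T, z ^ p ^ m ∈ T₀) ∧ a ∈ T₀ ∧ TL v E a 0 ∧
      TowR v 2 (cadj v E a) T₀ ∧ Nr' v E 0 (w - TWM.ev p M 0 0 D a) := by
    by_cases hcase : Nr' v (cadj v E c₁) 0 w
    · obtain ⟨g, hg, h5⟩ := hcase
      have hgl : Lim v E 0 g := by
        refine Lim.of_ge_sub hwl ?_
        rw [show g - w = -(w - g) by ring]
        exact h5.ge.neg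
      obtain ⟨D, -, hD⟩ := TL.exists_ev (p := p) hk hM hME hvE h₁ hg hgl
      refine ⟨0, T, c₁, D, le_rfl, fun z hz => by rwa [pow_zero, pow_one],
        hE₁T (self_mem_cadj v E c₁), h₁,
        TowR.succ h₂ (TowR.succ h₃ (TowR.zero (cld_cadj v _ _))), ?_⟩
      obtain ⟨f, hf, h7⟩ := hD
      refine ⟨f, hf, ?_⟩
      rw [show w - TWM.ev p M 0 0 D c₁ - f = (w - g) + (g - TWM.ev p M 0 0 D c₁ - f) by ring]
      exact h5.add h7
    · obtain ⟨m, x, x', D, hx, hx', h4, h5, hD, h6⟩ := perf_pair (p := p) hM hME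
        (fun b hb => hvT b (hE₂T hb)) h₂ h₃ hw hwl hcase
      obtain ⟨a, D', ha, h7, h8, h9⟩ := perf_core hM hME hvE hE' h₁ hx hx' hwl hD h6
      exact ⟨m, _, a, D', h4, h5, ha, h7, h8, h9⟩
  -- the unit
  have hD0 : D ≠ 0 := by
    rintro rfl
    rw [ev_zero, sub_zero] at hwD
    exact hwn hwD
  obtain ⟨d, hd, rfl⟩ := hs.unit hM hME (h0T haT) ha hD0 hwD
  obtain ⟨f, hf, h1⟩ := hwD
  have h2 : Gt v 0 (w - (algebraMap k Ω d * a + f)) := by
    have e1 : TWM.ev p M 0 0 (C d) a = algebraMap k Ω d * a := by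
      rw [ev00_fev hM]
      have h3 := TWM.ev_mono (p := p) (M := M) (s := 0) (r := 0) d 0 a
      rw [pow_zero, mul_one, mul_zero, sub_zero, hM.zero, mul_one, pow_zero, pow_one] at h3
      rw [← ev00_fev hM, h3]
    rw [e1] at h1
    rwa [← sub_sub]
  set w₀ := algebraMap k Ω d * a + f with hw₀
  have hd' : algebraMap k Ω d ≠ 0 := (_root_.map_ne_zero _).2 hd
  have htw : TL v E w₀ 0 := by
    have h3 := ha.affine (E.algebraMap_mem d) hd' hf
    rwa [hk.triv d hd, zero_add] at h3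
  have ecw : cadj v E w₀ = cadj v E a := cadj_affine (E.algebraMap_mem d) hd' hf
  have hw₀T : w₀ ∈ T := h0T (add_mem (mul_mem (T₀.algebraMap_mem d) haT)
    (hta.le (le_cadj v E a hf)))
  -- no root
  have hfar : ∀ l ∈ T, ¬ v.Ge 0 (l ^ p - w₀) := by
    intro l hl hge
    have h3 : v.Ge 0 (l ^ p - w) := by
      rw [show l ^ p - w = (l ^ p - w₀) - (w - w₀) by ring]
      exact hge.sub h2.ge
    have h4 : Lim v E 0 l := lim_root_perf hE' (Lim.of_ge_sub hwl h3)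
    have hX : TWM.ev p M 0 0 (X : k[X]) l = l ^ p := by
      rw [ev00_fev hM]
      have := fev_X_pow (k := k) (p := p) 1 l
      rwa [pow_one, pow_one] at this
    have h5 : Nr' v E 0 (TWM.ev p M 0 0 (X : k[X]) l - TWM.ev p M 0 0 (1 : k[X]) w) := by
      rw [hX, ev_one hM]
      refine Nr.nr' ⟨0, E.zero_mem, ?_⟩
      rwa [sub_zero]
    obtain ⟨S, hS⟩ := hs l hl h4 X 1 (X_ne_zero (R := k)) h5
    have h6 := nr'_ev00 (p := p) hk hM hME X hS
    have h7 := nr'_sub h5 h6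
    rw [ev_one hM, ev_sub_right, ← ev00_tw hM, sub_sub_sub_cancel_left] at h7
    have h8 : Nr' v E 0 (TWM.ev p M 0 0 (tw p X S - 1) w) := by
      rw [ev_sub, ev_one hM]
      exact h7
    have h9 : Nr' v E 0 (TWM.ev p M 0 0 (tw p X S - 1) w₀) := by
      have h10 : Nr' v E 0 (w₀ - w) := ⟨0, E.zero_mem, by
        rw [sub_zero, show w₀ - w = -(w - w₀) by ring]
        exact h2.neg⟩
      have h11 := nr'_add (nr'_ev00 (p := p) hk hM hME (tw p X S - 1) h10) h8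
      rwa [ev_sub_right, sub_add_cancel] at h11
    have h12 := ev00_not_nr' hM hME htw h9
    obtain ⟨h13, -⟩ := tw_eq_one (sub_eq_zero.1 h12)
    rw [natDegree_X] at h13
    exact one_ne_zero h13
  have h3 : TowR v 2 (cadj v E w₀) T₀ := by rwa [ecw]
  have h4 := perf_descend hc hE hMG hE' htw (cld_cadj v _ _) h0T hm hfar le_rfl h3
  exact ⟨htw.congr h2, TowR.exch htw h4 hw h2⟩

end Core

end Pool.Agent.TWIV
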