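import Pool.Agent.Lib.TWIV.JetDefs

/-!
# TANK W, leaf (IV), row A5 (2): the relations (J), (J0), (RR)
-/

set_option autoImplicit false
set_option linter.unusedSectionVars false

open Polynomial

namespace Pool.Agent.TWIV

open Pool.Agent.H15JM (RVal)
open Pool.Agent.TWC (Nul Cau)

universe u

variable {k H : Type u} [Field k] [Field H] [Algebra k H] {v : RVal H} (p : ℕ) [hp : Fact p.Prime]
  [CharP H p]
  {A : Type*} [AddCommGroup A] {pr : A → H →ₗ[k] H} {α ζ : A}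

namespace Jets

variable {p} {K : IntermediateField k H} {D : ℕ × ℕ → H → H} (h : Jets p v pr K α ζ D)
include h

theorem zero (i : ℕ × ℕ) : D i 0 = 0 := by
  have h1 := h.add i 0 K.zero_mem 0 K.zero_mem
  rw [add_zero] at h1
  exact left_eq_add.1 h1

theorem neg (i : ℕ × ℕ) {x : H} (hx : x ∈ K) : D i (-x) = -D i x := by
  have h1 := h.add i x hx (-x) (neg_mem hx)
  rw [add_neg_cancel, h.zero] at h1
  exact (neg_eq_of_add_eq_zero_right h1.symm).symm

theorem sub (i : ℕ × ℕ) {x y : H} (hx : x ∈ K) (hy : y ∈ K) : D i (x - y) = D i x - D i y := by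
  rw [sub_eq_add_neg, h.add i x hx _ (neg_mem hy), h.neg i hy, ← sub_eq_add_neg]

theorem sum {ι : Type*} (i : ℕ × ℕ) (S : Finset ι) (f : ι → H) (hf : ∀ c ∈ S, f c ∈ K) :
    D i (∑ c ∈ S, f c) = ∑ c ∈ S, D i (f c) := by
  classical
  induction S using Finset.induction_on with
  | empty => simpa using h.zero i
  | insert a S ha ih =>
    rw [Finset.sum_insert ha, Finset.sum_insert ha,
      h.add i _ (hf a (Finset.mem_insert_self a S)) _
        (sum_mem fun c hc => hf c (Finset.mem_insert_of_mem hc)),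
      ih fun c hc => hf c (Finset.mem_insert_of_mem hc)]

theorem nul (i : ℕ × ℕ) {x : ℕ → H} (hx : ∀ n, x n ∈ K) (hn : Nul v x) :
    Nul v fun n => D i (x n) := by
  intro ε hε
  obtain ⟨N, hN⟩ := hn ε hε
  exact ⟨N, fun n hn => h.norm i _ (hx n) _ (hN n hn)⟩

end Jets

section RR

variable [PerfectRing H p] {K : IntermediateField k H} {D : ℕ × ℕ → H → H} {T : Finset A}
  {q : ℕ → H} {e : A → ℕ → H} {f : H}

/-- Null sequences and roots. -/
theorem nul_Rt {x : ℕ → H} (h : Nul v x) (n : ℕ) : Nul v fun i => Rt p n (x i) := by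
  intro ε hε
  obtain ⟨N, hN⟩ := h ε hε
  refine ⟨N, fun i hi => (ge_Rt p (hN i hi)).mono ?_⟩
  have h1 : (1 : ℝ) ≤ p ^ n := by exact_mod_cast Nat.one_le_pow _ _ hp.out.pos
  rw [neg_div, neg_le_neg_iff]
  exact div_le_self hε.le h1

/-- Null sequences and projections. -/
theorem nul_pr (hG : GrP p v pr) {x : ℕ → H} (h : Nul v x) (c : A) :
    Nul v fun i => pr c (x i) := by
  intro ε hε
  obtain ⟨N, hN⟩ := h ε hε
  exact ⟨N, fun i hi => hG.ge _ _ _ (hN i hi)⟩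

theorem Rt_one_pow (x : H) : Rt p 1 (x ^ p) = x := by
  have := Rt_of_pow p 1 x
  rwa [pow_one] at this

variable {p}

/-- The relation for the jets at `p i`. -/
theorem Exo.rel_mul (hD : Jets p v pr K α ζ D) (h : Exo p v pr K T q e f) (m J : ℕ) :
    Nul v fun n => D (m, J) (q n) ^ p - D (p * m, p * J) (q n) -
    D (p * m, p * J) f - ∑ c ∈ T, D (m, J) (e c n) ^ p := by
  have h1 := hD.nul (p * m, p * J) (x := fun n => q n ^ p - q n - f - ∑ c ∈ T, e c n ^ p)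
    (fun n => sub_mem (sub_mem (sub_mem (pow_mem (h.cq.mem n) _) (h.cq.mem n)) h.mf)
      (sum_mem fun c hc => pow_mem ((h.ce c hc).mem n) _)) h.rel
  refine h1.congr fun n => ?_
  have hq := h.cq.mem n
  have hs : ∑ c ∈ T, e c n ^ p ∈ K := sum_mem fun c hc => pow_mem ((h.ce c hc).mem n) _
  rw [hD.sub _ (sub_mem (sub_mem (pow_mem hq _) hq) h.mf) hs,
    hD.sub _ (sub_mem (pow_mem hq _) hq) h.mf, hD.sub _ (pow_mem hq _) hq, hD.frob m J _ hq,
    hD.sum _ T _ fun c hc => pow_mem ((h.ce c hc).mem n) _]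
  congr 1
  exact Finset.sum_congr rfl fun c hc => hD.frob m J _ ((h.ce c hc).mem n)

/-- **(J0)** -/
theorem Exo.jet_zero (_hpr : GrP p v pr) (_hne : ∀ c d x, c ≠ d → pr c (pr d x) = 0)
    (hD : Jets p v pr K α ζ D) (h : Exo p v pr K T q e f) {m J : ℕ} (hmJ : ¬ (p ∣ m ∧ p ∣ J)) :
    Nul v fun n => D (m, J) (q n) + D (m, J) f := by
  have h1 := hD.nul (m, J) (x := fun n => q n ^ p - q n - f - ∑ c ∈ T, e c n ^ p)
    (fun n => sub_mem (sub_mem (sub_mem (pow_mem (h.cq.mem n) _) (h.cq.mem n)) h.mf)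
      (sum_mem fun c hc => pow_mem ((h.ce c hc).mem n) _)) h.rel
  refine (h1.neg).congr fun n => ?_
  have hq := h.cq.mem n
  have hs : ∑ c ∈ T, e c n ^ p ∈ K := sum_mem fun c hc => pow_mem ((h.ce c hc).mem n) _
  rw [hD.sub _ (sub_mem (sub_mem (pow_mem hq _) hq) h.mf) hs,
    hD.sub _ (sub_mem (pow_mem hq _) hq) h.mf, hD.sub _ (pow_mem hq _) hq, hD.frob0 m J hmJ _ hq,
    hD.sum _ T _ fun c hc => pow_mem ((h.ce c hc).mem n) _,
    Finset.sum_eq_zero fun c hc => hD.frob0 m J hmJ _ ((h.ce c hc).mem n)]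
  ring

theorem Exo.jet_q (hpr : GrP p v pr) (hne : ∀ c d x, c ≠ d → pr c (pr d x) = 0)
    (hD : Jets p v pr K α ζ D) (h : Exo p v pr K T q e f) (m J : ℕ) :
    Nul v fun n => D (m, J) (q n) -
      pr (-dg α ζ (m, J)) (Rt p 1 (D (p * m, p * J) (q n) + D (p * m, p * J) f)) := by
  have h1 := nul_pr p hpr (nul_Rt p (h.rel_mul hD m J) 1) (-dg α ζ (m, J))
  refine h1.congr fun n => ?_
  have h2 := hD.deg (m, J) 0 (q n) (h.cq.mem n) (h.q0 n)
  rw [zero_sub] at h2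
  have h3 : ∑ c ∈ T, pr (-dg α ζ (m, J)) (Rt p 1 (D (m, J) (e c n) ^ p)) = 0 := by
    refine Finset.sum_eq_zero fun c hc => ?_
    rw [Rt_one_pow, ← hD.deg (m, J) c _ ((h.ce c hc).mem n) (h.e0 c hc n)]
    refine hne _ _ _ fun h4 => h.ne ?_
    have h5 : (0 : A) = c := by
      have h6 := congrArg (fun z => z + dg α ζ (m, J)) h4
      simpa using h6
    rwa [h5]
  rw [Rt_sub, Rt_sub, Rt_sub, Rt_sum, map_sub, map_sub, map_sub, map_sum, h3, Rt_one_pow, h2,
    Rt_add, map_add]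
  ring

theorem Exo.jet_e (hpr : GrP p v pr) (hne : ∀ c d x, c ≠ d → pr c (pr d x) = 0)
    (hD : Jets p v pr K α ζ D) (h : Exo p v pr K T q e f) (m J : ℕ) {c : A} (hc : c ∈ T) :
    Nul v fun n => D (m, J) (e c n) +
      pr (c - dg α ζ (m, J)) (Rt p 1 (D (p * m, p * J) (q n) + D (p * m, p * J) f)) := by
  classical
  have h1 := (nul_pr p hpr (nul_Rt p (h.rel_mul hD m J) 1) (c - dg α ζ (m, J))).neg
  refine h1.congr fun n => ?_
  have hc0 : c ≠ 0 := fun h0 => h.ne (h0 ▸ hc)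
  have hsum : ∑ d ∈ T, pr (c - dg α ζ (m, J)) (Rt p 1 (D (m, J) (e d n) ^ p)) =
      D (m, J) (e c n) := by
    rw [Finset.sum_eq_single c]
    · rw [Rt_one_pow]
      exact hD.deg (m, J) c _ ((h.ce c hc).mem n) (h.e0 c hc n)
    · intro d hd hdc
      rw [Rt_one_pow, ← hD.deg (m, J) d _ ((h.ce d hd).mem n) (h.e0 d hd n)]
      refine hne _ _ _ fun h3 => hdc (sub_left_injective h3).symm
    · exact fun h2 => absurd hc h2
  have h3 : pr (c - dg α ζ (m, J)) (D (m, J) (q n)) = 0 := by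
    have h2 := hD.deg (m, J) 0 (q n) (h.cq.mem n) (h.q0 n)
    rw [← h2]
    refine hne _ _ _ fun h4 => hc0 ?_
    exact sub_left_injective h4
  rw [Rt_sub, Rt_sub, Rt_sub, Rt_sum, map_sub, map_sub, map_sub, map_sum, hsum, Rt_one_pow, h3,
    Rt_add, map_add]
  ring

/-- The degrees. -/
theorem dg_smul (N m J : ℕ) : dg α ζ (N * m, N * J) = N • dg α ζ (m, J) := by
  show (N * m) • α + (N * J) • ζ = N • (m • α + J • ζ)
  rw [smul_add, mul_smul, mul_smul]

/-- **(J)** -/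
theorem Exo.jet_iter (hpr : GrP p v pr) (hne : ∀ c d x, c ≠ d → pr c (pr d x) = 0)
    (hD : Jets p v pr K α ζ D) (h : Exo p v pr K T q e f) (m J M : ℕ) :
    Nul v fun n => D (m, J) (q n) -
      (∑ s ∈ Finset.range M, pr (-dg α ζ (m, J)) (Rt p (s + 1) (D (p ^ (s + 1) * m, p ^ (s + 1) * J) f))) -
      pr (-dg α ζ (m, J)) (Rt p M (D (p ^ M * m, p ^ M * J) (q n))) := by
  induction M with
  | zero =>
    refine Nul.congr (Nul.zero (v := v)) fun n => ?_
    have h2 := hD.deg (m, J) 0 (q n) (h.cq.mem n) (h.q0 n)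
    rw [zero_sub] at h2
    rw [Finset.range_zero, Finset.sum_empty, pow_zero, one_mul, one_mul, Rt_idx_zero, h2]
    ring
  | succ M ih =>
    have h1 := nul_pr p hpr (nul_Rt p (h.jet_q hpr hne hD (p ^ M * m) (p ^ M * J)) M)
      (-dg α ζ (m, J))
    refine (ih.add h1).congr fun n => ?_
    have hd : -dg α ζ (p ^ M * m, p ^ M * J) = p ^ M • (-dg α ζ (m, J)) := by
      rw [dg_smul, smul_neg]
    have e1 : p * (p ^ M * m) = p ^ (M + 1) * m := by rw [pow_succ]; ring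
    have e2 : p * (p ^ M * J) = p ^ (M + 1) * J := by rw [pow_succ]; ring
    rw [hd, Rt_sub, map_sub, hpr.frobN M, Rt_Rt, Rt_add, map_add, Finset.sum_range_succ, e1, e2]
    ring

/-- (J) for `e_c`, `c ∈ T` -/
theorem Exo.jet_iter_e (hpr : GrP p v pr) (hne : ∀ c d x, c ≠ d → pr c (pr d x) = 0)
    (hD : Jets p v pr K α ζ D) (h : Exo p v pr K T q e f) (m J M : ℕ) {c : A} (hc : c ∈ T)
    (hpc : p • c = 0) :
    Nul v fun n => D (m, J) (e c n) +
      (∑ s ∈ Finset.range (M + 1), pr (c - dg α ζ (m, J))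
        (Rt p (s + 1) (D (p ^ (s + 1) * m, p ^ (s + 1) * J) f))) +
      pr (c - dg α ζ (m, J)) (Rt p (M + 1) (D (p ^ (M + 1) * m, p ^ (M + 1) * J) (q n))) := by
  have h1 := h.jet_e hpr hne hD m J hc
  have h2 := nul_pr p hpr (nul_Rt p (h.jet_iter hpr hne hD (p * m) (p * J) M) 1)
    (c - dg α ζ (m, J))
  refine (h1.sub h2).congr fun n => ?_
  have hd : -dg α ζ (p * m, p * J) = p ^ 1 • (c - dg α ζ (m, J)) := by
    rw [dg_smul, pow_one, smul_sub, hpc, zero_sub]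
  have e1 : ∀ s : ℕ, p ^ s * (p * m) = p ^ (s + 1) * m := fun s => by rw [pow_succ]; ring
  have e2 : ∀ s : ℕ, p ^ s * (p * J) = p ^ (s + 1) * J := fun s => by rw [pow_succ]; ring
  have hs : pr (c - dg α ζ (m, J)) (Rt p 1 (∑ s ∈ Finset.range M,
      pr (-dg α ζ (p * m, p * J)) (Rt p (s + 1) (D (p ^ (s + 1) * (p * m),
        p ^ (s + 1) * (p * J)) f)))) = ∑ s ∈ Finset.range M, pr (c - dg α ζ (m, J))
        (Rt p (s + 1 + 1) (D (p ^ (s + 1 + 1) * m, p ^ (s + 1 + 1) * J) f)) := by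
    rw [Rt_sum, map_sum]
    refine Finset.sum_congr rfl fun s _ => ?_
    rw [hd, hpr.frobN 1, Rt_Rt, e1, e2, add_comm 1 (s + 1)]
  rw [Rt_sub, Rt_sub, map_sub, map_sub, hs, Finset.sum_range_succ']
  rw [hd, hpr.frobN 1, Rt_Rt, e1, e2, add_comm 1 M, Rt_add, map_add]
  simp only [zero_add, pow_one]
  ring

/-- **(RR)** -/
theorem Exo.rr (hpr : GrP p v pr) (hne : ∀ c d x, c ≠ d → pr c (pr d x) = 0)
    (hD : Jets p v pr K α ζ D) (h : Exo p v pr K T q e f) :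
    ∃ g : ℝ, 0 ≤ g ∧ ∀ m J : ℕ, ¬ (p ∣ m ∧ p ∣ J) → ∀ M : ℕ,
      v.Ge (-(g / p ^ M)) (∑ s ∈ Finset.range (M + 1),
        pr (-dg α ζ (m, J)) (Rt p s (D (p ^ s * m, p ^ s * J) f))) := by
  -- the bound
  obtain ⟨N, hN⟩ := h.cq.cau 1 one_pos
  obtain ⟨g, hg, hqg⟩ : ∃ g : ℝ, 0 < g ∧ ∀ n, N ≤ n → v.Ge (-g) (q n) := by
    refine ⟨max 1 (-v (q N)), lt_of_lt_of_le one_pos (le_max_left _ _), fun n hn => ?_⟩
    have e1 : q n = (q n - q N) + q N := by ring
    rw [e1]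
    refine RVal.Ge.add ((hN n N hn le_rfl).mono (neg_le_neg (le_max_left _ _))) ?_
    refine (RVal.ge_self (v := v) (q N)).mono ?_
    have := le_max_right 1 (-v (q N))
    linarith
  refine ⟨g, hg.le, fun m J hmJ M => ?_⟩
  have hpM : (0 : ℝ) < p ^ M := by
    have := hp.out.pos
    positivity
  have hε : 0 < g / p ^ M := div_pos hg hpM
  obtain ⟨N₁, h1⟩ := (h.jet_zero hpr hne hD hmJ).sub (h.jet_iter hpr hne hD m J M) _ hε
  have h2 := h1 (max N N₁) (le_max_right _ _)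
  set n := max N N₁ with hn
  have h3 : v.Ge (-(g / p ^ M)) (pr (-dg α ζ (m, J)) (Rt p M (D (p ^ M * m, p ^ M * J) (q n)))) := by
    refine hpr.ge _ _ _ ?_
    have h4 := ge_Rt p (n := M) (hD.norm (p ^ M * m, p ^ M * J) (q n) (h.cq.mem n) _
      (hqg n (le_max_left _ _)))
    rwa [neg_div] at h4
  have hf := hD.deg (m, J) 0 f h.mf h.f0
  rw [zero_sub] at hf
  have e1 : ∑ s ∈ Finset.range (M + 1), pr (-dg α ζ (m, J))
      (Rt p s (D (p ^ s * m, p ^ s * J) f)) =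
      (D (m, J) (q n) + D (m, J) f - (D (m, J) (q n) -
      (∑ s ∈ Finset.range M, pr (-dg α ζ (m, J))
        (Rt p (s + 1) (D (p ^ (s + 1) * m, p ^ (s + 1) * J) f))) -
      pr (-dg α ζ (m, J)) (Rt p M (D (p ^ M * m, p ^ M * J) (q n))))) -
      pr (-dg α ζ (m, J)) (Rt p M (D (p ^ M * m, p ^ M * J) (q n))) := by
    rw [Finset.sum_range_succ']
    rw [pow_zero, one_mul, one_mul, Rt_idx_zero, hf]
    ring
  rw [e1]
  exact h2.sub h3

end RR

end Pool.Agent.TWIV
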