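import Pool.Agent.Lib.TWIV.W1S
import Pool.Agent.Lib.TWIV.A2P
import Pool.Agent.Lib.TWS.Tr

/-!
# TANK W, leaf (IV): transfer of exotic relations by an isometric embedding

`θ : Ω → H` isometric, `Ω` complete.

* `InBE.pull`: `θ m_n ∈ θ B + L(θ A)` gives `m_n ∈ B + L(A)`;
* `Trf.inBE`, `Trf.ftb`, `Trf.fvb`: from the statement for sequences of `θ B` to `FTB`, `FVB`.
-/

set_option autoImplicit false
set_option linter.unusedSectionVars false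

open Polynomial

namespace Pool.Agent.TWIV

open Pool.Agent.H15JM (RVal)
open Pool.Agent.D2 (Ctx0)
open Pool.Agent.TWM Pool.Agent.TWC
open Pool.Agent.TWS (IsoE)

universe u

variable {k Ω H : Type u} [Field k] [Field Ω] [Algebra k Ω] [Field H] [Algebra k H]
  {v : RVal Ω} {w : RVal H} {θ : Ω →ₐ[k] H} {A B C T : IntermediateField k Ω}

theorem nul_map (h : IsoE v w θ) {x : ℕ → Ω} : Nul w (fun n => θ (x n)) ↔ Nul v x := by
  constructor
  · intro h1 ε hε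
    obtain ⟨N, hN⟩ := h1 ε hε
    exact ⟨N, fun n hn => h.ge_iff.1 (hN n hn)⟩
  · intro h1 ε hε
    obtain ⟨N, hN⟩ := h1 ε hε
    exact ⟨N, fun n hn => h.ge_iff.2 (hN n hn)⟩

theorem cau_map (h : IsoE v w θ) {x : ℕ → Ω} (hx : Cau v B x) :
    Cau w (B.map θ) fun n => θ (x n) where
  mem n := ⟨x n, hx.mem n, rfl⟩
  cau ε hε := by
    obtain ⟨N, hN⟩ := hx.cau ε hε
    refine ⟨N, fun m n hm hn => ?_⟩
    rw [← map_sub]
    exact h.ge_iff.2 (hN m n hm hn)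

theorem cau_unmap (h : IsoE v w θ) {x : ℕ → H} (hx : Cau w (B.map θ) x) :
    ∃ y, Cau v B y ∧ ∀ n, x n = θ (y n) := by
  choose y hy hyx using hx.mem
  refine ⟨y, ⟨hy, fun ε hε => ?_⟩, fun n => (hyx n).symm⟩
  obtain ⟨N, hN⟩ := hx.cau ε hε
  refine ⟨N, fun m n hm hn => ?_⟩
  have h1 := hN m n hm hn
  rw [← hyx m, ← hyx n] at h1
  have h2 : w.Ge (-ε) (θ (y m - y n)) := by rw [map_sub]; exact h1
  exact h.ge_iff.1 h2

theorem InBE.pull (h : IsoE v w θ) {m : ℕ → Ω}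
    (hm : InBE w (B.map θ) (A.map θ) fun n => θ (m n)) : InBE v B A m := by
  obtain ⟨β, ⟨b, hb, rfl⟩, ν, hν, h1⟩ := hm
  obtain ⟨a, ha, haν⟩ := cau_unmap h hν
  refine ⟨b, hb, a, ha, (nul_map h).1 (h1.congr fun n => ?_)⟩
  rw [haν n, map_sub, map_sub]
  rfl

/-- The relation of a formal limit of `B`, transferred. -/
theorem Trf.inBE (h : IsoE v w θ) (p : ℕ) [Fact p.Prime] [CharP Ω p] {π : Ω → Ω}
    (hπ : Prj v T C π) (hB : B ≤ T) {pr : H →ₗ[k] H} (hpr : ∀ b ∈ B, pr (θ b) = θ (π b))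
    (hFV : ∀ m : ℕ → H, Cau w (B.map θ) m → (∃ e ∈ B.map θ,
      Nul w fun n => m n ^ p - pr (m n) - e) → InBE w (B.map θ) (A.map θ) m)
    {Y : Ω} (hY : Y ∈ T) (hl : Lim v B 0 Y) (hr : Nr v B 0 (Y ^ p - π Y)) :
    ∃ b ∈ B, Lim v A 0 (Y - b) := by
  obtain ⟨m, hm, hmY⟩ := Lim.exists_cau hl
  obtain ⟨e, he, h1⟩ := hr
  have h2 : Nul v fun n => π (Y - m n) := by
    intro ε hε
    obtain ⟨N, hN⟩ := hmY ε hε
    exact ⟨N, fun n hn => hπ.ge _ (sub_mem hY (hB (hm.mem n))) _ (hN n hn)⟩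
  have h3 : Nul v fun n => m n ^ p - π (m n) - e := by
    refine (((Nul.const_iff.2 h1).sub (hmY.pow p)).add h2).congr fun n => ?_
    rw [sub_pow_char, hπ.sub hY (hB (hm.mem n))]
    ring
  have h4 : InBE w (B.map θ) (A.map θ) fun n => θ (m n) := by
    refine hFV _ (cau_map h hm) ⟨θ e, ⟨e, he, rfl⟩, ?_⟩
    refine ((nul_map h).2 h3).congr fun n => ?_
    rw [map_sub, map_sub, map_pow, hpr _ (hm.mem n)]
  obtain ⟨b, hb, a, ha, h5⟩ := InBE.pull h h4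
  refine ⟨b, hb, Lim.of_nul ha.mem ((hmY.add h5).congr fun n => ?_)⟩
  ring

/-- `FVB` from the statement over `H`. -/
theorem Trf.fvb (h : IsoE v w θ) (p : ℕ) [Fact p.Prime] [CharP Ω p] {π : Ω → Ω}
    (hπ : Prj v T C π) (hB : B ≤ T) {pr : H →ₗ[k] H} (hpr : ∀ b ∈ B, pr (θ b) = θ (π b))
    (hFV : ∀ m : ℕ → H, Cau w (B.map θ) m → (∃ e ∈ B.map θ,
      Nul w fun n => m n ^ p - pr (m n) - e) → InBE w (B.map θ) (A.map θ) m)
    (hc : ∀ Y ∈ T, Lim v A 0 Y → Nr v B 0 Y) : FVB p v T B π := by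
  intro Y hY hl hr
  obtain ⟨b, hb, h1⟩ := Trf.inBE h p hπ hB hpr hFV hY hl hr
  obtain ⟨a, ha, h2⟩ := hc _ (sub_mem hY (hB hb)) h1
  refine ⟨b + a, add_mem hb ha, ?_⟩
  rwa [← sub_sub]

/-- `FTB` from the statement over `H`. -/
theorem Trf.ftb (h : IsoE v w θ) (p : ℕ) [Fact p.Prime] [CharP Ω p] (hB : B ≤ T)
    (hFV : ∀ m : ℕ → H, Cau w (B.map θ) m → (∃ e ∈ B.map θ,
      Nul w fun n => m n ^ p - e) → InBE w (B.map θ) (A.map θ) m)
    (hc : ∀ Y ∈ T, Lim v A 0 Y → Nr v B 0 Y) : FTB p v T B := by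
  intro Y hY hl hr
  obtain ⟨m, hm, hmY⟩ := Lim.exists_cau hl
  obtain ⟨e, he, h1⟩ := hr
  have h3 : Nul v fun n => m n ^ p - e := by
    refine ((Nul.const_iff.2 h1).sub (hmY.pow p)).congr fun n => ?_
    rw [sub_pow_char]
    ring
  have h4 : InBE w (B.map θ) (A.map θ) fun n => θ (m n) := by
    refine hFV _ (cau_map h hm) ⟨θ e, ⟨e, he, rfl⟩, ?_⟩
    refine ((nul_map h).2 h3).congr fun n => ?_
    rw [map_sub, map_pow]
  obtain ⟨b, hb, a, ha, h5⟩ := InBE.pull h h4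
  have h6 : Lim v A 0 (Y - b) := Lim.of_nul ha.mem ((hmY.add h5).congr fun n => by ring)
  obtain ⟨a', ha', h7⟩ := hc _ (sub_mem hY (hB hb)) h6
  refine ⟨b + a', add_mem hb ha', ?_⟩
  rwa [← sub_sub]

end Pool.Agent.TWIV
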