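import Pool.Agent.Lib.TWIV.S7h
import Pool.Agent.Lib.TWIV.TrfA
import Pool.Agent.Lib.TWIV.EmbT

/-!
# TANK W, leaf (IV), row S7: FV(w_1, w_2) in the world

* `World.fv_two`: a system over `B = E<w_1, w_2>`, `w_1`, `w_2` homogeneous limits of `E`;
* `World.fvb_two`: `FTB`, `FVB` over `B`, under the canonicity `hcan`.
-/

set_option autoImplicit false
set_option linter.unusedSectionVars false

open Polynomial

namespace Pool.Agent.TWIV

open Pool.Agent.H15JM (RVal)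
open Pool.Agent.D2 (Ctx0)
open Pool.Agent.TWM Pool.Agent.TWC Pool.Agent.TWS

universe u

variable {k Ω : Type u} [Field k] [Field Ω] [Algebra k Ω] {v : RVal Ω} [hk : Fact (Ctx0 k v)]
  {N L : IntermediateField k Ω} {G : AddSubgroup ℝ} {M : ℝ → Ω} {p : ℕ} [hp : Fact p.Prime]
  [CharP k p] [CharP Ω p] [IsAlgClosed k] [IsAlgClosed Ω]

namespace World

variable (W : World p v N L G M) (hΩ : CompleteV v)

include W hΩ

/-- **FV(w_1, w_2)**: the two relations, in the Hahn field. -/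
theorem exists_two_fv {d₁ d₂ : ℝ} (h1 : d₁ ∈ G) (h2 : d₂ ∈ G) {u₁ u₂ : Ω} (hu1 : u₁ ∈ L)
    (hu2 : u₂ ∈ L) (hy : TL v (PM v N G M) (M d₁ * u₁) 0)
    (hz : TL v (PM v (cadj v N u₁) G M) (M d₂ * u₂) 0)
    (hl : Lim v (PM v N G M) 0 (M d₂ * u₂)) :
    ∃ θ : Ω →ₐ[k] HF k, Th v N G M θ (cadj v (cadj v N u₁) u₂) ∧
      ∀ φ ∈ AP (hpr (k := k) (VG v N)), ∀ m : ℕ → HF k,
        Cau (hv k) ((PM v (cadj v (cadj v N u₁) u₂) G M).map θ) m →
        (∃ e ∈ (PM v (cadj v (cadj v N u₁) u₂) G M).map θ,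
          Nul (hv k) fun n => m n ^ p - φ (m n) - e) →
        InBE (hv k) ((PM v (cadj v (cadj v N u₁) u₂) G M).map θ) ((PM v N G M).map θ) m := by
  classical
  have _ : CharP (HF k) p := charP_of_injective_algebraMap (algebraMap k (HF k)).injective p
  have _ : PerfectRing (HF k) p := inferInstance
  set u : ℕ → Ω := fun i => if i = 0 then u₁ else u₂ with hu
  set d : ℕ → ℝ := fun i => if i = 0 then d₁ else d₂ with hd
  have hdG : ∀ i, i < 2 → d i ∈ G := fun i _ => by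
    by_cases hi : i = 0
    · simp only [hd, hi, if_true]
      exact h1
    · simp only [hd, hi, if_false]
      exact h2
  have huL : ∀ i, i < 2 → u i ∈ L := fun i _ => by
    by_cases hi : i = 0
    · simp only [hu, hi, if_true]
      exact hu1
    · simp only [hu, hi, if_false]
      exact hu2
  have ht : ∀ i, i < 2 → TL v (PM v (twr v N u i) G M) (M (d i) * u i) 0 := fun i hi => by
    rcases Nat.lt_succ_iff_lt_or_eq.1 hi with h3 | rfl
    · have h4 : i = 0 := by omega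
      subst h4
      exact hy
    · exact hz
  have hlim : ∀ i, i < 2 → Lim v (PM v N G M) 0 (M (d i) * u i) := fun i hi => by
    rcases Nat.lt_succ_iff_lt_or_eq.1 hi with h3 | rfl
    · have h4 : i = 0 := by omega
      subst h4
      exact hy.lim
    · exact hl
  obtain ⟨θ, hθ, -⟩ := W.exists_th hΩ (u := u) (d := d) 2 hdG huL ht
  have hθ' : Th v N G M θ (cadj v (cadj v N u₁) u₂) := hθ
  have hT := W.twrH_theta hΩ 2 hθ hdG ht hlim
  have hmap := W.map_twr (u := u) (d := d) hΩ hθ 2 hdG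
  have hmap' : (PM v (cadj v (cadj v N u₁) u₂) G M).map θ =
      twr (hv k) (HM k G) (fun i => θ (M (d i) * u i)) 2 := hmap
  have hE := hθ.map_E W hΩ
  have hGrE : GrE p (hv k) (hpr (k := k) (VG v N)) (HM k G) := grE_HM p W.div W.fin
  have : Fact (Ctx0 k (hv k)) := ⟨ctx0_hv k⟩
  refine ⟨θ, hθ', fun φ hφ m hm hr => ?_⟩
  obtain ⟨e, he, h3⟩ := hr
  rw [hmap'] at hm he ⊢
  rw [hE]
  exact TWIV.fv_two (completeV_hv k) hGrE hT (κ := Unit) (X := fun _ => m) (f := fun _ => e)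
    (φ := fun _ _ => φ) (fun _ _ => hφ) (fun _ => hm) (fun _ => he) (fun _ => h3.congr fun n => by
      simp) ()

/-- **FTB and FVB over `E<w_1, w_2>`.** -/
theorem fvb_two {d₁ d₂ : ℝ} (h1 : d₁ ∈ G) (h2 : d₂ ∈ G) {u₁ u₂ : Ω} (hu1 : u₁ ∈ L)
    (hu2 : u₂ ∈ L) (hy : TL v (PM v N G M) (M d₁ * u₁) 0)
    (hz : TL v (PM v (cadj v N u₁) G M) (M d₂ * u₂) 0)
    (hl : Lim v (PM v N G M) 0 (M d₂ * u₂))
    (hcan : ∀ Y ∈ PM v L G M, Lim v (PM v N G M) 0 Y →
      Nr v (PM v (cadj v (cadj v N u₁) u₂) G M) 0 Y) :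
    FTB p v (PM v L G M) (PM v (cadj v (cadj v N u₁) u₂) G M) ∧
      FVB p v (PM v L G M) (PM v (cadj v (cadj v N u₁) u₂) G M) (W.pj hΩ 0) := by
  obtain ⟨θ, hθ, h3⟩ := W.exists_two_fv hΩ h1 h2 hu1 hu2 hy hz hl
  have hB : cadj v (cadj v N u₁) u₂ ≤ L :=
    TWM.cadj_le W.cldL (TWM.cadj_le W.cldL W.NL hu1) hu2
  have hBT : PM v (cadj v (cadj v N u₁) u₂) G M ≤ PM v L G M := PM.mono hB
  constructor
  · refine Trf.ftb hθ.iso p hBT (fun m hm hr => ?_) hcan
    obtain ⟨e, he, h4⟩ := hr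
    refine h3 0 (zero_mem _) m hm ⟨e, he, h4.congr fun n => ?_⟩
    rw [LinearMap.zero_apply, sub_zero]
  · refine Trf.fvb hθ.iso p (W.isPj hΩ 0).prj hBT (pr := hpr (VG v N) 0) (fun b hb => ?_)
      (fun m hm hr => h3 _ (AP_pr 0) m hm hr) hcan
    exact hθ.pj W hΩ ((le_cadj v _ _).trans (le_cadj v _ _)) hB hb

end World

end Pool.Agent.TWIV
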