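import Pool.Agent.Lib.TWIV.TrfC
import Pool.Agent.Lib.TWIV.RADc

/-!
# TANK W, leaf (IV): FV over two homogeneous floors, without hypothesis

* `hrad_HM`: the statement `HRad`;
* `fib_rat`, `fib_cyc`: the fibres of `p` on `ℝ / Γ` are finite, `Γ` of rational rank one or
  `Γ / p Γ` cyclic;
* `World.fv_two_fib`, `World.fvb_two_fib`, `World.ftb_two_fib`: FV(y; z) in the world.
-/

set_option autoImplicit false
set_option linter.unusedSectionVars false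

open Polynomial

namespace Pool.Agent.TWIV

open Pool.Agent.H15JM (RVal)
open Pool.Agent.D2 (Ctx0)
open Pool.Agent.TWM Pool.Agent.TWC
open Pool.Agent.TWS

universe u

section Rad

variable (k : Type u) [Field k] [IsAlgClosed k] (p : ℕ) [Fact p.Prime] [CharP k p]
  [PerfectRing k p] [CharP (HF k) p] [PerfectRing (HF k) p]

/-- **RAD** in the Hahn field. -/
theorem hrad_HM {G Γ : AddSubgroup ℝ} (hG : ∀ g ∈ G, g / p ∈ G)
    (hfin : ∀ g ∈ G, g ≠ 0 → ∃ n : ℕ, g / (p : ℝ) ^ n ∉ Γ) : HRad k p G Γ := by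
  intro hf η y hηy hny hy r hr hl
  have hk0 : Ctx0 k (hv k) := ctx0_hv k
  have hGr : GrE p (hv k) (hpr (k := k) Γ) (HM k G) := grE_HM p hG hfin
  obtain ⟨n, w, h1, -, h3, h4, e, he, Q, h5⟩ := letters hGr hk0 (negP_HM p G Γ) hf hηy hny hy.lim hr
  refine rad_adjoin hk0 (cld_HM G) (fun a ha => ⟨Rt p 1 a, hGr.perf a ha, ?_⟩) h1 ?_ he h5 hy h4 hl
  · have h6 := Rt_pow p 1 a
    rwa [pow_one] at h6
  · intro c hc
    exact h3 c hc

end Rad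

/-! ### Finite fibres -/

/-- The roots modulo a group of rational rank one. -/
theorem exists_cos {Γ : AddSubgroup ℝ} {p : ℕ} (hp : p.Prime) {s : ℝ}
    (h : ∀ g ∈ Γ, ∃ q : ℚ, g = q * s) :
    ∃ T : Finset ℝ, ∀ g ∈ Γ, ∃ t ∈ T, g / p - t ∈ Γ := by
  classical
  have hp0 : (p : ℝ) ≠ 0 := Nat.cast_ne_zero.2 hp.ne_zero
  by_cases h0 : ∀ g ∈ Γ, g / p ∈ Γ
  · exact ⟨{0}, fun g hg => ⟨0, Finset.mem_singleton_self 0, by rw [sub_zero]; exact h0 g hg⟩⟩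
  push Not at h0
  obtain ⟨g₀, hg₀, h1⟩ := h0
  refine ⟨(Finset.range p).image fun i : ℕ => (i : ℝ) * (g₀ / p), fun g hg => ?_⟩
  have hz : ∀ (n : ℤ) {x : ℝ}, x ∈ Γ → (n : ℝ) * x ∈ Γ := by
    intro n x hx
    have h2 := Γ.zsmul_mem hx n
    rwa [zsmul_eq_mul] at h2
  obtain ⟨q₀, hq₀⟩ := h g₀ hg₀
  obtain ⟨q, hq⟩ := h g hg
  have hq0 : q₀ ≠ 0 := by
    rintro rfl
    refine h1 ?_
    rw [hq₀, Rat.cast_zero, zero_mul, zero_div]
    exact Γ.zero_mem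
  set r : ℚ := q / q₀ with hr
  have h2 : ((r.den : ℤ) : ℝ) * g = (r.num : ℝ) * g₀ := by
    have h3 : (r.den : ℚ) * q = r.num * q₀ := by
      have h4 : q = r * q₀ := by
        rw [hr]
        field_simp
      rw [h4, ← mul_assoc, Rat.den_mul_eq_num]
    rw [hq, hq₀]
    have h4 : ((r.den : ℚ) : ℝ) * (q : ℝ) = ((r.num : ℚ) : ℝ) * (q₀ : ℝ) := by exact_mod_cast h3
    have h5 : ((r.den : ℤ) : ℝ) = ((r.den : ℚ) : ℝ) := by push_cast; rfl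
    have h6 : ((r.num : ℤ) : ℝ) = ((r.num : ℚ) : ℝ) := by push_cast; rfl
    rw [h5, h6]
    linear_combination s * h4
  by_cases h3 : (p : ℤ) ∣ (r.den : ℤ)
  · exfalso
    refine h1 ?_
    have h4 : IsCoprime (r.num) (p : ℤ) := by
      have h5 : IsCoprime r.num (r.den : ℤ) := by
        rw [Int.isCoprime_iff_gcd_eq_one]
        exact r.reduced
      exact h5.of_isCoprime_of_dvd_right h3
    obtain ⟨b', hb'⟩ := h3
    obtain ⟨u, w, huw⟩ := h4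
    have h5 : g₀ / p = (u : ℝ) * ((b' : ℝ) * g) + (w : ℝ) * g₀ := by
      have h6 : ((p : ℝ) * (b' : ℝ)) * g = (r.num : ℝ) * g₀ := by
        rw [← h2, hb']
        push_cast
        ring
      have h7 : (u : ℝ) * (r.num : ℝ) + (w : ℝ) * (p : ℝ) = 1 := by exact_mod_cast huw
      field_simp
      linear_combination (-g₀) * h7 - (u : ℝ) * h6
    rw [h5]
    exact Γ.add_mem (hz u (hz b' hg)) (hz w hg₀)
  · have h4 : IsCoprime (r.den : ℤ) (p : ℤ) := by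
      rw [isCoprime_comm]
      exact (Prime.coprime_iff_not_dvd (Nat.prime_iff_prime_int.1 hp)).2 h3
    obtain ⟨u, w, huw⟩ := h4
    have hp1 : (0 : ℤ) < p := by exact_mod_cast hp.pos
    refine ⟨((((u * r.num) % p).toNat : ℕ) : ℝ) * (g₀ / p), Finset.mem_image.2
      ⟨((u * r.num) % p).toNat, Finset.mem_range.2 ?_, rfl⟩, ?_⟩
    · have h5 := Int.emod_lt_of_pos (u * r.num) hp1
      have h6 := Int.emod_nonneg (u * r.num) hp1.ne'
      omega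
    · have h6 := Int.emod_nonneg (u * r.num) hp1.ne'
      have h7 : ((((u * r.num) % p).toNat : ℕ) : ℝ) = (((u * r.num) % p : ℤ) : ℝ) := by
        have h8 : ((((u * r.num) % p).toNat : ℕ) : ℤ) = (u * r.num) % p := Int.toNat_of_nonneg h6
        exact_mod_cast h8
      have h8 : (u : ℝ) * (r.num : ℝ) = (p : ℝ) * (((u * r.num) / p : ℤ) : ℝ) +
          (((u * r.num) % p : ℤ) : ℝ) := by
        have h9 := Int.mul_ediv_add_emod (u * r.num) p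
        have h10 : u * r.num = p * ((u * r.num) / p) + (u * r.num) % p := h9.symm
        exact_mod_cast h10
      have h9 : (u : ℝ) * ((r.den : ℤ) : ℝ) + (w : ℝ) * (p : ℝ) = 1 := by exact_mod_cast huw
      have h10 : g / p - ((((u * r.num) % p).toNat : ℕ) : ℝ) * (g₀ / p) =
          (((u * r.num) / p : ℤ) : ℝ) * g₀ + (w : ℝ) * g := by
        rw [h7]
        field_simp
        linear_combination (-g) * h9 + (u : ℝ) * h2 + g₀ * h8
      rw [h10]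
      exact Γ.add_mem (hz _ hg₀) (hz w hg)

/-- The roots modulo a group with cyclic quotient. -/
theorem exists_cos_cyc {Γ : AddSubgroup ℝ} {p : ℕ} (hp : p.Prime) {g₀ : ℝ}
    (h : ∀ g ∈ Γ, ∃ l < p, ∃ g' ∈ Γ, g = l * g₀ + p * g') :
    ∃ T : Finset ℝ, ∀ g ∈ Γ, ∃ t ∈ T, g / p - t ∈ Γ := by
  classical
  have hp0 : (p : ℝ) ≠ 0 := Nat.cast_ne_zero.2 hp.ne_zero
  refine ⟨(Finset.range p).image fun i : ℕ => (i : ℝ) * (g₀ / p), fun g hg => ?_⟩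
  obtain ⟨l, hl, g', hg', h1⟩ := h g hg
  refine ⟨l * (g₀ / p), Finset.mem_image.2 ⟨l, Finset.mem_range.2 hl, rfl⟩, ?_⟩
  have h2 : g / p - l * (g₀ / p) = g' := by
    rw [h1]
    field_simp
    ring
  rwa [h2]

/-- Finite fibres, rational rank one. -/
theorem fib_rat {Γ : AddSubgroup ℝ} {p : ℕ} (hp : p.Prime) {s : ℝ}
    (h : ∀ g ∈ Γ, ∃ q : ℚ, g = q * s) (c : ℝ ⧸ Γ) : {d : ℝ ⧸ Γ | p • d = c}.Finite := by
  obtain ⟨T, hT⟩ := exists_cos hp h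
  exact finite_fibre hp.pos T hT c

/-- Finite fibres, cyclic quotient. -/
theorem fib_cyc {Γ : AddSubgroup ℝ} {p : ℕ} (hp : p.Prime) {g₀ : ℝ}
    (h : ∀ g ∈ Γ, ∃ l < p, ∃ g' ∈ Γ, g = l * g₀ + p * g') (c : ℝ ⧸ Γ) :
    {d : ℝ ⧸ Γ | p • d = c}.Finite := by
  obtain ⟨T, hT⟩ := exists_cos_cyc hp h
  exact finite_fibre hp.pos T hT c

/-- The values of a closed field of rational rank one. -/
theorem ratV_rat {k Ω : Type u} [Field k] [Field Ω] [Algebra k Ω] {v : RVal Ω}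
    {N : IntermediateField k Ω} {s : ℝ} (h : RatV v N s) : ∀ g ∈ VG v N, ∃ q : ℚ, g = q * s := by
  intro g hg
  obtain ⟨n, hn, m, h1⟩ := h g hg
  have hn' : (n : ℝ) ≠ 0 := Nat.cast_ne_zero.2 hn
  refine ⟨(m : ℚ) / n, ?_⟩
  push_cast
  field_simp
  linear_combination h1

/-! ### The world -/

section World

variable {k Ω : Type u} [Field k] [Field Ω] [Algebra k Ω] {v : RVal Ω} [hk : Fact (Ctx0 k v)]
  {N L : IntermediateField k Ω} {G : AddSubgroup ℝ} {M : ℝ → Ω} {p : ℕ}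
  {u₁ u₂ : Ω} {d₁ d₂ : ℝ}

namespace World

variable (W : World p v N L G M) (hΩ : CompleteV v)
  [Fact p.Prime] [CharP k p] [CharP Ω p] [IsAlgClosed k] [IsAlgClosed Ω] [PerfectRing k p]

/-- **FV(y; z) in the world.** -/
theorem fv_two_fib (hfib : ∀ c : ℝ ⧸ VG v N, {d : ℝ ⧸ VG v N | p • d = c}.Finite)
    (hd₁ : d₁ ∈ G) (hd₂ : d₂ ∈ G) (hu₁ : u₁ ∈ L) (hu₂ : u₂ ∈ L)
    (hy : TL v (PM v N G M) (M d₁ * u₁) 0)
    (hz : TL v (PM v (cadj v N u₁) G M) (M d₂ * u₂) 0)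
    (hc1 : ∀ Y ∈ PM v L G M, Lim v (PM v N G M) 0 Y → Nr v (PM v (cadj v N u₁) G M) 0 Y)
    {Y : Ω} (hY : Y ∈ PM v L G M) (hl : Lim v (PM v (cadj v (cadj v N u₁) u₂) G M) 0 Y)
    (hr : Nr v (PM v (cadj v (cadj v N u₁) u₂) G M) 0 (Y ^ p - W.pj hΩ 0 Y)) :
    ∃ b ∈ PM v (cadj v (cadj v N u₁) u₂) G M, Lim v (PM v (cadj v N u₁) G M) 0 (Y - b) := by
  have _ : CharP (HF k) p := charP_HF k p
  have _ : PerfectRing (HF k) p := perfectRing_HF k p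
  exact W.fv_two hΩ hd₁ hd₂ hu₁ hu₂ hy hz hc1 (finR_hpr p hfib) (hrad_HM k p W.div W.fin) hY hl hr

/-- **`FVB` at the second homogeneous floor.** -/
theorem fvb_two_fib (hfib : ∀ c : ℝ ⧸ VG v N, {d : ℝ ⧸ VG v N | p • d = c}.Finite)
    (hd₁ : d₁ ∈ G) (hd₂ : d₂ ∈ G) (hu₁ : u₁ ∈ L) (hu₂ : u₂ ∈ L)
    (hy : TL v (PM v N G M) (M d₁ * u₁) 0)
    (hz : TL v (PM v (cadj v N u₁) G M) (M d₂ * u₂) 0)
    (hc1 : ∀ Y ∈ PM v L G M, Lim v (PM v N G M) 0 Y → Nr v (PM v (cadj v N u₁) G M) 0 Y)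
    (hc2 : ∀ Y ∈ PM v L G M, Lim v (PM v (cadj v N u₁) G M) 0 Y →
      Nr v (PM v (cadj v (cadj v N u₁) u₂) G M) 0 Y) :
    FVB p v (PM v L G M) (PM v (cadj v (cadj v N u₁) u₂) G M) (W.pj hΩ 0) := by
  have _ : CharP (HF k) p := charP_HF k p
  have _ : PerfectRing (HF k) p := perfectRing_HF k p
  exact W.fvb_two_rad hΩ hd₁ hd₂ hu₁ hu₂ hy hz hc1 hc2 (finR_hpr p hfib) (hrad_HM k p W.div W.fin)

include W hΩ in
/-- **`FTB` at the second homogeneous floor.** -/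
theorem ftb_two_fib (hfib : ∀ c : ℝ ⧸ VG v N, {d : ℝ ⧸ VG v N | p • d = c}.Finite)
    (hd₁ : d₁ ∈ G) (hd₂ : d₂ ∈ G) (hu₁ : u₁ ∈ L) (hu₂ : u₂ ∈ L)
    (hy : TL v (PM v N G M) (M d₁ * u₁) 0)
    (hz : TL v (PM v (cadj v N u₁) G M) (M d₂ * u₂) 0)
    (hc1 : ∀ Y ∈ PM v L G M, Lim v (PM v N G M) 0 Y → Nr v (PM v (cadj v N u₁) G M) 0 Y)
    (hc2 : ∀ Y ∈ PM v L G M, Lim v (PM v (cadj v N u₁) G M) 0 Y →
      Nr v (PM v (cadj v (cadj v N u₁) u₂) G M) 0 Y) :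
    FTB p v (PM v L G M) (PM v (cadj v (cadj v N u₁) u₂) G M) := by
  have _ : CharP (HF k) p := charP_HF k p
  have _ : PerfectRing (HF k) p := perfectRing_HF k p
  exact W.ftb_two_rad hΩ hd₁ hd₂ hu₁ hu₂ hy hz hc1 hc2 (finR_hpr p hfib) (hrad_HM k p W.div W.fin)

end World

end World

end Pool.Agent.TWIV
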