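import Pool.Agent.Lib.TWIV.OpA

/-!
# TANK W, leaf (IV): the mixed part, I

* `ly p y Q`: the element `∑ Q_a y ^ (p ^ a)`; Frobenius, the operators;
* `Can p v E B z`: canonicity of the generator `z` of a floor over `B`;
* `Can.lin`: the elements of `B<z>` which are limits of `E`, for `B = E<y>`, are
  `e + Q(F) y`;
* `near_base_s6`: a polynomial over `B` whose Hasse derivatives of order `p ^ c` are positive at `z`
  is near to an element of `B`.
-/

set_option autoImplicit false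
set_option linter.unusedSectionVars false

open Polynomial

namespace Pool.Agent.TWIV

open Pool.Agent.H15JM (RVal)
open Pool.Agent.D2 (Ctx0)
open Pool.Agent.TWM Pool.Agent.TWC

universe u

section Ly

variable {k Ω : Type u} [Field k] [Field Ω] [Algebra k Ω] {v : RVal Ω}
  {B E : IntermediateField k Ω} {y z : Ω} {𝒜 : Submodule k (Module.End k Ω)}
  (p : ℕ)

/-- The element `∑ Q_a y ^ (p ^ a)`. -/
noncomputable def ly (y : Ω) (Q : Polynomial k) : Ω :=
  Q.sum fun a c => algebraMap k Ω c * y ^ p ^ a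

theorem ly_eq (y : Ω) (Q : Polynomial k) {n : ℕ} (hn : Q.natDegree < n) :
    ly p y Q = ∑ a ∈ Finset.range n, algebraMap k Ω (Q.coeff a) * y ^ p ^ a :=
  sum_over_range' Q (fun a => by rw [map_zero, zero_mul]) n hn

theorem ly_add (y : Ω) (P Q : Polynomial k) : ly p y (P + Q) = ly p y P + ly p y Q := by
  have h1 := natDegree_add_le P Q
  rw [ly_eq p y (P + Q) (n := max P.natDegree Q.natDegree + 1) (Nat.lt_succ_of_le h1),
    ly_eq p y P (n := max P.natDegree Q.natDegree + 1) (Nat.lt_succ_of_le (le_max_left _ _)),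
    ly_eq p y Q (n := max P.natDegree Q.natDegree + 1) (Nat.lt_succ_of_le (le_max_right _ _)),
    ← Finset.sum_add_distrib]
  refine Finset.sum_congr rfl fun a _ => ?_
  rw [coeff_add, map_add, add_mul]

theorem ly_C (y : Ω) (c : k) : ly p y (C c) = algebraMap k Ω c * y := by
  rw [ly_eq p y (C c) (n := 1) (by rw [natDegree_C]; exact one_pos), Finset.sum_range_one,
    coeff_C_zero, pow_zero, pow_one]

theorem ly_zero (y : Ω) : ly p y (0 : Polynomial k) = 0 := by
  rw [← C_0, ly_C, map_zero, zero_mul]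

theorem ly_C_mul (y : Ω) (c : k) (Q : Polynomial k) :
    ly p y (C c * Q) = algebraMap k Ω c * ly p y Q := by
  rw [ly_eq p y (C c * Q) (n := Q.natDegree + 1) (Nat.lt_succ_of_le (natDegree_C_mul_le _ _)),
    ly_eq p y Q (Nat.lt_succ_self _), Finset.mul_sum]
  refine Finset.sum_congr rfl fun a _ => ?_
  rw [coeff_C_mul, map_mul, mul_assoc]

theorem ly_neg (y : Ω) (Q : Polynomial k) : ly p y (-Q) = -ly p y Q := by
  have h := ly_C_mul p y (-1) Q
  rw [map_neg, map_one, neg_one_mul, map_neg, map_one, neg_one_mul] at h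
  exact h

theorem ly_sub (y : Ω) (P Q : Polynomial k) : ly p y (P - Q) = ly p y P - ly p y Q := by
  rw [sub_eq_add_neg, ly_add, ly_neg, ← sub_eq_add_neg]

theorem ly_sum {ι : Type*} (s : Finset ι) (y : Ω) (Q : ι → Polynomial k) :
    ly p y (∑ i ∈ s, Q i) = ∑ i ∈ s, ly p y (Q i) := by
  classical
  induction s using Finset.induction_on with
  | empty => rw [Finset.sum_empty, Finset.sum_empty, ly_zero]
  | insert i s hi ih => rw [Finset.sum_insert hi, Finset.sum_insert hi, ly_add, ih]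

theorem ly_mem (hy : y ∈ B) (Q : Polynomial k) : ly p y Q ∈ B := by
  rw [ly_eq p y Q (Nat.lt_succ_self _)]
  exact sum_mem fun a _ => mul_mem (B.algebraMap_mem _) (pow_mem hy _)

/-- Frobenius. -/
theorem ly_pow [Fact p.Prime] [CharP k p] [CharP Ω p] (y : Ω) (Q : Polynomial k) :
    ly p y Q ^ p = ly p y (X * Q.map (frobenius k p)) := by
  have h1 : (X * Q.map (frobenius k p)).natDegree < Q.natDegree + 2 := by
    refine Nat.lt_succ_of_le (natDegree_mul_le.trans ?_)
    have := natDegree_map_le (f := frobenius k p) (p := Q)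
    have := natDegree_X_le (R := k)
    omega
  rw [ly_eq p y Q (Nat.lt_succ_self _), ly_eq p y _ h1, sum_pow_char]
  conv_rhs => rw [Finset.sum_range_succ']
  rw [coeff_X_mul_zero, map_zero, zero_mul, add_zero]
  refine Finset.sum_congr rfl fun a _ => ?_
  rw [coeff_X_mul, coeff_map, mul_pow, ← map_pow, frobenius_def, ← pow_mul, ← pow_succ]

/-- The constants of an operator on the powers of `y`. -/
theorem exists_cst (hA : OpA v 𝒜) (hS : Stb 𝒜 E y) {φ : Module.End k Ω} (hφ : φ ∈ 𝒜)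
    (hy : y ≠ 0) : ∃ c : ℕ → k, ∀ a, φ (y ^ p ^ a) = algebraMap k Ω (c a) * y ^ p ^ a := by
  choose c hc using fun a => hA.const _ (hS.pow (p ^ a) hφ)
  refine ⟨c, fun a => ?_⟩
  have h := cj_mul (pow_ne_zero (p ^ a) hy) φ 1
  rw [one_mul, hc a] at h
  exact h

/-- The operators act on `R y`. -/
theorem exists_ly (hA : OpA v 𝒜) (hS : Stb 𝒜 E y) {φ : Module.End k Ω} (hφ : φ ∈ 𝒜)
    (hy : y ≠ 0) (Q : Polynomial k) :
    ∃ Q' : Polynomial k, Q'.natDegree ≤ Q.natDegree ∧ φ (ly p y Q) = ly p y Q' := by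
  obtain ⟨c, hc⟩ := exists_cst p hA hS hφ hy
  refine ⟨∑ a ∈ Finset.range (Q.natDegree + 1), monomial a (Q.coeff a * c a), ?_, ?_⟩
  · refine natDegree_sum_le_of_forall_le _ _ fun a ha => (natDegree_monomial_le _).trans ?_
    exact Nat.lt_succ_iff.1 (Finset.mem_range.1 ha)
  · rw [ly_eq p y Q (Nat.lt_succ_self _), map_sum, ly_sum]
    refine Finset.sum_congr rfl fun a _ => ?_
    have h1 : ly p y (monomial a (Q.coeff a * c a)) =
        algebraMap k Ω (Q.coeff a * c a) * y ^ p ^ a := by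
      rw [ly, sum_monomial_index _ _ (by rw [map_zero, zero_mul])]
    rw [h1, ← Algebra.smul_def, map_smul, hc, Algebra.smul_def, map_mul, mul_assoc]

end Ly

section Can

variable {k Ω : Type u} [Field k] [Field Ω] [Algebra k Ω] {v : RVal Ω}
  {B E : IntermediateField k Ω} {y z : Ω} {𝒜 : Submodule k (Module.End k Ω)}
  (p : ℕ)

/-- Canonicity: no `P(F) z`, `P ≠ 0`, is in `B` up to a limit of `E`. -/
def Can (v : RVal Ω) (E B : IntermediateField k Ω) (z : Ω) : Prop :=
  ∀ (Q : Polynomial k), ∀ b ∈ B, Lim v E 0 (ly p z Q + b) → Q = 0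

theorem ly_monomial_sum (y : Ω) (n : ℕ) (lam : ℕ → k) :
    ly p y (∑ c ∈ Finset.range n, monomial c (lam c)) =
      ∑ c ∈ Finset.range n, algebraMap k Ω (lam c) * y ^ p ^ c := by
  rw [ly_sum]
  refine Finset.sum_congr rfl fun c _ => ?_
  rw [ly, sum_monomial_index _ _ (by rw [map_zero, zero_mul])]

theorem limz_ge {w w' : Ω} {s : ℝ} (h : Lim v E s w) (hw : v.Ge s (w - w')) :
    Lim v E s w' := by
  intro ε hε
  obtain ⟨a, ha, h1⟩ := h ε hε
  refine ⟨a, ha, ?_⟩
  have h2 := (hw.neg.mono (by linarith : s - ε ≤ s)).add h1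
  have h3 : -(w - w') + (w - a) = w' - a := by ring
  rwa [h3] at h2

variable [IsAlgClosed Ω] [Fact p.Prime] [CharP k p] [CharP Ω p]

/-- The elements of `B<z>`, `B = E<y>`, which are limits of `E`. -/
theorem Can.lin (hcan : Can p v E (cadj v E y) z) (hy : TL v E y 0)
    (hz : TL v (cadj v E y) z 0) (hres : ResR v (cadj v (cadj v E y) z))
    {g : Polynomial Ω} (hg : g ∈ PI (cadj v E y)) (h : Lim v E 0 (g.eval z)) :
    ∃ e ∈ E, ∃ Q : Polynomial k, Gt v 0 (g.eval z - (e + ly p y Q)) := by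
  obtain ⟨n, lam, b, hb, h1⟩ := lemR_one hz hres hg (Lim.mono h (le_cadj v E y))
  -- the part in `z` vanishes
  set P : Polynomial k := ∑ c ∈ Finset.range n, monomial c (lam c) with hP
  have h2 : ly p z P = ∑ c ∈ Finset.range n, algebraMap k Ω (lam c) * z ^ p ^ c :=
    ly_monomial_sum p z n lam
  have h3 : Lim v E 0 (ly p z P + b) := by
    refine limz_ge h ?_
    have h4 := h1.ge
    have h5 : g.eval z - (∑ c ∈ Finset.range n, algebraMap k Ω (lam c) * z ^ p ^ c) - b =
      g.eval z - (ly p z P + b) := by rw [h2]; ring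
    rwa [h5] at h4
  have h4 : P = 0 := hcan P b hb h3
  have h5 : Gt v 0 (g.eval z - b) := by
    rw [← h2, h4, ly_zero, sub_zero] at h1
    exact h1
  have h6 : Lim v E 0 b := by
    rw [h4, ly_zero, zero_add] at h3
    exact h3
  -- the base part
  obtain ⟨f, hf, h7⟩ := hy.dense hb 1
  have h8 : Lim v E 0 (f.eval y) := limz_ge h6 (h7.mono zero_le_one)
  have hres' : ResR v (cadj v E y) := fun x hx h0 => hres x (le_cadj v _ z hx) h0
  obtain ⟨n', lam', e, he, h9⟩ := lemR_one hy hres' hf h8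
  refine ⟨e, he, ∑ c ∈ Finset.range n', monomial c (lam' c), ?_⟩
  rw [ly_monomial_sum]
  have h10 : g.eval z - (e + ∑ c ∈ Finset.range n', algebraMap k Ω (lam' c) * y ^ p ^ c) =
      (g.eval z - b) + (b - f.eval y) +
      (f.eval y - (∑ c ∈ Finset.range n', algebraMap k Ω (lam' c) * y ^ p ^ c) - e) := by ring
  rw [h10]
  exact (h5.add (Gt.of_ge h7 one_pos)).add h9

/-- If the Hasse derivatives of order `p ^ c` are positive, all Hasse derivatives of order `≥ 1`
are positive. -/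
theorem jets_gt (hz : TL v B z 0) {f : Polynomial Ω} (hf : f ∈ PI B)
    (h : ∀ c, Gt v 0 ((hasseDeriv (p ^ c) f).eval z)) {J : ℕ} (hJ : 1 ≤ J) :
    Gt v 0 ((hasseDeriv J f).eval z) := by
  have hp : p.Prime := Fact.out
  have hpp : ∀ c, 0 < p ^ c := fun c => Nat.pow_pos hp.pos
  have hJ0 : J ≠ 0 := by omega
  set c := padicValNat p J with hc
  obtain ⟨w, hw⟩ : p ^ c ∣ J := pow_padicValNat_dvd
  have hw' : ¬ p ∣ w := by
    intro h
    obtain ⟨w, rfl⟩ := h
    refine pow_succ_padicValNat_not_dvd (p := p) hJ0 ⟨w, ?_⟩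
    rw [← hc, hw, pow_succ]; ring
  have hle : p ^ c ≤ J := Nat.le_of_dvd (by omega) ⟨w, hw⟩
  have h1 := hasse_gt hz (hasse_mem_PI hf (p ^ c)) (h c) (J - p ^ c)
  have h2 : (hasseDeriv (J - p ^ c) (hasseDeriv (p ^ c) f)).eval z =
      (w : Ω) * (hasseDeriv J f).eval z := by
    have h3 : (J.choose (p ^ c) : Ω) = (w : Ω) := by
      rw [choose_pow_cast (p := p), hw, Nat.mul_div_cancel_left _ (hpp c)]
    have h4 := congrArg (fun L => L f) (hasseDeriv_comp (R := Ω) (J - p ^ c) (p ^ c))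
    simp only [LinearMap.comp_apply, LinearMap.smul_apply] at h4
    rw [h4, Nat.sub_add_cancel hle, Nat.choose_symm hle, eval_smul, nsmul_eq_mul, h3]
  rw [h2] at h1
  intro hne
  have hw0 : (w : Ω) ≠ 0 := fun h => hw' ((CharP.cast_eq_zero_iff Ω p w).1 h)
  have h3 := h1 (mul_ne_zero hw0 hne)
  rwa [val_natCast_mul hw' hne] at h3

/-- A polynomial with positive Hasse derivatives of order `p ^ c` is near to an element of the
base. -/
theorem near_base_s6 (hz : TL v B z 0) {f : Polynomial Ω} (hf : f ∈ PI B)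
    (h : ∀ c, Gt v 0 ((hasseDeriv (p ^ c) f).eval z)) : ∃ b ∈ B, Gt v 0 (f.eval z - b) := by
  classical
  obtain ⟨m, hm, δ, hδ, h1⟩ := margin hz
    ((Finset.Icc 1 f.natDegree).image fun J => hasseDeriv J f) (by
      intro g hg
      obtain ⟨J, hJ, rfl⟩ := Finset.mem_image.1 hg
      exact ⟨hasse_mem_PI hf J, jets_gt p hz hf h (Finset.mem_Icc.1 hJ).1⟩)
  obtain ⟨ψ, hψB, hψ⟩ := hz.lim (min δ (m / (2 * (f.natDegree + 1))))
    (lt_min hδ (by positivity))
  rw [zero_sub] at hψ
  refine ⟨f.eval ψ, eval_mem hf hψB, ?_⟩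
  have h2 : v.Ge (-δ) (z - ψ) := hψ.mono (neg_le_neg (min_le_left _ _))
  have h3 : v.Ge (-(m / (2 * (f.natDegree + 1)))) (z - ψ) :=
    hψ.mono (neg_le_neg (min_le_right _ _))
  have h4 : f.eval z - f.eval ψ = (f - C (f.eval ψ)).eval z := by rw [eval_sub, eval_C]
  rw [h4]
  refine eval_gt_of_coeff (D := f.natDegree) (m := m) (δ := m / (2 * (f.natDegree + 1))) ?_ ψ ?_
    (by positivity) ?_ h3
  · refine (natDegree_sub_le _ _).trans ?_
    rw [natDegree_C]
    simp
  · intro l
    rcases Nat.eq_zero_or_pos l with rfl | hl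
    · rw [taylor_coeff_zero, eval_sub, eval_C, sub_self]
      exact RVal.Ge.zero
    · rw [map_sub, taylor_C, coeff_sub, coeff_C_of_ne_zero (by omega), sub_zero]
      by_cases hl' : l ≤ f.natDegree
      · have h5 := h1 ψ h2 _ (Finset.mem_image.2 ⟨l, Finset.mem_Icc.2 ⟨hl, hl'⟩, rfl⟩) 0
        rwa [taylor_coeff_zero, ← taylor_coeff] at h5
      · rw [coeff_eq_zero_of_natDegree_lt (by rw [natDegree_taylor]; omega)]
        exact RVal.Ge.zero
  · have h5 : (0 : ℝ) < 2 * (f.natDegree + 1) := by positivity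
    rw [mul_div_assoc', div_lt_iff₀ h5]
    nlinarith

end Can

end Pool.Agent.TWIV
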