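import Pool.Agent.Lib.TWIV.S6A
import Pool.Agent.Lib.TWIV.TL4

/-!
# TANK W, leaf (IV): the mixed part, II (gauge)

`B = E<y>`, `z` a limit of `B`; `X j` formal limits of `B<z>` with `X_j ^ p = ∑ φ_jl X_l + f_j`,
whose Hasse derivatives of order `p ^ i` are limits of `E`.

* `exists_exact_jets`: exact solutions of the relations of the jets;
* `STO`: the data (output of the degree induction);
* `GDt`: the data during the gauge; `GDt.step`: the step of the gauge.
-/

set_option autoImplicit false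
set_option linter.unusedSectionVars false

open Polynomial

namespace Pool.Agent.TWIV

open Pool.Agent.H15JM (RVal)
open Pool.Agent.D2 (Ctx0)
open Pool.Agent.TWM Pool.Agent.TWC

universe u

section Exact

variable {k Ω : Type u} [Field k] [Field Ω] [Algebra k Ω] {v : RVal Ω} [IsAlgClosed Ω]
  (p : ℕ) [Fact p.Prime] [CharP Ω p] {ι : Type} [Fintype ι]

/-- The exact solutions of the relations of the jets. -/
theorem exists_exact_jets (N : ℕ) (ψ : ℕ → ι → ι → Module.End k Ω)
    (hψ : ∀ i j l (x : Ω) (b : ℝ), v.Ge b x → v.Ge b (ψ i j l x)) (c : ι → ℕ → Ω)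
    (w : ι → ℕ → ℕ → Ω) (h0 : ∀ j i, N ≤ i → Nul v (w j i))
    (h1 : ∀ j i, i < N → Nul v fun n => w j i n ^ p - ∑ l, ψ i j l (w l (i + 1) n) - c j i) :
    ∃ vt : ι → ℕ → Ω, (∀ j i, N ≤ i → vt j i = 0) ∧
      (∀ j i, i < N → vt j i ^ p = ∑ l, ψ i j l (vt l (i + 1)) + c j i) ∧
      ∀ j i, Nul v fun n => w j i n - vt j i := by
  classical
  have hp : p.Prime := Fact.out
  -- the recursion from the top
  have key : ∀ s ≤ N, ∃ vt : ι → ℕ → Ω, (∀ j i, N ≤ i → vt j i = 0) ∧
      (∀ j i, N - s ≤ i → i < N → vt j i ^ p = ∑ l, ψ i j l (vt l (i + 1)) + c j i) ∧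
      ∀ j i, N - s ≤ i → Nul v fun n => w j i n - vt j i := by
    intro s
    induction s with
    | zero =>
      intro _
      refine ⟨fun _ _ => 0, fun _ _ _ => rfl, fun j i h2 h3 => absurd h3 (by omega), ?_⟩
      intro j i hi
      exact (h0 j i (by omega)).congr fun n => by rw [sub_zero]
    | succ s ih =>
      intro hs
      obtain ⟨vt, h2, h3, h4⟩ := ih (by omega)
      set i₀ := N - (s + 1) with hi₀
      have hi₀N : i₀ < N := by omega
      choose r hr using fun j => IsAlgClosed.exists_pow_nat_eq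
        (∑ l, ψ i₀ j l (vt l (i₀ + 1)) + c j i₀) hp.pos
      refine ⟨fun j i => if i = i₀ then r j else vt j i, ?_, ?_, ?_⟩
      · intro j i hi
        have h5 : i ≠ i₀ := by omega
        simp only [if_neg h5]
        exact h2 j i hi
      · intro j i hi hiN
        by_cases h5 : i = i₀
        · rw [h5]
          simp only [if_true]
          rw [hr j]
          simp only [show i₀ + 1 ≠ i₀ by omega, if_false]
        · simp only [if_neg h5, show i + 1 ≠ i₀ by omega, if_false]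
          exact h3 j i (by omega) hiN
      · intro j i hi
        by_cases h5 : i = i₀
        · rw [h5]
          simp only [if_true]
          refine Nul.of_pow hp.ne_zero (v := v) ?_
          have h6 := h1 j i₀ hi₀N
          have h7 : Nul v fun n => ∑ l, ψ i₀ j l (w l (i₀ + 1) n - vt l (i₀ + 1)) := by
            refine Nul.sum _ (fun l n => ψ i₀ j l (w l (i₀ + 1) n - vt l (i₀ + 1)))
              fun l _ => ?_
            intro ε hε
            obtain ⟨M, hM⟩ := h4 l (i₀ + 1) (by omega) ε hε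
            exact ⟨M, fun n hn => hψ _ _ _ _ _ (hM n hn)⟩
          refine (h6.add h7).congr fun n => ?_
          rw [sub_pow_char, hr j]
          simp only [map_sub, Finset.sum_sub_distrib]
          ring
        · simp only [if_neg h5]
          exact h4 j i (by omega)
  obtain ⟨vt, h2, h3, h4⟩ := key N le_rfl
  exact ⟨vt, h2, fun j i hi => h3 j i (by omega) hi, fun j i => h4 j i (by omega)⟩

end Exact

section Gauge

variable {k Ω : Type u} [Field k] [Field Ω] [Algebra k Ω]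

/-- The data of the mixed part (output of the degree induction): `X_j ^ p = ∑ φ_jl X_l + f_j`, the
Hasse derivatives of order `p ^ i` of `X_j` are limits of `E`. -/
structure STO (p : ℕ) (v : RVal Ω) (E B : IntermediateField k Ω) (z : Ω) {ι : Type} [Fintype ι]
    (N : ℕ) (φ : ι → ι → Module.End k Ω) (X : ι → ℕ → Polynomial Ω) (f : ι → Polynomial Ω)
    (w : ι → ℕ → ℕ → Ω) : Prop where
  pc : ∀ j, PC v B z (X j)
  fB : ∀ j, f j ∈ PI B
  wE : ∀ j i, Cau v E (w j i)
  w0 : ∀ j i, N ≤ i → Nul v (w j i)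
  jet : ∀ j i, Nul v fun n => (hasseDeriv (p ^ i) (X j n)).eval z - w j i n
  rel : ∀ j, Nul v fun n => (X j n).eval z ^ p - ∑ l, φ j l ((X l n).eval z) - (f j).eval z

/-- The data during the gauge, the jets of order `p ^ i`, `i > t`, are normalised. -/
structure GDt (p : ℕ) (v : RVal Ω) (E B : IntermediateField k Ω) (y z : Ω) {ι : Type} [Fintype ι]
    (N t : ℕ) (φ : ι → ι → Module.End k Ω) (X : ι → ℕ → Polynomial Ω) (f : ι → Polynomial Ω)
    (wt ep : ι → ℕ → Ω) (Q : ι → ℕ → Polynomial k) : Prop where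
  pc : ∀ j, PC v B z (X j)
  fB : ∀ j, f j ∈ PI B
  wL : ∀ j i, Lim v E 0 (wt j i)
  w0 : ∀ j i, N ≤ i → wt j i = 0
  jet : ∀ j i, Nul v fun n => (hasseDeriv (p ^ i) (X j n)).eval z - wt j i
  rel : ∀ j, Nul v fun n => (X j n).eval z ^ p - ∑ l, φ j l ((X l n).eval z) - (f j).eval z
  eE : ∀ j i, ep j i ∈ E
  fj : ∀ j i, Gt v 0 ((hasseDeriv (p ^ i) (f j)).eval z - (ep j i + ly p y (Q j i)))
  nrm : ∀ j i, t < i → ep j i = 0 ∧ ∃ c : k, Q j i = C c
  top : ∀ j i, N < i → ep j i = 0 ∧ Q j i = 0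

variable {v : RVal Ω} {B E : IntermediateField k Ω} {y z : Ω}
  {𝒜 : Submodule k (Module.End k Ω)} (p : ℕ) [Fact p.Prime] [CharP k p] [CharP Ω p]
  [IsAlgClosed Ω]
  {ι : Type} [Fintype ι] {N t : ℕ} {φ : ι → ι → Module.End k Ω} {X : ι → ℕ → Polynomial Ω}
  {f : ι → Polynomial Ω}

theorem hasse_mono (a w : Ω) (i s : ℕ) :
    (hasseDeriv (p ^ i) (C a * (Polynomial.X : Polynomial Ω) ^ p ^ s)).eval w =
      if s = i then a else 0 := by
  have hp : p.Prime := Fact.out
  rw [← smul_eq_C_mul, map_smul, eval_smul]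
  have h1 : (hasseDeriv (p ^ i) ((Polynomial.X : Polynomial Ω) ^ p ^ s)).eval w =
      if s = i then 1 else 0 := by
    split_ifs with h
    · subst h
      rw [← monomial_one_right_eq_X_pow, hasseDeriv_monomial, Nat.choose_self, Nat.sub_self]
      simp
    · rcases Nat.lt_or_ge i s with h1 | h1
      · refine hasse_pow_char p s Polynomial.X fun h2 => ?_
        exact absurd (Nat.le_of_dvd (pow_pos hp.pos i) h2)
          (not_le.2 (Nat.pow_lt_pow_right hp.one_lt h1))
      · have h2 : s < i := lt_of_le_of_ne h1 h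
        rw [hasseDeriv_eq_zero_of_lt_natDegree, eval_zero]
        rw [natDegree_X_pow]
        exact Nat.pow_lt_pow_right hp.one_lt h2
  rw [h1]
  split_ifs <;> simp

theorem nul_op (hO : OpA v 𝒜) {ψ : Module.End k Ω} (hψ : ψ ∈ 𝒜) {x x' : ℕ → Ω}
    (h : Nul v fun n => x n - x' n) : Nul v fun n => ψ (x n) - ψ (x' n) :=
  (hO.nul hψ h).congr fun n => map_sub _ _ _

theorem nul_op_sum (hO : OpA v 𝒜) {ψ : ι → Module.End k Ω} (hψ : ∀ l, ψ l ∈ 𝒜)
    {x x' : ι → ℕ → Ω} (h : ∀ l, Nul v fun n => x l n - x' l n) :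
    Nul v fun n => ∑ l, ψ l (x l n) - ∑ l, ψ l (x' l n) :=
  (Nul.sum Finset.univ (fun l n => ψ l (x l n) - ψ l (x' l n))
    fun l _ => nul_op hO (hψ l) (h l)).congr fun n => Finset.sum_sub_distrib _ _

/-- The relations of the jets. -/
theorem jet_rel (hO : OpA v 𝒜) (hS : Stb 𝒜 B z) (hz : TL v B z 0)
    (hφ : ∀ j l, φ j l ∈ 𝒜) (hX : ∀ j n, X j n ∈ PI B) (hf : ∀ j, f j ∈ PI B)
    {w : ι → ℕ → ℕ → Ω} (jet : ∀ j i, Nul v fun n => (hasseDeriv (p ^ i) (X j n)).eval z - w j i n)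
    (rel : ∀ j, Nul v fun n => (X j n).eval z ^ p - ∑ l, φ j l ((X l n).eval z) - (f j).eval z) :
    (∀ j i, Nul v fun n => w j i n ^ p - ∑ l, cj (z ^ p ^ (i + 1)) (φ j l) (w l (i + 1) n) -
      (hasseDeriv (p ^ (i + 1)) (f j)).eval z) ∧
    ∀ j, Nul v fun n => ∑ l, cj z (φ j l) (w l 0 n) + (hasseDeriv (p ^ 0) (f j)).eval z := by
  have hp : p.Prime := Fact.out
  have hz0 : z ≠ 0 := (hz.far 0 isAlgebraic_zero).1
  have hR : ∀ j n, Rl p z (φ j) (X j n) (fun l => X l n) (f j) ∈ PI B := fun j n =>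
    Rl_mem p hS (hφ j) (hX j n) (fun l => hX l n) (hf j)
  have hN : ∀ j J, Nul v fun n =>
      (hasseDeriv J (Rl p z (φ j) (X j n) (fun l => X l n) (f j))).eval z := by
    intro j J ε hε
    obtain ⟨M, hM⟩ := rel j ε hε
    refine ⟨M, fun n hn => hasse_ge hz (hR j n) ?_ J⟩
    rw [Rl_eval p hz0]
    exact hM n hn
  constructor
  · intro j i
    have h1 := hN j (p * p ^ i)
    have h2 : Nul v fun n => ((hasseDeriv (p ^ i) (X j n)).eval z - w j i n) ^ p :=
      (jet j i).pow p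
    have h3 : Nul v fun n => ∑ l, cj (z ^ p ^ (i + 1)) (φ j l)
        ((hasseDeriv (p ^ (i + 1)) (X l n)).eval z) -
        ∑ l, cj (z ^ p ^ (i + 1)) (φ j l) (w l (i + 1) n) :=
      nul_op_sum hO (fun l => hS.pow _ (hφ j l)) fun l => jet l (i + 1)
    refine ((h1.sub h2).add h3).congr fun n => ?_
    rw [hasse_Rl, Rl_eval p hz0, sub_pow_char, ← pow_succ']
    ring
  · intro j
    have h1 := (hN j 1).neg
    have h3 : Nul v fun n => ∑ l, cj z (φ j l) ((hasseDeriv (p ^ 0) (X l n)).eval z) -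
        ∑ l, cj z (φ j l) (w l 0 n) := nul_op_sum hO (fun l => hS.cj _ (hφ j l)) fun l => jet l 0
    refine (h1.sub h3).congr fun n => ?_
    rw [hasse_Rl' p (by simpa using hp.one_lt.ne'), pow_zero, eval_sub, eval_sub, eval_zero,
      eval_finsetSum]
    simp only [pow_one, gcf_eval hz0]
    ring

theorem limz_op (hO : OpA v 𝒜) (hE : ∀ ψ ∈ 𝒜, ∀ x ∈ E, ψ x ∈ E) {ψ : Module.End k Ω}
    (hψ : ψ ∈ 𝒜) {x : Ω} (hx : Lim v E 0 x) : Lim v E 0 (ψ x) := by
  intro ε hε
  obtain ⟨a, ha, h1⟩ := hx ε hε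
  exact ⟨ψ a, hE ψ hψ a ha, by rw [← map_sub]; exact hO.ge ψ hψ _ _ h1⟩

theorem limz_add {x x' : Ω} (hx : Lim v E 0 x) (hy : Lim v E 0 x') : Lim v E 0 (x + x') := by
  intro ε hε
  obtain ⟨a, ha, h1⟩ := hx ε hε
  obtain ⟨b, hb, h2⟩ := hy ε hε
  exact ⟨a + b, add_mem ha hb, by rw [add_sub_add_comm]; exact h1.add h2⟩

theorem limz_neg {x : Ω} (hx : Lim v E 0 x) : Lim v E 0 (-x) := by
  intro ε hε
  obtain ⟨a, ha, h1⟩ := hx ε hε
  exact ⟨-a, neg_mem ha, by rw [show -x - -a = -(x - a) by ring]; exact h1.neg⟩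

theorem limz_sub {x x' : Ω} (hx : Lim v E 0 x) (hy : Lim v E 0 x') : Lim v E 0 (x - x') := by
  rw [sub_eq_add_neg]
  exact limz_add hx (limz_neg hy)

theorem limz_mem {x : Ω} (hx : x ∈ E) : Lim v E 0 x := fun ε _ =>
  ⟨x, hx, by rw [sub_self]; exact RVal.Ge.zero⟩

theorem limz_sum {κ : Type*} (s : Finset κ) {x : κ → Ω} (h : ∀ i ∈ s, Lim v E 0 (x i)) :
    Lim v E 0 (∑ i ∈ s, x i) := by
  classical
  induction s using Finset.induction_on with
  | empty => rw [Finset.sum_empty]; exact limz_mem (zero_mem _)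
  | insert i s hi ih =>
    rw [Finset.sum_insert hi]
    exact limz_add (h i (Finset.mem_insert_self i s))
      (ih fun j hj => h j (Finset.mem_insert_of_mem hj))

end Gauge

end Pool.Agent.TWIV
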