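import Pool.Agent.Lib.TWIV.S6D

/-!
# TANK W, leaf (IV): the mixed part, IV

`STO.mxd`: from the output `STO` of the degree induction to the relation `MXD` over `E<y>`.
-/

set_option autoImplicit false
set_option linter.unusedSectionVars false

open Polynomial

namespace Pool.Agent.TWIV

open Pool.Agent.H15JM (RVal)
open Pool.Agent.D2 (Ctx0)
open Pool.Agent.TWM Pool.Agent.TWC

universe u

variable {k Ω : Type u} [Field k] [Field Ω] [Algebra k Ω] {v : RVal Ω} {E : IntermediateField k Ω}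
  {y z : Ω} {𝒜 : Submodule k (Module.End k Ω)} (p : ℕ) [Fact p.Prime] [CharP k p] [CharP Ω p]
  [IsAlgClosed Ω] {ι : Type} [Fintype ι] {N : ℕ} {φ : ι → ι → Module.End k Ω}
  {X : ι → ℕ → Polynomial Ω} {f : ι → Polynomial Ω}

/-- At the end of the gauge the jets of order one of `f` are in `E`. -/
theorem GDt.zero [Fact (Ctx0 k v)] (hO : OpA v 𝒜) (sy : Stb 𝒜 E y)
    (sz : Stb 𝒜 (cadj v E y) z) (hy : TL v E y 0) (hz : TL v (cadj v E y) z 0)
    (hφ : ∀ j l, φ j l ∈ 𝒜) (hH : H1 p v E 𝒜) {wt ep : ι → ℕ → Ω} {Q : ι → ℕ → Polynomial k}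
    (h : GDt p v E (cadj v E y) y z N 0 φ X f wt ep Q) (j₀ : ι) : Q j₀ 0 = 0 := by
  classical
  by_contra hQ
  obtain ⟨r1, r0⟩ := jet_rel p hO sz hz hφ (fun j n => (h.pc j).mem n) h.fB
    (w := fun j i _ => wt j i) h.jet h.rel
  have r1' := fun j i => Nul.const (r1 j i)
  have r0' := fun j => Nul.const (r0 j)
  set s := (Q j₀ 0).natDegree with hs
  -- the family
  let m : (ι × Fin N) ⊕ Fin s → Ω := Sum.elim (fun a => wt a.1 a.2) fun b => y ^ p ^ (b : ℕ)
  have hmL : ∀ a, Lim v E 0 (m a) := by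
    rintro (a | b)
    · exact h.wL _ _
    · exact limz_pow_char p hy.lim _
  have hwS : ∀ l i, ∀ ψ ∈ 𝒜, InSp v E 𝒜 m (ψ (wt l i)) := by
    intro l i ψ hψ
    by_cases hi : i < N
    · exact InSp.op (m := m) (Sum.inl (l, ⟨i, hi⟩)) hψ
    · rw [h.w0 l i (by omega), map_zero]
      exact InSp.zero
  -- the top power
  have hlyS : InSp v E 𝒜 m (ly p y (Q j₀ 0)) := by
    have h1 : InSp v E 𝒜 m (-(∑ l, cj z (φ j₀ l) (wt l 0)) - ep j₀ 0) := by
      rw [sub_eq_add_neg]
      exact (InSp.neg hO (InSp.sum _ fun l _ => hwS l 0 _ (sz.cj _ (hφ j₀ l)))).add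
        (InSp.neg hO (InSp.mem (h.eE j₀ 0)))
    refine h1.ge ?_
    have h2 := (r0' j₀).sub (h.fj j₀ 0).ge
    have h3 : ∑ l, cj z (φ j₀ l) (wt l 0) + (hasseDeriv (p ^ 0) (f j₀)).eval z -
        ((hasseDeriv (p ^ 0) (f j₀)).eval z - (ep j₀ 0 + ly p y (Q j₀ 0))) =
        ly p y (Q j₀ 0) - (-(∑ l, cj z (φ j₀ l) (wt l 0)) - ep j₀ 0) := by ring
    rwa [h3] at h2
  have hyS : ∀ a ≤ s, InSp v E 𝒜 m (y ^ p ^ a) := by
    intro a ha
    rcases Nat.lt_or_ge a s with h1 | h1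
    · exact InSp.self (m := m) hO (Sum.inr ⟨a, h1⟩)
    · have h2 : a = s := le_antisymm ha h1
      subst h2
      have h3 : ly p y (Q j₀ 0) = ∑ a ∈ Finset.range s, algebraMap k Ω ((Q j₀ 0).coeff a) *
          y ^ p ^ a + algebraMap k Ω (Q j₀ 0).leadingCoeff * y ^ p ^ s := by
        rw [ly_eq p y _ (Nat.lt_succ_self _), Finset.sum_range_succ]
        rfl
      have h4 : InSp v E 𝒜 m (algebraMap k Ω (Q j₀ 0).leadingCoeff * y ^ p ^ s) := by
        have h5 : InSp v E 𝒜 m (-∑ a ∈ Finset.range s, algebraMap k Ω ((Q j₀ 0).coeff a) *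
            y ^ p ^ a) := InSp.neg hO (InSp.sum _ fun b hb =>
              InSp.smul hO (InSp.self (m := m) hO (Sum.inr ⟨b, Finset.mem_range.1 hb⟩)) _)
        have h6 := hlyS.add h5
        rw [h3] at h6
        have h7 : ∑ a ∈ Finset.range s, algebraMap k Ω ((Q j₀ 0).coeff a) * y ^ p ^ a +
            algebraMap k Ω (Q j₀ 0).leadingCoeff * y ^ p ^ s +
            -∑ a ∈ Finset.range s, algebraMap k Ω ((Q j₀ 0).coeff a) * y ^ p ^ a =
            algebraMap k Ω (Q j₀ 0).leadingCoeff * y ^ p ^ s := by ring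
        rwa [h7] at h6
      have h5 := h4.smul hO ((Q j₀ 0).leadingCoeff⁻¹)
      rwa [← mul_assoc, ← map_mul, inv_mul_cancel₀ (leadingCoeff_ne_zero.2 hQ), map_one,
        one_mul] at h5
  have hcl : ∀ a, InSp v E 𝒜 m (m a ^ p) := by
    rintro (⟨l, i⟩ | b)
    · change InSp v E 𝒜 m (wt l i ^ p)
      have h1 : InSp v E 𝒜 m (∑ l', cj (z ^ p ^ ((i : ℕ) + 1)) (φ l l') (wt l' ((i : ℕ) + 1)) +
          ly p y (Q l ((i : ℕ) + 1))) := by
        refine (InSp.sum _ fun l' _ => hwS l' _ _ (sz.pow _ (hφ l l'))).add ?_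
        obtain ⟨-, c, hc⟩ := h.nrm l ((i : ℕ) + 1) (Nat.succ_pos _)
        rw [hc, ly_C]
        have h2 := (hyS 0 (Nat.zero_le _)).smul hO c
        rwa [pow_zero, pow_one] at h2
      refine h1.ge ?_
      have h2 := (r1' l i).add (h.fj l ((i : ℕ) + 1)).ge
      rw [(h.nrm l ((i : ℕ) + 1) (Nat.succ_pos _)).1] at h2
      have h3 : wt l i ^ p - ∑ l', cj (z ^ p ^ ((i : ℕ) + 1)) (φ l l') (wt l' ((i : ℕ) + 1)) -
          (hasseDeriv (p ^ ((i : ℕ) + 1)) (f l)).eval z +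
          ((hasseDeriv (p ^ ((i : ℕ) + 1)) (f l)).eval z - (0 + ly p y (Q l ((i : ℕ) + 1)))) =
          wt l i ^ p - (∑ l', cj (z ^ p ^ ((i : ℕ) + 1)) (φ l l') (wt l' ((i : ℕ) + 1)) +
          ly p y (Q l ((i : ℕ) + 1))) := by ring
      rwa [h3] at h2
    · change InSp v E 𝒜 m ((y ^ p ^ (b : ℕ)) ^ p)
      rw [← pow_mul, ← pow_succ]
      exact hyS _ b.2
  obtain ⟨P, hP, e, he, h1⟩ := hH.tor p hO hmL hcl (hyS 0 (Nat.zero_le _))
  rw [pow_zero, pow_one] at h1
  exact not_tor_ly p hy hP he h1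

/-- From the output of the degree induction to the relation over `E<y>`. -/
theorem STO.mxd [Fact (Ctx0 k v)] [PerfectRing k p] (hO : OpA v 𝒜) (sy : Stb 𝒜 E y)
    (sz : Stb 𝒜 (cadj v E y) z) (hy : TL v E y 0) (hz : TL v (cadj v E y) z 0)
    (hres : ResR v (cadj v (cadj v E y) z)) (hcan : Can p v E (cadj v E y) z) (hE : Perf p E)
    (hH : H1 p v E 𝒜) (hφ : ∀ j l, φ j l ∈ 𝒜) {w : ι → ℕ → ℕ → Ω}
    (h : STO p v E (cadj v E y) z N φ X f w) :
    ∃ (M : ℕ) (G : ι → Polynomial Ω) (q : ι → ℕ → k) (e0 f0 : ι → Ω) (vt : ι → ℕ → Ω),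
      (∀ j, G j ∈ PI (cadj v E y)) ∧
      MXD p v E y z 𝒜 M φ q e0 f0 vt (fun j n => X j n - G j) ∧
      (∀ j, PC v (cadj v E y) z fun n => X j n - G j) ∧
      (∀ j i, Lim v E 0 (vt j i)) ∧
      ∀ j i, Nul v fun n => (hasseDeriv (p ^ i) (X j n - G j)).eval z - vt j i := by
  classical
  have hp : p.Prime := Fact.out
  obtain ⟨M, wt, ep, Q, -, h1⟩ := h.gd p hO sy sz hy hz hres hcan hφ
  obtain ⟨G, f', wt', ep', Q', hG, h2⟩ := GDt.run p hO sy sz hy hz hE hφ M h1 le_rfl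
  have hQ0 : ∀ j, Q' j 0 = 0 := h2.zero p hO sy sz hy hz hφ hH
  obtain ⟨r1, r0⟩ := jet_rel p hO sz hz hφ (fun j n => (h2.pc j).mem n) h2.fB
    (w := fun j i _ => wt' j i) h2.jet h2.rel
  have hyB : y ∈ cadj v E y := self_mem_cadj v E y
  -- the coefficients
  have hq : ∀ j i, ∃ c : k, 0 < i → Q' j i = C c := fun j i => by
    by_cases hi : 0 < i
    · obtain ⟨-, c, hc⟩ := h2.nrm j i hi
      exact ⟨c, fun _ => hc⟩
    · exact ⟨0, fun h => absurd h hi⟩
  choose q hq using hq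
  have hfj : ∀ j i, 0 < i → Gt v 0 ((hasseDeriv (p ^ i) (f' j)).eval z -
      algebraMap k Ω (q j i) * y) := by
    intro j i hi
    have h3 := h2.fj j i
    rw [(h2.nrm j i hi).1, hq j i hi, ly_C, zero_add] at h3
    exact h3
  -- the constant term
  have hf0 : ∀ j, ∃ b ∈ cadj v E y, Gt v 0 ((f' j).eval z -
      ∑ i ∈ Finset.Icc 1 M, algebraMap k Ω (q j i) * (y * z ^ p ^ i) - ep' j 0 * z - b) := by
    intro j
    set g : Polynomial Ω := f' j -
      ∑ i ∈ Finset.Icc 1 M, C (algebraMap k Ω (q j i) * y) * Polynomial.X ^ p ^ i -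
      C (ep' j 0) * Polynomial.X ^ p ^ 0 with hg
    have hgB : g ∈ PI (cadj v E y) := sub_mem (sub_mem (h2.fB j) (sum_mem fun i _ =>
      mul_mem (C_mem_PI (mul_mem (IntermediateField.algebraMap_mem _ _) hyB))
        (pow_mem X_mem_PI _))) (mul_mem (C_mem_PI (le_cadj v E y (h2.eE j 0)))
        (pow_mem X_mem_PI _))
    obtain ⟨b, hb, h3⟩ := near_base_s6 p hz hgB (by
      intro c
      have h4 : (hasseDeriv (p ^ c) g).eval z = (hasseDeriv (p ^ c) (f' j)).eval z -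
          (if c ∈ Finset.Icc 1 M then algebraMap k Ω (q j c) * y else 0) -
          if 0 = c then ep' j 0 else 0 := by
        rw [hg, map_sub, map_sub, map_sum, eval_sub, eval_sub, eval_finsetSum]
        simp only [hasse_mono]
        rw [Finset.sum_ite_eq']
      rw [h4]
      rcases Nat.eq_zero_or_pos c with rfl | hc
      · rw [if_neg (by simp), if_pos rfl, sub_zero]
        have h5 := h2.fj j 0
        rwa [hQ0 j, ly_zero, add_zero] at h5
      · have hc0 : (0 : ℕ) ≠ c := by omega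
        rw [if_neg hc0, sub_zero]
        by_cases hcM : c ≤ M
        · rw [if_pos (Finset.mem_Icc.2 ⟨hc, hcM⟩)]
          exact hfj j c hc
        · rw [if_neg (fun h => hcM (Finset.mem_Icc.1 h).2), sub_zero]
          have h5 := h2.fj j c
          rwa [(h2.top j c (by omega)).1, (h2.top j c (by omega)).2, ly_zero, add_zero,
            sub_zero] at h5)
    refine ⟨b, hb, ?_⟩
    have h4 : g.eval z - b = (f' j).eval z -
        ∑ i ∈ Finset.Icc 1 M, algebraMap k Ω (q j i) * (y * z ^ p ^ i) - ep' j 0 * z - b := by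
      rw [hg, eval_sub, eval_sub, eval_finsetSum, eval_mul, eval_C, eval_pow, eval_X, pow_zero,
        pow_one]
      simp only [eval_mul, eval_C, eval_pow, eval_X, mul_assoc]
    rwa [h4] at h3
  choose f0 hf0B hf0 using hf0
  -- the exact jets
  obtain ⟨vt, v0, vr, hv⟩ := exists_exact_jets p M (fun i j l => cj (z ^ p ^ (i + 1)) (φ j l))
    (fun i j l x b hx => hO.ge _ (sz.pow _ (hφ j l)) x b hx)
    (fun j i => algebraMap k Ω (q j (i + 1)) * y) (fun j i _ => wt' j i) (v := v)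
    (fun j i hi => Nul.zero.congr fun _ => (h2.w0 j i hi).symm) (fun j i _ => by
      refine ((r1 j i).add (Nul.const_iff.2 (hfj j (i + 1) (Nat.succ_pos _)).ge)).congr
        fun n => ?_
      ring)
  have hv' : ∀ j i, v.Ge 0 (wt' j i - vt j i) := fun j i => Nul.const (hv j i)
  refine ⟨M, G, q, fun j => ep' j 0, f0, vt, hG, ?_, h2.pc, fun j i => ?_, fun j i => ?_⟩
  · exact
      { XB := fun j n => (h2.pc j).mem n
        φA := hφ
        e0E := fun j => h2.eE j 0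
        f0B := hf0B
        v0 := v0
        vr := vr
        o0 := fun j => by
          have h3 := Nul.const (r0 j)
          have h4 := h2.fj j 0
          rw [hQ0 j, ly_zero, add_zero] at h4
          have h5 : v.Ge 0 (∑ l, cj z (φ j l) (wt' l 0 - vt l 0)) :=
            RVal.Ge.sum _ _ fun l _ => hO.ge _ (sz.cj _ (hφ j l)) _ _ (hv' l 0)
          have h6 := (h3.sub h4.ge).sub h5
          simp only [map_sub, Finset.sum_sub_distrib] at h6
          have h7 : ∑ l, cj z (φ j l) (wt' l 0) + (hasseDeriv (p ^ 0) (f' j)).eval z -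
              ((hasseDeriv (p ^ 0) (f' j)).eval z - ep' j 0) -
              (∑ l, cj z (φ j l) (wt' l 0) - ∑ l, cj z (φ j l) (vt l 0)) =
              ep' j 0 + ∑ l, cj z (φ j l) (vt l 0) := by ring
          rwa [h7] at h6
        rel := fun j => by
          refine ((h2.rel j).add (Nul.const_iff.2 (hf0 j).ge)).congr fun n => ?_
          ring }
  · exact limz_ge (h2.wL j i) (hv' j i)
  · refine ((h2.jet j i).add (hv j i)).congr fun n => ?_
    ring

end Pool.Agent.TWIV
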