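import Pool.Agent.Lib.TWIV.S6E

/-!
# TANK W, leaf (IV): the mixed part, V (the end)

* `MXD.jets`: if all `q_ji` are zero, the exact jets are zero;
* `MXD.spl`: if all `q_ji` are zero, the unknowns split.
-/

set_option autoImplicit false
set_option linter.unusedSectionVars false

open Polynomial

namespace Pool.Agent.TWIV

open Pool.Agent.H15JM (RVal)
open Pool.Agent.D2 (Ctx0)
open Pool.Agent.TWM Pool.Agent.TWC

universe u

variable {k Ω : Type u} [Field k] [Field Ω] [Algebra k Ω] {v : RVal Ω} {E : IntermediateField k Ω}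
  {y z : Ω} {𝒜 : Submodule k (Module.End k Ω)} (p : ℕ)

variable [Fact p.Prime] [CharP k p] [CharP Ω p]
  [IsAlgClosed Ω] {ι : Type} [Fintype ι] {M : ℕ} {φ : ι → ι → Module.End k Ω}
  {X : ι → ℕ → Polynomial Ω} {q : ι → ℕ → k} {e0 f0 : ι → Ω} {vt : ι → ℕ → Ω}

/-- If all `q_ji` are zero, the jets are zero. -/
theorem MXD.jets (h : MXD p v E y z 𝒜 M φ q e0 f0 vt X)
    (hq : ∀ j i, 1 ≤ i → i ≤ M → q j i = 0) (j : ι) (i : ℕ) : vt j i = 0 := by
  have hp : p.Prime := Fact.out
  have key : ∀ s j i, M - s ≤ i → vt j i = 0 := by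
    intro s
    induction s with
    | zero => exact fun j i hi => h.v0 j i (by omega)
    | succ s ih =>
      intro j i hi
      by_cases hiM : i < M
      · have h1 := h.vr j i hiM
        rw [hq j (i + 1) (by omega) hiM, map_zero, zero_mul, add_zero,
          Finset.sum_eq_zero fun l _ => by rw [ih l (i + 1) (by omega), map_zero]] at h1
        exact pow_eq_zero_iff hp.ne_zero |>.1 h1
      · exact h.v0 j i (by omega)
  exact key M j i (by omega)

/-- If all `q_ji` are zero, the unknowns split. -/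
theorem MXD.spl (h : MXD p v E y z 𝒜 M φ q e0 f0 vt X)
    (hq : ∀ j i, 1 ≤ i → i ≤ M → q j i = 0) (hz : TL v (cadj v E y) z 0)
    (hX : ∀ j, PC v (cadj v E y) z (X j)) {D : ℕ} (hD : ∀ j n, (X j n).natDegree ≤ D)
    (hj : ∀ j i, Nul v fun n => (hasseDeriv (p ^ i) (X j n)).eval z - vt j i) (j : ι) :
    ∃ b m, Spl v (cadj v E y) z (X j) b m := by
  obtain ⟨m, hm, h1⟩ := const_lemma hz p (f := X j) (hX j).mem (d := D) (hD j)
    (B := cadj v (cadj v E y) z)
    { mem := fun n => eval_mem_cadj ((hX j).mem n)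
      cau := fun ε hε => by
        obtain ⟨K, hK⟩ := (hX j).cau ε hε
        refine ⟨K, fun a b ha hb => ?_⟩
        have h2 := hK a b ha hb
        rwa [eval_sub] at h2 }
    (fun i => (hj j i).congr fun n => by rw [h.jets p hq j i, sub_zero])
  exact ⟨0, m, zero_mem _, hm, h1.congr fun n => by rw [eval_zero, sub_zero]⟩

end Pool.Agent.TWIV
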