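import Pool.Agent.Lib.TWIV.Tay

/-!
# TANK W, leaf (IV), row S7: the jets along one generator

`K` the closure of `F(w)`. `JtX p v pr K F w γ D`: the operators `D J` of `K` (as functions on `H`,
`0` outside `K`), the coefficients of the Taylor homomorphism `w -> w + a`; `exists_jtx`: existence.
-/

set_option autoImplicit false
set_option linter.unusedSectionVars false

open Polynomial

namespace Pool.Agent.TWIV

open Pool.Agent.H15JM (RVal)
open Pool.Agent.D2 (Ctx0)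
open Pool.Agent.D2P (mem_clI)
open Pool.Agent.TWM
open Pool.Agent.TWC (Nul Cau eq_of_ge)

universe u

variable {k H : Type u} [Field k] [Field H] [Algebra k H] {v : RVal H} {p : ℕ} [hp : Fact p.Prime]
  [CharP H p] {A : Type*} [AddCommGroup A] {pr : A → H →ₗ[k] H}
  {E F K : IntermediateField k H} {w y z : H} {α c d γ ζ : A}

open Classical in
/-- The coefficients of `t` as functions on `H`. -/
noncomputable def jt {K : IntermediateField k H} (t : K →ₐ[k] PowerSeries K) (J : ℕ) (x : H) : H :=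
  if h : x ∈ K then ((PowerSeries.coeff J (t ⟨x, h⟩) : K) : H) else 0

theorem jt_of_mem {t : K →ₐ[k] PowerSeries K} (J : ℕ) {x : H} (h : x ∈ K) :
    jt t J x = ((PowerSeries.coeff J (t ⟨x, h⟩) : K) : H) := dif_pos h

/-- The jets of `K` along `w`, over `F`. -/
structure JtX (p : ℕ) (v : RVal H) (pr : A → H →ₗ[k] H) (K F : IntermediateField k H) (w : H)
    (γ : A) (D : ℕ → H → H) : Prop where
  mem : ∀ J, ∀ x ∈ K, D J x ∈ K
  add : ∀ J, ∀ x ∈ K, ∀ y ∈ K, D J (x + y) = D J x + D J y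
  smul : ∀ J, ∀ a : k, ∀ x ∈ K, D J (a • x) = a • D J x
  lin : ∀ J, ∀ c ∈ F, ∀ x ∈ K, D J (c * x) = c * D J x
  zero : ∀ x ∈ K, D 0 x = x
  norm : ∀ J, ∀ x ∈ K, ∀ b : ℝ, v.Ge b x → v.Ge b (D J x)
  strict : ∀ J, 1 ≤ J → ∀ x ∈ K, ∀ b : ℝ, v.Ge b x → Gt v b (D J x)
  base : ∀ J, 1 ≤ J → ∀ x ∈ F, D J x = 0
  poly : ∀ f ∈ PI F, ∀ J, D J (f.eval w) = (hasseDeriv J f).eval w
  frob : ∀ J, ∀ x ∈ K, D (p * J) (x ^ p) = D J x ^ p
  frob0 : ∀ J, ¬ p ∣ J → ∀ x ∈ K, D J (x ^ p) = 0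
  comp : ∀ m n, ∀ x ∈ K, D n (D m x) = ((n + m).choose m : H) * D (n + m) x
  prc : ∀ J c, ∀ x ∈ K, pr (c - J • γ) (D J x) = D J (pr c x)
  fin : ∀ x ∈ K, ∀ b : ℝ, ∃ N, ∀ J, N ≤ J → v.Ge b (D J x)

variable [PerfectRing H p] [IsAlgClosed H]

omit [PerfectRing H p] hp [CharP H p] [IsAlgClosed H] in
theorem eval_memK (hK : K = cadj v F w) {f : Polynomial H} (hf : f ∈ PI F) : f.eval w ∈ K := by
  subst hK
  exact eval_mem (PI_mono (le_cadj v F w) hf) (self_mem_cadj v F w)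

omit [PerfectRing H p] [IsAlgClosed H] in
/-- The value of the Taylor homomorphism at a polynomial. -/
theorem Tay.poly {t : K →ₐ[k] PowerSeries K} (ht : Tay v pr K F w γ t) (hw : w ∈ K)
    (hF : F ≤ K) {f : Polynomial H} (hf : f ∈ PI F) (h : f.eval w ∈ K) (J : ℕ) :
    ((PowerSeries.coeff J (t ⟨f.eval w, h⟩) : K) : H) = (hasseDeriv J f).eval w := by
  classical
  have e : (⟨f.eval w, h⟩ : K) = ∑ j ∈ Finset.range (f.natDegree + 1),
      (⟨f.coeff j, hF (hf j)⟩ : K) * ⟨w, hw⟩ ^ j := by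
    refine Subtype.ext ?_
    push_cast
    exact eval_eq_sum_range w
  rw [e, map_sum, map_sum]
  have e2 : (hasseDeriv J f).eval w = ∑ j ∈ Finset.range (f.natDegree + 1),
      (j.choose J : H) * f.coeff j * w ^ (j - J) := by
    rw [hasseDeriv_apply, eval_sum, Polynomial.sum_def]
    have hs : f.support ⊆ Finset.range (f.natDegree + 1) := fun j hj =>
      Finset.mem_range.2 (Nat.lt_succ_of_le (le_natDegree_of_mem_supp j hj))
    rw [Finset.sum_subset hs]
    · exact Finset.sum_congr rfl fun j _ => by rw [eval_monomial]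
    · intro j _ hj
      rw [notMem_support_iff.1 hj, mul_zero, monomial_zero_right, eval_zero]
  rw [e2]
  push_cast
  refine Finset.sum_congr rfl fun j _ => ?_
  rw [map_mul, map_pow, ht.base _ (hf j), ht.gen _ rfl, PowerSeries.coeff_C_mul, coeff_add_X_pow]
  push_cast
  ring

variable (p) in
include p hp in
/-- **The jets of a Taylor homomorphism.** -/
theorem Tay.jtx {t : K →ₐ[k] PowerSeries K} (ht : Tay v pr K F w γ t) (hw : TL v F w 0)
    (hK : K = cadj v F w) (hgr : ∀ c, ∀ x ∈ K, pr c x ∈ K) :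
    JtX p v pr K F w γ (jt t) := by
  classical
  have hwK : w ∈ K := by rw [hK]; exact self_mem_cadj v F w
  have hFK : F ≤ K := by rw [hK]; exact le_cadj v F w
  have hd : ∀ x ∈ K, ∀ b : ℝ, ∃ f ∈ PI F, v.Ge b (x - f.eval w) := fun x hx b => by
    rw [hK] at hx
    exact hw.dense hx b
  have hadd : ∀ J, ∀ x ∈ K, ∀ y ∈ K, jt t J (x + y) = jt t J x + jt t J y := by
    intro J x hx y hy
    rw [jt_of_mem J hx, jt_of_mem J hy, jt_of_mem J (add_mem hx hy)]
    have e : (⟨x + y, add_mem hx hy⟩ : K) = ⟨x, hx⟩ + ⟨y, hy⟩ := rfl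
    rw [e, map_add, map_add]
    rfl
  have hnorm : ∀ J, ∀ x ∈ K, ∀ b : ℝ, v.Ge b x → v.Ge b (jt t J x) := fun J x hx b hb => by
    rw [jt_of_mem J hx]
    exact ht.norm J ⟨x, hx⟩ b hb
  have hpoly : ∀ f ∈ PI F, ∀ J, jt t J (f.eval w) = (hasseDeriv J f).eval w := by
    intro f hf J
    have h := eval_memK hK hf
    rw [jt_of_mem J h, ht.poly hwK hFK hf h J]
  refine ⟨?_, hadd, ?_, ?_, ?_, hnorm, ?_, ?_, hpoly, ?_, ?_, ?_, ?_, ?_⟩
  · intro J x hx
    rw [jt_of_mem J hx]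
    exact SetLike.coe_mem _
  · intro J a x hx
    rw [jt_of_mem J hx, jt_of_mem J (K.smul_mem hx)]
    have e : (⟨a • x, K.smul_mem hx⟩ : K) = a • ⟨x, hx⟩ := rfl
    rw [e, map_smul]
    rfl
  · intro J c hc x hx
    rw [jt_of_mem J hx, jt_of_mem J (mul_mem (hFK hc) hx)]
    have e : (⟨c * x, mul_mem (hFK hc) hx⟩ : K) = ⟨c, hFK hc⟩ * ⟨x, hx⟩ := rfl
    rw [e, map_mul, ht.base _ hc, PowerSeries.coeff_C_mul]
    rfl
  · intro x hx
    rw [jt_of_mem 0 hx, ht.zero]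
  · intro J hJ x hx b hb
    obtain ⟨f, hf, h1⟩ := hd x hx (b + 1)
    have hfK := eval_memK hK hf
    have e : jt t J x = jt t J (f.eval w) + jt t J (x - f.eval w) := by
      rw [← hadd J _ hfK _ (sub_mem hx hfK)]
      congr 1
      ring
    rw [e, hpoly f hf J]
    refine (TWC.hasse_gt_of_ge hw hf (r := b) ?_ hJ).add (Gt.of_ge (hnorm J _ (sub_mem hx hfK) _ h1)
      (by linarith))
    have h2 : f.eval w = x - (x - f.eval w) := by ring
    rw [h2]
    exact hb.sub (h1.mono (by linarith))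
  · intro J hJ x hx
    rw [jt_of_mem J (hFK hx), ht.base _ hx, PowerSeries.coeff_C, if_neg (by omega)]
    rfl
  · intro J x hx
    rw [jt_of_mem _ (pow_mem hx p), jt_of_mem J hx]
    have e : (⟨x ^ p, pow_mem hx p⟩ : K) = ⟨x, hx⟩ ^ p := rfl
    rw [e, map_pow, coeff_ps_powK, if_pos (dvd_mul_right p J),
      Nat.mul_div_cancel_left _ hp.out.pos]
    rfl
  · intro J hJ x hx
    rw [jt_of_mem _ (pow_mem hx p)]
    have e : (⟨x ^ p, pow_mem hx p⟩ : K) = ⟨x, hx⟩ ^ p := rfl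
    rw [e, map_pow, coeff_ps_powK, if_neg hJ]
    rfl
  · intro m n x hx
    rw [jt_of_mem m hx, jt_of_mem n (SetLike.coe_mem _), jt_of_mem (n + m) hx]
    have e := ht.comp ⟨x, hx⟩ m n
    have e' : ((PowerSeries.coeff n (t (PowerSeries.coeff m (t ⟨x, hx⟩))) : K) : H) =
        (((n + m).choose m : K) * PowerSeries.coeff (n + m) (t ⟨x, hx⟩) : K) := congrArg _ e
    rw [show (⟨((PowerSeries.coeff m (t ⟨x, hx⟩) : K) : H), SetLike.coe_mem _⟩ : K) =
      PowerSeries.coeff m (t ⟨x, hx⟩) from rfl, e']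
    push_cast
    ring
  · intro J c x hx
    rw [jt_of_mem J hx, jt_of_mem J (hgr c x hx)]
    exact ht.prc ⟨x, hx⟩ ⟨pr c x, hgr c x hx⟩ c rfl J
  · intro x hx b
    obtain ⟨f, hf, h1⟩ := hd x hx b
    have hfK := eval_memK hK hf
    refine ⟨f.natDegree + 1, fun J hJ => ?_⟩
    have e : jt t J x = jt t J (f.eval w) + jt t J (x - f.eval w) := by
      rw [← hadd J _ hfK _ (sub_mem hx hfK)]
      congr 1
      ring
    rw [e, hpoly f hf J, hasseDeriv_eq_zero_of_lt_natDegree _ _ (by omega), eval_zero, zero_add]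
    exact hnorm J _ (sub_mem hx hfK) _ h1

variable (p) in
include p hp in
/-- **Existence of the jets.** -/
theorem exists_jtx [Fact (Ctx0 k v)] (hc : CompleteV v) (hg : GrP p v pr)
    (hF : ∀ c, ∀ x ∈ F, pr c x ∈ F) (hw : TL v F w 0) (hγ : pr γ w = w) (hK : K = cadj v F w) :
    ∃ t : K →ₐ[k] PowerSeries K, Tay v pr K F w γ t ∧ JtX p v pr K F w γ (jt t) := by
  obtain ⟨t, ht⟩ := exists_tay p hc hg hF hw hγ hK
  refine ⟨t, ht, Tay.jtx p ht hw hK ?_⟩
  rw [hK]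
  exact gr_cadj hg hF hw hγ

end Pool.Agent.TWIV
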