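import Pool.Agent.Lib.TWIV.S7a
import Pool.Agent.Lib.TWIV.Multi
import Pool.Agent.Lib.TWIV.NSDH
import Pool.Agent.Lib.TWIV.Core2

/-!
# TANK W, leaf (IV), row S7: the jets of `K = E<y_0, y_1>`

* `Two7`: the two families `D a` of jets of `K`, `D a` over `F a`, the closure of `E(y_(1-a))`;
* `exists_two7`: existence;
* `Two7.near`: the elements of `K` which are limits of `E`;
* `Two7.const`: the sequences whose jets are null are in the limits of `E`.
-/

set_option autoImplicit false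
set_option linter.unusedSectionVars false

open Polynomial

namespace Pool.Agent.TWIV

open Pool.Agent.H15JM (RVal)
open Pool.Agent.D2 (Ctx0)
open Pool.Agent.D2P (mem_clI)
open Pool.Agent.TWM
open Pool.Agent.TWC (Nul Cau eq_of_ge)

universe u

variable {k H : Type u} [Field k] [Field H] [Algebra k H] {v : RVal H} {p : ℕ} [hp : Fact p.Prime]
  [CharP H p] {A : Type*} [AddCommGroup A] {pr : A → H →ₗ[k] H}
  {E F K : IntermediateField k H} {y : ℕ → H} {α : ℕ → A}

/-- The closure of `E(y_(1-a))`. -/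
noncomputable def Fo (v : RVal H) (E : IntermediateField k H) (y : ℕ → H) (a : Fin 2) :
    IntermediateField k H := cadj v E (y (1 - (a : ℕ)))

/-- The jets of `E<y_0, y_1>`. -/
structure Two7 (p : ℕ) (v : RVal H) (pr : A → H →ₗ[k] H) (E K : IntermediateField k H)
    (y : ℕ → H) (α : ℕ → A) (D : Fin 2 → ℕ → H → H) : Prop where
  jx : ∀ a : Fin 2, JtX p v pr K (Fo v E y a) (y a) (α a) (D a)
  comm : ∀ (a a' : Fin 2) (m n : ℕ), ∀ x ∈ K, D a m (D a' n x) = D a' n (D a m x)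
  le : ∀ a, Fo v E y a ≤ K
  my : ∀ a : Fin 2, y a ∈ K
  gr : ∀ c, ∀ x ∈ K, pr c x ∈ K
  K0 : K = cadj v (Fo v E y 0) (y 0)
  K1 : K = cadj v (Fo v E y 1) (y 1)
  t0 : ∀ a : Fin 2, TL v E (y a) 0
  t1 : ∀ a : Fin 2, TL v (Fo v E y a) (y a) 0
  lim : ∀ a : Fin 2, Lim v E 0 (y a)
  deg : ∀ a : Fin 2, pr (α a) (y a) = y a

variable [PerfectRing H p] [IsAlgClosed H]

omit [PerfectRing H p] [IsAlgClosed H] in
theorem other_mem (v : RVal H) (E : IntermediateField k H) (y : ℕ → H) {a a' : Fin 2}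
    (h : a' ≠ a) : y a' ∈ Fo v E y a := by
  have h1 : (a' : ℕ) = 1 - (a : ℕ) := by
    have h2 : (a' : ℕ) ≠ a := fun h3 => h (Fin.ext h3)
    omega
  rw [Fo, ← h1]
  exact self_mem_cadj v E _

omit [PerfectRing H p] hp [CharP H p] [IsAlgClosed H] in
/-- A Taylor homomorphism over `E<y_(1-a)>` is one in the direction `y_a`. -/
theorem Tay.dir {a : Fin 2} {γ : A} {t : K →ₐ[k] PowerSeries K}
    (ht : Tay v pr K (Fo v E y a) (y a) γ t) : Dir v pr K E y 2 a γ t where
  base x hx := ht.base x (le_cadj v _ _ hx)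
  gen l hl x hx := by
    by_cases h : l = (a : ℕ)
    · rw [if_pos h]
      exact ht.gen x (by rw [hx, h])
    · rw [if_neg h, add_zero]
      refine ht.base x ?_
      rw [hx]
      exact other_mem v E y (a' := ⟨l, hl⟩) (fun h1 => h (congrArg Fin.val h1))
  zero := ht.zero
  norm := ht.norm
  prc := ht.prc

/-- **Existence.** -/
theorem exists_two7 [Fact (Ctx0 k v)] (hc : CompleteV v) (hg : GrP p v pr)
    (hT : TwrH v pr E y α 2) :
    ∃ t : Fin 2 → twr v E y 2 →ₐ[k] PowerSeries (twr v E y 2),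
      (∀ j : Fin 2, Dir v pr (twr v E y 2) E y 2 j (α j) (t j)) ∧
      Two7 p v pr E (twr v E y 2) y α (fun a => jt (t a)) := by
  classical
  have h00 : TL v E (y 0) 0 := hT.tl 0 (by omega)
  have h11 : TL v (cadj v E (y 0)) (y 1) 0 := hT.tl 1 (by omega)
  obtain ⟨h01, h10⟩ := TL.swap h00 h11 (hT.lim 1 (by omega))
  have g0 : ∀ c, ∀ x ∈ cadj v E (y 1), pr c x ∈ cadj v E (y 1) :=
    gr_cadj hg hT.gr h01 (hT.deg 1 (by omega))
  have g1 : ∀ c, ∀ x ∈ cadj v E (y 0), pr c x ∈ cadj v E (y 0) :=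
    gr_cadj hg hT.gr h00 (hT.deg 0 (by omega))
  have hK1 : twr v E y 2 = cadj v (Fo v E y 1) (y 1) := rfl
  have hK0 : twr v E y 2 = cadj v (Fo v E y 0) (y 0) := cadj_comm v E (y 0) (y 1)
  obtain ⟨t0, ht0, hj0⟩ := exists_jtx p (F := Fo v E y 0) (w := y 0) (γ := α 0) hc hg g0 h10
    (hT.deg 0 (by omega)) hK0
  obtain ⟨t1, ht1, hj1⟩ := exists_jtx p (F := Fo v E y 1) (w := y 1) (γ := α 1) hc hg g1 h11
    (hT.deg 1 (by omega)) hK1
  have hd0 : Dir v pr (twr v E y 2) E y 2 (0 : Fin 2) (α 0) t0 := Tay.dir (a := 0) ht0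
  have hd1 : Dir v pr (twr v E y 2) E y 2 (1 : Fin 2) (α 1) t1 := Tay.dir (a := 1) ht1
  refine ⟨fun j => if j = 0 then t0 else t1, fun j => ?_, ?_⟩
  · fin_cases j
    · exact hd0
    · exact hd1
  have hc01 : ∀ (m n : ℕ), ∀ x ∈ twr v E y 2, jt t0 m (jt t1 n x) = jt t1 n (jt t0 m x) := by
    intro m n x hx
    rw [jt_of_mem n hx, jt_of_mem m (SetLike.coe_mem _), jt_of_mem m hx,
      jt_of_mem n (SetLike.coe_mem _)]
    exact congrArg Subtype.val (Dir.comm hT (i := 0) (j := 1) (by decide) hd0 hd1 m n ⟨x, hx⟩)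
  have hcs : ∀ (t : twr v E y 2 →ₐ[k] PowerSeries (twr v E y 2))
      (F : IntermediateField k H) (w : H) (γ : A), JtX p v pr (twr v E y 2) F w γ (jt t) →
      ∀ (m n : ℕ), ∀ x ∈ twr v E y 2, jt t m (jt t n x) = jt t n (jt t m x) := by
    intro t F w γ h m n x hx
    rw [h.comp n m x hx, h.comp m n x hx, add_comm m n]
    congr 2
    rw [← Nat.choose_symm (Nat.le_add_right n m), Nat.add_sub_cancel_left]
  refine ⟨fun a => ?_, fun a a' m n x hx => ?_, fun a => ?_, fun a => mem_twr a.2,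
    hT.gr_twr hg le_rfl, hK0, hK1, fun a => ?_, fun a => ?_, fun a => hT.lim a a.2,
    fun a => hT.deg a a.2⟩
  · fin_cases a
    · exact hj0
    · exact hj1
  · fin_cases a <;> fin_cases a'
    · exact hcs t0 _ _ _ hj0 m n x hx
    · exact hc01 m n x hx
    · exact (hc01 n m x hx).symm
    · exact hcs t1 _ _ _ hj1 m n x hx
  · fin_cases a
    · rw [hK0]
      exact le_cadj v _ _
    · rw [hK1]
      exact le_cadj v _ _
  · fin_cases a
    · exact h00
    · exact h01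
  · fin_cases a
    · exact h10
    · exact h11

end Pool.Agent.TWIV
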