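import Pool.Agent.Lib.TWIV.S7b

/-!
# TANK W, leaf (IV), row S7: limits of `E` in `E<y_0, y_1>`, the operators

* `ph pr C lam d l w`: the operator `∑ lam pr_(c - d)`;
* `Two7.near`: the elements of `K` which are limits of `E`;
* `Two7.const`: the sequences whose jets are null are in the limits of `E`;
* `Two7.bdd`: the solutions of a system have a bounded degree.
-/

set_option autoImplicit false
set_option linter.unusedSectionVars false

open Polynomial

namespace Pool.Agent.TWIV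

open Pool.Agent.H15JM (RVal)
open Pool.Agent.D2 (Ctx0)
open Pool.Agent.D2P (mem_clI)
open Pool.Agent.TWM
open Pool.Agent.TWC (Nul Cau eq_of_ge)

universe u

variable {k H : Type u} [Field k] [Field H] [Algebra k H] {v : RVal H} {p : ℕ} [hp : Fact p.Prime]
  [CharP H p] [PerfectRing H p] {A : Type*} [AddCommGroup A] {pr : A → H →ₗ[k] H}
  {E F K B : IntermediateField k H} {w : H} {γ : A} {y : ℕ → H} {α : ℕ → A}

/-! ### The operators -/

section Ph

variable {κ : Type*} [Fintype κ] {C : Finset A} {lam : κ → κ → A → k}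

/-- The operator `∑ lam pr_(c - d)`. -/
noncomputable def ph (pr : A → H →ₗ[k] H) (C : Finset A) (lam : κ → κ → A → k) (d : A) (l : κ)
    (w : κ → H) : H := ∑ l', ∑ c ∈ C, lam l l' c • pr (c - d) (w l')

theorem ph_add (d : A) (l : κ) (w w' : κ → H) :
    ph pr C lam d l (fun j => w j + w' j) = ph pr C lam d l w + ph pr C lam d l w' := by
  simp only [ph, map_add, smul_add, Finset.sum_add_distrib]

theorem ph_sub (d : A) (l : κ) (w w' : κ → H) :
    ph pr C lam d l (fun j => w j - w' j) = ph pr C lam d l w - ph pr C lam d l w' := by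
  simp only [ph, map_sub, smul_sub, Finset.sum_sub_distrib]

theorem ph_zero (d : A) (l : κ) : ph pr C lam d l (fun _ => (0 : H)) = 0 := by
  simp only [ph, map_zero, smul_zero, Finset.sum_const_zero]

theorem ph_ge (hk : Ctx0 k v) (hg : GrP p v pr) {d : A} {l : κ} {w : κ → H} {b : ℝ}
    (h : ∀ j, v.Ge b (w j)) : v.Ge b (ph pr C lam d l w) := by
  refine RVal.Ge.sum _ _ fun j _ => RVal.Ge.sum _ _ fun c _ => ?_
  rw [Algebra.smul_def]
  have h1 := RVal.Ge.mul (hk.ge (lam l j c)) (hg.ge b (c - d) _ (h j))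
  rwa [zero_add] at h1

theorem ph_gt (hk : Ctx0 k v) (hg : GrP p v pr) {d : A} {l : κ} {w : κ → H} {b : ℝ}
    (h : ∀ j, Gt v b (w j)) : Gt v b (ph pr C lam d l w) := by
  refine Gt.sum _ _ fun j _ => Gt.sum _ _ fun c _ => ?_
  rw [Algebra.smul_def]
  have h1 : Gt v b (pr (c - d) (w j)) := by
    by_cases h0 : w j = 0
    · rw [h0, map_zero]
      exact Gt.zero
    · exact Gt.of_ge (hg.ge _ _ _ (RVal.ge_self (v := v) (w j))) (h j h0)
  have h2 := h1.mul_ge (hk.ge (lam l j c))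
  rwa [add_zero, mul_comm] at h2

theorem ph_mem (hgr : ∀ c, ∀ x ∈ K, pr c x ∈ K) {d : A} {l : κ} {w : κ → H}
    (h : ∀ j, w j ∈ K) : ph pr C lam d l w ∈ K :=
  sum_mem fun j _ => sum_mem fun _ _ => K.smul_mem (hgr _ _ (h j))

theorem ph_nul (hk : Ctx0 k v) (hg : GrP p v pr) {d : A} {l : κ} {w : κ → ℕ → H}
    (h : ∀ j, Nul v (w j)) : Nul v fun n => ph pr C lam d l fun j => w j n := by
  classical
  intro ε hε
  choose N hN using fun j => h j ε hε
  exact ⟨Finset.univ.sup N, fun n hn => ph_ge hk hg fun j =>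
    hN j n ((Finset.le_sup (f := N) (Finset.mem_univ j)).trans hn)⟩

theorem ph_cau (hk : Ctx0 k v) (hg : GrP p v pr) (hgr : ∀ c, ∀ x ∈ K, pr c x ∈ K) {d : A} {l : κ}
    {w : κ → ℕ → H} (h : ∀ j, Cau v K (w j)) :
    Cau v K fun n => ph pr C lam d l fun j => w j n := by
  classical
  refine ⟨fun n => ph_mem hgr fun j => (h j).mem n, fun ε hε => ?_⟩
  choose N hN using fun j => (h j).cau ε hε
  refine ⟨Finset.univ.sup N, fun m n hm hn => ?_⟩
  rw [← ph_sub]
  exact ph_ge hk hg fun j => hN j m n ((Finset.le_sup (f := N) (Finset.mem_univ j)).trans hm)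
    ((Finset.le_sup (f := N) (Finset.mem_univ j)).trans hn)

/-- The values at constants. -/
theorem ph_const (hg : GrP p v pr) (ho : ∀ c d x, c ≠ d → pr c (pr d x) = 0)
    (hC : ∀ l l' c, c ∉ C → lam l l' c = 0) (d : A) (l : κ) (r : κ → k) :
    ph pr C lam d l (fun j => algebraMap k H (r j)) = algebraMap k H (∑ j, lam l j d * r j) := by
  classical
  have h1 : ∀ (c : A) (a : k), pr c (algebraMap k H a) = if c = 0 then algebraMap k H a else 0 := by
    intro c a
    rw [Algebra.algebraMap_eq_smul_one, map_smul]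
    split_ifs with hc
    · rw [hc, hg.one]
    · rw [← hg.one, ho c 0 _ hc, smul_zero]
  rw [ph, map_sum]
  refine Finset.sum_congr rfl fun j _ => ?_
  have h2 : ∀ c ∈ C, lam l j c • pr (c - d) (algebraMap k H (r j)) =
      if c = d then algebraMap k H (lam l j d * r j) else 0 := by
    intro c _
    rw [h1]
    by_cases hc : c = d
    · rw [if_pos hc, if_pos (by rw [hc, sub_self]), hc, Algebra.smul_def, map_mul]
    · rw [if_neg hc, if_neg (fun h => hc (sub_eq_zero.1 h)), smul_zero]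
  rw [Finset.sum_congr rfl h2, Finset.sum_ite_eq']
  split_ifs with hd
  · rfl
  · rw [hC l j d hd, zero_mul, map_zero]

end Ph

/-! ### The jets -/

namespace JtX

variable {D : ℕ → H → H} (h : JtX p v pr K F w γ D)

include h

theorem zero' (J : ℕ) : D J 0 = 0 := by
  have h1 := h.add J 0 K.zero_mem 0 K.zero_mem
  rw [add_zero] at h1
  exact left_eq_add.1 h1

theorem neg (J : ℕ) {x : H} (hx : x ∈ K) : D J (-x) = -D J x := by
  have h1 := h.add J x hx (-x) (neg_mem hx)
  rw [add_neg_cancel, h.zero'] at h1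
  exact (neg_eq_of_add_eq_zero_right h1.symm).symm

theorem sub (J : ℕ) {x y : H} (hx : x ∈ K) (hy : y ∈ K) : D J (x - y) = D J x - D J y := by
  rw [sub_eq_add_neg, h.add J x hx _ (neg_mem hy), h.neg J hy, ← sub_eq_add_neg]

theorem sum {ι : Type*} (J : ℕ) (S : Finset ι) (f : ι → H) (hf : ∀ c ∈ S, f c ∈ K) :
    D J (∑ c ∈ S, f c) = ∑ c ∈ S, D J (f c) := by
  classical
  induction S using Finset.induction_on with
  | empty => simpa using h.zero' J
  | insert a S ha ih =>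
    rw [Finset.sum_insert ha, Finset.sum_insert ha,
      h.add J _ (hf a (Finset.mem_insert_self a S)) _
        (sum_mem fun c hc => hf c (Finset.mem_insert_of_mem hc)),
      ih fun c hc => hf c (Finset.mem_insert_of_mem hc)]

theorem amul (J : ℕ) (a : k) {x : H} (hx : x ∈ K) :
    D J (algebraMap k H a * x) = algebraMap k H a * D J x := by
  rw [← Algebra.smul_def, h.smul J a x hx, Algebra.smul_def]

theorem nul (J : ℕ) {x : ℕ → H} (hx : ∀ n, x n ∈ K) (hn : Nul v x) :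
    Nul v fun n => D J (x n) := by
  intro ε hε
  obtain ⟨N, hN⟩ := hn ε hε
  exact ⟨N, fun n hn => h.norm J _ (hx n) _ (hN n hn)⟩

theorem cau (J : ℕ) {x : ℕ → H} (hx : Cau v K x) : Cau v K fun n => D J (x n) where
  mem n := h.mem J _ (hx.mem n)
  cau ε hε := by
    obtain ⟨N, hN⟩ := hx.cau ε hε
    refine ⟨N, fun m n hm hn => ?_⟩
    rw [← h.sub J (hx.mem m) (hx.mem n)]
    exact h.norm J _ (sub_mem (hx.mem m) (hx.mem n)) _ (hN m n hm hn)

theorem ph {κ : Type*} [Fintype κ] {C : Finset A} {lam : κ → κ → A → k}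
    (hgr : ∀ c, ∀ x ∈ K, pr c x ∈ K) (J : ℕ) (d : A) (l : κ) {x : κ → H} (hx : ∀ j, x j ∈ K) :
    D J (TWIV.ph pr C lam d l x) = TWIV.ph pr C lam (d + J • γ) l (fun j => D J (x j)) := by
  rw [TWIV.ph, TWIV.ph, h.sum J _ _ fun j _ => sum_mem fun c _ => K.smul_mem (hgr _ _ (hx j))]
  refine Finset.sum_congr rfl fun j _ => ?_
  rw [h.sum J _ _ fun c _ => K.smul_mem (hgr _ _ (hx j))]
  refine Finset.sum_congr rfl fun c _ => ?_
  rw [h.smul J _ _ (hgr _ _ (hx j)), ← h.prc J _ _ (hx j), sub_sub]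

end JtX

theorem lim_sub7 {x y : H} (hx : Lim v E 0 x) (hy : Lim v E 0 y) : Lim v E 0 (x - y) := by
  intro ε hε
  obtain ⟨a, ha, h1⟩ := hx ε hε
  obtain ⟨b, hb, h2⟩ := hy ε hε
  refine ⟨a - b, sub_mem ha hb, ?_⟩
  rw [show x - y - (a - b) = (x - a) - (y - b) by ring]
  exact h1.sub h2

theorem lim_of_ge7 {x y : H} (hx : Lim v E 0 x) (h : v.Ge 0 (x - y)) : Lim v E 0 y := by
  intro ε hε
  obtain ⟨a, ha, h1⟩ := hx ε hε
  refine ⟨a, ha, ?_⟩
  rw [show y - a = (x - a) - (x - y) by ring]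
  exact h1.sub (h.mono (by linarith))

variable (p) in
theorem lim_pows (hk : Ctx0 k v) {x : H} (hx : Lim v E 0 x) (N : ℕ) (c : ℕ → k) :
    Lim v E 0 (∑ i ∈ Finset.range N, algebraMap k H (c i) * x ^ p ^ i) := by
  obtain ⟨m, hm, h1⟩ := TWC.Lim.exists_cau hx
  refine TWC.Lim.of_nul (m := fun n => ∑ i ∈ Finset.range N, algebraMap k H (c i) * m n ^ p ^ i)
    (fun n => sum_mem fun i _ => mul_mem (E.algebraMap_mem _) (pow_mem (hm.mem n) _)) ?_
  have h2 : Nul v fun n => ∑ i ∈ Finset.range N, algebraMap k H (c i) * (x - m n) ^ p ^ i :=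
    TWC.Nul.sum _ _ fun i _ => TWC.Nul.mul_ge (TWC.Nul.pow h1 (p ^ i)) fun _ => hk.ge _
  refine h2.congr fun n => ?_
  simp only [sub_pow_char_pow, mul_sub, Finset.sum_sub_distrib]

variable [IsAlgClosed H]

/-- One direction: a sequence whose jets are null. -/
theorem const_step {D : ℕ → H → H} (hw : TL v F w 0) (hB : B = cadj v F w) (hBK : B ≤ K)
    (hadd : ∀ J, ∀ x ∈ K, ∀ y ∈ K, D J (x + y) = D J x + D J y)
    (hnorm : ∀ J, ∀ x ∈ K, ∀ b : ℝ, v.Ge b x → v.Ge b (D J x))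
    (hpoly : ∀ f ∈ PI F, ∀ J, D J (f.eval w) = (hasseDeriv J f).eval w) {X : ℕ → H}
    (hX : Cau v B X) (h0 : ∀ c : ℕ, Nul v fun n => D (p ^ c) (X n)) :
    ∃ m, Cau v F m ∧ Nul v fun n => X n - m n := by
  classical
  have hd : ∀ n, ∃ f ∈ PI F, v.Ge 0 (X n - f.eval w) := fun n => by
    have h1 := hX.mem n
    rw [hB] at h1
    exact hw.dense h1 0
  choose f hf hfX using hd
  have hfB : ∀ n, (f n).eval w ∈ B := fun n => by
    rw [hB]
    exact eval_mem (PI_mono (le_cadj v F w) (hf n)) (self_mem_cadj v F w)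
  have hXY : Nul v fun n => X n - (f n).eval w := Nul.of_ge hfX
  have hY : Cau v B fun n => (f n).eval w := hX.of_nul hfB hXY
  have hDsub : ∀ J, ∀ x ∈ K, ∀ y ∈ K, D J (x - y) + D J y = D J x := fun J x hx y hy => by
    rw [← hadd J _ (sub_mem hx hy) _ hy, sub_add_cancel]
  have hY0 : ∀ c : ℕ, Nul v fun n => D (p ^ c) ((f n).eval w) := by
    intro c
    have h1 : Nul v fun n => D (p ^ c) (X n - (f n).eval w) := Nul.of_ge fun n =>
      hnorm _ _ (sub_mem (hBK (hX.mem n)) (hBK (hfB n))) _ (hfX n)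
    refine ((h0 c).sub h1).congr fun n => ?_
    rw [← hDsub _ _ (hBK (hX.mem n)) _ (hBK (hfB n))]
    ring
  obtain ⟨m, hm, h1⟩ := TWC.const_unif hw hf hY fun ε hε => by
    obtain ⟨N₁, h1⟩ := hY.cau ε hε
    choose N hN using fun c => hY0 c ε hε
    set d := (f N₁).natDegree with hd
    refine ⟨max N₁ ((Finset.range (d + 1)).sup N), fun n hn l hl =>
      TWC.hasse_all hw p (hf n) hl fun c _ => ?_⟩
    have hn1 : N₁ ≤ n := (le_max_left _ _).trans hn
    rw [← hpoly _ (hf n)]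
    by_cases hc : c < d + 1
    · exact hN c n (((Finset.le_sup (f := N) (Finset.mem_range.2 hc)).trans
        (le_max_right _ _)).trans hn)
    · have h2 : c < p ^ c := Nat.lt_pow_self hp.out.one_lt
      have h3 : D (p ^ c) ((f N₁).eval w) = 0 := by
        rw [hpoly _ (hf N₁), hasseDeriv_eq_zero_of_lt_natDegree _ _ (by omega), eval_zero]
      rw [← hDsub (p ^ c) _ (hBK (hfB n)) _ (hBK (hfB N₁)), h3, add_zero]
      exact hnorm _ _ (sub_mem (hBK (hfB n)) (hBK (hfB N₁))) _ (h1 n N₁ hn1 le_rfl)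
  exact ⟨m, hm, (hXY.add h1).congr fun n => by ring⟩

namespace Two7

variable {D : Fin 2 → ℕ → H → H} (T : Two7 p v pr E K y α D)

include T

theorem leE (a : Fin 2) : E ≤ Fo v E y a := le_cadj v _ _

theorem leK : E ≤ K := (T.leE 0).trans (T.le 0)

/-- The elements of `K` which are limits of `E`. -/
theorem near (hk : Ctx0 k v) {x : H} (hx : x ∈ K) (hl : Lim v E 0 x) :
    ∃ e ∈ E, ∃ (N : ℕ) (S : Fin 2 × ℕ → k), (∀ z, N ≤ z.2 → S z = 0) ∧
      Gt v 0 (x - e - ∑ z ∈ XN (Fin 2) N, algebraMap k H (S z) * y z.1 ^ p ^ z.2) := by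
  classical
  have hx' : x ∈ cadj v (Fo v E y 1) (y 1) := by
    have h1 := hx
    rw [T.K1] at h1
    exact h1
  obtain ⟨f, hf, N1, c1, h1⟩ := TWC.germ_res hk (T.t1 1) p hx' (hl.mono (T.leE 1))
  have hlf : Lim v E 0 f := by
    refine lim_of_ge7 (lim_sub7 hl (lim_pows p hk (T.lim 1) N1 c1)) ?_
    refine (congrArg (v.Ge 0) ?_).mp h1.ge
    ring
  have hf' : f ∈ cadj v E (y 0) := hf
  obtain ⟨e, he, N0, c0, h2⟩ := TWC.germ_res hk (T.t0 0) p hf' hlf
  set S : Fin 2 × ℕ → k := fun z => if z.1 = 0 then (if z.2 < N0 then c0 z.2 else 0) else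
    (if z.2 < N1 then c1 z.2 else 0) with hS
  refine ⟨e, he, max N0 N1, S, fun z hz => ?_, ?_⟩
  · have h3 := le_max_left N0 N1
    have h4 := le_max_right N0 N1
    rw [hS]
    simp only
    rw [if_neg (show ¬ z.2 < N0 by omega), if_neg (show ¬ z.2 < N1 by omega), ite_self]
  have hsum : ∀ (c : ℕ → k) (N M : ℕ) (w : H), N ≤ M → ∑ i ∈ Finset.range M,
      algebraMap k H (if i < N then c i else 0) * w ^ p ^ i =
      ∑ i ∈ Finset.range N, algebraMap k H (c i) * w ^ p ^ i := by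
    intro c N M w hNM
    symm
    rw [← Finset.sum_subset (Finset.range_subset_range.2 hNM)]
    · exact Finset.sum_congr rfl fun i hi => by rw [if_pos (Finset.mem_range.1 hi)]
    · intro i _ hi
      rw [if_neg (fun h => hi (Finset.mem_range.2 h)), map_zero, zero_mul]
  have h3 : ∑ z ∈ XN (Fin 2) (max N0 N1), algebraMap k H (S z) * y z.1 ^ p ^ z.2 =
      (∑ i ∈ Finset.range N0, algebraMap k H (c0 i) * y 0 ^ p ^ i) +
      ∑ i ∈ Finset.range N1, algebraMap k H (c1 i) * y 1 ^ p ^ i := by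
    rw [XN, Finset.sum_product, Fin.sum_univ_two, hS]
    congr 1
    · exact hsum c0 N0 _ (y 0) (le_max_left _ _)
    · exact hsum c1 N1 _ (y 1) (le_max_right _ _)
  have e1 : y ((1 : Fin 2) : ℕ) = y 1 := rfl
  have e0 : y ((0 : Fin 2) : ℕ) = y 0 := rfl
  rw [h3]
  refine (congrArg (Gt v 0) ?_).mp (h1.add h2)
  rw [e1, e0]
  ring

/-- **The sequences whose jets are null.** -/
theorem const {X : ℕ → H} (hX : Cau v K X)
    (h0 : ∀ (a : Fin 2) (c : ℕ), Nul v fun n => D a (p ^ c) (X n)) :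
    ∃ m, Cau v E m ∧ Nul v fun n => X n - m n := by
  have j1 := T.jx 1
  have j0 := T.jx 0
  obtain ⟨m1, hm1, h1⟩ := const_step (p := p) (D := D 1) (T.t1 1) T.K1 le_rfl j1.add j1.norm
    j1.poly hX (h0 1)
  have hF : Fo v E y 1 ≤ K := T.le 1
  obtain ⟨m, hm, h2⟩ := const_step (p := p) (D := D 0) (B := Fo v E y 1) (T.t0 0) rfl hF j0.add
    j0.norm (fun f hf J => j0.poly f (PI_mono (T.leE 0) hf) J) hm1 fun c => by
      have h3 := j0.nul (p ^ c) (fun n => sub_mem (hX.mem n) (hF (hm1.mem n))) h1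
      refine ((h0 0 c).sub h3).congr fun n => ?_
      rw [j0.sub _ (hX.mem n) (hF (hm1.mem n))]
      ring
  exact ⟨m, hm, (h1.add h2).congr fun n => by ring⟩

end Two7

end Pool.Agent.TWIV
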