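import Pool.Agent.Lib.TWIV.S7c

/-!
# TANK W, leaf (IV), row S7: bounded degree, the quotient of the sequences

* `DD D J`: the jets in both directions; `Two7.bdd`: the solutions of a system have a bounded degree;
* `pN`: the projections on the quotient of the sequences by `E` and the null sequences;
* `GrE.nosysN`: there is no system in this quotient.
-/

set_option autoImplicit false
set_option linter.unusedSectionVars false

open Polynomial

namespace Pool.Agent.TWIV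

open Pool.Agent.H15JM (RVal)
open Pool.Agent.D2 (Ctx0)
open Pool.Agent.D2P (mem_clI)
open Pool.Agent.TWM
open Pool.Agent.TWC (Nul Cau eq_of_ge)

universe u

variable {k H : Type u} [Field k] [Field H] [Algebra k H] {v : RVal H} {p : ℕ} [hp : Fact p.Prime]
  [CharP H p] [PerfectRing H p] {A : Type*} [AddCommGroup A] {pr : A → H →ₗ[k] H}
  {E K : IntermediateField k H} {y : ℕ → H} {α : ℕ → A}

/-- The jets in both directions. -/
def DD (D : Fin 2 → ℕ → H → H) (J : ℕ × ℕ) (x : H) : H := D 0 J.1 (D 1 J.2 x)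

/-- A sequence of degree `≤ d`. -/
def Bnd (v : RVal H) (D : Fin 2 → ℕ → H → H) (d : ℕ) (X : ℕ → H) : Prop :=
  ∀ J : ℕ × ℕ, d < J.1 + J.2 → Nul v fun n => DD D J (X n)

theorem ge_pow_inv {b : ℝ} {x : H} (h : v.Ge b (x ^ p)) : v.Ge (b / p) x := by
  intro h0
  have hp0 : (0 : ℝ) < p := by exact_mod_cast hp.out.pos
  have h1 := h (pow_ne_zero _ h0)
  rw [v.map_pow h0] at h1
  rwa [div_le_iff₀ hp0, mul_comm]

namespace Two7

variable {D : Fin 2 → ℕ → H → H} (T : Two7 p v pr E K y α D)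

include T

theorem dd_mem (J : ℕ × ℕ) {x : H} (hx : x ∈ K) : DD D J x ∈ K :=
  (T.jx 0).mem _ _ ((T.jx 1).mem _ _ hx)

theorem dd_sub (J : ℕ × ℕ) {x x' : H} (hx : x ∈ K) (hx' : x' ∈ K) :
    DD D J (x - x') = DD D J x - DD D J x' := by
  rw [DD, (T.jx 1).sub _ hx hx', (T.jx 0).sub _ ((T.jx 1).mem _ _ hx) ((T.jx 1).mem _ _ hx')]
  rfl

theorem dd_norm (J : ℕ × ℕ) {x : H} (hx : x ∈ K) {b : ℝ} (h : v.Ge b x) : v.Ge b (DD D J x) :=
  (T.jx 0).norm _ _ ((T.jx 1).mem _ _ hx) _ ((T.jx 1).norm _ _ hx _ h)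

theorem dd_nul (J : ℕ × ℕ) {x : ℕ → H} (hx : ∀ n, x n ∈ K) (hn : Nul v x) :
    Nul v fun n => DD D J (x n) :=
  (T.jx 0).nul _ (fun n => (T.jx 1).mem _ _ (hx n)) ((T.jx 1).nul _ hx hn)

theorem dd_frob (J : ℕ × ℕ) {x : H} (hx : x ∈ K) :
    DD D (p * J.1, p * J.2) (x ^ p) = DD D J x ^ p := by
  rw [DD, (T.jx 1).frob _ _ hx, (T.jx 0).frob _ _ ((T.jx 1).mem _ _ hx)]
  rfl

theorem dd_ph {κ : Type*} [Fintype κ] {C : Finset A} {lam : κ → κ → A → k} (J : ℕ × ℕ) (d : A)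
    (l : κ) {x : κ → H} (hx : ∀ j, x j ∈ K) : DD D J (ph pr C lam d l x) =
      ph pr C lam (d + J.2 • α 1 + J.1 • α 0) l (fun j => DD D J (x j)) := by
  have h1 := (T.jx 1).ph (C := C) (lam := lam) T.gr J.2 d l hx
  have h2 := (T.jx 0).ph (C := C) (lam := lam) T.gr J.1 (d + J.2 • α 1) l
    (x := fun j => D 1 J.2 (x j)) fun j => (T.jx 1).mem _ _ (hx j)
  rw [DD, h1]
  exact h2

/-- The jets of an element of `K` of a large degree. -/
theorem dd_fin {x : H} (hx : x ∈ K) : ∃ d : ℕ, ∀ J : ℕ × ℕ, d < J.1 + J.2 →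
    v.Ge 0 (DD D J x) := by
  classical
  obtain ⟨N₁, h1⟩ := (T.jx 1).fin x hx 0
  choose N₀ h0 using fun j : ℕ => (T.jx 0).fin (D 1 j x) ((T.jx 1).mem j _ hx) 0
  refine ⟨N₁ + (Finset.range N₁).sup N₀, fun J hJ => ?_⟩
  by_cases hj : N₁ ≤ J.2
  · exact (T.jx 0).norm _ _ ((T.jx 1).mem _ _ hx) _ (h1 _ hj)
  · refine h0 J.2 J.1 ?_
    have h2 := Finset.le_sup (f := N₀) (Finset.mem_range.2 (not_le.1 hj))
    omega

/-- The degree of a jet. -/
theorem bnd_jet {d : ℕ} {X : ℕ → H} (hX : ∀ n, X n ∈ K) (h : Bnd v D (d + 1) X) (a : Fin 2)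
    {m : ℕ} (hm : 1 ≤ m) : Bnd v D d fun n => D a m (X n) := by
  intro J hJ
  have key : ∃ (c : ℕ) (J' : ℕ × ℕ), J'.1 + J'.2 = J.1 + J.2 + m ∧
      ∀ x ∈ K, DD D J (D a m x) = (c : H) * DD D J' x := by
    fin_cases a
    · refine ⟨(J.1 + m).choose m, (J.1 + m, J.2), by simp only; omega, fun x hx => ?_⟩
      have h1 : D 1 J.2 (D 0 m x) = D 0 m (D 1 J.2 x) := T.comm 1 0 J.2 m x hx
      rw [DD]
      change D 0 J.1 (D 1 J.2 (D 0 m x)) = _
      rw [h1, (T.jx 0).comp m J.1 _ ((T.jx 1).mem _ _ hx)]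
      rfl
    · refine ⟨(J.2 + m).choose m, (J.1, J.2 + m), by simp only; omega, fun x hx => ?_⟩
      rw [DD]
      change D 0 J.1 (D 1 J.2 (D 1 m x)) = _
      rw [(T.jx 1).comp m J.2 _ hx]
      exact (T.jx 0).lin J.1 (((J.2 + m).choose m : ℕ) : H) (natCast_mem _ _)
        (D 1 (J.2 + m) x) ((T.jx 1).mem _ _ hx)
  obtain ⟨c, J', hJ', h1⟩ := key
  have h2 := TWC.Nul.mul_ge (h J' (by omega)) (c := fun _ => (c : H)) fun _ => TWM.ge_natCast v c
  exact h2.congr fun n => (h1 _ (hX n)).symm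

/-- **The solutions of a system have a bounded degree.** -/
theorem bdd (hk : Ctx0 k v) (hg : GrP p v pr) {κ : Type*} [Fintype κ] {C : Finset A}
    {lam : κ → κ → A → k} {X : κ → ℕ → H} {f : κ → H} (hX : ∀ l, Cau v K (X l))
    (hf : ∀ l, f l ∈ K)
    (hR : ∀ l, Nul v fun n => X l n ^ p - ph pr C lam 0 l (fun j => X j n) - f l) :
    ∃ d, ∀ l, Bnd v D d (X l) := by
  classical
  have hp0 : (0 : ℝ) < p := by exact_mod_cast hp.out.pos
  have hp1 : (1 : ℝ) ≤ p := by exact_mod_cast hp.out.one_le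
  choose df hdf using fun l => T.dd_fin (hf l)
  set d := Finset.univ.sup df with hd
  -- the bound of the sequences
  obtain ⟨K₀, hK₀, n₀, hn₀⟩ : ∃ K₀ : ℝ, 0 ≤ K₀ ∧ ∃ n₀, ∀ n, n₀ ≤ n → ∀ l,
      v.Ge (-K₀) (X l n) := by
    choose N hN using fun l => (hX l).cau 1 one_pos
    set n₀ := Finset.univ.sup N with hn₀
    have h0 : 0 ≤ ∑ l, |v (X l n₀)| := Finset.sum_nonneg fun l _ => abs_nonneg _
    refine ⟨1 + ∑ l, |v (X l n₀)|, by linarith, n₀, fun n hn l => ?_⟩
    have h1 : N l ≤ n₀ := Finset.le_sup (f := N) (Finset.mem_univ l)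
    have e1 : X l n = (X l n - X l n₀) + X l n₀ := by ring
    rw [e1]
    refine RVal.Ge.add ((hN l n n₀ (h1.trans hn) h1).mono (by linarith))
      ((RVal.ge_self (v := v) (X l n₀)).mono ?_)
    have h3 := Finset.single_le_sum (f := fun l => |v (X l n₀)|) (fun l _ => abs_nonneg _)
      (Finset.mem_univ l)
    have h4 := neg_abs_le (v (X l n₀))
    linarith
  have key : ∀ M : ℕ, ∀ J : ℕ × ℕ, d < J.1 + J.2 → ∀ ε : ℝ, 0 < ε → ∃ N, ∀ n, N ≤ n → ∀ l,
      v.Ge (-(K₀ / (p : ℝ) ^ M + ε)) (DD D J (X l n)) := by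
    intro M
    induction M with
    | zero =>
      intro J _ ε hε
      refine ⟨n₀, fun n hn l => T.dd_norm J ((hX l).mem n) ((hn₀ n hn l).mono ?_)⟩
      rw [pow_zero, div_one]
      linarith
    | succ M ih =>
      intro J hJ ε hε
      have hJ' : d < p * J.1 + p * J.2 := by
        rw [← mul_add]
        exact hJ.trans_le (Nat.le_mul_of_pos_left _ hp.out.pos)
      obtain ⟨N₁, h1⟩ := ih (p * J.1, p * J.2) hJ' ε hε
      have hu : ∀ l n, X l n ^ p - ph pr C lam 0 l (fun j => X j n) - f l ∈ K := fun l n =>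
        sub_mem (sub_mem (pow_mem ((hX l).mem n) _) (ph_mem T.gr fun j => (hX j).mem n)) (hf l)
      choose N₂ h2 using fun l => T.dd_nul (p * J.1, p * J.2) (hu l) (hR l) ε hε
      refine ⟨max N₁ (Finset.univ.sup N₂), fun n hn l => ?_⟩
      have hn1 : N₁ ≤ n := (le_max_left _ _).trans hn
      have hn2 : N₂ l ≤ n := ((Finset.le_sup (f := N₂) (Finset.mem_univ l)).trans
        (le_max_right _ _)).trans hn
      have hKM : 0 ≤ K₀ / (p : ℝ) ^ M := by positivity
      have h3 : v.Ge (-ε) (DD D (p * J.1, p * J.2)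
        (X l n ^ p - ph pr C lam 0 l (fun j => X j n) - f l)) := h2 l n hn2
      have hph : ph pr C lam 0 l (fun j => X j n) ∈ K := ph_mem T.gr fun j => (hX j).mem n
      have hpw : X l n ^ p ∈ K := pow_mem ((hX l).mem n) _
      rw [T.dd_sub _ (sub_mem hpw hph) (hf l), T.dd_sub _ hpw hph, T.dd_frob J ((hX l).mem n),
        T.dd_ph _ _ _ fun j => (hX j).mem n] at h3
      have h4 : v.Ge (-(K₀ / (p : ℝ) ^ M + ε)) (ph pr C lam
          (0 + (p * J.1, p * J.2).2 • α 1 + (p * J.1, p * J.2).1 • α 0) l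
          (fun j => DD D (p * J.1, p * J.2) (X j n))) := ph_ge hk hg fun j => h1 n hn1 j
      have h5 : v.Ge (-(K₀ / (p : ℝ) ^ M + ε)) (DD D (p * J.1, p * J.2) (f l)) := by
        refine (hdf l _ ?_).mono (by linarith)
        exact (Finset.le_sup (f := df) (Finset.mem_univ l)).trans_lt hJ'
      have h6 : v.Ge (-(K₀ / (p : ℝ) ^ M + ε)) (DD D J (X l n) ^ p) := by
        refine (congrArg (v.Ge _) ?_).mp (((h3.mono (by linarith)).add h4).add h5)
        ring
      refine (ge_pow_inv h6).mono ?_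
      rw [neg_div, neg_le_neg_iff, add_div, div_div, ← pow_succ]
      have h7 : ε / p ≤ ε := div_le_self hε.le hp1
      linarith
  refine ⟨d, fun l J hJ ε hε => ?_⟩
  obtain ⟨M, hM⟩ := pow_unbounded_of_one_lt (K₀ / (ε / 2))
    (show (1 : ℝ) < p by exact_mod_cast hp.out.one_lt)
  obtain ⟨N, hN⟩ := key M J hJ (ε / 2) (by linarith)
  refine ⟨N, fun n hn => (hN n hn l).mono ?_⟩
  have h1 : K₀ / (p : ℝ) ^ M ≤ ε / 2 := by
    rw [div_le_iff₀ (by positivity)]
    rw [div_lt_iff₀ (by linarith)] at hM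
    nlinarith
  linarith

end Two7

/-! ### The quotient of the sequences -/

section Quot

variable [CharP k p] [PerfectRing k p] (p) (h : GrE p v pr E) (hk : Ctx0 k v)

/-- The projections on the quotient of the sequences. -/
noncomputable def pN (c : A) : ((ℕ → H) ⧸ EN k hk E) →ₗ[k] ((ℕ → H) ⧸ EN k hk E) :=
  Submodule.mapQ (EN k hk E) (EN k hk E) ((pr c).compLeft ℕ) fun x hx => by
    obtain ⟨e, he, h1⟩ := hx
    refine ⟨pr c e, h.mem c e he, (nul_pr p h.gr h1 c).congr fun n => ?_⟩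
    rw [map_sub]
    rfl

theorem pN_mk (c : A) (x : ℕ → H) : pN p h hk c ((EN k hk E).mkQ x) =
    (EN k hk E).mkQ (fun n => pr c (x n)) := rfl

include h in
theorem fN_inj : Function.Injective (fN p hk E) := by
  rw [injective_iff_map_eq_zero]
  intro x hx
  obtain ⟨x, rfl⟩ := (EN k hk E).mkQ_surjective x
  rw [fN_mk, Submodule.mkQ_apply, Submodule.Quotient.mk_eq_zero] at hx
  obtain ⟨e, he, h1⟩ := hx
  rw [Submodule.mkQ_apply, Submodule.Quotient.mk_eq_zero]
  refine ⟨Rt p 1 e, h.perf e he, (nul_Rt' p h1).congr fun n => ?_⟩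
  have h2 := Rt_of_pow p 1 (x n)
  rw [pow_one] at h2
  rw [Rt_sub, h2]

/-- **There is no system in the quotient of the sequences.** -/
theorem GrE.nosysN : NoSys (fN p hk E) (pN p h hk) := by
  classical
  intro U hU C hUC
  obtain ⟨S, hS⟩ := hU
  choose lift hlift using (EN k hk E).mkQ_surjective
  have hU' : U = Submodule.span k (Set.range fun i : {x // x ∈ S} =>
      (i : (ℕ → H) ⧸ EN k hk E)) := by
    rw [← hS]
    congr 1
    ext x
    simp
  have h1 : ∀ i : {x // x ∈ S}, ∃ lam : A → {x // x ∈ S} → k,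
      fN p hk E (i : (ℕ → H) ⧸ EN k hk E) = ∑ c ∈ C, ∑ j, lam c j •
        pN p h hk c (j : (ℕ → H) ⧸ EN k hk E) := by
    intro i
    have h2 := hUC (i : (ℕ → H) ⧸ EN k hk E) (by rw [← hS]; exact Submodule.subset_span i.2)
    rw [Submodule.mem_iSup_finset_iff_exists_sum] at h2
    obtain ⟨μ, hμ⟩ := h2
    have h3 : ∀ c, ∃ lam : {x // x ∈ S} → k,
        (μ c : (ℕ → H) ⧸ EN k hk E) = ∑ j, lam j • pN p h hk c (j : (ℕ → H) ⧸ EN k hk E) := by
      intro c
      obtain ⟨u, hu, hu2⟩ := (μ c).2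
      rw [SetLike.mem_coe, hU'] at hu
      obtain ⟨lam, hlam⟩ := (Submodule.mem_span_range_iff_exists_fun k).1 hu
      refine ⟨lam, ?_⟩
      rw [← hu2, ← hlam, map_sum]
      exact Finset.sum_congr rfl fun j _ => map_smul _ _ _
    choose lam hlam using h3
    refine ⟨lam, ?_⟩
    rw [← hμ]
    exact Finset.sum_congr rfl fun c _ => hlam c
  choose lam hlam using h1
  have h2 : ∀ i : {x // x ∈ S}, (fun n => lift (i : (ℕ → H) ⧸ EN k hk E) n ^ p -
      (∑ c ∈ C, ∑ j, lam i c j • pr c (lift (j : (ℕ → H) ⧸ EN k hk E) n))) ∈ EN k hk E := by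
    intro i
    have e1 : (fun n => lift (i : (ℕ → H) ⧸ EN k hk E) n ^ p -
        (∑ c ∈ C, ∑ j, lam i c j • pr c (lift (j : (ℕ → H) ⧸ EN k hk E) n))) =
        (fun n => lift (i : (ℕ → H) ⧸ EN k hk E) n ^ p) - ∑ c ∈ C, ∑ j, lam i c j •
          (fun n => pr c (lift (j : (ℕ → H) ⧸ EN k hk E) n)) := by
      funext n
      rw [Pi.sub_apply, Finset.sum_apply]
      congr 1
      refine Finset.sum_congr rfl fun c _ => ?_
      rw [Finset.sum_apply]
      rfl
    rw [e1, ← Submodule.Quotient.mk_eq_zero, ← Submodule.mkQ_apply, map_sub, ← fN_mk, hlift,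
      hlam, sub_eq_zero, map_sum]
    refine Finset.sum_congr rfl fun c _ => ?_
    rw [map_sum]
    refine Finset.sum_congr rfl fun j _ => ?_
    rw [map_smul, ← pN_mk p h hk, hlift]
  choose e he hge using h2
  have h3 : ∀ i : {x // x ∈ S}, (i : (ℕ → H) ⧸ EN k hk E) = 0 := by
    intro i
    obtain ⟨w, hw, h4⟩ := h.sys_nul p hk C lam he hge i
    rw [← hlift (i : (ℕ → H) ⧸ EN k hk E), Submodule.mkQ_apply, Submodule.Quotient.mk_eq_zero]
    exact ⟨w, hw, h4⟩
  rw [← hS, Submodule.span_eq_bot]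
  exact fun x hx => h3 ⟨x, hx⟩

end Quot

end Pool.Agent.TWIV
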