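import Pool.Agent.Lib.TWIV.S7d
import Pool.Agent.Lib.TWIV.Int2

/-!
# TANK W, leaf (IV), row S7: the jets `D_x`, `x = (a, i)`

`Dx D x = D a (p ^ i)`, `Yy p y x = y_a ^ p ^ i`, `pv`: the value at the previous index.
* `Two7.dx_Y`, `Two7.dx_E`, `Two7.dx_pow`, `Two7.dx_ph`, `Two7.it_*`: the rules;
* `IntP`: integrability; `exists_intP`.
-/

set_option autoImplicit false
set_option linter.unusedSectionVars false

open Polynomial

namespace Pool.Agent.TWIV

open Pool.Agent.H15JM (RVal)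
open Pool.Agent.D2 (Ctx0)
open Pool.Agent.D2P (mem_clI)
open Pool.Agent.TWM
open Pool.Agent.TWC (Nul Cau eq_of_ge)

universe u

variable {k H : Type u} [Field k] [Field H] [Algebra k H] {v : RVal H} {p : ℕ} [hp : Fact p.Prime]
  [CharP H p] [PerfectRing H p] {A : Type*} [AddCommGroup A] {pr : A → H →ₗ[k] H}
  {E K : IntermediateField k H} {y : ℕ → H} {α : ℕ → A}

/-- The jet of index `x`. -/
def Dx (p : ℕ) (D : Fin 2 → ℕ → H → H) (x : Fin 2 × ℕ) (w : H) : H := D x.1 (p ^ x.2) w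

/-- `y_a ^ p ^ i` -/
def Yy (p : ℕ) (y : ℕ → H) (x : Fin 2 × ℕ) : H := y (x.1 : ℕ) ^ p ^ x.2

/-- The degree of `y_a ^ p ^ i`. -/
def dgy (p : ℕ) (α : ℕ → A) (x : Fin 2 × ℕ) : A := p ^ x.2 • α (x.1 : ℕ)

/-- The value at the previous index. -/
def pv (g : Fin 2 × ℕ → H) : Fin 2 × ℕ → H
  | (_, 0) => 0
  | (a, i + 1) => g (a, i)

theorem pv_sub (g g' : Fin 2 × ℕ → H) (x : Fin 2 × ℕ) :
    pv (fun z => g z - g' z) x = pv g x - pv g' x := by
  rcases x with ⟨a, _ | i⟩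
  · exact (sub_zero 0).symm
  · rfl

theorem pv_mem {F : IntermediateField k H} {g : Fin 2 × ℕ → H} (h : ∀ z, g z ∈ F)
    (x : Fin 2 × ℕ) : pv g x ∈ F := by
  rcases x with ⟨a, _ | i⟩
  · exact zero_mem F
  · exact h _

theorem pv_nul {g : Fin 2 × ℕ → ℕ → H} (h : ∀ z, Nul v (g z)) (x : Fin 2 × ℕ) :
    Nul v fun n => pv (fun z => g z n) x := by
  rcases x with ⟨a, _ | i⟩
  · exact TWC.Nul.zero
  · exact h _

/-- The integrability of exact data. -/
def IntP (p : ℕ) (v : RVal H) (K : IntermediateField k H) (D : Fin 2 → ℕ → H → H) : Prop :=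
  ∀ (b : Fin 2 × ℕ → H) (N : ℕ), (∀ x, b x ∈ K) → (∀ x, N ≤ x.2 → b x = 0) →
    (∀ x z, Gt v 0 (Dx p D z (b x) - Dx p D x (b z))) →
    (∀ x, Gt v 0 ((Dx p D x)^[p - 1] (b x))) → ∃ G ∈ K, ∀ x, Gt v 0 (Dx p D x G - b x)

/-- **Integration.** -/
theorem exists_intP [IsAlgClosed H] (hT : TwrH v pr E y α 2)
    {t : Fin 2 → twr v E y 2 →ₐ[k] PowerSeries (twr v E y 2)}
    (ht : ∀ j : Fin 2, Dir v pr (twr v E y 2) E y 2 j (α j) (t j)) :
    IntP p v (twr v E y 2) (fun a => jt (t a)) := by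
  intro b N hb hN hs hβ
  set B : Fin 2 → ℕ → twr v E y 2 := fun a i => ⟨b (a, i), hb _⟩ with hB
  have e1 : ∀ (a : Fin 2) (J : ℕ) (x : twr v E y 2),
      ((Dj (t a) J x : twr v E y 2) : H) = jt (t a) J x := fun a J x => by
    rw [jt_of_mem J x.2]
    rfl
  have hs' : ∀ (a a' : Fin 2) (i j : ℕ), Gt v 0 ((Dj (t a') (p ^ j) (B a i) -
      Dj (t a) (p ^ i) (B a' j) : twr v E y 2) : H) := by
    intro a a' i j
    have h1 := hs (a, i) (a', j)
    refine (congrArg (Gt v 0) ?_).mp h1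
    push_cast
    rw [e1, e1]
    rfl
  have hβ' : ∀ (a : Fin 2) (i : ℕ), Gt v 0 (((Dj (t a) (p ^ i))^[p - 1] (B a i) :
      twr v E y 2) : H) := by
    intro a i
    have h1 := hβ (a, i)
    have h2 : ∀ (m : ℕ), (((Dj (t a) (p ^ i))^[m] (B a i) : twr v E y 2) : H) =
        (Dx p (fun a => jt (t a)) (a, i))^[m] (b (a, i)) := by
      intro m
      induction m with
      | zero => rfl
      | succ m ih =>
        rw [Function.iterate_succ_apply', Function.iterate_succ_apply', e1, ih]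
        rfl
    rw [h2]
    exact h1
  obtain ⟨F, h1, h2⟩ := Dir.int_two hT (ht 0) (ht 1) (N := N) (b₀ := B 0) (b₁ := B 1)
    (fun i hi => Subtype.ext (hN (0, i) hi)) (fun i hi => Subtype.ext (hN (1, i) hi))
    (fun i j => hs' 0 0 i j) (fun i j => hs' 1 1 i j) (fun i j => hs' 0 1 i j)
    (hβ' 0) (hβ' 1)
  refine ⟨F, F.2, ?_⟩
  rintro ⟨a, i⟩
  fin_cases a
  · refine (congrArg (Gt v 0) ?_).mp (h1 i)
    push_cast
    rw [e1]
    rfl
  · refine (congrArg (Gt v 0) ?_).mp (h2 i)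
    push_cast
    rw [e1]
    rfl

namespace Two7

variable {D : Fin 2 → ℕ → H → H} (T : Two7 p v pr E K y α D)

include T

theorem dx_mem (x : Fin 2 × ℕ) {w : H} (hw : w ∈ K) : Dx p D x w ∈ K := (T.jx x.1).mem _ _ hw

theorem dx_sub (x : Fin 2 × ℕ) {w w' : H} (hw : w ∈ K) (hw' : w' ∈ K) :
    Dx p D x (w - w') = Dx p D x w - Dx p D x w' := (T.jx x.1).sub _ hw hw'

theorem dx_add (x : Fin 2 × ℕ) {w w' : H} (hw : w ∈ K) (hw' : w' ∈ K) :
    Dx p D x (w + w') = Dx p D x w + Dx p D x w' := (T.jx x.1).add _ _ hw _ hw'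

theorem dx_comm (x z : Fin 2 × ℕ) {w : H} (hw : w ∈ K) :
    Dx p D z (Dx p D x w) = Dx p D x (Dx p D z w) := T.comm _ _ _ _ _ hw

theorem dx_gt (x : Fin 2 × ℕ) {w : H} (hw : w ∈ K) {b : ℝ} (h : v.Ge b w) :
    Gt v b (Dx p D x w) :=
  (T.jx x.1).strict _ (Nat.one_le_pow _ _ hp.out.pos) _ hw b h

theorem dx_ge (x : Fin 2 × ℕ) {w : H} (hw : w ∈ K) {b : ℝ} (h : v.Ge b w) :
    v.Ge b (Dx p D x w) := (T.jx x.1).norm _ _ hw b h

theorem dx_gt' (x : Fin 2 × ℕ) {w : H} (hw : w ∈ K) {b : ℝ} (h : Gt v b w) :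
    Gt v b (Dx p D x w) := T.dx_gt x hw h.ge

theorem dx_nul (x : Fin 2 × ℕ) {w : ℕ → H} (hw : ∀ n, w n ∈ K) (h : Nul v w) :
    Nul v fun n => Dx p D x (w n) := (T.jx x.1).nul _ hw h

theorem dx_E [IsAlgClosed H] (x : Fin 2 × ℕ) {e : H} (he : e ∈ E) : Dx p D x e = 0 :=
  (T.jx x.1).base _ (Nat.one_le_pow _ _ hp.out.pos) _ (T.leE x.1 he)

theorem dx_Y [IsAlgClosed H] (x z : Fin 2 × ℕ) : Dx p D z (Yy p y x) = if x = z then 1 else 0 := by
  rcases x with ⟨a, i⟩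
  rcases z with ⟨a', c⟩
  by_cases ha : a = a'
  · subst ha
    have h1 : Yy p y (a, i) = (X ^ p ^ i : Polynomial H).eval (y a) := by
      rw [eval_pow, eval_X]
      rfl
    have h2 : (X ^ p ^ i : Polynomial H) ∈ PI (Fo v E y a) := pow_mem X_mem_PI _
    have h3 : Dx p D (a, c) (Yy p y (a, i)) =
        (hasseDeriv (p ^ c) (X ^ p ^ i : Polynomial H)).eval (y a) := by
      rw [h1]
      exact (T.jx a).poly _ h2 _
    rw [h3]
    split_ifs with h
    · have h4 : i = c := congrArg Prod.snd h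
      subst h4
      rw [← monomial_one_right_eq_X_pow, hasseDeriv_monomial, Nat.choose_self, Nat.sub_self]
      simp
    · have h4 : i ≠ c := fun h5 => h (by rw [h5])
      rcases Nat.lt_or_ge c i with h5 | h5
      · refine TWC.hasse_pow_char p i X fun h6 => ?_
        exact absurd (Nat.le_of_dvd (pow_pos hp.out.pos c) h6)
          (not_le.2 (Nat.pow_lt_pow_right hp.out.one_lt h5))
      · have h6 : i < c := lt_of_le_of_ne h5 h4
        rw [hasseDeriv_eq_zero_of_lt_natDegree, eval_zero]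
        rw [natDegree_X_pow]
        exact Nat.pow_lt_pow_right hp.out.one_lt h6
  · rw [if_neg (fun h => ha (congrArg Prod.fst h))]
    refine (T.jx a').base _ (Nat.one_le_pow _ _ hp.out.pos) _ ?_
    exact pow_mem (other_mem v E y ha) _

theorem dx_pow (x : Fin 2 × ℕ) {w : H} (hw : w ∈ K) :
    Dx p D x (w ^ p) = (pv (fun z => Dx p D z w) x) ^ p := by
  rcases x with ⟨a, _ | i⟩
  · have h1 : ¬ p ∣ p ^ 0 := by
      rw [pow_zero]
      intro h
      exact absurd (Nat.le_of_dvd one_pos h) (not_le.2 hp.out.one_lt)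
    change D a (p ^ 0) (w ^ p) = 0 ^ p
    rw [(T.jx a).frob0 _ h1 _ hw, zero_pow hp.out.ne_zero]
  · change D a (p ^ (i + 1)) (w ^ p) = (D a (p ^ i) w) ^ p
    rw [pow_succ', (T.jx a).frob _ _ hw]

theorem dx_ph {κ : Type*} [Fintype κ] {C : Finset A} {lam : κ → κ → A → k} (x : Fin 2 × ℕ) (d : A)
    (l : κ) {w : κ → H} (hw : ∀ j, w j ∈ K) : Dx p D x (ph pr C lam d l w) =
      ph pr C lam (d + dgy p α x) l (fun j => Dx p D x (w j)) :=
  (T.jx x.1).ph T.gr _ d l hw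

/-! ### Iterates -/

theorem it_mem (x : Fin 2 × ℕ) (m : ℕ) {w : H} (hw : w ∈ K) : (Dx p D x)^[m] w ∈ K := by
  induction m with
  | zero => exact hw
  | succ m ih =>
    rw [Function.iterate_succ_apply']
    exact T.dx_mem x ih

theorem it_sub (x : Fin 2 × ℕ) (m : ℕ) {w w' : H} (hw : w ∈ K) (hw' : w' ∈ K) :
    (Dx p D x)^[m] (w - w') = (Dx p D x)^[m] w - (Dx p D x)^[m] w' := by
  induction m with
  | zero => rfl
  | succ m ih =>
    rw [Function.iterate_succ_apply', Function.iterate_succ_apply', Function.iterate_succ_apply',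
      ih, T.dx_sub x (T.it_mem x m hw) (T.it_mem x m hw')]

theorem it_add (x : Fin 2 × ℕ) (m : ℕ) {w w' : H} (hw : w ∈ K) (hw' : w' ∈ K) :
    (Dx p D x)^[m] (w + w') = (Dx p D x)^[m] w + (Dx p D x)^[m] w' := by
  induction m with
  | zero => rfl
  | succ m ih =>
    rw [Function.iterate_succ_apply', Function.iterate_succ_apply', Function.iterate_succ_apply',
      ih, T.dx_add x (T.it_mem x m hw) (T.it_mem x m hw')]

theorem it_gt (x : Fin 2 × ℕ) {m : ℕ} (hm : 1 ≤ m) {w : H} (hw : w ∈ K) (h : v.Ge 0 w) :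
    Gt v 0 ((Dx p D x)^[m] w) := by
  obtain ⟨m, rfl⟩ : ∃ m', m = m' + 1 := ⟨m - 1, by omega⟩
  have h1 : v.Ge 0 ((Dx p D x)^[m] w) := by
    clear hm
    induction m with
    | zero => exact h
    | succ m ih =>
      rw [Function.iterate_succ_apply']
      exact T.dx_ge x (T.it_mem x m hw) ih
  rw [Function.iterate_succ_apply']
  exact T.dx_gt x (T.it_mem x m hw) h1

theorem it_ph {κ : Type*} [Fintype κ] {C : Finset A} {lam : κ → κ → A → k} (x : Fin 2 × ℕ) (m : ℕ)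
    (d : A) (l : κ) {w : κ → H} (hw : ∀ j, w j ∈ K) : ∃ d' : A,
      (Dx p D x)^[m] (ph pr C lam d l w) = ph pr C lam d' l (fun j => (Dx p D x)^[m] (w j)) := by
  induction m with
  | zero => exact ⟨d, rfl⟩
  | succ m ih =>
    obtain ⟨d', hd⟩ := ih
    refine ⟨d' + dgy p α x, ?_⟩
    rw [Function.iterate_succ_apply', hd, T.dx_ph x d' l fun j => T.it_mem x m (hw j)]
    simp only [Function.iterate_succ_apply']

theorem it_pow (a : Fin 2) (i m : ℕ) {w : H} (hw : w ∈ K) :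
    (Dx p D (a, i + 1))^[m] (w ^ p) = ((Dx p D (a, i))^[m] w) ^ p := by
  induction m with
  | zero => rfl
  | succ m ih =>
    rw [Function.iterate_succ_apply', Function.iterate_succ_apply', ih,
      T.dx_pow (a, i + 1) (T.it_mem (a, i) m hw)]
    rfl

theorem it_comp (x : Fin 2 × ℕ) (m : ℕ) {w : H} (hw : w ∈ K) :
    ∃ c : ℕ, (Dx p D x)^[m] w = (c : H) * D x.1 (m * p ^ x.2) w := by
  induction m with
  | zero =>
    refine ⟨1, ?_⟩
    rw [Function.iterate_zero, id_eq, Nat.zero_mul, (T.jx x.1).zero w hw, Nat.cast_one, one_mul]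
  | succ m ih =>
    obtain ⟨c, hc⟩ := ih
    refine ⟨c * (p ^ x.2 + m * p ^ x.2).choose (m * p ^ x.2), ?_⟩
    rw [Function.iterate_succ_apply', hc]
    have h1 := (T.jx x.1).lin (p ^ x.2) ((c : ℕ) : H) (natCast_mem _ _)
      (D x.1 (m * p ^ x.2) w) ((T.jx x.1).mem _ _ hw)
    rw [Dx, h1, (T.jx x.1).comp _ _ _ hw, Nat.cast_mul, mul_assoc,
      show (m + 1) * p ^ x.2 = p ^ x.2 + m * p ^ x.2 by ring]

theorem it_p (x : Fin 2 × ℕ) {w : H} (hw : w ∈ K) : (Dx p D x)^[p] w = 0 := by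
  set q := p - 1 with hqd
  have hq : q + 1 = p := by
    have := hp.out.pos
    omega
  obtain ⟨c, hc⟩ := T.it_comp x q hw
  have e0 : (Dx p D x)^[p] w = Dx p D x ((Dx p D x)^[q] w) := by
    have h3 := Function.iterate_succ_apply' (Dx p D x) q w
    rwa [Nat.succ_eq_add_one, hq] at h3
  have h1 := (T.jx x.1).lin (p ^ x.2) ((c : ℕ) : H) (natCast_mem _ _)
    (D x.1 (q * p ^ x.2) w) ((T.jx x.1).mem _ _ hw)
  rw [e0, hc, Dx, h1, (T.jx x.1).comp _ _ _ hw]
  have h2 : p ^ x.2 + q * p ^ x.2 = p ^ x.2 * p := by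
    have h4 : p ^ x.2 + q * p ^ x.2 = p ^ x.2 * (q + 1) := by ring
    rw [h4, hq]
  have h3 : (((p ^ x.2 + q * p ^ x.2).choose (q * p ^ x.2) : ℕ) : H) = 0 := by
    rw [CharP.cast_eq_zero_iff H p, ← Nat.choose_symm (Nat.le_add_left _ _),
      Nat.add_sub_cancel, h2, TWC.dvd_choose_pow_iff, Nat.mul_div_cancel_left _
      (Nat.pow_pos hp.out.pos)]
  rw [h3, zero_mul, mul_zero]

end Two7

end Pool.Agent.TWIV
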