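import Pool.Agent.Lib.TWIV.S7e

/-!
# TANK W, leaf (IV), row S7: the data of a system, the tensor core

`Dat`: the solutions `X l` of a system over `K = E<y_0, y_1>` with `D_x X_l = b_x + m_x`,
`b_x ∈ K`, `m_x` limits of `E`.
* `Dat.rnul`: `r_x = ∑ φ b_x + D_x f - F b_(x-1)` is a limit of `E`;
* `Dat.core`: the relations `Cor`;
* `Dat.gauge`: after gauge `m_x = 0` and `D_z b_x - D_x b_z > 0`.
-/

set_option autoImplicit false
set_option linter.unusedSectionVars false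

open Polynomial

namespace Pool.Agent.TWIV

open Pool.Agent.H15JM (RVal)
open Pool.Agent.D2 (Ctx0)
open Pool.Agent.D2P (mem_clI)
open Pool.Agent.TWM
open Pool.Agent.TWC (Nul Cau eq_of_ge InBL)

universe u

variable {k H : Type u} [Field k] [Field H] [Algebra k H] {v : RVal H} {p : ℕ} [hp : Fact p.Prime]
  [CharP H p] [PerfectRing H p] [IsAlgClosed H] {A : Type*} [AddCommGroup A] {pr : A → H →ₗ[k] H}
  {E K : IntermediateField k H} {y : ℕ → H} {α : ℕ → A} {κ : Type*} [Fintype κ]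

/-- The data. -/
structure Dat (p : ℕ) (v : RVal H) (pr : A → H →ₗ[k] H) (E K : IntermediateField k H)
    (D : Fin 2 → ℕ → H → H) (C : Finset A) (lam : κ → κ → A → k) (X : κ → ℕ → H) (f : κ → H)
    (b : κ → Fin 2 × ℕ → H) (m : κ → Fin 2 × ℕ → ℕ → H) (N : ℕ) : Prop where
  lamC : ∀ l l' c, c ∉ C → lam l l' c = 0
  cX : ∀ l, Cau v K (X l)
  mf : ∀ l, f l ∈ K
  rel : ∀ l, Nul v fun n => X l n ^ p - ph pr C lam 0 l (fun j => X j n) - f l
  mb : ∀ l x, b l x ∈ K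
  cm : ∀ l x, Cau v E (m l x)
  zb : ∀ l x, N ≤ x.2 → b l x = 0
  zm : ∀ l x, N ≤ x.2 → m l x = fun _ => 0
  spl : ∀ l x, Nul v fun n => Dx p D x (X l n) - b l x - m l x n

namespace Dat

variable {D : Fin 2 → ℕ → H → H} (T : Two7 p v pr E K y α D) {C : Finset A}
  {lam : κ → κ → A → k} {X : κ → ℕ → H} {f : κ → H} {b : κ → Fin 2 × ℕ → H}
  {m : κ → Fin 2 × ℕ → ℕ → H} {N : ℕ} (G : Dat p v pr E K D C lam X f b m N)

/-- The element `r_x`. -/
noncomputable def rr (p : ℕ) (pr : A → H →ₗ[k] H) (α : ℕ → A) (D : Fin 2 → ℕ → H → H)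
    (C : Finset A) (lam : κ → κ → A → k) (f : κ → H) (b : κ → Fin 2 × ℕ → H) (l : κ)
    (x : Fin 2 × ℕ) : H :=
  ph pr C lam (dgy p α x) l (fun j => b j x) + Dx p D x (f l) - (pv (b l) x) ^ p

include T G

theorem rr_mem (l : κ) (x : Fin 2 × ℕ) : rr p pr α D C lam f b l x ∈ K :=
  sub_mem (add_mem (ph_mem T.gr fun j => G.mb j x) (T.dx_mem x (G.mf l)))
    (pow_mem (pv_mem (G.mb l) x) p)

/-- The relation of the jets. -/
theorem dx_rel (l : κ) (x : Fin 2 × ℕ) : Nul v fun n =>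
    (pv (fun z => Dx p D z (X l n)) x) ^ p -
      ph pr C lam (dgy p α x) l (fun j => Dx p D x (X j n)) - Dx p D x (f l) := by
  have hph : ∀ n, ph pr C lam 0 l (fun j => X j n) ∈ K := fun n =>
    ph_mem T.gr fun j => (G.cX j).mem n
  have hpw : ∀ n, X l n ^ p ∈ K := fun n => pow_mem ((G.cX l).mem n) _
  have h1 := T.dx_nul x (fun n => sub_mem (sub_mem (hpw n) (hph n)) (G.mf l)) (G.rel l)
  refine h1.congr fun n => ?_
  rw [T.dx_sub x (sub_mem (hpw n) (hph n)) (G.mf l), T.dx_sub x (hpw n) (hph n),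
    T.dx_pow x ((G.cX l).mem n), T.dx_ph x 0 l fun j => (G.cX j).mem n, zero_add]

/-- `r_x` is a limit of `E`. -/
theorem rnul (hk : Ctx0 k v) (hg : GrP p v pr) (l : κ) (x : Fin 2 × ℕ) :
    Nul v fun n => rr p pr α D C lam f b l x -
      ((pv (fun z => m l z n) x) ^ p - ph pr C lam (dgy p α x) l (fun j => m j x n)) := by
  have h1 := G.dx_rel T l x
  have h2 : Nul v fun n => ph pr C lam (dgy p α x) l
      (fun j => Dx p D x (X j n) - b j x - m j x n) := ph_nul hk hg fun j => G.spl j x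
  have h3 : Nul v fun n => (pv (fun z => Dx p D z (X l n) - b l z - m l z n) x) ^ p :=
    TWC.Nul.pow (pv_nul (fun z => G.spl l z) x) p
  refine ((h3.sub h2).sub h1).congr fun n => ?_
  rw [pv_sub (fun z => Dx p D z (X l n) - b l z) (fun z => m l z n) x,
    pv_sub (fun z => Dx p D z (X l n)) (b l) x, ph_sub, ph_sub, sub_pow_char, sub_pow_char, rr]
  ring

theorem rlim (hk : Ctx0 k v) (hg : GrP p v pr) (hE : ∀ c, ∀ x ∈ E, pr c x ∈ E) (l : κ)
    (x : Fin 2 × ℕ) : Lim v E 0 (rr p pr α D C lam f b l x) :=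
  TWC.Lim.of_nul (fun n => sub_mem (pow_mem (pv_mem (fun z => (G.cm l z).mem n) x) p)
    (ph_mem hE fun j => (G.cm j x).mem n)) (G.rnul T hk hg l x)

/-- for large indices `r_x` is integral -/
theorem rbig (hk : Ctx0 k v) (hg : GrP p v pr) (l : κ) (x : Fin 2 × ℕ) (hx : N + 1 ≤ x.2) :
    v.Ge 0 (rr p pr α D C lam f b l x) := by
  refine TWC.Nul.const ((G.rnul T hk hg l x).congr fun n => ?_)
  obtain ⟨a, i⟩ := x
  obtain ⟨i, rfl⟩ : ∃ i', i = i' + 1 := ⟨i - 1, by simp only at hx; omega⟩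
  have h1 : pv (fun z => m l z n) (a, i + 1) = 0 := by
    change m l (a, i) n = 0
    rw [G.zm l (a, i) (by simp only at hx ⊢; omega)]
  have h2 : (fun j => m j (a, i + 1) n) = fun _ => (0 : H) := by
    funext j
    rw [G.zm j (a, i + 1) (by simp only at hx ⊢; omega)]
  rw [h1, h2, ph_zero, zero_pow hp.out.ne_zero, sub_zero, sub_zero]

/-- `D_z b_x - D_x b_z` is integral -/
theorem dxb_ge (l : κ) (x z : Fin 2 × ℕ) : v.Ge 0 (Dx p D z (b l x) - Dx p D x (b l z)) := by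
  have hmE : ∀ z n, m l z n ∈ E := fun z n => (G.cm l z).mem n
  have hmK : ∀ z n, m l z n ∈ K := fun z n => T.leK (hmE z n)
  have h1 : ∀ x z, Nul v fun n => Dx p D z (Dx p D x (X l n)) - Dx p D z (b l x) := by
    intro x z
    have hXx : ∀ n, Dx p D x (X l n) ∈ K := fun n => T.dx_mem x ((G.cX l).mem n)
    refine (T.dx_nul z (fun n => sub_mem (sub_mem (hXx n) (G.mb l x)) (hmK x n))
      (G.spl l x)).congr fun n => ?_
    rw [T.dx_sub z (sub_mem (hXx n) (G.mb l x)) (hmK x n), T.dx_sub z (hXx n) (G.mb l x),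
      T.dx_E z (hmE x n), sub_zero]
  refine TWC.Nul.const (((h1 z x).sub (h1 x z)).congr fun n => ?_)
  rw [T.dx_comm z x ((G.cX l).mem n)]
  ring

/-- the jets of `r_x` -/
theorem dx_rr (l : κ) (x z : Fin 2 × ℕ) : Dx p D z (rr p pr α D C lam f b l x) =
    ph pr C lam (dgy p α x + dgy p α z) l (fun j => Dx p D z (b j x)) +
      Dx p D z (Dx p D x (f l)) - (pv (fun z' => Dx p D z' (pv (b l) x)) z) ^ p := by
  have h1 : ph pr C lam (dgy p α x) l (fun j => b j x) ∈ K := ph_mem T.gr fun j => G.mb j x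
  have h2 : Dx p D x (f l) ∈ K := T.dx_mem x (G.mf l)
  have h3 := pv_mem (G.mb l) x
  rw [rr, T.dx_sub z (add_mem h1 h2) (pow_mem h3 p), T.dx_add z h1 h2, T.dx_ph z _ l fun j =>
    G.mb j x, T.dx_pow z h3]

end Dat

/-- The residues and the coefficients. -/
structure Cof (p : ℕ) (v : RVal H) (pr : A → H →ₗ[k] H) (α : ℕ → A) (E : IntermediateField k H)
    (D : Fin 2 → ℕ → H → H) (y : ℕ → H) (C : Finset A) (lam : κ → κ → A → k) (f : κ → H)
    (b : κ → Fin 2 × ℕ → H) (M : ℕ) (e : κ → Fin 2 × ℕ → H)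
    (S ρ : κ → Fin 2 × ℕ → Fin 2 × ℕ → k) : Prop where
  me : ∀ l x, e l x ∈ E
  S1 : ∀ l x z, M ≤ x.2 → S l x z = 0
  S2 : ∀ l x z, M ≤ z.2 → S l x z = 0
  hS : ∀ l x, Gt v 0 (Dat.rr p pr α D C lam f b l x - e l x -
    ∑ z ∈ XN (Fin 2) M, algebraMap k H (S l x z) * Yy p y z)
  hρ : ∀ l x z, Gt v 0 (Dx p D z (b l x) - Dx p D x (b l z) - algebraMap k H (ρ l x z))
  far : ∀ l x z, M ≤ x.2 → Gt v 0 (Dx p D x (b l z))

namespace Dat

variable {D : Fin 2 → ℕ → H → H} (T : Two7 p v pr E K y α D) {C : Finset A}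
  {lam : κ → κ → A → k} {X : κ → ℕ → H} {f : κ → H} {b : κ → Fin 2 × ℕ → H}
  {m : κ → Fin 2 × ℕ → ℕ → H} {N : ℕ} (G : Dat p v pr E K D C lam X f b m N)

include T G

theorem exists_cof (hk : Ctx0 k v) (hg : GrP p v pr) (hE : ∀ c, ∀ x ∈ E, pr c x ∈ E) :
    ∃ M, N ≤ M ∧ ∃ e S ρ, Cof p v pr α E D y C lam f b M e S ρ := by
  classical
  -- the coefficients
  have h1 : ∀ (l : κ) (x : Fin 2 × ℕ), ∃ e ∈ E, ∃ (M : ℕ) (S : Fin 2 × ℕ → k),
      (∀ z, M ≤ z.2 → S z = 0) ∧ Gt v 0 (rr p pr α D C lam f b l x - e -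
        ∑ z ∈ XN (Fin 2) M, algebraMap k H (S z) * Yy p y z) ∧
        (N + 1 ≤ x.2 → ∀ z, S z = 0) := by
    intro l x
    by_cases hx : N + 1 ≤ x.2
    · obtain ⟨c, hc⟩ := hk.residue (G.rbig T hk hg l x hx)
      refine ⟨algebraMap k H c, E.algebraMap_mem c, 0, fun _ => 0, fun _ _ => rfl, ?_,
        fun _ _ => rfl⟩
      simp only [map_zero, zero_mul, Finset.sum_const_zero, sub_zero]
      exact hc
    · obtain ⟨e, he, M, S, hS, h2⟩ := T.near hk (G.rr_mem T l x) (G.rlim T hk hg hE l x)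
      exact ⟨e, he, M, S, hS, h2, fun h => absurd h hx⟩
  choose e he M₁ S hS1 hS2 hS3 using h1
  -- the residues
  choose ρ hρ using fun (l : κ) (x z : Fin 2 × ℕ) => hk.residue (G.dxb_ge T l x z)
  -- the far jets
  choose M₂ hM₂ using fun (q : κ × (Fin 2 × ℕ) × Fin 2) =>
    (T.jx q.2.2).fin (b q.1 q.2.1) (G.mb _ _) 1
  set M : ℕ := max (N + 1) (max
    ((Finset.univ ×ˢ XN (Fin 2) (N + 1)).sup fun q : κ × (Fin 2 × ℕ) => M₁ q.1 q.2)
    ((Finset.univ ×ˢ (XN (Fin 2) N ×ˢ Finset.univ)).sup M₂)) with hM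
  have hMN : N + 1 ≤ M := le_max_left _ _
  have hM1 : ∀ l x, x.2 < N + 1 → M₁ l x ≤ M := by
    intro l x hx
    refine le_trans ?_ ((le_max_left _ _).trans (le_max_right (N + 1) _))
    exact Finset.le_sup (f := fun q : κ × (Fin 2 × ℕ) => M₁ q.1 q.2)
      (Finset.mem_product.2 ⟨Finset.mem_univ l, mem_XN.2 hx⟩ : (l, x) ∈ Finset.univ ×ˢ _)
  have hM2 : ∀ l z a, z.2 < N → M₂ (l, z, a) ≤ M := by
    intro l z a hz
    refine le_trans ?_ ((le_max_right _ _).trans (le_max_right (N + 1) _))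
    exact Finset.le_sup (f := M₂) (Finset.mem_product.2 ⟨Finset.mem_univ l,
      Finset.mem_product.2 ⟨mem_XN.2 hz, Finset.mem_univ a⟩⟩ :
        (l, z, a) ∈ Finset.univ ×ˢ (XN (Fin 2) N ×ˢ Finset.univ))
  refine ⟨M, by omega, e, S, ρ, he, fun l x z hx => hS3 l x (by omega) z, fun l x z hz => ?_,
    fun l x => ?_, fun l x z => hρ l x z, fun l x z hx => ?_⟩
  · by_cases hx : N + 1 ≤ x.2
    · exact hS3 l x hx z
    · exact hS1 l x z ((hM1 l x (by omega)).trans hz)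
  · by_cases hx : N + 1 ≤ x.2
    · have h3 := hS2 l x
      have h4 : ∀ M : ℕ, ∑ z ∈ XN (Fin 2) M, algebraMap k H (S l x z) * Yy p y z = 0 :=
        fun M => Finset.sum_eq_zero fun z _ => by rw [hS3 l x hx z, map_zero, zero_mul]
      rw [h4] at h3 ⊢
      exact h3
    · have h3 := hS2 l x
      have h4 : ∑ z ∈ XN (Fin 2) (M₁ l x), algebraMap k H (S l x z) * Yy p y z =
          ∑ z ∈ XN (Fin 2) M, algebraMap k H (S l x z) * Yy p y z := by
        refine Finset.sum_subset (fun z hz => ?_) fun z _ hz => ?_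
        · rw [mem_XN] at hz ⊢
          exact hz.trans_le (hM1 l x (by omega))
        · rw [mem_XN, not_lt] at hz
          rw [hS1 l x z hz, map_zero, zero_mul]
      rwa [h4] at h3
  · by_cases hz : z.2 < N
    · have h3 : M₂ (l, z, x.1) ≤ p ^ x.2 :=
        ((hM2 l z x.1 hz).trans hx).trans (Nat.lt_pow_self hp.out.one_lt).le
      exact Gt.of_ge (hM₂ (l, z, x.1) _ h3) one_pos
    · rw [G.zb l z (not_lt.1 hz)]
      have h3 : Dx p D x (0 : H) = 0 := (T.jx x.1).zero' _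
      rw [h3]
      exact Gt.zero

end Dat

namespace Cof

variable {D : Fin 2 → ℕ → H → H} (T : Two7 p v pr E K y α D) {C : Finset A}
  {lam : κ → κ → A → k} {X : κ → ℕ → H} {f : κ → H} {b : κ → Fin 2 × ℕ → H}
  {m : κ → Fin 2 × ℕ → ℕ → H} {N : ℕ} (G : Dat p v pr E K D C lam X f b m N) {M : ℕ}
  {e : κ → Fin 2 × ℕ → H} {S ρ : κ → Fin 2 × ℕ → Fin 2 × ℕ → k}
  (c : Cof p v pr α E D y C lam f b M e S ρ)

include T

theorem Y_mem (z : Fin 2 × ℕ) : Yy p y z ∈ K := pow_mem (T.my z.1) _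

theorem sum_mem' (s : Finset (Fin 2 × ℕ)) (a : Fin 2 × ℕ → k) :
    ∑ z ∈ s, algebraMap k H (a z) * Yy p y z ∈ K :=
  sum_mem fun z _ => mul_mem (K.algebraMap_mem _) (Cof.Y_mem T z)

theorem dx_sum (s : Finset (Fin 2 × ℕ)) (a : Fin 2 × ℕ → k) (z : Fin 2 × ℕ) :
    Dx p D z (∑ x ∈ s, algebraMap k H (a x) * Yy p y x) =
      if z ∈ s then algebraMap k H (a z) else 0 := by
  classical
  have h1 : Dx p D z (∑ x ∈ s, algebraMap k H (a x) * Yy p y x) =
      ∑ x ∈ s, Dx p D z (algebraMap k H (a x) * Yy p y x) :=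
    (T.jx z.1).sum _ _ _ fun x _ => mul_mem (K.algebraMap_mem _) (Cof.Y_mem T x)
  rw [h1]
  have h2 : ∀ x ∈ s, Dx p D z (algebraMap k H (a x) * Yy p y x) =
      if x = z then algebraMap k H (a x) else 0 := by
    intro x _
    have h3 : Dx p D z (algebraMap k H (a x) * Yy p y x) =
        algebraMap k H (a x) * Dx p D z (Yy p y x) := (T.jx z.1).amul _ _ (Cof.Y_mem T x)
    rw [h3, T.dx_Y]
    split_ifs
    · rw [mul_one]
    · rw [mul_zero]
  rw [Finset.sum_congr rfl h2, Finset.sum_ite_eq' s z]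

include G c

/-- `D_z r_x` is near to `S x z` -/
theorem dx_S (l : κ) (x z : Fin 2 × ℕ) :
    Gt v 0 (Dx p D z (Dat.rr p pr α D C lam f b l x) - algebraMap k H (S l x z)) := by
  have h1 := T.dx_gt' z (sub_mem (sub_mem (G.rr_mem T l x) (T.leK (c.me l x)))
    (Cof.sum_mem' T (XN (Fin 2) M) (S l x))) (c.hS l x)
  rw [T.dx_sub z (sub_mem (G.rr_mem T l x) (T.leK (c.me l x))) (Cof.sum_mem' T _ _),
    T.dx_sub z (G.rr_mem T l x) (T.leK (c.me l x)), T.dx_E z (c.me l x), sub_zero,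
    Cof.dx_sum T] at h1
  split_ifs at h1 with h2
  · exact h1
  · rw [mem_XN, not_lt] at h2
    rw [c.S2 l x z h2, map_zero]
    exact h1

theorem anti (hk : Ctx0 k v) (l : κ) (x z : Fin 2 × ℕ) : ρ l z x = -ρ l x z := by
  have h1 := (c.hρ l z x).add (c.hρ l x z)
  have h2 : ρ l z x + ρ l x z = 0 := by
    refine hk.const_eq_zero ?_
    refine (congrArg (Gt v 0) ?_).mp h1.neg
    rw [map_add]
    ring
  exact eq_neg_of_add_eq_zero_left h2

theorem ρbig (hk : Ctx0 k v) (hNM : N ≤ M) (l : κ) (x z : Fin 2 × ℕ) (hx : M ≤ x.2) :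
    ρ l x z = 0 := by
  have h1 := c.hρ l x z
  have h3 : Dx p D z (0 : H) = 0 := (T.jx z.1).zero' _
  rw [G.zb l x (hNM.trans hx), h3, zero_sub] at h1
  refine hk.const_eq_zero ?_
  refine (congrArg (Gt v 0) ?_).mp (h1.add (c.far l x z hx)).neg
  ring

/-- the relation of the residues -/
theorem rho_rel (h : GrE p v pr E) (hk : Ctx0 k v) (l : κ) (x z : Fin 2 × ℕ) :
    Gt v 0 (algebraMap k H (S l x z - S l z x - ∑ j, lam l j (dgy p α x + dgy p α z) * ρ j x z) +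
      ((pv (fun z' => Dx p D z' (pv (b l) x)) z) ^ p -
        (pv (fun z' => Dx p D z' (pv (b l) z)) x) ^ p)) := by
  have h1 := c.dx_S T G l x z
  have h2 := c.dx_S T G l z x
  rw [G.dx_rr T] at h1 h2
  have h3 : Gt v 0 (ph pr C lam (dgy p α x + dgy p α z) l (fun j => Dx p D z (b j x) -
      Dx p D x (b j z) - algebraMap k H (ρ j x z))) := ph_gt hk h.gr fun j => c.hρ j x z
  rw [ph_sub, ph_sub, ph_const h.gr h.orth G.lamC] at h3
  rw [T.dx_comm z x (G.mf l), add_comm (dgy p α z)] at h2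
  refine (congrArg (Gt v 0) ?_).mp ((h2.sub h1).add h3)
  rw [map_sub, map_sub]
  ring

end Cof

end Pool.Agent.TWIV
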