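import Pool.Agent.Lib.TWIV.S7f

/-!
# TANK W, leaf (IV), row S7: the gauge

* `Cof.cor`: the relations `Cor` of the tensor core, in the quotient of the sequences;
* `Dat.gauge`: after gauge `m_x = 0` and `D_z b_x - D_x b_z > 0`;
* `Dat.beta`: `D_x ^ (p - 1) b_x > 0`;
* `Dat.concl`: the solutions are in `K + L(E)`.
-/

set_option autoImplicit false
set_option linter.unusedSectionVars false

open Polynomial

namespace Pool.Agent.TWIV

open Pool.Agent.H15JM (RVal)
open Pool.Agent.D2 (Ctx0)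
open Pool.Agent.D2P (mem_clI)
open Pool.Agent.TWM
open Pool.Agent.TWC (Nul Cau eq_of_ge InBL)

universe u

variable {k H : Type u} [Field k] [Field H] [Algebra k H] {v : RVal H} {p : ℕ} [hp : Fact p.Prime]
  [CharP k p] [PerfectRing k p]
  [CharP H p] [PerfectRing H p] [IsAlgClosed H] {A : Type*} [AddCommGroup A] {pr : A → H →ₗ[k] H}
  {E K : IntermediateField k H} {y : ℕ → H} {α : ℕ → A} {κ : Type*} [Fintype κ]

theorem hom_pow (hg : GrP p v pr) {c : A} {x : H} (hx : pr c x = x) (n : ℕ) :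
    pr (n • c) (x ^ n) = x ^ n := by
  induction n with
  | zero => rw [zero_smul, pow_zero, hg.one]
  | succ n ih =>
    have h1 := hg.mul (n • c) c (x ^ n) x
    rw [ih, hx] at h1
    rw [succ_nsmul, pow_succ, h1]

section

variable {D : Fin 2 → ℕ → H → H} (T : Two7 p v pr E K y α D) {C : Finset A}
  {lam : κ → κ → A → k} {X : κ → ℕ → H} {f : κ → H} {b : κ → Fin 2 × ℕ → H}
  {m : κ → Fin 2 × ℕ → ℕ → H} {N : ℕ} (G : Dat p v pr E K D C lam X f b m N) {M : ℕ}
  {e : κ → Fin 2 × ℕ → H} {S ρ : κ → Fin 2 × ℕ → Fin 2 × ℕ → k}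
  (c : Cof p v pr α E D y C lam f b M e S ρ) (h : GrE p v pr E) (hk : Ctx0 k v)

variable (p) in
/-- the classes of the generators -/
noncomputable def yN (hk : Ctx0 k v) (E : IntermediateField k H) (y : ℕ → H) (a : Fin 2) :
    (ℕ → H) ⧸ EN k hk E := (EN k hk E).mkQ fun _ => y a

theorem Yx_eq (x : Fin 2 × ℕ) : Yx (fN p hk E) (yN hk E y) x =
    (EN k hk E).mkQ fun _ => Yy p y x := fN_it p hk x.2 _

/-- a combination of the classes -/
theorem sum_Yx (s : Finset (Fin 2 × ℕ)) (a : Fin 2 × ℕ → k) :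
    ∑ x ∈ s, a x • Yx (fN p hk E) (yN hk E y) x =
      (EN k hk E).mkQ fun _ => ∑ x ∈ s, algebraMap k H (a x) * Yy p y x := by
  have h1 : (fun _ : ℕ => ∑ x ∈ s, algebraMap k H (a x) * Yy p y x) =
      ∑ x ∈ s, a x • (fun _ : ℕ => Yy p y x) := by
    funext n
    rw [Finset.sum_apply]
    exact Finset.sum_congr rfl fun x _ => by rw [Pi.smul_apply, Algebra.smul_def]
  rw [h1, map_sum]
  exact Finset.sum_congr rfl fun x _ => by rw [map_smul, Yx_eq]

/-- the operators on the classes -/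
theorem ph_mkQ (d : A) (l : κ) (w : κ → ℕ → H) :
    ∑ j, ∑ c ∈ C, lam l j c • pN p h hk (c - d) ((EN k hk E).mkQ (w j)) =
      (EN k hk E).mkQ fun n => ph pr C lam d l fun j => w j n := by
  have h1 : (fun n => ph pr C lam d l fun j => w j n) =
      ∑ j, ∑ c ∈ C, lam l j c • (fun n => pr (c - d) (w j n)) := by
    funext n
    rw [ph, Finset.sum_apply]
    refine Finset.sum_congr rfl fun j _ => ?_
    rw [Finset.sum_apply]
    rfl
  rw [h1, map_sum]
  refine Finset.sum_congr rfl fun j _ => ?_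
  rw [map_sum]
  exact Finset.sum_congr rfl fun c _ => by rw [map_smul, pN_mk]

include T G c

/-- the relation of the classes -/
theorem rel_mkQ (l : κ) (x : Fin 2 × ℕ) :
    ((EN k hk E).mkQ fun n => (pv (fun z => m l z n) x) ^ p) =
      (∑ j, ∑ c ∈ C, lam l j c • pN p h hk (c - dgy p α x) ((EN k hk E).mkQ (m j x))) +
      ∑ z ∈ XN (Fin 2) M, S l x z • Yx (fN p hk E) (yN hk E y) z := by
  rw [ph_mkQ, sum_Yx, ← map_add, ← sub_eq_zero, ← map_sub, Submodule.mkQ_apply,
    Submodule.Quotient.mk_eq_zero]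
  refine ⟨e l x, c.me l x, ?_⟩
  have h1 := G.rnul T hk h.gr l x
  have h2 : Nul v fun _ => Dat.rr p pr α D C lam f b l x - e l x -
    ∑ z ∈ XN (Fin 2) M, algebraMap k H (S l x z) * Yy p y z := TWC.Nul.of_ge fun _ =>
      (c.hS l x).ge
  refine (h2.sub h1).congr fun n => ?_
  simp only [Pi.sub_apply, Pi.add_apply]
  ring

/-- **The relations of the tensor core.** -/
theorem Cof.cor (hNM : N ≤ M) : Cor (fN p hk E) (pN p h hk) p (fun a : Fin 2 => α a)
    (yN hk E y) M C lam (fun l x => (EN k hk E).mkQ (m l x)) S ρ where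
  hom x := by
    rw [Yx_eq, pN_mk]
    congr 1
    funext n
    exact hom_pow h.gr (T.deg x.1) (p ^ x.2)
  orth c' x hc := by
    rw [Yx_eq, pN_mk]
    have h1 : (fun _ : ℕ => pr c' (Yy p y x)) = 0 := by
      funext n
      have h2 : pr (dgx p (fun a : Fin 2 => α a) x) (Yy p y x) = Yy p y x :=
        hom_pow h.gr (T.deg x.1) (p ^ x.2)
      rw [← h2, h.orth _ _ _ hc]
      rfl
    rw [h1, map_zero]
  ind := by
    rw [linearIndependent_iff']
    intro s g hs z hz
    rw [sum_Yx, Submodule.mkQ_apply, Submodule.Quotient.mk_eq_zero] at hs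
    obtain ⟨e', he', h1⟩ := hs
    have h2 : v.Ge 0 ((∑ x ∈ s, algebraMap k H (g x) * Yy p y x) - e') := TWC.Nul.const h1
    have h3 := T.dx_gt z (sub_mem (Cof.sum_mem' T s g) (T.leK he')) h2
    rw [T.dx_sub z (Cof.sum_mem' T s g) (T.leK he'), Cof.dx_sum T, if_pos hz, T.dx_E z he',
      sub_zero] at h3
    exact hk.const_eq_zero h3
  lamC := G.lamC
  mbig l x hx := by
    rw [G.zm l x (hNM.trans hx)]
    exact map_zero _
  Sbig := c.S1
  Sbig' := c.S2
  ρbig l x z hx := c.ρbig T G hk hNM l x z hx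
  anti l x z := c.anti T G hk l x z
  rel l x := by
    rw [fN_mk]
    exact rel_mkQ T G c h hk l (shx x)
  rel0 l a := by
    have h1 := rel_mkQ T G c h hk l (a, 0)
    have h2 : (fun n => (pv (fun z => m l z n) (a, 0)) ^ p) = 0 := by
      funext n
      change (0 : H) ^ p = 0
      exact zero_pow hp.out.ne_zero
    rw [h2, map_zero] at h1
    exact h1
  rho l x z := by
    have h1 := c.rho_rel T G h hk l (shx x) (shx z)
    have h2 : Gt v 0 ((Dx p D z (b l x) - Dx p D x (b l z) - algebraMap k H (ρ l x z)) ^ p) := by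
      have h3 := TWM.gt_pow (p := p) (c.hρ l x z)
      rwa [mul_zero] at h3
    have h3 : Gt v 0 (algebraMap k H (S l (shx x) (shx z) - S l (shx z) (shx x) -
        ∑ j, lam l j (dgy p α (shx x) + dgy p α (shx z)) * ρ j (shx x) (shx z) +
        ρ l x z ^ p)) := by
      refine (congrArg (Gt v 0) ?_).mp (h1.sub h2)
      rw [sub_pow_char, sub_pow_char, map_add, map_pow]
      change algebraMap k H _ + ((Dx p D z (b l x)) ^ p - (Dx p D x (b l z)) ^ p) - _ = _
      ring
    have h4 := hk.const_eq_zero h3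
    rw [frobenius_def]
    change S l (shx x) (shx z) - S l (shx z) (shx x) =
      (∑ j, lam l j (dgy p α (shx x) + dgy p α (shx z)) * ρ j (shx x) (shx z)) - ρ l x z ^ p
    linear_combination h4
  rho0 l a z := by
    have h1 := c.rho_rel T G h hk l (a, 0) z
    have h2 : pv (fun z' => Dx p D z' (pv (b l) (a, 0))) z = 0 := by
      rcases z with ⟨a', _ | i⟩
      · rfl
      · change D a' (p ^ i) 0 = 0
        exact (T.jx a').zero' _
    have h3 : pv (fun z' => Dx p D z' (pv (b l) z)) (a, 0) = 0 := rfl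
    rw [h2, h3, sub_self, add_zero] at h1
    have h4 := hk.const_eq_zero h1
    change S l (a, 0) z - S l z (a, 0) =
      ∑ j, lam l j (dgy p α (a, 0) + dgy p α z) * ρ j (a, 0) z
    linear_combination h4

end

namespace Dat

variable {D : Fin 2 → ℕ → H → H} (T : Two7 p v pr E K y α D) {C : Finset A}
  {lam : κ → κ → A → k} {X : κ → ℕ → H} {f : κ → H} {b : κ → Fin 2 × ℕ → H}
  {m : κ → Fin 2 × ℕ → ℕ → H} {N : ℕ} (G : Dat p v pr E K D C lam X f b m N)
  (h : GrE p v pr E) (hk : Ctx0 k v)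

include T G

/-- **The gauge.** -/
theorem gauge (h : GrE p v pr E) (hk : Ctx0 k v) : ∃ (b' : κ → Fin 2 × ℕ → H) (M : ℕ),
    Dat p v pr E K D C lam X f b' (fun _ _ _ => 0) M ∧
    ∀ l x z, Gt v 0 (Dx p D z (b' l x) - Dx p D x (b' l z)) := by
  classical
  obtain ⟨M, hNM, e, S, ρ, c⟩ := G.exists_cof T hk h.gr h.mem
  obtain ⟨g, g0, g1, g2⟩ := (c.cor T G h hk hNM).main (fN_inj p h hk) (h.nosysN p hk)
  -- the constants
  have h1 : ∀ l x, ∃ e' ∈ E, (Nul v fun n => m l x n -
      (∑ z ∈ XN (Fin 2) M, algebraMap k H (g l x z) * Yy p y z) - e') ∧ (M ≤ x.2 → e' = 0) := by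
    intro l x
    by_cases hx : M ≤ x.2
    · refine ⟨0, zero_mem E, TWC.Nul.zero.congr fun n => ?_, fun _ => rfl⟩
      rw [G.zm l x (hNM.trans hx), Finset.sum_eq_zero fun z _ => by
        rw [g0 l x z (Or.inl hx), map_zero, zero_mul], sub_zero, sub_zero]
    · have h2 := g1 l x
      rw [sum_Yx, ← sub_eq_zero, ← map_sub, Submodule.mkQ_apply,
        Submodule.Quotient.mk_eq_zero] at h2
      obtain ⟨e', he', h3⟩ := h2
      exact ⟨e', he', h3, fun h4 => absurd h4 hx⟩
  choose e' he' hn' hz' using h1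
  set b' : κ → Fin 2 × ℕ → H := fun l x => b l x +
    (∑ z ∈ XN (Fin 2) M, algebraMap k H (g l x z) * Yy p y z) + e' l x with hb'
  have hsK : ∀ l x, ∑ z ∈ XN (Fin 2) M, algebraMap k H (g l x z) * Yy p y z ∈ K := fun l x =>
    Cof.sum_mem' T _ _
  have hb'K : ∀ l x, b' l x ∈ K := fun l x =>
    add_mem (add_mem (G.mb l x) (hsK l x)) (T.leK (he' l x))
  refine ⟨b', M, ⟨G.lamC, G.cX, G.mf, G.rel, hb'K, fun l x => Cau.const (zero_mem E),
    fun l x hx => ?_, fun l x hx => rfl, fun l x => ?_⟩, fun l x z => ?_⟩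
  · simp only [hb']
    rw [G.zb l x (hNM.trans hx), Finset.sum_eq_zero fun z _ => by
        rw [g0 l x z (Or.inl hx), map_zero, zero_mul], hz' l x hx, add_zero, add_zero]
  · refine ((G.spl l x).add (hn' l x)).congr fun n => ?_
    simp only [hb']
    ring
  · have h2 : ∀ x z, Dx p D z (b' l x) = Dx p D z (b l x) + algebraMap k H (g l x z) := by
      intro x z
      simp only [hb']
      rw [T.dx_add z (add_mem (G.mb l x) (hsK l x)) (T.leK (he' l x)),
        T.dx_add z (G.mb l x) (hsK l x), T.dx_E z (he' l x), add_zero, Cof.dx_sum T]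
      split_ifs with hz
      · rfl
      · rw [mem_XN, not_lt] at hz
        rw [g0 l x z (Or.inr hz), map_zero]
    rw [h2, h2]
    refine (congrArg (Gt v 0) ?_).mp (c.hρ l x z)
    have h3 : ρ l x z = g l z x - g l x z := by linear_combination g2 l x z
    rw [h3, map_sub]
    ring

end Dat

namespace Dat

variable {D : Fin 2 → ℕ → H → H} (T : Two7 p v pr E K y α D) {C : Finset A}
  {lam : κ → κ → A → k} {X : κ → ℕ → H} {f : κ → H} {b : κ → Fin 2 × ℕ → H}
  {N : ℕ} (G : Dat p v pr E K D C lam X f b (fun _ _ _ => 0) N)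

include T G

/-- `D_x ^ (p - 1) b_x > 0` -/
theorem beta (hk : Ctx0 k v) (hg : GrP p v pr) (l : κ) (x : Fin 2 × ℕ) :
    Gt v 0 ((Dx p D x)^[p - 1] (b l x)) := by
  have hp1 : 1 ≤ p - 1 := by
    have := hp.out.two_le
    omega
  suffices key : ∀ d : ℕ, ∀ (a : Fin 2) (i : ℕ), N ≤ i + d → ∀ l,
      Gt v 0 ((Dx p D (a, i))^[p - 1] (b l (a, i))) from
    key N x.1 x.2 (Nat.le_add_left _ _) l
  intro d
  induction d with
  | zero =>
    intro a i hi l
    rw [G.zb l (a, i) hi]
    exact T.it_gt (a, i) hp1 (zero_mem K) RVal.Ge.zero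
  | succ d ih =>
    intro a i hi l
    -- `r_x` is integral
    have h1 : v.Ge 0 (rr p pr α D C lam f b l (a, i + 1)) := by
      refine TWC.Nul.const ((G.rnul T hk hg l (a, i + 1)).congr fun n => ?_)
      have h2 : pv (fun _ : Fin 2 × ℕ => (0 : H)) (a, i + 1) = 0 := rfl
      rw [h2, ph_zero, zero_pow hp.out.ne_zero, sub_zero, sub_zero]
    have h2 := T.it_gt (a, i + 1) hp1 (G.rr_mem T l (a, i + 1)) h1
    have h3 : ph pr C lam (dgy p α (a, i + 1)) l (fun j => b j (a, i + 1)) ∈ K :=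
      ph_mem T.gr fun j => G.mb j _
    have h4 : Dx p D (a, i + 1) (f l) ∈ K := T.dx_mem _ (G.mf l)
    have h5 : b l (a, i) ^ p ∈ K := pow_mem (G.mb l _) p
    have e1 : rr p pr α D C lam f b l (a, i + 1) =
        ph pr C lam (dgy p α (a, i + 1)) l (fun j => b j (a, i + 1)) +
        Dx p D (a, i + 1) (f l) - b l (a, i) ^ p := rfl
    obtain ⟨d', hd'⟩ := T.it_ph (C := C) (lam := lam) (a, i + 1) (p - 1)
      (dgy p α (a, i + 1)) l (w := fun j => b j (a, i + 1)) fun j => G.mb j _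
    have h6 : (Dx p D (a, i + 1))^[p - 1] (Dx p D (a, i + 1) (f l)) = 0 := by
      have h7 := T.it_p (a, i + 1) (G.mf l)
      have h8 : p = (p - 1) + 1 := by omega
      rw [← Function.iterate_succ_apply, Nat.succ_eq_add_one, ← h8]
      exact h7
    rw [e1, T.it_sub _ _ (add_mem h3 h4) h5, T.it_add _ _ h3 h4, hd', h6, add_zero,
      T.it_pow a i (p - 1) (G.mb l _)] at h2
    have h7 : Gt v 0 (ph pr C lam d' l fun j => (Dx p D (a, i + 1))^[p - 1] (b j (a, i + 1))) :=
      ph_gt hk hg fun j => ih a (i + 1) (by omega) j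
    have h8 : Gt v (p * (0 : ℝ)) (((Dx p D (a, i))^[p - 1] (b l (a, i))) ^ p) := by
      rw [mul_zero]
      refine (congrArg (Gt v 0) ?_).mp (h7.sub h2)
      ring
    exact TWM.gt_of_pow (p := p) h8

end Dat

/-- **The conclusion of the step.** -/
theorem Dat.concl {D : Fin 2 → ℕ → H → H} (T : Two7 p v pr E K y α D) (hI : IntP p v K D)
    {C : Finset A} {lam : κ → κ → A → k} {X : κ → ℕ → H} {f : κ → H} {b : κ → Fin 2 × ℕ → H}
    {m : κ → Fin 2 × ℕ → ℕ → H} {N : ℕ} (G : Dat p v pr E K D C lam X f b m N)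
    (h : GrE p v pr E) (hk : Ctx0 k v) (l : κ) : InBL v K E (X l) := by
  obtain ⟨b', M, G', hs⟩ := G.gauge T h hk
  obtain ⟨g, hg, h1⟩ := hI (b' l) M (G'.mb l) (G'.zb l) (hs l) (G'.beta T hk h.gr l)
  obtain ⟨m', hm', h2⟩ := T.const (X := fun n => X l n - g)
    ((G.cX l).sub (Cau.const hg)) fun a i => by
      have h3 : Nul v fun _ : ℕ => Dx p D (a, i) g - b' l (a, i) :=
        TWC.Nul.of_ge fun _ => (h1 (a, i)).ge
      refine ((G'.spl l (a, i)).sub h3).congr fun n => ?_
      have h4 : D a (p ^ i) (X l n - g) = D a (p ^ i) (X l n) - D a (p ^ i) g :=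
        (T.jx a).sub _ ((G.cX l).mem n) hg
      rw [h4]
      simp only [Dx]
      ring
  exact ⟨g, hg, m', hm', h2⟩

end Pool.Agent.TWIV
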