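import Pool.Agent.Lib.TWIV.Gp
import Pool.Agent.Lib.TWIV.IntF
import Pool.Agent.Lib.TWC.GCls

/-!
# TANK W, leaf (IV): the module of the sequences which are bounded in the end

* `BSeq hk`: the module, `bgap x = inf {g ≥ 0 | v (x n) ≥ -g in the end}`, `bfrob` the Frobenius;
* `fgap_bseq`: the axioms `FGap`;
* `BBs A`: the sequences whose power `p ^ N` converges to an element of `A` up to `0`, for some `N`;
* `fsub_bbs`: the axioms `FSub`;
* `jseq`: the jets of a sequence of polynomials; `jets_jseq`, `jseq_bdd`.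
-/

set_option autoImplicit false
set_option linter.unusedSectionVars false

open Polynomial

namespace Pool.Agent.TWIV

open Pool.Agent.H15JM (RVal)
open Pool.Agent.D2 (Ctx0)
open Pool.Agent.TWM
open Pool.Agent.TWC

universe u

section Seq

variable {k Ω : Type u} [Field k] [Field Ω] [Algebra k Ω] {v : RVal Ω}

/-- The sequences which are bounded in the end. -/
def BSeq (hk : Ctx0 k v) : Submodule k (ℕ → Ω) where
  carrier := {x | ∃ C : ℝ, ∃ N : ℕ, ∀ n, N ≤ n → v.Ge (-C) (x n)}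
  add_mem' := by
    rintro x y ⟨C, N, h1⟩ ⟨D, M, h2⟩
    exact ⟨max C D, max N M, fun n hn =>
      ((h1 n ((le_max_left _ _).trans hn)).mono (neg_le_neg (le_max_left _ _))).add
        ((h2 n ((le_max_right _ _).trans hn)).mono (neg_le_neg (le_max_right _ _)))⟩
  zero_mem' := ⟨0, 0, fun n _ => RVal.Ge.zero⟩
  smul_mem' := by
    rintro a x ⟨C, N, h1⟩
    refine ⟨C, N, fun n hn => ?_⟩
    have h2 := (hk.ge a).mul (h1 n hn)
    rw [zero_add, ← Algebra.smul_def] at h2
    exact h2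

variable {hk : Ctx0 k v}

/-- The gap. -/
noncomputable def bgap (x : BSeq hk) : ℝ :=
  sInf {g : ℝ | 0 ≤ g ∧ ∃ N : ℕ, ∀ n, N ≤ n → v.Ge (-g) ((x : ℕ → Ω) n)}

theorem bgap_le {x : BSeq hk} {g : ℝ} (hg : 0 ≤ g)
    (h : ∃ N : ℕ, ∀ n, N ≤ n → v.Ge (-g) ((x : ℕ → Ω) n)) : bgap x ≤ g :=
  csInf_le ⟨0, fun _ hx => hx.1⟩ ⟨hg, h⟩

theorem bgap_nonneg (x : BSeq hk) : 0 ≤ bgap x := Real.sInf_nonneg fun _ hx => hx.1

theorem of_bgap_lt {x : BSeq hk} {g : ℝ} (h : bgap x < g) :
    ∃ N : ℕ, ∀ n, N ≤ n → v.Ge (-g) ((x : ℕ → Ω) n) := by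
  have hne : {g : ℝ | 0 ≤ g ∧ ∃ N : ℕ, ∀ n, N ≤ n → v.Ge (-g) ((x : ℕ → Ω) n)}.Nonempty := by
    obtain ⟨C, N, hC⟩ := x.2
    exact ⟨max C 0, le_max_right _ _, N, fun n hn =>
      (hC n hn).mono (neg_le_neg (le_max_left _ _))⟩
  obtain ⟨g', ⟨_, N, h1⟩, h2⟩ := exists_lt_of_csInf_lt hne h
  exact ⟨N, fun n hn => (h1 n hn).mono (by linarith)⟩

theorem bgap_eq_zero {x : BSeq hk} : bgap x = 0 ↔ Nul v (x : ℕ → Ω) := by
  constructor
  · intro h ε hε
    exact of_bgap_lt (by rw [h]; exact hε)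
  · intro h
    refine le_antisymm (le_of_forall_pos_le_add fun ε hε => ?_) (bgap_nonneg x)
    rw [zero_add]
    exact bgap_le hε.le (h ε hε)

theorem gap_bseq : Gap (bgap : BSeq hk → ℝ) where
  nonneg := bgap_nonneg
  zero := bgap_eq_zero.2 Nul.zero
  add := by
    intro x y
    refine le_of_forall_pos_le_add fun ε hε => ?_
    obtain ⟨N, h1⟩ := of_bgap_lt (x := x) (g := max (bgap x) (bgap y) + ε)
      (by have := le_max_left (bgap x) (bgap y); linarith)
    obtain ⟨M, h2⟩ := of_bgap_lt (x := y) (g := max (bgap x) (bgap y) + ε)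
      (by have := le_max_right (bgap x) (bgap y); linarith)
    refine bgap_le ?_ ⟨max N M, fun n hn => ?_⟩
    · have := (bgap_nonneg x).trans (le_max_left (bgap x) (bgap y))
      linarith
    · exact (h1 n ((le_max_left _ _).trans hn)).add (h2 n ((le_max_right _ _).trans hn))
  neg := by
    intro x
    have key : ∀ y : BSeq hk, bgap (-y) ≤ bgap y := by
      intro y
      refine le_of_forall_pos_le_add fun ε hε => ?_
      obtain ⟨N, h1⟩ := of_bgap_lt (x := y) (g := bgap y + ε) (by linarith)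
      exact bgap_le (by have := bgap_nonneg y; linarith) ⟨N, fun n hn => (h1 n hn).neg⟩
    refine le_antisymm (key x) ?_
    have h1 := key (-x)
    rwa [neg_neg] at h1

variable (p : ℕ) [hp : Fact p.Prime] [CharP Ω p]

/-- The Frobenius of the sequences. -/
def bfrob (hk : Ctx0 k v) : BSeq hk →+ BSeq hk where
  toFun x := ⟨fun n => (x : ℕ → Ω) n ^ p, by
    obtain ⟨C, N, hC⟩ := x.2
    refine ⟨p * C, N, fun n hn => ?_⟩
    have h1 := ge_pow (hC n hn) p
    rwa [mul_neg] at h1⟩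
  map_zero' := by
    apply Subtype.ext
    funext n
    exact zero_pow hp.out.ne_zero
  map_add' := by
    intro x y
    apply Subtype.ext
    funext n
    exact add_pow_char _ _ _

theorem coe_bfrob (x : BSeq hk) (n : ℕ) :
    ((bfrob p hk x : BSeq hk) : ℕ → Ω) n = (x : ℕ → Ω) n ^ p := rfl

theorem coe_bfrob_iter (a : ℕ) (x : BSeq hk) (n : ℕ) :
    (((bfrob p hk)^[a] x : BSeq hk) : ℕ → Ω) n = (x : ℕ → Ω) n ^ p ^ a := by
  induction a generalizing x with
  | zero => rw [Function.iterate_zero_apply, pow_zero, pow_one]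
  | succ a ih => rw [Function.iterate_succ_apply, ih, coe_bfrob, ← pow_mul, ← pow_succ']

theorem ge_of_powB {x : Ω} {r : ℝ} {q : ℕ} (hq : q ≠ 0) (h : v.Ge (q * r) (x ^ q)) : v.Ge r x := by
  intro h0
  have h1 := h (pow_ne_zero _ h0)
  rw [RVal.map_pow _ h0] at h1
  have hq' : (0 : ℝ) < q := by exact_mod_cast Nat.pos_of_ne_zero hq
  exact le_of_mul_le_mul_left h1 hq'

theorem fgap_bseq : FGap k p (bgap : BSeq hk → ℝ) (bfrob p hk) where
  gp := gap_bseq
  smul := by
    intro c x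
    refine le_of_forall_pos_le_add fun ε hε => ?_
    obtain ⟨N, h1⟩ := of_bgap_lt (x := x) (g := bgap x + ε) (by linarith)
    refine bgap_le (by have := bgap_nonneg x; linarith) ⟨N, fun n hn => ?_⟩
    have h2 := (hk.ge c).mul (h1 n hn)
    rw [zero_add, ← Algebra.smul_def] at h2
    exact h2
  frob := by
    intro x
    have hp0 : (0 : ℝ) < p := by exact_mod_cast hp.out.pos
    refine le_antisymm (le_of_forall_pos_le_add fun ε hε => ?_) ?_
    · obtain ⟨N, h1⟩ := of_bgap_lt (x := x) (g := bgap x + ε / p)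
        (by have : 0 < ε / p := by positivity
            linarith)
      refine bgap_le (by have := bgap_nonneg x; positivity) ⟨N, fun n hn => ?_⟩
      have h2 := ge_pow (h1 n hn) p
      refine h2.mono (le_of_eq ?_)
      field_simp
    · rw [← le_div_iff₀' hp0]
      refine le_of_forall_pos_le_add fun ε hε => ?_
      obtain ⟨N, h1⟩ := of_bgap_lt (x := bfrob p hk x) (g := bgap (bfrob p hk x) + p * ε)
        (by have : 0 < p * ε := by positivity
            linarith)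
      have h3 := bgap_nonneg (bfrob p hk x)
      refine bgap_le (by positivity) ⟨N, fun n hn => ?_⟩
      have h2 := h1 n hn
      rw [coe_bfrob] at h2
      refine ge_of_powB hp.out.ne_zero (h2.mono (le_of_eq ?_))
      field_simp

variable [IsAlgClosed Ω]

/-- The sequences whose power `p ^ N` converges to an element of `A` up to `0`. -/
def BBs (hk : Ctx0 k v) (A : IntermediateField k Ω) : AddSubgroup (BSeq hk) where
  carrier := {x | ∃ N : ℕ, ∃ a ∈ A, Nul v fun n => (x : ℕ → Ω) n ^ p ^ N - a}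
  zero_mem' := ⟨0, 0, zero_mem _, Nul.zero.congr fun n => by
    show (0 : Ω) = (0 : Ω) ^ p ^ 0 - 0
    rw [pow_zero, pow_one, sub_zero]⟩
  add_mem' := by
    rintro x y ⟨N, a, ha, h1⟩ ⟨M, b, hb, h2⟩
    refine ⟨N + M, a ^ p ^ M + b ^ p ^ N, add_mem (pow_mem ha _) (pow_mem hb _), ?_⟩
    have h3 := nul_pow h1 (p ^ M) (pow_ne_zero _ hp.out.ne_zero)
    have h4 := nul_pow h2 (p ^ N) (pow_ne_zero _ hp.out.ne_zero)
    refine (h3.add h4).congr fun n => ?_
    show _ = ((x : ℕ → Ω) n + (y : ℕ → Ω) n) ^ p ^ (N + M) - _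
    rw [sub_pow_char_pow, sub_pow_char_pow, add_pow_char_pow, ← pow_mul, ← pow_mul, ← pow_add,
      ← pow_add, add_comm M N]
    ring
  neg_mem' := by
    rintro x ⟨N, a, ha, h1⟩
    refine ⟨N, (-1) ^ p ^ N * a, mul_mem (pow_mem (neg_mem (one_mem _)) _) ha, ?_⟩
    have h2 : v.Ge 0 ((-1 : Ω) ^ p ^ N) := by
      have h3 : v.Ge 0 (-1 : Ω) := (hk.ge 1).neg.mono le_rfl |> fun h => by
        rwa [map_one] at h
      have h4 := ge_pow h3 (p ^ N)
      rwa [mul_zero] at h4
    refine (nul_ge_mul h2 h1).congr fun n => ?_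
    show _ = (-(x : ℕ → Ω) n) ^ p ^ N - _
    rw [neg_pow ((x : ℕ → Ω) n)]
    ring

variable {p} in
theorem mem_BBs {A : IntermediateField k Ω} {x : BSeq hk} :
    x ∈ BBs p hk A ↔ ∃ N : ℕ, ∃ a ∈ A, Nul v fun n => (x : ℕ → Ω) n ^ p ^ N - a := Iff.rfl

theorem fsub_bbs (A : IntermediateField k Ω) :
    FSub k (bgap : BSeq hk → ℝ) (bfrob p hk) (BBs p hk A) where
  smul := by
    rintro c x ⟨N, a, ha, h1⟩
    refine ⟨N, algebraMap k Ω (c ^ p ^ N) * a, mul_mem (A.algebraMap_mem _) ha, ?_⟩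
    refine (nul_ge_mul (hk.ge (c ^ p ^ N)) h1).congr fun n => ?_
    show _ = (c • (x : ℕ → Ω) n) ^ p ^ N - _
    rw [Algebra.smul_def, mul_pow, map_pow]
    ring
  frob := by
    rintro x ⟨N, a, ha, h1⟩
    refine ⟨N, a ^ p, pow_mem ha _, (nul_pow h1 p hp.out.ne_zero).congr fun n => ?_⟩
    rw [sub_pow_char, coe_bfrob, ← pow_mul, ← pow_mul, mul_comm]
  root := by
    rintro x ⟨N, a, ha, h1⟩
    refine ⟨N + 1, a, ha, h1.congr fun n => ?_⟩
    rw [coe_bfrob, ← pow_mul, ← pow_succ']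
  zero := by
    intro x hx
    refine ⟨0, 0, zero_mem _, (bgap_eq_zero.1 hx).congr fun n => ?_⟩
    rw [pow_zero, pow_one, sub_zero]

end Seq

/-! ### Operators -/

section Ops

variable {k Ω : Type u} [Field k] [Field Ω] [Algebra k Ω] {v : RVal Ω}
  {A : IntermediateField k Ω} (p : ℕ) [hp : Fact p.Prime] [CharP Ω p]

/-- The value `∑ P_i w ^ p ^ i`. -/
noncomputable def opv (P : k[X]) (w : Ω) : Ω :=
  ∑ i ∈ P.support, algebraMap k Ω (P.coeff i) * w ^ p ^ i

/-- The polynomial `∑ P_i f ^ p ^ i`. -/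
noncomputable def opP (P : k[X]) (f : Polynomial Ω) : Polynomial Ω :=
  ∑ i ∈ P.support, Polynomial.C (algebraMap k Ω (P.coeff i)) * f ^ p ^ i

omit hp [CharP Ω p] in
theorem opv_range (P : k[X]) (w : Ω) {N : ℕ} (hN : P.natDegree < N) :
    opv p P w = ∑ i ∈ Finset.range N, algebraMap k Ω (P.coeff i) * w ^ p ^ i := by
  refine Finset.sum_subset (fun i hi => Finset.mem_range.2
    ((le_natDegree_of_mem_supp i hi).trans_lt hN)) fun i _ hi => ?_
  rw [notMem_support_iff.1 hi, map_zero, zero_mul]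

theorem opv_add (P : k[X]) (w w' : Ω) : opv p P (w + w') = opv p P w + opv p P w' := by
  unfold opv
  rw [← Finset.sum_add_distrib]
  exact Finset.sum_congr rfl fun i _ => by rw [add_pow_char_pow]; ring

theorem opv_sub (P : k[X]) (w w' : Ω) : opv p P (w - w') = opv p P w - opv p P w' := by
  unfold opv
  rw [← Finset.sum_sub_distrib]
  exact Finset.sum_congr rfl fun i _ => by rw [sub_pow_char_pow]; ring

omit hp [CharP Ω p] in
theorem opv_padd (P Q : k[X]) (w : Ω) : opv p (P + Q) w = opv p P w + opv p Q w := by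
  rw [opv_range p P w (N := max P.natDegree Q.natDegree + 1) (by omega),
    opv_range p Q w (N := max P.natDegree Q.natDegree + 1) (by omega),
    opv_range p (P + Q) w (N := max P.natDegree Q.natDegree + 1)
      (Nat.lt_succ_of_le (natDegree_add_le _ _)), ← Finset.sum_add_distrib]
  exact Finset.sum_congr rfl fun i _ => by rw [coeff_add, map_add]; ring

omit hp [CharP Ω p] in
theorem opv_mem (P : k[X]) {w : Ω} (hw : w ∈ A) : opv p P w ∈ A :=
  sum_mem fun _ _ => mul_mem (A.algebraMap_mem _) (pow_mem hw _)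

omit hp [CharP Ω p] in
theorem opv_ge (hk : Ctx0 k v) (P : k[X]) {w : Ω} (hw : v.Ge 0 w) : v.Ge 0 (opv p P w) := by
  refine RVal.Ge.sum _ _ fun i _ => ?_
  have h1 := (hk.ge (P.coeff i)).mul (ge_pow hw (p ^ i))
  rwa [mul_zero, zero_add] at h1

theorem opv_lim (hk : Ctx0 k v) (P : k[X]) {w : Ω} (hw : Lim v A 0 w) :
    Lim v A 0 (opv p P w) := by
  have : Fact (Ctx0 k v) := ⟨hk⟩
  have : CharP k p := (Algebra.charP_iff k Ω p).2 inferInstance
  unfold opv
  generalize P.support = S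
  classical
  induction S using Finset.induction_on with
  | empty => exact Lim.of_mem (zero_mem _)
  | insert i S hi ih =>
    rw [Finset.sum_insert hi]
    exact Lim.add (Lim.smul (Lim.pow_pow p hw i) _) ih

theorem opP_mem (P : k[X]) {f : Polynomial Ω} (hf : f ∈ PI A) : opP p P f ∈ PI A :=
  sum_mem fun _ _ => mul_mem (C_mem_PI (A.algebraMap_mem _)) (pow_mem hf _)

omit hp [CharP Ω p] in
theorem eval_opP (P : k[X]) (f : Polynomial Ω) (y : Ω) :
    (opP p P f).eval y = opv p P (f.eval y) := by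
  unfold opP opv
  rw [eval_finsetSum]
  exact Finset.sum_congr rfl fun i _ => by rw [eval_mul, eval_C, eval_pow]

theorem hasse_opP (P : k[X]) (f : Polynomial Ω) (J : ℕ) :
    hasseDeriv J (opP p P f) = ∑ a ∈ P.support, if p ^ a ∣ J then
      Polynomial.C (algebraMap k Ω (P.coeff a)) * hasseDeriv (J / p ^ a) f ^ p ^ a else 0 := by
  unfold opP
  rw [map_sum]
  refine Finset.sum_congr rfl fun a _ => ?_
  rw [← smul_eq_C_mul, map_smul, hasse_ppow]
  split_ifs
  · rw [smul_eq_C_mul]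
  · rw [smul_zero]

end Ops

/-! ### Jets -/

section Jets

variable {k Ω : Type u} [Field k] [Field Ω] [Algebra k Ω] {v : RVal Ω}
  {A : IntermediateField k Ω} {y : Ω} {hk : Ctx0 k v} [IsAlgClosed Ω]

theorem exists_ge (v : RVal Ω) (x : Ω) : ∃ C : ℝ, 0 ≤ C ∧ v.Ge (-C) x := by
  by_cases hx : x = 0
  · exact ⟨0, le_rfl, hx ▸ RVal.Ge.zero⟩
  · exact ⟨max (-v x) 0, le_max_right _ _, fun _ => by
      have := le_max_left (-v x) 0
      linarith⟩

/-- The jets of order `j` of a sequence of polynomials. -/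
noncomputable def jseq (hk : Ctx0 k v) {u : ℕ → Polynomial Ω} (hy : TL v A y 0) (hu : PC v A y u) (j : ℕ) :
    BSeq hk :=
  ⟨fun n => (hasseDeriv j (u n)).eval y, by
    obtain ⟨M, hM⟩ := hu.cau 1 one_pos
    obtain ⟨C, hC0, hC⟩ := exists_ge v ((hasseDeriv j (u M)).eval y)
    refine ⟨max C 1, M, fun n hn => ?_⟩
    have h1 := hasse_ge hy (sub_mem (hu.mem n) (hu.mem M)) (hM n M hn le_rfl) j
    rw [map_sub, eval_sub] at h1
    have h2 := (h1.mono (neg_le_neg (le_max_right C 1))).add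
      (hC.mono (neg_le_neg (le_max_left C 1)))
    rwa [sub_add_cancel] at h2⟩

theorem coe_jseq {u : ℕ → Polynomial Ω} (hy : TL v A y 0) (hu : PC v A y u) (j n : ℕ) :
    ((jseq hk hy hu j : BSeq hk) : ℕ → Ω) n = (hasseDeriv j (u n)).eval y := rfl

theorem jseq_bdd {u : ℕ → Polynomial Ω} (hy : TL v A y 0) (hu : PC v A y u) :
    ∃ C, ∀ j, bgap (jseq hk hy hu j) ≤ C := by
  obtain ⟨M, hM⟩ := hu.cau 1 one_pos
  obtain ⟨C, hC0, hC⟩ := exists_ge v ((u M).eval y)
  refine ⟨max C 1, fun j => bgap_le (hC0.trans (le_max_left _ _)) ⟨M, fun n hn => ?_⟩⟩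
  have h1 := hasse_ge hy (sub_mem (hu.mem n) (hu.mem M)) (hM n M hn le_rfl) j
  rw [map_sub, eval_sub] at h1
  have h3 := hasse_ge hy (hu.mem M) hC j
  have h2 := (h1.mono (neg_le_neg (le_max_right C 1))).add
    (h3.mono (neg_le_neg (le_max_left C 1)))
  rwa [sub_add_cancel] at h2

variable (p : ℕ) [hp : Fact p.Prime] [CharP Ω p]

omit [CharP Ω p] in
theorem coe_sum_bseq {ι : Type*} (S : Finset ι) (f : ι → BSeq hk) (n : ℕ) :
    ((∑ i ∈ S, f i : BSeq hk) : ℕ → Ω) n = ∑ i ∈ S, (f i : ℕ → Ω) n := by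
  rw [Submodule.coe_sum, Finset.sum_apply]

theorem coe_jets (P : k[X]) (Y : ℕ → BSeq hk) (j n : ℕ) :
    ((jets p (bfrob p hk) P Y j : BSeq hk) : ℕ → Ω) n = ∑ a ∈ P.support, if p ^ a ∣ j then
      algebraMap k Ω (P.coeff a) * (Y (j / p ^ a) : ℕ → Ω) n ^ p ^ a else 0 := by
  rw [jets, coe_sum_bseq]
  refine Finset.sum_congr rfl fun a _ => ?_
  split_ifs
  · show P.coeff a • (((bfrob p hk)^[a] (Y (j / p ^ a)) : BSeq hk) : ℕ → Ω) n = _
    rw [coe_bfrob_iter, Algebra.smul_def]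
  · rfl

theorem coe_jets_jseq {u : ℕ → Polynomial Ω} (hy : TL v A y 0) (hu : PC v A y u) (P : k[X])
    (j n : ℕ) : ((jets p (bfrob p hk) P (fun i => jseq hk hy hu i) j : BSeq hk) : ℕ → Ω) n =
      (hasseDeriv j (opP p P (u n))).eval y := by
  rw [coe_jets, hasse_opP, eval_finsetSum]
  refine Finset.sum_congr rfl fun a _ => ?_
  split_ifs
  · rw [eval_mul, eval_C, eval_pow, coe_jseq]
  · rw [eval_zero]

/-- The class of the jets of order `j ≥ 1` only depends on the element. -/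
theorem nul_hasse {f : ℕ → Polynomial Ω} (hy : TL v A y 0) (hf : ∀ n, f n ∈ PI A)
    (h : Nul v fun n => (f n).eval y) (j : ℕ) : Nul v fun n => (hasseDeriv j (f n)).eval y := by
  intro ε hε
  obtain ⟨N, hN⟩ := h ε hε
  exact ⟨N, fun n hn => hasse_ge hy (hf n) (hN n hn) j⟩

end Jets

end Pool.Agent.TWIV
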