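import Pool.Agent.Lib.TWIV.OpA
import Pool.Agent.Lib.TWC.B2

/-!
# TANK W, leaf (IV), row S2: the degree induction, one step

`Sy`: a system `x_j ^ p = ∑ φ_jl x_l + f_j` over `B⟨z⟩`.  `Dm`: the sequence is in the span of a
family under the operators, modulo `B`.  `Gd`: the derivatives `D_c x_j = b_jc + m_jc` after gauge.
`step`: `D_c (x_j - F_j) = ν_jc`.
-/

set_option autoImplicit false
set_option linter.unusedSectionVars false

open Polynomial

namespace Pool.Agent.TWIV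

open Pool.Agent.H15JM (RVal)
open Pool.Agent.D2 (Ctx0)
open Pool.Agent.TWM Pool.Agent.TWC

universe u

/-- Downward choice. -/
theorem down_choice {S : Type*} (N : ℕ) : ∀ (good : ℕ → S → Prop) (rel : ℕ → S → S → Prop) (t : S),
    (∀ c, N ≤ c → good c t ∧ rel c t t) →
    (∀ c < N, ∀ s', good (c + 1) s' → ∃ s, good c s ∧ rel c s s') →
    ∃ f : ℕ → S, (∀ c, good c (f c) ∧ rel c (f c) (f (c + 1))) ∧ ∀ c, N ≤ c → f c = t := by
  induction N with
  | zero => exact fun good rel t ht _ => ⟨fun _ => t, fun c => ht c (Nat.zero_le c), fun _ _ => rfl⟩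
  | succ N ih =>
    intro good rel t ht h
    obtain ⟨f, hf, hft⟩ := ih (fun c => good (c + 1)) (fun c => rel (c + 1)) t
      (fun c hc => ht (c + 1) (by omega)) (fun c hc s' hs' => h (c + 1) (by omega) s' hs')
    obtain ⟨s, hs, hs'⟩ := h 0 (by omega) (f 0) (hf 0).1
    refine ⟨fun c => Nat.casesOn c s f, fun c => ?_, fun c hc => ?_⟩
    · cases c with
      | zero => exact ⟨hs, hs'⟩
      | succ c => exact hf c
    · cases c with
      | zero => omega
      | succ c => exact hft c (by omega)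

section Defs

variable {k Ω : Type u} [Field k] [Field Ω] [Algebra k Ω]

/-- A system over `B⟨z⟩`. -/
structure Sy (p : ℕ) (v : RVal Ω) (𝒜 : Submodule k (Module.End k Ω)) (B : IntermediateField k Ω)
    (z : Ω) {ι : Type} [Fintype ι] (x : ι → ℕ → Polynomial Ω) (φ : ι → ι → Module.End k Ω)
    (f : ι → Polynomial Ω) : Prop where
  pc : ∀ j, PC v B z (x j)
  opr : ∀ j l, φ j l ∈ 𝒜
  mem : ∀ j, f j ∈ PI B
  rel : ∀ j, Nul v fun i => (x j i).eval z ^ p - ∑ l, φ j l ((x l i).eval z) - (f j).eval z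

/-- The span of a family of sequences under the operators, modulo `B`. -/
def Dm (v : RVal Ω) (𝒜 : Submodule k (Module.End k Ω)) (B : IntermediateField k Ω) {κ : Type}
    [Fintype κ] (m : κ → ℕ → Ω) (x : ℕ → Ω) : Prop :=
  ∃ (φ : κ → Module.End k Ω) (e : Ω), (∀ l, φ l ∈ 𝒜) ∧ e ∈ B ∧
    Nul v fun n => x n - ∑ l, φ l (m l n) - e

variable {v : RVal Ω} {𝒜 : Submodule k (Module.End k Ω)} {B : IntermediateField k Ω} {κ : Type}
  [Fintype κ] {m : κ → ℕ → Ω} {x y : ℕ → Ω}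

theorem Dm.congr (h : Dm v 𝒜 B m x) (hxy : Nul v fun n => y n - x n) : Dm v 𝒜 B m y := by
  obtain ⟨φ, e, hφ, he, hn⟩ := h
  exact ⟨φ, e, hφ, he, (hxy.add hn).congr fun n => by ring⟩

theorem Dm.add (h : Dm v 𝒜 B m x) (h' : Dm v 𝒜 B m y) : Dm v 𝒜 B m fun n => x n + y n := by
  obtain ⟨φ, e, hφ, he, hn⟩ := h
  obtain ⟨φ', e', hφ', he', hn'⟩ := h'
  refine ⟨fun l => φ l + φ' l, e + e', fun l => add_mem (hφ l) (hφ' l), add_mem he he',
    (hn.add hn').congr fun n => ?_⟩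
  simp only [LinearMap.add_apply, Finset.sum_add_distrib]
  ring

theorem Dm.of_mem {e : Ω} (he : e ∈ B) : Dm v 𝒜 B m fun _ => e :=
  ⟨fun _ => 0, e, fun _ => zero_mem _, he, Nul.zero.congr fun n => by simp⟩

theorem Dm.neg (h : Dm v 𝒜 B m x) : Dm v 𝒜 B m fun n => - x n := by
  obtain ⟨φ, e, hφ, he, hn⟩ := h
  refine ⟨fun l => - φ l, - e, fun l => neg_mem (hφ l), neg_mem he, hn.neg.congr fun n => ?_⟩
  simp only [LinearMap.neg_apply, Finset.sum_neg_distrib]
  ring

theorem Dm.sub (h : Dm v 𝒜 B m x) (h' : Dm v 𝒜 B m y) : Dm v 𝒜 B m fun n => x n - y n :=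
  (h.add h'.neg).congr (Nul.zero.congr fun n => by ring)

theorem Dm.smul [hc : Fact (Ctx0 k v)] (a : k) (h : Dm v 𝒜 B m x) :
    Dm v 𝒜 B m fun n => algebraMap k Ω a * x n := by
  obtain ⟨φ, e, hφ, he, hn⟩ := h
  refine ⟨fun l => a • φ l, algebraMap k Ω a * e, fun l => Submodule.smul_mem _ a (hφ l),
    mul_mem (B.algebraMap_mem a) he, (hn.mul_ge (c := fun _ => algebraMap k Ω a) fun _ =>
      hc.out.ge a).congr fun n => ?_⟩
  have h1 : ∀ l, (a • φ l) (m l n) = algebraMap k Ω a * φ l (m l n) := fun l => by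
    rw [LinearMap.smul_apply, Algebra.smul_def]
  simp only [h1, ← Finset.mul_sum]
  ring

theorem Dm.sum {σ : Type*} (S : Finset σ) (x : σ → ℕ → Ω) (h : ∀ i ∈ S, Dm v 𝒜 B m (x i)) :
    Dm v 𝒜 B m fun n => ∑ i ∈ S, x i n := by
  classical
  induction S using Finset.induction_on with
  | empty => simpa using Dm.of_mem (v := v) (𝒜 := 𝒜) (m := m) (zero_mem B)
  | insert a S ha ih =>
    have h1 := (h a (Finset.mem_insert_self _ _)).add
      (ih fun i hi => h i (Finset.mem_insert_of_mem hi))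
    simpa only [Finset.sum_insert ha] using h1

theorem Dm.op {φ : Module.End k Ω} (hφ : φ ∈ 𝒜) (l : κ) : Dm v 𝒜 B m fun n => φ (m l n) := by
  classical
  refine ⟨fun l' => if l' = l then φ else 0, 0, fun l' => ?_, zero_mem B, Nul.zero.congr fun n => ?_⟩
  · dsimp only
    split_ifs
    exacts [hφ, zero_mem _]
  · dsimp only
    rw [Finset.sum_eq_single l, if_pos rfl, sub_zero, sub_self]
    · intro l' _ hl
      rw [if_neg hl, LinearMap.zero_apply]
    · intro h
      exact absurd (Finset.mem_univ l) h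

theorem Dm.gen (h1 : (1 : Module.End k Ω) ∈ 𝒜) (l : κ) : Dm v 𝒜 B m (m l) :=
  Dm.op (v := v) (B := B) (m := m) h1 l

end Defs

variable {k Ω : Type u} [Field k] [Field Ω] [Algebra k Ω] {v : RVal Ω} [hc : Fact (Ctx0 k v)]
  {B : IntermediateField k Ω} {z : Ω} {𝒜 : Submodule k (Module.End k Ω)}
  (p : ℕ) [Fact p.Prime] [CharP k p] [CharP Ω p] [PerfectRing k p] [IsAlgClosed Ω]

theorem TL.nez (hz : TL v B z 0) : z ≠ 0 := (hz.far 0 (isAlgebraic_zero)).1

/-- Lemma R (i), with the sequence near `z`. -/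
theorem lemR' (hz : TL v B z 0) {F : Polynomial Ω} (hF : F ∈ PI B) {M : ℕ → Ω} (hM : Cau v B M)
    (h : Nul v fun i => F.eval z - M i) :
    ∃ e ∈ B, ∃ (N : ℕ) (c : ℕ → k), (∀ a, N < a → c a = 0) ∧
      Nul v (fun i => M i - e - algebraMap k Ω (c 0) * z -
        ∑ a ∈ Finset.range N, algebraMap k Ω (c (a + 1)) * (zs hz : ℕ → Ω) i ^ p ^ (a + 1)) ∧
      v.Ge 0 (F.eval z - e - algebraMap k Ω (c 0) * z -
        ∑ a ∈ Finset.range N, algebraMap k Ω (c (a + 1)) * z ^ p ^ (a + 1)) := by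
  classical
  obtain ⟨e, he, N, c, h1⟩ := lemmaR_i hc.out hz p
    (eval_mem (PI_mono (le_cadj v B z) hF) (self_mem_cadj v B z)) hM h
  set c1 : ℕ → k := fun a => if a < N then c a else 0 with hc1
  have h2 : ∀ w : Ω, ∑ i ∈ Finset.range N, algebraMap k Ω (c i) * w ^ p ^ i =
      algebraMap k Ω (c1 0) * w + ∑ a ∈ Finset.range N,
        algebraMap k Ω (c1 (a + 1)) * w ^ p ^ (a + 1) := by
    intro w
    have h3 : ∑ i ∈ Finset.range N, algebraMap k Ω (c i) * w ^ p ^ i =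
        ∑ i ∈ Finset.range (N + 1), algebraMap k Ω (c1 i) * w ^ p ^ i := by
      rw [Finset.sum_range_succ, hc1]
      simp only [lt_self_iff_false, if_false, map_zero, zero_mul, add_zero]
      refine Finset.sum_congr rfl fun i hi => ?_
      rw [if_pos (Finset.mem_range.1 hi)]
    rw [h3, Finset.sum_range_succ', pow_zero, pow_one, add_comm]
  have h4 : v.Ge 0 (F.eval z - e - algebraMap k Ω (c1 0) * z -
        ∑ a ∈ Finset.range N, algebraMap k Ω (c1 (a + 1)) * z ^ p ^ (a + 1)) := by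
    have h5 := h1.ge
    rw [h2] at h5
    have h6 : F.eval z - e - algebraMap k Ω (c1 0) * z -
        ∑ a ∈ Finset.range N, algebraMap k Ω (c1 (a + 1)) * z ^ p ^ (a + 1) =
      F.eval z - (e + (algebraMap k Ω (c1 0) * z + ∑ a ∈ Finset.range N,
        algebraMap k Ω (c1 (a + 1)) * z ^ p ^ (a + 1))) := by ring
    rw [h6]
    exact h5
  refine ⟨e, he, N, c1, fun a ha => by rw [hc1]; exact if_neg (by omega), ?_, h4⟩
  have h7 : Nul v fun i => ∑ a ∈ Finset.range N,
      algebraMap k Ω (c1 (a + 1)) * (z - (zs hz : ℕ → Ω) i) ^ p ^ (a + 1) :=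
    Nul.sum _ _ fun a _ => Nul.mul_ge ((zs_nul hz).pow (p ^ (a + 1))) fun _ => hc.out.ge _
  refine ((Nul.of_ge (v := v) fun _ => h4).sub (h.sub h7)).congr fun i => ?_
  simp only [sub_pow_char_pow, mul_sub, Finset.sum_sub_distrib]
  ring

end Pool.Agent.TWIV
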