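import Pool.Agent.Lib.TWIV.Step

/-!
# TANK W, leaf (IV), row S2: the degree induction, the gauge

`Sy.hasse`, `Sy.hasse_one`: the relations of the derivatives.
`Gd`: the derivatives `D_c x_j = b_jc + m_jc`, with
`m_jc ^ p = ∑ φ m_l(c+1) + e_jc + s_jc z`; `exists_gd`: existence.
-/

set_option autoImplicit false
set_option linter.unusedSectionVars false

open Polynomial

namespace Pool.Agent.TWIV

open Pool.Agent.H15JM (RVal)
open Pool.Agent.D2 (Ctx0)
open Pool.Agent.TWM Pool.Agent.TWC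

universe u

variable {k Ω : Type u} [Field k] [Field Ω] [Algebra k Ω] {v : RVal Ω} [hc : Fact (Ctx0 k v)]
  {B : IntermediateField k Ω} {z : Ω} {𝒜 : Submodule k (Module.End k Ω)}
  (p : ℕ) [Fact p.Prime] [CharP k p] [CharP Ω p] [PerfectRing k p] [IsAlgClosed Ω]
  {ι : Type} [Fintype ι] {x : ι → ℕ → Polynomial Ω} {φ : ι → ι → Module.End k Ω}
  {f : ι → Polynomial Ω}

/-- The relation of the derivatives of order `p J`. -/
theorem Sy.hasse (hA : OpA v 𝒜) (hS : Stb 𝒜 B z) (hz : TL v B z 0) (R : Sy p v 𝒜 B z x φ f)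
    (J : ℕ) (j : ι) : Nul v fun i => (hasseDeriv J (x j i)).eval z ^ p -
      ∑ l, cj (z ^ (p * J)) (φ j l) ((hasseDeriv (p * J) (x l i)).eval z) -
      (hasseDeriv (p * J) (f j)).eval z := by
  have hz0 := TL.nez hz
  have h1 := nul_hasse hz (x := fun i => Rl p z (φ j) (x j i) (fun l => x l i) (f j))
    (fun i => Rl_mem p hS (R.opr j) ((R.pc j).mem i) (fun l => (R.pc l).mem i) (R.mem j))
    ((R.rel j).congr fun i => (Rl_eval p hz0).symm) (p * J)
  refine h1.congr fun i => ?_
  rw [hasse_Rl, Rl_eval p hz0]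

/-- The relation of the derivatives of order prime to `p`. -/
theorem Sy.hasse' (hA : OpA v 𝒜) (hS : Stb 𝒜 B z) (hz : TL v B z 0) (R : Sy p v 𝒜 B z x φ f)
    {J : ℕ} (hJ : ¬ p ∣ J) (j : ι) : Nul v fun i => 0 -
      ∑ l, cj (z ^ J) (φ j l) ((hasseDeriv J (x l i)).eval z) -
      (hasseDeriv J (f j)).eval z := by
  have hz0 := TL.nez hz
  have h1 := nul_hasse hz (x := fun i => Rl p z (φ j) (x j i) (fun l => x l i) (f j))
    (fun i => Rl_mem p hS (R.opr j) ((R.pc j).mem i) (fun l => (R.pc l).mem i) (R.mem j))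
    ((R.rel j).congr fun i => (Rl_eval p hz0).symm) J
  refine h1.congr fun i => ?_
  rw [hasse_Rl' p hJ, eval_sub, eval_sub, eval_zero, eval_finsetSum]
  simp only [gcf_eval hz0]

/-- Data of the derivatives after gauge. -/
structure Gd (p : ℕ) (v : RVal Ω) (B : IntermediateField k Ω) (z : Ω) {ι : Type} [Fintype ι]
    (x : ι → ℕ → Polynomial Ω) (φ : ι → ι → Module.End k Ω) (N : ℕ) (b : ι → ℕ → Polynomial Ω)
    (m : ι → ℕ → ℕ → Ω) (e : ι → ℕ → Ω) (s : ι → ℕ → k) : Prop where
  spl : ∀ j c, Spl v B z (fun i => hasseDeriv (p ^ c) (x j i)) (b j c) (m j c)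
  zero : ∀ j c, N ≤ c → b j c = 0 ∧ m j c = fun _ => 0
  mem : ∀ j c, e j c ∈ B
  rel : ∀ j c, Nul v fun i => m j c i ^ p - ∑ l, cj (z ^ (p ^ (c + 1))) (φ j l) (m l (c + 1) i) -
    e j c - algebraMap k Ω (s j c) * z

theorem exists_gd (hA : OpA v 𝒜) (hS : Stb 𝒜 B z) (hz : TL v B z 0) (R : Sy p v 𝒜 B z x φ f)
    {D : ℕ} (hD : ∀ j i, (x j i).natDegree ≤ D)
    (IH : ∀ j c, ∃ b m, Spl v B z (fun i => hasseDeriv (p ^ c) (x j i)) b m) :
    ∃ N b m e s, Gd p v B z x φ N b m e s := by
  classical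
  have hp : p.Prime := Fact.out
  have hz0 := TL.nez hz
  obtain ⟨N, hN⟩ : ∃ N : ℕ, D < p ^ N := ⟨D, Nat.lt_pow_self hp.one_lt⟩
  have h0 : ∀ c, N ≤ c → ∀ j i, hasseDeriv (p ^ c) (x j i) = 0 := fun c hc j i =>
    hasseDeriv_eq_zero_of_lt_natDegree _ _ ((hD j i).trans_lt
      (hN.trans_le (Nat.pow_le_pow_right hp.pos hc)))
  have key := down_choice (S := (ι → Polynomial Ω) × (ι → ℕ → Ω)) N
    (fun c t => ∀ j, Spl v B z (fun i => hasseDeriv (p ^ c) (x j i)) (t.1 j) (t.2 j))
    (fun c t t' => ∀ j, ∃ e ∈ B, ∃ s : k, Nul v fun i => t.2 j i ^ p -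
      ∑ l, cj (z ^ (p ^ (c + 1))) (φ j l) (t'.2 l i) - e - algebraMap k Ω s * z)
    ((fun _ => 0), (fun _ _ => 0)) ?_ ?_
  · obtain ⟨g, hg, hgt⟩ := key
    choose e he s hs using fun j c => (hg c).2 j
    refine ⟨N, fun j c => (g c).1 j, fun j c => (g c).2 j, e, s, fun j c => (hg c).1 j,
      fun j c hc => ?_, he, hs⟩
    rw [hgt c hc]
    exact ⟨rfl, rfl⟩
  · intro c hc
    refine ⟨fun j => ⟨zero_mem _, Cau.const (zero_mem B), Nul.zero.congr fun i => ?_⟩,
      fun j => ⟨0, zero_mem B, 0, Nul.zero.congr fun i => ?_⟩⟩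
    · change (0 : Ω) = (hasseDeriv (p ^ c) (x j i)).eval z - (0 : Polynomial Ω).eval z - 0
      rw [h0 c hc j i]
      simp
    · dsimp only
      rw [zero_pow hp.ne_zero]
      simp
  · rintro c hcN ⟨b', m'⟩ hs'
    dsimp only at hs'
    choose b₀ m₀ hs₀ using fun j => IH j c
    have hpc : p * p ^ c = p ^ (c + 1) := (pow_succ' p c).symm
    -- the polynomials and the limits of the relation
    set φ' : ι → ι → Module.End k Ω := fun j l => cj (z ^ (p ^ (c + 1))) (φ j l) with hφ'
    have hφ'A : ∀ j l, φ' j l ∈ 𝒜 := fun j l => hS.pow _ (R.opr j l)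
    set F : ι → Polynomial Ω := fun j =>
      ∑ l, gcf z (φ' j l) (b' l) + hasseDeriv (p ^ (c + 1)) (f j) - b₀ j ^ p with hF
    have hFB : ∀ j, F j ∈ PI B := fun j => sub_mem (add_mem
      (sum_mem fun l _ => gcf_mem hS (hφ'A j l) (hs' l).mem) (hasse_mem_PI (R.mem j) _))
      (pow_mem (hs₀ j).mem _)
    set M : ι → ℕ → Ω := fun j i => m₀ j i ^ p - ∑ l, φ' j l (m' l i) with hM
    have hMB : ∀ j, Cau v B (M j) := by
      intro j
      have h1 : ∀ S : Finset ι, Cau v B fun i => ∑ l ∈ S, φ' j l (m' l i) := by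
        intro S
        induction S using Finset.induction_on with
        | empty => simpa using Cau.const (v := v) (zero_mem B)
        | insert a S ha ih =>
          have h2 := (hA.cau hS.mem (hφ'A j a) (hs' a).cau).add ih
          simpa only [Finset.sum_insert ha] using h2
      exact ((hs₀ j).cau.pow p).sub (h1 _)
    have hFM : ∀ j, Nul v fun i => (F j).eval z - M j i := by
      intro j
      have h1 := R.hasse p hA hS hz (p ^ c) j
      rw [hpc] at h1
      have h2 : Nul v fun i => ((hasseDeriv (p ^ c) (x j i)).eval z - (b₀ j).eval z - m₀ j i) ^ p :=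
        (hs₀ j).nul.pow p
      have h3 : Nul v fun i => ∑ l, φ' j l ((hasseDeriv (p ^ (c + 1)) (x l i)).eval z -
          (b' l).eval z - m' l i) := Nul.sum _ _ fun l _ => hA.nul (hφ'A j l) (hs' l).nul
      refine ((h2.sub h3).sub h1).congr fun i => ?_
      simp only [sub_pow_char, map_sub, Finset.sum_sub_distrib, hF, hM, eval_sub, eval_add,
        eval_pow, eval_finsetSum, gcf_eval hz0, hφ']
      ring
    choose e he Nn cc hcc hM' _ using fun j => lemR' p hz (hFB j) (hMB j) (hFM j)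
    -- the roots of the coefficients
    choose rt hrt using fun a : k => (PerfectRing.bijective_frobenius (R := k) (p := p)).2 a
    have hrt' : ∀ a, rt a ^ p = a := hrt
    refine ⟨(fun j => b₀ j + ∑ a ∈ Finset.range (Nn j),
        Polynomial.C (algebraMap k Ω (rt (cc j (a + 1)))) * X ^ p ^ a,
      fun j i => m₀ j i - ∑ a ∈ Finset.range (Nn j),
        algebraMap k Ω (rt (cc j (a + 1))) * (zs hz : ℕ → Ω) i ^ p ^ a), fun j => ?_, fun j => ?_⟩
    · have h1 : Cau v B fun i => ∑ a ∈ Finset.range (Nn j),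
          algebraMap k Ω (rt (cc j (a + 1))) * (zs hz : ℕ → Ω) i ^ p ^ a := by
        have h2 : ∀ S : Finset ℕ, Cau v B fun i => ∑ a ∈ S,
            algebraMap k Ω (rt (cc j (a + 1))) * (zs hz : ℕ → Ω) i ^ p ^ a := by
          intro S
          induction S using Finset.induction_on with
          | empty => simpa using Cau.const (v := v) (zero_mem B)
          | insert a S ha ih =>
            have h3 : Cau v B fun i => algebraMap k Ω (rt (cc j (a + 1))) *
                (zs hz : ℕ → Ω) i ^ p ^ a := by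
              have h4 := (zs hz).2.pow_pow p a
              refine ⟨fun i => mul_mem (B.algebraMap_mem _) (h4.mem i), fun ε hε => ?_⟩
              obtain ⟨K, hK⟩ := h4.cau ε hε
              refine ⟨K, fun i i' hi hi' => ?_⟩
              rw [← mul_sub]
              have h5 := (hc.out.ge (rt (cc j (a + 1)))).mul (hK i i' hi hi')
              rwa [zero_add] at h5
            simpa only [Finset.sum_insert ha] using h3.add ih
        exact h2 _
      refine ⟨add_mem (hs₀ j).mem (sum_mem fun a _ => mul_mem (C_mem_PI (B.algebraMap_mem _))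
        (pow_mem X_mem_PI _)), (hs₀ j).cau.sub h1, ?_⟩
      have h2 : Nul v fun i => ∑ a ∈ Finset.range (Nn j),
          algebraMap k Ω (rt (cc j (a + 1))) * (z - (zs hz : ℕ → Ω) i) ^ p ^ a :=
        Nul.sum _ _ fun a _ => Nul.mul_ge ((zs_nul hz).pow (p ^ a)) fun _ => hc.out.ge _
      refine ((hs₀ j).nul.sub h2).congr fun i => ?_
      simp only [sub_pow_char_pow, mul_sub, Finset.sum_sub_distrib, eval_add, eval_finsetSum,
        eval_mul, eval_C, eval_pow, eval_X]
      ring
    · refine ⟨e j, he j, cc j 0, (hM' j).congr fun i => ?_⟩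
      dsimp only
      rw [hM, sub_pow_char, sum_pow_char]
      have h1 : ∀ a, (algebraMap k Ω (rt (cc j (a + 1))) * (zs hz : ℕ → Ω) i ^ p ^ a) ^ p =
          algebraMap k Ω (cc j (a + 1)) * (zs hz : ℕ → Ω) i ^ p ^ (a + 1) := by
        intro a
        rw [mul_pow, ← map_pow, hrt', ← pow_mul, ← pow_succ]
      simp only [h1]
      ring

end Pool.Agent.TWIV
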