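import Pool.Agent.Lib.TWIV.Step2

/-!
# TANK W, leaf (IV), row S2: the degree induction, residues and domination

* `Gd.sym`: `D_c' b_c - D_c b_c'` is positive;
* `Gd.zero_rel`: the relation of order one;
* `Gd.s_zero`: domination, the coefficients `s_jc` vanish;
* `Gd.beta`: `D_c ^ (p - 1) b_c` is positive;
* `step`: `D_c (x_j - F_j) = ν_jc`.
-/

set_option autoImplicit false
set_option linter.unusedSectionVars false

open Polynomial

namespace Pool.Agent.TWIV

open Pool.Agent.H15JM (RVal)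
open Pool.Agent.D2 (Ctx0)
open Pool.Agent.TWM Pool.Agent.TWC

universe u

variable {k Ω : Type u} [Field k] [Field Ω] [Algebra k Ω] {v : RVal Ω} [hc : Fact (Ctx0 k v)]
  {B : IntermediateField k Ω} {z : Ω} {𝒜 : Submodule k (Module.End k Ω)}
  (p : ℕ) [Fact p.Prime] [CharP k p] [CharP Ω p] [PerfectRing k p] [IsAlgClosed Ω]
  {ι : Type} [Fintype ι] {x : ι → ℕ → Polynomial Ω} {φ : ι → ι → Module.End k Ω}
  {f : ι → Polynomial Ω} {N : ℕ} {b : ι → ℕ → Polynomial Ω}
  {m : ι → ℕ → ℕ → Ω} {e : ι → ℕ → Ω} {s : ι → ℕ → k}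

theorem hasse_CX {J : ℕ} (hJ : 1 < J) (a : Ω) :
    hasseDeriv J (Polynomial.C a * X : Polynomial Ω) = 0 :=
  hasseDeriv_eq_zero_of_lt_natDegree _ _
    (((natDegree_C_mul_le _ _).trans natDegree_X_le).trans_lt hJ)

theorem hasse_CX1 (a : Ω) : hasseDeriv 1 (Polynomial.C a * X : Polynomial Ω) =
    Polynomial.C a := by
  rw [hasseDeriv_one', derivative_C_mul, derivative_X, mul_one]

/-- The relation polynomial. -/
noncomputable def GP (z : Ω) (φ : ι → ι → Module.End k Ω) (f : ι → Polynomial Ω)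
    (b : ι → ℕ → Polynomial Ω) (e : ι → ℕ → Ω) (s : ι → ℕ → k) (j : ι) (c : ℕ) : Polynomial Ω :=
  Rl p z (fun l => cj (z ^ (p ^ (c + 1))) (φ j l)) (b j c) (fun l => b l (c + 1))
    (hasseDeriv (p ^ (c + 1)) (f j)) + Polynomial.C (e j c) +
    Polynomial.C (algebraMap k Ω (s j c)) * X

theorem Gd.gp_mem (hS : Stb 𝒜 B z) (R : Sy p v 𝒜 B z x φ f) (G : Gd p v B z x φ N b m e s)
    (j : ι) (c : ℕ) : GP p z φ f b e s j c ∈ PI B :=
  add_mem (add_mem (Rl_mem p hS (fun l => hS.pow _ (R.opr j l)) (G.spl j c).mem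
    (fun l => (G.spl l (c + 1)).mem) (hasse_mem_PI (R.mem j) _)) (C_mem_PI (G.mem j c)))
    (mul_mem (C_mem_PI (B.algebraMap_mem _)) X_mem_PI)

theorem Gd.gp_ge (hA : OpA v 𝒜) (hS : Stb 𝒜 B z) (hz : TL v B z 0) (R : Sy p v 𝒜 B z x φ f)
    (G : Gd p v B z x φ N b m e s) (j : ι) (c : ℕ) : v.Ge 0 ((GP p z φ f b e s j c).eval z) := by
  have hz0 := TL.nez hz
  have hpc : p * p ^ c = p ^ (c + 1) := (pow_succ' p c).symm
  have h1 := R.hasse p hA hS hz (p ^ c) j
  rw [hpc] at h1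
  have h2 : Nul v fun i => ((hasseDeriv (p ^ c) (x j i)).eval z - (b j c).eval z - m j c i) ^ p :=
    (G.spl j c).nul.pow p
  have h3 : Nul v fun i => ∑ l, cj (z ^ (p ^ (c + 1))) (φ j l)
      ((hasseDeriv (p ^ (c + 1)) (x l i)).eval z - (b l (c + 1)).eval z - m l (c + 1) i) :=
    Nul.sum _ _ fun l _ => hA.nul (hS.pow _ (R.opr j l)) (G.spl l (c + 1)).nul
  refine Nul.const_iff.1 ((((h1.sub h2).add h3).sub (G.rel j c)).congr fun i => ?_)
  rw [GP, eval_add, eval_add, Rl_eval p hz0, eval_C, eval_mul, eval_C, eval_X]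
  simp only [sub_pow_char, map_sub, Finset.sum_sub_distrib]
  ring

theorem hasse_gp (j : ι) (c c' : ℕ) : hasseDeriv (p ^ (c' + 1)) (GP p z φ f b e s j c) =
    Rl p z (fun l => cj (z ^ (p ^ (c + 1)) * z ^ (p ^ (c' + 1))) (φ j l))
      (hasseDeriv (p ^ c') (b j c)) (fun l => hasseDeriv (p ^ (c' + 1)) (b l (c + 1)))
      (hasseDeriv (p ^ (c' + 1)) (hasseDeriv (p ^ (c + 1)) (f j))) := by
  have hp : p.Prime := Fact.out
  have hpc : p * p ^ c' = p ^ (c' + 1) := (pow_succ' p c').symm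
  have h2 : 1 < p ^ (c' + 1) := Nat.one_lt_pow (by omega) hp.one_lt
  rw [GP, map_add, map_add, hasseDeriv_C _ _ (by omega), hasse_CX h2, add_zero, add_zero]
  rw [← hpc, hasse_Rl]
  simp only [cj_cj, hpc]

theorem Gt.of_pow' {q : ℕ} (hq : 0 < q) {w : Ω} (h : Gt v 0 (w ^ q)) : Gt v 0 w := by
  intro h0
  have h1 := h (pow_ne_zero q h0)
  rw [v.map_pow h0] at h1
  exact (mul_pos_iff_of_pos_left (by exact_mod_cast hq)).1 h1

theorem Gd.sym (hA : OpA v 𝒜) (hS : Stb 𝒜 B z) (hz : TL v B z 0) (R : Sy p v 𝒜 B z x φ f)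
    (G : Gd p v B z x φ N b m e s) (j : ι) (c c' : ℕ) :
    Gt v 0 ((hasseDeriv (p ^ c') (b j c) - hasseDeriv (p ^ c) (b j c')).eval z) := by
  have hp : p.Prime := Fact.out
  have hz0 := TL.nez hz
  suffices H : ∀ d c c', N ≤ c + d → N ≤ c' + d → ∀ j,
      Gt v 0 ((hasseDeriv (p ^ c') (b j c) - hasseDeriv (p ^ c) (b j c')).eval z) from
    H N c c' (by omega) (by omega) j
  intro d
  induction d with
  | zero =>
    intro c c' hcN hcN' j
    rw [(G.zero j c (by omega)).1, (G.zero j c' (by omega)).1, map_zero, map_zero, sub_zero,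
      eval_zero]
    exact Gt.zero
  | succ d ih =>
    intro c c' hcN hcN' j
    have h1 : ∀ c c' : ℕ, Gt v 0 ((hasseDeriv (p ^ (c' + 1)) (GP p z φ f b e s j c)).eval z) :=
      fun c c' => hasse_gt_of_ge hz (G.gp_mem p hS R j c) (G.gp_ge p hA hS hz R j c)
        (Nat.one_le_pow _ _ hp.pos)
    have h2 := (h1 c c').sub (h1 c' c)
    rw [hasse_gp, hasse_gp, mul_comm (z ^ p ^ (c' + 1)) (z ^ p ^ (c + 1)),
      hasse_comm (p ^ (c + 1)) (p ^ (c' + 1)), ← eval_sub, ← Rl_sub, sub_self, Rl_eval p hz0,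
      eval_zero, sub_zero] at h2
    have h3 : Gt v 0 (∑ l, cj (z ^ p ^ (c + 1) * z ^ p ^ (c' + 1)) (φ j l)
        ((hasseDeriv (p ^ (c' + 1)) (b l (c + 1)) -
          hasseDeriv (p ^ (c + 1)) (b l (c' + 1))).eval z)) := by
      refine Gt.sum _ _ fun l _ => ?_
      refine hA.gt ?_ (ih (c + 1) (c' + 1) (by omega) (by omega) l)
      rw [← pow_add]
      exact hS.pow _ (R.opr j l)
    have h4 := h2.add h3
    rw [sub_add_cancel] at h4
    exact Gt.of_pow' hp.pos h4

/-- The relation of order one. -/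
theorem Gd.zero_rel (hA : OpA v 𝒜) (hS : Stb 𝒜 B z) (hz : TL v B z 0) (R : Sy p v 𝒜 B z x φ f)
    (G : Gd p v B z x φ N b m e s) (j : ι) :
    ∃ e' ∈ B, ∃ (M : ℕ) (c : ℕ → k), (∀ a, M < a → c a = 0) ∧
      Nul v (fun i => - ∑ l, cj z (φ j l) (m l 0 i) - e' - algebraMap k Ω (c 0) * z -
        ∑ a ∈ Finset.range M, algebraMap k Ω (c (a + 1)) * (zs hz : ℕ → Ω) i ^ p ^ (a + 1)) ∧
      ∀ a, s j a = c (a + 1) := by
  classical
  have hp : p.Prime := Fact.out
  have hz0 := TL.nez hz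
  have hφ1 : ∀ l, cj z (φ j l) ∈ 𝒜 := fun l => hS.cj _ (R.opr j l)
  set F : Polynomial Ω := ∑ l, gcf z (cj z (φ j l)) (b l 0) + hasseDeriv 1 (f j) with hF
  have hFB : F ∈ PI B := add_mem (sum_mem fun l _ => gcf_mem hS (hφ1 l) (G.spl l 0).mem)
    (hasse_mem_PI (R.mem j) _)
  have hMB : Cau v B fun i => - ∑ l, cj z (φ j l) (m l 0 i) := by
    have h1 : ∀ S : Finset ι, Cau v B fun i => ∑ l ∈ S, cj z (φ j l) (m l 0 i) := by
      intro S
      induction S using Finset.induction_on with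
      | empty => simpa using Cau.const (v := v) (zero_mem B)
      | insert a S ha ih =>
        have h2 := (hA.cau hS.mem (hφ1 a) (G.spl a 0).cau).add ih
        simpa only [Finset.sum_insert ha] using h2
    exact (h1 _).neg
  have hFM : Nul v fun i => F.eval z - (- ∑ l, cj z (φ j l) (m l 0 i)) := by
    have h1 := R.hasse' p hA hS hz (J := 1) (by
      intro h
      have := Nat.le_of_dvd one_pos h
      have := hp.one_lt
      omega) j
    have h3 : Nul v fun i => ∑ l, cj z (φ j l)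
        ((hasseDeriv (p ^ 0) (x l i)).eval z - (b l 0).eval z - m l 0 i) :=
      Nul.sum _ _ fun l _ => hA.nul (hφ1 l) (G.spl l 0).nul
    refine ((h3.add h1).neg).congr fun i => ?_
    simp only [map_sub, Finset.sum_sub_distrib, hF, eval_add, eval_finsetSum, gcf_eval hz0,
      pow_zero, pow_one]
    ring
  obtain ⟨e', he', M, c, hcM, h1, h2⟩ := lemR' p hz hFB hMB hFM
  refine ⟨e', he', M, c, hcM, h1, fun a => ?_⟩
  -- the residues
  set P : Polynomial Ω := F - Polynomial.C e' - Polynomial.C (algebraMap k Ω (c 0)) * X -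
    ∑ i ∈ Finset.range M, Polynomial.C (algebraMap k Ω (c (i + 1))) * X ^ p ^ (i + 1) with hP
  have hPB : P ∈ PI B := sub_mem (sub_mem (sub_mem hFB (C_mem_PI he'))
    (mul_mem (C_mem_PI (B.algebraMap_mem _)) X_mem_PI))
    (sum_mem fun i _ => mul_mem (C_mem_PI (B.algebraMap_mem _)) (pow_mem X_mem_PI _))
  have hPz : v.Ge 0 (P.eval z) := by
    rw [hP]
    simp only [eval_sub, eval_C, eval_mul, eval_X, eval_finsetSum, eval_pow]
    exact h2
  have h3 := hasse_gt_of_ge hz hPB hPz (l := p ^ (a + 1)) (Nat.one_le_pow _ _ hp.pos)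
  have h4 := hasse_gt_of_ge hz (G.gp_mem p hS R j a) (G.gp_ge p hA hS hz R j a) (l := 1) le_rfl
  have h5 : (hasseDeriv (p ^ (a + 1)) P).eval z =
      ∑ l, cj (z ^ (p ^ (a + 1)) * z) (φ j l) ((hasseDeriv (p ^ (a + 1)) (b l 0)).eval z) +
      (hasseDeriv (p ^ (a + 1)) (hasseDeriv 1 (f j))).eval z - algebraMap k Ω (c (a + 1)) := by
    have h2' : 1 < p ^ (a + 1) := Nat.one_lt_pow (by omega) hp.one_lt
    have h6 : (hasseDeriv (p ^ (a + 1)) (∑ i ∈ Finset.range M,
        Polynomial.C (algebraMap k Ω (c (i + 1))) * X ^ p ^ (i + 1))).eval z =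
        algebraMap k Ω (c (a + 1)) := by
      rw [map_sum, eval_finsetSum]
      have h7 : ∀ i, (hasseDeriv (p ^ (a + 1)) (Polynomial.C (algebraMap k Ω (c (i + 1))) *
          X ^ p ^ (i + 1))).eval z = if i = a then algebraMap k Ω (c (i + 1)) else 0 := by
        intro i
        rw [← smul_eq_C_mul, map_smul, eval_smul, hasse_X_pow p (a + 1) (i + 1) z]
        simp only [add_left_inj]
        split_ifs <;> simp
      simp only [h7]
      rw [Finset.sum_ite_eq' (Finset.range M) a]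
      split_ifs with h8
      · rfl
      · rw [hcM (a + 1) (by have := Finset.mem_range.not.1 h8; omega), map_zero]
    rw [hP, map_sub, map_sub, map_sub, eval_sub, eval_sub, eval_sub, h6,
      hasseDeriv_C _ _ (by omega), hasse_CX h2', eval_zero,
      sub_zero, sub_zero, hF, map_add, map_sum, eval_add, eval_finsetSum]
    simp only [hasse_gcf, gcf_eval hz0, cj_cj, mul_comm z]
  have h6 : (hasseDeriv 1 (GP p z φ f b e s j a)).eval z =
      - ∑ l, cj (z ^ (p ^ (a + 1)) * z) (φ j l) ((hasseDeriv 1 (b l (a + 1))).eval z) -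
      (hasseDeriv (p ^ (a + 1)) (hasseDeriv 1 (f j))).eval z + algebraMap k Ω (s j a) := by
    have hp1 : ¬ p ∣ 1 := by
      intro h
      have := Nat.le_of_dvd one_pos h
      have := hp.one_lt
      omega
    rw [GP, map_add, map_add, hasseDeriv_C _ _ one_pos, add_zero, hasse_Rl' p hp1,
      hasse_CX1, eval_add, eval_sub, eval_sub, eval_zero, eval_C,
      eval_finsetSum, hasse_comm 1 (p ^ (a + 1)), zero_sub]
    simp only [gcf_eval hz0, cj_cj, pow_one]
  have h7 : Gt v 0 (∑ l, cj (z ^ (p ^ (a + 1)) * z) (φ j l)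
      ((hasseDeriv (p ^ 0) (b l (a + 1)) - hasseDeriv (p ^ (a + 1)) (b l 0)).eval z)) := by
    refine Gt.sum _ _ fun l _ => ?_
    refine hA.gt ?_ (G.sym p hA hS hz R l (a + 1) 0)
    rw [← pow_succ]
    exact hS.pow _ (R.opr j l)
  have h8 := (h3.add h4).add h7
  rw [h5, h6] at h8
  have h9 : Gt v 0 (algebraMap k Ω (s j a - c (a + 1))) := by
    refine (congrArg (Gt v 0) ?_).mp h8
    simp only [eval_sub, map_sub, Finset.sum_sub_distrib, pow_zero]
    ring
  exact sub_eq_zero.1 (const_gt h9)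

end Pool.Agent.TWIV
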