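import Pool.Agent.Lib.TWIV.Step3

/-!
# TANK W, leaf (IV), row S2: the degree induction, conclusion

* `Gd.s_zero`: domination, the coefficients `s_jc` vanish;
* `Gd.beta`: `D_c ^ (p - 1) b_c` is positive;
* `step`: `D_c (x_j - F_j) = ν_jc`.
-/

set_option autoImplicit false
set_option linter.unusedSectionVars false

open Polynomial

namespace Pool.Agent.TWIV

open Pool.Agent.H15JM (RVal)
open Pool.Agent.D2 (Ctx0)
open Pool.Agent.TWM Pool.Agent.TWC

universe u

variable {k Ω : Type u} [Field k] [Field Ω] [Algebra k Ω] {v : RVal Ω} [hc : Fact (Ctx0 k v)]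
  {B : IntermediateField k Ω} {z : Ω} {𝒜 : Submodule k (Module.End k Ω)}
  (p : ℕ) [Fact p.Prime] [CharP k p] [CharP Ω p] [PerfectRing k p] [IsAlgClosed Ω]
  {ι : Type} [Fintype ι] {x : ι → ℕ → Polynomial Ω} {φ : ι → ι → Module.End k Ω}
  {f : ι → Polynomial Ω} {N : ℕ} {b : ι → ℕ → Polynomial Ω}
  {m : ι → ℕ → ℕ → Ω} {e : ι → ℕ → Ω} {s : ι → ℕ → k}

/-- **Domination.** -/
theorem Gd.s_zero (hA : OpA v 𝒜) (hS : Stb 𝒜 B z) (hz : TL v B z 0) (R : Sy p v 𝒜 B z x φ f)
    (G : Gd p v B z x φ N b m e s) {P : (ℕ → Ω) → Prop}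
    (H1 : ∀ (κ : Type) [Fintype κ] (m : κ → ℕ → Ω), (∀ l, Cau v B (m l)) →
      (∀ l, Dm v 𝒜 B m fun n => m l n ^ p) → ∀ l, P (m l))
    (hzP : ¬ P (zs hz : ℕ → Ω)) (j : ι) (c : ℕ) : s j c = 0 := by
  classical
  have hp : p.Prime := Fact.out
  choose e' he' M σ hσM hσ hsσ using fun j => G.zero_rel p hA hS hz R j
  by_contra hs
  -- the top index
  set Q : ℕ → Prop := fun a => 1 ≤ a ∧ ∃ j, σ j a ≠ 0 with hQ
  set K : ℕ := Finset.univ.sup M with hK
  have hMK : ∀ j, M j ≤ K := fun j => Finset.le_sup (Finset.mem_univ j)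
  have hQK : ∀ a, Q a → a ≤ K := by
    rintro a ⟨-, j, hj⟩
    by_contra h
    exact hj (hσM j a (by have := hMK j; omega))
  have hQ0 : Q (c + 1) := ⟨by omega, j, by rwa [← hsσ]⟩
  obtain ⟨⟨ht1, j₀, hj₀⟩, htmax⟩ : Q (Nat.findGreatest Q K) ∧
      ∀ a, Nat.findGreatest Q K < a → ¬ Q a :=
    ⟨Nat.findGreatest_spec (hQK _ hQ0) hQ0, fun a ha h =>
      absurd h (Nat.findGreatest_is_greatest ha (hQK a h))⟩
  set t := Nat.findGreatest Q K with ht
  have hσt : ∀ j a, t < a → σ j a = 0 := fun j a ha => by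
    by_contra h
    exact htmax a ha ⟨by omega, j, h⟩
  -- the family
  let mm : (ι × Fin N) ⊕ Fin t → ℕ → Ω :=
    Sum.elim (fun q => m q.1 q.2) (fun a i => (zs hz : ℕ → Ω) i ^ p ^ (a : ℕ))
  have hop : ∀ l c (ψ : Module.End k Ω), ψ ∈ 𝒜 → Dm v 𝒜 B mm fun i => ψ (m l c i) := by
    intro l c ψ hψ
    by_cases hcN : c < N
    · exact Dm.op (v := v) (B := B) (m := mm) hψ (Sum.inl (l, ⟨c, hcN⟩))
    · have h1 : m l c = fun _ => 0 := (G.zero l c (not_lt.1 hcN)).2
      rw [h1]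
      simpa using Dm.of_mem (v := v) (𝒜 := 𝒜) (m := mm) (zero_mem B)
  have hzlt : ∀ a, a < t → Dm v 𝒜 B mm fun i => (zs hz : ℕ → Ω) i ^ p ^ a := fun a ha =>
    Dm.gen (v := v) (B := B) (m := mm) hA.one (Sum.inr ⟨a, ha⟩)
  have hzt : Dm v 𝒜 B mm fun i => (zs hz : ℕ → Ω) i ^ p ^ t := by
    -- all the terms of the relation of `j₀`
    have h1 : ∀ w : Ω, ∑ a ∈ Finset.range (M j₀), algebraMap k Ω (σ j₀ (a + 1)) * w ^ p ^ (a + 1) +
        algebraMap k Ω (σ j₀ 0) * w = ∑ a ∈ Finset.range (t + 1),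
          algebraMap k Ω (σ j₀ a) * w ^ p ^ a := by
      intro w
      have h2 : ∑ a ∈ Finset.range (M j₀ + 1), algebraMap k Ω (σ j₀ a) * w ^ p ^ a =
          ∑ a ∈ Finset.range (t + 1), algebraMap k Ω (σ j₀ a) * w ^ p ^ a := by
        have h3 : t ≤ M j₀ := by
          by_contra h
          exact hj₀ (hσM j₀ t (by omega))
        symm
        refine Finset.sum_subset (Finset.range_subset_range.2 (by omega)) fun a _ ha => ?_
        rw [hσt j₀ a (by have := Finset.mem_range.not.1 ha; omega), map_zero, zero_mul]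
      rw [← h2, Finset.sum_range_succ', pow_zero, pow_one]
    have h2 : Nul v fun i => algebraMap k Ω (σ j₀ 0) * (z - (zs hz : ℕ → Ω) i) :=
      Nul.mul_ge (zs_nul hz) fun _ => hc.out.ge _
    have h3 : Dm v 𝒜 B mm fun i => algebraMap k Ω (σ j₀ t) * (zs hz : ℕ → Ω) i ^ p ^ t := by
      have h4 : Dm v 𝒜 B mm fun i => - ∑ l, cj z (φ j₀ l) (m l 0 i) - e' j₀ -
          ∑ a ∈ Finset.range t, algebraMap k Ω (σ j₀ a) * (zs hz : ℕ → Ω) i ^ p ^ a := by
        refine ((Dm.sum _ _ fun l _ => hop l 0 _ (hS.cj _ (R.opr j₀ l))).neg.sub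
          (Dm.of_mem (he' j₀))).sub (Dm.sum _ _ fun a ha => ?_)
        exact (hzlt a (Finset.mem_range.1 ha)).smul _
      refine h4.congr (((hσ j₀).add h2).neg.congr fun i => ?_)
      have h5 := h1 ((zs hz : ℕ → Ω) i)
      rw [Finset.sum_range_succ] at h5
      linear_combination h5
    refine ((h3.smul (σ j₀ t)⁻¹).congr (Nul.zero.congr fun i => ?_))
    rw [← mul_assoc, ← map_mul, inv_mul_cancel₀ hj₀, map_one, one_mul, sub_self]
  have hzle : ∀ a, a ≤ t → Dm v 𝒜 B mm fun i => (zs hz : ℕ → Ω) i ^ p ^ a := fun a ha => by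
    rcases ha.lt_or_eq with h | rfl
    · exact hzlt a h
    · exact hzt
  have h1 := H1 _ mm (by
    rintro (⟨l, c⟩ | a)
    · exact (G.spl l c).cau
    · exact (zs hz).2.pow_pow p a) (by
    rintro (⟨l, c⟩ | a)
    · have h2 : Dm v 𝒜 B mm fun i => ∑ l', cj (z ^ (p ^ ((c : ℕ) + 1))) (φ l l')
          (m l' ((c : ℕ) + 1) i) + e l c + algebraMap k Ω (s l c) * (zs hz : ℕ → Ω) i ^ p ^ 0 :=
        ((Dm.sum _ _ fun l' _ => hop l' _ _ (hS.pow _ (R.opr l l'))).add
          (Dm.of_mem (G.mem l c))).add ((hzle 0 (by omega)).smul _)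
      have h3 : Nul v fun i => algebraMap k Ω (s l c) * (z - (zs hz : ℕ → Ω) i) :=
        Nul.mul_ge (zs_nul hz) fun _ => hc.out.ge _
      refine h2.congr (((G.rel l c).add h3).congr fun i => ?_)
      simp only [mm, Sum.elim_inl, pow_zero, pow_one]
      ring
    · have h2 := hzle ((a : ℕ) + 1) (by have := a.2; omega)
      refine h2.congr (Nul.zero.congr fun i => ?_)
      simp only [mm, Sum.elim_inr]
      rw [← pow_mul, ← pow_succ, sub_self]) (Sum.inr ⟨0, by omega⟩)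
  refine hzP ((congrArg P (funext fun i => ?_)).mp h1)
  simp only [mm, Sum.elim_inr, pow_zero, pow_one]

/-! ## The classes of Witt type -/

theorem iter_Rl (J i : ℕ) {φ : ι → Module.End k Ω} {w₀ f : Polynomial Ω}
    {w : ι → Polynomial Ω} : (⇑(hasseDeriv (R := Ω) (p * J)))^[i] (Rl p z φ w₀ w f) =
      Rl p z (fun l => cj (z ^ (i * (p * J))) (φ l)) ((⇑(hasseDeriv (R := Ω) J))^[i] w₀)
        (fun l => (⇑(hasseDeriv (R := Ω) (p * J)))^[i] (w l))
        ((⇑(hasseDeriv (R := Ω) (p * J)))^[i] f) := by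
  induction i with
  | zero => simp only [zero_mul, pow_zero, cj_one, Function.iterate_zero, id]
  | succ i ih =>
    rw [Function.iterate_succ_apply', ih, hasse_Rl]
    simp only [← Function.iterate_succ_apply' (f := ⇑(hasseDeriv (R := Ω) _)), cj_cj, ← pow_add]
    congr 1
    funext l
    congr 2
    ring

theorem Gd.beta (hA : OpA v 𝒜) (hS : Stb 𝒜 B z) (hz : TL v B z 0) (R : Sy p v 𝒜 B z x φ f)
    (G : Gd p v B z x φ N b m e s) (hs : ∀ j c, s j c = 0) (j : ι) (c : ℕ) :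
    Gt v 0 (((⇑(hasseDeriv (R := Ω) (p ^ c)))^[p - 1] (b j c)).eval z) := by
  have hp : p.Prime := Fact.out
  have hz0 := TL.nez hz
  suffices H : ∀ d c, N ≤ c + d → ∀ j,
      Gt v 0 (((⇑(hasseDeriv (R := Ω) (p ^ c)))^[p - 1] (b j c)).eval z) from
    H N c (Nat.le_add_left _ _) j
  intro d
  induction d with
  | zero =>
    intro c hcN j
    rw [(G.zero j c (by omega)).1, ← Module.End.pow_apply, map_zero, eval_zero]
    exact Gt.zero
  | succ d ih =>
    intro c hcN j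
    have hpc : p * p ^ c = p ^ (c + 1) := (pow_succ' p c).symm
    obtain ⟨q, hq⟩ : ∃ q, p - 1 = q + 1 := ⟨p - 2, by have := hp.two_le; omega⟩
    have hm := G.gp_mem p hS R j c
    have h2 : Gt v 0 (((⇑(hasseDeriv (R := Ω) (p ^ (c + 1))))^[p - 1]
        (GP p z φ f b e s j c)).eval z) := by
      rw [hq, Function.iterate_succ_apply']
      have h3 : ∀ i, v.Ge 0 (((⇑(hasseDeriv (R := Ω) (p ^ (c + 1))))^[i]
          (GP p z φ f b e s j c)).eval z) := by
        intro i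
        induction i with
        | zero => exact G.gp_ge p hA hS hz R j c
        | succ i ihi =>
          rw [Function.iterate_succ_apply']
          exact hasse_ge hz (TWC.iter_mem_PI hm _ _) ihi _
      exact hasse_gt_of_ge hz (TWC.iter_mem_PI hm _ _) (h3 q) (Nat.one_le_pow _ _ hp.pos)
    have h4 : (⇑(hasseDeriv (R := Ω) (p ^ (c + 1))))^[p - 1] (GP p z φ f b e s j c) =
        (⇑(hasseDeriv (R := Ω) (p ^ (c + 1))))^[p - 1]
          (Rl p z (fun l => cj (z ^ (p ^ (c + 1))) (φ j l)) (b j c) (fun l => b l (c + 1))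
            (hasseDeriv (p ^ (c + 1)) (f j))) := by
      rw [GP, hs j c, map_zero, Polynomial.C_0, zero_mul, add_zero, ← Module.End.pow_apply,
        ← Module.End.pow_apply, map_add, Module.End.pow_apply, Module.End.pow_apply]
      have h5 : (⇑(hasseDeriv (R := Ω) (p ^ (c + 1))))^[p - 1] (Polynomial.C (e j c)) = 0 := by
        rw [hq, Function.iterate_succ_apply, hasseDeriv_C _ _ (pow_pos hp.pos _),
          ← Module.End.pow_apply, map_zero]
      rw [h5, add_zero]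
    rw [h4, ← hpc, iter_Rl, hpc, ← Function.iterate_succ_apply,
      show (p - 1).succ = p by have := hp.pos; omega, iter_hasse_p, Rl_eval p hz0, eval_zero,
      sub_zero] at h2
    have h3 : Gt v 0 (∑ l, cj (z ^ ((p - 1) * p ^ (c + 1))) (cj (z ^ p ^ (c + 1)) (φ j l))
        (((⇑(hasseDeriv (R := Ω) (p ^ (c + 1))))^[p - 1] (b l (c + 1))).eval z)) :=
      Gt.sum _ _ fun l _ => hA.gt (hS.pow _ (hS.pow _ (R.opr j l))) (ih (c + 1) (by omega) l)
    have h5 := h2.add h3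
    rw [sub_add_cancel] at h5
    exact Gt.of_pow' hp.pos h5

/-! ## The step -/

/-- **The degree induction, one step.** -/
theorem step (hA : OpA v 𝒜) (hS : Stb 𝒜 B z) (hz : TL v B z 0) (R : Sy p v 𝒜 B z x φ f)
    {P Q : (ℕ → Ω) → Prop}
    (H1 : ∀ (κ : Type) [Fintype κ] (m : κ → ℕ → Ω), (∀ l, Cau v B (m l)) →
      (∀ l, Dm v 𝒜 B m fun n => m l n ^ p) → ∀ l, P (m l))
    (hzP : ¬ P (zs hz : ℕ → Ω)) (hQ0 : Q fun _ => 0)
    (H2 : ∀ (N : ℕ) (m : ι → ℕ → ℕ → Ω), (∀ j c, Cau v B (m j c)) →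
      (∀ j c, N ≤ c → m j c = fun _ => 0) →
      (∀ j c, Dm v 𝒜 B (fun l => m l (c + 1)) fun n => m j c n ^ p) →
      ∀ j c, ∃ β ∈ B, ∃ ν, Q ν ∧ Nul v fun i => m j c i - β - ν i)
    {D : ℕ} (hD : ∀ j i, (x j i).natDegree ≤ D)
    (IH : ∀ j c, ∃ b m, Spl v B z (fun i => hasseDeriv (p ^ c) (x j i)) b m) :
    ∃ (F : ι → Polynomial Ω) (ν : ι → ℕ → ℕ → Ω) (N : ℕ), (∀ j, F j ∈ PI B) ∧
      (∀ j c, Q (ν j c)) ∧ (∀ j c, N ≤ c → ν j c = fun _ => 0) ∧
      ∀ j c, Nul v fun i => (hasseDeriv (p ^ c) (x j i - F j)).eval z - ν j c i := by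
  classical
  have hp : p.Prime := Fact.out
  obtain ⟨N, b, m, e, s, G⟩ := exists_gd p hA hS hz R hD IH
  have hs : ∀ j c, s j c = 0 := fun j c => G.s_zero p hA hS hz R H1 hzP j c
  have h1 := H2 N m (fun j c => (G.spl j c).cau) (fun j c hcN => (G.zero j c hcN).2)
    (fun j c => ⟨fun l => cj (z ^ (p ^ (c + 1))) (φ j l), e j c, fun l => hS.pow _ (R.opr j l),
      G.mem j c, (G.rel j c).congr fun i => by
        rw [hs j c, map_zero, zero_mul, sub_zero]⟩)
  choose β₀ hβ₀ ν₀ hν₀ hβν₀ using h1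
  set β : ι → ℕ → Ω := fun j c => if c < N then β₀ j c else 0 with hβ
  set ν : ι → ℕ → ℕ → Ω := fun j c => if c < N then ν₀ j c else fun _ => 0 with hν
  have hβB : ∀ j c, β j c ∈ B := fun j c => by
    rw [hβ]
    dsimp only
    split_ifs
    exacts [hβ₀ j c, zero_mem B]
  have hβν : ∀ j c, Nul v fun i => m j c i - β j c - ν j c i := by
    intro j c
    rw [hβ, hν]
    dsimp only
    split_ifs with h
    · exact hβν₀ j c
    · rw [(G.zero j c (not_lt.1 h)).2]
      exact Nul.zero.congr fun i => by simp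
  set b' : ι → ℕ → Polynomial Ω := fun j c => b j c + Polynomial.C (β j c) with hb'
  have hb'B : ∀ j c, b' j c ∈ PI B := fun j c => add_mem (G.spl j c).mem (C_mem_PI (hβB j c))
  have hb'0 : ∀ j c, N ≤ c → b' j c = 0 := by
    intro j c hcN
    rw [hb', hβ]
    dsimp only
    rw [(G.zero j c hcN).1, if_neg (not_lt.2 hcN), Polynomial.C_0, add_zero]
  have hhas : ∀ j c a, hasseDeriv (p ^ a) (b' j c) = hasseDeriv (p ^ a) (b j c) := fun j c a => by
    rw [hb', map_add, hasseDeriv_C _ _ (pow_pos hp.pos a), add_zero]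
  have hint : ∀ j, ∃ F ∈ PI B, ∀ c, Gt v 0 ((hasseDeriv (p ^ c) F - b' j c).eval z) := by
    intro j
    refine int_lemma hz p (hb'B j) (hb'0 j) (fun c c' => ?_) (fun c => ?_)
    · rw [hhas, hhas]
      exact G.sym p hA hS hz R j c c'
    · obtain ⟨q, hq⟩ : ∃ q, p - 1 = q + 1 := ⟨p - 2, by have := hp.two_le; omega⟩
      have h2 := G.beta p hA hS hz R hs j c
      rw [hq, Function.iterate_succ_apply] at h2 ⊢
      rw [hhas]
      exact h2
  choose F hF hFb using hint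
  refine ⟨F, ν, N, hF, fun j c => ?_, fun j c hcN => ?_, fun j c => ?_⟩
  · rw [hν]
    dsimp only
    split_ifs
    exacts [hν₀ j c, hQ0]
  · rw [hν]
    dsimp only
    rw [if_neg (not_lt.2 hcN)]
  · have h2 := Nul.of_ge (v := v) (x := fun _ => (hasseDeriv (p ^ c) (F j) - b' j c).eval z)
      fun _ => (hFb j c).ge
    refine (((G.spl j c).nul.add (hβν j c)).sub h2).congr fun i => ?_
    rw [hb', map_sub, eval_sub, eval_sub, eval_add, eval_C]
    ring

end Pool.Agent.TWIV
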