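import Pool.Agent.Lib.TWIV.TameH
import Pool.Agent.Lib.TWIV.ExM2
import Pool.Agent.Lib.TWIV.ExitT
import Pool.Agent.Lib.TWF.Top4

/-!
# TANK W, class (IV): the tame leaf

* `FFTame p k`: the first floor in the tame case; `CorTs p k`: the core, in the complete fields
  with real monomials;
* `tameLeaf`: `TWF.TameLeaf p k` from `FFTame p k` and `CorTs p k`.
-/

set_option autoImplicit false

namespace Pool.Agent.TWIV

open Pool.Agent.H15JM (RVal)
open Pool.Agent.LU1 (adj)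
open Pool.Agent.D2 (Ctx0)
open Pool.Agent.D2P (clI mem_adj_self)
open Pool.Agent.TW (Ctx Full BD HRone full_of_alg)
open Pool.Agent.TWM (TL CompleteV Cld MS Dense cld_clI clI_adj_clI)
open Pool.Agent.TWC (CP towR_le towR_map vg_map)
open Pool.Agent.TWS (VG TowR PM IsoE RatV SphC HF hv)

universe u

/-- **Row F1.** -/
def FFTame (p : ℕ) (k : Type u) [Field k] : Prop :=
  ∀ (Ω H : Type u) [Field Ω] [Algebra k Ω] [Field H] [Algebra k H] [IsAlgClosed Ω] [IsAlgClosed H]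
    [CharP Ω p] [CharP H p] (v : RVal Ω) (w : RVal H), Ctx k v 1 → CompleteV v → Ctx0 k w →
    CompleteV w → ∀ φ : Ω →ₐ[k] H, IsoE v w φ → ∀ C₁ C : IntermediateField k Ω, C₁.FG →
    Full v C₁ → Algebra.trdeg k C₁ = (2 : ℕ) → BD p v C₁ → C = clI v C₁ →
    (¬ ∀ g ∈ VG v C, g / p ∈ VG v C) →
    ∃ x ∈ C, ∃ y ∈ C, ∃ s : ℝ, x ≠ 0 ∧ v x ≠ 0 ∧ v x / p ∉ VG v C ∧ C = CP (k := k) v x y ∧
      ∀ M : ℝ → H, MS w ⊤ M → M (v x) = φ x →
        TL w (PM w (⊥ : IntermediateField k H) ⊤ M) (φ y) s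

/-- **The core**, in the complete fields with real monomials. -/
def CorTs (p : ℕ) (k : Type u) [Field k] : Prop :=
  ∀ (H : Type u) [Field H] [Algebra k H] [IsAlgClosed H] [CharP H p] (w : RVal H), Ctx0 k w →
    CompleteV w → SphC w → (∀ ρ : ℝ, ∃ c : H, c ≠ 0 ∧ w c = ρ) → (∃ M : ℝ → H, MS w ⊤ M) →
    CorT k p w

section

variable (p : ℕ) [hp : Fact p.Prime] {k Ω : Type u} [Field k] [IsAlgClosed k] [CharP k p]
  [Field Ω] [Algebra k Ω] [IsAlgClosed Ω] [CharP Ω p] {v : RVal Ω} {K₀ : IntermediateField k Ω}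

/-- In rational rank one. -/
theorem ratV_of_ctx (h : Ctx k v 1) {L : IntermediateField k Ω} {x : Ω} (hx0 : x ≠ 0)
    (hx : v x ≠ 0) : RatV v L (v x) := by
  rintro g ⟨a, -, ha0, rfl⟩
  obtain ⟨q, hq⟩ := TWC.rat_mul_of_ctx h hx0 hx ha0
  refine ⟨q.den, q.den_nz, q.num, ?_⟩
  have hd : (q.den : ℝ) ≠ 0 := by exact_mod_cast q.den_nz
  have hqd : (q : ℝ) = q.num / q.den := by
    have := Rat.num_div_den q
    exact_mod_cast this.symm
  rw [hq, hqd]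
  field_simp

/-- The class `TmT` in the larger field. -/
theorem tmT_of_tw2 {H : Type u} [Field H] [Algebra k H] [IsAlgClosed H] {w : RVal H}
    (hF : FFTame p k) (h : Ctx k v 1) (hc : CompleteV v) (hw : Ctx0 k w) (hcw : CompleteV w)
    {φ : Ω →ₐ[k] H} (hI : IsoE v w φ) {L : IntermediateField k Ω}
    (hL : TWF.TW2 p k Ω v L) (hn : ¬ TWS7.PDiv p v L) : TmT p w (L.map φ) := by
  have : CharP H p := charP_of_injective_algebraMap (algebraMap k H).injective p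
  obtain ⟨C₁, C, hB, hT⟩ := hL
  have hvg : VG v L = VG v C := TWF.vg_tower hT
  have hnd : ¬ ∀ g ∈ VG v C, g / p ∈ VG v C := by
    rw [← hvg]
    exact fun h1 => hn (TW.pdiv_iff_vg.2 h1)
  obtain ⟨x, hx, y, hy, s, hx0, hxv, hxp, hC, hTL⟩ := hF Ω H v w h hc hw hcw φ hI C₁ C hB.fg
    hB.full hB.tr hB.bd hB.eq hnd
  have hCL : C ≤ L := towR_le hT
  have hval : w (φ x) = v x := hI.val x hx0
  refine ⟨φ x, φ y, s, ⟨?_, ?_, ?_, ?_, ?_, ?_⟩, ?_, ?_⟩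
  · exact (hI.cld_iff hc).2 hT.cld
  · exact ⟨x, hCL hx, rfl⟩
  · exact (map_ne_zero_iff φ φ.injective).2 hx0
  · rw [hval]
    exact hxv
  · rw [hval, vg_map hI, hvg]
    exact hxp
  · rw [hval]
    rintro g hg
    rw [vg_map hI] at hg
    exact ratV_of_ctx h hx0 hxv g hg
  · have e1 : TWM.cadj w (TWM.cadj w (⊥ : IntermediateField k H) (φ x)) (φ y) = C.map φ := by
      rw [hC, CP, ← IntermediateField.map_bot φ, hI.cadj_map hc, hI.cadj_map hc]
    rw [e1]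
    exact towR_map hI hc hT
  · intro M hM hMx
    rw [hval] at hMx
    exact hTL M hM hMx

end

/-- **The tame leaf.** -/
theorem tameLeaf (p : ℕ) [Fact p.Prime] (k : Type u) [Field k] [IsAlgClosed k] [CharP k p]
    (hF : FFTame p k) (hT : CorTs p k) : TWF.TameLeaf p k := by
  intro Ω _ _ _ _ v hc K₀ hK hΩ htr hBDK hH hL hlow hQ g hgK hg hBD
  left
  obtain ⟨hn, Ω', iF, iA, ι, v', iC, h2, h3, h4⟩ := hQ
  have hp : 0 < p := (Fact.out : p.Prime).pos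
  have : CharP Ω' p := Dense.charP ι p
  have hc' : Ctx k v' 1 := h3.ctx hc
  obtain ⟨φ, hφ⟩ := TWS.exists_emb hc'.toCtx0
  have hI : IsoE v' (hv k) φ := ⟨hφ⟩
  have : CharP (HF k) p := charP_of_injective_algebraMap (algebraMap k (HF k)).injective p
  have hn' : ¬ TWS7.PDiv p v' (clI v' (K₀.map ι)) := fun h5 => hn (TW.pdiv_clI_map h3 h5)
  have h5 := tmT_of_tw2 p hF hc' h2 (TWS.ctx0_hv k) (TWS.completeV_hv k) hI h4 hn'
  have hex : ExM k p (hv k) := fun L x u M M' h6 h7 h8 h9 h10 h11 h12 h13 =>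
    exch_mon p (TWS.ctx0_hv k) (TWS.completeV_hv k) h6 h7 h8 h9 h10 h11 h12 h13
  obtain ⟨G, M, g₀, hM, hg₀, hg0, h6⟩ := tame_H (TWS.ctx0_hv k) (TWS.completeV_hv k)
    ⟨_, TWS.ms_hv k⟩ hex (hT (HF k) (hv k) (TWS.ctx0_hv k) (TWS.completeV_hv k)
    (TWS.sphC_hv k) (TWS.exists_val k) ⟨_, TWS.ms_hv k⟩) h5 (g := φ (ι g))
    ⟨(ι g) ^ p, TWM.le_clI _ ⟨g ^ p, hg, map_pow ι g p⟩, map_pow φ (ι g) p⟩
  refine hrone_of_monc p hc (m := 2) le_rfl (D2P.fg_adj hK g)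
    ((full_of_alg hΩ).mono (mem_adj_self K₀ g).2) ?_ hBD
    ⟨Ω', iF, iA, ι, v', iC, HF k, inferInstance, inferInstance, inferInstance, φ, hv k, h2, h3,
      TWS.ctx0_hv k, TWS.completeV_hv k, hI, G, M, hM, ⟨g₀, hg₀, hg0⟩, ?_⟩
  · refine (TW.trdeg_eq_of_alg (mem_adj_self K₀ g).2 (D2P.isAlgebraic_sup {g} ?_)).trans htr
    rintro s rfl
    exact D2P.isAlgebraic_of_pow hp (D2P.isAlgebraic_of_mem hg)
  · have e1 : clI (hv k) (adj ((clI v' (K₀.map ι)).map φ) (φ (ι g))) =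
        clI (hv k) (((adj K₀ g).map ι).map φ) := by
      rw [← TWM.Dense.adj_map, hI.clI_map h2, hI.clI_map h2, TWM.Dense.adj_map]
      congr 1
      exact clI_adj_clI
    rw [← e1]
    exact h6

end Pool.Agent.TWIV
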