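import Pool.Agent.Lib.TWIV.FgL
import Pool.Agent.Lib.TWIV.TorM

/-!
# TANK W: exact torsion letters

`E` is the closure of the union of the `E ∩ W^(1/p^M)`.
* `LimR v W p n x`: `x` is a limit of `W^(1/p^n)` up to `0`;
* `exists_torX`: if `u ^ p ≡ u` modulo `E + O` and `u` is a limit of `W^(1/p^n)` then there is a
  limit `t` of `W` with `t ≡ u` modulo `E + O` and `t ^ p - t ∈ W`;
* `exists_fgX`: a finitely generated module of limits of `W^(1/p^n)` has a basis of free letters and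
  of torsion letters `t j`, limits of `W` with `t j ^ p - t j ∈ W`.
-/

set_option autoImplicit false
set_option linter.unusedSectionVars false

open Polynomial

namespace Pool.Agent.TWIV

open Pool.Agent.H15JM (RVal)
open Pool.Agent.LU1 (VPos adj)
open Pool.Agent.D2 (Ctx0)
open Pool.Agent.TWM Pool.Agent.TWC

universe u

variable {k Ω : Type u} [Field k] [Field Ω] [Algebra k Ω] {v : RVal Ω}
  {W E : IntermediateField k Ω} {p : ℕ}

/-- `x` is a limit of `W^(1/p^n)` up to `0`. -/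
def LimR (v : RVal Ω) (W : IntermediateField k Ω) (p n : ℕ) (x : Ω) : Prop :=
  ∀ ε : ℝ, 0 < ε → ∃ b : Ω, b ^ p ^ n ∈ W ∧ v.Ge (-ε) (x - b)

section Tor

variable [hp : Fact p.Prime] [CharP Ω p] {n : ℕ} {x y u : Ω}

theorem torX_mem {b : Ω} {n m : ℕ} (hnm : n ≤ m) (hb : b ^ p ^ n ∈ W) : b ^ p ^ m ∈ W := by
  obtain ⟨d, rfl⟩ := Nat.exists_eq_add_of_le hnm
  rw [pow_add, pow_mul]
  exact pow_mem hb _

omit [CharP Ω p] hp in
theorem LimR.mono {n m : ℕ} (hnm : n ≤ m) (h : LimR v W p n x) : LimR v W p m x := by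
  intro ε hε
  obtain ⟨b, hb, h1⟩ := h ε hε
  refine ⟨b, ?_, h1⟩
  obtain ⟨d, rfl⟩ := Nat.exists_eq_add_of_le hnm
  rw [pow_add, pow_mul]
  exact pow_mem hb _

theorem LimR.add (hx : LimR v W p n x) (hy : LimR v W p n y) : LimR v W p n (x + y) := by
  intro ε hε
  obtain ⟨a, ha, h1⟩ := hx ε hε
  obtain ⟨b, hb, h2⟩ := hy ε hε
  refine ⟨a + b, ?_, ?_⟩
  · rw [add_pow_char_pow]
    exact add_mem ha hb
  · rw [add_sub_add_comm]
    exact h1.add h2

theorem LimR.sum {ι : Type*} (S : Finset ι) {x : ι → Ω} (hx : ∀ i ∈ S, LimR v W p n (x i)) :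
    LimR v W p n (∑ i ∈ S, x i) := by
  classical
  induction S using Finset.induction_on with
  | empty =>
    intro ε _
    refine ⟨0, ?_, ?_⟩
    · rw [zero_pow (pow_pos hp.out.pos n).ne']
      exact zero_mem W
    · rw [Finset.sum_empty, sub_zero]
      exact RVal.Ge.zero
  | insert i S hi ih =>
    rw [Finset.sum_insert hi]
    exact (hx i (Finset.mem_insert_self i S)).add
      (ih fun j hj => hx j (Finset.mem_insert_of_mem hj))

theorem LimR.op (hk : Ctx0 k v) (hx : LimR v W p n x) (f : k[X]) : LimR v W p n (op p f x) := by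
  have hp0 : (0 : ℝ) < p := by exact_mod_cast hp.out.pos
  intro ε hε
  have hq : (0 : ℝ) < (p : ℝ) ^ f.natDegree := pow_pos hp0 _
  obtain ⟨a, ha, h1⟩ := hx (ε / (p : ℝ) ^ f.natDegree) (div_pos hε hq)
  refine ⟨TWIV.op p f a, ?_, ?_⟩
  · rw [op_eq, sum_pow_char_pow]
    refine sum_mem fun i _ => ?_
    rw [mul_pow, ← map_pow]
    refine mul_mem (W.algebraMap_mem _) ?_
    rw [← pow_mul, mul_comm, pow_mul]
    exact pow_mem ha _
  · rw [← op_sub_right]
    refine (op_ge (p := p) hk f (by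
      have := div_pos hε hq
      linarith) h1).mono (le_of_eq ?_)
    field_simp

theorem LimR.sub_ge (hx : LimR v W p n x) {o : Ω} (ho : v.Ge 0 o) : LimR v W p n (x - o) := by
  intro ε hε
  obtain ⟨b, hb, h1⟩ := hx ε hε
  refine ⟨b, hb, ?_⟩
  have h2 : v.Ge (-ε) o := ho.mono (by linarith)
  have h3 := h1.sub h2
  refine Eq.mp (congrArg (fun w => v.Ge (-ε) w) ?_) h3
  ring

omit [CharP Ω p] in
/-- The roots of `r ^ p - r = o`. -/
theorem torX_ge {r o : Ω} (h : r ^ p - r = o) (ho : v.Ge 0 o) : v.Ge 0 r := by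
  intro hr0
  by_contra hneg
  push Not at hneg
  have hp1 : (1 : ℝ) < p := by exact_mod_cast hp.out.one_lt
  have h1 : v (r ^ p) = p * v r := v.map_pow hr0 p
  have h2 : v (r ^ p) < v (-r) := by
    rw [h1, v.map_neg r hr0]
    nlinarith
  have h3 := v.add_of_lt (pow_ne_zero p hr0) (neg_ne_zero.2 hr0) h2
  rw [← sub_eq_add_neg, h] at h3
  have h4 := ho h3.1
  rw [h3.2, h1] at h4
  nlinarith

theorem torX_iter (b : Ω) (u : Ω) (h : u ^ p - u = b) (M : ℕ) :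
    (u ^ p ^ M) ^ p - u ^ p ^ M = b ^ p ^ M := by
  rw [← h, sub_pow_char_pow, ← pow_mul, ← pow_mul, mul_comm]

theorem torX_sub {b u : Ω} (hb : b ∈ E) (h : u ^ p - u = b) (M : ℕ) : u ^ p ^ M - u ∈ E := by
  induction M with
  | zero =>
    rw [pow_zero, pow_one, sub_self]
    exact zero_mem E
  | succ M ih =>
    have h1 : u ^ p ^ (M + 1) - u = ((u ^ p ^ M) ^ p - u ^ p ^ M) + (u ^ p ^ M - u) := by
      rw [pow_succ, pow_mul]
      ring
    rw [h1, torX_iter b u h M]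
    exact add_mem (pow_mem hb _) ih

/-- **Exact torsion letters.** -/
theorem exists_torX [IsAlgClosed Ω]
    (hd : ∀ a ∈ E, ∀ r : ℝ, ∃ (M : ℕ) (b : Ω), b ∈ E ∧ b ^ p ^ M ∈ W ∧ v.Ge r (a - b))
    (hu : LimR v W p n u) (hf : Nr v E 0 (u ^ p - u)) :
    ∃ t, Lim v W 0 t ∧ Nr v E 0 (t - u) ∧ t ^ p - t ∈ W := by
  obtain ⟨e, he, h1⟩ := hf
  obtain ⟨M₀, b, hb, hbW, h2⟩ := hd e he 0
  have ho : v.Ge 0 (u ^ p - u - b) := by
    have h3 := h1.add h2
    rwa [sub_add_sub_cancel] at h3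
  -- the root
  obtain ⟨r, hr⟩ : ∃ r : Ω, r ^ p - r = u ^ p - u - b := by
    have hd1 : (X + C (u ^ p - u - b) : Polynomial Ω).degree < (X ^ p : Polynomial Ω).degree := by
      rw [degree_X_add_C, degree_X_pow]
      exact_mod_cast hp.out.one_lt
    have hd2 : (X ^ p - (X + C (u ^ p - u - b)) : Polynomial Ω).degree ≠ 0 := by
      rw [degree_sub_eq_left_of_degree_lt hd1, degree_X_pow]
      exact_mod_cast hp.out.ne_zero
    obtain ⟨t, ht⟩ := IsAlgClosed.exists_root _ hd2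
    refine ⟨t, ?_⟩
    rw [IsRoot.def] at ht
    simp only [eval_sub, eval_pow, eval_X, eval_add, eval_C] at ht
    rw [sub_eq_zero] at ht
    rw [ht]
    ring
  have hr0 : v.Ge 0 r := torX_ge hr ho
  have hu' : (u - r) ^ p - (u - r) = b := by
    rw [sub_pow_char]
    have h3 : u ^ p - r ^ p - (u - r) = (u ^ p - u) - (r ^ p - r) := by ring
    rw [h3, hr]
    ring
  set M := max M₀ n with hM
  have hbM : b ^ p ^ M ∈ W := torX_mem (le_max_left _ _) hbW
  refine ⟨(u - r) ^ p ^ M, ?_, ?_, ?_⟩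
  · intro ε hε
    have hpM : (0 : ℝ) < (p : ℝ) ^ M := pow_pos (by exact_mod_cast hp.out.pos) _
    obtain ⟨c, hc, h3⟩ := ((hu.sub_ge hr0).mono (le_max_right M₀ n)) (ε / (p : ℝ) ^ M)
      (div_pos hε hpM)
    refine ⟨c ^ p ^ M, hc, ?_⟩
    rw [← sub_pow_char_pow]
    intro h4
    have h5 : (u - r) - c ≠ 0 := fun h6 => h4 (by rw [h6, zero_pow (pow_pos hp.out.pos M).ne'])
    rw [v.map_pow h5]
    have h6 := h3 h5
    push_cast
    have h7 : (p : ℝ) ^ M * (-(ε / (p : ℝ) ^ M)) = 0 - ε := by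
      field_simp
      ring
    rw [← h7]
    exact mul_le_mul_of_nonneg_left h6 hpM.le
  · refine ⟨(u - r) ^ p ^ M - (u - r), torX_sub hb hu' M, ?_⟩
    have h3 : (u - r) ^ p ^ M - u - ((u - r) ^ p ^ M - (u - r)) = -r := by ring
    rw [h3]
    exact hr0.neg
  · rw [torX_iter b (u - r) hu' M]
    exact hbM

/-- **The structure of a finitely generated module of limits of `W^(1/p^n)`.** -/
theorem exists_fgX [IsAlgClosed k] [CharP k p] [IsAlgClosed Ω] (hk : Ctx0 k v) (hWE : W ≤ E)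
    (hE : ∀ a ∈ E, ∃ b ∈ E, b ^ p = a)
    (hd : ∀ a ∈ E, ∀ r : ℝ, ∃ (M : ℕ) (b : Ω), b ∈ E ∧ b ^ p ^ M ∈ W ∧ v.Ge r (a - b))
    (hdW : ∀ b : Ω, b ^ p ^ n ∈ W → b ∈ E) {ι : Type} [Fintype ι] (z : ι → Ω)
    (hz : ∀ i, LimR v W p n (z i)) :
    ∃ (m r : ℕ) (s : Fin m → Ω) (t : Fin r → Ω), (∀ i, Sp (k := k) p z (s i)) ∧
      (∀ i, LimR v W p n (s i)) ∧ (∀ j, Lim v W 0 (t j)) ∧ (∀ j, t j ^ p - t j ∈ W) ∧
      FreT p v E s t ∧ ∀ l, ∃ (Q : Fin m → k[X]) (a : Fin r → k),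
        Nr v E 0 (z l - ∑ i, op p (Q i) (s i) - ∑ j, algebraMap k Ω (a j) * t j) := by
  have hSp : ∀ x, Sp (k := k) p z x → LimR v W p n x := by
    rintro x ⟨P, rfl⟩
    exact LimR.sum _ fun i _ => (hz i).op hk (P i)
  have hlim : ∀ x, LimR v W p n x → Lim v E 0 x := by
    intro x hx ε hε
    obtain ⟨b, hb, h1⟩ := hx ε hε
    exact ⟨b, hdW b hb, by rwa [zero_sub]⟩
  obtain ⟨m, r, s, u, hs, hu, hfu, hfree, hz'⟩ := exists_fg (p := p) hk hE z
  have h1 : ∀ j, ∃ t, Lim v W 0 t ∧ Nr v E 0 (t - u j) ∧ t ^ p - t ∈ W := fun j =>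
    exists_torX hd (hSp _ (hu j)) (hfu j)
  choose t ht1 ht2 ht3 using h1
  have hdiff : ∀ a : Fin r → k, Nr v E 0 (∑ j, algebraMap k Ω (a j) * t j - ∑ j, a j • u j) := by
    intro a
    choose e he ho using ht2
    refine ⟨∑ j, algebraMap k Ω (a j) * e j,
      sum_mem fun j _ => mul_mem (E.algebraMap_mem _) (he j), ?_⟩
    rw [← Finset.sum_sub_distrib, ← Finset.sum_sub_distrib]
    refine RVal.Ge.sum _ _ fun j _ => ?_
    rw [Algebra.smul_def, ← mul_sub, ← mul_sub]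
    have h2 := (hk.ge (a j)).mul (ho j)
    rwa [zero_add] at h2
  refine ⟨m, r, s, t, hs, fun i => hSp _ (hs i), ht1, ht3, ⟨fun i => hlim _ (hSp _ (hs i)),
    fun j => (ht1 j).mono hWE, fun j => hWE (ht3 j), ?_⟩, ?_⟩
  · intro c a h2
    refine hfree c a ?_
    obtain ⟨e, he, h3⟩ := h2
    obtain ⟨e', he', h4⟩ := hdiff a
    refine ⟨e - e', sub_mem he he', ?_⟩
    have h5 := h3.sub h4
    refine Eq.mp (congrArg (fun w => v.Ge 0 w) ?_) h5
    ring
  · intro l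
    obtain ⟨Q, a, e, he, h2⟩ := hz' l
    obtain ⟨e', he', h4⟩ := hdiff a
    refine ⟨Q, a, e - e', sub_mem he he', ?_⟩
    have h5 := h2.sub h4
    refine Eq.mp (congrArg (fun w => v.Ge 0 w) ?_) h5
    ring

end Tor

end Pool.Agent.TWIV
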