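import Pool.Agent.Lib.TWIV.W2S
import Pool.Agent.Lib.TWIV.S6G

/-!
# TANK W, leaf (IV): FV(y; z)

* `hmix_of`: the black box `HMix` of `W2S` from `STO.spl`;
* `Can.not_inBE`: canonicity in the form of `W2S`;
* `fv2s`, `fv2c`: the systems over `E⟨y⟩⟨z⟩` split;
* `fv2`: FV(y; z) for an element.
-/

set_option autoImplicit false
set_option linter.unusedSectionVars false

open Polynomial

namespace Pool.Agent.TWIV

open Pool.Agent.H15JM (RVal)
open Pool.Agent.D2 (Ctx0)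
open Pool.Agent.TWM Pool.Agent.TWC

universe u

variable {k Ω : Type u} [Field k] [Field Ω] [Algebra k Ω] {v : RVal Ω} [hc : Fact (Ctx0 k v)]
  {E : IntermediateField k Ω} {y z : Ω} {𝒜 : Submodule k (Module.End k Ω)} {RR : Submodule k Ω}
  (p : ℕ) [Fact p.Prime] [CharP k p] [CharP Ω p] [PerfectRing k p] [IsAlgClosed Ω]

/-- The hypotheses of FV(y; z). -/
structure FV2 (p : ℕ) [Fact p.Prime] [CharP k p] [CharP Ω p] (v : RVal Ω)
    (𝒜 : Submodule k (Module.End k Ω)) (E : IntermediateField k Ω) (y z : Ω)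
    (RR : Submodule k Ω) : Prop where
  op : OpA v 𝒜
  sy : Stb 𝒜 E y
  sz : Stb 𝒜 (cadj v E y) z
  ty : TL v E y 0
  tz : TL v (cadj v E y) z 0
  res : ResR v (cadj v (cadj v E y) z)
  can : Can p v E (cadj v E y) z
  perf : Perf p E
  tor : HTor p v 𝒜 E
  h1 : H1 p v E 𝒜
  hom : ∀ ε : ℝ, 0 < ε → ∃ g ∈ PI E, (∀ i, Hg z 𝒜 (g.coeff i * y ^ i)) ∧ v.Ge (-ε) (z - g.eval y)
  rr : RRd p E y 𝒜 RR
  rad : ∀ r ∈ RR, Lim v (cadj v E y) 0 r → ∃ b ∈ cadj v E y, ∃ a, Lim v E 0 a ∧ v.Ge 0 (r - b - a)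

/-- The black box of `W2S`. -/
theorem FV2.mix (F : FV2 p v 𝒜 E y z RR) : HMix p v 𝒜 E y z := by
  intro ι _ D N x φ f w M j
  exact STO.spl p F.op F.sy F.sz F.ty F.tz F.res F.can F.perf F.h1 M.sy.opr F.hom F.rr F.rad
    (X := x) (f := f) (w := w) (N := N)
    ⟨M.sy.pc, M.sy.mem, M.cau, fun j i hi => by rw [M.zero j i hi]; exact Nul.zero, M.jet,
      M.sy.rel⟩ M.deg j

/-- Canonicity. -/
theorem Can.not_inBE (hz : TL v (cadj v E y) z 0) (h : Can p v E (cadj v E y) z) :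
    ¬ InBE v (cadj v E y) E (zs hz : ℕ → Ω) := by
  rintro ⟨β, hβ, ν, hν, h1⟩
  have h2 : Lim v E 0 (ly p z (C (1 : k)) + -β) := by
    rw [ly_C, map_one, one_mul]
    refine Lim.of_nul hν.mem (((zs_nul hz).add h1).congr fun n => ?_)
    ring
  exact one_ne_zero (C_injective ((h _ _ (neg_mem hβ) h2).trans C_0.symm))

/-- FV(y; z) for systems. -/
theorem FV2.spl (F : FV2 p v 𝒜 E y z RR) {ι : Type} [Fintype ι]
    {x : ι → ℕ → Polynomial Ω} {φ : ι → ι → Module.End k Ω} {f : ι → Polynomial Ω}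
    (R : Sy p v 𝒜 (cadj v E y) z x φ f) (j : ι) : ∃ b m, Spl v (cadj v E y) z (x j) b m :=
  w2s p F.op F.sy F.sz F.ty F.tz F.perf F.tor (F.can.not_inBE p F.tz) (F.mix p) R j

/-- FV(y; z) for dominated families. -/
theorem FV2.cau (F : FV2 p v 𝒜 E y z RR) {κ : Type} [Fintype κ] {m : κ → ℕ → Ω}
    (hm : ∀ l, Cau v (cadj v (cadj v E y) z) (m l))
    (hd : ∀ l, Dm v 𝒜 (cadj v (cadj v E y) z) m fun n => m l n ^ p) (l : κ) :
    InBE v (cadj v (cadj v E y) z) (cadj v E y) (m l) :=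
  w2c p F.op F.sy F.sz F.ty F.tz F.perf F.tor (F.can.not_inBE p F.tz) (F.mix p) hm hd l

/-- **FV(y; z)** for an element. -/
theorem FV2.fv (F : FV2 p v 𝒜 E y z RR) {φ : Module.End k Ω} (hφ : φ ∈ 𝒜) {Y : Ω}
    (hY : Lim v (cadj v (cadj v E y) z) 0 Y)
    (hr : Nr v (cadj v (cadj v E y) z) 0 (Y ^ p - φ Y)) :
    ∃ g ∈ cadj v (cadj v E y) z, Lim v (cadj v E y) 0 (Y - g) := by
  obtain ⟨m, hm, h1⟩ := Lim.exists_cau hY
  obtain ⟨e, he, h2⟩ := hr
  obtain ⟨β, hβ, ν, hν, h3⟩ := F.cau p (κ := Unit) (m := fun _ => m) (fun _ => hm) (fun _ => by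
    refine ⟨fun _ => φ, e, fun _ => hφ, he, ?_⟩
    have h4 : Nul v fun n => (Y - m n) ^ p := h1.pow p
    have h5 : Nul v fun n => φ (Y - m n) := F.op.nul hφ h1
    refine (((Nul.const_iff.2 h2).sub h4).add h5).congr fun n => ?_
    simp only [map_sub, Finset.univ_unique, Finset.sum_singleton, sub_pow_char]
    ring) ()
  refine ⟨β, hβ, Lim.of_nul hν.mem ((h1.add h3).congr fun n => ?_)⟩
  ring

end Pool.Agent.TWIV
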