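import Pool.Agent.Lib.TWIV.W3
import Pool.Agent.Lib.TWC.B2
import Pool.Agent.Lib.TWC.GCls

/-!
# TANK W, tame case, row A2: the floors `E` and `E⟨z⟩`

* `World.pj0_memN`, `pj0_memL`: the projection `π_0`; `lim_pj`;
* `World.fv_zero`: `Y ∈ L(E)`, `Y ^ p - π_0 Y ∈ E + O` imply `Y ∈ E + O`;
* `World.fv_one`: `Y ∈ L(E⟨z⟩)`, `Y ^ p - π_0 Y ∈ E⟨z⟩ + O` imply `Y ∈ E⟨z⟩ + L(E)`,
  `z = M δ * u` homogeneous.
-/

set_option autoImplicit false
set_option linter.unusedSectionVars false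

open Polynomial

namespace Pool.Agent.TWIV

open Pool.Agent.H15JM (RVal)
open Pool.Agent.LU1 (VPos adj)
open Pool.Agent.D2 (Ctx0)
open Pool.Agent.D2P (hen clI mem_clI)
open Pool.Agent.TWM Pool.Agent.TWC Pool.Agent.TWS

universe u

variable {k Ω : Type u} [Field k] [Field Ω] [Algebra k Ω] {v : RVal Ω} [Fact (Ctx0 k v)]
  {N L A B : IntermediateField k Ω} {G : AddSubgroup ℝ} {M : ℝ → Ω} {p : ℕ}

namespace World

variable (W : World p v N L G M) (hΩ : CompleteV v)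

include W in
theorem PM0 (hNA : N ≤ A) (hA : Cld v A) : PM v A (Gj p v N G 0) M = A := by
  refine le_antisymm (PM.le_of hA le_rfl fun g hg => ?_) PM.le
  have h1 := hg.2
  rw [pow_zero, one_mul] at h1
  exact hNA (W.mon.mem g hg.1 h1)

theorem pj0_memN {x : Ω} (hx : x ∈ PM v N G M) : W.pj hΩ 0 x ∈ N := by
  have h := (W.isPj hΩ 0).sub N le_rfl W.NL W.cldN x hx
  rwa [W.PM0 le_rfl W.cldN] at h

theorem pj0_memL {x : Ω} (hx : x ∈ PM v L G M) : W.pj hΩ 0 x ∈ L := by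
  have h := (W.isPj hΩ 0).sub L W.NL le_rfl W.cldL x hx
  rwa [W.PM0 W.NL W.cldL] at h

theorem pj0_self {x : Ω} (hx : x ∈ L) : W.pj hΩ 0 x = x := by
  refine (W.isPj hΩ 0).prj.self x ?_
  rwa [W.PM0 W.NL W.cldL]

theorem pj0_lin {c x : Ω} (hc : c ∈ L) (hx : x ∈ PM v L G M) :
    W.pj hΩ 0 (c * x) = c * W.pj hΩ 0 x := by
  refine (W.isPj hΩ 0).prj.lin c ?_ x hx
  rwa [W.PM0 W.NL W.cldL]

include W in
/-- `E` and `LE`. -/
theorem E_le_T : PM v N G M ≤ PM v L G M := PM.mono W.NL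

theorem lim_pj (j : ℕ) {x : Ω} {r : ℝ} (hx : x ∈ PM v L G M) (hl : Lim v (PM v N G M) r x) :
    Lim v (PM v N (Gj p v N G j) M) r (W.pj hΩ j x) := by
  intro ε hε
  obtain ⟨e, he, h⟩ := hl ε hε
  refine ⟨_, (W.isPj hΩ j).sub N le_rfl W.NL W.cldN e he, ?_⟩
  rw [← (W.isPj hΩ j).prj.sub hx (W.E_le_T he)]
  exact (W.isPj hΩ j).prj.ge _ (sub_mem hx (W.E_le_T he)) _ h

theorem lim_pj0 {x : Ω} {r : ℝ} (hx : x ∈ PM v L G M) (hl : Lim v (PM v N G M) r x) :
    Lim v N r (W.pj hΩ 0 x) := by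
  have h := W.lim_pj hΩ 0 hx hl
  rwa [W.PM0 le_rfl W.cldN] at h

section Char

variable [Fact p.Prime] [CharP k p] [CharP Ω p] [PerfectRing k p] [IsAlgClosed Ω]

theorem fn_negq {x : Ω} (hx : x ∈ PM v N G M) :
    fn ((-1 : k) • W.qj hΩ N le_rfl W.NL W.cldN 0) x = -(x - W.pj hΩ 0 x) := by
  rw [fn_of_mem _ hx]
  change (-1 : k) • (x - W.pj hΩ 0 x) = _
  rw [neg_smul, one_smul]

/-- **The floor `0`.** -/
theorem fv_zero {Y : Ω} (hY : Y ∈ PM v L G M) (hl : Lim v (PM v N G M) 0 Y)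
    (h : Nr v (PM v N G M) 0 (Y ^ p - W.pj hΩ 0 Y)) : Nr v (PM v N G M) 0 Y := by
  obtain ⟨f, hf, h1⟩ := h
  obtain ⟨m, hm, hmn⟩ := Lim.exists_cau hl
  let x : Unit → CauS v (PM v N G M) := fun _ => ⟨m, hm⟩
  have hP := (W.isPj hΩ 0).prj
  have h2 : ∀ i, W.pj hΩ 0 (Y - m i) = W.pj hΩ 0 Y - W.pj hΩ 0 (m i) := fun i =>
    hP.sub hY (W.E_le_T (hm.mem i))
  have h3 : Nul v fun i => W.pj hΩ 0 Y - W.pj hΩ 0 (m i) := by
    intro ε hε
    obtain ⟨n, hn⟩ := hmn ε hε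
    refine ⟨n, fun i hi => ?_⟩
    change v.Ge (-ε) (W.pj hΩ 0 Y - W.pj hΩ 0 (m i))
    rw [← h2]
    exact hP.ge _ (sub_mem hY (W.E_le_T (hm.mem i))) _ (hn i hi)
  obtain ⟨a, ha, h4⟩ := W.pj_lim hΩ (b := 1) (lam := fun _ _ _ => 1)
    (ψ := fun _ _ _ => (-1 : k) • W.qj hΩ N le_rfl W.NL W.cldN 0)
    (fun _ _ _ => Submodule.smul_mem _ _ (W.qj_mem_TT hΩ 0)) x (e := fun _ => f) (fun _ => hf) (fun _ => by
      have h5 := ((Nul.of_ge (v := v) (x := fun _ => Y ^ p - W.pj hΩ 0 Y - f) fun _ => h1).sub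
        ((hmn.pow p).sub h3))
      refine h5.congr fun i => ?_
      have h6 := W.fn_negq hΩ (hm.mem i)
      rw [pow_one, Finset.sum_range_one, pow_zero, pow_one, Fintype.sum_unique]
      simp only [x]
      rw [h6, one_smul, sub_pow_char]
      ring) 0 ()
  have h5 : v.Ge 0 (W.pj hΩ 0 Y - a) := by
    refine Nul.const ((h3.add h4).congr fun i => ?_)
    simp only [x]
    ring
  obtain ⟨b, hb, hbp⟩ := W.perfE _ (add_mem ha hf)
  refine ⟨b, hb, ?_⟩
  have h6 : v.Ge 0 ((Y - b) ^ p) := by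
    rw [sub_pow_char, hbp]
    have h7 := h1.add h5
    have h8 : Y ^ p - (a + f) = Y ^ p - W.pj hΩ 0 Y - f + (W.pj hΩ 0 Y - a) := by ring
    rwa [h8]
  exact Nul.const (Nul.of_pow (Fact.out : p.Prime).ne_zero (Nul.of_ge fun _ => h6))

end Char

/-! ### The projection of the polynomials -/

/-- The projection of the polynomials in `z = M δ * u`. -/
noncomputable def twc (δ : ℝ) (f : Polynomial Ω) : Polynomial Ω :=
  ∑ j ∈ f.support, monomial j (M (-(j * δ)) * W.pj hΩ 0 (f.coeff j * M (j * δ)))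

theorem coeff_twc (δ : ℝ) (f : Polynomial Ω) (j : ℕ) :
    (W.twc hΩ δ f).coeff j = M (-(j * δ)) * W.pj hΩ 0 (f.coeff j * M (j * δ)) := by
  rw [twc, finsetSum_coeff]
  simp only [coeff_monomial]
  rw [Finset.sum_ite_eq' f.support j]
  split_ifs with h
  · rfl
  · rw [notMem_support_iff.1 h, zero_mul, (W.isPj hΩ 0).prj.zero, mul_zero]

theorem natDegree_twc (δ : ℝ) (f : Polynomial Ω) {n : ℕ} (h : f.natDegree ≤ n) :
    (W.twc hΩ δ f).natDegree ≤ n := by
  rw [natDegree_le_iff_coeff_eq_zero]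
  intro j hj
  rw [W.coeff_twc hΩ, coeff_eq_zero_of_natDegree_lt (by omega), zero_mul,
    (W.isPj hΩ 0).prj.zero, mul_zero]

include W in
theorem natG {δ : ℝ} (hδ : δ ∈ G) (j : ℕ) : (j : ℝ) * δ ∈ G := by
  have := G.nsmul_mem hδ j
  rwa [nsmul_eq_mul] at this

include W in
theorem M_neg_mul {g : ℝ} (hg : g ∈ G) : M (-g) * M g = 1 := by
  rw [← W.ms.mul _ (G.neg_mem hg) _ hg, neg_add_cancel, W.ms.zero]

theorem twc_mem {δ : ℝ} (hδ : δ ∈ G) {f : Polynomial Ω} (hf : f ∈ PI (PM v N G M)) :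
    W.twc hΩ δ f ∈ PI (PM v N G M) := fun j => by
  rw [W.coeff_twc hΩ]
  exact mul_mem (PM.mon (G.neg_mem (W.natG hδ j)))
    (PM.le (W.pj0_memN hΩ (mul_mem (hf j) (PM.mon (W.natG hδ j)))))

variable {z u : Ω} {δ : ℝ}

include W in
theorem z_pow (hδ : δ ∈ G) (hzu : z = M δ * u) (j : ℕ) : z ^ j = M (j * δ) * u ^ j := by
  rw [hzu, mul_pow, W.ms.pow hδ j]

theorem eval_twc (hδ : δ ∈ G) (hu : u ∈ L) (hzu : z = M δ * u) {f : Polynomial Ω}
    (hf : f ∈ PI (PM v N G M)) : (W.twc hΩ δ f).eval z = W.pj hΩ 0 (f.eval z) := by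
  have hmem : ∀ j, f.coeff j * M (j * δ) ∈ PM v L G M := fun j =>
    mul_mem (W.E_le_T (hf j)) (PM.mon (W.natG hδ j))
  have h1 : ∀ j, f.coeff j * z ^ j = u ^ j * (f.coeff j * M (j * δ)) := fun j => by
    rw [W.z_pow hδ hzu]
    ring
  rw [twc, eval_finsetSum, eval_eq_sum, Polynomial.sum_def]
  rw [(W.isPj hΩ 0).prj.sum _ fun j _ => by
    rw [h1]
    exact mul_mem (PM.le (pow_mem hu j)) (hmem j)]
  refine Finset.sum_congr rfl fun j _ => ?_
  rw [h1, W.pj0_lin hΩ (pow_mem hu j) (hmem j), eval_monomial, W.z_pow hδ hzu]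
  have h2 := W.M_neg_mul (W.natG hδ j)
  calc M (-(j * δ)) * W.pj hΩ 0 (f.coeff j * M (j * δ)) * (M (j * δ) * u ^ j)
      = (M (-(j * δ)) * M (j * δ)) * (u ^ j * W.pj hΩ 0 (f.coeff j * M (j * δ))) := by ring
    _ = _ := by rw [h2, one_mul]

theorem hasse_twc (hδ : δ ∈ G) {f : Polynomial Ω} (hf : f ∈ PI (PM v N G M)) (l : ℕ) :
    hasseDeriv l (W.twc hΩ δ f) = C (M (-(l * δ))) *
      W.twc hΩ δ (C (M (l * δ)) * hasseDeriv l f) := by
  ext n
  rw [coeff_C_mul, W.coeff_twc hΩ, coeff_C_mul, hasseDeriv_coeff, hasseDeriv_coeff,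
    W.coeff_twc hΩ]
  have hG1 := W.natG hδ n
  have hG2 := W.natG hδ l
  have hG3 := W.natG hδ (n + l)
  have e1 : (((n + l : ℕ) : ℝ) * δ) = n * δ + l * δ := by push_cast; ring
  have e2 : M (((n + l : ℕ) : ℝ) * δ) = M (n * δ) * M (l * δ) := by
    rw [e1, W.ms.mul _ hG1 _ hG2]
  have e3 : M (-(((n + l : ℕ) : ℝ) * δ)) = M (-(n * δ)) * M (-(l * δ)) := by
    rw [e1, neg_add, W.ms.mul _ (G.neg_mem hG1) _ (G.neg_mem hG2)]
  have e4 : M (l * δ) * (((n + l).choose l : Ω) * f.coeff (n + l)) * M (n * δ) =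
      ((n + l).choose l : Ω) * (f.coeff (n + l) * M (((n + l : ℕ) : ℝ) * δ)) := by
    rw [e2]
    ring
  rw [e4, W.pj0_lin hΩ (natCast_mem L _)
    (mul_mem (W.E_le_T (hf (n + l))) (PM.mon hG3)), e3]
  ring

theorem hasse_twc_ge (hδ : δ ∈ G) (hu : u ∈ L) (hzu : z = M δ * u) (hzT : z ∈ PM v L G M)
    {f : Polynomial Ω} (hf : f ∈ PI (PM v N G M)) (l : ℕ) {b : ℝ}
    (h : v.Ge b ((hasseDeriv l f).eval z)) :
    v.Ge b ((hasseDeriv l (W.twc hΩ δ f)).eval z) := by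
  have hG2 := W.natG hδ l
  have hm : C (M (l * δ)) * hasseDeriv l f ∈ PI (PM v N G M) :=
    mul_mem (C_mem_PI (PM.mon hG2)) (hasse_mem_PI hf l)
  rw [W.hasse_twc hΩ hδ hf, eval_mul, eval_C, W.eval_twc hΩ hδ hu hzu hm, eval_mul, eval_C]
  have h1 : v.Ge (l * δ) (M (l * δ)) := fun _ => (W.ms.val _ hG2).ge
  have h2 : v.Ge (-(l * δ)) (M (-(l * δ))) := fun _ => (W.ms.val _ (G.neg_mem hG2)).ge
  have h3 : M (l * δ) * (hasseDeriv l f).eval z ∈ PM v L G M := by
    refine mul_mem (PM.mon hG2) (eval_mem (fun j => W.E_le_T (hasse_mem_PI hf l j)) hzT)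
  have h4 := h2.mul ((W.isPj hΩ 0).prj.ge _ h3 _ (h1.mul h))
  refine h4.mono (le_of_eq ?_)
  ring

/-! ### The generators of degree `≠ 0` -/

/-- The homogeneous polynomials (of degree `0`). -/
def Inv (N : IntermediateField k Ω) (M : ℝ → Ω) (δ : ℝ) (f : Polynomial Ω) : Prop :=
  ∀ j : ℕ, f.coeff j * M (j * δ) ∈ N

theorem inv_twc (hδ : δ ∈ G) {f : Polynomial Ω} (hf : f ∈ PI (PM v N G M)) :
    Inv N M δ (W.twc hΩ δ f) := fun j => by
  have hG := W.natG hδ j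
  rw [W.coeff_twc hΩ]
  have h1 : M (-(j * δ)) * W.pj hΩ 0 (f.coeff j * M (j * δ)) * M (j * δ) =
      (M (-(j * δ)) * M (j * δ)) * W.pj hΩ 0 (f.coeff j * M (j * δ)) := by ring
  rw [h1, W.M_neg_mul hG, one_mul]
  exact W.pj0_memN hΩ (mul_mem (hf j) (PM.mon hG))

omit W in
theorem Inv.add {f g : Polynomial Ω} (hf : Inv N M δ f) (hg : Inv N M δ g) :
    Inv N M δ (f + g) := fun j => by
  rw [coeff_add, add_mul]
  exact add_mem (hf j) (hg j)

omit W in
theorem Inv.sub {f g : Polynomial Ω} (hf : Inv N M δ f) (hg : Inv N M δ g) :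
    Inv N M δ (f - g) := fun j => by
  rw [coeff_sub, sub_mul]
  exact sub_mem (hf j) (hg j)

omit W in
theorem Inv.monomial {f : Polynomial Ω} (hf : Inv N M δ f) (n : ℕ) :
    Inv N M δ (Polynomial.monomial n (f.coeff n)) := fun j => by
  rw [coeff_monomial]
  split_ifs with h
  · rw [← h]
    exact hf n
  · rw [zero_mul]
    exact zero_mem N

section Char

variable [Fact p.Prime] [CharP Ω p]

omit [Field k] [Algebra k Ω] [Fact (Ctx0 k v)] W in
theorem hasse_pow_mul (g : Polynomial Ω) (m : ℕ) :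
    (hasseDeriv (m * p) (g ^ p)).eval z = ((hasseDeriv m g).eval z) ^ p := by
  rw [← taylor_coeff, ← taylor_coeff, taylor_pow, ← Polynomial.map_frobenius_expand, coeff_map,
    coeff_expand_mul (Fact.out : p.Prime).pos, frobenius_def]

omit [Field k] [Algebra k Ω] [Fact (Ctx0 k v)] W [Fact p.Prime] [CharP Ω p] in
theorem hasse_top {f : Polynomial Ω} {n : ℕ} (h : f.natDegree ≤ n) :
    (hasseDeriv n f).eval z = f.coeff n := by
  have h1 : hasseDeriv n f = C (f.coeff n) := by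
    ext j
    rw [hasseDeriv_coeff, coeff_C]
    split_ifs with hj
    · rw [hj, zero_add, Nat.choose_self, Nat.cast_one, one_mul]
    · rw [coeff_eq_zero_of_natDegree_lt (by omega), mul_zero]
  rw [h1, eval_C]

variable [IsAlgClosed Ω]

/-- The Hasse derivatives of high order of the solutions are null. -/
theorem decay (hδ : δ ∈ G) (hu : u ∈ L) (hzu : z = M δ * u) (hzT : z ∈ PM v L G M)
    (hz : TL v (PM v N G M) z 0) {f : Polynomial Ω} (hf : f ∈ PI (PM v N G M)) {n : ℕ}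
    (hn : f.natDegree ≤ n) {x : ℕ → Polynomial Ω} (hx : ∀ i, x i ∈ PI (PM v N G M)) {K : ℝ}
    {N₁ : ℕ} (hbd : ∀ i, N₁ ≤ i → v.Ge (-K) ((x i).eval z))
    (hrel : Nul v fun i => (x i).eval z ^ p - W.pj hΩ 0 ((x i).eval z) - f.eval z)
    {ε : ℝ} (hε : 0 < ε) : ∃ N₂, ∀ i, N₂ ≤ i → ∀ m, 1 ≤ m → n < m * p →
      v.Ge (-ε) ((hasseDeriv m (x i)).eval z) := by
  have hp : p.Prime := Fact.out
  have hp1 : (1 : ℝ) < p := by exact_mod_cast hp.one_lt
  obtain ⟨N₃, hN₃⟩ := hrel ε hε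
  refine ⟨max N₁ N₃, fun i hi => ?_⟩
  have hb := hbd i ((le_max_left _ _).trans hi)
  have hν := hN₃ i ((le_max_right _ _).trans hi)
  -- the relation as a polynomial
  have hνP : x i ^ p - W.twc hΩ δ (x i) - f ∈ PI (PM v N G M) :=
    sub_mem (sub_mem (pow_mem (hx i) p) (W.twc_mem hΩ hδ (hx i))) hf
  have hνe : v.Ge (-ε) ((x i ^ p - W.twc hΩ δ (x i) - f).eval z) := by
    rw [eval_sub, eval_sub, eval_pow, W.eval_twc hΩ hδ hu hzu (hx i)]
    exact hν
  have key : ∀ t : ℕ, ∀ m, 1 ≤ m → n < m * p →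
      v.Ge (-max ε (K / (p : ℝ) ^ t)) ((hasseDeriv m (x i)).eval z) := by
    intro t
    induction t with
    | zero =>
      intro m _ _
      rw [pow_zero, div_one]
      exact (hasse_ge hz (hx i) hb m).mono (neg_le_neg (le_max_right _ _))
    | succ t ih =>
      intro m hm hnm
      have h1 := ih (m * p) (Nat.mul_pos hm hp.pos) (hnm.trans_le (Nat.le_mul_of_pos_right _ hp.pos))
      have h2 := W.hasse_twc_ge hΩ hδ hu hzu hzT (hx i) (m * p) h1
      have h3 := hasse_ge hz hνP hνe (m * p)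
      rw [map_sub, map_sub, eval_sub, eval_sub, hasse_pow_mul,
        hasseDeriv_eq_zero_of_lt_natDegree f _ (hn.trans_lt hnm), eval_zero, sub_zero] at h3
      have h4 := (h3.mono (neg_le_neg (le_max_left ε (K / (p : ℝ) ^ t)))).add h2
      rw [sub_add_cancel] at h4
      refine TWC.ge_of_pow (p := p) (h4.mono ?_)
      rw [neg_le_neg_iff]
      have h5 : K / (p : ℝ) ^ t = p * (K / (p : ℝ) ^ (t + 1)) := by
        have : (p : ℝ) ≠ 0 := by linarith
        rw [pow_succ]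
        field_simp
      refine max_le ?_ ?_
      · have h6 := le_max_left ε (K / (p : ℝ) ^ (t + 1))
        nlinarith
      · rw [h5]
        exact mul_le_mul_of_nonneg_left (le_max_right _ _) (by linarith)
  intro m hm hnm
  obtain ⟨t, ht⟩ := pow_unbounded_of_one_lt (K / ε) hp1
  refine (key t m hm hnm).mono ?_
  rw [neg_le_neg_iff]
  refine max_le le_rfl ?_
  rw [div_le_iff₀ (by positivity)]
  rw [div_lt_iff₀ hε] at ht
  nlinarith

variable [CharP k p] [PerfectRing k p]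

/-- Approximation of a limit by polynomials. -/
theorem exists_polys (hz : TL v (PM v N G M) z 0) {Y : Ω} (hY : Y ∈ PM v L G M)
    (hzT : z ∈ PM v L G M) (hl : Lim v (cadj v (PM v N G M) z) 0 Y) {f : Polynomial Ω}
    (h : v.Ge 0 (Y ^ p - W.pj hΩ 0 Y - f.eval z)) :
    ∃ (x : ℕ → Polynomial Ω) (K : ℝ) (N₁ : ℕ), (∀ i, x i ∈ PI (PM v N G M)) ∧
      (Nul v fun i => Y - (x i).eval z) ∧ (∀ i, N₁ ≤ i → v.Ge (-K) ((x i).eval z)) ∧
      (Nul v fun i => (x i).eval z ^ p - W.pj hΩ 0 ((x i).eval z) - f.eval z) ∧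
      Cau v (cadj v (PM v N G M) z) fun i => (x i).eval z := by
  have hP := (W.isPj hΩ 0).prj
  obtain ⟨m, hm, hmn⟩ := Lim.exists_cau hl
  choose x hx hxm using fun i => hz.dense (hm.mem i) 0
  have h1 : Nul v fun i => Y - (x i).eval z := by
    refine (hmn.add (Nul.of_ge hxm)).congr fun i => ?_
    ring
  have hxT : ∀ i, (x i).eval z ∈ PM v L G M := fun i =>
    eval_mem (fun j => W.E_le_T (hx i j)) hzT
  obtain ⟨N₁, hN₁⟩ := h1 1 one_pos
  refine ⟨x, max 1 (-v Y), N₁, hx, h1, fun i hi => ?_, ?_, ?_⟩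
  · have h2 : v.Ge (-max 1 (-v Y)) (Y - (x i).eval z) :=
      (hN₁ i hi).mono (neg_le_neg (le_max_left _ _))
    have h3 : v.Ge (-max 1 (-v Y)) Y := fun _ => by
      have := le_max_right (1 : ℝ) (-v Y)
      linarith
    have h4 := h3.sub h2
    rwa [sub_sub_cancel] at h4
  · have h2 : Nul v fun i => W.pj hΩ 0 (Y - (x i).eval z) := by
      intro ε hε
      obtain ⟨n, hn⟩ := h1 ε hε
      exact ⟨n, fun i hi => hP.ge _ (sub_mem hY (hxT i)) _ (hn i hi)⟩
    refine (((Nul.of_ge (v := v) (x := fun _ => Y ^ p - W.pj hΩ 0 Y - f.eval z) fun _ =>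
      h).sub (h1.pow p)).add h2).congr fun i => ?_
    rw [hP.sub hY (hxT i), sub_pow_char]
    ring
  · refine hm.of_nul (fun i => eval_mem (PI_mono (le_cadj v _ z) (hx i)) (self_mem_cadj v _ z)) ?_
    exact Nul.of_ge hxm

set_option maxHeartbeats 1600000 in
theorem fv_hom_aux (hδ : δ ∈ G) (hu : u ∈ L) (hzu : z = M δ * u) (hzT : z ∈ PM v L G M)
    (hz : TL v (PM v N G M) z 0) (hδN : ∀ n : ℕ, ¬ p ∣ n → (n : ℝ) * δ ∉ VG v N) (n : ℕ) :
    ∀ f : Polynomial Ω, f ∈ PI (PM v N G M) → f.natDegree ≤ n → Inv N M δ f → ∀ Y : Ω,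
      Y ∈ PM v L G M → Lim v (cadj v (PM v N G M) z) 0 Y →
      v.Ge 0 (Y ^ p - W.pj hΩ 0 Y - f.eval z) →
      ∃ b ∈ cadj v (PM v N G M) z, Lim v (PM v N G M) 0 (Y - b) := by
  have hp : p.Prime := Fact.out
  have hP := (W.isPj hΩ 0).prj
  induction n with
  | zero =>
    intro f hf hn _ Y hY hl h
    obtain ⟨x, K, N₁, hx, h1, h2, h3, h4⟩ := W.exists_polys hΩ hz hY hzT hl h
    obtain ⟨m, hm, hmn⟩ := const_unif hz hx h4 fun ε hε => by
      obtain ⟨N₂, h5⟩ := W.decay hΩ hδ hu hzu hzT hz hf hn hx h2 h3 hε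
      exact ⟨N₂, fun i hi l hl => h5 i hi l hl (Nat.mul_pos hl hp.pos)⟩
    refine ⟨0, zero_mem _, ?_⟩
    rw [sub_zero]
    exact Lim.of_nul (m := m) hm.mem ((h1.add hmn).congr fun i => by ring)
  | succ n ih =>
    intro f hf hn hfi Y hY hl h
    set c := f.coeff (n + 1) with hc
    by_cases hpn : p ∣ n + 1
    · obtain ⟨m, hm⟩ := hpn
      have hm0 : m ≠ 0 := by
        rintro rfl
        omega
      obtain ⟨r, hr, hrc⟩ := W.perfE c (hf (n + 1))
      set g : Polynomial Ω := monomial m r with hg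
      have hgP : g ∈ PI (PM v N G M) := fun j => by
        rw [hg, coeff_monomial]
        split_ifs
        · exact hr
        · exact zero_mem _
      have hgT : g.eval z ∈ PM v L G M := eval_mem (fun j => W.E_le_T (hgP j)) hzT
      have hgp : g.eval z ^ p = (monomial (n + 1) c).eval z := by
        rw [hg, eval_monomial, eval_monomial, mul_pow, hrc, ← pow_mul, hm, Nat.mul_comm]
      have hgB : g.eval z ∈ cadj v (PM v N G M) z :=
        eval_mem (PI_mono (le_cadj v _ z) hgP) (self_mem_cadj v _ z)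
      have hmn : m ≤ n := by
        have := hp.two_le
        nlinarith
      have k1 : f - monomial (n + 1) c + W.twc hΩ δ g ∈ PI (PM v N G M) := by
        refine add_mem (sub_mem hf fun j => ?_) (W.twc_mem hΩ hδ hgP)
        rw [coeff_monomial]
        split_ifs
        · exact hf (n + 1)
        · exact zero_mem _
      have k2 : (f - monomial (n + 1) c + W.twc hΩ δ g).natDegree ≤ n := by
        rw [natDegree_le_iff_coeff_eq_zero]
        intro j hj
        rw [coeff_add, coeff_sub, coeff_monomial, coeff_eq_zero_of_natDegree_lt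
          ((W.natDegree_twc hΩ δ g (natDegree_monomial_le (m := m) r)).trans_lt
            (lt_of_le_of_lt hmn hj)), add_zero]
        split_ifs with h6
        · rw [← h6, ← hc, sub_self]
        · rw [coeff_eq_zero_of_natDegree_lt (by omega), sub_zero]
      have k3 : Inv N M δ (f - monomial (n + 1) c + W.twc hΩ δ g) :=
        (hfi.sub (hfi.monomial (n + 1))).add (W.inv_twc hΩ hδ hgP)
      have k4 : Lim v (cadj v (PM v N G M) z) 0 (Y - g.eval z) := by
        intro ε hε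
        obtain ⟨a, ha, h6⟩ := hl ε hε
        refine ⟨a - g.eval z, sub_mem ha hgB, ?_⟩
        rwa [sub_sub_sub_cancel_right]
      have k5 : v.Ge 0 ((Y - g.eval z) ^ p - W.pj hΩ 0 (Y - g.eval z) -
          (f - monomial (n + 1) c + W.twc hΩ δ g).eval z) := by
        rw [hP.sub hY hgT, sub_pow_char, hgp, eval_add, eval_sub,
          W.eval_twc hΩ hδ hu hzu hgP]
        have h6 : Y ^ p - (monomial (n + 1) c).eval z - (W.pj hΩ 0 Y - W.pj hΩ 0 (g.eval z)) -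
            (f.eval z - (monomial (n + 1) c).eval z + W.pj hΩ 0 (g.eval z)) =
            Y ^ p - W.pj hΩ 0 Y - f.eval z := by ring
        rwa [h6]
      obtain ⟨b, hb, h5⟩ := ih _ k1 k2 k3 _ (sub_mem hY hgT) k4 k5
      refine ⟨b + g.eval z, add_mem hb hgB, ?_⟩
      have h6 : Y - (b + g.eval z) = Y - g.eval z - b := by ring
      rw [h6]
      exact h5
    · obtain ⟨x, K, N₁, hx, h1, h2, h3, h4⟩ := W.exists_polys hΩ hz hY hzT hl h
      -- the leading coefficient is integral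
      have hc0 : v.Ge 0 c := by
        refine Nul.const (v := v) fun ε hε => ?_
        obtain ⟨N₂, h5⟩ := W.decay hΩ hδ hu hzu hzT hz hf hn hx h2 h3 hε
        obtain ⟨N₃, h6⟩ := h3 ε hε
        have hlt : n + 1 < (n + 1) * p := by
          have := hp.two_le
          nlinarith
        refine ⟨max N₂ N₃, fun i hi => ?_⟩
        have h7 := W.hasse_twc_ge hΩ hδ hu hzu hzT (hx i) (n + 1)
          (h5 i ((le_max_left _ _).trans hi) (n + 1) (by omega) hlt)
        have hνe : v.Ge (-ε) ((x i ^ p - W.twc hΩ δ (x i) - f).eval z) := by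
          rw [eval_sub, eval_sub, eval_pow, W.eval_twc hΩ hδ hu hzu (hx i)]
          exact h6 i ((le_max_right _ _).trans hi)
        have h8 := hasse_ge hz (sub_mem (sub_mem (pow_mem (hx i) p) (W.twc_mem hΩ hδ (hx i))) hf)
          hνe (n + 1)
        have h9 := hasse_pow_char (z := z) p 1 (x i) (l := n + 1) (by rwa [pow_one])
        rw [pow_one] at h9
        rw [map_sub, map_sub, eval_sub, eval_sub, h9, zero_sub, hasse_top hn] at h8
        have h10 := (h8.add h7).neg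
        have h11 : -(-eval z ((hasseDeriv (n + 1)) (W.twc hΩ δ (x i))) - f.coeff (n + 1) +
            eval z ((hasseDeriv (n + 1)) (W.twc hΩ δ (x i)))) = c := by
          rw [hc]
          ring
        rwa [h11] at h10
      have hGn := W.natG hδ (n + 1)
      -- and of positive value
      have hc1 : c ≠ 0 → 0 < v c := by
        intro h0
        refine lt_of_le_of_ne (hc0 h0) fun h5 => hδN (n + 1) hpn ?_
        refine ⟨c * M ((n + 1 : ℕ) * δ), hfi (n + 1), mul_ne_zero h0 (W.ms.ne _ hGn), ?_⟩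
        rw [v.map_mul h0 (W.ms.ne _ hGn), W.ms.val _ hGn, ← h5, zero_add]
      by_cases h0 : c = 0
      · refine ih f hf ?_ hfi Y hY hl h
        rw [natDegree_le_iff_coeff_eq_zero]
        intro j hj
        rcases Nat.lt_or_ge (n + 1) j with h5 | h5
        · exact coeff_eq_zero_of_natDegree_lt (by omega)
        · have : j = n + 1 := by omega
          rw [this, ← hc, h0]
      · -- recentring
        have hv := hc1 h0
        have hn1 : (0 : ℝ) < (n + 1 : ℕ) := by positivity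
        obtain ⟨θ₀, hθ₀, h5⟩ := hz.lim (v c / (n + 1 : ℕ)) (by positivity)
        rw [zero_sub] at h5
        have hGδ := G.neg_mem hδ
        have hMθ₀ : M (-δ) * θ₀ ∈ PM v N G M := mul_mem (PM.mon hGδ) hθ₀
        set w := W.pj hΩ 0 (M (-δ) * θ₀) with hw
        have hwN : w ∈ N := W.pj0_memN hΩ hMθ₀
        set θ := M δ * w with hθ
        have hθE : θ ∈ PM v N G M := mul_mem (PM.mon hδ) (PM.le hwN)
        have h6 : v.Ge (-(v c / (n + 1 : ℕ))) (z - θ) := by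
          have h7 : z - θ = M δ * W.pj hΩ 0 (M (-δ) * (z - θ₀)) := by
            have e1 : M (-δ) * (z - θ₀) = u - M (-δ) * θ₀ := by
              rw [hzu, mul_sub, ← mul_assoc, W.M_neg_mul hδ, one_mul]
            rw [e1, hP.sub (PM.le hu) (W.E_le_T hMθ₀), W.pj0_self hΩ hu, hθ, hzu, mul_sub]
          rw [h7]
          have h8 : v.Ge δ (M δ) := fun _ => (W.ms.val _ hδ).ge
          have h9 : v.Ge (-δ) (M (-δ)) := fun _ => (W.ms.val _ hGδ).ge
          have h10 := h8.mul (hP.ge _ (mul_mem (PM.mon hGδ) (sub_mem hzT (W.E_le_T hθ₀))) _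
            (h9.mul h5))
          refine h10.mono (le_of_eq ?_)
          ring
        set g : Polynomial Ω := C c * (X - C θ) ^ (n + 1) with hg
        have hgP : g ∈ PI (PM v N G M) := mul_mem (C_mem_PI (hf (n + 1)))
          (pow_mem (sub_mem X_mem_PI (C_mem_PI hθE)) _)
        have hgc : ∀ j, g.coeff j = c * ((-θ) ^ (n + 1 - j) * ((n + 1).choose j : Ω)) := fun j => by
          rw [hg, coeff_C_mul, sub_eq_add_neg, ← C_neg, coeff_X_add_C_pow]
        have hge : v.Ge 0 (g.eval z) := by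
          rw [hg, eval_mul, eval_C, eval_pow, eval_sub, eval_X, eval_C]
          have h7 : v.Ge (v c) c := fun _ => le_rfl
          have h8 := h7.mul (ge_pow h6 (n + 1))
          refine h8.mono (le_of_eq ?_)
          field_simp
          ring
        refine ih (f - g) (sub_mem hf hgP) ?_ (hfi.sub fun j => ?_) Y hY hl ?_
        · rw [natDegree_le_iff_coeff_eq_zero]
          intro j hj
          rw [coeff_sub, hgc]
          rcases Nat.lt_or_ge (n + 1) j with h7 | h7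
          · rw [coeff_eq_zero_of_natDegree_lt (by omega), Nat.choose_eq_zero_of_lt h7,
              Nat.cast_zero, mul_zero, mul_zero, sub_zero]
          · have : j = n + 1 := by omega
            rw [this, Nat.sub_self, pow_zero, one_mul, Nat.choose_self, Nat.cast_one, mul_one,
              ← hc, sub_self]
        · rw [hgc]
          rcases Nat.lt_or_ge (n + 1) j with h7 | h7
          · rw [Nat.choose_eq_zero_of_lt h7, Nat.cast_zero, mul_zero, mul_zero, zero_mul]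
            exact zero_mem N
          · obtain ⟨d, hd⟩ := Nat.exists_eq_add_of_le h7
            have h8 : n + 1 - j = d := by omega
            have h9 : M (((n + 1 : ℕ) : ℝ) * δ) = M (j * δ) * M δ ^ d := by
              rw [← W.ms.pow hδ d, ← W.ms.mul _ (W.natG hδ j) _ (W.natG hδ d), hd]
              congr 1
              push_cast
              ring
            have h10 : c * ((-θ) ^ (n + 1 - j) * ((n + 1).choose j : Ω)) * M (j * δ) =
                (c * M (((n + 1 : ℕ) : ℝ) * δ)) * ((-w) ^ d * ((n + 1).choose j : Ω)) := by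
              rw [h8, h9, hθ, ← mul_neg, mul_pow]
              ring
            rw [h10]
            exact mul_mem (hfi (n + 1)) (mul_mem (pow_mem (neg_mem hwN) _) (natCast_mem N _))
        · rw [eval_sub]
          have h7 : Y ^ p - W.pj hΩ 0 Y - (f.eval z - g.eval z) =
              Y ^ p - W.pj hΩ 0 Y - f.eval z + g.eval z := by ring
          rw [h7]
          exact h.add hge

include W in
/-- The graded field `E⟨z⟩`. -/
theorem PM_cadj (hδ : δ ∈ G) (hzu : z = M δ * u) :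
    PM v (cadj v N u) G M = cadj v (PM v N G M) z := by
  refine le_antisymm (PM.le_of (cld_cadj v _ _) (TWM.cadj_le (cld_cadj v _ _) (PM.le.trans (le_cadj v _ z)) ?_)
    fun g hg => le_cadj v _ z (PM.mon hg)) (TWM.cadj_le PM.cld (PM.mono (le_cadj v N u)) ?_)
  · have h1 : u = M (-δ) * z := by
      rw [hzu, ← mul_assoc, W.M_neg_mul hδ, one_mul]
    rw [h1]
    exact mul_mem (le_cadj v _ z (PM.mon (G.neg_mem hδ))) (self_mem_cadj v _ z)
  · rw [hzu]
    exact mul_mem (PM.mon hδ) (PM.le (self_mem_cadj v N u))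

theorem lim_pjA (hNA : N ≤ A) (hAL : A ≤ L) (hA : Cld v A) (j : ℕ) {x : Ω} {r : ℝ}
    (hx : x ∈ PM v L G M) (hl : Lim v (PM v A G M) r x) :
    Lim v (PM v A G M) r (W.pj hΩ j x) := by
  intro ε hε
  obtain ⟨e, he, h⟩ := hl ε hε
  refine ⟨_, W.pj_mem hΩ hNA hAL hA j he, ?_⟩
  have heT : e ∈ PM v L G M := PM.mono hAL he
  rw [← (W.isPj hΩ j).prj.sub hx heT]
  exact (W.isPj hΩ j).prj.ge _ (sub_mem hx heT) _ h

omit W in
/-- The Frobenius torsion over `E⟨z⟩`, `E` perfect. -/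
theorem ftf_aux {E : IntermediateField k Ω} (hz : TL v E z 0)
    (hE : ∀ a ∈ E, ∃ b ∈ E, b ^ p = a) {Y : Ω}
    (hl : Lim v (cadj v E z) 0 Y) (h : Nr v (cadj v E z) 0 (Y ^ p)) :
    ∃ b ∈ cadj v E z, Lim v E 0 (Y - b) := by
  obtain ⟨m, hm, hmn⟩ := Lim.exists_cau hl
  obtain ⟨b, hb, h1⟩ := h
  have h2 : InBL v (cadj v E z) E fun i => m i ^ p ^ 1 := by
    refine ⟨b, hb, fun _ => 0, Cau.const (zero_mem E), ?_⟩
    refine ((Nul.of_ge (v := v) (x := fun _ => Y ^ p - b) fun _ => h1).sub (hmn.pow p)).congr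
      fun i => ?_
    rw [pow_one, sub_pow_char]
    ring
  obtain ⟨b', hb', m', hm', h3⟩ := lemmaR_ii' (Fact.out : Ctx0 k v) hz p hE hm h2
  exact ⟨b', hb', Lim.of_nul (m := m') hm'.mem ((hmn.add h3).congr fun i => by ring)⟩

theorem fv_hom (hδ : δ ∈ G) (hu : u ∈ L) (hzu : z = M δ * u) (hzT : z ∈ PM v L G M)
    (hz : TL v (PM v N G M) z 0) (hδN : ∀ n : ℕ, ¬ p ∣ n → (n : ℝ) * δ ∉ VG v N) {Y : Ω}
    (hY : Y ∈ PM v L G M) (hl : Lim v (cadj v (PM v N G M) z) 0 Y)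
    (h : Nr v (cadj v (PM v N G M) z) 0 (Y ^ p - W.pj hΩ 0 Y)) :
    ∃ b ∈ cadj v (PM v N G M) z, Lim v (PM v N G M) 0 (Y - b) := by
  obtain ⟨f₀, hf₀, h1⟩ := h
  obtain ⟨f, hf, h2⟩ := hz.dense hf₀ 0
  have hP := (W.isPj hΩ 0).prj
  have hP1 := (W.isPj hΩ 1).prj
  have h3 : v.Ge 0 (Y ^ p - W.pj hΩ 0 Y - f.eval z) := by
    have h4 := h1.add h2
    rwa [sub_add_sub_cancel] at h4
  have hfT : f.eval z ∈ PM v L G M := eval_mem (fun j => W.E_le_T (hf j)) hzT
  have hAL : cadj v N u ≤ L := TWM.cadj_le W.cldL W.NL hu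
  have hPM := W.PM_cadj hδ hzu
  -- the component of degree `1 / p`
  have hY1 : W.pj hΩ 1 Y ∈ PM v L G M := W.pj_mem hΩ W.NL le_rfl W.cldL 1 hY
  have hl1 : Lim v (cadj v (PM v N G M) z) 0 (W.pj hΩ 1 Y) := by
    rw [← hPM] at hl ⊢
    exact W.lim_pjA hΩ (le_cadj v N u) hAL (cld_cadj v _ _) 1 hY hl
  have e0 : W.pj hΩ 0 (W.pj hΩ 1 Y) = W.pj hΩ 0 Y :=
    W.pj_comp (Nat.zero_le 1) (W.isPj hΩ 0) (W.isPj hΩ 1) hY
  have e1 : W.pj hΩ 0 (Y ^ p) = W.pj hΩ 1 Y ^ p := W.pj_pow (W.isPj hΩ 0) (W.isPj hΩ 1) hY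
  have hY0 : W.pj hΩ 0 Y ∈ PM v L G M := PM.le (W.pj0_memL hΩ hY)
  have h4 : v.Ge 0 (W.pj hΩ 1 Y ^ p - W.pj hΩ 0 (W.pj hΩ 1 Y) -
      (W.twc hΩ δ f).eval z) := by
    have h5 := hP.ge _ (sub_mem (sub_mem (pow_mem hY p) hY0) hfT) _ h3
    rw [hP.sub (sub_mem (pow_mem hY p) hY0) hfT, hP.sub (pow_mem hY p) hY0, e1,
      W.pj0_self hΩ (W.pj0_memL hΩ hY), ← W.eval_twc hΩ hδ hu hzu hf] at h5
    rwa [e0]
  obtain ⟨b₁, hb₁, h5⟩ := W.fv_hom_aux hΩ hδ hu hzu hzT hz hδN f.natDegree (W.twc hΩ δ f)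
    (W.twc_mem hΩ hδ hf) (W.natDegree_twc hΩ δ f le_rfl) (W.inv_twc hΩ hδ hf) _ hY1 hl1 h4
  -- the difference
  have h6 : Nr v (cadj v (PM v N G M) z) 0 ((Y - W.pj hΩ 1 Y) ^ p) := by
    refine ⟨f.eval z - (W.twc hΩ δ f).eval z, sub_mem ?_ ?_, ?_⟩
    · exact eval_mem (PI_mono (le_cadj v _ z) hf) (self_mem_cadj v _ z)
    · exact eval_mem (PI_mono (le_cadj v _ z) (W.twc_mem hΩ hδ hf)) (self_mem_cadj v _ z)
    · rw [sub_pow_char]
      have h7 := h3.sub h4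
      rw [e0] at h7
      have h8 : Y ^ p - W.pj hΩ 1 Y ^ p - (f.eval z - (W.twc hΩ δ f).eval z) =
          Y ^ p - W.pj hΩ 0 Y - f.eval z - (W.pj hΩ 1 Y ^ p - W.pj hΩ 0 Y -
            (W.twc hΩ δ f).eval z) := by ring
      rwa [h8]
  have h7 : Lim v (cadj v (PM v N G M) z) 0 (Y - W.pj hΩ 1 Y) := TWC.Lim.sub hl hl1
  obtain ⟨b₂, hb₂, h8⟩ := ftf_aux hz W.perfE h7 h6
  refine ⟨b₁ + b₂, add_mem hb₁ hb₂, ?_⟩
  have h9 : Y - (b₁ + b₂) = (W.pj hΩ 1 Y - b₁) + (Y - W.pj hΩ 1 Y - b₂) := by ring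
  rw [h9]
  exact TWC.Lim.add h5 h8

/-- The floor `1`, generator of degree `0`. -/
theorem fv_deg0 (hzL : z ∈ L) (hz : TL v (PM v N G M) z 0) {Y : Ω}
    (hY : Y ∈ PM v L G M) (hl : Lim v (cadj v (PM v N G M) z) 0 Y)
    (h : Nr v (cadj v (PM v N G M) z) 0 (Y ^ p - W.pj hΩ 0 Y)) :
    ∃ b ∈ cadj v (PM v N G M) z, Lim v (PM v N G M) 0 (Y - b) := by
  obtain ⟨f₀, hf₀, h1⟩ := h
  obtain ⟨f, hf, h2⟩ := hz.dense hf₀ 0
  have hzT : z ∈ PM v L G M := PM.le hzL
  have h3 : v.Ge 0 (Y ^ p - W.pj hΩ 0 Y - f.eval z) := by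
    have h4 := h1.add h2
    rwa [sub_add_sub_cancel] at h4
  obtain ⟨x, K, N₁, hx, h4, -, h5, h6⟩ := W.exists_polys hΩ hz hY hzT hl h3
  have hzC : Lim v N 0 z := by
    have := W.lim_pj0 hΩ hzT hz.lim
    rwa [W.pj0_self hΩ hzL] at this
  have hzu : z = M 0 * z := by rw [W.ms.zero, one_mul]
  have hcf : ∀ g ∈ PI (PM v N G M), (cf ((-1 : k) • W.qj hΩ N le_rfl W.NL W.cldN 0) g).eval z =
      -g.eval z + W.pj hΩ 0 (g.eval z) := by
    intro g hg
    have h7 : cf ((-1 : k) • W.qj hΩ N le_rfl W.NL W.cldN 0) g = -g + W.twc hΩ 0 g := by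
      ext j
      rw [coeff_cf, W.fn_negq hΩ (hg j), coeff_add, coeff_neg, W.coeff_twc hΩ, mul_zero, neg_zero,
        W.ms.zero, one_mul, mul_one]
      ring
    rw [h7, eval_add, eval_neg, W.eval_twc hΩ G.zero_mem hzL hzu hg]
  have R : Rel p (W.TT hΩ N le_rfl W.NL W.cldN) z (fun _ : Unit => x) 1 (fun _ _ _ => 1)
      (fun _ _ _ => (-1 : k) • W.qj hΩ N le_rfl W.NL W.cldN 0) (fun _ => f) := by
    refine ⟨fun _ => ⟨hx, fun ε hε => ?_⟩, le_rfl,
      fun _ _ _ => Submodule.smul_mem _ _ (W.qj_mem_TT hΩ 0), fun _ => hf, fun _ => ?_⟩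
    · obtain ⟨n, hn⟩ := h6.cau ε hε
      exact ⟨n, fun i j hi hj => by
        rw [eval_sub]
        exact hn i j hi hj⟩
    · refine h5.congr fun i => ?_
      rw [pow_one, Finset.sum_range_one, pow_zero, pow_one, Fintype.sum_unique, hcf _ (hx i),
        one_smul]
      ring
  obtain ⟨b, m, hs⟩ := B2 p (W.oper hΩ) (W.nsd hΩ) hz hzC R ()
  refine ⟨b.eval z, eval_mem (PI_mono (le_cadj v _ z) hs.mem) (self_mem_cadj v _ z), ?_⟩
  exact Lim.of_nul (m := m) hs.cau.mem ((h4.add hs.nul).congr fun i => by ring)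

/-- **The floor `1`.** -/
theorem fv_one (hGN : ∀ g ∈ G, ∃ n : ℕ, (p : ℝ) ^ n * g ∈ VG v N) (hδ : δ ∈ G) (hu : u ∈ L)
    (hzu : z = M δ * u) (hz : TL v (PM v N G M) z 0) {Y : Ω}
    (hY : Y ∈ PM v L G M) (hl : Lim v (cadj v (PM v N G M) z) 0 Y)
    (h : Nr v (cadj v (PM v N G M) z) 0 (Y ^ p - W.pj hΩ 0 Y)) :
    ∃ b ∈ cadj v (PM v N G M) z, Lim v (PM v N G M) 0 (Y - b) := by
  have hzT : z ∈ PM v L G M := by
    rw [hzu]
    exact mul_mem (PM.mon hδ) (PM.le hu)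
  by_cases hd : δ ∈ VG v N
  · refine W.fv_deg0 hΩ ?_ hz hY hl h
    rw [hzu]
    exact mul_mem (W.NL (W.mon.mem δ hδ hd)) hu
  · refine W.fv_hom hΩ hδ hu hzu hzT hz (fun n hn hnδ => hd ?_) hY hl h
    obtain ⟨m, hm⟩ := hGN δ hδ
    have hcop : Nat.Coprime n (p ^ m) :=
      (Nat.Coprime.pow_right m ((Nat.Prime.coprime_iff_not_dvd (Fact.out : p.Prime)).2 hn).symm)
    have h1 := Nat.gcd_eq_gcd_ab n (p ^ m)
    rw [hcop.gcd_eq_one] at h1
    have h2 : δ = (Nat.gcdA n (p ^ m)) • ((n : ℝ) * δ) +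
        (Nat.gcdB n (p ^ m)) • ((p : ℝ) ^ m * δ) := by
      rw [zsmul_eq_mul, zsmul_eq_mul]
      have h3 : (1 : ℝ) = (n : ℝ) * (Nat.gcdA n (p ^ m) : ℝ) +
          (p : ℝ) ^ m * (Nat.gcdB n (p ^ m) : ℝ) := by exact_mod_cast h1
      calc δ = 1 * δ := (one_mul δ).symm
        _ = _ := by
          rw [h3]
          ring
    rw [h2]
    exact (VG v N).add_mem ((VG v N).zsmul_mem hnδ _) ((VG v N).zsmul_mem hm _)

end Char

end World

end Pool.Agent.TWIV
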