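import Pool.Agent.Lib.TWIV.TrfB
import Pool.Agent.Lib.TWIV.W2M
import Pool.Agent.Lib.TWIV.HgA
import Pool.Agent.Lib.TWIV.EmbG
import Pool.Agent.Lib.TWIV.RRo
import Pool.Agent.Lib.TWIV.NSDG
import Pool.Agent.Lib.TWIV.W4
import Pool.Agent.Lib.TWS.Ac

/-!
# TANK W, leaf (IV): FV over two homogeneous floors

`E = PM v N G M`, `E₁ = PM v (cadj v N u₁) G M`, `B = PM v (cadj v (cadj v N u₁) u₂) G M`.

* `HRad`: the statement RAD in the Hahn field;
* `fv2_hahn`: the hypotheses `FV2` of `W2M` in the Hahn field;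
* `World.exists_fv2`: the embedding;
* `World.fv_two`: an exotic relation `Y ^ p - π₀ Y` over `B` is in `B + L(E₁)`;
* `World.fvb_two_rad`, `World.ftb_two_rad`: `FVB` and `FTB` at `B`.
-/

set_option autoImplicit false
set_option linter.unusedSectionVars false

open Polynomial

namespace Pool.Agent.TWIV

open Pool.Agent.H15JM (RVal)
open Pool.Agent.D2 (Ctx0)
open Pool.Agent.D2P (clI)
open Pool.Agent.TWM Pool.Agent.TWC
open Pool.Agent.TWS

universe u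

section Rad

variable (k : Type u) [Field k] (p : ℕ) [Fact p.Prime] [CharP (HF k) p] [PerfectRing (HF k) p]

/-- The statement RAD in the Hahn field. -/
def HRad (G Γ : AddSubgroup ℝ) : Prop :=
  ∀ (hf : FinR p (hpr (k := k) Γ)) (η : ℝ ⧸ Γ) (y : HF k), hpr Γ η y = y → nuH k y = y →
    TL (hv k) (HM k G) y 0 →
    ∀ r ∈ RR (grP_hpr p Γ) (fun _ _ x h => hpr_orth x h) hf (HM k G) y,
      Lim (hv k) (cadj (hv k) (HM k G) y) 0 r →
      ∃ b ∈ cadj (hv k) (HM k G) y, ∃ a, Lim (hv k) (HM k G) 0 a ∧ (hv k).Ge 0 (r - b - a)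

end Rad

section Inst

variable (k : Type u) [Field k] (p : ℕ) [Fact p.Prime] [CharP k p]

theorem charP_HF : CharP (HF k) p :=
  charP_of_injective_algebraMap (algebraMap k (HF k)).injective p

theorem perfectRing_HF [IsAlgClosed k] [CharP (HF k) p] : PerfectRing (HF k) p :=
  have _ : ExpChar (HF k) p := ExpChar.prime Fact.out
  PerfectField.toPerfectRing p

end Inst

/-- The residues. -/
theorem resR_of {k H : Type u} [Field k] [Field H] [Algebra k H] {w : RVal H} (hk : Ctx0 k w)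
    (B : IntermediateField k H) : ResR w B := by
  intro x _ hx
  obtain ⟨c, hc⟩ := hk.residue hx
  exact ⟨c, fun h0 => hc h0⟩

section Gr

variable {k H : Type u} [Field k] [Field H] [Algebra k H] {v : RVal H} {p : ℕ} [hp : Fact p.Prime]
  [CharP H p] [PerfectRing H p] [IsAlgClosed H]
  {A : Type*} [AddCommGroup A] {pr : A → H →ₗ[k] H} {E : IntermediateField k H}

/-- The field `E⟨y⟩` is stable, `y` homogeneous. -/
theorem grp_cadj_mem (h : GrP p v pr) (hE : ∀ c, ∀ x ∈ E, pr c x ∈ E) {y : H} {η : A}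
    (hηy : pr η y = y) {s : ℝ} (hy : TL v E y s) (c : A) {x : H} (hx : x ∈ cadj v E y) :
    pr c x ∈ cadj v E y := by
  refine cld_cadj v E y fun b => ?_
  obtain ⟨f, hf, h1⟩ := hy.dense hx b
  refine ⟨pr c (f.eval y), ?_, ?_⟩
  · rw [eval_eq_sum_range, map_sum]
    refine sum_mem fun i _ => ?_
    rw [h.mul_right (h.pow_mem hηy i)]
    exact mul_mem (le_cadj v E y (hE _ _ (hf i))) (pow_mem (self_mem_cadj v E y) i)
  · rw [← map_sub]
    exact h.ge b c _ h1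

end Gr

section Tor

variable {k H : Type u} [Field k] [Field H] [Algebra k H] {v : RVal H} {p : ℕ} [hp : Fact p.Prime]
  [CharP k p] [PerfectRing k p] [CharP H p] [PerfectRing H p]
  {A : Type*} [AddCommGroup A] {pr : A → H →ₗ[k] H} {E : IntermediateField k H}

/-- The dominated families of the base are torsion. -/
private theorem htor_of (h : GrE p v pr E) (hk : Ctx0 k v) : HTor p v (AA pr) E := by
  classical
  intro κ _ m _ hd l
  choose φ e hφ he hr using hd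
  obtain ⟨N, b, hb, w, hw, h1⟩ := h.h1_lin p hk (x := m) (φ := φ) hφ he hr
    (ψ := fun j => if j = l then 1 else 0)
    (fun j => by
      split_ifs
      · exact AA_one
      · exact zero_mem _)
  refine ⟨N, b, hb, w, hw, h1.congr fun n => ?_⟩
  have h2 : ∑ i, (if i = l then (1 : Module.End k H) else 0) (m i n) = m l n := by
    rw [Finset.sum_eq_single l]
    · rw [if_pos rfl, Module.End.one_apply]
    · intro i _ hi
      rw [if_neg hi, LinearMap.zero_apply]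
    · intro hl
      exact absurd (Finset.mem_univ l) hl
  rw [h2]

end Tor

section Two

variable {k : Type u} [Field k] [IsAlgClosed k] {p : ℕ} [Fact p.Prime] [CharP k p]
  [CharP (HF k) p] [PerfectRing (HF k) p] [PerfectRing k p] {G Γ : AddSubgroup ℝ}
  {y z : HF k}

/-- **The hypotheses of FV(y; z)** in the Hahn field. -/
theorem fv2_hahn (hGr : GrE p (hv k) (hpr (k := k) Γ) (HM k G)) (hf : FinR p (hpr (k := k) Γ))
    (hrad : HRad k p G Γ) {η ζ : ℝ ⧸ Γ} (hηy : hpr Γ η y = y) (hζz : hpr Γ ζ z = z)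
    (hny : nuH k y = y) (hy : TL (hv k) (HM k G) y 0)
    (hz : TL (hv k) (cadj (hv k) (HM k G) y) z 0)
    (hcan : Can p (hv k) (HM k G) (cadj (hv k) (HM k G) y) z) :
    FV2 p (hv k) (AA (hpr (k := k) Γ)) (HM k G) y z
      (RR (grP_hpr p Γ) (fun _ _ x h => hpr_orth x h) hf (HM k G) y) := by
  have hk0 : Ctx0 k (hv k) := ctx0_hv k
  have hk : Fact (Ctx0 k (hv k)) := ⟨hk0⟩
  have hy0 : y ≠ 0 := TL.nez hy
  have hz0 : z ≠ 0 := TL.nez hz
  exact {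
    op := hGr.opA hk0
    sy := hGr.stb hy0 hηy
    sz := stb_of hGr.gr (fun c x hx => grp_cadj_mem hGr.gr hGr.mem hηy hy c hx) hz0 hζz
    ty := hy
    tz := hz
    res := resR_of hk0 _
    can := hcan
    perf := fun x hx => ⟨Rt p 1 x, hGr.perf x hx, by
      have h1 := Rt_pow p 1 x
      rwa [pow_one] at h1⟩
    tor := htor_of hGr hk0
    h1 := hGr.H1_of p hk0
    hom := hg_approx hGr.gr hGr.mem hz0 hηy hζz hy hz.lim
    rr := rrd hGr.gr hGr.orth hf hGr.perf hGr.mem hηy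
    rad := hrad hf η y hηy hny hy }

end Two

/-! ### The world -/

section World

variable {k Ω : Type u} [Field k] [Field Ω] [Algebra k Ω] {v : RVal Ω} [hk : Fact (Ctx0 k v)]
  {N L : IntermediateField k Ω} {G : AddSubgroup ℝ} {M : ℝ → Ω} {p : ℕ}
  {u₁ u₂ : Ω} {d₁ d₂ : ℝ}

namespace World

variable (W : World p v N L G M) (hΩ : CompleteV v)

omit hk in
include W in
/-- The field with the monomials and one more floor. -/
theorem PM_cadj' (A : IntermediateField k Ω) {δ : ℝ} (hδ : δ ∈ G) (u : Ω) :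
    PM v (cadj v A u) G M = cadj v (PM v A G M) (M δ * u) := by
  refine le_antisymm (PM.le_of (cld_cadj v _ _) (TWM.cadj_le (cld_cadj v _ _)
    (PM.le.trans (le_cadj v _ _)) ?_) fun g hg => le_cadj v _ _ (PM.mon hg))
    (TWM.cadj_le PM.cld (PM.mono (le_cadj v A u)) ?_)
  · have h1 : u = M (-δ) * (M δ * u) := by
      rw [← mul_assoc, ← W.ms.mul (-δ) (G.neg_mem hδ) δ hδ, neg_add_cancel, W.ms.zero, one_mul]
    have h2 : M (-δ) * (M δ * u) ∈ cadj v (PM v A G M) (M δ * u) :=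
      mul_mem (le_cadj v _ _ (PM.mon (G.neg_mem hδ))) (self_mem_cadj v _ _)
    rwa [← h1] at h2
  · exact mul_mem (PM.mon hδ) (PM.le (self_mem_cadj v A u))

variable [Fact p.Prime] [CharP k p] [CharP Ω p] [IsAlgClosed k] [IsAlgClosed Ω]
  [CharP (HF k) p] [PerfectRing (HF k) p] [PerfectRing k p]

include W hΩ in
/-- **The embedding with the hypotheses of FV(y; z).** -/
theorem exists_fv2 (hd₁ : d₁ ∈ G) (hd₂ : d₂ ∈ G) (hu₁ : u₁ ∈ L) (hu₂ : u₂ ∈ L)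
    (hy : TL v (PM v N G M) (M d₁ * u₁) 0)
    (hz : TL v (PM v (cadj v N u₁) G M) (M d₂ * u₂) 0)
    (hcan : Can p v (PM v N G M) (PM v (cadj v N u₁) G M) (M d₂ * u₂))
    (hf : FinR p (hpr (k := k) (VG v N))) (hrad : HRad k p G (VG v N)) :
    ∃ θ : Ω →ₐ[k] HF k, IsoE v (hv k) θ ∧ (∀ g ∈ G, θ (M g) = TWS.mon k g) ∧
      (∀ x ∈ cadj v (cadj v N u₁) u₂, hpr (VG v N) 0 (θ x) = θ x) ∧
      (PM v (cadj v N u₁) G M).map θ = cadj (hv k) (HM k G) (θ (M d₁ * u₁)) ∧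
      (PM v (cadj v (cadj v N u₁) u₂) G M).map θ =
        cadj (hv k) (cadj (hv k) (HM k G) (θ (M d₁ * u₁))) (θ (M d₂ * u₂)) ∧
      FV2 p (hv k) (AA (hpr (k := k) (VG v N))) (HM k G) (θ (M d₁ * u₁)) (θ (M d₂ * u₂))
        (RR (grP_hpr p (VG v N)) (fun _ _ x h => hpr_orth x h) hf (HM k G) (θ (M d₁ * u₁))) := by
  obtain ⟨θ, hθ, hg, hdeg, hneg⟩ := W.exists_theta hΩ (u := fun i => if i = 0 then u₁ else u₂)
    (d := fun i => if i = 0 then d₁ else d₂) 2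
    (fun i _ => by split_ifs <;> assumption)
    (fun i _ => by split_ifs <;> assumption)
    (fun i hi => by
      rcases (by omega : i = 0 ∨ i = 1) with rfl | rfl
      · exact hy
      · exact hz)
  have hdeg' : ∀ x ∈ cadj v (cadj v N u₁) u₂, hpr (VG v N) 0 (θ x) = θ x := hdeg
  have hE : (PM v N G M).map θ = HM k G := map_PM hθ hΩ hg W.E_eq
  have hE₁ : (PM v (cadj v N u₁) G M).map θ = cadj (hv k) (HM k G) (θ (M d₁ * u₁)) := by
    rw [W.PM_cadj' N hd₁ u₁, map_floor hθ hΩ, hE]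
  have hE₂ : (PM v (cadj v (cadj v N u₁) u₂) G M).map θ =
      cadj (hv k) (cadj (hv k) (HM k G) (θ (M d₁ * u₁))) (θ (M d₂ * u₂)) := by
    rw [W.PM_cadj' (cadj v N u₁) hd₂ u₂, map_floor hθ hΩ, hE₁]
  have hGr : GrE p (hv k) (hpr (k := k) (VG v N)) (HM k G) := grE_HM p W.div W.fin
  have hηy : hpr (VG v N) (d₁ : ℝ ⧸ VG v N) (θ (M d₁ * u₁)) = θ (M d₁ * u₁) := by
    rw [map_mul, hg _ hd₁, hpr_mon_mul,
      hdeg' u₁ (le_cadj v _ u₂ (self_mem_cadj v N u₁))]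
  have hζz : hpr (VG v N) (d₂ : ℝ ⧸ VG v N) (θ (M d₂ * u₂)) = θ (M d₂ * u₂) := by
    rw [map_mul, hg _ hd₂, hpr_mon_mul, hdeg' u₂ (self_mem_cadj v _ u₂)]
  refine ⟨θ, hθ, hg, hdeg', hE₁, hE₂, fv2_hahn hGr hf hrad hηy hζz ?_ ?_ ?_ ?_⟩
  · exact hneg 0 (by omega)
  · rw [← hE]
    exact hθ.tl_iff.2 hy
  · rw [← hE₁]
    exact hθ.tl_iff.2 hz
  · rw [← hE₁, ← hE]
    exact Can.map p hθ hcan

include W in
/-- Canonicity of the second floor. -/
theorem can_two (hd₁ : d₁ ∈ G) (hd₂ : d₂ ∈ G) (hu₁ : u₁ ∈ L) (hu₂ : u₂ ∈ L)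
    (hz : TL v (PM v (cadj v N u₁) G M) (M d₂ * u₂) 0)
    (hc1 : ∀ Y ∈ PM v L G M, Lim v (PM v N G M) 0 Y → Nr v (PM v (cadj v N u₁) G M) 0 Y) :
    Can p v (PM v N G M) (PM v (cadj v N u₁) G M) (M d₂ * u₂) := by
  have hAL : cadj v (cadj v N u₁) u₂ ≤ L :=
    TWM.cadj_le W.cldL (TWM.cadj_le W.cldL W.NL hu₁) hu₂
  have h1 := W.PM_cadj' N hd₁ u₁
  rw [h1] at hz hc1 ⊢
  refine Can.of_hc p (T := PM v L G M) ?_ hz hc1
  rw [← h1, ← W.PM_cadj' (cadj v N u₁) hd₂ u₂]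
  exact PM.mono hAL

/-- **FV(y; z) in the world.** -/
theorem fv_two (hd₁ : d₁ ∈ G) (hd₂ : d₂ ∈ G) (hu₁ : u₁ ∈ L) (hu₂ : u₂ ∈ L)
    (hy : TL v (PM v N G M) (M d₁ * u₁) 0)
    (hz : TL v (PM v (cadj v N u₁) G M) (M d₂ * u₂) 0)
    (hc1 : ∀ Y ∈ PM v L G M, Lim v (PM v N G M) 0 Y → Nr v (PM v (cadj v N u₁) G M) 0 Y)
    (hf : FinR p (hpr (k := k) (VG v N))) (hrad : HRad k p G (VG v N))
    {Y : Ω} (hY : Y ∈ PM v L G M) (hl : Lim v (PM v (cadj v (cadj v N u₁) u₂) G M) 0 Y)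
    (hr : Nr v (PM v (cadj v (cadj v N u₁) u₂) G M) 0 (Y ^ p - W.pj hΩ 0 Y)) :
    ∃ b ∈ PM v (cadj v (cadj v N u₁) u₂) G M, Lim v (PM v (cadj v N u₁) G M) 0 (Y - b) := by
  have hNA : N ≤ cadj v (cadj v N u₁) u₂ := (le_cadj v N u₁).trans (le_cadj v _ u₂)
  have hAL : cadj v (cadj v N u₁) u₂ ≤ L :=
    TWM.cadj_le W.cldL (TWM.cadj_le W.cldL W.NL hu₁) hu₂
  have _ : Fact (Ctx0 k (hv k)) := ⟨ctx0_hv k⟩
  obtain ⟨θ, hθ, hg, hdeg, hE₁, hE₂, F⟩ := W.exists_fv2 hΩ hd₁ hd₂ hu₁ hu₂ hy hz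
    (W.can_two hd₁ hd₂ hu₁ hu₂ hz hc1) hf hrad
  refine Trf.inBE hθ p (W.isPj hΩ 0).prj (PM.mono hAL) (pr := hpr (VG v N) 0)
    (fun b hb => W.theta_pj hΩ hθ hg hNA hAL hdeg hb) ?_ hY hl hr
  rintro m hm ⟨e, he, h1⟩
  rw [hE₁, hE₂] at *
  refine F.cau p (κ := Unit) (m := fun _ => m) (fun _ => hm) (fun _ => ?_) ()
  refine ⟨fun _ => hpr (VG v N) 0, e, fun _ => AA_pr 0, he, ?_⟩
  refine h1.congr fun n => ?_
  simp only [Finset.univ_unique, Finset.sum_singleton]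

/-- **`FVB` at the second homogeneous floor.** -/
theorem fvb_two_rad (hd₁ : d₁ ∈ G) (hd₂ : d₂ ∈ G) (hu₁ : u₁ ∈ L) (hu₂ : u₂ ∈ L)
    (hy : TL v (PM v N G M) (M d₁ * u₁) 0)
    (hz : TL v (PM v (cadj v N u₁) G M) (M d₂ * u₂) 0)
    (hc1 : ∀ Y ∈ PM v L G M, Lim v (PM v N G M) 0 Y → Nr v (PM v (cadj v N u₁) G M) 0 Y)
    (hc2 : ∀ Y ∈ PM v L G M, Lim v (PM v (cadj v N u₁) G M) 0 Y →
      Nr v (PM v (cadj v (cadj v N u₁) u₂) G M) 0 Y)
    (hf : FinR p (hpr (k := k) (VG v N))) (hrad : HRad k p G (VG v N)) :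
    FVB p v (PM v L G M) (PM v (cadj v (cadj v N u₁) u₂) G M) (W.pj hΩ 0) := by
  have hAL : cadj v (cadj v N u₁) u₂ ≤ L :=
    TWM.cadj_le W.cldL (TWM.cadj_le W.cldL W.NL hu₁) hu₂
  intro Y hY hl hr
  obtain ⟨b, hb, h1⟩ := W.fv_two hΩ hd₁ hd₂ hu₁ hu₂ hy hz hc1 hf hrad hY hl hr
  obtain ⟨a, ha, h2⟩ := hc2 _ (sub_mem hY (PM.mono hAL hb)) h1
  refine ⟨b + a, add_mem hb ha, ?_⟩
  rwa [← sub_sub]

include W hΩ in
/-- **`FTB` at the second homogeneous floor.** -/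
theorem ftb_two_rad (hd₁ : d₁ ∈ G) (hd₂ : d₂ ∈ G) (hu₁ : u₁ ∈ L) (hu₂ : u₂ ∈ L)
    (hy : TL v (PM v N G M) (M d₁ * u₁) 0)
    (hz : TL v (PM v (cadj v N u₁) G M) (M d₂ * u₂) 0)
    (hc1 : ∀ Y ∈ PM v L G M, Lim v (PM v N G M) 0 Y → Nr v (PM v (cadj v N u₁) G M) 0 Y)
    (hc2 : ∀ Y ∈ PM v L G M, Lim v (PM v (cadj v N u₁) G M) 0 Y →
      Nr v (PM v (cadj v (cadj v N u₁) u₂) G M) 0 Y)
    (hf : FinR p (hpr (k := k) (VG v N))) (hrad : HRad k p G (VG v N)) :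
    FTB p v (PM v L G M) (PM v (cadj v (cadj v N u₁) u₂) G M) := by
  have _ : Fact (Ctx0 k (hv k)) := ⟨ctx0_hv k⟩
  have hAL : cadj v (cadj v N u₁) u₂ ≤ L :=
    TWM.cadj_le W.cldL (TWM.cadj_le W.cldL W.NL hu₁) hu₂
  obtain ⟨θ, hθ, -, -, hE₁, hE₂, F⟩ := W.exists_fv2 hΩ hd₁ hd₂ hu₁ hu₂ hy hz
    (W.can_two hd₁ hd₂ hu₁ hu₂ hz hc1) hf hrad
  refine Trf.ftb hθ p (PM.mono hAL) ?_ hc2
  rintro m hm ⟨e, he, h1⟩
  rw [hE₁, hE₂] at *
  refine F.cau p (κ := Unit) (m := fun _ => m) (fun _ => hm) (fun _ => ?_) ()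
  refine ⟨fun _ => 0, e, fun _ => zero_mem _, he, ?_⟩
  refine h1.congr fun n => ?_
  simp only [Finset.univ_unique, Finset.sum_singleton, LinearMap.zero_apply, sub_zero]

end World

end World

end Pool.Agent.TWIV
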