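import Pool.Agent.Lib.TWIV.TrfA
import Pool.Agent.Lib.TWIV.EmbT
import Pool.Agent.Lib.TWIV.S7h

/-!
# TANK W, leaf (IV): exotic relations over `E<y_0, y_1>`, in the world

`W : World p v N L G M`, `E = PM v N G M`, `T = PM v L G M`, the `y_i = M d_i u_i` are limits of
`E`, `y_0` of transcendental type over `E`, `y_1` over `E<y_0>`; `B = PM v (N<u_0, u_1>) G M`.
* `World.fv_par`: `Y ∈ T`, `Lim v B 0 Y`, `Y ^ p - π_0 Y ∈ B + O` gives `Y ∈ B + L(E)`;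
* `World.fvb_par`, `World.ftb_par`: `FVB`, `FTB`, if the limits of `E` in `T` are in `B + O`.
-/

set_option autoImplicit false
set_option linter.unusedSectionVars false

open Polynomial

namespace Pool.Agent.TWIV

open Pool.Agent.H15JM (RVal)
open Pool.Agent.D2 (Ctx0)
open Pool.Agent.TWM Pool.Agent.TWS
open Pool.Agent.TWC (Nul Cau)

universe u

variable {k Ω : Type u} [Field k] [Field Ω] [Algebra k Ω] {v : RVal Ω} [hk : Fact (Ctx0 k v)]
  {N L : IntermediateField k Ω} {G : AddSubgroup ℝ} {M : ℝ → Ω} {p : ℕ} [hp : Fact p.Prime]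
  [CharP k p] [CharP Ω p] [IsAlgClosed k] [IsAlgClosed Ω] {u : ℕ → Ω} {d : ℕ → ℝ}

namespace World

variable (W : World p v N L G M) (hΩ : CompleteV v)

include W hΩ

/-- The statement for the sequences of the Hahn field. -/
theorem exists_theta_par (hd : ∀ i, i < 2 → d i ∈ G) (hu : ∀ i, i < 2 → u i ∈ L)
    (ht : ∀ i, i < 2 → TL v (PM v (twr v N u i) G M) (M (d i) * u i) 0)
    (hl : ∀ i, i < 2 → Lim v (PM v N G M) 0 (M (d i) * u i)) :
    ∃ θ : Ω →ₐ[k] HF k, Th v N G M θ (twr v N u 2) ∧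
      ∀ (lam : k) (m : ℕ → HF k), Cau (hv k) ((PM v (twr v N u 2) G M).map θ) m →
        (∃ e ∈ (PM v (twr v N u 2) G M).map θ,
          Nul (hv k) fun n => m n ^ p - lam • hpr (VG v N) 0 (m n) - e) →
        InBE (hv k) ((PM v (twr v N u 2) G M).map θ) ((PM v N G M).map θ) m := by
  obtain ⟨θ, hθ, -⟩ := W.exists_th hΩ 2 hd hu ht
  refine ⟨θ, hθ, fun lam m hm hr => ?_⟩
  obtain ⟨e, he, hr⟩ := hr
  have hT := W.twrH_theta hΩ 2 hθ hd ht hl
  have e1 := W.map_twr hΩ (u := u) hθ 2 hd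
  have e2 := hθ.map_E W hΩ
  have _ : CharP (HF k) p := charP_of_injective_algebraMap (algebraMap k (HF k)).injective p
  have _ : Fact (Ctx0 k (hv k)) := ⟨ctx0_hv k⟩
  have hE : GrE p (hv k) (hpr (k := k) (VG v N)) (HM k G) := grE_HM p W.div W.fin
  rw [e1] at hm he ⊢
  rw [e2]
  refine fv_two (completeV_hv k) hE hT (κ := Unit) (X := fun _ => m) (f := fun _ => e)
    (φ := fun _ _ => lam • (hpr (VG v N) 0 : Module.End k (HF k)))
    (fun _ _ => Submodule.smul_mem _ _ (AP_pr 0)) (fun _ => hm) (fun _ => he) (fun _ => ?_) ()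
  refine hr.congr fun n => ?_
  simp only [Finset.univ_unique, Finset.sum_const, Finset.card_singleton, one_smul]
  rfl

/-- **FV(y_0, y_1) in the world.** -/
theorem fv_par (hd : ∀ i, i < 2 → d i ∈ G) (hu : ∀ i, i < 2 → u i ∈ L)
    (ht : ∀ i, i < 2 → TL v (PM v (twr v N u i) G M) (M (d i) * u i) 0)
    (hl : ∀ i, i < 2 → Lim v (PM v N G M) 0 (M (d i) * u i)) {Y : Ω} (hY : Y ∈ PM v L G M)
    (hYl : Lim v (PM v (twr v N u 2) G M) 0 Y)
    (hr : Nr v (PM v (twr v N u 2) G M) 0 (Y ^ p - W.pj hΩ 0 Y)) :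
    ∃ b ∈ PM v (twr v N u 2) G M, Lim v (PM v N G M) 0 (Y - b) := by
  obtain ⟨θ, hθ, h1⟩ := W.exists_theta_par hΩ hd hu ht hl
  have hBL := W.twr_le 2 hu
  refine Trf.inBE (θ := θ) hθ.iso p (W.isPj hΩ 0).prj (PM.mono hBL)
    (pr := hpr (VG v N) 0) (fun b hb => hθ.pj W hΩ (le_twr 2) hBL hb) (fun m hm h2 => ?_) hY hYl hr
  refine h1 1 m hm ?_
  obtain ⟨e, he, h3⟩ := h2
  exact ⟨e, he, h3.congr fun n => by rw [one_smul]⟩

/-- **No exotic relation over `E<y_0, y_1>`.** -/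
theorem fvb_par (hd : ∀ i, i < 2 → d i ∈ G) (hu : ∀ i, i < 2 → u i ∈ L)
    (ht : ∀ i, i < 2 → TL v (PM v (twr v N u i) G M) (M (d i) * u i) 0)
    (hl : ∀ i, i < 2 → Lim v (PM v N G M) 0 (M (d i) * u i))
    (hc : ∀ Y ∈ PM v L G M, Lim v (PM v N G M) 0 Y → Nr v (PM v (twr v N u 2) G M) 0 Y) :
    FVB p v (PM v L G M) (PM v (twr v N u 2) G M) (W.pj hΩ 0) := by
  intro Y hY hYl hr
  obtain ⟨b, hb, h1⟩ := W.fv_par hΩ hd hu ht hl hY hYl hr
  obtain ⟨a, ha, h2⟩ := hc _ (sub_mem hY (PM.mono (W.twr_le 2 hu) hb)) h1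
  refine ⟨b + a, add_mem hb ha, ?_⟩
  rwa [← sub_sub]

/-- **No torsion over `E<y_0, y_1>`.** -/
theorem ftb_par (hd : ∀ i, i < 2 → d i ∈ G) (hu : ∀ i, i < 2 → u i ∈ L)
    (ht : ∀ i, i < 2 → TL v (PM v (twr v N u i) G M) (M (d i) * u i) 0)
    (hl : ∀ i, i < 2 → Lim v (PM v N G M) 0 (M (d i) * u i))
    (hc : ∀ Y ∈ PM v L G M, Lim v (PM v N G M) 0 Y → Nr v (PM v (twr v N u 2) G M) 0 Y) :
    FTB p v (PM v L G M) (PM v (twr v N u 2) G M) := by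
  obtain ⟨θ, hθ, h1⟩ := W.exists_theta_par hΩ hd hu ht hl
  have hBL := W.twr_le 2 hu
  refine Trf.ftb (θ := θ) (A := PM v N G M) hθ.iso p (PM.mono hBL) (fun m hm h2 => ?_) hc
  refine h1 0 m hm ?_
  obtain ⟨e, he, h3⟩ := h2
  exact ⟨e, he, h3.congr fun n => by rw [zero_smul, sub_zero]⟩

/-- The same, two elements. -/
theorem fv_par2 {d₁ d₂ : ℝ} (h1 : d₁ ∈ G) (h2 : d₂ ∈ G) {u₁ u₂ : Ω} (hu1 : u₁ ∈ L)
    (hu2 : u₂ ∈ L) (hy : TL v (PM v N G M) (M d₁ * u₁) 0)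
    (hz : TL v (PM v (cadj v N u₁) G M) (M d₂ * u₂) 0)
    (hl1 : Lim v (PM v N G M) 0 (M d₁ * u₁)) (hl2 : Lim v (PM v N G M) 0 (M d₂ * u₂)) :
    (∀ Y ∈ PM v L G M, Lim v (PM v (cadj v (cadj v N u₁) u₂) G M) 0 Y →
      Nr v (PM v (cadj v (cadj v N u₁) u₂) G M) 0 (Y ^ p - W.pj hΩ 0 Y) →
      ∃ b ∈ PM v (cadj v (cadj v N u₁) u₂) G M, Lim v (PM v N G M) 0 (Y - b)) ∧
    ((∀ Y ∈ PM v L G M, Lim v (PM v N G M) 0 Y →
      Nr v (PM v (cadj v (cadj v N u₁) u₂) G M) 0 Y) →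
      FVB p v (PM v L G M) (PM v (cadj v (cadj v N u₁) u₂) G M) (W.pj hΩ 0) ∧
      FTB p v (PM v L G M) (PM v (cadj v (cadj v N u₁) u₂) G M)) := by
  have hi : ∀ i : ℕ, i < 2 → i = 0 ∨ i = 1 := fun i hi => by omega
  have a1 : ∀ i, i < 2 → (fun i : ℕ => if i = 0 then d₁ else d₂) i ∈ G := fun i hi2 => by
    rcases hi i hi2 with rfl | rfl
    · exact h1
    · exact h2
  have a2 : ∀ i, i < 2 → (fun i : ℕ => if i = 0 then u₁ else u₂) i ∈ L := fun i hi2 => by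
    rcases hi i hi2 with rfl | rfl
    · exact hu1
    · exact hu2
  have a3 : ∀ i, i < 2 → TL v (PM v (twr v N (fun i : ℕ => if i = 0 then u₁ else u₂) i) G M)
      (M ((fun i : ℕ => if i = 0 then d₁ else d₂) i) *
        (fun i : ℕ => if i = 0 then u₁ else u₂) i) 0 := fun i hi2 => by
    rcases hi i hi2 with rfl | rfl
    · exact hy
    · exact hz
  have a4 : ∀ i, i < 2 → Lim v (PM v N G M) 0
      (M ((fun i : ℕ => if i = 0 then d₁ else d₂) i) *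
        (fun i : ℕ => if i = 0 then u₁ else u₂) i) := fun i hi2 => by
    rcases hi i hi2 with rfl | rfl
    · exact hl1
    · exact hl2
  refine ⟨fun Y hY hYl hr => ?_, fun hc => ⟨?_, ?_⟩⟩
  · exact W.fv_par hΩ (d := fun i : ℕ => if i = 0 then d₁ else d₂)
      (u := fun i : ℕ => if i = 0 then u₁ else u₂) a1 a2 a3 a4 hY hYl hr
  · exact W.fvb_par hΩ (d := fun i : ℕ => if i = 0 then d₁ else d₂)
      (u := fun i : ℕ => if i = 0 then u₁ else u₂) a1 a2 a3 a4 hc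
  · exact W.ftb_par hΩ (d := fun i : ℕ => if i = 0 then d₁ else d₂)
      (u := fun i : ℕ => if i = 0 then u₁ else u₂) a1 a2 a3 a4 hc

end World

end Pool.Agent.TWIV
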