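import Pool.Agent.Lib.TWIV.W0
import Pool.Agent.Lib.TWC.Base

/-!
# TANK W, tame case, row A2: the operators

`E = PM v N G M`.  `W.qj j : Opr v E` is `1 - π_j`; `TT`: their span; `W.oper`: `Oper p v N E TT`.
-/

set_option autoImplicit false
set_option linter.unusedSectionVars false

open Polynomial

namespace Pool.Agent.TWIV

open Pool.Agent.H15JM (RVal)
open Pool.Agent.LU1 (VPos adj)
open Pool.Agent.D2 (Ctx0)
open Pool.Agent.D2P (hen clI mem_clI)
open Pool.Agent.TWM Pool.Agent.TWC Pool.Agent.TWS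

universe u

variable {k Ω : Type u} [Field k] [Field Ω] [Algebra k Ω] {v : RVal Ω} [Fact (Ctx0 k v)]
  {N L A B : IntermediateField k Ω} {G : AddSubgroup ℝ} {M : ℝ → Ω} {p : ℕ}

/-- An operator from a function. -/
noncomputable def mkOpr (v : RVal Ω) [Fact (Ctx0 k v)] (B : IntermediateField k Ω) (f : Ω → Ω)
    (hm : ∀ x ∈ B, f x ∈ B) (ha : ∀ x ∈ B, ∀ y ∈ B, f (x + y) = f x + f y)
    (hs : ∀ (a : k), ∀ x ∈ B, f (a • x) = a • f x)
    (hg : ∀ x ∈ B, ∀ b : ℝ, v.Ge b x → v.Ge b (f x)) : Opr v B :=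
  ⟨{ toFun := fun x => ⟨f x, hm x x.2⟩
     map_add' := fun x y => Subtype.ext (ha x x.2 y y.2)
     map_smul' := fun a x => Subtype.ext (hs a x x.2) }, fun x b hb => hg x x.2 b hb⟩

theorem mkOpr_apply {f : Ω → Ω} {hm : ∀ x ∈ B, f x ∈ B}
    {ha : ∀ x ∈ B, ∀ y ∈ B, f (x + y) = f x + f y} {hs : ∀ (a : k), ∀ x ∈ B, f (a • x) = a • f x}
    {hg : ∀ x ∈ B, ∀ b : ℝ, v.Ge b x → v.Ge b (f x)} (x : B) :
    (((mkOpr v B f hm ha hs hg : Opr v B) : Module.End k B) x : Ω) = f x := rfl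

theorem fn_mkOpr {f : Ω → Ω} {hm : ∀ x ∈ B, f x ∈ B}
    {ha : ∀ x ∈ B, ∀ y ∈ B, f (x + y) = f x + f y} {hs : ∀ (a : k), ∀ x ∈ B, f (a • x) = a • f x}
    {hg : ∀ x ∈ B, ∀ b : ℝ, v.Ge b x → v.Ge b (f x)} {x : Ω} (hx : x ∈ B) :
    fn (mkOpr v B f hm ha hs hg) x = f x := fn_of_mem _ hx

namespace World

variable (W : World p v N L G M) (hΩ : CompleteV v)

include W in
theorem PMj_le (A : IntermediateField k Ω) (j : ℕ) : PM v A (Gj p v N G j) M ≤ PM v A G M :=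
  PM.le_of PM.cld PM.le fun _ hg => PM.mon (Gj_le j hg)

/-- The projection `π_j` of `PM v L G M` on `PM v L (Gj j) M`. -/
noncomputable def pj (j : ℕ) : Ω → Ω := (W.exists_pj hΩ j).choose

theorem isPj (j : ℕ) : IsPj p v N L G M j (W.pj hΩ j) := (W.exists_pj hΩ j).choose_spec

theorem pj_mem (hNA : N ≤ A) (hAL : A ≤ L) (hA : Cld v A) (j : ℕ) {x : Ω} (hx : x ∈ PM v A G M) :
    W.pj hΩ j x ∈ PM v A G M :=
  PMj_le W A j ((W.isPj hΩ j).sub A hNA hAL hA x hx)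

/-- The operator `1 - π_j` of the field `PM v A G M`. -/
noncomputable def qj (A : IntermediateField k Ω) (hNA : N ≤ A) (hAL : A ≤ L) (hA : Cld v A)
    (j : ℕ) : Opr v (PM v A G M) :=
  mkOpr v _ (fun x => x - W.pj hΩ j x) (fun x hx => sub_mem hx (W.pj_mem hΩ hNA hAL hA j hx))
    (fun x hx y hy => by
      rw [(W.isPj hΩ j).prj.add x (PM.mono hAL hx) y (PM.mono hAL hy)]
      ring)
    (fun a x hx => by
      rw [(W.isPj hΩ j).prj.smul a (PM.mono hAL hx), smul_sub])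
    fun x hx b hb => hb.sub ((W.isPj hΩ j).prj.ge x (PM.mono hAL hx) b hb)

theorem qj_apply {hNA : N ≤ A} {hAL : A ≤ L} {hA : Cld v A} (j : ℕ) (x : PM v A G M) :
    (((W.qj hΩ A hNA hAL hA j : Opr v (PM v A G M)) : Module.End k (PM v A G M)) x : Ω) =
      x - W.pj hΩ j x := rfl

theorem fn_qj {hNA : N ≤ A} {hAL : A ≤ L} {hA : Cld v A} (j : ℕ) {x : Ω} (hx : x ∈ PM v A G M) :
    fn (W.qj hΩ A hNA hAL hA j) x = x - W.pj hΩ j x := fn_of_mem _ hx

theorem qj_mul {hNA : N ≤ A} {hAL : A ≤ L} {hA : Cld v A} {i j : ℕ} (hij : i ≤ j) :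
    W.qj hΩ A hNA hAL hA i * W.qj hΩ A hNA hAL hA j = W.qj hΩ A hNA hAL hA j := by
  refine Subtype.ext (LinearMap.ext fun x => Subtype.ext ?_)
  change ((x : Ω) - W.pj hΩ j x) - W.pj hΩ i ((x : Ω) - W.pj hΩ j x) = (x : Ω) - W.pj hΩ j x
  have hxL : (x : Ω) ∈ PM v L G M := PM.mono hAL x.2
  have hyL : W.pj hΩ j x ∈ PM v L G M := W.pj_mem hΩ W.NL le_rfl W.cldL j hxL
  rw [(W.isPj hΩ i).prj.sub hxL hyL, W.pj_comp hij (W.isPj hΩ i) (W.isPj hΩ j) hxL, sub_self,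
    sub_zero]

/-- `π_j π_i = π_i`, `i ≤ j`. -/
theorem pj_pj {i j : ℕ} (hij : i ≤ j) {x : Ω} (hx : x ∈ PM v L G M) :
    W.pj hΩ j (W.pj hΩ i x) = W.pj hΩ i x := by
  refine (W.isPj hΩ j).prj.self _ ?_
  have h1 := (W.isPj hΩ i).prj.mem x hx
  exact PM.le_of PM.cld PM.le (fun g hg => PM.mon (Gj_mono hij hg)) h1

theorem qj_mul' {hNA : N ≤ A} {hAL : A ≤ L} {hA : Cld v A} {i j : ℕ} (hij : i ≤ j) :
    W.qj hΩ A hNA hAL hA j * W.qj hΩ A hNA hAL hA i = W.qj hΩ A hNA hAL hA j := by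
  refine Subtype.ext (LinearMap.ext fun x => Subtype.ext ?_)
  change ((x : Ω) - W.pj hΩ i x) - W.pj hΩ j ((x : Ω) - W.pj hΩ i x) = (x : Ω) - W.pj hΩ j x
  have hxL : (x : Ω) ∈ PM v L G M := PM.mono hAL x.2
  have hyL : W.pj hΩ i x ∈ PM v L G M := W.pj_mem hΩ W.NL le_rfl W.cldL i hxL
  rw [(W.isPj hΩ j).prj.sub hxL hyL, W.pj_pj hΩ hij hxL]
  ring

/-- The space of the operators. -/
noncomputable def TT (A : IntermediateField k Ω) (hNA : N ≤ A) (hAL : A ≤ L) (hA : Cld v A) :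
    Submodule k (Opr v (PM v A G M)) :=
  Submodule.span k (Set.range (W.qj hΩ A hNA hAL hA))

theorem qj_mem_TT {hNA : N ≤ A} {hAL : A ≤ L} {hA : Cld v A} (j : ℕ) :
    W.qj hΩ A hNA hAL hA j ∈ W.TT hΩ A hNA hAL hA := Submodule.subset_span ⟨j, rfl⟩

theorem TT_mul {hNA : N ≤ A} {hAL : A ≤ L} {hA : Cld v A} {φ ψ : Opr v (PM v A G M)}
    (hφ : φ ∈ W.TT hΩ A hNA hAL hA) (hψ : ψ ∈ W.TT hΩ A hNA hAL hA) :
    φ * ψ ∈ W.TT hΩ A hNA hAL hA := by
  induction hφ using Submodule.span_induction with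
  | mem φ h =>
    obtain ⟨i, rfl⟩ := h
    induction hψ using Submodule.span_induction with
    | mem ψ h =>
      obtain ⟨j, rfl⟩ := h
      rcases le_total i j with hij | hij
      · rw [W.qj_mul hΩ hij]
        exact W.qj_mem_TT hΩ j
      · rw [W.qj_mul' hΩ hij]
        exact W.qj_mem_TT hΩ i
    | zero =>
      rw [mul_zero]
      exact zero_mem _
    | add a b _ _ ha hb =>
      rw [mul_add]
      exact add_mem ha hb
    | smul c a _ ha =>
      rw [mul_smul_comm]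
      exact Submodule.smul_mem _ c ha
  | zero =>
    rw [zero_mul]
    exact zero_mem _
  | add a b _ _ ha hb =>
    rw [add_mul]
    exact add_mem ha hb
  | smul c a _ ha =>
    rw [smul_mul_assoc]
    exact Submodule.smul_mem _ c ha

theorem TT_one {hNA : N ≤ A} {hAL : A ≤ L} {hA : Cld v A} {φ : Opr v (PM v A G M)}
    (hφ : φ ∈ W.TT hΩ A hNA hAL hA) : (φ : Module.End k (PM v A G M)) 1 = 0 := by
  induction hφ using Submodule.span_induction with
  | mem φ h =>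
    obtain ⟨i, rfl⟩ := h
    refine Subtype.ext ?_
    change (1 : Ω) - W.pj hΩ i 1 = 0
    rw [(W.isPj hΩ i).prj.self 1 (one_mem _), sub_self]
  | zero => rfl
  | add a b _ _ ha hb =>
    change (a : Module.End k (PM v A G M)) 1 + (b : Module.End k (PM v A G M)) 1 = 0
    rw [ha, hb, add_zero]
  | smul c a _ ha =>
    change c • (a : Module.End k (PM v A G M)) 1 = 0
    rw [ha, smul_zero]

/-- The operators are linear over `PM v A (Gj 0) M`, in particular over `A`. -/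
theorem TT_lin {hNA : N ≤ A} {hAL : A ≤ L} {hA : Cld v A} {φ : Opr v (PM v A G M)}
    (hφ : φ ∈ W.TT hΩ A hNA hAL hA) (c : PM v A G M) (hc : (c : Ω) ∈ L) (x : PM v A G M) :
    (φ : Module.End k (PM v A G M)) (c * x) = c * (φ : Module.End k (PM v A G M)) x := by
  induction hφ using Submodule.span_induction with
  | mem φ h =>
    obtain ⟨i, rfl⟩ := h
    refine Subtype.ext ?_
    change (c : Ω) * x - W.pj hΩ i (c * x) = c * (x - W.pj hΩ i x)
    rw [(W.isPj hΩ i).prj.lin _ (PM.le hc) _ (PM.mono hAL x.2)]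
    ring
  | zero =>
    change (0 : PM v A G M) = c * 0
    rw [mul_zero]
  | add a b _ _ ha hb =>
    change (a : Module.End k (PM v A G M)) (c * x) + (b : Module.End k (PM v A G M)) (c * x) =
      c * ((a : Module.End k (PM v A G M)) x + (b : Module.End k (PM v A G M)) x)
    rw [ha, hb, mul_add]
  | smul d a _ ha =>
    change d • (a : Module.End k (PM v A G M)) (c * x) =
      c * (d • (a : Module.End k (PM v A G M)) x)
    rw [ha, mul_smul_comm]

variable [Fact p.Prime] [CharP k p] [CharP Ω p] [PerfectRing k p]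

theorem TT_tw {hNA : N ≤ A} {hAL : A ≤ L} {hA : Cld v A} {φ : Opr v (PM v A G M)}
    (hφ : φ ∈ W.TT hΩ A hNA hAL hA) : ∃ φ' ∈ W.TT hΩ A hNA hAL hA, ∀ x : PM v A G M,
      (φ : Module.End k (PM v A G M)) (x ^ p) = ((φ' : Module.End k (PM v A G M)) x) ^ p := by
  have hp : p.Prime := Fact.out
  induction hφ using Submodule.span_induction with
  | mem φ h =>
    obtain ⟨i, rfl⟩ := h
    refine ⟨_, W.qj_mem_TT hΩ (i + 1), fun x => Subtype.ext ?_⟩
    change (x : Ω) ^ p - W.pj hΩ i ((x : Ω) ^ p) = ((x : Ω) - W.pj hΩ (i + 1) x) ^ p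
    rw [W.pj_pow (W.isPj hΩ i) (W.isPj hΩ (i + 1)) (PM.mono hAL x.2), sub_pow_char]
  | zero =>
    refine ⟨0, zero_mem _, fun x => ?_⟩
    change (0 : PM v A G M) = 0 ^ p
    rw [zero_pow hp.ne_zero]
  | add a b _ _ ha hb =>
    obtain ⟨a', ha', h1⟩ := ha
    obtain ⟨b', hb', h2⟩ := hb
    refine ⟨a' + b', add_mem ha' hb', fun x => ?_⟩
    change (a : Module.End k (PM v A G M)) (x ^ p) + (b : Module.End k (PM v A G M)) (x ^ p) =
      ((a' : Module.End k (PM v A G M)) x + (b' : Module.End k (PM v A G M)) x) ^ p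
    rw [h1, h2, add_pow_char]
  | smul d a _ ha =>
    obtain ⟨a', ha', h1⟩ := ha
    obtain ⟨c, rfl⟩ := (PerfectRing.bijective_frobenius (R := k) (p := p)).2 d
    refine ⟨c • a', Submodule.smul_mem _ _ ha', fun x => ?_⟩
    change (frobenius k p c) • (a : Module.End k (PM v A G M)) (x ^ p) =
      (c • (a' : Module.End k (PM v A G M)) x) ^ p
    rw [h1, _root_.smul_pow, frobenius_def]

variable [IsAlgClosed Ω]

include W in
theorem perfE : ∀ a ∈ PM v N G M, ∃ b ∈ PM v N G M, b ^ p = a := by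
  have h1 : PM v N G M = PM v ⊥ G M := le_antisymm (PM.le_of PM.cld W.gen fun g hg => PM.mon hg)
    (PM.mono bot_le)
  rw [h1]
  refine PM.perf p W.ms W.div fun a ha => ?_
  obtain ⟨c, rfl⟩ := IntermediateField.mem_bot.1 ha
  obtain ⟨d, rfl⟩ := (PerfectRing.bijective_frobenius (R := k) (p := p)).2 c
  exact ⟨_, (⊥ : IntermediateField k Ω).algebraMap_mem d, (map_pow (algebraMap k Ω) d p).symm⟩

/-- **The operators of the tame base.** -/
theorem oper : Oper p v N (PM v N G M) (W.TT hΩ N le_rfl W.NL W.cldN) where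
  le := PM.le
  cldC := W.cldN
  cld := PM.cld
  perf := W.perfE
  mul _ hφ _ hψ := W.TT_mul hΩ hφ hψ
  tw _ hφ := W.TT_tw hΩ hφ
  lin _ hφ c hc x := W.TT_lin hΩ hφ c (W.NL hc) x
  one _ hφ := W.TT_one hΩ hφ

end World

end Pool.Agent.TWIV
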