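import Pool.Agent.Lib.TWIV.W1
import Pool.Agent.Lib.TWC.Vp

/-!
# TANK W, tame case, row A2: the property `V'` of the tame base

* `rt p x`: the `p`-th root in `Ω`;
* `PhiW`: the map `x ↦ ∑_a Fr^(a - b) A_a x` (`a < b`) of `ι → Ω`;
* `fin_word`: `π_j Φ^m(e)` is integral for large `m`, if `e` is in `E`;
* `World.nsd`: `NSD p (W.oper hΩ)`.
-/

set_option autoImplicit false
set_option linter.unusedSectionVars false

open Polynomial

namespace Pool.Agent.TWIV

open Pool.Agent.H15JM (RVal)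
open Pool.Agent.LU1 (VPos adj)
open Pool.Agent.D2 (Ctx0)
open Pool.Agent.D2P (hen clI mem_clI)
open Pool.Agent.TWM Pool.Agent.TWC Pool.Agent.TWS

universe u

variable {k Ω : Type u} [Field k] [Field Ω] [Algebra k Ω] {v : RVal Ω} [Fact (Ctx0 k v)]
  {N L A B : IntermediateField k Ω} {G : AddSubgroup ℝ} {M : ℝ → Ω} {p : ℕ}

/-! ### Roots -/

section Rt

variable (p) [Fact p.Prime] [CharP Ω p] [IsAlgClosed Ω]

omit [Field k] [Algebra k Ω] [Fact (Ctx0 k v)] in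
theorem exists_rt (x : Ω) : ∃ y : Ω, y ^ p = x :=
  IsAlgClosed.exists_pow_nat_eq x (Fact.out : p.Prime).pos

/-- The `p`-th root. -/
noncomputable def rt (x : Ω) : Ω := (exists_rt p x).choose

theorem rt_pow (x : Ω) : rt p x ^ p = x := (exists_rt p x).choose_spec

theorem pow_inj {x y : Ω} (h : x ^ p = y ^ p) : x = y := by
  rw [← sub_eq_zero] at h ⊢
  rw [← sub_pow_char] at h
  exact eq_zero_of_pow_eq_zero h

theorem rt_eq {x y : Ω} (h : y ^ p = x) : rt p x = y := pow_inj p (by rw [rt_pow, h])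

theorem rt_add (x y : Ω) : rt p (x + y) = rt p x + rt p y :=
  rt_eq p (by rw [add_pow_char, rt_pow, rt_pow])

theorem rt_zero : rt p (0 : Ω) = 0 := rt_eq p (zero_pow (Fact.out : p.Prime).ne_zero)

theorem rt_ge {x : Ω} {b : ℝ} (h : v.Ge b x) : v.Ge (b / p) (rt p x) := by
  have hp : (0 : ℝ) < p := by exact_mod_cast (Fact.out : p.Prime).pos
  intro h0
  have h1 : x ≠ 0 := by
    rw [← rt_pow p x]
    exact pow_ne_zero _ h0
  have h2 := h h1
  rw [← rt_pow p x, v.map_pow h0] at h2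
  rwa [div_le_iff₀ hp, mul_comm]

/-- `p ^ n`-th roots. -/
noncomputable def rtn (n : ℕ) (x : Ω) : Ω := (rt p)^[n] x

theorem rtn_pow (n : ℕ) (x : Ω) : rtn p n x ^ p ^ n = x := by
  induction n generalizing x with
  | zero => rw [pow_zero, pow_one]; rfl
  | succ n ih =>
    rw [rtn, Function.iterate_succ_apply', pow_succ', pow_mul, rt_pow]
    exact ih x

theorem rtn_add (n : ℕ) (x y : Ω) : rtn p n (x + y) = rtn p n x + rtn p n y := by
  induction n with
  | zero => rfl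
  | succ n ih =>
    simp only [rtn, Function.iterate_succ_apply'] at ih ⊢
    rw [ih, rt_add]

theorem rtn_ge (n : ℕ) {x : Ω} {b : ℝ} (h : v.Ge b x) : v.Ge (b / (p : ℝ) ^ n) (rtn p n x) := by
  induction n with
  | zero => rwa [pow_zero, div_one]
  | succ n ih =>
    rw [rtn, Function.iterate_succ_apply', pow_succ, ← div_div]
    exact rt_ge p ih

theorem rtn_succ (n : ℕ) (x : Ω) : rtn p (n + 1) x = rt p (rtn p n x) := by
  rw [rtn, Function.iterate_succ_apply']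
  rfl

theorem rtn_zero (n : ℕ) : rtn p n (0 : Ω) = 0 := by
  induction n with
  | zero => rfl
  | succ n ih => rw [rtn_succ, ih, rt_zero]

theorem rtn_mem {E : IntermediateField k Ω} (hE : ∀ a ∈ E, ∃ b ∈ E, b ^ p = a) (n : ℕ) {x : Ω}
    (hx : x ∈ E) : rtn p n x ∈ E := by
  induction n with
  | zero => exact hx
  | succ n ih =>
    obtain ⟨b, hb, h⟩ := hE _ ih
    rw [rtn_succ, rt_eq p h]
    exact hb

theorem rt_mon (hM : MS v G M) (hG : ∀ g ∈ G, g / p ∈ G) {g : ℝ} (hg : g ∈ G) :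
    rt p (M g) = M (g / p) := by
  refine rt_eq p ?_
  have hp0 : (p : ℝ) ≠ 0 := by exact_mod_cast (Fact.out : p.Prime).ne_zero
  rw [← hM.pow (hG g hg) p, mul_div_cancel₀ _ hp0]

theorem rt_smul [CharP k p] [PerfectRing k p] (a : k) (x : Ω) :
    ∃ b : k, rt p (a • x) = b • rt p x := by
  obtain ⟨b, rfl⟩ := (PerfectRing.bijective_frobenius (R := k) (p := p)).2 a
  refine ⟨b, rt_eq p ?_⟩
  rw [_root_.smul_pow, rt_pow]

end Rt

/-! ### The spans of the monomials of an orbit -/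

/-- The span of the `M (g / p ^ h)`, `h ≥ h₀`. -/
def Orb (k : Type u) {Ω : Type u} [Field k] [Field Ω] [Algebra k Ω] (p : ℕ) (M : ℝ → Ω) (g : ℝ)
    (h₀ : ℕ) : Submodule k Ω :=
  Submodule.span k {x | ∃ h, h₀ ≤ h ∧ M (g / (p : ℝ) ^ h) = x}

theorem Orb_mono {g : ℝ} {a b : ℕ} (h : a ≤ b) : Orb k p M g b ≤ Orb k p M g a :=
  Submodule.span_mono fun _ ⟨n, hn, h1⟩ => ⟨n, h.trans hn, h1⟩

section Orb

variable (p) [Fact p.Prime] [CharP k p] [CharP Ω p] [PerfectRing k p] [IsAlgClosed Ω]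


theorem Orb_rt (hM : MS v G M) (hG : ∀ g ∈ G, g / p ∈ G) {g : ℝ} (hg : g ∈ G) {h₀ : ℕ} {x : Ω}
    (hx : x ∈ Orb k p M g h₀) : rt p x ∈ Orb k p M g (h₀ + 1) := by
  have hgn : ∀ n : ℕ, g / (p : ℝ) ^ n ∈ G := fun n => by
    induction n with
    | zero => rwa [pow_zero, div_one]
    | succ n ih =>
      rw [pow_succ, ← div_div]
      exact hG _ ih
  induction hx using Submodule.span_induction with
  | mem x hx =>
    obtain ⟨n, hn, rfl⟩ := hx
    refine Submodule.subset_span ⟨n + 1, by omega, ?_⟩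
    rw [rt_mon p hM hG (hgn n), div_div, ← pow_succ]
  | zero =>
    rw [rt_zero]
    exact zero_mem _
  | add x y _ _ hx hy =>
    rw [rt_add]
    exact add_mem hx hy
  | smul a x _ hx =>
    obtain ⟨b, hb⟩ := rt_smul p a x
    rw [hb]
    exact Submodule.smul_mem _ b hx

theorem Orb_rtn (hM : MS v G M) (hG : ∀ g ∈ G, g / p ∈ G) {g : ℝ} (hg : g ∈ G) {h₀ n : ℕ} {x : Ω}
    (hx : x ∈ Orb k p M g h₀) : rtn p n x ∈ Orb k p M g (h₀ + n) := by
  induction n with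
  | zero => exact hx
  | succ n ih =>
    rw [rtn_succ]
    exact Orb_rt p hM hG hg ih

end Orb

/-! ### The map `Φ` -/

section Phi

variable (p) [Fact p.Prime] [CharP k p] [CharP Ω p] [PerfectRing k p] [IsAlgClosed Ω]
  {ι : Type} [Fintype ι] {E : IntermediateField k Ω}

/-- `x ↦ ∑_a Fr^(a - b) (lam x + ψ x)`. -/
noncomputable def PhiW (b : ℕ) (lam : ℕ → ι → ι → k) (ψ : ℕ → ι → ι → Opr v E) (x : ι → Ω) :
    ι → Ω := fun l => ∑ a ∈ Finset.range b, ∑ l', rtn p (b - a) (lam a l l' • x l' +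
      fn (ψ a l l') (x l'))

variable {b : ℕ} {lam : ℕ → ι → ι → k} {ψ : ℕ → ι → ι → Opr v E}

theorem PhiW_mem (hE : ∀ a ∈ E, ∃ b ∈ E, b ^ p = a) {x : ι → Ω} (hx : ∀ l, x l ∈ E) (l : ι) :
    PhiW p b lam ψ x l ∈ E :=
  sum_mem fun _ _ => sum_mem fun l' _ => rtn_mem p hE _
    (add_mem (E.smul_mem (hx l')) (fn_mem _ _))

theorem PhiW_add {x y : ι → Ω} (hx : ∀ l, x l ∈ E) (hy : ∀ l, y l ∈ E) :
    PhiW p b lam ψ (x + y) = PhiW p b lam ψ x + PhiW p b lam ψ y := by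
  funext l
  simp only [PhiW, Pi.add_apply]
  rw [← Finset.sum_add_distrib]
  refine Finset.sum_congr rfl fun a _ => ?_
  rw [← Finset.sum_add_distrib]
  refine Finset.sum_congr rfl fun l' _ => ?_
  rw [← rtn_add, smul_add, fn_add _ (hx l') (hy l')]
  congr 1
  ring

theorem PhiW_ge {x : ι → Ω} (hx : ∀ l, x l ∈ E) {K : ℝ} (hK : 0 ≤ K) (h : ∀ l, v.Ge (-K) (x l))
    (l : ι) : v.Ge (-(K / p)) (PhiW p b lam ψ x l) := by
  have hp1 : (1 : ℝ) ≤ p := by exact_mod_cast (Fact.out : p.Prime).one_le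
  have hp0 : (0 : ℝ) < p := by linarith
  refine RVal.Ge.sum _ _ fun a ha => RVal.Ge.sum _ _ fun l' _ => ?_
  have h1 : v.Ge (-K) (lam a l l' • x l' + fn (ψ a l l') (x l')) := by
    refine RVal.Ge.add ?_ (fn_ge _ (hx l') (h l'))
    rw [Algebra.smul_def]
    have := ((Fact.out : Ctx0 k v).ge (lam a l l')).mul (h l')
    rwa [zero_add] at this
  refine (rtn_ge p (b - a) h1).mono ?_
  obtain ⟨n, hn⟩ : ∃ n, b - a = n + 1 := ⟨b - a - 1, by
    have := Finset.mem_range.1 ha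
    omega⟩
  rw [hn, neg_div, neg_le_neg_iff]
  have h2 : (p : ℝ) ≤ (p : ℝ) ^ (n + 1) := by
    rw [pow_succ]
    have := one_le_pow₀ hp1 (n := n)
    nlinarith
  exact div_le_div_of_nonneg_left hK hp0 h2

theorem PhiW_ge0 {x : ι → Ω} (hx : ∀ l, x l ∈ E) (h : ∀ l, v.Ge 0 (x l)) (l : ι) :
    v.Ge 0 (PhiW p b lam ψ x l) := by
  have h1 := PhiW_ge p (b := b) (lam := lam) (ψ := ψ) hx (le_refl 0) (by simpa using h) l
  simpa using h1

theorem PhiW_it_mem (hE : ∀ a ∈ E, ∃ b ∈ E, b ^ p = a) {x : ι → Ω} (hx : ∀ l, x l ∈ E) (n : ℕ)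
    (l : ι) : (PhiW p b lam ψ)^[n] x l ∈ E := by
  induction n generalizing l with
  | zero => exact hx l
  | succ n ih =>
    rw [Function.iterate_succ_apply']
    exact PhiW_mem p hE ih l

theorem PhiW_it_add (hE : ∀ a ∈ E, ∃ b ∈ E, b ^ p = a) {x y : ι → Ω} (hx : ∀ l, x l ∈ E)
    (hy : ∀ l, y l ∈ E) (n : ℕ) :
    (PhiW p b lam ψ)^[n] (x + y) = (PhiW p b lam ψ)^[n] x + (PhiW p b lam ψ)^[n] y := by
  induction n with
  | zero => rfl
  | succ n ih =>
    simp only [Function.iterate_succ_apply']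
    rw [ih, PhiW_add p (PhiW_it_mem p hE hx n) (PhiW_it_mem p hE hy n)]

theorem PhiW_it_ge (hE : ∀ a ∈ E, ∃ b ∈ E, b ^ p = a) {x : ι → Ω} (hx : ∀ l, x l ∈ E) {K : ℝ}
    (hK : 0 ≤ K) (h : ∀ l, v.Ge (-K) (x l)) (n : ℕ) (l : ι) :
    v.Ge (-(K / (p : ℝ) ^ n)) ((PhiW p b lam ψ)^[n] x l) := by
  have hp0 : (0 : ℝ) < p := by exact_mod_cast (Fact.out : p.Prime).pos
  induction n generalizing l with
  | zero =>
    rw [pow_zero, div_one]
    exact h l
  | succ n ih =>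
    rw [Function.iterate_succ_apply', pow_succ, ← div_div]
    exact PhiW_ge p (PhiW_it_mem p hE hx n) (by positivity) ih l

theorem PhiW_it_ge0 (hE : ∀ a ∈ E, ∃ b ∈ E, b ^ p = a) {x : ι → Ω} (hx : ∀ l, x l ∈ E)
    (h : ∀ l, v.Ge 0 (x l)) (n : ℕ) (l : ι) : v.Ge 0 ((PhiW p b lam ψ)^[n] x l) := by
  induction n generalizing l with
  | zero => exact h l
  | succ n ih =>
    rw [Function.iterate_succ_apply']
    exact PhiW_ge0 p (PhiW_it_mem p hE hx n) ih l

/-- The iteration of `x = Φ x + e + η`. -/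
theorem PhiW_iter (hE : ∀ a ∈ E, ∃ b ∈ E, b ^ p = a) {x e η : ι → Ω} (hx : ∀ l, x l ∈ E)
    (he : ∀ l, e l ∈ E) (hη : ∀ l, η l ∈ E) (h : x = PhiW p b lam ψ x + (e + η)) (n : ℕ) :
    x = (PhiW p b lam ψ)^[n] x + (∑ m ∈ Finset.range n, (PhiW p b lam ψ)^[m] e +
      ∑ m ∈ Finset.range n, (PhiW p b lam ψ)^[m] η) := by
  induction n with
  | zero =>
    rw [Finset.sum_range_zero, Finset.sum_range_zero]
    simp
  | succ n ih =>
    have h1 : (PhiW p b lam ψ)^[n] x = (PhiW p b lam ψ)^[n + 1] x +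
        ((PhiW p b lam ψ)^[n] e + (PhiW p b lam ψ)^[n] η) := by
      conv_lhs => rw [h]
      rw [PhiW_it_add p hE (y := e + η) (PhiW_mem p hE hx) (fun l => add_mem (he l) (hη l)),
        PhiW_it_add p hE he hη, Function.iterate_succ_apply]
    rw [Finset.sum_range_succ, Finset.sum_range_succ]
    conv_lhs => rw [ih, h1]
    abel

end Phi

/-! ### The words -/

namespace World

variable (W : World p v N L G M) (hΩ : CompleteV v)

include W in
theorem divn {g : ℝ} (hg : g ∈ G) (n : ℕ) : g / (p : ℝ) ^ n ∈ G := W.div_pow hg n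

/-- The operators act on the spans of the monomials. -/
theorem fn_TT_mon {ψ : Opr v (PM v N G M)} (hψ : ψ ∈ W.TT hΩ N le_rfl W.NL W.cldN) {g : ℝ}
    (hg : g ∈ G) : ∃ c : k, fn ψ (M g) = c • M g := by
  have hm : M g ∈ PM v N G M := PM.mon hg
  induction hψ using Submodule.span_induction with
  | mem φ h =>
    obtain ⟨j, rfl⟩ := h
    by_cases hj : g ∈ Gj p v N G j
    · refine ⟨0, ?_⟩
      rw [W.fn_qj hΩ j hm, (W.isPj hΩ j).prj.self _ (PM.mon hj), sub_self, zero_smul]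
    · refine ⟨1, ?_⟩
      rw [W.fn_qj hΩ j hm, (W.isPj hΩ j).mon g hg hj, sub_zero, one_smul]
  | zero => exact ⟨0, by rw [fn_of_mem _ hm, zero_smul]; rfl⟩
  | add a b _ _ ha hb =>
    obtain ⟨c, hc⟩ := ha
    obtain ⟨d, hd⟩ := hb
    refine ⟨c + d, ?_⟩
    rw [fn_of_mem _ hm] at hc hd ⊢
    rw [add_smul, ← hc, ← hd]
    rfl
  | smul d a _ ha =>
    obtain ⟨c, hc⟩ := ha
    refine ⟨d * c, ?_⟩
    rw [fn_of_mem _ hm] at hc ⊢
    rw [mul_smul, ← hc]
    rfl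

include W in
theorem Orb_le {g : ℝ} (hg : g ∈ G) (h₀ : ℕ) {x : Ω} (hx : x ∈ Orb k p M g h₀) :
    x ∈ PM v N G M := by
  induction hx using Submodule.span_induction with
  | mem x hx =>
    obtain ⟨n, -, rfl⟩ := hx
    exact PM.mon (W.div_pow hg n)
  | zero => exact zero_mem _
  | add x y _ _ hx hy => exact add_mem hx hy
  | smul a x _ hx => exact (PM v N G M).smul_mem hx

theorem Orb_fn {ψ : Opr v (PM v N G M)} (hψ : ψ ∈ W.TT hΩ N le_rfl W.NL W.cldN) {g : ℝ}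
    (hg : g ∈ G) {h₀ : ℕ} {x : Ω} (hx : x ∈ Orb k p M g h₀) : fn ψ x ∈ Orb k p M g h₀ := by
  have hle : ∀ {x : Ω}, x ∈ Orb k p M g h₀ → x ∈ PM v N G M := fun h => W.Orb_le hg h₀ h
  induction hx using Submodule.span_induction with
  | mem x hx =>
    obtain ⟨n, hn, rfl⟩ := hx
    obtain ⟨c, hc⟩ := W.fn_TT_mon hΩ hψ (W.div_pow hg n)
    rw [hc]
    exact Submodule.smul_mem _ c (Submodule.subset_span ⟨n, hn, rfl⟩)
  | zero =>
    rw [fn_zero]
    exact zero_mem _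
  | add x y hx hy h1 h2 =>
    rw [fn_add ψ (hle hx) (hle hy)]
    exact add_mem h1 h2
  | smul a x hx h1 =>
    rw [fn_smul ψ a (hle hx)]
    exact Submodule.smul_mem _ _ h1

variable [Fact p.Prime]

include W in
/-- The far monomials of an orbit are not in `Gj`. -/
theorem exists_far {g : ℝ} (hg : g ∈ G) (h0 : g ≠ 0) (j : ℕ) :
    ∃ n₀ : ℕ, ∀ n, n₀ ≤ n → g / (p : ℝ) ^ n ∉ Gj p v N G j := by
  have hp0 : (p : ℝ) ≠ 0 := by exact_mod_cast (Fact.out : p.Prime).ne_zero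
  obtain ⟨n, hn⟩ := W.fin g hg h0
  refine ⟨n + j, fun m hm hmem => hn ?_⟩
  obtain ⟨d, rfl⟩ := Nat.exists_eq_add_of_le hm
  have h1 := (VG v N).nsmul_mem hmem.2 (p ^ d)
  rw [nsmul_eq_mul] at h1
  push_cast at h1
  have h2 : (p : ℝ) ^ d * ((p : ℝ) ^ j * (g / (p : ℝ) ^ (n + j + d))) = g / (p : ℝ) ^ n := by
    rw [pow_add, pow_add]
    field_simp
  rwa [h2] at h1

theorem pj_Orb {g : ℝ} (hg : g ∈ G) (j : ℕ) : ∃ n₀ : ℕ, ∀ x ∈ Orb k p M g n₀,
    v.Ge 0 (W.pj hΩ j x) := by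
  have hk : Ctx0 k v := Fact.out
  have hT : ∀ {n₀ : ℕ} {x : Ω}, x ∈ Orb k p M g n₀ → x ∈ PM v L G M := fun h =>
    PM.mono W.NL (W.Orb_le hg _ h)
  have key : ∀ n₀ : ℕ, (∀ n, n₀ ≤ n → v.Ge 0 (W.pj hΩ j (M (g / (p : ℝ) ^ n)))) →
      ∀ x ∈ Orb k p M g n₀, v.Ge 0 (W.pj hΩ j x) := by
    intro n₀ hn x hx
    induction hx using Submodule.span_induction with
    | mem x hx =>
      obtain ⟨n, h, rfl⟩ := hx
      exact hn n h
    | zero =>
      rw [(W.isPj hΩ j).prj.zero]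
      exact RVal.Ge.zero
    | add x y hx hy h1 h2 =>
      rw [(W.isPj hΩ j).prj.add x (hT hx) y (hT hy)]
      exact h1.add h2
    | smul a x hx h1 =>
      rw [(W.isPj hΩ j).prj.smul a (hT hx), Algebra.smul_def]
      have := (hk.ge a).mul h1
      rwa [zero_add] at this
  by_cases h0 : g = 0
  · refine ⟨0, key 0 fun n _ => ?_⟩
    subst h0
    rw [zero_div, W.ms.zero, (W.isPj hΩ j).prj.self 1 (one_mem _)]
    intro _
    rw [v.map_one]
  · obtain ⟨n₀, hn⟩ := W.exists_far hg h0 j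
    refine ⟨n₀, key n₀ fun n h => ?_⟩
    rw [(W.isPj hΩ j).mon _ (W.div_pow hg n) (hn n h)]
    exact RVal.Ge.zero

variable [CharP k p] [CharP Ω p] [PerfectRing k p] [IsAlgClosed Ω] {ι : Type} [Fintype ι]
  {b : ℕ} {lam : ℕ → ι → ι → k} {ψ : ℕ → ι → ι → Opr v (PM v N G M)}

theorem PhiW_Orb (hψ : ∀ a l l', ψ a l l' ∈ W.TT hΩ N le_rfl W.NL W.cldN) {g : ℝ} (hg : g ∈ G)
    {h₀ : ℕ} {x : ι → Ω} (hx : ∀ l, x l ∈ Orb k p M g h₀) (l : ι) :
    PhiW p b lam ψ x l ∈ Orb k p M g (h₀ + 1) := by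
  refine sum_mem fun a ha => sum_mem fun l' _ => ?_
  have h1 := Orb_rtn p W.ms W.div hg (n := b - a)
    (add_mem (Submodule.smul_mem _ (lam a l l') (hx l')) (W.Orb_fn hΩ (hψ a l l') hg (hx l')))
  refine Orb_mono ?_ h1
  have := Finset.mem_range.1 ha
  omega

theorem PhiW_it_Orb (hψ : ∀ a l l', ψ a l l' ∈ W.TT hΩ N le_rfl W.NL W.cldN) {g : ℝ}
    (hg : g ∈ G) {h₀ : ℕ} {x : ι → Ω} (hx : ∀ l, x l ∈ Orb k p M g h₀) (n : ℕ) (l : ι) :
    (PhiW p b lam ψ)^[n] x l ∈ Orb k p M g (h₀ + n) := by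
  induction n generalizing l with
  | zero => exact hx l
  | succ n ih =>
    rw [Function.iterate_succ_apply']
    exact W.PhiW_Orb hΩ hψ hg ih l

include W in
theorem E_eq : PM v N G M = PM v ⊥ G M :=
  le_antisymm (PM.le_of PM.cld W.gen fun _ hg => PM.mon hg) (PM.mono bot_le)

include W in
/-- The elements of `E` are near to sums of monomials. -/
theorem denseE {x : Ω} (hx : x ∈ PM v N G M) (c : ℝ) : ∃ (S : Finset ℝ) (a : ℝ → k),
    (∀ g ∈ S, g ∈ G) ∧ v.Ge c (x - ∑ g ∈ S, a g • M g) := by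
  have hM : MonG v (⊥ : IntermediateField k Ω) G M := ⟨W.ms, fun g hg h => by
    obtain ⟨y, hy, hy0, rfl⟩ := h
    obtain ⟨c, rfl⟩ := IntermediateField.mem_bot.1 hy
    have hc : c ≠ 0 := fun h => hy0 (by rw [h, map_zero])
    rw [(Fact.out : Ctx0 k v).triv c hc, W.ms.zero]
    exact one_mem _⟩
  rw [W.E_eq] at hx
  obtain ⟨Lf, hL, h1⟩ := dense_PM hM (Imm.refl _) hx c
  choose a ha using fun g => IntermediateField.mem_bot.1 (hL.mem g)
  refine ⟨Lf.support, a, fun g hg => (hL.rep g (Finsupp.mem_support_iff.1 hg)).1, ?_⟩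
  have e : evM M Lf = ∑ g ∈ Lf.support, a g • M g :=
    Finset.sum_congr rfl fun g _ => by rw [Algebra.smul_def, ha]
  rwa [e] at h1

/-- **The words of an element of `E`.** -/
theorem fin_word (hψ : ∀ a l l', ψ a l l' ∈ W.TT hΩ N le_rfl W.NL W.cldN) (j : ℕ) {e : ι → Ω}
    (he : ∀ l, e l ∈ PM v N G M) :
    ∃ m₀ : ℕ, ∀ m, m₀ ≤ m → ∀ l, v.Ge 0 (W.pj hΩ j ((PhiW p b lam ψ)^[m] e l)) := by
  classical
  have hE := W.perfE
  have hTm : ∀ {x : Ω}, x ∈ PM v N G M → x ∈ PM v L G M := fun h => PM.mono W.NL h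
  -- the predicate
  let P : (ι → Ω) → Prop := fun e => (∀ l, e l ∈ PM v N G M) ∧
    ∃ m₀ : ℕ, ∀ m, m₀ ≤ m → ∀ l, v.Ge 0 (W.pj hΩ j ((PhiW p b lam ψ)^[m] e l))
  have hadd : ∀ x y, P x → P y → P (x + y) := by
    rintro x y ⟨hx, m₁, h1⟩ ⟨hy, m₂, h2⟩
    refine ⟨fun l => add_mem (hx l) (hy l), max m₁ m₂, fun m hm l => ?_⟩
    rw [PhiW_it_add p hE hx hy, Pi.add_apply, (W.isPj hΩ j).prj.add _
      (hTm (PhiW_it_mem p hE hx m l)) _ (hTm (PhiW_it_mem p hE hy m l))]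
    exact (h1 m ((le_max_left _ _).trans hm) l).add (h2 m ((le_max_right _ _).trans hm) l)
  have h0 : P 0 := by
    refine ⟨fun l => zero_mem _, 0, fun m _ l => ?_⟩
    refine (W.isPj hΩ j).prj.ge _ (hTm (PhiW_it_mem p hE (fun l => zero_mem _) m l)) 0 ?_
    exact PhiW_it_ge0 p hE (fun l => zero_mem _) (fun l => RVal.Ge.zero) m l
  have hge : ∀ x : ι → Ω, (∀ l, x l ∈ PM v N G M) → (∀ l, v.Ge 0 (x l)) → P x := by
    intro x hx h
    refine ⟨hx, 0, fun m _ l => ?_⟩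
    exact (W.isPj hΩ j).prj.ge _ (hTm (PhiW_it_mem p hE hx m l)) 0 (PhiW_it_ge0 p hE hx h m l)
  have hmon : ∀ g ∈ G, ∀ x : ι → Ω, (∀ l, x l ∈ Orb k p M g 0) → P x := by
    intro g hg x hx
    obtain ⟨n₀, hn⟩ := W.pj_Orb hΩ hg j
    refine ⟨fun l => W.Orb_le hg 0 (hx l), n₀, fun m hm l => hn _ ?_⟩
    have h1 := W.PhiW_it_Orb hΩ (b := b) (lam := lam) hψ hg hx m l
    exact Orb_mono (by omega) h1
  have hsum : ∀ (S : Finset ℝ) (x : ℝ → ι → Ω), (∀ g ∈ S, P (x g)) → P (∑ g ∈ S, x g) := by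
    intro S x h
    induction S using Finset.induction_on with
    | empty => rwa [Finset.sum_empty]
    | insert a S ha ih =>
      rw [Finset.sum_insert ha]
      exact hadd _ _ (h a (Finset.mem_insert_self a S))
        (ih fun g hg => h g (Finset.mem_insert_of_mem hg))
  choose S a hS ha using fun l => W.denseE (he l) 0
  have hfin : P (∑ l, fun l' => if l' = l then ∑ g ∈ S l, a l g • M g else 0) := by
    have hsum' : ∀ (T : Finset ι) (x : ι → ι → Ω), (∀ l ∈ T, P (x l)) → P (∑ l ∈ T, x l) := by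
      intro T x h
      induction T using Finset.induction_on with
      | empty => rwa [Finset.sum_empty]
      | insert a T ha ih =>
        rw [Finset.sum_insert ha]
        exact hadd _ _ (h a (Finset.mem_insert_self a T))
          (ih fun g hg => h g (Finset.mem_insert_of_mem hg))
    refine hsum' _ _ fun l _ => ?_
    have h1 : (fun l' => if l' = l then ∑ g ∈ S l, a l g • M g else 0) =
        ∑ g ∈ S l, fun l' : ι => if l' = l then a l g • M g else 0 := by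
      funext l'
      rw [Finset.sum_apply]
      split_ifs with h
      · rfl
      · rw [Finset.sum_const_zero]
    rw [h1]
    refine hsum _ _ fun g hg => hmon g (hS l g hg) _ fun l' => ?_
    split_ifs
    · refine Submodule.smul_mem _ _ (Submodule.subset_span ⟨0, le_rfl, ?_⟩)
      rw [pow_zero, div_one]
    · exact zero_mem _
  have h2 : e = (∑ l, fun l' => if l' = l then ∑ g ∈ S l, a l g • M g else 0) +
      fun l => e l - ∑ g ∈ S l, a l g • M g := by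
    funext l'
    rw [Pi.add_apply, Finset.sum_apply, Finset.sum_ite_eq Finset.univ l', if_pos (Finset.mem_univ _)]
    ring
  have h3 : P fun l => e l - ∑ g ∈ S l, a l g • M g := by
    refine hge _ (fun l => sub_mem (he l) (sum_mem fun g hg => ?_)) ha
    exact (PM v N G M).smul_mem (PM.mon (hS l g hg))
  have h4 := hadd _ _ hfin h3
  rw [← h2] at h4
  exact h4.2

end World

end Pool.Agent.TWIV
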