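import Pool.Agent.Lib.TWIV.W1S

/-!
# TANK W, leaf (IV): (W_2) = FV(y; z) for families

* `MixIn`: the output of the step at floor two: a system over `B⟨z⟩`, `B = E⟨y⟩`, whose
  derivatives of order `p^c` at `z` are in `L(E)`;
* `HMix`: the sequences of a `MixIn` split (supplied by S6);
* `w2s`: `HMix` ⇒ every system over `B⟨z⟩` splits;
* `w2c`: the same for dominated families of Cauchy sequences of `B⟨z⟩`.
-/

set_option autoImplicit false
set_option linter.unusedSectionVars false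

open Polynomial

namespace Pool.Agent.TWIV

open Pool.Agent.H15JM (RVal)
open Pool.Agent.D2 (Ctx0)
open Pool.Agent.TWM Pool.Agent.TWC

universe u

variable {k Ω : Type u} [Field k] [Field Ω] [Algebra k Ω] {v : RVal Ω}

/-- The output of the step at floor two. -/
structure MixIn (p : ℕ) (v : RVal Ω) (𝒜 : Submodule k (Module.End k Ω))
    (E : IntermediateField k Ω) (y z : Ω) {ι : Type} [Fintype ι] (D N : ℕ)
    (x : ι → ℕ → Polynomial Ω) (φ : ι → ι → Module.End k Ω) (f : ι → Polynomial Ω)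
    (w : ι → ℕ → ℕ → Ω) : Prop where
  sy : Sy p v 𝒜 (cadj v E y) z x φ f
  deg : ∀ j i, (x j i).natDegree ≤ D
  cau : ∀ j c, Cau v E (w j c)
  zero : ∀ j c, N ≤ c → w j c = fun _ => 0
  jet : ∀ j c, Nul v fun i => (hasseDeriv (p ^ c) (x j i)).eval z - w j c i

/-- The sequences of a `MixIn` split. -/
def HMix (p : ℕ) (v : RVal Ω) (𝒜 : Submodule k (Module.End k Ω)) (E : IntermediateField k Ω)
    (y z : Ω) : Prop :=
  ∀ (ι : Type) [Fintype ι] (D N : ℕ) (x : ι → ℕ → Polynomial Ω)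
    (φ : ι → ι → Module.End k Ω) (f : ι → Polynomial Ω) (w : ι → ℕ → ℕ → Ω),
    MixIn p v 𝒜 E y z D N x φ f w → ∀ j, ∃ b m, Spl v (cadj v E y) z (x j) b m

variable [hc : Fact (Ctx0 k v)]
  {E : IntermediateField k Ω} {y z : Ω} {𝒜 : Submodule k (Module.End k Ω)}
  (p : ℕ) [Fact p.Prime] [CharP k p] [CharP Ω p] [PerfectRing k p] [IsAlgClosed Ω]

/-- The chains of floor two. -/
theorem chain2 (hA : OpA v 𝒜) (hS : Stb 𝒜 E y) (hy : TL v E y 0)
    (hE : ∀ a ∈ E, ∃ b ∈ E, b ^ p = a) (H : HTor p v 𝒜 E) {ι : Type} [Fintype ι] {N : ℕ}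
    {m : ι → ℕ → ℕ → Ω} (hm : ∀ j c, Cau v (cadj v E y) (m j c))
    (h0 : ∀ j c, N ≤ c → m j c = fun _ => 0)
    (h1 : ∀ j c, Dm v 𝒜 (cadj v E y) (fun l => m l (c + 1)) fun n => m j c n ^ p)
    (j : ι) (c : ℕ) : InBE v (cadj v E y) E (m j c) := by
  classical
  have hp : p.Prime := Fact.out
  by_cases hcN : N ≤ c
  · rw [h0 j c hcN]
    exact ⟨0, zero_mem _, fun _ => 0, Cau.const (zero_mem E), Nul.zero.congr fun i => by simp⟩
  have h2 := w1c p hA hS hy hE H (κ := ι × Fin (N + 1)) (m := fun q => m q.1 q.2)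
    (fun q => hm q.1 q.2) (fun q => ?_) (j, ⟨c, by omega⟩)
  · exact h2
  obtain ⟨l, a, ha⟩ := q
  dsimp only
  by_cases haN : N ≤ a
  · rw [h0 l a haN]
    refine ⟨fun _ => 0, 0, fun _ => zero_mem _, zero_mem _, Nul.zero.congr fun n => ?_⟩
    simp [hp.ne_zero]
  · obtain ⟨φ, e, hφ, he, hn⟩ := h1 l a
    refine ⟨fun q => if (q.2 : ℕ) = a + 1 then φ q.1 else 0, e, fun q => ?_, he,
      hn.congr fun n => ?_⟩
    · dsimp only
      split_ifs
      exacts [hφ _, zero_mem _]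
    · congr 2
      rw [Fintype.sum_prod_type]
      refine Finset.sum_congr rfl fun i _ => ?_
      rw [Finset.sum_eq_single (⟨a + 1, by omega⟩ : Fin (N + 1))]
      · dsimp only
        rw [if_pos rfl]
      · intro b _ hb
        dsimp only
        rw [if_neg (fun h => hb (Fin.ext h)), LinearMap.zero_apply]
      · intro h
        exact absurd (Finset.mem_univ _) h

/-- Subtraction of elements of the field from the members of a system. -/
theorem Sy.sub_const {B : IntermediateField k Ω} (hS : Stb 𝒜 B z)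
    (hz : TL v B z 0) {ι : Type} [Fintype ι]
    {x : ι → ℕ → Polynomial Ω} {φ : ι → ι → Module.End k Ω} {f : ι → Polynomial Ω}
    (R : Sy p v 𝒜 B z x φ f) {F : ι → Polynomial Ω} (hF : ∀ j, F j ∈ PI B) :
    Sy p v 𝒜 B z (fun j i => x j i - F j) φ
      (fun j => f j - F j ^ p + ∑ l, gcf z (φ j l) (F l)) where
  pc j := by
    refine ⟨fun i => sub_mem ((R.pc j).mem i) (hF j), fun ε hε => ?_⟩
    obtain ⟨M, hM⟩ := (R.pc j).cau ε hε
    refine ⟨M, fun i i' hi hi' => ?_⟩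
    rw [sub_sub_sub_cancel_right]
    exact hM i i' hi hi'
  opr := R.opr
  mem j := add_mem (sub_mem (R.mem j) (pow_mem (hF j) _))
    (sum_mem fun l _ => gcf_mem hS (R.opr j l) (hF l))
  rel j := by
    refine (R.rel j).congr fun i => ?_
    have hz0 := TL.nez hz
    simp only [eval_sub, eval_add, eval_pow, eval_finsetSum, gcf_eval hz0, map_sub,
      Finset.sum_sub_distrib, sub_pow_char]
    ring

/-- **(W_2) for families.** -/
theorem w2s (hA : OpA v 𝒜) (hSy : Stb 𝒜 E y) (hSz : Stb 𝒜 (cadj v E y) z) (hy : TL v E y 0)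
    (hz : TL v (cadj v E y) z 0) (hE : ∀ a ∈ E, ∃ b ∈ E, b ^ p = a) (H : HTor p v 𝒜 E)
    (hcan : ¬ InBE v (cadj v E y) E (zs hz : ℕ → Ω)) (HM : HMix p v 𝒜 E y z)
    {ι : Type} [Fintype ι]
    {x : ι → ℕ → Polynomial Ω} {φ : ι → ι → Module.End k Ω} {f : ι → Polynomial Ω}
    (R : Sy p v 𝒜 (cadj v E y) z x φ f) (j : ι) : ∃ b m, Spl v (cadj v E y) z (x j) b m := by
  have hp : p.Prime := Fact.out
  refine deg_ind' p hA hSz hz (fun ι _ x φ f R D hD IH j => ?_) R j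
  obtain ⟨F, ν, N, hF, hν, hν0, h1⟩ := step p hA hSz hz R (P := InBE v (cadj v E y) E)
    (Q := Cau v E) (fun κ _ m hm hd l => w1c p hA hSy hy hE H hm hd l) hcan
    (Cau.const (zero_mem E)) (fun N m hm h0 hd j c => chain2 p hA hSy hy hE H hm h0 hd j c) hD IH
  obtain ⟨D', hD'⟩ : ∃ D', ∀ j, (F j).natDegree ≤ D' :=
    ⟨∑ j, (F j).natDegree, fun j => Finset.single_le_sum (f := fun j => (F j).natDegree)
      (fun _ _ => Nat.zero_le _) (Finset.mem_univ j)⟩
  obtain ⟨b, m, h2⟩ := HM ι (max D D') N _ _ _ ν ⟨R.sub_const p hSz hz hF,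
    fun j i => (natDegree_sub_le _ _).trans (max_le_max (hD j i) (hD' j)), hν, hν0, h1⟩ j
  refine ⟨F j + b, m, add_mem (hF j) h2.mem, h2.cau, h2.nul.congr fun i => ?_⟩
  rw [eval_sub, eval_add]
  ring

/-- **(W_2)** for the dominated families of Cauchy sequences of `B⟨z⟩`. -/
theorem w2c (hA : OpA v 𝒜) (hSy : Stb 𝒜 E y) (hSz : Stb 𝒜 (cadj v E y) z) (hy : TL v E y 0)
    (hz : TL v (cadj v E y) z 0) (hE : ∀ a ∈ E, ∃ b ∈ E, b ^ p = a) (H : HTor p v 𝒜 E)
    (hcan : ¬ InBE v (cadj v E y) E (zs hz : ℕ → Ω)) (HM : HMix p v 𝒜 E y z)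
    {κ : Type} [Fintype κ] {m : κ → ℕ → Ω} (hm : ∀ l, Cau v (cadj v (cadj v E y) z) (m l))
    (hd : ∀ l, Dm v 𝒜 (cadj v (cadj v E y) z) m fun n => m l n ^ p) (l : κ) :
    InBE v (cadj v (cadj v E y) z) (cadj v E y) (m l) := by
  have hp : p.Prime := Fact.out
  choose x hx hxm using fun l => exists_pcs hz (hm l)
  choose φ e hφ he hn using hd
  choose f hf hfe using fun l => hz.dense (he l) 0
  have R : Sy p v 𝒜 (cadj v E y) z x φ f := by
    refine ⟨hx, hφ, hf, fun j => ?_⟩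
    have h1 : Nul v fun n => (m j n - (x j n).eval z) ^ p :=
      (Nul.of_ge (hxm j)).pow p
    have h2 : Nul v fun n => ∑ l, φ j l (m l n - (x l n).eval z) :=
      Nul.sum _ _ fun l _ => hA.nul (hφ j l) (Nul.of_ge (hxm l))
    have h3 : Nul v fun _ : ℕ => e j - (f j).eval z := Nul.of_ge fun _ => hfe j
    refine ((((hn j).sub h1).add h2).add h3).congr fun n => ?_
    simp only [map_sub, Finset.sum_sub_distrib, sub_pow_char]
    ring
  obtain ⟨b, ν, h1⟩ := w2s p hA hSy hSz hy hz hE H hcan HM R l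
  refine ⟨b.eval z, eval_mem (PI_mono (le_cadj v _ z) h1.mem) (self_mem_cadj v _ z), ν, h1.cau,
    (h1.nul.add (Nul.of_ge (hxm l))).congr fun n => ?_⟩
  ring

end Pool.Agent.TWIV
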