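import Pool.Agent.Lib.TWIV.W2

/-!
# TANK W, tame case, row A2: the property `V'` of the tame base, end

* `extract`: the elements of `V F (Y + A Y) b` in terms of generators of `Y`;
* `World.nsd`: `NSD p (W.oper hΩ)`.
-/

set_option autoImplicit false
set_option linter.unusedSectionVars false

open Polynomial

namespace Pool.Agent.TWIV

open Pool.Agent.H15JM (RVal)
open Pool.Agent.LU1 (VPos adj)
open Pool.Agent.D2 (Ctx0)
open Pool.Agent.D2P (hen clI mem_clI)
open Pool.Agent.TWM Pool.Agent.TWC Pool.Agent.TWS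

universe u w

section Abs

variable {k : Type u} {V₀ : Type w} [Field k] [AddCommGroup V₀] [Module k V₀]
variable {σ : k →+* k} [RingHomSurjective σ] {F : V₀ →ₛₗ[σ] V₀} {O : Ops F}

/-- The elements `∑ l, (lam l • y l + ψ l (y l))`. -/
def lincom (O : Ops F) {ι : Type} [Fintype ι] (y : ι → V₀) : Submodule k V₀ where
  carrier := {z | ∃ (lam : ι → k) (ψ : ι → (V₀ →ₗ[k] V₀)), (∀ l, ψ l ∈ O.A) ∧
    z = ∑ l, (lam l • y l + ψ l (y l))}
  add_mem' := by
    rintro a b ⟨lam, ψ, h1, rfl⟩ ⟨lam', ψ', h2, rfl⟩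
    refine ⟨lam + lam', ψ + ψ', fun l => add_mem (h1 l) (h2 l), ?_⟩
    rw [← Finset.sum_add_distrib]
    refine Finset.sum_congr rfl fun l _ => ?_
    simp only [Pi.add_apply, add_smul, LinearMap.add_apply]
    abel
  zero_mem' := ⟨0, 0, fun _ => zero_mem _, by simp⟩
  smul_mem' := by
    rintro c a ⟨lam, ψ, h1, rfl⟩
    refine ⟨c • lam, c • ψ, fun l => Submodule.smul_mem _ c (h1 l), ?_⟩
    rw [Finset.smul_sum]
    refine Finset.sum_congr rfl fun l _ => ?_
    simp only [Pi.smul_apply, smul_eq_mul, LinearMap.smul_apply, smul_add, mul_smul]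

theorem le_lincom {ι : Type} [Fintype ι] (y : ι → V₀) :
    Submodule.span k (Set.range y) ⊔ act O (Submodule.span k (Set.range y)) ≤ lincom O y := by
  classical
  have h1 : ∀ l, ∀ φ ∈ O.A, φ (y l) ∈ lincom O y := fun l φ hφ =>
    ⟨0, fun l' => if l' = l then φ else 0, fun l' => by
      dsimp only
      split_ifs
      · exact hφ
      · exact zero_mem _, by
      rw [Finset.sum_eq_single l]
      · simp
      · intro b _ hb
        simp [hb]
      · intro h
        exact absurd (Finset.mem_univ l) h⟩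
  refine sup_le ?_ (act_le.2 ?_)
  · rw [Submodule.span_le]
    rintro _ ⟨l, rfl⟩
    refine ⟨fun l' => if l' = l then 1 else 0, 0, fun _ => zero_mem _, ?_⟩
    rw [Finset.sum_eq_single l]
    · simp
    · intro b _ hb
      simp [hb]
    · intro h
      exact absurd (Finset.mem_univ l) h
  · intro φ hφ x hx
    induction hx using Submodule.span_induction with
    | mem x hx =>
      obtain ⟨l, rfl⟩ := hx
      exact h1 l φ hφ
    | zero =>
      rw [map_zero]
      exact zero_mem _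
    | add x y _ _ h1 h2 =>
      rw [map_add]
      exact add_mem h1 h2
    | smul a x _ h1 =>
      rw [map_smul]
      exact Submodule.smul_mem _ a h1

/-- The elements of `V F (Y + A Y) b` in terms of generators of `Y`. -/
theorem extract {ι : Type} [Fintype ι] (y : ι → V₀) (b : ℕ) {x : V₀}
    (hx : x ∈ V F (Submodule.span k (Set.range y) ⊔
      act O (Submodule.span k (Set.range y))) b) :
    ∃ (lam : ℕ → ι → k) (ψ : ℕ → ι → (V₀ →ₗ[k] V₀)), (∀ a l, ψ a l ∈ O.A) ∧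
      x = ∑ a ∈ Finset.range b, F^[a] (∑ l, (lam a l • y l + ψ a l (y l))) := by
  induction b generalizing x with
  | zero =>
    rw [V_zero, Submodule.mem_bot] at hx
    exact ⟨0, 0, fun _ _ => zero_mem _, by rw [hx, Finset.sum_range_zero]⟩
  | succ b ih =>
    rw [V_succ] at hx
    obtain ⟨s, hs, _, ⟨x', hx', rfl⟩, rfl⟩ := Submodule.mem_sup.1 hx
    obtain ⟨lam, ψ, h1, h2⟩ := ih hx'
    obtain ⟨lam₀, ψ₀, h3, h4⟩ := le_lincom y hs
    refine ⟨fun a => Nat.casesOn a lam₀ lam, fun a => Nat.casesOn a ψ₀ ψ, fun a l => ?_, ?_⟩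
    · cases a with
      | zero => exact h3 l
      | succ a => exact h1 a l
    · rw [Finset.sum_range_succ', Function.iterate_zero_apply, add_comm s, h2, map_sum, h4]
      congr 1
      refine Finset.sum_congr rfl fun a _ => ?_
      rw [Function.iterate_succ_apply']

end Abs

variable {k Ω : Type u} [Field k] [Field Ω] [Algebra k Ω] {v : RVal Ω} [Fact (Ctx0 k v)]
  {N L A B : IntermediateField k Ω} {G : AddSubgroup ℝ} {M : ℝ → Ω} {p : ℕ}

section Seq

variable [Fact p.Prime] [CharP k p] [CharP Ω p] {E : IntermediateField k Ω}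

theorem frS_it (a : ℕ) (x : CauS v E) (n : ℕ) :
    (((MM.frS p v E)^[a] x : CauS v E) : ℕ → Ω) n = (x : ℕ → Ω) n ^ p ^ a := by
  induction a generalizing x with
  | zero => rw [pow_zero, pow_one]; rfl
  | succ a ih =>
    rw [Function.iterate_succ_apply, ih, pow_succ', pow_mul]
    rfl

theorem actS_apply (φ : Opr v E) (x : CauS v E) (n : ℕ) :
    ((MM.actS φ x : CauS v E) : ℕ → Ω) n = fn φ ((x : ℕ → Ω) n) := by
  rw [fn_of_mem φ (x.2.mem n)]
  rfl

/-- The relation of the classes as a relation of sequences. -/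
theorem rel_seq {ι : Type} [Fintype ι] {b : ℕ} (x : ι → CauS v E) (lam : ℕ → ι → k)
    (ψ : ℕ → ι → Opr v E) (l : ι)
    (h : (MM.fr p v E)^[b] (MM.mk v E (x l)) = ∑ a ∈ Finset.range b,
      (MM.fr p v E)^[a] (∑ l', (lam a l' • MM.mk v E (x l') +
        MM.act (ψ a l') (MM.mk v E (x l'))))) :
    ∃ e ∈ E, Nul v (fun i => (x l : ℕ → Ω) i ^ p ^ b - ∑ a ∈ Finset.range b,
      (∑ l', (lam a l' • (x l' : ℕ → Ω) i + fn (ψ a l') ((x l' : ℕ → Ω) i))) ^ p ^ a - e) := by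
  have e1 : ∀ a, (∑ l', (lam a l' • MM.mk v E (x l') + MM.act (ψ a l') (MM.mk v E (x l')))) =
      MM.mk v E (∑ l', (lam a l' • x l' + MM.actS (ψ a l') (x l'))) := fun a => by
    rw [map_sum]
    refine Finset.sum_congr rfl fun l' _ => ?_
    rw [map_add, map_smul, MM.act_mk]
  have e2 : MM.mk v E ((MM.frS p v E)^[b] (x l) - ∑ a ∈ Finset.range b,
      (MM.frS p v E)^[a] (∑ l', (lam a l' • x l' + MM.actS (ψ a l') (x l')))) = 0 := by
    rw [map_sub, ← it_mk, h, map_sum, sub_eq_zero]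
    refine Finset.sum_congr rfl fun a _ => ?_
    rw [e1, it_mk]
  rw [MM.mk_eq_zero] at e2
  obtain ⟨e, he, h1⟩ := e2
  refine ⟨e, he, h1.congr fun i => ?_⟩
  have e3 : ∀ a, (((MM.frS p v E)^[a] (∑ l', (lam a l' • x l' + MM.actS (ψ a l') (x l'))) :
      CauS v E) : ℕ → Ω) i =
      (∑ l', (lam a l' • (x l' : ℕ → Ω) i + fn (ψ a l') ((x l' : ℕ → Ω) i))) ^ p ^ a := fun a => by
    rw [frS_it]
    congr 1
    rw [AddSubmonoidClass.coe_finsetSum, Finset.sum_apply]
    refine Finset.sum_congr rfl fun l' _ => ?_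
    rw [← actS_apply]
    rfl
  have e4 : (((MM.frS p v E)^[b] (x l) - ∑ a ∈ Finset.range b,
      (MM.frS p v E)^[a] (∑ l', (lam a l' • x l' + MM.actS (ψ a l') (x l'))) : CauS v E) :
      ℕ → Ω) i = (x l : ℕ → Ω) i ^ p ^ b - ∑ a ∈ Finset.range b,
      (∑ l', (lam a l' • (x l' : ℕ → Ω) i + fn (ψ a l') ((x l' : ℕ → Ω) i))) ^ p ^ a := by
    rw [AddSubgroupClass.coe_sub, AddSubmonoidClass.coe_finsetSum, Pi.sub_apply, Finset.sum_apply,
      frS_it]
    congr 1
    exact Finset.sum_congr rfl fun a _ => e3 a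
  rw [e4]

end Seq

section Phi

variable [Fact p.Prime] [CharP k p] [CharP Ω p] [PerfectRing k p] [IsAlgClosed Ω]
  {ι : Type} [Fintype ι] {E : IntermediateField k Ω} {b : ℕ} {lam : ℕ → ι → ι → k}
  {ψ : ℕ → ι → ι → Opr v E}

theorem PhiW_pow (x : ι → Ω) (l : ι) : PhiW p b lam ψ x l ^ p ^ b = ∑ a ∈ Finset.range b,
    (∑ l', (lam a l l' • x l' + fn (ψ a l l') (x l'))) ^ p ^ a := by
  rw [PhiW, sum_pow_char_pow]
  refine Finset.sum_congr rfl fun a ha => ?_
  rw [sum_pow_char_pow, sum_pow_char_pow]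
  refine Finset.sum_congr rfl fun l' _ => ?_
  obtain ⟨d, hd⟩ := Nat.exists_eq_add_of_le (Finset.mem_range.1 ha).le
  have h1 : b - a = d := by omega
  rw [h1, hd, Nat.add_comm, pow_add, pow_mul, rtn_pow]

/-- A Cauchy family is bounded. -/
theorem exists_bd (x : ι → CauS v E) : ∃ (K : ℝ) (N : ℕ), 0 ≤ K ∧ ∀ l, ∀ n, N ≤ n →
    v.Ge (-K) ((x l : ℕ → Ω) n) := by
  have h1 : ∀ l, ∃ (K : ℝ) (N : ℕ), 0 ≤ K ∧ ∀ n, N ≤ n → v.Ge (-K) ((x l : ℕ → Ω) n) := fun l => by
    obtain ⟨N, hN⟩ := (x l).2.cau 1 one_pos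
    refine ⟨max 1 (-v ((x l : ℕ → Ω) N)), N, zero_le_one.trans (le_max_left _ _), fun n hn => ?_⟩
    have h1 : v.Ge (-max 1 (-v ((x l : ℕ → Ω) N))) ((x l : ℕ → Ω) n - (x l : ℕ → Ω) N) :=
      (hN n N hn le_rfl).mono (neg_le_neg (le_max_left _ _))
    have h2 : v.Ge (-max 1 (-v ((x l : ℕ → Ω) N))) ((x l : ℕ → Ω) N) := fun _ => by
      have := le_max_right (1 : ℝ) (-v ((x l : ℕ → Ω) N))
      linarith
    have h3 := h1.add h2
    rwa [sub_add_cancel] at h3
  choose K N hK h using h1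
  refine ⟨∑ l, K l, ∑ l, N l, Finset.sum_nonneg fun l _ => hK l, fun l n hn => ?_⟩
  refine (h l n ((Finset.single_le_sum (fun i _ => Nat.zero_le _) (Finset.mem_univ l)).trans
    hn)).mono ?_
  exact neg_le_neg (Finset.single_le_sum (fun i _ => hK i) (Finset.mem_univ l))

end Phi

namespace World

variable (W : World p v N L G M) (hΩ : CompleteV v)
variable [Fact p.Prime] [CharP k p] [CharP Ω p] [PerfectRing k p] [IsAlgClosed Ω]

/-- **The projections of the strictly dominated limits.** -/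
theorem pj_lim {ι : Type} [Fintype ι] {b : ℕ} {lam : ℕ → ι → ι → k}
    {ψ : ℕ → ι → ι → Opr v (PM v N G M)}
    (hψ : ∀ a l l', ψ a l l' ∈ W.TT hΩ N le_rfl W.NL W.cldN) (x : ι → CauS v (PM v N G M))
    {e : ι → Ω} (he : ∀ l, e l ∈ PM v N G M)
    (h : ∀ l, Nul v (fun i => (x l : ℕ → Ω) i ^ p ^ b - ∑ a ∈ Finset.range b,
      (∑ l', (lam a l l' • (x l' : ℕ → Ω) i + fn (ψ a l l') ((x l' : ℕ → Ω) i))) ^ p ^ a - e l))
    (j : ℕ) (l : ι) :
    ∃ a ∈ PM v N G M, Nul v (fun i => W.pj hΩ j ((x l : ℕ → Ω) i) - a) := by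
  classical
  have hp1 : (1 : ℝ) < p := by exact_mod_cast (Fact.out : p.Prime).one_lt
  have hE := W.perfE
  have hTm : ∀ {x : Ω}, x ∈ PM v N G M → x ∈ PM v L G M := fun h => PM.mono W.NL h
  have hP := (W.isPj hΩ j).prj
  -- the roots
  set X : ℕ → ι → Ω := fun i l => (x l : ℕ → Ω) i with hX
  have hXm : ∀ i l, X i l ∈ PM v N G M := fun i l => (x l).2.mem i
  set e' : ι → Ω := fun l => rtn p b (e l) with he'
  have he'm : ∀ l, e' l ∈ PM v N G M := fun l => rtn_mem p hE b (he l)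
  set η : ℕ → ι → Ω := fun i l => X i l - PhiW p b lam ψ (X i) l - e' l with hη
  have hηm : ∀ i l, η i l ∈ PM v N G M := fun i l =>
    sub_mem (sub_mem (hXm i l) (PhiW_mem p hE (hXm i) l)) (he'm l)
  have hrel : ∀ i, X i = PhiW p b lam ψ (X i) + (e' + η i) := fun i => by
    funext l
    simp only [Pi.add_apply, hη]
    ring
  have hηn : ∀ l, Nul v (fun i => η i l) := fun l => by
    refine Nul.of_pow (q := p ^ b) (pow_ne_zero _ (Fact.out : p.Prime).ne_zero) ?_
    refine (h l).congr fun i => ?_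
    simp only [hη]
    rw [sub_pow_char_pow, sub_pow_char_pow, PhiW_pow, he', rtn_pow]
  -- the words of `e'`
  obtain ⟨m₀, hm₀⟩ := W.fin_word hΩ (b := b) (lam := lam) hψ j he'm
  refine ⟨∑ m ∈ Finset.range m₀, W.pj hΩ j ((PhiW p b lam ψ)^[m] e' l), sum_mem fun m _ =>
    W.pj_mem hΩ le_rfl W.NL W.cldN j (PhiW_it_mem p hE he'm m l), fun ε hε => ?_⟩
  obtain ⟨K, N₁, hK, hN₁⟩ := exists_bd x
  obtain ⟨d, hd⟩ := pow_unbounded_of_one_lt (K / ε) hp1
  choose N₂ hN₂ using fun l => hηn l ε hε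
  refine ⟨max N₁ (∑ l, N₂ l), fun i hi => ?_⟩
  have hX1 : ∀ l, v.Ge (-K) (X i l) := fun l => hN₁ l i ((le_max_left _ _).trans hi)
  have hη1 : ∀ l, v.Ge (-ε) (η i l) := fun l => hN₂ l i
    ((Finset.single_le_sum (f := N₂) (fun _ _ => Nat.zero_le _) (Finset.mem_univ l)).trans
      ((le_max_right _ _).trans hi))
  have hpd : ∀ m : ℕ, (1 : ℝ) ≤ (p : ℝ) ^ m := fun m => one_le_pow₀ hp1.le
  -- the iteration
  have h1 := congrFun (PhiW_iter p hE (hXm i) he'm (hηm i) (hrel i) (m₀ + d)) l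
  rw [Pi.add_apply, Pi.add_apply, Finset.sum_apply, Finset.sum_apply, Finset.sum_range_add] at h1
  have hm1 : ∀ m, (PhiW p b lam ψ)^[m] e' l ∈ PM v L G M := fun m =>
    hTm (PhiW_it_mem p hE he'm m l)
  have hm2 : ∀ m, (PhiW p b lam ψ)^[m] (η i) l ∈ PM v L G M := fun m =>
    hTm (PhiW_it_mem p hE (hηm i) m l)
  have hm3 : (PhiW p b lam ψ)^[m₀ + d] (X i) l ∈ PM v L G M :=
    hTm (PhiW_it_mem p hE (hXm i) _ l)
  have h2 : W.pj hΩ j (X i l) - ∑ m ∈ Finset.range m₀, W.pj hΩ j ((PhiW p b lam ψ)^[m] e' l) =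
      W.pj hΩ j ((PhiW p b lam ψ)^[m₀ + d] (X i) l) +
      (∑ m ∈ Finset.range d, W.pj hΩ j ((PhiW p b lam ψ)^[m₀ + m] e' l) +
        W.pj hΩ j (∑ m ∈ Finset.range (m₀ + d), (PhiW p b lam ψ)^[m] (η i) l)) := by
    conv_lhs => rw [h1]
    rw [hP.add _ hm3 _ (add_mem (add_mem (sum_mem fun m _ => hm1 m) (sum_mem fun m _ => hm1 _))
      (sum_mem fun m _ => hm2 m)), hP.add _ (add_mem (sum_mem fun m _ => hm1 m)
      (sum_mem fun m _ => hm1 _)) _ (sum_mem fun m _ => hm2 m), hP.add _ (sum_mem fun m _ => hm1 m)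
      _ (sum_mem fun m _ => hm1 _), hP.sum _ fun m _ => hm1 m, hP.sum _ fun m _ => hm1 _]
    ring
  change v.Ge (-ε) (W.pj hΩ j (X i l) - ∑ m ∈ Finset.range m₀,
    W.pj hΩ j ((PhiW p b lam ψ)^[m] e' l))
  rw [h2]
  refine RVal.Ge.add ?_ (RVal.Ge.add ?_ ?_)
  · refine hP.ge _ hm3 _ ((PhiW_it_ge p hE (hXm i) hK hX1 (m₀ + d) l).mono ?_)
    rw [neg_le_neg_iff, div_le_iff₀ (by linarith [hpd (m₀ + d)])]
    rw [div_lt_iff₀ hε] at hd
    have h3 : (p : ℝ) ^ d ≤ (p : ℝ) ^ (m₀ + d) := pow_le_pow_right₀ hp1.le (by omega)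
    nlinarith
  · exact RVal.Ge.sum _ _ fun m _ => (hm₀ (m₀ + m) (by omega) l).mono (by linarith)
  · refine hP.ge _ (sum_mem fun m _ => hm2 m) _ (RVal.Ge.sum _ _ fun m _ => ?_)
    refine (PhiW_it_ge p hE (hηm i) hε.le hη1 m l).mono ?_
    rw [neg_le_neg_iff]
    exact div_le_self hε.le (hpd m)

/-- **The property `V'` of the tame base.** -/
theorem nsd : NSD p (W.oper hΩ) := by
  classical
  intro Y hY b hb h
  obtain ⟨s, hs⟩ := hY
  set ι : Type := Fin s.card with hι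
  let y : ι → MM v (PM v N G M) := fun i => (s.equivFin.symm i : MM v (PM v N G M))
  have hy : Submodule.span k (Set.range y) = Y := by
    rw [← hs]
    congr 1
    ext z
    constructor
    · rintro ⟨i, rfl⟩
      exact (s.equivFin.symm i).2
    · intro hz
      exact ⟨s.equivFin ⟨z, hz⟩, by simp [y]⟩
  have hyY : ∀ i, y i ∈ Y := fun i => hy ▸ Submodule.subset_span ⟨i, rfl⟩
  choose x hx using fun i => MM.ind (y i)
  rw [← hy] at h
  choose lam Ψ hΨ hr using fun i => extract y b (h (y i) (by rw [hy]; exact hyY i))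
  choose ψ hψ hψΨ using hΨ
  have h1 : ∀ l, ∃ e ∈ PM v N G M, Nul v (fun i => (x l : ℕ → Ω) i ^ p ^ b -
      ∑ a ∈ Finset.range b, (∑ l', (lam l a l' • (x l' : ℕ → Ω) i +
        fn (ψ l a l') ((x l' : ℕ → Ω) i))) ^ p ^ a - e) := fun l => by
    refine rel_seq x (lam l) (ψ l) l ?_
    rw [hx, hr l]
    refine Finset.sum_congr rfl fun a _ => ?_
    congr 1
    refine Finset.sum_congr rfl fun l' _ => ?_
    rw [hx, ← hψΨ]
    rfl
  choose e he h2 using h1
  have h3 : ∀ j l, ∃ a ∈ PM v N G M, Nul v (fun i => W.pj hΩ j ((x l : ℕ → Ω) i) - a) :=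
    fun j l => W.pj_lim hΩ (lam := fun a l l' => lam l a l') (ψ := fun a l l' => ψ l a l')
      (fun a l l' => hψ l a l') x he h2 j l
  -- the operators act by scalars
  have h4 : ∀ φ ∈ W.TT hΩ N le_rfl W.NL W.cldN, ∃ c : k, ∀ l, MM.act φ (y l) = c • y l := by
    intro φ hφ
    induction hφ using Submodule.span_induction with
    | mem φ h =>
      obtain ⟨j, rfl⟩ := h
      refine ⟨1, fun l => ?_⟩
      rw [one_smul, ← hx l, MM.act_mk, ← sub_eq_zero, ← map_sub, MM.mk_eq_zero]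
      obtain ⟨a, ha, h⟩ := h3 j l
      refine ⟨-a, neg_mem ha, h.neg.congr fun i => ?_⟩
      rw [AddSubgroupClass.coe_sub, Pi.sub_apply, actS_apply, W.fn_qj hΩ j ((x l).2.mem i)]
      ring
    | zero =>
      refine ⟨0, fun l => ?_⟩
      have := MM.act_smul (0 : k) (0 : Opr v (PM v N G M)) (y l)
      rw [zero_smul, zero_smul] at this
      rw [this, zero_smul]
    | add φ φ' _ _ h1 h2 =>
      obtain ⟨c, hc⟩ := h1
      obtain ⟨d, hd⟩ := h2
      refine ⟨c + d, fun l => ?_⟩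
      rw [MM.act_add, hc, hd, add_smul]
    | smul a φ _ h1 =>
      obtain ⟨c, hc⟩ := h1
      refine ⟨a * c, fun l => ?_⟩
      rw [MM.act_smul, hc, mul_smul]
  have h5 : act ((W.oper hΩ).ops p) Y ≤ Y := by
    rw [act_le]
    rintro _ ⟨φ, hφ, rfl⟩ z hz
    obtain ⟨c, hc⟩ := h4 φ hφ
    rw [← hy] at hz ⊢
    induction hz using Submodule.span_induction with
    | mem z hz =>
      obtain ⟨l, rfl⟩ := hz
      have : (MM.actHom v (PM v N G M)).toLinearMap φ (y l) = c • y l := hc l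
      rw [this]
      exact Submodule.smul_mem _ c (Submodule.subset_span ⟨l, rfl⟩)
    | zero =>
      rw [map_zero]
      exact zero_mem _
    | add z z' _ _ h1 h2 =>
      rw [map_add]
      exact add_mem h1 h2
    | smul a z _ h1 =>
      rw [map_smul]
      exact Submodule.smul_mem _ a h1
  refine le_Sat_bot ⟨s, hs⟩ (b := b) fun z hz => ?_
  rw [← hy] at hz
  have h6 := h z hz
  rw [hy] at h6
  exact V_mono_left (sup_le le_rfl h5) b h6

end World

end Pool.Agent.TWIV
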