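import Pool.Agent.Lib.TWIV.GpH
import Pool.Agent.Lib.TWIV.OpA
import Pool.Agent.Lib.TWIV.Forb

/-!
# TANK W: words, universal form

`E` perfect, `w` of transcendental type over `E`, `𝒜` operators of norm `≤ 0`.

* `WSys p v E w 𝒜 n S`: a system of words of depth `n`: `S n ≤ … ≤ S 0`, `E[w] ≤ S n`, the roots
  of the elements of `S (m + 1)` are in `S m`, lifts of the operators of `𝒜` act on the `S m`;
* `RRw`: the elements which are, for some `N`, near to `S (n - N)` for every system of depth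
  `n ≥ N`; it is a subspace, closed under the Frobenius and the roots, contains `E[w]`; `RRw.op`:
  it is closed under `𝒜` on the convergent sequences of `E<w>`;
* `RRw.rad`: the limits of `E<w>` which are near to `RRw`.
-/

set_option autoImplicit false
set_option linter.unusedSectionVars false

open Polynomial

namespace Pool.Agent.TWIV

open Pool.Agent.H15JM (RVal)
open Pool.Agent.D2 (Ctx0)
open Pool.Agent.TWM Pool.Agent.TWC
open Pool.Agent.TWS (SphC)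

universe u

variable {k Ω : Type u} [Field k] [Field Ω] [Algebra k Ω] {v : RVal Ω} {p : ℕ} [hp : Fact p.Prime]
  [CharP Ω p] [hk : Fact (Ctx0 k v)] {E : IntermediateField k Ω} {w : Ω}
  {𝒜 : Submodule k (Module.End k Ω)}

/-- A system of words of depth `n`. -/
structure WSys (p : ℕ) (v : RVal Ω) (E : IntermediateField k Ω) (w : Ω)
    (𝒜 : Submodule k (Module.End k Ω)) (n : ℕ) (S : ℕ → Submodule k Ω) : Prop where
  anti : ∀ m, S (m + 1) ≤ S m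
  poly : ∀ f ∈ PI E, f.eval w ∈ S n
  rt : ∀ m < n, ∀ x ∈ S (m + 1), ∃ y ∈ S m, y ^ p = x
  fr : ∀ m, ∀ x ∈ S m, x ^ p ∈ S m
  op : ∀ φ ∈ 𝒜, ∀ m ≤ n, ∀ r ∈ S m, ∃ r' ∈ S m, ∀ f ∈ PI E, ∀ b : ℝ,
    v.Ge b (f.eval w - r) → v.Ge b (φ (f.eval w) - r')
  rad : ∀ r ∈ S 0, Lim v (cadj v E w) 0 r → ∃ b ∈ cadj v E w, ∃ a, Lim v E 0 a ∧
    v.Ge 0 (r - b - a)

omit hp [CharP Ω p] hk in
theorem WSys.anti' {n : ℕ} {S : ℕ → Submodule k Ω} (h : WSys p v E w 𝒜 n S) {m m' : ℕ}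
    (hm : m ≤ m') : S m' ≤ S m := by
  induction m', hm using Nat.le_induction with
  | base => exact le_rfl
  | succ l _ ih => exact (h.anti l).trans ih

/-- The words. -/
def RRw (p : ℕ) [Fact p.Prime] [CharP Ω p] (v : RVal Ω) [hk : Fact (Ctx0 k v)]
    (E : IntermediateField k Ω) (w : Ω) (𝒜 : Submodule k (Module.End k Ω)) : Submodule k Ω where
  carrier := {x | ∃ N, ∀ n, N ≤ n → ∀ S, WSys p v E w 𝒜 n S → ∃ r ∈ S (n - N), v.Ge 0 (x - r)}
  add_mem' := by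
    rintro x y ⟨N, hN⟩ ⟨M, hM⟩
    refine ⟨max N M, fun n hn S hS => ?_⟩
    obtain ⟨r, hr, h1⟩ := hN n ((le_max_left _ _).trans hn) S hS
    obtain ⟨r', hr', h2⟩ := hM n ((le_max_right _ _).trans hn) S hS
    refine ⟨r + r', add_mem (hS.anti' (Nat.sub_le_sub_left (le_max_left _ _) n) hr)
      (hS.anti' (Nat.sub_le_sub_left (le_max_right _ _) n) hr'), ?_⟩
    rw [add_sub_add_comm]
    exact h1.add h2
  zero_mem' := ⟨0, fun n _ S _ => ⟨0, zero_mem _, by rw [sub_zero]; exact RVal.Ge.zero⟩⟩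
  smul_mem' := by
    rintro a x ⟨N, hN⟩
    refine ⟨N, fun n hn S hS => ?_⟩
    obtain ⟨r, hr, h1⟩ := hN n hn S hS
    refine ⟨a • r, (S _).smul_mem a hr, ?_⟩
    rw [← smul_sub, Algebra.smul_def]
    have := (hk.out.ge a).mul h1
    rwa [zero_add] at this

namespace RRw

theorem poly {f : Polynomial Ω} (hf : f ∈ PI E) : f.eval w ∈ RRw p v E w 𝒜 :=
  ⟨0, fun n _ S hS => ⟨_, by rw [Nat.sub_zero]; exact hS.poly f hf, by
    rw [sub_self]
    exact RVal.Ge.zero⟩⟩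

theorem of_ge {x y : Ω} (hx : x ∈ RRw p v E w 𝒜) (h : v.Ge 0 (y - x)) : y ∈ RRw p v E w 𝒜 := by
  obtain ⟨N, hN⟩ := hx
  refine ⟨N, fun n hn S hS => ?_⟩
  obtain ⟨r, hr, h1⟩ := hN n hn S hS
  refine ⟨r, hr, ?_⟩
  have := h.add h1
  rwa [sub_add_sub_cancel] at this

theorem fr {x : Ω} (hx : x ∈ RRw p v E w 𝒜) : x ^ p ∈ RRw p v E w 𝒜 := by
  obtain ⟨N, hN⟩ := hx
  refine ⟨N, fun n hn S hS => ?_⟩
  obtain ⟨r, hr, h1⟩ := hN n hn S hS
  refine ⟨r ^ p, hS.fr _ r hr, ?_⟩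
  rw [← sub_pow_char]
  have := ge_pow h1 p
  rwa [mul_zero] at this

theorem rt {x y : Ω} (hx : x ∈ RRw p v E w 𝒜) (hy : y ^ p = x) : y ∈ RRw p v E w 𝒜 := by
  obtain ⟨N, hN⟩ := hx
  refine ⟨N + 1, fun n hn S hS => ?_⟩
  obtain ⟨r, hr, h1⟩ := hN n (by omega) S hS
  obtain ⟨r', hr', rfl⟩ := hS.rt (n - (N + 1)) (by omega) r (by
    rwa [show n - (N + 1) + 1 = n - N by omega])
  refine ⟨r', hr', ?_⟩
  rw [← hy, ← sub_pow_char] at h1
  intro h0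
  have h2 := h1 (pow_ne_zero p h0)
  rw [v.map_pow h0] at h2
  have hp0 : (0 : ℝ) < p := by exact_mod_cast hp.out.pos
  by_contra h3
  rw [not_le] at h3
  nlinarith

/-- The operators on the convergent sequences. -/
theorem op [IsAlgClosed Ω] (hS : SphC v) (hw : TL v E w 0) (hA : OpA v 𝒜)
    {φ : Module.End k Ω} (hφ : φ ∈ 𝒜) {x : ℕ → Ω}
    (hx : ∀ t, x t ∈ cadj v E w) (h : NR v (RRw p v E w 𝒜) x) :
    NR v (RRw p v E w 𝒜) fun t => φ (x t) := by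
  obtain ⟨r, hr, hn⟩ := h
  -- the limit
  obtain ⟨l, hl⟩ := exists_lim0 (v := v) hS (x := fun t => φ (x t)) fun ε hε => by
    obtain ⟨N, hN⟩ := hn ε hε
    refine ⟨N, fun m n hm hn' => ?_⟩
    rw [← map_sub]
    refine hA.ge φ hφ _ _ ?_
    have := (hN m hm).sub (hN n hn')
    rwa [sub_sub_sub_cancel_right] at this
  refine ⟨l, ?_, hl.neg.congr fun n => neg_sub _ _⟩
  obtain ⟨N, hN⟩ := hr
  refine ⟨N, fun n hNn S hSS => ?_⟩
  obtain ⟨r₁, hr₁, h1⟩ := hN n hNn S hSS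
  obtain ⟨r', hr', h2⟩ := hSS.op φ hφ (n - N) (Nat.sub_le _ _) r₁ hr₁
  refine ⟨r', hr', ?_⟩
  refine Nul.const (a := l - r') fun ε hε => ?_
  obtain ⟨N₁, hN₁⟩ := hn ε hε
  obtain ⟨N₂, hN₂⟩ := hl ε hε
  refine ⟨max N₁ N₂, fun t ht => ?_⟩
  obtain ⟨f, hf, h3⟩ := hw.dense (hx t) 0
  have h3' : v.Ge (-ε) (x t - f.eval w) := h3.mono (by linarith)
  have h4 : v.Ge (-ε) (f.eval w - r₁) := by
    have h5 := ((hN₁ t ((le_max_left _ _).trans ht)).sub h3').add (h1.mono (by linarith))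
    refine Eq.mp (congrArg (fun y => v.Ge (-ε) y) ?_) h5
    ring
  have h5 := h2 f hf (-ε) h4
  have h6 : v.Ge (-ε) (φ (x t) - φ (f.eval w)) := by
    rw [← map_sub]
    exact hA.ge φ hφ _ _ h3'
  have h7 := ((hN₂ t ((le_max_right _ _).trans ht)).add h6).add h5
  refine Eq.mp (congrArg (fun y => v.Ge (-ε) y) ?_) h7
  ring

/-- The limits of `E<w>` near to `RRw`. -/
theorem rad (hs : ∀ n, ∃ S, WSys p v E w 𝒜 n S) {r : Ω} (hr : r ∈ RRw p v E w 𝒜)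
    (hl : Lim v (cadj v E w) 0 r) :
    ∃ b ∈ cadj v E w, ∃ a, Lim v E 0 a ∧ v.Ge 0 (r - b - a) := by
  obtain ⟨N, hN⟩ := hr
  obtain ⟨S, hS⟩ := hs N
  obtain ⟨r', hr', h1⟩ := hN N le_rfl S hS
  rw [Nat.sub_self] at hr'
  have h2 : Lim v (cadj v E w) 0 r' := by
    intro ε hε
    obtain ⟨a, ha, h3⟩ := hl ε hε
    refine ⟨a, ha, ?_⟩
    have h4 := h3.sub (h1.mono (show 0 - ε ≤ 0 by linarith))
    refine Eq.mp (congrArg (fun y => v.Ge (0 - ε) y) ?_) h4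
    ring
  obtain ⟨b, hb, a, ha, h3⟩ := hS.rad r' hr' h2
  refine ⟨b, hb, a, ha, ?_⟩
  have h4 := h1.add h3
  refine Eq.mp (congrArg (fun y => v.Ge 0 y) ?_) h4
  ring

/-- The record `RRp` for the trivial grading. -/
theorem rrp [IsAlgClosed Ω] {A : Type*} [AddCommGroup A] {pr : A → Ω →ₗ[k] Ω}
    (hpr : ∀ c x, pr c x = x) : RRp p E w pr (RRw p v E w 𝒜) where
  poly _ hf := poly hf
  pr c x hx := by
    rw [hpr]
    exact hx
  rt x hx := by
    obtain ⟨y, hy⟩ := IsAlgClosed.exists_pow_nat_eq x hp.out.pos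
    exact ⟨y, rt hx hy, hy⟩
  fr x hx := fr hx

end RRw

end Pool.Agent.TWIV
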